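import Pool.Agent.Lib_MP_820dd4_hk.BasE

open MeasureTheory ProbabilityTheory Filter Topology
open scoped ComplexConjugate ENNReal

namespace Pool.Agent.HK820

/-- **KER1a.** The measure is the average of its conditional measures.

Proof. `Measure.bind` of `condExpKernel μ m` along `μ.trim hm` is `μ` (Mathlib has
`condExpKernel_comp_trim`, `Measure.bind` / `compProd` versions); on a measurable set `s`:
`(μ.bind κ) s = ∫⁻ x, κ x s ∂μ` and `κ x s = μ⟦s|m⟧ x` almost surely, whose integral is `μ s`. -/
theorem bind_condExpKernel {X : Type} (m : MeasurableSpace X) [mX : MeasurableSpace X]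
    [StandardBorelSpace X] (μ : Measure X) [IsProbabilityMeasure μ] (hm : m ≤ mX) :
    μ.bind (fun x => condExpKernel μ m x) = μ := by
  have hk : Measurable[m] (fun x => condExpKernel μ m x) := (condExpKernel μ m).measurable
  have hk' : Measurable (fun x => condExpKernel μ m x) := hk.mono hm le_rfl
  ext s hs
  have h1 : (condExpKernel μ m ∘ₘ μ.trim hm) s = μ s := by rw [condExpKernel_comp_trim hm]
  rw [@Measure.bind_apply X X m mX (μ.trim hm) _ s hs
    ((condExpKernel μ m).measurable.aemeasurable),
    lintegral_trim hm (measurable_condExpKernel hs)] at h1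
  rw [Measure.bind_apply hs hk'.aemeasurable]
  exact h1

/-- **KER1b.** An almost sure property holds almost surely for almost all conditional measures
(from KER1a, `Measure.ae_bind` / `Measure.ae_ae_of_ae_bind`, with a measurable null superset). -/
theorem ae_ae_condExpKernel {X : Type} (m : MeasurableSpace X) [mX : MeasurableSpace X]
    [StandardBorelSpace X] (μ : Measure X) [IsProbabilityMeasure μ] (hm : m ≤ mX)
    {P : X → Prop} (h : ∀ᵐ x ∂μ, P x) : ∀ᵐ x ∂μ, ∀ᵐ y ∂(condExpKernel μ m x), P y := by
  have hk : Measurable[m] (fun x => condExpKernel μ m x) := (condExpKernel μ m).measurable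
  have hk' : Measurable (fun x => condExpKernel μ m x) := hk.mono hm le_rfl
  have h1 : ∀ᵐ x ∂(μ.bind (fun x => condExpKernel μ m x)), P x := by
    rw [bind_condExpKernel m μ hm]
    exact h
  exact Measure.ae_ae_of_ae_bind hk'.aemeasurable h1

/-- **KER1c.** `m`-measurable functions are constant on the fibres.

Proof. First bounded `g`: `∫ ‖g y - g x‖ ^ 2 ∂κ x = E[‖g‖²|m](x) - 2 Re (conj (g x) * E[g|m](x)) +
‖g x‖ ^ 2 = 0` for almost every `x` by `condExp_ae_eq_integral_condExpKernel` and
`condExp_of_stronglyMeasurable`. General `g`: apply the bounded case to `g / (1 + ‖g‖)` which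
determines `g`, or to a bounded injective measurable transform. -/
theorem ae_eq_condExpKernel {X : Type} (m : MeasurableSpace X) [mX : MeasurableSpace X]
    [StandardBorelSpace X] (μ : Measure X) [IsProbabilityMeasure μ] (hm : m ≤ mX)
    {g : X → ℂ} (hg : Measurable[m] g) :
    ∀ᵐ x ∂μ, ∀ᵐ y ∂(condExpKernel μ m x), g y = g x := by
  have e1 : @Measurable (X × X) ℂ (m.prod mX) _ (fun p => g p.1) :=
    hg.comp (@measurable_fst X X m mX)
  have e2 : @Measurable (X × X) ℂ (m.prod mX) _ (fun p => g p.2) :=
    (hg.mono hm le_rfl).comp (@measurable_snd X X m mX)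
  have h1 : @MeasurableSet (X × X) (m.prod mX) {p | g p.2 = g p.1} :=
    @measurableSet_eq_fun (X × X) ℂ (m.prod mX) _ _ _ _ e2 e1
  have hd : @Measurable X (X × X) mX (m.prod mX) Function.diag :=
    @Measurable.prodMk X mX X X m mX _ _ (measurable_id'' hm) measurable_id
  have h2 : ∀ᵐ p ∂((μ.trim hm) ⊗ₘ condExpKernel μ m), g p.2 = g p.1 := by
    rw [compProd_trim_condExpKernel hm]
    refine (@ae_map_iff X (X × X) mX (m.prod mX) μ Function.diag
      (@Measurable.aemeasurable X (X × X) mX (m.prod mX) _ μ hd) _ h1).2 ?_
    exact Eventually.of_forall fun x => rfl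
  exact ae_of_ae_trim hm (Measure.ae_ae_of_ae_compProd h2)

/-- **KER1d.** The conditional measures are constant along themselves.

Proof. The σ-algebra of `X` is generated by a countable π-system `(A n)` (`StandardBorelSpace` is
countably generated: `MeasurableSpace.CountablyGenerated`, `generatePiSystem` of a countable
generating set is countable). For every `n` the function `x ↦ (κ x (A n)).toReal` is
`Measurable[m]`, so by KER1c it is constant `κ x`-almost surely for almost every `x`; two
probability measures which agree on a generating π-system are equal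
(`ext_of_generate_finite`). -/
theorem condExpKernel_self {X : Type} (m : MeasurableSpace X) [mX : MeasurableSpace X]
    [StandardBorelSpace X] (μ : Measure X) [IsProbabilityMeasure μ] (hm : m ≤ mX) :
    ∀ᵐ x ∂μ, ∀ᵐ y ∂(condExpKernel μ m x), condExpKernel μ m y = condExpKernel μ m x := by
  set C : Set (Set X) := generateSetAlgebra (MeasurableSpace.countableGeneratingSet X) with hC
  have hCc : C.Countable :=
    countable_generateSetAlgebra (MeasurableSpace.countable_countableGeneratingSet)
  have hgen : mX = MeasurableSpace.generateFrom C := by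
    rw [hC, generateFrom_generateSetAlgebra_eq]
    exact MeasurableSpace.generateFrom_countableGeneratingSet.symm
  have hpi : IsPiSystem C := fun s hs t ht _ =>
    isSetAlgebra_generateSetAlgebra.inter_mem hs ht
  have hmeas : ∀ A ∈ C, MeasurableSet A := by
    intro A hA
    rw [hgen]
    exact MeasurableSpace.measurableSet_generateFrom hA
  have h1 : ∀ A ∈ C, ∀ᵐ x ∂μ, ∀ᵐ y ∂(condExpKernel μ m x),
      condExpKernel μ m y A = condExpKernel μ m x A := by
    intro A hA
    have hg : Measurable[m] fun x => (((condExpKernel μ m x A).toReal : ℝ) : ℂ) :=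
      Complex.measurable_ofReal.comp
        (ENNReal.measurable_toReal.comp (measurable_condExpKernel (hmeas A hA)))
    filter_upwards [ae_eq_condExpKernel m μ hm hg] with x hx
    filter_upwards [hx] with y hy
    have h2 : (condExpKernel μ m y A).toReal = (condExpKernel μ m x A).toReal := by
      exact_mod_cast hy
    exact (ENNReal.toReal_eq_toReal_iff' (measure_ne_top _ _) (measure_ne_top _ _)).1 h2
  have h2 : ∀ᵐ x ∂μ, ∀ A ∈ C, ∀ᵐ y ∂(condExpKernel μ m x),
      condExpKernel μ m y A = condExpKernel μ m x A := (ae_ball_iff hCc).2 h1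
  filter_upwards [h2] with x hx
  have h3 : ∀ᵐ y ∂(condExpKernel μ m x), ∀ A ∈ C,
      condExpKernel μ m y A = condExpKernel μ m x A := (ae_ball_iff hCc).2 hx
  filter_upwards [h3] with y hy
  exact ext_of_generate_finite C hgen hpi hy (by rw [measure_univ, measure_univ])

end Pool.Agent.HK820
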