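import Pool.Agent.Lib_MP_820dd4_hk.BasE
import Pool.Agent.Lib_MP_820dd4_hk.Ker1

/-! ### Part `Avg0` -/

section

open MeasureTheory ProbabilityTheory Filter Topology
open scoped ComplexConjugate ENNReal

namespace Pool.Agent.HK820

/-- the real valued measurable case -/
private theorem avg0_real {X : Type} [MeasurableSpace X] (μ : Measure X)
    (T : X → X) (hT : MeasurePreserving T μ μ) {r : X → ℝ} (hr : Measurable r)
    (h : (fun x => r (T x)) =ᵐ[μ] r) : ∃ r' : X → ℝ, Measurable[Inv T] r' ∧ r =ᵐ[μ] r' := by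
  have hTn : ∀ n : ℕ, MeasurePreserving (T^[n]) μ μ := fun n => hT.iterate n
  refine ⟨fun x => (limsup (fun n : ℕ => ((r (T^[n] x) : ℝ) : EReal)) atTop).toReal, ?_, ?_⟩
  · rw [MeasurableSpace.measurable_invariants_dom]
    refine ⟨?_, fun s _ => ?_⟩
    · have h1 : Measurable fun x : X => limsup (fun n : ℕ => ((r (T^[n] x) : ℝ) : EReal)) atTop :=
        Measurable.limsup fun n => (hr.comp (hTn n).measurable).coe_real_ereal
      exact h1.ereal_toReal
    · have h1 : ∀ x, limsup (fun n : ℕ => ((r (T^[n] (T x)) : ℝ) : EReal)) atTop =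
          limsup (fun n : ℕ => ((r (T^[n] x) : ℝ) : EReal)) atTop := by
        intro x
        have h2 := Filter.limsup_nat_add (fun n : ℕ => ((r (T^[n] x) : ℝ) : EReal)) 1
        rw [← h2]
        rfl
      ext x
      simp only [Set.mem_preimage, Function.comp_apply, h1]
  · have h1 : ∀ n : ℕ, ∀ᵐ x ∂μ, r (T^[n + 1] x) = r (T^[n] x) := by
      intro n
      have h2 := (hTn n).quasiMeasurePreserving.ae h
      filter_upwards [h2] with x hx
      rw [Function.iterate_succ_apply']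
      exact hx
    have h3 : ∀ᵐ x ∂μ, ∀ n : ℕ, r (T^[n + 1] x) = r (T^[n] x) := ae_all_iff.2 h1
    filter_upwards [h3] with x hx
    have h4 : ∀ n : ℕ, r (T^[n] x) = r x := by
      intro n
      induction n with
      | zero => rfl
      | succ n ih => rw [hx n, ih]
    simp only [h4]
    rw [limsup_const, EReal.toReal_coe]

/-- **AVG0.** An almost everywhere invariant function agrees almost everywhere with a function
measurable for the σ-algebra of strictly invariant sets.

Proof. It is enough to treat a real valued function (real and imaginary part separately; combine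
the two `Inv T`-measurable versions). For real `g` with `g ∘ T =ᵐ g` put
`g' x = limsup (fun n => g (T^[n] x)) atTop` in `EReal` (always defined; `g' (T x) = g' x` for EVERY
`x` because the limsup does not see the first term, so `g'` is `Measurable[Inv T]` by
`MeasurableSpace.measurable_invariants_dom`), and for almost every `x` all `g (T^[n] x)` are equal
to `g x` (countable intersection, quasi measure preserving iterates), so `g' x = g x`. Then take
`EReal.toReal ∘ g'`. Alternatively use `QuasiMeasurePreserving.exists_preimage_eq_of_preimage_ae`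
for the countably many sets `{x | g x < q}`, `q` rational. -/
theorem aem_inv_of_comp {X : Type} [MeasurableSpace X] (μ : Measure X) [IsProbabilityMeasure μ]
    (T : X → X) (hT : MeasurePreserving T μ μ) {g : X → ℂ} (hg : AEStronglyMeasurable g μ)
    (h : (fun x => g (T x)) =ᵐ[μ] g) : AEM (Inv T) μ g := by
  obtain ⟨g₀, hg₀, hgg⟩ := hg
  have hm : Measurable g₀ := hg₀.measurable
  have h0 : (fun x => g₀ (T x)) =ᵐ[μ] g₀ := by
    have h1 : (fun x => g (T x)) =ᵐ[μ] fun x => g₀ (T x) := hT.quasiMeasurePreserving.ae hgg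
    exact (h1.symm.trans h).trans hgg
  obtain ⟨a, ha, ha'⟩ := avg0_real μ T hT (Complex.measurable_re.comp hm) (by
    filter_upwards [h0] with x hx
    exact congrArg Complex.re hx)
  obtain ⟨b, hb, hb'⟩ := avg0_real μ T hT (Complex.measurable_im.comp hm) (by
    filter_upwards [h0] with x hx
    exact congrArg Complex.im hx)
  refine ⟨fun x => (a x : ℂ) + (b x : ℂ) * Complex.I, ?_, ?_⟩
  · have h1 : Measurable[Inv T] (fun x => (a x : ℂ)) := Complex.measurable_ofReal.comp ha
    have h2 : Measurable[Inv T] (fun x => (b x : ℂ)) := Complex.measurable_ofReal.comp hb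
    have h3 : Measurable[Inv T] (fun x => (b x : ℂ) * Complex.I) :=
      (measurable_id.mul_const Complex.I).comp h2
    exact (Measurable.add h1 h3)
  · filter_upwards [hgg, ha', hb'] with x h1 h2 h3
    rw [h1]
    change (g₀ x).re = a x at h2
    change (g₀ x).im = b x at h3
    rw [← h2, ← h3, Complex.re_add_im]

end Pool.Agent.HK820

end

/-! ### Part `Avg1` -/

section

open MeasureTheory ProbabilityTheory Filter Topology
open scoped ComplexConjugate ENNReal

namespace Pool.Agent.HK820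

private theorem avg1_proj_congr {E : Type*} [NormedAddCommGroup E] [InnerProductSpace ℂ E]
    {K K' : Submodule ℂ E} [K.HasOrthogonalProjection] [K'.HasOrthogonalProjection]
    (h : K = K') (x : E) :
    (K.orthogonalProjectionOnto x : E) = (K'.orthogonalProjectionOnto x : E) := by
  subst h
  rfl

private theorem avg1_norm_sq {X : Type} [MeasurableSpace X] (μ : Measure X) (G : Lp ℂ 2 μ) :
    ∫ x, ‖G x‖ ^ 2 ∂μ = ‖G‖ ^ 2 := by
  have h1 : (inner ℂ G G : ℂ) = ∫ a, (inner ℂ (G a) (G a) : ℂ) ∂μ := L2.inner_def G G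
  have h2 : ∀ a, (inner ℂ (G a) (G a) : ℂ) = ((‖G a‖ ^ 2 : ℝ) : ℂ) := by
    intro a
    rw [inner_self_eq_norm_sq_to_K]
    simp
  have h3 : (inner ℂ G G : ℂ) = ((‖G‖ ^ 2 : ℝ) : ℂ) := by
    rw [inner_self_eq_norm_sq_to_K]
    simp
  simp_rw [h2] at h1
  rw [h3, integral_complex_ofReal] at h1
  exact (Complex.ofReal_injective h1).symm

private theorem avg1_coe {X : Type} [MeasurableSpace X] (μ : Measure X)
    (T : X → X) (hT : MeasurePreserving T μ μ) {f : X → ℂ} (hf : MemLp f 2 μ) (N : ℕ) :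
    (birkhoffAverage ℂ (Lp.compMeasurePreserving (E := ℂ) (p := 2) T hT) id N (hf.toLp f) :
      Lp ℂ 2 μ) =ᵐ[μ] avg T N f := by
  have h1 : ∀ n : ℕ, ((Lp.compMeasurePreserving (E := ℂ) (p := 2) T hT)^[n] (hf.toLp f) :
      Lp ℂ 2 μ) =ᵐ[μ] fun x => f (T^[n] x) := by
    intro n
    rw [Lp.compMeasurePreserving_iterate hT n]
    refine (Lp.coeFn_compMeasurePreserving _ (hT.iterate n)).trans ?_
    exact (hT.iterate n).quasiMeasurePreserving.ae_eq_comp hf.coeFn_toLp
  have h2 : ∀ M : ℕ, ((∑ n ∈ Finset.range M,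
      (Lp.compMeasurePreserving (E := ℂ) (p := 2) T hT)^[n] (hf.toLp f) : Lp ℂ 2 μ) : X → ℂ)
      =ᵐ[μ] fun x => ∑ n ∈ Finset.range M, f (T^[n] x) := by
    intro M
    induction M with
    | zero =>
      simp only [Finset.range_zero, Finset.sum_empty]
      exact Lp.coeFn_zero _ _ _
    | succ M ih =>
      rw [Finset.sum_range_succ]
      filter_upwards [Lp.coeFn_add (∑ n ∈ Finset.range M,
        (Lp.compMeasurePreserving (E := ℂ) (p := 2) T hT)^[n] (hf.toLp f))
        ((Lp.compMeasurePreserving (E := ℂ) (p := 2) T hT)^[M] (hf.toLp f)), ih, h1 M]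
        with x hx1 hx2 hx3
      rw [hx1, Pi.add_apply, hx2, hx3, Finset.sum_range_succ]
  have h3 : birkhoffAverage ℂ (Lp.compMeasurePreserving (E := ℂ) (p := 2) T hT) id N (hf.toLp f)
      = (N : ℂ)⁻¹ • ∑ n ∈ Finset.range N,
        (Lp.compMeasurePreserving (E := ℂ) (p := 2) T hT)^[n] (hf.toLp f) := rfl
  rw [h3]
  filter_upwards [Lp.coeFn_smul (N : ℂ)⁻¹ (∑ n ∈ Finset.range N,
    (Lp.compMeasurePreserving (E := ℂ) (p := 2) T hT)^[n] (hf.toLp f)), h2 N] with x hx1 hx2
  rw [hx1, Pi.smul_apply, hx2, smul_eq_mul]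
  rfl

private theorem avg1_exists_U {X : Type} [MeasurableSpace X] (μ : Measure X)
    (T : X → X) (hT : MeasurePreserving T μ μ) :
    ∃ U : Lp ℂ 2 μ →L[ℂ] Lp ℂ 2 μ, ‖U‖ ≤ 1 ∧
      ∀ G, U G = Lp.compMeasurePreserving (E := ℂ) (p := 2) T hT G := by
  refine ⟨LinearMap.mkContinuous (Lp.compMeasurePreservingₗ ℂ T hT) 1 (fun G => ?_),
    LinearMap.mkContinuous_norm_le _ zero_le_one _, fun G => rfl⟩
  rw [one_mul]
  exact (Lp.norm_compMeasurePreserving G hT).le

/-- **AVG1.** Mean ergodic theorem, with the limit identified as the conditional expectation on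
the invariant σ-algebra.

Proof. Let `U : Lp ℂ 2 μ →L[ℂ] Lp ℂ 2 μ` be the Koopman operator
(`Lp.compMeasurePreservingₗᵢ ℂ T hT`, norm `≤ 1`). By
`ContinuousLinearMap.tendsto_birkhoffAverage_orthogonalProjection` the Birkhoff averages
`birkhoffAverage ℂ U id N F` of `F = (class of f)` tend in `L²` to the orthogonal projection of `F`
to the space `{G | U G = G}`. This projection is `μ[f | Inv T]`: the function `μ[f|Inv T]` is
invariant (it is `Inv T`-measurable: `MeasurableSpace.comp_eq_of_measurable_invariants`), it lies in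
`L²` (it is bounded), and `f - μ[f|Inv T]` is orthogonal to every `G` with `U G = G`: by AVG0 `G`
is a.e. equal to an `Inv T`-measurable function, so `∫ (f - μ[f|Inv T]) * conj G = 0`. Finally
`‖·‖²` in `L²` is the integral of `‖·‖ ^ 2` and `birkhoffAverage ℂ U id N F` is the class of
`avg T N f`. -/
theorem avg_tendsto {X : Type} [MeasurableSpace X] (μ : Measure X) [IsProbabilityMeasure μ]
    (T : X → X) (hT : MeasurePreserving T μ μ) {f : X → ℂ} (hf : BM f) :
    Tendsto (fun N : ℕ => ∫ x, ‖avg T N f x - (μ[f | Inv T]) x‖ ^ 2 ∂μ) atTop (𝓝 0) := by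
  have hm : Inv T ≤ ‹MeasurableSpace X› := MeasurableSpace.invariants_le T
  obtain ⟨hfm, C, hC⟩ := hf
  have hf2 : MemLp f 2 μ := MemLp.of_bound hfm.aestronglyMeasurable C (Eventually.of_forall hC)
  obtain ⟨U, hU1, hUa⟩ := avg1_exists_U μ T hT
  have hUf : (U : Lp ℂ 2 μ → Lp ℂ 2 μ) = Lp.compMeasurePreserving (E := ℂ) (p := 2) T hT :=
    funext hUa
  have hlim := U.tendsto_birkhoffAverage_orthogonalProjection hU1 (hf2.toLp f)
  have hspace : U.eqLocus (1 : Lp ℂ 2 μ →L[ℂ] Lp ℂ 2 μ) = lpMeas ℂ ℂ (Inv T) 2 μ := by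
    ext G
    rw [mem_lpMeas_iff_aestronglyMeasurable]
    have h0 : G ∈ U.eqLocus (1 : Lp ℂ 2 μ →L[ℂ] Lp ℂ 2 μ) ↔ U G = G := Iff.rfl
    rw [h0, hUa]
    have hco := Lp.coeFn_compMeasurePreserving G hT
    constructor
    · intro h
      rw [h] at hco
      obtain ⟨g, hg, hGg⟩ := aem_inv_of_comp μ T hT (Lp.aestronglyMeasurable G) hco.symm
      exact ⟨g, hg.stronglyMeasurable, hGg⟩
    · rintro ⟨g, hg, hGg⟩
      apply Lp.ext
      have h1 : g ∘ T = g :=
        MeasurableSpace.comp_eq_of_measurable_invariants hg.measurable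
      have h2 : (G : X → ℂ) ∘ T =ᵐ[μ] g ∘ T := hT.quasiMeasurePreserving.ae_eq_comp hGg
      rw [h1] at h2
      exact hco.trans (h2.trans hGg.symm)
  have hfact : Fact (Inv T ≤ ‹MeasurableSpace X›) := ⟨hm⟩
  have hP : ((U.eqLocus (1 : Lp ℂ 2 μ →L[ℂ] Lp ℂ 2 μ)).orthogonalProjectionOnto (hf2.toLp f) :
      Lp ℂ 2 μ) = (condExpL2 ℂ ℂ hm (hf2.toLp f) : Lp ℂ 2 μ) :=
    avg1_proj_congr hspace _
  have hPf : ((U.eqLocus (1 : Lp ℂ 2 μ →L[ℂ] Lp ℂ 2 μ)).orthogonalProjectionOnto (hf2.toLp f) :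
      Lp ℂ 2 μ) =ᵐ[μ] μ[f | Inv T] := by
    rw [hP]
    exact hf2.condExpL2_ae_eq_condExp hm
  have hkey : ∀ N : ℕ, ∫ x, ‖avg T N f x - (μ[f | Inv T]) x‖ ^ 2 ∂μ =
      ‖birkhoffAverage ℂ U id N (hf2.toLp f) -
        ((U.eqLocus (1 : Lp ℂ 2 μ →L[ℂ] Lp ℂ 2 μ)).orthogonalProjectionOnto (hf2.toLp f) :
      Lp ℂ 2 μ)‖ ^ 2 := by
    intro N
    rw [← avg1_norm_sq]
    refine integral_congr_ae ?_
    have h1 := avg1_coe μ T hT hf2 N
    rw [← hUf] at h1
    filter_upwards [Lp.coeFn_sub (birkhoffAverage ℂ U id N (hf2.toLp f))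
      ((U.eqLocus (1 : Lp ℂ 2 μ →L[ℂ] Lp ℂ 2 μ)).orthogonalProjectionOnto (hf2.toLp f) :
      Lp ℂ 2 μ), h1, hPf] with x hx1 hx2 hx3
    rw [hx1, Pi.sub_apply, hx3, hx2]
  simp_rw [hkey]
  have h0 := (tendsto_sub_nhds_zero_iff.mpr hlim).norm.pow 2
  simpa using h0

end Pool.Agent.HK820

end

/-! ### Part `Avg2` -/

section

open MeasureTheory ProbabilityTheory Filter Topology
open scoped ComplexConjugate ENNReal

namespace Pool.Agent.HK820

theorem avg2_bm {X : Type} [MeasurableSpace X] {T : X → X} (hT : Measurable T) {g : X → ℂ}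
    (hg : BM g) (N : ℕ) : BM (avg T N g) := by
  unfold BM at hg ⊢
  have h1 : BMs inferInstance (fun x => ∑ n ∈ Finset.range N, g (T^[n] x)) :=
    BMs.sum (f := fun (n : ℕ) x => g (T^[n] x)) (Finset.range N)
      fun n => hg.comp (hT.iterate n)
  exact (BMs.const _ ((N : ℂ)⁻¹)).mul h1

theorem avg2_sq_le {X : Type} [MeasurableSpace X] (μ : Measure X) [IsProbabilityMeasure μ]
    {k : X → ℂ} (hk : BM k) : (∫ x, ‖k x‖ ∂μ) ^ 2 ≤ ∫ x, ‖k x‖ ^ 2 ∂μ := by
  have h1 : Integrable (fun x => ‖k x‖) μ := (hk.integrable μ).norm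
  have h2 : Integrable (fun x => ‖k x‖ ^ 2) μ := bas_int_sq hk μ
  set a : ℝ := ∫ x, ‖k x‖ ∂μ with ha
  have h3 : 0 ≤ ∫ x, (‖k x‖ - a) ^ 2 ∂μ := integral_nonneg fun x => by positivity
  have h4 : ∀ x, (‖k x‖ - a) ^ 2 = ‖k x‖ ^ 2 - (2 * a) * ‖k x‖ + a ^ 2 := fun x => by ring
  simp only [h4] at h3
  have i3 : Integrable (fun x => (2 * a) * ‖k x‖) μ := h1.const_mul (2 * a)
  have i4 : Integrable (fun x => ‖k x‖ ^ 2 - (2 * a) * ‖k x‖) μ := h2.sub i3
  rw [integral_add i4 (integrable_const _),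
    integral_sub h2 i3, integral_const_mul, integral_const] at h3
  simp only [probReal_univ, one_smul] at h3
  rw [← ha] at h3
  nlinarith

theorem avg2_norm_le {X : Type} [MeasurableSpace X] (μ : Measure X) [IsProbabilityMeasure μ]
    {f k : X → ℂ} {C : ℝ} (hC0 : 0 ≤ C) (hC : ∀ x, ‖f x‖ ≤ C) (hf : BM f) (hk : BM k) :
    ‖∫ x, f x * k x ∂μ‖ ≤ C * Real.sqrt (∫ x, ‖k x‖ ^ 2 ∂μ) := by
  have h1 : ‖∫ x, f x * k x ∂μ‖ ≤ ∫ x, ‖f x * k x‖ ∂μ := norm_integral_le_integral_norm _
  have h2 : ∫ x, ‖f x * k x‖ ∂μ ≤ ∫ x, C * ‖k x‖ ∂μ := by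
    refine integral_mono (BM.integrable (BMs.mul hf hk) μ).norm
      ((hk.integrable μ).norm.const_mul C) fun x => ?_
    show ‖f x * k x‖ ≤ C * ‖k x‖
    rw [norm_mul]
    exact mul_le_mul_of_nonneg_right (hC x) (norm_nonneg _)
  rw [integral_const_mul] at h2
  have h3 : ∫ x, ‖k x‖ ∂μ ≤ Real.sqrt (∫ x, ‖k x‖ ^ 2 ∂μ) := by
    refine Real.le_sqrt_of_sq_le ?_
    exact avg2_sq_le μ hk
  exact h1.trans (h2.trans (mul_le_mul_of_nonneg_left h3 hC0))

theorem avg2_tendsto_ver {X : Type} [MeasurableSpace X] (μ : Measure X) [IsProbabilityMeasure μ]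
    (T : X → X) (hT : MeasurePreserving T μ μ) {g h : X → ℂ} (hg : BM g)
    (hh : μ[g | Inv T] =ᵐ[μ] h) :
    Tendsto (fun N : ℕ => ∫ x, ‖avg T N g x - h x‖ ^ 2 ∂μ) atTop (𝓝 0) := by
  refine (avg_tendsto μ T hT hg).congr fun N => ?_
  refine integral_congr_ae ?_
  filter_upwards [hh] with x hx
  rw [hx]

/-- **AVG2a.** Weak form: the averages of `∫ f · g ∘ T^n` tend to `∫ f · μ[g | Inv T]`.

Proof. The average is `∫ f x * avg T N g x ∂μ`; the difference to the limit is at most
`C * ∫ ‖avg T N g - μ[g | Inv T]‖ ≤ C * (∫ ‖·‖ ^ 2) ^ (1/2) → 0` (Cauchy-Schwarz on a probability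
space, or `‖z‖ ≤ δ + ‖z‖ ^ 2 / δ`). -/
theorem avg_int_tendsto {X : Type} [MeasurableSpace X] (μ : Measure X) [IsProbabilityMeasure μ]
    (T : X → X) (hT : MeasurePreserving T μ μ) {f g : X → ℂ} (hf : BM f) (hg : BM g) :
    Tendsto (fun N : ℕ => (N : ℂ)⁻¹ * ∑ n ∈ Finset.range N, ∫ x, f x * g (T^[n] x) ∂μ) atTop
      (𝓝 (∫ x, f x * (μ[g | Inv T]) x ∂μ)) := by
  have hle : Inv T ≤ ‹MeasurableSpace X› := MeasurableSpace.invariants_le T
  obtain ⟨hg1, C, hC⟩ := hg
  have hg : BM g := ⟨hg1, C, hC⟩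
  obtain ⟨h, hhm, hhC, hh⟩ := exists_bms_condExp (Inv T) μ hle hg1 hC
  have hhB : BM h := BMs.mono hle ⟨hhm, C, hhC⟩
  obtain ⟨hf1, D, hD⟩ := hf
  have hf : BM f := ⟨hf1, D, hD⟩
  have hD' : ∀ x, ‖f x‖ ≤ |D| := fun x => (hD x).trans (le_abs_self D)
  have e1 : ∫ x, f x * (μ[g | Inv T]) x ∂μ = ∫ x, f x * h x ∂μ := by
    refine integral_congr_ae ?_
    filter_upwards [hh] with x hx
    rw [hx]
  have hav : ∀ N, BM (avg T N g) := fun N => avg2_bm hT.measurable hg N
  have e2 : ∀ N : ℕ, (N : ℂ)⁻¹ * ∑ n ∈ Finset.range N, ∫ x, f x * g (T^[n] x) ∂μ =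
      ∫ x, f x * avg T N g x ∂μ := by
    intro N
    rw [← integral_finsetSum _ fun n _ => BM.integrable
      (BMs.mul hf (BMs.comp hg (hT.measurable.iterate n))) μ, ← integral_const_mul]
    refine integral_congr_ae (Eventually.of_forall fun x => ?_)
    show (N : ℂ)⁻¹ * ∑ n ∈ Finset.range N, f x * g (T^[n] x) = f x * avg T N g x
    unfold avg
    rw [← Finset.mul_sum]
    ring
  rw [e1]
  simp only [e2]
  rw [tendsto_iff_norm_sub_tendsto_zero]
  have h3 := avg2_tendsto_ver μ T hT hg hh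
  have h4 : Tendsto (fun N : ℕ => |D| * Real.sqrt (∫ x, ‖avg T N g x - h x‖ ^ 2 ∂μ)) atTop
      (𝓝 0) := by
    have h5 := ((Real.continuous_sqrt.tendsto 0).comp h3).const_mul |D|
    rw [Real.sqrt_zero, mul_zero] at h5
    exact h5
  refine squeeze_zero (fun _ => norm_nonneg _) (fun N => ?_) h4
  have h6 : (∫ x, f x * avg T N g x ∂μ) - ∫ x, f x * h x ∂μ =
      ∫ x, f x * (avg T N g x - h x) ∂μ := by
    rw [← integral_sub (BM.integrable (BMs.mul hf (hav N)) μ)
      (BM.integrable (BMs.mul hf hhB) μ)]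
    refine integral_congr_ae (Eventually.of_forall fun x => ?_)
    show f x * avg T N g x - f x * h x = f x * (avg T N g x - h x)
    ring
  rw [h6]
  exact avg2_norm_le μ (abs_nonneg D) hD' hf (BMs.sub (hav N) hhB)

/-- **AVG2b.** The conditional expectation on the invariant σ-algebra of a function coming from a
factor comes from the factor.

Proof. By AVG1 for `X` and for `Y`, and since `avg T N (F ∘ p) =ᵐ avg S N F ∘ p` (equivariance
almost everywhere, iterate: `∀ᵐ x, ∀ n, p (T^[n] x) = S^[n] (p x)`), both `μ[F ∘ p | Inv T]` and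
`ν[F | Inv S] ∘ p` are `L²`-limits of the same sequence (for the second use the change of variables
`hp.mp`), so `∫ ‖difference‖ ^ 2 = 0`. -/
theorem condExp_inv_comp {X Y : Type} [MeasurableSpace X] [MeasurableSpace Y] {μ : Measure X}
    [IsProbabilityMeasure μ] {T : X ≃ᵐ X} (hT : MeasurePreserving T μ μ) {ν : Measure Y}
    [IsProbabilityMeasure ν] {S : Y ≃ᵐ Y} (hS : MeasurePreserving S ν ν) {p : X → Y}
    (hp : FMap μ T ν S p) {F : Y → ℂ} (hF : BM F) :
    μ[fun x => F (p x) | Inv T] =ᵐ[μ] fun x => (ν[F | Inv S]) (p x) := by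
  have hleT : Inv (T : X → X) ≤ ‹MeasurableSpace X› := MeasurableSpace.invariants_le T
  have hleS : Inv (S : Y → Y) ≤ ‹MeasurableSpace Y› := MeasurableSpace.invariants_le S
  obtain ⟨hF1, C, hC⟩ := hF
  have hF : BM F := ⟨hF1, C, hC⟩
  have hpm := hp.mp.measurable
  have hFp : BM (fun x => F (p x)) := ⟨hF1.comp hpm, C, fun x => hC (p x)⟩
  obtain ⟨a, ham, haC, ha⟩ := exists_bms_condExp (Inv T) μ hleT hFp.1 (fun x => hC (p x))
  obtain ⟨b, hbm, hbC, hb⟩ := exists_bms_condExp (Inv S) ν hleS hF1 hC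
  have haB : BM a := BMs.mono hleT ⟨ham, C, haC⟩
  have hbB : BM b := BMs.mono hleS ⟨hbm, C, hbC⟩
  have hbp : BM (fun x => b (p x)) := BMs.comp hbB hpm
  -- equivariance of the iterates
  have hit : ∀ᵐ x ∂μ, ∀ n : ℕ, p (T^[n] x) = S^[n] (p x) := by
    have h1 : ∀ᵐ x ∂μ, ∀ n : ℕ, p (T (T^[n] x)) = S (p (T^[n] x)) := by
      rw [ae_all_iff]
      intro n
      exact (hT.iterate n).quasiMeasurePreserving.ae hp.eqv
    filter_upwards [h1] with x hx n
    induction n with
    | zero => rfl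
    | succ n ih =>
      rw [Function.iterate_succ_apply', Function.iterate_succ_apply', hx n, ih]
  have hav : ∀ N : ℕ, ∀ᵐ x ∂μ, avg T N (fun x => F (p x)) x = avg S N F (p x) := by
    intro N
    filter_upwards [hit] with x hx
    unfold avg
    simp only [hx]
  have t1 := avg2_tendsto_ver μ T hT hFp ha
  have t2 := avg2_tendsto_ver ν S hS hF hb
  have e2 : ∀ N : ℕ, ∫ y, ‖avg S N F y - b y‖ ^ 2 ∂ν =
      ∫ x, ‖avg T N (fun x => F (p x)) x - b (p x)‖ ^ 2 ∂μ := by
    intro N
    have h1 : BM (avg S N F) := avg2_bm hS.measurable hF N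
    have h2 : ∫ y, ‖avg S N F y - b y‖ ^ 2 ∂ν = ∫ x, ‖avg S N F (p x) - b (p x)‖ ^ 2 ∂μ := by
      rw [← hp.mp.map_eq]
      exact integral_map hpm.aemeasurable
        ((h1.1.sub hbB.1).norm.pow_const 2).aestronglyMeasurable
    rw [h2]
    refine integral_congr_ae ?_
    filter_upwards [hav N] with x hx
    rw [hx]
  simp only [e2] at t2
  have hab : BM (fun x => a x - b (p x)) := BMs.sub haB hbp
  have h0 : ∫ x, ‖a x - b (p x)‖ ^ 2 ∂μ = 0 := by
    refine le_antisymm ?_ (integral_nonneg fun x => by positivity)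
    have t3 := (t1.const_mul 2).add (t2.const_mul 2)
    rw [mul_zero, add_zero] at t3
    refine ge_of_tendsto t3 (Eventually.of_forall fun N => ?_)
    have hA : BM (avg T N (fun x => F (p x))) := avg2_bm hT.measurable hFp N
    have i1 : Integrable (fun x => ‖avg T N (fun x => F (p x)) x - a x‖ ^ 2) μ :=
      bas_int_sq (BMs.sub hA haB) μ
    have i2 : Integrable (fun x => ‖avg T N (fun x => F (p x)) x - b (p x)‖ ^ 2) μ :=
      bas_int_sq (BMs.sub hA hbp) μ
    rw [← integral_const_mul, ← integral_const_mul,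
      ← integral_add (i1.const_mul 2) (i2.const_mul 2)]
    refine integral_mono (bas_int_sq hab μ) ((i1.const_mul 2).add (i2.const_mul 2)) fun x => ?_
    show ‖a x - b (p x)‖ ^ 2 ≤ 2 * ‖avg T N (fun x => F (p x)) x - a x‖ ^ 2 +
      2 * ‖avg T N (fun x => F (p x)) x - b (p x)‖ ^ 2
    generalize avg T N (fun x => F (p x)) x = z
    have h1 : ‖a x - b (p x)‖ ≤ ‖z - a x‖ + ‖z - b (p x)‖ := by
      have h2 : a x - b (p x) = (z - b (p x)) - (z - a x) := by ring
      rw [h2, add_comm]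
      exact norm_sub_le _ _
    have h3 : ‖a x - b (p x)‖ ^ 2 ≤ (‖z - a x‖ + ‖z - b (p x)‖) ^ 2 :=
      pow_le_pow_left₀ (norm_nonneg _) h1 2
    nlinarith [sq_nonneg (‖z - a x‖ - ‖z - b (p x)‖)]
  have h1 := (integral_eq_zero_iff_of_nonneg (fun x => by positivity)
    (bas_int_sq hab μ)).1 h0
  have h2 : (fun x => (ν[F | Inv S]) (p x)) =ᵐ[μ] fun x => b (p x) :=
    hp.mp.quasiMeasurePreserving.ae_eq_comp hb
  filter_upwards [ha, h1, h2] with x h3 h4 h5
  have h6 : ‖a x - b (p x)‖ ^ 2 = 0 := h4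
  rw [h3, h5]
  exact sub_eq_zero.1 (norm_eq_zero.1 (pow_eq_zero_iff (two_ne_zero) |>.1 h6))

/-- **AVG2c.** For an ergodic transformation the conditional expectation on the invariant sets is
the integral.

Proof. `μ[g | Inv T]` is invariant, hence a.e. constant (`Ergodic.ae_eq_const_of_ae_eq_comp_ae` or
similar), and its integral is `∫ g` (`integral_condExp`). -/
theorem condExp_inv_ergodic {X : Type} [MeasurableSpace X] (μ : Measure X)
    [IsProbabilityMeasure μ] (T : X → X) (hT : Ergodic T μ) {g : X → ℂ} (hg : BM g) :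
    μ[g | Inv T] =ᵐ[μ] fun _ => ∫ x, g x ∂μ := by
  have hle : Inv T ≤ ‹MeasurableSpace X› := MeasurableSpace.invariants_le T
  refine condExp_eq_of_forall (Inv T) μ hle hg (BMs.const _ _) ?_
  intro k hk
  have hk1 : k ∘ T = k := MeasurableSpace.comp_eq_of_measurable_invariants hk.1
  obtain ⟨c, hc⟩ := hT.ae_eq_const_of_ae_eq_comp_ae
    (hk.1.mono hle le_rfl).aestronglyMeasurable (by rw [hk1])
  have e1 : ∫ x, k x * g x ∂μ = ∫ x, c * g x ∂μ := by
    refine integral_congr_ae ?_
    filter_upwards [hc] with x hx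
    rw [hx]
    rfl
  have e2 : ∫ x, k x * (∫ x, g x ∂μ) ∂μ = ∫ _x, c * (∫ x, g x ∂μ) ∂μ := by
    refine integral_congr_ae ?_
    filter_upwards [hc] with x hx
    rw [hx]
    rfl
  rw [e1, e2, integral_const_mul, integral_const]
  simp

end Pool.Agent.HK820

end

/-! ### Part `Erg` -/

section

open MeasureTheory ProbabilityTheory Filter Topology
open scoped ComplexConjugate ENNReal

namespace Pool.Agent.HK820

theorem erg_pi (X : Type) [mX : MeasurableSpace X] [StandardBorelSpace X] :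
    ∃ C : Set (Set X), C.Countable ∧ IsPiSystem C ∧ mX = MeasurableSpace.generateFrom C := by
  refine ⟨generateSetAlgebra (MeasurableSpace.countableGeneratingSet X),
    countable_generateSetAlgebra (MeasurableSpace.countable_countableGeneratingSet),
    isSetAlgebra_generateSetAlgebra.isSetRing.isSetSemiring.isPiSystem, ?_⟩
  rw [generateFrom_generateSetAlgebra_eq, MeasurableSpace.generateFrom_countableGeneratingSet]

theorem erg_bm_ind {X : Type} [MeasurableSpace X] {A : Set X} (hA : MeasurableSet A) :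
    BM (A.indicator (fun _ : X => (1 : ℂ))) := by
  refine ⟨measurable_const.indicator hA, 1, fun x => ?_⟩
  by_cases hx : x ∈ A
  · rw [Set.indicator_of_mem hx]; simp
  · rw [Set.indicator_of_notMem hx]; simp

theorem erg_int_ind {X : Type} [MeasurableSpace X] {A : Set X} (hA : MeasurableSet A)
    (ν : Measure X) : ∫ x, A.indicator (fun _ : X => (1 : ℂ)) x ∂ν = ((ν.real A : ℝ) : ℂ) := by
  rw [integral_indicator_const (1 : ℂ) hA]
  simp

theorem erg_inv_fun {X : Type} [MeasurableSpace X] [StandardBorelSpace X] (μ : Measure X)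
    [IsProbabilityMeasure μ] (T : X ≃ᵐ X) (hT : MeasurePreserving T μ μ) {F : X → ℂ}
    (hF : BM F) :
    ∀ᵐ x ∂μ, ∫ y, F (T y) ∂(condExpKernel μ (Inv T) x) = ∫ y, F y ∂(condExpKernel μ (Inv T) x) := by
  have hm : Inv (T : X → X) ≤ ‹MeasurableSpace X› := MeasurableSpace.invariants_le T
  have hF' : BM (fun x => F (T x)) := BMs.comp hF T.measurable
  have h1 := condExp_ae_eq_integral_condExpKernel (m := Inv (T : X → X)) hm (hF'.integrable μ)
  have h2 := condExp_ae_eq_integral_condExpKernel (m := Inv (T : X → X)) hm (hF.integrable μ)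
  have h3 := condExp_inv_comp hT hT (p := T) ⟨hT, ae_of_all _ fun _ => rfl⟩ hF
  have h4 : (μ[F | Inv (T : X → X)]) ∘ T = μ[F | Inv (T : X → X)] :=
    MeasurableSpace.comp_eq_of_measurable_invariants stronglyMeasurable_condExp.measurable
  filter_upwards [h1, h2, h3] with x e1 e2 e3
  have e4 : (μ[F | Inv (T : X → X)]) (T x) = (μ[F | Inv (T : X → X)]) x := congrFun h4 x
  rw [← e1, ← e2, e3, e4]

/-- invariance of the components -/
theorem erg_mp {X : Type} [MeasurableSpace X] [StandardBorelSpace X] (μ : Measure X)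
    [IsProbabilityMeasure μ] (T : X ≃ᵐ X) (hT : MeasurePreserving T μ μ) :
    ∀ᵐ x ∂μ, MeasurePreserving T (condExpKernel μ (Inv T) x) (condExpKernel μ (Inv T) x) := by
  obtain ⟨C, hC1, hC2, hC3⟩ := erg_pi X
  have hCm : ∀ A ∈ C, MeasurableSet A := by
    intro A hA
    rw [hC3]
    exact MeasurableSpace.measurableSet_generateFrom hA
  have h1 : ∀ᵐ x ∂μ, ∀ A ∈ C, ∫ y, A.indicator (fun _ : X => (1 : ℂ)) (T y)
      ∂(condExpKernel μ (Inv T) x) =
      ∫ y, A.indicator (fun _ : X => (1 : ℂ)) y ∂(condExpKernel μ (Inv T) x) := by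
    rw [ae_ball_iff hC1]
    intro A hA
    exact erg_inv_fun μ T hT (erg_bm_ind (hCm A hA))
  filter_upwards [h1] with x hx
  refine ⟨T.measurable, ?_⟩
  refine ext_of_generate_finite C hC3 hC2 ?_ ?_
  · intro A hA
    have h2 := hx A hA
    have h3 : (fun y => A.indicator (fun _ : X => (1 : ℂ)) (T y)) =
        (T ⁻¹' A).indicator (fun _ : X => (1 : ℂ)) := by
      funext y
      rfl
    rw [h3, erg_int_ind (T.measurable (hCm A hA)), erg_int_ind (hCm A hA)] at h2
    rw [Measure.map_apply T.measurable (hCm A hA)]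
    have h4 : (condExpKernel μ (Inv T) x).real (T ⁻¹' A) = (condExpKernel μ (Inv T) x).real A := by
      exact_mod_cast h2
    exact (measureReal_eq_measureReal_iff).1 h4
  · rw [Measure.map_apply T.measurable MeasurableSet.univ, Set.preimage_univ]

theorem erg_avg_bm {X : Type} [MeasurableSpace X] (T : X ≃ᵐ X) {f : X → ℂ} (hf : BM f) (N : ℕ) :
    BM (avg T N f) := by
  have h1 : BM (fun x => ∑ n ∈ Finset.range N, f (T^[n] x)) :=
    BMs.sum (f := fun n x => f (T^[n] x)) _ fun n => BMs.comp hf (T.measurable.iterate n)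
  exact BMs.mul (BMs.const _ _) h1

/-- for an invariant measure and an invariant set, averages have the same integral -/
theorem erg_setInt {X : Type} [MeasurableSpace X] (ν : Measure X) [IsProbabilityMeasure ν]
    (T : X ≃ᵐ X) (hT : MeasurePreserving T ν ν) {f : X → ℂ} (hf : BM f) {B : Set X}
    (hB : MeasurableSet B) (hTB : T ⁻¹' B = B) (N : ℕ) :
    ∫ y in B, avg T (N + 1) f y ∂ν = ∫ y in B, f y ∂ν := by
  have h1 : ∀ n : ℕ, ∫ y in B, f (T^[n] y) ∂ν = ∫ y in B, f y ∂ν := by
    intro n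
    have hTn : MeasurePreserving (T^[n]) ν ν := hT.iterate n
    have hBn : (T^[n]) ⁻¹' B = B := by
      induction n with
      | zero => rfl
      | succ n ih => rw [Function.iterate_succ, Set.preimage_comp, ih (hT.iterate n), hTB]
    have hemb : ∀ n : ℕ, MeasurableEmbedding (T^[n]) := by
      intro n
      induction n with
      | zero => exact MeasurableEmbedding.id
      | succ n ih =>
        rw [Function.iterate_succ]
        exact ih.comp T.measurableEmbedding
    have h2 := hTn.setIntegral_preimage_emb (hemb n) f B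
    rw [hBn] at h2
    exact h2
  have h2 : ∀ n : ℕ, Integrable (fun y => f (T^[n] y)) (ν.restrict B) := by
    intro n
    have h3 : BM (fun y => f (T^[n] y)) := BMs.comp hf (T.measurable.iterate n)
    exact (h3.integrable ν).integrableOn
  unfold avg
  rw [integral_const_mul, integral_finsetSum _ fun n _ => h2 n, Finset.sum_congr rfl
    fun n _ => h1 n, Finset.sum_const, Finset.card_range, nsmul_eq_mul, ← mul_assoc,
    inv_mul_cancel₀, one_mul]
  exact_mod_cast Nat.succ_ne_zero N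

theorem erg_small {X : Type} [MeasurableSpace X] [StandardBorelSpace X] (μ : Measure X)
    [IsProbabilityMeasure μ] (T : X ≃ᵐ X) (hT : MeasurePreserving T μ μ) {f g : X → ℂ}
    (hf : BM f) (hg : BM g) (hfg : μ[f | Inv T] =ᵐ[μ] g) {δ : ℝ} (hδ : 0 < δ) :
    ∃ N : ℕ, ∫⁻ x, ‖avg T (N + 1) f x - g x‖ₑ ∂μ ≤ ENNReal.ofReal (2 * δ) := by
  have h1 := avg_tendsto μ T hT hf
  have h2 : ∀ᶠ N : ℕ in atTop, ∫ x, ‖avg T N f x - (μ[f | Inv T]) x‖ ^ 2 ∂μ < 4 * δ ^ 2 :=
    h1.eventually (gt_mem_nhds (by positivity))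
  obtain ⟨N₀, hN₀⟩ := eventually_atTop.1 h2
  refine ⟨N₀, ?_⟩
  have h3 := hN₀ (N₀ + 1) (Nat.le_succ _)
  set h : X → ℂ := fun x => avg T (N₀ + 1) f x - g x with hh
  have hbm : BM h := BMs.sub (erg_avg_bm T hf _) hg
  have h4 : ∫ x, ‖h x‖ ^ 2 ∂μ < 4 * δ ^ 2 := by
    refine lt_of_eq_of_lt (integral_congr_ae ?_) h3
    filter_upwards [hfg] with x hx
    rw [hh, hx]
  have hi : Integrable h μ := hbm.integrable μ
  have hi2 : Integrable (fun x => ‖h x‖ ^ 2) μ := by
    have h5 : BM (fun x => h x * conj (h x)) := BMs.mul hbm (BMs.conj hbm)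
    refine (h5.integrable μ).norm.congr (ae_of_all _ fun x => ?_)
    simp [pow_two]
  have h6 : ∫ x, ‖h x‖ ∂μ ≤ 2 * δ := by
    have h7 : ∫ x, ‖h x‖ ∂μ ≤ ∫ x, (δ + (4 * δ)⁻¹ * ‖h x‖ ^ 2) ∂μ := by
      refine integral_mono hi.norm ((integrable_const _).add (hi2.const_mul _)) fun x => ?_
      have h8 : 0 ≤ (‖h x‖ - 2 * δ) ^ 2 := sq_nonneg _
      change ‖h x‖ ≤ δ + (4 * δ)⁻¹ * ‖h x‖ ^ 2
      have h9 : δ + (4 * δ)⁻¹ * ‖h x‖ ^ 2 = (4 * δ)⁻¹ * (4 * δ ^ 2 + ‖h x‖ ^ 2) := by
        field_simp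
      rw [h9, le_inv_mul_iff₀ (by positivity)]
      nlinarith
    rw [integral_add (integrable_const _) (hi2.const_mul _), integral_const,
      integral_const_mul] at h7
    have h10 : (4 * δ)⁻¹ * ∫ x, ‖h x‖ ^ 2 ∂μ ≤ δ := by
      rw [inv_mul_le_iff₀ (by positivity)]
      nlinarith
    simp at h7
    have h11 : (4 * δ)⁻¹ = δ⁻¹ * 4⁻¹ := by
      rw [mul_inv, mul_comm]
    rw [h11] at h10
    linarith
  have h12 : ∫⁻ x, ‖h x‖ₑ ∂μ = ENNReal.ofReal (∫ x, ‖h x‖ ∂μ) :=
    (ofReal_integral_norm_eq_lintegral_enorm hi).symm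
  rw [h12]
  exact ENNReal.ofReal_le_ofReal h6

/-- the ergodic components are multiplicative for invariant sets -/
theorem erg_mul {X : Type} [MeasurableSpace X] [StandardBorelSpace X] (μ : Measure X)
    [IsProbabilityMeasure μ] (T : X ≃ᵐ X) (hT : MeasurePreserving T μ μ) {A : Set X}
    (hA : MeasurableSet A) :
    ∀ᵐ x ∂μ, ∀ B : Set X, MeasurableSet B → T ⁻¹' B = B →
      (condExpKernel μ (Inv T) x).real (A ∩ B) =
        (condExpKernel μ (Inv T) x).real A * (condExpKernel μ (Inv T) x).real B := by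
  have hm : Inv (T : X → X) ≤ ‹MeasurableSpace X› := MeasurableSpace.invariants_le T
  set f : X → ℂ := A.indicator (fun _ : X => (1 : ℂ)) with hf
  have hfb : BM f := erg_bm_ind hA
  have hC : ∀ x, ‖f x‖ ≤ 1 := by
    intro x
    by_cases hx : x ∈ A
    · rw [hf, Set.indicator_of_mem hx]; simp
    · rw [hf, Set.indicator_of_notMem hx]; simp
  obtain ⟨g, hg1, hg2, hg3⟩ := exists_bms_condExp (Inv (T : X → X)) μ hm hfb.1 hC
  have hgb : BM g := ⟨hg1.mono hm le_rfl, 1, hg2⟩
  have h1 := ae_eq_condExpKernel (Inv (T : X → X)) μ hm hg1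
  have h2 := condExp_ae_eq_integral_condExpKernel (m := Inv (T : X → X)) hm (hfb.integrable μ)
  have h3 := erg_mp μ T hT
  have hmeas : ∀ N : ℕ, Measurable (fun x => ∫⁻ y, ‖avg T (N + 1) f y - g y‖ₑ
      ∂(condExpKernel μ (Inv T) x)) := by
    intro N
    have h4 : Measurable (fun y => ‖avg T (N + 1) f y - g y‖ₑ) :=
      ((erg_avg_bm T hfb (N + 1)).1.sub hgb.1).enorm
    exact (h4.lintegral_kernel (κ := condExpKernel μ (Inv (T : X → X)))).mono hm le_rfl
  have hH : ∀ᵐ x ∂μ, ⨅ N : ℕ, ∫⁻ y, ‖avg T (N + 1) f y - g y‖ₑ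
      ∂(condExpKernel μ (Inv T) x) = 0 := by
    have h5 : ∫⁻ x, ⨅ N : ℕ, ∫⁻ y, ‖avg T (N + 1) f y - g y‖ₑ
        ∂(condExpKernel μ (Inv T) x) ∂μ = 0 := by
      refine le_antisymm (ENNReal.le_of_forall_pos_le_add fun ε hε _ => ?_) bot_le
      rw [zero_add]
      obtain ⟨N, hN⟩ := erg_small μ T hT hfb hgb hg3 (δ := (ε : ℝ) / 2) (by positivity)
      have h6 : ∫⁻ x, ∫⁻ y, ‖avg T (N + 1) f y - g y‖ₑ ∂(condExpKernel μ (Inv T) x) ∂μ =
          ∫⁻ y, ‖avg T (N + 1) f y - g y‖ₑ ∂μ := by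
        have h7 := bind_condExpKernel (Inv (T : X → X)) μ hm
        conv_rhs => rw [← h7]
        refine (Measure.lintegral_bind ?_ ?_).symm
        · exact ((condExpKernel μ (Inv (T : X → X))).measurable.mono hm le_rfl).aemeasurable
        · exact ((erg_avg_bm T hfb (N + 1)).1.sub hgb.1).enorm.aemeasurable
      refine (lintegral_mono fun x => iInf_le _ N).trans ?_
      rw [h6]
      refine hN.trans (le_of_eq ?_)
      rw [show 2 * ((ε : ℝ) / 2) = ε by ring, ENNReal.ofReal_coe_nnreal]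
    rw [lintegral_eq_zero_iff (Measurable.iInf hmeas)] at h5
    exact h5
  filter_upwards [h1, h2, hg3, h3, hH] with x e1 e2 e3 e4 e5 B hB hTB
  set ν := condExpKernel μ (Inv T) x with hν
  have hc : g x = ((ν.real A : ℝ) : ℂ) := by
    rw [← e3, e2, erg_int_ind hA]
  have h6 : ∀ N : ℕ, ‖(∫ y in B, f y ∂ν) - ((ν.real A : ℝ) : ℂ) * ((ν.real B : ℝ) : ℂ)‖ₑ ≤
      ∫⁻ y, ‖avg T (N + 1) f y - g y‖ₑ ∂ν := by
    intro N
    have h7 : (∫ y in B, f y ∂ν) - ((ν.real A : ℝ) : ℂ) * ((ν.real B : ℝ) : ℂ) =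
        ∫ y in B, (avg T (N + 1) f y - g y) ∂ν := by
      rw [integral_sub ((erg_avg_bm T hfb (N + 1)).integrable ν).integrableOn
        (hgb.integrable ν).integrableOn, erg_setInt ν T e4 hfb hB hTB]
      congr 1
      have h8 : ∫ y in B, g y ∂ν = ∫ _y in B, ((ν.real A : ℝ) : ℂ) ∂ν := by
        refine integral_congr_ae (ae_restrict_of_ae ?_)
        filter_upwards [e1] with y hy
        rw [hy, hc]
      rw [h8, integral_const]
      simp [mul_comm]
    rw [h7]
    exact (enorm_integral_le_lintegral_enorm _).trans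
      (lintegral_mono' Measure.restrict_le_self le_rfl)
  have h7 : ‖(∫ y in B, f y ∂ν) - ((ν.real A : ℝ) : ℂ) * ((ν.real B : ℝ) : ℂ)‖ₑ ≤ 0 := by
    rw [← e5]
    exact le_iInf h6
  have h8 : (∫ y in B, f y ∂ν) = ((ν.real A : ℝ) : ℂ) * ((ν.real B : ℝ) : ℂ) := by
    rw [← sub_eq_zero, ← enorm_eq_zero]
    exact le_antisymm h7 bot_le
  have h9 : ∫ y in B, f y ∂ν = ((ν.real (A ∩ B) : ℝ) : ℂ) := by
    rw [hf, integral_indicator hA, Measure.restrict_restrict hA, integral_const]
    simp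
  rw [h9] at h8
  exact_mod_cast h8

/-- **ERG.** Ergodic decomposition: almost every conditional measure on the σ-algebra of invariant
sets is invariant and ergodic.

Proof. Let `κ = condExpKernel μ (Inv T)`, `(A n)` a countable π-system which generates, closed
under complements (a countable algebra: `generateSetAlgebra` or `generatePiSystem`). Invariance:
for every `n`, `μ[1_{T⁻¹ A n} | Inv T] =ᵐ μ[1_{A n} | Inv T]` (for `s ∈ Inv T`,
`μ (s ∩ T⁻¹ A) = μ (T⁻¹ (s ∩ A)) = μ (s ∩ A)`), so for almost every `x`, for all `n`,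
`κ x (T⁻¹ A n) = κ x (A n)` and then `(κ x).map T = κ x`. Ergodicity: by AVG1 for `f = 1_{A n}`,
`∫ ‖avg T N f - μ[f|Inv T]‖ ^ 2 ∂μ → 0`; choose a subsequence `N_j` along which the sum over `j` is
finite for every `n` (diagonal argument) so that for almost every `x` and all `n`,
`∫ ‖avg T N_j f - μ[f|Inv T]‖ ^ 2 ∂(κ x) → 0` (`∫ φ ∂μ = ∫ ∫ φ ∂(κ x) ∂μ`, KER1a), and for almost
every `x`, `μ[f|Inv T] y = κ x (A n)` for `κ x`-almost all `y` (KER1c for an `Inv T`-measurable
version and KER1d). Let `B` be `T`-invariant, measurable, and `ε > 0`; choose `n` with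
`κ x (B ∆ A n) < ε` (density of a generating algebra:
`MeasureTheory.Measure.MeasureDense`/`exists_measure_symmDiff_lt`). Then `avg T N 1_B = 1_B` and
`‖avg T N_j 1_B - avg T N_j 1_{A n}‖_{L¹(κ x)} ≤ ε`, so `‖1_B - κ x (A n)‖_{L¹(κ x)} ≤ 2 ε`; letting
`ε → 0`, `1_B` is `κ x`-a.e. constant. -/
theorem ergodic_decomp {X : Type} [MeasurableSpace X] [StandardBorelSpace X] (μ : Measure X)
    [IsProbabilityMeasure μ] (T : X ≃ᵐ X) (hT : MeasurePreserving T μ μ) :
    ∀ᵐ x ∂μ, Ergodic T (condExpKernel μ (Inv T) x) := by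
  obtain ⟨C, hC1, hC2, hC3⟩ := erg_pi X
  have hCm : ∀ A ∈ C, MeasurableSet A := by
    intro A hA
    rw [hC3]
    exact MeasurableSpace.measurableSet_generateFrom hA
  have h1 : ∀ᵐ x ∂μ, ∀ A ∈ C, ∀ B : Set X, MeasurableSet B → T ⁻¹' B = B →
      (condExpKernel μ (Inv T) x).real (A ∩ B) =
        (condExpKernel μ (Inv T) x).real A * (condExpKernel μ (Inv T) x).real B := by
    rw [ae_ball_iff hC1]
    intro A hA
    exact erg_mul μ T hT (hCm A hA)
  filter_upwards [h1, erg_mp μ T hT] with x e1 e2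
  set ν := condExpKernel μ (Inv T) x with hν
  refine ⟨e2, ⟨fun B hB hTB => ?_⟩⟩
  have h2 : ν.restrict B = (ν B) • ν := by
    refine ext_of_generate_finite C hC3 hC2 ?_ ?_
    · intro A hA
      rw [Measure.restrict_apply (hCm A hA), Measure.smul_apply, smul_eq_mul, mul_comm,
        ← ENNReal.toReal_eq_toReal_iff' (measure_ne_top _ _)
          (ENNReal.mul_ne_top (measure_ne_top _ _) (measure_ne_top _ _)), ENNReal.toReal_mul]
      exact e1 A hA B hB hTB
    · rw [Measure.restrict_apply MeasurableSet.univ, Set.univ_inter, Measure.smul_apply,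
        measure_univ, smul_eq_mul, mul_one]
  have h3 : ν B = ν B * ν B := by
    have h4 := congrArg (fun ρ : Measure X => ρ B) h2
    simp only [Measure.restrict_apply hB, Set.inter_self, Measure.smul_apply,
      smul_eq_mul] at h4
    exact h4
  rw [eventuallyConst_set']
  have hfin : ν B ≠ ⊤ := measure_ne_top _ _
  by_cases h0 : ν B = 0
  · left
    exact ae_eq_empty.2 h0
  · right
    have h5 : ν B = 1 := by
      have h6 : ν B * 1 = ν B * ν B := by rw [mul_one]; exact h3
      exact ((ENNReal.mul_right_inj h0 hfin).1 h6).symm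
    exact (prob_compl_eq_zero_iff hB |>.2 h5 |> ae_eq_univ.2)

end Pool.Agent.HK820

end

/-! ### Part `Ker2` -/

section

open MeasureTheory ProbabilityTheory Filter Topology
open scoped ComplexConjugate ENNReal

namespace Pool.Agent.HK820

/-- a countable π-system of measurable sets that generates -/
private theorem ker2_gen (Y : Type) [mY : MeasurableSpace Y] [StandardBorelSpace Y] :
    ∃ C : Set (Set Y), C.Countable ∧ mY = MeasurableSpace.generateFrom C ∧ IsPiSystem C ∧
      ∀ A ∈ C, MeasurableSet A := by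
  have hgen : mY = MeasurableSpace.generateFrom
      (generateSetAlgebra (MeasurableSpace.countableGeneratingSet Y)) := by
    rw [generateFrom_generateSetAlgebra_eq]
    exact MeasurableSpace.generateFrom_countableGeneratingSet.symm
  refine ⟨generateSetAlgebra (MeasurableSpace.countableGeneratingSet Y),
    countable_generateSetAlgebra (MeasurableSpace.countable_countableGeneratingSet), hgen,
    fun s hs t ht _ => isSetAlgebra_generateSetAlgebra.inter_mem hs ht, ?_⟩
  intro A hA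
  rw [hgen]
  exact MeasurableSpace.measurableSet_generateFrom hA

open Classical in
private theorem ker2_bm {Y : Type} [MeasurableSpace Y] {A : Set Y} (hA : MeasurableSet A) :
    BM (A.indicator (fun _ => (1 : ℂ))) := by
  refine ⟨measurable_const.indicator hA, 1, fun x => ?_⟩
  by_cases hx : x ∈ A
  · rw [Set.indicator_of_mem hx, norm_one]
  · rw [Set.indicator_of_notMem hx, norm_zero]
    exact zero_le_one

private theorem ker2_int {Y : Type} [MeasurableSpace Y] (m : Measure Y) {A : Set Y}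
    (hA : MeasurableSet A) : ∫ y, A.indicator (fun _ => (1 : ℂ)) y ∂m = ((m A).toReal : ℂ) := by
  rw [integral_indicator hA, setIntegral_const, Measure.real]
  simp

private theorem ker2_integrable {Y : Type} [MeasurableSpace Y] (m : Measure Y)
    [IsProbabilityMeasure m] {f : Y → ℂ} (hf : BM f) : Integrable f m := by
  obtain ⟨h1, C, h2⟩ := hf
  exact Integrable.of_bound h1.aestronglyMeasurable C (Eventually.of_forall h2)

/-- **KER2.** Images of ergodic components are ergodic components.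

Proof. For `F` in a countable measure determining family (indicators of a countable generating
π-system of `Y`) AVG2b (`condExp_inv_comp`) gives, for almost every `x`,
`∫ F (p y) ∂(condExpKernel μ (Inv T) x) = ∫ F ∂(condExpKernel ν (Inv S) (p x))`
(`condExp_ae_eq_integral_condExpKernel` on both sides, pulled back along the measure preserving
`p`). Two probability measures which agree on a generating π-system are equal. -/
theorem map_condExpKernel {X Y : Type} [MeasurableSpace X] [StandardBorelSpace X]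
    [MeasurableSpace Y] [StandardBorelSpace Y] {μ : Measure X}
    [IsProbabilityMeasure μ] {T : X ≃ᵐ X} (hT : MeasurePreserving T μ μ) {ν : Measure Y}
    [IsProbabilityMeasure ν] {S : Y ≃ᵐ Y} (hS : MeasurePreserving S ν ν) {p : X → Y}
    (hp : FMap μ T ν S p) :
    ∀ᵐ x ∂μ, (condExpKernel μ (Inv T) x).map p = condExpKernel ν (Inv S) (p x) := by
  obtain ⟨C, hCc, hgen, hpi, hmeas⟩ := ker2_gen Y
  have hpm : Measurable p := hp.mp.measurable
  have h1 : ∀ A ∈ C, ∀ᵐ x ∂μ, (condExpKernel μ (Inv T) x).map p A =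
      condExpKernel ν (Inv S) (p x) A := by
    intro A hA
    have hF := ker2_bm (hmeas A hA)
    have hFp : BM (fun x => A.indicator (fun _ => (1 : ℂ)) (p x)) :=
      ⟨hF.1.comp hpm, hF.2.choose, fun x => hF.2.choose_spec (p x)⟩
    have e1 := condExp_ae_eq_integral_condExpKernel (μ := μ)
      (MeasurableSpace.invariants_le (T : X → X)) (ker2_integrable μ hFp)
    have e2 := hp.mp.quasiMeasurePreserving.ae (condExp_ae_eq_integral_condExpKernel (μ := ν)
      (MeasurableSpace.invariants_le (S : Y → Y)) (ker2_integrable ν hF))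
    filter_upwards [e1, e2, condExp_inv_comp hT hS hp hF] with x h2 h3 h4
    rw [h2, h3] at h4
    have h5 : ∫ y, A.indicator (fun _ => (1 : ℂ)) (p y) ∂(condExpKernel μ (Inv T) x) =
        ∫ y, A.indicator (fun _ => (1 : ℂ)) y ∂((condExpKernel μ (Inv T) x).map p) :=
      (integral_map hpm.aemeasurable hF.1.aestronglyMeasurable).symm
    rw [h5, ker2_int _ (hmeas A hA), ker2_int _ (hmeas A hA)] at h4
    have h6 : ((condExpKernel μ (Inv T) x).map p A).toReal =
        (condExpKernel ν (Inv S) (p x) A).toReal := by exact_mod_cast h4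
    exact (ENNReal.toReal_eq_toReal_iff' (measure_ne_top _ _) (measure_ne_top _ _)).1 h6
  have h2 : ∀ᵐ x ∂μ, ∀ A ∈ C, (condExpKernel μ (Inv T) x).map p A =
      condExpKernel ν (Inv S) (p x) A := (ae_ball_iff hCc).2 h1
  filter_upwards [h2] with x hx
  refine ext_of_generate_finite C hgen hpi hx ?_
  rw [Measure.map_apply hpm MeasurableSet.univ, Set.preimage_univ, measure_univ, measure_univ]

private theorem ker2_erg {Y : Type} [MeasurableSpace Y] [StandardBorelSpace Y] {ν : Measure Y}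
    [IsProbabilityMeasure ν] {S : Y ≃ᵐ Y} (hS : Ergodic S ν) :
    ∀ᵐ z ∂ν, condExpKernel ν (Inv S) z = ν := by
  obtain ⟨C, hCc, hgen, hpi, hmeas⟩ := ker2_gen Y
  have h1 : ∀ A ∈ C, ∀ᵐ z ∂ν, condExpKernel ν (Inv S) z A = ν A := by
    intro A hA
    have hF := ker2_bm (hmeas A hA)
    filter_upwards [condExp_ae_eq_integral_condExpKernel (μ := ν)
      (MeasurableSpace.invariants_le (S : Y → Y)) (ker2_integrable ν hF),
      condExp_inv_ergodic ν (S : Y → Y) hS hF] with z h2 h3
    rw [h2, ker2_int _ (hmeas A hA), ker2_int _ (hmeas A hA)] at h3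
    have h6 : (condExpKernel ν (Inv S) z A).toReal = (ν A).toReal := by exact_mod_cast h3
    exact (ENNReal.toReal_eq_toReal_iff' (measure_ne_top _ _) (measure_ne_top _ _)).1 h6
  have h2 : ∀ᵐ z ∂ν, ∀ A ∈ C, condExpKernel ν (Inv S) z A = ν A := (ae_ball_iff hCc).2 h1
  filter_upwards [h2] with z hz
  exact ext_of_generate_finite C hgen hpi hz (by rw [measure_univ, measure_univ])

/-- **KER2b.** If the factor is ergodic, almost every ergodic component is mapped to it.

Proof. `condExpKernel ν (Inv S) z = ν` for `ν`-almost every `z` when `S` is ergodic: for indicators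
of a countable generating π-system, by `condExp_ae_eq_integral_condExpKernel` and
`condExp_inv_ergodic`. Then KER2; the equivariance passes to the component by
`ae_ae_condExpKernel`. -/
theorem fmap_condExpKernel {X Y : Type} [MeasurableSpace X] [StandardBorelSpace X]
    [MeasurableSpace Y] [StandardBorelSpace Y] {μ : Measure X}
    [IsProbabilityMeasure μ] {T : X ≃ᵐ X} (hT : MeasurePreserving T μ μ) {ν : Measure Y}
    [IsProbabilityMeasure ν] {S : Y ≃ᵐ Y} (hS : Ergodic S ν) {p : X → Y}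
    (hp : FMap μ T ν S p) :
    ∀ᵐ x ∂μ, FMap (condExpKernel μ (Inv T) x) T ν S p := by
  filter_upwards [map_condExpKernel hT hS.toMeasurePreserving hp,
    hp.mp.quasiMeasurePreserving.ae (ker2_erg hS),
    ae_ae_condExpKernel (Inv T) μ (MeasurableSpace.invariants_le (T : X → X)) hp.eqv] with
    x h1 h2 h3
  exact ⟨⟨hp.mp.measurable, h1.trans h2⟩, h3⟩

end Pool.Agent.HK820

end
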