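import Pool.Agent.Lib_MP_820dd4_hk.RelC
import Pool.Agent.Lib_MP_820dd4_hk.Ker2

/-! ### Part `CubA` -/

section

open MeasureTheory ProbabilityTheory Filter Topology
open scoped ComplexConjugate ENNReal

namespace Pool.Agent.HK820

/-! **CUBA.** Arrays: slices, glueing, the cube measures as relatively independent powers. -/

theorem slice_glue {ι X : Type} {D : ℕ} (y : ι → Arr ι X D) (i : ι) : slice (glue y) i = y i := by
  funext v
  show y ((Fin.cons i v : Fin (D + 1) → ι) 0) (Fin.tail (Fin.cons i v : Fin (D + 1) → ι)) = y i v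
  rw [Fin.cons_zero, Fin.tail_cons]

theorem glue_slice {ι X : Type} {D : ℕ} (x : Arr ι X (D + 1)) : glue (slice x) = x := by
  funext v
  show x (Fin.cons (v 0) (Fin.tail v)) = x v
  rw [Fin.cons_self_tail]

theorem measurable_glue {ι X : Type} [MeasurableSpace X] {D : ℕ} :
    Measurable (glue : (ι → Arr ι X D) → Arr ι X (D + 1)) := by
  refine measurable_pi_iff.2 fun v => ?_
  exact (measurable_pi_apply (Fin.tail v)).comp (measurable_pi_apply (v 0))

theorem measurable_slice {ι X : Type} [MeasurableSpace X] {D : ℕ} (i : ι) :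
    Measurable (fun x : Arr ι X (D + 1) => slice x i) := by
  refine measurable_pi_iff.2 fun v => ?_
  exact measurable_pi_apply (Fin.cons i v : Fin (D + 1) → ι)

/-- products over arrays split into products over slices (`Fin.consEquiv` / `Fin.cons`) -/
theorem prod_arr_succ {ι X : Type} [Fintype ι] {D : ℕ} (f : (Fin (D + 1) → ι) → X → ℂ)
    (x : Arr ι X (D + 1)) :
    ∏ v, f v (x v) = ∏ i, ∏ w, f (Fin.cons i w) (slice x i w) := by
  rw [← (Fin.consEquiv (fun _ : Fin (D + 1) => ι)).prod_comp, Fintype.prod_prod_type]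
  rfl

/-- the slices of a transformed array -/
theorem slice_tArr {X : Type} [MeasurableSpace X] (T : X ≃ᵐ X) {ι : Type} {D : ℕ}
    (x : Arr ι X (D + 1)) (i : ι) :
    slice (tArr T ι (D + 1) x) i = tArr T ι D (slice x i) := by
  rfl

theorem slice_slab_succ {X : Type} [MeasurableSpace X] (T : X ≃ᵐ X) {ι : Type} {D : ℕ}
    (j : Fin D) (c : ι) (x : Arr ι X (D + 1)) (i : ι) :
    slice (slab T ι (D + 1) j.succ c x) i = slab T ι D j c (slice x i) := by
  classical
  funext v
  show (if (Fin.cons i v : Fin (D + 1) → ι) j.succ = c then T else MeasurableEquiv.refl X)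
      (x (Fin.cons i v)) = (if v j = c then T else MeasurableEquiv.refl X) (x (Fin.cons i v))
  rw [Fin.cons_succ]

open Classical in
theorem slice_slab_zero {X : Type} [MeasurableSpace X] (T : X ≃ᵐ X) {ι : Type} {D : ℕ}
    (c : ι) (x : Arr ι X (D + 1)) (i : ι) :
    slice (slab T ι (D + 1) 0 c x) i = if i = c then tArr T ι D (slice x i) else slice x i := by
  funext v
  show (if (Fin.cons i v : Fin (D + 1) → ι) 0 = c then T else MeasurableEquiv.refl X)
      (x (Fin.cons i v)) = (if i = c then tArr T ι D (slice x i) else slice x i) v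
  rw [Fin.cons_zero]
  split
  · rfl
  · rfl

/-- the cube measures are probability measures -/
theorem cube_prob {X : Type} [MeasurableSpace X] [StandardBorelSpace X] (μ : Measure X)
    [IsProbabilityMeasure μ] (T : X ≃ᵐ X) (ι : Type) [Fintype ι] (D : ℕ) :
    IsProbabilityMeasure (cube μ T ι D) := by
  induction D with
  | zero =>
    refine Measure.isProbabilityMeasure_map (Measurable.aemeasurable ?_)
    exact measurable_pi_iff.2 fun _ => measurable_id
  | succ D ih =>
    have := ih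
    have := relInd_prob (Inv (tArr T ι D)) (cube μ T ι D) ι
    exact Measure.isProbabilityMeasure_map measurable_glue.aemeasurable

/-- for `D = 0` the cube measure is `μ` -/
theorem integral_cube_zero {X : Type} [MeasurableSpace X] [StandardBorelSpace X] (μ : Measure X)
    [IsProbabilityMeasure μ] (T : X ≃ᵐ X) (ι : Type) [Fintype ι] {F : Arr ι X 0 → ℂ} (hF : BM F) :
    ∫ x, F x ∂(cube μ T ι 0) = ∫ a, F (fun _ => a) ∂μ := by
  have hm : Measurable (fun (x : X) (_ : Fin 0 → ι) => x) :=
    measurable_pi_iff.2 fun _ => measurable_id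
  show ∫ x, F x ∂(μ.map (fun (x : X) (_ : Fin 0 → ι) => x)) = _
  rw [integral_map hm.aemeasurable hF.1.aestronglyMeasurable]

/-- glueing is measure preserving -/
theorem glue_mp {X : Type} [MeasurableSpace X] [StandardBorelSpace X] (μ : Measure X)
    [IsProbabilityMeasure μ] (T : X ≃ᵐ X) (ι : Type) [Fintype ι] (D : ℕ) :
    MeasurePreserving glue (relInd (Inv (tArr T ι D)) (cube μ T ι D) ι) (cube μ T ι (D + 1)) := by
  exact ⟨measurable_glue, rfl⟩

/-- taking slices is measure preserving -/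
theorem slice_mp {X : Type} [MeasurableSpace X] [StandardBorelSpace X] (μ : Measure X)
    [IsProbabilityMeasure μ] (T : X ≃ᵐ X) (ι : Type) [Fintype ι] (D : ℕ) :
    MeasurePreserving (slice : Arr ι X (D + 1) → ι → Arr ι X D) (cube μ T ι (D + 1))
      (relInd (Inv (tArr T ι D)) (cube μ T ι D) ι) := by
  have hs : Measurable (slice : Arr ι X (D + 1) → ι → Arr ι X D) :=
    measurable_pi_iff.2 fun i => measurable_slice i
  refine ⟨hs, ?_⟩
  show ((relInd (Inv (tArr T ι D)) (cube μ T ι D) ι).map glue).map slice = _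
  rw [Measure.map_map hs measurable_glue]
  have : (slice : Arr ι X (D + 1) → ι → Arr ι X D) ∘ glue = id := by
    funext y i
    exact slice_glue y i
  rw [this, Measure.map_id]

/-- product formula over the slices -/
theorem cube_prod {X : Type} [MeasurableSpace X] [StandardBorelSpace X] (μ : Measure X)
    [IsProbabilityMeasure μ] (T : X ≃ᵐ X) {ι : Type} [Fintype ι] {D : ℕ}
    {H : ι → Arr ι X D → ℂ} (hH : ∀ i, BM (H i)) :
    ∫ x, ∏ i, H i (slice x i) ∂(cube μ T ι (D + 1)) =
      ∫ y, ∏ i, ((cube μ T ι D)[H i | Inv (tArr T ι D)]) y ∂(cube μ T ι D) := by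
  have := cube_prob μ T ι D
  have hF : Measurable (fun y : ι → Arr ι X D => ∏ i, H i (y i)) :=
    Finset.measurable_prod _ fun i _ => (hH i).1.comp (measurable_pi_apply i)
  rw [← relInd_prod (Inv (tArr T ι D)) (cube μ T ι D) (MeasurableSpace.invariants_le _) hH,
    ← (slice_mp μ T ι D).map_eq,
    integral_map (slice_mp μ T ι D).measurable.aemeasurable hF.aestronglyMeasurable]

/-- product formula over the slices with one function kept -/
theorem cube_pull {X : Type} [MeasurableSpace X] [StandardBorelSpace X] (μ : Measure X)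
    [IsProbabilityMeasure μ] (T : X ≃ᵐ X) {ι : Type} [Fintype ι] [DecidableEq ι] {D : ℕ}
    {H : ι → Arr ι X D → ℂ} (hH : ∀ i, BM (H i)) (i₀ : ι) :
    ∫ x, ∏ i, H i (slice x i) ∂(cube μ T ι (D + 1)) =
      ∫ y, H i₀ y * ∏ i ∈ Finset.univ.erase i₀, ((cube μ T ι D)[H i | Inv (tArr T ι D)]) y
        ∂(cube μ T ι D) := by
  have := cube_prob μ T ι D
  have hF : Measurable (fun y : ι → Arr ι X D => ∏ i, H i (y i)) :=
    Finset.measurable_prod _ fun i _ => (hH i).1.comp (measurable_pi_apply i)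
  rw [← relInd_pull (Inv (tArr T ι D)) (cube μ T ι D) (MeasurableSpace.invariants_le _) hH i₀,
    ← (slice_mp μ T ι D).map_eq,
    integral_map (slice_mp μ T ι D).measurable.aemeasurable hF.aestronglyMeasurable]

/-- bound by one slice -/
theorem cube_bound {X : Type} [MeasurableSpace X] [StandardBorelSpace X] (μ : Measure X)
    [IsProbabilityMeasure μ] (T : X ≃ᵐ X) {ι : Type} [Fintype ι] {D : ℕ}
    {H : ι → Arr ι X D → ℂ} (hH : ∀ i, BM (H i)) (h1 : ∀ i y, ‖H i y‖ ≤ 1) (i₀ : ι) :
    ‖∫ x, ∏ i, H i (slice x i) ∂(cube μ T ι (D + 1))‖ ^ 2 ≤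
      ∫ y, ‖((cube μ T ι D)[H i₀ | Inv (tArr T ι D)]) y‖ ^ 2 ∂(cube μ T ι D) := by
  have := cube_prob μ T ι D
  have hF : Measurable (fun y : ι → Arr ι X D => ∏ i, H i (y i)) :=
    Finset.measurable_prod _ fun i _ => (hH i).1.comp (measurable_pi_apply i)
  have h := relInd_bound (Inv (tArr T ι D)) (cube μ T ι D) (MeasurableSpace.invariants_le _) hH
    h1 i₀
  rw [← (slice_mp μ T ι D).map_eq,
    integral_map (slice_mp μ T ι D).measurable.aemeasurable hF.aestronglyMeasurable] at h
  exact h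

end Pool.Agent.HK820

end

/-! ### Part `CubB` -/

section

open MeasureTheory ProbabilityTheory Filter Topology
open scoped ComplexConjugate ENNReal

namespace Pool.Agent.HK820

theorem cubb_inv_le {Y : Type} [mY : MeasurableSpace Y] (S : Y → Y) : Inv S ≤ mY :=
  MeasurableSpace.invariants_le S

/-- the invariant sets are invariant under commuting transformations -/
theorem cubb_measurable_comm {Y : Type} [MeasurableSpace Y] {S T : Y → Y} (hT : Measurable T)
    (h : ∀ y, T (S y) = S (T y)) : Measurable[Inv S, Inv S] T := by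
  rintro s ⟨h1, h2⟩
  refine ⟨hT h1, ?_⟩
  ext y
  show T (S y) ∈ s ↔ T y ∈ s
  rw [h y]
  exact Set.ext_iff.1 h2 (T y)

theorem cubb_TInv {Y : Type} [MeasurableSpace Y] (S T : Y ≃ᵐ Y) (h : ∀ y, T (S y) = S (T y)) :
    TInv (Inv S) T := by
  refine ⟨cubb_measurable_comm T.measurable h, cubb_measurable_comm T.symm.measurable fun y => ?_⟩
  apply T.injective
  rw [T.apply_symm_apply, h, T.apply_symm_apply]

/-- **CUBB1.** The cube measures are invariant under the diagonal transformation (induction;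
`relInd_tTup` for `m = Inv (tArr T ι D)`, `slice_tArr`, `slice_mp`, `glue_mp`). -/
theorem cube_tArr {X : Type} [MeasurableSpace X] [StandardBorelSpace X] (μ : Measure X)
    [IsProbabilityMeasure μ] (T : X ≃ᵐ X) (hT : MeasurePreserving T μ μ) (ι : Type) [Fintype ι]
    (D : ℕ) : MeasurePreserving (tArr T ι D) (cube μ T ι D) (cube μ T ι D) := by
  induction D with
  | zero =>
    refine ⟨(tArr T ι 0).measurable, ?_⟩
    have hc : Measurable (fun (x : X) (_ : Fin 0 → ι) => x) :=
      measurable_pi_lambda _ fun _ => measurable_id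
    show Measure.map (tArr T ι 0) (Measure.map (fun x _ => x) μ) = Measure.map (fun x _ => x) μ
    rw [Measure.map_map (tArr T ι 0).measurable hc]
    have h1 : (tArr T ι 0 : Arr ι X 0 → Arr ι X 0) ∘ (fun (x : X) (_ : Fin 0 → ι) => x) =
        (fun (x : X) (_ : Fin 0 → ι) => x) ∘ T := rfl
    rw [h1, ← Measure.map_map hc T.measurable, hT.map_eq]
  | succ D ih =>
    have := cube_prob μ T ι D
    have h1 := relInd_tTup (Inv (tArr T ι D)) (cube μ T ι D) (cubb_inv_le _) (tArr T ι D) ih
      (cubb_TInv _ _ fun _ => rfl) ι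
    have h2 := (glue_mp μ T ι D).comp (h1.comp (slice_mp μ T ι D))
    have h3 : (glue ∘ (tTup (tArr T ι D) ι ∘ slice) : Arr ι X (D + 1) → Arr ι X (D + 1)) =
        tArr T ι (D + 1) := by
      funext x
      rw [← glue_slice (tArr T ι (D + 1) x)]
      show glue (fun i => tArr T ι D (slice x i)) = glue (slice (tArr T ι (D + 1) x))
      congr 1
    rw [h3] at h2
    exact h2

/-- **CUBB2.** The cube measures are invariant under the slab transformations.

Proof. Induction on `D`. Direction `0`: `relInd_single` for the transformation `tArr T ι D` and the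
set `{c}` of slices (`slice_slab_zero`). Direction `j.succ`: every slice is transformed by
`slab T ι D j c`, which preserves `cube μ T ι D` by induction and the σ-algebra `Inv (tArr T ι D)`
(`TInv`: the slab transformation commutes with the diagonal transformation), so `relInd_tTup`
applies. -/
theorem cube_slab {X : Type} [MeasurableSpace X] [StandardBorelSpace X] (μ : Measure X)
    [IsProbabilityMeasure μ] (T : X ≃ᵐ X) (hT : MeasurePreserving T μ μ) (ι : Type) [Fintype ι]
    (D : ℕ) (j : Fin D) (c : ι) :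
    MeasurePreserving (slab T ι D j c) (cube μ T ι D) (cube μ T ι D) := by
  classical
  induction D with
  | zero => exact j.elim0
  | succ D ih =>
    have := cube_prob μ T ι D
    induction j using Fin.cases with
    | zero =>
      have h1 := relInd_single (cube μ T ι D) (tArr T ι D) (cube_tArr μ T hT ι D) ι
        (fun i => i = c)
      have h2 := (glue_mp μ T ι D).comp (h1.comp (slice_mp μ T ι D))
      have h3 : (glue ∘ ((fun (z : ι → Arr ι X D) i => if i = c then tArr T ι D (z i) else z i) ∘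
          slice) : Arr ι X (D + 1) → Arr ι X (D + 1)) = slab T ι (D + 1) 0 c := by
        funext x
        rw [← glue_slice (slab T ι (D + 1) 0 c x)]
        show glue (fun i => if i = c then tArr T ι D (slice x i) else slice x i) =
          glue (slice (slab T ι (D + 1) 0 c x))
        refine congrArg glue (funext fun i => ?_)
        rw [slice_slab_zero T c x i]
      rw [h3] at h2
      exact h2
    | succ j =>
      have hcomm : ∀ y : Arr ι X D, slab T ι D j c (tArr T ι D y) =
          tArr T ι D (slab T ι D j c y) := by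
        intro y
        funext v
        show (if v j = c then T else MeasurableEquiv.refl X) (T (y v)) =
          T ((if v j = c then T else MeasurableEquiv.refl X) (y v))
        split_ifs <;> rfl
      have h1 := relInd_tTup (Inv (tArr T ι D)) (cube μ T ι D) (cubb_inv_le _) (slab T ι D j c)
        (ih j) (cubb_TInv _ _ hcomm) ι
      have h2 := (glue_mp μ T ι D).comp (h1.comp (slice_mp μ T ι D))
      have h3 : (glue ∘ (tTup (slab T ι D j c) ι ∘ slice) : Arr ι X (D + 1) → Arr ι X (D + 1)) =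
          slab T ι (D + 1) j.succ c := by
        funext x
        rw [← glue_slice (slab T ι (D + 1) j.succ c x)]
        show glue (fun i => slab T ι D j c (slice x i)) =
          glue (slice (slab T ι (D + 1) j.succ c x))
        refine congrArg glue (funext fun i => ?_)
        rw [slice_slab_succ T j c x i]
      rw [h3] at h2
      exact h2

/-- **CUBB3.** Every vertex has law `μ` (induction, `relInd_eval`). -/
theorem cube_eval {X : Type} [MeasurableSpace X] [StandardBorelSpace X] (μ : Measure X)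
    [IsProbabilityMeasure μ] (T : X ≃ᵐ X) (ι : Type) [Fintype ι]
    (D : ℕ) (v : Fin D → ι) : MeasurePreserving (fun x : Arr ι X D => x v) (cube μ T ι D) μ := by
  induction D with
  | zero =>
    refine ⟨measurable_pi_apply v, ?_⟩
    have hc : Measurable (fun (x : X) (_ : Fin 0 → ι) => x) :=
      measurable_pi_lambda _ fun _ => measurable_id
    show Measure.map (fun x : Arr ι X 0 => x v) (Measure.map (fun x _ => x) μ) = μ
    rw [Measure.map_map (measurable_pi_apply v) hc]
    exact Measure.map_id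
  | succ D ih =>
    have := cube_prob μ T ι D
    have h1 := relInd_eval (Inv (tArr T ι D)) (cube μ T ι D) (cubb_inv_le _) (v 0)
    have h2 := (ih (Fin.tail v)).comp (h1.comp (slice_mp μ T ι D))
    have h3 : ((fun x : Arr ι X D => x (Fin.tail v)) ∘ ((fun z : ι → Arr ι X D => z (v 0)) ∘
        slice) : Arr ι X (D + 1) → X) = fun x => x v := by
      funext x
      show x (Fin.cons (v 0) (Fin.tail v)) = x v
      rw [Fin.cons_self_tail]
    rw [h3] at h2
    exact h2

/-- **CUBB4.** Every vertex is a factor map. -/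
theorem cube_eval_fmap {X : Type} [MeasurableSpace X] [StandardBorelSpace X] (μ : Measure X)
    [IsProbabilityMeasure μ] (T : X ≃ᵐ X) (ι : Type) [Fintype ι]
    (D : ℕ) (v : Fin D → ι) :
    FMap (cube μ T ι D) (tArr T ι D) μ T (fun x : Arr ι X D => x v) :=
  ⟨cube_eval μ T ι D v, Eventually.of_forall fun _ => rfl⟩

/-- **CUBB5.** The measure of a set does not depend on the order of the two slices: the cube
measure over `Fin 2` is invariant under the exchange of the slices in direction `0`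
(`relInd` is invariant under permutations of the index set: `relInd_rst`). -/
theorem cube_swap {X : Type} [MeasurableSpace X] [StandardBorelSpace X] (μ : Measure X)
    [IsProbabilityMeasure μ] (T : X ≃ᵐ X) (D : ℕ) :
    MeasurePreserving (fun x : Arr (Fin 2) X (D + 1) => glue ![slice x 1, slice x 0])
      (cube μ T (Fin 2) (D + 1)) (cube μ T (Fin 2) (D + 1)) := by
  have := cube_prob μ T (Fin 2) D
  have he : Function.Injective (![1, 0] : Fin 2 → Fin 2) := by decide
  have h1 := relInd_rst (Inv (tArr T (Fin 2) D)) (cube μ T (Fin 2) D) (cubb_inv_le _)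
    (![1, 0] : Fin 2 → Fin 2) he
  have h2 := (glue_mp μ T (Fin 2) D).comp (h1.comp (slice_mp μ T (Fin 2) D))
  have h3 : (glue ∘ ((fun (z : Fin 2 → Arr (Fin 2) X D) k => z ((![1, 0] : Fin 2 → Fin 2) k)) ∘
      slice) : Arr (Fin 2) X (D + 1) → Arr (Fin 2) X (D + 1)) =
      fun x => glue ![slice x 1, slice x 0] := by
    funext x
    show glue (fun k => slice x ((![1, 0] : Fin 2 → Fin 2) k)) = glue ![slice x 1, slice x 0]
    congr 1
    funext k
    fin_cases k <;> rfl
  rw [h3] at h2
  exact h2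

end Pool.Agent.HK820

end

/-! ### Part `CubC` -/

section

open MeasureTheory ProbabilityTheory Filter Topology
open scoped ComplexConjugate ENNReal

namespace Pool.Agent.HK820

/-- **CUBC1.** Factor maps induce factor maps of the cube systems.

Proof. Induction on `D`. The equivariance is clear vertex by vertex (`cube_eval`,
finitely many vertices). Measure preserving: `D = 0` clear. `D + 1`: with
`P x v = p (x v)` we have `slice (P x) i = P (slice x i)`; by induction `P` is a factor map on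
`D`-dimensional cubes, so by `condExp_inv_comp` (AVG2b, applied to the systems `cube μ T ι D` and
`cube ν S ι D`, which are preserved by the diagonal transformations, CUBB1) the hypothesis of
`relInd_map` holds for `m = Inv (tArr T ι D)`, `m' = Inv (tArr S ι D)`. -/
theorem cube_fmap {X Y : Type} [MeasurableSpace X] [StandardBorelSpace X]
    [MeasurableSpace Y] [StandardBorelSpace Y] {μ : Measure X}
    [IsProbabilityMeasure μ] {T : X ≃ᵐ X} (hT : MeasurePreserving T μ μ) {ν : Measure Y}
    [IsProbabilityMeasure ν] {S : Y ≃ᵐ Y} (hS : MeasurePreserving S ν ν) {p : X → Y}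
    (hp : FMap μ T ν S p) (ι : Type) [Fintype ι] (D : ℕ) :
    FMap (cube μ T ι D) (tArr T ι D) (cube ν S ι D) (tArr S ι D) (fun x v => p (x v)) := by
  have := fun (D : ℕ) => cube_prob μ T ι D
  have := fun (D : ℕ) => cube_prob ν S ι D
  have heqv : ∀ D : ℕ, ∀ᵐ x ∂(cube μ T ι D),
      (fun v => p (tArr T ι D x v)) = tArr S ι D (fun v => p (x v)) := by
    intro D
    have h1 : ∀ᵐ x ∂(cube μ T ι D), ∀ v : Fin D → ι, p (T (x v)) = S (p (x v)) :=
      ae_all_iff.mpr fun v => (cube_eval μ T ι D v).quasiMeasurePreserving.ae hp.eqv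
    filter_upwards [h1] with x hx
    funext v
    exact hx v
  induction D with
  | zero =>
    refine ⟨⟨?_, ?_⟩, heqv 0⟩
    · exact measurable_pi_lambda _ fun v => hp.mp.measurable.comp (measurable_pi_apply v)
    · show Measure.map (fun x v => p (x v)) (Measure.map (fun x _ => x) μ) =
        Measure.map (fun x _ => x) ν
      have hm1 : Measurable (fun (x : Arr ι X 0) (v : Fin 0 → ι) => p (x v)) :=
        measurable_pi_lambda _ fun v => hp.mp.measurable.comp (measurable_pi_apply v)
      have hm2 : Measurable (fun (x : X) (_ : Fin 0 → ι) => x) :=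
        measurable_pi_lambda _ fun v => measurable_id
      have hm3 : Measurable (fun (x : Y) (_ : Fin 0 → ι) => x) :=
        measurable_pi_lambda _ fun v => measurable_id
      rw [Measure.map_map hm1 hm2, ← hp.mp.map_eq, Measure.map_map hm3 hp.mp.measurable]
      rfl
  | succ D ih =>
    refine ⟨?_, heqv (D + 1)⟩
    have h1 := slice_mp μ T ι D
    have h2 := relInd_map (Inv (tArr T ι D)) (Inv (tArr S ι D)) (cube μ T ι D) (cube ν S ι D)
      (MeasurableSpace.invariants_le _) (MeasurableSpace.invariants_le _) ih.mp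
      (fun F hF => condExp_inv_comp (cube_tArr μ T hT ι D) (cube_tArr ν S hS ι D) ih hF) ι
    have h3 := glue_mp ν S ι D
    have h4 := h3.comp (h2.comp h1)
    have h5 : (fun (x : Arr ι X (D + 1)) (v : Fin (D + 1) → ι) => p (x v)) =
        glue ∘ (fun (z : ι → Arr ι X D) i => (fun v => p (z i v))) ∘ slice := by
      funext x v
      show p (x v) = p (x (Fin.cons (v 0) (Fin.tail v)))
      rw [Fin.cons_self_tail]
    rw [h5]
    exact h4

/-- **CUBC2.** (T1) Restriction of arrays along injections of the index sets, direction by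
direction.

Proof. Induction on `D`. `slice (rst e x) k = rst (fun j => e j.succ) (slice x (e 0 k))`. By induction
`r = rst (fun j => e j.succ)` is a factor map from `cube μ T ι D` to `cube μ T κ D` (it commutes
with the diagonal transformations), so by AVG2b and `relInd_map` the map `(z i) ↦ (r (z i))` is
measure preserving between `relInd (Inv (tArr T ι D)) (cube μ T ι D) ι` and
`relInd (Inv (tArr T κ D)) (cube μ T κ D) ι`; compose with the restriction of the index set along
`e 0` (`relInd_rst`). -/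
theorem cube_rst {X : Type} [MeasurableSpace X] [StandardBorelSpace X] {μ : Measure X}
    [IsProbabilityMeasure μ] {T : X ≃ᵐ X} (hT : MeasurePreserving T μ μ) {ι κ : Type}
    [Fintype ι] [Fintype κ] {D : ℕ} (e : Fin D → κ → ι) (he : ∀ j, Function.Injective (e j)) :
    FMap (cube μ T ι D) (tArr T ι D) (cube μ T κ D) (tArr T κ D) (rst e) := by
  have := fun (D : ℕ) => cube_prob μ T ι D
  have := fun (D : ℕ) => cube_prob μ T κ D
  refine ⟨?_, Eventually.of_forall fun x => rfl⟩
  induction D with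
  | zero =>
    have hm1 : Measurable (rst e : Arr ι X 0 → Arr κ X 0) :=
      measurable_pi_lambda _ fun v => measurable_pi_apply _
    have hm2 : Measurable (fun (x : X) (_ : Fin 0 → ι) => x) :=
      measurable_pi_lambda _ fun v => measurable_id
    refine ⟨hm1, ?_⟩
    show Measure.map (rst e) (Measure.map (fun x _ => x) μ) = Measure.map (fun x _ => x) μ
    rw [Measure.map_map hm1 hm2]
    rfl
  | succ D ih =>
    have hr : FMap (cube μ T ι D) (tArr T ι D) (cube μ T κ D) (tArr T κ D)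
        (rst (fun j : Fin D => e j.succ)) :=
      ⟨ih (fun j => e j.succ) (fun j => he j.succ), Eventually.of_forall fun x => rfl⟩
    have h1 := slice_mp μ T ι D
    have h2 := relInd_map (Inv (tArr T ι D)) (Inv (tArr T κ D)) (cube μ T ι D) (cube μ T κ D)
      (MeasurableSpace.invariants_le _) (MeasurableSpace.invariants_le _) hr.mp
      (fun F hF => condExp_inv_comp (cube_tArr μ T hT ι D) (cube_tArr μ T hT κ D) hr hF) ι
    have h3 := relInd_rst (Inv (tArr T κ D)) (cube μ T κ D) (MeasurableSpace.invariants_le _)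
      (e 0) (he 0)
    have h4 := glue_mp μ T κ D
    have h5 := h4.comp (h3.comp (h2.comp h1))
    have h6 : (rst e : Arr ι X (D + 1) → Arr κ X (D + 1)) =
        glue ∘ (fun (z : ι → Arr κ X D) k => z (e 0 k)) ∘
          (fun (z : ι → Arr ι X D) i => rst (fun j : Fin D => e j.succ) (z i)) ∘ slice := by
      funext x v
      show x (fun j => e j (v j)) =
        x (Fin.cons (e 0 (v 0)) (fun j : Fin D => e j.succ (v j.succ)))
      congr 1
      funext j
      refine Fin.cases ?_ (fun j => ?_) j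
      · rw [Fin.cons_zero]
      · rw [Fin.cons_succ]
    rw [h6]
    exact h5

/-- **CUBC3.** Slices are factor maps. -/
theorem cube_slice_fmap {X : Type} [MeasurableSpace X] [StandardBorelSpace X] {μ : Measure X}
    [IsProbabilityMeasure μ] {T : X ≃ᵐ X} (hT : MeasurePreserving T μ μ) {ι : Type}
    [Fintype ι] {D : ℕ} (i : ι) :
    FMap (cube μ T ι (D + 1)) (tArr T ι (D + 1)) (cube μ T ι D) (tArr T ι D)
      (fun x => slice x i) := by
  have := cube_prob μ T ι D
  refine ⟨?_, Eventually.of_forall fun x => slice_tArr T x i⟩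
  exact (relInd_eval (Inv (tArr T ι D)) (cube μ T ι D) (MeasurableSpace.invariants_le _) i).comp
    (slice_mp μ T ι D)

/-- **CUBC4.** Independence of the choice of the component: invariant functions take the same
value on all slices (`relInd_eq`). -/
theorem cube_slice_eq {X : Type} [MeasurableSpace X] [StandardBorelSpace X] {μ : Measure X}
    [IsProbabilityMeasure μ] {T : X ≃ᵐ X} {ι : Type}
    [Fintype ι] {D : ℕ} {g : Arr ι X D → ℂ} (hg : AEM (Inv (tArr T ι D)) (cube μ T ι D) g)
    (i j : ι) : ∀ᵐ x ∂(cube μ T ι (D + 1)), g (slice x i) = g (slice x j) := by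
  have := cube_prob μ T ι D
  exact (slice_mp μ T ι D).quasiMeasurePreserving.ae
    (relInd_eq (Inv (tArr T ι D)) (cube μ T ι D) (MeasurableSpace.invariants_le _) hg i j)

/-- **CUBC5.** Composition of factor maps. -/
theorem FMap.comp {X Y Z : Type} [MeasurableSpace X] [MeasurableSpace Y] [MeasurableSpace Z]
    {μ : Measure X} {T : X ≃ᵐ X} {ν : Measure Y} {S : Y ≃ᵐ Y} {θ : Measure Z} {R : Z ≃ᵐ Z}
    {p : X → Y} {q : Y → Z} (hp : FMap μ T ν S p) (hq : FMap ν S θ R q) :
    FMap μ T θ R (fun x => q (p x)) := by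
  refine ⟨hq.mp.comp hp.mp, ?_⟩
  filter_upwards [hp.eqv, hp.mp.quasiMeasurePreserving.ae hq.eqv] with x h1 h2
  rw [h1, h2]

/-- **CUBC6.** A factor map intertwines all the powers almost everywhere. -/
theorem FMap.iter {X Y : Type} [MeasurableSpace X] [MeasurableSpace Y]
    {μ : Measure X} {T : X ≃ᵐ X} (hT : MeasurePreserving T μ μ) {ν : Measure Y} {S : Y ≃ᵐ Y}
    {p : X → Y} (hp : FMap μ T ν S p) : ∀ᵐ x ∂μ, ∀ n : ℕ, p (T^[n] x) = S^[n] (p x) := by
  have h1 : ∀ᵐ x ∂μ, ∀ n : ℕ, p (T (T^[n] x)) = S (p (T^[n] x)) :=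
    ae_all_iff.mpr fun n => (hT.iterate n).quasiMeasurePreserving.ae hp.eqv
  filter_upwards [h1] with x hx n
  induction n with
  | zero => rfl
  | succ n ih => rw [Function.iterate_succ_apply', Function.iterate_succ_apply', hx n, ih]

/-- **CUBC7.** A factor of an ergodic system is ergodic (`MeasurePreserving` image: if `s` is
`S`-invariant then `p ⁻¹' s` is almost invariant; use the pre-ergodicity criterion for almost
invariant sets, `QuasiErgodic`/`Ergodic` API). -/
theorem FMap.ergodic {X Y : Type} [MeasurableSpace X] [MeasurableSpace Y]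
    {μ : Measure X} [IsProbabilityMeasure μ] {T : X ≃ᵐ X} (hT : Ergodic T μ) {ν : Measure Y}
    [IsProbabilityMeasure ν] {S : Y ≃ᵐ Y} (hS : MeasurePreserving S ν ν)
    {p : X → Y} (hp : FMap μ T ν S p) : Ergodic S ν := by
  refine ⟨hS, ⟨fun s hs hinv => ?_⟩⟩
  have h1 : T ⁻¹' (p ⁻¹' s) =ᵐ[μ] p ⁻¹' s := by
    filter_upwards [hp.eqv] with x hx
    have h2 : (p (T x) ∈ s) = (p x ∈ s) := by
      rw [hx]
      show (p x ∈ S ⁻¹' s) = (p x ∈ s)
      rw [hinv]
    exact h2
  have h2 : EventuallyConst (p ⁻¹' s) (ae μ) :=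
    hT.quasiErgodic.aeconst_set₀ (hp.mp.measurable hs).nullMeasurableSet h1
  exact (hp.mp.aeconst_preimage hs.nullMeasurableSet).mp h2

end Pool.Agent.HK820

end

/-! ### Part `CubD` -/

section

open MeasureTheory ProbabilityTheory Filter Topology
open scoped ComplexConjugate ENNReal

namespace Pool.Agent.HK820

/-! **CUBD.** Multiplicative derivatives and Gowers-Host-Kra seminorms. `gn μ T k f` is the
`2^k`-th power of the `k`-th seminorm. -/

theorem cj_mul (n : ℕ) (a b : ℂ) : cj n (a * b) = cj n a * cj n b := by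
  unfold cj
  split_ifs
  · rfl
  · exact map_mul _ _ _

theorem norm_cj (n : ℕ) (a : ℂ) : ‖cj n a‖ = ‖a‖ := by
  unfold cj
  split_ifs
  · rfl
  · exact Complex.norm_conj a

theorem cj_succ (n : ℕ) (a : ℂ) : cj (n + 1) a = conj (cj n a) := by
  unfold cj
  by_cases h : Even n
  · rw [if_pos h, if_neg (by rw [Nat.even_add_one]; exact not_not.2 h)]
  · rw [if_neg h, if_pos (Nat.even_add_one.2 h), Complex.conj_conj]

theorem wt_cons {k : ℕ} (b : Fin 2) (w : Fin k → Fin 2) :
    wt (Fin.cons b w : Fin (k + 1) → Fin 2) = (b : ℕ) + wt w := by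
  unfold wt
  rw [Fin.sum_univ_succ, Fin.cons_zero]
  simp only [Fin.cons_succ]

/-- (use `prod_arr_succ`-type splitting of the product, `wt_cons`, `cj_succ`) -/
theorem dd_succ {X : Type} (k : ℕ) (f : X → ℂ) (x : Arr (Fin 2) X (k + 1)) :
    dd (k + 1) f x = dd k f (slice x 0) * conj (dd k f (slice x 1)) := by
  unfold dd
  rw [prod_arr_succ (fun v a => cj (wt v) (f a)) x, Fin.prod_univ_two, map_prod]
  congr 1
  · refine Finset.prod_congr rfl fun w _ => ?_
    rw [wt_cons, Fin.val_zero, zero_add]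
  · refine Finset.prod_congr rfl fun w _ => ?_
    rw [wt_cons, Fin.val_one, add_comm, cj_succ]

theorem dd_mul {X : Type} (k : ℕ) (f g : X → ℂ) (x : Arr (Fin 2) X k) :
    dd k (fun a => f a * g a) x = dd k f x * dd k g x := by
  unfold dd
  rw [← Finset.prod_mul_distrib]
  exact Finset.prod_congr rfl fun v _ => cj_mul _ _ _

theorem dd_conj {X : Type} (k : ℕ) (f : X → ℂ) (x : Arr (Fin 2) X k) :
    dd k (fun a => conj (f a)) x = conj (dd k f x) := by
  unfold dd
  rw [map_prod]
  refine Finset.prod_congr rfl fun v _ => ?_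
  unfold cj
  split_ifs <;> rfl

theorem dd_iter {X : Type} [MeasurableSpace X] (T : X ≃ᵐ X) (k n : ℕ) (f : X → ℂ)
    (x : Arr (Fin 2) X k) :
    dd k (fun a => f (T^[n] a)) x = dd k f ((tArr T (Fin 2) k)^[n] x) := by
  have h : ∀ (n : ℕ) (x : Arr (Fin 2) X k) (v : Fin k → Fin 2),
      ((tArr T (Fin 2) k)^[n] x) v = T^[n] (x v) := by
    intro n
    induction n with
    | zero => intro x v; rfl
    | succ n ih =>
      intro x v
      rw [Function.iterate_succ_apply, Function.iterate_succ_apply, ih]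
      rfl
  unfold dd
  refine Finset.prod_congr rfl fun v _ => ?_
  rw [h n x v]

theorem dd_bm {X : Type} [MeasurableSpace X] (k : ℕ) {f : X → ℂ} (hf : BM f) :
    BM (dd k f) := by
  unfold dd
  refine BMs.prod _ fun v => ?_
  exact (BMs.comp hf (measurable_pi_apply v)).cj _

theorem norm_dd {X : Type} (k : ℕ) {f : X → ℂ} (hf : ∀ x, ‖f x‖ = 1) (x : Arr (Fin 2) X k) :
    ‖dd k f x‖ = 1 := by
  unfold dd
  rw [norm_prod]
  refine Finset.prod_eq_one fun v _ => ?_
  rw [norm_cj, hf]

theorem dd_congr {X : Type} [MeasurableSpace X] [StandardBorelSpace X] {μ : Measure X}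
    [IsProbabilityMeasure μ] {T : X ≃ᵐ X} (k : ℕ) {f g : X → ℂ} (h : f =ᵐ[μ] g) :
    dd k f =ᵐ[cube μ T (Fin 2) k] dd k g := by
  have h1 : ∀ v : Fin k → Fin 2, ∀ᵐ x ∂(cube μ T (Fin 2) k), f (x v) = g (x v) := fun v =>
    (cube_eval μ T (Fin 2) k v).quasiMeasurePreserving.ae h
  filter_upwards [ae_all_iff.2 h1] with x hx
  unfold dd
  exact Finset.prod_congr rfl fun v _ => by rw [hx v]

theorem gn_congr {X : Type} [MeasurableSpace X] [StandardBorelSpace X] {μ : Measure X}
    [IsProbabilityMeasure μ] {T : X ≃ᵐ X} (k : ℕ) {f g : X → ℂ} (h : f =ᵐ[μ] g) :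
    gn μ T k f = gn μ T k g := by
  exact integral_congr_ae (dd_congr k h)

/-- conditional expectation commutes with conjugation -/
theorem cubd_condExp_conj {X : Type} (m : MeasurableSpace X) [mX : MeasurableSpace X]
    (μ : Measure X) [IsProbabilityMeasure μ] {f : X → ℂ} (hf : BM f) :
    μ[fun x => conj (f x) | m] =ᵐ[μ] fun x => conj ((μ[f | m]) x) := by
  have h1 := (Complex.conjCLE : ℂ →L[ℝ] ℂ).comp_condExp_comm (m := m) (hf.integrable μ)
  exact h1.symm

/-- Cauchy-Schwarz on a probability space -/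
theorem cubd_sq_le {X : Type} [MeasurableSpace X] (μ : Measure X) [IsProbabilityMeasure μ]
    {g : X → ℂ} (hg : BM g) : ‖∫ x, g x ∂μ‖ ^ 2 ≤ ∫ x, ‖g x‖ ^ 2 ∂μ := by
  have h1 : Integrable (fun x => ‖g x‖) μ := (hg.integrable μ).norm
  have h2 : Integrable (fun x => ‖g x‖ ^ 2) μ := bas_int_sq hg μ
  have h3 : ‖∫ x, g x ∂μ‖ ≤ ∫ x, ‖g x‖ ∂μ := norm_integral_le_integral_norm _
  have h4 : ‖∫ x, g x ∂μ‖ ^ 2 ≤ (∫ x, ‖g x‖ ∂μ) ^ 2 := pow_le_pow_left₀ (norm_nonneg _) h3 2
  refine h4.trans ?_
  set a := ∫ x, ‖g x‖ ∂μ with ha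
  have h5 : 0 ≤ ∫ x, (‖g x‖ - a) ^ 2 ∂μ := integral_nonneg fun x => by positivity
  have h6 : ∫ x, (‖g x‖ - a) ^ 2 ∂μ = ∫ x, ‖g x‖ ^ 2 ∂μ - a ^ 2 := by
    have e1 : ∀ x, (‖g x‖ - a) ^ 2 = (‖g x‖ ^ 2 - (2 * a) * ‖g x‖) + a ^ 2 := fun x => by ring
    simp only [e1]
    have h7 : Integrable (fun x => ‖g x‖ ^ 2 - 2 * a * ‖g x‖) μ := h2.sub (h1.const_mul (2 * a))
    rw [integral_add h7 (integrable_const _), integral_sub h2 (h1.const_mul (2 * a)),
      integral_const_mul, ← ha, integral_const, probReal_univ,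
      one_smul]
    ring
  linarith

/-- `gn (k+1) f = ∫ ‖E[dd k f | Inv]‖²`: product formula `cube_prod` with `H 0 = dd k f`,
`H 1 = conj (dd k f)` -/
theorem gn_succ {X : Type} [MeasurableSpace X] [StandardBorelSpace X] (μ : Measure X)
    [IsProbabilityMeasure μ] (T : X ≃ᵐ X) (k : ℕ) {f : X → ℂ} (hf : BM f) :
    gn μ T (k + 1) f = ((∫ x, ‖((cube μ T (Fin 2) k)[dd k f | Inv (tArr T (Fin 2) k)]) x‖ ^ 2
      ∂(cube μ T (Fin 2) k) : ℝ) : ℂ) := by
  have := cube_prob μ T (Fin 2) k
  have hF : BM (dd k f) := dd_bm k hf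
  have h1 := cube_prod μ T (ι := Fin 2) (D := k) (H := ![dd k f, fun y => conj (dd k f y)]) (by
    intro i
    fin_cases i
    · exact hF
    · exact BMs.conj hF)
  simp only [Fin.prod_univ_two, Matrix.cons_val_zero, Matrix.cons_val_one] at h1
  have h2 : gn μ T (k + 1) f =
      ∫ x, dd k f (slice x 0) * conj (dd k f (slice x 1)) ∂(cube μ T (Fin 2) (k + 1)) :=
    integral_congr_ae (Eventually.of_forall fun x => dd_succ k f x)
  rw [h2, h1, ← integral_complex_ofReal]
  refine integral_congr_ae ?_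
  filter_upwards [cubd_condExp_conj (Inv (tArr T (Fin 2) k)) (cube μ T (Fin 2) k) hF] with x hx
  rw [hx, Complex.mul_conj, Complex.normSq_eq_norm_sq]

/-- the seminorm of a factor function is computed in the factor (`cube_fmap`) -/
theorem gn_fmap {X Y : Type} [MeasurableSpace X] [StandardBorelSpace X]
    [MeasurableSpace Y] [StandardBorelSpace Y] {μ : Measure X}
    [IsProbabilityMeasure μ] {T : X ≃ᵐ X} (hT : MeasurePreserving T μ μ) {ν : Measure Y}
    [IsProbabilityMeasure ν] {S : Y ≃ᵐ Y} (hS : MeasurePreserving S ν ν) {p : X → Y}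
    (hp : FMap μ T ν S p) (k : ℕ) {f : Y → ℂ} (hf : BM f) :
    gn μ T k (fun x => f (p x)) = gn ν S k f := by
  have h1 := (cube_fmap hT hS hp (Fin 2) k).mp
  have hF : BM (dd k f) := dd_bm k hf
  have := cube_prob ν S (Fin 2) k
  have h2 : gn ν S k f = ∫ x, dd k f (fun v => p (x v)) ∂(cube μ T (Fin 2) k) := by
    unfold gn
    rw [← h1.map_eq, integral_map h1.measurable.aemeasurable hF.1.aestronglyMeasurable]
  rw [h2]
  rfl

theorem gn_le_one {X : Type} [MeasurableSpace X] [StandardBorelSpace X] (μ : Measure X)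
    [IsProbabilityMeasure μ] (T : X ≃ᵐ X) (k : ℕ) {f : X → ℂ} (hf : BM f) (h1 : ∀ x, ‖f x‖ ≤ 1) :
    ‖gn μ T k f‖ ≤ 1 := by
  have := cube_prob μ T (Fin 2) k
  have h2 : ∀ x, ‖dd k f x‖ ≤ 1 := by
    intro x
    unfold dd
    rw [norm_prod]
    refine Finset.prod_le_one (fun v _ => norm_nonneg _) fun v _ => ?_
    rw [norm_cj]
    exact h1 _
  have h3 := norm_integral_le_of_norm_le_const (μ := cube μ T (Fin 2) k)
    (Eventually.of_forall h2)
  rw [probReal_univ, mul_one] at h3
  exact h3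

/-- monotonicity: `|∫ F|² ≤ ∫ |E[F|Inv]|²` for `F = dd k f` -/
theorem gn_mono {X : Type} [MeasurableSpace X] [StandardBorelSpace X] (μ : Measure X)
    [IsProbabilityMeasure μ] (T : X ≃ᵐ X) (k : ℕ) {f : X → ℂ} (hf : BM f) :
    ‖gn μ T k f‖ ^ 2 ≤ ‖gn μ T (k + 1) f‖ := by
  have := cube_prob μ T (Fin 2) k
  have hF : BM (dd k f) := dd_bm k hf
  have hm : Inv (tArr T (Fin 2) k) ≤ MeasurableSpace.pi := MeasurableSpace.invariants_le _
  obtain ⟨C, hC⟩ := hF.2
  obtain ⟨g, hgm, hgC, hg⟩ := exists_bms_condExp (Inv (tArr T (Fin 2) k)) (cube μ T (Fin 2) k) hm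
    hF.1 hC
  have hgB : BM g := BMs.mono hm ⟨hgm, C, hgC⟩
  rw [gn_succ μ T k hf, Complex.norm_real, Real.norm_of_nonneg
    (integral_nonneg fun x => by positivity)]
  have e1 : ∫ x, ‖((cube μ T (Fin 2) k)[dd k f | Inv (tArr T (Fin 2) k)]) x‖ ^ 2
      ∂(cube μ T (Fin 2) k) = ∫ x, ‖g x‖ ^ 2 ∂(cube μ T (Fin 2) k) := by
    refine integral_congr_ae ?_
    filter_upwards [hg] with x hx
    rw [hx]
  have e2 : gn μ T k f = ∫ x, g x ∂(cube μ T (Fin 2) k) := by
    rw [← integral_congr_ae hg, integral_condExp hm]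
    rfl
  rw [e1, e2]
  exact cubd_sq_le (cube μ T (Fin 2) k) hgB

/-- The seminorm as a limit of averages. Proof: `dd k (f · conj f∘T^n) x = dd k f x ·
conj (dd k f (tArr^n x))`, and `avg_int_tendsto` for the system `cube μ T (Fin 2) k` (preserved by
the diagonal transformation, CUBB1); the limit is `∫ F · conj E[F | Inv] = ∫ ‖E[F|Inv]‖²`. -/
theorem gn_succ_lim {X : Type} [MeasurableSpace X] [StandardBorelSpace X] (μ : Measure X)
    [IsProbabilityMeasure μ] (T : X ≃ᵐ X) (hT : MeasurePreserving T μ μ) (k : ℕ) {f : X → ℂ}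
    (hf : BM f) :
    Tendsto (fun N : ℕ => (N : ℂ)⁻¹ *
      ∑ n ∈ Finset.range N, gn μ T k (fun x => f x * conj (f (T^[n] x)))) atTop
      (𝓝 (gn μ T (k + 1) f)) := by
  have := cube_prob μ T (Fin 2) k
  have hF : BM (dd k f) := dd_bm k hf
  have hFc : BM (fun x => conj (dd k f x)) := BMs.conj hF
  have h1 := avg_int_tendsto (cube μ T (Fin 2) k) (tArr T (Fin 2) k)
    (cube_tArr μ T hT (Fin 2) k) hF hFc
  have h2 : ∀ n : ℕ, gn μ T k (fun x => f x * conj (f (T^[n] x))) =
      ∫ x, dd k f x * conj (dd k f ((tArr T (Fin 2) k)^[n] x)) ∂(cube μ T (Fin 2) k) := by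
    intro n
    refine integral_congr_ae (Eventually.of_forall fun x => ?_)
    show dd k (fun x => f x * conj (f (T^[n] x))) x = _
    rw [dd_mul k f (fun x => conj (f (T^[n] x))) x, dd_conj k (fun x => f (T^[n] x)) x,
      dd_iter T k n f x]
  have h3 : ∫ x, dd k f x * ((cube μ T (Fin 2) k)[fun x => conj (dd k f x) |
      Inv (tArr T (Fin 2) k)]) x ∂(cube μ T (Fin 2) k) = gn μ T (k + 1) f := by
    rw [gn_succ μ T k hf, ← integral_mul_conj_condExp (Inv (tArr T (Fin 2) k))
      (cube μ T (Fin 2) k) (MeasurableSpace.invariants_le _) hF]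
    refine integral_congr_ae ?_
    filter_upwards [cubd_condExp_conj (Inv (tArr T (Fin 2) k)) (cube μ T (Fin 2) k) hF] with x hx
    rw [hx]
  rw [h3] at h1
  simp only [h2]
  exact h1

end Pool.Agent.HK820

end

/-! ### Part `CubE` -/

section

open MeasureTheory ProbabilityTheory Filter Topology
open scoped ComplexConjugate ENNReal

namespace Pool.Agent.HK820

theorem cube_int_zero_eq {X : Type} [MeasurableSpace X] [StandardBorelSpace X] (μ : Measure X)
    [IsProbabilityMeasure μ] (T : X ≃ᵐ X) {ι : Type} [Fintype ι]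
    (f : (Fin 0 → ι) → X → ℂ) (hf : ∀ v, BM (f v)) (v₀ : Fin 0 → ι) :
    ∫ x, ∏ v, f v (x v) ∂(cube μ T ι 0) = gn μ T 0 (f v₀) := by
  have h1 : ∀ x : Arr ι X 0, ∏ v, f v (x v) = f v₀ (x v₀) := by
    intro x
    rw [Fintype.prod_unique, Subsingleton.elim (default : Fin 0 → ι) v₀]
  have hbm : BM (fun x : Arr ι X 0 => f v₀ (x v₀)) := BMs.comp (hf v₀) (measurable_pi_apply v₀)
  simp_rw [h1]
  rw [integral_cube_zero μ T ι hbm]
  have h2 : ∀ x : Arr (Fin 2) X 0, dd 0 (f v₀) x = f v₀ (x 0) := by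
    intro x
    unfold dd
    have hw : ∀ v : Fin 0 → Fin 2, cj (wt v) (f v₀ (x v)) = f v₀ (x 0) := by
      intro v
      have h0 : wt v = 0 := by
        unfold wt
        simp
      rw [h0, Subsingleton.elim v 0]
      simp [cj]
    rw [Fintype.prod_congr _ _ hw]
    simp
  have hbm2 : BM (dd 0 (f v₀)) := dd_bm 0 (hf v₀)
  unfold gn
  rw [integral_cube_zero μ T (Fin 2) hbm2]
  refine integral_congr_ae (Eventually.of_forall fun a => ?_)
  simp only [h2]

theorem tArr_iter_apply {X : Type} [MeasurableSpace X] (T : X ≃ᵐ X) {ι : Type} {D : ℕ} (n : ℕ)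
    (x : Arr ι X D) (v : Fin D → ι) : ((tArr T ι D)^[n] x) v = T^[n] (x v) := by
  induction n generalizing x with
  | zero => rfl
  | succ n ih =>
    rw [Function.iterate_succ_apply, Function.iterate_succ_apply, ih]
    rfl

theorem bm_prod_arr {X : Type} [MeasurableSpace X] {ι : Type} [Fintype ι] {D : ℕ}
    (f : (Fin D → ι) → X → ℂ) (hf : ∀ v, BM (f v)) :
    BM (fun x : Arr ι X D => ∏ v, f v (x v)) :=
  BMs.prod (f := fun (v : Fin D → ι) (x : Arr ι X D) => f v (x v)) Finset.univ
    fun v => BMs.comp (hf v) (measurable_pi_apply v)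

/-- the square integral of the conditional expectation as a limit of correlations -/
theorem sq_condExp_lim {X : Type} [MeasurableSpace X] (μ : Measure X)
    [IsProbabilityMeasure μ] (T : X → X) (hT : MeasurePreserving T μ μ) {F : X → ℂ} (hF : BM F) :
    Tendsto (fun N : ℕ => (N : ℂ)⁻¹ *
      ∑ n ∈ Finset.range N, ∫ x, F x * conj (F (T^[n] x)) ∂μ) atTop
      (𝓝 ((∫ x, ‖(μ[F | Inv T]) x‖ ^ 2 ∂μ : ℝ) : ℂ)) := by
  have hle : Inv T ≤ (inferInstance : MeasurableSpace X) := MeasurableSpace.invariants_le T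
  have h1 := avg_int_tendsto μ T hT (f := fun x => conj (F x)) (g := F) hF.conj hF
  have h2 : ∫ x, conj (F x) * (μ[F | Inv T]) x ∂μ
      = ((∫ x, ‖(μ[F | Inv T]) x‖ ^ 2 ∂μ : ℝ) : ℂ) := by
    have h3 := integral_mul_conj_condExp (Inv T) μ hle hF
    have h4 : ∫ x, conj (F x) * (μ[F | Inv T]) x ∂μ
        = conj (∫ x, F x * conj ((μ[F | Inv T]) x) ∂μ) := by
      rw [← integral_conj]
      refine integral_congr_ae (Eventually.of_forall fun x => ?_)
      simp
    rw [h4, h3, Complex.conj_ofReal]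
  rw [h2] at h1
  have h5 := (Complex.continuous_conj.tendsto _).comp h1
  rw [Complex.conj_ofReal] at h5
  refine h5.congr fun N => ?_
  simp only [Function.comp_apply, map_mul, map_sum, map_inv₀, Complex.conj_natCast]
  congr 1
  refine Finset.sum_congr rfl fun n _ => ?_
  rw [← integral_conj]
  refine integral_congr_ae (Eventually.of_forall fun x => ?_)
  simp

/-- **CUBE1.** Every function controls the cube integral (over any finite index set `ι`).

Proof. Induction on `D`. `D = 0`: there is only one vertex, equality. `D = 1` (and the general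
step): write `v₀ = Fin.cons i₀ w₀` and `H i (y) = ∏ w, f (Fin.cons i w) (y w)`; by `cube_bound`,
`‖∫‖ ^ 2 ≤ ∫ ‖E[H i₀ | Inv]‖²`. If `D + 1 = 1` the right side is `∫ ‖E[f v₀ | Inv T]‖² = gn 1 (f v₀)`
(transport along `fun a _ => a`, `cube 0`). If `D ≥ 1`: by `avg_int_tendsto` the right side is the
limit of the averages of `c n = ∫ H i₀ · conj (H i₀ ∘ tArr^n) = ∫ ∏ w, g w n (y w)` with
`g w n = f · conj (f ∘ T^n)`, `f = f (Fin.cons i₀ w)`, bounded by `1`. By induction
`‖c n‖ ^ (2 ^ D) ≤ ‖gn D (g w₀ n)‖ = gn D (g w₀ n)` (`gn_succ`: for `D ≥ 1` it is real and `≥ 0`).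
By convexity (`inner_le_nnorm_mul_nnorm`/`Real.pow_arith_mean_le_arith_mean_pow`)
`(avg ‖c n‖) ^ (2 ^ D) ≤ avg (‖c n‖ ^ (2 ^ D)) ≤ avg (gn D (g w₀ n)) → gn (D + 1) (f v₀)`
(`gn_succ_lim`), so `(‖∫‖ ^ 2) ^ (2 ^ D) ≤ gn (D + 1) (f v₀)`. -/
theorem vertex_bound {X : Type} [MeasurableSpace X] [StandardBorelSpace X] (μ : Measure X)
    [IsProbabilityMeasure μ] (T : X ≃ᵐ X) (hT : MeasurePreserving T μ μ) {ι : Type} [Fintype ι]
    (D : ℕ) (f : (Fin D → ι) → X → ℂ) (hf : ∀ v, BM (f v)) (h1 : ∀ v x, ‖f v x‖ ≤ 1)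
    (v₀ : Fin D → ι) :
    ‖∫ x, ∏ v, f v (x v) ∂(cube μ T ι D)‖ ^ (2 ^ D) ≤ ‖gn μ T D (f v₀)‖ := by
  induction D with
  | zero =>
    rw [cube_int_zero_eq μ T f hf v₀]
    simp
  | succ D ih =>
    have htA := cube_tArr μ T hT ι D
    have := cube_prob μ T ι D
    have := cube_prob μ T ι (D + 1)
    set i₀ : ι := v₀ 0 with hi₀
    set w₀ : Fin D → ι := Fin.tail v₀ with hw₀
    have hcons : (Fin.cons i₀ w₀ : Fin (D + 1) → ι) = v₀ := Fin.cons_self_tail v₀
    have hv : f (Fin.cons i₀ w₀) = f v₀ := congrArg f hcons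
    have hHb : ∀ i : ι, BM (fun y : Arr ι X D => ∏ w, f (Fin.cons i w) (y w)) := fun i =>
      bm_prod_arr (fun w => f (Fin.cons i w)) fun w => hf _
    have hH1 : ∀ (i : ι) (y : Arr ι X D), ‖∏ w, f (Fin.cons i w) (y w)‖ ≤ 1 := by
      intro i y
      rw [norm_prod]
      exact Finset.prod_le_one (fun _ _ => norm_nonneg _) fun w _ => h1 _ _
    have hb := cube_bound μ T (H := fun i (y : Arr ι X D) => ∏ w, f (Fin.cons i w) (y w))
      hHb hH1 i₀
    have hint : ∫ x, ∏ v, f v (x v) ∂(cube μ T ι (D + 1))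
        = ∫ x, ∏ i, (fun (y : Arr ι X D) => ∏ w, f (Fin.cons i w) (y w)) (slice x i)
          ∂(cube μ T ι (D + 1)) :=
      integral_congr_ae (Eventually.of_forall fun x => prod_arr_succ f x)
    rw [← hint] at hb
    set R : ℝ := ∫ y, ‖((cube μ T ι D)[fun y : Arr ι X D => ∏ w, f (Fin.cons i₀ w) (y w) |
      Inv (tArr T ι D)]) y‖ ^ 2 ∂(cube μ T ι D) with hR
    have hR0 : 0 ≤ R := integral_nonneg fun y => by positivity
    have hlim := sq_condExp_lim (cube μ T ι D) (tArr T ι D) htA (hHb i₀)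
    rw [← hR] at hlim
    -- the correlations as cube integrals
    set G : ℕ → (Fin D → ι) → X → ℂ := fun n w a =>
      f (Fin.cons i₀ w) a * conj (f (Fin.cons i₀ w) (T^[n] a)) with hG
    have hTn : ∀ n : ℕ, Measurable (T^[n] : X → X) := fun n => T.measurable.iterate n
    have hGb : ∀ n w, BM (G n w) := fun n w =>
      BMs.mul (hf _) (BMs.conj (BMs.comp (hf _) (hTn n)))
    have hG1 : ∀ n w a, ‖G n w a‖ ≤ 1 := by
      intro n w a
      simp only [hG, norm_mul, RCLike.norm_conj]
      exact mul_le_one₀ (h1 _ _) (norm_nonneg _) (h1 _ _)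
    have hcn : ∀ n : ℕ, ∫ y, (∏ w, f (Fin.cons i₀ w) (y w)) *
        conj (∏ w, f (Fin.cons i₀ w) (((tArr T ι D)^[n] y) w)) ∂(cube μ T ι D)
        = ∫ y, ∏ w, G n w (y w) ∂(cube μ T ι D) := by
      intro n
      refine integral_congr_ae (Eventually.of_forall fun y => ?_)
      simp only [hG, tArr_iter_apply, map_prod, Finset.prod_mul_distrib]
    have hGv : ∀ n, G n w₀ = fun a => f v₀ a * conj (f v₀ (T^[n] a)) := by
      intro n
      funext a
      simp only [hG, hv]
    have hgl := gn_succ_lim μ T hT D (hf v₀)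
    simp only [← hGv] at hgl
    simp only [hcn] at hlim
    rcases Nat.eq_zero_or_pos D with hD | hD
    · subst hD
      have he : ∀ n, ∫ y, ∏ w, G n w (y w) ∂(cube μ T ι 0) = gn μ T 0 (G n w₀) := fun n =>
        cube_int_zero_eq μ T (G n) (hGb n) w₀
      simp only [he] at hlim
      have hRe := tendsto_nhds_unique hlim hgl
      rw [← hRe]
      simpa [abs_of_nonneg hR0] using hb
    · obtain ⟨D', rfl⟩ : ∃ D', D = D' + 1 := ⟨D - 1, by omega⟩
      have hreal : ∀ n, ∃ r : ℝ, 0 ≤ r ∧ gn μ T (D' + 1) (G n w₀) = (r : ℂ) := fun n =>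
        ⟨_, integral_nonneg fun y => by positivity, gn_succ μ T D' (hGb n w₀)⟩
      choose r hr0 hr using hreal
      simp only [hr] at hgl
      have hih : ∀ n, ‖∫ y, ∏ w, G n w (y w) ∂(cube μ T ι (D' + 1))‖ ^ (2 ^ (D' + 1)) ≤ r n := by
        intro n
        have := ih (G n) (hGb n) (hG1 n) w₀
        rw [hr n, Complex.norm_real, Real.norm_of_nonneg (hr0 n)] at this
        exact this
      have hkey : ∀ᶠ N : ℕ in atTop, ‖(N : ℂ)⁻¹ * ∑ n ∈ Finset.range N,
          ∫ y, ∏ w, G n w (y w) ∂(cube μ T ι (D' + 1))‖ ^ (2 ^ (D' + 1)) ≤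
          ‖(N : ℂ)⁻¹ * ∑ n ∈ Finset.range N, (r n : ℂ)‖ := by
        filter_upwards [eventually_gt_atTop 0] with N hN
        have hNr : (0 : ℝ) < N := by exact_mod_cast hN
        have hw : ∑ n ∈ Finset.range N, (N : ℝ)⁻¹ = 1 := by
          rw [Finset.sum_const, Finset.card_range, nsmul_eq_mul]
          field_simp
        have hpm := Real.pow_arith_mean_le_arith_mean_pow (Finset.range N)
          (fun _ => (N : ℝ)⁻¹) (fun n => ‖∫ y, ∏ w, G n w (y w) ∂(cube μ T ι (D' + 1))‖)
          (fun _ _ => by positivity) hw (fun _ _ => norm_nonneg _) (2 ^ (D' + 1))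
        have hR2 : ‖(N : ℂ)⁻¹ * ∑ n ∈ Finset.range N, (r n : ℂ)‖
            = ∑ n ∈ Finset.range N, (N : ℝ)⁻¹ * r n := by
          have hs : (N : ℂ)⁻¹ * ∑ n ∈ Finset.range N, (r n : ℂ)
              = ((∑ n ∈ Finset.range N, (N : ℝ)⁻¹ * r n : ℝ) : ℂ) := by
            push_cast
            rw [Finset.mul_sum]
          rw [hs, Complex.norm_real, Real.norm_of_nonneg]
          exact Finset.sum_nonneg fun n _ => mul_nonneg (by positivity) (hr0 n)
        rw [hR2]
        have hL : ‖(N : ℂ)⁻¹ * ∑ n ∈ Finset.range N,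
            ∫ y, ∏ w, G n w (y w) ∂(cube μ T ι (D' + 1))‖
            ≤ ∑ n ∈ Finset.range N, (N : ℝ)⁻¹ *
              ‖∫ y, ∏ w, G n w (y w) ∂(cube μ T ι (D' + 1))‖ := by
          rw [norm_mul, norm_inv, Complex.norm_natCast, ← Finset.mul_sum]
          exact mul_le_mul_of_nonneg_left (norm_sum_le _ _) (by positivity)
        calc _ ≤ (∑ n ∈ Finset.range N, (N : ℝ)⁻¹ *
              ‖∫ y, ∏ w, G n w (y w) ∂(cube μ T ι (D' + 1))‖) ^ (2 ^ (D' + 1)) :=
              pow_le_pow_left₀ (norm_nonneg _) hL _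
          _ ≤ _ := hpm
          _ ≤ _ := Finset.sum_le_sum fun n _ =>
              mul_le_mul_of_nonneg_left (hih n) (by positivity)
      have hl1 := ((hlim.norm).pow (2 ^ (D' + 1)))
      have hl2 := hgl.norm
      have hfin := le_of_tendsto_of_tendsto hl1 hl2 hkey
      rw [Complex.norm_real, Real.norm_of_nonneg hR0] at hfin
      calc ‖∫ x, ∏ v, f v (x v) ∂(cube μ T ι (D' + 1 + 1))‖ ^ (2 ^ (D' + 1 + 1))
          = (‖∫ x, ∏ v, f v (x v) ∂(cube μ T ι (D' + 1 + 1))‖ ^ 2) ^ (2 ^ (D' + 1)) := by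
            rw [← pow_mul]
            congr 1
            ring
        _ ≤ R ^ (2 ^ (D' + 1)) := pow_le_pow_left₀ (by positivity) hb _
        _ ≤ _ := hfin

/-- **CUBE2.** If one of the seminorms vanishes, so does the cube integral (scale the functions;
if some `f v` is identically `0` the integral is `0`; `gn D (c f) = 0` as well). -/
theorem vertex_zero {X : Type} [MeasurableSpace X] [StandardBorelSpace X] (μ : Measure X)
    [IsProbabilityMeasure μ] (T : X ≃ᵐ X) (hT : MeasurePreserving T μ μ) {ι : Type} [Fintype ι]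
    (D : ℕ) (f : (Fin D → ι) → X → ℂ) (hf : ∀ v, BM (f v))
    (v₀ : Fin D → ι) (h0 : gn μ T D (f v₀) = 0) :
    ∫ x, ∏ v, f v (x v) ∂(cube μ T ι D) = 0 := by
  have hC : ∃ C : ℝ, 0 < C ∧ ∀ v x, ‖f v x‖ ≤ C := by
    choose c hc using fun v => (hf v).2
    refine ⟨1 + ∑ v, |c v|, by positivity, fun v x => ?_⟩
    have h2 : |c v| ≤ ∑ v, |c v| :=
      Finset.single_le_sum (f := fun v => |c v|) (fun _ _ => abs_nonneg _) (Finset.mem_univ v)
    linarith [hc v x, le_abs_self (c v)]
  obtain ⟨C, hC0, hC⟩ := hC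
  have hdd : ∀ (c : ℂ) (g : X → ℂ) (x : Arr (Fin 2) X D),
      dd D (fun a => c * g a) x = (∏ v : Fin D → Fin 2, cj (wt v) c) * dd D g x := by
    intro c g x
    unfold dd
    rw [← Finset.prod_mul_distrib]
    exact Finset.prod_congr rfl fun v _ => cj_mul _ _ _
  have hg : gn μ T D (fun a => ((C⁻¹ : ℝ) : ℂ) * f v₀ a) = 0 := by
    unfold gn at h0 ⊢
    simp only [hdd]
    rw [integral_const_mul, h0, mul_zero]
  have hb := vertex_bound μ T hT D (fun v a => ((C⁻¹ : ℝ) : ℂ) * f v a)
    (fun v => BMs.mul (BMs.const _ _) (hf v)) (fun v x => by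
      rw [norm_mul, Complex.norm_real, Real.norm_of_nonneg (by positivity)]
      rw [inv_mul_le_one₀ hC0]
      exact hC v x) v₀
  rw [hg, norm_zero] at hb
  have hz : ∫ x, ∏ v, ((C⁻¹ : ℝ) : ℂ) * f v (x v) ∂(cube μ T ι D) = 0 := by
    have := le_antisymm hb (by positivity)
    simpa using this
  have h3 : ∀ x : Arr ι X D, ∏ v, ((C⁻¹ : ℝ) : ℂ) * f v (x v)
      = (((C⁻¹ : ℝ) : ℂ) ^ (Finset.univ : Finset (Fin D → ι)).card) * ∏ v, f v (x v) := by
    intro x
    rw [Finset.prod_mul_distrib, Finset.prod_const]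
  simp only [h3] at hz
  rw [integral_const_mul] at hz
  rcases mul_eq_zero.mp hz with h4 | h4
  · exfalso
    have : ((C⁻¹ : ℝ) : ℂ) ≠ 0 := by
      exact_mod_cast (inv_pos.mpr hC0).ne'
    exact this (eq_zero_of_pow_eq_zero h4)
  · exact h4

end Pool.Agent.HK820

end

/-! ### Part `ZA` -/

section

open MeasureTheory ProbabilityTheory Filter Topology
open scoped ComplexConjugate ENNReal

namespace Pool.Agent.HK820

/-- Helper: the fibre integral is bounded and measurable. -/
theorem za_int {Y : Type} (m : MeasurableSpace Y) [mY : MeasurableSpace Y]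
    [StandardBorelSpace Y] (ν : Measure Y) [IsProbabilityMeasure ν] (hm : m ≤ mY)
    {F : Y → Y → ℂ} (hF : Measurable (fun p : Y × Y => F p.1 p.2)) {C : ℝ}
    (hC : ∀ x y, ‖F x y‖ ≤ C) :
    BM (fun x => ∫ y, F x y ∂(condExpKernel ν m x)) := by
  refine ⟨?_, C, fun x => ?_⟩
  · let κ : Kernel Y Y := ⟨fun x => condExpKernel ν m x,
      (condExpKernel ν m).measurable.mono hm le_rfl⟩
    have h1 : IsSFiniteKernel κ := by
      have : IsMarkovKernel κ := ⟨fun x => by
        show IsProbabilityMeasure (condExpKernel ν m x)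
        infer_instance⟩
      infer_instance
    have h2 : StronglyMeasurable (fun p : Y × Y => F p.1 p.2) := hF.stronglyMeasurable
    have h3 := StronglyMeasurable.integral_kernel_prod_right' (κ := κ) h2
    exact h3.measurable
  · have h1 : ‖∫ y, F x y ∂(condExpKernel ν m x)‖ ≤
        C * (condExpKernel ν m x).real Set.univ :=
      norm_integral_le_of_norm_le_const (Eventually.of_forall fun y => hC x y)
    rwa [probReal_univ, mul_one] at h1

/-- Helper: almost sure statements for two coordinates, the converse of RELC6. -/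
theorem za_ae_two {Y : Type} (m : MeasurableSpace Y) [mY : MeasurableSpace Y]
    [StandardBorelSpace Y] (ν : Measure Y) [IsProbabilityMeasure ν] (hm : m ≤ mY)
    {F : (Fin 2 → Y) → ℂ} (hF : BM F)
    (H : ∀ᵐ x ∂ν, ∀ᵐ y ∂(condExpKernel ν m x), F ![x, y] = 0) :
    ∀ᵐ z ∂(relInd m ν (Fin 2)), F z = 0 := by
  have hp : IsProbabilityMeasure (relInd m ν (Fin 2)) := relInd_prob m ν (Fin 2)
  have hF2 : BM (fun z => F z * conj (F z)) := BMs.mul hF (BMs.conj hF)
  have h1 := integral_relInd_two m ν hm hF2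
  have h2 : ∫ x, ∫ y, F ![x, y] * conj (F ![x, y]) ∂(condExpKernel ν m x) ∂ν = 0 := by
    rw [← integral_zero Y ℂ (μ := ν)]
    refine integral_congr_ae ?_
    filter_upwards [H] with x hx
    rw [← integral_zero Y ℂ (μ := condExpKernel ν m x)]
    refine integral_congr_ae ?_
    filter_upwards [hx] with y hy
    rw [hy, zero_mul]
  rw [h2] at h1
  have h3 : (fun z => F z * conj (F z)) = fun z => ((‖F z‖ ^ 2 : ℝ) : ℂ) := by
    funext z
    rw [Complex.mul_conj, Complex.normSq_eq_norm_sq]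
  rw [h3] at h1 hF2
  have h4 : ∫ z, ‖F z‖ ^ 2 ∂(relInd m ν (Fin 2)) = 0 := by
    have h5 : ∫ z, ((‖F z‖ ^ 2 : ℝ) : ℂ) ∂(relInd m ν (Fin 2)) =
      ((∫ z, ‖F z‖ ^ 2 ∂(relInd m ν (Fin 2)) : ℝ) : ℂ) := integral_ofReal
    rw [h5] at h1
    exact_mod_cast h1
  have h6 := (integral_eq_zero_iff_of_nonneg (fun z => by positivity) (bas_int_sq hF _)).1 h4
  filter_upwards [h6] with z hz
  have h7 : ‖F z‖ ^ 2 = 0 := hz
  exact norm_eq_zero.1 (pow_eq_zero_iff (two_ne_zero) |>.1 h7)

theorem za_inv_le {Y : Type} [mY : MeasurableSpace Y] (S : Y → Y) : Inv S ≤ mY :=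
  MeasurableSpace.invariants_le S

/-- Helper: the slab transformation in direction `0` on glued arrays. -/
theorem za_slab_zero {X : Type} [MeasurableSpace X] (T : X ≃ᵐ X) {D : ℕ}
    (z : Fin 2 → Arr (Fin 2) X D) :
    slab T (Fin 2) (D + 1) 0 1 (glue z) = glue ![z 0, tArr T (Fin 2) D (z 1)] := by
  rw [← glue_slice (slab T (Fin 2) (D + 1) 0 1 (glue z))]
  congr 1
  funext i
  rw [slice_slab_zero, slice_glue]
  fin_cases i
  · simp
  · simp

/-- Helper: the induction step in the slice direction. -/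
theorem za_step {X : Type} [MeasurableSpace X] [StandardBorelSpace X] (μ : Measure X)
    [IsProbabilityMeasure μ] (T : X ≃ᵐ X) (hT : MeasurePreserving T μ μ) (D : ℕ)
    {g : Arr (Fin 2) X (D + 1) → ℂ} (hg : BM g)
    (H : (fun x => g (slab T (Fin 2) (D + 1) 0 1 x)) =ᵐ[cube μ T (Fin 2) (D + 1)] g) :
    ∃ G : Arr (Fin 2) X D → ℂ, BM G ∧
      g =ᵐ[cube μ T (Fin 2) (D + 1)] fun x => G (slice x 0) := by
  have hpν : IsProbabilityMeasure (cube μ T (Fin 2) D) := cube_prob μ T (Fin 2) D
  obtain ⟨hgm, C, hC⟩ := hg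
  have hmk : Measurable (fun p : Arr (Fin 2) X D × Arr (Fin 2) X D =>
      (![p.1, p.2] : Fin 2 → Arr (Fin 2) X D)) := by
    refine measurable_pi_lambda _ fun i => ?_
    fin_cases i
    · exact measurable_fst
    · exact measurable_snd
  have hF : Measurable (fun p : Arr (Fin 2) X D × Arr (Fin 2) X D =>
      g (glue ![p.1, p.2])) := hgm.comp (measurable_glue.comp hmk)
  have hG : BM (fun x => ∫ y, g (glue ![x, y])
      ∂(condExpKernel (cube μ T (Fin 2) D) (Inv (tArr T (Fin 2) D)) x)) :=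
    za_int (Inv (tArr T (Fin 2) D)) (cube μ T (Fin 2) D) (za_inv_le _)
      (F := fun x y => g (glue ![x, y])) hF (C := C) fun x y => hC _
  refine ⟨_, hG, ?_⟩
  have hglue := glue_mp μ T (Fin 2) D
  have hslice := slice_mp μ T (Fin 2) D
  have hS := cube_tArr μ T hT (Fin 2) D
  -- the invariance on the relatively independent square
  have h1 : ∀ᵐ z ∂(relInd (Inv (tArr T (Fin 2) D)) (cube μ T (Fin 2) D) (Fin 2)),
      g (glue ![z 0, tArr T (Fin 2) D (z 1)]) = g (glue ![z 0, z 1]) := by
    have h2 := hglue.quasiMeasurePreserving.ae H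
    filter_upwards [h2] with z hz
    rw [← za_slab_zero, hz]
    congr 2
    funext i
    fin_cases i <;> rfl
  have h2 := ae_relInd_two (Inv (tArr T (Fin 2) D)) (cube μ T (Fin 2) D) (za_inv_le _)
    (P := fun x y => g (glue ![x, tArr T (Fin 2) D y]) = g (glue ![x, y])) h1
  have h3 := ergodic_decomp (cube μ T (Fin 2) D) (tArr T (Fin 2) D) hS
  have h4 : ∀ᵐ x ∂(cube μ T (Fin 2) D),
      ∀ᵐ y ∂(condExpKernel (cube μ T (Fin 2) D) (Inv (tArr T (Fin 2) D)) x),
        g (glue ![x, y]) = ∫ y, g (glue ![x, y])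
          ∂(condExpKernel (cube μ T (Fin 2) D) (Inv (tArr T (Fin 2) D)) x) := by
    filter_upwards [h2, h3] with x hx hx3
    have hm1 : Measurable (fun y => g (glue ![x, y])) := hF.comp measurable_prodMk_left
    obtain ⟨c, hc⟩ := hx3.ae_eq_const_of_ae_eq_comp_ae (g := fun y => g (glue ![x, y]))
      hm1.aestronglyMeasurable hx
    have h5 : ∫ y, g (glue ![x, y])
          ∂(condExpKernel (cube μ T (Fin 2) D) (Inv (tArr T (Fin 2) D)) x) = c := by
      rw [integral_congr_ae hc]
      simp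
    rw [h5]
    filter_upwards [hc] with y hy
    exact hy
  have hFd : BM (fun z : Fin 2 → Arr (Fin 2) X D => g (glue z) -
      ∫ y, g (glue ![z 0, y])
          ∂(condExpKernel (cube μ T (Fin 2) D) (Inv (tArr T (Fin 2) D)) (z 0))) := by
    refine BMs.sub ⟨hgm.comp measurable_glue, C, fun z => hC _⟩ ?_
    exact BMs.comp hG (measurable_pi_apply 0)
  have h5 := za_ae_two (Inv (tArr T (Fin 2) D)) (cube μ T (Fin 2) D) (za_inv_le _) hFd (by
    filter_upwards [h4] with x hx
    filter_upwards [hx] with y hy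
    simp only [Matrix.cons_val_zero]
    rw [hy]
    exact sub_self _)
  have h6 := hslice.quasiMeasurePreserving.ae h5
  filter_upwards [h6] with x hx
  rw [glue_slice] at hx
  exact sub_eq_zero.1 hx

/-- **ZA1.** A function on cubes which is invariant under the slab transformations in the
directions `j`, value `1` (these do not move the root), is a function of the root.

Proof. Induction on `D`. `D = 0`: an array with one vertex is its root. `D + 1`: write
`x = glue ![y0, y1]`; the law of `(y0, y1)` is `relInd (Inv tArr) (cube D) (Fin 2)` (`slice_mp`). The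
slab transformation in direction `0` acts as `(y0, y1) ↦ (y0, tArr y1)` (`slice_slab_zero`), so by
`ae_relInd_two`, for almost every `y0` the function `g(y0, ·)` is `κ_{y0}`-almost everywhere
invariant under `tArr`, `κ = condExpKernel (cube D) (Inv tArr)`, and `κ_{y0}` is ergodic
(`ergodic_decomp`, `cube_tArr`). Hence `g (glue ![y0, y1]) = G y0`, with
`G y0 = ∫ g (glue ![y0, y]) ∂κ_{y0}`, bounded and measurable. The other slab transformations act on
both slices (`slice_slab_succ`), so `G (slab y0) = G y0` for almost every `y0`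
(`relInd_eval`/`cube_slice_fmap`), and by induction `G` is a function of the root of `y0`, which is
the root of `x`. -/
theorem inv_root {X : Type} [MeasurableSpace X] [StandardBorelSpace X] (μ : Measure X)
    [IsProbabilityMeasure μ] (T : X ≃ᵐ X) (hT : MeasurePreserving T μ μ) (D : ℕ)
    {g : Arr (Fin 2) X D → ℂ} (hg : BM g)
    (H : ∀ j : Fin D, (fun x => g (slab T (Fin 2) D j 1 x)) =ᵐ[cube μ T (Fin 2) D] g) :
    ∃ h : X → ℂ, BM h ∧ g =ᵐ[cube μ T (Fin 2) D] fun x => h (x 0) := by
  induction D with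
  | zero =>
    refine ⟨fun a => g (fun _ => a), BMs.comp hg (measurable_pi_lambda _ fun _ => measurable_id),
      Eventually.of_forall fun x => ?_⟩
    show g x = g (fun _ => x 0)
    congr 1
    funext v
    rw [Subsingleton.elim v 0]
  | succ D ih =>
    obtain ⟨G, hG, hgG⟩ := za_step μ T hT D hg (H 0)
    have hsl : MeasurePreserving (fun x : Arr (Fin 2) X (D + 1) => slice x 0)
        (cube μ T (Fin 2) (D + 1)) (cube μ T (Fin 2) D) := (cube_slice_fmap hT 0).mp
    have hinv : ∀ j : Fin D, (fun x => G (slab T (Fin 2) D j 1 x)) =ᵐ[cube μ T (Fin 2) D] G := by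
      intro j
      have hmeas : MeasurableSet {y | G (slab T (Fin 2) D j 1 y) = G y} :=
        measurableSet_eq_fun (hG.1.comp (slab T (Fin 2) D j 1).measurable) hG.1
      have h1 : ∀ᵐ x ∂(cube μ T (Fin 2) (D + 1)),
          G (slab T (Fin 2) D j 1 (slice x 0)) = G (slice x 0) := by
        have h2 := (cube_slab μ T hT (Fin 2) (D + 1) j.succ 1).quasiMeasurePreserving.ae hgG
        filter_upwards [hgG, h2, H j.succ] with x hx1 hx2 hx3
        rw [← hx1, ← hx3, hx2, slice_slab_succ]
      have h3 : ∀ᵐ y ∂(cube μ T (Fin 2) D), G (slab T (Fin 2) D j 1 y) = G y := by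
        rw [← hsl.map_eq]
        exact (ae_map_iff hsl.measurable.aemeasurable hmeas).2 h1
      exact h3
    obtain ⟨h, hh, hGh⟩ := ih hG hinv
    refine ⟨h, hh, ?_⟩
    have h4 := hsl.quasiMeasurePreserving.ae hGh
    filter_upwards [hgG, h4] with x hx1 hx2
    rw [hx1, hx2]
    show h (slice x 0 0) = h (x 0)
    congr 1
    show x (Fin.cons 0 0) = x 0
    congr 1
    funext i
    refine Fin.cases ?_ (fun j => ?_) i
    · rfl
    · rfl

/-- **ZA2.** If moreover `T` is ergodic and `g` is invariant under the diagonal transformation then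
`g` is constant (`h ∘ T = h` almost everywhere by `cube_eval`). -/
theorem slab_ergodic {X : Type} [MeasurableSpace X] [StandardBorelSpace X] (μ : Measure X)
    [IsProbabilityMeasure μ] (T : X ≃ᵐ X) (hT : Ergodic T μ) (D : ℕ)
    {g : Arr (Fin 2) X D → ℂ} (hg : BM g)
    (H : ∀ j : Fin D, (fun x => g (slab T (Fin 2) D j 1 x)) =ᵐ[cube μ T (Fin 2) D] g)
    (H' : (fun x => g (tArr T (Fin 2) D x)) =ᵐ[cube μ T (Fin 2) D] g) :
    ∃ c : ℂ, g =ᵐ[cube μ T (Fin 2) D] fun _ => c := by
  obtain ⟨h, hh, hgh⟩ := inv_root μ T hT.toMeasurePreserving D hg H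
  have hev := cube_eval μ T (Fin 2) D 0
  have hmeas : MeasurableSet {a | h (T a) = h a} :=
    measurableSet_eq_fun (hh.1.comp T.measurable) hh.1
  have h1 : ∀ᵐ x ∂(cube μ T (Fin 2) D), h (T (x 0)) = h (x 0) := by
    have h2 := (cube_tArr μ T hT.toMeasurePreserving (Fin 2) D).quasiMeasurePreserving.ae hgh
    filter_upwards [hgh, h2, H'] with x hx1 hx2 hx3
    rw [← hx1, ← hx3, hx2]
    rfl
  have h3 : ∀ᵐ a ∂μ, h (T a) = h a := by
    rw [← hev.map_eq]
    exact (ae_map_iff hev.measurable.aemeasurable hmeas).2 h1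
  obtain ⟨c, hc⟩ := hT.ae_eq_const_of_ae_eq_comp_ae (g := h) hh.1.aestronglyMeasurable h3
  refine ⟨c, ?_⟩
  have h4 := hev.quasiMeasurePreserving.ae hc
  filter_upwards [hgh, h4] with x hx1 hx2
  rw [hx1, hx2]
  rfl

end Pool.Agent.HK820

end

/-! ### Part `ZB` -/

section

open MeasureTheory ProbabilityTheory Filter Topology
open scoped ComplexConjugate ENNReal

namespace Pool.Agent.HK820

theorem Zalg_le {X : Type} [mX : MeasurableSpace X] [StandardBorelSpace X] (μ : Measure X)
    (T : X ≃ᵐ X) (k : ℕ) : Zalg μ T k ≤ mX := fun _ hs => hs.1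

theorem starAlg_le (X : Type) [MeasurableSpace X] (D : ℕ) :
    starAlg X D ≤ (inferInstance : MeasurableSpace (Arr (Fin 2) X D)) := by
  refine Measurable.comap_le ?_
  exact measurable_pi_lambda _ fun v => measurable_pi_apply _

/-- a bounded function measurable with respect to a pulled back σ-algebra factors -/
theorem zb_factor {X Y : Type} [mY : MeasurableSpace Y] {p : X → Y} {g : X → ℂ}
    (hg : BMs (mY.comap p) g) : ∃ h : Y → ℂ, BM h ∧ ∀ x, g x = h (p x) := by
  classical
  obtain ⟨hg1, C, hC⟩ := hg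
  obtain ⟨h, hh, hgh⟩ := hg1.exists_eq_measurable_comp
  have hφ : Measurable (fun z : ℂ => if ‖z‖ ≤ |C| then z else 0) :=
    Measurable.ite (measurableSet_le measurable_norm measurable_const) measurable_id
      measurable_const
  refine ⟨fun y => (fun z : ℂ => if ‖z‖ ≤ |C| then z else 0) (h y), ⟨hφ.comp hh, |C|, fun y => ?_⟩,
    fun x => ?_⟩
  · show ‖if ‖h y‖ ≤ |C| then h y else 0‖ ≤ |C|
    by_cases h1 : ‖h y‖ ≤ |C|
    · rw [if_pos h1]
      exact h1
    · rw [if_neg h1, norm_zero]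
      exact abs_nonneg C
  · show g x = if ‖h (p x)‖ ≤ |C| then h (p x) else 0
    have h2 : g x = h (p x) := congrFun hgh x
    rw [← h2, if_pos ((hC x).trans (le_abs_self C))]

/-- `starAlg` is the supremum of the pullbacks along the coordinates different from the root -/
theorem zb_starAlg_eq (X : Type) [mX : MeasurableSpace X] (D : ℕ) :
    starAlg X D = ⨆ v : {v : Fin D → Fin 2 // v ≠ 0},
      mX.comap (fun x : Arr (Fin 2) X D => x v.1) := by
  unfold starAlg
  show (MeasurableSpace.pi).comap _ = _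
  unfold MeasurableSpace.pi
  rw [MeasurableSpace.comap_iSup]
  simp only [MeasurableSpace.comap_comp]
  rfl

theorem zb_star_eval {X : Type} [mX : MeasurableSpace X] {D : ℕ} {g : X → ℂ} (hg : BM g)
    {v : Fin D → Fin 2} (hv : v ≠ 0) : BMs (starAlg X D) (fun x : Arr (Fin 2) X D => g (x v)) := by
  refine hg.comp ?_
  rw [zb_starAlg_eq]
  have h1 : mX.comap (fun x : Arr (Fin 2) X D => x v) ≤ ⨆ v : {v : Fin D → Fin 2 // v ≠ 0},
      mX.comap (fun x : Arr (Fin 2) X D => x v.1) :=
    le_iSup (fun v : {v : Fin D → Fin 2 // v ≠ 0} =>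
      mX.comap (fun x : Arr (Fin 2) X D => x v.1)) ⟨v, hv⟩
  exact (comap_measurable (fun x : Arr (Fin 2) X D => x v)).mono h1 le_rfl

/-- **ZB1.** `Zalg` is complete. -/
theorem Zalg_congr {X : Type} [MeasurableSpace X] [StandardBorelSpace X] {μ : Measure X}
    [IsProbabilityMeasure μ] {T : X ≃ᵐ X} {k : ℕ} {s t : Set X}
    (hs : MeasurableSet[Zalg μ T k] s) (ht : MeasurableSet t) (h : s =ᵐ[μ] t) :
    MeasurableSet[Zalg μ T k] t := by
  obtain ⟨h1, B, hB, hsB⟩ := hs
  refine ⟨ht, B, hB, ?_⟩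
  have h2 := (cube_eval μ T (Fin 2) (k + 1) 0).quasiMeasurePreserving.preimage_ae_eq h
  exact h2.symm.trans hsB

/-- **ZB2.** A measurable function which is almost everywhere `Zalg`-measurable is
`Zalg`-measurable. -/
theorem Zalg_meas {X : Type} [MeasurableSpace X] [StandardBorelSpace X] {μ : Measure X}
    [IsProbabilityMeasure μ] {T : X ≃ᵐ X} {k : ℕ} {f : X → ℂ} (hf : Measurable f)
    (h : AEM (Zalg μ T k) μ f) : Measurable[Zalg μ T k] f := by
  obtain ⟨g, hg, hfg⟩ := h
  intro B hB
  refine Zalg_congr (hg hB) (hf hB) ?_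
  exact (hfg.symm.fun_comp (fun z => z ∈ B))

/-- the slab transformations with value `1` preserve `starAlg` -/
theorem zb_slab_star {X : Type} [mX : MeasurableSpace X] (T : X ≃ᵐ X) (D : ℕ) (j : Fin D) :
    Measurable[starAlg X D, starAlg X D] (slab T (Fin 2) D j 1) ∧
      Measurable[starAlg X D, starAlg X D] (slab T (Fin 2) D j 1).symm := by
  classical
  have key : ∀ (F : (Fin D → Fin 2) → X ≃ᵐ X),
      Measurable[starAlg X D, starAlg X D] (fun (x : Arr (Fin 2) X D) v => F v (x v)) := by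
    intro F
    rw [measurable_comap_iff]
    have h1 : ((fun (x : Arr (Fin 2) X D) (v : {v : Fin D → Fin 2 // v ≠ 0}) => x v.1) ∘
        (fun (x : Arr (Fin 2) X D) v => F v (x v))) =
        (fun (y : {v : Fin D → Fin 2 // v ≠ 0} → X) v => F v.1 (y v)) ∘
        (fun (x : Arr (Fin 2) X D) (v : {v : Fin D → Fin 2 // v ≠ 0}) => x v.1) := rfl
    rw [h1]
    refine Measurable.comp ?_ (comap_measurable _)
    exact measurable_pi_lambda _ fun v => (F v.1).measurable.comp (measurable_pi_apply _)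
  constructor
  · exact key (fun v => @ite _ (v j = 1) (Classical.propDecidable _) T (MeasurableEquiv.refl X))
  · exact key
      (fun v => (@ite _ (v j = 1) (Classical.propDecidable _) T (MeasurableEquiv.refl X)).symm)

theorem zb_slab_root {X : Type} [MeasurableSpace X] (T : X ≃ᵐ X) (D : ℕ) (j : Fin D)
    (x : Arr (Fin 2) X D) : (slab T (Fin 2) D j 1 x) 0 = x 0 := by
  show (@ite _ ((0 : Fin D → Fin 2) j = 1) (Classical.propDecidable _) T
    (MeasurableEquiv.refl X)) (x 0) = x 0
  rw [if_neg (by simp)]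
  rfl

/-- **ZB3.** The conditional expectation of `f(root)` given the other vertices of a
`(k+1)`-dimensional cube is `E[f | Zalg k] (root)`.

Proof. Let `g` be a bounded `starAlg`-measurable version of the left side. The slab
transformations in direction `j` with value `1` preserve the cube measure (`cube_slab`), preserve
the σ-algebra `starAlg` (they act vertex by vertex) and do not move the root (`(0 : Fin _ → Fin 2) j
= 0 ≠ 1`), so `g ∘ slab = g` almost everywhere (`condExp_comp_equiv`). By `inv_root`, `g = h(root)`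
almost everywhere. Then `h` is `Zalg`-measurable: `root⁻¹ (h⁻¹ B) = {g ∈ B}` up to a null set, and
`{g ∈ B}` is in `starAlg`. If `A` is in `Zalg`, with `root⁻¹ A =ᵐ B`, `B` in `starAlg`, then
`∫_A f ∂μ = ∫_{root ∈ A} f(root) = ∫_B f(root) = ∫_B g = ∫_A h`, so `h = μ[f | Zalg]` almost
everywhere. -/
theorem condExp_star {X : Type} [MeasurableSpace X] [StandardBorelSpace X] (μ : Measure X)
    [IsProbabilityMeasure μ] (T : X ≃ᵐ X) (hT : MeasurePreserving T μ μ) (k : ℕ)
    {f : X → ℂ} (hf : BM f) :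
    (cube μ T (Fin 2) (k + 1))[fun x => f (x 0) | starAlg X (k + 1)]
      =ᵐ[cube μ T (Fin 2) (k + 1)] fun x => (μ[f | Zalg μ T k]) (x 0) := by
  have := cube_prob μ T (Fin 2) (k + 1)
  have hst := starAlg_le X (k + 1)
  have hroot := cube_eval μ T (Fin 2) (k + 1) 0
  set P := cube μ T (Fin 2) (k + 1) with hP
  have hf0 : BM (fun x : Arr (Fin 2) X (k + 1) => f (x 0)) := BMs.comp hf hroot.measurable
  obtain ⟨hf1, C, hC⟩ := hf
  have hf : BM f := ⟨hf1, C, hC⟩
  obtain ⟨g, hgm, hgC, hg⟩ := exists_bms_condExp (starAlg X (k + 1)) P hst hf0.1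
    (C := C) (fun x => hC (x 0))
  have hgB : BMs (starAlg X (k + 1)) g := ⟨hgm, C, hgC⟩
  have hgB' : BM g := hgB.mono hst
  -- invariance
  have hinv : ∀ j : Fin (k + 1), (fun x => g (slab T (Fin 2) (k + 1) j 1 x)) =ᵐ[P] g := by
    intro j
    have hmp := cube_slab μ T hT (Fin 2) (k + 1) j 1
    have h1 := condExp_comp_equiv (starAlg X (k + 1)) (starAlg X (k + 1)) (μ := P) (ν := P)
      hst hst (slab T (Fin 2) (k + 1) j 1) hmp (zb_slab_star T (k + 1) j).1 (zb_slab_star T (k + 1) j).2
      hf0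
    have h2 : (fun x : Arr (Fin 2) X (k + 1) => f ((slab T (Fin 2) (k + 1) j 1 x) 0)) =
        fun x => f (x 0) := by
      funext x
      rw [zb_slab_root]
    rw [h2] at h1
    have h3 := hmp.quasiMeasurePreserving.ae_eq_comp hg
    exact (hg.symm.trans (h1.trans h3)).symm
  obtain ⟨h, hh, hgh⟩ := inv_root μ T hT (k + 1) hgB' hinv
  -- `h` is Zalg measurable
  have hhZ : Measurable[Zalg μ T k] h := by
    intro B hB
    refine ⟨hh.1 hB, g ⁻¹' B, hgm hB, ?_⟩
    exact (hgh.symm.fun_comp (fun z => z ∈ B))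
  have hhZB : BMs (Zalg μ T k) h := ⟨hhZ, hh.2⟩
  -- identification
  have key : μ[f | Zalg μ T k] =ᵐ[μ] h := by
    symm
    refine ae_eq_condExp_of_forall_setIntegral_eq (Zalg_le μ T k) (hf.integrable μ)
      (fun s _ _ => (BM.integrable hh μ).integrableOn) ?_ hhZ.stronglyMeasurable.aestronglyMeasurable
    intro s hs _
    obtain ⟨hs1, B, hB, hsB⟩ := hs
    have hmap := hroot.map_eq
    have e1 : ∀ q : X → ℂ, BM q → ∫ x in s, q x ∂μ = ∫ x in B, q (x 0) ∂P := by
      intro q hq
      have e2 : ∫ x in s, q x ∂μ =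
          ∫ x in s, q x ∂(P.map (fun x : Arr (Fin 2) X (k + 1) => x 0)) := by
        rw [hmap]
      rw [e2, setIntegral_map hs1 hq.1.aestronglyMeasurable hroot.aemeasurable]
      exact setIntegral_congr_set hsB
    rw [e1 h hh, e1 f hf, ← setIntegral_condExp hst (hf0.integrable P) hB]
    refine setIntegral_congr_ae (hst _ hB) ?_
    filter_upwards [hg, hgh] with x h1 h2 _
    rw [h1, h2]
  exact hg.trans (hgh.trans (hroot.quasiMeasurePreserving.ae_eq_comp key).symm)

/-- **ZB4.** Functions of order `k`: those whose value at the root is determined by the other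
vertices (from ZB3 and `aem_iff_condExp`). -/
theorem aem_Zalg_iff {X : Type} [MeasurableSpace X] [StandardBorelSpace X] (μ : Measure X)
    [IsProbabilityMeasure μ] (T : X ≃ᵐ X) (hT : MeasurePreserving T μ μ) (k : ℕ)
    {f : X → ℂ} (hf : BM f) :
    AEM (Zalg μ T k) μ f ↔
      AEM (starAlg X (k + 1)) (cube μ T (Fin 2) (k + 1)) (fun x => f (x 0)) := by
  have := cube_prob μ T (Fin 2) (k + 1)
  have hst := starAlg_le X (k + 1)
  have hroot := cube_eval μ T (Fin 2) (k + 1) 0
  have hcs := condExp_star μ T hT k hf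
  set P := cube μ T (Fin 2) (k + 1) with hP
  have hf0 : BM (fun x : Arr (Fin 2) X (k + 1) => f (x 0)) := BMs.comp hf hroot.measurable
  rw [aem_iff_condExp _ μ (Zalg_le μ T k) hf, aem_iff_condExp _ P hst hf0]
  constructor
  · intro h
    exact hcs.trans (hroot.quasiMeasurePreserving.ae_eq_comp h)
  · intro h
    have h1 : ∀ᵐ x ∂P, (μ[f | Zalg μ T k]) (x 0) = f (x 0) := hcs.symm.trans h
    have h2 : MeasurableSet {a : X | (μ[f | Zalg μ T k]) a = f a} :=
      measurableSet_eq_fun (stronglyMeasurable_condExp.mono (Zalg_le μ T k)).measurable hf.1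
    have h3 := (ae_map_iff hroot.aemeasurable h2).2 h1
    rw [hroot.map_eq] at h3
    exact h3

theorem zb_split {k : ℕ} (F : (Fin (k + 1) → Fin 2) → ℂ) :
    ∏ v, F v = F 0 * ∏ v : {v : Fin (k + 1) → Fin 2 // v ≠ 0}, F v.1 := by
  classical
  rw [← Finset.mul_prod_erase Finset.univ F (Finset.mem_univ (0 : Fin (k + 1) → Fin 2))]
  congr 1
  exact Finset.prod_subtype (p := fun v => v ≠ 0) _ (by simp) F

/-- **ZB5.** The seminorm vanishes iff the conditional expectation on `Zalg` does.

Proof. `(⇐)` `dd (k+1) f x = f (x 0) * R x` with `R` bounded and `starAlg`-measurable, so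
`gn = ∫ E[f(x 0) | starAlg] R = 0` by ZB3. `(⇒)` By `vertex_zero`, `∫ f (x 0) * ∏_{v ≠ 0} g v (x v)
= 0` for all bounded measurable `g v`, hence by `condExp_iSup_zero` (the σ-algebra `starAlg` is the
supremum of the pullbacks along the coordinates `v ≠ 0`) `E[f(x 0) | starAlg] = 0`, and ZB3. -/
theorem gn_eq_zero_iff {X : Type} [MeasurableSpace X] [StandardBorelSpace X] (μ : Measure X)
    [IsProbabilityMeasure μ] (T : X ≃ᵐ X) (hT : MeasurePreserving T μ μ) (k : ℕ)
    {f : X → ℂ} (hf : BM f) :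
    gn μ T (k + 1) f = 0 ↔ μ[f | Zalg μ T k] =ᵐ[μ] 0 := by
  classical
  have := cube_prob μ T (Fin 2) (k + 1)
  have hst := starAlg_le X (k + 1)
  have hroot := cube_eval μ T (Fin 2) (k + 1) 0
  have hcs := condExp_star μ T hT k hf
  have hvz := vertex_zero μ T hT (ι := Fin 2) (k + 1)
  have hgn : gn μ T (k + 1) f = ∫ x, dd (k + 1) f x ∂(cube μ T (Fin 2) (k + 1)) := rfl
  set P := cube μ T (Fin 2) (k + 1) with hP
  have hf0 : BM (fun x : Arr (Fin 2) X (k + 1) => f (x 0)) := BMs.comp hf hroot.measurable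
  constructor
  · intro h
    have h1 : P[fun x : Arr (Fin 2) X (k + 1) => f (x 0) | starAlg X (k + 1)] =ᵐ[P] 0 := by
      rw [zb_starAlg_eq]
      have hm : ∀ v : {v : Fin (k + 1) → Fin 2 // v ≠ 0},
          MeasurableSpace.comap (fun x : Arr (Fin 2) X (k + 1) => x v.1) inferInstance ≤
            (inferInstance : MeasurableSpace (Arr (Fin 2) X (k + 1))) := by
        intro v
        exact (measurable_pi_apply v.1).comap_le
      refine condExp_iSup_zero _ P hm hf0 ?_
      intro g hg
      choose G hG hgG using fun v => zb_factor (hg v)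
      have h2 := hvz (fun v => if hv : v = 0 then f else G ⟨v, hv⟩) (fun v => by
        by_cases hv : v = 0
        · simp only [dif_pos hv]
          exact hf
        · simp only [dif_neg hv]
          exact hG _) 0 (by simpa using h)
      rw [← h2]
      refine integral_congr_ae (Eventually.of_forall fun x => ?_)
      show f (x 0) * ∏ v, g v x = ∏ v, (if hv : v = 0 then f else G ⟨v, hv⟩) (x v)
      rw [zb_split (fun v => (if hv : v = 0 then f else G ⟨v, hv⟩) (x v))]
      have e0 : (if hv : (0 : Fin (k + 1) → Fin 2) = 0 then f else G ⟨0, hv⟩) = f := dif_pos rfl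
      rw [e0]
      congr 1
      refine Finset.prod_congr rfl fun v _ => ?_
      rw [hgG v x, dif_neg v.2]
    have h2 : ∀ᵐ x ∂P, (μ[f | Zalg μ T k]) (x 0) = 0 := hcs.symm.trans h1
    have h3 : MeasurableSet {a : X | (μ[f | Zalg μ T k]) a = 0} :=
      measurableSet_eq_fun (stronglyMeasurable_condExp.mono (Zalg_le μ T k)).measurable
        measurable_const
    have h4 := (ae_map_iff hroot.aemeasurable h3).2 h2
    rw [hroot.map_eq] at h4
    exact h4
  · intro h
    have h1 : ∀ᵐ x ∂P, (P[fun x : Arr (Fin 2) X (k + 1) => f (x 0) | starAlg X (k + 1)]) x = 0 :=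
      hcs.trans (hroot.quasiMeasurePreserving.ae_eq_comp h)
    have hR : BMs (starAlg X (k + 1)) (fun x : Arr (Fin 2) X (k + 1) =>
        ∏ v : {v : Fin (k + 1) → Fin 2 // v ≠ 0}, cj (wt v.1) (f (x v.1))) :=
      BMs.prod Finset.univ fun v => (zb_star_eval hf v.2).cj _
    have h2 := integral_mul_condExp (starAlg X (k + 1)) P hst hf0 hR
    have h3 : ∫ x, (∏ v : {v : Fin (k + 1) → Fin 2 // v ≠ 0}, cj (wt v.1) (f (x v.1))) *
        (P[fun x : Arr (Fin 2) X (k + 1) => f (x 0) | starAlg X (k + 1)]) x ∂P = 0 := by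
      rw [integral_eq_zero_of_ae]
      filter_upwards [h1] with x hx
      rw [hx, mul_zero]
      rfl
    rw [h3] at h2
    rw [hgn, h2]
    refine integral_congr_ae (Eventually.of_forall fun x => ?_)
    show dd (k + 1) f x = _
    unfold dd
    rw [zb_split (fun v => cj (wt v) (f (x v))), mul_comm]
    have h4 : wt (0 : Fin (k + 1) → Fin 2) = 0 := by simp [wt]
    rw [h4]
    congr 1

end Pool.Agent.HK820

end

/-! ### Part `ZC` -/

section

open MeasureTheory ProbabilityTheory Filter Topology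
open scoped ComplexConjugate ENNReal

namespace Pool.Agent.HK820

/-- subtracting a bounded version of the conditional expectation -/
theorem zc_sub {X : Type} (m : MeasurableSpace X) [mX : MeasurableSpace X]
    (μ : Measure X) [IsProbabilityMeasure μ] (hm : m ≤ mX) {f : X → ℂ} (hf : BM f) :
    ∃ g : X → ℂ, BMs m g ∧ BM g ∧ μ[f | m] =ᵐ[μ] g ∧ BM (fun x => f x - g x) ∧
      μ[fun x => f x - g x | m] =ᵐ[μ] 0 := by
  have hf' := hf
  obtain ⟨hf1, C, hC⟩ := hf'
  obtain ⟨g, hg1, hg2, hg3⟩ := exists_bms_condExp m μ hm hf1 hC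
  have hgm : BMs m g := ⟨hg1, C, hg2⟩
  have hgB : BM g := BMs.mono hm hgm
  refine ⟨g, hgm, hgB, hg3, BMs.sub hf hgB, ?_⟩
  have h1 := condExp_sub (hf.integrable μ) (hgB.integrable μ) m
  have h2 : μ[g | m] = g :=
    condExp_of_stronglyMeasurable hm hg1.stronglyMeasurable (hgB.integrable μ)
  have h3 : (fun x => f x - g x) = f - g := rfl
  rw [h3]
  filter_upwards [h1, hg3] with x e1 e2
  rw [e1, Pi.sub_apply, h2, e2, sub_self, Pi.zero_apply]

theorem zc_step {X : Type} [MeasurableSpace X] [StandardBorelSpace X] (μ : Measure X)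
    [IsProbabilityMeasure μ] (T : X ≃ᵐ X) (hT : MeasurePreserving T μ μ) (k : ℕ) :
    Zalg μ T k ≤ Zalg μ T (k + 1) := by
  intro A hA
  have hAm : MeasurableSet A := Zalg_le μ T k A hA
  set f : X → ℂ := A.indicator (fun _ => (1 : ℂ)) with hf
  have hfm : BMs (Zalg μ T k) f := BMs.indicator (BMs.const _ 1) hA
  have hfB : BM f := BMs.mono (Zalg_le μ T k) hfm
  obtain ⟨h, hh1, hh2, hh3, hh4, hh5⟩ := zc_sub (Zalg μ T (k + 1)) μ (Zalg_le μ T (k + 1)) hfB
  set φ : X → ℂ := fun x => f x - h x with hφ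
  have e1 : gn μ T (k + 1 + 1) φ = 0 := (gn_eq_zero_iff μ T hT (k + 1) hh4).2 hh5
  have e2 : gn μ T (k + 1) φ = 0 := by
    have h1 := gn_mono μ T (k + 1) hh4
    rw [e1, norm_zero] at h1
    have h2 : ‖gn μ T (k + 1) φ‖ = 0 := by
      have h3 : 0 ≤ ‖gn μ T (k + 1) φ‖ := norm_nonneg _
      nlinarith
    exact norm_eq_zero.1 h2
  have e3 : μ[φ | Zalg μ T k] =ᵐ[μ] 0 := (gn_eq_zero_iff μ T hT k hh4).1 e2
  have e4 : ∫ x, f x * φ x ∂μ = 0 :=
    (condExp_eq_zero_iff (Zalg μ T k) μ (Zalg_le μ T k) hh4).1 e3 f hfm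
  have e5 : ∫ x, conj (h x) * φ x ∂μ = 0 :=
    (condExp_eq_zero_iff (Zalg μ T (k + 1)) μ (Zalg_le μ T (k + 1)) hh4).1 hh5 _ hh1.conj
  have e6 : ∫ x, ((‖φ x‖ ^ 2 : ℝ) : ℂ) ∂μ = 0 := by
    have h1 : ∀ x, ((‖φ x‖ ^ 2 : ℝ) : ℂ) = f x * φ x - conj (h x) * φ x := by
      intro x
      have h2 : conj (f x) = f x := by
        rw [hf]
        by_cases hx : x ∈ A
        · simp [hx]
        · simp [hx]
      have h3 : ((‖φ x‖ ^ 2 : ℝ) : ℂ) = conj (φ x) * φ x := by
        rw [← Complex.normSq_eq_norm_sq, Complex.normSq_eq_conj_mul_self]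
      rw [h3]
      simp only [hφ, map_sub, h2]
      ring
    simp_rw [h1]
    have hB1 : BM (fun x => f x * φ x) := BMs.mul hfB hh4
    have hB2 : BM (fun x => conj (h x) * φ x) := BMs.mul hh2.conj hh4
    rw [integral_sub (hB1.integrable μ) (hB2.integrable μ), e4, e5, sub_zero]
  have e7 : ∫ x, ‖φ x‖ ^ 2 ∂μ = 0 := by
    rw [integral_complex_ofReal] at e6
    exact_mod_cast e6
  have e8 : φ =ᵐ[μ] 0 := by
    have h1 := (integral_eq_zero_iff_of_nonneg (fun x => by positivity) (bas_int_sq hh4 μ)).1 e7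
    filter_upwards [h1] with x hx
    have h2 : ‖φ x‖ ^ 2 = 0 := hx
    rw [pow_eq_zero_iff (by norm_num)] at h2
    exact norm_eq_zero.1 h2
  have e9 : f =ᵐ[μ] h := by
    filter_upwards [e8] with x hx
    exact sub_eq_zero.1 hx
  have e10 : Measurable[Zalg μ T (k + 1)] f := Zalg_meas hfB.1 ⟨h, hh1.1, e9⟩
  have e11 : A = f ⁻¹' {1} := by
    ext x
    by_cases hx : x ∈ A
    · simp [hf, hx]
    · simp [hf, hx]
  rw [e11]
  exact e10 (measurableSet_singleton 1)

/-- **ZC1.** Monotonicity. Proof: let `A` be in `Zalg k`, `f = 1_A - E[1_A | Zalg (k+1)]` (bounded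
version). Then `E[f | Zalg (k+1)] = 0`, so `gn (k+2) f = 0`, so `gn (k+1) f = 0` (`gn_mono`), so
`E[f | Zalg k] = 0` and `∫ f * 1_A = 0`; and `∫ f * E[1_A | Zalg (k+1)] = 0`. Hence `∫ |f|² = 0`,
`1_A` is almost everywhere `Zalg (k+1)`-measurable; conclude by `Zalg_congr` or `Zalg_meas`. -/
theorem Zalg_mono {X : Type} [MeasurableSpace X] [StandardBorelSpace X] (μ : Measure X)
    [IsProbabilityMeasure μ] (T : X ≃ᵐ X) (hT : MeasurePreserving T μ μ) {k l : ℕ} (h : k ≤ l) :
    Zalg μ T k ≤ Zalg μ T l := by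
  induction l, h using Nat.le_induction with
  | base => exact le_rfl
  | succ n _ ih => exact ih.trans (zc_step μ T hT n)

/-- **ZC3.** Pullback by factor maps: if `root⁻¹ s =ᵐ B` in the factor then
`root⁻¹ (p⁻¹ s) =ᵐ P⁻¹ B`, `P x v = p (x v)` (`cube_fmap`), and `P⁻¹ B` is in `starAlg`. -/
theorem Zalg_fmap {X Y : Type} [MeasurableSpace X] [StandardBorelSpace X]
    [MeasurableSpace Y] [StandardBorelSpace Y] {μ : Measure X}
    [IsProbabilityMeasure μ] {T : X ≃ᵐ X} (hT : MeasurePreserving T μ μ) {ν : Measure Y}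
    [IsProbabilityMeasure ν] {S : Y ≃ᵐ Y} (hS : MeasurePreserving S ν ν) {p : X → Y}
    (hp : FMap μ T ν S p) (k : ℕ) : Measurable[Zalg μ T k, Zalg ν S k] p := by
  rintro s ⟨hs1, B, ⟨C, hC, rfl⟩, hB⟩
  have hP := cube_fmap hT hS hp (Fin 2) (k + 1)
  refine ⟨hp.mp.measurable hs1, _, ⟨(fun z (v : {v : Fin (k + 1) → Fin 2 // v ≠ 0}) => p (z v)) ⁻¹' C,
    ?_, rfl⟩, ?_⟩
  · refine measurable_pi_lambda _ (fun v => ?_) hC
    exact hp.mp.measurable.comp (measurable_pi_apply v)
  · exact hP.mp.quasiMeasurePreserving.preimage_ae_eq hB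

/-- **ZC2.** Invariance: the diagonal transformation preserves the cube measures and `starAlg`, and
the root map intertwines. -/
theorem Zalg_TInv {X : Type} [MeasurableSpace X] [StandardBorelSpace X] (μ : Measure X)
    [IsProbabilityMeasure μ] (T : X ≃ᵐ X) (hT : MeasurePreserving T μ μ) (k : ℕ) :
    TInv (Zalg μ T k) T := by
  refine ⟨Zalg_fmap hT hT (p := T) ⟨hT, Eventually.of_forall fun x => rfl⟩ k,
    Zalg_fmap hT hT (p := T.symm) ⟨hT.symm T, Eventually.of_forall fun x => ?_⟩ k⟩
  simp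

/-- **ZC4.** `E[f ∘ p | Zalg_X k] = E[f | Zalg_Y k] ∘ p`: the function
`φ = f - E[f | Zalg_Y k]` has `gn (k+1) φ = 0`, so `gn (k+1) (φ ∘ p) = 0` (`gn_fmap`), so
`E[φ ∘ p | Zalg_X k] = 0`, and `E[f | Zalg_Y k] ∘ p` is `Zalg_X`-measurable by ZC3. -/
theorem condExp_Zalg_fmap {X Y : Type} [MeasurableSpace X] [StandardBorelSpace X]
    [MeasurableSpace Y] [StandardBorelSpace Y] {μ : Measure X}
    [IsProbabilityMeasure μ] {T : X ≃ᵐ X} (hT : MeasurePreserving T μ μ) {ν : Measure Y}
    [IsProbabilityMeasure ν] {S : Y ≃ᵐ Y} (hS : MeasurePreserving S ν ν) {p : X → Y}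
    (hp : FMap μ T ν S p) (k : ℕ) {f : Y → ℂ} (hf : BM f) :
    μ[fun x => f (p x) | Zalg μ T k] =ᵐ[μ] fun x => (ν[f | Zalg ν S k]) (p x) := by
  obtain ⟨g, hg1, hg2, hg3, hg4, hg5⟩ := zc_sub (Zalg ν S k) ν (Zalg_le ν S k) hf
  have e1 : gn ν S (k + 1) (fun y => f y - g y) = 0 := (gn_eq_zero_iff ν S hS k hg4).2 hg5
  have e2 : gn μ T (k + 1) (fun x => f (p x) - g (p x)) = 0 := by
    rw [← e1]
    exact gn_fmap hT hS hp (k + 1) hg4
  have hfp : BM (fun x => f (p x)) := BMs.comp hf hp.mp.measurable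
  have hgp : BM (fun x => g (p x)) := BMs.comp hg2 hp.mp.measurable
  have e3 : μ[fun x => f (p x) - g (p x) | Zalg μ T k] =ᵐ[μ] 0 :=
    (gn_eq_zero_iff μ T hT k (BMs.sub hfp hgp)).1 e2
  have e4 := condExp_sub (hfp.integrable μ) (hgp.integrable μ) (Zalg μ T k)
  have e5 : Measurable[Zalg μ T k] (fun x => g (p x)) := hg1.1.comp (Zalg_fmap hT hS hp k)
  have e6 : μ[fun x => g (p x) | Zalg μ T k] = fun x => g (p x) :=
    condExp_of_stronglyMeasurable (Zalg_le μ T k) e5.stronglyMeasurable (hgp.integrable μ)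
  have e7 : ∀ᵐ x ∂μ, (ν[f | Zalg ν S k]) (p x) = g (p x) := hp.mp.quasiMeasurePreserving.ae hg3
  have e8 : μ[(fun x => f (p x)) - fun x => g (p x) | Zalg μ T k] =ᵐ[μ] 0 := e3
  filter_upwards [e4, e7, e8] with x h1 h2 h3
  rw [h3, Pi.sub_apply, e6, Pi.zero_apply] at h1
  rw [h2]
  exact (sub_eq_zero.1 h1.symm)

/-- **ZC5.** For an ergodic system `Zalg 0` is trivial: `gn 1 f = ‖∫ f‖²`
(`gn_succ`, `cube 0`, `condExp_inv_ergodic`), so `E[f | Zalg 0] = ∫ f`. -/
theorem gn_one {X : Type} [MeasurableSpace X] [StandardBorelSpace X] (μ : Measure X)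
    [IsProbabilityMeasure μ] (T : X ≃ᵐ X) (hT : Ergodic T μ) {f : X → ℂ} (hf : BM f) :
    gn μ T 1 f = ((‖∫ x, f x ∂μ‖ ^ 2 : ℝ) : ℂ) := by
  have hTm : MeasurePreserving T μ μ := hT.toMeasurePreserving
  have : IsProbabilityMeasure (cube μ T (Fin 2) 0) := cube_prob μ T (Fin 2) 0
  have hp : FMap μ T (cube μ T (Fin 2) 0) (tArr T (Fin 2) 0) (fun x _ => x) := by
    refine ⟨⟨?_, rfl⟩, Eventually.of_forall fun x => rfl⟩
    exact measurable_pi_lambda _ fun _ => measurable_id
  have hE : Ergodic (tArr T (Fin 2) 0) (cube μ T (Fin 2) 0) :=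
    FMap.ergodic hT (cube_tArr μ T hTm (Fin 2) 0) hp
  have hd : BM (dd 0 f) := dd_bm 0 hf
  have h1 := condExp_inv_ergodic (cube μ T (Fin 2) 0) (tArr T (Fin 2) 0) hE hd
  have h2 : ∫ x, dd 0 f x ∂(cube μ T (Fin 2) 0) = ∫ a, f a ∂μ := by
    rw [integral_cube_zero μ T (Fin 2) hd]
    congr 1
    funext a
    simp [dd, wt, HK820.cj]
  have h3 := gn_succ μ T 0 hf
  rw [zero_add] at h3
  rw [h3]
  congr 1
  have h4 : ∀ᵐ x ∂(cube μ T (Fin 2) 0),
      ‖((cube μ T (Fin 2) 0)[dd 0 f | Inv (tArr T (Fin 2) 0)]) x‖ ^ 2 = ‖∫ a, f a ∂μ‖ ^ 2 := by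
    filter_upwards [h1] with x hx
    rw [hx, h2]
  rw [integral_congr_ae h4, integral_const]
  simp

theorem condExp_Zalg_zero {X : Type} [MeasurableSpace X] [StandardBorelSpace X] (μ : Measure X)
    [IsProbabilityMeasure μ] (T : X ≃ᵐ X) (hT : Ergodic T μ) {f : X → ℂ} (hf : BM f) :
    μ[f | Zalg μ T 0] =ᵐ[μ] fun _ => ∫ x, f x ∂μ := by
  set c : ℂ := ∫ x, f x ∂μ with hc
  have hcB : BM (fun _ : X => c) := BMs.const _ c
  have hφ : BM (fun x => f x - c) := BMs.sub hf hcB
  have h1 : ∫ x, (f x - c) ∂μ = 0 := by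
    rw [integral_sub (hf.integrable μ) (hcB.integrable μ), integral_const]
    simp [hc]
  have h2 : gn μ T (0 + 1) (fun x => f x - c) = 0 := by
    rw [zero_add, gn_one μ T hT hφ, h1]
    simp
  have h3 : μ[fun x => f x - c | Zalg μ T 0] =ᵐ[μ] 0 :=
    (gn_eq_zero_iff μ T hT.toMeasurePreserving 0 hφ).1 h2
  have h4 := condExp_sub (hf.integrable μ) (hcB.integrable μ) (Zalg μ T 0)
  have h5 : μ[fun _ : X => c | Zalg μ T 0] = fun _ => c :=
    condExp_const (Zalg_le μ T 0) c
  have h6 : μ[f - fun _ => c | Zalg μ T 0] =ᵐ[μ] 0 := h3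
  filter_upwards [h4, h6] with x e1 e2
  rw [e2, Pi.sub_apply, h5, Pi.zero_apply] at e1
  exact (sub_eq_zero.1 e1.symm)

end Pool.Agent.HK820

end

/-! ### Part `ZD` -/

section

open MeasureTheory ProbabilityTheory Filter Topology
open scoped ComplexConjugate ENNReal

namespace Pool.Agent.HK820

/-! ### auxiliary lemmas -/

theorem ZD_gn_mono {X : Type} [MeasurableSpace X] [StandardBorelSpace X] (μ : Measure X)
    [IsProbabilityMeasure μ] (T : X ≃ᵐ X) {f : X → ℂ} (hf : BM f) {k D : ℕ} (hD : D ≤ k)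
    (h : gn μ T k f = 0) : gn μ T D f = 0 := by
  induction k with
  | zero =>
    have : D = 0 := by omega
    rw [this]
    exact h
  | succ k ih =>
    rcases Nat.lt_or_ge D (k + 1) with h1 | h1
    · refine ih (by omega) ?_
      have h2 := gn_mono μ T k hf
      rw [h, norm_zero] at h2
      have h3 : ‖gn μ T k f‖ = 0 := by nlinarith [norm_nonneg (gn μ T k f)]
      exact norm_eq_zero.1 h3
    · have : D = k + 1 := by omega
      rw [this]
      exact h

/-- replacing the functions one after the other -/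
theorem ZD_tele {X : Type} [MeasurableSpace X] [StandardBorelSpace X] (μ : Measure X)
    [IsProbabilityMeasure μ] (T : X ≃ᵐ X) {ι : Type} [Fintype ι] (D k : ℕ)
    {γ : Arr ι X D → ℂ} (hγ : BM γ)
    (H : ∀ h : (Fin D → ι) → X → ℂ, (∀ v, BM (h v)) → ∀ v₀, gn μ T (k + 1) (h v₀) = 0 →
      ∫ x, γ x * ∏ v, h v (x v) ∂(cube μ T ι D) = 0)
    (f g : (Fin D → ι) → X → ℂ) (hf : ∀ v, BM (f v)) (hg : ∀ v, BM (g v))
    (hfg : ∀ v, gn μ T (k + 1) (fun a => f v a - g v a) = 0) :
    ∫ x, γ x * ∏ v, f v (x v) ∂(cube μ T ι D) = ∫ x, γ x * ∏ v, g v (x v) ∂(cube μ T ι D) := by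
  classical
  have := cube_prob μ T ι D
  have key : ∀ s : Finset (Fin D → ι),
      ∫ x, γ x * ∏ v, (if v ∈ s then g v else f v) (x v) ∂(cube μ T ι D) =
        ∫ x, γ x * ∏ v, f v (x v) ∂(cube μ T ι D) := by
    intro s
    induction s using Finset.induction_on with
    | empty => simp
    | insert v₀ s hv₀ ih =>
      rw [← ih]
      have hB : ∀ s : Finset (Fin D → ι), ∀ v, BM ((if v ∈ s then g v else f v) : X → ℂ) := by
        intro s v
        split_ifs
        · exact hg v
        · exact hf v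
      have hBP : ∀ s : Finset (Fin D → ι),
          BM (fun x : Arr ι X D => γ x * ∏ v, (if v ∈ s then g v else f v) (x v)) := fun s =>
        BMs.mul hγ (BMs.prod Finset.univ fun v => BMs.comp (hB s v) (measurable_pi_apply v))
      have h1 := H (fun v => if v = v₀ then (fun a => f v₀ a - g v₀ a) else
        (if v ∈ s then g v else f v)) (by
          intro v
          show BM (if v = v₀ then (fun a => f v₀ a - g v₀ a) else
            (if v ∈ s then g v else f v))
          by_cases h : v = v₀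
          · rw [if_pos h]
            exact BMs.sub (hf v₀) (hg v₀)
          · rw [if_neg h]
            exact hB s v) v₀ (by
          show gn μ T (k + 1) (if v₀ = v₀ then (fun a => f v₀ a - g v₀ a) else _) = 0
          rw [if_pos rfl]
          exact hfg v₀)
      have h2 : ∀ x : Arr ι X D,
          γ x * ∏ v, (if v = v₀ then (fun a => f v₀ a - g v₀ a) else
            (if v ∈ s then g v else f v)) (x v) =
          γ x * ∏ v, (if v ∈ s then g v else f v) (x v) -
            γ x * ∏ v, (if v ∈ insert v₀ s then g v else f v) (x v) := by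
        intro x
        rw [← Finset.mul_prod_erase Finset.univ _ (Finset.mem_univ v₀),
          ← Finset.mul_prod_erase Finset.univ
            (fun v => (if v ∈ s then g v else f v) (x v)) (Finset.mem_univ v₀),
          ← Finset.mul_prod_erase Finset.univ
            (fun v => (if v ∈ insert v₀ s then g v else f v) (x v)) (Finset.mem_univ v₀)]
        have e1 : ∏ v ∈ Finset.univ.erase v₀, (if v = v₀ then (fun a => f v₀ a - g v₀ a) else
            (if v ∈ s then g v else f v)) (x v) =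
            ∏ v ∈ Finset.univ.erase v₀, (if v ∈ s then g v else f v) (x v) :=
          Finset.prod_congr rfl fun v hv => by rw [if_neg (Finset.ne_of_mem_erase hv)]
        have e2 : ∏ v ∈ Finset.univ.erase v₀, (if v ∈ insert v₀ s then g v else f v) (x v) =
            ∏ v ∈ Finset.univ.erase v₀, (if v ∈ s then g v else f v) (x v) :=
          Finset.prod_congr rfl fun v hv => by
            have : v ∈ insert v₀ s ↔ v ∈ s := by
              rw [Finset.mem_insert]
              exact ⟨fun h => h.resolve_left (Finset.ne_of_mem_erase hv), Or.inr⟩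
            simp only [this]
        rw [e1, e2, if_pos rfl, if_neg hv₀, if_pos (Finset.mem_insert_self v₀ s)]
        ring
      simp only [h2] at h1
      rw [integral_sub ((hBP s).integrable _) ((hBP (insert v₀ s)).integrable _)] at h1
      exact (sub_eq_zero.1 h1).symm
  have h := key Finset.univ
  simp only [Finset.mem_univ, if_true] at h
  exact h.symm

/-- bounded version of the conditional expectation on `Zalg` -/
theorem ZD_version {X : Type} [MeasurableSpace X] [StandardBorelSpace X] (μ : Measure X)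
    [IsProbabilityMeasure μ] (T : X ≃ᵐ X) (hT : MeasurePreserving T μ μ) (k : ℕ)
    {f : X → ℂ} (hf : BM f) :
    ∃ g : X → ℂ, BMs (Zalg μ T k) g ∧ BM g ∧ μ[f | Zalg μ T k] =ᵐ[μ] g ∧
      gn μ T (k + 1) (fun a => f a - g a) = 0 := by
  obtain ⟨C, hC⟩ := hf.2
  obtain ⟨g, hg1, hg2, hg3⟩ := exists_bms_condExp (Zalg μ T k) μ (Zalg_le μ T k) hf.1 hC
  have hgm : BMs (Zalg μ T k) g := ⟨hg1, C, hg2⟩
  have hgb : BM g := BMs.mono (Zalg_le μ T k) hgm
  refine ⟨g, hgm, hgb, hg3, ?_⟩
  rw [gn_eq_zero_iff μ T hT k (BMs.sub hf hgb)]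
  have h1 : μ[fun a => f a - g a | Zalg μ T k] =ᵐ[μ] μ[f | Zalg μ T k] - μ[g | Zalg μ T k] :=
    condExp_sub (hf.integrable μ) (hgb.integrable μ) _
  have h2 : μ[g | Zalg μ T k] = g :=
    condExp_of_stronglyMeasurable (Zalg_le μ T k) hg1.stronglyMeasurable (hgb.integrable μ)
  rw [h2] at h1
  filter_upwards [h1, hg3] with x hx1 hx2
  rw [hx1, Pi.sub_apply, hx2, sub_self, Pi.zero_apply]

/-- almost everywhere equality at all vertices -/
theorem ZD_vertex_ae {X : Type} [MeasurableSpace X] [StandardBorelSpace X] (μ : Measure X)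
    [IsProbabilityMeasure μ] (T : X ≃ᵐ X) {ι : Type} [Fintype ι] (D : ℕ)
    {f g : (Fin D → ι) → X → ℂ} (h : ∀ v, f v =ᵐ[μ] g v) :
    ∀ᵐ x ∂(cube μ T ι D), ∀ v, f v (x v) = g v (x v) := by
  rw [ae_all_iff]
  intro v
  exact (cube_eval μ T ι D v).quasiMeasurePreserving.ae_eq_comp (h v)

/-- **ZD1.** In cubes of dimension at most `k + 1` (over any finite index set) every function may be
replaced by its conditional expectation on `Zalg k`.

Proof. Replace the functions one after the other (`Finset` induction over the vertices): if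
`φ = f v₀ - E[f v₀ | Zalg k]` then `gn (k+1) φ = 0`, hence `gn D φ = 0` by `gn_mono`
(`D ≤ k + 1`), and `vertex_zero`. -/
theorem cube_Zalg {X : Type} [MeasurableSpace X] [StandardBorelSpace X] (μ : Measure X)
    [IsProbabilityMeasure μ] (T : X ≃ᵐ X) (hT : MeasurePreserving T μ μ) {ι : Type} [Fintype ι]
    (D k : ℕ) (hD : D ≤ k + 1) (f : (Fin D → ι) → X → ℂ) (hf : ∀ v, BM (f v)) :
    ∫ x, ∏ v, f v (x v) ∂(cube μ T ι D) =
      ∫ x, ∏ v, (μ[f v | Zalg μ T k]) (x v) ∂(cube μ T ι D) := by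
  choose g hg1 hg2 hg3 hg4 using fun v => ZD_version μ T hT k (hf v)
  have h1 := ZD_tele μ T D k (γ := fun _ : Arr ι X D => (1 : ℂ)) (BMs.const _ 1) (by
    intro h hh v₀ h0
    simp only [one_mul]
    exact vertex_zero μ T hT D h hh v₀ (ZD_gn_mono μ T (hh v₀) hD h0)) f g hf hg2 hg4
  simp only [one_mul] at h1
  rw [h1]
  refine integral_congr_ae ?_
  filter_upwards [ZD_vertex_ae μ T D hg3] with x hx
  exact Finset.prod_congr rfl fun v _ => (hx v).symm

/-- functions measurable for the pullback along a vertex -/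
theorem ZD_factor {X ι : Type} [Nonempty X] (m : MeasurableSpace X) (D : ℕ) (v : Fin D → ι)
    {g : Arr ι X D → ℂ}
    (hg : BMs (MeasurableSpace.comap (fun x : Arr ι X D => x v) m) g) :
    ∃ h : X → ℂ, BMs m h ∧ g = fun x => h (x v) := by
  obtain ⟨C, hC⟩ := hg.2
  obtain ⟨h, hh1, hh2⟩ := Measurable.exists_eq_measurable_comp (mY := m) hg.1
  refine ⟨h, ⟨hh1, C, fun a => ?_⟩, hh2⟩
  have h1 := hC (fun _ => a)
  rw [hh2] at h1
  exact h1

/-- **ZD2.** Relative independence of the vertices over the vertexwise σ-algebra, for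
`D ≤ k + 1`: `E[∏ f v (x v) | pw (Zalg k)] = ∏ E[f v | Zalg k] (x v)`.

Proof. The right side is `pw`-measurable; test against products of functions `h v` bounded and
`Zalg k`-measurable (`condExp_iSup_zero` for the difference), using ZD1 for `f v * h v` and the
pull-out property `E[f v * h v | Zalg] = h v E[f v | Zalg]`. -/
theorem condExp_pw {X : Type} [MeasurableSpace X] [StandardBorelSpace X] (μ : Measure X)
    [IsProbabilityMeasure μ] (T : X ≃ᵐ X) (hT : MeasurePreserving T μ μ) {ι : Type} [Fintype ι]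
    (D k : ℕ) (hD : D ≤ k + 1) (f : (Fin D → ι) → X → ℂ) (hf : ∀ v, BM (f v)) :
    (cube μ T ι D)[fun x => ∏ v, f v (x v) | pw (Zalg μ T k) D] =ᵐ[cube μ T ι D]
      fun x => ∏ v, (μ[f v | Zalg μ T k]) (x v) := by
  have := cube_prob μ T ι D
  have : Nonempty X := nonempty_of_isProbabilityMeasure μ
  choose g hg1 hg2 hg3 hg4 using fun v => ZD_version μ T hT k (hf v)
  have hle : ∀ v : Fin D → ι, MeasurableSpace.comap (fun x : Arr ι X D => x v) (Zalg μ T k) ≤
      (inferInstance : MeasurableSpace (Arr ι X D)) := fun v =>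
    (MeasurableSpace.comap_mono (Zalg_le μ T k)).trans (measurable_pi_apply v).comap_le
  have hpw : pw (ι := ι) (Zalg μ T k) D ≤ (inferInstance : MeasurableSpace (Arr ι X D)) :=
    iSup_le hle
  have hF : BM (fun x : Arr ι X D => ∏ v, f v (x v)) :=
    BMs.prod Finset.univ fun v => BMs.comp (hf v) (measurable_pi_apply v)
  have hG : BM (fun x : Arr ι X D => ∏ v, g v (x v)) :=
    BMs.prod Finset.univ fun v => BMs.comp (hg2 v) (measurable_pi_apply v)
  have hGm : BMs (pw (ι := ι) (Zalg μ T k) D) (fun x : Arr ι X D => ∏ v, g v (x v)) :=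
    BMs.prod Finset.univ fun v => BMs.mono (le_iSup
      (fun v : Fin D → ι => MeasurableSpace.comap (fun x : Arr ι X D => x v) (Zalg μ T k)) v)
      (BMs.comp (hg1 v) (comap_measurable _))
  have h0 : (cube μ T ι D)[fun x => ∏ v, f v (x v) - ∏ v, g v (x v) |
      ⨆ v : Fin D → ι, MeasurableSpace.comap (fun x : Arr ι X D => x v) (Zalg μ T k)]
        =ᵐ[cube μ T ι D] 0 := by
    refine condExp_iSup_zero _ _ hle (BMs.sub hF hG) ?_
    intro h hh
    choose h' hh1 hh2 using fun v => ZD_factor (Zalg μ T k) D v (hh v)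
    have hb : ∀ v, BM (h' v) := fun v => BMs.mono (Zalg_le μ T k) (hh1 v)
    have e1 : ∀ x : Arr ι X D, (∏ v, f v (x v) - ∏ v, g v (x v)) * ∏ v, h v x =
        (∏ v, (fun a => f v a * h' v a) (x v)) - ∏ v, (fun a => g v a * h' v a) (x v) := by
      intro x
      have e2 : ∏ v, h v x = ∏ v, h' v (x v) :=
        Finset.prod_congr rfl fun v _ => congrFun (hh2 v) x
      rw [e2, sub_mul, ← Finset.prod_mul_distrib, ← Finset.prod_mul_distrib]
    have hfh : ∀ v, BM (fun a => f v a * h' v a) := fun v => BMs.mul (hf v) (hb v)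
    have hgh : ∀ v, BM (fun a => g v a * h' v a) := fun v => BMs.mul (hg2 v) (hb v)
    simp only [e1]
    rw [integral_sub
      (BM.integrable (BMs.prod Finset.univ fun v => BMs.comp (hfh v) (measurable_pi_apply v)) _)
      (BM.integrable (BMs.prod Finset.univ fun v => BMs.comp (hgh v) (measurable_pi_apply v)) _),
      sub_eq_zero, cube_Zalg μ T hT D k hD _ hfh]
    refine integral_congr_ae ?_
    have e3 : ∀ v, μ[fun a => f v a * h' v a | Zalg μ T k] =ᵐ[μ] fun a => g v a * h' v a := by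
      intro v
      refine condExp_eq_of_forall _ μ (Zalg_le μ T k) (hfh v) (BMs.mul (hg1 v) (hh1 v)) ?_
      intro t ht
      have e4 := integral_mul_condExp _ μ (Zalg_le μ T k) (hf v) (BMs.mul ht (hh1 v))
      have e5 : ∫ x, t x * (f v x * h' v x) ∂μ = ∫ x, t x * h' v x * f v x ∂μ :=
        integral_congr_ae (Eventually.of_forall fun x => by ring)
      rw [e5, ← e4]
      refine integral_congr_ae ?_
      filter_upwards [hg3 v] with x hx
      rw [hx]
      ring
    filter_upwards [ZD_vertex_ae μ T D e3] with x hx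
    exact Finset.prod_congr rfl fun v _ => hx v
  have h1 : (cube μ T ι D)[fun x => ∏ v, f v (x v) - ∏ v, g v (x v) | pw (Zalg μ T k) D]
      =ᵐ[cube μ T ι D] (cube μ T ι D)[fun x => ∏ v, f v (x v) | pw (Zalg μ T k) D] -
        (cube μ T ι D)[fun x => ∏ v, g v (x v) | pw (Zalg μ T k) D] :=
    condExp_sub (hF.integrable _) (hG.integrable _) _
  have h2 : (cube μ T ι D)[fun x => ∏ v, g v (x v) | pw (Zalg μ T k) D] =
      fun x => ∏ v, g v (x v) :=
    condExp_of_stronglyMeasurable hpw hGm.1.stronglyMeasurable (hG.integrable _)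
  rw [h2] at h1
  filter_upwards [h0, h1, ZD_vertex_ae μ T D hg3] with x hx0 hx1 hx2
  have hx3 := hx0.symm.trans hx1
  rw [Pi.zero_apply, Pi.sub_apply] at hx3
  rw [sub_eq_zero.1 hx3.symm]
  exact Finset.prod_congr rfl fun v _ => (hx2 v).symm

theorem ZD_condExp_conj {Y : Type} (m : MeasurableSpace Y) [mY : MeasurableSpace Y]
    (ν : Measure Y) [IsProbabilityMeasure ν] (hm : m ≤ mY) {f : Y → ℂ} (hf : BM f) :
    ν[fun x => conj (f x) | m] =ᵐ[ν] fun x => conj ((ν[f | m]) x) := by
  obtain ⟨C, hC⟩ := hf.2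
  obtain ⟨g, hg1, hg2, hg3⟩ := exists_bms_condExp m ν hm hf.1 hC
  have hgm : BMs m g := ⟨hg1, C, hg2⟩
  have h1 : ν[fun x => conj (f x) | m] =ᵐ[ν] fun x => conj (g x) := by
    refine condExp_eq_of_forall m ν hm (BMs.conj hf) (BMs.conj hgm) ?_
    intro t ht
    have e1 := integral_mul_condExp m ν hm hf (BMs.conj ht)
    have e2 : ∫ x, conj (t x) * f x ∂ν = ∫ x, conj (t x) * g x ∂ν := by
      rw [← e1]
      refine integral_congr_ae ?_
      filter_upwards [hg3] with x hx
      rw [hx]
    have e3 : ∀ φ : Y → ℂ, ∫ x, t x * conj (φ x) ∂ν = conj (∫ x, conj (t x) * φ x ∂ν) := by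
      intro φ
      rw [← integral_conj]
      refine integral_congr_ae (Eventually.of_forall fun x => ?_)
      simp
    rw [e3, e3, e2]
  filter_upwards [h1, hg3] with x hx1 hx2
  rw [hx1, hx2]

theorem ZD_eq_zero_of_integral {Y : Type} [MeasurableSpace Y] (ν : Measure Y)
    [IsProbabilityMeasure ν] {f : Y → ℂ} (hf : BM f) (h : ∫ x, ‖f x‖ ^ 2 ∂ν = 0) :
    f =ᵐ[ν] 0 := by
  obtain ⟨C, hC⟩ := hf.2
  have hi : Integrable (fun x => ‖f x‖ ^ 2) ν := by
    refine Integrable.of_bound (hf.1.norm.pow_const 2).aestronglyMeasurable (C ^ 2)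
      (Eventually.of_forall fun x => ?_)
    rw [Real.norm_of_nonneg (by positivity)]
    exact pow_le_pow_left₀ (norm_nonneg _) (hC x) 2
  have h1 := (integral_eq_zero_iff_of_nonneg (fun x => by positivity) hi).1 h
  filter_upwards [h1] with x hx
  have h2 : ‖f x‖ ^ 2 = 0 := hx
  have h3 : ‖f x‖ = 0 := by nlinarith [norm_nonneg (f x)]
  simpa using h3

/-- The basic case: at least two indices. -/
theorem ZD_inv_two {X : Type} [MeasurableSpace X] [StandardBorelSpace X] (μ : Measure X)
    [IsProbabilityMeasure μ] (T : X ≃ᵐ X) (hT : MeasurePreserving T μ μ) {ι : Type} [Fintype ι]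
    {i₀ i₁ : ι} (hi : i₀ ≠ i₁) (D k : ℕ) (hD : D ≤ k) (f : (Fin D → ι) → X → ℂ)
    (hf : ∀ v, BM (f v)) (v₀ : Fin D → ι) (h0 : gn μ T (k + 1) (f v₀) = 0) :
    (cube μ T ι D)[fun x => ∏ v, f v (x v) | Inv (tArr T ι D)] =ᵐ[cube μ T ι D] 0 := by
  classical
  have := cube_prob μ T ι D
  have hF : BM (fun x : Arr ι X D => ∏ v, f v (x v)) :=
    BMs.prod Finset.univ fun v => BMs.comp (hf v) (measurable_pi_apply v)
  set F : Arr ι X D → ℂ := fun x => ∏ v, f v (x v) with hFdef
  have hInv : Inv (tArr T ι D) ≤ (inferInstance : MeasurableSpace (Arr ι X D)) :=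
    MeasurableSpace.invariants_le _
  -- the functions on the slices
  let H : ι → Arr ι X D → ℂ := fun i x =>
    if i = i₀ then F x else if i = i₁ then conj (F x) else 1
  have hH : ∀ i, BM (H i) := by
    intro i
    by_cases h1 : i = i₀
    · have : H i = F := by
        funext x
        simp only [H, h1, if_true]
      rw [this]
      exact hF
    · by_cases h2 : i = i₁
      · have : H i = fun x => conj (F x) := by
          funext x
          simp only [H, h2, if_true, if_false, hi.symm]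
        rw [this]
        exact BMs.conj hF
      · have : H i = fun _ => 1 := by
          funext x
          simp only [H, h1, h2, if_false]
        rw [this]
        exact BMs.const _ 1
  let f' : (Fin (D + 1) → ι) → X → ℂ := fun v a =>
    if v 0 = i₀ then f (Fin.tail v) a else if v 0 = i₁ then conj (f (Fin.tail v) a) else 1
  have hf' : ∀ v, BM (f' v) := by
    intro v
    by_cases h1 : v 0 = i₀
    · have : f' v = f (Fin.tail v) := by
        funext x
        simp only [f', h1, if_true]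
      rw [this]
      exact hf _
    · by_cases h2 : v 0 = i₁
      · have : f' v = fun x => conj (f (Fin.tail v) x) := by
          funext x
          simp only [f', h2, if_true, if_false, hi.symm]
        rw [this]
        exact BMs.conj (hf _)
      · have : f' v = fun _ => 1 := by
          funext x
          simp only [f', h1, h2, if_false]
        rw [this]
        exact BMs.const _ 1
  have e1 : ∀ x : Arr ι X (D + 1), ∏ v, f' v (x v) = ∏ i, H i (slice x i) := by
    intro x
    rw [prod_arr_succ]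
    refine Finset.prod_congr rfl fun i _ => ?_
    by_cases h1 : i = i₀
    · simp only [f', H, h1, Fin.cons_zero, Fin.tail_cons, if_true, F]
    · by_cases h2 : i = i₁
      · simp only [f', H, h2, Fin.cons_zero, Fin.tail_cons, if_true, if_false, F, hi.symm,
          map_prod]
      · simp only [f', H, h1, h2, Fin.cons_zero, if_false, Finset.prod_const_one]
  have e2 : ∫ x, ∏ v, f' v (x v) ∂(cube μ T ι (D + 1)) = 0 := by
    refine vertex_zero μ T hT (D + 1) f' hf' (Fin.cons i₀ v₀) ?_
    have : f' (Fin.cons i₀ v₀) = f v₀ := by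
      funext a
      simp only [f', Fin.cons_zero, Fin.tail_cons, if_true]
    rw [this]
    exact ZD_gn_mono μ T (hf v₀) (by omega) h0
  simp only [e1] at e2
  rw [cube_pull μ T hH i₀] at e2
  have e3 : ∫ y, H i₀ y * ∏ i ∈ Finset.univ.erase i₀,
      ((cube μ T ι D)[H i | Inv (tArr T ι D)]) y ∂(cube μ T ι D) =
      ∫ y, F y * conj (((cube μ T ι D)[F | Inv (tArr T ι D)]) y) ∂(cube μ T ι D) := by
    refine integral_congr_ae ?_
    have h1 : (cube μ T ι D)[H i₁ | Inv (tArr T ι D)] =ᵐ[cube μ T ι D]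
        fun y => conj (((cube μ T ι D)[F | Inv (tArr T ι D)]) y) := by
      have : H i₁ = fun x => conj (F x) := by
        funext x
        simp only [H, if_true, if_false, hi.symm]
      rw [this]
      exact ZD_condExp_conj _ _ hInv hF
    have h2 : ∀ i, i ≠ i₀ → i ≠ i₁ → (cube μ T ι D)[H i | Inv (tArr T ι D)] = fun _ => 1 := by
      intro i hi0 hi1
      have : H i = fun _ => 1 := by
        funext x
        simp only [H, hi0, hi1, if_false]
      rw [this]
      exact condExp_const hInv 1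
    filter_upwards [h1] with y hy
    have h3 : H i₀ y = F y := by simp only [H, if_true]
    rw [h3, Finset.prod_eq_single_of_mem i₁ (Finset.mem_erase.2 ⟨hi.symm, Finset.mem_univ _⟩), hy]
    intro i hi0 hi1
    rw [h2 i (Finset.ne_of_mem_erase hi0) hi1]
  rw [e3, integral_mul_conj_condExp _ _ hInv hF, Complex.ofReal_eq_zero] at e2
  obtain ⟨C, hC⟩ := hF.2
  obtain ⟨g, hg1, hg2, hg3⟩ := exists_bms_condExp _ (cube μ T ι D) hInv hF.1 hC
  have hgb : BM g := BMs.mono hInv ⟨hg1, C, hg2⟩
  have e4 : ∫ x, ‖g x‖ ^ 2 ∂(cube μ T ι D) = 0 := by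
    rw [← e2]
    refine integral_congr_ae ?_
    filter_upwards [hg3] with x hx
    rw [hx]
  exact hg3.trans (ZD_eq_zero_of_integral _ hgb e4)

/-- The general case. -/
theorem ZD_inv_zero {X : Type} [MeasurableSpace X] [StandardBorelSpace X] (μ : Measure X)
    [IsProbabilityMeasure μ] (T : X ≃ᵐ X) (hT : MeasurePreserving T μ μ) {ι : Type} [Fintype ι]
    (D k : ℕ) (hD : D ≤ k) (f : (Fin D → ι) → X → ℂ)
    (hf : ∀ v, BM (f v)) (v₀ : Fin D → ι) (h0 : gn μ T (k + 1) (f v₀) = 0) :
    (cube μ T ι D)[fun x => ∏ v, f v (x v) | Inv (tArr T ι D)] =ᵐ[cube μ T ι D] 0 := by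
  classical
  have := cube_prob μ T ι D
  have := cube_prob μ T (ι ⊕ Fin 2) D
  have hF : BM (fun x : Arr ι X D => ∏ v, f v (x v)) :=
    BMs.prod Finset.univ fun v => BMs.comp (hf v) (measurable_pi_apply v)
  have hr := cube_rst hT (D := D) (fun _ : Fin D => (Sum.inl : ι → ι ⊕ Fin 2))
    (fun _ => Sum.inl_injective)
  -- extension of the functions by `1`
  let E : (Fin D → ι) ↪ (Fin D → ι ⊕ Fin 2) :=
    ⟨fun v j => Sum.inl (v j), fun v w h => funext fun j => Sum.inl_injective (congrFun h j)⟩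
  let f' : (Fin D → ι ⊕ Fin 2) → X → ℂ := fun w a =>
    if h : ∃ v, E v = w then f h.choose a else 1
  have hE : ∀ v, f' (E v) = f v := by
    intro v
    funext a
    have h : ∃ u, E u = E v := ⟨v, rfl⟩
    simp only [f', h, dif_pos]
    rw [E.injective h.choose_spec]
  have hf' : ∀ w, BM (f' w) := by
    intro w
    by_cases h : ∃ v, E v = w
    · obtain ⟨v, rfl⟩ := h
      rw [hE]
      exact hf v
    · have : f' w = fun _ => 1 := by
        funext a
        simp only [f', h, dif_neg, not_false_iff]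
      rw [this]
      exact BMs.const _ 1
  have e1 : ∀ y : Arr (ι ⊕ Fin 2) X D,
      ∏ w, f' w (y w) = ∏ v, f v (rst (fun _ : Fin D => (Sum.inl : ι → ι ⊕ Fin 2)) y v) := by
    intro y
    have h1 : ∏ w ∈ Finset.univ.map E, f' w (y w) = ∏ w, f' w (y w) := by
      refine Finset.prod_subset (Finset.subset_univ _) ?_
      intro w _ hw
      have h : ¬ ∃ v, E v = w := by
        rintro ⟨v, hv⟩
        exact hw (Finset.mem_map.2 ⟨v, Finset.mem_univ _, hv⟩)
      simp only [f', h, dif_neg, not_false_iff]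
    rw [← h1, Finset.prod_map]
    refine Finset.prod_congr rfl fun v _ => ?_
    rw [hE]
    rfl
  have h1 := ZD_inv_two μ T hT (ι := ι ⊕ Fin 2) (i₀ := Sum.inr 0) (i₁ := Sum.inr 1) (by simp)
    D k hD f' hf' (E v₀) (by rw [hE]; exact h0)
  simp only [e1] at h1
  have h2 := condExp_inv_comp (cube_tArr μ T hT (ι ⊕ Fin 2) D) (cube_tArr μ T hT ι D) hr hF
  have h3 : ∀ᵐ y ∂(cube μ T (ι ⊕ Fin 2) D),
      ((cube μ T ι D)[fun x => ∏ v, f v (x v) | Inv (tArr T ι D)])
        (rst (fun _ : Fin D => (Sum.inl : ι → ι ⊕ Fin 2)) y) = 0 := by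
    filter_upwards [h1, h2] with y hy1 hy2
    rw [← hy2, hy1, Pi.zero_apply]
  have hInv : Inv (tArr T ι D) ≤ (inferInstance : MeasurableSpace (Arr ι X D)) :=
    MeasurableSpace.invariants_le _
  have hm : MeasurableSet {x : Arr ι X D |
      ((cube μ T ι D)[fun x => ∏ v, f v (x v) | Inv (tArr T ι D)]) x = 0} :=
    (measurableSet_eq_fun ((stronglyMeasurable_condExp.measurable).mono hInv le_rfl)
      measurable_const)
  have h4 : ∀ᵐ x ∂(cube μ T ι D),
      ((cube μ T ι D)[fun x => ∏ v, f v (x v) | Inv (tArr T ι D)]) x = 0 := by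
    have h5 := ae_map_iff hr.mp.aemeasurable hm
    rw [hr.mp.map_eq] at h5
    exact h5.2 h3
  exact h4

/-- **ZD3.** Invariant functions on `D`-dimensional arrays, `D ≤ k`, are vertexwise
`Zalg k`-measurable.

Proof. Let `C = cube μ T ι D`, `m = pw (Zalg k) D`. Let `F = ∏ v, f v (x v)` and suppose that
`E[f v₀ | Zalg k] = 0` for some `v₀`. Then `E[F | Inv] = 0`: `∫ ‖E[F | Inv]‖²` is the
`(D+1)`-dimensional cube integral of the functions `f v` on slice `i₀`, `conj (f v)` on slice `i₁ ≠
i₀`, `1` on the other slices (`cube_prod`; if `ι` has only one element use the index set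
`Option ι`/`Fin 2 × ι`: or prove the statement from `cube_bound` and `vertex_zero` as follows:
`∫ ‖E[F|Inv]‖² = lim avg ∫ F conj(F ∘ tArr^n) = lim avg ∫ ∏ v, (f v conj(f v ∘ T^n))(x v)` and
`‖·‖^(2^D) ≤ ‖gn D (f v₀ conj(f v₀ ∘ T^n))‖`, whose average tends to `gn (D+1) (f v₀) = 0` for
`D ≥ 1`; `D = 0`: `∫ ‖E[f|Inv T]‖² = gn 1 f = 0`). Hence for all `f v`: `E[F | Inv] =
E[∏ v, E[f v | Zalg k] (x v) | Inv] = E[E[F | m] | Inv]` by ZD2. So for an invariant bounded `g`,
`∫ g F = ∫ g E[F | m]` for all products `F`, hence (density, `approx_prod`) `∫ g F = ∫ g E[F|m] =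
∫ E[g|m] F` for all bounded measurable `F`, i.e. `g = E[g | m]`. -/
theorem inv_pw {X : Type} [MeasurableSpace X] [StandardBorelSpace X] (μ : Measure X)
    [IsProbabilityMeasure μ] (T : X ≃ᵐ X) (hT : MeasurePreserving T μ μ) {ι : Type} [Fintype ι]
    (D k : ℕ) (hD : D ≤ k) {g : Arr ι X D → ℂ} (hg : BM g)
    (hi : (fun x => g (tArr T ι D x)) =ᵐ[cube μ T ι D] g) :
    AEM (pw (Zalg μ T k) D) (cube μ T ι D) g := by
  have := cube_prob μ T ι D
  have : Nonempty X := nonempty_of_isProbabilityMeasure μ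
  have hInv : Inv (tArr T ι D) ≤ (inferInstance : MeasurableSpace (Arr ι X D)) :=
    MeasurableSpace.invariants_le _
  have hle : ∀ v : Fin D → ι, MeasurableSpace.comap (fun x : Arr ι X D => x v) (Zalg μ T k) ≤
      (inferInstance : MeasurableSpace (Arr ι X D)) := fun v =>
    (MeasurableSpace.comap_mono (Zalg_le μ T k)).trans (measurable_pi_apply v).comap_le
  have hpw : pw (ι := ι) (Zalg μ T k) D ≤ (inferInstance : MeasurableSpace (Arr ι X D)) :=
    iSup_le hle
  -- invariant version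
  obtain ⟨C, hC⟩ := hg.2
  have hC0 : 0 ≤ C := by
    obtain ⟨x₀⟩ := (inferInstance : Nonempty (Arr ι X D))
    exact (norm_nonneg _).trans (hC x₀)
  obtain ⟨γ, hγ1, hγ2, hγ3⟩ := (aem_inv_of_comp (cube μ T ι D) (tArr T ι D) (cube_tArr μ T hT ι D)
    hg.1.aestronglyMeasurable hi).bounded hC0 (Eventually.of_forall hC)
  have hγm : BMs (Inv (tArr T ι D)) γ := ⟨hγ1, C, hγ2⟩
  have hγb : BM γ := BMs.mono hInv hγm
  -- version of the conditional expectation of `γ`
  obtain ⟨γ', hγ'1, hγ'2, hγ'3⟩ := exists_bms_condExp (pw (ι := ι) (Zalg μ T k) D)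
    (cube μ T ι D) hpw hγb.1 hγ2
  have hγ'm : BMs (pw (ι := ι) (Zalg μ T k) D) γ' := ⟨hγ'1, C, hγ'2⟩
  have hγ'b : BM γ' := BMs.mono hpw hγ'm
  -- the integrals against products
  have key : ∀ f : (Fin D → ι) → X → ℂ, (∀ v, BM (f v)) →
      ∫ x, (γ x - γ' x) * ∏ v, f v (x v) ∂(cube μ T ι D) = 0 := by
    intro f hf
    choose g' hg1 hg2 hg3 hg4 using fun v => ZD_version μ T hT k (hf v)
    have hF : BM (fun x : Arr ι X D => ∏ v, f v (x v)) :=
      BMs.prod Finset.univ fun v => BMs.comp (hf v) (measurable_pi_apply v)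
    have e1 : ∫ x, γ x * ∏ v, f v (x v) ∂(cube μ T ι D) =
        ∫ x, γ x * ∏ v, g' v (x v) ∂(cube μ T ι D) := by
      refine ZD_tele μ T D k hγb ?_ f g' hf hg2 hg4
      intro h hh v₀ h0
      have hB : BM (fun x : Arr ι X D => ∏ v, h v (x v)) :=
        BMs.prod Finset.univ fun v => BMs.comp (hh v) (measurable_pi_apply v)
      rw [← integral_mul_condExp _ _ hInv hB hγm]
      have h1 := ZD_inv_zero μ T hT D k hD h hh v₀ h0
      rw [integral_congr_ae (g := fun _ => (0 : ℂ))]
      · simp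
      · filter_upwards [h1] with x hx
        rw [hx, Pi.zero_apply, mul_zero]
    have e2 : ∫ x, γ x * ∏ v, g' v (x v) ∂(cube μ T ι D) =
        ∫ x, γ' x * ∏ v, g' v (x v) ∂(cube μ T ι D) := by
      have hGm : BMs (pw (ι := ι) (Zalg μ T k) D) (fun x : Arr ι X D => ∏ v, g' v (x v)) :=
        BMs.prod Finset.univ fun v => BMs.mono (le_iSup
          (fun v : Fin D → ι => MeasurableSpace.comap (fun x : Arr ι X D => x v) (Zalg μ T k)) v)
          (BMs.comp (hg1 v) (comap_measurable _))
      have h1 := integral_mul_condExp _ (cube μ T ι D) hpw hγb hGm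
      have h2 : ∫ x, γ x * ∏ v, g' v (x v) ∂(cube μ T ι D) =
          ∫ x, (∏ v, g' v (x v)) * γ x ∂(cube μ T ι D) :=
        integral_congr_ae (Eventually.of_forall fun x => mul_comm _ _)
      rw [h2, ← h1]
      refine integral_congr_ae ?_
      filter_upwards [hγ'3] with x hx
      rw [hx, mul_comm]
    have e3 : ∫ x, γ' x * ∏ v, g' v (x v) ∂(cube μ T ι D) =
        ∫ x, γ' x * ∏ v, f v (x v) ∂(cube μ T ι D) := by
      rw [← integral_mul_condExp _ _ hpw hF hγ'm]
      refine integral_congr_ae ?_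
      filter_upwards [condExp_pw μ T hT D k (by omega) f hf, ZD_vertex_ae μ T D hg3]
        with x hx1 hx2
      rw [hx1]
      congr 1
      exact Finset.prod_congr rfl fun v _ => (hx2 v).symm
    have e4 : ∀ x : Arr ι X D, (γ x - γ' x) * ∏ v, f v (x v) =
        γ x * ∏ v, f v (x v) - γ' x * ∏ v, f v (x v) := fun x => by ring
    simp only [e4]
    rw [integral_sub (BM.integrable (BMs.mul hγb hF) _) (BM.integrable (BMs.mul hγ'b hF) _),
      e1, e2, e3, sub_self]
  have hsup : (⨆ v : Fin D → ι, MeasurableSpace.comap (fun x : Arr ι X D => x v)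
      (inferInstance : MeasurableSpace X)) = (inferInstance : MeasurableSpace (Arr ι X D)) := rfl
  have h1 := condExp_iSup_zero (fun v : Fin D → ι =>
    MeasurableSpace.comap (fun x : Arr ι X D => x v) (inferInstance : MeasurableSpace X))
    (cube μ T ι D) (fun v => (measurable_pi_apply v).comap_le) (BMs.sub hγb hγ'b) (by
      intro h hh
      choose h' hh1 hh2 using fun v => ZD_factor (inferInstance : MeasurableSpace X) D v (hh v)
      have e2 : ∀ x : Arr ι X D, ∏ v, h v x = ∏ v, h' v (x v) := fun x =>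
        Finset.prod_congr rfl fun v _ => congrFun (hh2 v) x
      simp only [e2]
      exact key h' hh1)
  rw [hsup] at h1
  have h2 : (cube μ T ι D)[fun x => γ x - γ' x | (inferInstance : MeasurableSpace (Arr ι X D))] =
      fun x => γ x - γ' x :=
    condExp_of_stronglyMeasurable le_rfl
      (BMs.sub hγb hγ'b).1.stronglyMeasurable (BM.integrable (BMs.sub hγb hγ'b) (cube μ T ι D))
  rw [h2] at h1
  refine ⟨γ', hγ'1, ?_⟩
  filter_upwards [hγ3, h1] with x hx1 hx2
  rw [hx1]
  exact sub_eq_zero.1 hx2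

end Pool.Agent.HK820

end
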