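import Pool.Agent.Lib_MP_820dd4_hk.AX1

open MeasureTheory ProbabilityTheory Filter Topology
open scoped ComplexConjugate ENNReal

namespace Pool.Agent.HK820

private theorem ax_int_comp {X Y : Type} [MeasurableSpace X] [MeasurableSpace Y] {μ : Measure X}
    {ν : Measure Y} {p : X → Y} (hp : MeasurePreserving p μ ν) {G : Y → ℝ}
    (hG : AEStronglyMeasurable G ν) : ∫ x, G (p x) ∂μ = ∫ y, G y ∂ν := by
  have h := integral_map (μ := μ) (φ := p) hp.measurable.aemeasurable (f := G)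
    (by rw [hp.map_eq]; exact hG)
  rw [hp.map_eq] at h
  exact h.symm

/-- the value of a pulled back algebra -/
private theorem ax_val_comap {X Y : Type} (m' : MeasurableSpace Y) [mX : MeasurableSpace X]
    [mY : MeasurableSpace Y] {μ : Measure X} [IsProbabilityMeasure μ] {ν : Measure Y}
    [IsProbabilityMeasure ν] (hm' : m' ≤ mY) {p : X → Y} (hp : MeasurePreserving p μ ν)
    {f : Y → ℂ} (hf : BM f) :
    ∫ x, ‖(μ[fun x => f (p x) | MeasurableSpace.comap p m']) x‖ ^ 2 ∂μ =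
      ∫ y, ‖(ν[f | m']) y‖ ^ 2 ∂ν := by
  have h1 : ∫ x, ‖(μ[fun x => f (p x) | MeasurableSpace.comap p m']) x‖ ^ 2 ∂μ =
      ∫ x, (fun y => ‖(ν[f | m']) y‖ ^ 2) (p x) ∂μ := by
    refine integral_congr_ae ?_
    filter_upwards [condExp_comap m' hm' hp hf] with x hx
    rw [hx]
  rw [h1]
  exact ax_int_comp (G := fun y => ‖(ν[f | m']) y‖ ^ 2) hp
    ((stronglyMeasurable_condExp.mono hm').norm.pow 2).aestronglyMeasurable

/-- the error of a pulled back algebra -/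
private theorem ax_err_comap {X Y : Type} (m' : MeasurableSpace Y) [mX : MeasurableSpace X]
    [mY : MeasurableSpace Y] {μ : Measure X} [IsProbabilityMeasure μ] {ν : Measure Y}
    [IsProbabilityMeasure ν] (hm' : m' ≤ mY) {p : X → Y} (hp : MeasurePreserving p μ ν)
    {f : Y → ℂ} (hf : BM f) :
    ∫ x, ‖f (p x) - (μ[fun x => f (p x) | MeasurableSpace.comap p m']) x‖ ^ 2 ∂μ =
      ∫ y, ‖f y - (ν[f | m']) y‖ ^ 2 ∂ν := by
  have h1 : ∫ x, ‖f (p x) - (μ[fun x => f (p x) | MeasurableSpace.comap p m']) x‖ ^ 2 ∂μ =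
      ∫ x, (fun y => ‖f y - (ν[f | m']) y‖ ^ 2) (p x) ∂μ := by
    refine integral_congr_ae ?_
    filter_upwards [condExp_comap m' hm' hp hf] with x hx
    rw [hx]
  rw [h1]
  exact ax_int_comp (G := fun y => ‖f y - (ν[f | m']) y‖ ^ 2) hp
    (((hf.1.stronglyMeasurable).sub (stronglyMeasurable_condExp.mono hm')).norm.pow
      2).aestronglyMeasurable

private theorem ax_val_mono {X : Type} (m m' : MeasurableSpace X) [mX : MeasurableSpace X]
    (μ : Measure X) [IsProbabilityMeasure μ] (h : m ≤ m') (hm' : m' ≤ mX) {f : X → ℂ}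
    (hf : BM f) : ∫ x, ‖(μ[f | m]) x‖ ^ 2 ∂μ ≤ ∫ x, ‖(μ[f | m']) x‖ ^ 2 ∂μ := by
  rw [condExp_pythagoras m m' μ h hm' hf]
  exact le_add_of_nonneg_right (integral_nonneg fun x => sq_nonneg _)

private theorem ax_err_mono {X : Type} (m m' : MeasurableSpace X) [mX : MeasurableSpace X]
    (μ : Measure X) [IsProbabilityMeasure μ] (h : m ≤ m') (hm' : m' ≤ mX) {f : X → ℂ}
    (hf : BM f) : ∫ x, ‖f x - (μ[f | m']) x‖ ^ 2 ∂μ ≤ ∫ x, ‖f x - (μ[f | m]) x‖ ^ 2 ∂μ := by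
  rw [condExp_pythagoras' m' μ hm' hf, condExp_pythagoras' m μ (h.trans hm') hf]
  linarith [ax_val_mono m m' μ h hm' hf]

private theorem ax_val_le {X : Type} (m : MeasurableSpace X) [mX : MeasurableSpace X]
    (μ : Measure X) [IsProbabilityMeasure μ] (hm : m ≤ mX) {f : X → ℂ}
    (hf : BM f) : ∫ x, ‖(μ[f | m]) x‖ ^ 2 ∂μ ≤ ∫ x, ‖f x‖ ^ 2 ∂μ := by
  have h1 := condExp_pythagoras' m μ hm hf
  have h2 : 0 ≤ ∫ x, ‖f x - (μ[f | m]) x‖ ^ 2 ∂μ := integral_nonneg fun x => sq_nonneg _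
  linarith

/-- the trivial extension -/
private theorem ax_ext_refl {X : Type} [mX : MeasurableSpace X] [StandardBorelSpace X]
    (μ : Measure X) [IsProbabilityMeasure μ] (T : X ≃ᵐ X) (hT : Ergodic T μ) (s : ℕ) :
    Ext (⊥ : MeasurableSpace X) μ T s μ T id :=
  ⟨inferInstance, hT, ⟨MeasurePreserving.id μ, Eventually.of_forall fun _ => rfl⟩,
    TowAlg.bot μ T s⟩

/-- composition of extensions, joining the towers -/
private theorem ax_ext_comp {X P Q : Type} (m : MeasurableSpace P) (m' : MeasurableSpace Q)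
    [mX : MeasurableSpace X] [StandardBorelSpace X] [mP : MeasurableSpace P]
    [StandardBorelSpace P] [mQ : MeasurableSpace Q] [StandardBorelSpace Q] {μ : Measure X}
    {T : X ≃ᵐ X} {s : ℕ} {θ : Measure P} {R : P ≃ᵐ P} {π : P → X} (h : Ext m μ T s θ R π)
    {ν : Measure Q} {S : Q ≃ᵐ Q} {ρ : Q → P} (h' : Ext m' θ R s ν S ρ) :
    Ext (MeasurableSpace.comap ρ m ⊔ m') μ T s ν S (fun q => π (ρ q)) := by
  have := h.prob
  have := h'.prob
  refine ⟨h'.prob, h'.erg, h'.fm.comp h.fm, ?_⟩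
  exact TowAlg.sup _ _ ν S h'.erg.toMeasurePreserving
    (TowAlg.comap m h'.erg.toMeasurePreserving h.erg.toMeasurePreserving h'.fm h.tow) h'.tow

/-- the values of all extensions -/
private def vals {X : Type} [MeasurableSpace X] [StandardBorelSpace X] (μ : Measure X)
    (T : X ≃ᵐ X) (s : ℕ) (f : X → ℂ) : Set ℝ :=
  {v | ∃ (Q : Type) (m : MeasurableSpace Q) (_ : MeasurableSpace Q) (_ : StandardBorelSpace Q)
      (ν : Measure Q) (S : Q ≃ᵐ Q) (π : Q → X), Ext m μ T s ν S π ∧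
      v = ∫ q, ‖(ν[fun q => f (π q) | m]) q‖ ^ 2 ∂ν}

private theorem ax_vals_bdd {X : Type} [mX : MeasurableSpace X] [StandardBorelSpace X]
    (μ : Measure X) [IsProbabilityMeasure μ] (T : X ≃ᵐ X) (s : ℕ) {f : X → ℂ} (hf : BM f) :
    BddAbove (vals μ T s f) := by
  refine ⟨∫ x, ‖f x‖ ^ 2 ∂μ, ?_⟩
  rintro v ⟨Q, m, mQ, sQ, ν, S, π, hE, rfl⟩
  have := hE.prob
  have h1 := ax_val_le m ν (TowAlg.le m ν S hE.tow) (f := fun q => f (π q))
    (BMs.comp hf hE.fm.mp.measurable)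
  refine h1.trans (le_of_eq ?_)
  exact ax_int_comp hE.fm.mp (G := fun x => ‖f x‖ ^ 2)
    (hf.1.norm.pow_const 2).aestronglyMeasurable

/-- the union of a sequence of towers -/
private theorem ax_union {P : Type} [mP : MeasurableSpace P] [StandardBorelSpace P]
    (θ : Measure P) [IsProbabilityMeasure θ] (R : P ≃ᵐ P) (hR : MeasurePreserving R θ θ) {s : ℕ}
    (K : ℕ → MeasurableSpace P) (hK : ∀ j, TowAlg (K j) θ R s) :
    ∃ M : ℕ → MeasurableSpace P, Monotone M ∧ (∀ n, TowAlg (M n) θ R s) ∧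
      ∀ j, K j ≤ M (j + 1) := by
  let M : ℕ → MeasurableSpace P := fun n =>
    Nat.rec (motive := fun _ => MeasurableSpace P) ⊥ (fun n M => M ⊔ K n) n
  have hM0 : M 0 = ⊥ := rfl
  have hM1 : ∀ n, M (n + 1) = M n ⊔ K n := fun n => rfl
  refine ⟨M, monotone_nat_of_le_succ fun n => ?_, fun n => ?_, fun j => ?_⟩
  · rw [hM1]
    exact le_sup_left
  · induction n with
    | zero =>
      rw [hM0]
      exact TowAlg.bot θ R s
    | succ n ih =>
      rw [hM1]
      exact TowAlg.sup (M n) (K n) θ R hR ih (hK n)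
  · rw [hM1]
    exact le_sup_right

/-- The key step: if all extensions of `P` have value at most `σ` and the union of the towers
`M n` has value at least `σ` then the function is measurable for the union. -/
private theorem ax_key {s : ℕ} (hST : ST s) {X P : Type} (M : ℕ → MeasurableSpace P)
    [mX : MeasurableSpace X] [StandardBorelSpace X] [mP : MeasurableSpace P]
    [StandardBorelSpace P] {μ : Measure X} [IsProbabilityMeasure μ] {T : X ≃ᵐ X}
    (hT : Ergodic T μ) {θ : Measure P} [IsProbabilityMeasure θ] {R : P ≃ᵐ P} (hR : Ergodic R θ)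
    {π : P → X} (hπ : FMap θ R μ T π) (hMm : Monotone M) (hM : ∀ n, TowAlg (M n) θ R s)
    {f : X → ℂ} (hf : BM f) (hf' : AEM (Zalg μ T s) μ f) {σ : ℝ}
    (hσ : ∀ v ∈ vals μ T s f, v ≤ σ)
    (hσ' : σ ≤ ∫ x, ‖(θ[fun x => f (π x) | ⨆ n, M n]) x‖ ^ 2 ∂θ) :
    (fun x => f (π x)) =ᵐ[θ] θ[fun x => f (π x) | ⨆ n, M n] := by
  have hMle : ∀ n, M n ≤ mP := fun n => TowAlg.le (M n) θ R (hM n)
  have hMi : (⨆ n, M n) ≤ mP := iSup_le hMle
  have hF : BM (fun x => f (π x)) := BMs.comp hf hπ.mp.measurable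
  obtain ⟨hfm, C, hC⟩ := id hf
  obtain ⟨g, hg1, hg2, hg3⟩ := exists_bms_condExp (⨆ n, M n) θ hMi hF.1 (C := C)
    (fun x => hC (π x))
  have hgB : BMs (⨆ n, M n) g := ⟨hg1, C, hg2⟩
  have hgB' : BM g := hgB.mono hMi
  have hf1 : BM (fun x => f (π x) - g x) := BMs.sub hF hgB'
  by_cases h0 : (fun x => f (π x) - g x) =ᵐ[θ] 0
  · filter_upwards [h0, hg3] with x h1 h2
    rw [h2]
    exact sub_eq_zero.1 h1
  exfalso
  -- the function is of order `s`
  have hord : AEM (Zalg θ R s) θ (fun x => f (π x) - g x) := by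
    refine AEM.sub ?_ ?_
    · exact AEM.comp hf' hπ.mp
        (Zalg_fmap hR.toMeasurePreserving hT.toMeasurePreserving hπ s)
    · refine AEM.mono (iSup_le fun n => TowAlg.le_Zalg (M n) θ R (hM n)) (AEM.of_meas hg1)
  have hgn : gn θ R (s + 1) (fun x => f (π x) - g x) ≠ 0 := by
    intro hgn
    rw [gn_eq_zero_iff θ R hR.toMeasurePreserving s hf1] at hgn
    exact h0 (((aem_iff_condExp _ θ (Zalg_le θ R s) hf1).1 hord).symm.trans hgn)
  obtain ⟨Q, m', mQ, sQ, ν, S, ρ, hE, hne⟩ := hST P θ R hR _ hf1 hgn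
  have hν := hE.prob
  -- the algebras on `Q`
  have hm'le : m' ≤ mQ := TowAlg.le m' ν S hE.tow
  have hρ : MeasurePreserving ρ ν θ := hE.fm.mp
  have hN : ∀ n, Ext (MeasurableSpace.comap ρ (M n) ⊔ m') μ T s ν S (fun q => π (ρ q)) :=
    fun n => ax_ext_comp (M n) m' ⟨inferInstance, hR, hπ, hM n⟩ hE
  have hNle : ∀ n, MeasurableSpace.comap ρ (M n) ⊔ m' ≤ mQ := fun n =>
    TowAlg.le _ ν S (hN n).tow
  have hNi : (⨆ n, MeasurableSpace.comap ρ (M n) ⊔ m') ≤ mQ := iSup_le hNle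
  have hNmono : Monotone (fun n => MeasurableSpace.comap ρ (M n) ⊔ m') := fun a b hab =>
    sup_le_sup_right (MeasurableSpace.comap_mono (hMm hab)) _
  have hFQ : BM (fun q => f (π (ρ q))) := BMs.comp hF hρ.measurable
  have hval : ∀ n, ∫ q, ‖(ν[fun q => f (π (ρ q)) | MeasurableSpace.comap ρ (M n) ⊔ m']) q‖ ^ 2 ∂ν
      ≤ σ := fun n => hσ _ ⟨Q, _, mQ, sQ, ν, S, _, hN n, rfl⟩
  have hvali : ∫ q, ‖(ν[fun q => f (π (ρ q)) |
      ⨆ n, MeasurableSpace.comap ρ (M n) ⊔ m']) q‖ ^ 2 ∂ν ≤ σ := by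
    have h1 := condExp_tendsto (fun n => MeasurableSpace.comap ρ (M n) ⊔ m') ν hNle hNmono hFQ
    have h2 : ∀ n, ∫ q, ‖(ν[fun q => f (π (ρ q)) |
        ⨆ n, MeasurableSpace.comap ρ (M n) ⊔ m']) q‖ ^ 2 ∂ν - σ ≤
        ∫ q, ‖(ν[fun q => f (π (ρ q)) | MeasurableSpace.comap ρ (M n) ⊔ m']) q -
          (ν[fun q => f (π (ρ q)) | ⨆ n, MeasurableSpace.comap ρ (M n) ⊔ m']) q‖ ^ 2 ∂ν := by
      intro n
      have h3 := condExp_pythagoras (MeasurableSpace.comap ρ (M n) ⊔ m')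
        (⨆ n, MeasurableSpace.comap ρ (M n) ⊔ m') ν
        (le_iSup (fun n => MeasurableSpace.comap ρ (M n) ⊔ m') n) hNi hFQ
      have h4 : ∫ q, ‖(ν[fun q => f (π (ρ q)) | MeasurableSpace.comap ρ (M n) ⊔ m']) q -
          (ν[fun q => f (π (ρ q)) | ⨆ n, MeasurableSpace.comap ρ (M n) ⊔ m']) q‖ ^ 2 ∂ν =
          ∫ q, ‖(ν[fun q => f (π (ρ q)) | ⨆ n, MeasurableSpace.comap ρ (M n) ⊔ m']) q -
          (ν[fun q => f (π (ρ q)) | MeasurableSpace.comap ρ (M n) ⊔ m']) q‖ ^ 2 ∂ν :=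
        integral_congr_ae (Eventually.of_forall fun q => by
          show ‖_‖ ^ 2 = ‖_‖ ^ 2
          rw [norm_sub_rev])
      rw [h4, h3]
      linarith [hval n]
    have h5 := ge_of_tendsto' h1 h2
    linarith
  -- comparison with the pull back of the union
  have hKle : MeasurableSpace.comap ρ (⨆ n, M n) ≤ ⨆ n, MeasurableSpace.comap ρ (M n) ⊔ m' := by
    rw [MeasurableSpace.comap_iSup]
    exact iSup_mono fun n => le_sup_left
  have hm'N : m' ≤ ⨆ n, MeasurableSpace.comap ρ (M n) ⊔ m' :=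
    le_sup_right.trans (le_iSup (fun n => MeasurableSpace.comap ρ (M n) ⊔ m') 0)
  have hK1 := ax_val_comap (⨆ n, M n) hMi hρ hF
  have hK2 := condExp_pythagoras (MeasurableSpace.comap ρ (⨆ n, M n))
    (⨆ n, MeasurableSpace.comap ρ (M n) ⊔ m') ν hKle hNi hFQ
  have hK3 : ∫ q, ‖(ν[fun q => f (π (ρ q)) | ⨆ n, MeasurableSpace.comap ρ (M n) ⊔ m']) q -
      (ν[fun q => f (π (ρ q)) | MeasurableSpace.comap ρ (⨆ n, M n)]) q‖ ^ 2 ∂ν = 0 := by
    refine le_antisymm ?_ (integral_nonneg fun q => sq_nonneg _)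
    linarith
  have hK4 : (ν[fun q => f (π (ρ q)) | ⨆ n, MeasurableSpace.comap ρ (M n) ⊔ m']) =ᵐ[ν]
      ν[fun q => f (π (ρ q)) | MeasurableSpace.comap ρ (⨆ n, M n)] := by
    obtain ⟨a, ha1, ha2, ha3⟩ := exists_bms_condExp (⨆ n, MeasurableSpace.comap ρ (M n) ⊔ m') ν
      hNi hFQ.1 (C := C) (fun q => hC _)
    obtain ⟨b, hb1, hb2, hb3⟩ := exists_bms_condExp (MeasurableSpace.comap ρ (⨆ n, M n)) ν
      (hKle.trans hNi) hFQ.1 (C := C) (fun q => hC _)
    have hab : BM (fun q => a q - b q) := BMs.sub (BMs.mono hNi ⟨ha1, C, ha2⟩)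
      (BMs.mono (hKle.trans hNi) ⟨hb1, C, hb2⟩)
    have h1 : ∫ q, ‖a q - b q‖ ^ 2 ∂ν = 0 := by
      rw [← hK3]
      refine integral_congr_ae ?_
      filter_upwards [ha3, hb3] with q h1 h2
      rw [h1, h2]
    rw [integral_eq_zero_iff_of_nonneg (fun q => sq_nonneg _) (bas_int_sq hab ν)] at h1
    filter_upwards [h1, ha3, hb3] with q h2 h3 h4
    rw [h3, h4]
    have h5 : ‖a q - b q‖ ^ 2 = 0 := h2
    exact sub_eq_zero.1 (norm_eq_zero.1 (pow_eq_zero_iff (two_ne_zero) |>.1 h5))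
  have hgρ : BMs (MeasurableSpace.comap ρ (⨆ n, M n)) (fun q => g (ρ q)) :=
    BMs.comp hgB (comap_measurable ρ)
  have hgρ' : BM (fun q => g (ρ q)) := hgρ.mono (hKle.trans hNi)
  have hK5 : (ν[fun q => f (π (ρ q)) | ⨆ n, MeasurableSpace.comap ρ (M n) ⊔ m']) =ᵐ[ν]
      fun q => g (ρ q) := by
    refine hK4.trans ((condExp_comap (⨆ n, M n) hMi hρ hF).trans ?_)
    exact hρ.quasiMeasurePreserving.ae hg3
  have hK6 : (ν[fun q => g (ρ q) | ⨆ n, MeasurableSpace.comap ρ (M n) ⊔ m']) =ᵐ[ν]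
      fun q => g (ρ q) :=
    (aem_iff_condExp _ ν hNi hgρ').1 (AEM.of_meas (hgρ.mono hKle).1)
  have hK7 : (ν[fun q => f (π (ρ q)) - g (ρ q) |
      ⨆ n, MeasurableSpace.comap ρ (M n) ⊔ m']) =ᵐ[ν] 0 := by
    have h1 := condExp_sub (hFQ.integrable ν) (hgρ'.integrable ν)
      (⨆ n, MeasurableSpace.comap ρ (M n) ⊔ m')
    have h2 : (ν[fun q => f (π (ρ q)) - g (ρ q) |
        ⨆ n, MeasurableSpace.comap ρ (M n) ⊔ m']) =ᵐ[ν]
        ν[fun q => f (π (ρ q)) | ⨆ n, MeasurableSpace.comap ρ (M n) ⊔ m'] -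
        ν[fun q => g (ρ q) | ⨆ n, MeasurableSpace.comap ρ (M n) ⊔ m'] := h1
    filter_upwards [h2, hK5, hK6] with q h3 h4 h5
    rw [h3, Pi.sub_apply, h4, h5, sub_self]
    rfl
  refine hne ?_
  have h1 := condExp_condExp_of_le (f := fun q => f (π (ρ q)) - g (ρ q)) (μ := ν) hm'N hNi
  have h2 := condExp_congr_ae (m := m') hK7
  have h3 : ν[(0 : Q → ℂ) | m'] = 0 := condExp_zero
  rw [h3] at h2
  exact h1.symm.trans h2

/-- **AX4.** Approximation of one function of order `s` from the structure theorem of order `s`.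

Proof. For an extension `(Q, m)` (`Ext m μ T s ν S π`) let `V = ∫ ‖ν[f ∘ π | m]‖² ≤ sup |f|²`, and let
`σ` be the supremum of these numbers over all extensions (the set of values is nonempty: `Q = X`,
`m = ⊥`). Choose extensions `(Q j, m j)` with values tending to `σ`, and a joining `P`, `p j` over
`X` (`exists_joining`), `π' = π 0 ∘ p 0`. `M n = ⨆_{j < n} comap (p j) (m j)` is a tower algebra on `P`
(`TowAlg.comap`, `TowAlg.sup`), increasing, `M = ⨆ n, M n`. `E[f ∘ π' | comap (p j) (m j)] =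
E[f ∘ π j | m j] ∘ p j` (KT3), so by Pythagoras `∫ ‖E[f∘π'|M]‖² ≥ σ` (in fact `= σ` by martingale
convergence). Put `f' = f ∘ π' - E[f ∘ π' | M]` (bounded version). It is of order `s`:
`f ∘ π'` is (`Zalg_fmap`), `M ≤ Zalg` (`TowAlg.le_Zalg`). If `f'` were not a.e. `0` then
`E[f'|Zalg s] = f' ≠ 0`, so `gn (s+1) f' ≠ 0` (`gn_eq_zero_iff`) and `ST s` gives an extension
`π'' : P' → P` with a tower `m'`, `E[f' ∘ π'' | m'] ≠ 0`. On `P'` the algebras
`N n = comap π'' (M n) ⊔ m'` are tower algebras (and `P'` is an extension of `X`), so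
`∫ ‖E[f | N n]‖² ≤ σ`, and in the limit `∫ ‖E[f | N]‖² ≤ σ`, `N = ⨆ n, N n`. But
`∫ ‖E[f|N]‖² = ∫ ‖E[f|comap π'' M]‖² + ∫ ‖E[f|N] - E[f|comap π'' M]‖²`, the first term is `≥ σ` and
the second is `∫ ‖E[f' ∘ π''|N]‖² ≥ ∫ ‖E[f' ∘ π''|m']‖² > 0`, a contradiction. So
`f ∘ π' = E[f ∘ π'|M]`, and `M n` does it for large `n` (martingale convergence). -/
theorem ap_one {s : ℕ} (hST : ST s) (X : Type) [MeasurableSpace X] [StandardBorelSpace X]
    (μ : Measure X) [IsProbabilityMeasure μ] (T : X ≃ᵐ X) (hT : Ergodic T μ) {f : X → ℂ}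
    (hf : BM f) (hf' : AEM (Zalg μ T s) μ f) {ε : ℝ} (hε : 0 < ε) :
    ∃ (Q : Type) (m : MeasurableSpace Q) (_ : MeasurableSpace Q) (_ : StandardBorelSpace Q)
      (ν : Measure Q) (S : Q ≃ᵐ Q) (π : Q → X), Ext m μ T s ν S π ∧
      ∫ q, ‖f (π q) - (ν[fun q => f (π q) | m]) q‖ ^ 2 ∂ν < ε := by
  have hne : (vals μ T s f).Nonempty :=
    ⟨_, X, ⊥, inferInstance, inferInstance, μ, T, id, ax_ext_refl μ T hT s, rfl⟩
  have hbdd := ax_vals_bdd μ T s hf
  have h1 : ∀ j : ℕ, ∃ (Q : Type) (m : MeasurableSpace Q) (_ : MeasurableSpace Q)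
      (_ : StandardBorelSpace Q) (ν : Measure Q) (S : Q ≃ᵐ Q) (π : Q → X), Ext m μ T s ν S π ∧
      sSup (vals μ T s f) - 1 / ((j : ℝ) + 1) < ∫ q, ‖(ν[fun q => f (π q) | m]) q‖ ^ 2 ∂ν := by
    intro j
    have h2 : sSup (vals μ T s f) - 1 / ((j : ℝ) + 1) < sSup (vals μ T s f) := by
      have : (0 : ℝ) < 1 / ((j : ℝ) + 1) := by positivity
      linarith
    obtain ⟨v, ⟨Q, m, mQ, sQ, ν, S, π, hE, rfl⟩, hv⟩ := exists_lt_of_lt_csSup hne h2
    exact ⟨Q, m, mQ, sQ, ν, S, π, hE, hv⟩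
  choose Q m mQ sQ ν S π hE hV using h1
  have hprob : ∀ j, IsProbabilityMeasure (ν j) := fun j => (hE j).prob
  obtain ⟨P, mP, sP, θ, R, p, hθ, hR, hp, hpp⟩ := exists_joining hT Q ν S π
    (fun j => (hE j).erg) (fun j => (hE j).fm)
  have hπ : FMap θ R μ T (fun x => π 0 (p 0 x)) := (hp 0).comp (hE 0).fm
  have hF : BM (fun x => f (π 0 (p 0 x))) := BMs.comp hf hπ.mp.measurable
  obtain ⟨M, hMm, hM, hMj⟩ := ax_union θ R hR.toMeasurePreserving
    (fun j => MeasurableSpace.comap (p j) (m j))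
    (fun j => TowAlg.comap (m j) hR.toMeasurePreserving (hE j).erg.toMeasurePreserving (hp j)
      (hE j).tow)
  have hMle : ∀ n, M n ≤ mP := fun n => TowAlg.le (M n) θ R (hM n)
  have hMi : (⨆ n, M n) ≤ mP := iSup_le hMle
  have hσ' : sSup (vals μ T s f) ≤
      ∫ x, ‖(θ[fun x => f (π 0 (p 0 x)) | ⨆ n, M n]) x‖ ^ 2 ∂θ := by
    by_contra hcon
    push Not at hcon
    obtain ⟨j, hj⟩ := exists_nat_one_div_lt (sub_pos.2 hcon)
    have h2 := ax_val_comap (m j) (TowAlg.le (m j) (ν j) (S j) (hE j).tow) (hp j).mp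
      (f := fun q => f (π j q)) (BMs.comp hf (hE j).fm.mp.measurable)
    have h3 : (θ[fun x => f (π j (p j x)) | MeasurableSpace.comap (p j) (m j)]) =ᵐ[θ]
        θ[fun x => f (π 0 (p 0 x)) | MeasurableSpace.comap (p j) (m j)] := by
      refine condExp_congr_ae ?_
      filter_upwards [hpp j] with x hx
      rw [hx]
    have h4 : ∫ x, ‖(θ[fun x => f (π j (p j x)) | MeasurableSpace.comap (p j) (m j)]) x‖ ^ 2 ∂θ =
        ∫ x, ‖(θ[fun x => f (π 0 (p 0 x)) | MeasurableSpace.comap (p j) (m j)]) x‖ ^ 2 ∂θ := by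
      refine integral_congr_ae ?_
      filter_upwards [h3] with x hx
      rw [hx]
    have h5 := ax_val_mono (MeasurableSpace.comap (p j) (m j)) (⨆ n, M n) θ
      ((hMj j).trans (le_iSup M (j + 1))) hMi hF
    have h6 := hV j
    rw [← h2, h4] at h6
    linarith
  have key := ax_key hST M hT hR hπ hMm hM hf hf' (fun v hv => le_csSup hbdd hv) hσ'
  have h2 := condExp_tendsto M θ hMle hMm hF
  obtain ⟨n, hn⟩ := (h2.eventually (gt_mem_nhds hε)).exists
  refine ⟨P, M n, mP, sP, θ, R, _, ⟨hθ, hR, hπ, hM n⟩, ?_⟩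
  refine lt_of_eq_of_lt (integral_congr_ae ?_) hn
  filter_upwards [key] with x hx
  show ‖_‖ ^ 2 = ‖_‖ ^ 2
  rw [norm_sub_rev, hx]

/-- **AX5.** `ST s → AP s`: apply AX4 to the functions one after the other (the `(i+1)`-st one on
the extension constructed before, pulling back the previous tower and joining, `TowAlg.sup`,
`TowAlg.comap`); the approximation errors decrease when the σ-algebra grows (`condExp_best`,
AX3). -/
theorem ap_of_st {s : ℕ} (hST : ST s) : AP s := by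
  intro X mX sX μ hμ T hT n
  induction n with
  | zero =>
    intro f _ _ ε _
    exact ⟨X, ⊥, mX, sX, μ, T, id, ax_ext_refl μ T hT s, fun i => i.elim0⟩
  | succ n ih =>
    intro f hf hf' ε hε
    obtain ⟨P, m, mP, sP, θ, R, π, hE, herr⟩ := ih (fun i => f i.castSucc)
      (fun i => hf i.castSucc) (fun i => hf' i.castSucc) ε hε
    have hθ := hE.prob
    have hlast : BM (fun x => f (Fin.last n) (π x)) := BMs.comp (hf _) hE.fm.mp.measurable
    have hlast' : AEM (Zalg θ R s) θ (fun x => f (Fin.last n) (π x)) :=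
      AEM.comp (hf' _) hE.fm.mp
        (Zalg_fmap hE.erg.toMeasurePreserving hT.toMeasurePreserving hE.fm s)
    obtain ⟨Q, m', mQ, sQ, ν, S, ρ, hE', herr'⟩ := ap_one hST P θ R hE.erg hlast hlast' hε
    have hν := hE'.prob
    have hC := ax_ext_comp m m' hE hE'
    have hle : MeasurableSpace.comap ρ m ⊔ m' ≤ mQ := TowAlg.le _ ν S hC.tow
    have hmle : m ≤ mP := TowAlg.le m θ R hE.tow
    refine ⟨Q, MeasurableSpace.comap ρ m ⊔ m', mQ, sQ, ν, S, fun q => π (ρ q), hC, fun i => ?_⟩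
    have hi : BM (fun x => f i (π x)) := BMs.comp (hf i) hE.fm.mp.measurable
    have hi' : BM (fun q => f i (π (ρ q))) := BMs.comp hi hE'.fm.mp.measurable
    induction i using Fin.lastCases with
    | last =>
      exact lt_of_le_of_lt (ax_err_mono m' (MeasurableSpace.comap ρ m ⊔ m') ν le_sup_right hle
        hi') herr'
    | cast i =>
      have h1 := ax_err_mono (MeasurableSpace.comap ρ m) (MeasurableSpace.comap ρ m ⊔ m') ν
        le_sup_left hle hi'
      have h2 := ax_err_comap m hmle hE'.fm.mp hi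
      exact lt_of_le_of_lt (h1.trans_eq h2) (herr i)

end Pool.Agent.HK820
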