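import Pool.Agent.Lib_MP_820dd4_hk.FA

/-! ### Part `Defs3` -/

section

/-!
# Part II: definitions

* `ND`: a smooth group law with unit `0` on a finite dimensional real normed space `V`, with a smooth
  automorphism `phi`. `GG d = V × ℤ` is the semidirect product, `tau = (0, 1)`.
* `KK d Γ = GG d ⧸ Γ` with its Borel σ-algebra.
* `Model`: a factor of a system which is a translation by `tau` on `KK d Γ`.
* `inC k`: the closed subgroups of the circle, `k = 0` the circle, `k ≥ 1` the `k`-th roots of unity.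
  `WW k` is `ℝ` (as functions on `Fin 1`) if `k = 0` and trivial (functions on `Fin 0`) if `k ≥ 1`,
  `ee k a = exp (i a)`.
* `IsLift`: `F` lifts the transformation `g` with respect to the cocycle `R` on cubes.
* `LData`: continuous system of lifts of all elements of `V`.
-/

open MeasureTheory ProbabilityTheory Filter Topology
open scoped ComplexConjugate ENNReal

namespace Pool.Agent.HK820

/-! ### Groups -/

/-- a smooth group law with unit `0` on a finite dimensional space, with a smooth automorphism -/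
structure ND where
  V : Type
  [nag : NormedAddCommGroup V]
  [ns : NormedSpace ℝ V]
  [fd : FiniteDimensional ℝ V]
  mul : V → V → V
  inv : V → V
  phi : V ≃ V
  assoc : ∀ x y z, mul (mul x y) z = mul x (mul y z)
  zero_mul : ∀ x, mul 0 x = x
  mul_zero : ∀ x, mul x 0 = x
  inv_mul : ∀ x, mul (inv x) x = 0
  phi_mul : ∀ x y, phi (mul x y) = mul (phi x) (phi y)
  smooth_mul : ContDiff ℝ (⊤ : ℕ∞) (fun p : V × V => mul p.1 p.2)
  smooth_inv : ContDiff ℝ (⊤ : ℕ∞) inv
  smooth_phi : ContDiff ℝ (⊤ : ℕ∞) phi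
  smooth_phi' : ContDiff ℝ (⊤ : ℕ∞) phi.symm

attribute [instance] ND.nag ND.ns ND.fd

/-- the semidirect product `V ⋊ ℤ` -/
def GG (d : ND) : Type := d.V × ℤ

namespace GG

variable (d : ND)

/-- constructor -/
def mk (x : d.V) (a : ℤ) : GG d := (x, a)

instance : TopologicalSpace (GG d) := inferInstanceAs (TopologicalSpace (d.V × ℤ))

instance : T2Space (GG d) := inferInstanceAs (T2Space (d.V × ℤ))

instance : SecondCountableTopology (GG d) :=
  haveI : ProperSpace d.V := FiniteDimensional.proper_real d.V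
  inferInstanceAs (SecondCountableTopology (d.V × ℤ))

instance : LocallyCompactSpace (GG d) :=
  haveI : ProperSpace d.V := FiniteDimensional.proper_real d.V
  inferInstanceAs (LocallyCompactSpace (d.V × ℤ))

instance : MeasurableSpace (GG d) := borel _

instance : BorelSpace (GG d) := ⟨rfl⟩

theorem phi_zero : d.phi 0 = 0 := by
  have h : d.mul (d.phi 0) (d.phi 0) = d.mul (d.phi 0) 0 := by
    rw [← d.phi_mul, d.zero_mul, d.mul_zero]
  have h2 := congrArg (d.mul (d.inv (d.phi 0))) h
  rwa [← d.assoc, ← d.assoc, d.inv_mul, d.zero_mul, d.zero_mul] at h2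

theorem mul_inv (x : d.V) : d.mul x (d.inv x) = 0 := by
  have h : d.mul (d.inv (d.inv x)) (d.mul (d.inv x) (d.mul x (d.inv x))) = 0 := by
    rw [← d.assoc (d.inv x), d.inv_mul, d.zero_mul, d.inv_mul]
  rwa [← d.assoc, d.inv_mul, d.zero_mul] at h

theorem pow_mul (a : ℤ) (x y : d.V) :
    (d.phi ^ a : Equiv.Perm d.V) (d.mul x y) =
      d.mul ((d.phi ^ a : Equiv.Perm d.V) x) ((d.phi ^ a : Equiv.Perm d.V) y) := by
  have h1 : ∀ (n : ℕ) (x y : d.V), (d.phi ^ n : Equiv.Perm d.V) (d.mul x y) =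
      d.mul ((d.phi ^ n : Equiv.Perm d.V) x) ((d.phi ^ n : Equiv.Perm d.V) y) := by
    intro n
    induction n with
    | zero => intro x y; simp
    | succ n ih =>
      intro x y
      rw [pow_succ, Equiv.Perm.mul_apply, Equiv.Perm.mul_apply, Equiv.Perm.mul_apply, d.phi_mul, ih]
  obtain ⟨n, rfl | rfl⟩ := a.eq_nat_or_neg
  · rw [zpow_natCast]; exact h1 n x y
  · rw [zpow_neg, zpow_natCast, Equiv.Perm.inv_def, Equiv.symm_apply_eq, h1,
      Equiv.apply_symm_apply, Equiv.apply_symm_apply]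

instance : Group (GG d) where
  mul g h := (d.mul g.1 ((d.phi ^ g.2 : Equiv.Perm d.V) h.1), g.2 + h.2)
  one := ((0 : d.V), (0 : ℤ))
  inv g := ((d.phi ^ (-g.2) : Equiv.Perm d.V) (d.inv g.1), -g.2)
  mul_assoc g h k := by
    refine Prod.ext ?_ (add_assoc g.2 h.2 k.2)
    change d.mul (d.mul g.1 ((d.phi ^ g.2 : Equiv.Perm d.V) h.1))
        ((d.phi ^ (g.2 + h.2) : Equiv.Perm d.V) k.1) =
      d.mul g.1 ((d.phi ^ g.2 : Equiv.Perm d.V) (d.mul h.1
        ((d.phi ^ h.2 : Equiv.Perm d.V) k.1)))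
    rw [pow_mul, d.assoc, zpow_add, Equiv.Perm.mul_apply]
  one_mul g := by
    refine Prod.ext ?_ (zero_add g.2)
    change d.mul 0 ((d.phi ^ (0 : ℤ) : Equiv.Perm d.V) g.1) = g.1
    rw [zpow_zero, Equiv.Perm.one_apply, d.zero_mul]
  mul_one g := by
    refine Prod.ext ?_ (add_zero g.2)
    change d.mul g.1 ((d.phi ^ g.2 : Equiv.Perm d.V) 0) = g.1
    have h : (d.phi ^ g.2 : Equiv.Perm d.V) 0 = 0 := by
      have h1 : d.mul ((d.phi ^ g.2 : Equiv.Perm d.V) 0) ((d.phi ^ g.2 : Equiv.Perm d.V) 0) =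
          d.mul ((d.phi ^ g.2 : Equiv.Perm d.V) 0) 0 := by
        rw [← pow_mul, d.zero_mul, d.mul_zero]
      have h2 := congrArg (d.mul (d.inv ((d.phi ^ g.2 : Equiv.Perm d.V) 0))) h1
      rwa [← d.assoc, ← d.assoc, d.inv_mul, d.zero_mul, d.zero_mul] at h2
    rw [h, d.mul_zero]
  inv_mul_cancel g := by
    refine Prod.ext ?_ (neg_add_cancel g.2)
    change d.mul ((d.phi ^ (-g.2) : Equiv.Perm d.V) (d.inv g.1))
      ((d.phi ^ (-g.2) : Equiv.Perm d.V) g.1) = 0
    rw [← pow_mul, d.inv_mul]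
    have h1 : d.mul ((d.phi ^ (-g.2) : Equiv.Perm d.V) 0) ((d.phi ^ (-g.2) : Equiv.Perm d.V) 0) =
        d.mul ((d.phi ^ (-g.2) : Equiv.Perm d.V) 0) 0 := by
      rw [← pow_mul, d.zero_mul, d.mul_zero]
    have h2 := congrArg (d.mul (d.inv ((d.phi ^ (-g.2) : Equiv.Perm d.V) 0))) h1
    rwa [← d.assoc, ← d.assoc, d.inv_mul, d.zero_mul, d.zero_mul] at h2

theorem mul_def (g h : GG d) :
    g * h = (d.mul g.1 ((d.phi ^ g.2 : Equiv.Perm d.V) h.1), g.2 + h.2) := rfl

theorem one_def : (1 : GG d) = ((0 : d.V), (0 : ℤ)) := rfl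

/-- the element of `V` -/
def emb (x : d.V) : GG d := (x, 0)

/-- the generator of the `ℤ` part -/
def tau : GG d := (0, 1)

/-- the subgroup `V` -/
def nS : Subgroup (GG d) where
  carrier := {g | g.2 = 0}
  mul_mem' {a b} ha hb := by
    change a.2 + b.2 = 0
    rw [ha, hb, add_zero]
  one_mem' := rfl
  inv_mem' {a} ha := by
    change -a.2 = 0
    rw [ha, neg_zero]

/-- the chain of subgroups: `M 0 = M 1 = V`, `M (j + 2)` is the `(j + 2)`-nd term `G_{j + 2}` of the
lower central series (`G_1 = G`), i.e. `lowerCentralSeries (j + 1)` -/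
def chain : ℕ → Subgroup (GG d)
  | 0 => nS d
  | 1 => nS d
  | j + 2 => (⊤ : Subgroup (GG d)).lowerCentralSeries (j + 1)

end GG

/-- The quotient `GG d ⧸ Γ` with the quotient topology and its Borel σ-algebra. -/
def KK (d : ND) (Γ : Subgroup (GG d)) : Type := GG d ⧸ Γ

namespace KK

variable (d : ND) (Γ : Subgroup (GG d))

instance : TopologicalSpace (KK d Γ) := inferInstanceAs (TopologicalSpace (GG d ⧸ Γ))

instance : MeasurableSpace (KK d Γ) := borel _

instance : BorelSpace (KK d Γ) := ⟨rfl⟩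

instance : MulAction (GG d) (KK d Γ) := inferInstanceAs (MulAction (GG d) (GG d ⧸ Γ))

/-- the projection -/
def proj (g : GG d) : KK d Γ := (QuotientGroup.mk g : GG d ⧸ Γ)

end KK

/-! ### Curves -/

/-- `V` is parametrised by products of continuous curves -/
def HasCurves (d : ND) : Prop :=
  ∃ (n : ℕ) (x : Fin n → ℝ → d.V) (Φ : (Fin n → ℝ) ≃ₜ d.V),
    (∀ i, Continuous (x i)) ∧ (∀ i, x i 0 = 0) ∧
    ∀ t, Φ t = (List.ofFn (fun i => x i (t i))).foldr d.mul 0

/-! ### Models -/

/-- `Θ` is a factor map of the system `(Q, ν, S)` onto the translation by `tau` on `GG d ⧸ Γ`, which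
is of order `s` -/
structure Model (d : ND) (Γ : Subgroup (GG d)) {Q : Type} [MeasurableSpace Q]
    [StandardBorelSpace Q] (ν : Measure Q) (S : Q ≃ᵐ Q) (s : ℕ) (Θ : Q → KK d Γ) : Prop where
  disc : DiscreteTopology Γ
  cocpt : CompactSpace (KK d Γ)
  nilp : ∃ c, (⊤ : Subgroup (GG d)).lowerCentralSeries c = ⊥
  curves : HasCurves d
  meas : Measurable Θ
  eqv : ∀ᵐ q ∂ν, Θ (S q) = GG.tau d • Θ q
  inv : ∀ g : GG d, (ν.map Θ).map (fun y => g • y) = ν.map Θ
  ord : MeasurableSpace.comap Θ inferInstance ≤ Zalg ν S s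

/-! ### Closed subgroups of the circle -/

/-- membership in the circle (`k = 0`) or in the group of `k`-th roots of unity -/
def inC (k : ℕ) (z : ℂ) : Prop := ‖z‖ = 1 ∧ z ^ k = 1

/-- the Lie algebra of the closed subgroup number `k` -/
abbrev WW (k : ℕ) : Type := Fin (if k = 0 then 1 else 0) → ℝ

/-- the exponential map -/
noncomputable def ee (k : ℕ) (a : WW k) : ℂ := Complex.exp (Complex.I * ((∑ j, a j : ℝ) : ℂ))

/-! ### Lifts -/

/-- `F` is a lift of `g` with respect to the function `R` on `D`-dimensional cubes -/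
structure IsLift {K : Type} [MeasurableSpace K] [StandardBorelSpace K] (μ : Measure K)
    (T : K ≃ᵐ K) (D : ℕ) (R : Arr (Fin 2) K D → ℂ) (k : ℕ) (g : K → K) (F : K → ℂ) : Prop where
  meas : Measurable F
  inc : ∀ y, inC k (F y)
  lift : ∀ᵐ x ∂(cube μ T (Fin 2) D), R (fun v => g (x v)) = dd D F x * R x

/-- A continuous system of lifts of the elements of `V`, with values in the subgroup number `k`, for
the transformation `(y, z) ↦ (tau y, ρ y z)`. The element `(h, a)` of `V × WW k` acts by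
`(y, z) ↦ (h y, ee k a * F h y * z)`. -/
structure LData (d : ND) (Γ : Subgroup (GG d)) (μ : Measure (KK d Γ)) (k : ℕ)
    (ρ : KK d Γ → ℂ) (F : d.V → KK d Γ → ℂ) (c : d.V → d.V → WW k) (b : d.V → WW k) : Prop where
  meas : ∀ h, Measurable (F h)
  inc : ∀ h y, inC k (F h y)
  zero : ∀ y, F 0 y = 1
  cont : ∀ h₀, Tendsto (fun h => ∫ y, ‖F h y - F h₀ y‖ ∂μ) (𝓝 h₀) (𝓝 0)
  mulr : ∀ h h', ∀ᵐ y ∂μ, F h (GG.emb d h' • y) * F h' y = ee k (c h h') * F (d.mul h h') y
  tw : ∀ h, ∀ᵐ y ∂μ, ρ (GG.emb d h • y) * F h y =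
    ee k (b h) * F (d.phi h) (GG.tau d • y) * ρ y
  c_zero : ∀ h, c 0 h = 0 ∧ c h 0 = 0
  b_zero : b 0 = 0
  coc : ∀ x y z, c x y + c (d.mul x y) z = c x (d.mul y z) + c y z
  comp : ∀ x y, b (d.mul x y) + c x y = b x + b y + c (d.phi x) (d.phi y)
  c_cont : Continuous (fun p : d.V × d.V => c p.1 p.2)
  b_cont : Continuous b

end Pool.Agent.HK820

end

/-! ### Part `CE1` -/

section

/-!
# Part II, block CE1: topology of `GG d` and of `KK d Γ`

All proofs are elementary.

* `contDiff_zpow_phi`: induction (`Int.induction_on`) from `smooth_phi`, `smooth_phi'`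
  (`phi⁻¹ = phi.symm`, `contDiff` composition).
* topological group: multiplication is `(g, h) ↦ (mul g.1 (phi^(g.2) h.1), g.2 + h.2)` and `g.2` is
  locally constant. (Continuity at `(g₀, h₀)`: near it `g.2 = g₀.2`, so the map agrees with
  `(g, h) ↦ (mul g.1 (phi^(g₀.2) h.1), g.2 + h.2)`, which is continuous.)
* `KK d Γ`: the projection is an open quotient map. If `Γ` is discrete then it is closed
  (Mathlib: `Subgroup.isClosed_of_discrete`), the set `{(g, h) | g⁻¹ h ∈ Γ}` is closed, so the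
  quotient is Hausdorff (Mathlib: `t2Space_iff_of_isOpenQuotientMap` or similar). A compact Hausdorff
  second countable space is Polish, so its Borel σ-algebra is standard Borel.
* `Γ` is countable: a discrete subspace of a second countable space is countable.
-/

open MeasureTheory ProbabilityTheory Filter Topology
open scoped ComplexConjugate ENNReal

namespace Pool.Agent.HK820

theorem contDiff_zpow_phi (d : ND) (a : ℤ) :
    ContDiff ℝ (⊤ : ℕ∞) (fun x : d.V => (d.phi ^ a : Equiv.Perm d.V) x) := by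
  have key : ∀ (e : Equiv.Perm d.V), ContDiff ℝ (⊤ : ℕ∞) (fun x : d.V => e x) →
      ∀ n : ℕ, ContDiff ℝ (⊤ : ℕ∞) (fun x : d.V => (e ^ n : Equiv.Perm d.V) x) := by
    intro e he n
    induction n with
    | zero =>
      simp only [pow_zero, Equiv.Perm.one_apply]
      exact contDiff_id
    | succ n ih =>
      have h1 : (fun x : d.V => (e ^ (n + 1) : Equiv.Perm d.V) x) =
          (fun x : d.V => (e ^ n : Equiv.Perm d.V) x) ∘ (fun x : d.V => e x) := by
        funext x
        rw [pow_succ, Equiv.Perm.mul_apply]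
        rfl
      rw [h1]
      exact ih.comp he
  obtain ⟨n, rfl | rfl⟩ := a.eq_nat_or_neg
  · rw [zpow_natCast]
    exact key d.phi d.smooth_phi n
  · rw [zpow_neg, zpow_natCast, ← inv_pow]
    exact key (d.phi : Equiv.Perm d.V)⁻¹ d.smooth_phi' n

theorem zpow_phi_zero (d : ND) (a : ℤ) : (d.phi ^ a : Equiv.Perm d.V) 0 = 0 := by
  have h1 : d.mul ((d.phi ^ a : Equiv.Perm d.V) 0) ((d.phi ^ a : Equiv.Perm d.V) 0) =
      d.mul ((d.phi ^ a : Equiv.Perm d.V) 0) 0 := by
    rw [← GG.pow_mul, d.zero_mul, d.mul_zero]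
  have h2 := congrArg (d.mul (d.inv ((d.phi ^ a : Equiv.Perm d.V) 0))) h1
  rwa [← d.assoc, ← d.assoc, d.inv_mul, d.zero_mul, d.zero_mul] at h2

private theorem ce_fst (d : ND) : Continuous (fun g : GG d => (g.1 : d.V)) :=
  (continuous_fst : Continuous (Prod.fst : d.V × ℤ → d.V))

private theorem ce_snd (d : ND) : Continuous (fun g : GG d => (g.2 : ℤ)) :=
  (continuous_snd : Continuous (Prod.snd : d.V × ℤ → ℤ))

private theorem ce_mk (d : ND) {X : Type} [TopologicalSpace X] {f : X → d.V} {g : X → ℤ}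
    (hf : Continuous f) (hg : Continuous g) : Continuous (fun x => (GG.mk d (f x) (g x) : GG d)) :=
  (hf.prodMk hg : Continuous (fun x => ((f x, g x) : d.V × ℤ)))

private theorem ce_mul_cont (d : ND) : Continuous (fun p : GG d × GG d => p.1 * p.2) := by
  rw [continuous_iff_continuousAt]
  intro p₀
  have h1 : Continuous (fun p : GG d × GG d =>
      (GG.mk d (d.mul p.1.1 ((d.phi ^ p₀.1.2 : Equiv.Perm d.V) p.2.1)) (p.1.2 + p.2.2) : GG d)) := by
    refine ce_mk d ?_ ?_
    · exact d.smooth_mul.continuous.comp (((ce_fst d).comp continuous_fst).prodMk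
        ((contDiff_zpow_phi d p₀.1.2).continuous.comp ((ce_fst d).comp continuous_snd)))
    · exact ((ce_snd d).comp continuous_fst).add ((ce_snd d).comp continuous_snd)
  refine h1.continuousAt.congr ?_
  have h2 : ∀ᶠ p : GG d × GG d in 𝓝 p₀, p.1.2 = p₀.1.2 := by
    have h3 : Continuous (fun p : GG d × GG d => (p.1.2 : ℤ)) := (ce_snd d).comp continuous_fst
    exact h3.continuousAt.eventually (eventually_of_mem ((isOpen_discrete {p₀.1.2}).mem_nhds rfl)
      fun x hx => hx)
  filter_upwards [h2] with p hp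
  rw [GG.mul_def, hp]
  rfl

private theorem ce_inv_cont (d : ND) : Continuous (fun p : GG d => p⁻¹) := by
  rw [continuous_iff_continuousAt]
  intro p₀
  have h1 : Continuous (fun p : GG d =>
      (GG.mk d ((d.phi ^ (-p₀.2) : Equiv.Perm d.V) (d.inv p.1)) (-p.2) : GG d)) := by
    refine ce_mk d ?_ ?_
    · exact (contDiff_zpow_phi d (-p₀.2)).continuous.comp
        (d.smooth_inv.continuous.comp (ce_fst d))
    · exact (ce_snd d).neg
  refine h1.continuousAt.congr ?_
  have h2 : ∀ᶠ p : GG d in 𝓝 p₀, p.2 = p₀.2 :=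
    (ce_snd d).continuousAt.eventually (eventually_of_mem ((isOpen_discrete {p₀.2}).mem_nhds rfl)
      fun x hx => hx)
  filter_upwards [h2] with p hp
  show (GG.mk d ((d.phi ^ (-p₀.2) : Equiv.Perm d.V) (d.inv p.1)) (-p.2) : GG d) =
    ((d.phi ^ (-p.2) : Equiv.Perm d.V) (d.inv p.1), -p.2)
  rw [← hp]
  rfl

instance instTopGroupGG (d : ND) : IsTopologicalGroup (GG d) where
  continuous_mul := ce_mul_cont d
  continuous_inv := ce_inv_cont d

/-- multiplication of elements of `V` -/
theorem emb_mul (d : ND) (x y : d.V) : GG.emb d x * GG.emb d y = GG.emb d (d.mul x y) := by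
  rw [GG.mul_def]
  refine Prod.ext ?_ (add_zero 0)
  change d.mul x ((d.phi ^ (0 : ℤ) : Equiv.Perm d.V) y) = d.mul x y
  rw [zpow_zero, Equiv.Perm.one_apply]

/-- conjugation by `tau` is `phi` -/
theorem tau_mul_emb (d : ND) (x : d.V) : GG.tau d * GG.emb d x = GG.emb d (d.phi x) * GG.tau d := by
  rw [GG.mul_def, GG.mul_def]
  refine Prod.ext ?_ (add_comm 1 0)
  change d.mul 0 ((d.phi ^ (1 : ℤ) : Equiv.Perm d.V) x) =
    d.mul (d.phi x) ((d.phi ^ (0 : ℤ) : Equiv.Perm d.V) 0)
  rw [zpow_phi_zero, d.zero_mul, d.mul_zero, zpow_one]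

private theorem ce_mk_mul (d : ND) (a b : ℤ) : GG.mk d 0 a * GG.mk d 0 b = GG.mk d 0 (a + b) := by
  rw [GG.mul_def]
  refine Prod.ext ?_ rfl
  change d.mul 0 ((d.phi ^ a : Equiv.Perm d.V) 0) = 0
  rw [zpow_phi_zero, d.zero_mul]

theorem tau_zpow (d : ND) (n : ℤ) : (GG.tau d) ^ n = GG.mk d 0 n := by
  have h0 : GG.mk d 0 0 = 1 := rfl
  have h1 : GG.tau d = GG.mk d 0 1 := rfl
  have h2 : (GG.tau d)⁻¹ = GG.mk d 0 (-1) := by
    rw [inv_eq_iff_mul_eq_one, h1, ce_mk_mul]
    exact h0
  induction n using Int.induction_on with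
  | zero => rw [zpow_zero, h0]
  | succ n ih => rw [zpow_add_one, ih, h1, ce_mk_mul]
  | pred n ih => rw [zpow_sub_one, ih, h2, ce_mk_mul]; rfl

theorem tau_zpow_mul_emb (d : ND) (n : ℤ) (x : d.V) :
    (GG.tau d) ^ n * GG.emb d x = GG.emb d ((d.phi ^ n : Equiv.Perm d.V) x) * (GG.tau d) ^ n := by
  rw [tau_zpow, GG.mul_def, GG.mul_def]
  refine Prod.ext ?_ (add_comm n 0)
  change d.mul 0 ((d.phi ^ n : Equiv.Perm d.V) x) =
    d.mul ((d.phi ^ n : Equiv.Perm d.V) x) ((d.phi ^ (0 : ℤ) : Equiv.Perm d.V) 0)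
  rw [zpow_phi_zero, d.zero_mul, d.mul_zero]

theorem mk_eq (d : ND) (x : d.V) (n : ℤ) : GG.mk d x n = GG.emb d x * (GG.tau d) ^ n := by
  rw [tau_zpow, GG.mul_def]
  refine Prod.ext ?_ (zero_add n).symm
  change x = d.mul x ((d.phi ^ (0 : ℤ) : Equiv.Perm d.V) 0)
  rw [zpow_phi_zero, d.mul_zero]

theorem continuous_emb (d : ND) : Continuous (GG.emb d) :=
  ce_mk d continuous_id continuous_const

instance instContSMulKK (d : ND) (Γ : Subgroup (GG d)) : ContinuousSMul (GG d) (KK d Γ) :=
  inferInstanceAs (ContinuousSMul (GG d) (GG d ⧸ Γ))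

theorem kk_continuous_proj (d : ND) (Γ : Subgroup (GG d)) : Continuous (KK.proj d Γ) :=
  QuotientGroup.continuous_mk

theorem kk_isOpenMap_proj (d : ND) (Γ : Subgroup (GG d)) : IsOpenMap (KK.proj d Γ) :=
  QuotientGroup.isOpenMap_coe

theorem kk_proj_surjective (d : ND) (Γ : Subgroup (GG d)) : Function.Surjective (KK.proj d Γ) :=
  QuotientGroup.mk_surjective

theorem kk_proj_eq (d : ND) (Γ : Subgroup (GG d)) (g h : GG d) :
    KK.proj d Γ g = KK.proj d Γ h ↔ g⁻¹ * h ∈ Γ :=
  QuotientGroup.eq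

theorem kk_smul_proj (d : ND) (Γ : Subgroup (GG d)) (g h : GG d) :
    g • KK.proj d Γ h = KK.proj d Γ (g * h) := rfl

instance instSecondKK (d : ND) (Γ : Subgroup (GG d)) : SecondCountableTopology (KK d Γ) :=
  inferInstanceAs (SecondCountableTopology (GG d ⧸ Γ))

/-- the action is jointly measurable -/
instance instMeasSMulKK (d : ND) (Γ : Subgroup (GG d)) : MeasurableSMul₂ (GG d) (KK d Γ) :=
  inferInstance

theorem kk_t2 (d : ND) (Γ : Subgroup (GG d)) (h : DiscreteTopology Γ) : T2Space (KK d Γ) := by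
  have : IsClosed (Γ : Set (GG d)) := Subgroup.isClosed_of_discrete
  exact inferInstanceAs (T2Space (GG d ⧸ Γ))

theorem kk_polish (d : ND) (Γ : Subgroup (GG d)) (h : DiscreteTopology Γ)
    (h' : CompactSpace (KK d Γ)) : PolishSpace (KK d Γ) := by
  have h2 : T2Space (KK d Γ) := kk_t2 d Γ h
  letI : MetricSpace (KK d Γ) := TopologicalSpace.metrizableSpaceMetric (KK d Γ)
  infer_instance

theorem kk_standard (d : ND) (Γ : Subgroup (GG d)) (h : DiscreteTopology Γ)
    (h' : CompactSpace (KK d Γ)) : StandardBorelSpace (KK d Γ) := by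
  have h2 : PolishSpace (KK d Γ) := kk_polish d Γ h h'
  infer_instance

theorem countable_of_discrete (d : ND) (Γ : Subgroup (GG d)) (h : DiscreteTopology Γ) :
    Countable Γ :=
  countable_of_Lindelof_of_discrete

end Pool.Agent.HK820

end

/-! ### Part `CE1L` -/

section

/-!
# Part II, block CE1L: `GG d` is a Lie group

Charts: for every `n : ℤ` the chart `c_n` with source the open set `{g | g.2 = n}`, target `univ`,
`c_n g = g.1`, `c_n.symm x = (x, n)` (an `OpenPartialHomeomorph (GG d) d.V`).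
`chartAt g = c_(g.2)`, the atlas is `Set.range c`.
Transition maps: `c_m.symm ≫ c_n` has empty source if `m ≠ n` and is the identity if `m = n`, so
`contDiffGroupoid`-membership is clear (`HasGroupoid`, `IsManifold`).
Smoothness of the multiplication at `(g₀, h₀)`, `g₀.2 = m`, `h₀.2 = n`: in the charts `c_m × c_n` and
`c_(m + n)` it is the map `(x, y) ↦ d.mul x (phi^m y)` on all of `V × V`, smooth by `d.smooth_mul` and
`contDiff_zpow_phi` (CE1). Inverse: in the charts `c_m` and `c_(-m)` it is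
`x ↦ phi^(-m) (d.inv x)`. Continuity: `instTopGroupGG` (CE1).
Useful: `contMDiffAt_iff`, `extChartAt`, `modelWithCornersSelf` simp lemmas (`mfld_simps`), the charts of
the product manifold `G × G` are `(chartAt g).prod (chartAt h)`.
-/

open MeasureTheory ProbabilityTheory Filter Topology
open scoped ComplexConjugate ENNReal Manifold

namespace Pool.Agent.HK820

private theorem ce1l_cont_fst (d : ND) : Continuous (fun g : GG d => g.1) := by
  show Continuous (fun g : d.V × ℤ => g.1)
  exact continuous_fst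

private theorem ce1l_cont_snd (d : ND) : Continuous (fun g : GG d => g.2) := by
  show Continuous (fun g : d.V × ℤ => g.2)
  exact continuous_snd

private theorem ce1l_cont_mk (d : ND) (n : ℤ) : Continuous (fun x : d.V => GG.mk d x n) := by
  show Continuous (fun x : d.V => ((x, n) : d.V × ℤ))
  exact continuous_id.prodMk continuous_const

private theorem ce1l_open (d : ND) (n : ℤ) : IsOpen {g : GG d | g.2 = n} :=
  (isOpen_discrete {n}).preimage (ce1l_cont_snd d)

/-- the chart number `n` -/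
private def ce1l_chart (d : ND) (n : ℤ) : OpenPartialHomeomorph (GG d) d.V where
  toFun g := g.1
  invFun x := GG.mk d x n
  source := {g | g.2 = n}
  target := Set.univ
  map_source' := fun _ _ => Set.mem_univ _
  map_target' := fun _ _ => rfl
  left_inv' := fun g hg => Prod.ext rfl (show n = g.2 from Eq.symm hg)
  right_inv' := fun _ _ => rfl
  open_source := ce1l_open d n
  open_target := isOpen_univ
  continuousOn_toFun := (ce1l_cont_fst d).continuousOn
  continuousOn_invFun := (ce1l_cont_mk d n).continuousOn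

/-- the charted space structure -/
@[reducible] private def ce1l_charted (d : ND) : ChartedSpace d.V (GG d) where
  atlas := Set.range (ce1l_chart d)
  chartAt g := ce1l_chart d g.2
  mem_chart_source := fun _ => rfl
  chart_mem_atlas := fun g => ⟨g.2, rfl⟩

theorem exists_lieGroup (d : ND) : ∃ (_ : ChartedSpace d.V (GG d)),
    LieGroup (modelWithCornersSelf ℝ d.V) (⊤ : ℕ∞) (GG d) := by
  let _ := ce1l_charted d
  refine ⟨ce1l_charted d, ?_⟩
  have hman : IsManifold (modelWithCornersSelf ℝ d.V) ((⊤ : ℕ∞) : WithTop ℕ∞) (GG d) := by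
    refine isManifold_of_contDiffOn _ _ _ ?_
    rintro _ _ ⟨m, rfl⟩ ⟨n, rfl⟩
    exact contDiff_id.contDiffOn
  have hmax : ∀ n, ce1l_chart d n ∈ IsManifold.maximalAtlas (modelWithCornersSelf ℝ d.V)
      ((⊤ : ℕ∞) : WithTop ℕ∞) (GG d) := fun n => IsManifold.subset_maximalAtlas ⟨n, rfl⟩
  have hfst : ContMDiff (modelWithCornersSelf ℝ d.V) (modelWithCornersSelf ℝ d.V)
      ((⊤ : ℕ∞) : WithTop ℕ∞) (fun g : GG d => g.1) := by
    intro g
    exact contMDiffAt_of_mem_maximalAtlas (hmax g.2) (show g.2 = g.2 from rfl)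
  have hmk : ∀ n : ℤ, ContMDiff (modelWithCornersSelf ℝ d.V) (modelWithCornersSelf ℝ d.V)
      ((⊤ : ℕ∞) : WithTop ℕ∞) (fun x : d.V => GG.mk d x n) := by
    intro n x
    exact contMDiffAt_symm_of_mem_maximalAtlas (hmax n) (Set.mem_univ x)
  have hmul : ContMDiff ((modelWithCornersSelf ℝ d.V).prod (modelWithCornersSelf ℝ d.V))
      (modelWithCornersSelf ℝ d.V) ((⊤ : ℕ∞) : WithTop ℕ∞)
      (fun p : GG d × GG d => p.1 * p.2) := by
    intro p
    have h1 : ContDiff ℝ ((⊤ : ℕ∞) : WithTop ℕ∞)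
        (fun q : d.V × d.V => d.mul q.1 ((d.phi ^ p.1.2 : Equiv.Perm d.V) q.2)) :=
      d.smooth_mul.comp (contDiff_fst.prodMk ((contDiff_zpow_phi d p.1.2).comp contDiff_snd))
    have h2 : ContMDiff ((modelWithCornersSelf ℝ d.V).prod (modelWithCornersSelf ℝ d.V))
        (modelWithCornersSelf ℝ (d.V × d.V)) ((⊤ : ℕ∞) : WithTop ℕ∞)
        (fun q : GG d × GG d => ((q.1.1, q.2.1) : d.V × d.V)) :=
      (hfst.comp contMDiff_fst).prodMk_space (hfst.comp contMDiff_snd)
    have h3 := (hmk (p.1.2 + p.2.2)).comp (h1.contMDiff.comp h2)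
    refine (h3 p).congr_of_eventuallyEq ?_
    have h4 : ∀ᶠ q : GG d × GG d in 𝓝 p, q.1.2 = p.1.2 :=
      (((ce1l_open d p.1.2).preimage continuous_fst).mem_nhds (show p.1.2 = p.1.2 from rfl))
    have h5 : ∀ᶠ q : GG d × GG d in 𝓝 p, q.2.2 = p.2.2 :=
      (((ce1l_open d p.2.2).preimage continuous_snd).mem_nhds (show p.2.2 = p.2.2 from rfl))
    filter_upwards [h4, h5] with q h6 h7
    show (d.mul q.1.1 ((d.phi ^ q.1.2 : Equiv.Perm d.V) q.2.1), q.1.2 + q.2.2) =
      (d.mul q.1.1 ((d.phi ^ p.1.2 : Equiv.Perm d.V) q.2.1), p.1.2 + p.2.2)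
    rw [h6, h7]
  have hinv : ContMDiff (modelWithCornersSelf ℝ d.V) (modelWithCornersSelf ℝ d.V)
      ((⊤ : ℕ∞) : WithTop ℕ∞) (fun g : GG d => g⁻¹) := by
    intro g
    have h1 : ContDiff ℝ ((⊤ : ℕ∞) : WithTop ℕ∞)
        (fun x : d.V => (d.phi ^ (-g.2) : Equiv.Perm d.V) (d.inv x)) :=
      (contDiff_zpow_phi d (-g.2)).comp d.smooth_inv
    have h3 := (hmk (-g.2)).comp (h1.contMDiff.comp hfst)
    refine (h3 g).congr_of_eventuallyEq ?_
    have h4 : ∀ᶠ q : GG d in 𝓝 g, q.2 = g.2 := (ce1l_open d g.2).mem_nhds rfl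
    filter_upwards [h4] with q h6
    show ((d.phi ^ (-q.2) : Equiv.Perm d.V) (d.inv q.1), -q.2) =
      ((d.phi ^ (-g.2) : Equiv.Perm d.V) (d.inv q.1), -g.2)
    rw [h6]
  exact { contMDiff_mul := hmul, contMDiff_inv := hinv }

end Pool.Agent.HK820

end

/-! ### Part `CE3A` -/

section

/-!
# Part II, block CE3A: tools for the smoothing (parametric integrals, Haar measures, a weight)

* `param_int`: smoothness is local; near `p₀` choose an open set `s ∋ p₀` (interior of the given
  neighbourhood) and the compact set `k`. Apply `contDiffOn_convolution_right_with_param_comp` (Mathlib,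
  Analysis/Calculus/ContDiff/Convolution, no invariance of the measure is needed) with `v = 0`,
  `g p x = K (p, -x)` (which vanishes for `x ∉ -k`), `f` the given function and
  `L : W →L[ℝ] ℝ →L[ℝ] W` the flip of scalar multiplication
  (`(ContinuousLinearMap.lsmul ℝ ℝ).flip`): the convolution at `0` is
  `∫ t, g p (0 - t) • f t ∂μ = ∫ t, K (p, t) • f t ∂μ`. `n : ℕ∞` there is `⊤`.
* `exists_left_haar`: introduce a type synonym `VG d := d.V` with the group structure
  `mul`, `inv`, unit `0`; with the topology of `d.V` it is a locally compact topological group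
  (`FiniteDimensional.proper_real`); take `Measure.haar`.
* `exists_right_haar`: the image of the left Haar measure under `d.inv` (`Measure.inv`).
* `exists_weight`: a smooth bump function (`ContDiffBump` at `0`) divided by its integral, which is
  positive because open sets have positive measure.
-/

open MeasureTheory ProbabilityTheory Filter Topology
open scoped ComplexConjugate ENNReal

namespace Pool.Agent.HK820

theorem param_int {P E W : Type} [NormedAddCommGroup P] [NormedSpace ℝ P] [FiniteDimensional ℝ P]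
    [NormedAddCommGroup E] [NormedSpace ℝ E] [FiniteDimensional ℝ E] [NormedAddCommGroup W]
    [NormedSpace ℝ W] [CompleteSpace W] [MeasurableSpace E] [BorelSpace E] (μ : Measure E)
    [IsLocallyFiniteMeasure μ] (f : E → W) (hf : Continuous f) (K : P × E → ℝ)
    (hK : ContDiff ℝ (⊤ : ℕ∞) K)
    (hsupp : ∀ p₀ : P, ∃ s ∈ 𝓝 p₀, ∃ k : Set E, IsCompact k ∧
      ∀ p ∈ s, ∀ x, x ∉ k → K (p, x) = 0) :
    ContDiff ℝ (⊤ : ℕ∞) (fun p => ∫ x, K (p, x) • f x ∂μ) := by
  rw [contDiff_iff_contDiffAt]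
  intro p₀
  obtain ⟨s, hs, k, hk, hz⟩ := hsupp p₀
  have hloc : LocallyIntegrable f μ := by
    have : ProperSpace E := FiniteDimensional.proper_real E
    exact hf.locallyIntegrable
  have hg : ContDiff ℝ (⊤ : ℕ∞) (fun q : P × E => K (q.1, -q.2)) :=
    hK.comp (contDiff_fst.prodMk contDiff_snd.neg)
  have h1 := contDiffOn_convolution_right_with_param_comp (𝕜 := ℝ) (μ := μ) (n := (⊤ : ℕ∞))
    ((ContinuousLinearMap.lsmul ℝ ℝ : ℝ →L[ℝ] W →L[ℝ] W).flip) (s := interior s) (v := fun _ : P => (0 : E))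
    contDiffOn_const (f := f) (g := fun p x => K (p, -x)) (k := (fun x : E => -x) '' k) isOpen_interior
    (hk.image continuous_neg) (by
      intro p x hp hx
      refine hz p (interior_subset hp) (-x) fun hx' => hx ⟨-x, hx', neg_neg x⟩) hloc
    (hg.contDiffOn)
  have h2 := h1.contDiffAt (isOpen_interior.mem_nhds (mem_interior_iff_mem_nhds.2 hs))
  have h3 : (fun p => ∫ x, K (p, x) • f x ∂μ) =
      fun x => (convolution f ((fun p x => K (p, -x)) x)
        ((ContinuousLinearMap.lsmul ℝ ℝ : ℝ →L[ℝ] W →L[ℝ] W).flip) μ) ((fun _ : P => (0 : E)) x) := by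
    funext p
    rw [convolution_def]
    refine integral_congr_ae (Filter.Eventually.of_forall fun t => ?_)
    show K (p, t) • f t = K (p, -(0 - t)) • f t
    rw [zero_sub, neg_neg]
  rw [h3]
  exact h2

/-- Haar measure of a group law on a finite dimensional space -/
theorem ce3a_haar {V : Type} [NormedAddCommGroup V] [NormedSpace ℝ V] [FiniteDimensional ℝ V]
    [MeasurableSpace V] [BorelSpace V] (mul : V → V → V) (inv : V → V)
    (assoc : ∀ x y z, mul (mul x y) z = mul x (mul y z)) (zero_mul : ∀ x, mul 0 x = x)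
    (mul_zero : ∀ x, mul x 0 = x) (inv_mul : ∀ x, mul (inv x) x = 0)
    (cm : Continuous fun p : V × V => mul p.1 p.2) (ci : Continuous inv) :
    ∃ ν : Measure V, IsLocallyFiniteMeasure ν ∧ ν.IsOpenPosMeasure ∧ SigmaFinite ν ∧
      ∀ x, ν.map (mul x) = ν := by
  let _ : Group V :=
    { mul := mul
      one := 0
      inv := inv
      mul_assoc := assoc
      one_mul := zero_mul
      mul_one := mul_zero
      inv_mul_cancel := inv_mul }
  have : ContinuousMul V := ⟨cm⟩
  have : ContinuousInv V := ⟨ci⟩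
  have : IsTopologicalGroup V := {}
  have : ProperSpace V := FiniteDimensional.proper_real V
  refine ⟨Measure.haar, inferInstance, inferInstance, inferInstance, fun x => ?_⟩
  exact map_mul_left_eq_self (Measure.haar : Measure V) x

theorem exists_left_haar (d : ND) [MeasurableSpace d.V] [BorelSpace d.V] :
    ∃ ν : Measure d.V, IsLocallyFiniteMeasure ν ∧ ν.IsOpenPosMeasure ∧ SigmaFinite ν ∧
      ∀ x, ν.map (d.mul x) = ν :=
  ce3a_haar d.mul d.inv d.assoc d.zero_mul d.mul_zero d.inv_mul d.smooth_mul.continuous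
    d.smooth_inv.continuous

theorem exists_right_haar (d : ND) [MeasurableSpace d.V] [BorelSpace d.V] :
    ∃ ν : Measure d.V, IsLocallyFiniteMeasure ν ∧ ν.IsOpenPosMeasure ∧ SigmaFinite ν ∧
      ∀ x, ν.map (fun z => d.mul z x) = ν :=
  ce3a_haar (fun x y => d.mul y x) d.inv (fun x y z => (d.assoc z y x).symm) d.mul_zero d.zero_mul
    (GG.mul_inv d) (d.smooth_mul.continuous.comp (continuous_snd.prodMk continuous_fst))
    d.smooth_inv.continuous

theorem exists_weight (d : ND) [MeasurableSpace d.V] [BorelSpace d.V] (ν : Measure d.V)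
    [IsLocallyFiniteMeasure ν] [ν.IsOpenPosMeasure] :
    ∃ w : d.V → ℝ, ContDiff ℝ (⊤ : ℕ∞) w ∧ HasCompactSupport w ∧ ∫ x, w x ∂ν = 1 := by
  have : ProperSpace d.V := FiniteDimensional.proper_real d.V
  let f : ContDiffBump (0 : d.V) := ⟨1, 2, one_pos, one_lt_two⟩
  exact ⟨f.normed ν, f.contDiff_normed, f.hasCompactSupport_normed, f.integral_normed⟩

end Pool.Agent.HK820

end
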