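import Pool.Agent.Lib_MP_820dd4_hk.ZD
import Pool.Agent.Lib_MP_820dd4_hk.Ker2

/-! ### Part `Defs2` -/

section

open MeasureTheory ProbabilityTheory Filter Topology
open scoped ComplexConjugate ENNReal

namespace Pool.Agent.HK820

instance cubeInst {X : Type} [MeasurableSpace X] [StandardBorelSpace X] (μ : Measure X)
    [IsProbabilityMeasure μ] (T : X ≃ᵐ X) (ι : Type) [Fintype ι] (D : ℕ) :
    IsProbabilityMeasure (cube μ T ι D) := cube_prob μ T ι D

instance relIndInst {Y : Type} (m : MeasurableSpace Y) [mY : MeasurableSpace Y]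
    [StandardBorelSpace Y] (ν : Measure Y) [IsProbabilityMeasure ν] (ι : Type) [Fintype ι] :
    IsProbabilityMeasure (relInd m ν ι) := relInd_prob m ν ι

/-- unimodular eigenfunction -/
structure IsEig {P : Type} [MeasurableSpace P] (ν : Measure P) (S : P ≃ᵐ P) (ψ : P → ℂ) (c : ℂ) :
    Prop where
  meas : Measurable ψ
  norm : ∀ x, ‖ψ x‖ = 1
  c_norm : ‖c‖ = 1
  eig : ∀ᵐ x ∂ν, ψ (S x) = c * ψ x

/-- conditional independence of three σ-algebras over a fourth one -/
def CI3 {Q : Type} (y a b c : MeasurableSpace Q) [MeasurableSpace Q] (θ : Measure Q) : Prop :=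
  ∀ f g h : Q → ℂ, BMs a f → BMs b g → BMs c h →
    θ[fun q => f q * g q * h q | y] =ᵐ[θ] fun q => (θ[f | y]) q * (θ[g | y]) q * (θ[h | y]) q

/-- the σ-algebra on `I → X` generated by the coordinatewise pullbacks of `m` -/
@[reducible] def pwI {I X : Type} (m : MeasurableSpace X) : MeasurableSpace (I → X) :=
  ⨆ v : I, MeasurableSpace.comap (fun x : I → X => x v) m

/-- the σ-algebra on `I → X` generated by the coordinates in `J` -/
@[reducible] def genI {I X : Type} [MeasurableSpace X] (J : Set I) : MeasurableSpace (I → X) :=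
  ⨆ v : J, MeasurableSpace.comap (fun x : I → X => x v.1) inferInstance

/-- `P` has marginals `μ` and is relatively independent over the coordinatewise pullbacks of `m` -/
def RI {I X : Type} [Fintype I] (m : MeasurableSpace X) [MeasurableSpace X] (μ : Measure X)
    (P : Measure (I → X)) : Prop :=
  (∀ v, MeasurePreserving (fun x : I → X => x v) P μ) ∧
    ∀ f : I → X → ℂ, (∀ v, BM (f v)) →
      ∫ x, ∏ v, f v (x v) ∂P = ∫ x, ∏ v, (μ[f v | m]) (x v) ∂P

/-- the completion of `m` inside the ambient σ-algebra -/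
@[reducible] def cl {X : Type} (m : MeasurableSpace X) [MeasurableSpace X] (μ : Measure X) :
    MeasurableSpace X where
  MeasurableSet' s := MeasurableSet s ∧ ∃ t, MeasurableSet[m] t ∧ s =ᵐ[μ] t
  measurableSet_empty := ⟨MeasurableSet.empty, ∅, @MeasurableSet.empty _ m, by simp⟩
  measurableSet_compl := by
    rintro s ⟨h1, t, h2, h3⟩
    exact ⟨h1.compl, tᶜ, @MeasurableSet.compl _ _ m h2, h3.compl⟩
  measurableSet_iUnion := by
    intro f hf
    choose h1 B h2 h3 using hf
    refine ⟨MeasurableSet.iUnion h1, ⋃ i, B i, @MeasurableSet.iUnion _ _ m _ _ h2, ?_⟩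
    exact Filter.EventuallyEq.countable_iUnion h3

/-- `S` is an ergodic extension of `X` by `π` with a tower `m` of order `s` -/
structure Ext {X Q : Type} (m : MeasurableSpace Q) [MeasurableSpace X] [StandardBorelSpace X]
    [MeasurableSpace Q] [StandardBorelSpace Q] (μ : Measure X) (T : X ≃ᵐ X) (s : ℕ)
    (ν : Measure Q) (S : Q ≃ᵐ Q) (π : Q → X) : Prop where
  prob : IsProbabilityMeasure ν
  erg : Ergodic S ν
  fm : FMap ν S μ T π
  tow : TowAlg m ν S s

/-- structure theorem of order `s`: functions with nonzero seminorm correlate with towers -/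
def ST (s : ℕ) : Prop :=
  ∀ (X : Type) [MeasurableSpace X] [StandardBorelSpace X] (μ : Measure X)
    [IsProbabilityMeasure μ] (T : X ≃ᵐ X), Ergodic T μ → ∀ f : X → ℂ, BM f →
    gn μ T (s + 1) f ≠ 0 →
    ∃ (Q : Type) (m : MeasurableSpace Q) (_ : MeasurableSpace Q) (_ : StandardBorelSpace Q)
      (ν : Measure Q) (S : Q ≃ᵐ Q) (π : Q → X), Ext m μ T s ν S π ∧
      ¬ (ν[fun q => f (π q) | m] =ᵐ[ν] 0)

/-- approximation theorem of order `s`: finitely many functions of order `s` are approximated by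
functions measurable for a tower -/
def AP (s : ℕ) : Prop :=
  ∀ (X : Type) [MeasurableSpace X] [StandardBorelSpace X] (μ : Measure X)
    [IsProbabilityMeasure μ] (T : X ≃ᵐ X), Ergodic T μ → ∀ (n : ℕ) (f : Fin n → X → ℂ),
    (∀ i, BM (f i)) → (∀ i, AEM (Zalg μ T s) μ (f i)) → ∀ ε > 0,
    ∃ (Q : Type) (m : MeasurableSpace Q) (_ : MeasurableSpace Q) (_ : StandardBorelSpace Q)
      (ν : Measure Q) (S : Q ≃ᵐ Q) (π : Q → X), Ext m μ T s ν S π ∧
      ∀ i, ∫ q, ‖f i (π q) - (ν[fun q => f i (π q) | m]) q‖ ^ 2 ∂ν < ε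

end Pool.Agent.HK820

end

/-! ### Part `FA` -/

section

open MeasureTheory ProbabilityTheory Filter Topology
open scoped ComplexConjugate ENNReal

namespace Pool.Agent.HK820

/-! ### Faces -/

/-- faces of `ι^D` of codimension `i` -/
inductive Face (ι : Type) : (D : ℕ) → ℕ → Set (Fin D → ι) → Prop
  | nil : Face ι 0 0 Set.univ
  | all {D i : ℕ} {F : Set (Fin D → ι)} : Face ι D i F → Face ι (D + 1) i {v | Fin.tail v ∈ F}
  | one {D i : ℕ} {F : Set (Fin D → ι)} (c : ι) : Face ι D i F →
      Face ι (D + 1) (i + 1) {v | v 0 = c ∧ Fin.tail v ∈ F}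

open Classical in
/-- the transformation `g` placed on the vertices in `F` -/
noncomputable def tF {X ι : Type} (D : ℕ) (g : X → X) (F : Set (Fin D → ι)) (x : Arr ι X D) :
    Arr ι X D := fun v => if v ∈ F then g (x v) else x v

/-- the whole cube is a face of codimension `0` -/
theorem Face.univ (ι : Type) (D : ℕ) : Face ι D 0 Set.univ := by
  induction D with
  | zero => exact Face.nil
  | succ D ih =>
    have h := Face.all ih
    have h1 : {v : Fin (D + 1) → ι | Fin.tail v ∈ (Set.univ : Set (Fin D → ι))} = Set.univ :=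
      Set.eq_univ_of_forall fun _ => Set.mem_univ _
    rwa [h1] at h

/-- a vertex is a face of codimension `D` -/
theorem Face.vertex {ι : Type} {D : ℕ} (v : Fin D → ι) : Face ι D D {v} := by
  induction D with
  | zero =>
    have h1 : ({v} : Set (Fin 0 → ι)) = Set.univ :=
      Set.eq_univ_of_forall fun _ => Subsingleton.elim _ _
    rw [h1]
    exact Face.nil
  | succ D ih =>
    have h := Face.one (v 0) (ih (Fin.tail v))
    have h1 : {w : Fin (D + 1) → ι | w 0 = v 0 ∧ Fin.tail w ∈ ({Fin.tail v} : Set (Fin D → ι))} =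
        {v} := by
      ext w
      constructor
      · rintro ⟨h2, h3⟩
        rw [Set.mem_singleton_iff] at h3 ⊢
        rw [← Fin.cons_self_tail w, ← Fin.cons_self_tail v, h2, h3]
      · intro h2
        rw [Set.mem_singleton_iff] at h2
        rw [h2]
        exact ⟨rfl, rfl⟩
    rwa [h1] at h

theorem Face.codim_le {ι : Type} {D i : ℕ} {F : Set (Fin D → ι)} (h : Face ι D i F) : i ≤ D := by
  induction h with
  | nil => exact le_rfl
  | all _ ih => omega
  | one _ _ ih => omega

theorem tF_univ {X ι : Type} (D : ℕ) (g : X → X) (x : Arr ι X D) :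
    tF D g Set.univ x = fun v => g (x v) := by
  funext v
  exact if_pos (Set.mem_univ v)

theorem tF_comp {X ι : Type} (D : ℕ) (g h : X → X) (F : Set (Fin D → ι)) (x : Arr ι X D) :
    tF D g F (tF D h F x) = tF D (fun a => g (h a)) F x := by
  funext v
  by_cases hv : v ∈ F
  · simp [tF, hv]
  · simp [tF, hv]

theorem tF_id {X ι : Type} (D : ℕ) (F : Set (Fin D → ι)) (x : Arr ι X D) :
    tF D (fun a => a) F x = x := by
  funext v
  by_cases hv : v ∈ F
  · simp [tF, hv]
  · simp [tF, hv]

theorem measurable_tF {X ι : Type} [MeasurableSpace X] (D : ℕ) {g : X → X} (hg : Measurable g)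
    (F : Set (Fin D → ι)) : Measurable (tF D g F) := by
  refine measurable_pi_lambda _ fun v => ?_
  by_cases hv : v ∈ F
  · simp only [tF, hv, if_true]
    exact hg.comp (measurable_pi_apply v)
  · simp only [tF, hv, if_false]
    exact measurable_pi_apply v

/-- commutation with the diagonal transformation, if `S (g a) = g' (S a)` -/
theorem tF_tArr {X ι : Type} [MeasurableSpace X] (D : ℕ) (S : X ≃ᵐ X) {g g' : X → X}
    (h : ∀ a, S (g a) = g' (S a)) (F : Set (Fin D → ι)) (x : Arr ι X D) :
    tArr S ι D (tF D g F x) = tF D g' F (tArr S ι D x) := by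
  funext v
  have h1 : ∀ y : Arr ι X D, tArr S ι D y v = S (y v) := fun _ => rfl
  rw [h1]
  by_cases hv : v ∈ F
  · simp only [tF, hv, if_true, h1, h]
  · simp only [tF, hv, if_false, h1]

/-- the slices of a transformed array -/
theorem slice_tF_all {X ι : Type} (D : ℕ) (g : X → X) (F : Set (Fin D → ι))
    (x : Arr ι X (D + 1)) (i : ι) :
    slice (tF (D + 1) g {v | Fin.tail v ∈ F} x) i = tF D g F (slice x i) := by
  funext v
  have h1 : (Fin.cons i v : Fin (D + 1) → ι) ∈ {v : Fin (D + 1) → ι | Fin.tail v ∈ F} ↔ v ∈ F := by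
    rw [Set.mem_ofPred_eq, Fin.tail_cons]
  unfold slice tF
  by_cases hv : v ∈ F
  · rw [if_pos hv]
    exact if_pos (h1.2 hv)
  · rw [if_neg hv]
    exact if_neg (fun h => hv (h1.1 h))

open Classical in
theorem slice_tF_one {X ι : Type} (D : ℕ) (g : X → X) (F : Set (Fin D → ι)) (c : ι)
    (x : Arr ι X (D + 1)) (i : ι) :
    slice (tF (D + 1) g {v | v 0 = c ∧ Fin.tail v ∈ F} x) i =
      if i = c then tF D g F (slice x i) else slice x i := by
  funext v
  have h1 : (Fin.cons i v : Fin (D + 1) → ι) ∈ {v : Fin (D + 1) → ι | v 0 = c ∧ Fin.tail v ∈ F} ↔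
      i = c ∧ v ∈ F := by
    rw [Set.mem_ofPred_eq, Fin.tail_cons, Fin.cons_zero]
  by_cases hi : i = c
  · rw [if_pos hi]
    simp only [slice, tF, h1]
    by_cases hv : v ∈ F
    · rw [if_pos ⟨hi, hv⟩, if_pos hv]
    · rw [if_neg (fun h => hv h.2), if_neg hv]
  · rw [if_neg hi]
    simp only [slice, tF, h1]
    rw [if_neg (fun h => hi h.1)]

/-- joint continuity: `(g, x) ↦ tF (g • ·) F x` -/
theorem continuous_tF {G X ι : Type} [TopologicalSpace G] [TopologicalSpace X] [SMul G X]
    [ContinuousSMul G X] (D : ℕ) (F : Set (Fin D → ι)) :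
    Continuous (fun p : G × Arr ι X D => tF D (fun a => p.1 • a) F p.2) := by
  refine continuous_pi fun v => ?_
  by_cases hv : v ∈ F
  · simp only [tF, hv, if_true]
    exact continuous_fst.smul ((continuous_apply v).comp continuous_snd)
  · simp only [tF, hv, if_false]
    exact (continuous_apply v).comp continuous_snd

/-- The chain of subgroups `M` (think of the lower central series): path connected from index `1`
on, commutators go down, and `M (j + 1)` is generated by the commutators of `M 1` and `τ` with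
`M j`. -/
structure Chain {G : Type} [Group G] [TopologicalSpace G] (τ : G) (M : ℕ → Subgroup G) : Prop where
  zero : M 0 = M 1
  anti : ∀ j, M (j + 1) ≤ M j
  path : ∀ j, 1 ≤ j → ∀ c ∈ M j, JoinedIn (M j : Set G) 1 c
  comm : ∀ j, 1 ≤ j → ∀ c ∈ M j, ∀ g : G, g * c * g⁻¹ * c⁻¹ ∈ M (j + 1)
  gen : ∀ j, 1 ≤ j → ∀ H : Subgroup G,
    (∀ g : G, (g ∈ M 1 ∨ g = τ) → ∀ b ∈ M j, g * b * g⁻¹ * b⁻¹ ∈ H) → M (j + 1) ≤ H
  fin : ∃ c, M c = ⊥

end Pool.Agent.HK820

end
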