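import Pool.Agent.Lib_MP_820dd4_hk.BasE

open MeasureTheory ProbabilityTheory Filter Topology
open scoped ComplexConjugate ENNReal

namespace Pool.Agent.HK820

/-- the π-system of intersections -/
private def GEN_pi {X ι : Type} (m : ι → MeasurableSpace X) : Set (Set X) :=
  {t | ∃ s : ι → Set X, (∀ i, MeasurableSet[m i] (s i)) ∧ t = ⋂ i, s i}

private theorem GEN_isPi {X ι : Type} (m : ι → MeasurableSpace X) : IsPiSystem (GEN_pi m) := by
  rintro _ ⟨s, hs, rfl⟩ _ ⟨t, ht, rfl⟩ _
  refine ⟨fun i => s i ∩ t i, fun i => @MeasurableSet.inter _ (m i) _ _ (hs i) (ht i), ?_⟩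
  rw [Set.iInter_inter_distrib]

private theorem GEN_gen {X ι : Type} [Finite ι] (m : ι → MeasurableSpace X) :
    (⨆ i, m i) = MeasurableSpace.generateFrom (GEN_pi m) := by
  classical
  apply le_antisymm
  · refine iSup_le fun i s hs => ?_
    refine MeasurableSpace.measurableSet_generateFrom
      ⟨fun j => if j = i then s else Set.univ, fun j => ?_, ?_⟩
    · by_cases hj : j = i
      · subst hj
        simpa using hs
      · simp only [hj, if_false]
        exact @MeasurableSet.univ _ (m j)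
    · ext x
      simp only [Set.mem_iInter]
      constructor
      · intro hx j
        by_cases hj : j = i
        · simpa [hj] using hx
        · simp [hj]
      · intro hx
        simpa using hx i
  · refine MeasurableSpace.generateFrom_le ?_
    rintro _ ⟨s, hs, rfl⟩
    refine @MeasurableSet.iInter _ _ (⨆ i, m i) _ _ fun i => ?_
    exact le_iSup m i _ (hs i)

private theorem GEN_prod_ind {X ι : Type} [Fintype ι] (s : ι → Set X) (x : X) :
    ∏ i, (s i).indicator (fun _ => (1 : ℂ)) x = (⋂ i, s i).indicator (fun _ => (1 : ℂ)) x := by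
  classical
  by_cases hx : x ∈ ⋂ i, s i
  · rw [Set.indicator_of_mem hx]
    refine Finset.prod_eq_one fun i _ => ?_
    rw [Set.indicator_of_mem (Set.mem_iInter.1 hx i)]
  · rw [Set.indicator_of_notMem hx]
    rw [Set.mem_iInter, not_forall] at hx
    obtain ⟨i, hi⟩ := hx
    exact Finset.prod_eq_zero (Finset.mem_univ i) (Set.indicator_of_notMem hi _)

private theorem GEN_bms_ind {X : Type} (m : MeasurableSpace X) {s : Set X}
    (hs : MeasurableSet[m] s) : BMs m (s.indicator (fun _ => (1 : ℂ))) :=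
  (BMs.const m 1).indicator hs

/-- **GEN1.** A bounded function orthogonal to the products of bounded functions measurable with
respect to the members of a finite family of σ-algebras is orthogonal to their supremum.

Proof. The sets `⋂ i, s i`, `s i` measurable for `m i`, form a π-system which generates `⨆ i, m i`
(`generateFrom_piiUnionInter_measurableSet`, or by hand). The collection of sets `s` measurable for
`⨆ i, m i` with `∫_s f = 0` contains this π-system (products of indicators), and it is a λ-system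
(`MeasurableSpace.induction_on_inter`). Hence `∫_s f = 0` for all `s` in `⨆ i, m i`, so
`μ[f | ⨆ i, m i] = 0` (`ae_eq_condExp_of_forall_setIntegral_eq`). -/
theorem condExp_iSup_zero {X ι : Type} [Fintype ι] (m : ι → MeasurableSpace X)
    [mX : MeasurableSpace X] (μ : Measure X) [IsProbabilityMeasure μ] (hm : ∀ i, m i ≤ mX)
    {f : X → ℂ} (hf : BM f)
    (H : ∀ g : ι → X → ℂ, (∀ i, BMs (m i) (g i)) → ∫ x, f x * ∏ i, g i x ∂μ = 0) :
    μ[f | ⨆ i, m i] =ᵐ[μ] 0 := by
  have hle : (⨆ i, m i) ≤ mX := iSup_le hm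
  have hfi : Integrable f μ := hf.integrable μ
  have huniv : ∫ x, f x ∂μ = 0 := by
    have := H (fun _ _ => 1) (fun i => BMs.const (m i) 1)
    simpa using this
  have key : ∀ t, MeasurableSet[⨆ i, m i] t → ∫ x in t, f x ∂μ = 0 := by
    refine MeasurableSpace.induction_on_inter (m := ⨆ i, m i) (C := fun t _ => ∫ x in t, f x ∂μ = 0)
      (GEN_gen m) (GEN_isPi m) (by simp) ?_ ?_ ?_
    · rintro _ ⟨s, hs, rfl⟩
      have h1 := H (fun i => (s i).indicator (fun _ => (1 : ℂ))) (fun i => GEN_bms_ind (m i) (hs i))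
      have hms : MeasurableSet (⋂ i, s i) := MeasurableSet.iInter fun i => hm i _ (hs i)
      rw [← integral_indicator hms, ← h1]
      refine integral_congr_ae (Eventually.of_forall fun x => ?_)
      simp only [GEN_prod_ind]
      by_cases hx : x ∈ ⋂ i, s i
      · rw [Set.indicator_of_mem hx, Set.indicator_of_mem hx, mul_one]
      · rw [Set.indicator_of_notMem hx, Set.indicator_of_notMem hx, mul_zero]
    · intro t ht h0
      have h1 := integral_add_compl (hle t ht) hfi
      rw [h0, huniv, zero_add] at h1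
      exact h1
    · intro g hd hg h0
      rw [integral_iUnion (fun i => hle _ (hg i)) hd hfi.integrableOn]
      simp [h0]
  symm
  refine ae_eq_condExp_of_forall_setIntegral_eq hle hfi (fun s _ _ => ?_) (fun s hs _ => ?_) ?_
  · exact integrableOn_zero
  · rw [key s hs]
    simp
  · exact aestronglyMeasurable_const

/-! ### Approximation -/

/-- finite sums of products -/
private def GEN_Q {X ι : Type} [Fintype ι] (m : ι → MeasurableSpace X) (h : X → ℂ) : Prop :=
  ∃ (n : ℕ) (g : Fin n → ι → X → ℂ), (∀ l i, BMs (m i) (g l i)) ∧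
    ∀ x, h x = ∑ l, ∏ i, g l i x

private theorem GEN_Q.add {X ι : Type} [Fintype ι] {m : ι → MeasurableSpace X} {h h' : X → ℂ}
    (H : GEN_Q m h) (H' : GEN_Q m h') : GEN_Q m (fun x => h x + h' x) := by
  obtain ⟨n, g, hg, he⟩ := H
  obtain ⟨n', g', hg', he'⟩ := H'
  refine ⟨n + n', Fin.append g g', fun l i => ?_, fun x => ?_⟩
  · refine Fin.addCases (fun j => ?_) (fun j => ?_) l
    · rw [Fin.append_left]
      exact hg j i
    · rw [Fin.append_right]
      exact hg' j i
  · show h x + h' x = _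
    rw [Fin.sum_univ_add, he, he']
    simp only [Fin.append_left, Fin.append_right]

private theorem GEN_Q.smul {X ι : Type} [Fintype ι] [Nonempty ι] {m : ι → MeasurableSpace X}
    {h : X → ℂ} (H : GEN_Q m h) (c : ℂ) : GEN_Q m (fun x => c * h x) := by
  classical
  obtain ⟨n, g, hg, he⟩ := H
  obtain ⟨i₀⟩ := ‹Nonempty ι›
  refine ⟨n, fun l i x => (if i = i₀ then c else 1) * g l i x, fun l i => ?_, fun x => ?_⟩
  · exact (BMs.const (m i) _).mul (hg l i)
  · show c * h x = _
    rw [he, Finset.mul_sum]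
    refine Finset.sum_congr rfl fun l _ => ?_
    rw [Finset.prod_mul_distrib, Finset.prod_ite_eq' Finset.univ i₀ (fun _ => c)]
    simp

private theorem GEN_Q.bm {X ι : Type} [Fintype ι] {m : ι → MeasurableSpace X}
    [mX : MeasurableSpace X] (hm : ∀ i, m i ≤ mX) {h : X → ℂ} (H : GEN_Q m h) : BM h := by
  obtain ⟨n, g, hg, he⟩ := H
  have h1 : BM (fun x => ∑ l, ∏ i, g l i x) :=
    BMs.sum Finset.univ fun l => BMs.prod Finset.univ fun i => (hg l i).mono (hm i)
  have h2 : h = fun x => ∑ l, ∏ i, g l i x := funext he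
  rw [h2]
  exact h1

/-- approximable functions -/
private def GEN_A {X ι : Type} [Fintype ι] (m : ι → MeasurableSpace X) [MeasurableSpace X]
    (μ : Measure X) (f : X → ℂ) : Prop :=
  ∀ ε > 0, ∃ h, GEN_Q m h ∧ ∫ x, ‖f x - h x‖ ^ 2 ∂μ < ε

private theorem GEN_int {X : Type} [MeasurableSpace X] (μ : Measure X) [IsProbabilityMeasure μ]
    {f g : X → ℂ} (hf : BM f) (hg : BM g) : Integrable (fun x => ‖f x - g x‖ ^ 2) μ := by
  have h1 : BM (fun x => f x - g x) := BMs.sub hf hg
  obtain ⟨hm, C, hC⟩ := h1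
  refine Integrable.of_bound (hm.norm.pow_const 2).aestronglyMeasurable (C ^ 2)
    (Eventually.of_forall fun x => ?_)
  rw [Real.norm_eq_abs, abs_of_nonneg (by positivity)]
  exact pow_le_pow_left₀ (norm_nonneg _) (hC x) 2

private theorem GEN_tri {X : Type} [MeasurableSpace X] (μ : Measure X) [IsProbabilityMeasure μ]
    {f g h : X → ℂ} (hf : BM f) (hg : BM g) (hh : BM h) :
    ∫ x, ‖f x - h x‖ ^ 2 ∂μ ≤ 2 * ∫ x, ‖f x - g x‖ ^ 2 ∂μ + 2 * ∫ x, ‖g x - h x‖ ^ 2 ∂μ := by
  rw [← integral_const_mul, ← integral_const_mul, ← integral_add ((GEN_int μ hf hg).const_mul 2)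
    ((GEN_int μ hg hh).const_mul 2)]
  refine integral_mono (GEN_int μ hf hh)
    (((GEN_int μ hf hg).const_mul 2).add ((GEN_int μ hg hh).const_mul 2)) fun x => ?_
  have h1 : f x - h x = (f x - g x) + (g x - h x) := by ring
  have h2 : ‖f x - h x‖ ≤ ‖f x - g x‖ + ‖g x - h x‖ := by
    rw [h1]
    exact norm_add_le _ _
  have h3 := pow_le_pow_left₀ (norm_nonneg _) h2 2
  show ‖f x - h x‖ ^ 2 ≤ 2 * ‖f x - g x‖ ^ 2 + 2 * ‖g x - h x‖ ^ 2
  nlinarith [sq_nonneg (‖f x - g x‖ - ‖g x - h x‖)]

private theorem GEN_A.of_Q {X ι : Type} [Fintype ι] {m : ι → MeasurableSpace X}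
    [MeasurableSpace X] {μ : Measure X} {h : X → ℂ} (H : GEN_Q m h) : GEN_A m μ h :=
  fun ε hε => ⟨h, H, by simpa using hε⟩

private theorem GEN_A.lim {X ι : Type} [Fintype ι] {m : ι → MeasurableSpace X}
    [mX : MeasurableSpace X] (hm : ∀ i, m i ≤ mX) {μ : Measure X} [IsProbabilityMeasure μ]
    {f : X → ℂ} (hf : BM f)
    (H : ∀ ε > 0, ∃ f', BM f' ∧ GEN_A m μ f' ∧ ∫ x, ‖f x - f' x‖ ^ 2 ∂μ < ε) : GEN_A m μ f := by
  intro ε hε
  obtain ⟨f', hf', hA, h1⟩ := H (ε / 4) (by positivity)
  obtain ⟨h, hQ, h2⟩ := hA (ε / 4) (by positivity)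
  refine ⟨h, hQ, (GEN_tri μ hf hf' (hQ.bm hm)).trans_lt ?_⟩
  linarith

private theorem GEN_A.add {X ι : Type} [Fintype ι] {m : ι → MeasurableSpace X}
    [mX : MeasurableSpace X] (hm : ∀ i, m i ≤ mX) {μ : Measure X} [IsProbabilityMeasure μ]
    {f g : X → ℂ} (hf : BM f) (hg : BM g) (Hf : GEN_A m μ f) (Hg : GEN_A m μ g) :
    GEN_A m μ (fun x => f x + g x) := by
  intro ε hε
  obtain ⟨h, hQ, h1⟩ := Hf (ε / 4) (by positivity)
  obtain ⟨h', hQ', h1'⟩ := Hg (ε / 4) (by positivity)
  refine ⟨_, hQ.add hQ', ?_⟩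
  have a1 : BM (fun x => f x + g x) := BMs.add hf hg
  have a2 : BM (fun x => h x + g x) := BMs.add (hQ.bm hm) hg
  have a3 : BM (fun x => h x + h' x) := BMs.add (hQ.bm hm) (hQ'.bm hm)
  have h2 := GEN_tri μ a1 a2 a3
  have e1 : ∫ x, ‖(f x + g x) - (h x + g x)‖ ^ 2 ∂μ = ∫ x, ‖f x - h x‖ ^ 2 ∂μ := by
    refine integral_congr_ae (Eventually.of_forall fun x => ?_)
    simp only [add_sub_add_right_eq_sub]
  have e2 : ∫ x, ‖(h x + g x) - (h x + h' x)‖ ^ 2 ∂μ = ∫ x, ‖g x - h' x‖ ^ 2 ∂μ := by
    refine integral_congr_ae (Eventually.of_forall fun x => ?_)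
    simp only [add_sub_add_left_eq_sub]
  rw [e1, e2] at h2
  refine h2.trans_lt ?_
  linarith

private theorem GEN_A.smul {X ι : Type} [Fintype ι] [Nonempty ι] {m : ι → MeasurableSpace X}
    [MeasurableSpace X] {μ : Measure X} {f : X → ℂ} (Hf : GEN_A m μ f) (c : ℂ) :
    GEN_A m μ (fun x => c * f x) := by
  intro ε hε
  obtain ⟨h, hQ, h1⟩ := Hf (ε / (‖c‖ ^ 2 + 1)) (by positivity)
  refine ⟨_, hQ.smul c, ?_⟩
  have e1 : ∫ x, ‖c * f x - c * h x‖ ^ 2 ∂μ = ‖c‖ ^ 2 * ∫ x, ‖f x - h x‖ ^ 2 ∂μ := by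
    rw [← integral_const_mul]
    refine integral_congr_ae (Eventually.of_forall fun x => ?_)
    simp only [← mul_sub, norm_mul, mul_pow]
  rw [e1]
  have h0 : 0 ≤ ∫ x, ‖f x - h x‖ ^ 2 ∂μ := integral_nonneg fun x => by positivity
  rw [lt_div_iff₀ (by positivity)] at h1
  nlinarith [sq_nonneg ‖c‖]

private theorem GEN_A.finsum {X ι : Type} [Fintype ι] {m : ι → MeasurableSpace X}
    [mX : MeasurableSpace X] (hm : ∀ i, m i ≤ mX) {μ : Measure X} [IsProbabilityMeasure μ]
    {f : ℕ → X → ℂ} (hf : ∀ n, BM (f n)) (H : ∀ n, GEN_A m μ (f n)) (N : ℕ) :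
    GEN_A m μ (fun x => ∑ n ∈ Finset.range N, f n x) := by
  induction N with
  | zero =>
    simp only [Finset.range_zero, Finset.sum_empty]
    exact GEN_A.of_Q ⟨0, fun l => l.elim0, fun l => l.elim0, fun x => by simp⟩
  | succ N ih =>
    have h1 : (fun x => ∑ n ∈ Finset.range (N + 1), f n x) =
        fun x => (∑ n ∈ Finset.range N, f n x) + f N x := by
      funext x
      rw [Finset.sum_range_succ]
    rw [h1]
    exact GEN_A.add hm (BMs.sum _ fun n => hf n) (hf N) ih (H N)

private theorem GEN_A.ind {X ι : Type} [Fintype ι] [Nonempty ι] {m : ι → MeasurableSpace X}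
    [mX : MeasurableSpace X] (hm : ∀ i, m i ≤ mX) {μ : Measure X} [IsProbabilityMeasure μ]
    : ∀ t : Set X, MeasurableSet[⨆ i, m i] t → GEN_A m μ (t.indicator (fun _ => (1 : ℂ))) := by
  have hle : (⨆ i, m i) ≤ mX := iSup_le hm
  refine MeasurableSpace.induction_on_inter (m := ⨆ i, m i)
    (C := fun t _ => GEN_A m μ (t.indicator (fun _ => (1 : ℂ)))) (GEN_gen m) (GEN_isPi m) ?_ ?_ ?_ ?_
  · exact GEN_A.of_Q ⟨0, fun l => l.elim0, fun l => l.elim0, fun x => by simp⟩
  · rintro _ ⟨s, hs, rfl⟩
    refine GEN_A.of_Q ⟨1, fun _ i => (s i).indicator (fun _ => (1 : ℂ)),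
      fun _ i => GEN_bms_ind (m i) (hs i), fun x => ?_⟩
    rw [Fin.sum_univ_one, GEN_prod_ind]
  · intro t ht hA
    have h1 : (tᶜ.indicator (fun _ => (1 : ℂ))) =
        fun x => 1 + (-1) * t.indicator (fun _ => (1 : ℂ)) x := by
      funext x
      by_cases hx : x ∈ t
      · rw [Set.indicator_of_notMem (by simpa using hx), Set.indicator_of_mem hx]
        ring
      · rw [Set.indicator_of_mem (by simpa using hx), Set.indicator_of_notMem hx]
        ring
    rw [h1]
    have hb : BM (t.indicator (fun _ => (1 : ℂ))) := GEN_bms_ind mX (hle t ht)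
    refine GEN_A.add hm (BMs.const mX 1) ((BMs.const mX (-1)).mul hb) ?_ (hA.smul (-1))
    exact GEN_A.of_Q ⟨1, fun _ _ _ => 1, fun _ i => BMs.const (m i) 1, fun x => by simp⟩
  · intro s hd hs hA
    have hb : ∀ n, BM ((s n).indicator (fun _ => (1 : ℂ))) := fun n => GEN_bms_ind mX (hle _ (hs n))
    have hbU : BM ((⋃ n, s n).indicator (fun _ => (1 : ℂ))) :=
      GEN_bms_ind mX (MeasurableSet.iUnion fun n => hle _ (hs n))
    refine GEN_A.lim hm hbU fun ε hε => ?_
    have hpt : ∀ (N : ℕ) (x : X), ∑ n ∈ Finset.range N, (s n).indicator (fun _ => (1 : ℂ)) x =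
        (⋃ n ∈ Finset.range N, s n).indicator (fun _ => (1 : ℂ)) x := by
      intro N x
      by_cases hx : ∃ n ∈ Finset.range N, x ∈ s n
      · obtain ⟨n, hn, hxn⟩ := hx
        rw [Set.indicator_of_mem (Set.mem_iUnion₂.2 ⟨n, hn, hxn⟩),
          Finset.sum_eq_single n (fun k _ hk => ?_) (fun h => absurd hn h),
          Set.indicator_of_mem hxn]
        refine Set.indicator_of_notMem (fun hxk => ?_) _
        exact Set.disjoint_left.1 (hd hk) hxk hxn
      · have h1 : x ∉ ⋃ n ∈ Finset.range N, s n := fun h => by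
          obtain ⟨n, hn, hxn⟩ := Set.mem_iUnion₂.1 h
          exact hx ⟨n, hn, hxn⟩
        rw [Set.indicator_of_notMem h1]
        refine Finset.sum_eq_zero fun n hn => Set.indicator_of_notMem (fun hxn => ?_) _
        exact hx ⟨n, hn, hxn⟩
    have hlim : Tendsto (fun N : ℕ => ∫ x, ‖(⋃ n, s n).indicator (fun _ => (1 : ℂ)) x -
        ∑ n ∈ Finset.range N, (s n).indicator (fun _ => (1 : ℂ)) x‖ ^ 2 ∂μ) atTop
        (𝓝 (∫ _, (0 : ℝ) ∂μ)) := by
      refine tendsto_integral_of_dominated_convergence (fun _ => (4 : ℝ)) (fun N => ?_)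
        (integrable_const _) (fun N => Eventually.of_forall fun x => ?_)
        (Eventually.of_forall fun x => ?_)
      · exact (GEN_int μ hbU (BMs.sum (Finset.range N) hb)).aestronglyMeasurable
      · rw [hpt, Real.norm_eq_abs, abs_of_nonneg (by positivity)]
        have h1 : ∀ t : Set X, ‖t.indicator (fun _ => (1 : ℂ)) x‖ ≤ 1 := by
          intro t
          by_cases hx : x ∈ t
          · rw [Set.indicator_of_mem hx, norm_one]
          · rw [Set.indicator_of_notMem hx, norm_zero]
            exact zero_le_one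
        have h2 := (norm_sub_le ((⋃ n, s n).indicator (fun _ => (1 : ℂ)) x)
          ((⋃ n ∈ Finset.range N, s n).indicator (fun _ => (1 : ℂ)) x)).trans
          (add_le_add (h1 _) (h1 _))
        have h3 := pow_le_pow_left₀ (norm_nonneg _) h2 2
        norm_num at h3 ⊢
        exact h3
      · refine tendsto_const_nhds.congr' ?_
        by_cases hx : ∃ n, x ∈ s n
        · obtain ⟨n, hn⟩ := hx
          filter_upwards [eventually_gt_atTop n] with N hN
          rw [hpt, Set.indicator_of_mem (Set.mem_iUnion.2 ⟨n, hn⟩),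
            Set.indicator_of_mem (Set.mem_iUnion₂.2 ⟨n, Finset.mem_range.2 hN, hn⟩)]
          simp
        · refine Eventually.of_forall fun N => ?_
          have h1 : x ∉ ⋃ n, s n := fun h => hx (Set.mem_iUnion.1 h)
          have h2 : x ∉ ⋃ n ∈ Finset.range N, s n := fun h => by
            obtain ⟨n, hn, hxn⟩ := Set.mem_iUnion₂.1 h
            exact hx ⟨n, hxn⟩
          beta_reduce
          rw [hpt, Set.indicator_of_notMem h1, Set.indicator_of_notMem h2]
          simp
    rw [integral_zero] at hlim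
    obtain ⟨N, hN⟩ := (hlim.eventually (gt_mem_nhds hε)).exists
    exact ⟨_, BMs.sum (Finset.range N) hb, GEN_A.finsum hm hb hA N, hN⟩

/-- **GEN2.** Bounded functions measurable with respect to a finite supremum of σ-algebras are
approximated in `L²` by finite sums of products.

Proof. The collection of sets measurable for `⨆ i, m i` whose indicator is approximable contains
the π-system of intersections and is closed under complements and countable disjoint unions; so it
is everything, and bounded measurable functions are limits of simple functions. (`ι` must be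
nonempty: otherwise the sums of products are the natural numbers.) -/
theorem approx_iSup {X ι : Type} [Fintype ι] [Nonempty ι] (m : ι → MeasurableSpace X)
    [mX : MeasurableSpace X] (μ : Measure X) [IsProbabilityMeasure μ] (hm : ∀ i, m i ≤ mX)
    {f : X → ℂ} (hf : BMs (⨆ i, m i) f) {ε : ℝ} (hε : 0 < ε) :
    ∃ (n : ℕ) (g : Fin n → ι → X → ℂ), (∀ l i, BMs (m i) (g l i)) ∧
      ∫ x, ‖f x - ∑ l, ∏ i, g l i x‖ ^ 2 ∂μ < ε := by
  have hle : (⨆ i, m i) ≤ mX := iSup_le hm
  have hfB : BM f := hf.mono hle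
  obtain ⟨hfm, C, hC⟩ := hf
  have hbs : ∀ F : @SimpleFunc X (⨆ i, m i) ℂ, BM (fun x => F x) := by
    intro F
    obtain ⟨c, hc⟩ := @SimpleFunc.exists_forall_norm_le X ℂ (⨆ i, m i) _ F
    exact ⟨(@SimpleFunc.measurable X ℂ (⨆ i, m i) _ F).mono hle le_rfl, c, hc⟩
  have hA : GEN_A m μ f := by
    refine GEN_A.lim hm hfB fun δ hδ => ?_
    have hsm : @StronglyMeasurable X ℂ _ (⨆ i, m i) f := hfm.stronglyMeasurable
    have hC0 : ∀ x, 0 ≤ C := fun x => (norm_nonneg _).trans (hC x)
    have hlim : Tendsto (fun n : ℕ => ∫ x, ‖f x - (hsm.approxBounded C n) x‖ ^ 2 ∂μ) atTop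
        (𝓝 (∫ _, (0 : ℝ) ∂μ)) := by
      refine tendsto_integral_of_dominated_convergence (fun _ => ((C + C) ^ 2 : ℝ)) (fun n => ?_)
        (integrable_const _) (fun n => Eventually.of_forall fun x => ?_)
        (Eventually.of_forall fun x => ?_)
      · exact (GEN_int μ hfB (hbs _)).aestronglyMeasurable
      · rw [Real.norm_eq_abs, abs_of_nonneg (by positivity)]
        refine pow_le_pow_left₀ (norm_nonneg _) ?_ 2
        refine (norm_sub_le _ _).trans (add_le_add (hC x) ?_)
        exact hsm.norm_approxBounded_le (hC0 x) n x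
      · have h1 := hsm.tendsto_approxBounded_of_norm_le (hC x)
        have h2 := ((tendsto_const_nhds (x := f x)).sub h1).norm.pow 2
        simpa using h2
    rw [integral_zero] at hlim
    obtain ⟨n, hn⟩ := (hlim.eventually (gt_mem_nhds hδ)).exists
    refine ⟨_, hbs (hsm.approxBounded C n), ?_, hn⟩
    refine @SimpleFunc.induction X ℂ (⨆ i, m i) _ (fun F => GEN_A m μ (fun x => F x)) ?_ ?_ _
    · intro c s hs
      have h1 := (GEN_A.ind (μ := μ) hm s hs).smul c
      have h2 : (fun x => c * s.indicator (fun _ => (1 : ℂ)) x) =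
          fun x => (@SimpleFunc.piecewise X ℂ (⨆ i, m i) s hs
            (@SimpleFunc.const X ℂ (⨆ i, m i) c) (@SimpleFunc.const X ℂ (⨆ i, m i) 0)) x := by
        funext x
        by_cases hx : x ∈ s
        · rw [Set.indicator_of_mem hx, mul_one]
          simp [hx]
        · rw [Set.indicator_of_notMem hx, mul_zero]
          simp [hx]
      rw [← h2]
      exact h1
    · intro F G _ hF hG
      exact GEN_A.add hm (hbs F) (hbs G) hF hG
  obtain ⟨h, ⟨n, g, hg, he⟩, h1⟩ := hA ε hε
  refine ⟨n, g, hg, ?_⟩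
  simp only [he] at h1
  exact h1

/-- **GEN3.** Two probability measures on a finite product which give the same integral to all
products of bounded measurable functions are equal (π-system of boxes;
`MeasureTheory.ext_of_generate_finite`, `generateFrom_pi`, `isPiSystem_pi`). -/
theorem ext_prod {ι Y : Type} [Fintype ι] [MeasurableSpace Y] (P Q : Measure (ι → Y))
    [IsProbabilityMeasure P] [IsProbabilityMeasure Q]
    (H : ∀ g : ι → Y → ℂ, (∀ i, BM (g i)) →
      ∫ z, ∏ i, g i (z i) ∂P = ∫ z, ∏ i, g i (z i) ∂Q) : P = Q := by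
  refine ext_of_generate_finite _ generateFrom_pi.symm isPiSystem_pi ?_ (by simp)
  rintro _ ⟨t, ht, rfl⟩
  have htm : ∀ i, MeasurableSet (t i) := fun i => ht i (Set.mem_univ i)
  have h1 := H (fun i => (t i).indicator (fun _ => (1 : ℂ))) (fun i => GEN_bms_ind _ (htm i))
  have h2 : ∀ W : Measure (ι → Y), IsProbabilityMeasure W →
      ∫ z, ∏ i, (t i).indicator (fun _ => (1 : ℂ)) (z i) ∂W =
        ((W.real (Set.pi Set.univ t) : ℝ) : ℂ) := by
    intro W hW
    have h3 : ∀ z : ι → Y, ∏ i, (t i).indicator (fun _ => (1 : ℂ)) (z i) =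
        (Set.pi Set.univ t).indicator (fun _ => (1 : ℂ)) z := by
      intro z
      have h4 := GEN_prod_ind (fun i => (fun z : ι → Y => z i) ⁻¹' t i) z
      have h5 : (⋂ i, (fun z : ι → Y => z i) ⁻¹' t i) = Set.pi Set.univ t := by
        ext z
        simp
      rw [h5] at h4
      exact h4
    simp only [h3]
    rw [integral_indicator (MeasurableSet.univ_pi htm), setIntegral_const]
    simp
  rw [h2 P inferInstance, h2 Q inferInstance, Complex.ofReal_inj] at h1
  rwa [Measure.real, Measure.real, ENNReal.toReal_eq_toReal_iff' (measure_ne_top _ _)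
    (measure_ne_top _ _)] at h1

/-- **GEN4.** A bounded function of finitely many coordinates is approximated in `L²` by finite
sums of products (GEN2 for the σ-algebras pulled back by the coordinates;
`MeasurableSpace.pi = ⨆ i, comap`). -/
theorem approx_prod {ι Y : Type} [Fintype ι] [Nonempty ι] [MeasurableSpace Y]
    (P : Measure (ι → Y)) [IsProbabilityMeasure P] {f : (ι → Y) → ℂ} (hf : BM f) {ε : ℝ}
    (hε : 0 < ε) :
    ∃ (n : ℕ) (g : Fin n → ι → Y → ℂ), (∀ l i, BM (g l i)) ∧
      ∫ z, ‖f z - ∑ l, ∏ i, g l i (z i)‖ ^ 2 ∂P < ε := by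
  have hm : ∀ i : ι, MeasurableSpace.comap (fun z : ι → Y => z i) inferInstance ≤
      (inferInstance : MeasurableSpace (ι → Y)) := fun i => (measurable_pi_apply i).comap_le
  obtain ⟨n, g, hg, h1⟩ := approx_iSup
    (fun i : ι => MeasurableSpace.comap (fun z : ι → Y => z i) inferInstance) P hm hf hε
  refine ⟨n, fun l i y => g l i (fun _ => y), fun l i => ?_, ?_⟩
  · exact BMs.comp ((hg l i).mono (hm i)) (measurable_pi_lambda _ fun _ => measurable_id)
  · have h2 : ∀ l i (z : ι → Y), g l i (fun _ => z i) = g l i z := by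
      intro l i z
      obtain ⟨B, -, hB⟩ := (hg l i).1 (measurableSet_singleton (g l i z))
      have h3 : z ∈ g l i ⁻¹' {g l i z} := rfl
      rw [← hB] at h3
      have h4 : (fun _ => z i) ∈ (fun z : ι → Y => z i) ⁻¹' B := h3
      rw [hB] at h4
      exact h4
    simp only [h2]
    exact h1

end Pool.Agent.HK820
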