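import Pool.Agent.Lib_MP_820dd4_hk.Ker1
import Pool.Agent.Lib_MP_820dd4_hk.Gen

/-! ### Part `RelA` -/

section

open MeasureTheory ProbabilityTheory Filter Topology
open scoped ComplexConjugate ENNReal

namespace Pool.Agent.HK820

theorem relA_meas {Y : Type} (m : MeasurableSpace Y) [mY : MeasurableSpace Y]
    [StandardBorelSpace Y] (ν : Measure Y) [IsProbabilityMeasure ν] :
    Measurable (fun y => condExpKernel ν m y) := by
  have : Nonempty Y := nonempty_of_isProbabilityMeasure ν
  have h1 : (fun y => condExpKernel ν m y) =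
      fun y => @condDistrib Y Y Y mY _ _ mY (m ⊓ mY) id id ν _ (id y) := by
    funext y
    exact condExpKernel_apply_eq_condDistrib
  rw [h1]
  have h2 : Measurable[m ⊓ mY] (fun y => @condDistrib Y Y Y mY _ _ mY (m ⊓ mY) id id ν _ (id y)) :=
    (@condDistrib Y Y Y mY _ _ mY (m ⊓ mY) id id ν _).measurable
  exact h2.mono inf_le_right le_rfl

theorem relA_prob {Y : Type} (m : MeasurableSpace Y) [mY : MeasurableSpace Y]
    [StandardBorelSpace Y] (ν : Measure Y) [IsProbabilityMeasure ν] (y : Y) :
    IsProbabilityMeasure (condExpKernel ν m y) :=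
  IsMarkovKernel.isProbabilityMeasure y

/-- **RELA1.** Finite powers of the conditional measures form a measurable family.

Proof. `Measurable.measure_of_isPiSystem_of_isProbabilityMeasure` (or
`Measure.measurable_of_measurable_coe` plus the π-λ theorem) for the π-system of boxes `Set.pi univ
s`, where the measure is the finite product `∏ i, condExpKernel ν m y (s i)`, a measurable function
of `y` (`(condExpKernel ν m).measurable`, the kernel is `Measurable[m]`, so measurable for
`hm : m ≤ mY`; note that `condExpKernel` needs no `hm`, it is built with `m ⊓ mY`). -/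
theorem measurable_pi_condExpKernel {Y : Type} (m : MeasurableSpace Y) [mY : MeasurableSpace Y]
    [StandardBorelSpace Y] (ν : Measure Y) [IsProbabilityMeasure ν] (ι : Type) [Fintype ι] :
    Measurable (fun y => Measure.pi (fun _ : ι => condExpKernel ν m y)) := by
  have hP := relA_prob m ν
  have hP' : ∀ y, IsProbabilityMeasure (Measure.pi (fun _ : ι => condExpKernel ν m y)) :=
    fun y => inferInstance
  refine Measurable.measure_of_isPiSystem_of_isProbabilityMeasure generateFrom_pi.symm
    isPiSystem_pi ?_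
  rintro _ ⟨s, hs, rfl⟩
  have h1 : (fun y => Measure.pi (fun _ : ι => condExpKernel ν m y) (Set.pi Set.univ s)) =
      fun y => ∏ i, condExpKernel ν m y (s i) := by
    funext y
    exact Measure.pi_pi _ _
  rw [h1]
  refine Finset.measurable_prod _ fun i _ => ?_
  have h2 : MeasurableSet (s i) := hs i (Set.mem_univ i)
  exact (Measure.measurable_coe h2).comp (relA_meas m ν)

theorem relInd_eq_bind {Y : Type} (m : MeasurableSpace Y) [mY : MeasurableSpace Y]
    [StandardBorelSpace Y] (ν : Measure Y) [IsProbabilityMeasure ν] (ι : Type) [Fintype ι] :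
    relInd m ν ι = ν.bind (fun y => Measure.pi (fun _ : ι => condExpKernel ν m y)) := by
  unfold relInd
  rw [dif_pos ‹IsProbabilityMeasure ν›]

/-- **RELA2.** -/
theorem relInd_prob {Y : Type} (m : MeasurableSpace Y) [mY : MeasurableSpace Y]
    [StandardBorelSpace Y] (ν : Measure Y) [IsProbabilityMeasure ν] (ι : Type) [Fintype ι] :
    IsProbabilityMeasure (relInd m ν ι) := by
  have hP := relA_prob m ν
  rw [relInd_eq_bind]
  refine ⟨?_⟩
  rw [Measure.bind_apply MeasurableSet.univ (measurable_pi_condExpKernel m ν ι).aemeasurable]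
  simp

/-- **RELA3.** Integration against the relatively independent power (`integral_bind` or
`Measure.integral_compProd`; the inner integral is bounded measurable). -/
theorem integral_relInd {Y : Type} (m : MeasurableSpace Y) [mY : MeasurableSpace Y]
    [StandardBorelSpace Y] (ν : Measure Y) [IsProbabilityMeasure ν] (ι : Type) [Fintype ι]
    {F : (ι → Y) → ℂ} (hF : BM F) :
    ∫ z, F z ∂(relInd m ν ι) =
      ∫ y, ∫ z, F z ∂(Measure.pi (fun _ : ι => condExpKernel ν m y)) ∂ν := by
  have hP := relInd_prob m ν ι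
  have hint : Integrable F (relInd m ν ι) := hF.integrable _
  have h1 : relInd m ν ι = ((⟨fun y => Measure.pi (fun _ : ι => condExpKernel ν m y),
      measurable_pi_condExpKernel m ν ι⟩ : Kernel Y (ι → Y)) ∘ₖ (Kernel.const Unit ν)) () := by
    rw [relInd_eq_bind]
    exact Measure.comp_eq_comp_const_apply (κ := (⟨fun y => Measure.pi (fun _ : ι =>
      condExpKernel ν m y), measurable_pi_condExpKernel m ν ι⟩ : Kernel Y (ι → Y))) (μ := ν)
  rw [h1] at hint ⊢
  rw [Kernel.integral_comp hint]
  rfl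

/-- **RELA4.** Product formula: `integral_relInd`, `integral_fintype_prod_eq_prod` (integral of a
product of functions of the coordinates over a product measure) and
`condExp_ae_eq_integral_condExpKernel`. -/
theorem relInd_prod {Y : Type} (m : MeasurableSpace Y) [mY : MeasurableSpace Y]
    [StandardBorelSpace Y] (ν : Measure Y) [IsProbabilityMeasure ν] (hm : m ≤ mY) {ι : Type}
    [Fintype ι] {H : ι → Y → ℂ} (hH : ∀ i, BM (H i)) :
    ∫ z, ∏ i, H i (z i) ∂(relInd m ν ι) = ∫ y, ∏ i, (ν[H i | m]) y ∂ν := by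
  have hF : BM (fun z : ι → Y => ∏ i, H i (z i)) :=
    BMs.prod _ fun i => BMs.comp (m' := mY) (hH i) (measurable_pi_apply i)
  rw [integral_relInd m ν ι hF]
  refine integral_congr_ae ?_
  have h1 : ∀ i, ν[H i | m] =ᵐ[ν] fun y => ∫ x, H i x ∂(condExpKernel ν m y) := fun i =>
    condExp_ae_eq_integral_condExpKernel hm ((hH i).integrable ν)
  have h2 : ∀ᵐ y ∂ν, ∀ i, (ν[H i | m]) y = ∫ x, H i x ∂(condExpKernel ν m y) :=
    ae_all_iff.2 h1
  filter_upwards [h2] with y hy
  rw [integral_fintype_prod_eq_prod (fun i => H i)]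
  exact Finset.prod_congr rfl fun i _ => (hy i).symm

end Pool.Agent.HK820

end

/-! ### Part `RelB` -/

section

open MeasureTheory ProbabilityTheory Filter Topology
open scoped ComplexConjugate ENNReal

namespace Pool.Agent.HK820

theorem relB_prod {Y : Type} (m : MeasurableSpace Y) [mY : MeasurableSpace Y]
    [StandardBorelSpace Y] (ν : Measure Y) [IsProbabilityMeasure ν] (hm : m ≤ mY) {ι κ : Type}
    [Fintype ι] [Fintype κ] (e : κ → ι) (he : Function.Injective e) {g : κ → Y → ℂ}
    (hg : ∀ k, BM (g k)) :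
    ∫ z, ∏ k, g k (z (e k)) ∂(relInd m ν ι) = ∫ y, ∏ k, (ν[g k | m]) y ∂ν := by
  classical
  set H : ι → Y → ℂ := Function.extend e g (fun _ _ => 1) with hHdef
  have hHe : ∀ k, H (e k) = g k := fun k => he.extend_apply g _ k
  have hHn : ∀ i, i ∉ Set.range e → H i = fun _ => 1 := by
    intro i hi
    exact Function.extend_apply' g _ i (fun ⟨k, hk⟩ => hi ⟨k, hk⟩)
  have hH : ∀ i, BM (H i) := by
    intro i
    by_cases hi : i ∈ Set.range e
    · obtain ⟨k, rfl⟩ := hi
      rw [hHe k]
      exact hg k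
    · rw [hHn i hi]
      exact BMs.const mY 1
  have h1 : ∀ z : ι → Y, ∏ k, g k (z (e k)) = ∏ i, H i (z i) := by
    intro z
    refine Fintype.prod_of_injective e he _ _ (fun i hi => ?_) (fun k => ?_)
    · rw [hHn i hi]
    · rw [hHe k]
  have h2 : ∀ᵐ y ∂ν, ∏ k, (ν[g k | m]) y = ∏ i, (ν[H i | m]) y := by
    refine Eventually.of_forall fun y => ?_
    refine Fintype.prod_of_injective e he _ _ (fun i hi => ?_) (fun k => ?_)
    · rw [hHn i hi, condExp_const hm]
    · rw [hHe k]
  simp only [h1]
  rw [relInd_prod m ν hm hH]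
  exact integral_congr_ae (h2.mono fun y hy => hy.symm)

/-- **RELB1.** Restriction of the relatively independent power along an injection of the index
sets.

Proof. By `ext_prod` and the product formula `relInd_prod` on both sides: for
`g : κ → Y → ℂ` put `H i = g k` if `i = e k`, and `H i = 1` otherwise; `ν[1 | m] = 1`. -/
theorem relInd_rst {Y : Type} (m : MeasurableSpace Y) [mY : MeasurableSpace Y]
    [StandardBorelSpace Y] (ν : Measure Y) [IsProbabilityMeasure ν] (hm : m ≤ mY) {ι κ : Type}
    [Fintype ι] [Fintype κ] (e : κ → ι) (he : Function.Injective e) :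
    MeasurePreserving (fun (z : ι → Y) k => z (e k)) (relInd m ν ι) (relInd m ν κ) := by
  have hP := relInd_prob m ν ι
  have hQ := relInd_prob m ν κ
  have hmeas : Measurable (fun (z : ι → Y) k => z (e k)) :=
    measurable_pi_lambda _ fun k => measurable_pi_apply (e k)
  have hP' : IsProbabilityMeasure ((relInd m ν ι).map (fun (z : ι → Y) k => z (e k))) :=
    Measure.isProbabilityMeasure_map hmeas.aemeasurable
  refine ⟨hmeas, ext_prod _ _ fun g hg => ?_⟩
  have hF : BM (fun z : κ → Y => ∏ k, g k (z k)) :=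
    BMs.prod _ fun k => BMs.comp (m' := mY) (hg k) (measurable_pi_apply k)
  rw [integral_map hmeas.aemeasurable hF.1.aestronglyMeasurable, relInd_prod m ν hm hg]
  exact relB_prod m ν hm e he hg

/-- **RELB2.** The coordinates have law `ν`: `relInd_prod` with all but one function equal to `1`,
tested on indicators. -/
theorem relInd_eval {Y : Type} (m : MeasurableSpace Y) [mY : MeasurableSpace Y]
    [StandardBorelSpace Y] (ν : Measure Y) [IsProbabilityMeasure ν] (hm : m ≤ mY) {ι : Type}
    [Fintype ι] (i : ι) :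
    MeasurePreserving (fun z : ι → Y => z i) (relInd m ν ι) ν := by
  classical
  have hP := relInd_prob m ν ι
  have hmeas : Measurable (fun z : ι → Y => z i) := measurable_pi_apply i
  have hP' : IsProbabilityMeasure ((relInd m ν ι).map (fun z : ι → Y => z i)) :=
    Measure.isProbabilityMeasure_map hmeas.aemeasurable
  refine ⟨hmeas, Measure.ext fun s hs => ?_⟩
  have hg : ∀ k : Unit, BM ((fun _ : Unit => s.indicator (fun _ : Y => (1 : ℂ))) k) := fun k =>
    BMs.indicator (BMs.const mY 1) hs
  have h1 := relB_prod m ν hm (fun _ : Unit => i) (fun _ _ _ => rfl) hg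
  simp only [Finset.univ_unique, Finset.prod_singleton] at h1
  rw [integral_condExp hm] at h1
  have h2 : ∫ z, s.indicator (fun _ : Y => (1 : ℂ)) z
      ∂((relInd m ν ι).map (fun z : ι → Y => z i)) =
      ∫ z, s.indicator (fun _ : Y => (1 : ℂ)) (z i) ∂(relInd m ν ι) :=
    integral_map hmeas.aemeasurable (hg ()).1.aestronglyMeasurable
  rw [h1, integral_indicator_const _ hs, integral_indicator_const _ hs, Complex.real_smul,
    Complex.real_smul, mul_one, mul_one] at h2
  have h3 : ((relInd m ν ι).map (fun z : ι → Y => z i)).real s = ν.real s := by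
    exact_mod_cast h2
  exact (measureReal_eq_measureReal_iff).1 h3

/-- **RELB3.** `m`-measurable functions take the same value at all coordinates.

Proof. For bounded `g`: `∫ ‖g (z i) - g (z j)‖ ^ 2 = ∫ ‖g‖² + ‖g‖² - 2 Re g conj g = 0` by the
product formula and `ν[g|m] = g`. General `g`: apply the bounded case to `g / (1 + ‖g‖)`. -/
theorem relInd_eq {Y : Type} (m : MeasurableSpace Y) [mY : MeasurableSpace Y]
    [StandardBorelSpace Y] (ν : Measure Y) [IsProbabilityMeasure ν] (hm : m ≤ mY) {ι : Type}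
    [Fintype ι] {g : Y → ℂ} (hg : AEM m ν g) (i j : ι) :
    ∀ᵐ z ∂(relInd m ν ι), g (z i) = g (z j) := by
  have hP := relInd_prob m ν ι
  have hK := relA_prob m ν
  obtain ⟨g', hg', hgg⟩ := hg
  have h1 : ∀ k : ι, ∀ᵐ z ∂(relInd m ν ι), g (z k) = g' (z k) := fun k =>
    (relInd_eval m ν hm k).quasiMeasurePreserving.ae_eq_comp hgg
  have hgm : Measurable g' := hg'.mono hm le_rfl
  have hs : MeasurableSet {z : ι → Y | g' (z i) = g' (z j)} :=
    measurableSet_eq_fun (hgm.comp (measurable_pi_apply i)) (hgm.comp (measurable_pi_apply j))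
  have h2 : ∀ᵐ z ∂(relInd m ν ι), g' (z i) = g' (z j) := by
    rw [relInd_eq_bind, ae_iff]
    have h3 : MeasurableSet {z : ι → Y | ¬ g' (z i) = g' (z j)} := hs.compl
    rw [Measure.bind_apply h3 (measurable_pi_condExpKernel m ν ι).aemeasurable]
    refine (lintegral_eq_zero_iff' (((Measure.measurable_coe h3).comp
        (measurable_pi_condExpKernel m ν ι)).aemeasurable)).2 ?_
    filter_upwards [ae_eq_condExpKernel m ν hm hg'] with y hy
    have h4 : ∀ k : ι, ∀ᵐ z ∂(Measure.pi (fun _ : ι => condExpKernel ν m y)),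
        g' (z k) = g' y := fun k =>
      (measurePreserving_eval (fun _ : ι => condExpKernel ν m y) k).quasiMeasurePreserving.ae hy
    have h5 : ∀ᵐ z ∂(Measure.pi (fun _ : ι => condExpKernel ν m y)), g' (z i) = g' (z j) := by
      filter_upwards [h4 i, h4 j] with z h6 h7
      rw [h6, h7]
    exact ae_iff.1 h5
  filter_upwards [h1 i, h1 j, h2] with z h3 h4 h5
  rw [h3, h4, h5]

/-- **RELB4.** Product formula with one function kept: `relInd_prod` and the pull-out property of
the conditional expectation. -/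
theorem relInd_pull {Y : Type} (m : MeasurableSpace Y) [mY : MeasurableSpace Y]
    [StandardBorelSpace Y] (ν : Measure Y) [IsProbabilityMeasure ν] (hm : m ≤ mY) {ι : Type}
    [Fintype ι] [DecidableEq ι] {H : ι → Y → ℂ} (hH : ∀ i, BM (H i)) (i₀ : ι) :
    ∫ z, ∏ i, H i (z i) ∂(relInd m ν ι) =
      ∫ y, H i₀ y * ∏ i ∈ Finset.univ.erase i₀, (ν[H i | m]) y ∂ν := by
  have hh : ∀ i, ∃ g : Y → ℂ, BMs m g ∧ ν[H i | m] =ᵐ[ν] g := by
    intro i
    obtain ⟨h1, C, hC⟩ := hH i
    obtain ⟨g, hg, hgC, hgg⟩ := exists_bms_condExp m ν hm h1 hC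
    exact ⟨g, ⟨hg, C, hgC⟩, hgg⟩
  choose g hg hgg using hh
  have hG : BMs m (fun y => ∏ i ∈ Finset.univ.erase i₀, g i y) := BMs.prod _ hg
  have hae : ∀ᵐ y ∂ν, ∀ i, (ν[H i | m]) y = g i y := ae_all_iff.2 hgg
  rw [relInd_prod m ν hm hH]
  have h1 := integral_mul_condExp m ν hm (hH i₀) hG
  calc ∫ y, ∏ i, (ν[H i | m]) y ∂ν
      = ∫ y, (∏ i ∈ Finset.univ.erase i₀, g i y) * (ν[H i₀ | m]) y ∂ν := by
        refine integral_congr_ae ?_
        filter_upwards [hae] with y hy
        rw [← Finset.mul_prod_erase Finset.univ _ (Finset.mem_univ i₀), mul_comm]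
        congr 1
        exact Finset.prod_congr rfl fun i _ => hy i
    _ = ∫ y, (∏ i ∈ Finset.univ.erase i₀, g i y) * H i₀ y ∂ν := h1
    _ = _ := by
        refine integral_congr_ae ?_
        filter_upwards [hae] with y hy
        rw [mul_comm]
        congr 1
        exact Finset.prod_congr rfl fun i _ => (hy i).symm

/-- **RELB5.** Bound by one of the functions (Cauchy-Schwarz on a probability space; the
conditional expectations of functions bounded by `1` are bounded by `1` almost surely). -/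
theorem relInd_bound {Y : Type} (m : MeasurableSpace Y) [mY : MeasurableSpace Y]
    [StandardBorelSpace Y] (ν : Measure Y) [IsProbabilityMeasure ν] (hm : m ≤ mY) {ι : Type}
    [Fintype ι] {H : ι → Y → ℂ} (hH : ∀ i, BM (H i)) (h1 : ∀ i y, ‖H i y‖ ≤ 1) (i₀ : ι) :
    ‖∫ z, ∏ i, H i (z i) ∂(relInd m ν ι)‖ ^ 2 ≤ ∫ y, ‖(ν[H i₀ | m]) y‖ ^ 2 ∂ν := by
  classical
  have hh : ∀ i, ∃ g : Y → ℂ, Measurable[m] g ∧ (∀ y, ‖g y‖ ≤ 1) ∧ ν[H i | m] =ᵐ[ν] g :=
    fun i => exists_bms_condExp m ν hm (hH i).1 (h1 i)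
  choose g hg hgC hgg using hh
  have hae : ∀ᵐ y ∂ν, ∀ i, (ν[H i | m]) y = g i y := ae_all_iff.2 hgg
  have hgB : ∀ i, BM (g i) := fun i => BMs.mono hm ⟨hg i, 1, hgC i⟩
  have e1 : ∫ z, ∏ i, H i (z i) ∂(relInd m ν ι) = ∫ y, ∏ i, g i y ∂ν := by
    rw [relInd_prod m ν hm hH]
    refine integral_congr_ae ?_
    filter_upwards [hae] with y hy
    exact Finset.prod_congr rfl fun i _ => hy i
  have e2 : ∫ y, ‖(ν[H i₀ | m]) y‖ ^ 2 ∂ν = ∫ y, ‖g i₀ y‖ ^ 2 ∂ν := by
    refine integral_congr_ae ?_
    filter_upwards [hae] with y hy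
    rw [hy i₀]
  rw [e1, e2]
  have hi1 : Integrable (fun y => ‖g i₀ y‖) ν := ((hgB i₀).integrable ν).norm
  have hi2 : Integrable (fun y => ‖g i₀ y‖ ^ 2) ν := bas_int_sq (hgB i₀) ν
  have h2 : ‖∫ y, ∏ i, g i y ∂ν‖ ≤ ∫ y, ‖g i₀ y‖ ∂ν := by
    refine (norm_integral_le_integral_norm _).trans ?_
    refine integral_mono_of_nonneg (Eventually.of_forall fun y => norm_nonneg _) hi1
      (Eventually.of_forall fun y => ?_)
    show ‖∏ i, g i y‖ ≤ ‖g i₀ y‖
    rw [← Finset.mul_prod_erase Finset.univ _ (Finset.mem_univ i₀), norm_mul, norm_prod]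
    refine mul_le_of_le_one_right (norm_nonneg _) ?_
    exact Finset.prod_le_one (fun i _ => norm_nonneg _) fun i _ => hgC i y
  have h3 : (∫ y, ‖g i₀ y‖ ∂ν) ^ 2 ≤ ∫ y, ‖g i₀ y‖ ^ 2 ∂ν := by
    set c := ∫ y, ‖g i₀ y‖ ∂ν with hc
    have h4 : 0 ≤ ∫ y, (‖g i₀ y‖ - c) ^ 2 ∂ν := integral_nonneg fun y => sq_nonneg _
    have h5 : ∫ y, (‖g i₀ y‖ - c) ^ 2 ∂ν = (∫ y, ‖g i₀ y‖ ^ 2 ∂ν) - c ^ 2 := by
      have h6 : ∀ y, (‖g i₀ y‖ - c) ^ 2 = ‖g i₀ y‖ ^ 2 - (2 * c * ‖g i₀ y‖ - c ^ 2) :=
        fun y => by ring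
      simp only [h6]
      have h7 : Integrable (fun y => 2 * c * ‖g i₀ y‖ - c ^ 2) ν :=
        (hi1.const_mul (2 * c)).sub (integrable_const _)
      rw [integral_sub hi2 h7,
        integral_sub (hi1.const_mul (2 * c)) (integrable_const _), integral_const_mul, ← hc,
        integral_const, probReal_univ, one_smul]
      ring
    rw [h5] at h4
    linarith
  exact (pow_le_pow_left₀ (norm_nonneg _) h2 2).trans h3

end Pool.Agent.HK820

end

/-! ### Part `RelC` -/

section

open MeasureTheory ProbabilityTheory Filter Topology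
open scoped ComplexConjugate ENNReal

namespace Pool.Agent.HK820

/-- the conditional measures as a kernel for the ambient σ-algebra -/
noncomputable def relC_ker {Y : Type} (m : MeasurableSpace Y) [mY : MeasurableSpace Y]
    [StandardBorelSpace Y] (ν : Measure Y) [IsProbabilityMeasure ν] : Kernel Y Y :=
  ⟨fun y => condExpKernel ν m y, relA_meas m ν⟩

theorem relC_ker_apply {Y : Type} (m : MeasurableSpace Y) [mY : MeasurableSpace Y]
    [StandardBorelSpace Y] (ν : Measure Y) [IsProbabilityMeasure ν] (y : Y) :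
    relC_ker m ν y = condExpKernel ν m y := rfl

theorem relC_markov {Y : Type} (m : MeasurableSpace Y) [mY : MeasurableSpace Y]
    [StandardBorelSpace Y] (ν : Measure Y) [IsProbabilityMeasure ν] :
    IsMarkovKernel (relC_ker m ν) := ⟨fun y => relA_prob m ν y⟩

/-- the kernel of the third coordinate -/
noncomputable def relC_ker3 {Y : Type} (m : MeasurableSpace Y) [mY : MeasurableSpace Y]
    [StandardBorelSpace Y] (ν : Measure Y) [IsProbabilityMeasure ν] : Kernel (Y × Y) Y :=
  ⟨fun p => condExpKernel ν m p.1, (relA_meas m ν).comp (@measurable_fst Y Y mY mY)⟩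

theorem relC_markov3 {Y : Type} (m : MeasurableSpace Y) [mY : MeasurableSpace Y]
    [StandardBorelSpace Y] (ν : Measure Y) [IsProbabilityMeasure ν] :
    IsMarkovKernel (relC_ker3 m ν) := ⟨fun y => relA_prob m ν y.1⟩

theorem relC_int {A B : Type} [MeasurableSpace A] [MeasurableSpace B] (μ : Measure A)
    [IsProbabilityMeasure μ] (κ : Kernel A B) [IsMarkovKernel κ] {f : A × B → ℂ}
    (hf : Integrable f (μ ⊗ₘ κ)) : Integrable (fun x => ∫ y, f (x, y) ∂(κ x)) μ := by
  have h1 : Integrable f ((Kernel.const Unit μ ⊗ₖ Kernel.prodMkLeft Unit κ) ()) := hf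
  exact h1.integral_compProd

theorem relC_condExp {Y : Type} (m : MeasurableSpace Y) [mY : MeasurableSpace Y]
    [StandardBorelSpace Y] (ν : Measure Y) [IsProbabilityMeasure ν] (hm : m ≤ mY)
    {g : Y → ℂ} (hg : BM g) :
    ν[g | m] =ᵐ[ν] fun y => ∫ x, g x ∂(relC_ker m ν y) :=
  condExp_ae_eq_integral_condExpKernel hm (hg.integrable ν)

theorem relC_two {Y : Type} (m : MeasurableSpace Y) [mY : MeasurableSpace Y]
    [StandardBorelSpace Y] (ν : Measure Y) [IsProbabilityMeasure ν] (hm : m ≤ mY) :
    relInd m ν (Fin 2) = (ν ⊗ₘ (relC_ker m ν)).map (fun p : Y × Y => ![p.1, p.2]) := by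
  have hP := relInd_prob m ν (Fin 2)
  have hM := relC_markov m ν
  have hmeas : Measurable (fun p : Y × Y => (![p.1, p.2] : Fin 2 → Y)) := by
    refine measurable_pi_iff.2 fun i => ?_
    fin_cases i
    · exact measurable_fst
    · exact measurable_snd
  have hP' : IsProbabilityMeasure ((ν ⊗ₘ (relC_ker m ν)).map
      (fun p : Y × Y => (![p.1, p.2] : Fin 2 → Y))) :=
    Measure.isProbabilityMeasure_map hmeas.aemeasurable
  refine ext_prod _ _ fun g hg => ?_
  have hF : BM (fun z : Fin 2 → Y => ∏ k, g k (z k)) :=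
    BMs.prod _ fun k => BMs.comp (m' := mY) (hg k) (measurable_pi_apply k)
  have hF' : BM (fun p : Y × Y => ∏ k, g k ((![p.1, p.2] : Fin 2 → Y) k)) :=
    BMs.comp (m' := inferInstance) hF hmeas
  rw [integral_map hmeas.aemeasurable hF.1.aestronglyMeasurable,
    Measure.integral_compProd (hF'.integrable _), relInd_pull m ν hm hg 0]
  refine integral_congr_ae ?_
  filter_upwards [relC_condExp m ν hm (hg 1)] with y hy
  have e1 : (Finset.univ : Finset (Fin 2)).erase 0 = {1} := by decide
  have e2 : ∀ w : Y, ∏ k, g k ((![y, w] : Fin 2 → Y) k) = g 0 y * g 1 w := by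
    intro w
    rw [Fin.prod_univ_two]
    rfl
  rw [e1, Finset.prod_singleton, hy]
  show g 0 y * ∫ x, g 1 x ∂(relC_ker m ν y) =
    ∫ w, ∏ k, g k ((![y, w] : Fin 2 → Y) k) ∂(relC_ker m ν y)
  simp only [e2]
  rw [integral_const_mul]

/-- **RELC1.** Functoriality: if `p : Y → Y'` is measure preserving and intertwines the two
conditional expectations then it induces a measure preserving map of the relatively independent
powers.

Proof. By `ext_prod`: the image measure integrates `∏ i, g i (z i)` to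
`∫ ∏ i, ν[g i ∘ p | m] ∂ν = ∫ (∏ i, ν'[g i | m']) ∘ p ∂ν = ∫ ∏ i, ν'[g i | m'] ∂ν'`. -/
theorem relInd_map {Y Y' : Type} (m : MeasurableSpace Y) (m' : MeasurableSpace Y')
    [mY : MeasurableSpace Y] [StandardBorelSpace Y] [mY' : MeasurableSpace Y']
    [StandardBorelSpace Y'] (ν : Measure Y) [IsProbabilityMeasure ν] (ν' : Measure Y')
    [IsProbabilityMeasure ν'] (hm : m ≤ mY) (hm' : m' ≤ mY') {p : Y → Y'}
    (hp : MeasurePreserving p ν ν')
    (H : ∀ F : Y' → ℂ, BM F → ν[fun y => F (p y) | m] =ᵐ[ν] fun y => (ν'[F | m']) (p y))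
    (ι : Type) [Fintype ι] :
    MeasurePreserving (fun (z : ι → Y) i => p (z i)) (relInd m ν ι) (relInd m' ν' ι) := by
  have hP := relInd_prob m ν ι
  have hQ := relInd_prob m' ν' ι
  have hmeas : Measurable (fun (z : ι → Y) i => p (z i)) :=
    measurable_pi_lambda _ fun k => hp.measurable.comp (measurable_pi_apply k)
  have hP' : IsProbabilityMeasure ((relInd m ν ι).map (fun (z : ι → Y) i => p (z i))) :=
    Measure.isProbabilityMeasure_map hmeas.aemeasurable
  refine ⟨hmeas, ext_prod _ _ fun g hg => ?_⟩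
  have hF : BM (fun z : ι → Y' => ∏ k, g k (z k)) :=
    BMs.prod _ fun k => BMs.comp (m' := mY') (hg k) (measurable_pi_apply k)
  have hgp : ∀ k, BM (fun y => g k (p y)) := fun k => BMs.comp (m' := mY') (hg k) hp.measurable
  rw [integral_map hmeas.aemeasurable hF.1.aestronglyMeasurable,
    relInd_prod m ν hm (H := fun k y => g k (p y)) hgp, relInd_prod m' ν' hm' hg]
  have h1 : ∫ y, ∏ i, (ν'[g i | m']) y ∂ν' = ∫ y, ∏ i, (ν'[g i | m']) (p y) ∂ν := by
    have h2 : AEStronglyMeasurable (fun y => ∏ i, (ν'[g i | m']) y) (ν.map p) := by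
      refine Measurable.aestronglyMeasurable ?_
      refine Finset.measurable_prod _ fun i _ => ?_
      exact (stronglyMeasurable_condExp.measurable).mono hm' le_rfl
    rw [← integral_map hp.measurable.aemeasurable h2, hp.map_eq]
  rw [h1]
  refine integral_congr_ae ?_
  have h3 : ∀ᵐ y ∂ν, ∀ i, (ν[fun y => g i (p y) | m]) y = (ν'[g i | m']) (p y) :=
    ae_all_iff.2 fun i => H (g i) (hg i)
  filter_upwards [h3] with y hy
  exact Finset.prod_congr rfl fun i _ => hy i

/-- **RELC2.** Invariance under the diagonal transformation when `m` is invariant: RELC1 for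
`p = T`, with `condExp_comp_equiv`. -/
theorem relInd_tTup {Y : Type} (m : MeasurableSpace Y) [mY : MeasurableSpace Y]
    [StandardBorelSpace Y] (ν : Measure Y) [IsProbabilityMeasure ν] (hm : m ≤ mY) (T : Y ≃ᵐ Y)
    (hT : MeasurePreserving T ν ν) (hTm : TInv m T) (ι : Type) [Fintype ι] :
    MeasurePreserving (tTup T ι) (relInd m ν ι) (relInd m ν ι) := by
  exact relInd_map m m ν ν hm hm hT
    (fun F hF => condExp_comp_equiv m m hm hm T hT hTm.1 hTm.2 hF) ι

/-- **RELC3.** For `m` = invariant sets the relatively independent power is invariant under the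
transformation acting on any set of coordinates (`ext_prod`, product formula,
`ν[g ∘ T | Inv T] = ν[g | Inv T]`). -/
theorem relInd_single {Y : Type} [mY : MeasurableSpace Y] [StandardBorelSpace Y] (ν : Measure Y)
    [IsProbabilityMeasure ν] (T : Y ≃ᵐ Y) (hT : MeasurePreserving T ν ν) (ι : Type) [Fintype ι]
    (s : ι → Prop) [DecidablePred s] :
    MeasurePreserving (fun (z : ι → Y) i => if s i then T (z i) else z i)
      (relInd (Inv T) ν ι) (relInd (Inv T) ν ι) := by
  have hm : Inv T ≤ mY := MeasurableSpace.invariants_le T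
  have hP := relInd_prob (Inv T) ν ι
  have hT1 : Measurable[Inv T, Inv T] T := by
    rintro s ⟨hs, hs'⟩
    refine ⟨T.measurable hs, ?_⟩
    rw [hs']
    exact hs'
  have hT2 : Measurable[Inv T, Inv T] T.symm := by
    rintro s ⟨hs, hs'⟩
    have h1 : T.symm ⁻¹' s = s := by
      conv_lhs => rw [← hs']
      ext y
      show T (T.symm y) ∈ s ↔ y ∈ s
      rw [MeasurableEquiv.apply_symm_apply]
    rw [h1]
    exact ⟨hs, hs'⟩
  have key : ∀ F : Y → ℂ, BM F → ν[fun y => F (T y) | Inv T] =ᵐ[ν] ν[F | Inv T] := by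
    intro F hF
    have h1 := condExp_comp_equiv (Inv T) (Inv T) hm hm T hT hT1 hT2 hF
    have h2 : (fun y => (ν[F | Inv T]) (T y)) = ν[F | Inv T] :=
      MeasurableSpace.comp_eq_of_measurable_invariants
        (stronglyMeasurable_condExp.measurable)
    rw [h2] at h1
    exact h1
  have hmeas : Measurable (fun (z : ι → Y) i => if s i then T (z i) else z i) := by
    refine measurable_pi_lambda _ fun k => ?_
    by_cases hk : s k
    · simp only [if_pos hk]
      exact T.measurable.comp (measurable_pi_apply k)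
    · simp only [if_neg hk]
      exact measurable_pi_apply k
  have hP' : IsProbabilityMeasure ((relInd (Inv T) ν ι).map
      (fun (z : ι → Y) i => if s i then T (z i) else z i)) :=
    Measure.isProbabilityMeasure_map hmeas.aemeasurable
  refine ⟨hmeas, ext_prod _ _ fun g hg => ?_⟩
  have hF : BM (fun z : ι → Y => ∏ k, g k (z k)) :=
    BMs.prod _ fun k => BMs.comp (m' := mY) (hg k) (measurable_pi_apply k)
  have hgp : ∀ k, BM (fun y => if s k then g k (T y) else g k y) := by
    intro k
    by_cases hk : s k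
    · simp only [if_pos hk]
      exact BMs.comp (m' := mY) (hg k) T.measurable
    · simp only [if_neg hk]
      exact hg k
  rw [integral_map hmeas.aemeasurable hF.1.aestronglyMeasurable]
  have e1 : ∀ z : ι → Y, ∏ k, g k (if s k then T (z k) else z k) =
      ∏ k, (fun (k : ι) (y : Y) => if s k then g k (T y) else g k y) k (z k) := by
    intro z
    refine Finset.prod_congr rfl fun k _ => ?_
    show g k (if s k then T (z k) else z k) = if s k then g k (T (z k)) else g k (z k)
    by_cases hk : s k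
    · rw [if_pos hk, if_pos hk]
    · rw [if_neg hk, if_neg hk]
  simp only [e1]
  rw [relInd_prod (Inv T) ν hm (H := fun (k : ι) (y : Y) => if s k then g k (T y) else g k y) hgp,
    relInd_prod (Inv T) ν hm hg]
  refine integral_congr_ae ?_
  have h3 : ∀ᵐ y ∂ν, ∀ k, (ν[fun y => if s k then g k (T y) else g k y | Inv T]) y =
      (ν[g k | Inv T]) y := by
    refine ae_all_iff.2 fun k => ?_
    by_cases hk : s k
    · simp only [if_pos hk]
      exact key (g k) (hg k)
    · simp only [if_neg hk]
      exact Eventually.of_forall fun _ => trivial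
  filter_upwards [h3] with y hy
  exact Finset.prod_congr rfl fun i _ => hy i

/-- **RELC4.** The case of two coordinates, in the form of an iterated integral.

Proof. By `approx_prod` (GEN4, for the measure `relInd`, and for the measure `ν ⊗ κ`, i.e. the
measure on `Fin 2 → Y` obtained by integrating in the order on the right) or by
`ext_prod`: both sides are integrals of `F` against probability measures on `Fin 2 → Y`, which agree
on products: `∫ f x * ∫ g ∂κ_x ∂ν = ∫ f * ν[g|m] = ∫ ν[f|m] * ν[g|m]`. -/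
theorem integral_relInd_two {Y : Type} (m : MeasurableSpace Y) [mY : MeasurableSpace Y]
    [StandardBorelSpace Y] (ν : Measure Y) [IsProbabilityMeasure ν] (hm : m ≤ mY)
    {F : (Fin 2 → Y) → ℂ} (hF : BM F) :
    ∫ z, F z ∂(relInd m ν (Fin 2)) = ∫ x, ∫ y, F ![x, y] ∂(condExpKernel ν m x) ∂ν := by
  have hM := relC_markov m ν
  have hmeas : Measurable (fun p : Y × Y => (![p.1, p.2] : Fin 2 → Y)) := by
    refine measurable_pi_iff.2 fun i => ?_
    fin_cases i
    · exact measurable_fst
    · exact measurable_snd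
  have hF' : BM (fun p : Y × Y => F (![p.1, p.2] : Fin 2 → Y)) :=
    BMs.comp (m' := inferInstance) hF hmeas
  rw [relC_two m ν hm, integral_map hmeas.aemeasurable hF.1.aestronglyMeasurable,
    Measure.integral_compProd (hF'.integrable _)]
  rfl

/-- **RELC5.** The same for three coordinates. -/
theorem integral_relInd_three {Y : Type} (m : MeasurableSpace Y) [mY : MeasurableSpace Y]
    [StandardBorelSpace Y] (ν : Measure Y) [IsProbabilityMeasure ν] (hm : m ≤ mY)
    {F : (Fin 3 → Y) → ℂ} (hF : BM F) :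
    ∫ z, F z ∂(relInd m ν (Fin 3)) =
      ∫ x, ∫ y, ∫ w, F ![x, y, w] ∂(condExpKernel ν m x) ∂(condExpKernel ν m x) ∂ν := by
  have hM := relC_markov m ν
  have hP := relInd_prob m ν (Fin 3)
  have hM2 := relC_markov3 m ν
  have hmeas : Measurable (fun p : (Y × Y) × Y => (![p.1.1, p.1.2, p.2] : Fin 3 → Y)) := by
    refine measurable_pi_iff.2 fun i => ?_
    fin_cases i
    · exact measurable_fst.comp measurable_fst
    · exact measurable_snd.comp measurable_fst
    · exact measurable_snd
  have key : relInd m ν (Fin 3) = ((ν ⊗ₘ (relC_ker m ν)) ⊗ₘ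
      (relC_ker3 m ν)).map
        (fun p : (Y × Y) × Y => ![p.1.1, p.1.2, p.2]) := by
    have hP' : IsProbabilityMeasure (((ν ⊗ₘ (relC_ker m ν)) ⊗ₘ
      (relC_ker3 m ν)).map
        (fun p : (Y × Y) × Y => (![p.1.1, p.1.2, p.2] : Fin 3 → Y))) :=
      Measure.isProbabilityMeasure_map hmeas.aemeasurable
    refine ext_prod _ _ fun g hg => ?_
    have hG : BM (fun z : Fin 3 → Y => ∏ k, g k (z k)) :=
      BMs.prod _ fun k => BMs.comp (m' := mY) (hg k) (measurable_pi_apply k)
    have hG' : BM (fun p : (Y × Y) × Y => ∏ k, g k ((![p.1.1, p.1.2, p.2] : Fin 3 → Y) k)) :=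
      BMs.comp (m' := inferInstance) hG hmeas
    have hint := (hG'.integrable ((ν ⊗ₘ (relC_ker m ν)) ⊗ₘ
      (relC_ker3 m ν)))
    rw [integral_map hmeas.aemeasurable hG.1.aestronglyMeasurable,
      Measure.integral_compProd hint, relInd_pull m ν hm hg 0]
    have e2 : ∀ (x y w : Y), ∏ k, g k ((![x, y, w] : Fin 3 → Y) k) = g 0 x * g 1 y * g 2 w := by
      intro x y w
      rw [Fin.prod_univ_three]
      rfl
    have e3 : ∀ p : Y × Y, ∫ w, ∏ k, g k ((![p.1, p.2, w] : Fin 3 → Y) k)
        ∂((relC_ker3 m ν) p) =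
        g 0 p.1 * g 1 p.2 * ∫ w, g 2 w ∂(relC_ker m ν p.1) := by
      intro p
      simp only [e2]
      rw [integral_const_mul]
      rfl
    have hint2 : Integrable (fun p : Y × Y => g 0 p.1 * g 1 p.2 *
        ∫ w, g 2 w ∂(relC_ker m ν p.1)) (ν ⊗ₘ (relC_ker m ν)) := by
      have h4 := relC_int _ _ hint
      refine h4.congr (Eventually.of_forall fun p => ?_)
      exact e3 p
    simp only [e3]
    rw [Measure.integral_compProd hint2]
    refine integral_congr_ae ?_
    filter_upwards [relC_condExp m ν hm (hg 1), relC_condExp m ν hm (hg 2)] with y h5 h6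
    have e1 : (Finset.univ : Finset (Fin 3)).erase 0 = {1, 2} := by decide
    rw [e1, Finset.prod_pair (by decide), h5, h6]
    show g 0 y * ((∫ x, g 1 x ∂(relC_ker m ν y)) * ∫ x, g 2 x ∂(relC_ker m ν y)) =
      ∫ x, g 0 y * g 1 x * ∫ w, g 2 w ∂(relC_ker m ν y) ∂(relC_ker m ν y)
    rw [integral_mul_const, integral_const_mul, mul_assoc]
  have hF' : BM (fun p : (Y × Y) × Y => F (![p.1.1, p.1.2, p.2] : Fin 3 → Y)) :=
    BMs.comp (m' := inferInstance) hF hmeas
  have hint := (hF'.integrable ((ν ⊗ₘ (relC_ker m ν)) ⊗ₘ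
      (relC_ker3 m ν)))
  rw [key, integral_map hmeas.aemeasurable hF.1.aestronglyMeasurable,
    Measure.integral_compProd hint, Measure.integral_compProd (relC_int _ _ hint)]
  rfl

/-- **RELC6.** Almost sure statements for two coordinates. -/
theorem ae_relInd_two {Y : Type} (m : MeasurableSpace Y) [mY : MeasurableSpace Y]
    [StandardBorelSpace Y] (ν : Measure Y) [IsProbabilityMeasure ν] (hm : m ≤ mY)
    {P : Y → Y → Prop} :
    (∀ᵐ z ∂(relInd m ν (Fin 2)), P (z 0) (z 1)) →
      ∀ᵐ x ∂ν, ∀ᵐ y ∂(condExpKernel ν m x), P x y := by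
  intro h
  have hM := relC_markov m ν
  have hmeas : Measurable (fun p : Y × Y => (![p.1, p.2] : Fin 2 → Y)) := by
    refine measurable_pi_iff.2 fun i => ?_
    fin_cases i
    · exact measurable_fst
    · exact measurable_snd
  rw [relC_two m ν hm] at h
  have h1 : ∀ᵐ p ∂(ν ⊗ₘ (relC_ker m ν)), P p.1 p.2 := ae_of_ae_map hmeas.aemeasurable h
  exact Measure.ae_ae_of_ae_compProd h1

end Pool.Agent.HK820

end
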