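import Pool.Agent.Lib_MP_820dd4_hk.ZD

/-! ### Part `SA` -/

section

open MeasureTheory ProbabilityTheory Filter Topology
open scoped ComplexConjugate ENNReal

namespace Pool.Agent.HK820

/-- conditional distribution of a random array given its vertex at `v` -/
noncomputable def vK {X : Type} [MeasurableSpace X] [StandardBorelSpace X] [Nonempty X]
    (μ : Measure X) (T : X ≃ᵐ X) (ι : Type) [Fintype ι] (D : ℕ) (v : Fin D → ι) :
    Kernel X (Arr ι X D) :=
  open Classical in
  if h : IsFiniteMeasure (cube μ T ι D) then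
    haveI := h
    condDistrib id (fun x : Arr ι X D => x v) (cube μ T ι D)
  else 0

/-- `vE F a` is the expectation of `F` over the arrays whose vertex at `v` is `a` -/
noncomputable def vE {X : Type} [MeasurableSpace X] [StandardBorelSpace X] [Nonempty X]
    (μ : Measure X) (T : X ≃ᵐ X) (ι : Type) [Fintype ι] (D : ℕ) (v : Fin D → ι)
    (F : Arr ι X D → ℂ) (a : X) : ℂ :=
  ∫ x, F x ∂(vK μ T ι D v a)

theorem sa_vK_eq {X : Type} [MeasurableSpace X] [StandardBorelSpace X] [Nonempty X]
    (μ : Measure X) (T : X ≃ᵐ X) (ι : Type) [Fintype ι] (D : ℕ) (v : Fin D → ι)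
    [h : IsFiniteMeasure (cube μ T ι D)] :
    vK μ T ι D v = condDistrib id (fun x : Arr ι X D => x v) (cube μ T ι D) := by
  unfold vK
  rw [dif_pos h]

/-- **SA1.** `vK` is a family of probability measures -/
theorem vK_prob {X : Type} [MeasurableSpace X] [StandardBorelSpace X] [Nonempty X]
    (μ : Measure X) [IsProbabilityMeasure μ] (T : X ≃ᵐ X) (ι : Type) [Fintype ι] (D : ℕ)
    (v : Fin D → ι) : IsMarkovKernel (vK μ T ι D v) := by
  have := cube_prob μ T ι D
  rw [sa_vK_eq]
  infer_instance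

theorem vE_bm {X : Type} [MeasurableSpace X] [StandardBorelSpace X] [Nonempty X]
    (μ : Measure X) [IsProbabilityMeasure μ] (T : X ≃ᵐ X) (ι : Type) [Fintype ι] (D : ℕ)
    (v : Fin D → ι) {F : Arr ι X D → ℂ} (hF : BM F) : BM (vE μ T ι D v F) := by
  have := vK_prob μ T ι D v
  obtain ⟨hm, C, hC⟩ := hF
  refine ⟨?_, C, fun a => ?_⟩
  · exact (StronglyMeasurable.integral_kernel (κ := vK μ T ι D v) hm.stronglyMeasurable).measurable
  · unfold vE
    have h1 := norm_integral_le_of_norm_le_const (μ := vK μ T ι D v a)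
      (Eventually.of_forall hC)
    simpa using h1

theorem sa_compProd {X : Type} [MeasurableSpace X] [StandardBorelSpace X] [Nonempty X]
    (μ : Measure X) [IsProbabilityMeasure μ] (T : X ≃ᵐ X) (ι : Type) [Fintype ι] (D : ℕ)
    (v : Fin D → ι) :
    μ.compProd (vK μ T ι D v) = (cube μ T ι D).map (fun x : Arr ι X D => (x v, x)) := by
  have := cube_prob μ T ι D
  have h1 := compProd_map_condDistrib (Y := (id : Arr ι X D → Arr ι X D))
    (X := fun x : Arr ι X D => x v) (μ := cube μ T ι D) (mβ := ‹MeasurableSpace X›)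
    aemeasurable_id
  rw [(cube_eval μ T ι D v).map_eq] at h1
  rw [sa_vK_eq, h1]
  rfl

/-- disintegration of the cube measure over a vertex -/
theorem integral_vK {X : Type} [MeasurableSpace X] [StandardBorelSpace X] [Nonempty X]
    (μ : Measure X) [IsProbabilityMeasure μ] (T : X ≃ᵐ X) (ι : Type) [Fintype ι] (D : ℕ)
    (v : Fin D → ι) {F : Arr ι X D → ℂ} (hF : BM F) {φ : X → ℂ} (hφ : BM φ) :
    ∫ x, φ (x v) * F x ∂(cube μ T ι D) = ∫ a, φ a * vE μ T ι D v F a ∂μ := by
  have := cube_prob μ T ι D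
  have := vK_prob μ T ι D v
  obtain ⟨hFm, C, hC⟩ := hF
  obtain ⟨hφm, C', hC'⟩ := hφ
  have hmp : Measurable (fun x : Arr ι X D => (x v, x)) := by fun_prop
  have hm : Measurable (fun p : X × Arr ι X D => φ p.1 * F p.2) := by
    exact (hφm.comp measurable_fst).mul (hFm.comp measurable_snd)
  have hint : Integrable (fun p : X × Arr ι X D => φ p.1 * F p.2)
      (μ.compProd (vK μ T ι D v)) := by
    refine Integrable.of_bound hm.aestronglyMeasurable (C' * C) (Eventually.of_forall fun p => ?_)
    rw [norm_mul]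
    exact mul_le_mul (hC' _) (hC _) (norm_nonneg _) ((norm_nonneg _).trans (hC' p.1))
  have h1 := Measure.integral_compProd hint
  rw [sa_compProd, integral_map hmp.aemeasurable hm.aestronglyMeasurable] at h1
  rw [h1]
  refine integral_congr_ae (Eventually.of_forall fun a => ?_)
  simp only [vE, integral_const_mul]

/-- almost sure statements: `vK a` is carried by the arrays with vertex `a`, and almost sure
properties hold `vK a`-almost surely for almost every `a` -/
theorem ae_vK {X : Type} [MeasurableSpace X] [StandardBorelSpace X] [Nonempty X]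
    (μ : Measure X) [IsProbabilityMeasure μ] (T : X ≃ᵐ X) (ι : Type) [Fintype ι] (D : ℕ)
    (v : Fin D → ι) {P : Arr ι X D → Prop} (h : ∀ᵐ x ∂(cube μ T ι D), P x) :
    ∀ᵐ a ∂μ, ∀ᵐ x ∂(vK μ T ι D v a), P x ∧ x v = a := by
  have := cube_prob μ T ι D
  have := vK_prob μ T ι D v
  set N := toMeasurable (cube μ T ι D) {x | ¬ P x} with hN
  have hN0 : cube μ T ι D N = 0 := by rw [hN, measure_toMeasurable]; exact h
  have hmp : Measurable (fun x : Arr ι X D => (x v, x)) := by fun_prop
  have h1 : ∀ᵐ p ∂(μ.compProd (vK μ T ι D v)), p.2 ∉ N ∧ p.2 v = p.1 := by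
    rw [sa_compProd]
    have hms : MeasurableSet {p : X × Arr ι X D | p.2 ∉ N ∧ p.2 v = p.1} := by
      refine MeasurableSet.inter ?_ ?_
      · exact (measurable_snd (measurableSet_toMeasurable _ _)).compl
      · exact measurableSet_eq_fun ((measurable_pi_apply v).comp measurable_snd) measurable_fst
    rw [ae_map_iff hmp.aemeasurable hms]
    have h2 : ∀ᵐ x ∂(cube μ T ι D), x ∉ N := measure_eq_zero_iff_ae_notMem.1 hN0
    filter_upwards [h2] with x hx
    exact ⟨hx, rfl⟩
  have h2 := Measure.ae_ae_of_ae_compProd h1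
  filter_upwards [h2] with a ha
  filter_upwards [ha] with x hx
  refine ⟨?_, hx.2⟩
  by_contra hcon
  exact hx.1 (subset_toMeasurable _ _ hcon)

theorem sa_int {X : Type} [MeasurableSpace X] {F : X → ℂ} (hF : BM F) (P : Measure X)
    [IsProbabilityMeasure P] : Integrable F P := hF.integrable P

theorem sa_norm_bm {X : Type} [MeasurableSpace X] {F : X → ℂ} (hF : BM F) :
    BM (fun x => ((‖F x‖ : ℝ) : ℂ)) := by
  obtain ⟨hm, C, hC⟩ := hF
  exact ⟨Complex.measurable_ofReal.comp hm.norm, C, fun x => by simpa using hC x⟩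

/-- two bounded functions with the same integrals against all bounded functions agree a.e. -/
theorem sa_ae_eq {X : Type} [MeasurableSpace X] {P : Measure X} [IsProbabilityMeasure P]
    {f g : X → ℂ} (hf : BM f) (hg : BM g)
    (H : ∀ φ : X → ℂ, BM φ → ∫ x, φ x * f x ∂P = ∫ x, φ x * g x ∂P) : f =ᵐ[P] g := by
  set φ : X → ℂ := fun x => conj (f x - g x) with hφ
  have hφb : BM φ := BMs.conj (BMs.sub hf hg)
  have h1 := H φ hφb
  have h2 : ∫ x, ((‖f x - g x‖ ^ 2 : ℝ) : ℂ) ∂P = 0 := by
    have e : ∀ x, ((‖f x - g x‖ ^ 2 : ℝ) : ℂ) = φ x * f x - φ x * g x := by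
      intro x
      rw [← mul_sub, hφ]
      simp only
      rw [mul_comm, Complex.mul_conj, Complex.normSq_eq_norm_sq]
    simp_rw [e]
    rw [integral_sub (BM.integrable (BMs.mul hφb hf) P) (BM.integrable (BMs.mul hφb hg) P),
      h1, sub_self]
  rw [integral_complex_ofReal, Complex.ofReal_eq_zero] at h2
  have hint : Integrable (fun x => ‖f x - g x‖ ^ 2) P := by
    obtain ⟨hm, C, hC⟩ := (BMs.sub hf hg : BM _)
    refine Integrable.of_bound (hm.norm.pow_const 2).aestronglyMeasurable (C ^ 2)
      (Eventually.of_forall fun x => ?_)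
    rw [Real.norm_of_nonneg (by positivity)]
    exact pow_le_pow_left₀ (norm_nonneg _) (hC x) 2
  have h3 := (integral_eq_zero_iff_of_nonneg (fun x => by positivity) hint).1 h2
  filter_upwards [h3] with x hx
  have : ‖f x - g x‖ = 0 := by simpa using hx
  exact sub_eq_zero.1 (norm_eq_zero.1 this)

/-- an additive functional bounded for the `L¹` norm which vanishes on products over the slices
vanishes -/
theorem sa_ext {X : Type} [MeasurableSpace X] [StandardBorelSpace X]
    (μ : Measure X) [IsProbabilityMeasure μ] (T : X ≃ᵐ X) (κ : Type) [Fintype κ] [Nonempty κ] (D : ℕ)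
    (Λ : (Arr κ X (D + 1) → ℂ) → ℂ)
    (hadd : ∀ F F', BM F → BM F' → Λ (fun x => F x + F' x) = Λ F + Λ F') {K : ℝ} (hK : 0 ≤ K)
    (hb : ∀ F, BM F → ‖Λ F‖ ≤ K * ∫ x, ‖F x‖ ∂(cube μ T κ (D + 1)))
    (hprod : ∀ H : κ → Arr κ X D → ℂ, (∀ i, BM (H i)) →
      Λ (fun x => ∏ i, H i (slice x i)) = 0) {F : Arr κ X (D + 1) → ℂ} (hF : BM F) : Λ F = 0 := by
  have := cube_prob μ T κ (D + 1)
  have := cube_prob μ T κ D
  have hP := relInd_prob (Inv (tArr T κ D)) (cube μ T κ D) κ
  have hsum : ∀ (s : ℕ) (g : Fin s → κ → Arr κ X D → ℂ), (∀ l i, BM (g l i)) →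
      BM (fun x : Arr κ X (D + 1) => ∑ l, ∏ i, g l i (slice x i)) ∧
      Λ (fun x => ∑ l, ∏ i, g l i (slice x i)) = 0 := by
    intro s
    induction s with
    | zero =>
      intro g hg
      simp only [Finset.univ_eq_empty, Finset.sum_empty]
      have h0 : BM (fun _ : Arr κ X (D + 1) => (0 : ℂ)) := BMs.const _ 0
      refine ⟨h0, ?_⟩
      have := hb _ h0
      simpa using this
    | succ s ih =>
      intro g hg
      have h1 := ih (fun l => g l.succ) (fun l i => hg _ _)
      have h2 : BM (fun x : Arr κ X (D + 1) => ∏ i, g 0 i (slice x i)) :=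
        BMs.prod _ fun i => (hg 0 i).comp (measurable_slice i)
      simp only [Fin.sum_univ_succ]
      refine ⟨BMs.add h2 h1.1, ?_⟩
      rw [hadd _ _ h2 h1.1, h1.2, hprod _ (hg 0), add_zero]
  have key : ∀ δ : ℝ, 0 < δ → ‖Λ F‖ ≤ K * (2 * δ) := by
    intro δ hδ
    have hFg : BM (fun z : κ → Arr κ X D => F (glue z)) := BMs.comp hF measurable_glue
    obtain ⟨s, g, hg, hlt⟩ := approx_prod (relInd (Inv (tArr T κ D)) (cube μ T κ D) κ) hFg
      (pow_pos hδ 2)
    obtain ⟨hF', hΛ'⟩ := hsum s g hg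
    have hd : BM (fun x => F x - ∑ l, ∏ i, g l i (slice x i)) := BMs.sub hF hF'
    have h1 : Λ F = Λ (fun x => F x - ∑ l, ∏ i, g l i (slice x i)) := by
      have h2 := hadd _ _ hd hF'
      rw [hΛ', add_zero] at h2
      rw [← h2]
      congr 1
      funext x
      ring
    rw [h1]
    refine (hb _ hd).trans (mul_le_mul_of_nonneg_left ?_ hK)
    have h3 : ∫ x, ‖F x - ∑ l, ∏ i, g l i (slice x i)‖ ^ 2 ∂(cube μ T κ (D + 1)) < δ ^ 2 := by
      have hmp := slice_mp μ T κ D
      rw [← hmp.map_eq] at hlt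
      rw [integral_map hmp.measurable.aemeasurable] at hlt
      · refine lt_of_eq_of_lt (integral_congr_ae (Eventually.of_forall fun x => ?_)) hlt
        simp only [glue_slice]
      · obtain ⟨hm1, -⟩ := hFg
        have hm2 : Measurable (fun z : κ → Arr κ X D => ∑ l, ∏ i, g l i (z i)) :=
          Finset.measurable_sum _ fun l _ => Finset.measurable_prod _ fun i _ =>
            (hg l i).1.comp (measurable_pi_apply i)
        exact ((hm1.sub hm2).norm.pow_const 2).aestronglyMeasurable
    have hi1 : Integrable (fun x => ‖F x - ∑ l, ∏ i, g l i (slice x i)‖)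
        (cube μ T κ (D + 1)) := (hd.integrable _).norm
    have hi2 : Integrable (fun x => ‖F x - ∑ l, ∏ i, g l i (slice x i)‖ ^ 2)
        (cube μ T κ (D + 1)) := by
      obtain ⟨hm, C, hC⟩ := hd
      refine Integrable.of_bound (hm.norm.pow_const 2).aestronglyMeasurable (C ^ 2)
        (Eventually.of_forall fun x => ?_)
      rw [Real.norm_of_nonneg (by positivity)]
      exact pow_le_pow_left₀ (norm_nonneg _) (hC x) 2
    calc ∫ x, ‖F x - ∑ l, ∏ i, g l i (slice x i)‖ ∂(cube μ T κ (D + 1))
        ≤ ∫ x, (δ + δ⁻¹ * ‖F x - ∑ l, ∏ i, g l i (slice x i)‖ ^ 2) ∂(cube μ T κ (D + 1)) := by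
          refine integral_mono hi1 ((integrable_const _).add (hi2.const_mul _)) fun x => ?_
          simp only
          set t := ‖F x - ∑ l, ∏ i, g l i (slice x i)‖
          have h4 : δ * t ≤ δ ^ 2 + t ^ 2 := by nlinarith [sq_nonneg (δ - t), sq_nonneg (δ + t)]
          have h5 : δ⁻¹ * (δ * t) ≤ δ⁻¹ * (δ ^ 2 + t ^ 2) :=
            mul_le_mul_of_nonneg_left h4 (by positivity)
          have h6 : δ⁻¹ * (δ * t) = t := by field_simp
          have h7 : δ⁻¹ * (δ ^ 2 + t ^ 2) = δ + δ⁻¹ * t ^ 2 := by field_simp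
          linarith
      _ = δ + δ⁻¹ * ∫ x, ‖F x - ∑ l, ∏ i, g l i (slice x i)‖ ^ 2 ∂(cube μ T κ (D + 1)) := by
          rw [integral_add (integrable_const _) (hi2.const_mul _), integral_const_mul]
          simp
      _ ≤ δ + δ⁻¹ * δ ^ 2 := by gcongr
      _ = 2 * δ := by field_simp; ring
  have hle : ‖Λ F‖ ≤ 0 := by
    refine le_of_forall_pos_le_add fun ε hε => ?_
    have h1 := key (ε / (2 * (K + 1))) (by positivity)
    have h2 : K * (2 * (ε / (2 * (K + 1)))) ≤ ε := by
      have h3 : K * (2 * (ε / (2 * (K + 1)))) = ε * (K / (K + 1)) := by field_simp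
      rw [h3]
      have h4 : K / (K + 1) ≤ 1 := by rw [div_le_one (by positivity)]; linarith
      nlinarith
    linarith
  exact norm_eq_zero.1 (le_antisymm hle (norm_nonneg _))

theorem sa_vE_add {X : Type} [MeasurableSpace X] [StandardBorelSpace X] [Nonempty X]
    (μ : Measure X) [IsProbabilityMeasure μ] (T : X ≃ᵐ X) (ι : Type) [Fintype ι] (D : ℕ)
    (v : Fin D → ι) {F G : Arr ι X D → ℂ} (hF : BM F) (hG : BM G) (a : X) :
    vE μ T ι D v (fun x => F x + G x) a = vE μ T ι D v F a + vE μ T ι D v G a := by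
  have := vK_prob μ T ι D v
  unfold vE
  exact integral_add (hF.integrable _) (hG.integrable _)

theorem sa_vE_norm {X : Type} [MeasurableSpace X] [StandardBorelSpace X] [Nonempty X]
    (μ : Measure X) [IsProbabilityMeasure μ] (T : X ≃ᵐ X) (ι : Type) [Fintype ι] (D : ℕ)
    (v : Fin D → ι) {F : Arr ι X D → ℂ} (hF : BM F) :
    ∫ a, ‖vE μ T ι D v F a‖ ∂μ ≤ ∫ x, ‖F x‖ ∂(cube μ T ι D) := by
  have := vK_prob μ T ι D v
  have h1 := integral_vK μ T ι D v (sa_norm_bm hF) (BMs.const _ 1 : BM (fun _ : X => (1 : ℂ)))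
  simp only [one_mul] at h1
  have h2 : ∀ a, vE μ T ι D v (fun x => ((‖F x‖ : ℝ) : ℂ)) a =
      ((∫ x, ‖F x‖ ∂(vK μ T ι D v a) : ℝ) : ℂ) := fun a => by
    unfold vE
    exact integral_complex_ofReal
  simp_rw [h2] at h1
  rw [integral_complex_ofReal, integral_complex_ofReal, Complex.ofReal_inj] at h1
  rw [h1]
  refine integral_mono_of_nonneg (Eventually.of_forall fun a => norm_nonneg _) ?_
    (Eventually.of_forall fun a => norm_integral_le_integral_norm _)
  have h3 := ((vE_bm μ T ι D v (sa_norm_bm hF)).integrable μ).re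
  refine h3.congr (Eventually.of_forall fun a => ?_)
  simp only [h2]
  simp

/-- the bounded versions of the conditional expectations on the invariant sets -/
theorem sa_inv {X : Type} [MeasurableSpace X] [StandardBorelSpace X]
    (μ : Measure X) [IsProbabilityMeasure μ] (T : X ≃ᵐ X) (κ : Type) [Fintype κ] (D : ℕ)
    {H : κ → Arr κ X D → ℂ} (hH : ∀ i, BM (H i)) :
    ∃ E : κ → Arr κ X D → ℂ, (∀ i, BM (E i)) ∧
      ∀ i, (cube μ T κ D)[H i | Inv (tArr T κ D)] =ᵐ[cube μ T κ D] E i := by
  have := cube_prob μ T κ D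
  have h : ∀ i, ∃ g : Arr κ X D → ℂ, BM g ∧
      (cube μ T κ D)[H i | Inv (tArr T κ D)] =ᵐ[cube μ T κ D] g := by
    intro i
    obtain ⟨hm, C, hC⟩ := hH i
    obtain ⟨g, h1, h2, h3⟩ := exists_bms_condExp (Inv (tArr T κ D)) (cube μ T κ D)
      (MeasurableSpace.invariants_le _) hm hC
    exact ⟨g, ⟨h1.mono (MeasurableSpace.invariants_le _) le_rfl, C, h2⟩, h3⟩
  choose g hg1 hg2 using h
  exact ⟨g, hg1, hg2⟩

/-- the vertex expectation of a product over the slices -/
theorem sa_vE_prod {X : Type} [MeasurableSpace X] [StandardBorelSpace X] [Nonempty X]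
    (μ : Measure X) [IsProbabilityMeasure μ] (T : X ≃ᵐ X) (κ : Type) [Fintype κ] [DecidableEq κ]
    (D : ℕ) (a₀ : Fin (D + 1) → κ) {H E : κ → Arr κ X D → ℂ} (hH : ∀ i, BM (H i))
    (hE : ∀ i, BM (E i))
    (hHE : ∀ i, (cube μ T κ D)[H i | Inv (tArr T κ D)] =ᵐ[cube μ T κ D] E i) :
    vE μ T κ (D + 1) a₀ (fun x => ∏ i, H i (slice x i)) =ᵐ[μ]
      vE μ T κ D (fun j => a₀ j.succ)
        (fun z => H (a₀ 0) z * ∏ i ∈ Finset.univ.erase (a₀ 0), E i z) := by
  have hb1 : BM (fun x : Arr κ X (D + 1) => ∏ i, H i (slice x i)) :=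
    BMs.prod _ fun i => (hH i).comp (measurable_slice i)
  have hb2 : BM (fun z => H (a₀ 0) z * ∏ i ∈ Finset.univ.erase (a₀ 0), E i z) :=
    BMs.mul (hH _) (BMs.prod _ hE)
  refine sa_ae_eq (vE_bm _ _ _ _ _ hb1) (vE_bm _ _ _ _ _ hb2) fun φ hφ => ?_
  rw [← integral_vK μ T κ (D + 1) a₀ hb1 hφ, ← integral_vK μ T κ D _ hb2 hφ]
  set H' : κ → Arr κ X D → ℂ := fun i z =>
    if i = a₀ 0 then φ (z (fun j => a₀ j.succ)) * H i z else H i z with hH'
  have hH'b : ∀ i, BM (H' i) := by
    intro i
    by_cases hi : i = a₀ 0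
    · simp only [hH', hi, if_true]
      exact BMs.mul (BMs.comp hφ (measurable_pi_apply _)) (hH _)
    · simp only [hH', hi, if_false]
      exact hH _
  have h1 := cube_pull μ T hH'b (a₀ 0)
  have e1 : ∀ x : Arr κ X (D + 1), φ (x a₀) * ∏ i, H i (slice x i) =
      ∏ i, H' i (slice x i) := by
    intro x
    rw [← Finset.mul_prod_erase Finset.univ _ (Finset.mem_univ (a₀ 0)),
      ← Finset.mul_prod_erase Finset.univ (fun i => H' i (slice x i)) (Finset.mem_univ (a₀ 0)),
      ← mul_assoc]
    congr 1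
    · simp only [hH', if_true]
      congr 2
      unfold slice
      congr 1
      exact (Fin.cons_self_tail a₀).symm
    · refine Finset.prod_congr rfl fun i hi => ?_
      simp only [hH', if_neg (Finset.ne_of_mem_erase hi)]
  simp_rw [e1]
  rw [h1]
  have hae : ∀ᵐ y ∂(cube μ T κ D), ∀ i, ((cube μ T κ D)[H i | Inv (tArr T κ D)]) y = E i y :=
    ae_all_iff.2 hHE
  refine integral_congr_ae ?_
  filter_upwards [hae] with y hy
  simp only [hH', if_true]
  rw [mul_assoc]
  congr 2
  refine Finset.prod_congr rfl fun i hi => ?_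
  simp only [if_neg (Finset.ne_of_mem_erase hi)]
  exact hy i

theorem sa_two {X : Type} [MeasurableSpace X] [StandardBorelSpace X] [Nonempty X]
    (μ : Measure X) [IsProbabilityMeasure μ] (T : X ≃ᵐ X) (hT : MeasurePreserving T μ μ)
    {ι κ κ' : Type} [Fintype ι] [Fintype κ] [Fintype κ'] (D : ℕ) : ∀ (e : Fin D → κ → ι)
    (e' : Fin D → κ' → ι) (_ : ∀ j, Function.Injective (e j))
    (_ : ∀ j, Function.Injective (e' j)) (a₀ : Fin D → κ) (b₀ : Fin D → κ')
    (_ : ∀ j, e j (a₀ j) = e' j (b₀ j)) (_ : ∀ j a b, e j a = e' j b → a = a₀ j ∧ b = b₀ j)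
    {F : Arr κ X D → ℂ} (_ : BM F) {G : Arr κ' X D → ℂ} (_ : BM G),
    ∫ y, F (rst e y) * G (rst e' y) ∂(cube μ T ι D) =
      ∫ a, vE μ T κ D a₀ F a * vE μ T κ' D b₀ G a ∂μ := by
  classical
  induction D with
  | zero =>
    intro e e' he he' a₀ b₀ h0 h1 F hF G hG
    have hv : ∀ (κ : Type) [Fintype κ] (c : Fin 0 → κ) {F : Arr κ X 0 → ℂ} (_ : BM F),
        vE μ T κ 0 c F =ᵐ[μ] fun a => F (fun _ => a) := by
      intro κ _ c F hF
      have hb : BM (fun a : X => F (fun _ => a)) := BMs.comp hF (by fun_prop)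
      refine sa_ae_eq (vE_bm _ _ _ _ _ hF) hb fun φ hφ => ?_
      rw [← integral_vK μ T κ 0 c hF hφ]
      have hb2 : BM (fun x : Arr κ X 0 => φ (x c) * F x) :=
        BMs.mul (BMs.comp hφ (measurable_pi_apply _)) hF
      rw [integral_cube_zero μ T κ hb2]
    have hr : ∀ (κ : Type) (e : Fin 0 → κ → ι), Measurable (fun y : Arr ι X 0 => rst e y) := by
      intro κ e
      unfold rst
      fun_prop
    have hb3 : BM (fun y : Arr ι X 0 => F (rst e y) * G (rst e' y)) :=
      BMs.mul (BMs.comp hF (hr _ e)) (BMs.comp hG (hr _ e'))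
    rw [integral_cube_zero μ T ι hb3]
    refine integral_congr_ae ?_
    filter_upwards [hv κ a₀ hF, hv κ' b₀ hG] with a ha hb
    rw [ha, hb]
    rfl
  | succ D ih =>
    intro e e' he he' a₀ b₀ h0 h1 F hF G hG
    have hCι := cube_prob μ T ι (D + 1)
    have hCι' := cube_prob μ T ι D
    have hCκ := cube_prob μ T κ D
    have hCκ' := cube_prob μ T κ' D
    have hr := cube_rst (μ := μ) hT e he
    have hr' := cube_rst (μ := μ) hT e' he'
    have hq := cube_rst (μ := μ) hT (fun j => e j.succ) (fun j => he _)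
    have hq' := cube_rst (μ := μ) hT (fun j => e' j.succ) (fun j => he' _)
    -- products
    have hpp : ∀ (F : κ → Arr κ X D → ℂ) (G : κ' → Arr κ' X D → ℂ), (∀ i, BM (F i)) →
        (∀ i, BM (G i)) →
        ∫ y, (∏ i, F i (slice (rst e y) i)) * (∏ i, G i (slice (rst e' y) i))
          ∂(cube μ T ι (D + 1)) =
        ∫ a, vE μ T κ (D + 1) a₀ (fun x => ∏ i, F i (slice x i)) a *
          vE μ T κ' (D + 1) b₀ (fun x => ∏ i, G i (slice x i)) a ∂μ := by
      intro F G hF hG
      obtain ⟨EF, hEF, hEF2⟩ := sa_inv μ T κ D hF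
      obtain ⟨EG, hEG, hEG2⟩ := sa_inv μ T κ' D hG
      have hR : ∫ a, vE μ T κ (D + 1) a₀ (fun x => ∏ i, F i (slice x i)) a *
          vE μ T κ' (D + 1) b₀ (fun x => ∏ i, G i (slice x i)) a ∂μ =
          ∫ a, vE μ T κ D (fun j => a₀ j.succ)
            (fun z => F (a₀ 0) z * ∏ i ∈ Finset.univ.erase (a₀ 0), EF i z) a *
          vE μ T κ' D (fun j => b₀ j.succ)
            (fun z => G (b₀ 0) z * ∏ i ∈ Finset.univ.erase (b₀ 0), EG i z) a ∂μ := by
        refine integral_congr_ae ?_
        filter_upwards [sa_vE_prod μ T κ D a₀ hF hEF hEF2, sa_vE_prod μ T κ' D b₀ hG hEG hEG2]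
          with a ha hb
        rw [ha, hb]
      have hbF : BM (fun z => F (a₀ 0) z * ∏ i ∈ Finset.univ.erase (a₀ 0), EF i z) :=
        BMs.mul (hF _) (BMs.prod _ hEF)
      have hbG : BM (fun z => G (b₀ 0) z * ∏ i ∈ Finset.univ.erase (b₀ 0), EG i z) :=
        BMs.mul (hG _) (BMs.prod _ hEG)
      rw [hR, ← ih (fun j => e j.succ) (fun j => e' j.succ) (fun j => he _) (fun j => he' _)
        (fun j => a₀ j.succ) (fun j => b₀ j.succ) (fun j => h0 _) (fun j a b => h1 _ a b) hbF hbG]
      -- left side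
      set R := rst (X := X) (fun j : Fin D => e j.succ) with hRdef
      set R' := rst (X := X) (fun j : Fin D => e' j.succ) with hR'def
      set H : ι → Arr ι X D → ℂ := fun i y =>
        (∏ k ∈ Finset.univ.filter (fun k => e 0 k = i), F k (R y)) *
          ∏ k ∈ Finset.univ.filter (fun k => e' 0 k = i), G k (R' y) with hHdef
      have hH : ∀ i, BM (H i) := fun i =>
        BMs.mul (BMs.prod _ fun k => BMs.comp (hF k) hq.mp.measurable)
          (BMs.prod _ fun k => BMs.comp (hG k) hq'.mp.measurable)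
      have hleft : ∀ y : Arr ι X (D + 1),
          (∏ i, F i (slice (rst e y) i)) * (∏ i, G i (slice (rst e' y) i)) =
            ∏ i, H i (slice y i) := by
        intro y
        have hs : ∀ k, slice (rst e y) k = R (slice y (e 0 k)) := by
          intro k
          funext w
          simp only [slice, rst, hRdef]
          congr 1
          funext j
          refine Fin.cases ?_ (fun j => ?_) j <;> simp
        have hs' : ∀ k, slice (rst e' y) k = R' (slice y (e' 0 k)) := by
          intro k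
          funext w
          simp only [slice, rst, hR'def]
          congr 1
          funext j
          refine Fin.cases ?_ (fun j => ?_) j <;> simp
        simp only [hHdef, hs, hs']
        rw [Finset.prod_mul_distrib]
        congr 1
        · rw [← Finset.prod_fiberwise (s := Finset.univ) (g := fun k => e 0 k)]
          refine Finset.prod_congr rfl fun i _ => Finset.prod_congr rfl fun k hk => ?_
          rw [(Finset.mem_filter.1 hk).2]
        · rw [← Finset.prod_fiberwise (s := Finset.univ) (g := fun k => e' 0 k)]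
          refine Finset.prod_congr rfl fun i _ => Finset.prod_congr rfl fun k hk => ?_
          rw [(Finset.mem_filter.1 hk).2]
      simp_rw [hleft]
      rw [cube_pull μ T hH (e 0 (a₀ 0))]
      have hfe : ∀ k, Finset.univ.filter (fun k' => e 0 k' = e 0 k) = {k} := fun k => by
        ext k'
        simp [(he 0).eq_iff]
      have hfe' : ∀ k, Finset.univ.filter (fun k' => e' 0 k' = e' 0 k) = {k} := fun k => by
        ext k'
        simp [(he' 0).eq_iff]
      -- the kept slice
      have hkeep : ∀ y, H (e 0 (a₀ 0)) y = F (a₀ 0) (R y) * G (b₀ 0) (R' y) := by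
        intro y
        simp only [hHdef]
        rw [hfe]
        conv_lhs => rw [h0 0, hfe']
        simp
      -- conditional expectations of the others
      have hcF : ∀ k, (cube μ T ι D)[fun y => F k (R y) | Inv (tArr T ι D)] =ᵐ[cube μ T ι D]
          fun y => EF k (R y) := by
        intro k
        have g1 := condExp_inv_comp (cube_tArr μ T hT ι D) (cube_tArr μ T hT κ D) hq (hF k)
        have g2 := hq.mp.quasiMeasurePreserving.ae (hEF2 k)
        filter_upwards [g1, g2] with y hy1 hy2
        rw [hy1, hy2]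
      have hcG : ∀ k, (cube μ T ι D)[fun y => G k (R' y) | Inv (tArr T ι D)] =ᵐ[cube μ T ι D]
          fun y => EG k (R' y) := by
        intro k
        have g1 := condExp_inv_comp (cube_tArr μ T hT ι D) (cube_tArr μ T hT κ' D) hq' (hG k)
        have g2 := hq'.mp.quasiMeasurePreserving.ae (hEG2 k)
        filter_upwards [g1, g2] with y hy1 hy2
        rw [hy1, hy2]
      have hother : ∀ i, i ≠ e 0 (a₀ 0) →
          (cube μ T ι D)[H i | Inv (tArr T ι D)] =ᵐ[cube μ T ι D] fun y =>
            (∏ k ∈ Finset.univ.filter (fun k => e 0 k = i), EF k (R y)) *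
              ∏ k ∈ Finset.univ.filter (fun k => e' 0 k = i), EG k (R' y) := by
        intro i hi
        by_cases hk : ∃ k, e 0 k = i
        · obtain ⟨k, rfl⟩ := hk
          have hno : Finset.univ.filter (fun k' => e' 0 k' = e 0 k) = ∅ := by
            rw [Finset.filter_eq_empty_iff]
            intro k' _ hk'
            exact hi (by rw [(h1 0 k k' hk'.symm).1])
          have e1 : H (e 0 k) = fun y => F k (R y) := by
            funext y
            simp only [hHdef]
            rw [hfe, hno]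
            simp
          rw [e1, hfe, hno]
          refine (hcF k).trans (Eventually.of_forall fun y => ?_)
          simp
        · have hno : Finset.univ.filter (fun k' => e 0 k' = i) = ∅ := by
            rw [Finset.filter_eq_empty_iff]
            exact fun k' _ hk' => hk ⟨k', hk'⟩
          by_cases hk' : ∃ k, e' 0 k = i
          · obtain ⟨k, rfl⟩ := hk'
            have e1 : H (e' 0 k) = fun y => G k (R' y) := by
              funext y
              simp only [hHdef]
              rw [hno, hfe']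
              simp
            rw [e1, hno, hfe']
            refine (hcG k).trans (Eventually.of_forall fun y => ?_)
            simp
          · have hno' : Finset.univ.filter (fun k' => e' 0 k' = i) = ∅ := by
              rw [Finset.filter_eq_empty_iff]
              exact fun k _ hk => hk' ⟨k, hk⟩
            have e1 : H i = fun _ => 1 := by
              funext y
              simp only [hHdef]
              rw [hno, hno']
              simp
            rw [e1, hno, hno', condExp_const (MeasurableSpace.invariants_le _)]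
            simp
      have hall : ∀ᵐ y ∂(cube μ T ι D), ∀ i, i ≠ e 0 (a₀ 0) →
          ((cube μ T ι D)[H i | Inv (tArr T ι D)]) y =
            (∏ k ∈ Finset.univ.filter (fun k => e 0 k = i), EF k (R y)) *
              ∏ k ∈ Finset.univ.filter (fun k => e' 0 k = i), EG k (R' y) := by
        rw [ae_all_iff]
        intro i
        by_cases hi : i = e 0 (a₀ 0)
        · exact Eventually.of_forall fun y h => absurd hi h
        · filter_upwards [hother i hi] with y hy _
          exact hy
      refine integral_congr_ae ?_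
      filter_upwards [hall] with y hy
      rw [hkeep, Finset.prod_congr rfl fun i hi => hy i (Finset.ne_of_mem_erase hi),
        Finset.prod_mul_distrib]
      have p1 : ∏ i ∈ Finset.univ.erase (e 0 (a₀ 0)),
          ∏ k ∈ Finset.univ.filter (fun k => e 0 k = i), EF k (R y) =
          ∏ k ∈ Finset.univ.erase (a₀ 0), EF k (R y) := by
        rw [← Finset.prod_fiberwise_of_maps_to (s := Finset.univ.erase (a₀ 0))
          (t := Finset.univ.erase (e 0 (a₀ 0))) (g := fun k => e 0 k)]
        · refine Finset.prod_congr rfl fun i hi => Finset.prod_congr ?_ fun _ _ => rfl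
          ext k
          simp only [Finset.mem_filter, Finset.mem_univ, true_and, Finset.mem_erase, and_true]
          constructor
          · intro hk
            refine ⟨fun hk0 => (Finset.ne_of_mem_erase hi) ?_, hk⟩
            rw [← hk, hk0]
          · exact fun hk => hk.2
        · intro k hk
          refine Finset.mem_erase.2 ⟨fun h => (Finset.ne_of_mem_erase hk) (he 0 h),
            Finset.mem_univ _⟩
      have p2 : ∏ i ∈ Finset.univ.erase (e 0 (a₀ 0)),
          ∏ k ∈ Finset.univ.filter (fun k => e' 0 k = i), EG k (R' y) =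
          ∏ k ∈ Finset.univ.erase (b₀ 0), EG k (R' y) := by
        rw [h0 0, ← Finset.prod_fiberwise_of_maps_to (s := Finset.univ.erase (b₀ 0))
          (t := Finset.univ.erase (e' 0 (b₀ 0))) (g := fun k => e' 0 k)]
        · refine Finset.prod_congr rfl fun i hi => Finset.prod_congr ?_ fun _ _ => rfl
          ext k
          simp only [Finset.mem_filter, Finset.mem_univ, true_and, Finset.mem_erase, and_true]
          constructor
          · intro hk
            refine ⟨fun hk0 => (Finset.ne_of_mem_erase hi) ?_, hk⟩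
            rw [← hk, hk0]
          · exact fun hk => hk.2
        · intro k hk
          refine Finset.mem_erase.2 ⟨fun h => (Finset.ne_of_mem_erase hk) (he' 0 h),
            Finset.mem_univ _⟩
      rw [p1, p2]
      ring
    -- estimates
    have hint1 : ∀ {F : Arr κ X (D + 1) → ℂ}, BM F →
        Integrable (fun y => ‖F (rst e y)‖) (cube μ T ι (D + 1)) := fun hF =>
      (BM.integrable (BMs.comp hF hr.mp.measurable) _).norm
    have hint2 : ∀ {G : Arr κ' X (D + 1) → ℂ}, BM G →
        Integrable (fun y => ‖G (rst e' y)‖) (cube μ T ι (D + 1)) := fun hG =>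
      (BM.integrable (BMs.comp hG hr'.mp.measurable) _).norm
    have hn1 : ∀ {F : Arr κ X (D + 1) → ℂ}, BM F →
        ∫ y, ‖F (rst e y)‖ ∂(cube μ T ι (D + 1)) = ∫ x, ‖F x‖ ∂(cube μ T κ (D + 1)) := by
      intro F hF
      rw [← hr.mp.map_eq, integral_map hr.mp.measurable.aemeasurable
        hF.1.norm.aestronglyMeasurable]
    have hn2 : ∀ {G : Arr κ' X (D + 1) → ℂ}, BM G →
        ∫ y, ‖G (rst e' y)‖ ∂(cube μ T ι (D + 1)) = ∫ x, ‖G x‖ ∂(cube μ T κ' (D + 1)) := by
      intro G hG
      rw [← hr'.mp.map_eq, integral_map hr'.mp.measurable.aemeasurable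
        hG.1.norm.aestronglyMeasurable]
    have hI : ∀ {F : Arr κ X (D + 1) → ℂ} {G : Arr κ' X (D + 1) → ℂ}, BM F → BM G →
        Integrable (fun y => F (rst e y) * G (rst e' y)) (cube μ T ι (D + 1)) := fun hF hG =>
      BM.integrable (BMs.mul (BMs.comp hF hr.mp.measurable) (BMs.comp hG hr'.mp.measurable)) _
    have hJ : ∀ {F : Arr κ X (D + 1) → ℂ} {G : Arr κ' X (D + 1) → ℂ}, BM F → BM G →
        Integrable (fun a => vE μ T κ (D + 1) a₀ F a * vE μ T κ' (D + 1) b₀ G a) μ := fun hF hG =>
      BM.integrable (BMs.mul (vE_bm μ T κ _ a₀ hF) (vE_bm μ T κ' _ b₀ hG)) _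
    haveI hneκ : Nonempty κ := ⟨a₀ 0⟩
    haveI hneκ' : Nonempty κ' := ⟨b₀ 0⟩
    -- first step: `G` a product
    have step1 : ∀ (G : κ' → Arr κ' X D → ℂ), (∀ i, BM (G i)) →
        ∀ {F : Arr κ X (D + 1) → ℂ}, BM F →
        ∫ y, F (rst e y) * (∏ i, G i (slice (rst e' y) i)) ∂(cube μ T ι (D + 1)) -
          ∫ a, vE μ T κ (D + 1) a₀ F a *
            vE μ T κ' (D + 1) b₀ (fun x => ∏ i, G i (slice x i)) a ∂μ = 0 := by
      intro G hG F hF
      have hGb : BM (fun x : Arr κ' X (D + 1) => ∏ i, G i (slice x i)) :=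
        BMs.prod _ fun i => (hG i).comp (measurable_slice i)
      obtain ⟨B, hB⟩ := hGb.2
      obtain ⟨B', hB'⟩ := (vE_bm μ T κ' (D + 1) b₀ hGb).2
      refine sa_ext μ T κ D (fun F => ∫ y, F (rst e y) * (∏ i, G i (slice (rst e' y) i))
          ∂(cube μ T ι (D + 1)) - ∫ a, vE μ T κ (D + 1) a₀ F a *
            vE μ T κ' (D + 1) b₀ (fun x => ∏ i, G i (slice x i)) a ∂μ) ?_
        (K := |B| + |B'|) (by positivity) ?_ ?_ hF
      · intro F F' hF hF'
        simp only [sa_vE_add μ T κ (D + 1) a₀ hF hF', add_mul]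
        rw [integral_add (hI hF hGb) (hI hF' hGb), integral_add (hJ hF hGb) (hJ hF' hGb)]
        ring
      · intro F hF
        refine (norm_sub_le _ _).trans ?_
        rw [add_mul]
        refine add_le_add ?_ ?_
        · rw [← hn1 hF, ← integral_const_mul]
          refine norm_integral_le_of_norm_le ((hint1 hF).const_mul _)
            (Eventually.of_forall fun y => ?_)
          rw [norm_mul, mul_comm]
          exact mul_le_mul_of_nonneg_right ((hB _).trans (le_abs_self _)) (norm_nonneg _)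
        · refine le_trans ?_ (mul_le_mul_of_nonneg_left (sa_vE_norm μ T κ (D + 1) a₀ hF)
            (abs_nonneg _))
          rw [← integral_const_mul]
          refine norm_integral_le_of_norm_le
            (((vE_bm μ T κ _ a₀ hF).integrable μ).norm.const_mul _)
            (Eventually.of_forall fun y => ?_)
          rw [norm_mul, mul_comm]
          exact mul_le_mul_of_nonneg_right ((hB' _).trans (le_abs_self _)) (norm_nonneg _)
      · intro H hH
        rw [hpp H G hH hG, sub_self]
    -- second step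
    have step2 : ∫ y, F (rst e y) * G (rst e' y) ∂(cube μ T ι (D + 1)) -
        ∫ a, vE μ T κ (D + 1) a₀ F a * vE μ T κ' (D + 1) b₀ G a ∂μ = 0 := by
      obtain ⟨B, hB⟩ := hF.2
      obtain ⟨B', hB'⟩ := (vE_bm μ T κ (D + 1) a₀ hF).2
      refine sa_ext μ T κ' D (fun G => ∫ y, F (rst e y) * G (rst e' y)
          ∂(cube μ T ι (D + 1)) - ∫ a, vE μ T κ (D + 1) a₀ F a *
            vE μ T κ' (D + 1) b₀ G a ∂μ) ?_
        (K := |B| + |B'|) (by positivity) ?_ ?_ hG
      · intro G G' hG hG'
        simp only [sa_vE_add μ T κ' (D + 1) b₀ hG hG', mul_add]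
        rw [integral_add (hI hF hG) (hI hF hG'), integral_add (hJ hF hG) (hJ hF hG')]
        ring
      · intro G hG
        refine (norm_sub_le _ _).trans ?_
        rw [add_mul]
        refine add_le_add ?_ ?_
        · rw [← hn2 hG, ← integral_const_mul]
          refine norm_integral_le_of_norm_le ((hint2 hG).const_mul _)
            (Eventually.of_forall fun y => ?_)
          rw [norm_mul]
          exact mul_le_mul_of_nonneg_right ((hB _).trans (le_abs_self _)) (norm_nonneg _)
        · refine le_trans ?_ (mul_le_mul_of_nonneg_left (sa_vE_norm μ T κ' (D + 1) b₀ hG)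
            (abs_nonneg _))
          rw [← integral_const_mul]
          refine norm_integral_le_of_norm_le
            (((vE_bm μ T κ' _ b₀ hG).integrable μ).norm.const_mul _)
            (Eventually.of_forall fun y => ?_)
          rw [norm_mul]
          exact mul_le_mul_of_nonneg_right ((hB' _).trans (le_abs_self _)) (norm_nonneg _)
      · intro H hH
        exact step1 H hH hF
    exact sub_eq_zero.1 step2

/-- **SA2.** (T2) Two patterns which have only one vertex in common are conditionally independent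
given the common vertex.

Proof. By approximation in `L²` (`approx_prod` for the measures `cube μ T κ D` and `cube μ T κ' D`;
both sides are continuous in `F` and `G` for the `L²` norms by Cauchy-Schwarz and `cube_rst`) it
suffices to treat `F = ∏ v, f v (x v)` and `G = ∏ v, g v (x v)`; induction on `D` for the statement
with general `F`, `G`. `D = 0`: all arrays have one vertex, both sides are `∫ F G`. `D + 1`: it
suffices to treat `F = ∏ k, F_k (slice x k)`, `G = ∏ k', G_k' (slice x k')` (again by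
approximation). Write `e₊ j = e j.succ` and so on. The slice `k` of `rst e y` is
`rst e₊ (slice y (e 0 k))`. By `cube_pull` (the slice `c 0` is kept; the slices `e 0 k`, `e' 0 k'`
are pairwise different apart from `e 0 (a₀ 0) = e' 0 (b₀ 0) = c 0`) and
`E[F_k ∘ rst e₊ | Inv] = E[F_k | Inv] ∘ rst e₊` (AVG2b, `cube_rst`) the left side is
`∫ F'(rst e₊ z) G'(rst e'₊ z) ∂(cube μ T ι D)` with `F' = F_{a₀ 0} ∏_{k ≠ a₀ 0} E[F_k | Inv]`, similarly
`G'`. By induction it is `∫ vE F' * vE G'`, and `vE_{a₀₊} F' = vE_{a₀} F` almost everywhere, by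
`integral_vK` and `cube_pull`: `∫ φ(x a₀) F x = ∫ φ(z a₀₊) F'(z)`. -/
theorem two_patterns {X : Type} [MeasurableSpace X] [StandardBorelSpace X] [Nonempty X]
    (μ : Measure X) [IsProbabilityMeasure μ] (T : X ≃ᵐ X) (hT : MeasurePreserving T μ μ)
    {ι κ κ' : Type} [Fintype ι] [Fintype κ] [Fintype κ'] (D : ℕ) (e : Fin D → κ → ι)
    (e' : Fin D → κ' → ι) (he : ∀ j, Function.Injective (e j))
    (he' : ∀ j, Function.Injective (e' j)) (a₀ : Fin D → κ) (b₀ : Fin D → κ')
    (h0 : ∀ j, e j (a₀ j) = e' j (b₀ j)) (h1 : ∀ j a b, e j a = e' j b → a = a₀ j ∧ b = b₀ j)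
    {F : Arr κ X D → ℂ} (hF : BM F) {G : Arr κ' X D → ℂ} (hG : BM G) :
    ∫ y, F (rst e y) * G (rst e' y) ∂(cube μ T ι D) =
      ∫ a, vE μ T κ D a₀ F a * vE μ T κ' D b₀ G a ∂μ := by
  exact sa_two μ T hT D e e' he he' a₀ b₀ h0 h1 hF hG

end Pool.Agent.HK820

end

/-! ### Part `SB` -/

section

open MeasureTheory ProbabilityTheory Filter Topology
open scoped ComplexConjugate ENNReal

namespace Pool.Agent.HK820

theorem sb_meas_rst {ι κ X : Type} [MeasurableSpace X] {D : ℕ} (e : Fin D → κ → ι) :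
    Measurable (rst e : Arr ι X D → Arr κ X D) :=
  measurable_pi_lambda _ fun _ => measurable_pi_apply _

/-- change of variables along a restriction -/
theorem sb_integral_rst {X : Type} [MeasurableSpace X] [StandardBorelSpace X]
    {μ : Measure X} [IsProbabilityMeasure μ] {T : X ≃ᵐ X} (hT : MeasurePreserving T μ μ)
    {ι κ : Type} [Fintype ι] [Fintype κ] {D : ℕ} (e : Fin D → κ → ι)
    (he : ∀ j, Function.Injective (e j)) {F : Arr κ X D → ℂ} (hF : BM F) :
    ∫ y, F (rst e y) ∂(cube μ T ι D) = ∫ x, F x ∂(cube μ T κ D) := by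
  have h := (cube_rst hT e he).mp
  rw [← h.map_eq, integral_map h.measurable.aemeasurable hF.1.aestronglyMeasurable]

theorem sb_integral_rst_sq {X : Type} [MeasurableSpace X] [StandardBorelSpace X]
    {μ : Measure X} [IsProbabilityMeasure μ] {T : X ≃ᵐ X} (hT : MeasurePreserving T μ μ)
    {ι κ : Type} [Fintype ι] [Fintype κ] {D : ℕ} (e : Fin D → κ → ι)
    (he : ∀ j, Function.Injective (e j)) {F : Arr κ X D → ℂ} (hF : BM F) :
    ∫ y, ‖F (rst e y)‖ ^ 2 ∂(cube μ T ι D) = ∫ x, ‖F x‖ ^ 2 ∂(cube μ T κ D) := by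
  have h := (cube_rst hT e he).mp
  rw [← h.map_eq, integral_map h.measurable.aemeasurable
    ((hF.1.norm.pow_const 2).aestronglyMeasurable)]

/-- the square of the norm of an integral is at most the integral of the square -/
theorem sb_sq {X : Type} [MeasurableSpace X] (μ : Measure X) [IsProbabilityMeasure μ]
    {h : X → ℂ} (hh : BM h) : ‖∫ x, h x ∂μ‖ ^ 2 ≤ ∫ x, ‖h x‖ ^ 2 ∂μ := by
  have hi : Integrable (fun x => ‖h x‖) μ := (hh.integrable μ).norm
  have hi2 : Integrable (fun x => ‖h x‖ ^ 2) μ := bas_int_sq hh μ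
  set m : ℝ := ∫ x, ‖h x‖ ∂μ with hm
  have h0 : 0 ≤ ∫ x, (‖h x‖ - m) ^ 2 ∂μ := integral_nonneg fun x => sq_nonneg _
  have h1 : ∫ x, (‖h x‖ - m) ^ 2 ∂μ = (∫ x, ‖h x‖ ^ 2 ∂μ) - m ^ 2 := by
    have h2 : (fun x => (‖h x‖ - m) ^ 2) = fun x => (‖h x‖ ^ 2 - (2 * m) * ‖h x‖) + m ^ 2 := by
      funext x; ring
    have hi3 : Integrable (fun x => ‖h x‖ ^ 2 - (2 * m) * ‖h x‖) μ := hi2.sub (hi.const_mul _)
    rw [h2, integral_add hi3 (integrable_const _),
      integral_sub hi2 (hi.const_mul _), integral_const_mul, ← hm]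
    simp only [integral_const, probReal_univ, smul_eq_mul, one_mul]
    ring
  have h2 : ‖∫ x, h x ∂μ‖ ≤ m := norm_integral_le_integral_norm _
  have h3 : ‖∫ x, h x ∂μ‖ ^ 2 ≤ m ^ 2 := pow_le_pow_left₀ (norm_nonneg _) h2 2
  linarith

/-- **SB1.** (T2, conditional expectation form): given the second pattern, the expectation of a
function of the first pattern is its expectation given the common vertex (test with `two_patterns`
against `G (rst e' y)`; `condExp_eq_of_forall`). -/
theorem two_patterns_condExp {X : Type} [MeasurableSpace X] [StandardBorelSpace X] [Nonempty X]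
    (μ : Measure X) [IsProbabilityMeasure μ] (T : X ≃ᵐ X) (hT : MeasurePreserving T μ μ)
    {ι κ κ' : Type} [Fintype ι] [Fintype κ] [Fintype κ'] (D : ℕ) (e : Fin D → κ → ι)
    (e' : Fin D → κ' → ι) (he : ∀ j, Function.Injective (e j))
    (he' : ∀ j, Function.Injective (e' j)) (a₀ : Fin D → κ) (b₀ : Fin D → κ')
    (h0 : ∀ j, e j (a₀ j) = e' j (b₀ j)) (h1 : ∀ j a b, e j a = e' j b → a = a₀ j ∧ b = b₀ j)
    {F : Arr κ X D → ℂ} (hF : BM F) :
    (cube μ T ι D)[fun y => F (rst e y) | MeasurableSpace.comap (rst e') inferInstance]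
      =ᵐ[cube μ T ι D] fun y => vE μ T κ D a₀ F (y (fun j => e j (a₀ j))) := by
  classical
  have := cube_prob μ T ι D
  have := cube_prob μ T κ' D
  have hm : MeasurableSpace.comap (rst e' : Arr ι X D → Arr κ' X D) inferInstance ≤
    (inferInstance : MeasurableSpace (Arr ι X D)) := (sb_meas_rst e').comap_le
  have hv : BM (vE μ T κ D a₀ F) := vE_bm μ T κ D a₀ hF
  have hroot : ∀ y : Arr ι X D, y (fun j => e j (a₀ j)) = (rst e' y : Arr κ' X D) b₀ := by
    intro y
    simp only [rst, h0]
  refine condExp_eq_of_forall _ _ hm (hF.comp (sb_meas_rst e)) ?_ ?_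
  · obtain ⟨hv1, C, hC⟩ := hv
    refine ⟨?_, C, fun y => hC _⟩
    have h2 : (fun y : Arr ι X D => vE μ T κ D a₀ F (y (fun j => e j (a₀ j)))) =
        (fun x : Arr κ' X D => vE μ T κ D a₀ F (x b₀)) ∘ rst e' := by
      funext y
      simp only [Function.comp]
      rw [← hroot y]
    rw [h2]
    exact (hv1.comp (measurable_pi_apply b₀)).comp (comap_measurable _)
  · intro g hg
    obtain ⟨hg1, C, hC⟩ := hg
    obtain ⟨G', hG', hGG⟩ := hg1.exists_eq_measurable_comp
    subst hGG
    have hms : MeasurableSet {x : Arr κ' X D | ‖G' x‖ ≤ C} :=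
      measurableSet_le hG'.norm measurable_const
    obtain ⟨G, hG, hGe⟩ : ∃ G : Arr κ' X D → ℂ, BM G ∧ ∀ y : Arr ι X D,
        G' (rst e' y) = G (rst e' y) := by
      refine ⟨{x : Arr κ' X D | ‖G' x‖ ≤ C}.indicator G', ⟨hG'.indicator hms, |C|, fun x => ?_⟩,
        fun y => ?_⟩
      · by_cases hx : x ∈ {x : Arr κ' X D | ‖G' x‖ ≤ C}
        · rw [Set.indicator_of_mem hx]
          exact le_trans hx (le_abs_self C)
        · rw [Set.indicator_of_notMem hx, norm_zero]
          exact abs_nonneg C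
      · rw [Set.indicator_of_mem]
        exact hC y
    have e1 : ∫ y, (G' ∘ rst e') y * F (rst e y) ∂(cube μ T ι D) =
        ∫ a, vE μ T κ D a₀ F a * vE μ T κ' D b₀ G a ∂μ := by
      rw [← two_patterns μ T hT D e e' he he' a₀ b₀ h0 h1 hF hG]
      refine integral_congr_ae (Eventually.of_forall fun y => ?_)
      simp only [Function.comp]
      rw [hGe y, mul_comm]
    have e2 : ∫ y, (G' ∘ rst e') y * vE μ T κ D a₀ F (y (fun j => e j (a₀ j))) ∂(cube μ T ι D) =
        ∫ a, vE μ T κ D a₀ F a * vE μ T κ' D b₀ G a ∂μ := by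
      rw [← integral_vK μ T κ' D b₀ hG hv, ← sb_integral_rst hT e' he'
        ((hv.comp (measurable_pi_apply b₀)).mul hG)]
      refine integral_congr_ae (Eventually.of_forall fun y => ?_)
      simp only [Function.comp]
      rw [hGe y, hroot y, mul_comm]
    rw [e1, e2]

theorem sb_bm_ind {Y : Type} [MeasurableSpace Y] {s : Set Y} (hs : MeasurableSet s) :
    BM (s.indicator (fun _ => (1 : ℂ))) := by
  refine ⟨measurable_const.indicator hs, 1, fun x => ?_⟩
  by_cases hx : x ∈ s
  · rw [Set.indicator_of_mem hx, norm_one]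
  · rw [Set.indicator_of_notMem hx, norm_zero]
    exact zero_le_one

theorem sb_vE_ind {X : Type} [MeasurableSpace X] [StandardBorelSpace X] [Nonempty X]
    (μ : Measure X) [IsProbabilityMeasure μ] (T : X ≃ᵐ X) (ι : Type) [Fintype ι] (D : ℕ)
    (v : Fin D → ι) {s : Set (Arr ι X D)} (hs : MeasurableSet s) (a : X) :
    vE μ T ι D v (s.indicator (fun _ => (1 : ℂ))) a = (((vK μ T ι D v a).real s : ℝ) : ℂ) := by
  have := vK_prob μ T ι D v
  unfold vE
  rw [integral_indicator_const (1 : ℂ) hs]
  simp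

/-- **SB2.** (T2, joint law form). The law of the pair of patterns is obtained by choosing the
common vertex and then the two patterns independently.

Proof. Both sides are integrals of `K` against probability measures on the product
`Arr κ X D × Arr κ' X D` which agree on products `F * G` (`two_patterns`, and Fubini), hence are
equal (π-system of rectangles). -/
theorem two_patterns_joint {X : Type} [MeasurableSpace X] [StandardBorelSpace X] [Nonempty X]
    (μ : Measure X) [IsProbabilityMeasure μ] (T : X ≃ᵐ X) (hT : MeasurePreserving T μ μ)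
    {ι κ κ' : Type} [Fintype ι] [Fintype κ] [Fintype κ'] (D : ℕ) (e : Fin D → κ → ι)
    (e' : Fin D → κ' → ι) (he : ∀ j, Function.Injective (e j))
    (he' : ∀ j, Function.Injective (e' j)) (a₀ : Fin D → κ) (b₀ : Fin D → κ')
    (h0 : ∀ j, e j (a₀ j) = e' j (b₀ j)) (h1 : ∀ j a b, e j a = e' j b → a = a₀ j ∧ b = b₀ j) :
    (cube μ T ι D).map (fun y => (rst e y, rst e' y)) =
      μ.bind (fun a => (vK μ T κ D a₀ a).prod (vK μ T κ' D b₀ a)) := by
  have := cube_prob μ T ι D
  have i1 := vK_prob μ T κ D a₀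
  have i2 := vK_prob μ T κ' D b₀
  have hpair : Measurable (fun y : Arr ι X D =>
      ((rst e y : Arr κ X D), (rst e' y : Arr κ' X D))) :=
    (sb_meas_rst e).prodMk (sb_meas_rst e')
  have : IsProbabilityMeasure ((cube μ T ι D).map (fun y : Arr ι X D =>
      ((rst e y : Arr κ X D), (rst e' y : Arr κ' X D)))) :=
    Measure.isProbabilityMeasure_map hpair.aemeasurable
  have hb : (fun a => (vK μ T κ D a₀ a).prod (vK μ T κ' D b₀ a)) =
      ⇑(Kernel.prod (vK μ T κ D a₀) (vK μ T κ' D b₀)) := by
    funext a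
    rw [Kernel.prod_apply]
  rw [hb]
  refine Measure.ext_prod (fun {s t} hs ht => ?_)
  rw [Measure.map_apply hpair (hs.prod ht), Measure.bind_apply (hs.prod ht)
    (Kernel.measurable _).aemeasurable]
  simp_rw [Kernel.prod_apply_prod]
  have key := two_patterns μ T hT D e e' he he' a₀ b₀ h0 h1 (sb_bm_ind hs) (sb_bm_ind ht)
  simp_rw [sb_vE_ind μ T κ D a₀ hs, sb_vE_ind μ T κ' D b₀ ht, ← Complex.ofReal_mul] at key
  rw [integral_complex_ofReal] at key
  have hpre : MeasurableSet ((fun y : Arr ι X D =>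
      ((rst e y : Arr κ X D), (rst e' y : Arr κ' X D))) ⁻¹' (s ×ˢ t)) := hpair (hs.prod ht)
  have hl : ∫ y, s.indicator (fun _ => (1 : ℂ)) (rst e y) *
      t.indicator (fun _ => (1 : ℂ)) (rst e' y) ∂(cube μ T ι D) =
      (((cube μ T ι D).real ((fun y : Arr ι X D =>
      ((rst e y : Arr κ X D), (rst e' y : Arr κ' X D))) ⁻¹' (s ×ˢ t)) : ℝ) : ℂ) := by
    have h2 : (fun y : Arr ι X D => s.indicator (fun _ => (1 : ℂ)) (rst e y) *
      t.indicator (fun _ => (1 : ℂ)) (rst e' y)) = ((fun y : Arr ι X D =>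
      ((rst e y : Arr κ X D), (rst e' y : Arr κ' X D))) ⁻¹' (s ×ˢ t)).indicator
        (fun _ => (1 : ℂ)) := by
      funext y
      by_cases h3 : (rst e y : Arr κ X D) ∈ s
      · by_cases h4 : (rst e' y : Arr κ' X D) ∈ t
        · rw [Set.indicator_of_mem h3, Set.indicator_of_mem h4, Set.indicator_of_mem, mul_one]
          exact ⟨h3, h4⟩
        · rw [Set.indicator_of_notMem h4, mul_zero]
          symm
          refine Set.indicator_of_notMem ?_ _
          intro h
          exact h4 (Set.mem_prod.1 (Set.mem_preimage.1 h)).2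
      · rw [Set.indicator_of_notMem h3, zero_mul]
        symm
        refine Set.indicator_of_notMem ?_ _
        intro h
        exact h3 (Set.mem_prod.1 (Set.mem_preimage.1 h)).1
    rw [h2, integral_indicator_const (1 : ℂ) hpre]
    simp
  rw [hl, Complex.ofReal_inj] at key
  have hm1 : Measurable fun a => (vK μ T κ D a₀ a).real s :=
    ((Kernel.measurable_coe (vK μ T κ D a₀) hs).ennreal_toReal)
  have hm2 : Measurable fun a => (vK μ T κ' D b₀ a).real t :=
    ((Kernel.measurable_coe (vK μ T κ' D b₀) ht).ennreal_toReal)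
  have hint : Integrable (fun a => (vK μ T κ D a₀ a).real s * (vK μ T κ' D b₀ a).real t) μ := by
    refine Integrable.of_bound (hm1.mul hm2).aestronglyMeasurable 1
      (Eventually.of_forall fun a => ?_)
    rw [Real.norm_of_nonneg (mul_nonneg measureReal_nonneg measureReal_nonneg)]
    exact mul_le_one₀ measureReal_le_one measureReal_nonneg measureReal_le_one
  have h5 := ofReal_integral_eq_lintegral_ofReal hint
    (Eventually.of_forall fun a => mul_nonneg measureReal_nonneg measureReal_nonneg)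
  rw [← key, ofReal_measureReal] at h5
  rw [h5]
  refine lintegral_congr fun a => ?_
  rw [ENNReal.ofReal_mul measureReal_nonneg, ofReal_measureReal, ofReal_measureReal]

/-! #### SB3 -/

/-- density of the products over slices for continuous functionals -/
theorem sb_dense {X : Type} [MeasurableSpace X] [StandardBorelSpace X]
    (μ : Measure X) [IsProbabilityMeasure μ] (T : X ≃ᵐ X) {κ : Type} [Fintype κ] [Nonempty κ] (D : ℕ)
    (L : (Arr κ X (D + 1) → ℂ) → ℂ) (C : ℝ)
    (hadd : ∀ F G, BM F → BM G → L (fun x => F x + G x) = L F + L G)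
    (hsub : ∀ F G, BM F → BM G → L (fun x => F x - G x) = L F - L G)
    (hsm : ∀ (c : ℂ) F, BM F → L (fun x => c * F x) = c * L F)
    (hbd : ∀ F, BM F → ‖L F‖ ^ 2 ≤ C * ∫ x, ‖F x‖ ^ 2 ∂(cube μ T κ (D + 1)))
    (hprod : ∀ Fk : κ → Arr κ X D → ℂ, (∀ k, BM (Fk k)) →
      L (fun x => ∏ k, Fk k (slice x k)) = 0)
    {F : Arr κ X (D + 1) → ℂ} (hF : BM F) : L F = 0 := by
  classical
  have := cube_prob μ T κ (D + 1)
  rcases isEmpty_or_nonempty κ with hκ | hκ
  · have he : IsEmpty (Fin (D + 1) → κ) := ⟨fun v => hκ.elim (v 0)⟩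
    have h1 : ∀ x : Arr κ X (D + 1), F x = F (fun v => he.elim v) := fun x =>
      congrArg F (funext fun v => he.elim v)
    have h2 := hprod (fun _ _ => 1) (fun _ => BMs.const _ 1)
    simp only [Finset.prod_const_one] at h2
    have h3 := hsm (F (fun v => he.elim v)) (fun _ => 1) (BMs.const _ 1)
    rw [h2, mul_zero] at h3
    have h4 : F = fun _ => F (fun v => he.elim v) * 1 := by
      funext x
      rw [mul_one, ← h1 x]
    rw [h4]
    exact h3
  have hsl : Measurable (slice : Arr κ X (D + 1) → κ → Arr κ X D) :=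
    measurable_pi_lambda _ fun k => measurable_slice k
  have hpr : IsProbabilityMeasure ((cube μ T κ (D + 1)).map
      (slice : Arr κ X (D + 1) → κ → Arr κ X D)) :=
    Measure.isProbabilityMeasure_map hsl.aemeasurable
  have hC : 0 ≤ |C| + 1 := by positivity
  by_contra hne
  have hpos : 0 < ‖L F‖ ^ 2 := by positivity
  obtain ⟨n, g, hg, hlt⟩ := approx_prod ((cube μ T κ (D + 1)).map
      (slice : Arr κ X (D + 1) → κ → Arr κ X D)) (f := fun z => F (glue z))
      (hF.comp measurable_glue) (ε := ‖L F‖ ^ 2 / (|C| + 1)) (by positivity)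
  have hgB : ∀ l, BM (fun x : Arr κ X (D + 1) => ∏ k, g l k (slice x k)) := fun l =>
    BMs.prod _ fun k => (hg l k).comp (measurable_slice k)
  have hgS : BM (fun x : Arr κ X (D + 1) => ∑ l, ∏ k, g l k (slice x k)) :=
    BMs.sum _ hgB
  have hsum : ∀ s : Finset (Fin n), L (fun x => ∑ l ∈ s, ∏ k, g l k (slice x k)) = 0 := by
    intro s
    induction s using Finset.induction_on with
    | empty =>
      have h1 := hsub (fun _ => 0) (fun _ => 0) (BMs.const _ 0) (BMs.const _ 0)
      simp only [sub_zero] at h1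
      simp only [Finset.sum_empty]
      rw [h1, sub_self]
    | insert a s ha ih =>
      have h1 := hadd _ _ (hgB a) (BMs.sum s hgB)
      simp only [Finset.sum_insert ha]
      rw [h1, ih, hprod _ (hg a), add_zero]
  have h2 := hsub _ _ hF hgS
  rw [hsum, sub_zero] at h2
  have h3 := hbd _ (hF.sub hgS)
  rw [h2] at h3
  have h4 : ∫ x, ‖F x - ∑ l, ∏ k, g l k (slice x k)‖ ^ 2 ∂(cube μ T κ (D + 1)) <
      ‖L F‖ ^ 2 / (|C| + 1) := by
    have h5 : ∫ z, ‖F (glue z) - ∑ l, ∏ k, g l k (z k)‖ ^ 2 ∂((cube μ T κ (D + 1)).map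
        (slice : Arr κ X (D + 1) → κ → Arr κ X D)) =
        ∫ x, ‖F x - ∑ l, ∏ k, g l k (slice x k)‖ ^ 2 ∂(cube μ T κ (D + 1)) := by
      rw [integral_map hsl.aemeasurable]
      · refine integral_congr_ae (Eventually.of_forall fun x => ?_)
        simp only [glue_slice]
      · have h6 : BM (fun z : κ → Arr κ X D => F (glue z) - ∑ l, ∏ k, g l k (z k)) :=
          BMs.sub (hF.comp measurable_glue) (BMs.sum _ fun l => BMs.prod _ fun k =>
            (hg l k).comp (measurable_pi_apply k))
        exact (h6.1.norm.pow_const 2).aestronglyMeasurable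
    rw [← h5]
    exact hlt
  have h0 : 0 ≤ ∫ x, ‖F x - ∑ l, ∏ k, g l k (slice x k)‖ ^ 2 ∂(cube μ T κ (D + 1)) :=
    integral_nonneg fun x => by positivity
  have h7 : C * ∫ x, ‖F x - ∑ l, ∏ k, g l k (slice x k)‖ ^ 2 ∂(cube μ T κ (D + 1)) ≤
      (|C| + 1) * ∫ x, ‖F x - ∑ l, ∏ k, g l k (slice x k)‖ ^ 2 ∂(cube μ T κ (D + 1)) :=
    mul_le_mul_of_nonneg_right (by linarith [le_abs_self C]) h0
  have h8 : (|C| + 1) * ∫ x, ‖F x - ∑ l, ∏ k, g l k (slice x k)‖ ^ 2 ∂(cube μ T κ (D + 1)) <
      (|C| + 1) * (‖L F‖ ^ 2 / (|C| + 1)) := mul_lt_mul_of_pos_left h4 (by positivity)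
  rw [mul_div_cancel₀ _ (by positivity)] at h8
  linarith

/-- conditional expectations of the functions carried by a slice -/
theorem sb_condExp_slice {X : Type} [MeasurableSpace X] [StandardBorelSpace X]
    (μ : Measure X) [IsProbabilityMeasure μ] (T : X ≃ᵐ X) (hT : MeasurePreserving T μ μ)
    {ι κ : Type} [Fintype ι] [Fintype κ] [DecidableEq ι] {D : ℕ} (e0 : κ → ι)
    (he0 : Function.Injective e0) (e : Fin D → κ → ι)
    (he : ∀ j, Function.Injective (e j)) (Fk wk : κ → Arr κ X D → ℂ) (hFk : ∀ k, BM (Fk k))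
    (hwk : ∀ k, (cube μ T κ D)[Fk k | Inv (tArr T κ D)] =ᵐ[cube μ T κ D] wk k) (i : ι) :
    (cube μ T ι D)[fun z => ∏ k, (if e0 k = i then Fk k (rst e z) else 1) | Inv (tArr T ι D)]
      =ᵐ[cube μ T ι D] fun z => ∏ k, (if e0 k = i then wk k (rst e z) else 1) := by
  classical
  have := cube_prob μ T ι D
  have := cube_prob μ T κ D
  have hpr := cube_rst hT e he
  by_cases h : ∃ k, e0 k = i
  · obtain ⟨k₀, rfl⟩ := h
    have h1 : ∀ (u : κ → Arr κ X D → ℂ) (z : Arr ι X D),
        ∏ k, (if e0 k = e0 k₀ then u k (rst e z) else 1) = u k₀ (rst e z) := by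
      intro u z
      rw [Finset.prod_eq_single k₀]
      · rw [if_pos rfl]
      · intro k _ hk
        rw [if_neg (fun h => hk (he0 h))]
      · intro h
        exact absurd (Finset.mem_univ _) h
    simp only [h1]
    have h2 := condExp_inv_comp (cube_tArr μ T hT ι D) (cube_tArr μ T hT κ D) hpr (hFk k₀)
    refine h2.trans ?_
    exact hpr.mp.quasiMeasurePreserving.ae_eq_comp (hwk k₀)
  · have h1 : ∀ (u : κ → Arr κ X D → ℂ) (z : Arr ι X D),
        ∏ k, (if e0 k = i then u k (rst e z) else 1) = 1 := by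
      intro u z
      refine Finset.prod_eq_one fun k _ => ?_
      rw [if_neg (fun hk => h ⟨k, hk⟩)]
    simp only [h1]
    have hle : Inv (tArr T ι D) ≤ (inferInstance : MeasurableSpace (Arr ι X D)) :=
      MeasurableSpace.invariants_le _
    rw [condExp_const hle]

/-- the induction step on products -/
theorem sb_step {X : Type} [MeasurableSpace X] [StandardBorelSpace X]
    (μ : Measure X) [IsProbabilityMeasure μ] (T : X ≃ᵐ X) (hT : Ergodic T μ)
    {ι κ : Type} [Fintype ι] [Fintype κ] (D : ℕ) {φ : X → ℂ} (hφ : BM φ)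
    (ih : ∀ (e : Fin D → κ → ι), (∀ j, Function.Injective (e j)) → ∀ (v : Fin D → ι) (j : Fin D),
      (∀ k, e j k ≠ v j) → ∀ {F : Arr κ X D → ℂ}, BM F →
      ∫ y, φ (y v) * F (rst e y) ∂(cube μ T ι D) = (∫ a, φ a ∂μ) * ∫ x, F x ∂(cube μ T κ D))
    (e : Fin (D + 1) → κ → ι) (he : ∀ j, Function.Injective (e j)) (v : Fin (D + 1) → ι)
    (j : Fin (D + 1)) (hv : ∀ k, e j k ≠ v j)
    (Fk : κ → Arr κ X D → ℂ) (hFk : ∀ k, BM (Fk k)) :
    ∫ y, φ (y v) * ∏ k, Fk k (slice (rst e y : Arr κ X (D + 1)) k) ∂(cube μ T ι (D + 1)) =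
      (∫ a, φ a ∂μ) * ∫ x, ∏ k, Fk k (slice x k) ∂(cube μ T κ (D + 1)) := by
  classical
  have hTm := hT.toMeasurePreserving
  have := cube_prob μ T ι D
  have := cube_prob μ T κ D
  set e' : Fin D → κ → ι := fun j => e j.succ with he'
  have hei : ∀ j, Function.Injective (e' j) := fun j => he j.succ
  set v' : Fin D → ι := fun j => v j.succ with hv'
  -- versions of the conditional expectations
  have hlek : Inv (tArr T κ D) ≤ (inferInstance : MeasurableSpace (Arr κ X D)) :=
    MeasurableSpace.invariants_le _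
  have hex : ∀ k, ∃ w : Arr κ X D → ℂ, BM w ∧
      (cube μ T κ D)[Fk k | Inv (tArr T κ D)] =ᵐ[cube μ T κ D] w := by
    intro k
    obtain ⟨h1, C, hC⟩ := hFk k
    obtain ⟨w, hw1, hw2, hw3⟩ := exists_bms_condExp (Inv (tArr T κ D)) (cube μ T κ D) hlek h1 hC
    exact ⟨w, ⟨hw1.mono hlek le_rfl, C, hw2⟩, hw3⟩
  choose w hw hwE using hex
  have hrb : ∀ {u : Arr κ X D → ℂ}, BM u → BM (fun z : Arr ι X D => u (rst e' z)) :=
    fun hu => hu.comp (sb_meas_rst e')
  -- the slice functions
  set P : ι → Arr ι X D → ℂ := fun i z => ∏ k, (if e 0 k = i then Fk k (rst e' z) else 1) with hP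
  set W : ι → Arr ι X D → ℂ := fun i z => ∏ k, (if e 0 k = i then w k (rst e' z) else 1) with hW
  have hPB : ∀ i, BM (P i) := by
    intro i
    refine BMs.prod _ fun k => ?_
    by_cases h : e 0 k = i
    · simp only [if_pos h]
      exact hrb (hFk k)
    · simp only [if_neg h]
      exact BMs.const _ 1
  have hPW : ∀ i, (cube μ T ι D)[P i | Inv (tArr T ι D)] =ᵐ[cube μ T ι D] W i := fun i =>
    sb_condExp_slice μ T hTm (e 0) (he 0) e' hei Fk w hFk hwE i
  set H : ι → Arr ι X D → ℂ := fun i z => (if i = v 0 then φ (z v') else 1) * P i z with hH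
  have hHB : ∀ i, BM (H i) := by
    intro i
    refine BMs.mul ?_ (hPB i)
    by_cases h : i = v 0
    · simp only [if_pos h]
      exact hφ.comp (measurable_pi_apply v')
    · simp only [if_neg h]
      exact BMs.const _ 1
  have hvc : ∀ y : Arr ι X (D + 1), slice y (v 0) v' = y v := by
    intro y
    simp only [slice]
    congr 1
    funext t
    refine Fin.cases ?_ (fun t => ?_) t
    · simp only [Fin.cons_zero]
    · simp only [Fin.cons_succ, hv']
  have hrs : ∀ (y : Arr ι X (D + 1)) (k : κ),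
      slice (rst e y : Arr κ X (D + 1)) k = rst e' (slice y (e 0 k)) := by
    intro y k
    funext u
    simp only [slice, rst]
    congr 1
    funext t
    refine Fin.cases ?_ (fun t => ?_) t
    · simp only [Fin.cons_zero]
    · simp only [Fin.cons_succ, he']
  have hprodH : ∀ y : Arr ι X (D + 1), ∏ i, H i (slice y i) =
      φ (y v) * ∏ k, Fk k (slice (rst e y : Arr κ X (D + 1)) k) := by
    intro y
    simp only [hH, hP]
    rw [Finset.prod_mul_distrib, Finset.prod_comm]
    congr 1
    · rw [Finset.prod_ite_eq' Finset.univ (v 0) (fun i => φ (slice y i v')),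
        if_pos (Finset.mem_univ _), hvc]
    · refine Finset.prod_congr rfl fun k _ => ?_
      rw [Finset.prod_ite_eq Finset.univ (e 0 k) (fun i => Fk k (rst e' (slice y i))),
        if_pos (Finset.mem_univ _), hrs]
  have hlhs : ∫ y, φ (y v) * ∏ k, Fk k (slice (rst e y : Arr κ X (D + 1)) k)
      ∂(cube μ T ι (D + 1)) = ∫ y, ∏ i, H i (slice y i) ∂(cube μ T ι (D + 1)) :=
    integral_congr_ae (Eventually.of_forall fun y => (hprodH y).symm)
  rw [hlhs]
  by_cases hc : ∃ k₀, e 0 k₀ = v 0
  · -- the slice of `v` meets the pattern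
    obtain ⟨k₀, hk₀⟩ := hc
    have hj : j ≠ 0 := by
      rintro rfl
      exact hv k₀ hk₀
    obtain ⟨j', rfl⟩ := Fin.exists_succ_eq.2 hj
    rw [cube_pull μ T hHB (v 0)]
    have h1 : ∫ y, H (v 0) y * ∏ i ∈ Finset.univ.erase (v 0),
        ((cube μ T ι D)[H i | Inv (tArr T ι D)]) y ∂(cube μ T ι D) =
        ∫ y, φ (y v') * (fun x : Arr κ X D => Fk k₀ x * ∏ k ∈ Finset.univ.erase k₀, w k x)
          (rst e' y) ∂(cube μ T ι D) := by
      have h2 : ∀ i ∈ (Finset.univ.erase (v 0) : Finset ι),
          (cube μ T ι D)[H i | Inv (tArr T ι D)] =ᵐ[cube μ T ι D] W i := by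
        intro i hi
        have h3 : H i = P i := by
          funext z
          simp only [hH]
          rw [if_neg (Finset.ne_of_mem_erase hi), one_mul]
        rw [h3]
        exact hPW i
      have h4 : ∀ᵐ y ∂(cube μ T ι D), ∀ i ∈ (Finset.univ.erase (v 0) : Finset ι),
          ((cube μ T ι D)[H i | Inv (tArr T ι D)]) y = W i y := by
        rw [Filter.eventually_all_finset]
        exact h2
      refine integral_congr_ae ?_
      filter_upwards [h4] with y hy
      rw [Finset.prod_congr rfl hy]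
      have h5 : H (v 0) y = φ (y v') * Fk k₀ (rst e' y) := by
        simp only [hH, hP, if_true]
        congr 1
        rw [Finset.prod_eq_single k₀]
        · rw [if_pos hk₀]
        · intro k _ hk
          rw [if_neg (fun h => hk (he 0 (h.trans hk₀.symm)))]
        · intro h
          exact absurd (Finset.mem_univ _) h
      have h6 : ∏ i ∈ Finset.univ.erase (v 0), W i y =
          ∏ k ∈ Finset.univ.erase k₀, w k (rst e' y) := by
        simp only [hW]
        rw [Finset.prod_comm, ← Finset.mul_prod_erase Finset.univ _ (Finset.mem_univ k₀)]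
        have h7 : ∏ i ∈ Finset.univ.erase (v 0),
            (if e 0 k₀ = i then w k₀ (rst e' y) else 1) = 1 := by
          refine Finset.prod_eq_one fun i hi => ?_
          rw [if_neg]
          intro h
          exact Finset.ne_of_mem_erase hi (h.symm.trans hk₀)
        rw [h7, one_mul]
        refine Finset.prod_congr rfl fun k hk => ?_
        rw [Finset.prod_ite_eq (Finset.univ.erase (v 0)) (e 0 k) (fun _ => w k (rst e' y)),
          if_pos]
        refine Finset.mem_erase.2 ⟨?_, Finset.mem_univ _⟩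
        intro h
        exact Finset.ne_of_mem_erase hk (he 0 (h.trans hk₀.symm))
      rw [h5, h6]
      ring
    rw [h1]
    have hB : BM (fun x : Arr κ X D => Fk k₀ x * ∏ k ∈ Finset.univ.erase k₀, w k x) :=
      (hFk k₀).mul (BMs.prod _ hw)
    rw [ih e' hei v' j' hv hB]
    congr 1
    rw [cube_pull μ T hFk k₀]
    refine integral_congr_ae ?_
    have h8 : ∀ᵐ y ∂(cube μ T κ D), ∀ k,
        ((cube μ T κ D)[Fk k | Inv (tArr T κ D)]) y = w k y := ae_all_iff.2 hwE
    filter_upwards [h8] with y hy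
    simp only [hy]
  · -- the slice of `v` is free
    have hc' : ∀ k, e 0 k ≠ v 0 := fun k hk => hc ⟨k, hk⟩
    rw [cube_prod μ T hHB, cube_prod μ T hFk]
    have h1 : ∀ᵐ y ∂(cube μ T ι D), ∏ i, ((cube μ T ι D)[H i | Inv (tArr T ι D)]) y =
        (∫ a, φ a ∂μ) * ∏ k, w k (rst e' y) := by
      have h2 : (cube μ T ι D)[H (v 0) | Inv (tArr T ι D)] =ᵐ[cube μ T ι D]
          fun _ => ∫ a, φ a ∂μ := by
        have h3 : H (v 0) = fun z => φ (z v') := by
          funext z
          simp only [hH, hP, if_true]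
          rw [Finset.prod_eq_one, mul_one]
          intro k _
          rw [if_neg (hc' k)]
        rw [h3]
        have h4 := condExp_inv_comp (cube_tArr μ T hTm ι D) hTm (cube_eval_fmap μ T ι D v') hφ
        refine h4.trans ?_
        exact (cube_eval μ T ι D v').quasiMeasurePreserving.ae_eq_comp
          (condExp_inv_ergodic μ T hT hφ)
      have h5 : ∀ᵐ y ∂(cube μ T ι D), ∀ i ∈ (Finset.univ.erase (v 0) : Finset ι),
          ((cube μ T ι D)[H i | Inv (tArr T ι D)]) y = W i y := by
        rw [Filter.eventually_all_finset]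
        intro i hi
        have h3 : H i = P i := by
          funext z
          simp only [hH]
          rw [if_neg (Finset.ne_of_mem_erase hi), one_mul]
        rw [h3]
        exact hPW i
      filter_upwards [h2, h5] with y hy2 hy5
      rw [← Finset.mul_prod_erase Finset.univ _ (Finset.mem_univ (v 0)), hy2,
        Finset.prod_congr rfl hy5]
      congr 1
      simp only [hW]
      rw [Finset.prod_comm]
      refine Finset.prod_congr rfl fun k _ => ?_
      rw [Finset.prod_ite_eq (Finset.univ.erase (v 0)) (e 0 k) (fun _ => w k (rst e' y)),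
        if_pos]
      exact Finset.mem_erase.2 ⟨hc' k, Finset.mem_univ _⟩
    rw [integral_congr_ae h1, integral_const_mul]
    congr 1
    have h9 : BM (fun x : Arr κ X D => ∏ k, w k x) := BMs.prod _ hw
    rw [sb_integral_rst hTm e' hei h9]
    refine integral_congr_ae ?_
    have h8 : ∀ᵐ y ∂(cube μ T κ D), ∀ k,
        ((cube μ T κ D)[Fk k | Inv (tArr T κ D)]) y = w k y := ae_all_iff.2 hwE
    filter_upwards [h8] with y hy
    simp only [hy]

/-- **SB3.** (P) For an ergodic system a vertex which lies outside a pattern in some direction is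
independent of the pattern.

Proof. Induction on `D` (`D = 0`: there is no `j`). `D + 1`: by approximation (`approx_prod`) we
may take `F = ∏ k, F_k (slice x k)`. If `v 0` is not in the range of `e 0`: the slice `v 0` carries
only the function `φ (y v)`, whose conditional expectation on `Inv` is
`E[φ | Inv T] ∘ eval = ∫ φ` (AVG2b with `cube_eval_fmap`, AVG2c), and the product formula
`cube_prod` gives `(∫ φ) * ∫ F (rst e y)`. If `v 0 = e 0 k₀` then the missing direction is
`j.succ`; by `cube_pull` (slice `v 0` kept) the left side is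
`∫ φ (z v₊) F'(rst e₊ z) ∂(cube μ T ι D)` with `F' = F_{k₀} ∏_{k ≠ k₀} E[F_k | Inv]`; by induction it is
`(∫ φ) * ∫ F' = (∫ φ) * ∫ F`. -/
theorem vert_indep {X : Type} [MeasurableSpace X] [StandardBorelSpace X]
    (μ : Measure X) [IsProbabilityMeasure μ] (T : X ≃ᵐ X) (hT : Ergodic T μ)
    {ι κ : Type} [Fintype ι] [Fintype κ] (D : ℕ) (e : Fin D → κ → ι)
    (he : ∀ j, Function.Injective (e j)) (v : Fin D → ι) (j : Fin D)
    (hv : ∀ k, e j k ≠ v j) {φ : X → ℂ} (hφ : BM φ) {F : Arr κ X D → ℂ} (hF : BM F) :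
    ∫ y, φ (y v) * F (rst e y) ∂(cube μ T ι D) =
      (∫ a, φ a ∂μ) * ∫ x, F x ∂(cube μ T κ D) := by
  induction D with
  | zero => exact j.elim0
  | succ D ih =>
    have hTm := hT.toMeasurePreserving
    have := cube_prob μ T ι (D + 1)
    have := cube_prob μ T κ (D + 1)
    obtain ⟨hφ1, C, hC⟩ := hφ
    have hφ : BM φ := ⟨hφ1, C, hC⟩
    have hφv : BM (fun y : Arr ι X (D + 1) => φ (y v)) := hφ.comp (measurable_pi_apply v)
    have hFr : ∀ {F : Arr κ X (D + 1) → ℂ}, BM F →
        BM (fun y : Arr ι X (D + 1) => F (rst e y)) := fun h => h.comp (sb_meas_rst e)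
    rcases isEmpty_or_nonempty κ with hκ | hκ
    · haveI : IsEmpty (Fin (D + 1) → κ) := ⟨fun f => hκ.false (f 0)⟩
      have hFc : ∀ x y : Arr κ X (D + 1), F x = F y := fun x y =>
        congrArg F (Subsingleton.elim x y)
      have hx : ∀ x : Arr κ X (D + 1), F x = F (fun a => (this.false a).elim) := fun x => hFc _ _
      simp_rw [hx]
      rw [integral_mul_const, integral_const]
      have hev := cube_eval μ T ι (D + 1) v
      have h1 : ∫ y, φ (y v) ∂(cube μ T ι (D + 1)) = ∫ a, φ a ∂μ := by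
        have h2 : ∫ a, φ a ∂((cube μ T ι (D + 1)).map (fun x : Arr ι X (D + 1) => x v)) =
            ∫ y, φ (y v) ∂(cube μ T ι (D + 1)) :=
          integral_map hev.measurable.aemeasurable hφ.1.aestronglyMeasurable
        rw [← h2, hev.map_eq]
      rw [h1]
      simp
    have key := sb_dense μ T D (fun F : Arr κ X (D + 1) → ℂ =>
      (∫ y, φ (y v) * F (rst e y) ∂(cube μ T ι (D + 1))) -
        (∫ a, φ a ∂μ) * ∫ x, F x ∂(cube μ T κ (D + 1))) (4 * C ^ 2) ?_ ?_ ?_ ?_ ?_ hF
    · exact sub_eq_zero.1 key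
    · intro F G hF hG
      simp only [mul_add]
      rw [integral_add (BM.integrable (hφv.mul (hFr hF)) _) (BM.integrable (hφv.mul (hFr hG)) _),
        integral_add (hF.integrable _) (hG.integrable _)]
      ring
    · intro F G hF hG
      simp only [mul_sub]
      rw [integral_sub (BM.integrable (hφv.mul (hFr hF)) _) (BM.integrable (hφv.mul (hFr hG)) _),
        integral_sub (hF.integrable _) (hG.integrable _)]
      ring
    · intro c F hF
      have h1 : ∀ y : Arr ι X (D + 1), φ (y v) * (c * F (rst e y)) =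
          c * (φ (y v) * F (rst e y)) := fun y => by ring
      simp only [h1]
      rw [integral_const_mul, integral_const_mul]
      ring
    · intro F hF
      set Q : ℝ := ∫ x, ‖F x‖ ^ 2 ∂(cube μ T κ (D + 1)) with hQ
      have h1 : ‖∫ y, φ (y v) * F (rst e y) ∂(cube μ T ι (D + 1))‖ ^ 2 ≤ C ^ 2 * Q := by
        refine (sb_sq _ (hφv.mul (hFr hF))).trans ?_
        rw [hQ, ← sb_integral_rst_sq hTm e he hF, ← integral_const_mul]
        refine integral_mono (bas_int_sq (hφv.mul (hFr hF)) _)
          ((bas_int_sq (hFr hF) _).const_mul _) fun y => ?_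
        simp only [norm_mul, mul_pow]
        exact mul_le_mul_of_nonneg_right (pow_le_pow_left₀ (norm_nonneg _) (hC _) 2)
          (by positivity)
      have h2 : ‖(∫ a, φ a ∂μ) * ∫ x, F x ∂(cube μ T κ (D + 1))‖ ^ 2 ≤ C ^ 2 * Q := by
        rw [norm_mul, mul_pow]
        have h3 : ‖∫ a, φ a ∂μ‖ ≤ C := by
          have h4 := norm_integral_le_of_norm_le_const (μ := μ) (f := φ) (C := C)
            (Eventually.of_forall hC)
          simpa using h4
        exact mul_le_mul (pow_le_pow_left₀ (norm_nonneg _) h3 2) (sb_sq _ hF) (by positivity)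
          (by positivity)
      set a := ∫ y, φ (y v) * F (rst e y) ∂(cube μ T ι (D + 1))
      set b := (∫ a, φ a ∂μ) * ∫ x, F x ∂(cube μ T κ (D + 1))
      have h5 : ‖a - b‖ ≤ ‖a‖ + ‖b‖ := norm_sub_le _ _
      have h6 : ‖a - b‖ ^ 2 ≤ (‖a‖ + ‖b‖) ^ 2 := pow_le_pow_left₀ (norm_nonneg _) h5 2
      have h7 : (‖a‖ + ‖b‖) ^ 2 ≤ 2 * (‖a‖ ^ 2 + ‖b‖ ^ 2) := by
        nlinarith [sq_nonneg (‖a‖ - ‖b‖)]
      change ‖a - b‖ ^ 2 ≤ _
      linarith
    · intro Fk hFk
      have h1 := sb_step μ T hT D hφ (fun e he v j hv _ hF => ih e he v j hv hF)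
        e he v j hv Fk hFk
      exact sub_eq_zero.2 h1

end Pool.Agent.HK820

end

/-! ### Part `SBd` -/

section

open MeasureTheory ProbabilityTheory Filter Topology
open scoped ComplexConjugate ENNReal

namespace Pool.Agent.HK820

theorem sbd_cj_mul (n : ℕ) (z w : ℂ) : cj n (z * w) = cj n z * cj n w := by
  unfold HK820.cj
  split_ifs
  · rfl
  · exact map_mul _ _ _

theorem sbd_cj_one (n : ℕ) : cj n (1 : ℂ) = 1 := by
  unfold HK820.cj
  split_ifs
  · rfl
  · exact map_one _

theorem sbd_cj_prod {α : Type} (n : ℕ) (s : Finset α) (f : α → ℂ) :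
    cj n (∏ a ∈ s, f a) = ∏ a ∈ s, cj n (f a) := by
  unfold HK820.cj
  split_ifs
  · rfl
  · exact map_prod _ _ _

theorem sbd_cj_cj (m n : ℕ) (z : ℂ) : cj m (cj n z) = cj (m + n) z := by
  unfold HK820.cj
  by_cases hm : Even m <;> by_cases hn : Even n <;> simp [hm, hn, Nat.even_add]

theorem sbd_norm_cj (n : ℕ) (z : ℂ) : ‖cj n z‖ = ‖z‖ := by
  unfold HK820.cj
  split_ifs
  · rfl
  · exact RCLike.norm_conj z

theorem sbd_cj_conj (n : ℕ) (z : ℂ) : cj n (conj z) = conj (cj n z) := by
  unfold HK820.cj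
  split_ifs <;> rfl

theorem sbd_prod_succ {M : Type} [CommMonoid M] {D : ℕ} (f : (Fin (D + 1) → Fin 2) → M) :
    ∏ v, f v = (∏ w : Fin D → Fin 2, f (Fin.cons 0 w)) * ∏ w : Fin D → Fin 2, f (Fin.cons 1 w) := by
  rw [← (Fin.consEquiv (fun _ : Fin (D + 1) => Fin 2)).prod_comp f, Fintype.prod_prod_type,
    Fin.prod_univ_two]
  rfl

theorem sbd_wt_cons {D : ℕ} (a : Fin 2) (w : Fin D → Fin 2) :
    wt (Fin.cons a w : Fin (D + 1) → Fin 2) = (a : ℕ) + wt w := by
  unfold wt
  rw [Fin.sum_univ_succ]
  simp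

/-- the combinatorial identity -/
theorem sbd_key (D : ℕ) : ∀ G : (Fin D → Fin 3) → ℂ, (∀ u, ‖G u‖ = 1) →
    ∏ w : Fin D → Fin 2, ∏ b : Fin D → Fin 2, cj (wt w + wt b) (G (fun j => in3 (w j) (b j))) =
      ∏ v : Fin D → Fin 2, cj (wt v) (G (fun j => out3 (v j))) := by
  induction D with
  | zero =>
    intro G _
    simp only [Finset.univ_unique, Finset.prod_singleton]
    have h1 : ∀ v : Fin 0 → Fin 2, wt v = 0 := fun v => by simp [wt]
    simp only [h1]
    congr 2
    funext j
    exact j.elim0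
  | succ D ih =>
    intro G hG
    have hcons : ∀ (c : Fin 3) (u : Fin D → Fin 3), ‖G (Fin.cons c u)‖ = 1 := fun c u => hG _
    set P : Fin 3 → ℂ := fun c =>
      ∏ v : Fin D → Fin 2, cj (wt v) (G (Fin.cons c (fun j => out3 (v j)))) with hP
    have hPn : ∀ c, ‖P c‖ = 1 := by
      intro c
      rw [hP]
      simp only [norm_prod, sbd_norm_cj, hG, Finset.prod_const_one]
    have h1 : ∀ (a b : Fin 2), ∏ w : Fin D → Fin 2, ∏ b' : Fin D → Fin 2,
        cj (wt (Fin.cons a w : Fin (D + 1) → Fin 2) + wt (Fin.cons b b' : Fin (D + 1) → Fin 2))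
          (G (fun j => in3 ((Fin.cons a w : Fin (D + 1) → Fin 2) j)
            ((Fin.cons b b' : Fin (D + 1) → Fin 2) j))) = cj ((a : ℕ) + b) (P (in3 a b)) := by
      intro a b
      have h2 := ih (fun u => G (Fin.cons (in3 a b) u)) (fun u => hG _)
      rw [hP]
      simp only []
      rw [← h2, sbd_cj_prod]
      refine Finset.prod_congr rfl fun w _ => ?_
      rw [sbd_cj_prod]
      refine Finset.prod_congr rfl fun b' _ => ?_
      rw [sbd_cj_cj, sbd_wt_cons, sbd_wt_cons]
      congr 1
      · ring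
      · congr 1
        funext j
        refine Fin.cases ?_ (fun j => ?_) j
        · simp
        · simp
    have h3 : ∀ a : Fin 2, ∏ w : Fin D → Fin 2, cj (wt (Fin.cons a w : Fin (D + 1) → Fin 2))
        (G (fun j => out3 ((Fin.cons a w : Fin (D + 1) → Fin 2) j))) = cj (a : ℕ) (P (out3 a)) := by
      intro a
      rw [hP]
      simp only []
      rw [sbd_cj_prod]
      refine Finset.prod_congr rfl fun w _ => ?_
      rw [sbd_cj_cj, sbd_wt_cons]
      congr 2
      funext j
      refine Fin.cases ?_ (fun j => ?_) j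
      · simp
      · simp
    rw [sbd_prod_succ, sbd_prod_succ (fun v => cj (wt v) (G (fun j => out3 (v j)))), h3, h3]
    have h4 : ∀ a : Fin 2, (∏ w : Fin D → Fin 2, ∏ b : Fin (D + 1) → Fin 2,
        cj (wt (Fin.cons a w : Fin (D + 1) → Fin 2) + wt b)
          (G (fun j => in3 ((Fin.cons a w : Fin (D + 1) → Fin 2) j) (b j)))) =
        cj ((a : ℕ) + (0 : Fin 2)) (P (in3 a 0)) * cj ((a : ℕ) + (1 : Fin 2)) (P (in3 a 1)) := by
      intro a
      rw [← h1, ← h1, ← Finset.prod_mul_distrib]
      refine Finset.prod_congr rfl fun w _ => ?_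
      exact sbd_prod_succ _
    rw [h4, h4]
    have e1 : in3 0 0 = 0 := rfl
    have e2 : in3 0 1 = 1 := rfl
    have e3 : in3 1 0 = 2 := rfl
    have e4 : in3 1 1 = 1 := rfl
    have e5 : out3 0 = 0 := rfl
    have e6 : out3 1 = 2 := rfl
    rw [e1, e2, e3, e4, e5, e6]
    have h5 : P 1 * conj (P 1) = 1 := by
      rw [Complex.mul_conj, Complex.normSq_eq_norm_sq, hPn]
      simp
    have c0 : ∀ z, cj 0 z = z := fun z => by simp [HK820.cj]
    have c1 : ∀ z, cj 1 z = conj z := fun z => by simp [HK820.cj]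
    have c2 : ∀ z, cj 2 z = z := fun z => by simp [HK820.cj]
    simp only [Fin.val_zero, Fin.val_one, add_zero, zero_add, Nat.reduceAdd, c0, c1, c2]
    calc P 0 * conj (P 1) * (conj (P 2) * P 1) = P 0 * conj (P 2) * (P 1 * conj (P 1)) := by ring
      _ = P 0 * conj (P 2) := by rw [h5, mul_one]

/-- **SB4.** The derivative of a unimodular function is a cocycle, identically.

Proof. `dd D F (rst (in3 ∘ w) y) = ∏ b, cj (wt b) (F (y (fun j => in3 (w j) (b j))))`, so the right
side is a product over pairs `(w, b)` of `cj (wt w + wt b) (F (y ...))`. Induction on `D` is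
convenient: split the direction `0` in all products; the two terms with `b 0 = 1`, `w 0 = 0` and
`w 0 = 1` cancel because they are conjugate unimodular numbers. (Or: group the pairs by the vertex
`in3 w b` in `Fin 3`; a vertex which has a coordinate `1` at position `j` is obtained twice, for
`w j = 0` and `w j = 1`, with opposite signs.) -/
theorem dd_isCoc_pt {X : Type} (D : ℕ) {F : X → ℂ} (hF : ∀ x, ‖F x‖ = 1)
    (y : Arr (Fin 3) X D) :
    dd D F (rst (fun _ => out3) y) =
      ∏ w : Fin D → Fin 2, cj (wt w) (dd D F (rst (fun j => in3 (w j)) y)) := by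
  have h := sbd_key D (fun u => F (y u)) (fun u => hF _)
  unfold dd rst
  rw [← h]
  refine Finset.prod_congr rfl fun w _ => ?_
  rw [sbd_cj_prod]
  refine Finset.prod_congr rfl fun b _ => ?_
  rw [sbd_cj_cj]

/-- **SB5.** Products and conjugates of cocycles are cocycles; derivatives are cocycles. -/
theorem IsCoc.mul {X : Type} [MeasurableSpace X] [StandardBorelSpace X] {μ : Measure X}
    {T : X ≃ᵐ X} {D : ℕ} {σ τ : Arr (Fin 2) X D → ℂ} (h1 : IsCoc μ T D σ) (h2 : IsCoc μ T D τ) :
    IsCoc μ T D (fun x => σ x * τ x) := by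
  unfold IsCoc at *
  filter_upwards [h1, h2] with y e1 e2
  rw [e1, e2, ← Finset.prod_mul_distrib]
  refine Finset.prod_congr rfl fun w _ => ?_
  rw [sbd_cj_mul]

theorem IsCoc.conj {X : Type} [MeasurableSpace X] [StandardBorelSpace X] {μ : Measure X}
    {T : X ≃ᵐ X} {D : ℕ} {σ : Arr (Fin 2) X D → ℂ} (h1 : IsCoc μ T D σ) :
    IsCoc μ T D (fun x => conj (σ x)) := by
  unfold IsCoc at *
  filter_upwards [h1] with y e1
  rw [e1, map_prod]
  refine Finset.prod_congr rfl fun w _ => ?_
  rw [sbd_cj_conj]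

theorem dd_isCoc {X : Type} [MeasurableSpace X] [StandardBorelSpace X] (μ : Measure X)
    (T : X ≃ᵐ X) (D : ℕ) {F : X → ℂ} (hF : ∀ x, ‖F x‖ = 1) : IsCoc μ T D (dd D F) :=
  Eventually.of_forall fun y => dd_isCoc_pt D hF y

/-- cocycles may be changed on null sets (`cube_rst` for the patterns `out3`, `in3 (w j)`, which
are injective) -/
theorem IsCoc.congr {X : Type} [MeasurableSpace X] [StandardBorelSpace X] {μ : Measure X}
    [IsProbabilityMeasure μ] {T : X ≃ᵐ X} (hT : MeasurePreserving T μ μ) {D : ℕ}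
    {σ τ : Arr (Fin 2) X D → ℂ} (h1 : IsCoc μ T D σ) (h : σ =ᵐ[cube μ T (Fin 2) D] τ) :
    IsCoc μ T D τ := by
  have e1 : ∀ᵐ y ∂(cube μ T (Fin 3) D), σ (rst (fun _ => out3) y) = τ (rst (fun _ => out3) y) :=
    (cube_rst hT (fun _ : Fin D => out3) (fun _ => by decide)).mp.quasiMeasurePreserving.ae h
  have e2 : ∀ᵐ y ∂(cube μ T (Fin 3) D), ∀ w : Fin D → Fin 2,
      σ (rst (fun j => in3 (w j)) y) = τ (rst (fun j => in3 (w j)) y) := by
    rw [ae_all_iff]
    intro w
    have hin : ∀ a : Fin 2, Function.Injective (in3 a) := by decide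
    exact (cube_rst hT (fun j : Fin D => in3 (w j))
      (fun j => hin (w j))).mp.quasiMeasurePreserving.ae h
  unfold IsCoc at *
  filter_upwards [h1, e1, e2] with y g1 g2 g3
  rw [← g2, g1]
  refine Finset.prod_congr rfl fun w _ => ?_
  rw [g3 w]

end Pool.Agent.HK820

end
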