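import Pool.Agent.Lib_MP_820dd4_hk.Ker1
import Pool.Agent.Lib_MP_820dd4_hk.RelC
import Pool.Agent.Lib_MP_820dd4_hk.SBd
import Pool.Agent.Lib_MP_820dd4_hk.FA

/-! ### Part `KT` -/

section

open MeasureTheory ProbabilityTheory Filter Topology
open scoped ComplexConjugate ENNReal

namespace Pool.Agent.HK820

/-- a countable π-system of measurable sets that generates -/
private theorem kt_gen (Y : Type) [mY : MeasurableSpace Y] [StandardBorelSpace Y] :
    ∃ C : Set (Set Y), C.Countable ∧ mY = MeasurableSpace.generateFrom C ∧ IsPiSystem C ∧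
      ∀ A ∈ C, MeasurableSet A := by
  have hgen : mY = MeasurableSpace.generateFrom
      (generateSetAlgebra (MeasurableSpace.countableGeneratingSet Y)) := by
    rw [generateFrom_generateSetAlgebra_eq]
    exact MeasurableSpace.generateFrom_countableGeneratingSet.symm
  refine ⟨generateSetAlgebra (MeasurableSpace.countableGeneratingSet Y),
    countable_generateSetAlgebra (MeasurableSpace.countable_countableGeneratingSet), hgen,
    fun s hs t ht _ => isSetAlgebra_generateSetAlgebra.inter_mem hs ht, ?_⟩
  intro A hA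
  rw [hgen]
  exact MeasurableSpace.measurableSet_generateFrom hA

open Classical in
private theorem kt_bm {Y : Type} [MeasurableSpace Y] {A : Set Y} (hA : MeasurableSet A) :
    BM (A.indicator (fun _ => (1 : ℂ))) := by
  refine ⟨measurable_const.indicator hA, 1, fun x => ?_⟩
  by_cases hx : x ∈ A
  · rw [Set.indicator_of_mem hx, norm_one]
  · rw [Set.indicator_of_notMem hx, norm_zero]
    exact zero_le_one

private theorem kt_int {Y : Type} [MeasurableSpace Y] (m : Measure Y) {A : Set Y}
    (hA : MeasurableSet A) : ∫ y, A.indicator (fun _ => (1 : ℂ)) y ∂m = ((m A).toReal : ℂ) := by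
  rw [integral_indicator hA, setIntegral_const, Measure.real]
  simp

/-- **KT3.** conditional expectation on a pulled back σ-algebra -/
theorem condExp_comap {X Y : Type} (m' : MeasurableSpace Y) [mX : MeasurableSpace X]
    [mY : MeasurableSpace Y] {μ : Measure X}
    [IsProbabilityMeasure μ] {ν : Measure Y} [IsProbabilityMeasure ν] (hm' : m' ≤ mY) {p : X → Y}
    (hp : MeasurePreserving p μ ν) {f : Y → ℂ} (hf : BM f) :
    μ[fun x => f (p x) | MeasurableSpace.comap p m'] =ᵐ[μ] fun x => (ν[f | m']) (p x) := by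
  have hpm : Measurable p := hp.measurable
  have hle : MeasurableSpace.comap p m' ≤ mX := by
    rintro s ⟨t, ht, rfl⟩
    exact hpm (hm' t ht)
  have hfp : BM (fun x => f (p x)) := BMs.comp hf hpm
  have hcm : Measurable[m'] (ν[f | m']) := stronglyMeasurable_condExp.measurable
  have hint : Integrable (fun x => (ν[f | m']) (p x)) μ :=
    hp.integrable_comp_of_integrable integrable_condExp
  have hcp : Measurable[MeasurableSpace.comap p m'] (fun x => (ν[f | m']) (p x)) :=
    hcm.comp (comap_measurable p)
  refine (ae_eq_condExp_of_forall_setIntegral_eq hle (hfp.integrable μ)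
    (fun s _ _ => hint.integrableOn) (fun s hs _ => ?_)
    hcp.stronglyMeasurable.aestronglyMeasurable).symm
  obtain ⟨t, ht, rfl⟩ := hs
  have e1 : ∫ x in p ⁻¹' t, (ν[f | m']) (p x) ∂μ = ∫ y in t, (ν[f | m']) y ∂ν := by
    rw [← hp.map_eq, ← setIntegral_map (hm' t ht) _ hpm.aemeasurable]
    rw [hp.map_eq]
    exact (hcm.mono hm' le_rfl).aestronglyMeasurable
  have e2 : ∫ x in p ⁻¹' t, f (p x) ∂μ = ∫ y in t, f y ∂ν := by
    rw [← hp.map_eq, ← setIntegral_map (hm' t ht) _ hpm.aemeasurable]
    exact hf.1.aestronglyMeasurable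
  rw [e1, e2]
  exact setIntegral_condExp hm' (hf.integrable ν) ht

/-- **KT1.** Tower property of the conditional measures.

Proof. For every bounded measurable `G`, `E[E[G|m]|m'] = E[G|m']` gives the identity for almost
every `x`; apply this to the indicators of a countable generating π-system and compare the two
probability measures `κ^{m'} x` and `(κ^{m'} x).bind κ^m`. -/
theorem condExpKernel_tower {X : Type} (m' m : MeasurableSpace X) [mX : MeasurableSpace X]
    [StandardBorelSpace X] (μ : Measure X) [IsProbabilityMeasure μ] (hm' : m' ≤ m) (hm : m ≤ mX) :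
    ∀ᵐ x ∂μ, (condExpKernel μ m' x).bind (fun y => condExpKernel μ m y) =
      condExpKernel μ m' x := by
  obtain ⟨C, hCc, hgen, hpi, hmeas⟩ := kt_gen X
  have hk : Measurable (fun x => condExpKernel μ m x) := relA_meas m μ
  have hprob : ∀ x, IsProbabilityMeasure ((condExpKernel μ m' x).bind
      (fun y => condExpKernel μ m y)) := by
    intro x
    constructor
    rw [Measure.bind_apply MeasurableSet.univ hk.aemeasurable]
    have h1 : ∀ y, (condExpKernel μ m y) Set.univ = 1 := fun y =>
      (relA_prob m μ y).measure_univ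
    simp only [h1, lintegral_const, one_mul]
    exact (relA_prob m' μ x).measure_univ
  have h1 : ∀ A ∈ C, ∀ᵐ x ∂μ, (condExpKernel μ m' x).bind (fun y => condExpKernel μ m y) A =
      condExpKernel μ m' x A := by
    intro A hA
    have hF := kt_bm (hmeas A hA)
    have e1 : μ[A.indicator (fun _ => (1 : ℂ)) | m] =ᵐ[μ]
        fun y => (((condExpKernel μ m y A).toReal : ℝ) : ℂ) := by
      filter_upwards [condExp_ae_eq_integral_condExpKernel (μ := μ) hm (hF.integrable μ)] with y hy
      rw [hy, kt_int _ (hmeas A hA)]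
    have hmA : Measurable (fun y => condExpKernel μ m y A) :=
      (Measure.measurable_coe (hmeas A hA)).comp hk
    have hle : ∀ y, condExpKernel μ m y A ≤ 1 := by
      intro y
      have := relA_prob m μ y
      exact prob_le_one
    have hG : BM (fun y => (((condExpKernel μ m y A).toReal : ℝ) : ℂ)) := by
      refine ⟨Complex.measurable_ofReal.comp (ENNReal.measurable_toReal.comp hmA), 1,
        fun y => ?_⟩
      rw [Complex.norm_real, Real.norm_of_nonneg ENNReal.toReal_nonneg]
      exact ENNReal.toReal_le_of_le_ofReal zero_le_one (by simpa using hle y)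
    have e2 : μ[A.indicator (fun _ => (1 : ℂ)) | m'] =ᵐ[μ]
        μ[fun y => (((condExpKernel μ m y A).toReal : ℝ) : ℂ) | m'] :=
      (condExp_condExp_of_le hm' hm).symm.trans (condExp_congr_ae e1)
    filter_upwards [e2, condExp_ae_eq_integral_condExpKernel (μ := μ) (hm'.trans hm)
      (hF.integrable μ), condExp_ae_eq_integral_condExpKernel (μ := μ) (hm'.trans hm)
      (hG.integrable μ)] with x h2 h3 h4
    rw [h3, h4, kt_int _ (hmeas A hA)] at h2
    have h5 : ∫ y, (((condExpKernel μ m y A).toReal : ℝ) : ℂ) ∂(condExpKernel μ m' x) =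
        ((∫ y, (condExpKernel μ m y A).toReal ∂(condExpKernel μ m' x) : ℝ) : ℂ) :=
      integral_ofReal
    rw [h5] at h2
    have h6 : (condExpKernel μ m' x A).toReal =
        ∫ y, (condExpKernel μ m y A).toReal ∂(condExpKernel μ m' x) := by exact_mod_cast h2
    rw [integral_toReal hmA.aemeasurable
      (ae_of_all _ fun y => lt_of_le_of_lt (hle y) ENNReal.one_lt_top),
      ← Measure.bind_apply (hmeas A hA) hk.aemeasurable] at h6
    have := hprob x
    exact ((ENNReal.toReal_eq_toReal_iff' (measure_ne_top _ _) (measure_ne_top _ _)).1 h6).symm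
  have h2 : ∀ᵐ x ∂μ, ∀ A ∈ C, (condExpKernel μ m' x).bind (fun y => condExpKernel μ m y) A =
      condExpKernel μ m' x A := (ae_ball_iff hCc).2 h1
  filter_upwards [h2] with x hx
  have := hprob x
  exact ext_of_generate_finite C hgen hpi hx (by rw [measure_univ, measure_univ])

/-- **KT2.** Conditional measures for a σ-algebra pulled back by a measure preserving map.

Proof. `E[G ∘ p | comap p m'] = E[G | m'] ∘ p` for the indicators `G` of a countable generating
π-system (tested on the sets `p⁻¹ A`, `A` in `m'`). -/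
theorem map_condExpKernel_comap {X Y : Type} (m' : MeasurableSpace Y) [mX : MeasurableSpace X]
    [StandardBorelSpace X] [mY : MeasurableSpace Y] [StandardBorelSpace Y] {μ : Measure X}
    [IsProbabilityMeasure μ] {ν : Measure Y} [IsProbabilityMeasure ν] (hm' : m' ≤ mY) {p : X → Y}
    (hp : MeasurePreserving p μ ν) :
    ∀ᵐ x ∂μ, (condExpKernel μ (MeasurableSpace.comap p m') x).map p =
      condExpKernel ν m' (p x) := by
  obtain ⟨C, hCc, hgen, hpi, hmeas⟩ := kt_gen Y
  have hpm : Measurable p := hp.measurable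
  have hle : MeasurableSpace.comap p m' ≤ mX := by
    rintro s ⟨t, ht, rfl⟩
    exact hpm (hm' t ht)
  have h1 : ∀ A ∈ C, ∀ᵐ x ∂μ, (condExpKernel μ (MeasurableSpace.comap p m') x).map p A =
      condExpKernel ν m' (p x) A := by
    intro A hA
    have hF := kt_bm (hmeas A hA)
    have hFp : BM (fun x => A.indicator (fun _ => (1 : ℂ)) (p x)) :=
      ⟨hF.1.comp hpm, hF.2.choose, fun x => hF.2.choose_spec (p x)⟩
    have e1 := condExp_ae_eq_integral_condExpKernel (μ := μ) hle (hFp.integrable μ)
    have e2 := hp.quasiMeasurePreserving.ae (condExp_ae_eq_integral_condExpKernel (μ := ν)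
      hm' (hF.integrable ν))
    filter_upwards [e1, e2, condExp_comap m' hm' hp hF] with x h2 h3 h4
    rw [h2, h3] at h4
    have h5 : ∫ y, A.indicator (fun _ => (1 : ℂ)) (p y)
          ∂(condExpKernel μ (MeasurableSpace.comap p m') x) =
        ∫ y, A.indicator (fun _ => (1 : ℂ)) y
          ∂((condExpKernel μ (MeasurableSpace.comap p m') x).map p) :=
      (integral_map hpm.aemeasurable hF.1.aestronglyMeasurable).symm
    rw [h5, kt_int _ (hmeas A hA), kt_int _ (hmeas A hA)] at h4
    have h6 : ((condExpKernel μ (MeasurableSpace.comap p m') x).map p A).toReal =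
        (condExpKernel ν m' (p x) A).toReal := by exact_mod_cast h4
    exact (ENNReal.toReal_eq_toReal_iff' (measure_ne_top _ _) (measure_ne_top _ _)).1 h6
  have h2 : ∀ᵐ x ∂μ, ∀ A ∈ C, (condExpKernel μ (MeasurableSpace.comap p m') x).map p A =
      condExpKernel ν m' (p x) A := (ae_ball_iff hCc).2 h1
  filter_upwards [h2] with x hx
  refine ext_of_generate_finite C hgen hpi hx ?_
  rw [Measure.map_apply hpm MeasurableSet.univ, Set.preimage_univ, measure_univ, measure_univ]


end Pool.Agent.HK820

end

/-! ### Part `MQ` -/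

section

open MeasureTheory ProbabilityTheory Filter Topology
open scoped ComplexConjugate ENNReal

namespace Pool.Agent.HK820

/-- the inner pattern at the root -/
abbrev inn {X : Type} (k : ℕ) (y : Arr (Fin 3) X k) : Arr (Fin 2) X k := rst (fun _ => in3 0) y

/-- the outer pattern -/
abbrev outp {X : Type} (k : ℕ) (y : Arr (Fin 3) X k) : Arr (Fin 2) X k := rst (fun _ => out3) y

/-- a countable π-system of measurable sets, containing the whole space, that generates -/
private theorem mq_gen (Y : Type) [mY : MeasurableSpace Y] [StandardBorelSpace Y] :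
    ∃ C : Set (Set Y), C.Countable ∧ mY = MeasurableSpace.generateFrom C ∧ IsPiSystem C ∧
      (∀ A ∈ C, MeasurableSet A) ∧ Set.univ ∈ C := by
  have hgen : mY = MeasurableSpace.generateFrom
      (generateSetAlgebra (MeasurableSpace.countableGeneratingSet Y)) := by
    rw [generateFrom_generateSetAlgebra_eq]
    exact MeasurableSpace.generateFrom_countableGeneratingSet.symm
  refine ⟨generateSetAlgebra (MeasurableSpace.countableGeneratingSet Y),
    countable_generateSetAlgebra (MeasurableSpace.countable_countableGeneratingSet), hgen,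
    fun s hs t ht _ => isSetAlgebra_generateSetAlgebra.inter_mem hs ht, ?_,
    isSetAlgebra_generateSetAlgebra.univ_mem⟩
  intro A hA
  rw [hgen]
  exact MeasurableSpace.measurableSet_generateFrom hA

open Classical in
private theorem mq_bm {Y : Type} [MeasurableSpace Y] {A : Set Y} (hA : MeasurableSet A) :
    BM (A.indicator (fun _ => (1 : ℂ))) := by
  refine ⟨measurable_const.indicator hA, 1, fun x => ?_⟩
  by_cases hx : x ∈ A
  · rw [Set.indicator_of_mem hx, norm_one]
  · rw [Set.indicator_of_notMem hx, norm_zero]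
    exact zero_le_one

private theorem mq_int {Y : Type} [MeasurableSpace Y] (m : Measure (Y × Y)) {A B : Set Y}
    (hA : MeasurableSet A) (hB : MeasurableSet B) :
    ∫ z, A.indicator (fun _ => (1 : ℂ)) z.1 * B.indicator (fun _ => (1 : ℂ)) z.2 ∂m =
      ((m (A ×ˢ B)).toReal : ℂ) := by
  have h1 : (fun z : Y × Y => A.indicator (fun _ => (1 : ℂ)) z.1 *
      B.indicator (fun _ => (1 : ℂ)) z.2) = (A ×ˢ B).indicator (fun _ => (1 : ℂ)) := by
    funext z
    by_cases h1 : z.1 ∈ A
    · by_cases h2 : z.2 ∈ B
      · rw [Set.indicator_of_mem h1, Set.indicator_of_mem h2,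
          Set.indicator_of_mem (show z ∈ A ×ˢ B from ⟨h1, h2⟩), one_mul]
      · rw [Set.indicator_of_notMem h2,
          Set.indicator_of_notMem (show z ∉ A ×ˢ B from fun h => h2 h.2), mul_zero]
    · rw [Set.indicator_of_notMem h1,
        Set.indicator_of_notMem (show z ∉ A ×ˢ B from fun h => h1 h.1), zero_mul]
  rw [h1, integral_indicator (hA.prod hB), setIntegral_const, Measure.real]
  simp

private theorem mq_ext {Y : Type} [mY : MeasurableSpace Y] {C : Set (Set Y)}
    (hgen : mY = MeasurableSpace.generateFrom C) (hpi : IsPiSystem C)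
    (hmeas : ∀ A ∈ C, MeasurableSet A) (huniv : Set.univ ∈ C)
    (P Q : Measure (Y × Y)) [IsProbabilityMeasure P] [IsProbabilityMeasure Q]
    (H : ∀ A ∈ C, ∀ B ∈ C,
      ∫ z, A.indicator (fun _ => (1 : ℂ)) z.1 * B.indicator (fun _ => (1 : ℂ)) z.2 ∂P =
      ∫ z, A.indicator (fun _ => (1 : ℂ)) z.1 * B.indicator (fun _ => (1 : ℂ)) z.2 ∂Q) :
    P = Q := by
  have hspan : IsCountablySpanning C := ⟨fun _ => Set.univ, fun _ => huniv, Set.iUnion_const _⟩
  have hg := generateFrom_prod_eq hspan hspan
  rw [← hgen] at hg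
  refine ext_of_generate_finite (Set.image2 (· ×ˢ ·) C C) hg (hpi.prod hpi) ?_
    (by rw [measure_univ, measure_univ])
  rintro _ ⟨A, hA, B, hB, rfl⟩
  have h1 := H A hA B hB
  rw [mq_int P (hmeas A hA) (hmeas B hB), mq_int Q (hmeas A hA) (hmeas B hB)] at h1
  have h2 : (P (A ×ˢ B)).toReal = (Q (A ×ˢ B)).toReal := by exact_mod_cast h1
  exact (ENNReal.toReal_eq_toReal_iff' (measure_ne_top _ _) (measure_ne_top _ _)).1 h2

private theorem mq_inj_out : Function.Injective out3 := by
  intro a b h
  revert a b h
  decide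

private theorem mq_inj_in : Function.Injective (in3 0) := by
  intro a b h
  revert a b h
  decide

private theorem mq_meas_inn {X : Type} [MeasurableSpace X] (k : ℕ) :
    Measurable (inn k : Arr (Fin 3) X k → Arr (Fin 2) X k) := sb_meas_rst _

private theorem mq_meas_outp {X : Type} [MeasurableSpace X] (k : ℕ) :
    Measurable (outp k : Arr (Fin 3) X k → Arr (Fin 2) X k) := sb_meas_rst _

/-- the σ-algebra of the component of the inner pattern -/
@[reducible] def innInv {X : Type} [MeasurableSpace X] (T : X ≃ᵐ X) (k : ℕ) :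
    MeasurableSpace (Arr (Fin 3) X k) :=
  MeasurableSpace.comap (inn k) (Inv (tArr T (Fin 2) k))

theorem innInv_le {X : Type} [MeasurableSpace X] (T : X ≃ᵐ X) (k : ℕ) :
    innInv T k ≤ Inv (tArr T (Fin 3) k) := by
  rintro s ⟨t, ht, rfl⟩
  have ht' := MeasurableSpace.measurableSet_invariants.1 ht
  refine MeasurableSpace.measurableSet_invariants.2 ⟨(sb_meas_rst _) ht'.1, ?_⟩
  ext x
  have h1 : inn k (tArr T (Fin 3) k x) = tArr T (Fin 2) k (inn k x) := rfl
  have h2 : (tArr T (Fin 2) k (inn k x) ∈ t) ↔ inn k x ∈ t := by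
    have h3 := Set.ext_iff.1 ht'.2 (inn k x)
    exact h3
  show inn k (tArr T (Fin 3) k x) ∈ t ↔ inn k x ∈ t
  rw [h1, h2]

/-- **MQ1.** Joint law of the two patterns under the conditional measure on the component of the
inner pattern: the inner pattern `x` has the law of its component, and given `x` the outer pattern is
a cube conditioned on having the same root.

Proof. Let `E` be the conditional expectation on `innInv`. For bounded measurable `Φ₁, Φ₂` on the
cubes: by `two_patterns_condExp` (given the inner pattern, `E[Φ₂(outer) | inner] = vE Φ₂ (root)`,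
with the roles of the two patterns `e = out3`, `e' = in3 0`, `a₀ = b₀ = 0`) and the tower property,
`E[Φ₁(inner) Φ₂(outer)] = E[Φ₁(inner) vE Φ₂ (root)]`, and by `condExp_comap` (KT3) this is
`∫ Φ₁(x) vE Φ₂ (x 0) ∂(κ (inn q))` for almost every `q`. Apply this to the indicators of sets in
countable generating algebras: the two probability measures on
`Arr (Fin 2) X k × Arr (Fin 2) X k` (the law of `(inner, outer)` under the conditional measure, and
`κ (inn q)` followed by the kernel `vK` at the root) agree on a countable generating π-system for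
almost every `q`, so they agree. -/
theorem mq_joint {X : Type} [MeasurableSpace X] [StandardBorelSpace X] [Nonempty X]
    (μ : Measure X) [IsProbabilityMeasure μ] (T : X ≃ᵐ X) (hT : MeasurePreserving T μ μ) (k : ℕ) :
    ∀ᵐ q ∂(cube μ T (Fin 3) k), ∀ Φ : Arr (Fin 2) X k → Arr (Fin 2) X k → ℂ,
      BM (fun z : Arr (Fin 2) X k × Arr (Fin 2) X k => Φ z.1 z.2) →
      ∫ y, Φ (inn k y) (outp k y) ∂(condExpKernel (cube μ T (Fin 3) k) (innInv T k) q) =
        ∫ x, ∫ x', Φ x x' ∂(vK μ T (Fin 2) k 0 (x 0))
          ∂(condExpKernel (cube μ T (Fin 2) k) (Inv (tArr T (Fin 2) k)) (inn k q)) := by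
  obtain ⟨C, hCc, hgen, hpi, hmeas, huniv⟩ := mq_gen (Arr (Fin 2) X k)
  have hvK := vK_prob μ T (Fin 2) k 0
  have hle2 : Inv (tArr T (Fin 2) k) ≤ (inferInstance : MeasurableSpace (Arr (Fin 2) X k)) :=
    MeasurableSpace.invariants_le _
  have hle3 : innInv T k ≤ (inferInstance : MeasurableSpace (Arr (Fin 3) X k)) :=
    (innInv_le T k).trans (MeasurableSpace.invariants_le _)
  have hinn : FMap (cube μ T (Fin 3) k) (tArr T (Fin 3) k) (cube μ T (Fin 2) k)
      (tArr T (Fin 2) k) (inn k) := cube_rst hT (fun _ => in3 0) (fun _ => mq_inj_in)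
  have hmi : Measurable (inn k : Arr (Fin 3) X k → Arr (Fin 2) X k) := mq_meas_inn k
  have hmo : Measurable (outp k : Arr (Fin 3) X k → Arr (Fin 2) X k) := mq_meas_outp k
  have hlec : MeasurableSpace.comap (inn k) (inferInstance : MeasurableSpace (Arr (Fin 2) X k)) ≤
      (inferInstance : MeasurableSpace (Arr (Fin 3) X k)) := measurable_iff_comap_le.1 hmi
  have hlei : innInv T k ≤
      MeasurableSpace.comap (inn k) (inferInstance : MeasurableSpace (Arr (Fin 2) X k)) :=
    MeasurableSpace.comap_mono hle2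
  have key : ∀ A ∈ C, ∀ B ∈ C, ∀ᵐ q ∂(cube μ T (Fin 3) k),
      ∫ y, A.indicator (fun _ => (1 : ℂ)) (inn k y) * B.indicator (fun _ => (1 : ℂ)) (outp k y)
        ∂(condExpKernel (cube μ T (Fin 3) k) (innInv T k) q) =
      ∫ x, A.indicator (fun _ => (1 : ℂ)) x *
        vE μ T (Fin 2) k 0 (B.indicator (fun _ => (1 : ℂ))) (x 0)
        ∂(condExpKernel (cube μ T (Fin 2) k) (Inv (tArr T (Fin 2) k)) (inn k q)) := by
    intro A hA B hB
    have fA := mq_bm (hmeas A hA)
    have fB := mq_bm (hmeas B hB)
    have hF3 : BM (fun y : Arr (Fin 3) X k => A.indicator (fun _ => (1 : ℂ)) (inn k y) *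
        B.indicator (fun _ => (1 : ℂ)) (outp k y)) := BMs.mul (BMs.comp fA hmi) (BMs.comp fB hmo)
    have hG : BM (fun x : Arr (Fin 2) X k => A.indicator (fun _ => (1 : ℂ)) x *
        vE μ T (Fin 2) k 0 (B.indicator (fun _ => (1 : ℂ))) (x 0)) :=
      BMs.mul fA (BMs.comp (vE_bm μ T (Fin 2) k 0 fB) (measurable_pi_apply 0))
    have s1 : (cube μ T (Fin 3) k)[fun y => A.indicator (fun _ => (1 : ℂ)) (inn k y) *
        B.indicator (fun _ => (1 : ℂ)) (outp k y) |
        MeasurableSpace.comap (inn k) inferInstance] =ᵐ[cube μ T (Fin 3) k]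
        fun y => A.indicator (fun _ => (1 : ℂ)) (inn k y) *
          vE μ T (Fin 2) k 0 (B.indicator (fun _ => (1 : ℂ))) ((inn k y) 0) := by
      have h1 := two_patterns_condExp μ T hT k (fun _ => out3) (fun _ => in3 0)
        (fun _ => mq_inj_out) (fun _ => mq_inj_in) 0 0 (fun _ => rfl)
        (fun _ => (by decide : ∀ a b : Fin 2, out3 a = in3 0 b → a = 0 ∧ b = 0)) fB
      have hm1 : Measurable[MeasurableSpace.comap (inn k) inferInstance]
          (fun y : Arr (Fin 3) X k => A.indicator (fun _ => (1 : ℂ)) (inn k y)) :=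
        fA.1.comp (comap_measurable (inn k))
      obtain ⟨-, c, hc⟩ := fA
      have h2 : (cube μ T (Fin 3) k)[fun y => A.indicator (fun _ => (1 : ℂ)) (inn k y) *
          B.indicator (fun _ => (1 : ℂ)) (outp k y) |
          MeasurableSpace.comap (inn k) inferInstance] =ᵐ[cube μ T (Fin 3) k]
          fun y => A.indicator (fun _ => (1 : ℂ)) (inn k y) *
            ((cube μ T (Fin 3) k)[fun y => B.indicator (fun _ => (1 : ℂ)) (outp k y) |
              MeasurableSpace.comap (inn k) inferInstance]) y :=
        condExp_stronglyMeasurable_bilin_of_bound (ContinuousLinearMap.mul ℝ ℂ) hlec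
          hm1.stronglyMeasurable (BM.integrable (BMs.comp fB hmo) (cube μ T (Fin 3) k)) c
          (ae_of_all _ fun y => hc (inn k y))
      filter_upwards [h1, h2] with y h3 h4
      rw [h4]
      have h5 : ((cube μ T (Fin 3) k)[fun y => B.indicator (fun _ => (1 : ℂ)) (outp k y) |
              MeasurableSpace.comap (inn k) inferInstance]) y =
          vE μ T (Fin 2) k 0 (B.indicator (fun _ => (1 : ℂ))) ((inn k y) 0) := h3
      rw [h5]
    have s2 : (cube μ T (Fin 3) k)[fun y => A.indicator (fun _ => (1 : ℂ)) (inn k y) *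
        B.indicator (fun _ => (1 : ℂ)) (outp k y) | innInv T k] =ᵐ[cube μ T (Fin 3) k]
        (cube μ T (Fin 3) k)[fun y => A.indicator (fun _ => (1 : ℂ)) (inn k y) *
          vE μ T (Fin 2) k 0 (B.indicator (fun _ => (1 : ℂ))) ((inn k y) 0) | innInv T k] :=
      (condExp_condExp_of_le hlei hlec).symm.trans (condExp_congr_ae s1)
    have s3 := condExp_comap (Inv (tArr T (Fin 2) k)) hle2 hinn.mp hG
    have s4 := condExp_ae_eq_integral_condExpKernel (μ := cube μ T (Fin 3) k) hle3
      (hF3.integrable (cube μ T (Fin 3) k))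
    have s5 := hinn.mp.quasiMeasurePreserving.ae
      (condExp_ae_eq_integral_condExpKernel (μ := cube μ T (Fin 2) k) hle2
        (hG.integrable (cube μ T (Fin 2) k)))
    filter_upwards [s2, s3, s4, s5] with q h2 h3 h4 h5
    rw [← h4, h2, ← h5]
    exact h3
  have key' : ∀ᵐ q ∂(cube μ T (Fin 3) k), ∀ A ∈ C, ∀ B ∈ C,
      ∫ y, A.indicator (fun _ => (1 : ℂ)) (inn k y) * B.indicator (fun _ => (1 : ℂ)) (outp k y)
        ∂(condExpKernel (cube μ T (Fin 3) k) (innInv T k) q) =
      ∫ x, A.indicator (fun _ => (1 : ℂ)) x *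
        vE μ T (Fin 2) k 0 (B.indicator (fun _ => (1 : ℂ))) (x 0)
        ∂(condExpKernel (cube μ T (Fin 2) k) (Inv (tArr T (Fin 2) k)) (inn k q)) :=
    (ae_ball_iff hCc).2 fun A hA => (ae_ball_iff hCc).2 fun B hB => key A hA B hB
  filter_upwards [key'] with q hq Φ hΦ
  have hpair : Measurable (fun y : Arr (Fin 3) X k => (inn k y, outp k y)) := hmi.prodMk hmo
  have hm0 : Measurable (fun x : Arr (Fin 2) X k => x 0) := measurable_pi_apply 0
  have hprob3 : IsProbabilityMeasure
      (condExpKernel (cube μ T (Fin 3) k) (innInv T k) q) := relA_prob _ _ q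
  have hprob2 : IsProbabilityMeasure (condExpKernel (cube μ T (Fin 2) k)
      (Inv (tArr T (Fin 2) k)) (inn k q)) := relA_prob _ _ _
  have hPP : IsProbabilityMeasure ((condExpKernel (cube μ T (Fin 3) k) (innInv T k) q).map
      (fun y => (inn k y, outp k y))) := Measure.isProbabilityMeasure_map hpair.aemeasurable
  have hPQ : (condExpKernel (cube μ T (Fin 3) k) (innInv T k) q).map
      (fun y => (inn k y, outp k y)) =
      (condExpKernel (cube μ T (Fin 2) k) (Inv (tArr T (Fin 2) k)) (inn k q)) ⊗ₘ
        ((vK μ T (Fin 2) k 0).comap (fun x : Arr (Fin 2) X k => x 0) hm0) := by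
    refine mq_ext hgen hpi hmeas huniv _ _ ?_
    intro A hA B hB
    have hAB : BM (fun z : Arr (Fin 2) X k × Arr (Fin 2) X k =>
        A.indicator (fun _ => (1 : ℂ)) z.1 * B.indicator (fun _ => (1 : ℂ)) z.2) :=
      BMs.mul (BMs.comp (mq_bm (hmeas A hA)) measurable_fst)
        (BMs.comp (mq_bm (hmeas B hB)) measurable_snd)
    rw [integral_map hpair.aemeasurable hAB.1.aestronglyMeasurable,
      Measure.integral_compProd (hAB.integrable _)]
    refine (hq A hA B hB).trans ?_
    refine integral_congr_ae (ae_of_all _ fun x => ?_)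
    show A.indicator (fun _ => (1 : ℂ)) x *
        ∫ x', B.indicator (fun _ => (1 : ℂ)) x' ∂(vK μ T (Fin 2) k 0 (x 0)) =
      ∫ x', A.indicator (fun _ => (1 : ℂ)) x * B.indicator (fun _ => (1 : ℂ)) x'
        ∂(vK μ T (Fin 2) k 0 (x 0))
    exact (integral_const_mul _ _).symm
  have e1 : ∫ y, Φ (inn k y) (outp k y) ∂(condExpKernel (cube μ T (Fin 3) k) (innInv T k) q) =
      ∫ z, Φ z.1 z.2 ∂((condExpKernel (cube μ T (Fin 3) k) (innInv T k) q).map
        (fun y => (inn k y, outp k y))) :=
    (integral_map hpair.aemeasurable hΦ.1.aestronglyMeasurable).symm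
  rw [e1, hPQ, Measure.integral_compProd (hΦ.integrable _)]
  rfl

/-- **MQ2.** For almost every `q`, for almost every `q'` with respect to the conditional measure on
`innInv` at `q`, the inner patterns of `q` and `q'` have the same component measure
(`map_condExpKernel_comap` (KT2) and `condExpKernel_self`), and the law of the inner pattern under
the ergodic component of `q'` is this measure, the law of the outer pattern is the component measure
of the outer pattern of `q'` (`map_condExpKernel` for the factor maps `inn`, `outp`;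
`cube_rst`). -/
theorem mq_comp {X : Type} [MeasurableSpace X] [StandardBorelSpace X] [Nonempty X]
    (μ : Measure X) [IsProbabilityMeasure μ] (T : X ≃ᵐ X) (hT : MeasurePreserving T μ μ) (k : ℕ) :
    ∀ᵐ q ∂(cube μ T (Fin 3) k),
      ∀ᵐ q' ∂(condExpKernel (cube μ T (Fin 3) k) (innInv T k) q),
        (condExpKernel (cube μ T (Fin 3) k) (Inv (tArr T (Fin 3) k)) q').map (inn k) =
          condExpKernel (cube μ T (Fin 2) k) (Inv (tArr T (Fin 2) k)) (inn k q) ∧
        (condExpKernel (cube μ T (Fin 3) k) (Inv (tArr T (Fin 3) k)) q').map (outp k) =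
          condExpKernel (cube μ T (Fin 2) k) (Inv (tArr T (Fin 2) k)) (outp k q') := by
  have hinn : FMap (cube μ T (Fin 3) k) (tArr T (Fin 3) k) (cube μ T (Fin 2) k)
      (tArr T (Fin 2) k) (inn k) := cube_rst hT (fun _ => in3 0) (fun _ => mq_inj_in)
  have hout : FMap (cube μ T (Fin 3) k) (tArr T (Fin 3) k) (cube μ T (Fin 2) k)
      (tArr T (Fin 2) k) (outp k) := cube_rst hT (fun _ => out3) (fun _ => mq_inj_out)
  have hle2 : Inv (tArr T (Fin 2) k) ≤ (inferInstance : MeasurableSpace (Arr (Fin 2) X k)) :=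
    MeasurableSpace.invariants_le _
  have hle3 : innInv T k ≤ (inferInstance : MeasurableSpace (Arr (Fin 3) X k)) :=
    (innInv_le T k).trans (MeasurableSpace.invariants_le _)
  have h1 := ae_ae_condExpKernel (innInv T k) (cube μ T (Fin 3) k) hle3
    (map_condExpKernel (cube_tArr μ T hT (Fin 3) k) (cube_tArr μ T hT (Fin 2) k) hinn)
  have h2 := ae_ae_condExpKernel (innInv T k) (cube μ T (Fin 3) k) hle3
    (map_condExpKernel (cube_tArr μ T hT (Fin 3) k) (cube_tArr μ T hT (Fin 2) k) hout)
  have h3 := map_condExpKernel_comap (Inv (tArr T (Fin 2) k)) hle2 hinn.mp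
  have h4 := hinn.mp.quasiMeasurePreserving.ae
    (condExpKernel_self (Inv (tArr T (Fin 2) k)) (cube μ T (Fin 2) k) hle2)
  filter_upwards [h1, h2, h3, h4] with q g1 g2 g3 g4
  rw [← g3] at g4
  have g5 := ae_of_ae_map (mq_meas_inn k).aemeasurable g4
  filter_upwards [g1, g2, g5] with q' f1 f2 f3
  refine ⟨?_, f2⟩
  rw [f1, f3]
  exact g3

end Pool.Agent.HK820

end

/-! ### Part `JN` -/

section

open MeasureTheory ProbabilityTheory Filter Topology
open scoped ComplexConjugate ENNReal

namespace Pool.Agent.HK820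

/-- disintegration along a measure preserving map -/
private theorem jn_comp {X Q : Type} [MeasurableSpace X]
    [MeasurableSpace Q] [StandardBorelSpace Q] [Nonempty Q] {μ : Measure X}
    {ν : Measure Q} [IsProbabilityMeasure ν] {π : Q → X}
    (hp : MeasurePreserving π ν μ) :
    μ ⊗ₘ condDistrib id π ν = ν.map (fun q => (π q, q)) := by
  have h : (ν.map π) ⊗ₘ condDistrib id π ν = ν.map (fun a => (π a, id a)) :=
    compProd_map_condDistrib aemeasurable_id
  rw [hp.map_eq] at h
  exact h

/-- the disintegration is carried by the fibres -/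
private theorem jn_fib {X Q : Type} [MeasurableSpace X] [StandardBorelSpace X]
    [MeasurableSpace Q] [StandardBorelSpace Q] [Nonempty Q] {μ : Measure X}
    [IsProbabilityMeasure μ] {ν : Measure Q} [IsProbabilityMeasure ν] {π : Q → X}
    (hp : MeasurePreserving π ν μ) :
    ∀ᵐ x ∂μ, ∀ᵐ q ∂(condDistrib id π ν x), π q = x := by
  have hm : MeasurableSet {p : X × Q | π p.2 = p.1} :=
    measurableSet_eq_fun (hp.measurable.comp measurable_snd) measurable_fst
  have h2 : ∀ᵐ p ∂(μ ⊗ₘ condDistrib id π ν), π p.2 = p.1 := by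
    rw [jn_comp hp]
    refine (ae_map_iff (hp.measurable.prodMk measurable_id).aemeasurable hm).2 ?_
    exact Eventually.of_forall fun q => rfl
  exact Measure.ae_ae_of_ae_compProd h2

/-- the disintegration is equivariant -/
private theorem jn_eqv {X Q : Type} [MeasurableSpace X] [StandardBorelSpace X]
    [MeasurableSpace Q] [StandardBorelSpace Q] [Nonempty Q] {μ : Measure X}
    [IsProbabilityMeasure μ] {T : X ≃ᵐ X} (hT : MeasurePreserving T μ μ)
    {ν : Measure Q} [IsProbabilityMeasure ν] {S : Q ≃ᵐ Q} (hS : MeasurePreserving S ν ν)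
    {π : Q → X} (hp : FMap ν S μ T π) :
    ∀ᵐ x ∂μ, (condDistrib id π ν x).map S = condDistrib id π ν (T x) := by
  have h1 : condDistrib (S ∘ id) π ν =ᵐ[ν.map π] (condDistrib id π ν).map S :=
    condDistrib_comp π aemeasurable_id S.measurable
  rw [hp.mp.map_eq] at h1
  have hπm : Measurable π := hp.mp.measurable
  have h3 : ν.map (fun q => (π q, (S ∘ id) q)) =
      ν.map π ⊗ₘ ((condDistrib id π ν).comap T T.measurable) := by
    rw [hp.mp.map_eq]
    ext s hs
    rw [Measure.map_apply (hπm.prodMk (S.measurable.comp measurable_id)) hs,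
      Measure.compProd_apply hs]
    have e1 : ∀ x, ((condDistrib id π ν).comap T T.measurable) x (Prod.mk x ⁻¹' s) =
        (fun y => condDistrib id π ν y
          (Prod.mk y ⁻¹' ((fun p : X × Q => (T.symm p.1, p.2)) ⁻¹' s))) (T x) := by
      intro x
      rw [Kernel.comap_apply]
      have : Prod.mk (T x) ⁻¹' ((fun p : X × Q => (T.symm p.1, p.2)) ⁻¹' s) =
          Prod.mk x ⁻¹' s := by
        ext q
        simp only [Set.mem_preimage, MeasurableEquiv.symm_apply_apply]
      simp only [this]
    simp_rw [e1]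
    have hmap : Measurable (fun p : X × Q => (T.symm p.1, p.2)) :=
      (T.symm.measurable.comp measurable_fst).prodMk measurable_snd
    have e2 : ∫⁻ x, (fun y => condDistrib id π ν y
          (Prod.mk y ⁻¹' ((fun p : X × Q => (T.symm p.1, p.2)) ⁻¹' s))) (T x) ∂μ =
        ∫⁻ y, condDistrib id π ν y
          (Prod.mk y ⁻¹' ((fun p : X × Q => (T.symm p.1, p.2)) ⁻¹' s)) ∂μ := by
      have e3 := lintegral_map_equiv (μ := μ) (fun y => condDistrib id π ν y
          (Prod.mk y ⁻¹' ((fun p : X × Q => (T.symm p.1, p.2)) ⁻¹' s))) T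
      rw [hT.map_eq] at e3
      exact e3.symm
    have hpm : Measurable (fun q : Q => (π q, q)) := hπm.prodMk measurable_id
    rw [e2, ← Measure.compProd_apply (hmap hs), jn_comp hp.mp,
      Measure.map_apply hpm (hmap hs)]
    have hms : MeasurableSet ((fun q => (π q, q)) ⁻¹'
        ((fun p : X × Q => (T.symm p.1, p.2)) ⁻¹' s)) := hpm (hmap hs)
    rw [← hS.measure_preimage hms.nullMeasurableSet]
    refine measure_congr ?_
    filter_upwards [hp.eqv] with q hq
    apply propext
    show (π q, S q) ∈ s ↔ (T.symm (π (S q)), S q) ∈ s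
    rw [hq, MeasurableEquiv.symm_apply_apply]
  have h2 : condDistrib (S ∘ id) π ν =ᵐ[ν.map π] (condDistrib id π ν).comap T T.measurable :=
    condDistrib_ae_eq_of_measure_eq_compProd π (S.measurable.comp measurable_id).aemeasurable h3
  rw [hp.mp.map_eq] at h2
  filter_upwards [h1, h2] with x e1 e2
  rw [← Kernel.map_apply _ S.measurable, ← e1, e2, Kernel.comap_apply]

/-- measurability of a family of infinite products -/
private theorem jn_meas {X : Type} [MeasurableSpace X] {Q : ℕ → Type}
    [∀ j, MeasurableSpace (Q j)] (K : ∀ j, Kernel X (Q j)) [∀ j, IsMarkovKernel (K j)] :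
    Measurable (fun x => Measure.infinitePi (fun j => K j x)) := by
  refine Measurable.measure_of_isPiSystem_of_isProbabilityMeasure
    (S := squareCylinders fun j => {s : Set (Q j) | MeasurableSet s})
    generateFrom_squareCylinders.symm
    (isPiSystem_squareCylinders (fun j => MeasurableSpace.isPiSystem_measurableSet)
      (fun j => MeasurableSet.univ)) ?_
  rintro s ⟨I, t, ht, rfl⟩
  have ht' : ∀ j, MeasurableSet (t j) := fun j => ht j (Set.mem_univ j)
  have e : (fun x => Measure.infinitePi (fun j => K j x) ((I : Set ℕ).pi t)) =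
      fun x => ∏ j ∈ I, K j x (t j) := by
    funext x
    exact Measure.infinitePi_pi _ (fun j _ => ht' j)
  show Measurable (fun x => Measure.infinitePi (fun j => K j x) ((I : Set ℕ).pi t))
  rw [e]
  exact Finset.measurable_prod _ fun j _ => Kernel.measurable_coe _ (ht' j)

/-- **JN.** Countable relatively independent joinings: countably many ergodic extensions of an
ergodic system are factors of one ergodic extension.

Proof. Let `K j : Kernel X (Q j)` be the conditional distribution of `id : Q j → Q j` given `π j`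
(`condDistrib id (π j) (ν j)`, Markov), `Q = ∀ j, Q j` (standard Borel: countable product),
`λ₀ = μ.bind (fun x => Measure.infinitePi (fun j => K j x))` (measurability of the family on
cylinders, π-λ), `S q j = S j (q j)`. Since `K j` is equivariant, `(K j x).map (S j) = K j (T x)` for
a.e. `x` (uniqueness of the conditional distribution), `λ₀` is `S`-invariant; the image of `λ₀` under
`q ↦ q j` is `ν j`; and `π j (q j) = π 0 (q 0)` `λ₀`-almost surely (`K j x` is carried by
`π j⁻¹ {x}`). By `ergodic_decomp` and `fmap_condExpKernel` (for the factor maps `q ↦ q j` onto the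
ergodic systems `Q j`) almost every component `λ` of `λ₀` is ergodic and `q ↦ q j` is a factor map
onto `(Q j, ν j)` for all `j`; almost sure identities pass to the components
(`ae_ae_condExpKernel`). -/
theorem exists_joining {X : Type} [mX : MeasurableSpace X] [StandardBorelSpace X] {μ : Measure X}
    [IsProbabilityMeasure μ] {T : X ≃ᵐ X} (hT : Ergodic T μ) (Q : ℕ → Type)
    [mQ : ∀ j, MeasurableSpace (Q j)] [∀ j, StandardBorelSpace (Q j)] (ν : ∀ j, Measure (Q j))
    [∀ j, IsProbabilityMeasure (ν j)] (S : ∀ j, Q j ≃ᵐ Q j) (π : ∀ j, Q j → X)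
    (hS : ∀ j, Ergodic (S j) (ν j)) (hπ : ∀ j, FMap (ν j) (S j) μ T (π j)) :
    ∃ (P : Type) (_ : MeasurableSpace P) (_ : StandardBorelSpace P) (θ : Measure P)
      (R : P ≃ᵐ P) (p : ∀ j, P → Q j), IsProbabilityMeasure θ ∧ Ergodic R θ ∧
      (∀ j, FMap θ R (ν j) (S j) (p j)) ∧ ∀ j, ∀ᵐ x ∂θ, π j (p j x) = π 0 (p 0 x) := by
  have hne : ∀ j, Nonempty (Q j) := fun j => nonempty_of_isProbabilityMeasure (ν j)
  set K : ∀ j, Kernel X (Q j) := fun j => condDistrib id (π j) (ν j) with hK
  have hKm : ∀ j, IsMarkovKernel (K j) := fun j => by rw [hK]; infer_instance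
  have hKcomp : ∀ j, μ ⊗ₘ K j = (ν j).map (fun q => (π j q, q)) := fun j => jn_comp (hπ j).mp
  have hKfib : ∀ j, ∀ᵐ x ∂μ, ∀ᵐ q ∂(K j x), π j q = x := fun j => jn_fib (hπ j).mp
  have hKeqv : ∀ j, ∀ᵐ x ∂μ, (K j x).map (S j) = K j (T x) := fun j =>
    jn_eqv hT.toMeasurePreserving (hS j).toMeasurePreserving (hπ j)
  clear_value K
  clear hK
  have hκ : Measurable (fun x => Measure.infinitePi (fun j => K j x)) := jn_meas K
  set lam : Measure (∀ j, Q j) := μ.bind (fun x => Measure.infinitePi (fun j => K j x)) with hlam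
  have hlapp : ∀ s, MeasurableSet s →
      lam s = ∫⁻ x, Measure.infinitePi (fun j => K j x) s ∂μ := fun s hs =>
    Measure.bind_apply hs hκ.aemeasurable
  have hprob : IsProbabilityMeasure lam := by
    refine ⟨?_⟩
    rw [hlapp _ MeasurableSet.univ]
    simp
  clear_value lam
  set R : (∀ j, Q j) ≃ᵐ (∀ j, Q j) := MeasurableEquiv.piCongrRight S with hR
  have hRapp : ∀ q : ∀ j, Q j, R q = fun j => S j (q j) := fun q => rfl
  -- invariance
  have hinv : MeasurePreserving R lam lam := by
    refine ⟨R.measurable, ?_⟩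
    ext s hs
    rw [Measure.map_apply R.measurable hs, hlapp _ (R.measurable hs), hlapp _ hs]
    have e1 : ∀ᵐ x ∂μ, Measure.infinitePi (fun j => K j x) (R ⁻¹' s) =
        Measure.infinitePi (fun j => K j (T x)) s := by
      have hall : ∀ᵐ x ∂μ, ∀ j, (K j x).map (S j) = K j (T x) := ae_all_iff.2 hKeqv
      filter_upwards [hall] with x hx
      have e2 := Measure.infinitePi_map_pi (fun j => K j x) (f := fun j => (S j : Q j → Q j))
        (fun j => (S j).measurable)
      simp_rw [hx] at e2
      rw [← e2, Measure.map_apply _ hs]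
      · rfl
      · exact R.measurable
    rw [lintegral_congr_ae e1]
    have e3 := lintegral_map_equiv (μ := μ)
      (fun y => Measure.infinitePi (fun j => K j y) s) T
    rw [hT.toMeasurePreserving.map_eq] at e3
    exact e3.symm
  -- marginals
  have hmarg : ∀ j, MeasurePreserving (fun q : ∀ j, Q j => q j) lam (ν j) := by
    intro j
    refine ⟨measurable_pi_apply j, ?_⟩
    ext s hs
    rw [Measure.map_apply (measurable_pi_apply j) hs, hlapp _ (measurable_pi_apply j hs)]
    have e1 : ∀ x, Measure.infinitePi (fun j => K j x) ((fun q : ∀ j, Q j => q j) ⁻¹' s) =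
        K j x s := by
      intro x
      rw [← Measure.map_apply (measurable_pi_apply j) hs, Measure.infinitePi_map_eval]
    simp_rw [e1]
    have e2 : (μ ⊗ₘ K j) (Prod.snd ⁻¹' s) = ∫⁻ x, K j x s ∂μ := by
      rw [Measure.compProd_apply (measurable_snd hs)]
      rfl
    have hpm : Measurable (fun q : Q j => (π j q, q)) :=
      (hπ j).mp.measurable.prodMk measurable_id
    rw [← e2, hKcomp j, Measure.map_apply hpm (measurable_snd hs)]
    rfl
  -- the projections to `X` agree
  have hagree : ∀ j, ∀ᵐ q ∂lam, π j (q j) = π 0 (q 0) := by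
    intro j
    have hms : MeasurableSet {q : ∀ j, Q j | π j (q j) = π 0 (q 0)} :=
      measurableSet_eq_fun ((hπ j).mp.measurable.comp (measurable_pi_apply j))
        ((hπ 0).mp.measurable.comp (measurable_pi_apply 0))
    have key : ∀ i, ∀ᵐ x ∂μ, ∀ᵐ q ∂(Measure.infinitePi (fun j => K j x)), π i (q i) = x := by
      intro i
      filter_upwards [hKfib i] with x hx
      have e1 := (measurePreserving_eval_infinitePi (fun j => K j x) i)
      exact e1.quasiMeasurePreserving.ae hx
    rw [ae_iff]
    have hms' : MeasurableSet {q : ∀ j, Q j | ¬ π j (q j) = π 0 (q 0)} := hms.compl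
    rw [hlapp _ hms']
    have hms2 : Measurable (fun x => Measure.infinitePi (fun j => K j x)
        {q : ∀ j, Q j | ¬ π j (q j) = π 0 (q 0)}) := (Measure.measurable_coe hms').comp hκ
    rw [lintegral_eq_zero_iff hms2]
    filter_upwards [key j, key 0] with x h1 h2
    have h3 : ∀ᵐ q ∂(Measure.infinitePi (fun j => K j x)), π j (q j) = π 0 (q 0) := by
      filter_upwards [h1, h2] with q e1 e2
      rw [e1, e2]
    exact ae_iff.1 h3
  have hfm : ∀ j, FMap lam R (ν j) (S j) (fun q : ∀ j, Q j => q j) := fun j =>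
    ⟨hmarg j, Eventually.of_forall fun q => rfl⟩
  have hsb : StandardBorelSpace (∀ j, Q j) := inferInstance
  have h1 := ergodic_decomp lam R hinv
  have h2 : ∀ᵐ x ∂lam, ∀ j, FMap (condExpKernel lam (Inv R) x) R (ν j) (S j)
      (fun q : ∀ j, Q j => q j) := ae_all_iff.2 fun j => fmap_condExpKernel hinv (hS j) (hfm j)
  have h3 : ∀ᵐ x ∂lam, ∀ j, ∀ᵐ q ∂(condExpKernel lam (Inv R) x), π j (q j) = π 0 (q 0) :=
    ae_all_iff.2 fun j =>
      ae_ae_condExpKernel (Inv R) lam (MeasurableSpace.invariants_le (R : _ → _)) (hagree j)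
  obtain ⟨q, hq1, hq2, hq3⟩ := (h1.and (h2.and h3)).exists
  exact ⟨∀ j, Q j, inferInstance, hsb, condExpKernel lam (Inv R) q, R, fun j q => q j,
    inferInstance, hq1, hq2, hq3⟩

end Pool.Agent.HK820

end
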