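import Pool.Agent.Lib_MP_820dd4_hk.ZD
import Pool.Agent.Lib_MP_820dd4_hk.FA
import Pool.Agent.Lib_MP_820dd4_hk.CE3A
import Pool.Agent.Lib_MP_820dd4_hk.SBd
import Pool.Agent.Lib_MP_820dd4_hk.JN

/-! ### Part `PH` -/

section

open MeasureTheory ProbabilityTheory Filter Topology
open scoped ComplexConjugate ENNReal

namespace Pool.Agent.HK820

/-- invariance of the conditional expectation of a function with a multiplicative cocycle -/
theorem ph_inv {Y : Type} (M : MeasurableSpace Y) [mY : MeasurableSpace Y] (P : Measure Y)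
    [IsProbabilityMeasure P] (hM : M ≤ mY) (τ : Y ≃ᵐ Y) (hτ : MeasurePreserving τ P P)
    (h1 : Measurable[M, M] τ) (h2 : Measurable[M, M] τ.symm) {F c g : Y → ℂ} (hF : BM F)
    (hc : BMs M c) (hFc : (fun y => F (τ y)) =ᵐ[P] fun y => F y * c y) (hg : BMs M g)
    (hgF : P[F | M] =ᵐ[P] g) : (fun y => g (τ y)) =ᵐ[P] fun y => g y * c y := by
  have e1 : P[fun y => F (τ y) | M] =ᵐ[P] fun y => (P[F | M]) (τ y) :=
    condExp_comp_equiv M M hM hM τ hτ h1 h2 hF
  have e2 : (fun y => (P[F | M]) (τ y)) =ᵐ[P] fun y => g (τ y) :=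
    hτ.quasiMeasurePreserving.ae_eq_comp hgF
  have hFcB : BM (fun y => F y * c y) := BMs.mul hF (BMs.mono hM hc)
  have e3 : P[fun y => F y * c y | M] =ᵐ[P] fun y => g y * c y := by
    refine condExp_eq_of_forall M P hM hFcB (BMs.mul hg hc) ?_
    intro q hq
    have hqc : BMs M (fun y => q y * c y) := BMs.mul hq hc
    have i1 := integral_mul_condExp M P hM hF hqc
    have i2 : ∫ x, (q x * c x) * (P[F | M]) x ∂P = ∫ x, (q x * c x) * g x ∂P := by
      refine integral_congr_ae ?_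
      filter_upwards [hgF] with x hx
      rw [hx]
    calc ∫ x, q x * (F x * c x) ∂P = ∫ x, (q x * c x) * F x ∂P := by
          refine integral_congr_ae (Eventually.of_forall fun x => ?_)
          simp only []
          ring
      _ = ∫ x, (q x * c x) * g x ∂P := by rw [← i1, i2]
      _ = ∫ x, q x * (g x * c x) ∂P := by
          refine integral_congr_ae (Eventually.of_forall fun x => ?_)
          simp only []
          ring
  have e4 : P[fun y => F (τ y) | M] =ᵐ[P] P[fun y => F y * c y | M] := condExp_congr_ae hFc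
  exact (e2.symm.trans e1.symm).trans (e4.trans e3)

theorem pw_le {ι X : Type} (m : MeasurableSpace X) [mX : MeasurableSpace X] (hm : m ≤ mX)
    (D : ℕ) : pw m D ≤ (inferInstance : MeasurableSpace (Arr ι X D)) := by
  refine iSup_le fun v => ?_
  exact (MeasurableSpace.comap_mono hm).trans (measurable_pi_apply v).comap_le

theorem eval_pw {ι X : Type} (m : MeasurableSpace X) (D : ℕ) (v : Fin D → ι) :
    Measurable[pw m D, m] (fun x : Arr ι X D => x v) := by
  have h : MeasurableSpace.comap (fun x : Arr ι X D => x v) m ≤ pw m D :=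
    le_iSup (fun v : Fin D → ι => MeasurableSpace.comap (fun x : Arr ι X D => x v) m) v
  exact measurable_iff_comap_le.2 h

theorem pw_meas {ι X : Type} (m : MeasurableSpace X) (D : ℕ)
    {Z : Type} (mZ : MeasurableSpace Z) {h : Z → Arr ι X D}
    (H : ∀ v, Measurable[mZ, m] (fun z => h z v)) : Measurable[mZ, pw m D] h := by
  rw [measurable_iff_comap_le, pw, MeasurableSpace.comap_iSup]
  refine iSup_le fun v => ?_
  rw [MeasurableSpace.comap_comp]
  exact (H v).comap_le

open Classical in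
theorem ph_cocycle {X : Type} (m : MeasurableSpace X) [mX : MeasurableSpace X]
    [StandardBorelSpace X] (μ : Measure X) [IsProbabilityMeasure μ] (T : X ≃ᵐ X)
    (hm : m ≤ mX) (hTm : TInv m T) (k : ℕ) {u : X → ℂ} (hu : Measurable u)
    (h1 : ∀ x, ‖u x‖ = 1) (hc : AEM m μ (fun x => u (T x) * conj (u x)))
    (τ : Arr (Fin 2) X k ≃ᵐ Arr (Fin 2) X k) (S : (Fin k → Fin 2) → Prop)
    (hτ : MeasurePreserving τ (cube μ T (Fin 2) k) (cube μ T (Fin 2) k))
    (t1 : ∀ x v, τ x v = if S v then T (x v) else x v)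
    (t2 : ∀ x v, τ.symm x v = if S v then T.symm (x v) else x v)
    {g : Arr (Fin 2) X k → ℂ} (hg : BMs (pw m k) g)
    (hgF : (cube μ T (Fin 2) k)[dd k u | pw m k] =ᵐ[cube μ T (Fin 2) k] g) :
    ∃ c : Arr (Fin 2) X k → ℂ, (∀ x, ‖c x‖ = 1) ∧
      (fun x => dd k u (τ x)) =ᵐ[cube μ T (Fin 2) k] (fun x => dd k u x * c x) ∧
      (fun x => g (τ x)) =ᵐ[cube μ T (Fin 2) k] (fun x => g x * c x) := by
  have _ := cube_prob μ T (Fin 2) k
  have hM : pw m k ≤ (inferInstance : MeasurableSpace (Arr (Fin 2) X k)) := pw_le m hm k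
  have huB : BM u := ⟨hu, 1, fun x => (h1 x).le⟩
  have hFB : BM (dd k u) := dd_bm k huB
  -- the cocycle
  set c0 : Arr (Fin 2) X k → ℂ := fun x => ∏ v, (if S v then
    cj (wt v) (u (T (x v)) * conj (u (x v))) else 1) with hc0
  have hc0A : AEM (pw m k) (cube μ T (Fin 2) k) c0 := by
    have hh : ∀ v : Fin k → Fin 2, AEM (pw m k) (cube μ T (Fin 2) k)
        (fun x : Arr (Fin 2) X k => if S v then cj (wt v) (u (T (x v)) * conj (u (x v))) else 1) := by
      intro v
      by_cases hv : S v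
      · simp only [hv, if_true]
        have hp := AEM.comp (m := pw m k) hc (cube_eval μ T (Fin 2) k v) (eval_pw m k v)
        exact AEM.cj hp (wt v)
      · simp only [hv, if_false]
        exact AEM.of_meas (@measurable_const _ _ _ (pw m k) _)
    exact AEM.prod Finset.univ hh
  have hn : ∀ x, ‖c0 x‖ = 1 := by
    intro x
    rw [hc0]
    simp only [norm_prod]
    refine Finset.prod_eq_one fun v _ => ?_
    split_ifs
    · rw [norm_cj, norm_mul, RCLike.norm_conj, h1, h1, one_mul]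
    · exact norm_one
  obtain ⟨c, c1, c2, c3⟩ := AEM.unimodular hc0A (Eventually.of_forall hn)
  have e0 : ∀ x, dd k u (τ x) = dd k u x * c0 x := by
    intro x
    rw [hc0]
    simp only [dd]
    rw [← Finset.prod_mul_distrib]
    refine Finset.prod_congr rfl fun v _ => ?_
    rw [t1]
    split_ifs with hv
    · rw [← cj_mul]
      congr 1
      have : u (x v) * conj (u (x v)) = 1 := by
        rw [Complex.mul_conj, Complex.normSq_eq_norm_sq, h1]
        simp
      calc u (T (x v)) = u (T (x v)) * (u (x v) * conj (u (x v))) := by rw [this, mul_one]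
        _ = u (x v) * (u (T (x v)) * conj (u (x v))) := by ring
    · rw [mul_one]
  have e1 : (fun x => dd k u (τ x)) =ᵐ[cube μ T (Fin 2) k] (fun x => dd k u x * c x) := by
    filter_upwards [c3] with x hx
    rw [e0, hx]
  refine ⟨c, c2, e1, ?_⟩
  have m1 : Measurable[pw m k, pw m k] τ := by
    refine pw_meas m k (pw m k) fun v => ?_
    simp only [t1]
    by_cases hv : S v
    · simp only [hv, if_true]
      exact hTm.1.comp (eval_pw m k v)
    · simp only [hv, if_false]
      exact eval_pw m k v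
  have m2 : Measurable[pw m k, pw m k] τ.symm := by
    refine pw_meas m k (pw m k) fun v => ?_
    simp only [t2]
    by_cases hv : S v
    · simp only [hv, if_true]
      exact hTm.2.comp (eval_pw m k v)
    · simp only [hv, if_false]
      exact eval_pw m k v
  exact ph_inv (pw m k) (cube μ T (Fin 2) k) hM τ hτ m1 m2 hFB ⟨c1, 1, fun x => (c2 x).le⟩ e1 hg hgF

/-- **PH1.** Phase lemma. If `u` is unimodular, its cocycle is measurable for an invariant σ-algebra
`m` and the seminorm does not vanish then the `k`-th derivative of `u` is vertexwise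
`m`-measurable.

Proof. `M = pw m k` is invariant under the diagonal and the slab transformations. Let
`g = E[dd k u | M]`; `∫ g = gn k u ≠ 0`. For the slab transformation `τ` in direction `j` with value
`1`, `(dd k u) ∘ τ = dd k u * c` where `c x = ∏_{v j = 1} cj (wt v) ((u ∘ T · conj u) (x v))` is
(a.e. equal to) a unimodular `M`-measurable function; so `g ∘ τ = E[(dd k u) ∘ τ | M] = c g`
(`condExp_comp_equiv`, `cube_slab`). Similarly for the diagonal transformation. Hence `|g|` is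
invariant under all of them, so it is a constant `r` (`slab_ergodic`), `r > 0`. Then
`dd k u * conj g` is invariant as well, hence a constant `c'`, and
`dd k u = c' * g / r ^ 2` almost everywhere (multiply by `g`). -/
theorem phase {X : Type} (m : MeasurableSpace X) [mX : MeasurableSpace X] [StandardBorelSpace X]
    (μ : Measure X) [IsProbabilityMeasure μ] (T : X ≃ᵐ X) (hT : Ergodic T μ) (hm : m ≤ mX)
    (hTm : TInv m T) (k : ℕ) {u : X → ℂ} (hu : Measurable u) (h1 : ∀ x, ‖u x‖ = 1)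
    (hc : AEM m μ (fun x => u (T x) * conj (u x))) (hg : gn μ T k u ≠ 0) :
    AEM (pw m k) (cube μ T (Fin 2) k) (dd k u) := by
  have _ := cube_prob μ T (Fin 2) k
  have hM : pw m k ≤ (inferInstance : MeasurableSpace (Arr (Fin 2) X k)) := pw_le m hm k
  have huB : BM u := ⟨hu, 1, fun x => (h1 x).le⟩
  have hFB : BM (dd k u) := dd_bm k huB
  obtain ⟨g, g1, g2, g3⟩ := exists_bms_condExp (pw m k) (cube μ T (Fin 2) k) hM hFB.1 (C := 1)
    (fun x => (norm_dd k h1 x).le)
  have hgB : BMs (pw m k) g := ⟨g1, 1, g2⟩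
  have hgB' : BM g := BMs.mono hM hgB
  -- the transformations
  have hS : ∀ j : Fin k, ∃ c : Arr (Fin 2) X k → ℂ, (∀ x, ‖c x‖ = 1) ∧
      (fun x => dd k u (slab T (Fin 2) k j 1 x)) =ᵐ[cube μ T (Fin 2) k]
        (fun x => dd k u x * c x) ∧
      (fun x => g (slab T (Fin 2) k j 1 x)) =ᵐ[cube μ T (Fin 2) k] (fun x => g x * c x) := by
    intro j
    refine ph_cocycle m μ T hm hTm k hu h1 hc (slab T (Fin 2) k j 1) (fun v => v j = 1)
      (cube_slab μ T hT.toMeasurePreserving (Fin 2) k j 1) ?_ ?_ hgB g3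
    · intro x v
      change (@ite _ (v j = 1) (Classical.propDecidable _) T (MeasurableEquiv.refl X)) (x v) = _
      by_cases hv : v j = 1
      · rw [if_pos hv, if_pos hv]
      · rw [if_neg hv, if_neg hv]
        rfl
    · intro x v
      change (@ite _ (v j = 1) (Classical.propDecidable _) T (MeasurableEquiv.refl X)).symm (x v)
        = _
      by_cases hv : v j = 1
      · rw [if_pos hv, if_pos hv]
      · rw [if_neg hv, if_neg hv]
        rfl
  have hD : ∃ c : Arr (Fin 2) X k → ℂ, (∀ x, ‖c x‖ = 1) ∧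
      (fun x => dd k u (tArr T (Fin 2) k x)) =ᵐ[cube μ T (Fin 2) k]
        (fun x => dd k u x * c x) ∧
      (fun x => g (tArr T (Fin 2) k x)) =ᵐ[cube μ T (Fin 2) k] (fun x => g x * c x) := by
    refine ph_cocycle m μ T hm hTm k hu h1 hc (tArr T (Fin 2) k) (fun _ => True)
      (cube_tArr μ T hT.toMeasurePreserving (Fin 2) k) ?_ ?_ hgB g3
    · intro x v
      rw [if_pos trivial]
      rfl
    · intro x v
      rw [if_pos trivial]
      rfl
  -- invariance of the square of the norm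
  have key : ∀ τ : Arr (Fin 2) X k → Arr (Fin 2) X k,
      (∃ c : Arr (Fin 2) X k → ℂ, (∀ x, ‖c x‖ = 1) ∧
      (fun x => dd k u (τ x)) =ᵐ[cube μ T (Fin 2) k] (fun x => dd k u x * c x) ∧
      (fun x => g (τ x)) =ᵐ[cube μ T (Fin 2) k] (fun x => g x * c x)) →
      ((fun x => (fun y => g y * conj (g y)) (τ x)) =ᵐ[cube μ T (Fin 2) k]
        (fun y => g y * conj (g y))) ∧
      ((fun x => (fun y => dd k u y * conj (g y)) (τ x)) =ᵐ[cube μ T (Fin 2) k]
        (fun y => dd k u y * conj (g y))) := by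
    rintro τ ⟨c, c1, c2, c3⟩
    have hcc : ∀ x, c x * conj (c x) = 1 := by
      intro x
      rw [Complex.mul_conj, Complex.normSq_eq_norm_sq, c1]
      simp
    constructor
    · filter_upwards [c3] with x hx
      change g (τ x) * conj (g (τ x)) = g x * conj (g x)
      rw [hx, map_mul]
      calc g x * c x * (conj (g x) * conj (c x)) = g x * conj (g x) * (c x * conj (c x)) := by ring
        _ = g x * conj (g x) := by rw [hcc, mul_one]
    · filter_upwards [c2, c3] with x hx hx'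
      change dd k u (τ x) * conj (g (τ x)) = dd k u x * conj (g x)
      rw [hx, hx', map_mul]
      calc dd k u x * c x * (conj (g x) * conj (c x))
          = dd k u x * conj (g x) * (c x * conj (c x)) := by ring
        _ = dd k u x * conj (g x) := by rw [hcc, mul_one]
  obtain ⟨r, hr⟩ := slab_ergodic μ T hT k (g := fun y => g y * conj (g y))
    (BMs.mul hgB' (BMs.conj hgB')) (fun j => (key _ (hS j)).1) (key _ hD).1
  obtain ⟨c', hc'⟩ := slab_ergodic μ T hT k (g := fun y => dd k u y * conj (g y))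
    (BMs.mul hFB (BMs.conj hgB')) (fun j => (key _ (hS j)).2) (key _ hD).2
  have hr0 : r ≠ 0 := by
    intro h0
    apply hg
    have hgz : g =ᵐ[cube μ T (Fin 2) k] 0 := by
      filter_upwards [hr] with x hx
      rw [h0] at hx
      have h2 : g x * conj (g x) = 0 := hx
      rcases mul_eq_zero.1 h2 with h3 | h3
      · exact h3
      · simpa using h3
    have i1 : ∫ x, dd k u x ∂(cube μ T (Fin 2) k) =
        ∫ x, ((cube μ T (Fin 2) k)[dd k u | pw m k]) x ∂(cube μ T (Fin 2) k) :=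
      (integral_condExp hM).symm
    rw [gn, i1, integral_congr_ae (g3.trans hgz)]
    simp
  refine ⟨fun x => c' / r * g x, ?_, ?_⟩
  · exact (@measurable_const _ _ _ (pw m k) (c' / r)).mul g1
  · filter_upwards [hr, hc'] with x hx hx'
    have h2 : g x * conj (g x) = r := hx
    have h3 : dd k u x * conj (g x) = c' := hx'
    field_simp
    calc dd k u x * r = dd k u x * (g x * conj (g x)) := by rw [h2]
      _ = (dd k u x * conj (g x)) * g x := by ring
      _ = c' * g x := by rw [h3]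

/-- A function measurable for `P`, where every `P`-measurable set is almost everywhere equal to a
`Q`-measurable set, is almost everywhere `Q`-measurable. -/
theorem aem_of_sets {Y : Type} (P Q : MeasurableSpace Y) [mY : MeasurableSpace Y] (μ : Measure Y)
    [IsProbabilityMeasure μ] (hP : P ≤ mY) (hQ : Q ≤ mY)
    (H : ∀ s, MeasurableSet[P] s → ∃ B, MeasurableSet[Q] B ∧ s =ᵐ[μ] B) {F : Y → ℂ}
    (hF : BMs P F) : AEM Q μ F := by
  have hFB : BM F := BMs.mono hP hF
  obtain ⟨C, hC⟩ := hFB.2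
  obtain ⟨G, g1, g2, g3⟩ := exists_bms_condExp Q μ hQ hFB.1 hC
  have hGB : BMs Q G := ⟨g1, C, g2⟩
  have hGB' : BM G := BMs.mono hQ hGB
  set D : Y → ℂ := fun y => F y - G y with hD
  have hDB : BM D := BMs.sub hFB hGB'
  have hFi := hFB.integrable μ
  have hGi := hGB'.integrable μ
  have d1 : μ[D | P] =ᵐ[μ] 0 := by
    symm
    refine ae_eq_condExp_of_forall_setIntegral_eq hP (hDB.integrable μ) ?_ ?_ ?_
    · intro s _ _
      exact integrableOn_zero
    · intro s hs _
      obtain ⟨B, hB, hsB⟩ := H s hs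
      have hs' : ∫ x in s, D x ∂μ = ∫ x in B, D x ∂μ := setIntegral_congr_set hsB
      rw [hs', hD]
      simp only [Pi.zero_apply, integral_zero]
      rw [integral_sub hFi.integrableOn hGi.integrableOn, eq_comm, sub_eq_zero]
      rw [← setIntegral_condExp hQ hFi hB]
      exact setIntegral_congr_ae (hQ _ hB) (by filter_upwards [g3] with x hx _ using hx)
    · exact stronglyMeasurable_zero.aestronglyMeasurable
  have d2 : ∫ x, conj (F x) * D x ∂μ = 0 :=
    (condExp_eq_zero_iff P μ hP hDB).1 d1 _ (BMs.conj hF)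
  have d3 : ∫ x, conj (G x) * D x ∂μ = 0 := by
    have i1 := integral_mul_condExp Q μ hQ hFB (BMs.conj hGB)
    have i2 : ∫ x, conj (G x) * (μ[F | Q]) x ∂μ = ∫ x, conj (G x) * G x ∂μ := by
      refine integral_congr_ae ?_
      filter_upwards [g3] with x hx
      rw [hx]
    have hGc := BMs.conj hGB'
    have e : (fun x => conj (G x) * D x) = fun x => conj (G x) * F x - conj (G x) * G x := by
      funext x
      rw [hD]
      ring
    rw [e, integral_sub (BM.integrable (BMs.mul hGc hFB) μ) (BM.integrable (BMs.mul hGc hGB') μ),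
      ← i1, i2, sub_self]
  have d4 : ∫ x, ‖D x‖ ^ 2 ∂μ = 0 := by
    have e : ((∫ x, ‖D x‖ ^ 2 ∂μ : ℝ) : ℂ) = ∫ x, conj (F x) * D x ∂μ - ∫ x, conj (G x) * D x ∂μ := by
      rw [← integral_sub (BM.integrable (BMs.mul (BMs.conj hFB) hDB) μ)
        (BM.integrable (BMs.mul (BMs.conj hGB') hDB) μ), ← integral_complex_ofReal]
      refine integral_congr_ae (Eventually.of_forall fun x => ?_)
      have : D x = F x - G x := rfl
      simp only []
      rw [← sub_mul, ← map_sub, ← this, mul_comm, Complex.mul_conj, Complex.normSq_eq_norm_sq]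
    rw [d2, d3, sub_zero] at e
    exact_mod_cast e
  have d5 : D =ᵐ[μ] 0 := by
    have hi : Integrable (fun x => ‖D x‖ ^ 2) μ := by
      obtain ⟨K, hK⟩ := hDB.2
      refine Integrable.of_bound (hDB.1.norm.pow_const 2).aestronglyMeasurable (K ^ 2)
        (Eventually.of_forall fun x => ?_)
      rw [Real.norm_of_nonneg (by positivity)]
      exact pow_le_pow_left₀ (norm_nonneg _) (hK x) 2
    have := (integral_eq_zero_iff_of_nonneg (fun x => by positivity) hi).1 d4
    filter_upwards [this] with x hx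
    have h2 : ‖D x‖ ^ 2 = 0 := hx
    simpa using h2
  refine ⟨G, g1, ?_⟩
  filter_upwards [d5] with x hx
  have h2 : F x - G x = 0 := hx
  exact sub_eq_zero.1 h2

/-- **PH2.** If moreover `m ≤ Zalg k` and `gn (k+1) u ≠ 0` then `u` has order `k`.

Proof. By PH1 `dd (k+1) u` is `pw m (k+1)`-measurable a.e. The σ-algebra `pw m (k+1)` is generated
by the pullbacks of `m` at the vertices `v ≠ 0`, contained in `starAlg`, and at the root; the sets of
the latter are a.e. equal to sets of `starAlg` because `m ≤ Zalg k`. So `dd (k+1) u` is a.e.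
`starAlg`-measurable, and `u (x 0) = dd (k+1) u x * conj (∏_{v ≠ 0} cj (wt v) (u (x v)))` too;
conclude by `aem_Zalg_iff` (ZB4). -/
theorem phase_Z {X : Type} (m : MeasurableSpace X) [mX : MeasurableSpace X] [StandardBorelSpace X]
    (μ : Measure X) [IsProbabilityMeasure μ] (T : X ≃ᵐ X) (hT : Ergodic T μ) (k : ℕ)
    (hm : m ≤ Zalg μ T k) (hTm : TInv m T) {u : X → ℂ} (hu : Measurable u) (h1 : ∀ x, ‖u x‖ = 1)
    (hc : AEM m μ (fun x => u (T x) * conj (u x))) (hg : gn μ T (k + 1) u ≠ 0) :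
    AEM (Zalg μ T k) μ u := by
  have _ := cube_prob μ T (Fin 2) (k + 1)
  have hm' : m ≤ mX := hm.trans (Zalg_le μ T k)
  have huB : BM u := ⟨hu, 1, fun x => (h1 x).le⟩
  have hFB : BM (dd (k + 1) u) := dd_bm (k + 1) huB
  have hpw := pw_le (ι := Fin 2) m hm' (k + 1)
  have h2 := phase m μ T hT hm' hTm (k + 1) hu h1 hc hg
  obtain ⟨F, f1, f2, f3⟩ := AEM.unimodular h2 (Eventually.of_forall (norm_dd (k + 1) h1))
  -- the sets of `pw m` are almost everywhere in `starAlg`
  have hN : pw m (k + 1) ≤ eventuallyMeasurableSpace (starAlg X (k + 1))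
      (ae (cube μ T (Fin 2) (k + 1))) := by
    refine iSup_le fun v => ?_
    rintro s ⟨t, ht, rfl⟩
    by_cases hv : v = 0
    · subst hv
      obtain ⟨B, hB, hB'⟩ := (hm t ht).2
      exact ⟨B, hB, hB'⟩
    · refine ⟨(fun x : Arr (Fin 2) X (k + 1) => x v) ⁻¹' t, ?_, EventuallyEq.rfl⟩
      refine ⟨(fun y : {v : Fin (k + 1) → Fin 2 // v ≠ 0} → X => y ⟨v, hv⟩) ⁻¹' t, ?_, rfl⟩
      exact measurable_pi_apply (⟨v, hv⟩ : {v : Fin (k + 1) → Fin 2 // v ≠ 0}) (hm' t ht)
  have h3 : AEM (starAlg X (k + 1)) (cube μ T (Fin 2) (k + 1)) F := by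
    refine aem_of_sets (pw m (k + 1)) (starAlg X (k + 1)) (cube μ T (Fin 2) (k + 1)) hpw
      (starAlg_le X (k + 1)) ?_ ⟨f1, 1, fun x => (f2 x).le⟩
    intro s hs
    obtain ⟨B, hB, hB'⟩ := hN s hs
    exact ⟨B, hB, hB'⟩
  have h4 : AEM (starAlg X (k + 1)) (cube μ T (Fin 2) (k + 1)) (dd (k + 1) u) := h3.congr f3.symm
  -- the other vertices
  have hR : Measurable[starAlg X (k + 1)] (fun x : Arr (Fin 2) X (k + 1) =>
      ∏ v ∈ Finset.univ.erase (0 : Fin (k + 1) → Fin 2), cj (wt v) (u (x v))) := by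
    have hv : ∀ v : Fin (k + 1) → Fin 2, v ≠ 0 → Measurable[starAlg X (k + 1)]
        (fun x : Arr (Fin 2) X (k + 1) => cj (wt v) (u (x v))) := by
      intro v hv
      have e1 : Measurable[starAlg X (k + 1)] (fun x : Arr (Fin 2) X (k + 1) => x v) := by
        have e2 : Measurable (fun y : {v : Fin (k + 1) → Fin 2 // v ≠ 0} → X => y ⟨v, hv⟩) :=
          measurable_pi_apply _
        exact e2.comp (comap_measurable _)
      have e3 : Measurable (fun a : X => cj (wt v) (u a)) :=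
        (BMs.cj (m := mX) huB (wt v)).1
      exact e3.comp e1
    refine Finset.measurable_prod (m := starAlg X (k + 1)) _ ?_
    intro v hv'
    exact hv v (Finset.ne_of_mem_erase hv')
  have h5 : AEM (starAlg X (k + 1)) (cube μ T (Fin 2) (k + 1)) (fun x => u (x 0)) := by
    have h6 := AEM.mul h4 (AEM.conj (AEM.of_meas (μ := cube μ T (Fin 2) (k + 1)) hR))
    refine h6.congr (Eventually.of_forall fun x => ?_)
    simp only []
    have e1 : dd (k + 1) u x = u (x 0) *
        ∏ v ∈ Finset.univ.erase (0 : Fin (k + 1) → Fin 2), cj (wt v) (u (x v)) := by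
      rw [dd, ← Finset.mul_prod_erase Finset.univ _ (Finset.mem_univ (0 : Fin (k + 1) → Fin 2))]
      congr 1
      simp [wt, cj]
    have e2 : ‖∏ v ∈ Finset.univ.erase (0 : Fin (k + 1) → Fin 2), cj (wt v) (u (x v))‖ = 1 := by
      rw [norm_prod]
      refine Finset.prod_eq_one fun v _ => ?_
      rw [norm_cj, h1]
    rw [e1, mul_assoc, Complex.mul_conj, Complex.normSq_eq_norm_sq, e2]
    simp
  exact (aem_Zalg_iff μ T hT.toMeasurePreserving k huB).2 h5

end Pool.Agent.HK820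

end

/-! ### Part `CL` -/

section

open MeasureTheory ProbabilityTheory Filter Topology
open scoped ComplexConjugate ENNReal

namespace Pool.Agent.HK820

/-! **CL.** The completion `cl m μ` of a σ-algebra. -/

theorem cl_le {X : Type} (m : MeasurableSpace X) [mX : MeasurableSpace X] (μ : Measure X) :
    cl m μ ≤ mX := fun _ hs => hs.1

theorem le_cl {X : Type} (m : MeasurableSpace X) [mX : MeasurableSpace X] (μ : Measure X)
    (hm : m ≤ mX) : m ≤ cl m μ := fun s hs => ⟨hm s hs, s, hs, ae_eq_rfl⟩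

theorem cl_mono {X : Type} {m m' : MeasurableSpace X} [mX : MeasurableSpace X] (μ : Measure X)
    (h : m ≤ m') : cl m μ ≤ cl m' μ := by
  rintro s ⟨h1, t, ht, hst⟩
  exact ⟨h1, t, h t ht, hst⟩

theorem condExp_cl {X : Type} (m : MeasurableSpace X) [mX : MeasurableSpace X] (μ : Measure X)
    [IsProbabilityMeasure μ] (hm : m ≤ mX) {f : X → ℂ} (hf : BM f) :
    μ[f | cl m μ] =ᵐ[μ] μ[f | m] := by
  have hfi : Integrable f μ := hf.integrable μ
  have hle : m ≤ cl m μ := le_cl m μ hm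
  have hcl : cl m μ ≤ mX := cl_le m μ
  refine (ae_eq_condExp_of_forall_setIntegral_eq hcl hfi
    (fun s _ _ => integrable_condExp.integrableOn) (fun s hs _ => ?_) ?_).symm
  · obtain ⟨h1, t, ht, hst⟩ := hs
    rw [setIntegral_congr_set hst, setIntegral_condExp hm hfi ht, setIntegral_congr_set hst]
  · exact (stronglyMeasurable_condExp.mono hle).aestronglyMeasurable

private theorem cl_phi (z : ℂ) :
    (((1 + ‖z‖ : ℝ) : ℂ)⁻¹ * z) = ((1 + ‖z‖ : ℝ) : ℂ)⁻¹ * z ∧
      ‖((1 + ‖z‖ : ℝ) : ℂ)⁻¹ * z‖ ≤ 1 ∧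
      ((1 - ‖((1 + ‖z‖ : ℝ) : ℂ)⁻¹ * z‖ : ℝ) : ℂ)⁻¹ * (((1 + ‖z‖ : ℝ) : ℂ)⁻¹ * z) = z := by
  have h0 : 0 < 1 + ‖z‖ := by positivity
  have h1 : ‖((1 + ‖z‖ : ℝ) : ℂ)⁻¹ * z‖ = (1 + ‖z‖)⁻¹ * ‖z‖ := by
    rw [norm_mul, norm_inv, Complex.norm_real, Real.norm_of_nonneg h0.le]
  refine ⟨rfl, ?_, ?_⟩
  · rw [h1, inv_mul_le_iff₀ h0]
    linarith
  · rw [h1]
    have h2 : (1 - (1 + ‖z‖)⁻¹ * ‖z‖ : ℝ) = (1 + ‖z‖)⁻¹ := by
      field_simp
      ring
    rw [h2, Complex.ofReal_inv, inv_inv, ← mul_assoc, mul_inv_cancel₀, one_mul]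
    exact_mod_cast h0.ne'

theorem aem_cl_iff {X : Type} (m : MeasurableSpace X) [mX : MeasurableSpace X] (μ : Measure X)
    [IsProbabilityMeasure μ] (hm : m ≤ mX) {f : X → ℂ} : AEM (cl m μ) μ f ↔ AEM m μ f := by
  refine ⟨?_, AEM.mono (le_cl m μ hm)⟩
  rintro ⟨g, hg, hfg⟩
  have hφ : Measurable (fun z : ℂ => ((1 + ‖z‖ : ℝ) : ℂ)⁻¹ * z) :=
    (Complex.measurable_ofReal.comp (measurable_const.add measurable_norm)).inv.mul measurable_id
  have hψ : Measurable (fun z : ℂ => ((1 - ‖z‖ : ℝ) : ℂ)⁻¹ * z) :=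
    (Complex.measurable_ofReal.comp (measurable_const.sub measurable_norm)).inv.mul measurable_id
  have hG1 : Measurable[cl m μ] (fun x => ((1 + ‖g x‖ : ℝ) : ℂ)⁻¹ * g x) := hφ.comp hg
  have hGB : BM (fun x => ((1 + ‖g x‖ : ℝ) : ℂ)⁻¹ * g x) :=
    ⟨hG1.mono (cl_le m μ) le_rfl, 1, fun x => (cl_phi (g x)).2.1⟩
  have h1 : μ[fun x => ((1 + ‖g x‖ : ℝ) : ℂ)⁻¹ * g x | cl m μ] =
      fun x => ((1 + ‖g x‖ : ℝ) : ℂ)⁻¹ * g x :=
    condExp_of_stronglyMeasurable (cl_le m μ) hG1.stronglyMeasurable (hGB.integrable μ)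
  have h2 := condExp_cl m μ hm hGB
  rw [h1] at h2
  have h3 : AEM m μ (fun x => ((1 + ‖g x‖ : ℝ) : ℂ)⁻¹ * g x) :=
    (aem_iff_condExp m μ hm hGB).2 h2.symm
  have h4 := h3.map hψ
  have h5 : (fun x => (fun z : ℂ => ((1 - ‖z‖ : ℝ) : ℂ)⁻¹ * z) (((1 + ‖g x‖ : ℝ) : ℂ)⁻¹ * g x)) =
      g := funext fun x => (cl_phi (g x)).2.2
  rw [h5] at h4
  exact h4.congr hfg.symm

/-- a measurable function which is `AEM m` is `cl m μ`-measurable -/
theorem meas_cl {X : Type} (m : MeasurableSpace X) [mX : MeasurableSpace X] (μ : Measure X)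
    [IsProbabilityMeasure μ] {f : X → ℂ} (hf : Measurable f) (h : AEM m μ f) :
    Measurable[cl m μ] f := by
  obtain ⟨g, hg, hfg⟩ := h
  intro B hB
  refine ⟨hf hB, g ⁻¹' B, hg hB, ?_⟩
  filter_upwards [hfg] with x hx
  show (f x ∈ B) = (g x ∈ B)
  rw [hx]

/-- completion of a vertexwise σ-algebra -/
theorem aem_pw_cl {X : Type} (m : MeasurableSpace X) [mX : MeasurableSpace X]
    [StandardBorelSpace X] (μ : Measure X) [IsProbabilityMeasure μ] (T : X ≃ᵐ X) (hm : m ≤ mX)
    (D : ℕ) {F : Arr (Fin 2) X D → ℂ} (hF : BM F) :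
    (cube μ T (Fin 2) D)[F | pw (cl m μ) D] =ᵐ[cube μ T (Fin 2) D]
      (cube μ T (Fin 2) D)[F | pw m D] := by
  have hc : IsProbabilityMeasure (cube μ T (Fin 2) D) := cube_prob μ T (Fin 2) D
  have h1 : pw (ι := Fin 2) m D ≤ MeasurableSpace.pi := by
    refine iSup_le fun v => ?_
    rintro s ⟨s', hs', rfl⟩
    exact measurable_pi_apply v (hm s' hs')
  have h1' : pw (ι := Fin 2) (cl m μ) D ≤ MeasurableSpace.pi := by
    refine iSup_le fun v => ?_
    rintro s ⟨s', hs', rfl⟩
    exact measurable_pi_apply v (cl_le m μ s' hs')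
  have h2 : pw (ι := Fin 2) m D ≤ pw (cl m μ) D :=
    iSup_mono fun v => MeasurableSpace.comap_mono (le_cl m μ hm)
  have h3 : pw (ι := Fin 2) (cl m μ) D ≤ cl (pw m D) (cube μ T (Fin 2) D) := by
    refine iSup_le fun v => ?_
    rintro s ⟨s', ⟨hs1, t, ht, hst⟩, rfl⟩
    refine ⟨measurable_pi_apply v hs1, (fun x : Arr (Fin 2) X D => x v) ⁻¹' t, ?_, ?_⟩
    · exact (le_iSup (fun v : Fin D → Fin 2 =>
        MeasurableSpace.comap (fun x : Arr (Fin 2) X D => x v) m) v) _ ⟨t, ht, rfl⟩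
    · exact (cube_eval μ T (Fin 2) D v).quasiMeasurePreserving.preimage_ae_eq hst
  have e1 := condExp_condExp_of_le (μ := cube μ T (Fin 2) D) (f := F) h3
    (cl_le (pw m D) (cube μ T (Fin 2) D))
  have e2 := condExp_congr_ae (m := pw (cl m μ) D) (condExp_cl (pw m D) (cube μ T (Fin 2) D) h1 hF)
  have e3 : (cube μ T (Fin 2) D)[(cube μ T (Fin 2) D)[F | pw m D] | pw (cl m μ) D] =
      (cube μ T (Fin 2) D)[F | pw m D] :=
    condExp_of_stronglyMeasurable h1' (stronglyMeasurable_condExp.mono h2) integrable_condExp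
  rw [e3] at e2
  exact e1.symm.trans e2

/-- If a countable family of generators is mapped by `T` and `T⁻¹` into `cl m μ` then `cl m μ` is
invariant. -/
theorem cl_TInv_of {X : Type} (m : MeasurableSpace X) [mX : MeasurableSpace X] (μ : Measure X)
    [IsProbabilityMeasure μ] (T : X ≃ᵐ X) (hT : MeasurePreserving T μ μ) (hm : m ≤ mX)
    (h : ∀ s, MeasurableSet[m] s →
      MeasurableSet[cl m μ] (T ⁻¹' s) ∧ MeasurableSet[cl m μ] (T.symm ⁻¹' s)) :
    TInv (cl m μ) T := by
  have hTs : MeasurePreserving T.symm μ μ := hT.symm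
  constructor
  · rintro s ⟨hs1, t, ht, hst⟩
    obtain ⟨⟨h1, t', ht', htt⟩, -⟩ := h t ht
    exact ⟨T.measurable hs1, t', ht', (hT.quasiMeasurePreserving.preimage_ae_eq hst).trans htt⟩
  · rintro s ⟨hs1, t, ht, hst⟩
    obtain ⟨-, h1, t', ht', htt⟩ := h t ht
    exact ⟨T.symm.measurable hs1, t', ht',
      (hTs.quasiMeasurePreserving.preimage_ae_eq hst).trans htt⟩

end Pool.Agent.HK820

end

/-! ### Part `F1` -/

section

open MeasureTheory ProbabilityTheory Filter Topology
open scoped ComplexConjugate ENNReal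

namespace Pool.Agent.HK820

private theorem f1_meas_inC (k : ℕ) : MeasurableSet {z : ℂ | inC k z} := by
  have h1 : MeasurableSet {z : ℂ | ‖z‖ = 1} := measurableSet_eq_fun measurable_norm measurable_const
  have h2 : MeasurableSet {z : ℂ | z ^ k = 1} :=
    measurableSet_eq_fun (measurable_id.pow_const k) measurable_const
  exact h1.inter h2

private theorem f1_inC_one (k : ℕ) : inC k 1 := ⟨norm_one, one_pow k⟩

private theorem f1_inC_cj {k n : ℕ} {z : ℂ} (h : inC k z) : inC k (cj n z) := by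
  refine ⟨(norm_cj n z).trans h.1, ?_⟩
  unfold cj
  split_ifs
  · exact h.2
  · rw [← map_pow, h.2, map_one]

private theorem f1_inC_prod {k : ℕ} {α : Type} (s : Finset α) {f : α → ℂ}
    (h : ∀ a, inC k (f a)) : inC k (∏ a ∈ s, f a) := by
  refine ⟨?_, ?_⟩
  · rw [norm_prod]
    exact Finset.prod_eq_one fun a _ => (h a).1
  · rw [← Finset.prod_pow]
    exact Finset.prod_eq_one fun a _ => (h a).2

private theorem f1_inC_dd {X : Type} {k D : ℕ} {w : X → ℂ} (h : ∀ q, inC k (w q))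
    (x : Arr (Fin 2) X D) : inC k (dd D w x) :=
  f1_inC_prod _ fun v => f1_inC_cj (h (x v))

private theorem f1_pw {Q K ι : Type} [mK : MeasurableSpace K] (Θ : Q → K) (D : ℕ) :
    pw (ι := ι) (MeasurableSpace.comap Θ mK) D =
      MeasurableSpace.comap (fun (x : Arr ι Q D) (v : Fin D → ι) => Θ (x v))
        (MeasurableSpace.pi : MeasurableSpace (Arr ι K D)) := by
  unfold pw MeasurableSpace.pi
  rw [MeasurableSpace.comap_iSup]
  simp only [MeasurableSpace.comap_comp]
  rfl

private theorem f1_ae {Y Z : Type} [MeasurableSpace Y] [MeasurableSpace Z] {P : Measure Y}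
    {P' : Measure Z} {p : Y → Z} (hp : MeasurePreserving p P P') {A : Set Z}
    (hA : MeasurableSet A) (h : ∀ᵐ y ∂P, p y ∈ A) : ∀ᵐ z ∂P', z ∈ A := by
  rw [← hp.map_eq]
  exact (ae_map_iff hp.measurable.aemeasurable hA).2 h

private theorem f1_phase {Q K : Type} (m0 : MeasurableSpace Q) [mQ : MeasurableSpace Q]
    [StandardBorelSpace Q] [mK : MeasurableSpace K]
    [StandardBorelSpace K] (ν : Measure Q) [IsProbabilityMeasure ν] (S : Q ≃ᵐ Q)
    (hS : Ergodic S ν) (μ : Measure K) [IsProbabilityMeasure μ] (T : K ≃ᵐ K)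
    {Θ : Q → K} (hΘ : FMap ν S μ T Θ) (hm0 : m0 = MeasurableSpace.comap Θ mK) {D : ℕ} {w : Q → ℂ}
    (hw : Measurable w) (hw1 : ∀ q, ‖w q‖ = 1) {ρ : K → ℂ} (hρ : Measurable ρ)
    (hc : ∀ᵐ q ∂ν, w (S q) = ρ (Θ q) * w q) (hgn : gn ν S D w ≠ 0) :
    AEM (pw m0 D) (cube ν S (Fin 2) D) (dd D w) := by
  have hSm : MeasurePreserving S ν ν := hS.toMeasurePreserving
  have hΘm : Measurable Θ := hΘ.mp.measurable
  have hwB : BM w := ⟨hw, 1, fun q => (hw1 q).le⟩
  have hprob2 : IsProbabilityMeasure (cube ν S (Fin 2) D) := cube_prob ν S (Fin 2) D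
  have hm0le : m0 ≤ mQ := by
    rw [hm0]
    exact hΘm.comap_le
  have hΘ0 : Measurable[m0, mK] Θ := by
    rw [hm0]
    exact comap_measurable Θ
  have hsymm : ∀ᵐ q ∂ν, Θ (S.symm q) = T.symm (Θ q) := by
    have e1 := (hSm.symm S).quasiMeasurePreserving.ae hΘ.eqv
    filter_upwards [e1] with q hq
    rw [S.apply_symm_apply] at hq
    rw [hq, T.symm_apply_apply]
  have hinv : TInv (cl m0 ν) S := by
    refine cl_TInv_of m0 ν S hSm hm0le fun t ht => ?_
    rw [hm0] at ht
    obtain ⟨B, hB, rfl⟩ := ht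
    refine ⟨⟨S.measurable (hΘm hB), Θ ⁻¹' (T ⁻¹' B), hΘ0 (T.measurable hB), ?_⟩,
      ⟨S.symm.measurable (hΘm hB), Θ ⁻¹' (T.symm ⁻¹' B), hΘ0 (T.symm.measurable hB), ?_⟩⟩
    · filter_upwards [hΘ.eqv] with q hq
      show (Θ (S q) ∈ B) = (T (Θ q) ∈ B)
      rw [hq]
    · filter_upwards [hsymm] with q hq
      show (Θ (S.symm q) ∈ B) = (T.symm (Θ q) ∈ B)
      rw [hq]
  have hcoc : AEM (cl m0 ν) ν (fun q => w (S q) * conj (w q)) := by
    refine ⟨fun q => ρ (Θ q), ?_, ?_⟩
    · exact (hρ.comp hΘ0).mono (le_cl m0 ν hm0le) le_rfl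
    · filter_upwards [hc] with q hq
      rw [hq, mul_assoc, Complex.mul_conj, Complex.normSq_eq_norm_sq, hw1]
      simp
  have hph : AEM (pw (cl m0 ν) D) (cube ν S (Fin 2) D) (dd D w) :=
    phase (cl m0 ν) ν S hS (cl_le m0 ν) hinv D hw hw1 hcoc hgn
  have hddB : BM (dd D w) := dd_bm D hwB
  have e1 := (aem_iff_condExp (pw (cl m0 ν) D) (cube ν S (Fin 2) D)
    (pw_le (cl m0 ν) (cl_le m0 ν) D) hddB).1 hph
  have e2 := aem_pw_cl m0 ν S hm0le D hddB
  exact (aem_iff_condExp (pw m0 D) (cube ν S (Fin 2) D) (pw_le m0 hm0le D) hddB).2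
    (e2.symm.trans e1)

private theorem f1_cj_meas (n : ℕ) : Measurable (cj n) := by
  unfold cj
  split_ifs
  · exact measurable_id
  · exact Complex.continuous_conj.measurable

/-- **F1.** The derivative of `w` comes from a cocycle on the cubes of the factor.

Proof. `D = s + 1`. `gn D w ≠ 0` because `E[w|Zalg s] = w ≠ 0` (`gn_eq_zero_iff`). By `phase` (PH1) for
`m = cl (comap Θ) ν` (it is invariant: `cl_TInv_of`, `Θ ∘ S = T ∘ Θ` a.e.; `w ∘ S conj w = ρ ∘ Θ`), `dd D w`
is `AEM (pw m D)`, hence `AEM (pw (comap Θ) D)` (`aem_pw_cl`), and `pw (comap Θ) D` is the pullback of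
the product σ-algebra under `x ↦ Θ ∘ x`, so `dd D w x = R (Θ ∘ x)` a.e. with `R` measurable
(`Measurable.exists_eq_measurable_comp`/`measurable_factorisation`). `R ∘ (Θ ∘ ·)` takes values in
`C_k` a.e. (products of elements of `C_k` and their conjugates), and `x ↦ Θ ∘ x` maps `cube ν S` to
`cube μ T` (`cube_fmap`), so `R` can be changed on a null set to be `C_k`-valued. The cocycle
identity for `dd D w` (`dd_isCoc`) on `Fin 3` arrays is the one for `R` at `Θ ∘ y`; push forward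
(`cube_fmap` for `Fin 3`). Last claim: `R (T ∘ Θ ∘ x) = R (Θ ∘ S ∘ x) = dd D w (S ∘ x) =
dd D (ρ ∘ Θ) x * dd D w x` a.e. -/
theorem f1_cocycle {Q K : Type} [MeasurableSpace Q] [StandardBorelSpace Q] [MeasurableSpace K]
    [StandardBorelSpace K] (ν : Measure Q) [IsProbabilityMeasure ν] (S : Q ≃ᵐ Q)
    (hS : Ergodic S ν) (μ : Measure K) [IsProbabilityMeasure μ] (T : K ≃ᵐ K)
    (hT : MeasurePreserving T μ μ) {Θ : Q → K} (hΘ : FMap ν S μ T Θ) (s k : ℕ) {w : Q → ℂ}
    (hw : Measurable w) (h1 : ∀ q, inC k (w q)) {ρ : K → ℂ} (hρ : Measurable ρ)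
    (hρ1 : ∀ y, inC k (ρ y)) (hc : ∀ᵐ q ∂ν, w (S q) = ρ (Θ q) * w q)
    (ho : AEM (Zalg ν S s) ν w) :
    ∃ R : Arr (Fin 2) K (s + 1) → ℂ, Measurable R ∧ (∀ x, inC k (R x)) ∧
      IsCoc μ T (s + 1) R ∧
      (∀ᵐ x ∂(cube μ T (Fin 2) (s + 1)), R (fun v => T (x v)) = dd (s + 1) ρ x * R x) := by
  classical
  have hSm : MeasurePreserving S ν ν := hS.toMeasurePreserving
  have hΘm : Measurable Θ := hΘ.mp.measurable
  have hw1 : ∀ q, ‖w q‖ = 1 := fun q => (h1 q).1
  have hwB : BM w := ⟨hw, 1, fun q => (hw1 q).le⟩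
  obtain ⟨D, hD⟩ : ∃ D, D = s + 1 := ⟨_, rfl⟩
  have hprob2 : IsProbabilityMeasure (cube ν S (Fin 2) D) := cube_prob ν S (Fin 2) D
  -- the seminorm does not vanish
  have hgn : gn ν S D w ≠ 0 := by
    rw [hD]
    intro h0
    have e1 := (gn_eq_zero_iff ν S hSm s hwB).1 h0
    have e2 := (aem_iff_condExp (Zalg ν S s) ν (Zalg_le ν S s) hwB).1 ho
    have e3 : w =ᵐ[ν] 0 := e2.symm.trans e1
    obtain ⟨q, hq⟩ := e3.exists
    have e4 := hw1 q
    rw [hq] at e4
    simp at e4
  have hph0 : AEM (pw (MeasurableSpace.comap Θ inferInstance) D) (cube ν S (Fin 2) D) (dd D w) :=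
    f1_phase _ ν S hS μ T hΘ rfl hw hw1 hρ hc hgn
  obtain ⟨P, hP⟩ : ∃ P : Arr (Fin 2) Q D → Arr (Fin 2) K D, P = fun x v => Θ (x v) := ⟨_, rfl⟩
  have hfm : FMap (cube ν S (Fin 2) D) (tArr S (Fin 2) D) (cube μ T (Fin 2) D)
      (tArr T (Fin 2) D) P := by
    rw [hP]
    exact cube_fmap hSm hT hΘ (Fin 2) D
  obtain ⟨r, hr, hrP⟩ : ∃ r : Arr (Fin 2) K D → ℂ, Measurable r ∧
      dd D w =ᵐ[cube ν S (Fin 2) D] fun x => r (P x) := by
    obtain ⟨g, hg, hdg⟩ := hph0
    rw [f1_pw, ← hP] at hg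
    obtain ⟨r, hr, hgr⟩ := hg.exists_eq_measurable_comp
    refine ⟨r, hr, hdg.trans ?_⟩
    rw [hgr]
    exact ae_eq_rfl
  -- the function R
  obtain ⟨R, hRd⟩ : ∃ R : Arr (Fin 2) K D → ℂ, R = fun y => if inC k (r y) then r y else 1 :=
    ⟨_, rfl⟩
  have hRm : Measurable R := by
    rw [hRd]
    exact Measurable.ite (hr (f1_meas_inC k)) hr measurable_const
  have hRC : ∀ y, inC k (R y) := by
    intro y
    rw [hRd]
    by_cases h : inC k (r y)
    · simp only [h, if_true]
    · simp only [h, if_false]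
      exact f1_inC_one k
  have hRP : dd D w =ᵐ[cube ν S (Fin 2) D] fun x => R (P x) := by
    filter_upwards [hrP] with x hx
    have e1 : inC k (r (P x)) := by
      rw [← hx]
      exact f1_inC_dd h1 x
    rw [hRd]
    simp only [e1, if_true]
    exact hx
  rw [← hD]
  refine ⟨R, hRm, hRC, ?_, ?_⟩
  · have e1 : IsCoc ν S D (fun x => R (P x)) :=
      IsCoc.congr hSm (dd_isCoc ν S D hw1) hRP
    have e2 : FMap (cube ν S (Fin 3) D) (tArr S (Fin 3) D) (cube μ T (Fin 3) D)
      (tArr T (Fin 3) D) (fun x v => Θ (x v)) := cube_fmap hSm hT hΘ (Fin 3) D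
    unfold IsCoc at e1 ⊢
    rw [hP] at e1
    have hrst : ∀ e : Fin D → Fin 2 → Fin 3,
        Measurable (rst e : Arr (Fin 3) K D → Arr (Fin 2) K D) := fun e =>
      measurable_pi_lambda _ fun v => measurable_pi_apply _
    refine f1_ae e2.mp (A := {y | R (rst (fun _ => out3) y) =
      ∏ w : Fin D → Fin 2, cj (wt w) (R (rst (fun j => in3 (w j)) y))}) ?_ e1
    refine measurableSet_eq_fun (hRm.comp (hrst _)) ?_
    exact Finset.measurable_prod _ fun v _ => (f1_cj_meas _).comp (hRm.comp (hrst _))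
  · have hTm : Measurable (fun (x : Arr (Fin 2) K D) (v : Fin D → Fin 2) => T (x v)) :=
      (tArr T (Fin 2) D).measurable
    have hρd : Measurable (dd D ρ : Arr (Fin 2) K D → ℂ) := by
      unfold dd
      exact Finset.measurable_prod _ fun v _ =>
        (f1_cj_meas _).comp (hρ.comp (measurable_pi_apply v))
    refine f1_ae hfm.mp (A := {x | R (fun v => T (x v)) = dd D ρ x * R x})
      (measurableSet_eq_fun (hRm.comp hTm) (hρd.mul hRm)) ?_
    have e1 := (cube_tArr ν S hSm (Fin 2) D).quasiMeasurePreserving.ae hRP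
    have e2 : ∀ᵐ x ∂(cube ν S (Fin 2) D), ∀ v : Fin D → Fin 2,
        w (S (x v)) = ρ (Θ (x v)) * w (x v) :=
      ae_all_iff.2 fun v => (cube_eval ν S (Fin 2) D v).quasiMeasurePreserving.ae hc
    filter_upwards [e1, e2, hRP, hfm.eqv] with x g1 g2 g3 g4
    show R (tArr T (Fin 2) D (P x)) = dd D ρ (P x) * R (P x)
    rw [← g4, ← g1, ← g3, hP]
    show dd D w (fun v => S (x v)) = dd D ρ (fun v => Θ (x v)) * dd D w x
    unfold dd
    rw [← Finset.prod_mul_distrib]
    refine Finset.prod_congr rfl fun v _ => ?_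
    rw [g2 v, cj_mul]

end Pool.Agent.HK820

end

/-! ### Part `TW` -/

section

open MeasureTheory ProbabilityTheory Filter Topology
open scoped ComplexConjugate ENNReal

namespace Pool.Agent.HK820

/-! **TW.** Towers: elementary properties. -/

theorem IsStep.mono {X : Type} (m m' : MeasurableSpace X) [mX : MeasurableSpace X]
    [StandardBorelSpace X] (μ : Measure X) [IsProbabilityMeasure μ] (T : X ≃ᵐ X)
    (hT : MeasurePreserving T μ μ) {s s' : ℕ} (hs : s ≤ s') (hm : m ≤ m') {u : X → ℂ}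
    (h : IsStep m μ T s u) : IsStep m' μ T s' u := by
  obtain ⟨h1, h2, ⟨ρ, h3, h4⟩, ⟨g, h5, h6⟩⟩ := h
  exact ⟨h1, h2, ⟨ρ, h3.mono hm le_rfl, h4⟩, ⟨g, h5.mono (Zalg_mono μ T hT hs) le_rfl, h6⟩⟩

/-- a step is measurable for `Zalg` -/
theorem tw_step_le {X : Type} (m : MeasurableSpace X) [mX : MeasurableSpace X]
    [StandardBorelSpace X] (μ : Measure X) [IsProbabilityMeasure μ] (T : X ≃ᵐ X) {s : ℕ}
    {u : X → ℂ} (h : IsStep m μ T s u) :
    MeasurableSpace.comap u inferInstance ≤ Zalg μ T s :=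
  (Zalg_meas h.meas h.ord).comap_le

theorem tw_le_aux {X : Type} [mX : MeasurableSpace X] [hX : StandardBorelSpace X]
    (μ : Measure X) [IsProbabilityMeasure μ] (T : X ≃ᵐ X) {s : ℕ} (n : ℕ) :
    ∀ m : MeasurableSpace X, @TowN X mX hX μ T s n m → m ≤ @Zalg X mX hX μ T s := by
  induction n with
  | zero =>
    intro m hm
    rw [show m = ⊥ from hm]
    exact bot_le
  | succ n ih =>
    rintro m ⟨m', u, h1, h2, rfl⟩
    exact sup_le (ih m' h1) (@tw_step_le X m' mX hX μ _ T s u h2)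

/-- towers generate σ-algebras of order `s` (`Zalg_meas`) -/
theorem TowAlg.le_Zalg {X : Type} (m : MeasurableSpace X) [mX : MeasurableSpace X]
    [StandardBorelSpace X] (μ : Measure X) [IsProbabilityMeasure μ] (T : X ≃ᵐ X) {s : ℕ}
    (h : TowAlg m μ T s) : m ≤ Zalg μ T s := by
  obtain ⟨n, hn⟩ := h
  exact tw_le_aux μ T n m hn

theorem TowAlg.le {X : Type} (m : MeasurableSpace X) [mX : MeasurableSpace X]
    [StandardBorelSpace X] (μ : Measure X) [IsProbabilityMeasure μ] (T : X ≃ᵐ X) {s : ℕ}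
    (h : TowAlg m μ T s) : m ≤ mX :=
  (TowAlg.le_Zalg m μ T h).trans (Zalg_le μ T s)

/-- invariance of the completion, one step -/
theorem tw_cl_step {X : Type} (m M : MeasurableSpace X) [mX : MeasurableSpace X]
    [StandardBorelSpace X] (μ : Measure X) [IsProbabilityMeasure μ] (T : X ≃ᵐ X)
    (hT : MeasurePreserving T μ μ) {s : ℕ} {u : X → ℂ} (hm : m ≤ mX) (h : IsStep m μ T s u)
    (hM : M = m ⊔ MeasurableSpace.comap u inferInstance)
    (ih : TInv (cl m μ) T) :
    TInv (cl M μ) T := by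
  have hMX : M ≤ mX := by rw [hM]; exact sup_le hm h.meas.comap_le
  have hmM : m ≤ M := by rw [hM]; exact le_sup_left
  have huM : Measurable[M] u := by
    rw [measurable_iff_comap_le, hM]
    exact le_sup_right
  obtain ⟨ρ, hρ, hcoc⟩ := h.coc
  -- forward
  have h1 : Measurable[cl M μ] (fun x => u (T x)) := by
    refine meas_cl M μ (h.meas.comp T.measurable) ?_
    exact ⟨fun x => ρ x * u x, (hρ.mono hmM le_rfl).mul huM, hcoc⟩
  -- backward
  have h2 : Measurable[cl M μ] (fun x => u (T.symm x)) := by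
    refine meas_cl M μ (h.meas.comp T.symm.measurable) ?_
    rw [← aem_cl_iff M μ hMX]
    refine ⟨fun x => (ρ (T.symm x))⁻¹ * u x, ?_, ?_⟩
    · have h3 : Measurable[cl m μ] (fun x => ρ (T.symm x)) :=
        (hρ.mono (le_cl m μ hm) le_rfl).comp ih.2
      exact (h3.mono (cl_mono μ hmM) le_rfl).inv.mul (huM.mono (le_cl M μ hMX) le_rfl)
    · have h3 := (hT.symm T).quasiMeasurePreserving.ae hcoc
      filter_upwards [h3] with x hx
      rw [T.apply_symm_apply] at hx
      have h4 : ρ (T.symm x) ≠ 0 := by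
        intro h0
        rw [h0, zero_mul] at hx
        have := h.norm x
        rw [hx, norm_zero] at this
        exact zero_ne_one this
      rw [hx, inv_mul_cancel_left₀ h4]
  refine cl_TInv_of M μ T hT hMX ?_
  have k1 : M ≤ (cl M μ).map T := by
    rw [hM]
    refine sup_le ?_ ?_
    · intro t ht
      have h5 : MeasurableSet[cl m μ] (T ⁻¹' t) := ih.1 (le_cl m μ hm t ht)
      rw [← hM]
      exact cl_mono μ hmM _ h5
    · rintro _ ⟨B, hB, rfl⟩
      rw [← hM]
      exact h1 hB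
  have k2 : M ≤ (cl M μ).map T.symm := by
    rw [hM]
    refine sup_le ?_ ?_
    · intro t ht
      have h5 : MeasurableSet[cl m μ] (T.symm ⁻¹' t) := ih.2 (le_cl m μ hm t ht)
      rw [← hM]
      exact cl_mono μ hmM _ h5
    · rintro _ ⟨B, hB, rfl⟩
      rw [← hM]
      exact h2 hB
  intro t ht
  exact ⟨k1 t ht, k2 t ht⟩

theorem tw_cl_bot {X : Type} [mX : MeasurableSpace X] (μ : Measure X) [IsProbabilityMeasure μ]
    (T : X ≃ᵐ X) (hT : MeasurePreserving T μ μ) : TInv (cl (⊥ : MeasurableSpace X) μ) T := by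
  refine cl_TInv_of ⊥ μ T hT bot_le ?_
  intro s hs
  rw [MeasurableSpace.measurableSet_bot_iff] at hs
  rcases hs with rfl | rfl
  · rw [Set.preimage_empty, Set.preimage_empty]
    exact ⟨@MeasurableSet.empty _ (cl ⊥ μ), @MeasurableSet.empty _ (cl ⊥ μ)⟩
  · rw [Set.preimage_univ, Set.preimage_univ]
    exact ⟨@MeasurableSet.univ _ (cl ⊥ μ), @MeasurableSet.univ _ (cl ⊥ μ)⟩

theorem tw_cl_aux {X : Type} [mX : MeasurableSpace X] [hX : StandardBorelSpace X]
    (μ : Measure X) [hμ : IsProbabilityMeasure μ] (T : X ≃ᵐ X) (hT : MeasurePreserving T μ μ)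
    {s : ℕ} (n : ℕ) :
    ∀ m : MeasurableSpace X, @TowN X mX hX μ T s n m → @TInv X (@cl X m mX μ) mX T := by
  induction n with
  | zero =>
    intro m hm
    rw [show m = ⊥ from hm]
    exact @tw_cl_bot X mX μ hμ T hT
  | succ n ih =>
    rintro m ⟨m', u, h1, h2, rfl⟩
    exact @tw_cl_step X m' _ mX hX μ hμ T hT s u
      ((@tw_le_aux X mX hX μ hμ T s n m' h1).trans (@Zalg_le X mX hX μ T s)) h2 rfl (ih m' h1)

/-- the completion of a tower algebra is invariant: induction on the tower; `u ∘ T = ρ u` and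
`u ∘ T⁻¹ = conj (ρ ∘ T⁻¹) u` almost everywhere; if `u ∘ T = ρ u` with `ρ`, `u` measurable for
`cl m`, then preimages under `T` of the sets `u⁻¹ B` belong to `cl m` -/
theorem TowAlg.cl_TInv {X : Type} (m : MeasurableSpace X) [mX : MeasurableSpace X]
    [StandardBorelSpace X] (μ : Measure X) [IsProbabilityMeasure μ] (T : X ≃ᵐ X)
    (hT : MeasurePreserving T μ μ) {s : ℕ} (h : TowAlg m μ T s) : TInv (cl m μ) T := by
  obtain ⟨n, hn⟩ := h
  exact tw_cl_aux μ T hT n m hn

theorem TowAlg.bot {X : Type} [mX : MeasurableSpace X]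
    [StandardBorelSpace X] (μ : Measure X) (T : X ≃ᵐ X) (s : ℕ) :
    TowAlg (⊥ : MeasurableSpace X) μ T s := ⟨0, rfl⟩

theorem TowAlg.step {X : Type} (m : MeasurableSpace X) [mX : MeasurableSpace X]
    [StandardBorelSpace X] (μ : Measure X) (T : X ≃ᵐ X) {s : ℕ} (h : TowAlg m μ T s) {u : X → ℂ}
    (hu : IsStep m μ T s u) : TowAlg (m ⊔ MeasurableSpace.comap u inferInstance) μ T s := by
  obtain ⟨n, hn⟩ := h
  exact ⟨n + 1, m, u, hn, hu, rfl⟩

theorem tw_sup_aux {X : Type} (m : MeasurableSpace X) [mX : MeasurableSpace X]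
    [hX : StandardBorelSpace X] (μ : Measure X) [hμ : IsProbabilityMeasure μ] (T : X ≃ᵐ X)
    (hT : MeasurePreserving T μ μ) {s : ℕ} (h : TowAlg m μ T s) (n : ℕ) :
    ∀ m' : MeasurableSpace X, @TowN X mX hX μ T s n m' → @TowAlg X (m ⊔ m') mX hX μ T s := by
  induction n with
  | zero =>
    intro m' hm
    rw [show m' = ⊥ from hm, sup_bot_eq]
    exact h
  | succ n ih =>
    rintro m' ⟨m'', u, h1, h2, rfl⟩
    rw [← sup_assoc]
    refine @TowAlg.step X (m ⊔ m'') mX hX μ T s (ih m'' h1) u ?_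
    exact @IsStep.mono X m'' (m ⊔ m'') mX hX μ hμ T hT s s le_rfl le_sup_right u h2

/-- joining two towers (the steps of the second one on top of the first one) -/
theorem TowAlg.sup {X : Type} (m m' : MeasurableSpace X) [mX : MeasurableSpace X]
    [StandardBorelSpace X] (μ : Measure X) [IsProbabilityMeasure μ] (T : X ≃ᵐ X)
    (hT : MeasurePreserving T μ μ) {s : ℕ} (h : TowAlg m μ T s) (h' : TowAlg m' μ T s) :
    TowAlg (m ⊔ m') μ T s := by
  obtain ⟨n, hn⟩ := h'
  exact tw_sup_aux m μ T hT h n m' hn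

theorem tw_mono_aux {X : Type} [mX : MeasurableSpace X]
    [hX : StandardBorelSpace X] (μ : Measure X) [hμ : IsProbabilityMeasure μ] (T : X ≃ᵐ X)
    (hT : MeasurePreserving T μ μ) {s s' : ℕ} (hs : s ≤ s') (n : ℕ) :
    ∀ m : MeasurableSpace X, @TowN X mX hX μ T s n m → @TowN X mX hX μ T s' n m := by
  induction n with
  | zero =>
    intro m hm
    exact hm
  | succ n ih =>
    rintro m ⟨m', u, h1, h2, rfl⟩
    exact ⟨m', u, ih m' h1, @IsStep.mono X m' m' mX hX μ hμ T hT s s' hs le_rfl u h2, rfl⟩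

theorem TowAlg.mono {X : Type} (m : MeasurableSpace X) [mX : MeasurableSpace X]
    [StandardBorelSpace X] (μ : Measure X) [IsProbabilityMeasure μ] (T : X ≃ᵐ X)
    (hT : MeasurePreserving T μ μ) {s s' : ℕ} (hs : s ≤ s') (h : TowAlg m μ T s) :
    TowAlg m μ T s' := by
  obtain ⟨n, hn⟩ := h
  exact ⟨n, tw_mono_aux μ T hT hs n m hn⟩

/-- pullback of a step -/
theorem tw_comap_step {X Y : Type} (m : MeasurableSpace Y) [mX : MeasurableSpace X]
    [StandardBorelSpace X] [mY : MeasurableSpace Y] [StandardBorelSpace Y] {μ : Measure X}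
    [IsProbabilityMeasure μ] {T : X ≃ᵐ X} (hT : MeasurePreserving T μ μ) {ν : Measure Y}
    [IsProbabilityMeasure ν] {S : Y ≃ᵐ Y} (hS : MeasurePreserving S ν ν) {p : X → Y}
    (hp : FMap μ T ν S p) {s : ℕ} {u : Y → ℂ} (h : IsStep m ν S s u) :
    IsStep (MeasurableSpace.comap p m) μ T s (fun x => u (p x)) := by
  obtain ⟨h1, h2, ⟨ρ, h3, h4⟩, ⟨g, h5, h6⟩⟩ := h
  refine ⟨h1.comp hp.mp.measurable, fun x => h2 (p x), ⟨fun x => ρ (p x), ?_, ?_⟩,
    ⟨fun x => g (p x), h5.comp (Zalg_fmap hT hS hp s), ?_⟩⟩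
  · exact h3.comp (comap_measurable p)
  · filter_upwards [hp.eqv, hp.mp.quasiMeasurePreserving.ae h4] with x hx1 hx2
    rw [hx1, hx2]
  · exact hp.mp.quasiMeasurePreserving.ae h6

theorem tw_comap_aux {X Y : Type} [mX : MeasurableSpace X]
    [hX : StandardBorelSpace X] [mY : MeasurableSpace Y] [hY : StandardBorelSpace Y]
    {μ : Measure X} [hμ : IsProbabilityMeasure μ] {T : X ≃ᵐ X} (hT : MeasurePreserving T μ μ)
    {ν : Measure Y} [hν : IsProbabilityMeasure ν] {S : Y ≃ᵐ Y} (hS : MeasurePreserving S ν ν)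
    {p : X → Y} (hp : FMap μ T ν S p) {s : ℕ} (n : ℕ) :
    ∀ m : MeasurableSpace Y, @TowN Y mY hY ν S s n m →
      @TowN X mX hX μ T s n (MeasurableSpace.comap p m) := by
  induction n with
  | zero =>
    intro m hm
    rw [show m = ⊥ from hm]
    exact MeasurableSpace.comap_bot
  | succ n ih =>
    rintro m ⟨m', u, h1, h2, rfl⟩
    refine ⟨MeasurableSpace.comap p m', fun x => u (p x), ih m' h1,
      @tw_comap_step X Y m' mX hX mY hY μ hμ T hT ν hν S hS p hp s u h2, ?_⟩
    rw [MeasurableSpace.comap_sup, MeasurableSpace.comap_comp]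
    rfl

/-- pullback of a tower by a factor map (`Zalg_fmap`) -/
theorem TowAlg.comap {X Y : Type} (m : MeasurableSpace Y) [mX : MeasurableSpace X]
    [StandardBorelSpace X] [mY : MeasurableSpace Y] [StandardBorelSpace Y] {μ : Measure X}
    [IsProbabilityMeasure μ] {T : X ≃ᵐ X} (hT : MeasurePreserving T μ μ) {ν : Measure Y}
    [IsProbabilityMeasure ν] {S : Y ≃ᵐ Y} (hS : MeasurePreserving S ν ν) {p : X → Y}
    (hp : FMap μ T ν S p) {s : ℕ} (h : TowAlg m ν S s) :
    TowAlg (MeasurableSpace.comap p m) μ T s := by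
  obtain ⟨n, hn⟩ := h
  exact ⟨n, tw_comap_aux hT hS hp n m hn⟩

end Pool.Agent.HK820

end

/-! ### Part `FN` -/

section

open MeasureTheory ProbabilityTheory Filter Topology
open scoped ComplexConjugate ENNReal

namespace Pool.Agent.HK820

/-- a bounded function measurable for the pulled back σ-algebra is a bounded function of the factor -/
theorem fn_factor {Q K : Type} [mK : MeasurableSpace K] {Θ : Q → K} {g : Q → ℂ}
    (hg : BMs (MeasurableSpace.comap Θ mK) g) : ∃ e : K → ℂ, BM e ∧ ∀ q, g q = e (Θ q) := by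
  classical
  obtain ⟨hg1, C, hC⟩ := hg
  obtain ⟨e, he, hge⟩ := hg1.exists_eq_measurable_comp
  have hge' : ∀ q, g q = e (Θ q) := fun q => congrFun hge q
  refine ⟨fun y => if ‖e y‖ ≤ C then e y else 0, ⟨?_, max C 0, fun y => ?_⟩, fun q => ?_⟩
  · exact Measurable.ite (measurableSet_le (measurable_norm.comp he) measurable_const) he
      measurable_const
  · change ‖if ‖e y‖ ≤ C then e y else 0‖ ≤ max C 0
    by_cases h : ‖e y‖ ≤ C
    · rw [if_pos h]
      exact h.trans (le_max_left _ _)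
    · rw [if_neg h, norm_zero]
      exact le_max_right _ _
  · change g q = if ‖e (Θ q)‖ ≤ C then e (Θ q) else 0
    have h := hC q
    rw [hge' q] at h
    rw [if_pos h, hge' q]

/-- A unimodular function with a cocycle which comes from the factor is either orthogonal to the
factor or a function of the factor. -/
theorem fn_dich {Q K : Type} [mQ : MeasurableSpace Q] [mK : MeasurableSpace K]
    (ν : Measure Q) [IsProbabilityMeasure ν] (S : Q ≃ᵐ Q) (hS : Ergodic S ν) {μ : Measure K}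
    (T : K ≃ᵐ K) {Θ : Q → K} (hΘ : FMap ν S μ T Θ) {f : Q → ℂ} (hf : Measurable f)
    (h1 : ∀ q, ‖f q‖ = 1) {σ : K → ℂ} (hσ : Measurable σ) (hσ1 : ∀ y, ‖σ y‖ = 1)
    (hc : ∀ᵐ q ∂ν, f (S q) = σ (Θ q) * f q) :
    ν[f | MeasurableSpace.comap Θ mK] =ᵐ[ν] 0 ∨ AEM (MeasurableSpace.comap Θ mK) ν f := by
  have hm : MeasurableSpace.comap Θ mK ≤ mQ := hΘ.mp.measurable.comap_le
  have hfB : BM f := ⟨hf, 1, fun x => (h1 x).le⟩
  have hfSB : BM (fun q => f (S q)) := ⟨hf.comp S.measurable, 1, fun x => (h1 _).le⟩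
  obtain ⟨h, hh1, hh2, hh3⟩ := exists_bms_condExp (MeasurableSpace.comap Θ mK) ν hm hf
    (C := 1) (fun x => (h1 x).le)
  obtain ⟨e, he, hhe⟩ := fn_factor (mK := mK) ⟨hh1, 1, hh2⟩
  have hΘm : Measurable[MeasurableSpace.comap Θ mK, mK] Θ := comap_measurable Θ
  have hh4 : ∀ᵐ q ∂ν, (ν[f | MeasurableSpace.comap Θ mK]) q = e (Θ q) := by
    filter_upwards [hh3] with q hq
    rw [hq, hhe]
  -- integrals against functions of the factor
  have hint : ∀ g : K → ℂ, BM g → ∫ q, g (Θ q) * f q ∂ν = ∫ q, g (Θ q) * e (Θ q) ∂ν := by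
    intro g hg
    have e1 := integral_mul_condExp (MeasurableSpace.comap Θ mK) ν hm hfB (BMs.comp hg hΘm)
    rw [← e1]
    refine integral_congr_ae ?_
    filter_upwards [hh4] with q hq
    rw [hq]
  have k1 : ν[fun q => f (S q) | MeasurableSpace.comap Θ mK] =ᵐ[ν] fun q => e (T (Θ q)) := by
    refine condExp_eq_of_forall _ ν hm hfSB (BMs.comp (BMs.comp he T.measurable) hΘm) ?_
    intro g hg
    obtain ⟨g', hg', hgg⟩ := fn_factor (mK := mK) hg
    have e1 : ∫ q, g q * f (S q) ∂ν = ∫ q, (fun q => g' (T.symm (Θ q)) * f q) (S q) ∂ν := by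
      refine integral_congr_ae ?_
      filter_upwards [hΘ.eqv] with q hq
      rw [hq, T.symm_apply_apply, hgg]
    have e2 : ∫ q, g q * e (T (Θ q)) ∂ν =
        ∫ q, (fun q => g' (T.symm (Θ q)) * e (Θ q)) (S q) ∂ν := by
      refine integral_congr_ae ?_
      filter_upwards [hΘ.eqv] with q hq
      rw [hq, T.symm_apply_apply, hgg]
    rw [e1, e2, hS.toMeasurePreserving.integral_comp' (fun q => g' (T.symm (Θ q)) * f q),
      hS.toMeasurePreserving.integral_comp' (fun q => g' (T.symm (Θ q)) * e (Θ q))]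
    exact hint (fun y => g' (T.symm y)) (BMs.comp hg' T.symm.measurable)
  have k2 : ν[fun q => f (S q) | MeasurableSpace.comap Θ mK] =ᵐ[ν]
      fun q => σ (Θ q) * e (Θ q) := by
    have hσB : BM σ := ⟨hσ, 1, fun y => (hσ1 y).le⟩
    refine condExp_eq_of_forall _ ν hm hfSB (BMs.comp (BMs.mul hσB he) hΘm) ?_
    intro g hg
    obtain ⟨g', hg', hgg⟩ := fn_factor (mK := mK) hg
    have e1 := hint (fun y => g' y * σ y) (BMs.mul hg' hσB)
    have e2 : ∫ q, g q * f (S q) ∂ν = ∫ q, (fun y => g' y * σ y) (Θ q) * f q ∂ν := by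
      refine integral_congr_ae ?_
      filter_upwards [hc] with q hq
      rw [hq, hgg, mul_assoc]
    rw [e2, e1]
    refine integral_congr_ae (ae_of_all _ fun q => ?_)
    change g' (Θ q) * σ (Θ q) * e (Θ q) = g q * (σ (Θ q) * e (Θ q))
    rw [hgg, mul_assoc]
  have heq : ∀ᵐ q ∂ν, e (Θ (S q)) = σ (Θ q) * e (Θ q) := by
    filter_upwards [k1, k2, hΘ.eqv] with q q1 q2 q3
    rw [q3, ← q1, q2]
  have heΘ : Measurable fun q => e (Θ q) := he.1.comp hΘ.mp.measurable
  have hconj : ∀ z : ℂ, ‖z‖ = 1 → z * conj z = 1 := by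
    intro z hz
    rw [Complex.mul_conj', hz]
    norm_num
  have hinv : (fun q => f q * conj (e (Θ q))) ∘ S =ᵐ[ν] fun q => f q * conj (e (Θ q)) := by
    filter_upwards [heq, hc] with q q1 q2
    change f (S q) * conj (e (Θ (S q))) = f q * conj (e (Θ q))
    rw [q1, q2, map_mul]
    calc σ (Θ q) * f q * (conj (σ (Θ q)) * conj (e (Θ q))) =
        (σ (Θ q) * conj (σ (Θ q))) * (f q * conj (e (Θ q))) := by ring
      _ = f q * conj (e (Θ q)) := by rw [hconj _ (hσ1 _), one_mul]
  have hFm : Measurable fun q => f q * conj (e (Θ q)) :=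
    hf.mul (Complex.continuous_conj.measurable.comp heΘ)
  obtain ⟨d, hd⟩ := hS.ae_eq_const_of_ae_eq_comp_ae hFm.aestronglyMeasurable hinv
  have hf0 : ∀ q, f q ≠ 0 := by
    intro q h0
    have := h1 q
    rw [h0, norm_zero] at this
    exact zero_ne_one this
  by_cases hd0 : d = 0
  · left
    filter_upwards [hh4, hd] with q q1 q2
    rw [q1]
    have q3 : f q * conj (e (Θ q)) = 0 := by
      rw [← hd0]
      exact q2
    have q4 : conj (e (Θ q)) = 0 := (mul_eq_zero.1 q3).resolve_left (hf0 q)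
    exact (map_eq_zero _).1 q4
  · right
    refine ⟨fun q => d * (conj (e (Θ q)))⁻¹, ?_, ?_⟩
    · have h5 : Measurable[MeasurableSpace.comap Θ mK] fun q => e (Θ q) := he.1.comp hΘm
      exact ((Complex.continuous_conj.measurable.comp h5).inv).const_mul d
    · filter_upwards [hd] with q q2
      have q3 : f q * conj (e (Θ q)) = d := q2
      have q4 : conj (e (Θ q)) ≠ 0 := by
        intro h0
        rw [h0, mul_zero] at q3
        exact hd0 q3.symm
      rw [← q3, mul_assoc, mul_inv_cancel₀ q4, mul_one]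

/-- **FN.** Free / finite reduction. `u` is unimodular with a cocycle which comes from the factor `K`.
After dividing by a function of the factor it takes values in a closed subgroup `C_k` of the circle
and its powers of exponent not divisible by `k` are orthogonal to the factor.

Proof. `A = {j : ℤ | E[u^j | comap Θ] ≠ 0}`. For `j ∈ A`, `E[u^j|comap Θ] = e ∘ Θ` with `e` bounded
measurable and `e ∘ T = ρ^j e` a.e. (the σ-algebra `comap Θ` is invariant up to null sets; use
`cl`, or compute with `integral` against functions of `Θ`), so `|e|` is constant by ergodicity,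
`≠ 0`, and `u^j conj (e ∘ Θ)` is `S`-invariant, hence constant; so `u^j` is a.e. a function of `Θ`.
So `A` is the set of `j` for which `u^j` is `AEM (comap Θ)`, a subgroup of `ℤ`: `A = k ℤ`, `k ≥ 0`.
If `k = 0` take `r = 1`, `w = u`. If `k ≥ 1`, `u^k = φ ∘ Θ` a.e. with `φ` Borel unimodular; let
`r = exp (i arg φ / k)`, `w = u conj (r ∘ Θ)`, `w^k = 1` a.e.; change `w` to `1` on the exceptional
null set; `ρ₁ = ρ conj (r ∘ T) r`, `ρ₁^k = 1` `μ`-a.e.; change it to `1` where this fails.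
`E[w^j|Θ] = conj r^j E[u^j|Θ] = 0` for `j` not divisible by `k`. -/
theorem fn_reduce {Q K : Type} [MeasurableSpace Q] [StandardBorelSpace Q] [mK : MeasurableSpace K]
    [StandardBorelSpace K] (ν : Measure Q) [IsProbabilityMeasure ν] (S : Q ≃ᵐ Q)
    (hS : Ergodic S ν) (μ : Measure K) [IsProbabilityMeasure μ] (T : K ≃ᵐ K)
    (hT : MeasurePreserving T μ μ) {Θ : Q → K} (hΘ : FMap ν S μ T Θ) {u : Q → ℂ}
    (hu : Measurable u) (h1 : ∀ q, ‖u q‖ = 1) {ρ : K → ℂ} (hρ : Measurable ρ)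
    (hρ1 : ∀ y, ‖ρ y‖ = 1) (hc : ∀ᵐ q ∂ν, u (S q) = ρ (Θ q) * u q) :
    ∃ (k : ℕ) (r ρ₁ : K → ℂ) (w : Q → ℂ), Measurable r ∧ (∀ y, ‖r y‖ = 1) ∧ Measurable ρ₁ ∧
      (∀ y, inC k (ρ₁ y)) ∧ Measurable w ∧ (∀ q, inC k (w q)) ∧
      (∀ᵐ q ∂ν, w (S q) = ρ₁ (Θ q) * w q) ∧ (∀ᵐ q ∂ν, w q = u q * conj (r (Θ q))) ∧
      ∀ j : ℤ, ¬ (k : ℤ) ∣ j →
        ν[fun q => w q ^ j | MeasurableSpace.comap Θ mK] =ᵐ[ν] 0 := by
  classical
  have hm : MeasurableSpace.comap Θ mK ≤ ‹MeasurableSpace Q› := hΘ.mp.measurable.comap_le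
  have hΘm : Measurable[MeasurableSpace.comap Θ mK, mK] Θ := comap_measurable Θ
  have hne : ∀ z : ℂ, ‖z‖ = 1 → z ≠ 0 := by
    intro z hz h0
    rw [h0, norm_zero] at hz
    exact zero_ne_one hz
  have hconj : ∀ z : ℂ, ‖z‖ = 1 → z * conj z = 1 := by
    intro z hz
    rw [Complex.mul_conj', hz]
    norm_num
  have hu0 : ∀ q, u q ≠ 0 := fun q => hne _ (h1 q)
  have hzn : ∀ (z : ℂ) (j : ℤ), ‖z‖ = 1 → ‖z ^ j‖ = 1 := by
    intro z j hz
    rw [norm_zpow, hz, one_zpow]
  have hnn : ∀ (z : ℂ) (j : ℕ), ‖z‖ = 1 → ‖z ^ j‖ = 1 := by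
    intro z j hz
    rw [norm_pow, hz, one_pow]
  -- the dichotomy for the powers
  have hd : ∀ j : ℤ, ν[fun q => u q ^ j | MeasurableSpace.comap Θ mK] =ᵐ[ν] 0 ∨
      AEM (MeasurableSpace.comap Θ mK) ν (fun q => u q ^ j) := by
    intro j
    refine fn_dich ν S hS T hΘ (hu.pow_const j) (fun q => hzn _ j (h1 q))
      (σ := fun y => ρ y ^ j) (hρ.pow_const j) (fun y => hzn _ j (hρ1 y)) ?_
    filter_upwards [hc] with q hq
    rw [hq, mul_zpow]
  -- the group of the powers which are functions of the factor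
  let A : AddSubgroup ℤ :=
    { carrier := {j | AEM (MeasurableSpace.comap Θ mK) ν (fun q => u q ^ j)}
      add_mem' := by
        intro a b ha hb
        refine (AEM.mul ha hb).congr (ae_of_all _ fun q => ?_)
        change u q ^ a * u q ^ b = u q ^ (a + b)
        rw [zpow_add₀ (hu0 q)]
      zero_mem' := by
        refine ⟨fun _ => 1, measurable_const, ae_of_all _ fun q => ?_⟩
        change u q ^ (0 : ℤ) = 1
        rw [zpow_zero]
      neg_mem' := by
        intro a ha
        refine (AEM.map ha measurable_inv).congr (ae_of_all _ fun q => ?_)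
        change (u q ^ a)⁻¹ = u q ^ (-a)
        rw [zpow_neg] }
  obtain ⟨a, ha⟩ := Int.subgroup_cyclic A
  have hA : ∀ j, j ∈ A ↔ ((a.natAbs : ℕ) : ℤ) ∣ j := by
    intro j
    rw [ha, AddSubgroup.mem_closure_singleton, Int.natCast_natAbs, abs_dvd]
    constructor
    · rintro ⟨n, hn⟩
      exact ⟨n, by rw [← hn, smul_eq_mul, mul_comm]⟩
    · rintro ⟨n, hn⟩
      exact ⟨n, by rw [hn, smul_eq_mul, mul_comm]⟩
  generalize hk : a.natAbs = k at hA
  have hkA : AEM (MeasurableSpace.comap Θ mK) ν (fun q => u q ^ (k : ℤ)) := (hA k).2 dvd_rfl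
  obtain ⟨g, hg1, hg2, hg3⟩ := hkA.unimodular (ae_of_all _ fun q => hzn _ _ (h1 q))
  obtain ⟨e, he, hge⟩ := fn_factor (mK := mK) ⟨hg1, 1, fun q => (hg2 q).le⟩
  -- the `k`-th root
  have hem : Measurable e := he.1
  let r : K → ℂ := fun y => Complex.exp (((Complex.arg (e y) / k : ℝ) : ℂ) * Complex.I)
  have hr : Measurable r :=
    Complex.continuous_exp.measurable.comp
      ((Complex.measurable_ofReal.comp ((Complex.measurable_arg.comp hem).div_const _)).mul_const _)
  have hr1 : ∀ y, ‖r y‖ = 1 := fun y => Complex.norm_exp_ofReal_mul_I _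
  have hrk : k ≠ 0 → ∀ y, ‖e y‖ = 1 → r y ^ k = e y := by
    intro hk0 y hy
    have hk0' : (k : ℂ) ≠ 0 := by exact_mod_cast hk0
    change Complex.exp (((Complex.arg (e y) / k : ℝ) : ℂ) * Complex.I) ^ k = e y
    rw [← Complex.exp_nat_mul]
    have h2 := Complex.norm_mul_exp_arg_mul_I (e y)
    rw [hy, Complex.ofReal_one, one_mul] at h2
    rw [← h2]
    congr 1
    push_cast
    rw [h2]
    field_simp
  have hw0 : ∀ᵐ q ∂ν, (u q * conj (r (Θ q))) ^ k = 1 := by
    by_cases hk0 : k = 0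
    · rw [hk0]
      exact ae_of_all _ fun q => pow_zero _
    · filter_upwards [hg3] with q hq
      have h3 : ‖e (Θ q)‖ = 1 := by rw [← hge, hg2]
      have h4 : u q ^ k = e (Θ q) := by
        rw [← hge, ← hq, zpow_natCast]
      rw [mul_pow, h4, ← map_pow, hrk hk0 _ h3, hconj _ h3]
  have hw0S : ∀ᵐ q ∂ν, (u (S q) * conj (r (Θ (S q)))) ^ k = 1 :=
    hS.toMeasurePreserving.quasiMeasurePreserving.ae hw0
  have hwm : Measurable fun q => u q * conj (r (Θ q)) :=
    hu.mul (Complex.continuous_conj.measurable.comp (hr.comp hΘ.mp.measurable))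
  have hρm : Measurable fun y => ρ y * conj (r (T y)) * r y :=
    (hρ.mul (Complex.continuous_conj.measurable.comp (hr.comp T.measurable))).mul hr
  have hw1 : ∀ q, ‖u q * conj (r (Θ q))‖ = 1 := by
    intro q
    rw [norm_mul, h1, RCLike.norm_conj, hr1, mul_one]
  have hρr1 : ∀ y, ‖ρ y * conj (r (T y)) * r y‖ = 1 := by
    intro y
    rw [norm_mul, norm_mul, hρ1, RCLike.norm_conj, hr1, hr1, mul_one, mul_one]
  have hweq : ∀ᵐ q ∂ν, (if (u q * conj (r (Θ q))) ^ k = 1 then u q * conj (r (Θ q)) else 1) =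
      u q * conj (r (Θ q)) := by
    filter_upwards [hw0] with q hq
    rw [if_pos hq]
  refine ⟨k, r, fun y => if (ρ y * conj (r (T y)) * r y) ^ k = 1 then ρ y * conj (r (T y)) * r y
    else 1, fun q => if (u q * conj (r (Θ q))) ^ k = 1 then u q * conj (r (Θ q)) else 1,
    hr, hr1, ?_, ?_, ?_, ?_, ?_, ?_, ?_⟩
  · exact Measurable.ite (measurableSet_eq_fun (hρm.pow_const k) measurable_const) hρm
      measurable_const
  · intro y
    change inC k (if (ρ y * conj (r (T y)) * r y) ^ k = 1 then ρ y * conj (r (T y)) * r y else 1)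
    by_cases h : (ρ y * conj (r (T y)) * r y) ^ k = 1
    · rw [if_pos h]
      exact ⟨hρr1 y, h⟩
    · rw [if_neg h]
      exact ⟨norm_one, one_pow k⟩
  · exact Measurable.ite (measurableSet_eq_fun (hwm.pow_const k) measurable_const) hwm
      measurable_const
  · intro q
    change inC k (if (u q * conj (r (Θ q))) ^ k = 1 then u q * conj (r (Θ q)) else 1)
    by_cases h : (u q * conj (r (Θ q))) ^ k = 1
    · rw [if_pos h]
      exact ⟨hw1 q, h⟩
    · rw [if_neg h]
      exact ⟨norm_one, one_pow k⟩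
  · filter_upwards [hw0, hw0S, hΘ.eqv, hc] with q q1 q2 q3 q4
    have h5 : u (S q) * conj (r (Θ (S q))) =
        (ρ (Θ q) * conj (r (T (Θ q))) * r (Θ q)) * (u q * conj (r (Θ q))) := by
      rw [q3, q4]
      calc ρ (Θ q) * u q * conj (r (T (Θ q))) =
          ρ (Θ q) * conj (r (T (Θ q))) * (u q * (r (Θ q) * conj (r (Θ q)))) := by
            rw [hconj _ (hr1 _)]
            ring
        _ = _ := by ring
    have h6 : (ρ (Θ q) * conj (r (T (Θ q))) * r (Θ q)) ^ k = 1 := by
      have h7 := q2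
      rw [h5, mul_pow, q1, mul_one] at h7
      exact h7
    rw [if_pos q1, if_pos q2, if_pos h6]
    exact h5
  · exact hweq
  · intro j hj
    have h5 : ν[fun q => u q ^ j | MeasurableSpace.comap Θ mK] =ᵐ[ν] 0 := by
      rcases hd j with h | h
      · exact h
      · exact absurd ((hA j).1 h) hj
    have h6 : ν[fun q => (if (u q * conj (r (Θ q))) ^ k = 1 then u q * conj (r (Θ q)) else 1) ^ j |
        MeasurableSpace.comap Θ mK] =ᵐ[ν]
        ν[fun q => conj (r (Θ q)) ^ j * u q ^ j | MeasurableSpace.comap Θ mK] := by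
      refine condExp_congr_ae ?_
      filter_upwards [hweq] with q hq
      rw [hq, mul_zpow, mul_comm]
    refine h6.trans ?_
    have hrB : BMs (MeasurableSpace.comap Θ mK) fun q => conj (r (Θ q)) ^ j :=
      ⟨(Complex.continuous_conj.measurable.comp (hr.comp hΘm)).pow_const j, 1, fun q => by
        rw [hzn _ j (by rw [RCLike.norm_conj, hr1])]⟩
    have huB : BM fun q => u q ^ j := ⟨hu.pow_const j, 1, fun q => (hzn _ j (h1 q)).le⟩
    rw [condExp_eq_zero_iff _ ν hm (BMs.mul (BMs.mono hm hrB) huB)]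
    intro g hg
    have h7 := (condExp_eq_zero_iff _ ν hm huB).1 h5 _ (BMs.mul hg hrB)
    rw [← h7]
    refine integral_congr_ae (ae_of_all _ fun q => ?_)
    change g q * (conj (r (Θ q)) ^ j * u q ^ j) = g q * conj (r (Θ q)) ^ j * u q ^ j
    rw [mul_assoc]

end Pool.Agent.HK820

end
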