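import Mathlib

/-! ### Part `Defs` -/

section

/-!
# MP_820dd4_an, Host-Kra structure theorem: definitions

All systems are standard Borel probability spaces `X` with a measurable equivalence `T`.
Convention: a sub σ-algebra argument `m` always comes BEFORE the instance `[MeasurableSpace X]`
(otherwise instance resolution would pick `m` as the ambient structure).
-/

open MeasureTheory ProbabilityTheory Filter Topology
open scoped ComplexConjugate ENNReal

namespace Pool.Agent.HK820

/-! ### Functions -/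

/-- bounded and measurable with respect to `m` -/
def BMs {X : Type} (m : MeasurableSpace X) (f : X → ℂ) : Prop :=
  Measurable[m] f ∧ ∃ C : ℝ, ∀ x, ‖f x‖ ≤ C

/-- bounded and measurable -/
def BM {X : Type} [mX : MeasurableSpace X] (f : X → ℂ) : Prop := BMs mX f

/-- Birkhoff average -/
noncomputable def avg {X : Type} (T : X → X) (N : ℕ) (f : X → ℂ) (x : X) : ℂ :=
  (N : ℂ)⁻¹ * ∑ n ∈ Finset.range N, f (T^[n] x)

/-- the σ-algebra of (strictly) invariant measurable sets -/
abbrev Inv {X : Type} [MeasurableSpace X] (T : X → X) : MeasurableSpace X :=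
  MeasurableSpace.invariants T

/-- the σ-algebra `m` is invariant under `T` and its inverse -/
def TInv {X : Type} (m : MeasurableSpace X) [MeasurableSpace X] (T : X ≃ᵐ X) : Prop :=
  Measurable[m, m] T ∧ Measurable[m, m] T.symm

/-- `f` agrees almost everywhere with an `m`-measurable function -/
def AEM {X : Type} (m : MeasurableSpace X) [MeasurableSpace X] (μ : Measure X) (f : X → ℂ) :
    Prop := ∃ g : X → ℂ, Measurable[m] g ∧ f =ᵐ[μ] g

/-- factor map: measure preserving and equivariant almost everywhere -/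
structure FMap {X Y : Type} [MeasurableSpace X] [MeasurableSpace Y] (μ : Measure X)
    (T : X ≃ᵐ X) (ν : Measure Y) (S : Y ≃ᵐ Y) (p : X → Y) : Prop where
  mp : MeasurePreserving p μ ν
  eqv : ∀ᵐ x ∂μ, p (T x) = S (p x)

/-! ### Relatively independent powers -/

open Classical in
/-- The `ι`-fold relatively independent power of `ν` over the sub σ-algebra `m`. -/
noncomputable def relInd {Y : Type} (m : MeasurableSpace Y) [MeasurableSpace Y]
    [StandardBorelSpace Y] (ν : Measure Y) (ι : Type) [Fintype ι] : Measure (ι → Y) :=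
  if h : IsProbabilityMeasure ν then
    haveI := h
    ν.bind (fun y => Measure.pi (fun _ : ι => condExpKernel ν m y))
  else 0

/-! ### Arrays and cube measures -/

/-- `D`-dimensional arrays of points of `X` indexed by `ι^D` -/
abbrev Arr (ι X : Type) (D : ℕ) : Type := (Fin D → ι) → X

/-- the slice of an array in direction `0` -/
def slice {ι X : Type} {D : ℕ} (x : Arr ι X (D + 1)) (i : ι) : Arr ι X D :=
  fun v => x (Fin.cons i v)

/-- the array with given slices in direction `0` -/
def glue {ι X : Type} {D : ℕ} (y : ι → Arr ι X D) : Arr ι X (D + 1) :=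
  fun v => y (v 0) (Fin.tail v)

/-- the diagonal transformation on arrays -/
def tArr {X : Type} [MeasurableSpace X] (T : X ≃ᵐ X) (ι : Type) (D : ℕ) :
    Arr ι X D ≃ᵐ Arr ι X D :=
  MeasurableEquiv.piCongrRight (fun _ => T)

/-- the diagonal transformation on `ι`-tuples -/
def tTup {Y : Type} [MeasurableSpace Y] (T : Y ≃ᵐ Y) (ι : Type) : (ι → Y) ≃ᵐ (ι → Y) :=
  MeasurableEquiv.piCongrRight (fun _ => T)

open Classical in
/-- the slab transformation: `T` acts on the coordinates `v` with `v j = c` -/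
noncomputable def slab {X : Type} [MeasurableSpace X] (T : X ≃ᵐ X) (ι : Type) (D : ℕ)
    (j : Fin D) (c : ι) : Arr ι X D ≃ᵐ Arr ι X D :=
  MeasurableEquiv.piCongrRight (fun v => if v j = c then T else MeasurableEquiv.refl X)

/-- The cube measures: `cube 0 = μ` and `cube (D + 1)` is the `ι`-fold relatively independent
power of `cube D` over the sets invariant under the diagonal transformation. -/
noncomputable def cube {X : Type} [MeasurableSpace X] [StandardBorelSpace X] (μ : Measure X)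
    (T : X ≃ᵐ X) (ι : Type) [Fintype ι] : (D : ℕ) → Measure (Arr ι X D)
  | 0 => μ.map (fun x _ => x)
  | D + 1 => (relInd (Inv (tArr T ι D)) (cube μ T ι D) ι).map glue

/-- restriction of an array along injections `e j : κ → ι` of the index sets -/
def rst {ι κ X : Type} {D : ℕ} (e : Fin D → κ → ι) (x : Arr ι X D) : Arr κ X D :=
  fun w => x (fun j => e j (w j))

/-- the `n`-fold conjugate -/
noncomputable def cj (n : ℕ) (z : ℂ) : ℂ := if Even n then z else conj z

/-- number of ones -/
def wt {k : ℕ} (v : Fin k → Fin 2) : ℕ := ∑ j, (v j : ℕ)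

/-- the multiplicative derivative of `f` on `k`-dimensional cubes -/
noncomputable def dd {X : Type} (k : ℕ) (f : X → ℂ) (x : Arr (Fin 2) X k) : ℂ :=
  ∏ v, cj (wt v) (f (x v))

/-- the `2^k`-th power of the `k`-th Gowers-Host-Kra seminorm -/
noncomputable def gn {X : Type} [MeasurableSpace X] [StandardBorelSpace X] (μ : Measure X)
    (T : X ≃ᵐ X) (k : ℕ) (f : X → ℂ) : ℂ :=
  ∫ x, dd k f x ∂(cube μ T (Fin 2) k)

/-! ### The factors `Z_k` -/

/-- the σ-algebra on cubes generated by all coordinates except the root `0` -/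
@[reducible] def starAlg (X : Type) [MeasurableSpace X] (D : ℕ) :
    MeasurableSpace (Arr (Fin 2) X D) :=
  MeasurableSpace.comap (fun x (v : {v : Fin D → Fin 2 // v ≠ 0}) => x v.1) inferInstance

/-- the set `s`, as a set of cubes (looking at the root), is determined by the other vertices -/
def RootDet {X : Type} [MeasurableSpace X] [StandardBorelSpace X] (μ : Measure X)
    (T : X ≃ᵐ X) (k : ℕ) (s : Set X) : Prop :=
  ∃ B : Set (Arr (Fin 2) X (k + 1)), MeasurableSet[starAlg X (k + 1)] B ∧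
    (fun x : Arr (Fin 2) X (k + 1) => x 0) ⁻¹' s =ᵐ[cube μ T (Fin 2) (k + 1)] B

/-- the σ-algebra `Z_k`: the sets whose indicator at the root of a `(k+1)`-dimensional cube is
almost surely determined by the other vertices -/
@[reducible] def Zalg {X : Type} [MeasurableSpace X] [StandardBorelSpace X] (μ : Measure X)
    (T : X ≃ᵐ X) (k : ℕ) : MeasurableSpace X where
  MeasurableSet' s := MeasurableSet s ∧ RootDet μ T k s
  measurableSet_empty := ⟨MeasurableSet.empty, ∅, @MeasurableSet.empty _ (starAlg X (k + 1)), by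
    simp⟩
  measurableSet_compl := by
    rintro s ⟨h1, B, h2, h3⟩
    exact ⟨h1.compl, Bᶜ, @MeasurableSet.compl _ _ (starAlg X (k + 1)) h2, h3.compl⟩
  measurableSet_iUnion := by
    intro f hf
    choose h1 B h2 h3 using hf
    refine ⟨MeasurableSet.iUnion h1, ⋃ i, B i,
      @MeasurableSet.iUnion _ _ (starAlg X (k + 1)) _ _ h2, ?_⟩
    rw [Set.preimage_iUnion]
    exact Filter.EventuallyEq.countable_iUnion h3

/-- the σ-algebra on arrays generated by the vertexwise pullbacks of `m` -/
@[reducible] def pw {ι X : Type} (m : MeasurableSpace X) (D : ℕ) : MeasurableSpace (Arr ι X D) :=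
  ⨆ v : Fin D → ι, MeasurableSpace.comap (fun x : Arr ι X D => x v) m

/-! ### Cocycles on cubes -/

/-- outer pattern `0, 2` -/
def out3 (b : Fin 2) : Fin 3 := if b = 0 then 0 else 2

/-- inner pattern: root `0` or `2`, other slot `1` -/
def in3 (a b : Fin 2) : Fin 3 := if b = 0 then out3 a else 1

/-- the (almost everywhere) cocycle identity on `3^D` arrays -/
def IsCoc {X : Type} [MeasurableSpace X] [StandardBorelSpace X] (μ : Measure X)
    (T : X ≃ᵐ X) (D : ℕ) (σ : Arr (Fin 2) X D → ℂ) : Prop :=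
  ∀ᵐ y ∂(cube μ T (Fin 3) D),
    σ (rst (fun _ => out3) y) = ∏ w : Fin D → Fin 2, cj (wt w) (σ (rst (fun j => in3 (w j)) y))

/-! ### Towers -/

/-- `u` is a unimodular function of order `s` whose cocycle is measurable with respect to `m` -/
structure IsStep {X : Type} (m : MeasurableSpace X) [MeasurableSpace X] [StandardBorelSpace X]
    (μ : Measure X) (T : X ≃ᵐ X) (s : ℕ) (u : X → ℂ) : Prop where
  meas : Measurable u
  norm : ∀ x, ‖u x‖ = 1
  coc : ∃ ρ : X → ℂ, Measurable[m] ρ ∧ ∀ᵐ x ∂μ, u (T x) = ρ x * u x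
  ord : AEM (Zalg μ T s) μ u

/-- sub σ-algebras generated by towers of `n` circle extensions of order `s` -/
def TowN {X : Type} [mX : MeasurableSpace X] [hX : StandardBorelSpace X] (μ : Measure X)
    (T : X ≃ᵐ X) (s : ℕ) : ℕ → MeasurableSpace X → Prop
  | 0, m => m = ⊥
  | n + 1, m => ∃ (m' : MeasurableSpace X) (u : X → ℂ), @TowN X mX hX μ T s n m' ∧
      @IsStep X m' mX hX μ T s u ∧ m = m' ⊔ MeasurableSpace.comap u inferInstance

/-- Sub σ-algebras generated by finite towers of circle extensions of order `s`. -/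
def TowAlg {X : Type} (m : MeasurableSpace X) [MeasurableSpace X] [StandardBorelSpace X]
    (μ : Measure X) (T : X ≃ᵐ X) (s : ℕ) : Prop := ∃ n, TowN μ T s n m

end Pool.Agent.HK820

end

/-! ### Part `Bas` -/

section

open MeasureTheory ProbabilityTheory Filter Topology
open scoped ComplexConjugate ENNReal

namespace Pool.Agent.HK820

/-! **BAS.** Elementary API for bounded measurable functions (`BM`, `BMs`) and for functions which
are almost everywhere `m`-measurable (`AEM`). -/

theorem BMs.mono {X : Type} {m m' : MeasurableSpace X} (h : m ≤ m') {f : X → ℂ} (hf : BMs m f) :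
    BMs m' f := ⟨hf.1.mono h le_rfl, hf.2⟩

theorem BMs.const {X : Type} (m : MeasurableSpace X) (c : ℂ) : BMs m (fun _ : X => c) :=
  ⟨measurable_const, ‖c‖, fun _ => le_rfl⟩

theorem BMs.mul {X : Type} {m : MeasurableSpace X} {f g : X → ℂ} (hf : BMs m f) (hg : BMs m g) :
    BMs m (fun x => f x * g x) := by
  obtain ⟨hf1, C, hC⟩ := hf
  obtain ⟨hg1, C', hC'⟩ := hg
  refine ⟨hf1.mul hg1, C * C', fun x => ?_⟩
  rw [norm_mul]
  exact mul_le_mul (hC x) (hC' x) (norm_nonneg _) ((norm_nonneg _).trans (hC x))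

theorem BMs.add {X : Type} {m : MeasurableSpace X} {f g : X → ℂ} (hf : BMs m f) (hg : BMs m g) :
    BMs m (fun x => f x + g x) := by
  obtain ⟨hf1, C, hC⟩ := hf
  obtain ⟨hg1, C', hC'⟩ := hg
  exact ⟨hf1.add hg1, C + C', fun x => (norm_add_le _ _).trans (add_le_add (hC x) (hC' x))⟩

theorem BMs.sub {X : Type} {m : MeasurableSpace X} {f g : X → ℂ} (hf : BMs m f) (hg : BMs m g) :
    BMs m (fun x => f x - g x) := by
  obtain ⟨hf1, C, hC⟩ := hf
  obtain ⟨hg1, C', hC'⟩ := hg
  exact ⟨hf1.sub hg1, C + C', fun x => (norm_sub_le _ _).trans (add_le_add (hC x) (hC' x))⟩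

theorem BMs.conj {X : Type} {m : MeasurableSpace X} {f : X → ℂ} (hf : BMs m f) :
    BMs m (fun x => conj (f x)) := by
  obtain ⟨hf1, C, hC⟩ := hf
  refine ⟨Complex.continuous_conj.measurable.comp hf1, C, fun x => ?_⟩
  rw [Complex.norm_conj]
  exact hC x

theorem BMs.cj {X : Type} {m : MeasurableSpace X} {f : X → ℂ} (hf : BMs m f) (n : ℕ) :
    BMs m (fun x => cj n (f x)) := by
  unfold HK820.cj
  by_cases h : Even n
  · simp only [if_pos h]
    exact hf
  · simp only [if_neg h]
    exact hf.conj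

theorem BMs.prod {X α : Type} {m : MeasurableSpace X} {f : α → X → ℂ} (s : Finset α)
    (hf : ∀ a, BMs m (f a)) : BMs m (fun x => ∏ a ∈ s, f a x) := by
  classical
  induction s using Finset.induction_on with
  | empty =>
    simp only [Finset.prod_empty]
    exact BMs.const m 1
  | insert a s ha ih =>
    simp only [Finset.prod_insert ha]
    exact (hf a).mul ih

theorem BMs.sum {X α : Type} {m : MeasurableSpace X} {f : α → X → ℂ} (s : Finset α)
    (hf : ∀ a, BMs m (f a)) : BMs m (fun x => ∑ a ∈ s, f a x) := by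
  classical
  induction s using Finset.induction_on with
  | empty =>
    simp only [Finset.sum_empty]
    exact BMs.const m 0
  | insert a s ha ih =>
    simp only [Finset.sum_insert ha]
    exact (hf a).add ih

theorem BMs.comp {X Y : Type} {m : MeasurableSpace X} {m' : MeasurableSpace Y} {f : Y → ℂ}
    (hf : BMs m' f) {p : X → Y} (hp : Measurable[m, m'] p) : BMs m (fun x => f (p x)) := by
  obtain ⟨hf1, C, hC⟩ := hf
  exact ⟨hf1.comp hp, C, fun x => hC (p x)⟩

theorem BMs.indicator {X : Type} {m : MeasurableSpace X} {f : X → ℂ} (hf : BMs m f) {s : Set X}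
    (hs : MeasurableSet[m] s) : BMs m (s.indicator f) := by
  obtain ⟨hf1, C, hC⟩ := hf
  exact ⟨hf1.indicator hs, C, fun x => (norm_indicator_le_norm_self f x).trans (hC x)⟩

theorem bas_integrable {X : Type} [MeasurableSpace X] {f : X → ℂ} (hf : Measurable f) {C : ℝ}
    (hC : ∀ x, ‖f x‖ ≤ C) (μ : Measure X) [IsProbabilityMeasure μ] : Integrable f μ :=
  Integrable.of_bound hf.aestronglyMeasurable C (ae_of_all μ hC)

/-- bounded version of the conditional expectation (same bound, everywhere): truncate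
`μ[f|m]` (`StronglyMeasurable[m]`) by `0` where its norm exceeds `C`; the exceptional set is null
(`ae_bdd_condExp_of_ae_bdd` or `‖μ[f|m]‖ ≤ μ[‖f‖|m]`) -/
theorem exists_bms_condExp {X : Type} (m : MeasurableSpace X) [mX : MeasurableSpace X]
    (μ : Measure X) [IsProbabilityMeasure μ] (hm : m ≤ mX) {f : X → ℂ} (hf : Measurable f) {C : ℝ}
    (hC : ∀ x, ‖f x‖ ≤ C) :
    ∃ g : X → ℂ, Measurable[m] g ∧ (∀ x, ‖g x‖ ≤ C) ∧ μ[f | m] =ᵐ[μ] g := by
  have hint : Integrable f μ := bas_integrable hf hC μ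
  have hC0 : 0 ≤ C := by
    haveI : Nonempty X := μ.nonempty_of_neZero
    exact (norm_nonneg _).trans (hC (Classical.arbitrary X))
  have h1 : ∀ᵐ x ∂μ, ‖(μ[f | m]) x‖ ≤ C := by
    have h2 : (fun x => ‖(μ[f | m]) x‖) ≤ᵐ[μ] μ[(fun x => ‖f x‖) | m] := norm_condExp_le f
    have h3 : μ[(fun x => ‖f x‖) | m] ≤ᵐ[μ] μ[(fun _ => C) | m] :=
      condExp_mono hint.norm (integrable_const C) (ae_of_all μ hC)
    rw [condExp_const hm C] at h3
    filter_upwards [h2, h3] with x h4 h5
    exact h4.trans h5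
  have hmeas : Measurable[m] (μ[f | m]) := stronglyMeasurable_condExp.measurable
  have hset : MeasurableSet[m] {x | ‖(μ[f | m]) x‖ ≤ C} := by
    have h2 : Measurable[m] (fun x => ‖(μ[f | m]) x‖) := measurable_norm.comp hmeas
    exact h2 measurableSet_Iic
  refine ⟨{x | ‖(μ[f | m]) x‖ ≤ C}.indicator (μ[f | m]), hmeas.indicator hset, fun x => ?_, ?_⟩
  · by_cases hx : x ∈ {x | ‖(μ[f | m]) x‖ ≤ C}
    · rw [Set.indicator_of_mem hx]
      exact hx
    · rw [Set.indicator_of_notMem hx, norm_zero]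
      exact hC0
  · filter_upwards [h1] with x hx
    rw [Set.indicator_of_mem (show x ∈ {x | ‖(μ[f | m]) x‖ ≤ C} from hx)]

theorem BM.integrable {X : Type} [MeasurableSpace X] {f : X → ℂ} (hf : BM f) (μ : Measure X)
    [IsProbabilityMeasure μ] : Integrable f μ := by
  obtain ⟨hf1, C, hC⟩ := hf
  exact bas_integrable hf1 hC μ

/-- pull out a bounded `m`-measurable factor, and integrate -/
theorem integral_mul_condExp {X : Type} (m : MeasurableSpace X) [mX : MeasurableSpace X]
    (μ : Measure X) [IsProbabilityMeasure μ] (hm : m ≤ mX) {f g : X → ℂ} (hf : BM f)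
    (hg : BMs m g) : ∫ x, g x * (μ[f | m]) x ∂μ = ∫ x, g x * f x ∂μ := by
  have hfint := hf.integrable μ
  obtain ⟨hg1, C, hC⟩ := hg
  have h1 : μ[fun x => g x * f x | m] =ᵐ[μ] fun x => g x * (μ[f | m]) x :=
    condExp_stronglyMeasurable_bilin_of_bound (ContinuousLinearMap.mul ℝ ℂ) hm
      hg1.stronglyMeasurable hfint C (ae_of_all μ hC)
  rw [← integral_congr_ae h1]
  exact integral_condExp hm

/-- `∫ f · conj (E[f|m]) = ∫ ‖E[f|m]‖²` -/
theorem integral_mul_conj_condExp {X : Type} (m : MeasurableSpace X) [mX : MeasurableSpace X]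
    (μ : Measure X) [IsProbabilityMeasure μ] (hm : m ≤ mX) {f : X → ℂ} (hf : BM f) :
    ∫ x, f x * conj ((μ[f | m]) x) ∂μ = ((∫ x, ‖(μ[f | m]) x‖ ^ 2 ∂μ : ℝ) : ℂ) := by
  obtain ⟨hf1, C, hC⟩ := hf
  obtain ⟨g, hg1, hg2, hg3⟩ := exists_bms_condExp m μ hm hf1 hC
  have hgb : BMs m (fun x => conj (g x)) := BMs.conj ⟨hg1, C, hg2⟩
  have h1 := integral_mul_condExp m μ hm ⟨hf1, C, hC⟩ hgb
  have h2 : ∫ x, f x * conj ((μ[f | m]) x) ∂μ = ∫ x, conj (g x) * f x ∂μ := by
    refine integral_congr_ae ?_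
    filter_upwards [hg3] with x hx
    rw [hx, mul_comm]
  have h3 : ∫ x, conj (g x) * (μ[f | m]) x ∂μ = ∫ x, ((‖(μ[f | m]) x‖ ^ 2 : ℝ) : ℂ) ∂μ := by
    refine integral_congr_ae ?_
    filter_upwards [hg3] with x hx
    rw [hx, Complex.conj_mul', Complex.ofReal_pow]
  rw [h2, ← h1, h3]
  exact integral_ofReal

/-- characterisation of the conditional expectation of bounded functions by testing against
bounded `m`-measurable functions -/
theorem condExp_eq_of_forall {X : Type} (m : MeasurableSpace X) [mX : MeasurableSpace X]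
    (μ : Measure X) [IsProbabilityMeasure μ] (hm : m ≤ mX) {f h : X → ℂ} (hf : BM f)
    (hh : BMs m h) (H : ∀ g, BMs m g → ∫ x, g x * f x ∂μ = ∫ x, g x * h x ∂μ) :
    μ[f | m] =ᵐ[μ] h := by
  have hint : Integrable h μ := BM.integrable (BMs.mono hm hh) μ
  refine (ae_eq_condExp_of_forall_setIntegral_eq hm (hf.integrable μ)
    (fun s _ _ => hint.integrableOn) (fun s hs _ => ?_)
    hh.1.stronglyMeasurable.aestronglyMeasurable).symm
  have h1 := H (s.indicator fun _ => 1) ((BMs.const m 1).indicator hs)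
  have h2 : ∀ k : X → ℂ, ∫ x, (s.indicator (fun _ => (1 : ℂ))) x * k x ∂μ = ∫ x in s, k x ∂μ := by
    intro k
    rw [← integral_indicator (hm s hs)]
    refine integral_congr_ae (ae_of_all μ fun x => ?_)
    by_cases hx : x ∈ s
    · show (s.indicator (fun _ => (1 : ℂ))) x * k x = s.indicator k x
      rw [Set.indicator_of_mem hx, Set.indicator_of_mem hx, one_mul]
    · show (s.indicator (fun _ => (1 : ℂ))) x * k x = s.indicator k x
      rw [Set.indicator_of_notMem hx, Set.indicator_of_notMem hx, zero_mul]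
  rw [h2, h2] at h1
  exact h1.symm

/-- `E[f|m] = 0` iff `f` is orthogonal to the bounded `m`-measurable functions -/
theorem condExp_eq_zero_iff {X : Type} (m : MeasurableSpace X) [mX : MeasurableSpace X]
    (μ : Measure X) [IsProbabilityMeasure μ] (hm : m ≤ mX) {f : X → ℂ} (hf : BM f) :
    μ[f | m] =ᵐ[μ] 0 ↔ ∀ g, BMs m g → ∫ x, g x * f x ∂μ = 0 := by
  constructor
  · intro h0 g hg
    rw [← integral_mul_condExp m μ hm hf hg]
    have h1 : ∫ x, g x * (μ[f | m]) x ∂μ = ∫ _x, (0 : ℂ) ∂μ := by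
      refine integral_congr_ae ?_
      filter_upwards [h0] with x hx
      rw [hx]
      exact mul_zero _
    rw [h1, integral_zero]
  · intro H
    have h1 := condExp_eq_of_forall m μ hm hf (BMs.const m 0) (fun g hg => by
      rw [H g hg]
      simp only [mul_zero, integral_zero])
    exact h1

end Pool.Agent.HK820

end

/-! ### Part `BasE` -/

section

open MeasureTheory ProbabilityTheory Filter Topology
open scoped ComplexConjugate ENNReal

namespace Pool.Agent.HK820

/-! #### AEM -/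

theorem AEM.of_meas {X : Type} {m : MeasurableSpace X} [MeasurableSpace X] {μ : Measure X}
    {f : X → ℂ} (hf : Measurable[m] f) : AEM m μ f := ⟨f, hf, ae_eq_rfl⟩

theorem AEM.congr {X : Type} {m : MeasurableSpace X} [MeasurableSpace X] {μ : Measure X}
    {f g : X → ℂ} (hf : AEM m μ f) (h : f =ᵐ[μ] g) : AEM m μ g := by
  obtain ⟨f', hf', hff⟩ := hf
  exact ⟨f', hf', h.symm.trans hff⟩

theorem AEM.mono {X : Type} {m m' : MeasurableSpace X} [MeasurableSpace X] {μ : Measure X}
    (h : m ≤ m') {f : X → ℂ} (hf : AEM m μ f) : AEM m' μ f := by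
  obtain ⟨f', hf', hff⟩ := hf
  exact ⟨f', hf'.mono h le_rfl, hff⟩

theorem AEM.mul {X : Type} {m : MeasurableSpace X} [MeasurableSpace X] {μ : Measure X}
    {f g : X → ℂ} (hf : AEM m μ f) (hg : AEM m μ g) : AEM m μ (fun x => f x * g x) := by
  obtain ⟨f', hf', hff⟩ := hf
  obtain ⟨g', hg', hgg⟩ := hg
  refine ⟨fun x => f' x * g' x, hf'.mul hg', ?_⟩
  filter_upwards [hff, hgg] with x h1 h2
  rw [h1, h2]

theorem AEM.add {X : Type} {m : MeasurableSpace X} [MeasurableSpace X] {μ : Measure X}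
    {f g : X → ℂ} (hf : AEM m μ f) (hg : AEM m μ g) : AEM m μ (fun x => f x + g x) := by
  obtain ⟨f', hf', hff⟩ := hf
  obtain ⟨g', hg', hgg⟩ := hg
  refine ⟨fun x => f' x + g' x, hf'.add hg', ?_⟩
  filter_upwards [hff, hgg] with x h1 h2
  rw [h1, h2]

theorem AEM.sub {X : Type} {m : MeasurableSpace X} [MeasurableSpace X] {μ : Measure X}
    {f g : X → ℂ} (hf : AEM m μ f) (hg : AEM m μ g) : AEM m μ (fun x => f x - g x) := by
  obtain ⟨f', hf', hff⟩ := hf
  obtain ⟨g', hg', hgg⟩ := hg
  refine ⟨fun x => f' x - g' x, hf'.sub hg', ?_⟩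
  filter_upwards [hff, hgg] with x h1 h2
  rw [h1, h2]

theorem AEM.conj {X : Type} {m : MeasurableSpace X} [MeasurableSpace X] {μ : Measure X}
    {f : X → ℂ} (hf : AEM m μ f) : AEM m μ (fun x => conj (f x)) := by
  obtain ⟨f', hf', hff⟩ := hf
  refine ⟨fun x => conj (f' x), Complex.continuous_conj.measurable.comp hf', ?_⟩
  filter_upwards [hff] with x h1
  rw [h1]

theorem AEM.cj {X : Type} {m : MeasurableSpace X} [MeasurableSpace X] {μ : Measure X}
    {f : X → ℂ} (hf : AEM m μ f) (n : ℕ) : AEM m μ (fun x => cj n (f x)) := by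
  unfold HK820.cj
  by_cases h : Even n
  · simp only [if_pos h]
    exact hf
  · simp only [if_neg h]
    exact hf.conj

theorem AEM.prod {X α : Type} {m : MeasurableSpace X} [MeasurableSpace X] {μ : Measure X}
    {f : α → X → ℂ} (s : Finset α) (hf : ∀ a, AEM m μ (f a)) :
    AEM m μ (fun x => ∏ a ∈ s, f a x) := by
  classical
  induction s using Finset.induction_on with
  | empty =>
    simp only [Finset.prod_empty]
    exact AEM.of_meas measurable_const
  | insert a s ha ih =>
    simp only [Finset.prod_insert ha]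
    exact (hf a).mul ih

/-- composition with a Borel function -/
theorem AEM.map {X : Type} {m : MeasurableSpace X} [MeasurableSpace X] {μ : Measure X}
    {f : X → ℂ} (hf : AEM m μ f) {φ : ℂ → ℂ} (hφ : Measurable φ) :
    AEM m μ (fun x => φ (f x)) := by
  obtain ⟨f', hf', hff⟩ := hf
  refine ⟨fun x => φ (f' x), hφ.comp hf', ?_⟩
  filter_upwards [hff] with x h1
  rw [h1]

/-- pullback -/
theorem AEM.comp {X Y : Type} {m : MeasurableSpace X} {m' : MeasurableSpace Y}
    [MeasurableSpace X] [MeasurableSpace Y] {μ : Measure X} {ν : Measure Y} {f : Y → ℂ}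
    (hf : AEM m' ν f) {p : X → Y} (hp : MeasurePreserving p μ ν) (hp' : Measurable[m, m'] p) :
    AEM m μ (fun x => f (p x)) := by
  obtain ⟨f', hf', hff⟩ := hf
  exact ⟨fun x => f' (p x), hf'.comp hp', hp.quasiMeasurePreserving.ae_eq_comp hff⟩

theorem AEM.aesm {X : Type} (m : MeasurableSpace X) [mX : MeasurableSpace X] {μ : Measure X}
    (hm : m ≤ mX) {f : X → ℂ} (hf : AEM m μ f) : AEStronglyMeasurable f μ := by
  obtain ⟨f', hf', hff⟩ := hf
  exact (hf'.mono hm le_rfl).aestronglyMeasurable.congr hff.symm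

/-- unimodular measurable version -/
theorem AEM.unimodular {X : Type} {m : MeasurableSpace X} [MeasurableSpace X] {μ : Measure X}
    {f : X → ℂ} (hf : AEM m μ f) (h1 : ∀ᵐ x ∂μ, ‖f x‖ = 1) :
    ∃ g : X → ℂ, Measurable[m] g ∧ (∀ x, ‖g x‖ = 1) ∧ f =ᵐ[μ] g := by
  classical
  obtain ⟨f', hf', hff⟩ := hf
  have hφ : Measurable (fun z : ℂ => if ‖z‖ = 1 then z else 1) :=
    Measurable.ite (measurableSet_eq_fun measurable_norm measurable_const) measurable_id
      measurable_const
  refine ⟨fun x => (fun z : ℂ => if ‖z‖ = 1 then z else 1) (f' x), hφ.comp hf', fun x => ?_, ?_⟩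
  · show ‖if ‖f' x‖ = 1 then f' x else 1‖ = 1
    by_cases h : ‖f' x‖ = 1
    · rw [if_pos h, h]
    · rw [if_neg h, norm_one]
  · filter_upwards [hff, h1] with x h2 h3
    show f x = if ‖f' x‖ = 1 then f' x else 1
    rw [← h2, if_pos h3]

/-- bounded measurable version -/
theorem AEM.bounded {X : Type} {m : MeasurableSpace X} [MeasurableSpace X] {μ : Measure X}
    {f : X → ℂ} (hf : AEM m μ f) {C : ℝ} (hC : 0 ≤ C) (h1 : ∀ᵐ x ∂μ, ‖f x‖ ≤ C) :
    ∃ g : X → ℂ, Measurable[m] g ∧ (∀ x, ‖g x‖ ≤ C) ∧ f =ᵐ[μ] g := by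
  classical
  obtain ⟨f', hf', hff⟩ := hf
  have hφ : Measurable (fun z : ℂ => if ‖z‖ ≤ C then z else 0) :=
    Measurable.ite (measurableSet_le measurable_norm measurable_const) measurable_id
      measurable_const
  refine ⟨fun x => (fun z : ℂ => if ‖z‖ ≤ C then z else 0) (f' x), hφ.comp hf', fun x => ?_, ?_⟩
  · show ‖if ‖f' x‖ ≤ C then f' x else 0‖ ≤ C
    by_cases h : ‖f' x‖ ≤ C
    · rw [if_pos h]
      exact h
    · rw [if_neg h, norm_zero]
      exact hC
  · filter_upwards [hff, h1] with x h2 h3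
    show f x = if ‖f' x‖ ≤ C then f' x else 0
    rw [← h2, if_pos h3]

theorem AEM.aesm_sub {X : Type} {m : MeasurableSpace X} [MeasurableSpace X] {μ : Measure X}
    {f : X → ℂ} (hf : AEM m μ f) : AEStronglyMeasurable[m] f μ := by
  obtain ⟨f', hf', hff⟩ := hf
  exact ⟨f', hf'.stronglyMeasurable, hff⟩

theorem aem_condExp {X : Type} (m : MeasurableSpace X) [MeasurableSpace X]
    (μ : Measure X) (f : X → ℂ) : AEM m μ (μ[f | m]) :=
  ⟨μ[f | m], stronglyMeasurable_condExp.measurable, ae_eq_rfl⟩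

theorem aem_iff_condExp {X : Type} (m : MeasurableSpace X) [mX : MeasurableSpace X]
    (μ : Measure X) [IsProbabilityMeasure μ] (hm : m ≤ mX) {f : X → ℂ} (hf : BM f) :
    AEM m μ f ↔ μ[f | m] =ᵐ[μ] f := by
  constructor
  · intro h
    exact condExp_of_aestronglyMeasurable' hm h.aesm_sub (hf.integrable μ)
  · intro h
    exact (aem_condExp m μ f).congr h

theorem bas_int_sq {X : Type} [MeasurableSpace X] {f : X → ℂ} (hf : BM f) (μ : Measure X)
    [IsProbabilityMeasure μ] : Integrable (fun x => ‖f x‖ ^ 2) μ := by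
  obtain ⟨h1, C, hC⟩ := hf
  refine Integrable.of_bound (h1.norm.pow_const 2).aestronglyMeasurable (C ^ 2)
    (Eventually.of_forall fun x => ?_)
  rw [Real.norm_of_nonneg (by positivity)]
  exact pow_le_pow_left₀ (norm_nonneg _) (hC x) 2

/-- `E[f|m]` is the best approximation: if `g` is `AEM m` then
`∫ ‖f - E[f|m]‖² ≤ ∫ ‖f - g‖²`. -/
theorem condExp_best {X : Type} (m : MeasurableSpace X) [mX : MeasurableSpace X]
    (μ : Measure X) [IsProbabilityMeasure μ] (hm : m ≤ mX) {f g : X → ℂ} (hf : BM f) (hg : BM g)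
    (hg' : AEM m μ g) :
    ∫ x, ‖f x - (μ[f | m]) x‖ ^ 2 ∂μ ≤ ∫ x, ‖f x - g x‖ ^ 2 ∂μ := by
  obtain ⟨hf1, C, hC⟩ := hf
  have hf : BM f := ⟨hf1, C, hC⟩
  obtain ⟨h, hhm, hhC, hh⟩ := exists_bms_condExp m μ hm hf1 hC
  have hhB : BMs m h := ⟨hhm, C, hhC⟩
  obtain ⟨hg1, D, hD⟩ := hg
  obtain ⟨g', hgm, hgD, hgg⟩ := hg'.bounded (C := |D|) (abs_nonneg D)
    (Eventually.of_forall fun x => (hD x).trans (le_abs_self D))
  have hgB : BMs m g' := ⟨hgm, |D|, hgD⟩
  have hkB : BMs m (fun x => conj (h x - g' x)) := (hhB.sub hgB).conj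
  have e1 : ∫ x, ‖f x - (μ[f | m]) x‖ ^ 2 ∂μ = ∫ x, ‖f x - h x‖ ^ 2 ∂μ := by
    refine integral_congr_ae ?_
    filter_upwards [hh] with x hx
    rw [hx]
  have e2 : ∫ x, ‖f x - g x‖ ^ 2 ∂μ = ∫ x, ‖f x - g' x‖ ^ 2 ∂μ := by
    refine integral_congr_ae ?_
    filter_upwards [hgg] with x hx
    rw [hx]
  have hhB' : BM h := hhB.mono hm
  have hgB' : BM g' := hgB.mono hm
  have hkB' : BM (fun x => conj (h x - g' x)) := hkB.mono hm
  have e3 : ∫ x, conj (h x - g' x) * (f x - h x) ∂μ = 0 := by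
    have h1 := integral_mul_condExp m μ hm hf hkB
    have h2 : ∫ x, conj (h x - g' x) * (μ[f | m]) x ∂μ = ∫ x, conj (h x - g' x) * h x ∂μ := by
      refine integral_congr_ae ?_
      filter_upwards [hh] with x hx
      rw [hx]
    rw [h2] at h1
    have h3 : ∀ x, conj (h x - g' x) * (f x - h x) =
        conj (h x - g' x) * f x - conj (h x - g' x) * h x := fun x => by ring
    simp only [h3]
    rw [integral_sub (BM.integrable (BMs.mul hkB' hf) μ) (BM.integrable (BMs.mul hkB' hhB') μ),
      h1, sub_self]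
  have hint1 : Integrable (fun x => ‖f x - h x‖ ^ 2) μ := bas_int_sq (BMs.sub hf hhB') μ
  have hint2 : Integrable (fun x => conj (h x - g' x) * (f x - h x)) μ :=
    BM.integrable (BMs.mul hkB' (BMs.sub hf hhB')) μ
  have hint3 : Integrable (fun x => 2 * (conj (h x - g' x) * (f x - h x)).re) μ :=
    hint2.re.const_mul 2
  have e4 : ∫ x, (‖f x - h x‖ ^ 2 + 2 * (conj (h x - g' x) * (f x - h x)).re) ∂μ =
      ∫ x, ‖f x - h x‖ ^ 2 ∂μ := by
    rw [integral_add hint1 hint3, integral_const_mul]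
    have h1 : ∫ x, (conj (h x - g' x) * (f x - h x)).re ∂μ = 0 := by
      have h2 := integral_re hint2
      have h3 : ∫ x, (conj (h x - g' x) * (f x - h x)).re ∂μ =
          (∫ x, conj (h x - g' x) * (f x - h x) ∂μ).re := h2
      rw [h3, e3, Complex.zero_re]
    rw [h1, mul_zero, add_zero]
  rw [e1, e2, ← e4]
  refine integral_mono (hint1.add hint3) (bas_int_sq (BMs.sub hf hgB') μ) fun x => ?_
  show ‖f x - h x‖ ^ 2 + 2 * (conj (h x - g' x) * (f x - h x)).re ≤ ‖f x - g' x‖ ^ 2
  have h1 : f x - g' x = (f x - h x) + (h x - g' x) := by ring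
  rw [h1, ← Complex.normSq_eq_norm_sq, ← Complex.normSq_eq_norm_sq, Complex.normSq_add]
  have h2 := Complex.normSq_nonneg (h x - g' x)
  have h3 : (conj (h x - g' x) * (f x - h x)).re = ((f x - h x) * conj (h x - g' x)).re := by
    rw [mul_comm]
  rw [h3]
  linarith

/-- The limit in `L²` of almost everywhere `m`-measurable functions is almost everywhere
`m`-measurable. Proof: a subsequence converges almost everywhere (the sum of the integrals of
`‖f - g n_j‖ ^ 2` is finite), take the limsup/limit of the `m`-measurable versions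
(`measurable_limit_of_tendsto_metrizable_ae` or `‖f - μ[f|m]‖₂ ≤ ‖f - g n‖₂`). -/
theorem aem_of_approx {X : Type} (m : MeasurableSpace X) [mX : MeasurableSpace X]
    (μ : Measure X) [IsProbabilityMeasure μ] (hm : m ≤ mX) {f : X → ℂ} (hf : BM f)
    (H : ∀ ε > 0, ∃ g, BM g ∧ AEM m μ g ∧ ∫ x, ‖f x - g x‖ ^ 2 ∂μ < ε) : AEM m μ f := by
  obtain ⟨hf1, C, hC⟩ := hf
  have hf : BM f := ⟨hf1, C, hC⟩
  obtain ⟨h, hhm, hhC, hh⟩ := exists_bms_condExp m μ hm hf1 hC
  have hhB : BMs m h := ⟨hhm, C, hhC⟩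
  have hhB' : BM h := hhB.mono hm
  have h0 : ∫ x, ‖f x - h x‖ ^ 2 ∂μ = 0 := by
    refine le_antisymm ?_ (integral_nonneg fun x => by positivity)
    refine le_of_forall_pos_lt_add fun ε hε => ?_
    obtain ⟨g, hg, hg', hlt⟩ := H ε hε
    have h1 := condExp_best m μ hm hf hg hg'
    have e1 : ∫ x, ‖f x - (μ[f | m]) x‖ ^ 2 ∂μ = ∫ x, ‖f x - h x‖ ^ 2 ∂μ := by
      refine integral_congr_ae ?_
      filter_upwards [hh] with x hx
      rw [hx]
    rw [e1] at h1
    linarith
  have h1 := (integral_eq_zero_iff_of_nonneg (fun x => by positivity)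
    (bas_int_sq (BMs.sub hf hhB') μ)).1 h0
  refine ⟨h, hhm, ?_⟩
  filter_upwards [h1] with x hx
  have h2 : ‖f x - h x‖ ^ 2 = 0 := hx
  exact sub_eq_zero.1 (norm_eq_zero.1 (pow_eq_zero_iff (two_ne_zero) |>.1 h2))

/-- sets: if a measurable set is a.e. equal to an `m`-measurable function's indicator -/
theorem condExp_comp_equiv {X Y : Type} (m : MeasurableSpace X) (m' : MeasurableSpace Y)
    [mX : MeasurableSpace X] [mY : MeasurableSpace Y] {μ : Measure X} [IsProbabilityMeasure μ]
    {ν : Measure Y} [IsProbabilityMeasure ν] (hm : m ≤ mX) (hm' : m' ≤ mY) (e : X ≃ᵐ Y)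
    (he : MeasurePreserving e μ ν) (h1 : Measurable[m, m'] e) (h2 : Measurable[m', m] e.symm)
    {f : Y → ℂ} (hf : BM f) :
    μ[fun x => f (e x) | m] =ᵐ[μ] fun x => (ν[f | m']) (e x) := by
  obtain ⟨hf1, C, hC⟩ := hf
  have hf : BM f := ⟨hf1, C, hC⟩
  obtain ⟨h, hhm, hhC, hh⟩ := exists_bms_condExp m' ν hm' hf1 hC
  have hhB : BMs m' h := ⟨hhm, C, hhC⟩
  have hfe : BM (fun x => f (e x)) := ⟨hf1.comp e.measurable, C, fun x => hC (e x)⟩
  have hhe : BMs m (fun x => h (e x)) := hhB.comp h1
  have key : μ[fun x => f (e x) | m] =ᵐ[μ] fun x => h (e x) := by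
    refine condExp_eq_of_forall m μ hm hfe hhe ?_
    intro g hg
    have hgs : BMs m' (fun y => g (e.symm y)) := hg.comp h2
    have e1 := integral_mul_condExp m' ν hm' hf hgs
    have e2 : ∫ y, g (e.symm y) * (ν[f | m']) y ∂ν = ∫ y, g (e.symm y) * h y ∂ν := by
      refine integral_congr_ae ?_
      filter_upwards [hh] with y hy
      rw [hy]
    rw [e2] at e1
    have e3 := he.integral_comp' (fun y => g (e.symm y) * f y)
    have e4 := he.integral_comp' (fun y => g (e.symm y) * h y)
    simp only [MeasurableEquiv.symm_apply_apply] at e3 e4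
    rw [e3, e4, e1]
  refine key.trans ?_
  exact he.quasiMeasurePreserving.ae_eq_comp hh.symm

end Pool.Agent.HK820

end
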