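import Pool.Agent.Lib_MP_820dd4_hk.Ker2
import Pool.Agent.Lib_MP_820dd4_hk.Gen
open MeasureTheory ProbabilityTheory Filter Topology
open scoped ComplexConjugate ENNReal
namespace Pool.Agent.HK820

theorem hs_eigvec {H : Type*} [NormedAddCommGroup H] [InnerProductSpace ℂ H] [CompleteSpace H]
    (A : H →L[ℂ] H) (hA : IsCompactOperator A) 
    (U : H →ₗᵢ[ℂ] H) (hUA : ∀ v, A (U v) = U (A v)) (Φ : H) (r : ℂ) (hr : r ≠ 0)
    (hcon : ∀ (e : H) (c : ℂ), e ≠ 0 → U e = c • e → inner ℂ Φ e = 0) :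
    ∀ v ∈ Module.End.eigenspace (A : H →ₗ[ℂ] H) r, inner ℂ Φ v = 0 := by
  classical
  have hfin := ContinuousLinearMap.finite_dimensional_eigenspace hA r hr
  set E := Module.End.eigenspace (A : H →ₗ[ℂ] H) r with hE
  obtain ⟨y, hy, z, hz, hyz⟩ := Submodule.exists_add_mem_mem_orthogonal (K := E) Φ
  let N : Submodule ℂ H :=
    { carrier := {w | w ∈ E ∧ ∀ e ∈ E, ∀ c : ℂ, U e = c • e → inner ℂ w e = 0}
      add_mem' := by
        rintro a b ⟨ha, ha'⟩ ⟨hb, hb'⟩
        refine ⟨E.add_mem ha hb, fun e he c hc => ?_⟩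
        rw [inner_add_left, ha' e he c hc, hb' e he c hc, add_zero]
      zero_mem' := ⟨E.zero_mem, fun e _ c _ => inner_zero_left e⟩
      smul_mem' := by
        rintro t a ⟨ha, ha'⟩
        refine ⟨E.smul_mem t ha, fun e he c hc => ?_⟩
        rw [inner_smul_left, ha' e he c hc, mul_zero] }
  have hNE : N ≤ E := fun w hw => hw.1
  have hNU : ∀ w ∈ N, U.toLinearMap w ∈ N := by
    rintro w ⟨hw, hw'⟩
    refine ⟨?_, fun e he c hc => ?_⟩
    · rw [hE, Module.End.mem_eigenspace_iff] at hw ⊢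
      change A (U w) = r • (U w)
      have hw2 : A w = r • w := hw
      rw [hUA, hw2, map_smul]
    · by_cases he0 : e = 0
      · rw [he0, inner_zero_right]
      · have hc0 : c ≠ 0 := by
          rintro rfl
          rw [zero_smul] at hc
          exact he0 (U.injective (hc.trans U.map_zero.symm))
        have h1 : c * inner ℂ (U w) e = 0 := by
          rw [← inner_smul_right, ← hc, U.inner_map_map, hw' e he c hc]
        exact (mul_eq_zero.mp h1).resolve_left hc0
  have hN : N = ⊥ := by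
    by_contra hN
    have hnt : Nontrivial N := (Submodule.nontrivial_iff_ne_bot).mpr hN
    have hfN : FiniteDimensional ℂ N := Submodule.finiteDimensional_of_le hNE
    obtain ⟨c, hc⟩ := Module.End.exists_eigenvalue (U.toLinearMap.restrict hNU)
    obtain ⟨e, he⟩ := hc.exists_hasEigenvector
    have he2 : e ≠ 0 := he.2
    have he1 : U (e : H) = c • (e : H) := by
      have := he.apply_eq_smul
      have := congrArg Subtype.val this
      simpa using this
    have h3 := e.2.2 e (hNE e.2) c he1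
    rw [inner_self_eq_zero] at h3
    exact he2 (by ext; simpa using h3)
  have hyN : y ∈ N := by
    refine ⟨hy, fun e he c hc => ?_⟩
    by_cases he0 : e = 0
    · rw [he0, inner_zero_right]
    · have h1 := hcon e c he0 hc
      rw [hyz, inner_add_left, Submodule.inner_left_of_mem_orthogonal he hz, add_zero] at h1
      exact h1
  rw [hN, Submodule.mem_bot] at hyN
  intro v hv
  rw [hyz, hyN, zero_add]
  exact Submodule.inner_left_of_mem_orthogonal hv hz

theorem hs_abstract {H : Type*} [NormedAddCommGroup H] [InnerProductSpace ℂ H] [CompleteSpace H]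
    (A : H →L[ℂ] H) (hA : IsCompactOperator A) (hA' : (A : H →ₗ[ℂ] H).IsSymmetric)
    (U : H →ₗᵢ[ℂ] H) (hUA : ∀ v, A (U v) = U (A v)) (Φ F : H) (h : inner ℂ Φ (A F) ≠ 0) :
    ∃ (e : H) (c : ℂ), e ≠ 0 ∧ U e = c • e ∧ inner ℂ Φ e ≠ 0 := by
  by_contra hcon
  push Not at hcon
  apply h
  have h0 : A Φ = 0 := by
    have h1 := ContinuousLinearMap.orthogonalComplement_iSup_eigenspaces_eq_bot hA hA'
    rw [← Submodule.mem_bot ℂ, ← h1, Submodule.mem_orthogonal']
    intro u hu
    induction hu using Submodule.iSup_induction' with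
    | mem r v hv =>
      have hv' : A v = r • v := by
        have := Module.End.mem_eigenspace_iff.mp hv
        exact this
      have h2 : inner ℂ (A Φ) v = inner ℂ Φ (A v) := hA' Φ v
      rw [h2, hv', inner_smul_right]
      by_cases hr : r = 0
      · rw [hr, zero_mul]
      · rw [hs_eigvec A hA U hUA Φ r hr hcon v hv, mul_zero]
    | zero => exact inner_zero_right _
    | add x y _ _ hx hy => rw [inner_add_right, hx, hy, add_zero]
  have h2 : inner ℂ (A Φ) F = inner ℂ Φ (A F) := hA' Φ F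
  rw [← h2, h0, inner_zero_left]


theorem hs_norm_sq {P : Type} [MeasurableSpace P] (ν : Measure P) (f : Lp ℂ 2 ν) : ‖f‖ ^ 2 = ∫ x, ‖f x‖ ^ 2 ∂ν := by
  have h := inner_self_eq_norm_sq (𝕜 := ℂ) f
  rw [L2.inner_def] at h
  have h2 : (∫ a, inner ℂ (f a) (f a) ∂ν) = ((∫ a, ‖f a‖ ^ 2 ∂ν : ℝ) : ℂ) := by
    rw [← integral_complex_ofReal]
    refine integral_congr_ae (Eventually.of_forall fun a => ?_)
    simp only [inner_self_eq_norm_sq_to_K]
    push_cast
    rfl
  rw [h2] at h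
  rw [← h]
  rfl

section kernel
variable {P : Type} [MeasurableSpace P] (ν : Measure P) [IsProbabilityMeasure ν]

theorem hs_memLp_two {g : P → ℂ} (hg : AEStronglyMeasurable g ν) {C : ℝ} (hC : ∀ x, ‖g x‖ ≤ C) :
    MemLp g 2 ν := MemLp.of_bound hg C (Eventually.of_forall hC)

theorem hs_f_int (f : Lp ℂ 2 ν) : Integrable f ν := (Lp.memLp f).integrable (by norm_num)

theorem hs_cs {g : P → ℂ} (hg : AEStronglyMeasurable g ν) {C : ℝ} (hC : ∀ x, ‖g x‖ ≤ C)
    (f : Lp ℂ 2 ν) : ‖∫ y, g y * f y ∂ν‖ ^ 2 ≤ (∫ y, ‖g y‖ ^ 2 ∂ν) * ‖f‖ ^ 2 := by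
  have hg2 : MemLp (fun y => conj (g y)) 2 ν :=
    hs_memLp_two ν (Complex.continuous_conj.comp_aestronglyMeasurable hg) (C := C) 
      (fun x => by rw [RCLike.norm_conj]; exact hC x)
  have h1 : ∫ y, g y * f y ∂ν = inner ℂ (hg2.toLp _) f := by
    rw [L2.inner_def]
    refine integral_congr_ae ?_
    filter_upwards [hg2.coeFn_toLp] with y hy
    rw [hy]
    simp [mul_comm]
  rw [h1]
  have h2 : ‖hg2.toLp _‖ ^ 2 = ∫ y, ‖g y‖ ^ 2 ∂ν := by
    rw [hs_norm_sq]
    refine integral_congr_ae ?_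
    filter_upwards [hg2.coeFn_toLp] with y hy
    rw [hy, RCLike.norm_conj]
  rw [← h2, ← mul_pow]
  exact pow_le_pow_left₀ (norm_nonneg _) (norm_inner_le_norm _ _) 2

/-- the integral operator on functions -/
noncomputable def kfun (W : P × P → ℂ) (f : P → ℂ) (x : P) : ℂ := ∫ y, W (x, y) * f y ∂ν

variable {W : P × P → ℂ}

theorem kfun_sm (hW : Measurable W) (f : Lp ℂ 2 ν) : StronglyMeasurable (kfun ν W f) := by
  refine StronglyMeasurable.integral_prod_right' (f := fun z : P × P => W z * f z.2) ?_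
  exact hW.stronglyMeasurable.mul ((Lp.stronglyMeasurable f).comp_measurable measurable_snd)

theorem kfun_sq (hW : Measurable W) {C : ℝ} (hC : ∀ z, ‖W z‖ ≤ C) (f : Lp ℂ 2 ν) (x : P) :
    ‖kfun ν W f x‖ ^ 2 ≤ (∫ y, ‖W (x, y)‖ ^ 2 ∂ν) * ‖f‖ ^ 2 :=
  hs_cs ν (hW.comp measurable_prodMk_left).aestronglyMeasurable (fun y => hC _) f

theorem kfun_memLp (hW : Measurable W) {C : ℝ} (hC : ∀ z, ‖W z‖ ≤ C) (f : Lp ℂ 2 ν) :
    MemLp (kfun ν W f) 2 ν := by
  refine hs_memLp_two ν (kfun_sm ν hW f).aestronglyMeasurable (C := C * ‖f‖) fun x => ?_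
  have hC0 : 0 ≤ C := (norm_nonneg _).trans (hC (x, x))
  have h1 := kfun_sq ν hW hC f x
  have h2 : (∫ y, ‖W (x, y)‖ ^ 2 ∂ν) ≤ C ^ 2 := by
    have h3 : (∫ y, ‖W (x, y)‖ ^ 2 ∂ν) ≤ ∫ _y, C ^ 2 ∂ν := by
      refine integral_mono_of_nonneg (Eventually.of_forall fun _ => by positivity)
        (integrable_const _) (Eventually.of_forall fun y => ?_)
      exact pow_le_pow_left₀ (norm_nonneg _) (hC _) 2
    simpa using h3
  refine le_of_sq_le_sq ?_ (by positivity)
  rw [mul_pow]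
  exact h1.trans (mul_le_mul_of_nonneg_right h2 (by positivity))

theorem kfun_int (hW : Measurable W) {C : ℝ} (hC : ∀ z, ‖W z‖ ≤ C) (f : Lp ℂ 2 ν) (x : P) :
    Integrable (fun y => W (x, y) * f y) ν := by
  refine (hs_f_int ν f).bdd_mul (hW.comp measurable_prodMk_left).aestronglyMeasurable (c := C) 
    (Eventually.of_forall fun y => hC _)

theorem kfun_norm_sq (hW : Measurable W) {C : ℝ} (hC : ∀ z, ‖W z‖ ≤ C) (f : Lp ℂ 2 ν) :
    ‖(kfun_memLp ν hW hC f).toLp _‖ ^ 2 ≤ (∫ z, ‖W z‖ ^ 2 ∂(ν.prod ν)) * ‖f‖ ^ 2 := by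
  rw [hs_norm_sq]
  have h1 : ∫ x, ‖(kfun_memLp ν hW hC f).toLp _ x‖ ^ 2 ∂ν = ∫ x, ‖kfun ν W f x‖ ^ 2 ∂ν := by
    refine integral_congr_ae ?_
    filter_upwards [(kfun_memLp ν hW hC f).coeFn_toLp] with y hy
    rw [hy]
  rw [h1]
  have hint : Integrable (fun z => ‖W z‖ ^ 2) (ν.prod ν) := by
    refine Integrable.of_bound (hW.norm.pow_const 2).aestronglyMeasurable (C ^ 2) 
      (Eventually.of_forall fun z => ?_)
    rw [Real.norm_of_nonneg (by positivity)]
    exact pow_le_pow_left₀ (norm_nonneg _) (hC _) 2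
  rw [integral_prod _ hint, ← integral_mul_const]
  refine integral_mono_of_nonneg (Eventually.of_forall fun y => by positivity)
    (hint.integral_prod_left.mul_const _) (Eventually.of_forall fun y => ?_)
  exact kfun_sq ν hW hC f y

/-- the integral operator on `L²` -/
noncomputable def kop (hW : Measurable W) {C : ℝ} (hC : ∀ z, ‖W z‖ ≤ C) :
    Lp ℂ 2 ν →L[ℂ] Lp ℂ 2 ν :=
  LinearMap.mkContinuous
    { toFun := fun f => (kfun_memLp ν hW hC f).toLp (kfun ν W f)
      map_add' := by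
        intro f g
        rw [← MemLp.toLp_add]
        congr 1
        funext x
        simp only [kfun, Pi.add_apply]
        rw [← integral_add (kfun_int ν hW hC f x) (kfun_int ν hW hC g x)]
        refine integral_congr_ae ?_
        filter_upwards [Lp.coeFn_add f g] with y hy
        rw [hy, Pi.add_apply, mul_add]
      map_smul' := by
        intro t f
        rw [RingHom.id_apply, ← MemLp.toLp_const_smul]
        congr 1
        funext x
        simp only [kfun, Pi.smul_apply, smul_eq_mul]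
        rw [← integral_const_mul]
        refine integral_congr_ae ?_
        filter_upwards [Lp.coeFn_smul t f] with y hy
        rw [hy, Pi.smul_apply, smul_eq_mul]
        ring }
    (Real.sqrt (∫ z, ‖W z‖ ^ 2 ∂(ν.prod ν)))
    (by
      intro f
      have h := kfun_norm_sq ν hW hC f
      have h0 : 0 ≤ ∫ z, ‖W z‖ ^ 2 ∂(ν.prod ν) := integral_nonneg fun z => by positivity
      refine le_of_sq_le_sq ?_ (by positivity)
      rw [mul_pow, Real.sq_sqrt h0]
      exact h)

theorem kop_apply (hW : Measurable W) {C : ℝ} (hC : ∀ z, ‖W z‖ ≤ C) (f : Lp ℂ 2 ν) :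
    kop ν hW hC f = (kfun_memLp ν hW hC f).toLp (kfun ν W f) := rfl

theorem kop_coe (hW : Measurable W) {C : ℝ} (hC : ∀ z, ‖W z‖ ≤ C) (f : Lp ℂ 2 ν) :
    kop ν hW hC f =ᵐ[ν] kfun ν W f := (kfun_memLp ν hW hC f).coeFn_toLp

theorem kop_norm (hW : Measurable W) {C : ℝ} (hC : ∀ z, ‖W z‖ ≤ C) :
    ‖kop ν hW hC‖ ≤ Real.sqrt (∫ z, ‖W z‖ ^ 2 ∂(ν.prod ν)) :=
  LinearMap.mkContinuous_norm_le _ (Real.sqrt_nonneg _) _

theorem kop_sub {V : P × P → ℂ} (hW : Measurable W) {C : ℝ} (hC : ∀ z, ‖W z‖ ≤ C)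
    (hV : Measurable V) {D : ℝ} (hD : ∀ z, ‖V z‖ ≤ D)
    (h : Measurable (fun z => W z - V z)) {G : ℝ} (hG : ∀ z, ‖W z - V z‖ ≤ G) :
    kop ν hW hC - kop ν hV hD = kop ν h hG := by
  ext1 f
  rw [sub_apply, kop_apply, kop_apply, kop_apply, ← MemLp.toLp_sub]
  congr 1
  funext x
  simp only [kfun, Pi.sub_apply]
  rw [← integral_sub (kfun_int ν hW hC f x) (kfun_int ν hV hD f x)]
  simp only [sub_mul]

theorem hs_rank_one {H : Type*} [NormedAddCommGroup H] [InnerProductSpace ℂ H] [CompleteSpace H]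
    (c : H →L[ℂ] ℂ) (a : H) : IsCompactOperator (c.smulRight a) := by
  have h := (isCompactOperator_of_locallyCompactSpace_rng
    (ContinuousLinearMap.toSpanSingleton ℂ a)).comp_clm c
  exact h

theorem kop_compact_sum {n : ℕ} (g : Fin n → Fin 2 → P → ℂ) (hg : ∀ l i, BM (g l i))
    {V : P × P → ℂ} (hVg : ∀ z, V z = ∑ l, g l 0 z.1 * g l 1 z.2)
    (hV : Measurable V) {D : ℝ} (hD : ∀ z, ‖V z‖ ≤ D) : IsCompactOperator (kop ν hV hD) := by
  choose hgm hgC using hg
  choose C hC using hgC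
  have ha : ∀ l, MemLp (g l 0) 2 ν := fun l =>
    hs_memLp_two ν (hgm l 0).aestronglyMeasurable (hC l 0)
  have hb : ∀ l, MemLp (fun y => conj (g l 1 y)) 2 ν := fun l =>
    hs_memLp_two ν (Complex.continuous_conj.comp_aestronglyMeasurable
      (hgm l 1).aestronglyMeasurable) (C := C l 1)
      (fun x => by rw [RCLike.norm_conj]; exact hC l 1 x)
  have hsum : kop ν hV hD = ∑ l, (innerSL ℂ ((hb l).toLp _)).smulRight ((ha l).toLp _) := by
    ext1 f
    rw [sum_apply]
    simp only [ContinuousLinearMap.smulRight_apply, innerSL_apply_apply]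
    refine Lp.ext ?_
    have h1 : ∀ l, inner ℂ ((hb l).toLp _) f = ∫ y, g l 1 y * f y ∂ν := by
      intro l
      rw [L2.inner_def]
      refine integral_congr_ae ?_
      filter_upwards [(hb l).coeFn_toLp] with y hy
      rw [hy]
      simp [mul_comm]
    have h2 : ∀ l, Integrable (fun y => g l 1 y * f y) ν := fun l =>
      (hs_f_int ν f).bdd_mul (hgm l 1).aestronglyMeasurable (c := C l 1)
        (Eventually.of_forall fun y => hC l 1 y)
    have h3 : ∀ᵐ x ∂ν, ∀ l, (((ha l).toLp _ : Lp ℂ 2 ν) : P → ℂ) x = g l 0 x :=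
      ae_all_iff.mpr fun l => (ha l).coeFn_toLp
    have h4 : ∀ᵐ x ∂ν, ∀ l, ((inner ℂ ((hb l).toLp _) f • (ha l).toLp _ : Lp ℂ 2 ν) : P → ℂ) x
        = inner ℂ ((hb l).toLp _) f • (((ha l).toLp _ : Lp ℂ 2 ν) : P → ℂ) x :=
      ae_all_iff.mpr fun l => by
        filter_upwards [Lp.coeFn_smul (inner ℂ ((hb l).toLp _) f) ((ha l).toLp _)] with x hx
        rw [hx, Pi.smul_apply]
    filter_upwards [kop_coe ν hV hD f, h3, h4, Lp.coeFn_finsetSum Finset.univ
      (fun l => (inner ℂ ((hb l).toLp _) f • (ha l).toLp _ : Lp ℂ 2 ν))] with x e1 e3 e4 e5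
    rw [e1, e5, Finset.sum_apply, kfun]
    simp only [hVg, Finset.sum_mul]
    rw [integral_finsetSum _ (fun l _ => by
      have := (h2 l).const_mul (g l 0 x)
      simpa only [mul_assoc] using this)]
    refine Finset.sum_congr rfl fun l _ => ?_
    rw [e4 l, e3 l, h1 l, smul_eq_mul, mul_comm, ← integral_const_mul]
    refine integral_congr_ae (Eventually.of_forall fun y => ?_)
    ring
  rw [hsum]
  exact sum_mem (S := compactOperator (RingHom.id ℂ) (Lp ℂ 2 ν) (Lp ℂ 2 ν))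
    fun l _ => hs_rank_one _ _

theorem kop_compact (hW : Measurable W) {C : ℝ} (hC : ∀ z, ‖W z‖ ≤ C) :
    IsCompactOperator (kop ν hW hC) := by
  have hcl := isClosed_setOfPred_isCompactOperator (𝕜₁ := ℂ) (𝕜₂ := ℂ) (σ₁₂ := RingHom.id ℂ)
    (M₁ := Lp ℂ 2 ν) (M₂ := Lp ℂ 2 ν)
  have hmem : kop ν hW hC ∈ closure {f : Lp ℂ 2 ν →L[ℂ] Lp ℂ 2 ν | IsCompactOperator f} := by
    rw [Metric.mem_closure_iff]
    intro ε hε
    have hWf : BM (fun z : Fin 2 → P => W (z 0, z 1)) :=
      ⟨hW.comp ((measurable_pi_apply 0).prodMk (measurable_pi_apply 1)), C, fun z => hC _⟩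
    obtain ⟨n, g, hg, hgε⟩ := approx_prod (Measure.pi fun _ : Fin 2 => ν) hWf
      (ε := ε ^ 2) (by positivity)
    let V : P × P → ℂ := fun z => ∑ l, g l 0 z.1 * g l 1 z.2
    have hgm := fun l i => (hg l i).1
    choose D hD using fun l i => (hg l i).2
    have hV : Measurable V := by
      refine Finset.measurable_sum _ fun l _ => ?_
      exact ((hgm l 0).comp measurable_fst).mul ((hgm l 1).comp measurable_snd)
    have hVD : ∀ z, ‖V z‖ ≤ ∑ l, D l 0 * D l 1 := by
      intro z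
      refine (norm_sum_le _ _).trans (Finset.sum_le_sum fun l _ => ?_)
      rw [norm_mul]
      exact mul_le_mul (hD l 0 _) (hD l 1 _) (norm_nonneg _) ((norm_nonneg _).trans (hD l 0 z.1))
    have hsub : Measurable (fun z => W z - V z) := hW.sub hV
    have hsubC : ∀ z, ‖W z - V z‖ ≤ C + ∑ l, D l 0 * D l 1 := fun z =>
      (norm_sub_le _ _).trans (add_le_add (hC z) (hVD z))
    refine ⟨kop ν hV hVD, kop_compact_sum ν g hg (fun z => rfl) hV hVD, ?_⟩
    rw [dist_eq_norm, kop_sub ν hW hC hV hVD hsub hsubC]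
    refine (kop_norm ν hsub hsubC).trans_lt ?_
    rw [Real.sqrt_lt' hε]
    have hmp := measurePreserving_finTwoArrow ν
    rw [← hmp.integral_comp']
    refine lt_of_le_of_lt (le_of_eq ?_) hgε
    refine integral_congr_ae (Eventually.of_forall fun z => ?_)
    simp only [V, MeasurableEquiv.finTwoArrow_apply, Fin.prod_univ_two]
  rw [hcl.closure_eq] at hmem
  exact hmem

theorem kop_inner (hW : Measurable W) {C : ℝ} (hC : ∀ z, ‖W z‖ ≤ C) (f g : Lp ℂ 2 ν) :
    inner ℂ g (kop ν hW hC f) = ∫ z, W z * (conj (g z.1) * f z.2) ∂(ν.prod ν) := by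
  have hint : Integrable (fun z : P × P => W z * (conj (g z.1) * f z.2)) (ν.prod ν) := by
    refine Integrable.bdd_mul ?_ hW.aestronglyMeasurable (c := C) (Eventually.of_forall hC)
    have h1 : Integrable (fun x => conj (g x)) ν := by
      have := hs_f_int ν g
      refine this.congr' ?_ ?_
      · exact Complex.continuous_conj.comp_aestronglyMeasurable this.1
      · exact Eventually.of_forall fun x => by rw [RCLike.norm_conj]
    exact h1.mul_prod (hs_f_int ν f)
  rw [integral_prod _ hint, L2.inner_def]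
  refine integral_congr_ae ?_
  filter_upwards [kop_coe ν hW hC f] with x hx
  rw [hx, RCLike.inner_apply, kfun, ← integral_mul_const]
  refine integral_congr_ae (Eventually.of_forall fun y => ?_)
  simp only
  ring

theorem kop_symm (hW : Measurable W) {C : ℝ} (hC : ∀ z, ‖W z‖ ≤ C)
    (hW' : ∀ᵐ z ∂(ν.prod ν), W z.swap = conj (W z)) :
    (kop ν hW hC : Lp ℂ 2 ν →ₗ[ℂ] Lp ℂ 2 ν).IsSymmetric := by
  intro f g
  change inner ℂ (kop ν hW hC f) g = inner ℂ f (kop ν hW hC g)
  rw [← inner_conj_symm, kop_inner, kop_inner, ← integral_conj, ← integral_prod_swap]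
  refine integral_congr_ae ?_
  have hsw : ∀ᵐ z ∂(ν.prod ν), W z = conj (W z.swap) := by
    filter_upwards [hW'] with z hz
    rw [hz, Complex.conj_conj]
  filter_upwards [hsw] with z hz
  rw [map_mul, map_mul, Complex.conj_conj, ← hz]
  simp only [Prod.fst_swap, Prod.snd_swap]
  ring

theorem kop_comm (hW : Measurable W) {C : ℝ} (hC : ∀ z, ‖W z‖ ≤ C) (S : P ≃ᵐ P)
    (hS : MeasurePreserving S ν ν) (hWS : ∀ᵐ z ∂(ν.prod ν), W (S z.1, S z.2) = W z)
    (f : Lp ℂ 2 ν) :
    kop ν hW hC (Lp.compMeasurePreservingₗᵢ ℂ S hS f) =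
      Lp.compMeasurePreservingₗᵢ ℂ S hS (kop ν hW hC f) := by
  refine Lp.ext ?_
  have h1 := kop_coe ν hW hC (Lp.compMeasurePreservingₗᵢ ℂ S hS f)
  have h2 : (Lp.compMeasurePreservingₗᵢ ℂ S hS (kop ν hW hC f) : P → ℂ) =ᵐ[ν]
      (kop ν hW hC f : P → ℂ) ∘ S := Lp.coeFn_compMeasurePreserving _ hS
  have h3 : (Lp.compMeasurePreservingₗᵢ ℂ S hS f : P → ℂ) =ᵐ[ν] (f : P → ℂ) ∘ S :=
    Lp.coeFn_compMeasurePreserving _ hS
  have h4 := hS.quasiMeasurePreserving.ae_eq_comp (kop_coe ν hW hC f)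
  have h5 := Measure.ae_ae_of_ae_prod hWS
  filter_upwards [h1, h2, h4, h5] with x e1 e2 e4 e5
  rw [e1, e2, e4, Function.comp_apply, kfun, kfun,
    ← hS.integral_comp' (g := fun y => W (S x, y) * f y)]
  refine integral_congr_ae ?_
  filter_upwards [h3, e5] with y a1 a2
  rw [a1, Function.comp_apply, ← a2]

end kernel

/-- **HS.** An invariant hermitian kernel which does not kill `F` against `Φ` produces an
eigenfunction.

Proof. Work in `H = Lp ℂ 2 ν`. The operator `A f x = ∫ W x y f y ∂ν` is bounded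
(`|A f x| ≤ C ‖f‖₁ ≤ C ‖f‖₂`), selfadjoint (`hW'`), compact (it is a limit in operator norm of
finite rank operators, because `W` is approximated in `L²(ν × ν)` by finite sums `∑ a_l(x) b_l(y)`,
`approx_iSup` or `approx_prod`, and `‖A‖ ≤ ‖W‖_{L²(ν × ν)}`; alternatively: the image of the unit
ball is totally bounded). The Koopman operator `U` (a unitary, `S` is an invertible measure
preserving map) commutes with `A` (`hWS`, change of variables). The hypothesis says
`⟪conj Φ, A F⟫ ≠ 0`. By the spectral theorem for compact selfadjoint operators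
(`ContinuousLinearMap.orthogonalComplement_iSup_eigenspaces_eq_bot`, and the eigenspaces of nonzero
eigenvalues are finite dimensional) `A F` lies in the closed span of the eigenspaces of nonzero
eigenvalues (`A` maps the eigenspace of `0` to `0`), so some element `e` of an eigenspace `E_r`,
`r ≠ 0`, satisfies `⟪conj Φ, e⟫ ≠ 0`. `U` maps the finite dimensional space `E_r` onto itself
isometrically, so `E_r` is spanned by eigenvectors of `U` (a finite dimensional complex unitary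
operator is diagonalisable: `LinearMap.IsSymmetric` for `U + U*` and `i(U - U*)`, or
`Module.End` with `IsSemisimple`/`exists_eigenvalue` and induction on the orthogonal complement).
So some eigenvector `e` of `U` has `⟪conj Φ, e⟫ ≠ 0`; `|e| ∘ S = |e|`, so `|e|` is a.e. equal to a
constant `> 0` by ergodicity; normalise and choose a measurable everywhere unimodular version. -/
theorem exists_eigenfunction {P : Type} [MeasurableSpace P] (ν : Measure P)
    [IsProbabilityMeasure ν] (S : P ≃ᵐ P) (hS : Ergodic S ν) (W : P → P → ℂ)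
    (hW : BM (fun z : P × P => W z.1 z.2))
    (hW' : ∀ᵐ z ∂(ν.prod ν), W z.2 z.1 = conj (W z.1 z.2))
    (hWS : ∀ᵐ z ∂(ν.prod ν), W (S z.1) (S z.2) = W z.1 z.2) {Φ F : P → ℂ} (hΦ : BM Φ) (hF : BM F)
    (h : ∫ x, ∫ y, Φ x * W x y * F y ∂ν ∂ν ≠ 0) :
    ∃ (ψ : P → ℂ) (c : ℂ), Measurable ψ ∧ (∀ x, ‖ψ x‖ = 1) ∧ ‖c‖ = 1 ∧
      (∀ᵐ x ∂ν, ψ (S x) = c * ψ x) ∧ ∫ x, Φ x * ψ x ∂ν ≠ 0 := by
  classical
  obtain ⟨hWm, C, hC⟩ := hW
  obtain ⟨hΦm, C1, hC1⟩ := hΦ
  obtain ⟨hFm, C2, hC2⟩ := hF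
  set V : P × P → ℂ := fun z => W z.1 z.2 with hV
  have hVC : ∀ z, ‖V z‖ ≤ C := hC
  have hΦ2 : MemLp (fun x => conj (Φ x)) 2 ν :=
    hs_memLp_two ν (Complex.continuous_conj.comp_aestronglyMeasurable hΦm.aestronglyMeasurable)
      (C := C1) (fun x => by rw [RCLike.norm_conj]; exact hC1 x)
  have hF2 : MemLp F 2 ν := hs_memLp_two ν hFm.aestronglyMeasurable hC2
  have hSm := hS.toMeasurePreserving
  have hne : inner ℂ (hΦ2.toLp _) (kop ν hWm hVC (hF2.toLp _)) ≠ 0 := by
    have he : inner ℂ (hΦ2.toLp _) (kop ν hWm hVC (hF2.toLp _)) =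
        ∫ x, ∫ y, Φ x * W x y * F y ∂ν ∂ν := by
      rw [L2.inner_def]
      refine integral_congr_ae ?_
      filter_upwards [kop_coe ν hWm hVC (hF2.toLp _), hΦ2.coeFn_toLp] with x e1 e2
      rw [e1, e2, RCLike.inner_apply, kfun, Complex.conj_conj, ← integral_mul_const]
      refine integral_congr_ae ?_
      filter_upwards [hF2.coeFn_toLp] with y hy
      rw [hy]
      ring
    rw [he]
    exact h
  obtain ⟨e, c, he0, hUe, hΦe⟩ := hs_abstract (kop ν hWm hVC) (kop_compact ν hWm hVC)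
    (kop_symm ν hWm hVC hW') (Lp.compMeasurePreservingₗᵢ ℂ S hSm)
    (fun f => kop_comm ν hWm hVC S hSm hWS f) (hΦ2.toLp _) (hF2.toLp _) hne
  -- the eigenfunction as a function
  have hc1 : ‖c‖ = 1 := by
    have h1 : ‖(Lp.compMeasurePreservingₗᵢ ℂ S hSm) e‖ = ‖e‖ :=
      LinearIsometry.norm_map _ e
    rw [hUe, norm_smul] at h1
    have h2 : ‖e‖ ≠ 0 := norm_ne_zero_iff.mpr he0
    exact mul_right_cancel₀ h2 (by rw [h1, one_mul])
  have heS : ∀ᵐ x ∂ν, e (S x) = c * e x := by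
    have h1 : (Lp.compMeasurePreservingₗᵢ ℂ S hSm e : P → ℂ) =ᵐ[ν] (e : P → ℂ) ∘ S :=
      Lp.coeFn_compMeasurePreserving _ hSm
    rw [hUe] at h1
    filter_upwards [h1, Lp.coeFn_smul c e] with x e1 e2
    have e3 : (e : P → ℂ) (S x) = ((e : P → ℂ) ∘ S) x := rfl
    rw [e3, ← e1, e2, Pi.smul_apply, smul_eq_mul]
  obtain ⟨κ, hκ⟩ : ∃ κ : ℝ, (fun x => ‖e x‖) =ᵐ[ν] Function.const P κ := by
    refine hS.ae_eq_const_of_ae_eq_comp_ae
      (Lp.stronglyMeasurable e).norm.aestronglyMeasurable ?_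
    filter_upwards [heS] with x hx
    rw [Function.comp_apply, hx, norm_mul, hc1, one_mul]
  have hκ0 : 0 ≤ κ := by
    obtain ⟨x, hx⟩ := hκ.exists
    rw [Function.const_apply] at hx
    rw [← hx]
    exact norm_nonneg _
  have hκpos : 0 < κ := by
    refine lt_of_le_of_ne hκ0 fun hκ' => he0 ?_
    refine Lp.ext ?_
    filter_upwards [hκ, Lp.coeFn_zero ℂ 2 ν] with x hx h0
    rw [h0, Pi.zero_apply]
    rw [Function.const_apply, ← hκ'] at hx
    exact norm_eq_zero.mp hx
  have hem : Measurable (e : P → ℂ) := (Lp.stronglyMeasurable e).measurable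
  refine ⟨fun x => if ‖e x‖ = κ then e x / κ else 1, c, ?_, ?_, hc1, ?_, ?_⟩
  · exact Measurable.ite (measurableSet_eq_fun hem.norm measurable_const)
      (hem.div_const _) measurable_const
  · intro x
    by_cases hx : ‖e x‖ = κ
    · simp only [hx, if_true, norm_div, Complex.norm_real, Real.norm_of_nonneg hκ0]
      exact div_self hκpos.ne'
    · simp [hx]
  · have h2 := hSm.quasiMeasurePreserving.ae hκ
    filter_upwards [heS, hκ, h2] with x e1 e2 e3
    rw [Function.const_apply] at e2 e3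
    rw [if_pos e2, if_pos e3, e1]
    ring
  · have h1 : ∫ x, Φ x * (if ‖e x‖ = κ then e x / κ else 1) ∂ν =
        (κ : ℂ)⁻¹ * inner ℂ (hΦ2.toLp _) e := by
      rw [L2.inner_def, ← integral_const_mul]
      refine integral_congr_ae ?_
      filter_upwards [hκ, hΦ2.coeFn_toLp] with x e1 e2
      rw [Function.const_apply] at e1
      rw [if_pos e1, e2, RCLike.inner_apply, Complex.conj_conj]
      ring
    rw [h1]
    exact mul_ne_zero (inv_ne_zero (Complex.ofReal_ne_zero.mpr hκpos.ne')) hΦe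

end Pool.Agent.HK820
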