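import Pool.Agent.Lib_MP_820dd4_hk.FA
import Pool.Agent.Lib_MP_820dd4_hk.BasE

/-! ### Part `FR` -/

section

open MeasureTheory ProbabilityTheory Filter Topology
open scoped ComplexConjugate ENNReal

namespace Pool.Agent.HK820

/-- composition of a measurable sequence of functions with a measurable index -/
private theorem FR_comp {Q : Type} [MeasurableSpace Q] (N : Q → ℕ) (hN : Measurable N)
    (F : ℕ → Q → ℂ) (hF : ∀ n, Measurable (F n)) : Measurable (fun q => F (N q) q) := by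
  have h1 : Measurable (fun p : Q × ℕ => F p.2 p.1) :=
    measurable_from_prod_countable_left (fun n => hF n)
  exact h1.comp (measurable_id.prodMk hN)

open Classical in
private theorem FR_ite {Q : Type} [MeasurableSpace Q] {E : Set Q} (hE : MeasurableSet E)
    (F : Q → ℂ) (hF : Measurable F) : Measurable (fun q => if q ∈ E then F q else 1) :=
  Measurable.ite hE hF measurable_const

private theorem FR_iter {Q : Type} [MeasurableSpace Q] (S : Q → Q) (hS : Measurable S) (n : ℕ) :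
    Measurable (S^[n]) := hS.iterate n

/-- the hitting time -/
private theorem FR_hit {Q : Type} [MeasurableSpace Q] (S : Q → Q) (hS : Measurable S) {E : Set Q}
    (hE : MeasurableSet E) : ∃ N : Q → ℕ, Measurable N ∧
      (∀ q, (∃ n, S^[n] q ∈ E) → S^[N q] q ∈ E) ∧ (∀ q, q ∈ E → N q = 0) ∧
      (∀ q, q ∉ E → (∃ n, S^[n] q ∈ E) → N q = N (S q) + 1) := by
  classical
  have hp : ∀ q, ∃ n, (S^[n] q ∈ E ∨ ∀ i, S^[i] q ∉ E) := by
    intro q
    by_cases h : ∃ n, S^[n] q ∈ E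
    · obtain ⟨n, hn⟩ := h
      exact ⟨n, Or.inl hn⟩
    · exact ⟨0, Or.inr fun i hi => h ⟨i, hi⟩⟩
  have hmk : ∀ k, MeasurableSet {q | S^[k] q ∈ E ∨ ∀ i, S^[i] q ∉ E} := by
    intro k
    have h1 : {q | S^[k] q ∈ E ∨ ∀ i, S^[i] q ∉ E} =
        (S^[k] ⁻¹' E) ∪ ⋂ i, (S^[i] ⁻¹' E)ᶜ := by
      ext q
      simp
    rw [h1]
    exact (FR_iter S hS k hE).union (MeasurableSet.iInter fun i => (FR_iter S hS i hE).compl)
  refine ⟨fun q => Nat.find (hp q), measurable_find hp hmk, ?_, ?_, ?_⟩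
  · rintro q ⟨n, hn⟩
    rcases Nat.find_spec (hp q) with h | h
    · exact h
    · exact absurd hn (h n)
  · intro q hq
    exact (Nat.find_eq_zero (hp q)).2 (Or.inl hq)
  · rintro q hq ⟨n, hn⟩
    have hn0 : n ≠ 0 := by
      rintro rfl
      exact hq hn
    obtain ⟨m, rfl⟩ := Nat.exists_eq_succ_of_ne_zero hn0
    have hm : S^[m] (S q) ∈ E := hn
    have h0 : ¬ ((S^[0] q) ∈ E ∨ ∀ i, S^[i] q ∉ E) := by
      rintro (h | h)
      · exact hq h
      · exact h _ hn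
    have hex : ∃ n, (S^[n+1] q ∈ E ∨ ∀ i, S^[i] q ∉ E) := ⟨m, Or.inl hn⟩
    have h2 := Nat.find_comp_succ (hp q) hex h0
    show Nat.find (hp q) = Nat.find (hp (S q)) + 1
    rw [h2]
    have h3 : Nat.find hex = Nat.find (hp (S q)) := by
      apply le_antisymm
      · refine Nat.find_min' hex ?_
        rcases Nat.find_spec (hp (S q)) with h | h
        · exact Or.inl h
        · exact absurd hm (h m)
      · refine Nat.find_min' (hp (S q)) ?_
        rcases Nat.find_spec hex with h | h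
        · exact Or.inl h
        · exact absurd hn (h _)
    rw [h3]

/-- **FR.** First return lemma: a unimodular function `u₀` on a set `E` of positive measure, whose
cocycles along returns to `E` are `y`-measurable, extends to a unimodular function on the whole
space whose cocycle is `y`-measurable.

Proof. By ergodicity almost every point visits `E` (the set `⋂_N ⋃_{n ≥ N} S^{-n} E` is invariant
and has positive measure by Poincaré recurrence, or use `Ergodic` with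
`⋃ n, S^{-n} E`, which is contained in its preimage...). Let `n q` be the least `n ≥ 0` with
`S^[n] q ∈ E` (`0` if there is none) and `u q = u₀ (S^[n q] q)` if this has norm `1`, else `1`. So
`u = u₀` on `E`. For almost every `q`: if `q ∉ E` then `n (S q) = n q - 1`, so `u (S q) = u q`. If
`q ∈ E` let `r ≥ 1` be the first return time, then `u (S q) = u₀ (S^[r] q)`. Hence
`u (S q) * conj (u q) = 1_{E^c} q + ∑_{r ≥ 1} 1_{first return time = r} q * (1_E q * 1_E (S^[r] q) *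
u₀ (S^[r] q) * conj (u₀ q))` almost everywhere; the sets `{first return time = r}` belong to `y`
because `y` is invariant and contains `E`; so it is `AEM y` (a countable sum with disjoint supports:
build the measurable version piecewise). -/
theorem first_return {Q : Type} (y : MeasurableSpace Q) [mQ : MeasurableSpace Q]
    (θ : Measure Q) [IsProbabilityMeasure θ] (S : Q ≃ᵐ Q) (hS : Ergodic S θ) (hy : y ≤ mQ)
    (hSy : TInv y S) {E : Set Q} (hE : MeasurableSet[y] E) (hE0 : θ E ≠ 0) {u₀ : Q → ℂ}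
    (hu : Measurable u₀) (h1 : ∀ q ∈ E, ‖u₀ q‖ = 1)
    (hc : ∀ n : ℕ, 0 < n → AEM y θ (fun q => E.indicator 1 q * E.indicator 1 (S^[n] q) *
      (u₀ (S^[n] q) * conj (u₀ q)))) :
    ∃ u : Q → ℂ, Measurable u ∧ (∀ q, ‖u q‖ = 1) ∧ (∀ q ∈ E, u q = u₀ q) ∧
      AEM y θ (fun q => u (S q) * conj (u q)) := by
  classical
  obtain ⟨N, hNm, hN1, hN2, hN3⟩ := @FR_hit Q y S hSy.1 E hE
  have hNm' : Measurable N := hNm.mono hy le_rfl
  have hφ : Measurable (fun z : ℂ => if ‖z‖ = 1 then z else 1) :=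
    Measurable.ite (measurableSet_eq_fun measurable_norm measurable_const) measurable_id
      measurable_const
  have hum : Measurable (fun q => u₀ (S^[N q] q)) :=
    FR_comp N hNm' (fun n q => u₀ (S^[n] q)) (fun n => hu.comp (FR_iter S S.measurable n))
  choose G hG1 hG2 using fun n : ℕ => hc (n + 1) (Nat.succ_pos n)
  -- almost every point visits `E`
  have hEm : MeasurableSet E := hy _ hE
  have hA : ∀ᵐ q ∂θ, ∃ n, S^[n] q ∈ E := by
    have hAm : MeasurableSet (⋃ n, S^[n] ⁻¹' E) :=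
      MeasurableSet.iUnion fun n => FR_iter S S.measurable n hEm
    have hsub : S ⁻¹' (⋃ n, S^[n] ⁻¹' E) ⊆ ⋃ n, S^[n] ⁻¹' E := by
      intro q hq
      obtain ⟨n, hn⟩ := Set.mem_iUnion.1 hq
      exact Set.mem_iUnion.2 ⟨n + 1, hn⟩
    rcases hS.ae_empty_or_univ_of_preimage_ae_le hAm.nullMeasurableSet
      (LE.le.eventuallyLE hsub) with h | h
    · exfalso
      apply hE0
      have h2 : θ (⋃ n, S^[n] ⁻¹' E) = 0 := by
        rw [measure_congr h, measure_empty]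
      exact measure_mono_null (fun q hq => Set.mem_iUnion.2 ⟨0, hq⟩) h2
    · filter_upwards [h] with q hq
      have hq' : q ∈ ⋃ n, S^[n] ⁻¹' E := by
        have : (⋃ n, S^[n] ⁻¹' E) q = Set.univ q := hq
        exact (iff_of_eq this).2 trivial
      obtain ⟨n, hn⟩ := Set.mem_iUnion.1 hq'
      exact ⟨n, hn⟩
  have hA' : ∀ᵐ q ∂θ, ∃ n, S^[n] (S q) ∈ E :=
    hS.toMeasurePreserving.quasiMeasurePreserving.ae hA
  refine ⟨fun q => if ‖u₀ (S^[N q] q)‖ = 1 then u₀ (S^[N q] q) else 1, hφ.comp hum, ?_, ?_, ?_⟩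
  · intro q
    dsimp only
    by_cases h : ‖u₀ (S^[N q] q)‖ = 1
    · rw [if_pos h, h]
    · rw [if_neg h, norm_one]
  · intro q hq
    dsimp only
    rw [hN2 q hq]
    exact if_pos (h1 q hq)
  · refine ⟨fun q => if q ∈ E then G (N (S q)) q else 1, ?_, ?_⟩
    · exact @FR_ite Q y E hE _ (@FR_comp Q y (fun q => N (S q)) (hNm.comp hSy.1) G hG1)
    · have hG3 : ∀ᵐ q ∂θ, ∀ n, E.indicator 1 q * E.indicator 1 (S^[n + 1] q) *
          (u₀ (S^[n + 1] q) * conj (u₀ q)) = G n q := ae_all_iff.2 hG2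
      filter_upwards [hA, hA', hG3] with q hq hq' hGq
      have hSE : S^[N (S q)] (S q) ∈ E := hN1 _ hq'
      rw [if_pos (h1 _ hSE)]
      by_cases hqE : q ∈ E
      · rw [if_pos hqE, ← hGq, hN2 q hqE]
        have h5 : S^[0] q = q := rfl
        have h6 : S^[N (S q) + 1] q = S^[N (S q)] (S q) := rfl
        rw [h5, h6, if_pos (h1 q hqE), Set.indicator_of_mem hqE, Set.indicator_of_mem hSE]
        simp
      · rw [if_neg hqE]
        have h7 : S^[N (S q)] (S q) = S^[N q] q := by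
          rw [hN3 q hqE hq]
          rfl
        rw [h7] at hSE ⊢
        rw [if_pos (h1 _ hSE), Complex.mul_conj']
        rw [h1 _ hSE]
        simp

end Pool.Agent.HK820

end

/-! ### Part `SP1` -/

section

open MeasureTheory ProbabilityTheory Filter Topology
open scoped ComplexConjugate ENNReal

namespace Pool.Agent.HK820

/-- pull out a bounded factor -/
private theorem sp1_pull {Q : Type} (m : MeasurableSpace Q) [mQ : MeasurableSpace Q]
    (θ : Measure Q) [IsProbabilityMeasure θ] (hm : m ≤ mQ) {f g : Q → ℂ} (hf : BMs m f)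
    (hg : BM g) : θ[fun q => f q * g q | m] =ᵐ[θ] fun q => f q * (θ[g | m]) q := by
  have hgint := hg.integrable θ
  obtain ⟨hf1, C, hC⟩ := hf
  exact condExp_stronglyMeasurable_bilin_of_bound (ContinuousLinearMap.mul ℝ ℂ) hm
      hf1.stronglyMeasurable hgint C (ae_of_all θ hC)

/-- an `m`-measurable bounded function is its own conditional expectation -/
private theorem sp1_self {Q : Type} (m : MeasurableSpace Q) [mQ : MeasurableSpace Q]
    (θ : Measure Q) [IsProbabilityMeasure θ] (hm : m ≤ mQ) {f : Q → ℂ} (hf : BMs m f) :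
    θ[f | m] = f :=
  condExp_of_stronglyMeasurable hm hf.1.stronglyMeasurable
    (BM.integrable (BMs.mono hm hf) θ)

private theorem sp1_key {Q : Type} (y a b c : MeasurableSpace Q) [mQ : MeasurableSpace Q]
    (θ : Measure Q) [IsProbabilityMeasure θ] (ha : a ≤ mQ) (hb : b ≤ mQ) (hc : c ≤ mQ)
    (hya : y ≤ a) (hyc : y ≤ c) (h : CI3 y a b c θ) {g : Q → ℂ} (hg : BMs c g) :
    θ[g | a ⊔ b] =ᵐ[θ] θ[g | y] := by
  have hy : y ≤ mQ := hya.trans ha
  have hgB : BM g := BMs.mono hc hg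
  obtain ⟨k, hk, hk3⟩ : ∃ k : Q → ℂ, BMs y k ∧ θ[g | y] =ᵐ[θ] k := by
    obtain ⟨hgm, C, hC⟩ := hgB
    obtain ⟨k, hk1, hk2, hk3⟩ := exists_bms_condExp y θ hy hgm hC
    exact ⟨k, ⟨hk1, C, hk2⟩, hk3⟩
  have hkB : BM k := BMs.mono hy hk
  have hab : a ⊔ b ≤ mQ := sup_le ha hb
  have hself : θ[k | y] = k := sp1_self y θ hy hk
  have h0 : θ[fun q => g q - k q | a ⊔ b] =ᵐ[θ] 0 := by
    have h2 : (⨆ i : Bool, cond i a b) = a ⊔ b := by
      rw [iSup_bool_eq]
      rfl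
    have h1 := condExp_iSup_zero (fun i : Bool => cond i a b) θ
      (by intro i; cases i <;> assumption) (BMs.sub hgB hkB) ?_
    · rw [h2] at h1
      exact h1
    · intro G hG
      have hG1 : BMs a (G true) := hG true
      have hG2 : BMs b (G false) := hG false
      have hGB : BM (fun x => G true x * G false x) := BMs.mul (BMs.mono ha hG1) (BMs.mono hb hG2)
      have e1 : ∀ u : Q → ℂ, BMs c u → ∫ x, G true x * G false x * u x ∂θ =
          ∫ x, (θ[G true | y]) x * (θ[G false | y]) x * (θ[u | y]) x ∂θ := by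
        intro u hu
        rw [← integral_condExp hy]
        exact integral_congr_ae (h _ _ _ hG1 hG2 hu)
      have e2 : ∫ x, (g x - k x) * ∏ i, G i x ∂θ =
          ∫ x, G true x * G false x * g x ∂θ - ∫ x, G true x * G false x * k x ∂θ := by
        rw [← integral_sub (BM.integrable (BMs.mul hGB hgB) θ)
          (BM.integrable (BMs.mul hGB hkB) θ)]
        refine integral_congr_ae (ae_of_all _ fun x => ?_)
        show (g x - k x) * ∏ i, G i x = _
        rw [Fintype.prod_bool]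
        ring
      rw [e2, e1 g hg, e1 k (hk.mono hyc), sub_eq_zero]
      refine integral_congr_ae ?_
      filter_upwards [hk3] with x hx
      rw [hx, hself]
  have h3 : θ[fun q => g q - k q | a ⊔ b] =ᵐ[θ] θ[g | a ⊔ b] - θ[k | a ⊔ b] :=
    condExp_sub (hgB.integrable θ) (hkB.integrable θ) _
  have h4 : θ[k | a ⊔ b] = k := sp1_self (a ⊔ b) θ hab (hk.mono (hya.trans le_sup_left))
  filter_upwards [h0, h3, hk3] with x h5 h6 h7
  rw [h5, h4] at h6
  have h8 : (θ[g | a ⊔ b]) x - k x = 0 := h6.symm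
  rw [h7]
  exact sub_eq_zero.1 h8

/-- **SP1.** Two conditionally independent σ-algebras containing `y`: conditional expectations.
(i) `E[c | a ⊔ b] = E[c | y]` for bounded `c`-measurable functions; (ii) a function which is
measurable for `a` and for `b` (a.e.) is `y`-measurable a.e. -/
theorem CI3.condExp_sup {Q : Type} (y a b c : MeasurableSpace Q) [mQ : MeasurableSpace Q]
    (θ : Measure Q) [IsProbabilityMeasure θ] (ha : a ≤ mQ) (hb : b ≤ mQ) (hc : c ≤ mQ)
    (hya : y ≤ a) (hyb : y ≤ b) (hyc : y ≤ c) (h : CI3 y a b c θ) {f g : Q → ℂ}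
    (hf : BMs a f) (hg : BMs c g) :
    θ[fun q => f q * g q | a ⊔ b] =ᵐ[θ] fun q => f q * (θ[g | y]) q := by
  have h1 := sp1_pull (a ⊔ b) θ (sup_le ha hb) (hf.mono le_sup_left) (BMs.mono hc hg)
  filter_upwards [h1, sp1_key y a b c θ ha hb hc hya hyc h hg] with x h2 h3
  rw [h2, h3]

theorem CI3.inter {Q : Type} (y a b c : MeasurableSpace Q) [mQ : MeasurableSpace Q]
    (θ : Measure Q) [IsProbabilityMeasure θ] (ha : a ≤ mQ) (hb : b ≤ mQ) (hc : c ≤ mQ)
    (hya : y ≤ a) (hyb : y ≤ b) (hyc : y ≤ c) (h : CI3 y a b c θ) {f : Q → ℂ} (hf : BM f)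
    (h1 : AEM a θ f) (h2 : AEM b θ f) : AEM y θ f := by
  have hy : y ≤ mQ := hya.trans ha
  obtain ⟨k, hk, hk3⟩ : ∃ k : Q → ℂ, BMs y k ∧ θ[f | y] =ᵐ[θ] k := by
    obtain ⟨hfm, C, hC⟩ := hf
    obtain ⟨k, hk1, hk2, hk3⟩ := exists_bms_condExp y θ hy hfm hC
    exact ⟨k, ⟨hk1, C, hk2⟩, hk3⟩
  have hkB : BM k := BMs.mono hy hk
  have hw : BM (fun q => f q - k q) := BMs.sub hf hkB
  have hself : θ[k | y] = k := sp1_self y θ hy hk
  have hw0 : θ[fun q => f q - k q | y] =ᵐ[θ] 0 := by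
    have h3 : θ[fun q => f q - k q | y] =ᵐ[θ] θ[f | y] - θ[k | y] :=
      condExp_sub (hf.integrable θ) (hkB.integrable θ) _
    filter_upwards [h3, hk3] with x h4 h5
    rw [h4, Pi.sub_apply, h5, hself]
    exact sub_self _
  obtain ⟨C, hC0, hC⟩ : ∃ C : ℝ, 0 ≤ C ∧ ∀ x, ‖f x - k x‖ ≤ C := by
    obtain ⟨-, C, hC⟩ := hw
    exact ⟨max C 0, le_max_right _ _, fun x => (hC x).trans (le_max_left _ _)⟩
  have hwa : AEM a θ (fun q => f q - k q) := h1.sub (AEM.of_meas (hk.mono hya).1)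
  have hwb : AEM b θ (fun q => f q - k q) := h2.sub (AEM.of_meas (hk.mono hyb).1)
  obtain ⟨u, hu1, hu2, hu3⟩ := hwa.bounded hC0 (ae_of_all _ hC)
  obtain ⟨v, hv1, hv2, hv3⟩ := hwb.bounded hC0 (ae_of_all _ hC)
  have hu : BMs a u := ⟨hu1, C, hu2⟩
  have hv : BMs b v := ⟨hv1, C, hv2⟩
  have hv' : BMs b (fun q => conj (v q)) := hv.conj
  have e1 := h u (fun q => conj (v q)) (fun _ => 1) hu hv' (BMs.const c 1)
  have e2 : θ[u | y] =ᵐ[θ] 0 := (condExp_congr_ae hu3.symm).trans hw0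
  have e3 : ∫ q, u q * conj (v q) * 1 ∂θ = 0 := by
    rw [← integral_condExp hy]
    have e4 : ∫ q, (θ[fun q => u q * conj (v q) * 1 | y]) q ∂θ = ∫ _q, (0 : ℂ) ∂θ := by
      refine integral_congr_ae ?_
      filter_upwards [e1, e2] with q h3 h4
      rw [h3, h4]
      simp
    rw [e4, integral_zero]
  have e5 : ∫ q, ‖f q - k q‖ ^ 2 ∂θ = 0 := by
    have e6 : ∫ q, u q * conj (v q) * 1 ∂θ = ∫ q, ((‖f q - k q‖ ^ 2 : ℝ) : ℂ) ∂θ := by
      refine integral_congr_ae ?_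
      filter_upwards [hu3, hv3] with q h3 h4
      rw [← h3, ← h4, mul_one, Complex.mul_conj', Complex.ofReal_pow]
    have e7 : ∫ q, ((‖f q - k q‖ ^ 2 : ℝ) : ℂ) ∂θ = ((∫ q, ‖f q - k q‖ ^ 2 ∂θ : ℝ) : ℂ) :=
      integral_ofReal
    rw [e6, e7] at e3
    exact_mod_cast e3
  have e8 := (integral_eq_zero_iff_of_nonneg (fun q => sq_nonneg _) (bas_int_sq hw θ)).1 e5
  refine ⟨k, hk.1, ?_⟩
  filter_upwards [e8] with q h3
  have h4 : ‖f q - k q‖ ^ 2 = 0 := h3
  exact sub_eq_zero.1 (norm_eq_zero.1 (pow_eq_zero_iff (two_ne_zero) |>.1 h4))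

/-- **SP2.** symmetries -/
theorem CI3.swap12 {Q : Type} {y a b c : MeasurableSpace Q} [mQ : MeasurableSpace Q]
    {θ : Measure Q} (h : CI3 y a b c θ) : CI3 y b a c θ := by
  intro f g k hf hg hk
  have h1 := h g f k hg hf hk
  have e1 : (fun q => f q * g q * k q) = fun q => g q * f q * k q := by
    funext q
    ring
  rw [e1]
  filter_upwards [h1] with q h2
  rw [h2]
  ring

theorem CI3.swap23 {Q : Type} {y a b c : MeasurableSpace Q} [mQ : MeasurableSpace Q]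
    {θ : Measure Q} (h : CI3 y a b c θ) : CI3 y a c b θ := by
  intro f g k hf hg hk
  have h1 := h f k g hf hk hg
  have e1 : (fun q => f q * g q * k q) = fun q => f q * k q * g q := by
    funext q
    ring
  rw [e1]
  filter_upwards [h1] with q h2
  rw [h2]
  ring

/-- **SP3.** First part of the splitting lemma: the quotient of the two eigenfunctions does not
depend on the common part `a`.

Proof. `G = E[conj ψ₁ ψ₂ | b ⊔ c]`. As `b ⊔ c` is invariant and `conj ψ₁ ψ₂` is an eigenfunction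
with eigenvalue `conj c₁ c₂`, `G ∘ S = conj c₁ c₂ G` a.e. (`condExp_comp_equiv`), so `|G|` is a
constant `r` by ergodicity, and `r ≠ 0` because `∫ G b₀ c₀ = ∫ conj ψ₁ ψ₂ b₀ c₀ ≠ 0`. The function
`conj ψ₁ ψ₂ conj G` is invariant, hence a constant `c'`; multiply by `G / r ^ 2`:
`conj ψ₁ ψ₂ = c' G / r ^ 2`, which is `AEM (b ⊔ c)`. -/
theorem split_quot {Q : Type} (b c : MeasurableSpace Q) [mQ : MeasurableSpace Q]
    (θ : Measure Q) [IsProbabilityMeasure θ] (S : Q ≃ᵐ Q) (hS : Ergodic S θ) (hb : b ≤ mQ)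
    (hc : c ≤ mQ) (hSb : TInv b S) (hSc : TInv c S) {ψ₁ ψ₂ : Q → ℂ} {c₁ c₂ : ℂ}
    (e1 : IsEig θ S ψ₁ c₁) (e2 : IsEig θ S ψ₂ c₂) {b₀ c₀ : Q → ℂ} (hb₀ : BMs b b₀)
    (hc₀ : BMs c c₀) (h : ∫ q, conj (ψ₁ q) * ψ₂ q * b₀ q * c₀ q ∂θ ≠ 0) :
    AEM (b ⊔ c) θ (fun q => conj (ψ₁ q) * ψ₂ q) := by
  have hbc : b ⊔ c ≤ mQ := sup_le hb hc
  have hF : BM (fun q => conj (ψ₁ q) * ψ₂ q) := BMs.mul
    (BMs.conj ⟨e1.meas, 1, fun x => (e1.norm x).le⟩) ⟨e2.meas, 1, fun x => (e2.norm x).le⟩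
  set F : Q → ℂ := fun q => conj (ψ₁ q) * ψ₂ q with hFdef
  have hF1 : ∀ q, ‖F q‖ = 1 := by
    intro q
    show ‖conj (ψ₁ q) * ψ₂ q‖ = 1
    rw [norm_mul, Complex.norm_conj, e1.norm, e2.norm, one_mul]
  obtain ⟨G, hG1, hG2, hG3⟩ := exists_bms_condExp (b ⊔ c) θ hbc hF.1 (C := 1)
    (fun x => (hF1 x).le)
  have hG : BMs (b ⊔ c) G := ⟨hG1, 1, hG2⟩
  have hGB : BM G := BMs.mono hbc hG
  have hSbc : Measurable[b ⊔ c, b ⊔ c] S := by
    refine measurable_iff_comap_le.2 ?_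
    rw [MeasurableSpace.comap_sup]
    exact sup_le_sup (measurable_iff_comap_le.1 hSb.1) (measurable_iff_comap_le.1 hSc.1)
  have hSbc' : Measurable[b ⊔ c, b ⊔ c] S.symm := by
    refine measurable_iff_comap_le.2 ?_
    rw [MeasurableSpace.comap_sup]
    exact sup_le_sup (measurable_iff_comap_le.1 hSb.2) (measurable_iff_comap_le.1 hSc.2)
  have hlam : ‖conj c₁ * c₂‖ = 1 := by
    rw [norm_mul, Complex.norm_conj, e1.c_norm, e2.c_norm, one_mul]
  have hFS : (fun q => F (S q)) =ᵐ[θ] (fun q => (conj c₁ * c₂) * F q) := by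
    filter_upwards [e1.eig, e2.eig] with q h3 h4
    show conj (ψ₁ (S q)) * ψ₂ (S q) = _
    rw [h3, h4, map_mul]
    show conj c₁ * conj (ψ₁ q) * (c₂ * ψ₂ q) = conj c₁ * c₂ * (conj (ψ₁ q) * ψ₂ q)
    ring
  have hGS : (fun q => G (S q)) =ᵐ[θ] (fun q => (conj c₁ * c₂) * G q) := by
    have h3 := condExp_comp_equiv (b ⊔ c) (b ⊔ c) hbc hbc S hS.toMeasurePreserving hSbc hSbc' hF
    have h4 : θ[fun q => F (S q) | b ⊔ c] =ᵐ[θ] θ[fun q => (conj c₁ * c₂) * F q | b ⊔ c] :=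
      condExp_congr_ae hFS
    have h5 := sp1_pull (b ⊔ c) θ hbc (BMs.const (b ⊔ c) (conj c₁ * c₂)) hF
    have h6 := hS.toMeasurePreserving.quasiMeasurePreserving.ae_eq_comp hG3
    filter_upwards [h3, h4, h5, h6, hG3] with q h3 h4 h5 h6 h7
    have h8 : (θ[F | b ⊔ c]) (S q) = G (S q) := h6
    rw [← h8, ← h3, h4, h5, h7]
  obtain ⟨r, hr⟩ := hS.ae_eq_const_of_ae_eq_comp_ae (g := fun q => ‖G q‖)
    (hGB.1.norm.aestronglyMeasurable) (by
      filter_upwards [hGS] with q h3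
      show ‖G (S q)‖ = ‖G q‖
      rw [h3, norm_mul, hlam, one_mul])
  have hr0 : r ≠ 0 := by
    intro hr0
    apply h
    have h3 : ∫ q, conj (ψ₁ q) * ψ₂ q * b₀ q * c₀ q ∂θ = ∫ q, (b₀ q * c₀ q) * F q ∂θ := by
      refine integral_congr_ae (ae_of_all _ fun q => ?_)
      show conj (ψ₁ q) * ψ₂ q * b₀ q * c₀ q = (b₀ q * c₀ q) * (conj (ψ₁ q) * ψ₂ q)
      ring
    rw [h3, ← integral_mul_condExp (b ⊔ c) θ hbc hF
      (BMs.mul (hb₀.mono le_sup_left) (hc₀.mono le_sup_right))]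
    have h4 : ∫ q, (b₀ q * c₀ q) * (θ[F | b ⊔ c]) q ∂θ = ∫ _q, (0 : ℂ) ∂θ := by
      refine integral_congr_ae ?_
      filter_upwards [hG3, hr] with q h5 h6
      have h7 : ‖G q‖ = r := h6
      rw [hr0, norm_eq_zero] at h7
      rw [h5, h7, mul_zero]
    rw [h4, integral_zero]
  obtain ⟨w, hw⟩ := hS.ae_eq_const_of_ae_eq_comp_ae (g := fun q => F q * conj (G q))
    ((BMs.mul hF (BMs.conj hGB)).1.aestronglyMeasurable) (by
      filter_upwards [hFS, hGS] with q h3 h4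
      show F (S q) * conj (G (S q)) = F q * conj (G q)
      have h3' : F (S q) = (conj c₁ * c₂) * F q := h3
      rw [h3', h4, map_mul]
      have h5 : (conj c₁ * c₂) * conj (conj c₁ * c₂) = 1 := by
        rw [Complex.mul_conj', hlam]
        simp
      calc (conj c₁ * c₂) * F q * (conj (conj c₁ * c₂) * conj (G q))
          = ((conj c₁ * c₂) * conj (conj c₁ * c₂)) * (F q * conj (G q)) := by ring
        _ = F q * conj (G q) := by rw [h5, one_mul])
  refine ⟨fun q => (w / (r : ℂ) ^ 2) * G q, measurable_const.mul hG1, ?_⟩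
  filter_upwards [hr, hw] with q h3 h4
  have h5 : ‖G q‖ = r := h3
  have h6 : F q * conj (G q) = w := h4
  have h7 : conj (G q) * G q = (r : ℂ) ^ 2 := by
    rw [Complex.conj_mul', h5]
  have hr' : (r : ℂ) ^ 2 ≠ 0 := pow_ne_zero 2 (Complex.ofReal_ne_zero.2 hr0)
  show F q = (w / (r : ℂ) ^ 2) * G q
  rw [← h6, div_mul_eq_mul_div, eq_div_iff hr', ← h7]
  ring

end Pool.Agent.HK820

end

/-! ### Part `SP2` -/

section

open MeasureTheory ProbabilityTheory Filter Topology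
open scoped ComplexConjugate ENNReal

namespace Pool.Agent.HK820

/-- pull out a bounded factor -/
private theorem sp2_pull {Q : Type} (m : MeasurableSpace Q) [mQ : MeasurableSpace Q]
    (θ : Measure Q) [IsProbabilityMeasure θ] (hm : m ≤ mQ) {f g : Q → ℂ} (hf : BMs m f)
    (hg : BM g) : θ[fun q => f q * g q | m] =ᵐ[θ] fun q => f q * (θ[g | m]) q := by
  have hgint := hg.integrable θ
  obtain ⟨hf1, C, hC⟩ := hf
  exact condExp_stronglyMeasurable_bilin_of_bound (ContinuousLinearMap.mul ℝ ℂ) hm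
      hf1.stronglyMeasurable hgint C (ae_of_all θ hC)

private theorem sp2_self {Q : Type} (m : MeasurableSpace Q) [mQ : MeasurableSpace Q]
    (θ : Measure Q) [IsProbabilityMeasure θ] (hm : m ≤ mQ) {f : Q → ℂ} (hf : BMs m f) :
    θ[f | m] = f :=
  condExp_of_stronglyMeasurable hm hf.1.stronglyMeasurable
    (BM.integrable (BMs.mono hm hf) θ)

private theorem sp2_ver {Q : Type} (m : MeasurableSpace Q) [mQ : MeasurableSpace Q]
    (θ : Measure Q) [IsProbabilityMeasure θ] (hm : m ≤ mQ) {f : Q → ℂ} (hf : BM f) :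
    ∃ k : Q → ℂ, BMs m k ∧ θ[f | m] =ᵐ[θ] k := by
  obtain ⟨hfm, C, hC⟩ := hf
  obtain ⟨k, hk1, hk2, hk3⟩ := exists_bms_condExp m θ hm hfm hC
  exact ⟨k, ⟨hk1, C, hk2⟩, hk3⟩

private theorem sp2_bver {Q : Type} (m : MeasurableSpace Q) [mQ : MeasurableSpace Q]
    (θ : Measure Q) {f : Q → ℂ} (hf : BM f) (hf' : AEM m θ f) :
    ∃ k : Q → ℂ, BMs m k ∧ f =ᵐ[θ] k := by
  obtain ⟨hfm, C, hC⟩ := hf
  obtain ⟨k, hk1, hk2, hk3⟩ := hf'.bounded (le_max_right C 0)
    (ae_of_all _ fun x => (hC x).trans (le_max_left C 0))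
  exact ⟨k, ⟨hk1, _, hk2⟩, hk3⟩

private theorem sp2_key {Q : Type} (y a b c : MeasurableSpace Q) [mQ : MeasurableSpace Q]
    (θ : Measure Q) [IsProbabilityMeasure θ] (ha : a ≤ mQ) (hb : b ≤ mQ) (hc : c ≤ mQ)
    (hya : y ≤ a) (hyb : y ≤ b) (hyc : y ≤ c) (h : CI3 y a b c θ) {g : Q → ℂ} (hg : BMs c g) :
    θ[g | a ⊔ b] =ᵐ[θ] θ[g | y] := by
  have h1 := CI3.condExp_sup y a b c θ ha hb hc hya hyb hyc h (BMs.const a 1) hg
  simp only [one_mul] at h1
  exact h1

/-- a bounded function measurable for `a ⊔ c`: its conditional expectation on `a ⊔ b` is the one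
on `a` -/
private theorem sp2_ind {Q : Type} (y a b c : MeasurableSpace Q) [mQ : MeasurableSpace Q]
    (θ : Measure Q) [IsProbabilityMeasure θ] (ha : a ≤ mQ) (hb : b ≤ mQ) (hc : c ≤ mQ)
    (hya : y ≤ a) (hyb : y ≤ b) (hyc : y ≤ c) (h : CI3 y a b c θ) {φ : Q → ℂ} (hφ : BM φ)
    (hφ' : AEM (a ⊔ c) θ φ) :
    θ[φ | a ⊔ b] =ᵐ[θ] θ[φ | a] := by
  have hy : y ≤ mQ := hya.trans ha
  have hab : a ⊔ b ≤ mQ := sup_le ha hb
  have hac : a ⊔ c ≤ mQ := sup_le ha hc
  obtain ⟨φ', hφ1, hφ2⟩ := sp2_bver (a ⊔ c) θ hφ hφ'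
  have hφB : BM φ' := BMs.mono hac hφ1
  obtain ⟨k, hk, hk3⟩ := sp2_ver a θ ha hφB
  have hkB : BM k := BMs.mono ha hk
  have h0 : θ[fun q => φ' q - k q | a ⊔ b] =ᵐ[θ] 0 := by
    have h2 : (⨆ i : Bool, cond i a b) = a ⊔ b := by
      rw [iSup_bool_eq]
      rfl
    have h1 := condExp_iSup_zero (fun i : Bool => cond i a b) θ
      (by intro i; cases i <;> assumption) (BMs.sub hφB hkB) ?_
    · rw [h2] at h1
      exact h1
    · intro G hG
      have hG1 : BMs a (G true) := hG true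
      have hG2 : BMs b (G false) := hG false
      have hG1B : BM (G true) := BMs.mono ha hG1
      have hG2B : BM (G false) := BMs.mono hb hG2
      obtain ⟨l, hl, hl3⟩ := sp2_ver y θ hy hG2B
      have e1 : ∀ u : Q → ℂ, BMs (a ⊔ c) u → ∫ x, u x * G true x * G false x ∂θ =
          ∫ x, u x * G true x * l x ∂θ := by
        intro u hu
        have h3 := integral_mul_condExp (a ⊔ c) θ hac hG2B
          (BMs.mul hu (hG1.mono le_sup_left))
        rw [← h3]
        refine integral_congr_ae ?_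
        filter_upwards [sp2_key y a c b θ ha hc hb hya hyc hyb h.swap23 hG2, hl3] with x h4 h5
        rw [h4, h5]
      have e2 : ∫ x, (φ' x - k x) * ∏ i, G i x ∂θ =
          ∫ x, φ' x * G true x * G false x ∂θ - ∫ x, k x * G true x * G false x ∂θ := by
        rw [← integral_sub (BM.integrable (BMs.mul (BMs.mul hφB hG1B) hG2B) θ)
          (BM.integrable (BMs.mul (BMs.mul hkB hG1B) hG2B) θ)]
        refine integral_congr_ae (ae_of_all _ fun x => ?_)
        show (φ' x - k x) * ∏ i, G i x = _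
        rw [Fintype.prod_bool]
        ring
      have e3 : ∫ x, (G true x * l x) * φ' x ∂θ = ∫ x, (G true x * l x) * k x ∂θ := by
        rw [← integral_mul_condExp a θ ha hφB (BMs.mul hG1 (hl.mono hya))]
        refine integral_congr_ae ?_
        filter_upwards [hk3] with x h4
        rw [h4]
      rw [e2, e1 φ' hφ1, e1 k (hk.mono le_sup_left), sub_eq_zero]
      have e4 : ∀ u : Q → ℂ, ∫ x, u x * G true x * l x ∂θ = ∫ x, (G true x * l x) * u x ∂θ := by
        intro u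
        refine integral_congr_ae (ae_of_all _ fun x => ?_)
        show u x * G true x * l x = (G true x * l x) * u x
        ring
      rw [e4, e4, e3]
  have h3 : θ[fun q => φ' q - k q | a ⊔ b] =ᵐ[θ] θ[φ' | a ⊔ b] - θ[k | a ⊔ b] :=
    condExp_sub (hφB.integrable θ) (hkB.integrable θ) _
  have h4 : θ[k | a ⊔ b] = k := sp2_self (a ⊔ b) θ hab (hk.mono le_sup_left)
  have h5 : θ[φ | a ⊔ b] =ᵐ[θ] θ[φ' | a ⊔ b] := condExp_congr_ae hφ2
  have h6 : θ[φ | a] =ᵐ[θ] θ[φ' | a] := condExp_congr_ae hφ2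
  filter_upwards [h0, h3, hk3, h5, h6] with x h7 h8 h9 h10 h11
  rw [h7, h4] at h8
  have h12 : (θ[φ' | a ⊔ b]) x - k x = 0 := h8.symm
  rw [h10, h11, h9]
  exact sub_eq_zero.1 h12

open Classical in
/-- the phase of a complex number -/
private noncomputable def sp2_un (z : ℂ) : ℂ := if z = 0 then 1 else z / (‖z‖ : ℂ)

private theorem sp2_un_norm (z : ℂ) : ‖sp2_un z‖ = 1 := by
  unfold sp2_un
  split_ifs with h
  · exact norm_one
  · rw [norm_div, Complex.norm_real, norm_norm]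
    exact div_self (norm_ne_zero_iff.2 h)

private theorem sp2_un_meas : Measurable sp2_un := by
  unfold sp2_un
  exact Measurable.ite (measurableSet_singleton 0) measurable_const
    (measurable_id.div (Complex.measurable_ofReal.comp measurable_norm))

private theorem sp2_un_mul {p z : ℂ} (hp : ‖p‖ = 1) (hz : z ≠ 0) :
    sp2_un (p * z) = p * sp2_un z := by
  have hp0 : p ≠ 0 := by
    intro h0
    rw [h0, norm_zero] at hp
    exact zero_ne_one hp
  unfold sp2_un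
  rw [if_neg (mul_ne_zero hp0 hz), if_neg hz, norm_mul, hp, one_mul, mul_div_assoc]

/-- **SP4.** Splitting lemma.

Proof. By `split_quot`, `G' = conj ψ₁ ψ₂` is `AEM (b ⊔ c)`, unimodular, `ψ₂ = ψ₁ G'`. For a bounded
`c`-measurable `h` put `v_h = E[ψ₂ h | a ⊔ b]`. On the one hand `ψ₂ h` is `AEM (a ⊔ c)` and
`v_h = E[ψ₂ h | a]` (by `condExp_sup` and density of products: for `α` `a`-measurable and `γ`
`c`-measurable `E[α γ | a ⊔ b] = α E[γ | y]` is `a`-measurable). On the other hand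
`v_h = E[ψ₁ G' h | a ⊔ b] = ψ₁ κ_h` with `κ_h = E[G' h | a ⊔ b]`, which is `AEM b` (same argument
with `b` in place of `a`, `CI3.swap12`). So `|v_h| = |κ_h|` is `AEM a` and `AEM b`, hence `AEM y`
(`CI3.inter`). Let `N = E[a₀ b₁ ψ₁ | y]`; `∫ N ≠ 0`, so the set `N₀ ∈ y` where (a version of) `N` is
nonzero has positive measure. There is `h` with `κ_h ≠ 0` on a subset of `N₀` of positive measure:
otherwise `∫ G' 1_{N₀} h β = 0` for all bounded `β` in `b`, `h` in `c`, so `G' 1_{N₀} = 0` a.e.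
(`condExp_iSup_zero`, `G' 1_{N₀}` is `AEM (b ⊔ c)`), a contradiction. Let `E ∈ y` be (a version of)
the set `{κ_h ≠ 0}` and `u₀ = v_h / |v_h|` on `E` (for suitable measurable versions, `v_h`
`a`-measurable). On `E`, `u₀ = ψ₁ κ'` with `κ' = κ_h / |κ_h|`, `b`-measurable. For `n ≥ 1` the
function `1_E 1_E∘S^n u₀∘S^n conj u₀` is `AEM a` (`a` is invariant) and equals
`1_E 1_E∘S^n c₁^n κ'∘S^n conj κ'`, so it is `AEM b`; hence it is `AEM y`. `first_return` gives `u`.
Finally on `E`: `N = E[a₀ u₀ · b₁ conj κ' | y] = E[a₀ u₀ 1_E | y] * E[b₁ conj κ' | y]` (conditional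
independence of `a` and `b`), so `K = E[a₀ u₀ 1_E | y]` is not a.e. zero; put `α = conj K * 1_E`
(bounded `y`-measurable version); `∫ a₀ u α = ∫ E[a₀ u 1_E | y] conj K = ∫ |K|² ≠ 0`. -/
theorem splitting {Q : Type} (y a b c : MeasurableSpace Q) [mQ : MeasurableSpace Q]
    (θ : Measure Q) [IsProbabilityMeasure θ] (S : Q ≃ᵐ Q) (hS : Ergodic S θ) (ha : a ≤ mQ)
    (hb : b ≤ mQ) (hc : c ≤ mQ) (hya : y ≤ a) (hyb : y ≤ b) (hyc : y ≤ c) (hSy : TInv y S)
    (hSa : TInv a S) (hSb : TInv b S) (hSc : TInv c S) (hCI : CI3 y a b c θ) {ψ₁ ψ₂ : Q → ℂ}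
    {c₁ c₂ : ℂ} (e1 : IsEig θ S ψ₁ c₁) (e2 : IsEig θ S ψ₂ c₂) (m1 : AEM (a ⊔ b) θ ψ₁)
    (m2 : AEM (a ⊔ c) θ ψ₂) {b₀ c₀ : Q → ℂ} (hb₀ : BMs b b₀)
    (hc₀ : BMs c c₀) (h : ∫ q, conj (ψ₁ q) * ψ₂ q * b₀ q * c₀ q ∂θ ≠ 0) {a₀ b₁ : Q → ℂ}
    (ha₀ : BMs a a₀) (hb₁ : BMs b b₁) (h' : ∫ q, a₀ q * b₁ q * ψ₁ q ∂θ ≠ 0) :
    ∃ u α : Q → ℂ, Measurable u ∧ (∀ q, ‖u q‖ = 1) ∧ AEM y θ (fun q => u (S q) * conj (u q)) ∧
      BMs y α ∧ ∫ q, a₀ q * u q * α q ∂θ ≠ 0 := by
  have hy : y ≤ mQ := hya.trans ha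
  have hab : a ⊔ b ≤ mQ := sup_le ha hb
  have hbc : b ⊔ c ≤ mQ := sup_le hb hc
  have hψ₁ : BM ψ₁ := ⟨e1.meas, 1, fun x => (e1.norm x).le⟩
  have hψ₂ : BM ψ₂ := ⟨e2.meas, 1, fun x => (e2.norm x).le⟩
  have hGm := split_quot b c θ S hS hb hc hSb hSc e1 e2 hb₀ hc₀ h
  obtain ⟨G, hGdef⟩ : ∃ G : Q → ℂ, G = fun q => conj (ψ₁ q) * ψ₂ q := ⟨_, rfl⟩
  rw [← hGdef] at hGm
  have hG1 : ∀ q, ‖G q‖ = 1 := by
    intro q
    rw [hGdef]
    show ‖conj (ψ₁ q) * ψ₂ q‖ = 1
    rw [norm_mul, Complex.norm_conj, e1.norm, e2.norm, one_mul]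
  have hGB : BM G := by
    rw [hGdef]
    exact BMs.mul (BMs.conj hψ₁) hψ₂
  have hψG : ∀ q, ψ₂ q = ψ₁ q * G q := by
    intro q
    rw [hGdef]
    show ψ₂ q = ψ₁ q * (conj (ψ₁ q) * ψ₂ q)
    rw [← mul_assoc, Complex.mul_conj', e1.norm]
    simp
  -- the three facts on the conditional expectations
  have hv : ∀ k, BMs c k → AEM a θ (θ[fun q => ψ₂ q * k q | a ⊔ b]) := by
    intro k hk
    exact (aem_condExp a θ _).congr (sp2_ind y a b c θ ha hb hc hya hyb hyc hCI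
      (BMs.mul hψ₂ (BMs.mono hc hk)) (m2.mul (AEM.of_meas (hk.mono le_sup_right).1))).symm
  have hκ : ∀ k, BMs c k → AEM b θ (θ[fun q => G q * k q | a ⊔ b]) := by
    intro k hk
    rw [sup_comm a b]
    exact (aem_condExp b θ _).congr (sp2_ind y b a c θ hb ha hc hyb hya hyc hCI.swap12
      (BMs.mul hGB (BMs.mono hc hk)) (hGm.mul (AEM.of_meas (hk.mono le_sup_right).1))).symm
  have hvκ : ∀ k, BMs c k → θ[fun q => ψ₂ q * k q | a ⊔ b] =ᵐ[θ]
      fun q => ψ₁ q * (θ[fun q => G q * k q | a ⊔ b]) q := by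
    intro k hk
    obtain ⟨p, hp1, hp2⟩ := sp2_bver (a ⊔ b) θ hψ₁ m1
    have h3 : (fun q => ψ₂ q * k q) =ᵐ[θ] fun q => p q * (G q * k q) := by
      filter_upwards [hp2] with q h4
      rw [hψG q, h4, mul_assoc]
    have h4 := sp2_pull (a ⊔ b) θ hab hp1 (BMs.mul hGB (BMs.mono hc hk))
    have h5 : θ[fun q => ψ₂ q * k q | a ⊔ b] =ᵐ[θ] θ[fun q => p q * (G q * k q) | a ⊔ b] :=
      condExp_congr_ae h3
    filter_upwards [h4, h5, hp2] with q h6 h7 h8
    rw [h7, h6, h8]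
  -- the function `N`
  have hNB : BM (fun q => a₀ q * b₁ q * ψ₁ q) :=
    BMs.mul (BMs.mul (BMs.mono ha ha₀) (BMs.mono hb hb₁)) hψ₁
  obtain ⟨N, hN, hN3⟩ := sp2_ver y θ hy hNB
  have hN₀ : MeasurableSet[y] {q | N q ≠ 0} :=
    hN.1 (measurableSet_singleton (0 : ℂ)).compl
  have hN₀pos : θ {q | N q ≠ 0} ≠ 0 := by
    intro h0
    apply h'
    rw [← integral_condExp hy]
    have h3 : ∀ᵐ q ∂θ, N q = 0 := by
      have h4 : ∀ᵐ q ∂θ, q ∉ {q | N q ≠ 0} := measure_eq_zero_iff_ae_notMem.1 h0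
      filter_upwards [h4] with q h5
      exact not_not.1 h5
    have h4 : ∫ q, (θ[fun q => a₀ q * b₁ q * ψ₁ q | y]) q ∂θ = ∫ _q, (0 : ℂ) ∂θ := by
      refine integral_congr_ae ?_
      filter_upwards [h3, hN3] with q h5 h6
      rw [h6, h5]
    rw [h4, integral_zero]
  -- choice of `k`
  obtain ⟨k, hk, hk0⟩ : ∃ k, BMs c k ∧
      ¬ ∀ᵐ q ∂θ, q ∈ {q | N q ≠ 0} → (θ[fun q => G q * k q | a ⊔ b]) q = 0 := by
    by_contra hcon
    push Not at hcon
    apply hN₀pos
    have hIB : BM ({q | N q ≠ 0}.indicator G) := BMs.indicator hGB (hy _ hN₀)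
    have hIm : AEM (b ⊔ c) θ ({q | N q ≠ 0}.indicator G) := by
      obtain ⟨G', hG'1, hG'2⟩ := hGm
      refine ⟨{q | N q ≠ 0}.indicator G', hG'1.indicator
        ((hyb.trans le_sup_left) _ hN₀), ?_⟩
      filter_upwards [hG'2] with q h3
      by_cases hq : q ∈ {q | N q ≠ 0}
      · rw [Set.indicator_of_mem hq, Set.indicator_of_mem hq, h3]
      · rw [Set.indicator_of_notMem hq, Set.indicator_of_notMem hq]
    have h0 : θ[{q | N q ≠ 0}.indicator G | b ⊔ c] =ᵐ[θ] 0 := by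
      have h2 : (⨆ i : Bool, cond i b c) = b ⊔ c := by
        rw [iSup_bool_eq]
        rfl
      have h1 := condExp_iSup_zero (fun i : Bool => cond i b c) θ
        (by intro i; cases i <;> assumption) hIB ?_
      · rw [h2] at h1
        exact h1
      · intro g hg
        have hg1 : BMs b (g true) := hg true
        have hg2 : BMs c (g false) := hg false
        have hInd : BMs (a ⊔ b) (fun q => {q | N q ≠ 0}.indicator (fun _ => (1 : ℂ)) q *
            g true q) :=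
          BMs.mul ((BMs.const (a ⊔ b) 1).indicator ((hya.trans le_sup_left) _ hN₀))
            (hg1.mono le_sup_right)
        have h3 := integral_mul_condExp (a ⊔ b) θ hab (BMs.mul hGB (BMs.mono hc hg2)) hInd
        have h4 : ∫ x, {q | N q ≠ 0}.indicator G x * ∏ i, g i x ∂θ =
            ∫ q, {q | N q ≠ 0}.indicator (fun _ => (1 : ℂ)) q * g true q *
              (G q * g false q) ∂θ := by
          refine integral_congr_ae (ae_of_all _ fun x => ?_)
          show {q | N q ≠ 0}.indicator G x * ∏ i, g i x =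
            {q | N q ≠ 0}.indicator (fun _ => (1 : ℂ)) x * g true x * (G x * g false x)
          rw [Fintype.prod_bool]
          by_cases hq : x ∈ {q | N q ≠ 0}
          · rw [Set.indicator_of_mem hq, Set.indicator_of_mem hq]
            ring
          · rw [Set.indicator_of_notMem hq, Set.indicator_of_notMem hq]
            ring
        rw [h4, ← h3]
        have h5 : ∫ q, {q | N q ≠ 0}.indicator (fun _ => (1 : ℂ)) q * g true q *
            (θ[fun x => G x * g false x | a ⊔ b]) q ∂θ = ∫ _q, (0 : ℂ) ∂θ := by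
          refine integral_congr_ae ?_
          filter_upwards [hcon (g false) hg2] with q h6
          by_cases hq : q ∈ {q | N q ≠ 0}
          · rw [h6 hq, mul_zero]
          · rw [Set.indicator_of_notMem hq, zero_mul, zero_mul]
        rw [h5, integral_zero]
    have h3 := (aem_iff_condExp (b ⊔ c) θ hbc hIB).1 hIm
    rw [measure_eq_zero_iff_ae_notMem]
    filter_upwards [h0, h3] with q h4 h5 hq
    rw [h5, Set.indicator_of_mem hq] at h4
    have h6 := hG1 q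
    rw [h4] at h6
    simp at h6
  -- versions
  obtain ⟨w, hw, hw3⟩ := sp2_ver (a ⊔ b) θ hab (BMs.mul hGB (BMs.mono hc hk))
  obtain ⟨v, hv1, hv2⟩ := hv k hk
  obtain ⟨κ, hκ1, hκ2⟩ := hκ k hk
  have hvk := hvκ k hk
  have hnB : BM (fun q => ((‖w q‖ : ℝ) : ℂ)) := by
    obtain ⟨hw1, C, hC⟩ := BMs.mono hab hw
    refine ⟨Complex.measurable_ofReal.comp hw1.norm, C, fun q => ?_⟩
    rw [Complex.norm_real, norm_norm]
    exact hC q
  have hmn : Measurable (fun z : ℂ => ((‖z‖ : ℝ) : ℂ)) :=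
    Complex.measurable_ofReal.comp measurable_norm
  have hna : AEM a θ (fun q => ((‖w q‖ : ℝ) : ℂ)) := by
    refine ((AEM.of_meas (μ := θ) hv1).map hmn).congr ?_
    filter_upwards [hw3, hv2, hvk] with q h3 h4 h5
    rw [← h4, h5, norm_mul, e1.norm, one_mul, h3]
  have hnb : AEM b θ (fun q => ((‖w q‖ : ℝ) : ℂ)) := by
    refine ((AEM.of_meas (μ := θ) hκ1).map hmn).congr ?_
    filter_upwards [hw3, hκ2] with q h3 h4
    rw [← h4, h3]
  obtain ⟨ρ, hρ1, hρ2⟩ := CI3.inter y a b c θ ha hb hc hya hyb hyc hCI hnB hna hnb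
  have hE : MeasurableSet[y] {q | ρ q ≠ 0} := hρ1 (measurableSet_singleton (0 : ℂ)).compl
  obtain ⟨E, hEdef⟩ : ∃ E : Set Q, E = {q | ρ q ≠ 0} := ⟨_, rfl⟩
  rw [← hEdef] at hE
  have hEmem : ∀ q, q ∈ E ↔ ρ q ≠ 0 := fun q => by rw [hEdef]; exact Iff.rfl
  have hEN : θ (E ∩ {q | N q ≠ 0}) ≠ 0 := by
    intro h0
    apply hk0
    have h4 : ∀ᵐ q ∂θ, q ∉ E ∩ {q | N q ≠ 0} := measure_eq_zero_iff_ae_notMem.1 h0
    filter_upwards [h4, hρ2, hw3] with q h5 h6 h7 h8
    have h9 : q ∉ E := fun h10 => h5 ⟨h10, h8⟩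
    have h10 : ρ q = 0 := by
      by_contra h11
      exact h9 ((hEmem q).2 h11)
    rw [h10] at h6
    rw [h7]
    exact norm_eq_zero.1 (by exact_mod_cast h6)
  have hE0 : θ E ≠ 0 := fun h0 => hEN (measure_mono_null Set.inter_subset_left h0)
  -- unimodular versions
  obtain ⟨u₀, hu₀def⟩ : ∃ u₀ : Q → ℂ, u₀ = fun q => sp2_un (v q) := ⟨_, rfl⟩
  obtain ⟨κ', hκ'def⟩ : ∃ κ' : Q → ℂ, κ' = fun q => sp2_un (κ q) := ⟨_, rfl⟩
  have hu₀1 : ∀ q, ‖u₀ q‖ = 1 := fun q => by rw [hu₀def]; exact sp2_un_norm _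
  have hκ'1 : ∀ q, ‖κ' q‖ = 1 := fun q => by rw [hκ'def]; exact sp2_un_norm _
  have hu₀a : BMs a u₀ := by
    refine ⟨?_, 1, fun q => (hu₀1 q).le⟩
    rw [hu₀def]
    exact sp2_un_meas.comp hv1
  have hκ'b : BMs b κ' := by
    refine ⟨?_, 1, fun q => (hκ'1 q).le⟩
    rw [hκ'def]
    exact sp2_un_meas.comp hκ1
  have key : ∀ᵐ q ∂θ, q ∈ E → u₀ q = ψ₁ q * κ' q := by
    filter_upwards [hw3, hv2, hκ2, hvk, hρ2] with q h3 h4 h5 h6 h7 h8
    have h9 : ρ q ≠ 0 := (hEmem q).1 h8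
    have h10 : κ q ≠ 0 := by
      intro h11
      apply h9
      rw [← h7, ← h3, h5, h11]
      simp
    rw [hu₀def, hκ'def]
    show sp2_un (v q) = ψ₁ q * sp2_un (κ q)
    rw [← h4, h6, h5]
    exact sp2_un_mul (e1.norm q) h10
  have heig : ∀ n : ℕ, ∀ᵐ q ∂θ, ψ₁ (S^[n] q) = c₁ ^ n * ψ₁ q := by
    intro n
    induction n with
    | zero => exact ae_of_all _ fun q => by simp
    | succ n ih =>
      filter_upwards [hS.toMeasurePreserving.quasiMeasurePreserving.ae ih, e1.eig] with q h3 h4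
      rw [Function.iterate_succ_apply, h3, h4]
      ring
  have hIa : ∀ m : MeasurableSpace Q, y ≤ m → BMs m (E.indicator (1 : Q → ℂ)) := by
    intro m hm
    exact (BMs.const m 1).indicator (hm _ hE)
  have hcoc : ∀ n : ℕ, 0 < n → AEM y θ (fun q => E.indicator 1 q * E.indicator 1 (S^[n] q) *
      (u₀ (S^[n] q) * conj (u₀ q))) := by
    intro n _
    have hSan : Measurable[a, a] (S^[n]) := Measurable.iterate hSa.1 n
    have hSbn : Measurable[b, b] (S^[n]) := Measurable.iterate hSb.1 n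
    have hA : BMs a (fun q => E.indicator (1 : Q → ℂ) q * E.indicator (1 : Q → ℂ) (S^[n] q) *
        (u₀ (S^[n] q) * conj (u₀ q))) :=
      BMs.mul (BMs.mul (hIa a hya) ((hIa a hya).comp hSan))
        (BMs.mul (hu₀a.comp hSan) hu₀a.conj)
    have hB : BMs b (fun q => E.indicator (1 : Q → ℂ) q * E.indicator (1 : Q → ℂ) (S^[n] q) *
        (c₁ ^ n * (κ' (S^[n] q) * conj (κ' q)))) :=
      BMs.mul (BMs.mul (hIa b hyb) ((hIa b hyb).comp hSbn))
        (BMs.mul (BMs.const b _) (BMs.mul (hκ'b.comp hSbn) hκ'b.conj))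
    refine CI3.inter y a b c θ ha hb hc hya hyb hyc hCI (BMs.mono ha hA) (AEM.of_meas hA.1) ?_
    refine (AEM.of_meas hB.1).congr ?_
    filter_upwards [key, (hS.toMeasurePreserving.iterate n).quasiMeasurePreserving.ae key,
      heig n] with q h3 h4 h5
    by_cases hq : q ∈ E
    · by_cases hq' : S^[n] q ∈ E
      · rw [h3 hq, h4 hq', h5, map_mul]
        have h6 : ψ₁ q * conj (ψ₁ q) = 1 := by
          rw [Complex.mul_conj', e1.norm]
          simp
        calc E.indicator (1 : Q → ℂ) q * E.indicator (1 : Q → ℂ) (S^[n] q) *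
              (c₁ ^ n * (κ' (S^[n] q) * conj (κ' q)))
            = E.indicator (1 : Q → ℂ) q * E.indicator (1 : Q → ℂ) (S^[n] q) *
              (c₁ ^ n * (κ' (S^[n] q) * conj (κ' q))) * 1 := by ring
          _ = E.indicator (1 : Q → ℂ) q * E.indicator (1 : Q → ℂ) (S^[n] q) *
              (c₁ ^ n * (κ' (S^[n] q) * conj (κ' q))) * (ψ₁ q * conj (ψ₁ q)) := by rw [h6]
          _ = E.indicator (1 : Q → ℂ) q * E.indicator (1 : Q → ℂ) (S^[n] q) *
              (c₁ ^ n * ψ₁ q * κ' (S^[n] q) * (conj (ψ₁ q) * conj (κ' q))) := by ring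
      · rw [Set.indicator_of_notMem hq']
        ring
    · rw [Set.indicator_of_notMem hq]
      ring
  obtain ⟨u, hu1, hu2, hu3, hu4⟩ := first_return y θ S hS hy hSy hE hE0
    (BMs.mono ha hu₀a).1 (fun q _ => hu₀1 q) hcoc
  -- the function `K`
  have hf1 : BMs a (fun q => E.indicator (1 : Q → ℂ) q * (a₀ q * u₀ q)) :=
    BMs.mul (hIa a hya) (BMs.mul ha₀ hu₀a)
  have hf2 : BMs b (fun q => b₁ q * conj (κ' q)) := BMs.mul hb₁ hκ'b.conj
  obtain ⟨K, hK, hK3⟩ := sp2_ver y θ hy (BMs.mono ha hf1)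
  have hprod := hCI _ _ (fun _ => 1) hf1 hf2 (BMs.const c 1)
  have hEq : (fun q => E.indicator (1 : Q → ℂ) q * (a₀ q * b₁ q * ψ₁ q)) =ᵐ[θ]
      fun q => E.indicator (1 : Q → ℂ) q * (a₀ q * u₀ q) * (b₁ q * conj (κ' q)) * 1 := by
    filter_upwards [key] with q h3
    by_cases hq : q ∈ E
    · rw [h3 hq]
      have h6 : κ' q * conj (κ' q) = 1 := by
        rw [Complex.mul_conj', hκ'1]
        simp
      calc E.indicator (1 : Q → ℂ) q * (a₀ q * b₁ q * ψ₁ q)
          = E.indicator (1 : Q → ℂ) q * (a₀ q * b₁ q * ψ₁ q) * 1 := by ring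
        _ = E.indicator (1 : Q → ℂ) q * (a₀ q * b₁ q * ψ₁ q) * (κ' q * conj (κ' q)) := by rw [h6]
        _ = _ := by ring
    · rw [Set.indicator_of_notMem hq]
      ring
  have hpull := sp2_pull y θ hy (hIa y le_rfl) hNB
  have hcc : θ[fun q => E.indicator (1 : Q → ℂ) q * (a₀ q * b₁ q * ψ₁ q) | y] =ᵐ[θ]
      θ[fun q => E.indicator (1 : Q → ℂ) q * (a₀ q * u₀ q) * (b₁ q * conj (κ' q)) * 1 | y] :=
    condExp_congr_ae hEq
  have hKne : ∀ᵐ q ∂θ, q ∈ E ∩ {q | N q ≠ 0} → K q ≠ 0 := by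
    filter_upwards [hprod, hpull, hcc, hN3, hK3] with q h3 h4 h5 h6 h7 h8 h9
    rw [h4, h3, h6, h7, h9, Set.indicator_of_mem h8.1] at h5
    have h10 : N q = 0 := by
      have h11 : (1 : Q → ℂ) q * N q = N q := one_mul _
      rw [← h11, h5]
      ring
    exact h8.2 h10
  have hα : BMs y (fun q => conj (K q) * E.indicator (1 : Q → ℂ) q) :=
    BMs.mul hK.conj (hIa y le_rfl)
  refine ⟨u, fun q => conj (K q) * E.indicator (1 : Q → ℂ) q, hu1, hu2, hu4, hα, ?_⟩
  have hI : ∫ q, a₀ q * u q * (conj (K q) * E.indicator (1 : Q → ℂ) q) ∂θ =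
      ((∫ q, ‖K q‖ ^ 2 ∂θ : ℝ) : ℂ) := by
    have h3 : ∫ q, a₀ q * u q * (conj (K q) * E.indicator (1 : Q → ℂ) q) ∂θ =
        ∫ q, conj (K q) * (E.indicator (1 : Q → ℂ) q * (a₀ q * u₀ q)) ∂θ := by
      refine integral_congr_ae (ae_of_all _ fun q => ?_)
      show a₀ q * u q * (conj (K q) * E.indicator (1 : Q → ℂ) q) =
        conj (K q) * (E.indicator (1 : Q → ℂ) q * (a₀ q * u₀ q))
      by_cases hq : q ∈ E
      · rw [hu3 q hq]
        ring
      · rw [Set.indicator_of_notMem hq]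
        ring
    rw [h3, ← integral_mul_condExp y θ hy (BMs.mono ha hf1) hK.conj]
    have h4 : ∫ q, conj (K q) *
        (θ[fun q => E.indicator (1 : Q → ℂ) q * (a₀ q * u₀ q) | y]) q ∂θ =
        ∫ q, ((‖K q‖ ^ 2 : ℝ) : ℂ) ∂θ := by
      refine integral_congr_ae ?_
      filter_upwards [hK3] with q h5
      rw [h5, Complex.conj_mul', Complex.ofReal_pow]
    rw [h4]
    exact integral_ofReal
  rw [hI]
  intro h0
  have h3 : ∫ q, ‖K q‖ ^ 2 ∂θ = 0 := by exact_mod_cast h0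
  have h4 := (integral_eq_zero_iff_of_nonneg (fun q => sq_nonneg _)
    (bas_int_sq (BMs.mono hy hK) θ)).1 h3
  apply hEN
  rw [measure_eq_zero_iff_ae_notMem]
  filter_upwards [h4, hKne] with q h5 h6 h7
  have h8 : ‖K q‖ ^ 2 = 0 := h5
  exact h6 h7 (norm_eq_zero.1 (pow_eq_zero_iff (two_ne_zero) |>.1 h8))

end Pool.Agent.HK820

end
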