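import Pool.Agent.Lib_MP_820dd4_hk.FA
import Pool.Agent.Lib_MP_820dd4_hk.HS
import Pool.Agent.Lib_MP_820dd4_hk.RelC
import Pool.Agent.Lib_MP_820dd4_hk.Gen
import Pool.Agent.Lib_MP_820dd4_hk.BasE
import Pool.Agent.Lib_MP_820dd4_hk.JN
import Pool.Agent.Lib_MP_820dd4_hk.SP2

/-! ### Part `KG` -/

section

open MeasureTheory ProbabilityTheory Filter Topology
open scoped ComplexConjugate ENNReal

namespace Pool.Agent.HK820

theorem kg_glue_tArr {X : Type} [MeasurableSpace X] (T : X ≃ᵐ X) {k : ℕ}
    (x y : Arr (Fin 2) X k) :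
    tArr T (Fin 2) (k + 1) (glue ![x, y]) =
      glue ![tArr T (Fin 2) k x, tArr T (Fin 2) k y] := by
  rw [← glue_slice (tArr T (Fin 2) (k + 1) (glue ![x, y]))]
  congr 1
  funext i
  rw [slice_tArr, slice_glue]
  fin_cases i <;> rfl

theorem kg_meas_glue {X : Type} [MeasurableSpace X] {k : ℕ} :
    Measurable (fun z : Arr (Fin 2) X k × Arr (Fin 2) X k =>
      (glue ![z.1, z.2] : Arr (Fin 2) X (k + 1))) := by
  refine measurable_glue.comp (measurable_pi_iff.2 fun i => ?_)
  fin_cases i
  · exact measurable_fst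
  · exact measurable_snd

theorem kg_dd_glue {X : Type} (k : ℕ) (g : X → ℂ) (x y : Arr (Fin 2) X k) :
    dd (k + 1) g (glue ![x, y]) = dd k g x * conj (dd k g y) := by
  rw [dd_succ, slice_glue, slice_glue]
  rfl

theorem kg_herm {X : Type} [MeasurableSpace X] [StandardBorelSpace X] (μ : Measure X)
    [IsProbabilityMeasure μ] (T : X ≃ᵐ X) (hT : MeasurePreserving T μ μ) (k : ℕ) {g : X → ℂ}
    (hg : BM g) {W : Arr (Fin 2) X (k + 1) → ℂ}
    (hW : (cube μ T (Fin 2) (k + 1))[dd (k + 1) g | Inv (tArr T (Fin 2) (k + 1))]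
      =ᵐ[cube μ T (Fin 2) (k + 1)] W) :
    ∀ᵐ x ∂(cube μ T (Fin 2) (k + 1)), W (glue ![slice x 1, slice x 0]) = conj (W x) := by
  set C1 := cube μ T (Fin 2) (k + 1) with hC1
  set t1 := tArr T (Fin 2) (k + 1) with ht1
  have hD : BM (dd (k + 1) g) := dd_bm (k + 1) hg
  have hsw := cube_swap μ T k
  have ht := cube_tArr μ T hT (Fin 2) (k + 1)
  have hfm : FMap C1 t1 C1 t1 (fun x : Arr (Fin 2) X (k + 1) => glue ![slice x 1, slice x 0]) := by
    refine ⟨hsw, Eventually.of_forall fun x => ?_⟩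
    show glue ![slice (t1 x) 1, slice (t1 x) 0] = t1 (glue ![slice x 1, slice x 0])
    rw [ht1, kg_glue_tArr, slice_tArr, slice_tArr]
  have h1 := condExp_inv_comp ht ht hfm hD
  have h2 : (fun x : Arr (Fin 2) X (k + 1) => dd (k + 1) g (glue ![slice x 1, slice x 0])) =
      fun x => conj (dd (k + 1) g x) := by
    funext x
    rw [kg_dd_glue, dd_succ, map_mul, Complex.conj_conj]
    ring
  rw [h2] at h1
  have h3 := cubd_condExp_conj (Inv t1) C1 hD
  have h4 := hsw.quasiMeasurePreserving.ae_eq_comp hW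
  filter_upwards [h1, h3, h4, hW] with x e1 e3 e4 e5
  simp only [Function.comp_apply] at e4
  rw [← e4, ← e1, e3, e5]

/-- **KG.** The kernel of the seminorm of order `k + 2`, acting on the `k`-th derivative.

Proof. `C = cube μ T (Fin 2) k`, `κ = condExpKernel C (Inv tArr)`, `G = dd k g`. Let `W` be a bounded
`Inv (tArr (k+1))`-measurable version of `E[dd (k+1) g | Inv]` in `cube (k+1)`, so
`W (tArr x) = W x` for every `x`, `W' x y = W (glue ![x, y])`, and
`KG x = ∫ W' x y * G y ∂(κ x)`. (i) By `gn_succ`, `dd_succ` and `integral_relInd_two` (`glue_mp`):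
`gn (k+2) g = ∫ ‖W‖² = ∫ conj (dd (k+1) g) * W = ∫ conj (G x) * G y * W' x y = ∫ conj (G x) * KG x`.
(ii) Hermitian symmetry: the exchange of slices preserves `cube (k+1)` (`cube_swap`), commutes with
the diagonal transformation and maps `dd (k+1) g` to its conjugate, so `W' y x = conj (W' x y)`
almost everywhere for `relInd (Inv tArr) C (Fin 2)`, hence for almost every `p`,
`κ p × κ p`-almost everywhere (by `integral_relInd` or `ae_relInd_two` and `condExpKernel_self`).
(iii) For almost every `p`: `κ p` is ergodic (`ergodic_decomp`), `κ x = κ p` for `κ p`-almost every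
`x` (`condExpKernel_self`), so `KG x = ∫ W' x y G y ∂(κ p)` for these `x`, and if
`∫ Φ KG ∂(κ p) ≠ 0` then `exists_eigenfunction` (HS) applies to `ν = κ p`, `W'`, `Φ`, `F = G`. -/
theorem exists_KG {X : Type} [MeasurableSpace X] [StandardBorelSpace X] (μ : Measure X)
    [IsProbabilityMeasure μ] (T : X ≃ᵐ X) (hT : MeasurePreserving T μ μ) (k : ℕ) {g : X → ℂ}
    (hg : BM g) :
    ∃ KG : Arr (Fin 2) X k → ℂ, BM KG ∧
      ∫ x, conj (dd k g x) * KG x ∂(cube μ T (Fin 2) k) = gn μ T (k + 2) g ∧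
      ∀ᵐ p ∂(cube μ T (Fin 2) k), ∀ Φ : Arr (Fin 2) X k → ℂ, BM Φ →
        ∫ x, Φ x * KG x ∂(condExpKernel (cube μ T (Fin 2) k) (Inv (tArr T (Fin 2) k)) p) ≠ 0 →
        ∃ (ψ : Arr (Fin 2) X k → ℂ) (c : ℂ),
          IsEig (condExpKernel (cube μ T (Fin 2) k) (Inv (tArr T (Fin 2) k)) p)
            (tArr T (Fin 2) k) ψ c ∧
          ∫ x, Φ x * ψ x ∂(condExpKernel (cube μ T (Fin 2) k) (Inv (tArr T (Fin 2) k)) p) ≠ 0 := by
  classical
  have hC : IsProbabilityMeasure (cube μ T (Fin 2) k) := cube_prob μ T (Fin 2) k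
  have hC1 : IsProbabilityMeasure (cube μ T (Fin 2) (k + 1)) := cube_prob μ T (Fin 2) (k + 1)
  set C := cube μ T (Fin 2) k with hCdef
  set C1 := cube μ T (Fin 2) (k + 1) with hC1def
  set tk := tArr T (Fin 2) k with htk
  set t1 := tArr T (Fin 2) (k + 1) with ht1
  have htC : MeasurePreserving tk C C := cube_tArr μ T hT (Fin 2) k
  have hm : Inv tk ≤ (inferInstance : MeasurableSpace (Arr (Fin 2) X k)) :=
    MeasurableSpace.invariants_le tk
  have hm1 : Inv t1 ≤ (inferInstance : MeasurableSpace (Arr (Fin 2) X (k + 1))) :=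
    MeasurableSpace.invariants_le t1
  have hD : BM (dd (k + 1) g) := dd_bm (k + 1) hg
  have hG : BM (dd k g) := dd_bm k hg
  obtain ⟨hDm, B, hB⟩ := hD
  have hD : BM (dd (k + 1) g) := dd_bm (k + 1) hg
  obtain ⟨W, hWm, hWB, hW⟩ := exists_bms_condExp (Inv t1) C1 hm1 hDm hB
  have hWm' : Measurable W := hWm.mono hm1 le_rfl
  have hWinv : ∀ x, W (t1 x) = W x := fun x =>
    congrFun (MeasurableSpace.comp_eq_of_measurable_invariants hWm) x
  have hherm := kg_herm μ T hT k hg hW
  -- the kernel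
  have hW2 : BM (fun z : Arr (Fin 2) X k × Arr (Fin 2) X k => W (glue ![z.1, z.2])) :=
    ⟨hWm'.comp kg_meas_glue, B, fun z => hWB _⟩
  obtain ⟨hGm, BG, hBG⟩ := hG
  have hG : BM (dd k g) := dd_bm k hg
  have hM := relC_markov (Inv tk) C
  have hprob : ∀ x, IsProbabilityMeasure (condExpKernel C (Inv tk) x) := relA_prob (Inv tk) C
  have hB0 : 0 ≤ B := (norm_nonneg _).trans (hB (fun _ => (Classical.choice
    (nonempty_of_isProbabilityMeasure μ))))
  have hKG : BM (fun x => ∫ y, W (glue ![x, y]) * dd k g y ∂(condExpKernel C (Inv tk) x)) := by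
    refine ⟨?_, B * BG, fun x => ?_⟩
    · have h1 : StronglyMeasurable (fun z : Arr (Fin 2) X k × Arr (Fin 2) X k =>
          W (glue ![z.1, z.2]) * dd k g z.2) :=
        (hW2.1.mul (hGm.comp measurable_snd)).stronglyMeasurable
      have h2 := h1.integral_kernel_prod_right' (κ := relC_ker (Inv tk) C)
      exact h2.measurable
    · have h3 : ∀ᵐ y ∂(condExpKernel C (Inv tk) x), ‖W (glue ![x, y]) * dd k g y‖ ≤ B * BG := by
        refine Eventually.of_forall fun y => ?_
        rw [norm_mul]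
        exact mul_le_mul (hWB _) (hBG _) (norm_nonneg _) hB0
      have h4 := norm_integral_le_of_norm_le_const h3
      simpa using h4
  refine ⟨_, hKG, ?_, ?_⟩
  · -- the value of the seminorm
    have hDW : BM (fun x => conj (dd (k + 1) g x) * W x) :=
      BMs.mul (BMs.conj hD) ⟨hWm', B, hWB⟩
    have e1 : gn μ T (k + 2) g = ∫ x, conj (dd (k + 1) g x) * W x ∂C1 := by
      have h1 := gn_succ μ T (k + 1) hg
      have h2 := integral_mul_conj_condExp (Inv t1) C1 hm1 hD
      have h3 : gn μ T (k + 2) g = conj (gn μ T (k + 2) g) := by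
        rw [h1, Complex.conj_ofReal]
      rw [h3, h1, ← hC1def, ← ht1, ← h2, ← integral_conj]
      refine integral_congr_ae ?_
      filter_upwards [hW] with x hx
      rw [map_mul, Complex.conj_conj, hx]
    have hglue := glue_mp μ T (Fin 2) k
    have e2 : ∫ x, conj (dd (k + 1) g x) * W x ∂C1 =
        ∫ z, conj (dd (k + 1) g (glue z)) * W (glue z) ∂(relInd (Inv tk) C (Fin 2)) := by
      have h1 : AEStronglyMeasurable (fun x => conj (dd (k + 1) g x) * W x)
          ((relInd (Inv tk) C (Fin 2)).map glue) := hDW.1.aestronglyMeasurable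
      rw [← integral_map hglue.measurable.aemeasurable h1, hglue.map_eq]
    have hF : BM (fun z : Fin 2 → Arr (Fin 2) X k =>
        conj (dd (k + 1) g (glue z)) * W (glue z)) := by
      exact BMs.comp (m' := inferInstance) hDW measurable_glue
    rw [e1, e2, integral_relInd_two (Inv tk) C hm hF]
    refine integral_congr_ae (Eventually.of_forall fun x => ?_)
    show conj (dd k g x) * ∫ y, W (glue ![x, y]) * dd k g y ∂(condExpKernel C (Inv tk) x) =
      ∫ y, conj (dd (k + 1) g (glue ![x, y])) * W (glue ![x, y]) ∂(condExpKernel C (Inv tk) x)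
    rw [← integral_const_mul]
    refine integral_congr_ae (Eventually.of_forall fun y => ?_)
    show conj (dd k g x) * (W (glue ![x, y]) * dd k g y) =
      conj (dd (k + 1) g (glue ![x, y])) * W (glue ![x, y])
    rw [kg_dd_glue, map_mul, Complex.conj_conj]
    ring
  · -- eigenfunctions
    have herm2 : ∀ᵐ x ∂C, ∀ᵐ y ∂(condExpKernel C (Inv tk) x),
        W (glue ![y, x]) = conj (W (glue ![x, y])) := by
      refine ae_relInd_two (Inv tk) C hm (P := fun x y =>
        W (glue ![y, x]) = conj (W (glue ![x, y]))) ?_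
      have hglue := glue_mp μ T (Fin 2) k
      have h1 := hglue.quasiMeasurePreserving.ae hherm
      filter_upwards [h1] with z hz
      rw [slice_glue, slice_glue] at hz
      have hz2 : (![z 0, z 1] : Fin 2 → Arr (Fin 2) X k) = z := by
        funext i
        fin_cases i <;> rfl
      rw [hz2]
      exact hz
    have h1 := ae_ae_condExpKernel (Inv tk) C hm herm2
    have h2 := condExpKernel_self (Inv tk) C hm
    have h3 := ergodic_decomp C tk htC
    filter_upwards [h1, h2, h3] with p p1 p2 p3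
    intro Φ hΦ hne
    have hpp : IsProbabilityMeasure (condExpKernel C (Inv tk) p) := hprob p
    have hWh : ∀ᵐ z ∂((condExpKernel C (Inv tk) p).prod (condExpKernel C (Inv tk) p)),
        W (glue ![z.2, z.1]) = conj (W (glue ![z.1, z.2])) := by
      have hms : MeasurableSet {z : Arr (Fin 2) X k × Arr (Fin 2) X k |
          W (glue ![z.2, z.1]) = conj (W (glue ![z.1, z.2]))} := by
        refine measurableSet_eq_fun ?_ ?_
        · exact hW2.1.comp measurable_swap
        · exact Complex.continuous_conj.measurable.comp hW2.1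
      rw [Measure.ae_prod_iff_ae_ae hms]
      filter_upwards [p1, p2] with x e1 e2
      rw [e2] at e1
      exact e1
    have hWS : ∀ᵐ z ∂((condExpKernel C (Inv tk) p).prod (condExpKernel C (Inv tk) p)),
        W (glue ![tk z.1, tk z.2]) = W (glue ![z.1, z.2]) := by
      refine Eventually.of_forall fun z => ?_
      rw [htk, ← kg_glue_tArr]
      exact hWinv _
    have hne2 : ∫ x, ∫ y, Φ x * W (glue ![x, y]) * dd k g y ∂(condExpKernel C (Inv tk) p)
        ∂(condExpKernel C (Inv tk) p) ≠ 0 := by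
      have e : ∫ x, ∫ y, Φ x * W (glue ![x, y]) * dd k g y ∂(condExpKernel C (Inv tk) p)
          ∂(condExpKernel C (Inv tk) p) =
          ∫ x, Φ x * ∫ y, W (glue ![x, y]) * dd k g y ∂(condExpKernel C (Inv tk) x)
            ∂(condExpKernel C (Inv tk) p) := by
        refine integral_congr_ae ?_
        filter_upwards [p2] with x e2
        rw [e2, ← integral_const_mul]
        refine integral_congr_ae (Eventually.of_forall fun y => ?_)
        show Φ x * W (glue ![x, y]) * dd k g y = Φ x * (W (glue ![x, y]) * dd k g y)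
        ring
      rw [e]
      exact hne
    obtain ⟨ψ, c, a1, a2, a3, a4, a5⟩ := exists_eigenfunction (condExpKernel C (Inv tk) p) tk p3
      (fun x y => W (glue ![x, y])) hW2 hWh hWS hΦ hG hne2
    exact ⟨ψ, c, ⟨a1, a2, a3, a4⟩, a5⟩

end Pool.Agent.HK820

end

/-! ### Part `RI1` -/

section

open MeasureTheory ProbabilityTheory Filter Topology
open scoped ComplexConjugate ENNReal

namespace Pool.Agent.HK820

/-- a countable π-system of measurable sets that generates and contains the whole space -/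
private theorem ri1_gen (Y : Type) [mY : MeasurableSpace Y] [StandardBorelSpace Y] :
    ∃ C : Set (Set Y), C.Countable ∧ mY = MeasurableSpace.generateFrom C ∧ IsPiSystem C ∧
      (∀ A ∈ C, MeasurableSet A) ∧ Set.univ ∈ C := by
  have hgen : mY = MeasurableSpace.generateFrom
      (generateSetAlgebra (MeasurableSpace.countableGeneratingSet Y)) := by
    rw [generateFrom_generateSetAlgebra_eq]
    exact MeasurableSpace.generateFrom_countableGeneratingSet.symm
  refine ⟨generateSetAlgebra (MeasurableSpace.countableGeneratingSet Y),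
    countable_generateSetAlgebra (MeasurableSpace.countable_countableGeneratingSet), hgen,
    fun s hs t ht _ => isSetAlgebra_generateSetAlgebra.inter_mem hs ht, ?_,
    isSetAlgebra_generateSetAlgebra.univ_mem⟩
  intro A hA
  rw [hgen]
  exact MeasurableSpace.measurableSet_generateFrom hA

private theorem ri1_bm {Y : Type} [MeasurableSpace Y] {A : Set Y} (hA : MeasurableSet A) :
    BM (A.indicator (fun _ => (1 : ℂ))) := (BMs.const _ 1).indicator hA

private theorem ri1_int {Y : Type} [MeasurableSpace Y] (m : Measure Y) {A : Set Y}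
    (hA : MeasurableSet A) : ∫ y, A.indicator (fun _ => (1 : ℂ)) y ∂m = ((m A).toReal : ℂ) := by
  rw [integral_indicator hA, setIntegral_const, Measure.real]
  simp

private theorem ri1_box {I X : Type} [Fintype I] (A : I → Set X) (x : I → X) :
    ∏ i, (A i).indicator (fun _ => (1 : ℂ)) (x i) =
      (Set.pi Set.univ A).indicator (fun _ => (1 : ℂ)) x := by
  classical
  by_cases hx : x ∈ Set.pi Set.univ A
  · rw [Set.indicator_of_mem hx]
    refine Finset.prod_eq_one fun i _ => ?_
    rw [Set.indicator_of_mem (hx i (Set.mem_univ i))]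
  · rw [Set.indicator_of_notMem hx]
    rw [Set.mem_univ_pi, not_forall] at hx
    obtain ⟨i, hi⟩ := hx
    exact Finset.prod_eq_zero (Finset.mem_univ i) (Set.indicator_of_notMem hi _)

/-- products of conditional measures along the coordinates are a measurable family -/
private theorem ri1_meas {I X : Type} [Fintype I] (m : MeasurableSpace X) [mX : MeasurableSpace X]
    [StandardBorelSpace X] (μ : Measure X) [IsProbabilityMeasure μ] :
    Measurable (fun x : I → X => Measure.pi (fun v : I => condExpKernel μ m (x v))) := by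
  have hP := relA_prob m μ
  have hP' : ∀ x : I → X,
      IsProbabilityMeasure (Measure.pi (fun v : I => condExpKernel μ m (x v))) :=
    fun y => inferInstance
  refine Measurable.measure_of_isPiSystem_of_isProbabilityMeasure generateFrom_pi.symm
    isPiSystem_pi ?_
  rintro _ ⟨s, hs, rfl⟩
  have h1 : (fun x : I → X => Measure.pi (fun v : I => condExpKernel μ m (x v))
      (Set.pi Set.univ s)) = fun x => ∏ v, condExpKernel μ m (x v) (s v) := by
    funext y
    exact Measure.pi_pi _ _
  rw [h1]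
  refine Finset.measurable_prod _ fun i _ => ?_
  have h2 : MeasurableSet (s i) := hs i (Set.mem_univ i)
  exact ((Measure.measurable_coe h2).comp (relA_meas m μ)).comp (measurable_pi_apply i)

/-- product functions integrated against the relatively independent resampling -/
private theorem ri1_bind {I X : Type} [Fintype I] (m : MeasurableSpace X) [mX : MeasurableSpace X]
    [StandardBorelSpace X] (μ : Measure X) [IsProbabilityMeasure μ] (hm : m ≤ mX)
    (P : Measure (I → X)) [IsProbabilityMeasure P]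
    (hP : ∀ v, MeasurePreserving (fun x : I → X => x v) P μ) {H : I → X → ℂ}
    (hH : ∀ v, BM (H v)) :
    ∫ z, ∏ v, H v (z v) ∂(P.bind (fun x => Measure.pi (fun v : I => condExpKernel μ m (x v)))) =
      ∫ x, ∏ v, (μ[H v | m]) (x v) ∂P := by
  have hK := relA_prob m μ
  have hF : BM (fun z : I → X => ∏ i, H i (z i)) :=
    BMs.prod _ fun i => BMs.comp (m' := mX) (hH i) (measurable_pi_apply i)
  have hPb : IsProbabilityMeasure
      (P.bind (fun x => Measure.pi (fun v : I => condExpKernel μ m (x v)))) := by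
    refine ⟨?_⟩
    rw [Measure.bind_apply MeasurableSet.univ (ri1_meas m μ).aemeasurable]
    simp
  have hint : Integrable (fun z : I → X => ∏ i, H i (z i))
    (P.bind (fun x => Measure.pi (fun v : I => condExpKernel μ m (x v)))) := hF.integrable _
  have h1 : P.bind (fun x => Measure.pi (fun v : I => condExpKernel μ m (x v))) =
      ((⟨fun x : I → X => Measure.pi (fun v : I => condExpKernel μ m (x v)),
      ri1_meas m μ⟩ : Kernel (I → X) (I → X)) ∘ₖ (Kernel.const Unit P)) () := by
    exact Measure.comp_eq_comp_const_apply (κ := (⟨fun x : I → X => Measure.pi (fun v : I =>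
      condExpKernel μ m (x v)), ri1_meas m μ⟩ : Kernel (I → X) (I → X))) (μ := P)
  rw [h1] at hint ⊢
  rw [Kernel.integral_comp hint]
  have h2 : ∀ᵐ x ∂P, ∀ v, (μ[H v | m]) (x v) = ∫ y, H v y ∂(condExpKernel μ m (x v)) := by
    rw [ae_all_iff]
    intro v
    exact (hP v).quasiMeasurePreserving.ae
      (condExp_ae_eq_integral_condExpKernel hm ((hH v).integrable μ))
  rw [Kernel.const_apply]
  refine integral_congr_ae ?_
  filter_upwards [h2] with x hx
  show ∫ z, ∏ i, H i (z i) ∂(Measure.pi (fun v : I => condExpKernel μ m (x v))) = _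
  rw [integral_fintype_prod_eq_prod (fun i => H i)]
  exact Finset.prod_congr rfl fun i _ => (hx i).symm

/-- relative independence is tested on the boxes of a countable generating π-system -/
private theorem ri1_all {I X : Type} [Fintype I] (m : MeasurableSpace X) [mX : MeasurableSpace X]
    [StandardBorelSpace X] (μ : Measure X) [IsProbabilityMeasure μ] (hm : m ≤ mX)
    (P : Measure (I → X)) [IsProbabilityMeasure P]
    (hP : ∀ v, MeasurePreserving (fun x : I → X => x v) P μ) (C : Set (Set X))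
    (hgen : mX = MeasurableSpace.generateFrom C) (hpi : IsPiSystem C)
    (hmeas : ∀ A ∈ C, MeasurableSet A) (huniv : Set.univ ∈ C)
    (h : ∀ A : I → Set X, (∀ v, A v ∈ C) →
      ∫ x, ∏ v, (A v).indicator (fun _ => (1 : ℂ)) (x v) ∂P =
      ∫ x, ∏ v, (μ[(A v).indicator (fun _ => (1 : ℂ)) | m]) (x v) ∂P)
    (f : I → X → ℂ) (hf : ∀ v, BM (f v)) :
    ∫ x, ∏ v, f v (x v) ∂P = ∫ x, ∏ v, (μ[f v | m]) (x v) ∂P := by
  have hK := relA_prob m μ
  have hPb : IsProbabilityMeasure
      (P.bind (fun x => Measure.pi (fun v : I => condExpKernel μ m (x v)))) := by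
    refine ⟨?_⟩
    rw [Measure.bind_apply MeasurableSet.univ (ri1_meas m μ).aemeasurable]
    simp
  have key : P = P.bind (fun x => Measure.pi (fun v : I => condExpKernel μ m (x v))) := by
    have hg : (MeasurableSpace.pi : MeasurableSpace (I → X)) =
        MeasurableSpace.generateFrom (Set.pi Set.univ '' Set.pi Set.univ fun _ : I => C) := by
      rw [← generateFrom_eq_pi (fun _ => hgen.symm)
        (fun _ => ⟨fun _ => Set.univ, fun _ => huniv, Set.iUnion_const _⟩)]
    refine ext_of_generate_finite _ hg (IsPiSystem.pi fun _ => hpi) ?_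
      (by rw [measure_univ, measure_univ])
    rintro _ ⟨A, hA, rfl⟩
    have hA' : ∀ v, A v ∈ C := fun v => hA v (Set.mem_univ v)
    have hm' : MeasurableSet (Set.pi Set.univ A) :=
      MeasurableSet.univ_pi fun v => hmeas _ (hA' v)
    have e1 := h A hA'
    rw [← ri1_bind m μ hm P hP fun v => ri1_bm (hmeas _ (hA' v))] at e1
    simp only [ri1_box] at e1
    rw [ri1_int _ hm', ri1_int _ hm'] at e1
    have e2 : (P (Set.pi Set.univ A)).toReal =
      (P.bind (fun x => Measure.pi (fun v : I => condExpKernel μ m (x v)))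
        (Set.pi Set.univ A)).toReal := by exact_mod_cast e1
    exact (ENNReal.toReal_eq_toReal_iff' (measure_ne_top _ _) (measure_ne_top _ _)).1 e2
  rw [← ri1_bind m μ hm P hP hf, ← key]

/-- the identity for a fixed family of functions -/
private theorem ri1_fixed {X : Type} [MeasurableSpace X] [StandardBorelSpace X] (μ : Measure X)
    [IsProbabilityMeasure μ] (T : X ≃ᵐ X) (hT : MeasurePreserving T μ μ) {ι : Type} [Fintype ι]
    (D k : ℕ) (hD : D ≤ k) {f g : (Fin D → ι) → X → ℂ} (hf : ∀ v, BM (f v))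
    (hg : ∀ v, BM (g v)) (hfg : ∀ v, μ[f v | Zalg μ T k] =ᵐ[μ] g v) :
    ∀ᵐ q ∂(cube μ T ι D),
      ∫ x, ∏ v, f v (x v) ∂(condExpKernel (cube μ T ι D) (Inv (tArr T ι D)) q) =
      ∫ x, ∏ v, g v (x v) ∂(condExpKernel (cube μ T ι D) (Inv (tArr T ι D)) q) := by
  have hInv : Inv (tArr T ι D) ≤ (inferInstance : MeasurableSpace (Arr ι X D)) :=
    MeasurableSpace.invariants_le _
  have hle : ∀ v : Fin D → ι, MeasurableSpace.comap (fun x : Arr ι X D => x v) (Zalg μ T k) ≤
      (inferInstance : MeasurableSpace (Arr ι X D)) := fun v =>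
    (MeasurableSpace.comap_mono (Zalg_le μ T k)).trans (measurable_pi_apply v).comap_le
  have hpw : pw (ι := ι) (Zalg μ T k) D ≤ (inferInstance : MeasurableSpace (Arr ι X D)) :=
    iSup_le hle
  have hF : BM (fun x : Arr ι X D => ∏ v, f v (x v)) :=
    BMs.prod Finset.univ fun v => BMs.comp (hf v) (measurable_pi_apply v)
  have hG : BM (fun x : Arr ι X D => ∏ v, g v (x v)) :=
    BMs.prod Finset.univ fun v => BMs.comp (hg v) (measurable_pi_apply v)
  have h0 : (cube μ T ι D)[fun x => ∏ v, f v (x v) - ∏ v, g v (x v) | Inv (tArr T ι D)]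
      =ᵐ[cube μ T ι D] 0 := by
    rw [condExp_eq_zero_iff _ _ hInv (BMs.sub hF hG)]
    intro γ hγ
    have hγb : BM γ := BMs.mono hInv hγ
    have hinv : (fun x => γ (tArr T ι D x)) = γ := by
      have := MeasurableSpace.comp_eq_of_measurable_invariants hγ.1
      exact this
    obtain ⟨K, hK⟩ := hγ.2
    have hne : Nonempty (Arr ι X D) := nonempty_of_isProbabilityMeasure (cube μ T ι D)
    have hK0 : 0 ≤ K := by
      obtain ⟨x₀⟩ := hne
      exact (norm_nonneg _).trans (hK x₀)
    obtain ⟨γ', h1, h2, h3⟩ := (inv_pw μ T hT D k hD hγb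
      (Eventually.of_forall fun x => congrFun hinv x)).bounded hK0 (Eventually.of_forall hK)
    have hγ' : BMs (pw (ι := ι) (Zalg μ T k) D) γ' := ⟨h1, K, h2⟩
    have e1 := integral_mul_condExp _ (cube μ T ι D) hpw hF hγ'
    have e2 : ∫ x, γ' x * ((cube μ T ι D)[fun x => ∏ v, f v (x v) | pw (Zalg μ T k) D]) x
        ∂(cube μ T ι D) = ∫ x, γ' x * ∏ v, g v (x v) ∂(cube μ T ι D) := by
      refine integral_congr_ae ?_
      filter_upwards [condExp_pw μ T hT D k (hD.trans (Nat.le_succ k)) f hf,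
        ZD_vertex_ae μ T D hfg] with x hx1 hx2
      rw [hx1]
      congr 1
      exact Finset.prod_congr rfl fun v _ => hx2 v
    have e3 : ∫ x, γ x * (∏ v, f v (x v) - ∏ v, g v (x v)) ∂(cube μ T ι D) =
        ∫ x, (γ' x * ∏ v, f v (x v) - γ' x * ∏ v, g v (x v)) ∂(cube μ T ι D) := by
      refine integral_congr_ae ?_
      filter_upwards [h3] with x hx
      rw [hx, mul_sub]
    rw [e3, integral_sub
      (BM.integrable (BMs.mul (BMs.mono hpw hγ') hF) _)
      (BM.integrable (BMs.mul (BMs.mono hpw hγ') hG) _), ← e1, e2, sub_self]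
  have h1 : (cube μ T ι D)[fun x => ∏ v, f v (x v) - ∏ v, g v (x v) | Inv (tArr T ι D)]
      =ᵐ[cube μ T ι D] (cube μ T ι D)[fun x => ∏ v, f v (x v) | Inv (tArr T ι D)] -
        (cube μ T ι D)[fun x => ∏ v, g v (x v) | Inv (tArr T ι D)] :=
    condExp_sub (hF.integrable _) (hG.integrable _) _
  filter_upwards [h0, h1, condExp_ae_eq_integral_condExpKernel hInv (hF.integrable
    (cube μ T ι D)), condExp_ae_eq_integral_condExpKernel hInv (hG.integrable (cube μ T ι D))]
    with q q0 q1 q2 q3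
  rw [← q2, ← q3]
  have q4 := q0.symm.trans q1
  rw [Pi.zero_apply, Pi.sub_apply] at q4
  exact sub_eq_zero.1 q4.symm

/-- **RI1.** Almost every ergodic component of the cube system of dimension `D ≤ k` has vertices
with law `μ`, relatively independent over `Zalg k`.

Proof. Marginals: `map_condExpKernel`/`fmap_condExpKernel` for the factor maps `x ↦ x v`
(`cube_eval_fmap`, `T` ergodic). Let `C = cube μ T ι D`, `κ = condExpKernel C (Inv tArr)`. For bounded
measurable `f v` and an invariant bounded `g`, `g` is `AEM (pw (Zalg k))` (`inv_pw`), so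
`∫ g ∏ f v (x v) ∂C = ∫ g ∏ E[f v|Zalg k] (x v) ∂C` (`condExp_pw`); therefore for every FIXED family
`f` the identity of the statement holds for almost every `q` (`condExp_eq_zero_iff` for
`m = Inv`, `condExp_ae_eq_integral_condExpKernel`). To have it for all `f` simultaneously: let
`κ' q = (κ q).bind (fun x => Measure.pi (fun v => condExpKernel μ (Zalg μ T k) (x v)))`; for the
indicators of sets from a countable generating algebra of `X` the identity says that `κ q` and
`κ' q` agree on boxes (`condExp_ae_eq_integral_condExpKernel` for `μ` transported by the marginals);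
so for almost every `q`, `κ q = κ' q`, which gives the identity for all `f`. -/
theorem ri_component {X : Type} [MeasurableSpace X] [StandardBorelSpace X] (μ : Measure X)
    [IsProbabilityMeasure μ] (T : X ≃ᵐ X) (hT : Ergodic T μ) {ι : Type} [Fintype ι]
    (D k : ℕ) (hD : D ≤ k) :
    ∀ᵐ q ∂(cube μ T ι D), RI (Zalg μ T k) μ
      (condExpKernel (cube μ T ι D) (Inv (tArr T ι D)) q) := by
  have hmp := hT.toMeasurePreserving
  have hZ := Zalg_le μ T k
  obtain ⟨C, hCc, hgen, hpi, hmeas, huniv⟩ := ri1_gen X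
  have hCc' : Countable C := hCc.to_subtype
  have h1 : ∀ᵐ q ∂(cube μ T ι D), ∀ v : Fin D → ι, MeasurePreserving (fun x : Arr ι X D => x v)
      (condExpKernel (cube μ T ι D) (Inv (tArr T ι D)) q) μ := by
    rw [ae_all_iff]
    intro v
    filter_upwards [fmap_condExpKernel (cube_tArr μ T hmp ι D) hT (cube_eval_fmap μ T ι D v)]
      with q hq
    exact hq.mp
  have hb : ∀ A : C, ∃ g : X → ℂ, Measurable[Zalg μ T k] g ∧ (∀ x, ‖g x‖ ≤ 1) ∧
      μ[A.1.indicator (fun _ => (1 : ℂ)) | Zalg μ T k] =ᵐ[μ] g := by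
    intro A
    refine exists_bms_condExp (Zalg μ T k) μ hZ (ri1_bm (hmeas _ A.2)).1 fun x => ?_
    by_cases hx : x ∈ A.1
    · rw [Set.indicator_of_mem hx, norm_one]
    · rw [Set.indicator_of_notMem hx, norm_zero]
      exact zero_le_one
  choose g hg1 hg2 hg3 using hb
  have h2 : ∀ᵐ q ∂(cube μ T ι D), ∀ A : (Fin D → ι) → C,
      ∫ x, ∏ v, (A v).1.indicator (fun _ => (1 : ℂ)) (x v)
        ∂(condExpKernel (cube μ T ι D) (Inv (tArr T ι D)) q) =
      ∫ x, ∏ v, g (A v) (x v) ∂(condExpKernel (cube μ T ι D) (Inv (tArr T ι D)) q) := by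
    rw [ae_all_iff]
    intro A
    exact ri1_fixed μ T hmp D k hD (fun v => ri1_bm (hmeas _ (A v).2))
      (fun v => ⟨(hg1 (A v)).mono hZ le_rfl, 1, hg2 (A v)⟩) fun v => hg3 (A v)
  filter_upwards [h1, h2] with q hq1 hq2
  have := relA_prob (Inv (tArr T ι D)) (cube μ T ι D) q
  refine ⟨hq1, fun f hf => ?_⟩
  refine ri1_all (Zalg μ T k) μ hZ _ hq1 C hgen hpi hmeas huniv (fun A hA => ?_) f hf
  rw [hq2 fun v => ⟨A v, hA v⟩]
  refine integral_congr_ae ?_
  have h3 : ∀ᵐ x ∂(condExpKernel (cube μ T ι D) (Inv (tArr T ι D)) q), ∀ v,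
      (μ[(A v).indicator (fun _ => (1 : ℂ)) | Zalg μ T k]) (x v) = g ⟨A v, hA v⟩ (x v) := by
    rw [ae_all_iff]
    intro v
    exact (hq1 v).quasiMeasurePreserving.ae (hg3 ⟨A v, hA v⟩)
  filter_upwards [h3] with x hx
  exact Finset.prod_congr rfl fun v _ => (hx v).symm

end Pool.Agent.HK820

end

/-! ### Part `RI2` -/

section

open MeasureTheory ProbabilityTheory Filter Topology
open scoped ComplexConjugate ENNReal

namespace Pool.Agent.HK820

/-- a bounded function measurable for a coordinate factors through the coordinate -/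
private theorem RI2_fac {I X : Type} (v : I) (m' : MeasurableSpace X) {g : (I → X) → ℂ}
    (hg : BMs (MeasurableSpace.comap (fun x : I → X => x v) m') g) :
    ∃ g' : X → ℂ, BMs m' g' ∧ ∀ x, g x = g' (x v) := by
  obtain ⟨hg1, C, hC⟩ := hg
  obtain ⟨h, hh, hgh⟩ := hg1.exists_eq_measurable_comp
  refine ⟨h, ⟨hh, C, fun x => ?_⟩, fun x => ?_⟩
  · have h1 := hC (fun _ => x)
    rw [hgh] at h1
    exact h1
  · rw [hgh]
    rfl

private theorem RI2_le {I X : Type} (v : I) (m' : MeasurableSpace X) [mX : MeasurableSpace X]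
    (hm : m' ≤ mX) : MeasurableSpace.comap (fun x : I → X => x v) m' ≤
      (inferInstance : MeasurableSpace (I → X)) :=
  (MeasurableSpace.comap_mono hm).trans (measurable_pi_apply v).comap_le

private theorem RI2_meas {I X : Type} (v : I) (m' : MeasurableSpace X) :
    Measurable[MeasurableSpace.comap (fun x : I → X => x v) m', m'] (fun x : I → X => x v) :=
  comap_measurable _

/-- conditional expectation of a product of functions of the coordinates -/
private theorem RI2_prod {I X : Type} [Fintype I] (m : MeasurableSpace X) [mX : MeasurableSpace X]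
    (μ : Measure X) [IsProbabilityMeasure μ] (hm : m ≤ mX) (P : Measure (I → X))
    [IsProbabilityMeasure P] (h : RI m μ P) (f : I → X → ℂ) (hf : ∀ v, BM (f v)) :
    P[fun x => ∏ v, f v (x v) | pwI m] =ᵐ[P] fun x => ∏ v, (μ[f v | m]) (x v) := by
  have hmg : ∀ v, ∃ e : X → ℂ, BMs m e ∧ μ[f v | m] =ᵐ[μ] e := by
    intro v
    obtain ⟨hf1, C, hC⟩ := hf v
    obtain ⟨e, he1, he2, he3⟩ := exists_bms_condExp m μ hm hf1 hC
    exact ⟨e, ⟨he1, C, he2⟩, he3⟩
  choose e he1 he2 using hmg
  have hle : (pwI m : MeasurableSpace (I → X)) ≤ (inferInstance : MeasurableSpace (I → X)) :=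
    iSup_le fun v => RI2_le v m hm
  have hcoord : ∀ (v : I) (a : X → ℂ), BM a → BM (fun x : I → X => a (x v)) := fun v a ha =>
    BMs.comp ha (measurable_pi_apply v)
  have hF1 : BM (fun x : I → X => ∏ v, f v (x v)) :=
    BMs.prod Finset.univ (fun v => hcoord v _ (hf v))
  have hF2y : BMs (pwI m) (fun x : I → X => ∏ v, e v (x v)) := by
    refine BMs.prod Finset.univ (fun v => ?_)
    refine BMs.mono (le_iSup (fun v : I => MeasurableSpace.comap (fun x : I → X => x v) m) v) ?_
    exact BMs.comp (he1 v) (RI2_meas v m)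
  have hF2 : BM (fun x : I → X => ∏ v, e v (x v)) := BMs.mono hle hF2y
  have hkey : P[fun x => ∏ v, f v (x v) - ∏ v, e v (x v) | pwI m] =ᵐ[P] 0 := by
    refine condExp_iSup_zero (fun v : I => MeasurableSpace.comap (fun x : I → X => x v) m) P
      (fun v => RI2_le v m hm) (BMs.sub hF1 hF2) ?_
    intro g hg
    choose g' hg1 hg2 using fun v => RI2_fac v m (hg v)
    have hg1' : ∀ v, BM (g' v) := fun v => BMs.mono hm (hg1 v)
    have he1' : ∀ v, BM (e v) := fun v => BMs.mono hm (he1 v)
    have e1 := h.2 (fun v x => g' v x * f v x) (fun v => BMs.mul (hg1' v) (hf v))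
    have hpull : ∀ v, μ[fun x => g' v x * f v x | m] =ᵐ[μ] fun x => g' v x * e v x := by
      intro v
      obtain ⟨hg3, C, hC⟩ := hg1 v
      have h1 : μ[fun x => g' v x * f v x | m] =ᵐ[μ] fun x => g' v x * (μ[f v | m]) x :=
        condExp_stronglyMeasurable_bilin_of_bound (ContinuousLinearMap.mul ℝ ℂ) hm
          hg3.stronglyMeasurable ((hf v).integrable μ) C (ae_of_all μ hC)
      filter_upwards [h1, he2 v] with x h2 h3
      rw [h2, h3]
    have hall : ∀ᵐ x ∂P, ∀ v, (μ[fun x => g' v x * f v x | m]) (x v) = g' v (x v) * e v (x v) := by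
      refine ae_all_iff.2 fun v => ?_
      exact (h.1 v).quasiMeasurePreserving.ae_eq_comp (hpull v)
    have e2 : ∫ x, ∏ v, (μ[fun x => g' v x * f v x | m]) (x v) ∂P =
        ∫ x, ∏ v, (g' v (x v) * e v (x v)) ∂P := by
      refine integral_congr_ae ?_
      filter_upwards [hall] with x hx
      exact Finset.prod_congr rfl fun v _ => hx v
    have e3 : ∀ x : I → X, (∏ v, f v (x v) - ∏ v, e v (x v)) * ∏ v, g v x =
        ∏ v, (g' v (x v) * f v (x v)) - ∏ v, (g' v (x v) * e v (x v)) := by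
      intro x
      rw [Finset.prod_mul_distrib, Finset.prod_mul_distrib,
        Finset.prod_congr rfl (fun v _ => hg2 v x)]
      ring
    simp only [e3]
    have hi1 : Integrable (fun x : I → X => ∏ v, (g' v (x v) * f v (x v))) P :=
      BM.integrable (BMs.prod Finset.univ
        (fun v => hcoord v _ (BMs.mul (hg1' v) (hf v)))) P
    have hi2 : Integrable (fun x : I → X => ∏ v, (g' v (x v) * e v (x v))) P :=
      BM.integrable (BMs.prod Finset.univ
        (fun v => hcoord v _ (BMs.mul (hg1' v) (he1' v)))) P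
    rw [integral_sub hi1 hi2, e1, e2, sub_self]
  have hsub : P[fun x => ∏ v, f v (x v) - ∏ v, e v (x v) | pwI m] =ᵐ[P]
      P[fun x => ∏ v, f v (x v) | pwI m] - P[fun x => ∏ v, e v (x v) | pwI m] :=
    condExp_sub (hF1.integrable P) (hF2.integrable P) _
  have hself : P[fun x => ∏ v, e v (x v) | pwI m] = fun x : I → X => ∏ v, e v (x v) :=
    condExp_of_stronglyMeasurable hle hF2y.1.stronglyMeasurable (hF2.integrable P)
  have hall2 : ∀ᵐ x ∂P, ∀ v, (μ[f v | m]) (x v) = e v (x v) := by
    refine ae_all_iff.2 fun v => ?_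
    exact (h.1 v).quasiMeasurePreserving.ae_eq_comp (he2 v)
  filter_upwards [hkey, hsub, hall2] with x h1 h2 h3
  rw [h1, Pi.sub_apply, hself] at h2
  have h4 : (P[fun x => ∏ v, f v (x v) | pwI m]) x = ∏ v, e v (x v) :=
    (sub_eq_zero.1 h2.symm)
  rw [h4]
  exact Finset.prod_congr rfl fun v _ => (h3 v).symm

/-- the identity to be proved -/
private def RI2_P {Q : Type} (y : MeasurableSpace Q) [MeasurableSpace Q] (θ : Measure Q)
    (f g h : Q → ℂ) : Prop :=
  θ[fun q => f q * g q * h q | y] =ᵐ[θ] fun q => (θ[f | y]) q * (θ[g | y]) q * (θ[h | y]) q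

private theorem RI2_P.swap12 {Q : Type} {y : MeasurableSpace Q} [MeasurableSpace Q]
    {θ : Measure Q} {f g h : Q → ℂ} (H : RI2_P y θ f g h) : RI2_P y θ g f h := by
  unfold RI2_P at H ⊢
  have e1 : (fun q => g q * f q * h q) = fun q => f q * g q * h q := by
    funext q; ring
  rw [e1]
  filter_upwards [H] with q hq
  rw [hq]; ring

private theorem RI2_P.swap13 {Q : Type} {y : MeasurableSpace Q} [MeasurableSpace Q]
    {θ : Measure Q} {f g h : Q → ℂ} (H : RI2_P y θ f g h) : RI2_P y θ h g f := by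
  unfold RI2_P at H ⊢
  have e1 : (fun q => h q * g q * f q) = fun q => f q * g q * h q := by
    funext q; ring
  rw [e1]
  filter_upwards [H] with q hq
  rw [hq]; ring

/-- extension in the first slot -/
private theorem RI2_slot {Q ι : Type} [Fintype ι] (y : MeasurableSpace Q)
    (M : ι → MeasurableSpace Q) [mQ : MeasurableSpace Q]
    (θ : Measure Q) [IsProbabilityMeasure θ] (hy : y ≤ mQ) (hM : ∀ i, M i ≤ mQ) {g h : Q → ℂ}
    (hg : BM g) (hh : BM h)
    (H : ∀ a : ι → Q → ℂ, (∀ i, BMs (M i) (a i)) → RI2_P y θ (fun q => ∏ i, a i q) g h)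
    {f : Q → ℂ} (hf : BMs (⨆ i, M i) f) : RI2_P y θ f g h := by
  have hMle : (⨆ i, M i) ≤ mQ := iSup_le hM
  have hfB : BM f := BMs.mono hMle hf
  have hex : ∀ {k : Q → ℂ}, BM k → ∃ e : Q → ℂ, BMs y e ∧ θ[k | y] =ᵐ[θ] e := by
    intro k hk
    obtain ⟨hk1, C, hC⟩ := hk
    obtain ⟨e, he1, he2, he3⟩ := exists_bms_condExp y θ hy hk1 hC
    exact ⟨e, ⟨he1, C, he2⟩, he3⟩
  obtain ⟨f₁, hf1, hf2⟩ := hex hfB
  obtain ⟨g₁, hg1, hg2⟩ := hex hg
  obtain ⟨h₁, hh1, hh2⟩ := hex hh
  have hgB : BM g₁ := BMs.mono hy hg1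
  have hhB : BM h₁ := BMs.mono hy hh1
  have hmain : θ[fun q => f q * g q * h q | y] =ᵐ[θ] fun q => f₁ q * g₁ q * h₁ q := by
    refine condExp_eq_of_forall y θ hy (BMs.mul (BMs.mul hfB hg) hh)
      (BMs.mul (BMs.mul hf1 hg1) hh1) ?_
    intro k hk
    have hkB : BM k := BMs.mono hy hk
    -- the function `D`
    have hD : BM (fun q => k q * (g q * h q - g₁ q * h₁ q)) :=
      BMs.mul hkB (BMs.sub (BMs.mul hg hh) (BMs.mul hgB hhB))
    have hDD : BM (fun q => k q * (g q * h q)) := BMs.mul hkB (BMs.mul hg hh)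
    have hDE : BM (fun q => k q * (g₁ q * h₁ q)) := BMs.mul hkB (BMs.mul hgB hhB)
    have hid : ∀ {s : Q → ℂ}, BM s → ∫ q, k q * (g₁ q * h₁ q) * (θ[s | y]) q ∂θ =
        ∫ q, k q * (g₁ q * h₁ q) * s q ∂θ := fun hs =>
      integral_mul_condExp y θ hy hs (BMs.mul hk (BMs.mul hg1 hh1))
    have hz : θ[fun q => k q * (g q * h q - g₁ q * h₁ q) | ⨆ i, M i] =ᵐ[θ] 0 := by
      refine condExp_iSup_zero M θ hM hD ?_
      intro a ha
      have haB : BM (fun q => ∏ i, a i q) :=
        BMs.prod Finset.univ (fun i => BMs.mono (hM i) (ha i))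
      have h1 := H a ha
      unfold RI2_P at h1
      have h2 : ∫ q, k q * ((∏ i, a i q) * g q * h q) ∂θ =
          ∫ q, k q * (g₁ q * h₁ q) * (θ[fun q => ∏ i, a i q | y]) q ∂θ := by
        rw [← integral_mul_condExp y θ hy (BMs.mul (BMs.mul haB hg) hh) hk]
        refine integral_congr_ae ?_
        filter_upwards [h1, hg2, hh2] with q q1 q2 q3
        rw [q1, q2, q3]
        ring
      rw [hid haB] at h2
      have h3 : ∀ q, k q * (g q * h q - g₁ q * h₁ q) * ∏ i, a i q =
          k q * ((∏ i, a i q) * g q * h q) - k q * (g₁ q * h₁ q) * ∏ i, a i q := by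
        intro q; ring
      simp only [h3]
      rw [integral_sub, h2, sub_self]
      · exact BM.integrable (BMs.mul hkB (BMs.mul (BMs.mul haB hg) hh)) θ
      · exact BM.integrable (BMs.mul hDE haB) θ
    have h4 := (condExp_eq_zero_iff (⨆ i, M i) θ hMle hD).1 hz f hf
    have h5 : ∀ q, f q * (k q * (g q * h q - g₁ q * h₁ q)) =
        k q * (f q * g q * h q) - k q * (g₁ q * h₁ q) * f q := by
      intro q; ring
    simp only [h5] at h4
    rw [integral_sub] at h4
    · rw [sub_eq_zero.1 h4, ← hid hfB]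
      refine integral_congr_ae ?_
      filter_upwards [hf2] with q q1
      rw [q1]
      ring
    · exact BM.integrable (BMs.mul hkB (BMs.mul (BMs.mul hfB hg) hh)) θ
    · exact BM.integrable (BMs.mul hDE hfB) θ
  unfold RI2_P
  filter_upwards [hmain, hf2, hg2, hh2] with q q1 q2 q3 q4
  rw [q1, q2, q3, q4]

open Classical in
/-- the family of `σ`-algebras -/
private noncomputable def RI2_M {I X : Type} (m : MeasurableSpace X) [mX : MeasurableSpace X]
    (J : Set I) (v : I) : MeasurableSpace X := if v ∈ J then mX else m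

private theorem RI2_M_le {I X : Type} (m : MeasurableSpace X) [mX : MeasurableSpace X]
    (hm : m ≤ mX) (J : Set I) (v : I) : RI2_M m J v ≤ mX := by
  unfold RI2_M
  by_cases h : v ∈ J
  · rw [if_pos h]
  · rw [if_neg h]; exact hm

private theorem RI2_M_of_notMem {I X : Type} (m : MeasurableSpace X) [mX : MeasurableSpace X]
    {J : Set I} {v : I} (h : v ∉ J) : RI2_M m J v = m := if_neg h

private theorem RI2_sup_le {I X : Type} (m : MeasurableSpace X) [mX : MeasurableSpace X]
    (hm : m ≤ mX) (J : Set I) : (pwI m ⊔ genI J : MeasurableSpace (I → X)) ≤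
      ⨆ v, MeasurableSpace.comap (fun x : I → X => x v) (RI2_M m J v) := by
  refine sup_le (iSup_le fun v => ?_) (iSup_le fun v => ?_)
  · refine le_trans (MeasurableSpace.comap_mono ?_)
      (le_iSup (fun v => MeasurableSpace.comap (fun x : I → X => x v) (RI2_M m J v)) v)
    unfold RI2_M
    by_cases h : v ∈ J
    · rw [if_pos h]; exact hm
    · rw [if_neg h]
  · refine le_trans (MeasurableSpace.comap_mono ?_)
      (le_iSup (fun v => MeasurableSpace.comap (fun x : I → X => x v) (RI2_M m J v)) v.1)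
    unfold RI2_M
    rw [if_pos v.2]

/-- pointwise product formula when two of three functions are `m`-measurable -/
private theorem RI2_three {X : Type} (m : MeasurableSpace X) [mX : MeasurableSpace X]
    (μ : Measure X) [IsProbabilityMeasure μ] (hm : m ≤ mX) {a b c : X → ℂ} (ha : BM a)
    (hb : BMs m b) (hc : BMs m c) :
    μ[fun x => a x * b x * c x | m] =ᵐ[μ] fun x => (μ[a | m]) x * (μ[b | m]) x * (μ[c | m]) x := by
  have hbB : BM b := BMs.mono hm hb
  have hcB : BM c := BMs.mono hm hc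
  have e1 : μ[b | m] = b :=
    condExp_of_stronglyMeasurable hm hb.1.stronglyMeasurable (hbB.integrable μ)
  have e2 : μ[c | m] = c :=
    condExp_of_stronglyMeasurable hm hc.1.stronglyMeasurable (hcB.integrable μ)
  obtain ⟨hbc, C, hC⟩ := BMs.mul hb hc
  have h1 : μ[fun x => b x * c x * a x | m] =ᵐ[μ] fun x => b x * c x * (μ[a | m]) x :=
    condExp_stronglyMeasurable_bilin_of_bound (ContinuousLinearMap.mul ℝ ℂ) hm
      hbc.stronglyMeasurable (ha.integrable μ) C (ae_of_all μ hC)
  have e3 : (fun x => a x * b x * c x) = fun x => b x * c x * a x := by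
    funext x; ring
  rw [e3, e1, e2]
  filter_upwards [h1] with x hx
  rw [hx]; ring

/-- **RI2.** Relative independence implies mutual conditional independence of the σ-algebras
generated by disjoint sets of coordinates.

Proof. Step 1: for bounded measurable `f v`, `E[∏ f v (x v) | pwI m] = ∏ E[f v | m] (x v)`: test
against products of bounded `m`-measurable functions `h v` (`condExp_iSup_zero`), apply the
identity in `RI` to `f v * h v` and to `E[f v|m] * h v`. Step 2: a bounded function measurable for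
`pwI m ⊔ genI I₁` is approximated in `L²` by finite sums of products `∏ v, y v (x v) * ∏_{v ∈ I₁} f v
(x v)` with `y v` bounded and `m`-measurable (`approx_iSup` for the family of σ-algebras
`comap (eval v) m`, `comap (eval v) mX` (`v ∈ I₁`), after rewriting the supremum as a supremum over
a finite type); similarly for `I₂`, `I₃`. For such products the claim follows from step 1 and the
pull-out property (the sets are pairwise disjoint). Both sides of the claim are continuous in each
of `f, g, h` (for `L²` approximations with bounded functions: approximate `f` first with `g, h` fixed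
bounded, then `g`, then `h`; the approximants are bounded although not uniformly, so do it one
function after the other, in `L¹`). -/
theorem RI.ci3 {I X : Type} [Fintype I] (m : MeasurableSpace X) [mX : MeasurableSpace X]
    (μ : Measure X) [IsProbabilityMeasure μ] (hm : m ≤ mX) (P : Measure (I → X))
    [IsProbabilityMeasure P] (h : RI m μ P) (I₁ I₂ I₃ : Set I) (h12 : Disjoint I₁ I₂)
    (h13 : Disjoint I₁ I₃) (h23 : Disjoint I₂ I₃) :
    CI3 (pwI m) (pwI m ⊔ genI I₁) (pwI m ⊔ genI I₂) (pwI m ⊔ genI I₃) P := by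
  have hle : (pwI m : MeasurableSpace (I → X)) ≤ (inferInstance : MeasurableSpace (I → X)) :=
    iSup_le fun v => RI2_le v m hm
  have hMle : ∀ (J : Set I) (v : I), MeasurableSpace.comap (fun x : I → X => x v) (RI2_M m J v) ≤
      (inferInstance : MeasurableSpace (I → X)) := fun J v => RI2_le v _ (RI2_M_le m hm J v)
  -- products
  have hpr : ∀ a b c : I → (I → X) → ℂ,
      (∀ v, BMs (MeasurableSpace.comap (fun x : I → X => x v) (RI2_M m I₁ v)) (a v)) →
      (∀ v, BMs (MeasurableSpace.comap (fun x : I → X => x v) (RI2_M m I₂ v)) (b v)) →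
      (∀ v, BMs (MeasurableSpace.comap (fun x : I → X => x v) (RI2_M m I₃ v)) (c v)) →
      RI2_P (pwI m) P (fun x => ∏ v, a v x) (fun x => ∏ v, b v x) (fun x => ∏ v, c v x) := by
    intro a b c ha hb hc
    choose a' ha1 ha2 using fun v => RI2_fac v _ (ha v)
    choose b' hb1 hb2 using fun v => RI2_fac v _ (hb v)
    choose c' hc1 hc2 using fun v => RI2_fac v _ (hc v)
    have haB : ∀ v, BM (a' v) := fun v => BMs.mono (RI2_M_le m hm I₁ v) (ha1 v)
    have hbB : ∀ v, BM (b' v) := fun v => BMs.mono (RI2_M_le m hm I₂ v) (hb1 v)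
    have hcB : ∀ v, BM (c' v) := fun v => BMs.mono (RI2_M_le m hm I₃ v) (hc1 v)
    have hthree : ∀ v, μ[fun x => a' v x * b' v x * c' v x | m] =ᵐ[μ]
        fun x => (μ[a' v | m]) x * (μ[b' v | m]) x * (μ[c' v | m]) x := by
      intro v
      have ham : v ∉ I₁ → BMs m (a' v) := fun hv => by
        have := ha1 v
        rwa [RI2_M_of_notMem m hv] at this
      have hbm : v ∉ I₂ → BMs m (b' v) := fun hv => by
        have := hb1 v
        rwa [RI2_M_of_notMem m hv] at this
      have hcm : v ∉ I₃ → BMs m (c' v) := fun hv => by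
        have := hc1 v
        rwa [RI2_M_of_notMem m hv] at this
      by_cases hv1 : v ∈ I₁
      · exact RI2_three m μ hm (haB v) (hbm (Set.disjoint_left.1 h12 hv1))
          (hcm (Set.disjoint_left.1 h13 hv1))
      · by_cases hv2 : v ∈ I₂
        · have h4 := RI2_three m μ hm (hbB v) (ham hv1) (hcm (Set.disjoint_left.1 h23 hv2))
          have e3 : (fun x => a' v x * b' v x * c' v x) = fun x => b' v x * a' v x * c' v x := by
            funext x; ring
          rw [e3]
          filter_upwards [h4] with x hx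
          rw [hx]; ring
        · have h4 := RI2_three m μ hm (hcB v) (ham hv1) (hbm hv2)
          have e3 : (fun x => a' v x * b' v x * c' v x) = fun x => c' v x * a' v x * b' v x := by
            funext x; ring
          rw [e3]
          filter_upwards [h4] with x hx
          rw [hx]; ring
    have hall : ∀ᵐ x ∂P, ∀ v, (μ[fun x => a' v x * b' v x * c' v x | m]) (x v) =
        (μ[a' v | m]) (x v) * (μ[b' v | m]) (x v) * (μ[c' v | m]) (x v) := by
      refine ae_all_iff.2 fun v => ?_
      exact (h.1 v).quasiMeasurePreserving.ae_eq_comp (hthree v)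
    have q1 := RI2_prod m μ hm P h a' haB
    have q2 := RI2_prod m μ hm P h b' hbB
    have q3 := RI2_prod m μ hm P h c' hcB
    have q4 := RI2_prod m μ hm P h (fun v x => a' v x * b' v x * c' v x)
      (fun v => BMs.mul (BMs.mul (haB v) (hbB v)) (hcB v))
    have ea : (fun x : I → X => ∏ v, a v x) = fun x => ∏ v, a' v (x v) := by
      funext x
      exact Finset.prod_congr rfl fun v _ => ha2 v x
    have eb : (fun x : I → X => ∏ v, b v x) = fun x => ∏ v, b' v (x v) := by
      funext x
      exact Finset.prod_congr rfl fun v _ => hb2 v x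
    have ec : (fun x : I → X => ∏ v, c v x) = fun x => ∏ v, c' v (x v) := by
      funext x
      exact Finset.prod_congr rfl fun v _ => hc2 v x
    rw [ea, eb, ec]
    unfold RI2_P
    have eabc : (fun x : I → X => (∏ v, a' v (x v)) * (∏ v, b' v (x v)) * ∏ v, c' v (x v)) =
        fun x => ∏ v, (a' v (x v) * b' v (x v) * c' v (x v)) := by
      funext x
      rw [Finset.prod_mul_distrib, Finset.prod_mul_distrib]
    rw [eabc]
    filter_upwards [q1, q2, q3, q4, hall] with x p1 p2 p3 p4 p5
    rw [p4, p1, p2, p3, Finset.prod_congr rfl (fun v _ => p5 v), Finset.prod_mul_distrib,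
      Finset.prod_mul_distrib]
  have hprB : ∀ (J : Set I) (a : I → (I → X) → ℂ),
      (∀ v, BMs (MeasurableSpace.comap (fun x : I → X => x v) (RI2_M m J v)) (a v)) →
      BM (fun x => ∏ v, a v x) := fun J a ha =>
    BMs.prod Finset.univ (fun v => BMs.mono (hMle J v) (ha v))
  intro f g k hf hg hk
  have hf' := BMs.mono (RI2_sup_le m hm I₁) hf
  have hg' := BMs.mono (RI2_sup_le m hm I₂) hg
  have hk' := BMs.mono (RI2_sup_le m hm I₃) hk
  have hfB : BM f := BMs.mono (iSup_le (hMle I₁)) hf'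
  have hgB : BM g := BMs.mono (iSup_le (hMle I₂)) hg'
  have s1 : ∀ b c : I → (I → X) → ℂ,
      (∀ v, BMs (MeasurableSpace.comap (fun x : I → X => x v) (RI2_M m I₂ v)) (b v)) →
      (∀ v, BMs (MeasurableSpace.comap (fun x : I → X => x v) (RI2_M m I₃ v)) (c v)) →
      RI2_P (pwI m) P f (fun x => ∏ v, b v x) (fun x => ∏ v, c v x) := by
    intro b c hb hc
    exact RI2_slot (pwI m) _ P hle (hMle I₁) (hprB _ b hb) (hprB _ c hc)
      (fun a ha => hpr a b c ha hb hc) hf'
  have s2 : ∀ c : I → (I → X) → ℂ,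
      (∀ v, BMs (MeasurableSpace.comap (fun x : I → X => x v) (RI2_M m I₃ v)) (c v)) →
      RI2_P (pwI m) P f g (fun x => ∏ v, c v x) := by
    intro c hc
    exact (RI2_slot (pwI m) _ P hle (hMle I₂) hfB (hprB _ c hc)
      (fun b hb => (s1 b c hb hc).swap12) hg').swap12
  exact (RI2_slot (pwI m) _ P hle (hMle I₃) hgB hfB
    (fun c hc => (s2 c hc).swap13) hk').swap13

end Pool.Agent.HK820

end

/-! ### Part `IV1` -/

section

open MeasureTheory ProbabilityTheory Filter Topology
open scoped ComplexConjugate ENNReal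

namespace Pool.Agent.HK820

/-- disintegration of a bounded function along a measure preserving map -/
theorem iv1_marg {Y X : Type} [mY : MeasurableSpace Y] [mX : MeasurableSpace X] {P : Measure Y}
    [IsProbabilityMeasure P] {μ : Measure X} {π : Y → X}
    (hπ : MeasurePreserving π P μ) {F : Y → ℂ} (hF : BM F) :
    ∃ g : X → ℂ, BM g ∧ ∀ φ : X → ℂ, BM φ → ∫ y, φ (π y) * F y ∂P = ∫ x, φ x * g x ∂μ := by
  obtain ⟨hFm, C, hC⟩ := hF
  have hle : mX.comap π ≤ mY := hπ.measurable.comap_le
  obtain ⟨G, hGm, hGC, hG⟩ := exists_bms_condExp (mX.comap π) P hle hFm hC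
  obtain ⟨g, hg, hgG⟩ := zb_factor (p := π) (⟨hGm, C, hGC⟩ : BMs (mX.comap π) G)
  refine ⟨g, hg, fun φ hφ => ?_⟩
  have hφπ : BMs (mX.comap π) (fun y => φ (π y)) := hφ.comp (comap_measurable π)
  have h1 := integral_mul_condExp (mX.comap π) P hle ⟨hFm, C, hC⟩ hφπ
  rw [← h1]
  have h2 : ∫ y, φ (π y) * (P[F | mX.comap π]) y ∂P = ∫ y, φ (π y) * g (π y) ∂P := by
    refine integral_congr_ae ?_
    filter_upwards [hG] with y hy
    rw [hy, hgG]
  rw [h2, ← hπ.map_eq, integral_map hπ.measurable.aemeasurable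
    (BMs.mul hφ hg).1.aestronglyMeasurable]

/-- the product over the vertices different from the root -/
noncomputable def iv1_H {X : Type} (k : ℕ) (f : X → ℂ) (x : Arr (Fin 2) X k) : ℂ :=
  ∏ v : {v : Fin k → Fin 2 // v ≠ 0}, cj (wt v.1) (f (x v.1))

theorem iv1_H_star {X : Type} [MeasurableSpace X] (k : ℕ) {f : X → ℂ} (hf : BM f) :
    BMs (starAlg X k) (iv1_H k f) := by
  classical
  exact BMs.prod (f := fun (v : {v : Fin k → Fin 2 // v ≠ 0}) (x : Arr (Fin 2) X k) =>
    cj (wt v.1) (f (x v.1))) Finset.univ fun v => (zb_star_eval hf v.2).cj _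

theorem iv1_H_bm {X : Type} [MeasurableSpace X] (k : ℕ) {f : X → ℂ} (hf : BM f) :
    BM (iv1_H k f) := (iv1_H_star k hf).mono (starAlg_le X k)

theorem iv1_dd {X : Type} (k : ℕ) (f : X → ℂ) (x : Arr (Fin 2) X k) :
    dd k f x = f (x 0) * iv1_H k f x := by
  classical
  have h0 : wt (0 : Fin k → Fin 2) = 0 := by simp [wt]
  unfold dd iv1_H
  rw [Fintype.prod_eq_mul_prod_subtype_ne (fun v : Fin k → Fin 2 => cj (wt v) (f (x v))) 0, h0]
  simp [cj]

theorem iv1_in3_inj : Function.Injective (in3 0) := by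
  intro a b h
  revert h
  revert a b
  decide

theorem iv1_out3_inj : Function.Injective out3 := by
  intro a b h
  revert h
  revert a b
  decide

theorem iv1_inn_zero {X : Type} (k : ℕ) (y : Arr (Fin 3) X k) : inn k y 0 = y 0 := by
  have h : (fun _ : Fin k => in3 0 0) = (0 : Fin k → Fin 3) := by
    funext j
    rfl
  show y (fun _ : Fin k => in3 0 0) = y 0
  rw [h]

theorem iv1_inn_T {X : Type} [MeasurableSpace X] (T : X ≃ᵐ X) (k : ℕ) (y : Arr (Fin 3) X k) :
    inn k (tArr T (Fin 3) k y) = tArr T (Fin 2) k (inn k y) := rfl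

theorem iv1_outp_T {X : Type} [MeasurableSpace X] (T : X ≃ᵐ X) (k : ℕ) (y : Arr (Fin 3) X k) :
    outp k (tArr T (Fin 3) k y) = tArr T (Fin 2) k (outp k y) := rfl

/-- the integral of the integrals against the conditional measures -/
theorem iv1_int_ker {Y : Type} (m : MeasurableSpace Y) [mY : MeasurableSpace Y]
    [StandardBorelSpace Y] (ν : Measure Y) [IsProbabilityMeasure ν] (hm : m ≤ mY) {G : Y → ℂ}
    (hG : BM G) : ∫ p, ∫ x, G x ∂(condExpKernel ν m p) ∂ν = ∫ x, G x ∂ν := by
  rw [← integral_condExp hm (f := G)]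
  exact integral_congr_ae (condExp_ae_eq_integral_condExpKernel hm (hG.integrable ν)).symm

theorem iv1_ker_bm {Y : Type} (m : MeasurableSpace Y) [mY : MeasurableSpace Y]
    [StandardBorelSpace Y] (ν : Measure Y) [IsProbabilityMeasure ν] (hm : m ≤ mY) {G : Y → ℂ}
    (hG : BM G) : BM (fun p => ∫ x, G x ∂(condExpKernel ν m p)) := by
  obtain ⟨h1, C, hC⟩ := hG
  exact za_int m ν hm (F := fun _ y => G y) (h1.comp measurable_snd) fun _ y => hC y

/-- integrals against a mixture of measures -/
theorem iv1_bind {Y : Type} (m : MeasurableSpace Y) [mY : MeasurableSpace Y]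
    [StandardBorelSpace Y] (ν : Measure Y) [IsProbabilityMeasure ν] (P : Measure Y)
    [IsProbabilityMeasure P] (h : P.bind (fun y => condExpKernel ν m y) = P) {G : Y → ℂ}
    (hG : BM G) : ∫ p, ∫ x, G x ∂(condExpKernel ν m p) ∂P = ∫ x, G x ∂P := by
  have hint : Integrable G P := hG.integrable P
  have hP : P = ((relC_ker m ν) ∘ₖ (Kernel.const Unit P)) () := by
    have h1 : P.bind (relC_ker m ν) = ((relC_ker m ν) ∘ₖ (Kernel.const Unit P)) () :=
      Measure.comp_eq_comp_const_apply
    rw [← h1]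
    exact h.symm
  rw [hP] at hint
  have h2 := Kernel.integral_comp hint
  rw [← hP] at h2
  exact h2.symm

/-- from an integral to a frequent value -/
theorem iv1_freq {Y : Type} [MeasurableSpace Y] {P : Measure Y} {F : Y → ℂ}
    (h : ∫ y, F y ∂P ≠ 0) : ∃ᶠ y in ae P, F y ≠ 0 := by
  intro h1
  apply h
  refine integral_eq_zero_of_ae ?_
  filter_upwards [h1] with y hy
  simpa using hy

/-- **IV1.** Choice of the components and of the two eigenfunctions.

Setting: `f` has order `k + 1` and `gn (k+2) f ≠ 0`. `C = cube μ T (Fin 2) k`,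
`κ = condExpKernel C (Inv tArr)`, `C₃ = cube μ T (Fin 3) k`, `F = dd k f = f (x 0) * H x` with
`H x = ∏_{v ≠ 0} cj (wt v) (f (x v))`.

Proof. (1) By `exists_KG` for `f`: `∫ conj F * KF ∂C = gn (k+2) f ≠ 0`, so
`∫ conj F KF ∂(κ p) ≠ 0` for a set `A` of points `p` of positive measure (`bind_condExpKernel`), and
for almost every `p` in `A` there is an eigenfunction `ψ` of `κ p` with `∫ conj F ψ ∂(κ p) ≠ 0`.
(2) `inn : C₃ → C` is measure preserving, so the set of `q` with `inn q ∈ A` has positive measure;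
choose `q` in it at which `mq_joint`, `mq_comp`, `ae_ae_condExpKernel`, the tower property
`condExpKernel_tower` for `innInv T k ≤ Inv`, and the marginal property `(κ p).map (x ↦ x 0) = μ` for
`p = inn q` hold. Let `ψ`, `c₁` be the eigenfunction of (1) for `p`.
(3) Let `g` be a bounded version of the conditional expectation of `ψ * conj H` given `x 0` under
`κ p`: `∫ φ (x 0) ψ conj H ∂(κ p) = ∫ φ g ∂μ` for all bounded `φ` (use `condDistrib` or
Radon-Nikodym/condExp on `comap`). Then `∫ conj f * g ∂μ = ∫ conj F ψ ∂(κ p) ≠ 0`, and `f` is `AEM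
(Zalg (k+1))`, so `E[g | Zalg (k+1)] ≠ 0` and `gn (k+2) g ≠ 0` (`gn_eq_zero_iff`).
(4) `exists_KG` for `g`: with `H' x = ∏_{v ≠ 0} cj (wt v) (g (x v))`,
`0 ≠ gn (k+2) g = ∫ conj (g (x 0)) conj (H' x) KG x ∂C = ∫ conj g * D ∂μ` with
`D = vE (conj H' * KG)` (`integral_vK`); and by `mq_joint`,
`∫ conj (ψ (inn y)) * H (inn y) * conj (H' (outp y)) * KG (outp y) ∂(m_q) = ∫ conj (ψ x) H x D (x 0)
∂(κ p) = ∫ conj g * D ∂μ ≠ 0`, `m_q` the conditional measure on `innInv` at `q`.
(5) By the tower property the last integral is the `m_q`-average of the integrals over the ergodic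
components `θ_{q'}`; so for a set of `q'` of positive `m_q`-measure
`∫ conj ψ(inn) H(inn) conj H'(outp) KG(outp) ∂θ_{q'} ≠ 0`. Choose such a `q'` which is generic for
`mq_comp` and for the property of `KG` in `exists_KG` (at `p' = outp q'`), for `RI` (`ri_component`,
`D = k`), ergodicity. Disintegrate over the outer pattern: with `Φ` a bounded function on cubes such
that `∫ conj ψ(inn) H(inn) conj H'(outp) φ(outp) ∂θ = ∫ Φ φ ∂(κ p')` for all bounded `φ`,
`∫ Φ KG ∂(κ p') ≠ 0`, so there is an eigenfunction `ψ'` of `κ p'` with `∫ Φ ψ' ∂(κ p') ≠ 0`. -/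
theorem iv_choice {X : Type} [MeasurableSpace X] [StandardBorelSpace X]
    (μ : Measure X) [IsProbabilityMeasure μ] (T : X ≃ᵐ X) (hT : Ergodic T μ) (k : ℕ) {f : X → ℂ}
    (hf : BM f) (hf' : AEM (Zalg μ T (k + 1)) μ f) (hg : gn μ T (k + 2) f ≠ 0) :
    ∃ (θ : Measure (Arr (Fin 3) X k)) (H H' ψ ψ' : Arr (Fin 2) X k → ℂ) (c₁ c₂ : ℂ),
      IsProbabilityMeasure θ ∧ Ergodic (tArr T (Fin 3) k) θ ∧ RI (Zalg μ T k) μ θ ∧
      BMs (starAlg X k) H ∧ BMs (starAlg X k) H' ∧
      IsEig θ (tArr T (Fin 3) k) (fun y => ψ (inn k y)) c₁ ∧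
      IsEig θ (tArr T (Fin 3) k) (fun y => ψ' (outp k y)) c₂ ∧
      Measurable ψ ∧ Measurable ψ' ∧
      ∫ y, conj (ψ (inn k y)) * ψ' (outp k y) * H (inn k y) * conj (H' (outp k y)) ∂θ ≠ 0 ∧
      ∫ y, conj (f (y 0)) * conj (H (inn k y)) * ψ (inn k y) ∂θ ≠ 0 := by
  classical
  have hX : Nonempty X := μ.nonempty_of_neZero
  have hTm : MeasurePreserving T μ μ := hT.toMeasurePreserving
  have hinn : FMap (cube μ T (Fin 3) k) (tArr T (Fin 3) k) (cube μ T (Fin 2) k)
      (tArr T (Fin 2) k) (inn k) := cube_rst hTm (fun _ => in3 0) (fun _ => iv1_in3_inj)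
  have hmi : Measurable (inn k : Arr (Fin 3) X k → Arr (Fin 2) X k) := sb_meas_rst _
  have hmo : Measurable (outp k : Arr (Fin 3) X k → Arr (Fin 2) X k) := sb_meas_rst _
  have hI2 : Inv (tArr T (Fin 2) k) ≤ (inferInstance : MeasurableSpace (Arr (Fin 2) X k)) :=
    cubb_inv_le _
  have hI3 : Inv (tArr T (Fin 3) k) ≤ (inferInstance : MeasurableSpace (Arr (Fin 3) X k)) :=
    cubb_inv_le _
  have hII : innInv T k ≤ (inferInstance : MeasurableSpace (Arr (Fin 3) X k)) :=
    (innInv_le T k).trans hI3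
  obtain ⟨KF, hKF, hKF1, hKF2⟩ := exists_KG μ T hTm k hf
  have hddf : BM (dd k f) := dd_bm k hf
  have hFK : BM (fun x => conj (dd k f x) * KF x) := BMs.mul (BMs.conj hddf) hKF
  -- the set of good points has positive measure
  have hfreq : ∃ᶠ q in ae (cube μ T (Fin 3) k),
      ∫ x, conj (dd k f x) * KF x
        ∂(condExpKernel (cube μ T (Fin 2) k) (Inv (tArr T (Fin 2) k)) (inn k q)) ≠ 0 := by
    apply iv1_freq
    have h1 := sb_integral_rst hTm (ι := Fin 3) (fun _ : Fin k => in3 0) (fun _ => iv1_in3_inj)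
      (iv1_ker_bm (Inv (tArr T (Fin 2) k)) (cube μ T (Fin 2) k) hI2 hFK)
    rw [iv1_int_ker _ _ hI2 hFK, hKF1] at h1
    intro h2
    exact hg (h1.symm.trans h2)
  have ha := hinn.mp.quasiMeasurePreserving.ae hKF2
  have hb := mq_joint μ T hTm k
  have hc := mq_comp μ T hTm k
  have hd := ae_ae_condExpKernel (innInv T k) (cube μ T (Fin 3) k) hII
    (ergodic_decomp (cube μ T (Fin 3) k) (tArr T (Fin 3) k) (cube_tArr μ T hTm (Fin 3) k))
  have he := ae_ae_condExpKernel (innInv T k) (cube μ T (Fin 3) k) hII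
    (ri_component μ T hT (ι := Fin 3) k k le_rfl)
  have hh := condExpKernel_tower (innInv T k) (Inv (tArr T (Fin 3) k)) (cube μ T (Fin 3) k)
    (innInv_le T k) hI3
  have hr := hinn.mp.quasiMeasurePreserving.ae (fmap_condExpKernel (cube_tArr μ T hTm (Fin 2) k)
    hT (cube_eval_fmap μ T (Fin 2) k 0))
  obtain ⟨q, hq, ⟨ha, hb, hc, hd, he, hh, hr⟩⟩ := (hfreq.and_eventually
    (ha.and (hb.and (hc.and (hd.and (he.and (hh.and hr))))))).exists
  have hνp := relA_prob (Inv (tArr T (Fin 2) k)) (cube μ T (Fin 2) k) (inn k q)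
  have hMp := relA_prob (innInv T k) (cube μ T (Fin 3) k) q
  set ν := condExpKernel (cube μ T (Fin 2) k) (Inv (tArr T (Fin 2) k)) (inn k q) with hν
  set M := condExpKernel (cube μ T (Fin 3) k) (innInv T k) q with hM
  obtain ⟨ψ, c₁, hψ, hψ1⟩ := ha (fun x => conj (dd k f x)) (BMs.conj hddf) hq
  have hψb : BM ψ := ⟨hψ.meas, 1, fun x => (hψ.norm x).le⟩
  have hHb : BM (iv1_H k f) := iv1_H_bm k hf
  obtain ⟨g, hgb, hgφ⟩ := iv1_marg hr.mp (F := fun x => ψ x * conj (iv1_H k f x))
    (BMs.mul hψb (BMs.conj hHb))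
  -- the function `g` correlates with `f`
  have hfg : ∫ a, conj (f a) * g a ∂μ ≠ 0 := by
    rw [← hgφ (fun a => conj (f a)) (BMs.conj hf)]
    intro h
    apply hψ1
    rw [← h]
    refine integral_congr_ae (Eventually.of_forall fun x => ?_)
    simp only [iv1_dd, map_mul]
    ring
  have hgn : gn μ T (k + 2) g ≠ 0 := by
    intro h0
    have h1 : μ[g | Zalg μ T (k + 1)] =ᵐ[μ] 0 := (gn_eq_zero_iff μ T hTm (k + 1) hgb).1 h0
    obtain ⟨-, Cf, hCf⟩ := id hf
    obtain ⟨f', hf'm, hf'C, hff'⟩ := AEM.bounded hf' (C := |Cf|) (abs_nonneg _)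
      (ae_of_all _ fun x => (hCf x).trans (le_abs_self _))
    have h2 := (condExp_eq_zero_iff (Zalg μ T (k + 1)) μ (Zalg_le μ T (k + 1)) hgb).1 h1
      (fun x => conj (f' x)) (BMs.conj ⟨hf'm, _, hf'C⟩)
    apply hfg
    rw [← h2]
    refine integral_congr_ae ?_
    filter_upwards [hff'] with x hx
    rw [hx]
  obtain ⟨KG, hKG, hKG1, hKG2⟩ := exists_KG μ T hTm k hgb
  have hH'b : BM (iv1_H k g) := iv1_H_bm k hgb
  have hHK : BM (fun x => conj (iv1_H k g x) * KG x) := BMs.mul (BMs.conj hH'b) hKG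
  have hDb : BM (vE μ T (Fin 2) k 0 (fun x => conj (iv1_H k g x) * KG x)) :=
    vE_bm μ T (Fin 2) k 0 hHK
  have hD1 : ∫ a, conj (g a) * vE μ T (Fin 2) k 0 (fun x => conj (iv1_H k g x) * KG x) a ∂μ =
      gn μ T (k + 2) g := by
    rw [← integral_vK μ T (Fin 2) k 0 hHK (BMs.conj hgb), ← hKG1]
    refine integral_congr_ae (Eventually.of_forall fun x => ?_)
    simp only [iv1_dd, map_mul]
    ring
  have hD2 : ∫ x, conj (ψ x) * iv1_H k f x *
      vE μ T (Fin 2) k 0 (fun x => conj (iv1_H k g x) * KG x) (x 0) ∂ν = gn μ T (k + 2) g := by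
    have h1 := hgφ (fun a => conj (vE μ T (Fin 2) k 0 (fun x => conj (iv1_H k g x) * KG x) a))
      (BMs.conj hDb)
    have h2 := congrArg (starRingEnd ℂ) h1
    rw [← integral_conj, ← integral_conj] at h2
    rw [← hD1]
    refine Eq.trans ?_ (h2.trans ?_)
    · refine integral_congr_ae (Eventually.of_forall fun x => ?_)
      simp only [map_mul, Complex.conj_conj]
      ring
    · refine integral_congr_ae (Eventually.of_forall fun x => ?_)
      simp only [map_mul, Complex.conj_conj]
      ring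
  -- the function on `3`-arrays
  have hΦ : BM (fun z : Arr (Fin 2) X k × Arr (Fin 2) X k =>
      conj (ψ z.1) * iv1_H k f z.1 * (conj (iv1_H k g z.2) * KG z.2)) :=
    BMs.mul (BMs.mul (BMs.conj (BMs.comp hψb measurable_fst)) (BMs.comp hHb measurable_fst))
      (BMs.comp hHK measurable_snd)
  have hpair : Measurable (fun y : Arr (Fin 3) X k => (inn k y, outp k y)) := hmi.prodMk hmo
  have hΨb : BM (fun y : Arr (Fin 3) X k => conj (ψ (inn k y)) * iv1_H k f (inn k y) *
      (conj (iv1_H k g (outp k y)) * KG (outp k y))) := by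
    have h1 := BMs.comp hΦ hpair
    exact h1
  have hΨ1 : ∫ y, conj (ψ (inn k y)) * iv1_H k f (inn k y) *
      (conj (iv1_H k g (outp k y)) * KG (outp k y)) ∂M ≠ 0 := by
    have h3 : ∀ x : Arr (Fin 2) X k, ∫ x', conj (ψ x) * iv1_H k f x *
        (conj (iv1_H k g x') * KG x') ∂(vK μ T (Fin 2) k 0 (x 0)) =
          conj (ψ x) * iv1_H k f x *
            vE μ T (Fin 2) k 0 (fun x => conj (iv1_H k g x) * KG x) (x 0) :=
      fun x => integral_const_mul _ _
    have h4 := hb (fun x x' => conj (ψ x) * iv1_H k f x * (conj (iv1_H k g x') * KG x')) hΦ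
    simp only [h3] at h4
    rw [h4, hD2]
    exact hgn
  have hfreq2 : ∃ᶠ q' in ae M, ∫ y, conj (ψ (inn k y)) * iv1_H k f (inn k y) *
      (conj (iv1_H k g (outp k y)) * KG (outp k y))
        ∂(condExpKernel (cube μ T (Fin 3) k) (Inv (tArr T (Fin 3) k)) q') ≠ 0 := by
    apply iv1_freq
    rw [iv1_bind (Inv (tArr T (Fin 3) k)) (cube μ T (Fin 3) k) M hh hΨb]
    exact hΨ1
  -- the outer pattern has the law of a cube
  have ho : ∀ᵐ q' ∂M, ∀ Φ : Arr (Fin 2) X k → ℂ, BM Φ →
        ∫ x, Φ x * KG x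
          ∂(condExpKernel (cube μ T (Fin 2) k) (Inv (tArr T (Fin 2) k)) (outp k q')) ≠ 0 →
        ∃ (ψ : Arr (Fin 2) X k → ℂ) (c : ℂ),
          IsEig (condExpKernel (cube μ T (Fin 2) k) (Inv (tArr T (Fin 2) k)) (outp k q'))
            (tArr T (Fin 2) k) ψ c ∧
          ∫ x, Φ x * ψ x
            ∂(condExpKernel (cube μ T (Fin 2) k) (Inv (tArr T (Fin 2) k)) (outp k q')) ≠ 0 := by
    obtain ⟨N, hN, hNm, hN0⟩ := exists_measurable_superset_of_null (ae_iff.1 hKG2)
    have hF : BM (N.indicator (fun _ => (1 : ℂ))) := sb_bm_ind hNm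
    have h1 := hb (fun _ x' => N.indicator (fun _ => (1 : ℂ)) x') (BMs.comp hF measurable_snd)
    have h2 : ∫ x, ∫ x', N.indicator (fun _ => (1 : ℂ)) x' ∂(vK μ T (Fin 2) k 0 (x 0)) ∂ν =
        ∫ a, vE μ T (Fin 2) k 0 (N.indicator (fun _ => (1 : ℂ))) a ∂μ := by
      have h3 := integral_map (μ := ν) hr.mp.measurable.aemeasurable
        (f := vE μ T (Fin 2) k 0 (N.indicator (fun _ => (1 : ℂ))))
        (vE_bm μ T (Fin 2) k 0 hF).1.aestronglyMeasurable
      rw [hr.mp.map_eq] at h3
      exact h3.symm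
    have h4 := integral_vK μ T (Fin 2) k 0 hF (BMs.const _ 1 : BM (fun _ : X => (1 : ℂ)))
    simp only [one_mul] at h4
    rw [h2, ← h4, integral_indicator_const (1 : ℂ) hNm] at h1
    have h5 : ∫ y, N.indicator (fun _ => (1 : ℂ)) (outp k y) ∂M =
        ((M.real (outp k ⁻¹' N) : ℝ) : ℂ) := by
      have h6 : (fun y => N.indicator (fun _ => (1 : ℂ)) (outp k y)) =
          (outp k ⁻¹' N).indicator (fun _ => (1 : ℂ)) := rfl
      rw [h6, integral_indicator_const (1 : ℂ) (hmo hNm)]
      simp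
    rw [h5, measureReal_def, measureReal_def, hN0] at h1
    have h7 : (M (outp k ⁻¹' N)).toReal = 0 := by
      have h8 : (((M (outp k ⁻¹' N)).toReal : ℝ) : ℂ) = 0 := by
        rw [h1]
        simp
      exact_mod_cast h8
    have h9 : M (outp k ⁻¹' N) = 0 := by
      rcases (ENNReal.toReal_eq_zero_iff _).1 h7 with h | h
      · exact h
      · exact absurd h (measure_ne_top _ _)
    rw [ae_iff]
    refine measure_mono_null ?_ h9
    intro y hy
    exact hN hy
  obtain ⟨q', hq', ⟨hc1, hc2⟩, hd, he, ho⟩ := (hfreq2.and_eventually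
    (hc.and (hd.and (he.and ho)))).exists
  have hθp := relA_prob (Inv (tArr T (Fin 3) k)) (cube μ T (Fin 3) k) q'
  have hν'p := relA_prob (Inv (tArr T (Fin 2) k)) (cube μ T (Fin 2) k) (outp k q')
  set θ := condExpKernel (cube μ T (Fin 3) k) (Inv (tArr T (Fin 3) k)) q' with hθ
  set ν' := condExpKernel (cube μ T (Fin 2) k) (Inv (tArr T (Fin 2) k)) (outp k q') with hν'
  have mp1 : MeasurePreserving (inn k) θ ν := ⟨hmi, hc1⟩
  have mp2 : MeasurePreserving (outp k) θ ν' := ⟨hmo, hc2⟩
  obtain ⟨Φ, hΦb, hΦφ⟩ := iv1_marg mp2 (F := fun y => conj (ψ (inn k y)) * iv1_H k f (inn k y) *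
    conj (iv1_H k g (outp k y))) (BMs.mul (BMs.mul (BMs.conj (BMs.comp hψb hmi))
      (BMs.comp hHb hmi)) (BMs.conj (BMs.comp hH'b hmo)))
  have hΦK : ∫ x, Φ x * KG x ∂ν' ≠ 0 := by
    have h1 := hΦφ KG hKG
    intro h2
    apply hq'
    have h3 : ∫ x, KG x * Φ x ∂ν' = 0 := by
      rw [← h2]
      refine integral_congr_ae (Eventually.of_forall fun x => ?_)
      ring
    rw [← h3, ← h1]
    refine integral_congr_ae (Eventually.of_forall fun x => ?_)
    ring
  obtain ⟨ψ', c₂, hψ', hψ'1⟩ := ho Φ hΦb hΦK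
  have hψ'b : BM ψ' := ⟨hψ'.meas, 1, fun x => (hψ'.norm x).le⟩
  have e1 : IsEig θ (tArr T (Fin 3) k) (fun y => ψ (inn k y)) c₁ :=
    ⟨hψ.meas.comp hmi, fun y => hψ.norm (inn k y), hψ.c_norm,
      mp1.quasiMeasurePreserving.ae hψ.eig⟩
  have e2 : IsEig θ (tArr T (Fin 3) k) (fun y => ψ' (outp k y)) c₂ :=
    ⟨hψ'.meas.comp hmo, fun y => hψ'.norm (outp k y), hψ'.c_norm,
      mp2.quasiMeasurePreserving.ae hψ'.eig⟩
  have e3 : ∫ y, conj (ψ (inn k y)) * ψ' (outp k y) * iv1_H k f (inn k y) *
      conj (iv1_H k g (outp k y)) ∂θ ≠ 0 := by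
    intro h1
    apply hψ'1
    have h2 : ∫ x, Φ x * ψ' x ∂ν' = ∫ x, ψ' x * Φ x ∂ν' :=
      integral_congr_ae (Eventually.of_forall fun x => by ring)
    rw [h2, ← hΦφ ψ' hψ'b, ← h1]
    refine integral_congr_ae (Eventually.of_forall fun y => ?_)
    ring
  have e4 : ∫ y, conj (f (y 0)) * conj (iv1_H k f (inn k y)) * ψ (inn k y) ∂θ ≠ 0 := by
    intro h1
    apply hψ1
    have h2 := integral_map (μ := θ) hmi.aemeasurable
      (f := fun x => conj (dd k f x) * ψ x)
      (BMs.mul (BMs.conj hddf) hψb).1.aestronglyMeasurable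
    rw [mp1.map_eq] at h2
    rw [h2, ← h1]
    refine integral_congr_ae (Eventually.of_forall fun y => ?_)
    simp only [iv1_dd, iv1_inn_zero, map_mul]
  exact ⟨θ, iv1_H k f, iv1_H k g, ψ, ψ', c₁, c₂, hθp, hd, he, iv1_H_star k hf,
    iv1_H_star k hgb, e1, e2, hψ.meas, hψ'.meas, e3, e4⟩

end Pool.Agent.HK820

end

/-! ### Part `IV2` -/

section

open MeasureTheory ProbabilityTheory Filter Topology
open scoped ComplexConjugate ENNReal

namespace Pool.Agent.HK820

/-- Helper: invariance of suprema of pullbacks. -/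
theorem iv2_tinv_iSup {J X Q : Type} (m : MeasurableSpace X) [MeasurableSpace X]
    [MeasurableSpace Q] (T : X ≃ᵐ X) (S : Q ≃ᵐ Q) (hT : TInv m T) (e : J → Q → X)
    (he : ∀ j q, e j (S q) = T (e j q)) (he' : ∀ j q, e j (S.symm q) = T.symm (e j q)) :
    TInv (⨆ j, MeasurableSpace.comap (e j) m) S := by
  constructor
  · rw [measurable_iff_comap_le, MeasurableSpace.comap_iSup]
    refine iSup_le fun j => ?_
    rw [MeasurableSpace.comap_comp]
    have h1 : (e j) ∘ (S : Q → Q) = (T : X → X) ∘ (e j) := funext fun q => he j q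
    rw [h1, ← MeasurableSpace.comap_comp]
    exact (MeasurableSpace.comap_mono (measurable_iff_comap_le.1 hT.1)).trans
      (le_iSup (fun j => MeasurableSpace.comap (e j) m) j)
  · rw [measurable_iff_comap_le, MeasurableSpace.comap_iSup]
    refine iSup_le fun j => ?_
    rw [MeasurableSpace.comap_comp]
    have h1 : (e j) ∘ (S.symm : Q → Q) = (T.symm : X → X) ∘ (e j) := funext fun q => he' j q
    rw [h1, ← MeasurableSpace.comap_comp]
    exact (MeasurableSpace.comap_mono (measurable_iff_comap_le.1 hT.2)).trans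
      (le_iSup (fun j => MeasurableSpace.comap (e j) m) j)

theorem iv2_tinv_sup {Q : Type} (m₁ m₂ : MeasurableSpace Q) [MeasurableSpace Q] (S : Q ≃ᵐ Q)
    (h1 : TInv m₁ S) (h2 : TInv m₂ S) : TInv (m₁ ⊔ m₂) S := by
  constructor
  · rw [measurable_iff_comap_le, MeasurableSpace.comap_sup]
    exact sup_le_sup (measurable_iff_comap_le.1 h1.1) (measurable_iff_comap_le.1 h2.1)
  · rw [measurable_iff_comap_le, MeasurableSpace.comap_sup]
    exact sup_le_sup (measurable_iff_comap_le.1 h1.2) (measurable_iff_comap_le.1 h2.2)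

theorem iv2_tinv_pw {X : Type} (m : MeasurableSpace X) [MeasurableSpace X] (T : X ≃ᵐ X)
    (hT : TInv m T) (ι : Type) (D : ℕ) :
    TInv (pwI (I := Fin D → ι) m) (tArr T ι D) :=
  iv2_tinv_iSup m T (tArr T ι D) hT (fun v x => x v) (fun _ _ => rfl) (fun _ _ => rfl)

theorem iv2_tinv_gen {X : Type} [mX : MeasurableSpace X] (T : X ≃ᵐ X)
    (ι : Type) (D : ℕ) (J : Set (Fin D → ι)) :
    TInv (genI (X := X) J) (tArr T ι D) :=
  iv2_tinv_iSup mX T (tArr T ι D) ⟨T.measurable, T.symm.measurable⟩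
    (fun (v : J) x => x v.1) (fun _ _ => rfl) (fun _ _ => rfl)

/-- Helper: coordinates in `J` are measurable. -/
theorem iv2_eval {I X : Type} [mX : MeasurableSpace X] {J : Set I} {v : I} (hv : v ∈ J) :
    Measurable[genI (X := X) J, mX] (fun x : I → X => x v) := by
  rw [measurable_iff_comap_le]
  exact le_iSup (fun v : J => MeasurableSpace.comap (fun x : I → X => x v.1) mX) ⟨v, hv⟩

theorem iv2_gen_le {I X : Type} [mX : MeasurableSpace X] (J : Set I) :
    genI (X := X) J ≤ (inferInstance : MeasurableSpace (I → X)) :=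
  iSup_le fun v => (measurable_pi_apply v.1).comap_le

theorem iv2_pw_le {I X : Type} (m : MeasurableSpace X) [mX : MeasurableSpace X] (hm : m ≤ mX) :
    pwI (I := I) m ≤ (inferInstance : MeasurableSpace (I → X)) :=
  iSup_le fun v => (MeasurableSpace.comap_mono hm).trans (measurable_pi_apply v).comap_le

/-- Helper: restrictions of arrays to vertices in `J` are measurable. -/
theorem iv2_rst {X : Type} [mX : MeasurableSpace X] {k : ℕ} (m : MeasurableSpace (Arr (Fin 3) X k))
    (e : Fin k → Fin 2 → Fin 3)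
    (h : ∀ w : Fin k → Fin 2, Measurable[m, mX]
      (fun y : Arr (Fin 3) X k => y (fun j => e j (w j)))) :
    Measurable[m] (fun y : Arr (Fin 3) X k => (rst e y : Arr (Fin 2) X k)) := by
  refine @measurable_pi_lambda (Arr (Fin 3) X k) (Fin k → Fin 2) (fun _ => X) m _ _ fun w => ?_
  exact h w

theorem iv2_star {X : Type} [mX : MeasurableSpace X] {k : ℕ} (m : MeasurableSpace (Arr (Fin 3) X k))
    (e : Fin k → Fin 2 → Fin 3)
    (h : ∀ w : Fin k → Fin 2, w ≠ 0 → Measurable[m, mX]
      (fun y : Arr (Fin 3) X k => y (fun j => e j (w j)))) :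
    Measurable[m, starAlg X k] (fun y : Arr (Fin 3) X k => (rst e y : Arr (Fin 2) X k)) := by
  rw [measurable_comap_iff]
  refine @measurable_pi_lambda (Arr (Fin 3) X k) {v : Fin k → Fin 2 // v ≠ 0} (fun _ => X) m _ _
    fun w => ?_
  exact h w.1 w.2

/-- **IV2.** Main step: a function of order `k + 1` correlates, on an ergodic extension, with
`u * α`, `u` unimodular with a cocycle measurable for an invariant σ-algebra `y` of order `k`, `α`
`y`-measurable.

Proof. Apply `iv_choice` to `conj f` and the splitting lemma `splitting` on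
`Q = Arr (Fin 3) X k`, `S = tArr T (Fin 3) k`, `π y = y 0`, with `y = pwI (Zalg μ T k)` (the same as
`pw (Zalg μ T k) k`), `a = y ⊔ genI {0}`, `b = y ⊔ genI I₂`, `c = y ⊔ genI I₃`, where `I₂` is the set
of vertices `≠ 0` of the inner pattern (`v j ∈ {0, 1}`), `I₃` the set of vertices `≠ 0` of the outer
pattern (`v j ∈ {0, 2}`); they are disjoint; conditional independence is `RI.ci3`. All these
σ-algebras are invariant under `tArr` (coordinatewise; `Zalg_TInv`). `ψ (inn y)` is measurable for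
`genI ({0} ∪ I₂)`, etc., `H (inn y)` is `genI I₂`-measurable because `H` is `starAlg`-measurable.
`y ≤ Zalg θ S k` because the coordinate maps are factor maps `Q → X` (`RI` gives the marginals) and
by `Zalg_fmap`. -/
theorem iv_main {X : Type} [MeasurableSpace X] [StandardBorelSpace X]
    (μ : Measure X) [IsProbabilityMeasure μ] (T : X ≃ᵐ X) (hT : Ergodic T μ) (k : ℕ) {f : X → ℂ}
    (hf : BM f) (hf' : AEM (Zalg μ T (k + 1)) μ f) (hg : gn μ T (k + 2) f ≠ 0) :
    ∃ (Q : Type) (y : MeasurableSpace Q) (_ : MeasurableSpace Q) (_ : StandardBorelSpace Q)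
      (θ : Measure Q) (S : Q ≃ᵐ Q) (π : Q → X) (u α : Q → ℂ),
      IsProbabilityMeasure θ ∧ Ergodic S θ ∧ FMap θ S μ T π ∧ y ≤ Zalg θ S k ∧ TInv y S ∧
      Measurable u ∧ (∀ q, ‖u q‖ = 1) ∧ AEM y θ (fun q => u (S q) * conj (u q)) ∧ BMs y α ∧
      ∫ q, f (π q) * u q * α q ∂θ ≠ 0 := by
  have hgc : gn μ T (k + 2) (fun x => conj (f x)) ≠ 0 := by
    intro h0
    apply hg
    unfold gn at h0 ⊢
    simp only [dd_conj] at h0
    rw [integral_conj] at h0
    exact (map_eq_zero (starRingEnd ℂ)).1 h0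
  obtain ⟨θ, H, H', ψ, ψ', c₁, c₂, hθ, hS, hRI, hH, hH', e1, e2, mψ, mψ', hne, hne'⟩ :=
    iv_choice μ T hT k (BMs.conj hf) hf'.conj hgc
  have hZ := Zalg_le μ T k
  have hTI := Zalg_TInv μ T hT.toMeasurePreserving k
  -- the index sets
  let I₂ : Set (Fin k → Fin 3) := {v | v ≠ 0 ∧ ∀ j, v j ≠ 2}
  let I₃ : Set (Fin k → Fin 3) := {v | v ≠ 0 ∧ ∀ j, v j ≠ 1}
  have h12 : Disjoint ({0} : Set (Fin k → Fin 3)) I₂ := by
    rw [Set.disjoint_singleton_left]
    exact fun h => h.1 rfl
  have h13 : Disjoint ({0} : Set (Fin k → Fin 3)) I₃ := by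
    rw [Set.disjoint_singleton_left]
    exact fun h => h.1 rfl
  have h23 : Disjoint I₂ I₃ := by
    rw [Set.disjoint_left]
    rintro v ⟨h1, h2⟩ ⟨_, h3⟩
    apply h1
    funext j
    have h4 := h2 j
    have h5 := h3 j
    revert h4 h5
    show v j ≠ 2 → v j ≠ 1 → v j = 0
    generalize v j = b
    revert b
    decide
  have hCI := RI.ci3 (Zalg μ T k) μ hZ θ hRI {0} I₂ I₃ h12 h13 h23
  have hin : ∀ w : Fin k → Fin 2, w ≠ 0 → (fun j => in3 0 (w j)) ∈ I₂ := by
    intro w hw
    refine ⟨fun h => hw ?_, fun j => ?_⟩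
    · funext j
      have h4 := congrFun h j
      revert h4
      show in3 0 (w j) = 0 → w j = 0
      generalize w j = b
      revert b
      decide
    · show in3 0 (w j) ≠ 2
      generalize w j = b
      revert b
      decide
  have hout : ∀ w : Fin k → Fin 2, w ≠ 0 → (fun j => out3 (w j)) ∈ I₃ := by
    intro w hw
    refine ⟨fun h => hw ?_, fun j => ?_⟩
    · funext j
      have h4 := congrFun h j
      revert h4
      show out3 (w j) = 0 → w j = 0
      generalize w j = b
      revert b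
      decide
    · show out3 (w j) ≠ 1
      generalize w j = b
      revert b
      decide
  have h0in : (fun j => in3 0 ((0 : Fin k → Fin 2) j)) = (0 : Fin k → Fin 3) := by
    funext j
    rfl
  have h0out : (fun j => out3 ((0 : Fin k → Fin 2) j)) = (0 : Fin k → Fin 3) := by
    funext j
    rfl
  have hYle := iv2_pw_le (I := Fin k → Fin 3) (Zalg μ T k) hZ
  have hA : pwI (I := Fin k → Fin 3) (Zalg μ T k) ⊔ genI (X := X) {0} ≤
      (inferInstance : MeasurableSpace (Arr (Fin 3) X k)) := sup_le hYle (iv2_gen_le _)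
  have hB : pwI (I := Fin k → Fin 3) (Zalg μ T k) ⊔ genI (X := X) I₂ ≤
      (inferInstance : MeasurableSpace (Arr (Fin 3) X k)) := sup_le hYle (iv2_gen_le _)
  have hC : pwI (I := Fin k → Fin 3) (Zalg μ T k) ⊔ genI (X := X) I₃ ≤
      (inferInstance : MeasurableSpace (Arr (Fin 3) X k)) := sup_le hYle (iv2_gen_le _)
  have hSy := iv2_tinv_pw (Zalg μ T k) T hTI (Fin 3) k
  -- measurability of the patterns
  have hinn : Measurable[(pwI (I := Fin k → Fin 3) (Zalg μ T k) ⊔ genI (X := X) {0}) ⊔
      (pwI (I := Fin k → Fin 3) (Zalg μ T k) ⊔ genI (X := X) I₂)]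
      (fun y : Arr (Fin 3) X k => inn k y) := by
    refine iv2_rst _ _ fun w => ?_
    by_cases hw : w = 0
    · rw [hw, h0in]
      exact (iv2_eval (Set.mem_singleton 0)).mono (le_sup_right.trans le_sup_left) le_rfl
    · exact (iv2_eval (hin w hw)).mono (le_sup_right.trans le_sup_right) le_rfl
  have houtp : Measurable[(pwI (I := Fin k → Fin 3) (Zalg μ T k) ⊔ genI (X := X) {0}) ⊔
      (pwI (I := Fin k → Fin 3) (Zalg μ T k) ⊔ genI (X := X) I₃)]
      (fun y : Arr (Fin 3) X k => outp k y) := by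
    refine iv2_rst _ _ fun w => ?_
    by_cases hw : w = 0
    · rw [hw, h0out]
      exact (iv2_eval (Set.mem_singleton 0)).mono (le_sup_right.trans le_sup_left) le_rfl
    · exact (iv2_eval (hout w hw)).mono (le_sup_right.trans le_sup_right) le_rfl
  have hinnS : Measurable[pwI (I := Fin k → Fin 3) (Zalg μ T k) ⊔ genI (X := X) I₂, starAlg X k]
      (fun y : Arr (Fin 3) X k => inn k y) :=
    iv2_star _ _ fun w hw => (iv2_eval (hin w hw)).mono le_sup_right le_rfl
  have houtS : Measurable[pwI (I := Fin k → Fin 3) (Zalg μ T k) ⊔ genI (X := X) I₃, starAlg X k]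
      (fun y : Arr (Fin 3) X k => outp k y) :=
    iv2_star _ _ fun w hw => (iv2_eval (hout w hw)).mono le_sup_right le_rfl
  have hb₀ : BMs (pwI (I := Fin k → Fin 3) (Zalg μ T k) ⊔ genI (X := X) I₂)
      (fun y : Arr (Fin 3) X k => H (inn k y)) := BMs.comp hH hinnS
  have hc₀ : BMs (pwI (I := Fin k → Fin 3) (Zalg μ T k) ⊔ genI (X := X) I₃)
      (fun y : Arr (Fin 3) X k => conj (H' (outp k y))) := (BMs.comp hH' houtS).conj
  have ha₀ : BMs (pwI (I := Fin k → Fin 3) (Zalg μ T k) ⊔ genI (X := X) {0})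
      (fun y : Arr (Fin 3) X k => f (y 0)) :=
    BMs.comp hf ((iv2_eval (Set.mem_singleton 0)).mono le_sup_right le_rfl)
  have hne'' : ∫ y, f (y 0) * conj (H (inn k y)) * ψ (inn k y) ∂θ ≠ 0 := by
    simpa only [Complex.conj_conj] using hne'
  obtain ⟨u, α, hu, hu1, huy, hα, hfin⟩ := splitting (pwI (I := Fin k → Fin 3) (Zalg μ T k))
    (pwI (I := Fin k → Fin 3) (Zalg μ T k) ⊔ genI (X := X) {0})
    (pwI (I := Fin k → Fin 3) (Zalg μ T k) ⊔ genI (X := X) I₂)
    (pwI (I := Fin k → Fin 3) (Zalg μ T k) ⊔ genI (X := X) I₃) θ (tArr T (Fin 3) k) hS hA hB hC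
    le_sup_left le_sup_left le_sup_left hSy
    (iv2_tinv_sup _ _ _ hSy (iv2_tinv_gen T (Fin 3) k _))
    (iv2_tinv_sup _ _ _ hSy (iv2_tinv_gen T (Fin 3) k _))
    (iv2_tinv_sup _ _ _ hSy (iv2_tinv_gen T (Fin 3) k _)) hCI e1 e2
    (AEM.of_meas (mψ.comp hinn)) (AEM.of_meas (mψ'.comp houtp)) hb₀ hc₀ hne ha₀ hb₀.conj hne''
  have hfm : ∀ v : Fin k → Fin 3,
      FMap θ (tArr T (Fin 3) k) μ T (fun x : Arr (Fin 3) X k => x v) := fun v =>
    ⟨hRI.1 v, Eventually.of_forall fun _ => rfl⟩
  refine ⟨Arr (Fin 3) X k, pwI (I := Fin k → Fin 3) (Zalg μ T k), inferInstance, inferInstance,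
    θ, tArr T (Fin 3) k, fun y => y 0, u, α, hθ, hS, hfm 0, ?_, hSy, hu, hu1, huy, hα, hfin⟩
  refine iSup_le fun v => ?_
  exact (Zalg_fmap hS.toMeasurePreserving hT.toMeasurePreserving (hfm v) k).comap_le

end Pool.Agent.HK820

end
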