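import Pool.Agent.Lib_MP_820dd4_hk.L2

open MeasureTheory ProbabilityTheory Filter Topology
open scoped ComplexConjugate ENNReal

namespace Pool.Agent.HK820

/-! ### Continuous families of unimodular functions -/

theorem l7_int_sub {Y : Type} [MeasurableSpace Y] {μ : Measure Y} [IsProbabilityMeasure μ]
    {a b : Y → ℂ} (ha : Measurable a) (ha1 : ∀ y, ‖a y‖ = 1) (hb : Measurable b)
    (hb1 : ∀ y, ‖b y‖ = 1) : Integrable (fun y => ‖a y - b y‖) μ :=
  (((sd_bm ha ha1).integrable μ).sub ((sd_bm hb hb1).integrable μ)).norm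

theorem l7_tend_mul {T Y : Type} [TopologicalSpace T] [MeasurableSpace Y] {μ : Measure Y}
    [IsProbabilityMeasure μ] {a b : T → Y → ℂ} (ha : ∀ t, Measurable (a t))
    (ha1 : ∀ t y, ‖a t y‖ = 1) (hb : ∀ t, Measurable (b t)) (hb1 : ∀ t y, ‖b t y‖ = 1) {t₀ : T}
    (h : Tendsto (fun t => ∫ y, ‖a t y - a t₀ y‖ ∂μ) (𝓝 t₀) (𝓝 0))
    (h' : Tendsto (fun t => ∫ y, ‖b t y - b t₀ y‖ ∂μ) (𝓝 t₀) (𝓝 0)) :
    Tendsto (fun t => ∫ y, ‖a t y * b t y - a t₀ y * b t₀ y‖ ∂μ) (𝓝 t₀) (𝓝 0) := by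
  have h0 := h.add h'
  rw [add_zero] at h0
  refine squeeze_zero (fun t => integral_nonneg fun y => norm_nonneg _) (fun t => ?_) h0
  rw [← integral_add (l7_int_sub (ha t) (ha1 t) (ha t₀) (ha1 t₀))
    (l7_int_sub (hb t) (hb1 t) (hb t₀) (hb1 t₀))]
  refine integral_mono (l7_int_sub ((ha t).mul (hb t)) (fun y => ?_) ((ha t₀).mul (hb t₀))
    (fun y => ?_)) ((l7_int_sub (ha t) (ha1 t) (ha t₀) (ha1 t₀)).add
      (l7_int_sub (hb t) (hb1 t) (hb t₀) (hb1 t₀))) (fun y => ?_)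
  · rw [norm_mul, ha1, hb1, mul_one]
  · rw [norm_mul, ha1, hb1, mul_one]
  · change ‖a t y * b t y - a t₀ y * b t₀ y‖ ≤ ‖a t y - a t₀ y‖ + ‖b t y - b t₀ y‖
    have e : a t y * b t y - a t₀ y * b t₀ y =
        (a t y - a t₀ y) * b t y + a t₀ y * (b t y - b t₀ y) := by ring
    rw [e]
    refine (norm_add_le _ _).trans ?_
    rw [norm_mul, norm_mul, ha1, hb1, mul_one, one_mul]

theorem l7_tend_conj {T Y : Type} [TopologicalSpace T] [MeasurableSpace Y] {μ : Measure Y}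
    {b : T → Y → ℂ} {t₀ : T}
    (h' : Tendsto (fun t => ∫ y, ‖b t y - b t₀ y‖ ∂μ) (𝓝 t₀) (𝓝 0)) :
    Tendsto (fun t => ∫ y, ‖conj (b t y) - conj (b t₀ y)‖ ∂μ) (𝓝 t₀) (𝓝 0) := by
  have e : (fun t => ∫ y, ‖conj (b t y) - conj (b t₀ y)‖ ∂μ) =
      fun t => ∫ y, ‖b t y - b t₀ y‖ ∂μ := by
    funext t
    refine integral_congr_ae (Filter.Eventually.of_forall fun y => ?_)
    change ‖conj (b t y) - conj (b t₀ y)‖ = ‖b t y - b t₀ y‖
    rw [← map_sub, RCLike.norm_conj]
  rw [e]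
  exact h'

theorem l7_tend_const {T Y : Type} [TopologicalSpace T] [MeasurableSpace Y] {μ : Measure Y}
    (b : Y → ℂ) (t₀ : T) :
    Tendsto (fun _ : T => ∫ y, ‖b y - b y‖ ∂μ) (𝓝 t₀) (𝓝 0) := by
  simp

/-- a unimodular function whose integral has norm `1` is constant -/
theorem l7_const_of_norm {Y : Type} [MeasurableSpace Y] {μ : Measure Y} [IsProbabilityMeasure μ]
    {a : Y → ℂ} (ha : Measurable a) (ha1 : ∀ y, ‖a y‖ = 1) (h : ‖∫ y, a y ∂μ‖ = 1) :
    ∀ᵐ y ∂μ, a y = ∫ z, a z ∂μ := by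
  have hi := (sd_bm ha ha1).integrable μ
  have h1 : ∀ y, ‖a y - ∫ z, a z ∂μ‖ ^ 2 = 2 - 2 * (conj (∫ z, a z ∂μ) * a y).re := by
    intro y
    have e1 : ((‖a y - ∫ z, a z ∂μ‖ ^ 2 : ℝ) : ℂ) =
        (a y - ∫ z, a z ∂μ) * conj (a y - ∫ z, a z ∂μ) := by
      rw [Complex.mul_conj, Complex.normSq_eq_norm_sq]
    have e2 := sd_mul_conj (ha1 y)
    have e3 := sd_mul_conj h
    have e4 : (a y - ∫ z, a z ∂μ) * conj (a y - ∫ z, a z ∂μ) =
        2 - (conj (∫ z, a z ∂μ) * a y + conj (conj (∫ z, a z ∂μ) * a y)) := by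
      rw [map_sub, map_mul, Complex.conj_conj]
      linear_combination e2 + e3
    rw [e4, Complex.add_conj] at e1
    have e5 := congrArg Complex.re e1
    rw [Complex.ofReal_re] at e5
    rw [e5]
    simp
  have hre : Integrable (fun y => 2 * (conj (∫ z, a z ∂μ) * a y).re) μ :=
    ((hi.const_mul (conj (∫ z, a z ∂μ))).re).const_mul 2
  have h2 : ∫ y, ‖a y - ∫ z, a z ∂μ‖ ^ 2 ∂μ = 0 := by
    have e1 : ∫ y, (conj (∫ z, a z ∂μ) * a y).re ∂μ = 1 := by
      have e2 : ∫ y, conj (∫ z, a z ∂μ) * a y ∂μ = 1 := by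
        rw [integral_const_mul, mul_comm]
        exact sd_mul_conj h
      have e3 := integral_re (hi.const_mul (conj (∫ z, a z ∂μ)))
      have e4 : ∫ y, (conj (∫ z, a z ∂μ) * a y).re ∂μ =
          (∫ y, conj (∫ z, a z ∂μ) * a y ∂μ).re := e3
      rw [e4, e2]
      simp
    have e5 : (fun y => ‖a y - ∫ z, a z ∂μ‖ ^ 2) =
        fun y => 2 - 2 * (conj (∫ z, a z ∂μ) * a y).re := funext h1
    rw [e5, integral_sub (integrable_const _) hre, integral_const_mul, e1]
    simp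
  have h3 : (fun y => ‖a y - ∫ z, a z ∂μ‖ ^ 2) =ᵐ[μ] 0 := by
    refine (integral_eq_zero_iff_of_nonneg (fun y => sq_nonneg _) ?_).1 h2
    have e5 : (fun y => ‖a y - ∫ z, a z ∂μ‖ ^ 2) =
        fun y => 2 - 2 * (conj (∫ z, a z ∂μ) * a y).re := funext h1
    rw [e5]
    exact (integrable_const _).sub hre
  filter_upwards [h3] with y hy
  have h4 : ‖a y - ∫ z, a z ∂μ‖ ^ 2 = 0 := hy
  have h5 : a y - ∫ z, a z ∂μ = 0 := norm_eq_zero.1 (pow_eq_zero_iff (two_ne_zero)|>.1 h4)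
  exact sub_eq_zero.1 h5

/-- the derivative of a constant -/
theorem l7_dd_const {X : Type} (D : ℕ) {c : ℂ} (hc : ‖c‖ = 1) (x : Arr (Fin 2) X (D + 1)) :
    dd (D + 1) (fun _ => c) x = 1 := by
  rw [dd_succ]
  have e : dd D (fun _ : X => c) (slice x 0) = dd D (fun _ : X => c) (slice x 1) := rfl
  rw [e]
  exact sd_mul_conj (norm_dd D (fun _ => hc) _)

section
variable {d : ND} {Γ : Subgroup (GG d)} [StandardBorelSpace (KK d Γ)] {μ : Measure (KK d Γ)}
  {D k : ℕ} {ρ : KK d Γ → ℂ} {R : Arr (Fin 2) (KK d Γ) (D + 1) → ℂ}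
  (hL : LSetup d Γ μ D k ρ R)

include hL

/-- **L7a.** Connectedness argument: a continuous family of `C_k`-valued functions with derivative `1`
over a preconnected space which is constant (a.e.) at one parameter consists of constants.

Proof. Let `A` be the set of `t` such that `p t` is a.e. constant. Closed: if `t ∈ closure A`, `p t` is an
`L¹` limit of constants. Open: if `p t₀ = c` a.e. then for `t` near `t₀`, `conj c * p t` is close to `1`
and has derivative `1` (`dd (D+1)` of the constant `conj c` is `1`: half of the signs are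
conjugate), so it is constant by `rigidity`. `IsPreconnected` gives `A = univ`. The constant is
`∫ p t`. -/
theorem conn_const {T : Type} [TopologicalSpace T] [PreconnectedSpace T] (p : T → KK d Γ → ℂ)
    (hm : ∀ t, Measurable (p t)) (hi : ∀ t y, inC k (p t y))
    (hd : ∀ t, dd (D + 1) (p t) =ᵐ[cube μ (KK.tauE d Γ) (Fin 2) (D + 1)] fun _ => 1)
    (hc : ∀ t₀, Tendsto (fun t => ∫ y, ‖p t y - p t₀ y‖ ∂μ) (𝓝 t₀) (𝓝 0)) (t₁ : T) (c₁ : ℂ)
    (h1 : ∀ᵐ y ∂μ, p t₁ y = c₁) :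
    ∃ c : T → ℂ, Continuous c ∧ (∀ t, inC k (c t)) ∧ ∀ t, ∀ᵐ y ∂μ, p t y = c t := by
  have hprob := hL.prob
  have hn : ∀ t y, ‖p t y‖ = 1 := fun t y => (hi t y).1
  have hint : ∀ t, Integrable (p t) μ := fun t => (sd_bm (hm t) (hn t)).integrable μ
  -- continuity of the integral
  have hcont : Continuous (fun t => ∫ y, p t y ∂μ) := by
    rw [continuous_iff_continuousAt]
    intro t₀
    rw [ContinuousAt, tendsto_iff_norm_sub_tendsto_zero]
    refine squeeze_zero (fun t => norm_nonneg _) (fun t => ?_) (hc t₀)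
    rw [← integral_sub (hint t) (hint t₀)]
    exact norm_integral_le_integral_norm _
  -- the set of parameters with constant functions
  have hval : ∀ t c, (∀ᵐ y ∂μ, p t y = c) → ∫ y, p t y ∂μ = c := by
    intro t c h
    rw [integral_congr_ae (g := fun _ => c) h]
    simp
  have hA : ∀ t, (∃ c, ∀ᵐ y ∂μ, p t y = c) ↔ ‖∫ y, p t y ∂μ‖ = 1 := by
    intro t
    constructor
    · rintro ⟨c, h⟩
      rw [hval t c h]
      obtain ⟨y, hy⟩ := h.exists
      rw [← hy]
      exact hn t y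
    · intro h
      exact ⟨_, l7_const_of_norm (hm t) (hn t) h⟩
  have hclosed : IsClosed {t | ∃ c, ∀ᵐ y ∂μ, p t y = c} := by
    have e : {t | ∃ c, ∀ᵐ y ∂μ, p t y = c} = {t | ‖∫ y, p t y ∂μ‖ = 1} :=
      Set.ext fun t => hA t
    rw [e]
    exact isClosed_eq hcont.norm continuous_const
  have hopen : IsOpen {t | ∃ c, ∀ᵐ y ∂μ, p t y = c} := by
    rw [isOpen_iff_mem_nhds]
    rintro t₀ ⟨c, hc₀⟩
    have hcn : ‖c‖ = 1 := by
      obtain ⟨y, hy⟩ := hc₀.exists
      rw [← hy]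
      exact hn t₀ y
    have hcn' : ‖conj c‖ = 1 := by rw [RCLike.norm_conj, hcn]
    have h2 : ∀ᶠ t in 𝓝 t₀, 2 ^ (D + 1) * ∫ y, ‖p t y - p t₀ y‖ ∂μ < 1 := by
      have h3 := (hc t₀).const_mul ((2 : ℝ) ^ (D + 1))
      rw [mul_zero] at h3
      exact h3.eventually (gt_mem_nhds one_pos)
    filter_upwards [h2] with t ht
    have hq : Measurable (fun y => conj c * p t y) := (hm t).const_mul _
    have hq1 : ∀ y, ‖conj c * p t y‖ = 1 := fun y => by rw [norm_mul, hcn', hn, mul_one]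
    have hqd : dd (D + 1) (fun y => conj c * p t y)
        =ᵐ[cube μ (KK.tauE d Γ) (Fin 2) (D + 1)] fun _ => 1 := by
      filter_upwards [hd t] with x hx
      rw [dd_mul (D + 1) (fun _ => conj c) (p t) x, hx, l7_dd_const D hcn', mul_one]
    have hqs : 2 ^ (D + 1) * ∫ y, ‖conj c * p t y - 1‖ ∂μ < 1 := by
      have e : ∫ y, ‖conj c * p t y - 1‖ ∂μ = ∫ y, ‖p t y - p t₀ y‖ ∂μ := by
        refine integral_congr_ae ?_
        filter_upwards [hc₀] with y hy
        rw [hy]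
        have e1 : conj c * p t y - 1 = conj c * (p t y - c) := by
          rw [mul_sub, mul_comm (conj c) c, sd_mul_conj hcn]
        rw [e1, norm_mul, hcn', one_mul]
      rw [e]
      exact ht
    obtain ⟨c', _, hc'⟩ := rigidity μ (KK.tauE d Γ) hL.erg (D + 1) hq hq1 hqd hqs
    refine ⟨c * c', ?_⟩
    filter_upwards [hc'] with y hy
    rw [← hy, ← mul_assoc, sd_mul_conj hcn, one_mul]
  have huniv : {t | ∃ c, ∀ᵐ y ∂μ, p t y = c} = Set.univ :=
    IsClopen.eq_univ ⟨hclosed, hopen⟩ ⟨t₁, c₁, h1⟩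
  have hall : ∀ t, ∀ᵐ y ∂μ, p t y = ∫ z, p t z ∂μ := by
    intro t
    have ht : t ∈ {t | ∃ c, ∀ᵐ y ∂μ, p t y = c} := by
      rw [huniv]
      trivial
    exact l7_const_of_norm (hm t) (hn t) ((hA t).1 ht)
  refine ⟨fun t => ∫ y, p t y ∂μ, hcont, fun t => ?_, hall⟩
  obtain ⟨y, hy⟩ := (hall t).exists
  change inC k (∫ y, p t y ∂μ)
  rw [← hy]
  exact hi t y

/-- two lifts of the same transformation -/
theorem l7_ratio {g : KK d Γ → KK d Γ} {F F' : KK d Γ → ℂ}
    (hF : IsLift μ (KK.tauE d Γ) (D + 1) R k g F)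
    (hF' : IsLift μ (KK.tauE d Γ) (D + 1) R k g F') :
    dd (D + 1) (fun y => F y * conj (F' y))
      =ᵐ[cube μ (KK.tauE d Γ) (Fin 2) (D + 1)] fun _ => 1 := by
  filter_upwards [hF.lift, hF'.lift] with x h1 h2
  have h0 : R x ≠ 0 := by
    intro h
    have := (hL.Rinc x).1
    rw [h, norm_zero] at this
    exact zero_ne_one this
  have h3 : dd (D + 1) F x = dd (D + 1) F' x := mul_right_cancel₀ h0 (h1.symm.trans h2)
  rw [dd_mul (D + 1) F (fun y => conj (F' y)) x, dd_conj, h3]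
  exact sd_mul_conj (norm_dd (D + 1) (fun y => (hF'.inc y).1) x)

/-- **L7b.** The 2-cocycle of a global family. Apply L7a to `T = V × V`,
`p (h, h') y = F h (h' • y) * F h' y * conj (F (mul h h') y)`, which is `1` at `(0, 0)`; both
`F h (h' • ·) * F h'` and `F (mul h h')` are lifts of `mul h h'` (`lift_comp`). -/
theorem family_cocycle {F : d.V → KK d Γ → ℂ} (hF : LFam d Γ μ D k R (fun h : d.V => h) F)
    (h0 : ∀ y, F 0 y = 1) :
    ∃ c : d.V × d.V → ℂ, Continuous c ∧ (∀ p, inC k (c p)) ∧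
      ∀ h h', ∀ᵐ y ∂μ, F h (GG.emb d h' • y) * F h' y = c (h, h') * F (d.mul h h') y := by
  have hprob := hL.prob
  have hmulc : Continuous (fun t : d.V × d.V => d.mul t.1 t.2) := d.smooth_mul.continuous
  have hfam1 := LFam.mul hL (hF.comp (continuous_fst (X := d.V) (Y := d.V)))
    (hF.comp (continuous_snd (X := d.V) (Y := d.V)))
  have hfam2 := hF.comp hmulc
  obtain ⟨c, hc1, hc2, hc3⟩ := conn_const hL
    (fun (t : d.V × d.V) y => (F t.1 (GG.emb d t.2 • y) * F t.2 y) * conj (F (d.mul t.1 t.2) y))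
    (fun t => (hfam1.lift t).meas.mul
      (Complex.continuous_conj.measurable.comp (hfam2.lift t).meas))
    (fun t y => ((hfam1.lift t).inc y).mul ((hfam2.lift t).inc y).conj)
    (fun t => l7_ratio hL (hfam1.lift t) (hfam2.lift t))
    (fun t₀ => l7_tend_mul (fun t => (hfam1.lift t).meas) (fun t y => ((hfam1.lift t).inc y).1)
      (fun t => Complex.continuous_conj.measurable.comp (hfam2.lift t).meas)
      (fun t y => ((hfam2.lift t).inc y).conj.1) (hfam1.cont t₀) (l7_tend_conj (hfam2.cont t₀)))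
    (0, 0) 1 (Filter.Eventually.of_forall fun y => by
      change (F 0 (GG.emb d 0 • y) * F 0 y) * conj (F (d.mul 0 0) y) = 1
      rw [d.zero_mul, h0, h0]
      simp)
  refine ⟨c, hc1, hc2, fun h h' => ?_⟩
  filter_upwards [hc3 (h, h')] with y hy
  have hy' : (F h (GG.emb d h' • y) * F h' y) * conj (F (d.mul h h') y) = c (h, h') := hy
  have h1 := sd_mul_conj ((hF.lift (d.mul h h')).inc y).1
  rw [← hy', mul_assoc, mul_comm (conj (F (d.mul h h') y)), h1, mul_one]

/-- **L7c.** Conjugation by `tau`. Apply L7a to `T = V`,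
`q h y = ρ (h • y) * F h y * conj (F (phi h) (tau • y)) * conj (ρ y)`, which is `1` at `0` (`phi 0 = 0`);
its derivative is `1` because `tau * emb h = emb (phi h) * tau` and, by `Rr` and the lifts,
`R (tau h x) = dd ρ (h x) dd (F h) x R x` and `R (phi(h) tau x) = dd (F (phi h)) (tau x) dd ρ x R x`
(the diagonal transformations preserve the cube measure: `diag2`, `cube_tArr`). -/
theorem family_conj {F : d.V → KK d Γ → ℂ} (hF : LFam d Γ μ D k R (fun h : d.V => h) F)
    (h0 : ∀ y, F 0 y = 1) :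
    ∃ b : d.V → ℂ, Continuous b ∧ (∀ p, inC k (b p)) ∧
      ∀ h, ∀ᵐ y ∂μ, ρ (GG.emb d h • y) * F h y =
        b h * F (d.phi h) (GG.tau d • y) * ρ y := by
  have hprob := hL.prob
  have hphi : Continuous (fun h : d.V => d.phi h) := d.smooth_phi.continuous
  have hτm : Measurable (fun y : KK d Γ => GG.tau d • y) := (hL.inv (GG.tau d)).measurable
  have hem : ∀ h : d.V, Measurable (fun y : KK d Γ => GG.emb d h • y) :=
    fun h => (hL.inv (GG.emb d h)).measurable
  have hρ1 : ∀ y, ‖ρ y‖ = 1 := fun y => (hL.rinc y).1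
  -- the two sides
  have hAm : ∀ h : d.V, Measurable (fun y => ρ (GG.emb d h • y) * F h y) := fun h =>
    (hL.rmeas.comp (hem h)).mul (hF.lift h).meas
  have hAi : ∀ (h : d.V) y, inC k (ρ (GG.emb d h • y) * F h y) := fun h y =>
    (hL.rinc _).mul ((hF.lift h).inc y)
  have hBm : ∀ h : d.V, Measurable (fun y => F (d.phi h) (GG.tau d • y) * ρ y) := fun h =>
    ((hF.lift (d.phi h)).meas.comp hτm).mul hL.rmeas
  have hBi : ∀ (h : d.V) y, inC k (F (d.phi h) (GG.tau d • y) * ρ y) := fun h y =>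
    ((hF.lift (d.phi h)).inc _).mul (hL.rinc y)
  -- the group law
  have hcomm : ∀ h : d.V, GG.tau d * GG.emb d h = GG.emb d (d.phi h) * GG.tau d := by
    intro h
    refine Prod.ext ?_ ?_
    · change d.mul 0 ((d.phi ^ (1 : ℤ) : Equiv.Perm d.V) h) =
        d.mul (d.phi h) ((d.phi ^ (0 : ℤ) : Equiv.Perm d.V) 0)
      rw [d.zero_mul, zpow_one, zpow_zero, Equiv.Perm.one_apply, d.mul_zero]
    · change (1 : ℤ) + 0 = 0 + 1
      norm_num
  have hone : GG.emb d 0 = 1 := rfl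
  -- derivatives agree
  have hdd : ∀ h : d.V, dd (D + 1) (fun y => (ρ (GG.emb d h • y) * F h y) *
      conj (F (d.phi h) (GG.tau d • y) * ρ y))
      =ᵐ[cube μ (KK.tauE d Γ) (Fin 2) (D + 1)] fun _ => 1 := by
    intro h
    have hτc : MeasurePreserving (fun (x : Arr (Fin 2) (KK d Γ) (D + 1)) v => GG.tau d • x v)
        (cube μ (KK.tauE d Γ) (Fin 2) (D + 1)) (cube μ (KK.tauE d Γ) (Fin 2) (D + 1)) :=
      cube_tArr μ (KK.tauE d Γ) hL.erg.toMeasurePreserving (Fin 2) (D + 1)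
    have k1 := (hL.diag2 h).quasiMeasurePreserving.ae hL.Rr
    have k2 := (hF.lift h).lift
    have k3 := hτc.quasiMeasurePreserving.ae (hF.lift (d.phi h)).lift
    filter_upwards [k1, k2, k3, hL.Rr] with x e1 e2 e3 e4
    have h0 : R x ≠ 0 := by
      intro h
      have := (hL.Rinc x).1
      rw [h, norm_zero] at this
      exact zero_ne_one this
    have e5 : (fun v => GG.tau d • (GG.emb d h • x v)) =
        fun v => GG.emb d (d.phi h) • (GG.tau d • x v) := by
      funext v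
      rw [smul_smul, smul_smul, hcomm]
    rw [e5, e3, e4, e2] at e1
    have eA : dd (D + 1) (fun y => ρ (GG.emb d h • y) * F h y) x =
        dd (D + 1) ρ (fun v => GG.emb d h • x v) * dd (D + 1) (F h) x :=
      dd_mul (D + 1) (fun y => ρ (GG.emb d h • y)) (F h) x
    have eB : dd (D + 1) (fun y => F (d.phi h) (GG.tau d • y) * ρ y) x =
        dd (D + 1) (F (d.phi h)) (fun v => GG.tau d • x v) * dd (D + 1) ρ x :=
      dd_mul (D + 1) (fun y => F (d.phi h) (GG.tau d • y)) ρ x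
    have eAB : dd (D + 1) (fun y => ρ (GG.emb d h • y) * F h y) x =
        dd (D + 1) (fun y => F (d.phi h) (GG.tau d • y) * ρ y) x := by
      rw [eA, eB]
      refine mul_right_cancel₀ h0 ?_
      rw [mul_assoc, mul_assoc]
      exact e1.symm
    rw [dd_mul (D + 1) (fun y => ρ (GG.emb d h • y) * F h y)
      (fun y => conj (F (d.phi h) (GG.tau d • y) * ρ y)) x,
      dd_conj (D + 1) (fun y => F (d.phi h) (GG.tau d • y) * ρ y) x, eAB]
    exact sd_mul_conj (norm_dd (D + 1) (fun y => (hBi h y).1) x)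
  have hcont : ∀ h₀ : d.V, Tendsto (fun h : d.V => ∫ y, ‖(ρ (GG.emb d h • y) * F h y) *
      conj (F (d.phi h) (GG.tau d • y) * ρ y) - (ρ (GG.emb d h₀ • y) * F h₀ y) *
      conj (F (d.phi h₀) (GG.tau d • y) * ρ y)‖ ∂μ) (𝓝 h₀) (𝓝 0) := by
    intro h₀
    refine l7_tend_mul hAm (fun h y => (hAi h y).1)
      (fun h => Complex.continuous_conj.measurable.comp (hBm h))
      (fun h y => (hBi h y).conj.1) ?_ (l7_tend_conj ?_)
    · exact l7_tend_mul (fun h => hL.rmeas.comp (hem h)) (fun h y => hρ1 _)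
        (fun h => (hF.lift h).meas) (fun h y => ((hF.lift h).inc y).1)
        (trans_cont hL (sd_bm hL.rmeas hρ1) h₀) (hF.cont h₀)
    · refine l7_tend_mul (fun h => (hF.lift (d.phi h)).meas.comp hτm)
        (fun h y => ((hF.lift (d.phi h)).inc _).1) (fun _ => hL.rmeas) (fun _ y => hρ1 y) ?_
        (l7_tend_const ρ h₀)
      have hf := (hF.comp hphi).cont h₀
      refine hf.congr (fun h => ?_)
      exact (hL.erg.toMeasurePreserving.integral_comp (KK.tauE d Γ).measurableEmbedding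
        (fun y => ‖F (d.phi h) y - F (d.phi h₀) y‖)).symm
  obtain ⟨b, hb1, hb2, hb3⟩ := conn_const hL
    (fun (h : d.V) y => (ρ (GG.emb d h • y) * F h y) * conj (F (d.phi h) (GG.tau d • y) * ρ y))
    (fun h => (hAm h).mul (Complex.continuous_conj.measurable.comp (hBm h)))
    (fun h y => (hAi h y).mul (hBi h y).conj)
    hdd hcont 0 1 (Filter.Eventually.of_forall fun y => by
      change (ρ (GG.emb d 0 • y) * F 0 y) * conj (F (d.phi 0) (GG.tau d • y) * ρ y) = 1
      rw [GG.phi_zero, h0, h0, hone, one_smul, mul_one, one_mul]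
      exact sd_mul_conj (hρ1 y))
  refine ⟨b, hb1, hb2, fun h => ?_⟩
  filter_upwards [hb3 h] with y hy
  have hy' : (ρ (GG.emb d h • y) * F h y) * conj (F (d.phi h) (GG.tau d • y) * ρ y) = b h := hy
  have h1 := sd_mul_conj (hBi h y).1
  have h2 : b h * F (d.phi h) (GG.tau d • y) * ρ y =
      (ρ (GG.emb d h • y) * F h y) * ((F (d.phi h) (GG.tau d • y) * ρ y) *
        conj (F (d.phi h) (GG.tau d • y) * ρ y)) := by
    rw [← hy']
    ring
  rw [h2, h1, mul_one]

end

end Pool.Agent.HK820
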