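import Pool.Agent.Lib_MP_820dd4_hk.CE3A

/-! ### Part `MK0` -/

section

/-!
# Part II, block MK: abstract Mackey data (definitions)

`G` is a group with a measurable structure and a `σ`-finite left invariant measure `lam ≠ 0`, acting
measurably and transitively on `K`, `μ` an invariant probability measure on `K`.

* `MkC`: `Φ` is a measurable cocycle with values in the closed subgroup number `k` of the circle;
  `w : WW k → G` is a central homomorphism which acts trivially on `K` and with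
  `Φ (w a * g) y = ee k a * Φ g y`.
* `MkB`: the data after the choice of a base point `y₀` : `B g = Φ g y₀`, `θ` is a character of the
  stabilizer of `y₀`, `A` a good conull set of elements `g`, `σ` a section of `g ↦ g • y₀`.
-/

open MeasureTheory ProbabilityTheory Filter Topology
open scoped ComplexConjugate ENNReal

namespace Pool.Agent.HK820

/-- a measurable cocycle with values in `inC k`, and a central subgroup -/
structure MkC {G K : Type} [Group G] [MeasurableSpace G] [MeasurableSpace K] [MulAction G K]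
    (μ : Measure K) (k : ℕ) (w : WW k → G) (Φ : G → K → ℂ) : Prop where
  meas : Measurable fun p : G × K => Φ p.1 p.2
  inc : ∀ g y, inC k (Φ g y)
  coc : ∀ g g', ∀ᵐ y ∂μ, Φ (g * g') y = Φ g (g' • y) * Φ g' y
  wmeas : Measurable w
  wcomm : ∀ a g, w a * g = g * w a
  wact : ∀ a (y : K), w a • y = y
  wΦ : ∀ a g y, Φ (w a * g) y = ee k a * Φ g y
  inv : ∀ g : G, μ.map (fun y => g • y) = μ

/-- the data after the choice of a base point -/
structure MkB {G K : Type} [Group G] [MeasurableSpace G] [MeasurableSpace K] [MulAction G K]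
    (lam : Measure G) (μ : Measure K) (k : ℕ) (Φ : G → K → ℂ) (y₀ : K) (B : G → ℂ)
    (θ : MulAction.stabilizer G y₀ →* ℂ) (A : Set G) (σ : K → G) : Prop where
  Φmeas : Measurable fun p : G × K => Φ p.1 p.2
  Φinc : ∀ g y, inC k (Φ g y)
  μinv : ∀ g : G, μ.map (fun y => g • y) = μ
  Bmeas : Measurable B
  Binc : ∀ g, inC k (B g)
  Bcoc : ∀ᵐ p : G × G ∂(lam.prod lam), B (p.1 * p.2) = Φ p.1 (p.2 • y₀) * B p.2
  θinc : ∀ γ, inC k (θ γ)
  Ameas : MeasurableSet A
  Anull : lam Aᶜ = 0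
  Ainv : ∀ g ∈ A, ∀ γ : MulAction.stabilizer G y₀, g * (γ : G) ∈ A
  Bθ : ∀ g ∈ A, ∀ γ : MulAction.stabilizer G y₀, B (g * (γ : G)) = θ γ * B g
  σmeas : Measurable σ
  σy : ∀ y, σ y • y₀ = y

/-- measurable choice of elements of the stabilizer with given value of the character -/
structure MkS {G K : Type} [Group G] [MeasurableSpace G] [MulAction G K] (k : ℕ) (y₀ : K)
    (θ : MulAction.stabilizer G y₀ →* ℂ) (s : ℂ → G) : Prop where
  meas : Measurable s
  val : ∀ z, inC k z → ∃ h : s z ∈ MulAction.stabilizer G y₀, θ ⟨s z, h⟩ = z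

/-- the point of `N` with coordinates `(y, z)` -/
noncomputable def mkJ {G K N : Type} [Group G] [MulAction G N] (B : G → ℂ) (σ : K → G) (s : ℂ → G)
    (x₀ : N) (y : K) (z : ℂ) : N := (σ y * s (z * conj (B (σ y)))) • x₀

/-! ### Elementary facts about `inC` and `ee` -/

theorem inC_one (k : ℕ) : inC k 1 := ⟨by simp, by simp⟩

theorem inC_mul {k : ℕ} {z w : ℂ} (hz : inC k z) (hw : inC k w) : inC k (z * w) :=
  ⟨by rw [norm_mul, hz.1, hw.1, one_mul], by rw [mul_pow, hz.2, hw.2, one_mul]⟩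

theorem inC_conj {k : ℕ} {z : ℂ} (hz : inC k z) : inC k (conj z) :=
  ⟨by rw [RCLike.norm_conj, hz.1], by rw [← map_pow, hz.2, map_one]⟩

theorem inC_conj_mul {k : ℕ} {z : ℂ} (hz : inC k z) : conj z * z = 1 := by
  rw [← Complex.normSq_eq_conj_mul_self, Complex.normSq_eq_norm_sq, hz.1]
  simp

theorem inC_mul_conj {k : ℕ} {z : ℂ} (hz : inC k z) : z * conj z = 1 := by
  rw [mul_comm, inC_conj_mul hz]

theorem inC_ne_zero {k : ℕ} {z : ℂ} (hz : inC k z) : z ≠ 0 := by
  rw [← norm_ne_zero_iff, hz.1]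
  exact one_ne_zero

theorem isClosed_inC (k : ℕ) : IsClosed {z : ℂ | inC k z} := by
  have h1 : IsClosed {z : ℂ | ‖z‖ = 1} := isClosed_eq continuous_norm continuous_const
  have h2 : IsClosed {z : ℂ | z ^ k = 1} := isClosed_eq (continuous_pow k) continuous_const
  exact h1.inter h2

theorem mk_ee_add (k : ℕ) (a b : WW k) : ee k (a + b) = ee k a * ee k b := by
  rw [ee, ee, ee, ← Complex.exp_add, ← mul_add]
  congr 2
  rw [← Complex.ofReal_add, ← Finset.sum_add_distrib]
  rfl

theorem mk_ee_zero (k : ℕ) : ee k 0 = 1 := by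
  simp [ee]

theorem ee_add (k : ℕ) (a b : WW k) : ee k (a + b) = ee k a * ee k b := mk_ee_add k a b

theorem ee_zero (k : ℕ) : ee k 0 = 1 := mk_ee_zero k

theorem norm_ee (k : ℕ) (a : WW k) : ‖ee k a‖ = 1 := by
  rw [ee, mul_comm, Complex.norm_exp_ofReal_mul_I]

theorem ee_of_pos {k : ℕ} (hk : k ≠ 0) (a : WW k) : ee k a = 1 := by
  have : IsEmpty (Fin (if k = 0 then 1 else 0)) := by
    rw [if_neg hk]
    infer_instance
  simp [ee]

theorem inC_ee (k : ℕ) (a : WW k) : inC k (ee k a) := by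
  refine ⟨norm_ee k a, ?_⟩
  rcases eq_or_ne k 0 with rfl | h
  · exact pow_zero _
  · rw [ee_of_pos h, one_pow]

theorem ee_neg (k : ℕ) (a : WW k) : ee k (-a) = conj (ee k a) := by
  have h := mk_ee_add k a (-a)
  rw [add_neg_cancel, mk_ee_zero] at h
  have h1 := inC_conj_mul (inC_ee k a)
  calc ee k (-a) = conj (ee k a) * ee k a * ee k (-a) := by rw [h1, one_mul]
    _ = conj (ee k a) * (ee k a * ee k (-a)) := by ring
    _ = conj (ee k a) := by rw [← h, mul_one]

theorem continuous_ee (k : ℕ) : Continuous (ee k) := by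
  unfold ee
  fun_prop

end Pool.Agent.HK820

end

/-! ### Part `L9` -/

section

open MeasureTheory ProbabilityTheory Filter Topology
open scoped ComplexConjugate ENNReal

namespace Pool.Agent.HK820

private theorem l9_ee_pos {k : ℕ} (hk : k ≠ 0) (a : WW k) : ee k a = 1 := by
  have : IsEmpty (Fin (if k = 0 then 1 else 0)) := by
    rw [if_neg hk]
    infer_instance
  unfold ee
  rw [Finset.univ_eq_empty, Finset.sum_empty, Complex.ofReal_zero, mul_zero, Complex.exp_zero]

/-- the only index -/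
private def l9_z : Fin (if (0 : ℕ) = 0 then 1 else 0) := (0 : Fin 1)

private theorem l9_sum (a : WW 0) : ∑ j, a j = a l9_z := Fin.sum_univ_one (fun j : Fin 1 => a j)

private theorem l9_ee_zero (a : WW 0) :
    ee 0 a = Complex.exp (Complex.I * ((a l9_z : ℝ) : ℂ)) := by
  unfold ee
  rw [l9_sum]

/-- **L9a.** Continuous maps from a finite dimensional real vector space to `C_k` lift to the
exponential map `ee k`.

Proof. `k ≥ 1`: `C_k` is finite, `c` is continuous on a connected space, so `c = c 0 = 1`, and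
`c' = 0`. `k = 0`: `WW 0 = (Fin 1 → ℝ)`, `ee 0 a = exp (i a 0)`; lifting of a circle valued continuous
function on a simply connected, locally path connected space through the covering
`ℝ → Circle` (Mathlib: `Circle`/`AddCircle` covering maps and lifting criterion for simply
connected spaces), or by hand: on the ball of radius `r` there is `m` with
`‖c ((j+1) v / m) - c (j v / m)‖ < 1` for all `j < m`, put
`c' v = ∑_{j < m} arg (c ((j+1) v / m) / c (j v / m))`; it does not depend on `m` (large). -/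
theorem lift_ee {V : Type} [NormedAddCommGroup V] [NormedSpace ℝ V] [FiniteDimensional ℝ V]
    (k : ℕ) (c : V → ℂ) (hc : Continuous c) (hi : ∀ v, inC k (c v)) (h0 : c 0 = 1) :
    ∃ c' : V → WW k, Continuous c' ∧ c' 0 = 0 ∧ ∀ v, ee k (c' v) = c v := by
  rcases Nat.eq_zero_or_pos k with hk | hk
  · subst hk
    have hc2 : Continuous fun v => (⟨c v, mem_sphere_zero_iff_norm.2 (hi v).1⟩ : Circle) :=
      Continuous.subtype_mk hc _
    obtain ⟨F, ⟨hF0, hF⟩, _⟩ := Circle.isCoveringMap_exp.existsUnique_continuousMap_lifts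
      (⟨_, hc2⟩ : C(V, Circle)) (0 : V) (0 : ℝ) (by
        rw [Circle.exp_zero]
        exact Subtype.ext h0.symm)
    refine ⟨fun v _ => F v, continuous_pi fun _ => F.continuous, funext fun _ => hF0,
      fun v => ?_⟩
    rw [l9_ee_zero]
    have h1 := congrArg (fun z : Circle => (z : ℂ)) (congrFun hF v)
    have h2 : ((Circle.exp (F v) : Circle) : ℂ) = c v := h1
    rw [← h2, Circle.coe_exp, mul_comm]
  · have hk' : k ≠ 0 := hk.ne'
    refine ⟨fun _ => 0, continuous_const, rfl, fun v => ?_⟩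
    rw [l9_ee_pos hk']
    have hfin : Set.Finite {z : ℂ | z ^ k = 1} := by
      have h1 : {z : ℂ | z ^ k = 1} ⊆ ((Polynomial.nthRoots k (1 : ℂ)).toFinset : Set ℂ) := by
        intro z hz
        rw [Finset.mem_coe, Multiset.mem_toFinset, Polynomial.mem_nthRoots hk]
        exact hz
      exact (Finset.finite_toSet _).subset h1
    obtain ⟨y, hy, hy2⟩ := (isPreconnected_univ (α := V)).eqOn_const_of_mapsTo
      (T := {z : ℂ | z ^ k = 1}) hfin.isDiscrete hc.continuousOn (fun v _ => (hi v).2) ⟨1, one_pow k⟩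
    have h2 := hy2 (Set.mem_univ v)
    have h3 := hy2 (Set.mem_univ (0 : V))
    rw [h2, ← h0, h3]
    rfl

/-- **L9b.** A continuous map to `WW k` with `ee k ∘ f = 1`, vanishing at one point of a preconnected
space, vanishes. -/
theorem ee_lift_zero {T : Type} [TopologicalSpace T] [PreconnectedSpace T] (k : ℕ) (f : T → WW k)
    (hf : Continuous f) (h : ∀ t, ee k (f t) = 1) (t₀ : T) (h0 : f t₀ = 0) (t : T) : f t = 0 := by
  rcases Nat.eq_zero_or_pos k with hk | hk
  · subst hk
    have h1 : (fun t => f t l9_z) = fun _ => (0 : ℝ) := by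
      refine Circle.isCoveringMap_exp.eq_of_comp_eq ((continuous_apply l9_z).comp hf)
        continuous_const ?_ t₀ (congrFun h0 l9_z)
      funext t
      have h2 := h t
      rw [l9_ee_zero] at h2
      apply Subtype.ext
      show ((Circle.exp (f t l9_z) : Circle) : ℂ) = ((Circle.exp 0 : Circle) : ℂ)
      rw [Circle.exp_zero, Circle.coe_exp, mul_comm, h2]
      rfl
    funext j
    have hj : j = l9_z := Subsingleton.elim (α := Fin 1) j l9_z
    rw [hj]
    exact congrFun h1 t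
  · have hk' : k ≠ 0 := hk.ne'
    have : IsEmpty (Fin (if k = 0 then 1 else 0)) := by
      rw [if_neg hk']
      infer_instance
    exact Subsingleton.elim _ _

theorem ee_inC (k : ℕ) (a : WW k) : inC k (ee k a) := by
  refine ⟨?_, ?_⟩
  · unfold ee
    rw [mul_comm, Complex.norm_exp_ofReal_mul_I]
  · rcases Nat.eq_zero_or_pos k with hk | hk
    · subst hk
      rw [pow_zero]
    · rw [l9_ee_pos hk.ne', one_pow]

end Pool.Agent.HK820

end

/-! ### Part `MKC` -/

section

/-!
# Part II, block MKC: the base point and the character of the stabilizer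

* `exists_base`: the set of `(g, g', y)` with `Φ (g g') y ≠ Φ g (g' y) Φ g' y` is measurable and every section
  with `(g, g')` fixed is `μ`-null (`hD.coc`); by Fubini (`Measure.ae_ae_of_ae_prod`,
  `measure_prod_null`, `MeasureTheory.Measure.prod_swap`) for `μ`-a.e. `y` the set of `(g, g')` is null for
  `lam.prod lam`. The same for the second property (the section at `g` is null by `hD.coc τ g`). `μ` is a
  probability measure, so there is a point `y₀` with both properties.
* `exists_theta`: let `γ ∈ stabilizer`. Right translations preserve null sets of `lam`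
  (`MeasureTheory.quasiMeasurePreserving_mul_right`). Hence for a.e. `(g, g')` also
  `B (g g' γ) = Φ g (g' γ y₀) B (g' γ) = Φ g (g' y₀) B (g' γ)`. With `r g = B (g γ) conj (B g)` this gives
  `r (g g') = r g'` for a.e. `(g, g')` (multiply by the conjugate of the identity for `B (g g')`,
  `‖Φ‖ = 1`). By Fubini there is one `g'` (`lam ≠ 0`) with `r (g g') = r g'` for a.e. `g`, and again right
  translation by `g'⁻¹` gives `r g = const =: θ γ` for a.e. `g`. `θ γ ∈ inC k` and `B (g γ) = θ γ B g` a.e.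
  Multiplicativity: `B (g γ γ') = θ γ' B (g γ) = θ γ' θ γ B g` for a.e. `g` (right translation by `γ` of
  the null set of `γ'`), compare with `B (g γ γ') = θ (γ γ') B g`; `θ 1 = 1`.
* `exists_good`: first `θ (w a) = ee a` (compare `B (g * w a) = B (w a * g) = ee a * B g` with
  `B (g * w a) = θ (w a) B g` at one `g`). `A = {g | ∀ c ∈ C ∩ stabilizer, B (g c) = θ c B g}`, a
  countable intersection, measurable and conull. For `γ` in the stabilizer write `γ = w a * c`, then `c` is
  in the stabilizer and `B (g γ) = B (w a * (g c)) = ee a θ c B g = θ γ B g` for `g ∈ A`. So `A` is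
  right invariant: `B (g γ γ') = θ (γ γ') B g = θ γ' B (g γ)`.
-/

open MeasureTheory ProbabilityTheory Filter Topology
open scoped ComplexConjugate ENNReal

namespace Pool.Agent.HK820

variable {G K : Type} [Group G] [MeasurableSpace G] [MeasurableMul₂ G] [MeasurableInv G]
  [MeasurableSpace K] [MulAction G K] [MeasurableSMul₂ G K]

theorem exists_base (lam : Measure G) [SigmaFinite lam] (μ : Measure K) [IsProbabilityMeasure μ]
    {k : ℕ} {w : WW k → G} {Φ : G → K → ℂ} (hD : MkC μ k w Φ) (τ : G) :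
    ∃ y₀ : K, (∀ᵐ p : G × G ∂(lam.prod lam),
        Φ (p.1 * p.2) y₀ = Φ p.1 (p.2 • y₀) * Φ p.2 y₀) ∧
      ∀ᵐ g ∂lam, Φ (τ * g) y₀ = Φ τ (g • y₀) * Φ g y₀ := by
  have hm := hD.meas
  have m1 : MeasurableSet {x : (G × G) × K |
      Φ (x.1.1 * x.1.2) x.2 = Φ x.1.1 (x.1.2 • x.2) * Φ x.1.2 x.2} := by
    refine measurableSet_eq_fun ?_ (Measurable.mul ?_ ?_)
    · exact hm.comp ((measurable_fst.fst.mul measurable_fst.snd).prodMk measurable_snd)
    · exact hm.comp (measurable_fst.fst.prodMk (measurable_fst.snd.smul measurable_snd))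
    · exact hm.comp (measurable_fst.snd.prodMk measurable_snd)
  have m2 : MeasurableSet {x : G × K | Φ (τ * x.1) x.2 = Φ τ (x.1 • x.2) * Φ x.1 x.2} := by
    refine measurableSet_eq_fun ?_ (Measurable.mul ?_ ?_)
    · exact hm.comp ((measurable_const.mul measurable_fst).prodMk measurable_snd)
    · exact hm.comp (measurable_const.prodMk (measurable_fst.smul measurable_snd))
    · exact hm.comp (measurable_fst.prodMk measurable_snd)
  have h1 : ∀ᵐ y ∂μ, ∀ᵐ p : G × G ∂(lam.prod lam),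
      Φ (p.1 * p.2) y = Φ p.1 (p.2 • y) * Φ p.2 y :=
    (Measure.ae_ae_comm (μ := lam.prod lam) (ν := μ)
      (p := fun (p : G × G) y => Φ (p.1 * p.2) y = Φ p.1 (p.2 • y) * Φ p.2 y) m1).1
      (Eventually.of_forall fun p => hD.coc p.1 p.2)
  have h2 : ∀ᵐ y ∂μ, ∀ᵐ g ∂lam, Φ (τ * g) y = Φ τ (g • y) * Φ g y :=
    (Measure.ae_ae_comm (μ := lam) (ν := μ)
      (p := fun (g : G) y => Φ (τ * g) y = Φ τ (g • y) * Φ g y) m2).1
      (Eventually.of_forall fun g => hD.coc τ g)
  obtain ⟨y₀, h3, h4⟩ := (h1.and h2).exists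
  exact ⟨y₀, h3, h4⟩

theorem mkc_theta (lam : Measure G) [SigmaFinite lam] [lam.IsMulLeftInvariant] (hlam : lam ≠ 0)
    {k : ℕ} {Φ : G → K → ℂ} (hΦ : ∀ g y, inC k (Φ g y)) (y₀ : K) {B : G → ℂ} (hB : Measurable B)
    (hBk : ∀ g, inC k (B g))
    (hcoc : ∀ᵐ p : G × G ∂(lam.prod lam), B (p.1 * p.2) = Φ p.1 (p.2 • y₀) * B p.2)
    (γ : MulAction.stabilizer G y₀) :
    ∃ c : ℂ, inC k c ∧ ∀ᵐ g ∂lam, B (g * (γ : G)) = c * B g := by
  have hne : (ae lam).NeBot := ae_neBot.2 hlam
  have h1 := Measure.ae_ae_of_ae_prod hcoc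
  have hγ : ∀ g : G, (g * (γ : G)) • y₀ = g • y₀ := by
    intro g
    rw [mul_smul, γ.2]
  have hr : Measurable (fun g : G => B (g * (γ : G)) * conj (B g)) :=
    (hB.comp (measurable_id.mul measurable_const)).mul
      (Complex.continuous_conj.measurable.comp hB)
  have h2 : ∀ᵐ g ∂lam, ∀ᵐ g' ∂lam, B (g * g' * (γ : G)) * conj (B (g * g')) =
      B (g' * (γ : G)) * conj (B g') := by
    filter_upwards [h1] with g hg
    filter_upwards [hg, (quasiMeasurePreserving_mul_right lam (γ : G)).ae hg] with g' h3 h4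
    have h5 : B (g * g' * (γ : G)) = Φ g (g' • y₀) * B (g' * (γ : G)) := by
      rw [mul_assoc]
      rw [hγ] at h4
      exact h4
    have h3' : B (g * g') = Φ g (g' • y₀) * B g' := h3
    rw [h5, h3', map_mul]
    have h6 := inC_mul_conj (hΦ g (g' • y₀))
    calc Φ g (g' • y₀) * B (g' * (γ : G)) * (conj (Φ g (g' • y₀)) * conj (B g'))
        = (Φ g (g' • y₀) * conj (Φ g (g' • y₀))) * (B (g' * (γ : G)) * conj (B g')) := by ring
      _ = _ := by rw [h6, one_mul]
  have m1 : MeasurableSet {x : G × G | B (x.1 * x.2 * (γ : G)) * conj (B (x.1 * x.2)) =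
      B (x.2 * (γ : G)) * conj (B x.2)} := by
    refine measurableSet_eq_fun ?_ ?_
    · exact hr.comp (measurable_fst.mul measurable_snd)
    · exact hr.comp measurable_snd
  have h3 := (Measure.ae_ae_comm (μ := lam) (ν := lam)
    (p := fun g g' : G => B (g * g' * (γ : G)) * conj (B (g * g')) =
      B (g' * (γ : G)) * conj (B g')) m1).1 h2
  obtain ⟨g', hg'⟩ := h3.exists
  refine ⟨B (g' * (γ : G)) * conj (B g'), inC_mul (hBk _) (inC_conj (hBk _)), ?_⟩
  filter_upwards [(quasiMeasurePreserving_mul_right lam (g'⁻¹)).ae hg'] with g hg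
  rw [inv_mul_cancel_right] at hg
  rw [← hg, mul_assoc, inC_conj_mul (hBk g), mul_one]

theorem exists_theta (lam : Measure G) [SigmaFinite lam] [lam.IsMulLeftInvariant] (hlam : lam ≠ 0)
    {k : ℕ} {Φ : G → K → ℂ} (hΦ : ∀ g y, inC k (Φ g y)) (y₀ : K) {B : G → ℂ} (hB : Measurable B)
    (hBk : ∀ g, inC k (B g))
    (hcoc : ∀ᵐ p : G × G ∂(lam.prod lam), B (p.1 * p.2) = Φ p.1 (p.2 • y₀) * B p.2) :
    ∃ θ : MulAction.stabilizer G y₀ →* ℂ, (∀ γ, inC k (θ γ)) ∧
      ∀ γ : MulAction.stabilizer G y₀, ∀ᵐ g ∂lam, B (g * (γ : G)) = θ γ * B g := by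
  have hne : (ae lam).NeBot := ae_neBot.2 hlam
  choose c hc1 hc2 using mkc_theta lam hlam hΦ y₀ hB hBk hcoc
  refine ⟨⟨⟨c, ?_⟩, ?_⟩, hc1, hc2⟩
  · obtain ⟨g, hg⟩ := (hc2 1).exists
    have h1 : B g = c 1 * B g := by
      have h2 : g * ((1 : MulAction.stabilizer G y₀) : G) = g := mul_one g
      rw [h2] at hg
      exact hg
    have h3 : (c 1 - 1) * B g = 0 := by
      rw [sub_mul, one_mul, ← h1, sub_self]
    rcases mul_eq_zero.1 h3 with h4 | h4
    · exact sub_eq_zero.1 h4
    · exact absurd h4 (inC_ne_zero (hBk g))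
  · intro γ γ'
    obtain ⟨g, h1, h2, h3⟩ := ((hc2 (γ * γ')).and ((hc2 γ).and
      ((quasiMeasurePreserving_mul_right lam (γ : G)).ae (hc2 γ')))).exists
    have h4 : g * ((γ * γ' : MulAction.stabilizer G y₀) : G) = g * (γ : G) * (γ' : G) :=
      (mul_assoc g (γ : G) (γ' : G)).symm
    rw [h4, h3, h2] at h1
    have h5 : (c (γ * γ') - c γ * c γ') * B g = 0 := by
      rw [sub_mul, ← h1]
      ring
    rcases mul_eq_zero.1 h5 with h6 | h6
    · exact sub_eq_zero.1 h6
    · exact absurd h6 (inC_ne_zero (hBk g))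

theorem exists_good (lam : Measure G) [SigmaFinite lam] [lam.IsMulLeftInvariant] (hlam : lam ≠ 0)
    {k : ℕ} {w : WW k → G} (y₀ : K) (hwcomm : ∀ a g, w a * g = g * w a)
    (hwact : ∀ a, w a • y₀ = y₀) {B : G → ℂ} (hB : Measurable B)
    (hBk : ∀ g, inC k (B g)) (hBw : ∀ a g, B (w a * g) = ee k a * B g)
    (θ : MulAction.stabilizer G y₀ →* ℂ)
    (hθ : ∀ γ : MulAction.stabilizer G y₀, ∀ᵐ g ∂lam, B (g * (γ : G)) = θ γ * B g)
    (C : Set G) (hC : C.Countable)
    (hC' : ∀ γ ∈ MulAction.stabilizer G y₀, ∃ c ∈ C, ∃ a, γ = w a * c) :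
    (∀ a, θ ⟨w a, hwact a⟩ = ee k a) ∧
    ∃ A : Set G, MeasurableSet A ∧ lam Aᶜ = 0 ∧
      (∀ g ∈ A, ∀ γ : MulAction.stabilizer G y₀, g * (γ : G) ∈ A) ∧
      ∀ g ∈ A, ∀ γ : MulAction.stabilizer G y₀, B (g * (γ : G)) = θ γ * B g := by
  have hne : (ae lam).NeBot := ae_neBot.2 hlam
  have hθw : ∀ a, θ ⟨w a, hwact a⟩ = ee k a := by
    intro a
    obtain ⟨g, hg⟩ := (hθ ⟨w a, hwact a⟩).exists
    have h1 : B (g * w a) = ee k a * B g := by rw [← hwcomm, hBw]
    have h2 : θ ⟨w a, hwact a⟩ * B g = ee k a * B g := by rw [← hg, ← h1]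
    exact mul_right_cancel₀ (inC_ne_zero (hBk g)) h2
  refine ⟨hθw, {g | ∀ c ∈ C, ∀ h : c ∈ MulAction.stabilizer G y₀, B (g * c) = θ ⟨c, h⟩ * B g},
    ?_, ?_, ?_⟩
  · have e1 : {g | ∀ c ∈ C, ∀ h : c ∈ MulAction.stabilizer G y₀, B (g * c) = θ ⟨c, h⟩ * B g} =
        ⋂ c ∈ C, ⋂ h : c ∈ MulAction.stabilizer G y₀, {g | B (g * c) = θ ⟨c, h⟩ * B g} := by
      ext g
      simp only [Set.mem_setOf_eq, Set.mem_iInter]
    rw [e1]
    refine MeasurableSet.biInter hC fun c _ => MeasurableSet.iInter fun h => ?_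
    exact measurableSet_eq_fun (hB.comp (measurable_id.mul measurable_const))
      (measurable_const.mul hB)
  · have h1 : ∀ᵐ g ∂lam, ∀ c ∈ C, ∀ h : c ∈ MulAction.stabilizer G y₀,
        B (g * c) = θ ⟨c, h⟩ * B g := by
      rw [ae_ball_iff hC]
      intro c _
      rw [ae_all_iff]
      intro h
      exact hθ ⟨c, h⟩
    exact h1
  · have key : ∀ g ∈ {g | ∀ c ∈ C, ∀ h : c ∈ MulAction.stabilizer G y₀,
        B (g * c) = θ ⟨c, h⟩ * B g}, ∀ γ : MulAction.stabilizer G y₀,
        B (g * (γ : G)) = θ γ * B g := by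
      intro g hg γ
      obtain ⟨c, hc, a, hca⟩ := hC' γ γ.2
      have hcs : c ∈ MulAction.stabilizer G y₀ := by
        have h1 : (γ : G) • y₀ = y₀ := γ.2
        rw [hca, mul_smul] at h1
        have h2 : c • y₀ = y₀ := by
          have h3 : w a • (c • y₀) = w a • y₀ := by rw [h1, hwact a]
          exact MulAction.injective (w a) h3
        exact h2
      have h4 : γ = ⟨w a, hwact a⟩ * ⟨c, hcs⟩ := Subtype.ext hca
      have h5 : g * (γ : G) = w a * (g * c) := by
        rw [hca, ← mul_assoc, ← hwcomm, mul_assoc]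
      rw [h5, hBw, hg c hc hcs, h4, map_mul, hθw]
      ring
    refine ⟨fun g hg γ c hc h => ?_, key⟩
    have h1 := key g hg (γ * ⟨c, h⟩)
    have h2 : g * ((γ * ⟨c, h⟩ : MulAction.stabilizer G y₀) : G) = g * (γ : G) * c :=
      (mul_assoc g (γ : G) c).symm
    rw [h2, map_mul] at h1
    rw [h1, key g hg γ]
    ring

end Pool.Agent.HK820

end

/-! ### Part `MKD` -/

section

/-!
# Part II, block MKD: conull sets of group elements and of points

* `conull_transfer`: let `K₀ = {y | σ y ∈ A}` (measurable). For `g : G` and `y : K` with `g • y ∉ K₀`: write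
  `y = h • y₀` with `h = σ y`; `σ (g • y) = g * h * γ` for some `γ` in the stabilizer (both elements send `y₀`
  to `g • y`), so `g * h ∉ A` (otherwise `σ (g • y) ∈ A` by right invariance). Hence for fixed `y` the set
  `{g | g • y ∉ K₀} ⊆ {g | g * σ y ∉ A}` is `lam`-null
  (`MeasureTheory.quasiMeasurePreserving_mul_right`). By Fubini for
  `lam.prod μ` there is `g` (`lam ≠ 0`) with `μ {y | g • y ∉ K₀} = 0`, and this number is `μ K₀ᶜ` by
  invariance. For the statement about all `g` with `g • y₀ = y`: such `g` is `σ y * γ`.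
* `mk_transl`: apply `conull_transfer` to
  `A' = {g ∈ A | g₁ * g ∈ A ∧ B (g₁ * g) = Φ g₁ (g • y₀) * B g}`, a measurable set, conull (left translation
  preserves `lam`), and right invariant: for `g ∈ A'` and `γ` in the stabilizer `g γ ∈ A`,
  `g₁ g γ ∈ A`, `B (g₁ g γ) = θ γ B (g₁ g) = θ γ Φ g₁ (g y₀) B g = Φ g₁ (g γ y₀) B (g γ)`.
-/

open MeasureTheory ProbabilityTheory Filter Topology
open scoped ComplexConjugate ENNReal

namespace Pool.Agent.HK820

variable {G K : Type} [Group G] [MeasurableSpace G] [MeasurableMul₂ G] [MeasurableInv G]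
  [MeasurableSpace K] [MulAction G K] [MeasurableSMul₂ G K]

theorem conull_transfer (lam : Measure G) [SigmaFinite lam] [lam.IsMulLeftInvariant]
    (hlam : lam ≠ 0) (μ : Measure K) [IsProbabilityMeasure μ]
    (hμ : ∀ g : G, μ.map (fun y => g • y) = μ) (y₀ : K) (σ : K → G) (hσ : Measurable σ)
    (hσy : ∀ y, σ y • y₀ = y) (A : Set G) (hA : MeasurableSet A) (hA0 : lam Aᶜ = 0)
    (hinv : ∀ g ∈ A, ∀ γ : MulAction.stabilizer G y₀, g * (γ : G) ∈ A) :
    ∀ᵐ y ∂μ, ∀ g : G, g • y₀ = y → g ∈ A := by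
  have hne : (ae lam).NeBot := ae_neBot.2 hlam
  have hae : ∀ᵐ g ∂lam, g ∈ A := hA0
  have h1 : ∀ y : K, ∀ᵐ g ∂lam, σ (g • y) ∈ A := by
    intro y
    filter_upwards [(quasiMeasurePreserving_mul_right lam (σ y)).ae hae] with g hg
    have h2 : (g * σ y)⁻¹ * σ (g • y) ∈ MulAction.stabilizer G y₀ := by
      rw [MulAction.mem_stabilizer_iff, mul_smul, hσy, inv_smul_eq_iff, mul_smul, hσy]
    have h3 := hinv _ hg ⟨_, h2⟩
    have h4 : g * σ y * ((g * σ y)⁻¹ * σ (g • y)) = σ (g • y) := by group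
    rw [← h4]
    exact h3
  have m1 : MeasurableSet {x : K × G | σ (x.2 • x.1) ∈ A} :=
    (hσ.comp (measurable_snd.smul measurable_fst)) hA
  have h2 := (Measure.ae_ae_comm (μ := μ) (ν := lam) (p := fun y g => σ (g • y) ∈ A) m1).1
    (Eventually.of_forall h1)
  obtain ⟨g, hg⟩ := h2.exists
  have h3 : ∀ᵐ y ∂μ, σ y ∈ A := by
    rw [← hμ g]
    exact (ae_map_iff (measurable_const_smul g).aemeasurable (hσ hA)).2 hg
  filter_upwards [h3] with y hy g' hg'
  have h4 : (σ y)⁻¹ * g' ∈ MulAction.stabilizer G y₀ := by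
    rw [MulAction.mem_stabilizer_iff, mul_smul, hg', inv_smul_eq_iff, hσy]
  have h5 := hinv _ hy ⟨_, h4⟩
  have h6 : σ y * ((σ y)⁻¹ * g') = g' := by group
  rw [← h6]
  exact h5

theorem mk_transl {lam : Measure G} [SigmaFinite lam] [lam.IsMulLeftInvariant] (hlam : lam ≠ 0)
    {μ : Measure K} [IsProbabilityMeasure μ] {k : ℕ} {Φ : G → K → ℂ} {y₀ : K} {B : G → ℂ}
    {θ : MulAction.stabilizer G y₀ →* ℂ} {A : Set G} {σ : K → G}
    (hM : MkB lam μ k Φ y₀ B θ A σ) (g₁ : G)
    (hg₁ : ∀ᵐ g ∂lam, B (g₁ * g) = Φ g₁ (g • y₀) * B g) :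
    ∀ᵐ y ∂μ, ∀ g : G, g • y₀ = y → g ∈ A ∧ g₁ * g ∈ A ∧ B (g₁ * g) = Φ g₁ y * B g := by
  have hae : ∀ᵐ g ∂lam, g ∈ A := hM.Anull
  have hml : Measurable fun g : G => g₁ * g := measurable_const.mul measurable_id
  have m1 : MeasurableSet {g : G | g ∈ A ∧ g₁ * g ∈ A ∧ B (g₁ * g) = Φ g₁ (g • y₀) * B g} := by
    refine hM.Ameas.inter ((hml hM.Ameas).inter ?_)
    refine measurableSet_eq_fun (hM.Bmeas.comp hml) (Measurable.mul ?_ hM.Bmeas)
    exact hM.Φmeas.comp (measurable_const.prodMk (measurable_id.smul measurable_const))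
  have h1 : ∀ᵐ g ∂lam, g ∈ A ∧ g₁ * g ∈ A ∧ B (g₁ * g) = Φ g₁ (g • y₀) * B g := by
    filter_upwards [hae, (measurePreserving_mul_left lam g₁).quasiMeasurePreserving.ae hae, hg₁]
      with g h2 h3 h4
    exact ⟨h2, h3, h4⟩
  have h2 := conull_transfer lam hlam μ hM.μinv y₀ σ hM.σmeas hM.σy _ m1 h1 (by
    rintro g ⟨h3, h4, h5⟩ γ
    have e1 : g₁ * (g * (γ : G)) = g₁ * g * (γ : G) := (mul_assoc _ _ _).symm
    have e2 : (g * (γ : G)) • y₀ = g • y₀ := by rw [mul_smul, γ.2]
    refine ⟨hM.Ainv g h3 γ, ?_, ?_⟩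
    · rw [e1]
      exact hM.Ainv _ h4 γ
    · rw [e1, e2, hM.Bθ _ h4 γ, hM.Bθ _ h3 γ, h5]
      ring)
  filter_upwards [h2] with y hy g hg
  obtain ⟨h3, h4, h5⟩ := hy g hg
  refine ⟨h3, h4, ?_⟩
  rw [h5, hg]

end Pool.Agent.HK820

end
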