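import Pool.Agent.Lib_MP_820dd4_hk.CE3A

/-!
# Part II, block CE3: smoothing of a continuous cocycle

Notation: `x y` for `d.mul x y`, `x⁻¹` for `d.inv x`. Let `borel` be the measurable structure of `V`
(`borelize d.V`), `ν` left invariant and `ν'` right invariant (CE3A), `w`, `w'` smooth compactly
supported weights with `∫ w dν = 1`, `∫ w' dν' = 1`.

STEP 1. `β₁ x = -∫ w z • c x z dν z` (continuous, `continuous_parametric_integral_of_continuous` with
compact support or `param_int`-like argument; e.g. `continuous_integral_of ...`). Integrating the cocycle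
identity `c x y + c (x y) z = c x (y z) + c y z` against `w z dν z`:
`c₁ x y := c x y + β₁ x + β₁ y - β₁ (x y) = ∫ c x (y z) w z dν z - ∫ c x z w z dν z
 = ∫ (w (y⁻¹ z) - w z) • c x z dν z` (left invariance).
`c₁` is again a continuous cocycle.
STEP 2. `β₂ y = -∫ w' v • c₁ v y dν' v`. From `c₁ v x + c₁ (v x) y = c₁ v (x y) + c₁ x y` integrated
against `w' v dν' v`: `c₂ x y := c₁ x y + β₂ x + β₂ y - β₂ (x y) = ∫ w' v • c₁ (v x) y dν' v
 - ∫ w' v • c₁ v y dν' v = ∫ (w' (v x⁻¹) - w' v) • c₁ v y dν' v` (right invariance)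
`= ∫∫ (w' (v x⁻¹) - w' v) (w (y⁻¹ z) - w z) • c v z dν z dν' v`, an integral over `V × V` with the
measure `ν'.prod ν` (Fubini: the integrand is continuous with compact support), smooth in `(x, y)` by
`param_int` with `P = E = V × V`. Support: for `(x, y)` near `(x₀, y₀)` (in a compact neighbourhood
`A × B`), `w' (v x⁻¹) - w' v ≠ 0` implies `v ∈ (tsupport w') A ∪ tsupport w'`, compact, and similarly
`z ∈ B (tsupport w) ∪ tsupport w`.
STEP 3. Normalisation: `β = β₁ + β₂ - const`. A cocycle satisfies `c₂ x 0 = c₂ 0 0 = c₂ 0 y` (put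
`y = z = 0`, resp. `x = y = 0` in the cocycle identity). With `β x := β₁ x + β₂ x - (β₁ 0 + β₂ 0)`:
`β 0 = 0` and `c' x y = c₂ x y - (β₁ 0 + β₂ 0)`, smooth. (Then `c' 0 0 = c 0 0 + β 0 = 0` etc., not
needed in the statement.)
STEP 4. `b' h = b h + β h - β (phi h)` satisfies `b' (x y) + c' x y = b' x + b' y + c' (phi x) (phi y)`
(from `comp`, `phi_mul`), `b'` is continuous. Integrate
`b' x = b' (x y) - b' y - (c' (phi x) (phi y) - c' x y)` against `w y dν y`:
`b' x = ∫ w (x⁻¹ y) • b' y dν y - ∫ w y • b' y dν y - ∫ w y • (c' (phi x) (phi y) - c' x y) dν y`.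
The first term is smooth by `param_int`, the second constant, the third is smooth: it is
`∫ w y • g (x, y) dν y` with `g` smooth; (Mathlib: `contDiff_parametric...`, or apply
`contDiffOn_convolution_right_with_param_comp` with `f` a function equal to `1` and the vector valued kernel
`w (y) • g (x, y)`; it is convenient to prove a vector valued version of `param_int` with `f = 1`:
`∫ K (p, x) ∂μ` is smooth for smooth `K : P × E → W` with locally uniformly compact support.)
-/

open MeasureTheory ProbabilityTheory Filter Topology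
open scoped ComplexConjugate ENNReal

namespace Pool.Agent.HK820

namespace Smoo

variable (d : ND)

theorem inv_mul_left (y z : d.V) : d.mul (d.inv y) (d.mul y z) = z := by
  rw [← d.assoc, d.inv_mul, d.zero_mul]

theorem mul_inv_left (y z : d.V) : d.mul y (d.mul (d.inv y) z) = z := by
  rw [← d.assoc, GG.mul_inv, d.zero_mul]

theorem mul_inv_right (v x : d.V) : d.mul (d.mul v x) (d.inv x) = v := by
  rw [d.assoc, GG.mul_inv, d.mul_zero]

theorem inv_mul_right (v x : d.V) : d.mul (d.mul v (d.inv x)) x = v := by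
  rw [d.assoc, d.inv_mul, d.mul_zero]

theorem cd_congr {E F : Type} [NormedAddCommGroup E] [NormedSpace ℝ E] [NormedAddCommGroup F]
    [NormedSpace ℝ F] {f g : E → F} (h : ContDiff ℝ (⊤ : ℕ∞) f) (e : ∀ x, g x = f x) :
    ContDiff ℝ (⊤ : ℕ∞) g := by
  have h1 : g = f := funext e
  rw [h1]
  exact h

theorem cmul {X : Type} [TopologicalSpace X] {f g : X → d.V} (hf : Continuous f)
    (hg : Continuous g) : Continuous fun x => d.mul (f x) (g x) :=
  d.smooth_mul.continuous.comp (hf.prodMk hg)

theorem cinv {X : Type} [TopologicalSpace X] {f : X → d.V} (hf : Continuous f) :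
    Continuous fun x => d.inv (f x) :=
  d.smooth_inv.continuous.comp hf

theorem smul' {E : Type} [NormedAddCommGroup E] [NormedSpace ℝ E] {f g : E → d.V}
    (hf : ContDiff ℝ (⊤ : ℕ∞) f) (hg : ContDiff ℝ (⊤ : ℕ∞) g) :
    ContDiff ℝ (⊤ : ℕ∞) fun x => d.mul (f x) (g x) :=
  d.smooth_mul.comp (hf.prodMk hg)

theorem sinv' {E : Type} [NormedAddCommGroup E] [NormedSpace ℝ E] {f : E → d.V}
    (hf : ContDiff ℝ (⊤ : ℕ∞) f) : ContDiff ℝ (⊤ : ℕ∞) fun x => d.inv (f x) :=
  d.smooth_inv.comp hf

variable {d}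
variable {W : Type} [NormedAddCommGroup W] [NormedSpace ℝ W] [FiniteDimensional ℝ W]

section meas

variable [MeasurableSpace d.V] [BorelSpace d.V] {ν : Measure d.V} [IsLocallyFiniteMeasure ν]

theorem int_smul {w : d.V → ℝ} (hw : Continuous w) (hws : HasCompactSupport w) {f : d.V → W}
    (hf : Continuous f) : Integrable (fun z => w z • f z) ν :=
  (hw.smul hf).integrable_of_hasCompactSupport hws.smul_right

/-- continuity of a parametric integral -/
theorem cont_int {X : Type} [TopologicalSpace X] [FirstCountableTopology X] [LocallyCompactSpace X]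
    {w : d.V → ℝ} (hw : Continuous w) (hws : HasCompactSupport w) {F : X × d.V → W}
    (hF : Continuous F) : Continuous fun x => ∫ z, w z • F (x, z) ∂ν := by
  have h1 : (fun x => ∫ z, w z • F (x, z) ∂ν) = fun x => ∫ z in tsupport w, w z • F (x, z) ∂ν := by
    funext x
    rw [setIntegral_eq_integral_of_forall_compl_eq_zero]
    intro z hz
    rw [image_eq_zero_of_notMem_tsupport hz, zero_smul]
  rw [h1]
  have hc : Continuous (Function.uncurry fun (x : X) (z : d.V) => w z • F (x, z)) :=
    (hw.comp continuous_snd).smul hF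
  exact continuous_parametric_integral_of_continuous hc hws

theorem left_inv (hν : ∀ x, ν.map (d.mul x) = ν) {g : d.V → W} (hg : Continuous g) (y : d.V) :
    ∫ z, g (d.mul y z) ∂ν = ∫ z, g z ∂ν := by
  have hm : Continuous (d.mul y) := cmul d continuous_const continuous_id
  have h1 := integral_map (μ := ν) hm.measurable.aemeasurable (f := g) hg.aestronglyMeasurable
  rw [hν] at h1
  exact h1.symm

theorem right_inv (hν : ∀ x, ν.map (fun z => d.mul z x) = ν) {g : d.V → W} (hg : Continuous g)
    (y : d.V) : ∫ z, g (d.mul z y) ∂ν = ∫ z, g z ∂ν := by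
  have hm : Continuous (fun z => d.mul z y) := cmul d continuous_id continuous_const
  have h1 := integral_map (μ := ν) hm.measurable.aemeasurable (f := g) hg.aestronglyMeasurable
  rw [hν] at h1
  exact h1.symm

theorem hcs_left {w : d.V → ℝ} (hws : HasCompactSupport w) (y : d.V) :
    HasCompactSupport fun z => w (d.mul (d.inv y) z) := by
  have hm : Continuous (d.mul y) := cmul d continuous_const continuous_id
  refine HasCompactSupport.intro (hws.isCompact.image hm) (fun z hz => ?_)
  apply image_eq_zero_of_notMem_tsupport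
  intro h
  exact hz ⟨_, h, mul_inv_left d y z⟩

theorem hcs_right {w : d.V → ℝ} (hws : HasCompactSupport w) (x : d.V) :
    HasCompactSupport fun z => w (d.mul z (d.inv x)) := by
  have hm : Continuous (fun z => d.mul z x) := cmul d continuous_id continuous_const
  refine HasCompactSupport.intro (hws.isCompact.image hm) (fun z hz => ?_)
  apply image_eq_zero_of_notMem_tsupport
  intro h
  exact hz ⟨_, h, inv_mul_right d z x⟩

/-- left smoothing of a cocycle -/
theorem step1 (hν : ∀ x, ν.map (d.mul x) = ν) {w : d.V → ℝ} (hw : Continuous w)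
    (hws : HasCompactSupport w) (hw1 : ∫ z, w z ∂ν = 1) {c : d.V → d.V → W}
    (hc : Continuous fun p : d.V × d.V => c p.1 p.2)
    (coc : ∀ x y z, c x y + c (d.mul x y) z = c x (d.mul y z) + c y z) (x y : d.V) :
    c x y + (-∫ z, w z • c x z ∂ν) + (-∫ z, w z • c y z ∂ν) -
      (-∫ z, w z • c (d.mul x y) z ∂ν) = ∫ z, (w (d.mul (d.inv y) z) - w z) • c x z ∂ν := by
  have hx : ∀ x, Continuous (c x) := fun x => hc.comp (continuous_const.prodMk continuous_id)
  have hm : Continuous (d.mul y) := cmul d continuous_const continuous_id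
  have hm' : Continuous (d.mul (d.inv y)) := cmul d continuous_const continuous_id
  have i1 : Integrable (fun z => w z • c x (d.mul y z)) ν := int_smul hw hws ((hx x).comp hm)
  have i2 : Integrable (fun z => w z • c y z) ν := int_smul hw hws (hx y)
  have i3 : Integrable (fun z => w z • c (d.mul x y) z) ν := int_smul hw hws (hx _)
  have i4 : Integrable (fun z => w z • c x z) ν := int_smul hw hws (hx x)
  have i5 : Integrable (fun z => w (d.mul (d.inv y) z) • c x z) ν :=
    int_smul (hw.comp hm') (hcs_left hws y) (hx x)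
  have e0 : c x y = ∫ z, w z • c x y ∂ν := by
    rw [integral_smul_const, hw1, one_smul]
  have e1 : ∫ z, w z • c x y ∂ν = (∫ z, w z • c x (d.mul y z) ∂ν) + (∫ z, w z • c y z ∂ν) -
      ∫ z, w z • c (d.mul x y) z ∂ν := by
    rw [← integral_add i1 i2,
      ← integral_sub (f := fun z => w z • c x (d.mul y z) + w z • c y z) (i1.add i2) i3]
    refine integral_congr_ae (Eventually.of_forall fun z => ?_)
    have h := coc x y z
    have h2 : c x y = c x (d.mul y z) + c y z - c (d.mul x y) z := by
      rw [← h]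
      abel
    simp only
    rw [h2, smul_sub, smul_add]
  have e2 : ∫ z, w z • c x (d.mul y z) ∂ν = ∫ z, w (d.mul (d.inv y) z) • c x z ∂ν := by
    have h := left_inv hν (g := fun z => w (d.mul (d.inv y) z) • c x z)
      ((hw.comp hm').smul (hx x)) y
    simp only [inv_mul_left] at h
    exact h
  have e3 : ∫ z, (w (d.mul (d.inv y) z) - w z) • c x z ∂ν =
      (∫ z, w (d.mul (d.inv y) z) • c x z ∂ν) - ∫ z, w z • c x z ∂ν := by
    simp only [sub_smul]
    exact integral_sub i5 i4
  rw [e3, ← e2]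
  nth_rewrite 1 [e0]
  rw [e1]
  abel

/-- right smoothing of a cocycle -/
theorem step2 (hν : ∀ x, ν.map (fun z => d.mul z x) = ν) {w : d.V → ℝ} (hw : Continuous w)
    (hws : HasCompactSupport w) (hw1 : ∫ z, w z ∂ν = 1) {c : d.V → d.V → W}
    (hc : Continuous fun p : d.V × d.V => c p.1 p.2)
    (coc : ∀ x y z, c x y + c (d.mul x y) z = c x (d.mul y z) + c y z) (x y : d.V) :
    c x y + (-∫ v, w v • c v x ∂ν) + (-∫ v, w v • c v y ∂ν) -
      (-∫ v, w v • c v (d.mul x y) ∂ν) = ∫ v, (w (d.mul v (d.inv x)) - w v) • c v y ∂ν := by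
  have hx : ∀ x, Continuous (fun v => c v x) := fun x => hc.comp (continuous_id.prodMk continuous_const)
  have hm : Continuous (fun v => d.mul v x) := cmul d continuous_id continuous_const
  have hm' : Continuous (fun v => d.mul v (d.inv x)) := cmul d continuous_id continuous_const
  have i1 : Integrable (fun v => w v • c (d.mul v x) y) ν :=
    int_smul hw hws ((hx y).comp hm)
  have i2 : Integrable (fun v => w v • c v x) ν := int_smul hw hws (hx x)
  have i3 : Integrable (fun v => w v • c v (d.mul x y)) ν := int_smul hw hws (hx _)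
  have i4 : Integrable (fun v => w v • c v y) ν := int_smul hw hws (hx y)
  have i5 : Integrable (fun v => w (d.mul v (d.inv x)) • c v y) ν :=
    int_smul (hw.comp hm') (hcs_right hws x) (hx y)
  have e0 : c x y = ∫ v, w v • c x y ∂ν := by
    rw [integral_smul_const, hw1, one_smul]
  have e1 : ∫ v, w v • c x y ∂ν = (∫ v, w v • c v x ∂ν) + (∫ v, w v • c (d.mul v x) y ∂ν) -
      ∫ v, w v • c v (d.mul x y) ∂ν := by
    rw [← integral_add i2 i1,
      ← integral_sub (f := fun v => w v • c v x + w v • c (d.mul v x) y) (i2.add i1) i3]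
    refine integral_congr_ae (Eventually.of_forall fun v => ?_)
    have h := coc v x y
    have h2 : c x y = c v x + c (d.mul v x) y - c v (d.mul x y) := by
      rw [h]
      abel
    simp only
    rw [h2, smul_sub, smul_add]
  have e2 : ∫ v, w v • c (d.mul v x) y ∂ν = ∫ v, w (d.mul v (d.inv x)) • c v y ∂ν := by
    have h := right_inv hν (g := fun v => w (d.mul v (d.inv x)) • c v y)
      ((hw.comp hm').smul (hx y)) x
    simp only [mul_inv_right] at h
    exact h
  have e3 : ∫ v, (w (d.mul v (d.inv x)) - w v) • c v y ∂ν =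
      (∫ v, w (d.mul v (d.inv x)) • c v y ∂ν) - ∫ v, w v • c v y ∂ν := by
    simp only [sub_smul]
    exact integral_sub i5 i4
  rw [e3, ← e2]
  nth_rewrite 1 [e0]
  rw [e1]
  abel

/-- the compact set for the left factor -/
theorem zero1 {w : d.V → ℝ} {A : Set d.V} {x v : d.V} (hx : x ∈ A)
    (hv : v ∉ (fun q : d.V × d.V => d.mul q.1 q.2) '' (tsupport w ×ˢ A) ∪ tsupport w) :
    w (d.mul v (d.inv x)) - w v = 0 := by
  rw [Set.mem_union, not_or] at hv
  have h1 : w v = 0 := image_eq_zero_of_notMem_tsupport hv.2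
  have h2 : w (d.mul v (d.inv x)) = 0 := by
    apply image_eq_zero_of_notMem_tsupport
    intro h
    exact hv.1 ⟨(d.mul v (d.inv x), x), ⟨h, hx⟩, inv_mul_right d v x⟩
  rw [h1, h2, sub_zero]

theorem zero2 {w : d.V → ℝ} {B : Set d.V} {y z : d.V} (hy : y ∈ B)
    (hz : z ∉ (fun q : d.V × d.V => d.mul q.1 q.2) '' (B ×ˢ tsupport w) ∪ tsupport w) :
    w (d.mul (d.inv y) z) - w z = 0 := by
  rw [Set.mem_union, not_or] at hz
  have h1 : w z = 0 := image_eq_zero_of_notMem_tsupport hz.2
  have h2 : w (d.mul (d.inv y) z) = 0 := by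
    apply image_eq_zero_of_notMem_tsupport
    intro h
    exact hz.1 ⟨(y, d.mul (d.inv y) z), ⟨hy, h⟩, mul_inv_left d y z⟩
  rw [h1, h2, sub_zero]

theorem compact1 {w : d.V → ℝ} (hws : HasCompactSupport w) {A : Set d.V} (hA : IsCompact A) :
    IsCompact ((fun q : d.V × d.V => d.mul q.1 q.2) '' (tsupport w ×ˢ A) ∪ tsupport w) :=
  ((hws.isCompact.prod hA).image d.smooth_mul.continuous).union hws.isCompact

theorem compact2 {w : d.V → ℝ} (hws : HasCompactSupport w) {B : Set d.V} (hB : IsCompact B) :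
    IsCompact ((fun q : d.V × d.V => d.mul q.1 q.2) '' (B ×ˢ tsupport w) ∪ tsupport w) :=
  ((hB.prod hws.isCompact).image d.smooth_mul.continuous).union hws.isCompact

/-- smoothness of the double integral -/
theorem step3 {ν' : Measure d.V} [IsLocallyFiniteMeasure ν'] [SigmaFinite ν] [SigmaFinite ν']
    {w w' : d.V → ℝ} (hw : ContDiff ℝ (⊤ : ℕ∞) w) (hws : HasCompactSupport w)
    (hw' : ContDiff ℝ (⊤ : ℕ∞) w') (hws' : HasCompactSupport w') {c : d.V → d.V → W}
    (hc : Continuous fun p : d.V × d.V => c p.1 p.2) :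
    ContDiff ℝ (⊤ : ℕ∞) (fun p : d.V × d.V => ∫ v, (w' (d.mul v (d.inv p.1)) - w' v) •
      (∫ z, (w (d.mul (d.inv p.2) z) - w z) • c v z ∂ν) ∂ν') := by
  have : ProperSpace d.V := FiniteDimensional.proper_real d.V
  have : CompleteSpace W := FiniteDimensional.complete ℝ W
  set K : (d.V × d.V) × (d.V × d.V) → ℝ := fun r =>
    (w' (d.mul r.2.1 (d.inv r.1.1)) - w' r.2.1) * (w (d.mul (d.inv r.1.2) r.2.2) - w r.2.2) with hK
  have h11 : ContDiff ℝ (⊤ : ℕ∞) (fun r : (d.V × d.V) × (d.V × d.V) => r.1.1) :=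
    contDiff_fst.comp contDiff_fst
  have h12 : ContDiff ℝ (⊤ : ℕ∞) (fun r : (d.V × d.V) × (d.V × d.V) => r.1.2) :=
    contDiff_snd.comp contDiff_fst
  have h21 : ContDiff ℝ (⊤ : ℕ∞) (fun r : (d.V × d.V) × (d.V × d.V) => r.2.1) :=
    contDiff_fst.comp contDiff_snd
  have h22 : ContDiff ℝ (⊤ : ℕ∞) (fun r : (d.V × d.V) × (d.V × d.V) => r.2.2) :=
    contDiff_snd.comp contDiff_snd
  have hKs : ContDiff ℝ (⊤ : ℕ∞) K := by
    refine ContDiff.mul (ContDiff.sub ?_ (hw'.comp h21)) (ContDiff.sub ?_ (hw.comp h22))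
    · exact hw'.comp (smul' d h21 (sinv' d h11))
    · exact hw.comp (smul' d (sinv' d h12) h22)
  have hsupp : ∀ A B : Set d.V, IsCompact A → IsCompact B → ∃ k : Set (d.V × d.V), IsCompact k ∧
      ∀ p : d.V × d.V, p.1 ∈ A → p.2 ∈ B → ∀ q, q ∉ k → K (p, q) = 0 := by
    intro A B hA hB
    refine ⟨((fun q : d.V × d.V => d.mul q.1 q.2) '' (tsupport w' ×ˢ A) ∪ tsupport w') ×ˢ
      ((fun q : d.V × d.V => d.mul q.1 q.2) '' (B ×ˢ tsupport w) ∪ tsupport w),
      (compact1 hws' hA).prod (compact2 hws hB), ?_⟩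
    intro p hp1 hp2 q hq
    rw [Set.mem_prod, not_and_or] at hq
    rw [hK]
    simp only
    rcases hq with hq | hq
    · rw [zero1 hp1 hq, zero_mul]
    · rw [zero2 hp2 hq, mul_zero]
  have hmain := param_int (ν'.prod ν) (fun q : d.V × d.V => c q.1 q.2) hc K hKs (by
    intro p₀
    obtain ⟨k, hk, hk2⟩ := hsupp (Metric.closedBall p₀.1 1) (Metric.closedBall p₀.2 1)
      (isCompact_closedBall _ _) (isCompact_closedBall _ _)
    refine ⟨Metric.closedBall p₀.1 1 ×ˢ Metric.closedBall p₀.2 1, ?_, k, hk, ?_⟩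
    · rw [← Prod.mk.eta (p := p₀), nhds_prod_eq]
      exact Filter.prod_mem_prod (Metric.closedBall_mem_nhds _ one_pos)
        (Metric.closedBall_mem_nhds _ one_pos)
    · intro p hp x hx
      exact hk2 p hp.1 hp.2 x hx)
  refine cd_congr hmain fun p => ?_
  have hint : Integrable (fun q : d.V × d.V => K (p, q) • c q.1 q.2) (ν'.prod ν) := by
    obtain ⟨k, hk, hk2⟩ := hsupp {p.1} {p.2} isCompact_singleton isCompact_singleton
    refine Continuous.integrable_of_hasCompactSupport ?_ ?_
    · exact (hKs.continuous.comp (continuous_const.prodMk continuous_id)).smul hc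
    · refine HasCompactSupport.intro hk fun q hq => ?_
      rw [hk2 p rfl rfl q hq, zero_smul]
  rw [integral_prod _ hint]
  refine integral_congr_ae (Eventually.of_forall fun v => ?_)
  simp only
  rw [← integral_smul]
  refine integral_congr_ae (Eventually.of_forall fun z => ?_)
  simp only [hK, smul_smul]

/-- smoothness of the solution of the twisted equation -/
theorem step4 (hν : ∀ x, ν.map (d.mul x) = ν) {w : d.V → ℝ} (hw : ContDiff ℝ (⊤ : ℕ∞) w)
    (hws : HasCompactSupport w) (hw1 : ∫ z, w z ∂ν = 1) {B : d.V → W} (hB : Continuous B)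
    {G : d.V × d.V → W} (hG : ContDiff ℝ (⊤ : ℕ∞) G)
    (h : ∀ x y, B x = B (d.mul x y) - B y + G (x, y)) : ContDiff ℝ (⊤ : ℕ∞) B := by
  have : ProperSpace d.V := FiniteDimensional.proper_real d.V
  have : CompleteSpace W := FiniteDimensional.complete ℝ W
  have hwc := hw.continuous
  have hm : ∀ x, Continuous (d.mul x) := fun x => cmul d continuous_const continuous_id
  -- the first term
  have h1 : ContDiff ℝ (⊤ : ℕ∞) (fun x => ∫ y, w (d.mul (d.inv x) y) • B y ∂ν) := by
    refine param_int ν B hB (fun r : d.V × d.V => w (d.mul (d.inv r.1) r.2))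
      (hw.comp (smul' d (sinv' d contDiff_fst) contDiff_snd)) ?_
    intro p₀
    refine ⟨Metric.closedBall p₀ 1, Metric.closedBall_mem_nhds _ one_pos,
      (fun q : d.V × d.V => d.mul q.1 q.2) '' (Metric.closedBall p₀ 1 ×ˢ tsupport w),
      ((isCompact_closedBall _ _).prod hws.isCompact).image d.smooth_mul.continuous, ?_⟩
    intro p hp x hx
    apply image_eq_zero_of_notMem_tsupport
    intro h
    exact hx ⟨(p, d.mul (d.inv p) x), ⟨hp, h⟩, mul_inv_left d p x⟩
  -- the third term
  have h3 : ContDiff ℝ (⊤ : ℕ∞) (fun x => ∫ y, w y • G (x, y) ∂ν) := by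
    set bb := Module.finBasis ℝ W with hbb
    set co : Fin (Module.finrank ℝ W) → (W →L[ℝ] ℝ) := fun i => LinearMap.toContinuousLinearMap (bb.coord i)
      with hco
    have hcoG : ∀ i, ContDiff ℝ (⊤ : ℕ∞) (fun r : d.V × d.V => w r.2 * co i (G r)) := by
      intro i
      exact (hw.comp contDiff_snd).mul ((co i).contDiff.comp hG)
    have hi : ∀ i, ContDiff ℝ (⊤ : ℕ∞) (fun x => ∫ y, (w y * co i (G (x, y))) • bb i ∂ν) := by
      intro i
      refine param_int ν (fun _ => bb i) continuous_const (fun r : d.V × d.V => w r.2 * co i (G r))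
        (hcoG i) ?_
      intro p₀
      refine ⟨Set.univ, Filter.univ_mem, tsupport w, hws.isCompact, ?_⟩
      intro p _ x hx
      simp only
      rw [image_eq_zero_of_notMem_tsupport hx, zero_mul]
    have hsum := ContDiff.sum (s := Finset.univ) (fun i _ => hi i)
    refine cd_congr hsum fun x => ?_
    have hGx : Continuous fun y => G (x, y) := hG.continuous.comp (continuous_const.prodMk continuous_id)
    rw [← integral_finsetSum]
    · refine integral_congr_ae (Eventually.of_forall fun y => ?_)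
      simp only [mul_smul]
      rw [← Finset.smul_sum]
      congr 1
      exact (bb.sum_repr (G (x, y))).symm
    · intro i _
      refine Continuous.integrable_of_hasCompactSupport ?_ ?_
      · exact (hwc.mul ((co i).continuous.comp hGx)).smul continuous_const
      · refine HasCompactSupport.intro hws.isCompact fun y hy => ?_
        rw [image_eq_zero_of_notMem_tsupport hy, zero_mul, zero_smul]
  have hall := (h1.sub (contDiff_const (c := ∫ y, w y • B y ∂ν))).add h3
  refine cd_congr hall fun x => ?_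
  have hGx : Continuous fun y => G (x, y) := hG.continuous.comp (continuous_const.prodMk continuous_id)
  have i1 : Integrable (fun y => w y • B (d.mul x y)) ν := int_smul hwc hws (hB.comp (hm x))
  have i2 : Integrable (fun y => w y • B y) ν := int_smul hwc hws hB
  have i3 : Integrable (fun y => w y • G (x, y)) ν := int_smul hwc hws hGx
  have e0 : B x = ∫ y, w y • B x ∂ν := by
    rw [integral_smul_const, hw1, one_smul]
  have e1 : ∫ y, w y • B x ∂ν = (∫ y, w y • B (d.mul x y) ∂ν) - (∫ y, w y • B y ∂ν) +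
      ∫ y, w y • G (x, y) ∂ν := by
    rw [← integral_sub i1 i2,
      ← integral_add (f := fun y => w y • B (d.mul x y) - w y • B y) (i1.sub i2) i3]
    refine integral_congr_ae (Eventually.of_forall fun y => ?_)
    simp only
    rw [← smul_sub, ← smul_add, ← h x y]
  have e2 : ∫ y, w y • B (d.mul x y) ∂ν = ∫ y, w (d.mul (d.inv x) y) • B y ∂ν := by
    have h := left_inv hν (g := fun y => w (d.mul (d.inv x) y) • B y)
      ((hwc.comp (hm _)).smul hB) x
    simp only [inv_mul_left] at h
    exact h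
  rw [e0, e1, e2]

end meas

end Smoo

open Smoo in
theorem smoothing (d : ND) {W : Type} [NormedAddCommGroup W] [NormedSpace ℝ W]
    [FiniteDimensional ℝ W] (c : d.V → d.V → W) (b : d.V → W)
    (hc : Continuous fun p : d.V × d.V => c p.1 p.2) (hb : Continuous b)
    (coc : ∀ x y z, c x y + c (d.mul x y) z = c x (d.mul y z) + c y z)
    (comp : ∀ x y, b (d.mul x y) + c x y = b x + b y + c (d.phi x) (d.phi y)) :
    ∃ β : d.V → W, Continuous β ∧ β 0 = 0 ∧
      ContDiff ℝ (⊤ : ℕ∞)
        (fun p : d.V × d.V => c p.1 p.2 + β p.1 + β p.2 - β (d.mul p.1 p.2)) ∧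
      ContDiff ℝ (⊤ : ℕ∞) (fun h => b h + β h - β (d.phi h)) := by
  borelize d.V
  have : ProperSpace d.V := FiniteDimensional.proper_real d.V
  have : CompleteSpace W := FiniteDimensional.complete ℝ W
  obtain ⟨ν, hν1, hν2, hν3, hν⟩ := exists_left_haar d
  obtain ⟨ν', hν1', hν2', hν3', hν'⟩ := exists_right_haar d
  obtain ⟨w, hw, hws, hw1⟩ := exists_weight d ν
  obtain ⟨w', hw', hws', hw1'⟩ := exists_weight d ν'
  have hwc := hw.continuous
  have hwc' := hw'.continuous
  -- first step
  set β₁ : d.V → W := fun x => -∫ z, w z • c x z ∂ν with hβ₁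
  have hβ₁c : Continuous β₁ := (cont_int (X := d.V) hwc hws (F := fun p : d.V × d.V => c p.1 p.2) hc).neg
  set c₁ : d.V → d.V → W := fun x y => c x y + β₁ x + β₁ y - β₁ (d.mul x y) with hc₁
  have hc₁c : Continuous fun p : d.V × d.V => c₁ p.1 p.2 := by
    rw [hc₁]
    exact ((hc.add (hβ₁c.comp continuous_fst)).add (hβ₁c.comp continuous_snd)).sub
      (hβ₁c.comp d.smooth_mul.continuous)
  have coc₁ : ∀ x y z, c₁ x y + c₁ (d.mul x y) z = c₁ x (d.mul y z) + c₁ y z := by
    intro x y z
    have h := coc x y z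
    simp only [hc₁, d.assoc]
    have h2 : c x y = c x (d.mul y z) + c y z - c (d.mul x y) z := by
      rw [← h]
      abel
    rw [h2]
    abel
  have hs1 : ∀ x y, c₁ x y = ∫ z, (w (d.mul (d.inv y) z) - w z) • c x z ∂ν := fun x y =>
    step1 hν hwc hws hw1 hc coc x y
  -- second step
  set β₂ : d.V → W := fun y => -∫ v, w' v • c₁ v y ∂ν' with hβ₂
  have hβ₂c : Continuous β₂ := (cont_int (X := d.V) hwc' hws' (F := fun p : d.V × d.V => c₁ p.2 p.1)
    (hc₁c.comp (continuous_snd.prodMk continuous_fst))).neg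
  set c₂ : d.V → d.V → W := fun x y => c₁ x y + β₂ x + β₂ y - β₂ (d.mul x y) with hc₂
  have hs2 : ∀ x y, c₂ x y = ∫ v, (w' (d.mul v (d.inv x)) - w' v) • c₁ v y ∂ν' := fun x y =>
    step2 hν' hwc' hws' hw1' hc₁c coc₁ x y
  have hc₂s : ContDiff ℝ (⊤ : ℕ∞) (fun p : d.V × d.V => c₂ p.1 p.2) := by
    have h := step3 (ν := ν) (ν' := ν') hw hws hw' hws' hc
    refine cd_congr h fun p => ?_
    rw [hs2]
    simp only [hs1]
  -- the function
  set β : d.V → W := fun x => β₁ x + β₂ x - (β₁ 0 + β₂ 0) with hβ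
  have hβc : Continuous β := (hβ₁c.add hβ₂c).sub continuous_const
  have hcβ : ∀ x y, c x y + β x + β y - β (d.mul x y) = c₂ x y - (β₁ 0 + β₂ 0) := by
    intro x y
    simp only [hβ, hc₂, hc₁]
    abel
  refine ⟨β, hβc, ?_, ?_, ?_⟩
  · simp only [hβ, sub_self]
  · refine cd_congr (hc₂s.sub (contDiff_const (c := β₁ 0 + β₂ 0))) fun p => ?_
    exact hcβ p.1 p.2
  · have hphi : ContDiff ℝ (⊤ : ℕ∞) (fun p : d.V × d.V => (d.phi p.1, d.phi p.2)) :=
      (d.smooth_phi.comp contDiff_fst).prodMk (d.smooth_phi.comp contDiff_snd)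
    refine step4 (G := fun p : d.V × d.V => c₂ p.1 p.2 - c₂ (d.phi p.1) (d.phi p.2)) hν hw hws hw1
      ((hb.add hβc).sub (hβc.comp d.smooth_phi.continuous))
      (hc₂s.sub (hc₂s.comp hphi)) ?_
    intro x y
    have h1 := hcβ x y
    have h2 := hcβ (d.phi x) (d.phi y)
    have h3 := comp x y
    have e1 : c₂ x y = c x y + β x + β y - β (d.mul x y) + (β₁ 0 + β₂ 0) := by
      rw [h1]
      abel
    have e2 : c₂ (d.phi x) (d.phi y) = c (d.phi x) (d.phi y) + β (d.phi x) + β (d.phi y) -
        β (d.mul (d.phi x) (d.phi y)) + (β₁ 0 + β₂ 0) := by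
      rw [h2]
      abel
    have e3 : b (d.mul x y) = b x + b y + c (d.phi x) (d.phi y) - c x y := by
      rw [← h3]
      abel
    simp only [e1, e2, e3, d.phi_mul]
    abel

end Pool.Agent.HK820
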