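import Pool.Agent.Lib_MP_820dd4_hk.CE3A

/-!
# Part II, block CE4: the central extension

`CDat d k` is a smooth 2-cocycle `c` of `V` with values in `WW k`, together with `b` which extends the
automorphism. `CDat.ext` is the extended smooth group law on `V × WW k`:
`(x, a) (y, a') = (x y, a + a' + c x y)`, `phi'' (x, a) = (phi x, a + b x)`.
`CDat.pr` is the projection `GG ext → GG d`, `CDat.emW` the embedding of `WW k`.
-/

open MeasureTheory ProbabilityTheory Filter Topology
open scoped ComplexConjugate ENNReal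

namespace Pool.Agent.HK820

/-- a smooth 2-cocycle with values in `WW k` and a lift of the automorphism -/
structure CDat (d : ND) (k : ℕ) where
  c : d.V → d.V → WW k
  b : d.V → WW k
  c_zero : ∀ h, c 0 h = 0 ∧ c h 0 = 0
  b_zero : b 0 = 0
  coc : ∀ x y z, c x y + c (d.mul x y) z = c x (d.mul y z) + c y z
  comp : ∀ x y, b (d.mul x y) + c x y = b x + b y + c (d.phi x) (d.phi y)
  c_smooth : ContDiff ℝ (⊤ : ℕ∞) (fun p : d.V × d.V => c p.1 p.2)
  b_smooth : ContDiff ℝ (⊤ : ℕ∞) b

namespace CDat

variable {d : ND} {k : ℕ} (e : CDat d k)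

/-- the extended group law -/
noncomputable def ext : ND where
  V := d.V × WW k
  mul p q := (d.mul p.1 q.1, p.2 + q.2 + e.c p.1 q.1)
  inv p := (d.inv p.1, -p.2 - e.c (d.inv p.1) p.1)
  phi :=
    { toFun := fun p => (d.phi p.1, p.2 + e.b p.1)
      invFun := fun p => (d.phi.symm p.1, p.2 - e.b (d.phi.symm p.1))
      left_inv := fun p => by simp
      right_inv := fun p => by simp }
  assoc x y z := by
    refine Prod.ext (d.assoc _ _ _) ?_
    have h := e.coc x.1 y.1 z.1
    change x.2 + y.2 + e.c x.1 y.1 + z.2 + e.c (d.mul x.1 y.1) z.1 =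
      x.2 + (y.2 + z.2 + e.c y.1 z.1) + e.c x.1 (d.mul y.1 z.1)
    calc x.2 + y.2 + e.c x.1 y.1 + z.2 + e.c (d.mul x.1 y.1) z.1
        = x.2 + y.2 + z.2 + (e.c x.1 y.1 + e.c (d.mul x.1 y.1) z.1) := by abel
      _ = x.2 + y.2 + z.2 + (e.c x.1 (d.mul y.1 z.1) + e.c y.1 z.1) := by rw [h]
      _ = _ := by abel
  zero_mul x := by
    refine Prod.ext (d.zero_mul _) ?_
    change 0 + x.2 + e.c 0 x.1 = x.2
    rw [(e.c_zero x.1).1, zero_add, add_zero]
  mul_zero x := by
    refine Prod.ext (d.mul_zero _) ?_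
    change x.2 + 0 + e.c x.1 0 = x.2
    rw [(e.c_zero x.1).2, add_zero, add_zero]
  inv_mul x := by
    refine Prod.ext (d.inv_mul _) ?_
    change -x.2 - e.c (d.inv x.1) x.1 + x.2 + e.c (d.inv x.1) x.1 = 0
    abel
  phi_mul x y := by
    refine Prod.ext (d.phi_mul _ _) ?_
    have h := e.comp x.1 y.1
    change x.2 + y.2 + e.c x.1 y.1 + e.b (d.mul x.1 y.1) =
      x.2 + e.b x.1 + (y.2 + e.b y.1) + e.c (d.phi x.1) (d.phi y.1)
    calc x.2 + y.2 + e.c x.1 y.1 + e.b (d.mul x.1 y.1)
        = x.2 + y.2 + (e.b (d.mul x.1 y.1) + e.c x.1 y.1) := by abel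
      _ = x.2 + y.2 + (e.b x.1 + e.b y.1 + e.c (d.phi x.1) (d.phi y.1)) := by rw [h]
      _ = _ := by abel
  smooth_mul := by
    have h1 : ContDiff ℝ (⊤ : ℕ∞) (fun p : (d.V × WW k) × (d.V × WW k) => (p.1.1, p.2.1)) :=
      (contDiff_fst.comp contDiff_fst).prodMk (contDiff_fst.comp contDiff_snd)
    exact (d.smooth_mul.comp h1).prodMk
      (((contDiff_snd.comp contDiff_fst).add (contDiff_snd.comp contDiff_snd)).add
        (e.c_smooth.comp h1))
  smooth_inv := by
    have h1 : ContDiff ℝ (⊤ : ℕ∞) (fun p : d.V × WW k => (d.inv p.1, p.1)) :=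
      (d.smooth_inv.comp contDiff_fst).prodMk contDiff_fst
    exact (d.smooth_inv.comp contDiff_fst).prodMk (contDiff_snd.neg.sub (e.c_smooth.comp h1))
  smooth_phi :=
    (d.smooth_phi.comp contDiff_fst).prodMk (contDiff_snd.add (e.b_smooth.comp contDiff_fst))
  smooth_phi' :=
    (d.smooth_phi'.comp contDiff_fst).prodMk
      (contDiff_snd.sub (e.b_smooth.comp (d.smooth_phi'.comp contDiff_fst)))

theorem ext_phi_zpow (n : ℤ) (x : d.V × WW k) :
    ((e.ext.phi ^ n : Equiv.Perm e.ext.V) x).1 = (d.phi ^ n : Equiv.Perm d.V) x.1 := by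
  have h1 : ∀ (n : ℕ) (x : d.V × WW k),
      ((e.ext.phi ^ n : Equiv.Perm e.ext.V) x).1 = (d.phi ^ n : Equiv.Perm d.V) x.1 := by
    intro n
    induction n with
    | zero => intro x; rfl
    | succ n ih =>
      intro x
      rw [pow_succ, pow_succ, Equiv.Perm.mul_apply, Equiv.Perm.mul_apply, ih]
      rfl
  obtain ⟨n, rfl | rfl⟩ := n.eq_nat_or_neg
  · rw [zpow_natCast, zpow_natCast]; exact h1 n x
  · rw [zpow_neg, zpow_natCast, zpow_neg, zpow_natCast, Equiv.Perm.inv_def, Equiv.Perm.inv_def,
      Equiv.eq_symm_apply, ← h1, Equiv.apply_symm_apply]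

/-- the projection -/
noncomputable def pr : GG e.ext →* GG d where
  toFun g := (g.1.1, g.2)
  map_one' := rfl
  map_mul' g h := by
    refine Prod.ext ?_ rfl
    change d.mul g.1.1 ((e.ext.phi ^ g.2 : Equiv.Perm e.ext.V) h.1).1 =
      d.mul g.1.1 ((d.phi ^ g.2 : Equiv.Perm d.V) h.1.1)
    rw [ext_phi_zpow]

/-- the embedding of `WW k` -/
noncomputable def emW (a : WW k) : GG e.ext := (((0 : d.V), a), (0 : ℤ))

/-- the (set theoretic) section of `pr` -/
noncomputable def sec (g : GG d) : GG e.ext := ((g.1, (0 : WW k)), g.2)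

theorem pr_apply (g : GG e.ext) : e.pr g = (g.1.1, g.2) := rfl

theorem pr_sec (g : GG d) : e.pr (e.sec g) = g := rfl

theorem pr_emW (a : WW k) : e.pr (e.emW a) = 1 := rfl

theorem pr_tau : e.pr (GG.tau e.ext) = GG.tau d := rfl

theorem emW_zero : e.emW 0 = 1 := rfl

theorem emW_mul_aux (a : WW k) (g : GG e.ext) : e.emW a * g = ((g.1.1, a + g.1.2), g.2) := by
  rw [GG.mul_def]
  refine Prod.ext ?_ (zero_add g.2)
  change e.ext.mul (((0 : d.V), a)) ((e.ext.phi ^ (0 : ℤ) : Equiv.Perm e.ext.V) g.1) =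
    (g.1.1, a + g.1.2)
  rw [zpow_zero, Equiv.Perm.one_apply]
  refine Prod.ext (d.zero_mul _) ?_
  change a + g.1.2 + e.c 0 g.1.1 = a + g.1.2
  rw [(e.c_zero _).1, add_zero]

theorem emW_add (a a' : WW k) : e.emW (a + a') = e.emW a * e.emW a' :=
  (e.emW_mul_aux a (e.emW a')).symm

theorem emW_neg (a : WW k) : e.emW (-a) = (e.emW a)⁻¹ := by
  apply eq_inv_of_mul_eq_one_left
  rw [← emW_add, neg_add_cancel, emW_zero]

theorem ext_phi_zpow_emW (n : ℤ) (a : WW k) :
    (e.ext.phi ^ n : Equiv.Perm e.ext.V) (((0 : d.V), a)) = ((0 : d.V), a) := by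
  have h0 : e.ext.phi (((0 : d.V), a)) = ((0 : d.V), a) := by
    change (d.phi 0, a + e.b 0) = ((0 : d.V), a)
    rw [GG.phi_zero, e.b_zero, add_zero]
  have h1 : ∀ n : ℕ, (e.ext.phi ^ n : Equiv.Perm e.ext.V) (((0 : d.V), a)) = ((0 : d.V), a) := by
    intro n
    induction n with
    | zero => rfl
    | succ n ih => rw [pow_succ, Equiv.Perm.mul_apply, h0, ih]
  obtain ⟨n, rfl | rfl⟩ := n.eq_nat_or_neg
  · rw [zpow_natCast]; exact h1 n
  · rw [zpow_neg, zpow_natCast, Equiv.Perm.inv_def, Equiv.symm_apply_eq, h1]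

/-- the image of `WW k` is central -/
theorem emW_comm (a : WW k) (g : GG e.ext) : e.emW a * g = g * e.emW a := by
  rw [emW_mul_aux, GG.mul_def]
  refine Prod.ext ?_ (add_zero g.2).symm
  change (g.1.1, a + g.1.2) = e.ext.mul g.1 ((e.ext.phi ^ g.2 : Equiv.Perm e.ext.V) (((0 : d.V), a)))
  rw [ext_phi_zpow_emW]
  refine Prod.ext (d.mul_zero _).symm ?_
  change a + g.1.2 = g.1.2 + a + e.c g.1.1 0
  rw [(e.c_zero _).2, add_zero, add_comm]

theorem emW_mul (a : WW k) (g : GG e.ext) : e.emW a * g = ((g.1.1, a + g.1.2), g.2) :=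
  e.emW_mul_aux a g

theorem eq_emW_mul_sec (g : GG e.ext) : g = e.emW g.1.2 * e.sec (e.pr g) := by
  rw [emW_mul_aux]
  refine Prod.ext ?_ rfl
  refine Prod.ext rfl ?_
  change g.1.2 = g.1.2 + 0
  rw [add_zero]

/-- the kernel of the projection -/
theorem pr_eq_one (g : GG e.ext) (h : e.pr g = 1) : g = e.emW g.1.2 := by
  have h1 : g.1.1 = 0 := congrArg Prod.fst h
  have h2 : g.2 = 0 := congrArg Prod.snd h
  refine Prod.ext ?_ h2
  exact Prod.ext h1 rfl

theorem continuous_pr : Continuous e.pr := by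
  change Continuous (fun g : (d.V × WW k) × ℤ => (g.1.1, g.2))
  exact (continuous_fst.comp continuous_fst).prodMk continuous_snd

theorem continuous_sec : Continuous e.sec := by
  change Continuous (fun g : d.V × ℤ => (((g.1, (0 : WW k)), g.2) : (d.V × WW k) × ℤ))
  exact (continuous_fst.prodMk continuous_const).prodMk continuous_snd

theorem continuous_emW : Continuous e.emW := by
  change Continuous (fun a : WW k => ((((0 : d.V), a), (0 : ℤ)) : (d.V × WW k) × ℤ))
  exact (continuous_const.prodMk continuous_id).prodMk continuous_const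

/-- the class of the extension is at most one more -/
theorem ext_nilpotent (h : ∃ n, (⊤ : Subgroup (GG d)).lowerCentralSeries n = ⊥) :
    ∃ n, (⊤ : Subgroup (GG e.ext)).lowerCentralSeries n = ⊥ := by
  have : Group.IsNilpotent (GG d) := Subgroup.nilpotent_iff_lowerCentralSeries.2 h
  have hk : e.pr.ker ≤ Subgroup.center (GG e.ext) := by
    intro g hg
    rw [Subgroup.mem_center_iff]
    intro x
    rw [e.pr_eq_one g hg]
    exact (e.emW_comm _ x).symm
  have := Subgroup.isNilpotent_of_ker_le_center e.pr hk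
  exact Subgroup.nilpotent_iff_lowerCentralSeries.1 inferInstance

/-- constructor of `e.ext.V` -/
def mkV (v : d.V) (a : WW k) : e.ext.V := (v, a)

theorem mkV_mul (v w : d.V) (a b : WW k) :
    e.ext.mul (e.mkV v a) (e.mkV w b) = e.mkV (d.mul v w) (a + b + e.c v w) := rfl

theorem mkV_zero : e.mkV 0 0 = 0 := rfl

theorem mkV_ext {v w : d.V} {a b : WW k} (h1 : v = w) (h2 : a = b) : e.mkV v a = e.mkV w b := by
  rw [h1, h2]

theorem mkV_eta (q : e.ext.V) : e.mkV q.1 q.2 = q := rfl

theorem continuous_mkV : Continuous (fun p : d.V × WW k => e.mkV p.1 p.2) := by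
  change Continuous (fun p : d.V × WW k => p)
  exact continuous_id

theorem foldr_ext_fst (l : List d.V) :
    ((l.map (fun v => e.mkV v 0)).foldr e.ext.mul 0).1 = l.foldr d.mul 0 := by
  induction l with
  | nil => rfl
  | cons w l ih =>
    rw [List.map_cons, List.foldr_cons, List.foldr_cons, ← ih]
    rfl

theorem foldr_ext (l : List d.V) (a : WW k) :
    (l.map (fun v => e.mkV v 0)).foldr e.ext.mul (e.mkV 0 a) =
      e.mkV (l.foldr d.mul 0) (a + ((l.map (fun v => e.mkV v 0)).foldr e.ext.mul 0).2) := by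
  induction l with
  | nil => exact e.mkV_ext rfl (add_zero a).symm
  | cons v l ih =>
    rw [List.map_cons, List.foldr_cons, List.foldr_cons, List.foldr_cons, ih, mkV_mul]
    refine e.mkV_ext rfl ?_
    have ih0 := e.foldr_ext_fst l
    set L := (l.map (fun v => e.mkV v 0)).foldr e.ext.mul 0 with hL
    change 0 + (a + L.2) + e.c v (l.foldr d.mul 0) = a + (0 + L.2 + e.c v L.1)
    rw [ih0]
    abel

theorem foldr_single (l : List (WW k)) :
    (l.map (fun w => e.mkV 0 w)).foldr e.ext.mul 0 = e.mkV 0 l.sum := by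
  induction l with
  | nil => rfl
  | cons w l ih =>
    rw [List.map_cons, List.foldr_cons, ih, List.sum_cons, mkV_mul]
    refine e.mkV_ext (d.zero_mul _) ?_
    rw [(e.c_zero _).1, add_zero]

theorem continuous_foldr_ofFn {T : Type} [TopologicalSpace T] (n : ℕ) (f : Fin n → T → e.ext.V)
    (hf : ∀ i, Continuous (f i)) :
    Continuous (fun t => (List.ofFn (fun i => f i t)).foldr e.ext.mul 0) := by
  induction n with
  | zero => simpa using! continuous_const
  | succ n ih =>
    simp only [List.ofFn_succ, List.foldr_cons]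
    exact e.ext.smooth_mul.continuous.comp ((hf 0).prodMk (ih (fun i => f i.succ) fun i => hf _))

/-- Curves: the curves of `d` (with second component `0`) followed by the curves `t ↦ (0, t)`, one for
every coordinate of `WW k` (at most one). The product is `(Φ t, a + continuous function of t)`, a
homeomorphism. -/
theorem ext_hasCurves (h : HasCurves d) : HasCurves e.ext := by
  obtain ⟨n, x, Φ, hx, hx0, hΦ⟩ := h
  let m : ℕ := if k = 0 then 1 else 0
  -- the continuous function
  let C : (Fin n → ℝ) → WW k := fun t =>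
    ((List.ofFn (fun i => e.mkV (x i (t i)) 0)).foldr e.ext.mul 0).2
  have hxc : ∀ i, Continuous (fun t => e.mkV (x i t) 0) := fun i =>
    e.continuous_mkV.comp ((hx i).prodMk continuous_const)
  have hC : Continuous C := by
    have h1 : Continuous (fun t : Fin n → ℝ =>
        (List.ofFn (fun i => e.mkV (x i (t i)) 0)).foldr e.ext.mul 0) :=
      e.continuous_foldr_ofFn n (fun i (t : Fin n → ℝ) => e.mkV (x i (t i)) 0)
        (fun i => (hxc i).comp (continuous_apply i))
    exact continuous_snd.comp h1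
  let Ψ : (Fin n → ℝ) × (Fin m → ℝ) ≃ₜ e.ext.V :=
    { toFun := fun p => e.mkV (Φ p.1) (p.2 + C p.1)
      invFun := fun q => (Φ.symm q.1, q.2 - C (Φ.symm q.1))
      left_inv := fun p => by
        refine Prod.ext (Φ.symm_apply_apply _) ?_
        change p.2 + C p.1 - C (Φ.symm (Φ p.1)) = p.2
        rw [Φ.symm_apply_apply, add_sub_cancel_right]
      right_inv := fun q => by
        refine Eq.trans (e.mkV_ext (Φ.apply_symm_apply _) ?_) (e.mkV_eta q)
        change q.2 - C (Φ.symm q.1) + C (Φ.symm q.1) = q.2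
        rw [sub_add_cancel]
      continuous_toFun := e.continuous_mkV.comp ((Φ.continuous.comp continuous_fst).prodMk
        (continuous_snd.add (hC.comp continuous_fst)))
      continuous_invFun := (Φ.symm.continuous.comp continuous_fst).prodMk
        (continuous_snd.sub (hC.comp (Φ.symm.continuous.comp continuous_fst))) }
  refine ⟨n + m, Fin.append (fun i t => e.mkV (x i t) 0)
    (fun j t => e.mkV 0 (Pi.single j t : Fin m → ℝ)),
    (Fin.appendHomeomorph n m).symm.trans Ψ, ?_, ?_, ?_⟩
  · intro i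
    refine Fin.addCases (fun i => ?_) (fun j => ?_) i
    · rw [Fin.append_left]
      exact hxc i
    · rw [Fin.append_right]
      have h1 : Continuous (fun t : ℝ => (Pi.single j t : Fin m → ℝ)) := by
        refine continuous_pi fun i => ?_
        by_cases hij : i = j
        · subst hij
          simpa using! continuous_id
        · simpa [Pi.single_eq_of_ne hij] using! continuous_const
      exact e.continuous_mkV.comp (continuous_const.prodMk h1)
  · intro i
    refine Fin.addCases (fun i => ?_) (fun j => ?_) i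
    · rw [Fin.append_left]
      exact e.mkV_ext (hx0 i) rfl
    · rw [Fin.append_right]
      exact e.mkV_ext rfl (Pi.single_zero j)
  · intro t
    obtain ⟨p, rfl⟩ := (Fin.appendHomeomorph n m).surjective t
    rw [Homeomorph.trans_apply, Homeomorph.symm_apply_apply]
    have hfun : (fun i => Fin.append (fun i t => e.mkV (x i t) 0)
        (fun j t => e.mkV 0 (Pi.single j t : Fin m → ℝ)) i
          ((Fin.appendHomeomorph n m) p i)) =
        Fin.append (fun i => e.mkV (x i (p.1 i)) 0)
          (fun j => e.mkV 0 (Pi.single j (p.2 j) : Fin m → ℝ)) := by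
      funext i
      refine Fin.addCases (fun i => ?_) (fun j => ?_) i
      · rw [Fin.append_left, Fin.append_left]
        change e.mkV (x i (Fin.append p.1 p.2 (Fin.castAdd m i))) 0 = _
        rw [Fin.append_left]
      · rw [Fin.append_right, Fin.append_right]
        change e.mkV 0 (Pi.single j (Fin.append p.1 p.2 (Fin.natAdd n j)) : Fin m → ℝ) = _
        rw [Fin.append_right]
    rw [hfun, List.ofFn_fin_append, List.foldr_append]
    have e1 : (List.ofFn (fun j => e.mkV 0 (Pi.single j (p.2 j) : Fin m → ℝ))).foldr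
        e.ext.mul 0 = e.mkV 0 p.2 := by
      have h1 : (List.ofFn (fun j => e.mkV 0 (Pi.single j (p.2 j) : Fin m → ℝ))) =
          (List.ofFn (fun j => (Pi.single j (p.2 j) : Fin m → ℝ))).map
            (fun w => e.mkV 0 w) := by
        rw [List.map_ofFn]
        rfl
      rw [h1]
      refine (e.foldr_single _).trans ?_
      refine e.mkV_ext rfl ?_
      rw [List.sum_ofFn]
      exact Finset.univ_sum_single p.2
    rw [e1]
    have e2 : (List.ofFn (fun i => e.mkV (x i (p.1 i)) 0)) =
        (List.ofFn (fun i => x i (p.1 i))).map (fun v => e.mkV v 0) := by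
      rw [List.map_ofFn]
      rfl
    rw [e2, foldr_ext]
    refine e.mkV_ext (hΦ p.1) ?_
    change p.2 + ((List.ofFn (fun i => e.mkV (x i (p.1 i)) 0)).foldr e.ext.mul 0).2 = _
    rw [e2]

end CDat

end Pool.Agent.HK820
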