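import Pool.Agent.Lib_MP_820dd4_hk.MKC
import Pool.Agent.Lib_MP_820dd4_hk.CE4

/-! ### Part `MKA` -/

section

/-!
# Part II, block MKA: jointly measurable version of a continuous family

`joint_version`. For every `n` every point `h₀ : P` has an open neighbourhood `U` with
`∫ ‖F h - F h₀‖ dμ < 2^(-n-1)` for `h ∈ U`. By the Lindelöf property (`P` second countable) countably many
such neighbourhoods `U_i` (centres `h_i`) cover `P`; (`TopologicalSpace.countable_cover_nhds`); make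
them disjoint: the index `i_n(h)` is the first `i` with `h ∈ U_i` (a measurable function `P → ℕ`,
e.g. `measurable_find` or `Measurable.disjointed`), and put `F^n (h, y) = F (h_{i_n(h)}) y`, a jointly
measurable function (countably many pieces, `measurable_from_prod_countable_...`/ `Measurable.find`) with
values in `inC k` and `∫ ‖F^n (h, y) - F h y‖ dμ(y) ≤ 2^(-n)` for EVERY `h`.
Define `F' (h, y)` as the limit of `F^n (h, y)` if the sequence converges, and `1` otherwise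
(`measurableSet_exists_tendsto`, `measurable_limUnder`-type lemmas; the limit stays in the closed set
`inC k`, `isClosed_inC`). For every fixed `h`: `∑ n, ∫ ‖F^n (h, ·) - F h‖ dμ < ∞`, so for `μ`-a.e. `y` the
series `∑ n, ‖F^n (h, y) - F h y‖` converges (`lintegral_tsum`, `ae_lt_top`), in particular
`F^n (h, y) → F h y` and `F' (h, y) = F h y`.
-/

open MeasureTheory ProbabilityTheory Filter Topology
open scoped ComplexConjugate ENNReal

namespace Pool.Agent.HK820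

/-- one approximation -/
theorem mka_step {P K : Type} [TopologicalSpace P] [SecondCountableTopology P]
    [MeasurableSpace P] [BorelSpace P] [MeasurableSpace K] (μ : Measure K)
    (F : P → K → ℂ) (hF : ∀ h, Measurable (F h))
    (hcont : ∀ h₀, Tendsto (fun h => ∫ y, ‖F h y - F h₀ y‖ ∂μ) (𝓝 h₀) (𝓝 0)) {ε : ℝ}
    (hε : 0 < ε) : ∃ G : P × K → ℂ, Measurable G ∧
      ∀ h, ∃ h', (∀ y, G (h, y) = F h' y) ∧ ∫ y, ‖F h y - F h' y‖ ∂μ < ε := by
  classical
  rcases isEmpty_or_nonempty P with hP | hP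
  · have : IsEmpty (P × K) := inferInstance
    exact ⟨fun _ => 0, measurable_const, fun h => (hP.false h).elim⟩
  have h1 : ∀ h₀ : P, ∃ U : Set P, IsOpen U ∧ h₀ ∈ U ∧
      ∀ h ∈ U, ∫ y, ‖F h y - F h₀ y‖ ∂μ < ε := by
    intro h₀
    have h2 := (hcont h₀).eventually (gt_mem_nhds hε)
    obtain ⟨U, hU, hUo, hUh⟩ := mem_nhds_iff.mp h2
    exact ⟨U, hUo, hUh, fun h hh => hU hh⟩
  choose U hUo hUm hU using h1
  obtain ⟨s, hs, hcov⟩ := TopologicalSpace.countable_cover_nhds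
    (f := U) fun x => (hUo x).mem_nhds (hUm x)
  have hne : s.Nonempty := by
    obtain ⟨x⟩ := hP
    have hx : x ∈ ⋃ x ∈ s, U x := by
      rw [hcov]
      exact Set.mem_univ x
    obtain ⟨y, hy, -⟩ := Set.mem_iUnion₂.mp hx
    exact ⟨y, hy⟩
  obtain ⟨c, hc⟩ := hs.exists_eq_range hne
  have hex : ∀ p : P × K, ∃ n : ℕ, p.1 ∈ U (c n) := by
    intro p
    have hx : p.1 ∈ ⋃ x ∈ s, U x := by
      rw [hcov]
      exact Set.mem_univ _
    obtain ⟨y, hy, hy2⟩ := Set.mem_iUnion₂.mp hx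
    rw [hc] at hy
    obtain ⟨n, rfl⟩ := hy
    exact ⟨n, hy2⟩
  refine ⟨fun p => F (c (Nat.find (hex p))) p.2, ?_, ?_⟩
  · exact Measurable.find (f := fun n (p : P × K) => F (c n) p.2)
      (p := fun n (p : P × K) => p.1 ∈ U (c n)) (fun n => (hF (c n)).comp measurable_snd)
      (fun n => measurable_fst (hUo (c n)).measurableSet) hex
  · intro h
    have hex' : ∃ n : ℕ, h ∈ U (c n) := by
      have hx : h ∈ ⋃ x ∈ s, U x := by
        rw [hcov]
        exact Set.mem_univ _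
      obtain ⟨y, hy, hy2⟩ := Set.mem_iUnion₂.mp hx
      rw [hc] at hy
      obtain ⟨n, rfl⟩ := hy
      exact ⟨n, hy2⟩
    exact ⟨c (Nat.find hex'), fun y => rfl, hU _ h (Nat.find_spec hex')⟩

theorem joint_version {P K : Type} [TopologicalSpace P] [SecondCountableTopology P]
    [MeasurableSpace P] [BorelSpace P] [MeasurableSpace K] (μ : Measure K) [IsProbabilityMeasure μ]
    (k : ℕ) (F : P → K → ℂ) (hF : ∀ h, Measurable (F h)) (hk : ∀ h y, inC k (F h y))
    (hcont : ∀ h₀, Tendsto (fun h => ∫ y, ‖F h y - F h₀ y‖ ∂μ) (𝓝 h₀) (𝓝 0)) :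
    ∃ F' : P × K → ℂ, Measurable F' ∧ (∀ p, inC k (F' p)) ∧
      ∀ h, (fun y => F' (h, y)) =ᵐ[μ] F h := by
  classical
  choose G hGm hG using fun n : ℕ => mka_step μ F hF hcont (ε := (1 / 2) ^ n) (by positivity)
  have hL : Measurable (fun p : P × K => limUnder atTop (fun n => G n p)) :=
    (StronglyMeasurable.limUnder fun n => (hGm n).stronglyMeasurable).measurable
  have hS : MeasurableSet {p : P × K | inC k (limUnder atTop (fun n => G n p))} :=
    hL (isClosed_inC k).measurableSet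
  refine ⟨fun p => if inC k (limUnder atTop (fun n => G n p)) then
    limUnder atTop (fun n => G n p) else 1, Measurable.ite hS hL measurable_const, ?_, ?_⟩
  · intro p
    show inC k (if inC k (limUnder atTop (fun n => G n p)) then
      limUnder atTop (fun n => G n p) else 1)
    by_cases hp : inC k (limUnder atTop (fun n => G n p))
    · rw [if_pos hp]
      exact hp
    · rw [if_neg hp]
      exact inC_one k
  · intro h
    choose h' hh1 hh2 using fun n => hG n h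
    have hmeas : ∀ n, Measurable (fun y => ‖F h y - F (h' n) y‖ₑ) := fun n =>
      ((hF h).sub (hF (h' n))).enorm
    have hbd : ∀ n, ∫⁻ y, ‖F h y - F (h' n) y‖ₑ ∂μ ≤ ENNReal.ofReal ((1 / 2) ^ n) := by
      intro n
      have hint : Integrable (fun y => F h y - F (h' n) y) μ := by
        refine Integrable.of_bound ((hF h).sub (hF (h' n))).aestronglyMeasurable 2
          (Eventually.of_forall fun y => ?_)
        calc ‖F h y - F (h' n) y‖ ≤ ‖F h y‖ + ‖F (h' n) y‖ := norm_sub_le _ _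
          _ = 2 := by
            rw [(hk h y).1, (hk (h' n) y).1]
            norm_num
      rw [← ofReal_integral_norm_eq_lintegral_enorm hint]
      exact ENNReal.ofReal_le_ofReal (hh2 n).le
    have hsum : ∫⁻ y, ∑' n, ‖F h y - F (h' n) y‖ₑ ∂μ ≠ ∞ := by
      rw [lintegral_tsum fun n => (hmeas n).aemeasurable]
      have h2 : ∑' n, ∫⁻ y, ‖F h y - F (h' n) y‖ₑ ∂μ ≤ ∑' n : ℕ, ENNReal.ofReal ((1 / 2) ^ n) :=
        ENNReal.tsum_le_tsum hbd
      have h3 : ∑' n : ℕ, ENNReal.ofReal ((1 / 2 : ℝ) ^ n) =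
          ENNReal.ofReal (∑' n : ℕ, (1 / 2 : ℝ) ^ n) :=
        (ENNReal.ofReal_tsum_of_nonneg (fun n => by positivity)
          summable_geometric_two).symm
      rw [h3] at h2
      exact ne_top_of_le_ne_top ENNReal.ofReal_ne_top h2
    have hae := ae_lt_top (Measurable.tsum hmeas) hsum
    filter_upwards [hae] with y hy
    have ht : Tendsto (fun n => ‖F h y - F (h' n) y‖ₑ) atTop (𝓝 0) :=
      ENNReal.tendsto_atTop_zero_of_tsum_ne_top hy.ne
    have ht2 : Tendsto (fun n => G n (h, y)) atTop (𝓝 (F h y)) := by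
      rw [tendsto_iff_edist_tendsto_0]
      refine ht.congr fun n => ?_
      rw [hh1 n y, edist_comm, edist_eq_enorm_sub]
    have hlim : limUnder atTop (fun n => G n (h, y)) = F h y := ht2.limUnder_eq
    show (if inC k (limUnder atTop (fun n => G n (h, y))) then
      limUnder atTop (fun n => G n (h, y)) else 1) = F h y
    rw [hlim, if_pos (hk h y)]

end Pool.Agent.HK820

end

/-! ### Part `MKB` -/

section

/-!
# Part II, block MKB: the cocycle of the extended group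

* `exists_rhoZ`: `R n y = ∏ i < n, ρ (τ^i y)` for `n ≥ 0` and `R (-n) y = conj (R n (τ^(-n) y))`; the cocycle
  identity `R (m + n) y = R m (τ^n y) R n y` follows e.g. from the group of bijections of `K × ℂ`:
  `T (y, z) = (τ y, ρ y z)` is a bijection (inverse `(y, z) ↦ (τ⁻¹ y, conj (ρ (τ⁻¹ y)) z)`), and
  `T^n (y, z) = (τ^n y, R n y * z)` (`zpow` in `Equiv.Perm (KK d Γ × ℂ)`), so one can also DEFINE
  `R n y = ((T^n) (y, 1)).2`.
* `tw_zpow`: for every `n : ℤ` and `h`, `R n (h y) F_h (y) = ee (b_n h) F_{φ^n h} (τ^n y) R n y` for a.e. `y`,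
  where `φ''^n (h, 0) = (φ^n h, b_n h)`, i.e. `b_n h = ((e.ext.phi ^ n) (h, 0)).2`. Induction on `n`
  (`Int.induction_on`), using `hL.tw` at the point `τ^n y` (measure preserving maps preserve a.e.
  statements; `hμ`) and the cocycle identity of `R`; note `e.ext.phi (h, a) = (φ h, a + b h)` and
  `(e.ext.phi ^ n) (h, a) = (φ^n h, a + b_n h)`.
* `exists_cocycle`: `F'` from `joint_version` applied to `F` (`P = d.V`), `Φ g y = ee k a * F' (h, τ^n y) *
  R n y` for `g = ((h, a), n)`. Since `τ^n y` depends measurably on `(n, y)` (`n` in a countable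
  discrete space, `instMeasSMulKK`) `Φ` is jointly measurable. Cocycle identity: for `g = ((h, a), n)`,
  `g' = ((h', a'), n')`: `g g' = ((h φ^n(h'), a + a' + b_n(h') + c(h, φ^n h')), n + n')` and with
  `y' = τ^n' y`, `y'' = τ^n y'`:
  `Φ g (g' y) Φ g' y = ee a F_h (τ^n h' y') R n (h' y') ee a' F_{h'} (y') R n' y`
  `= ee (a + a') F_h (φ^n(h') y'') [ee (b_n h') F_{φ^n h'} (y'') R n y'] R n' y` (tw_zpow)
  `= ee (a + a' + b_n h' + c(h, φ^n h')) F_{h φ^n h'} (y'') R (n + n') y` (`hL.mulr` at `y''`).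
  All identities hold for a.e. `y` because `y ↦ τ^n y`, `y ↦ h y` preserve `μ`.
  `Φ (emW a * g) y = ee a * Φ g y` by `CDat.emW_mul` and `mk_ee_add`, and `Φ (tau) y = F' (0, τ y) ρ y = ρ y` a.e.
  by `hL.zero`.
-/

open MeasureTheory ProbabilityTheory Filter Topology
open scoped ComplexConjugate ENNReal

namespace Pool.Agent.HK820

/-- the skew product by `ρ` as a bijection -/
noncomputable def mkb_T (d : ND) (Γ : Subgroup (GG d)) (k : ℕ) (ρ : KK d Γ → ℂ)
    (hρk : ∀ y, inC k (ρ y)) : Equiv.Perm (KK d Γ × ℂ) where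
  toFun p := (GG.tau d • p.1, ρ p.1 * p.2)
  invFun p := ((GG.tau d)⁻¹ • p.1, conj (ρ ((GG.tau d)⁻¹ • p.1)) * p.2)
  left_inv p := by
    refine Prod.ext ?_ ?_
    · change (GG.tau d)⁻¹ • GG.tau d • p.1 = p.1
      rw [inv_smul_smul]
    · change conj (ρ ((GG.tau d)⁻¹ • GG.tau d • p.1)) * (ρ p.1 * p.2) = p.2
      rw [inv_smul_smul, ← mul_assoc, inC_conj_mul (hρk _), one_mul]
  right_inv p := by
    refine Prod.ext ?_ ?_
    · change GG.tau d • (GG.tau d)⁻¹ • p.1 = p.1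
      rw [smul_inv_smul]
    · change ρ ((GG.tau d)⁻¹ • p.1) * (conj (ρ ((GG.tau d)⁻¹ • p.1)) * p.2) = p.2
      rw [← mul_assoc, inC_mul_conj (hρk _), one_mul]

theorem exists_rhoZ (d : ND) (Γ : Subgroup (GG d)) (k : ℕ) (ρ : KK d Γ → ℂ) (hρ : Measurable ρ)
    (hρk : ∀ y, inC k (ρ y)) :
    ∃ R : ℤ → KK d Γ → ℂ, (∀ n, Measurable (R n)) ∧ (∀ n y, inC k (R n y)) ∧ (∀ y, R 0 y = 1) ∧
      (∀ y, R 1 y = ρ y) ∧ ∀ m n y, R (m + n) y = R m ((GG.tau d) ^ n • y) * R n y := by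
  set T := mkb_T d Γ k ρ hρk with hT
  have hTa : ∀ p : KK d Γ × ℂ, T p = (GG.tau d • p.1, ρ p.1 * p.2) := fun p => rfl
  have hTi : ∀ p : KK d Γ × ℂ, T⁻¹ p =
      ((GG.tau d)⁻¹ • p.1, conj (ρ ((GG.tau d)⁻¹ • p.1)) * p.2) := fun p => rfl
  have hsm : ∀ g : GG d, Measurable fun y : KK d Γ => g • y := fun g =>
    (continuous_const_smul g).measurable
  have key : ∀ n : ℤ, Measurable (fun y => ((T ^ n : Equiv.Perm (KK d Γ × ℂ)) (y, 1)).2) ∧
      (∀ y, inC k ((T ^ n : Equiv.Perm (KK d Γ × ℂ)) (y, 1)).2) ∧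
      ∀ y z, (T ^ n : Equiv.Perm (KK d Γ × ℂ)) (y, z) =
        ((GG.tau d) ^ n • y, ((T ^ n : Equiv.Perm (KK d Γ × ℂ)) (y, 1)).2 * z) := by
    intro n
    induction n using Int.induction_on with
    | zero =>
      refine ⟨?_, ?_, ?_⟩
      · simp only [zpow_zero, Equiv.Perm.one_apply]
        exact measurable_const
      · intro y
        simp only [zpow_zero, Equiv.Perm.one_apply]
        exact inC_one k
      · intro y z
        simp only [zpow_zero, Equiv.Perm.one_apply, one_smul, one_mul]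
    | succ n ih =>
      obtain ⟨h1, h2, h3⟩ := ih
      have h4 : ∀ y z, (T ^ ((n : ℤ) + 1) : Equiv.Perm (KK d Γ × ℂ)) (y, z) =
          ((GG.tau d) ^ ((n : ℤ) + 1) • y, ρ ((GG.tau d) ^ (n : ℤ) • y) *
            (((T ^ (n : ℤ) : Equiv.Perm (KK d Γ × ℂ)) (y, 1)).2 * z)) := by
        intro y z
        rw [add_comm (n : ℤ) 1, zpow_one_add, Equiv.Perm.mul_apply, h3 y z, hTa, zpow_one_add,
          mul_smul]
      have h5 : ∀ y, ((T ^ ((n : ℤ) + 1) : Equiv.Perm (KK d Γ × ℂ)) (y, 1)).2 =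
          ρ ((GG.tau d) ^ (n : ℤ) • y) * ((T ^ (n : ℤ) : Equiv.Perm (KK d Γ × ℂ)) (y, 1)).2 := by
        intro y
        rw [h4 y 1]
        simp only [mul_one]
      refine ⟨?_, ?_, ?_⟩
      · simp only [h5]
        exact (hρ.comp (hsm _)).mul h1
      · intro y
        rw [h5]
        exact inC_mul (hρk _) (h2 y)
      · intro y z
        rw [h4 y z, h5, mul_assoc]
    | pred n ih =>
      obtain ⟨h1, h2, h3⟩ := ih
      have h4 : ∀ y z, (T ^ (-(n : ℤ) - 1) : Equiv.Perm (KK d Γ × ℂ)) (y, z) =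
          ((GG.tau d) ^ (-(n : ℤ) - 1) • y, conj (ρ ((GG.tau d) ^ (-(n : ℤ) - 1) • y)) *
            (((T ^ (-(n : ℤ)) : Equiv.Perm (KK d Γ × ℂ)) (y, 1)).2 * z)) := by
        intro y z
        have h6 : (-(n : ℤ) - 1) = -1 + -(n : ℤ) := by ring
        have h7 : (GG.tau d) ^ (-(n : ℤ) - 1) • y = (GG.tau d)⁻¹ • (GG.tau d) ^ (-(n : ℤ)) • y := by
          rw [h6, zpow_add, zpow_neg_one, mul_smul]
        rw [h7, h6, zpow_add, zpow_neg_one, Equiv.Perm.mul_apply, h3 y z, hTi]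
      have h5 : ∀ y, ((T ^ (-(n : ℤ) - 1) : Equiv.Perm (KK d Γ × ℂ)) (y, 1)).2 =
          conj (ρ ((GG.tau d) ^ (-(n : ℤ) - 1) • y)) *
            ((T ^ (-(n : ℤ)) : Equiv.Perm (KK d Γ × ℂ)) (y, 1)).2 := by
        intro y
        rw [h4 y 1]
        simp only [mul_one]
      refine ⟨?_, ?_, ?_⟩
      · simp only [h5]
        exact (Complex.continuous_conj.measurable.comp (hρ.comp (hsm _))).mul h1
      · intro y
        rw [h5]
        exact inC_mul (inC_conj (hρk _)) (h2 y)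
      · intro y z
        rw [h4 y z, h5, mul_assoc]
  refine ⟨fun n y => ((T ^ n : Equiv.Perm (KK d Γ × ℂ)) (y, 1)).2, fun n => (key n).1,
    fun n => (key n).2.1, ?_, ?_, ?_⟩
  · intro y
    simp only [zpow_zero, Equiv.Perm.one_apply]
  · intro y
    simp only [zpow_one, hTa, mul_one]
  · intro m n y
    show ((T ^ (m + n) : Equiv.Perm (KK d Γ × ℂ)) (y, 1)).2 =
      ((T ^ m : Equiv.Perm (KK d Γ × ℂ)) ((GG.tau d) ^ n • y, 1)).2 *
        ((T ^ n : Equiv.Perm (KK d Γ × ℂ)) (y, 1)).2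
    rw [zpow_add, Equiv.Perm.mul_apply, (key n).2.2 y 1, (key m).2.2, mul_one]

/-- translations preserve almost everywhere statements -/
theorem mkb_ae {d : ND} {Γ : Subgroup (GG d)} {μ : Measure (KK d Γ)}
    (hμ : ∀ g : GG d, μ.map (fun y => g • y) = μ) (g : GG d) {p : KK d Γ → Prop}
    (h : ∀ᵐ y ∂μ, p y) : ∀ᵐ y ∂μ, p (g • y) := by
  have hm : MeasurePreserving (fun y : KK d Γ => g • y) μ μ :=
    ⟨(continuous_const_smul g).measurable, hμ g⟩
  exact hm.quasiMeasurePreserving.ae h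

theorem mkb_phi_snd {d : ND} {k : ℕ} (e : CDat d k) (n : ℤ) (h : d.V) (a : WW k) :
    ((e.ext.phi ^ n : Equiv.Perm e.ext.V) (e.mkV h a)).2 =
      a + ((e.ext.phi ^ n : Equiv.Perm e.ext.V) (e.mkV h 0)).2 := by
  have hp : ∀ q : e.ext.V, (e.ext.phi q).2 = q.2 + e.b q.1 := fun q => rfl
  have hpi : ∀ q : e.ext.V, ((e.ext.phi⁻¹ : Equiv.Perm e.ext.V) q).2 =
      q.2 - e.b (d.phi.symm q.1) := fun q => rfl
  induction n using Int.induction_on with
  | zero =>
    simp only [zpow_zero, Equiv.Perm.one_apply]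
    exact (add_zero a).symm
  | succ n ih =>
    rw [add_comm (n : ℤ) 1, zpow_one_add, Equiv.Perm.mul_apply, Equiv.Perm.mul_apply, hp, hp, ih,
      e.ext_phi_zpow, e.ext_phi_zpow]
    exact add_assoc _ _ _
  | pred n ih =>
    have h6 : (-(n : ℤ) - 1) = -1 + -(n : ℤ) := by ring
    rw [h6, zpow_add, zpow_neg_one, Equiv.Perm.mul_apply, Equiv.Perm.mul_apply, hpi, hpi, ih,
      e.ext_phi_zpow, e.ext_phi_zpow]
    exact add_sub_assoc _ _ _

theorem mkb_b_succ {d : ND} {k : ℕ} (e : CDat d k) (n : ℤ) (h : d.V) :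
    ((e.ext.phi ^ (n + 1) : Equiv.Perm e.ext.V) (e.mkV h 0)).2 =
      ((e.ext.phi ^ n : Equiv.Perm e.ext.V) (e.mkV h 0)).2 +
        e.b ((d.phi ^ n : Equiv.Perm d.V) h) := by
  have hp : ∀ q : e.ext.V, (e.ext.phi q).2 = q.2 + e.b q.1 := fun q => rfl
  rw [add_comm n 1, zpow_one_add, Equiv.Perm.mul_apply, hp, e.ext_phi_zpow]
  rfl

/-- the iterated twisting relation -/
theorem tw_zpow {d : ND} {k : ℕ} (e : CDat d k) (Γ : Subgroup (GG d))
    (μ : Measure (KK d Γ)) (hμ : ∀ g : GG d, μ.map (fun y => g • y) = μ)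
    (ρ : KK d Γ → ℂ) (hρk : ∀ y, inC k (ρ y)) (F : d.V → KK d Γ → ℂ)
    (hL : LData d Γ μ k ρ F e.c e.b) (R : ℤ → KK d Γ → ℂ) (hR0 : ∀ y, R 0 y = 1)
    (hR1 : ∀ y, R 1 y = ρ y)
    (hR : ∀ m n y, R (m + n) y = R m ((GG.tau d) ^ n • y) * R n y) (n : ℤ) (h : d.V) :
    ∀ᵐ y ∂μ, R n (GG.emb d h • y) * F h y =
      ee k ((e.ext.phi ^ n : Equiv.Perm e.ext.V) (e.mkV h 0)).2 *
        F ((d.phi ^ n : Equiv.Perm d.V) h) ((GG.tau d) ^ n • y) * R n y := by
  have hcomm : ∀ (n : ℤ) (y : KK d Γ), (GG.tau d) ^ n • GG.emb d h • y =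
      GG.emb d ((d.phi ^ n : Equiv.Perm d.V) h) • (GG.tau d) ^ n • y := by
    intro n y
    rw [← mul_smul, tau_zpow_mul_emb, mul_smul]
  have hs : ∀ (n : ℤ) (y : KK d Γ), R (n + 1) y = ρ ((GG.tau d) ^ n • y) * R n y := by
    intro n y
    rw [add_comm, hR, hR1]
  have hphi : ∀ n : ℤ, (d.phi ^ (n + 1) : Equiv.Perm d.V) h =
      d.phi ((d.phi ^ n : Equiv.Perm d.V) h) := by
    intro n
    rw [add_comm, zpow_one_add, Equiv.Perm.mul_apply]
  have htau : ∀ (n : ℤ) (y : KK d Γ), (GG.tau d) ^ (n + 1) • y = GG.tau d • (GG.tau d) ^ n • y := by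
    intro n y
    rw [add_comm, zpow_one_add, mul_smul]
  -- one step, in both directions
  have hstep : ∀ n : ℤ, ∀ᵐ y ∂μ,
      ee k ((e.ext.phi ^ (n + 1) : Equiv.Perm e.ext.V) (e.mkV h 0)).2 *
        F ((d.phi ^ (n + 1) : Equiv.Perm d.V) h) ((GG.tau d) ^ (n + 1) • y) * R (n + 1) y =
      ρ (GG.emb d ((d.phi ^ n : Equiv.Perm d.V) h) • (GG.tau d) ^ n • y) *
        (ee k ((e.ext.phi ^ n : Equiv.Perm e.ext.V) (e.mkV h 0)).2 *
        F ((d.phi ^ n : Equiv.Perm d.V) h) ((GG.tau d) ^ n • y) * R n y) := by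
    intro n
    filter_upwards [mkb_ae hμ ((GG.tau d) ^ n) (hL.tw ((d.phi ^ n : Equiv.Perm d.V) h))] with y hy
    rw [mkb_b_succ, mk_ee_add, hs, hphi, htau]
    calc ee k ((e.ext.phi ^ n : Equiv.Perm e.ext.V) (e.mkV h 0)).2 *
          ee k (e.b ((d.phi ^ n : Equiv.Perm d.V) h)) *
          F (d.phi ((d.phi ^ n : Equiv.Perm d.V) h)) (GG.tau d • (GG.tau d) ^ n • y) *
          (ρ ((GG.tau d) ^ n • y) * R n y)
        = ee k ((e.ext.phi ^ n : Equiv.Perm e.ext.V) (e.mkV h 0)).2 *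
          (ee k (e.b ((d.phi ^ n : Equiv.Perm d.V) h)) *
          F (d.phi ((d.phi ^ n : Equiv.Perm d.V) h)) (GG.tau d • (GG.tau d) ^ n • y) *
          ρ ((GG.tau d) ^ n • y)) * R n y := by ring
      _ = _ := by
        rw [← hy]
        ring
  induction n using Int.induction_on with
  | zero =>
    refine Eventually.of_forall fun y => ?_
    rw [hR0, hR0, zpow_zero, zpow_zero, zpow_zero, one_smul, Equiv.Perm.one_apply,
      Equiv.Perm.one_apply]
    have h1 : (e.mkV h 0).2 = 0 := rfl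
    rw [h1, mk_ee_zero]
    ring
  | succ n ih =>
    filter_upwards [ih, hstep (n : ℤ)] with y h1 h2
    rw [h2, ← h1, hs, hcomm]
    ring
  | pred n ih =>
    have h3 := hstep (-(n : ℤ) - 1)
    have h4 : (-(n : ℤ) - 1 + 1) = -(n : ℤ) := by ring
    rw [h4] at h3
    filter_upwards [ih, h3] with y h1 h2
    rw [h2] at h1
    have h5 := hs (-(n : ℤ) - 1) (GG.emb d h • y)
    rw [h4, hcomm] at h5
    rw [h5] at h1
    have h6 := inC_ne_zero (hρk (GG.emb d ((d.phi ^ (-(n : ℤ) - 1) : Equiv.Perm d.V) h) •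
      (GG.tau d) ^ (-(n : ℤ) - 1) • y))
    rw [mul_assoc] at h1
    exact mul_left_cancel₀ h6 h1

theorem exists_cocycle {d : ND} {k : ℕ} (e : CDat d k) (Γ : Subgroup (GG d))
    (μ : Measure (KK d Γ)) [IsProbabilityMeasure μ] (hμ : ∀ g : GG d, μ.map (fun y => g • y) = μ)
    (ρ : KK d Γ → ℂ) (hρ : Measurable ρ) (hρk : ∀ y, inC k (ρ y)) (F : d.V → KK d Γ → ℂ)
    (hL : LData d Γ μ k ρ F e.c e.b) :
    ∃ Φ : GG e.ext → KK d Γ → ℂ, (Measurable fun p : GG e.ext × KK d Γ => Φ p.1 p.2) ∧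
      (∀ g y, inC k (Φ g y)) ∧
      (∀ g g', ∀ᵐ y ∂μ, Φ (g * g') y = Φ g (e.pr g' • y) * Φ g' y) ∧
      (∀ a g y, Φ (e.emW a * g) y = ee k a * Φ g y) ∧
      (∀ᵐ y ∂μ, Φ (GG.tau e.ext) y = ρ y) := by
  obtain ⟨R, hRm, hRk, hR0, hR1, hR⟩ := exists_rhoZ d Γ k ρ hρ hρk
  have : ProperSpace d.V := FiniteDimensional.proper_real d.V
  let _ : MeasurableSpace d.V := borel _
  have hbV : BorelSpace d.V := ⟨rfl⟩
  obtain ⟨F', hF'm, hF'k, hF'⟩ := joint_version μ k F hL.meas hL.inc hL.cont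
  refine ⟨fun g y => ee k g.1.2 * F' (g.1.1, (GG.tau d) ^ g.2 • y) * R g.2 y, ?_, ?_, ?_, ?_, ?_⟩
  · have c0 : Continuous (fun g : GG e.ext => (g.1 : e.ext.V)) :=
      (continuous_fst : Continuous (Prod.fst : e.ext.V × ℤ → e.ext.V))
    have c1 : Continuous (fun g : GG e.ext => (g.1.1 : d.V)) :=
      (continuous_fst : Continuous (Prod.fst : d.V × WW k → d.V)).comp c0
    have c2 : Continuous (fun g : GG e.ext => (g.1.2 : WW k)) :=
      (continuous_snd : Continuous (Prod.snd : d.V × WW k → WW k)).comp c0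
    have c3 : Continuous (fun g : GG e.ext => (g.2 : ℤ)) :=
      (continuous_snd : Continuous (Prod.snd : e.ext.V × ℤ → ℤ))
    have m3 : Measurable (fun g : GG e.ext => (g.2 : ℤ)) := c3.measurable
    have m0 : Measurable (fun p : GG e.ext × KK d Γ => (p.2, p.1.2)) :=
      measurable_snd.prodMk (m3.comp measurable_fst)
    have m4 : Measurable (fun p : GG e.ext × KK d Γ => (GG.tau d) ^ p.1.2 • p.2) := by
      have h1 : Measurable (fun q : KK d Γ × ℤ => (GG.tau d) ^ q.2 • q.1) :=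
        measurable_from_prod_countable_left fun n =>
          (continuous_const_smul ((GG.tau d) ^ n)).measurable
      exact h1.comp m0
    have m5 : Measurable (fun p : GG e.ext × KK d Γ => R p.1.2 p.2) := by
      have h1 : Measurable (fun q : KK d Γ × ℤ => R q.2 q.1) :=
        measurable_from_prod_countable_left fun n => hRm n
      exact h1.comp m0
    have m6 : Measurable (fun p : GG e.ext × KK d Γ => ee k p.1.1.2) :=
      (((continuous_ee k).comp c2).measurable).comp measurable_fst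
    have m7 : Measurable (fun p : GG e.ext × KK d Γ =>
        F' (p.1.1.1, (GG.tau d) ^ p.1.2 • p.2)) :=
      hF'm.comp ((c1.measurable.comp measurable_fst).prodMk m4)
    exact (m6.mul m7).mul m5
  · intro g y
    exact inC_mul (inC_mul (inC_ee k _) (hF'k _)) (hRk _ _)
  · intro g g'
    have hgg : (g * g').1 = e.mkV (d.mul g.1.1 ((d.phi ^ g.2 : Equiv.Perm d.V) g'.1.1))
        (g.1.2 + (g'.1.2 + ((e.ext.phi ^ g.2 : Equiv.Perm e.ext.V) (e.mkV g'.1.1 0)).2) +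
          e.c g.1.1 ((d.phi ^ g.2 : Equiv.Perm d.V) g'.1.1)) := by
      have h1 : (e.ext.phi ^ g.2 : Equiv.Perm e.ext.V) g'.1 =
          e.mkV ((d.phi ^ g.2 : Equiv.Perm d.V) g'.1.1)
            (g'.1.2 + ((e.ext.phi ^ g.2 : Equiv.Perm e.ext.V) (e.mkV g'.1.1 0)).2) := by
        refine Prod.ext (e.ext_phi_zpow _ _) ?_
        exact mkb_phi_snd e g.2 g'.1.1 g'.1.2
      rw [GG.mul_def]
      change e.ext.mul g.1 ((e.ext.phi ^ g.2 : Equiv.Perm e.ext.V) g'.1) = _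
      rw [h1]
      rfl
    have hgg2 : (g * g').2 = g.2 + g'.2 := rfl
    have hpr : ∀ y : KK d Γ, e.pr g' • y = GG.emb d g'.1.1 • (GG.tau d) ^ g'.2 • y := by
      intro y
      rw [← mul_smul, ← mk_eq]
      rfl
    have hcomm : ∀ y : KK d Γ, (GG.tau d) ^ g.2 • GG.emb d g'.1.1 • y =
        GG.emb d ((d.phi ^ g.2 : Equiv.Perm d.V) g'.1.1) • (GG.tau d) ^ g.2 • y := by
      intro y
      rw [← mul_smul, tau_zpow_mul_emb, mul_smul]
    have hFF : ∀ (h : d.V) (g₀ : GG d), ∀ᵐ y ∂μ, F' (h, g₀ • y) = F h (g₀ • y) :=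
      fun h g₀ => mkb_ae hμ g₀ (hF' h)
    have a1 := hFF g.1.1 ((GG.tau d) ^ g.2 * (GG.emb d g'.1.1 * (GG.tau d) ^ g'.2))
    have a2 := hFF g'.1.1 ((GG.tau d) ^ g'.2)
    have a3 := hFF (d.mul g.1.1 ((d.phi ^ g.2 : Equiv.Perm d.V) g'.1.1))
      ((GG.tau d) ^ g.2 * (GG.tau d) ^ g'.2)
    have a4 := mkb_ae hμ ((GG.tau d) ^ g'.2)
      (tw_zpow e Γ μ hμ ρ hρk F hL R hR0 hR1 hR g.2 g'.1.1)
    have a5 := mkb_ae hμ ((GG.tau d) ^ g.2 * (GG.tau d) ^ g'.2)
      (hL.mulr g.1.1 ((d.phi ^ g.2 : Equiv.Perm d.V) g'.1.1))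
    filter_upwards [a1, a2, a3, a4, a5] with y e1 e2 e3 e4 e5
    simp only [mul_smul] at e1 e3 e5
    rw [hcomm] at e1
    show ee k (g * g').1.2 * F' ((g * g').1.1, (GG.tau d) ^ (g * g').2 • y) * R (g * g').2 y =
      (ee k g.1.2 * F' (g.1.1, (GG.tau d) ^ g.2 • e.pr g' • y) * R g.2 (e.pr g' • y)) *
        (ee k g'.1.2 * F' (g'.1.1, (GG.tau d) ^ g'.2 • y) * R g'.2 y)
    rw [hgg, hgg2, hpr, hcomm, e1, e2, hR, zpow_add, mul_smul]
    change ee k (g.1.2 + (g'.1.2 + ((e.ext.phi ^ g.2 : Equiv.Perm e.ext.V) (e.mkV g'.1.1 0)).2) +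
          e.c g.1.1 ((d.phi ^ g.2 : Equiv.Perm d.V) g'.1.1)) *
        F' (d.mul g.1.1 ((d.phi ^ g.2 : Equiv.Perm d.V) g'.1.1),
          (GG.tau d) ^ g.2 • (GG.tau d) ^ g'.2 • y) *
        (R g.2 ((GG.tau d) ^ g'.2 • y) * R g'.2 y) = _
    rw [e3, mk_ee_add, mk_ee_add, mk_ee_add]
    calc ee k g.1.2 * (ee k g'.1.2 *
            ee k ((e.ext.phi ^ g.2 : Equiv.Perm e.ext.V) (e.mkV g'.1.1 0)).2) *
          ee k (e.c g.1.1 ((d.phi ^ g.2 : Equiv.Perm d.V) g'.1.1)) *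
          F (d.mul g.1.1 ((d.phi ^ g.2 : Equiv.Perm d.V) g'.1.1))
            ((GG.tau d) ^ g.2 • (GG.tau d) ^ g'.2 • y) *
          (R g.2 ((GG.tau d) ^ g'.2 • y) * R g'.2 y)
        = ee k g.1.2 * ee k g'.1.2 *
            ee k ((e.ext.phi ^ g.2 : Equiv.Perm e.ext.V) (e.mkV g'.1.1 0)).2 *
          (ee k (e.c g.1.1 ((d.phi ^ g.2 : Equiv.Perm d.V) g'.1.1)) *
          F (d.mul g.1.1 ((d.phi ^ g.2 : Equiv.Perm d.V) g'.1.1))
            ((GG.tau d) ^ g.2 • (GG.tau d) ^ g'.2 • y)) *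
          (R g.2 ((GG.tau d) ^ g'.2 • y) * R g'.2 y) := by ring
      _ = ee k g.1.2 * ee k g'.1.2 *
          F g.1.1 (GG.emb d ((d.phi ^ g.2 : Equiv.Perm d.V) g'.1.1) •
            (GG.tau d) ^ g.2 • (GG.tau d) ^ g'.2 • y) *
          (ee k ((e.ext.phi ^ g.2 : Equiv.Perm e.ext.V) (e.mkV g'.1.1 0)).2 *
            F ((d.phi ^ g.2 : Equiv.Perm d.V) g'.1.1)
              ((GG.tau d) ^ g.2 • (GG.tau d) ^ g'.2 • y) *
            R g.2 ((GG.tau d) ^ g'.2 • y)) * R g'.2 y := by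
          rw [← e5]
          ring
      _ = _ := by
          rw [← e4]
          ring
  · intro a g y
    show ee k (e.emW a * g).1.2 * F' ((e.emW a * g).1.1, (GG.tau d) ^ (e.emW a * g).2 • y) *
      R (e.emW a * g).2 y = ee k a * (ee k g.1.2 * F' (g.1.1, (GG.tau d) ^ g.2 • y) * R g.2 y)
    rw [e.emW_mul]
    change ee k (a + g.1.2) * F' (g.1.1, (GG.tau d) ^ g.2 • y) * R g.2 y = _
    rw [mk_ee_add]
    ring
  · filter_upwards [mkb_ae hμ ((GG.tau d) ^ (1 : ℤ)) (hF' 0)] with y hy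
    show ee k (0 : WW k) * F' (0, (GG.tau d) ^ (1 : ℤ) • y) * R 1 y = ρ y
    rw [hy, hL.zero, hR1, mk_ee_zero, one_mul, one_mul]

end Pool.Agent.HK820

end
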