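import Pool.Agent.Lib_MP_820dd4_hk.MKC

/-! ### Part `MKT` -/

section

/-!
# Part II, block MKT: the new factor map

`N` is a space with a measurable action of `G` and a point `x₀` whose stabilizer is
`{γ | γ y₀ = y₀, θ γ = 1}`; `Θ'' q = mkJ B σ s x₀ (Θ q) (u q) = (σ(Θ q) s(u q conj (B (σ (Θ q))))) • x₀`.
MAIN REMARK (`mkJ_iff`): if `y` is a point such that all `g` with `g • y₀ = y` lie in `A`, and `inC k z`, then
for every `g : G`: `g • x₀ = mkJ B σ s x₀ y z ↔ g • y₀ = y ∧ B g = z`.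
Proof: let `h = σ y * s z'`, `z' = z conj (B (σ y))`: `h • y₀ = y` and `B h = θ (s z') B (σ y) = z` (`hM.Bθ`,
`hS.val`). `g • x₀ = h • x₀` iff `h⁻¹ g • x₀ = x₀` iff `h⁻¹ g` is in the stabilizer of `y₀` and `θ (h⁻¹ g) = 1`.
If this holds then `g y₀ = h y₀ = y`, `B g = B (h (h⁻¹ g)) = B h = z`. Conversely if `g y₀ = y`, `B g = z` then
`γ = h⁻¹ g` is in the stabilizer and `z = B g = θ γ B h = θ γ z`, so `θ γ = 1`.

* `mkJ_meas`: composition of measurable maps (`MeasurableSMul₂ G N`).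
* `mkJ_equiv`: for `g₁` with `∀ᵐ g, B (g₁ g) = Φ g₁ (g y₀) B g` and a.e. `y` (`mk_transl`, and
  `conull_transfer` for the point `g₁ • y`, `μ` is invariant): take `g` with `g • x₀ = mkJ y z`
  (`g = σ y * s z'`); `g y₀ = y`, `B g = z`; then `g₁ g y₀ = g₁ y`, `B (g₁ g) = Φ g₁ y z`, so by `mkJ_iff`
  at `g₁ y`: `g₁ • mkJ y z = g₁ g • x₀ = mkJ (g₁ y) (Φ g₁ y z)`.
* `mkJ_fst`, `mkJ_snd`: with a measurable section `σ₂ : N → G` (`σ₂ x • x₀ = x`, `N` transitive):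
  `P₁ x = σ₂ x • y₀` and `P₂ x = B (σ₂ x)`. For a.e. `q` (`conull_transfer`) by `mkJ_iff` with
  `g = σ₂ (Θ'' q)`: `Θ q = P₁ (Θ'' q)`, `u q = P₂ (Θ'' q)`. (`P₁` identity holds for all `q`: both
  `g • x₀ = h • x₀` implies `g • y₀ = h • y₀`.)
-/

open MeasureTheory ProbabilityTheory Filter Topology
open scoped ComplexConjugate ENNReal

namespace Pool.Agent.HK820

variable {G K N : Type} [Group G] [MeasurableSpace G] [MeasurableMul₂ G] [MeasurableInv G]
  [MeasurableSpace K] [MulAction G K] [MeasurableSMul₂ G K]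
  [MeasurableSpace N] [MulAction G N] [MeasurableSMul₂ G N]

theorem mkJ_meas {B : G → ℂ} (hB : Measurable B) {σ : K → G} (hσ : Measurable σ) {s : ℂ → G}
    (hs : Measurable s) (x₀ : N) : Measurable fun p : K × ℂ => mkJ B σ s x₀ p.1 p.2 := by
  unfold mkJ
  have h1 : Measurable fun p : K × ℂ => σ p.1 := hσ.comp measurable_fst
  have h2 : Measurable fun p : K × ℂ => conj (B (σ p.1)) :=
    Complex.continuous_conj.measurable.comp (hB.comp h1)
  have h3 : Measurable fun p : K × ℂ => s (p.2 * conj (B (σ p.1))) :=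
    hs.comp (measurable_snd.mul h2)
  exact (h1.mul h3).smul measurable_const

/-- the chosen representative: `h = σ y * s z'` sends `y₀` to `y`, and `B h = z` if `σ y ∈ A` -/
theorem mkJ_rep {lam : Measure G} {μ : Measure K} {k : ℕ} {Φ : G → K → ℂ} {y₀ : K} {B : G → ℂ}
    {θ : MulAction.stabilizer G y₀ →* ℂ} {A : Set G} {σ : K → G}
    (hM : MkB lam μ k Φ y₀ B θ A σ) {s : ℂ → G} (hs : MkS k y₀ θ s) (y : K) (z : ℂ)
    (hz : inC k z) :
    (σ y * s (z * conj (B (σ y)))) • y₀ = y ∧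
      (σ y ∈ A → B (σ y * s (z * conj (B (σ y)))) = z) := by
  obtain ⟨h1, h2⟩ := hs.val (z * conj (B (σ y))) (inC_mul hz (inC_conj (hM.Binc _)))
  refine ⟨?_, fun hA => ?_⟩
  · rw [mul_smul, MulAction.mem_stabilizer_iff.1 h1, hM.σy]
  · have h3 := hM.Bθ (σ y) hA ⟨_, h1⟩
    rw [h2] at h3
    change B (σ y * s (z * conj (B (σ y)))) = _ at h3
    rw [h3, mul_assoc, inC_conj_mul (hM.Binc _), mul_one]

theorem mkJ_iff {lam : Measure G} {μ : Measure K} {k : ℕ} {Φ : G → K → ℂ} {y₀ : K} {B : G → ℂ}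
    {θ : MulAction.stabilizer G y₀ →* ℂ} {A : Set G} {σ : K → G}
    (hM : MkB lam μ k Φ y₀ B θ A σ) {s : ℂ → G} (hs : MkS k y₀ θ s) (x₀ : N)
    (hx₀ : ∀ γ : G, γ • x₀ = x₀ ↔ ∃ h : γ ∈ MulAction.stabilizer G y₀, θ ⟨γ, h⟩ = 1)
    (y : K) (hy : ∀ g : G, g • y₀ = y → g ∈ A) (z : ℂ) (hz : inC k z) (g : G) :
    g • x₀ = mkJ B σ s x₀ y z ↔ g • y₀ = y ∧ B g = z := by
  obtain ⟨h1, h2⟩ := mkJ_rep hM hs y z hz
  have h3 := h2 (hy _ (hM.σy y))
  rw [mkJ]
  generalize σ y * s (z * conj (B (σ y))) = h at h1 h3 ⊢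
  have hhA : h ∈ A := hy h h1
  have hkey : g • x₀ = h • x₀ ↔ (h⁻¹ * g) • x₀ = x₀ := by
    rw [mul_smul, inv_smul_eq_iff]
  rw [hkey, hx₀]
  constructor
  · rintro ⟨hm, ht⟩
    have h4 := hM.Bθ h hhA ⟨_, hm⟩
    rw [ht, one_mul, h3] at h4
    change B (h * (h⁻¹ * g)) = z at h4
    rw [mul_inv_cancel_left] at h4
    refine ⟨?_, h4⟩
    have h5 := MulAction.mem_stabilizer_iff.1 hm
    rw [mul_smul, inv_smul_eq_iff, h1] at h5
    exact h5
  · rintro ⟨hg1, hg2⟩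
    have hm : h⁻¹ * g ∈ MulAction.stabilizer G y₀ := by
      rw [MulAction.mem_stabilizer_iff, mul_smul, inv_smul_eq_iff, h1, hg1]
    refine ⟨hm, ?_⟩
    have h4 := hM.Bθ h hhA ⟨_, hm⟩
    rw [h3] at h4
    change B (h * (h⁻¹ * g)) = _ at h4
    rw [mul_inv_cancel_left, hg2] at h4
    exact mul_right_cancel₀ (inC_ne_zero hz) (by rw [one_mul]; exact h4.symm)

theorem mkJ_equiv {lam : Measure G} [SigmaFinite lam] [lam.IsMulLeftInvariant] (hlam : lam ≠ 0)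
    {μ : Measure K} [IsProbabilityMeasure μ] {k : ℕ} {Φ : G → K → ℂ} {y₀ : K} {B : G → ℂ}
    {θ : MulAction.stabilizer G y₀ →* ℂ} {A : Set G} {σ : K → G}
    (hM : MkB lam μ k Φ y₀ B θ A σ) {s : ℂ → G} (hs : MkS k y₀ θ s) (x₀ : N)
    (hx₀ : ∀ γ : G, γ • x₀ = x₀ ↔ ∃ h : γ ∈ MulAction.stabilizer G y₀, θ ⟨γ, h⟩ = 1)
    (g₁ : G) (hg₁ : ∀ᵐ g ∂lam, B (g₁ * g) = Φ g₁ (g • y₀) * B g) :
    ∀ᵐ y ∂μ, ∀ z, inC k z → g₁ • mkJ B σ s x₀ y z = mkJ B σ s x₀ (g₁ • y) (Φ g₁ y * z) := by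
  have hct := conull_transfer lam hlam μ hM.μinv y₀ σ hM.σmeas hM.σy A hM.Ameas hM.Anull hM.Ainv
  have hct2 : ∀ᵐ y ∂μ, ∀ g : G, g • y₀ = g₁ • y → g ∈ A := by
    have h := hct
    rw [← hM.μinv g₁] at h
    exact ae_of_ae_map (measurable_const_smul g₁).aemeasurable h
  filter_upwards [mk_transl hlam hM g₁ hg₁, hct, hct2] with y h1 h2 h3 z hz
  obtain ⟨h4, h5⟩ := (mkJ_iff hM hs x₀ hx₀ y h2 z hz (σ y * s (z * conj (B (σ y))))).1 rfl
  obtain ⟨-, -, h6⟩ := h1 _ h4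
  rw [h5] at h6
  have h7 : (g₁ * (σ y * s (z * conj (B (σ y))))) • y₀ = g₁ • y := by rw [mul_smul, h4]
  have h8 := (mkJ_iff hM hs x₀ hx₀ (g₁ • y) h3 (Φ g₁ y * z) (inC_mul (hM.Φinc _ _) hz) _).2
    ⟨h7, h6⟩
  rw [← h8, mul_smul]
  rfl

theorem mkJ_fst {lam : Measure G} {μ : Measure K} {k : ℕ} {Φ : G → K → ℂ} {y₀ : K} {B : G → ℂ}
    {θ : MulAction.stabilizer G y₀ →* ℂ} {A : Set G} {σ : K → G}
    (hM : MkB lam μ k Φ y₀ B θ A σ) {s : ℂ → G} (hs : MkS k y₀ θ s) (x₀ : N)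
    (hx₀ : ∀ γ : G, γ • x₀ = x₀ ↔ ∃ h : γ ∈ MulAction.stabilizer G y₀, θ ⟨γ, h⟩ = 1)
    (σ₂ : N → G) (hσ₂ : Measurable σ₂) (hσ₂' : ∀ x, σ₂ x • x₀ = x) (y : K) (z : ℂ)
    (hz : inC k z) : σ₂ (mkJ B σ s x₀ y z) • y₀ = y := by
  obtain ⟨h1, -⟩ := mkJ_rep hM hs y z hz
  have h2 := hσ₂' (mkJ B σ s x₀ y z)
  generalize σ₂ (mkJ B σ s x₀ y z) = g at h2 ⊢
  rw [mkJ] at h2
  generalize σ y * s (z * conj (B (σ y))) = h at h1 h2
  have h3 : (h⁻¹ * g) • x₀ = x₀ := by rw [mul_smul, inv_smul_eq_iff, h2]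
  obtain ⟨hm, -⟩ := (hx₀ _).1 h3
  have h5 := MulAction.mem_stabilizer_iff.1 hm
  rw [mul_smul, inv_smul_eq_iff, h1] at h5
  exact h5

theorem mkJ_snd {lam : Measure G} [SigmaFinite lam] [lam.IsMulLeftInvariant] (hlam : lam ≠ 0)
    {μ : Measure K} [IsProbabilityMeasure μ] {k : ℕ} {Φ : G → K → ℂ} {y₀ : K} {B : G → ℂ}
    {θ : MulAction.stabilizer G y₀ →* ℂ} {A : Set G} {σ : K → G}
    (hM : MkB lam μ k Φ y₀ B θ A σ) {s : ℂ → G} (hs : MkS k y₀ θ s) (x₀ : N)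
    (hx₀ : ∀ γ : G, γ • x₀ = x₀ ↔ ∃ h : γ ∈ MulAction.stabilizer G y₀, θ ⟨γ, h⟩ = 1)
    (σ₂ : N → G) (hσ₂ : Measurable σ₂) (hσ₂' : ∀ x, σ₂ x • x₀ = x) :
    ∀ᵐ y ∂μ, ∀ z, inC k z → B (σ₂ (mkJ B σ s x₀ y z)) = z := by
  have hct := conull_transfer lam hlam μ hM.μinv y₀ σ hM.σmeas hM.σy A hM.Ameas hM.Anull hM.Ainv
  filter_upwards [hct] with y h2 z hz
  exact ((mkJ_iff hM hs x₀ hx₀ y h2 z hz _).1 (hσ₂' _)).2

end Pool.Agent.HK820

end

/-! ### Part `MKG` -/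

section

/-!
# Part II, block MKG: the law of `(Θ, u)` is determined by its Fourier coefficients

* `circle_unique`: two finite measures `P, P'` on `ℂ`, concentrated on the unit circle, with
  `∫ z^j dP = ∫ z^j dP'` for all `j : ℤ` are equal. Proof: transport to the compact metric space
  `Metric.sphere (0 : ℂ) 1` (or `Circle`) and use
  `MeasureTheory.ext_of_forall_mem_subalgebra_integral_eq_of_pseudoEMetric_complete_countable` (or the
  polish version) with the star subalgebra generated by the coordinate function. For `g` in this star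
  subalgebra the predicate `∀ h, (∀ j : ℤ, ∫ z^j h dP = ∫ z^j h dP') → (∀ j : ℤ, ∫ z^j g h dP = ∫ z^j g h dP')`
  is preserved by sums, products, scalars, and holds for the generator `z` and its conjugate `z⁻¹`; then
  take `h = 1`.
* `law_unique`: it is enough that for all measurable `E ⊆ K` and measurable `E' ⊆ ℂ` the measures of
  `E ×ˢ E'` agree (`Measure.ext_prod` or `MeasurableSpace.ext_on_rectangles`-like, both
  measures are finite). For fixed `E` apply `circle_unique` to the images under `u`, `u'` of `ν` restricted to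
  `Θ⁻¹ E`, `Θ'⁻¹ E`: the integrals of `z^j` are `∫ 1_E(Θ) u^j dν`; for `k ∤ j` both vanish by `h0`, `h0'`;
  for `k ∣ j` (in `ℤ`; for `k = 0` this means `j = 0`) `u^j = 1 = u'^j` (`inC k`) and the integrals are
  `ν (Θ⁻¹ E) = ν (Θ'⁻¹ E)` by `h`.
* `law_skew`: apply `law_unique` to `Θ' = g • Θ`, `u' = (Φ g ∘ Θ) u`: the hypothesis `h0'` is `h0` for the
  function `f' y = f (g y) (Φ g y)^j`.
-/

open MeasureTheory ProbabilityTheory Filter Topology
open scoped ComplexConjugate ENNReal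

namespace Pool.Agent.HK820

/-- the coordinate function on the unit circle -/
noncomputable def mkgZ : BoundedContinuousFunction (Metric.sphere (0 : ℂ) 1) ℂ :=
  BoundedContinuousFunction.mkOfCompact ⟨Subtype.val, continuous_subtype_val⟩

theorem mkgZ_apply (z : Metric.sphere (0 : ℂ) 1) : mkgZ z = (z : ℂ) := rfl

theorem mkg_norm (z : Metric.sphere (0 : ℂ) 1) : ‖(z : ℂ)‖ = 1 := by
  have := z.2
  rwa [mem_sphere_zero_iff_norm] at this

theorem mkg_ne (z : Metric.sphere (0 : ℂ) 1) : (z : ℂ) ≠ 0 := by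
  rw [← norm_ne_zero_iff, mkg_norm]
  exact one_ne_zero

theorem mkg_int (P : Measure (Metric.sphere (0 : ℂ) 1)) [IsFiniteMeasure P] (j : ℤ)
    (h : BoundedContinuousFunction (Metric.sphere (0 : ℂ) 1) ℂ) :
    Integrable (fun z : Metric.sphere (0 : ℂ) 1 => (z : ℂ) ^ j * h z) P := by
  have h1 : Continuous (fun z : Metric.sphere (0 : ℂ) 1 => (z : ℂ) ^ j * h z) :=
    (continuous_subtype_val.zpow₀ j fun z => Or.inl (mkg_ne z)).mul h.continuous
  refine Integrable.of_bound h1.aestronglyMeasurable ‖h‖ (Eventually.of_forall fun z => ?_)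
  rw [norm_mul, norm_zpow, mkg_norm, one_zpow, one_mul]
  exact h.norm_coe_le_norm z

/-- equality of all moments against `h` -/
def mkgQ (P P' : Measure (Metric.sphere (0 : ℂ) 1))
    (h : BoundedContinuousFunction (Metric.sphere (0 : ℂ) 1) ℂ) : Prop :=
  ∀ j : ℤ, ∫ z, (z : ℂ) ^ j * h z ∂P = ∫ z, (z : ℂ) ^ j * h z ∂P'

theorem mkgQ_star {P P' : Measure (Metric.sphere (0 : ℂ) 1)}
    {h : BoundedContinuousFunction (Metric.sphere (0 : ℂ) 1) ℂ} (hQ : mkgQ P P' h) :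
    mkgQ P P' (star h) := by
  intro j
  have key : ∀ z : Metric.sphere (0 : ℂ) 1,
      (z : ℂ) ^ j * (star h) z = conj ((z : ℂ) ^ (-j) * h z) := by
    intro z
    have h1 : conj (z : ℂ) = (z : ℂ)⁻¹ := by
      rw [Complex.inv_def, Complex.normSq_eq_norm_sq, mkg_norm]
      simp
    have h2 : (star h) z = conj (h z) := rfl
    rw [h2, map_mul, map_zpow₀, h1, inv_zpow, zpow_neg, inv_inv]
  simp only [key]
  rw [integral_conj, integral_conj, hQ (-j)]

theorem mkg_alg {P P' : Measure (Metric.sphere (0 : ℂ) 1)} [IsFiniteMeasure P]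
    [IsFiniteMeasure P'] {g : BoundedContinuousFunction (Metric.sphere (0 : ℂ) 1) ℂ}
    (hg : g ∈ StarAlgebra.adjoin ℂ {mkgZ}) :
    ∀ h, mkgQ P P' h → mkgQ P P' (g * h) := by
  induction hg using StarAlgebra.adjoin_induction with
  | mem x hx =>
    intro h hQ j
    rw [Set.mem_singleton_iff] at hx
    have key : ∀ z : Metric.sphere (0 : ℂ) 1, (z : ℂ) ^ j * (x * h) z =
        (z : ℂ) ^ (j + 1) * h z := by
      intro z
      have h1 : (x * h) z = (z : ℂ) * h z := by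
        rw [hx]
        rfl
      rw [h1, zpow_add_one₀ (mkg_ne z), mul_assoc]
    simp only [key]
    exact hQ (j + 1)
  | algebraMap r =>
    intro h hQ j
    have key : ∀ z : Metric.sphere (0 : ℂ) 1,
        (z : ℂ) ^ j * (algebraMap ℂ (BoundedContinuousFunction (Metric.sphere (0 : ℂ) 1) ℂ) r * h) z =
        r * ((z : ℂ) ^ j * h z) := by
      intro z
      have h1 : (algebraMap ℂ (BoundedContinuousFunction (Metric.sphere (0 : ℂ) 1) ℂ) r * h) z =
          r * h z := rfl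
      rw [h1]
      ring
    simp only [key]
    rw [integral_const_mul, integral_const_mul, hQ j]
  | add x y hx hy ihx ihy =>
    intro h hQ j
    have key : ∀ z : Metric.sphere (0 : ℂ) 1, (z : ℂ) ^ j * ((x + y) * h) z =
        (z : ℂ) ^ j * (x * h) z + (z : ℂ) ^ j * (y * h) z := by
      intro z
      have h1 : ((x + y) * h) z = (x * h) z + (y * h) z := by
        show (x z + y z) * h z = x z * h z + y z * h z
        ring
      rw [h1]
      ring
    simp only [key]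
    rw [integral_add (mkg_int P j _) (mkg_int P j _), integral_add (mkg_int P' j _)
      (mkg_int P' j _), ihx h hQ j, ihy h hQ j]
  | mul x y hx hy ihx ihy =>
    intro h hQ
    rw [mul_assoc]
    exact ihx _ (ihy h hQ)
  | star x hx ihx =>
    intro h hQ
    have h1 := mkgQ_star (ihx _ (mkgQ_star hQ))
    rwa [star_mul, star_star, mul_comm] at h1

theorem mkg_sphere (P P' : Measure (Metric.sphere (0 : ℂ) 1)) [IsFiniteMeasure P]
    [IsFiniteMeasure P']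
    (h : ∀ j : ℤ, ∫ z, (z : ℂ) ^ j ∂P = ∫ z, (z : ℂ) ^ j ∂P') : P = P' := by
  have hsep : ((StarAlgebra.adjoin ℂ {mkgZ}).map
      (BoundedContinuousFunction.toContinuousMapStarₐ ℂ)).SeparatesPoints := by
    intro v v' hvv'
    use mkgZ
    simp only [StarSubalgebra.coe_toSubalgebra, StarSubalgebra.coe_map, Set.mem_image,
      SetLike.mem_coe, exists_exists_and_eq_and, ne_eq]
    refine ⟨⟨mkgZ, StarAlgebra.self_mem_adjoin_singleton ℂ mkgZ, rfl⟩, ?_⟩
    intro hh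
    exact hvv' (Subtype.ext hh)
  refine ext_of_forall_mem_subalgebra_integral_eq_of_pseudoEMetric_complete_countable hsep ?_
  intro g hg
  have h1 : mkgQ P P' 1 := by
    intro j
    have key : ∀ z : Metric.sphere (0 : ℂ) 1,
        (z : ℂ) ^ j * (1 : BoundedContinuousFunction (Metric.sphere (0 : ℂ) 1) ℂ) z = (z : ℂ) ^ j := by
      intro z
      exact mul_one _
    simp only [key]
    exact h j
  have h2 := mkg_alg hg 1 h1 0
  simp only [zpow_zero, one_mul, mul_one] at h2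
  exact h2

theorem circle_unique (P P' : Measure ℂ) [IsFiniteMeasure P] [IsFiniteMeasure P']
    (h1 : ∀ᵐ z ∂P, ‖z‖ = 1) (h1' : ∀ᵐ z ∂P', ‖z‖ = 1)
    (h : ∀ j : ℤ, ∫ z, z ^ j ∂P = ∫ z, z ^ j ∂P') : P = P' := by
  have hm : MeasurableSet (Metric.sphere (0 : ℂ) 1) := Metric.isClosed_sphere.measurableSet
  have he : MeasurableEmbedding (Subtype.val : Metric.sphere (0 : ℂ) 1 → ℂ) :=
    MeasurableEmbedding.subtype_coe hm
  have hP : ∀ (P₀ : Measure ℂ), (∀ᵐ z ∂P₀, ‖z‖ = 1) →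
      (P₀.comap (Subtype.val : Metric.sphere (0 : ℂ) 1 → ℂ)).map Subtype.val = P₀ := by
    intro P₀ hR
    rw [he.map_comap, Subtype.range_val]
    refine Measure.restrict_eq_self_of_ae_mem ?_
    filter_upwards [hR] with z hz
    exact mem_sphere_zero_iff_norm.2 hz
  have hF : ∀ (P₀ : Measure ℂ) [IsFiniteMeasure P₀],
      IsFiniteMeasure (P₀.comap (Subtype.val : Metric.sphere (0 : ℂ) 1 → ℂ)) := by
    intro P₀ _
    refine ⟨?_⟩
    rw [he.comap_apply]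
    exact measure_lt_top P₀ _
  have _ := hF P
  have _ := hF P'
  have hI : ∀ (P₀ : Measure ℂ), (∀ᵐ z ∂P₀, ‖z‖ = 1) → ∀ j : ℤ,
      ∫ z, (z : ℂ) ^ j ∂(P₀.comap (Subtype.val : Metric.sphere (0 : ℂ) 1 → ℂ)) =
        ∫ z, z ^ j ∂P₀ := by
    intro P₀ hR j
    conv_rhs => rw [← hP P₀ hR]
    exact (he.integral_map (fun z : ℂ => z ^ j)).symm
  have hE := mkg_sphere (P.comap Subtype.val) (P'.comap Subtype.val) (fun j => by
    rw [hI P h1 j, hI P' h1' j, h j])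
  rw [← hP P h1, ← hP P' h1', hE]

theorem law_unique {Q K : Type} [MeasurableSpace Q] [MeasurableSpace K] (ν : Measure Q)
    [IsProbabilityMeasure ν] (k : ℕ) (Θ Θ' : Q → K) (hΘ : Measurable Θ) (hΘ' : Measurable Θ')
    (u u' : Q → ℂ) (hu : Measurable u) (hu' : Measurable u') (huk : ∀ q, inC k (u q))
    (huk' : ∀ q, inC k (u' q)) (h : ν.map Θ = ν.map Θ')
    (h0 : ∀ f : K → ℂ, Measurable f → (∃ C : ℝ, ∀ y, ‖f y‖ ≤ C) → ∀ j : ℤ, ¬ (k : ℤ) ∣ j →
      ∫ q, f (Θ q) * u q ^ j ∂ν = 0)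
    (h0' : ∀ f : K → ℂ, Measurable f → (∃ C : ℝ, ∀ y, ‖f y‖ ≤ C) → ∀ j : ℤ, ¬ (k : ℤ) ∣ j →
      ∫ q, f (Θ' q) * u' q ^ j ∂ν = 0) :
    ν.map (fun q => (Θ q, u q)) = ν.map (fun q => (Θ' q, u' q)) := by
  have hm1 : Measurable (fun q => (Θ q, u q)) := hΘ.prodMk hu
  have hm2 : Measurable (fun q => (Θ' q, u' q)) := hΘ'.prodMk hu'
  have _ := Measure.isFiniteMeasure_map ν (fun q => (Θ q, u q))
  -- the moments
  have hmom : ∀ (Ψ : Q → K) (v : Q → ℂ), Measurable Ψ → Measurable v → (∀ q, inC k (v q)) →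
      (∀ f : K → ℂ, Measurable f → (∃ C : ℝ, ∀ y, ‖f y‖ ≤ C) → ∀ j : ℤ, ¬ (k : ℤ) ∣ j →
        ∫ q, f (Ψ q) * v q ^ j ∂ν = 0) → ∀ (E : Set K), MeasurableSet E → ∀ j : ℤ,
      ∫ z, z ^ j ∂((ν.restrict (Ψ ⁻¹' E)).map v) =
        if (k : ℤ) ∣ j then (((ν (Ψ ⁻¹' E)).toReal : ℝ) : ℂ) else 0 := by
    intro Ψ v hΨ hv hvk hv0 E hE j
    have hzm : StronglyMeasurable (fun z : ℂ => z ^ j) :=
      (Measurable.pow_const measurable_id j).stronglyMeasurable
    rw [integral_map hv.aemeasurable hzm.aestronglyMeasurable]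
    by_cases hj : (k : ℤ) ∣ j
    · rw [if_pos hj]
      obtain ⟨i, rfl⟩ := hj
      have e1 : ∀ q, v q ^ ((k : ℤ) * i) = 1 := by
        intro q
        rw [zpow_mul, zpow_natCast, (hvk q).2, one_zpow]
      simp only [e1]
      rw [integral_const, Measure.real, Measure.restrict_apply MeasurableSet.univ,
        Set.univ_inter]
      simp
    · rw [if_neg hj, ← integral_indicator (hΨ hE)]
      have h3 := hv0 (E.indicator fun _ => 1) (measurable_const.indicator hE) ⟨1, fun y => by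
        by_cases hy : y ∈ E
        · rw [Set.indicator_of_mem hy, norm_one]
        · rw [Set.indicator_of_notMem hy, norm_zero]
          exact zero_le_one⟩ j hj
      rw [← h3]
      refine integral_congr_ae (Eventually.of_forall fun q => ?_)
      by_cases hq : Ψ q ∈ E
      · show (Ψ ⁻¹' E).indicator (fun q => v q ^ j) q = E.indicator (fun _ => 1) (Ψ q) * v q ^ j
        rw [Set.indicator_of_mem (show q ∈ Ψ ⁻¹' E from hq), Set.indicator_of_mem hq, one_mul]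
      · show (Ψ ⁻¹' E).indicator (fun q => v q ^ j) q = E.indicator (fun _ => 1) (Ψ q) * v q ^ j
        rw [Set.indicator_of_notMem (show q ∉ Ψ ⁻¹' E from hq), Set.indicator_of_notMem hq,
          zero_mul]
  refine Measure.ext_prod fun {E} {E'} hE hE' => ?_
  have hcirc : (ν.restrict (Θ ⁻¹' E)).map u = (ν.restrict (Θ' ⁻¹' E)).map u' := by
    have _ := Measure.isFiniteMeasure_map (ν.restrict (Θ ⁻¹' E)) u
    have _ := Measure.isFiniteMeasure_map (ν.restrict (Θ' ⁻¹' E)) u'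
    have hsph : MeasurableSet {z : ℂ | ‖z‖ = 1} :=
      measurableSet_eq_fun measurable_norm measurable_const
    refine circle_unique _ _ ?_ ?_ fun j => ?_
    · exact (ae_map_iff hu.aemeasurable hsph).2 (Eventually.of_forall fun q => (huk q).1)
    · exact (ae_map_iff hu'.aemeasurable hsph).2 (Eventually.of_forall fun q => (huk' q).1)
    · rw [hmom Θ u hΘ hu huk h0 E hE j, hmom Θ' u' hΘ' hu' huk' h0' E hE j]
      have h3 : ν (Θ ⁻¹' E) = ν (Θ' ⁻¹' E) := by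
        rw [← Measure.map_apply hΘ hE, ← Measure.map_apply hΘ' hE, h]
      rw [h3]
  have e1 : ∀ (Ψ : Q → K) (v : Q → ℂ), Measurable Ψ → Measurable v →
      (ν.map (fun q => (Ψ q, v q))) (E ×ˢ E') = ((ν.restrict (Ψ ⁻¹' E)).map v) E' := by
    intro Ψ v hΨ hv
    rw [Measure.map_apply (hΨ.prodMk hv) (hE.prod hE'), Measure.map_apply hv hE',
      Measure.restrict_apply (hv hE')]
    congr 1
    ext q
    simp only [Set.mem_preimage, Set.mem_prod, Set.mem_inter_iff]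
    exact and_comm
  rw [e1 Θ u hΘ hu, e1 Θ' u' hΘ' hu', hcirc]

theorem law_skew {Q K : Type} [MeasurableSpace Q] [MeasurableSpace K] (ν : Measure Q)
    [IsProbabilityMeasure ν] (k : ℕ) (Θ : Q → K) (hΘ : Measurable Θ)
    (u : Q → ℂ) (hu : Measurable u) (huk : ∀ q, inC k (u q))
    (h0 : ∀ f : K → ℂ, Measurable f → (∃ C : ℝ, ∀ y, ‖f y‖ ≤ C) → ∀ j : ℤ, ¬ (k : ℤ) ∣ j →
      ∫ q, f (Θ q) * u q ^ j ∂ν = 0)
    (g : K → K) (hg : Measurable g) (hgμ : (ν.map Θ).map g = ν.map Θ)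
    (φ : K → ℂ) (hφ : Measurable φ) (hφk : ∀ y, inC k (φ y)) :
    ν.map (fun q => (g (Θ q), φ (Θ q) * u q)) = ν.map (fun q => (Θ q, u q)) := by
  refine law_unique ν k (fun q => g (Θ q)) Θ (hg.comp hΘ) hΘ (fun q => φ (Θ q) * u q) u
    ((hφ.comp hΘ).mul hu) hu (fun q => inC_mul (hφk _) (huk q)) huk ?_ ?_ h0
  · rw [← hgμ, Measure.map_map hg hΘ]
    rfl
  · rintro f hf ⟨C, hC⟩ j hj
    have h1 := h0 (fun y => f (g y) * φ y ^ j)
      ((hf.comp hg).mul (Measurable.pow_const hφ j)) ⟨C, fun y => by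
        rw [norm_mul, norm_zpow, (hφk y).1, one_zpow, mul_one]
        exact hC _⟩ j hj
    rw [← h1]
    refine integral_congr_ae (Eventually.of_forall fun q => ?_)
    show f (g (Θ q)) * (φ (Θ q) * u q) ^ j = f (g (Θ q)) * φ (Θ q) ^ j * u q ^ j
    rw [mul_zpow]
    ring

end Pool.Agent.HK820

end

/-! ### Part `MKL` -/

section

/-!
# Part II, block MKL: the law of the new factor map is invariant

Notation and lemmas of MKT.lean (`mkJ_meas`, `mkJ_equiv`) and MKG.lean (`law_skew`) are used.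

* `mkJ_law_one`: `g₁ • Θ'' = mkJ (g₁ Θ) (Φ g₁ (Θ) u)` a.e. and the law of `(g₁ Θ, Φ g₁ (Θ) u)` is the law
  of `(Θ, u)` (`law_skew`), so the law of `g₁ • Θ''` is the law of `Θ''`.
* `mkJ_law`: the set `H` of all `g₁` for which the law of `Θ''` is invariant is a subgroup of `G` and contains
  `lam`-almost every `g₁` (`hM.Bcoc`, `Measure.ae_ae_of_ae_prod`). If `g ∉ H` then `g H` and `H` are disjoint
  and both contain a conull set (left translation preserves `lam`), impossible since `lam ≠ 0`.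
-/

open MeasureTheory ProbabilityTheory Filter Topology
open scoped ComplexConjugate ENNReal

namespace Pool.Agent.HK820

variable {G K N : Type} [Group G] [MeasurableSpace G] [MeasurableMul₂ G] [MeasurableInv G]
  [MeasurableSpace K] [MulAction G K] [MeasurableSMul₂ G K]
  [MeasurableSpace N] [MulAction G N] [MeasurableSMul₂ G N]

theorem mkJ_law_one {lam : Measure G} [SigmaFinite lam] [lam.IsMulLeftInvariant] (hlam : lam ≠ 0)
    {μ : Measure K} [IsProbabilityMeasure μ] {k : ℕ} {Φ : G → K → ℂ} {y₀ : K} {B : G → ℂ}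
    {θ : MulAction.stabilizer G y₀ →* ℂ} {A : Set G} {σ : K → G}
    (hM : MkB lam μ k Φ y₀ B θ A σ) {s : ℂ → G} (hs : MkS k y₀ θ s) (x₀ : N)
    (hx₀ : ∀ γ : G, γ • x₀ = x₀ ↔ ∃ h : γ ∈ MulAction.stabilizer G y₀, θ ⟨γ, h⟩ = 1)
    {Q : Type} [MeasurableSpace Q] {ν : Measure Q} [IsProbabilityMeasure ν] {Θ : Q → K}
    (hΘ : Measurable Θ) (hΘμ : ν.map Θ = μ) {u : Q → ℂ} (hu : Measurable u)
    (huk : ∀ q, inC k (u q))
    (h0 : ∀ f : K → ℂ, Measurable f → (∃ C : ℝ, ∀ y, ‖f y‖ ≤ C) → ∀ j : ℤ, ¬ (k : ℤ) ∣ j →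
      ∫ q, f (Θ q) * u q ^ j ∂ν = 0) (g₁ : G)
    (hg₁ : ∀ᵐ g ∂lam, B (g₁ * g) = Φ g₁ (g • y₀) * B g) :
    (ν.map (fun q => mkJ B σ s x₀ (Θ q) (u q))).map (fun x => g₁ • x) =
      ν.map (fun q => mkJ B σ s x₀ (Θ q) (u q)) := by
  have hJ : Measurable fun p : K × ℂ => mkJ B σ s x₀ p.1 p.2 :=
    mkJ_meas hM.Bmeas hM.σmeas hs.meas x₀
  have hF : Measurable fun q => mkJ B σ s x₀ (Θ q) (u q) := hJ.comp (hΘ.prodMk hu)
  have hΦ : Measurable (Φ g₁) := hM.Φmeas.comp measurable_prodMk_left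
  have hsm : Measurable fun y : K => g₁ • y := measurable_const_smul g₁
  have hlaw := law_skew ν k Θ hΘ u hu huk h0 (fun y => g₁ • y) hsm
    (by rw [hΘμ]; exact hM.μinv g₁) (Φ g₁) hΦ (hM.Φinc g₁)
  have hae : ∀ᵐ q ∂ν, g₁ • mkJ B σ s x₀ (Θ q) (u q) =
      mkJ B σ s x₀ (g₁ • Θ q) (Φ g₁ (Θ q) * u q) := by
    have h1 := mkJ_equiv hlam hM hs x₀ hx₀ g₁ hg₁
    rw [← hΘμ] at h1
    filter_upwards [ae_of_ae_map hΘ.aemeasurable h1] with q hq
    exact hq (u q) (huk q)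
  rw [Measure.map_map (measurable_const_smul g₁) hF]
  have h2 : ν.map ((fun x : N => g₁ • x) ∘ fun q => mkJ B σ s x₀ (Θ q) (u q)) =
      ν.map ((fun p : K × ℂ => mkJ B σ s x₀ p.1 p.2) ∘
        fun q => (g₁ • Θ q, Φ g₁ (Θ q) * u q)) := by
    apply Measure.map_congr
    filter_upwards [hae] with q hq
    exact hq
  have hm2 : Measurable fun q => (g₁ • Θ q, Φ g₁ (Θ q) * u q) :=
    (hsm.comp hΘ).prodMk ((hΦ.comp hΘ).mul hu)
  rw [h2, ← Measure.map_map hJ hm2, hlaw, Measure.map_map hJ (hΘ.prodMk hu)]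
  rfl

theorem mkJ_law {lam : Measure G} [SigmaFinite lam] [lam.IsMulLeftInvariant] (hlam : lam ≠ 0)
    {μ : Measure K} [IsProbabilityMeasure μ] {k : ℕ} {Φ : G → K → ℂ} {y₀ : K} {B : G → ℂ}
    {θ : MulAction.stabilizer G y₀ →* ℂ} {A : Set G} {σ : K → G}
    (hM : MkB lam μ k Φ y₀ B θ A σ) {s : ℂ → G} (hs : MkS k y₀ θ s) (x₀ : N)
    (hx₀ : ∀ γ : G, γ • x₀ = x₀ ↔ ∃ h : γ ∈ MulAction.stabilizer G y₀, θ ⟨γ, h⟩ = 1)
    {Q : Type} [MeasurableSpace Q] {ν : Measure Q} [IsProbabilityMeasure ν] {Θ : Q → K}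
    (hΘ : Measurable Θ) (hΘμ : ν.map Θ = μ) {u : Q → ℂ} (hu : Measurable u)
    (huk : ∀ q, inC k (u q))
    (h0 : ∀ f : K → ℂ, Measurable f → (∃ C : ℝ, ∀ y, ‖f y‖ ≤ C) → ∀ j : ℤ, ¬ (k : ℤ) ∣ j →
      ∫ q, f (Θ q) * u q ^ j ∂ν = 0) (g : G) :
    (ν.map (fun q => mkJ B σ s x₀ (Θ q) (u q))).map (fun x => g • x) =
      ν.map (fun q => mkJ B σ s x₀ (Θ q) (u q)) := by
  have hJ : Measurable fun p : K × ℂ => mkJ B σ s x₀ p.1 p.2 :=
    mkJ_meas hM.Bmeas hM.σmeas hs.meas x₀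
  set L := ν.map (fun q => mkJ B σ s x₀ (Θ q) (u q)) with hL
  have h1 : ∀ᵐ g' ∂lam, L.map (fun x => g' • x) = L := by
    filter_upwards [Measure.ae_ae_of_ae_prod hM.Bcoc] with g' hg'
    exact mkJ_law_one hlam hM hs x₀ hx₀ hΘ hΘμ hu huk h0 g' hg'
  have h2 : ∀ᵐ g' ∂lam, L.map (fun x => (g⁻¹ * g') • x) = L :=
    (measurePreserving_mul_left lam g⁻¹).quasiMeasurePreserving.ae h1
  have : NeBot (ae lam) := ae_neBot.2 hlam
  obtain ⟨g', h3, h4⟩ := (h1.and h2).exists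
  calc L.map (fun x => g • x) = (L.map (fun x => (g⁻¹ * g') • x)).map (fun x => g • x) := by
        rw [h4]
    _ = L.map (fun x => g' • x) := by
        rw [Measure.map_map (measurable_const_smul g) (measurable_const_smul _)]
        congr 1
        funext x
        simp only [Function.comp_apply, ← mul_smul, mul_inv_cancel_left]
    _ = L := h3

end Pool.Agent.HK820

end
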