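import Pool.Agent.Lib_MP_820dd4_hk.MKC

/-!
# Part II, block MKS: the character is onto, measurable choice

Setting: `(Q, ν, S)` ergodic, `Θ : Q → K` with law `μ`, `Θ (S q) = τ • Θ q` a.e., `u : Q → C_k` with
`u (S q) = Φ τ (Θ q) * u q` a.e., and `∫ f(Θ) u^j dν = 0` for all bounded measurable `f` and `k ∤ j`.

* `theta_onto`. For `k = 0`: `θ (w a) = ee 0 a = exp (i a)` is onto the circle (`a = fun _ => arg z`).
  For `k ≠ 0`: let `H = {θ γ}`, a subset of the finite set of `k`-th roots of unity, closed under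
  products, i.e. a finite subgroup of `ℂˣ`; let `j` be its order. Every element satisfies `z^j = 1`
  (Lagrange), there are at most `j` such numbers (`card_nthRoots`/ `rootsOfUnity`), so
  `H = {z | z^j = 1}`. `j` divides `k` (`H` is a subgroup of the group of `k`-th roots of unity,
  which has exactly `k` elements). If `j = k` done. Otherwise `0 < j < k`, so `k ∤ j`. Put
  `v q = (u q * conj (B (σ (Θ q))))^j`. By `mk_transl` for `g₁ = τ`, for a.e. `y` the element `τ σ(y)` is in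
  `A` and `B (τ σ(y)) = Φ τ y * B (σ y)`; `σ (τ y) = τ σ(y) γ` with `γ` in the stabilizer, so
  `B (σ (τ y)) = θ γ Φ τ y B (σ y)`. Hence for a.e. `q`
  `v (S q) = (Φ τ (Θ q) u q conj (θ γ) conj (Φ τ (Θ q)) conj (B (σ (Θ q))))^j = v q` since `(θ γ)^j = 1`.
  By ergodicity `v` is a.e. equal to a constant `c`, `‖c‖ = 1` (Mathlib:
  `Ergodic.ae_eq_const_of_ae_eq_comp...`). So `u^j = c (B (σ (Θ)))^j` a.e. and with
  `f y = conj ((B (σ y))^j)`: `0 = ∫ f(Θ) u^j dν = c`, a contradiction.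
* `exists_sel`: `k = 0`: `s z = w (fun _ => arg z)`. `k ≠ 0`: the set `{z | inC k z}` is finite; choose
  `s z` with `θ (s z) = z` for `z` in this set and `s z = 1` otherwise; a function which is constant
  outside a finite set is measurable.
-/

open MeasureTheory ProbabilityTheory Filter Topology
open scoped ComplexConjugate ENNReal

namespace Pool.Agent.HK820

variable {G K : Type} [Group G] [MeasurableSpace G] [MeasurableMul₂ G] [MeasurableInv G]
  [MeasurableSpace K] [MulAction G K] [MeasurableSMul₂ G K]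

theorem ee_arg {z : ℂ} (hz : ‖z‖ = 1) : ee 0 (fun _ => Complex.arg z) = z := by
  have h := Complex.norm_mul_exp_arg_mul_I z
  rw [hz] at h
  have h1 : (∑ _j : Fin (if (0 : ℕ) = 0 then 1 else 0), Complex.arg z) = Complex.arg z := by
    simp
  rw [ee, h1, mul_comm]
  simpa using h

/-- the transformation of `v` -/
theorem theta_step {lam : Measure G} [SigmaFinite lam] [lam.IsMulLeftInvariant] (hlam : lam ≠ 0)
    {μ : Measure K} [IsProbabilityMeasure μ] {k : ℕ} {Φ : G → K → ℂ} {y₀ : K} {B : G → ℂ}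
    {θ : MulAction.stabilizer G y₀ →* ℂ} {A : Set G} {σ : K → G}
    (hM : MkB lam μ k Φ y₀ B θ A σ) (τ : G) (hτ : ∀ᵐ g ∂lam, B (τ * g) = Φ τ (g • y₀) * B g) :
    ∀ᵐ y ∂μ, ∃ γ, B (σ (τ • y)) = θ γ * (Φ τ y * B (σ y)) := by
  filter_upwards [mk_transl hlam hM τ hτ] with y hy
  obtain ⟨-, h2, h3⟩ := hy (σ y) (hM.σy y)
  have h4 : (τ * σ y)⁻¹ * σ (τ • y) ∈ MulAction.stabilizer G y₀ := by
    rw [MulAction.mem_stabilizer_iff, mul_smul, hM.σy, inv_smul_eq_iff, mul_smul, hM.σy]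
  refine ⟨⟨_, h4⟩, ?_⟩
  have h5 := hM.Bθ _ h2 ⟨_, h4⟩
  rw [← h3, ← h5]
  congr 1
  exact (mul_inv_cancel_left _ _).symm

theorem theta_onto {lam : Measure G} [SigmaFinite lam] [lam.IsMulLeftInvariant] (hlam : lam ≠ 0)
    {μ : Measure K} [IsProbabilityMeasure μ] {k : ℕ} {Φ : G → K → ℂ} {y₀ : K} {B : G → ℂ}
    {θ : MulAction.stabilizer G y₀ →* ℂ} {A : Set G} {σ : K → G}
    (hM : MkB lam μ k Φ y₀ B θ A σ) {w : WW k → G} (hw : ∀ a, w a • y₀ = y₀)
    (hθw : ∀ a, θ ⟨w a, hw a⟩ = ee k a)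
    {Q : Type} [MeasurableSpace Q] [StandardBorelSpace Q] {ν : Measure Q}
    [IsProbabilityMeasure ν] {S : Q ≃ᵐ Q} (hS : Ergodic S ν) {Θ : Q → K} (hΘ : Measurable Θ)
    (hΘμ : ν.map Θ = μ) (τ : G) (hτ : ∀ᵐ g ∂lam, B (τ * g) = Φ τ (g • y₀) * B g)
    (hSΘ : ∀ᵐ q ∂ν, Θ (S q) = τ • Θ q) {u : Q → ℂ} (hu : Measurable u) (huk : ∀ q, inC k (u q))
    (hSu : ∀ᵐ q ∂ν, u (S q) = Φ τ (Θ q) * u q)
    (h0 : ∀ f : K → ℂ, Measurable f → (∃ C : ℝ, ∀ y, ‖f y‖ ≤ C) → ∀ j : ℤ, ¬ (k : ℤ) ∣ j →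
      ∫ q, f (Θ q) * u q ^ j ∂ν = 0) :
    ∀ z, inC k z → ∃ γ, θ γ = z := by
  intro z hz
  rcases eq_or_ne k 0 with rfl | hk
  · exact ⟨⟨w (fun _ => Complex.arg z), hw _⟩, by rw [hθw, ee_arg hz.1]⟩
  have : NeZero k := ⟨hk⟩
  set R : Subgroup ℂˣ := θ.toHomUnits.range with hR
  have hRle : R ≤ rootsOfUnity k ℂ := by
    rintro _ ⟨γ, rfl⟩
    rw [mem_rootsOfUnity]
    ext
    rw [Units.val_pow_eq_pow_val, MonoidHom.coe_toHomUnits]
    exact (hM.θinc γ).2
  have hcard : Nat.card (rootsOfUnity k ℂ) = k := Complex.card_rootsOfUnity k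
  have : Finite (rootsOfUnity k ℂ) := Nat.finite_of_card_ne_zero (by rw [hcard]; exact hk)
  have : Finite R := Finite.of_injective _ (Subgroup.inclusion_injective hRle)
  have hdvd : Nat.card R ∣ k := by
    rw [← hcard]
    exact Subgroup.card_dvd_of_le hRle
  have hjpos : 0 < Nat.card R := Nat.card_pos
  have hle : Nat.card R ≤ k := Nat.le_of_dvd (Nat.pos_of_ne_zero hk) hdvd
  have hpow : ∀ γ, θ γ ^ Nat.card R = 1 := by
    intro γ
    have h1 : (⟨θ.toHomUnits γ, ⟨γ, rfl⟩⟩ : R) ^ Nat.card R = 1 := pow_card_eq_one'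
    have h2 : ((((⟨θ.toHomUnits γ, ⟨γ, rfl⟩⟩ : R) ^ Nat.card R : R) : ℂˣ) : ℂ) = 1 := by
      rw [h1]; rfl
    rw [Subgroup.coe_pow, Units.val_pow_eq_pow_val] at h2
    exact h2
  rcases eq_or_lt_of_le hle with hj | hj
  · have hEq : R = rootsOfUnity k ℂ := by
      apply Subgroup.eq_of_le_of_card_ge hRle
      rw [hcard, hj]
    have hzu : Units.mk0 z (inC_ne_zero hz) ∈ rootsOfUnity k ℂ := by
      rw [mem_rootsOfUnity]
      ext
      rw [Units.val_pow_eq_pow_val, Units.val_mk0]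
      exact hz.2
    rw [← hEq] at hzu
    obtain ⟨γ, hγ⟩ := hzu
    refine ⟨γ, ?_⟩
    have := congrArg (fun r : ℂˣ => (r : ℂ)) hγ
    simpa using this
  · exfalso
    have hndvd : ¬ (k : ℤ) ∣ ((Nat.card R : ℕ) : ℤ) := by
      intro h
      have := Nat.le_of_dvd hjpos (Int.natCast_dvd_natCast.1 h)
      omega
    set j := Nat.card R with hjdef
    have hconj : Continuous (fun z : ℂ => conj z) := Complex.continuous_conj
    have hv : Measurable fun q => (u q * conj (B (σ (Θ q)))) ^ j :=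
      (hu.mul (hconj.measurable.comp (hM.Bmeas.comp (hM.σmeas.comp hΘ)))).pow_const j
    have hae : (fun q => (u q * conj (B (σ (Θ q)))) ^ j) ∘ S =ᵐ[ν]
        fun q => (u q * conj (B (σ (Θ q)))) ^ j := by
      have h1 := theta_step hlam hM τ hτ
      rw [← hΘμ] at h1
      filter_upwards [hSΘ, hSu, ae_of_ae_map hΘ.aemeasurable h1] with q hq1 hq2 hq3
      obtain ⟨γ, hγ⟩ := hq3
      simp only [Function.comp_apply]
      rw [hq1, hq2, hγ, map_mul, map_mul]
      have h2 := inC_mul_conj (hM.Φinc τ (Θ q))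
      have h3 : conj (θ γ) ^ j = 1 := by rw [← map_pow, hpow γ, map_one]
      calc (Φ τ (Θ q) * u q * (conj (θ γ) * (conj (Φ τ (Θ q)) * conj (B (σ (Θ q)))))) ^ j
          = conj (θ γ) ^ j * (Φ τ (Θ q) * conj (Φ τ (Θ q))) ^ j *
            (u q * conj (B (σ (Θ q)))) ^ j := by
            rw [← mul_pow, ← mul_pow]; congr 1; ring
        _ = (u q * conj (B (σ (Θ q)))) ^ j := by rw [h3, h2, one_pow, one_mul, one_mul]
    obtain ⟨c, hc⟩ := hS.ae_eq_const_of_ae_eq_comp_ae hv.aestronglyMeasurable hae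
    have hnorm : ∀ q, ‖(u q * conj (B (σ (Θ q)))) ^ j‖ = 1 := by
      intro q
      rw [norm_pow, norm_mul, (huk q).1, RCLike.norm_conj, (hM.Binc _).1, one_mul, one_pow]
    have hc1 : ‖c‖ = 1 := by
      obtain ⟨q, hq⟩ := hc.exists
      rw [← hnorm q]
      exact congrArg norm hq.symm
    have hint := h0 (fun y => conj (B (σ y)) ^ j)
      ((hconj.measurable.comp (hM.Bmeas.comp hM.σmeas)).pow_const j)
      ⟨1, fun y => by rw [norm_pow, RCLike.norm_conj, (hM.Binc _).1, one_pow]⟩ (j : ℤ) hndvd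
    have h4 : ∫ q, conj (B (σ (Θ q))) ^ j * u q ^ (j : ℤ) ∂ν = c := by
      calc ∫ q, conj (B (σ (Θ q))) ^ j * u q ^ (j : ℤ) ∂ν = ∫ _q, c ∂ν := by
            apply integral_congr_ae
            filter_upwards [hc] with q hq
            rw [Function.const_apply] at hq
            rw [← hq, zpow_natCast, mul_pow, mul_comm]
        _ = c := by simp
    rw [h4] at hint
    rw [hint] at hc1
    simp at hc1

theorem exists_sel {k : ℕ} {w : WW k → G} (hwm : Measurable w) {y₀ : K}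
    (hw : ∀ a, w a • y₀ = y₀) {θ : MulAction.stabilizer G y₀ →* ℂ}
    (hθw : ∀ a, θ ⟨w a, hw a⟩ = ee k a) (honto : ∀ z, inC k z → ∃ γ, θ γ = z) :
    ∃ s : ℂ → G, MkS k y₀ θ s := by
  classical
  rcases eq_or_ne k 0 with rfl | hk
  · refine ⟨fun z => w (fun _ => Complex.arg z),
      hwm.comp (measurable_pi_lambda _ fun _ => Complex.measurable_arg), fun z hz => ?_⟩
    exact ⟨hw _, by rw [hθw, ee_arg hz.1]⟩
  · refine ⟨fun z => if h : inC k z then ((honto z h).choose : G) else 1, ?_, ?_⟩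
    · refine (measurable_const (a := (1 : G))).measurable_of_countable_ne ?_
      refine Set.Countable.mono (s₂ := {z : ℂ | z ^ k = 1}) ?_ ?_
      · intro z hz
        by_contra hzk
        apply hz
        have h1 : ¬ inC k z := fun h => hzk h.2
        simp [h1]
      · apply Set.Finite.countable
        refine Set.Finite.subset (Finset.finite_toSet (Polynomial.nthRoots k (1 : ℂ)).toFinset) ?_
        intro z hz
        simpa [Polynomial.mem_nthRoots (Nat.pos_of_ne_zero hk)] using hz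
    · intro z hz
      have h1 : (if h : inC k z then ((honto z h).choose : G) else 1) =
          ((honto z hz).choose : G) := dif_pos hz
      refine ⟨?_, ?_⟩
      · change (if h : inC k z then ((honto z h).choose : G) else 1) ∈ _
        rw [h1]
        exact (honto z hz).choose.2
      · have h2 := (honto z hz).choose_spec
        convert h2 using 2
        exact Subtype.ext h1

end Pool.Agent.HK820
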