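import Pool.Agent.Lib_MP_820dd4_hk.CE5
import Pool.Agent.Lib_MP_820dd4_hk.CE3
import Pool.Agent.Lib_MP_820dd4_hk.MKB
import Pool.Agent.Lib_MP_820dd4_hk.MKC
import Pool.Agent.Lib_MP_820dd4_hk.MKS
import Pool.Agent.Lib_MP_820dd4_hk.MKL

/-!
# Part II, assembly of the blocks CE and MK
-/

open MeasureTheory ProbabilityTheory Filter Topology
open scoped ComplexConjugate ENNReal

namespace Pool.Agent.HK820

/-- a continuous system of lifts can be made smooth -/
theorem ldata_smooth {d : ND} {Γ : Subgroup (GG d)} {μ : Measure (KK d Γ)} [IsProbabilityMeasure μ]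
    {k : ℕ} {ρ : KK d Γ → ℂ} {F : d.V → KK d Γ → ℂ} {c : d.V → d.V → WW k} {b : d.V → WW k}
    (hL : LData d Γ μ k ρ F c b) :
    ∃ (e : CDat d k) (F' : d.V → KK d Γ → ℂ), LData d Γ μ k ρ F' e.c e.b := by
  obtain ⟨β, hβ, hβ0, hs1, hs2⟩ := smoothing d c b hL.c_cont hL.b_cont hL.coc hL.comp
  have hphi0 : d.phi 0 = 0 := GG.phi_zero d
  let e : CDat d k :=
    { c := fun x y => c x y + β x + β y - β (d.mul x y)
      b := fun h => b h + β h - β (d.phi h)
      c_zero := fun h => by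
        constructor
        · change c 0 h + β 0 + β h - β (d.mul 0 h) = 0
          rw [(hL.c_zero h).1, hβ0, d.zero_mul]
          abel
        · change c h 0 + β h + β 0 - β (d.mul h 0) = 0
          rw [(hL.c_zero h).2, hβ0, d.mul_zero]
          abel
      b_zero := by
        change b 0 + β 0 - β (d.phi 0) = 0
        rw [hL.b_zero, hphi0, hβ0]
        abel
      coc := fun x y z => by
        have h := hL.coc x y z
        have h2 := d.assoc x y z
        change c x y + β x + β y - β (d.mul x y) + (c (d.mul x y) z + β (d.mul x y) + β z -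
          β (d.mul (d.mul x y) z)) = c x (d.mul y z) + β x + β (d.mul y z) -
          β (d.mul x (d.mul y z)) + (c y z + β y + β z - β (d.mul y z))
        rw [h2]
        calc _ = (c x y + c (d.mul x y) z) + (β x + β y + β z - β (d.mul x (d.mul y z))) := by abel
          _ = (c x (d.mul y z) + c y z) + (β x + β y + β z - β (d.mul x (d.mul y z))) := by rw [h]
          _ = _ := by abel
      comp := fun x y => by
        have h := hL.comp x y
        have h2 := d.phi_mul x y
        change b (d.mul x y) + β (d.mul x y) - β (d.phi (d.mul x y)) +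
          (c x y + β x + β y - β (d.mul x y)) = b x + β x - β (d.phi x) +
          (b y + β y - β (d.phi y)) + (c (d.phi x) (d.phi y) + β (d.phi x) + β (d.phi y) -
          β (d.mul (d.phi x) (d.phi y)))
        rw [h2]
        calc _ = (b (d.mul x y) + c x y) + (β x + β y - β (d.mul (d.phi x) (d.phi y))) := by abel
          _ = (b x + b y + c (d.phi x) (d.phi y)) +
              (β x + β y - β (d.mul (d.phi x) (d.phi y))) := by rw [h]
          _ = _ := by abel
      c_smooth := hs1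
      b_smooth := hs2 }
  refine ⟨e, fun h y => ee k (β h) * F h y, ?_⟩
  exact
    { meas := fun h => measurable_const.mul (hL.meas h)
      inc := fun h y => inC_mul (inC_ee k _) (hL.inc h y)
      zero := fun y => by
        change ee k (β 0) * F 0 y = 1
        rw [hβ0, mk_ee_zero, one_mul, hL.zero]
      cont := fun h₀ => by
        have h1 : Tendsto (fun h => ‖ee k (β h) - ee k (β h₀)‖ + ∫ y, ‖F h y - F h₀ y‖ ∂μ)
            (𝓝 h₀) (𝓝 0) := by
          have h2 : Tendsto (fun h => ‖ee k (β h) - ee k (β h₀)‖) (𝓝 h₀) (𝓝 0) := by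
            have h3 : Continuous fun h => ‖ee k (β h) - ee k (β h₀)‖ :=
              (((continuous_ee k).comp hβ).sub continuous_const).norm
            have h4 := h3.tendsto h₀
            simpa using h4
          simpa using h2.add (hL.cont h₀)
        refine squeeze_zero (fun h => integral_nonneg fun y => norm_nonneg _) (fun h => ?_) h1
        have hI : Integrable (fun y => ‖F h y - F h₀ y‖) μ := by
          refine (Integrable.of_bound ((hL.meas h).sub (hL.meas h₀)).aestronglyMeasurable 2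
            (Eventually.of_forall fun y => ?_)).norm
          calc ‖F h y - F h₀ y‖ ≤ ‖F h y‖ + ‖F h₀ y‖ := norm_sub_le _ _
            _ = 2 := by rw [(hL.inc h y).1, (hL.inc h₀ y).1]; norm_num
        calc ∫ y, ‖ee k (β h) * F h y - ee k (β h₀) * F h₀ y‖ ∂μ
            ≤ ∫ y, (‖ee k (β h) - ee k (β h₀)‖ + ‖F h y - F h₀ y‖) ∂μ := by
              refine integral_mono_of_nonneg (Eventually.of_forall fun y => norm_nonneg _)
                ((integrable_const _).add hI) (Eventually.of_forall fun y => ?_)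
              have e1 : ee k (β h) * F h y - ee k (β h₀) * F h₀ y =
                  (ee k (β h) - ee k (β h₀)) * F h y + ee k (β h₀) * (F h y - F h₀ y) := by ring
              calc ‖ee k (β h) * F h y - ee k (β h₀) * F h₀ y‖
                  = ‖(ee k (β h) - ee k (β h₀)) * F h y + ee k (β h₀) * (F h y - F h₀ y)‖ := by
                    rw [e1]
                _ ≤ ‖(ee k (β h) - ee k (β h₀)) * F h y‖ + ‖ee k (β h₀) * (F h y - F h₀ y)‖ :=
                    norm_add_le _ _
                _ = ‖ee k (β h) - ee k (β h₀)‖ + ‖F h y - F h₀ y‖ := by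
                    rw [norm_mul, norm_mul, (hL.inc h y).1, norm_ee, mul_one, one_mul]
          _ = ‖ee k (β h) - ee k (β h₀)‖ + ∫ y, ‖F h y - F h₀ y‖ ∂μ := by
              rw [integral_add (integrable_const _) hI]
              simp
      mulr := fun h h' => by
        filter_upwards [hL.mulr h h'] with y hy
        have e1 : ee k (e.c h h') * ee k (β (d.mul h h')) =
            ee k (c h h') * ee k (β h) * ee k (β h') := by
          rw [← mk_ee_add, ← mk_ee_add, ← mk_ee_add]
          congr 1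
          change c h h' + β h + β h' - β (d.mul h h') + β (d.mul h h') = _
          abel
        calc ee k (β h) * F h (GG.emb d h' • y) * (ee k (β h') * F h' y)
            = ee k (β h) * ee k (β h') * (F h (GG.emb d h' • y) * F h' y) := by ring
          _ = ee k (β h) * ee k (β h') * (ee k (c h h') * F (d.mul h h') y) := by rw [hy]
          _ = (ee k (c h h') * ee k (β h) * ee k (β h')) * F (d.mul h h') y := by ring
          _ = ee k (e.c h h') * (ee k (β (d.mul h h')) * F (d.mul h h') y) := by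
              rw [← e1]
              ring
      tw := fun h => by
        filter_upwards [hL.tw h] with y hy
        have e1 : ee k (e.b h) * ee k (β (d.phi h)) = ee k (b h) * ee k (β h) := by
          rw [← mk_ee_add, ← mk_ee_add]
          congr 1
          change b h + β h - β (d.phi h) + β (d.phi h) = _
          abel
        calc ρ (GG.emb d h • y) * (ee k (β h) * F h y)
            = ee k (β h) * (ρ (GG.emb d h • y) * F h y) := by ring
          _ = ee k (β h) * (ee k (b h) * F (d.phi h) (GG.tau d • y) * ρ y) := by rw [hy]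
          _ = (ee k (b h) * ee k (β h)) * F (d.phi h) (GG.tau d • y) * ρ y := by ring
          _ = ee k (e.b h) * (ee k (β (d.phi h)) * F (d.phi h) (GG.tau d • y)) * ρ y := by
              rw [← e1]
              ring
      c_zero := e.c_zero
      b_zero := e.b_zero
      coc := e.coc
      comp := e.comp
      c_cont := e.c_smooth.continuous
      b_cont := e.b_smooth.continuous }

/-- Conditional expectations of powers vanish, so do the integrals against functions of `Θ`. -/
theorem int_zero_of_condExp {Q K : Type} [MeasurableSpace Q] [MeasurableSpace K] {ν : Measure Q}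
    [IsProbabilityMeasure ν] {Θ : Q → K} (hΘ : Measurable Θ) {v : Q → ℂ} (hv : Measurable v)
    (hv1 : ∀ q, ‖v q‖ ≤ 1) (h : ν[v | MeasurableSpace.comap Θ inferInstance] =ᵐ[ν] 0)
    (f : K → ℂ) (hf : Measurable f) (hfC : ∃ C : ℝ, ∀ y, ‖f y‖ ≤ C) :
    ∫ q, f (Θ q) * v q ∂ν = 0 := by
  have hle : MeasurableSpace.comap Θ inferInstance ≤ (inferInstance : MeasurableSpace Q) :=
    hΘ.comap_le
  have hvb : BM v := ⟨hv, 1, hv1⟩
  refine (condExp_eq_zero_iff _ ν hle hvb).1 h _ ⟨hf.comp (comap_measurable Θ), ?_⟩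
  obtain ⟨C, hC⟩ := hfC
  exact ⟨C, fun q => hC (Θ q)⟩

/-- **The Mackey step** (blocks CE and MK). -/
theorem mackey_step {Q : Type} [MeasurableSpace Q] [StandardBorelSpace Q] {ν : Measure Q}
    [IsProbabilityMeasure ν] {S : Q ≃ᵐ Q} (hS : Ergodic S ν) {s : ℕ} {d : ND}
    {Γ : Subgroup (GG d)} {Θ : Q → KK d Γ} (hM : Model d Γ ν S s Θ) {k : ℕ} {ρ : KK d Γ → ℂ}
    {F : d.V → KK d Γ → ℂ} {c : d.V → d.V → WW k} {b : d.V → WW k} (hρ : Measurable ρ)
    (hρk : ∀ y, inC k (ρ y)) (hL : LData d Γ (ν.map Θ) k ρ F c b) {u : Q → ℂ}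
    (hu : Measurable u) (huk : ∀ q, inC k (u q)) (hSu : ∀ᵐ q ∂ν, u (S q) = ρ (Θ q) * u q)
    (hord : AEM (Zalg ν S s) ν u)
    (hE : ∀ j : ℤ, ¬ (k : ℤ) ∣ j →
      ν[fun q => u q ^ j | MeasurableSpace.comap Θ inferInstance] =ᵐ[ν] 0) :
    ∃ (d2 : ND) (Γ2 : Subgroup (GG d2)) (Θ2 : Q → KK d2 Γ2), Model d2 Γ2 ν S s Θ2 ∧
      MeasurableSpace.comap Θ inferInstance ≤ cl (MeasurableSpace.comap Θ2 inferInstance) ν ∧
      MeasurableSpace.comap u inferInstance ≤ cl (MeasurableSpace.comap Θ2 inferInstance) ν := by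
  have hμp : IsProbabilityMeasure (ν.map Θ) := Measure.isProbabilityMeasure_map hM.meas.aemeasurable
  obtain ⟨e, F', hL'⟩ := ldata_smooth hL
  obtain ⟨Φ, Φ1, Φ2, Φ3, Φ4, Φ5⟩ := exists_cocycle e Γ (ν.map Θ) hM.inv ρ hρ hρk F' hL'
  -- the action of the extended group on `K`
  let act : MulAction (GG e.ext) (KK d Γ) := MulAction.compHom (KK d Γ) e.pr
  have act_def : ∀ (g : GG e.ext) (y : KK d Γ), g • y = e.pr g • y := fun _ _ => rfl
  have actm : MeasurableSMul₂ (GG e.ext) (KK d Γ) := ⟨by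
    have h1 : Measurable fun p : GG e.ext × KK d Γ => (e.pr p.1, p.2) :=
      (e.continuous_pr.measurable.comp measurable_fst).prodMk measurable_snd
    exact (MeasurableSMul₂.measurable_smul (M := GG d) (α := KK d Γ)).comp h1⟩
  have hinv : ∀ g : GG e.ext, (ν.map Θ).map (fun y => g • y) = ν.map Θ := fun g => hM.inv (e.pr g)
  have hD : MkC (ν.map Θ) k e.emW Φ :=
    { meas := Φ1
      inc := Φ2
      coc := Φ3
      wmeas := e.continuous_emW.measurable
      wcomm := e.emW_comm
      wact := fun a y => by rw [act_def, e.pr_emW, one_smul]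
      wΦ := Φ4
      inv := hinv }
  let lam : Measure (GG e.ext) := Measure.haar
  have hlam : lam ≠ 0 := NeZero.ne lam
  obtain ⟨y₀, hy1, hy2⟩ := exists_base lam (ν.map Θ) hD (GG.tau e.ext)
  let B : GG e.ext → ℂ := fun g => Φ g y₀
  have hB : Measurable B := Φ1.comp (measurable_id.prodMk measurable_const)
  have hBk : ∀ g, inC k (B g) := fun g => Φ2 g y₀
  obtain ⟨θ, hθ1, hθ2⟩ := exists_theta lam hlam Φ2 y₀ hB hBk hy1
  have hst := stabilizer_disc d Γ hM.disc hM.cocpt y₀
  have hcnt : Countable (MulAction.stabilizer (GG d) y₀) :=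
    countable_of_discrete d _ hst.1
  have hwact : ∀ a, e.emW a • y₀ = y₀ := fun a => hD.wact a y₀
  have hC' : ∀ γ ∈ MulAction.stabilizer (GG e.ext) y₀,
      ∃ c ∈ e.sec '' (MulAction.stabilizer (GG d) y₀ : Set (GG d)), ∃ a, γ = e.emW a * c := by
    intro γ hγ
    exact ⟨e.sec (e.pr γ), ⟨e.pr γ, hγ, rfl⟩, γ.1.2, e.eq_emW_mul_sec γ⟩
  obtain ⟨hθw, A, hA1, hA2, hA3, hA4⟩ := exists_good lam hlam y₀ e.emW_comm hwact hB hBk
    (fun a g => Φ4 a g y₀) θ hθ2 _ ((Set.to_countable _).image _) hC'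
  -- the section
  obtain ⟨σ₀, hσ₀, hσ₀'⟩ := exists_section d Γ hM.disc hM.cocpt
  obtain ⟨g₀, hg₀⟩ := kk_proj_surjective d Γ y₀
  let σ : KK d Γ → GG e.ext := fun y => e.sec (σ₀ y * g₀⁻¹)
  have hσ : Measurable σ := e.continuous_sec.measurable.comp (hσ₀.mul_const _)
  have hσy : ∀ y, σ y • y₀ = y := by
    intro y
    rw [act_def]
    change e.pr (e.sec (σ₀ y * g₀⁻¹)) • y₀ = y
    rw [e.pr_sec, ← hg₀, kk_smul_proj, inv_mul_cancel_right, hσ₀']
  have hMB : MkB lam (ν.map Θ) k Φ y₀ B θ A σ :=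
    { Φmeas := Φ1
      Φinc := Φ2
      μinv := hinv
      Bmeas := hB
      Binc := hBk
      Bcoc := hy1
      θinc := hθ1
      Ameas := hA1
      Anull := hA2
      Ainv := hA3
      Bθ := hA4
      σmeas := hσ
      σy := hσy }
  have h0 : ∀ f : KK d Γ → ℂ, Measurable f → (∃ C : ℝ, ∀ y, ‖f y‖ ≤ C) → ∀ j : ℤ,
      ¬ (k : ℤ) ∣ j → ∫ q, f (Θ q) * u q ^ j ∂ν = 0 := by
    intro f hf hfC j hj
    refine int_zero_of_condExp hM.meas (hu.pow_const j) (fun q => ?_) (hE j hj) f hf hfC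
    rw [norm_zpow, (huk q).1, one_zpow]
  have hρΦ : ∀ᵐ q ∂ν, Φ (GG.tau e.ext) (Θ q) = ρ (Θ q) :=
    ae_of_ae_map hM.meas.aemeasurable Φ5
  have hSΘ : ∀ᵐ q ∂ν, Θ (S q) = GG.tau e.ext • Θ q := hM.eqv
  have hSu' : ∀ᵐ q ∂ν, u (S q) = Φ (GG.tau e.ext) (Θ q) * u q := by
    filter_upwards [hSu, hρΦ] with q hq1 hq2
    rw [hq1, hq2]
  have honto := theta_onto hlam hMB hwact hθw hS hM.meas rfl (GG.tau e.ext) hy2 hSΘ hu huk hSu' h0
  obtain ⟨sel, hsel⟩ := exists_sel e.continuous_emW.measurable hwact hθw honto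
  -- the lattice
  let L : Subgroup (GG e.ext) := (MonoidHom.ker θ).map (Subgroup.subtype _)
  have hL2 : ∀ g, g ∈ L ↔ ∃ h : g ∈ MulAction.stabilizer (GG e.ext) y₀, θ ⟨g, h⟩ = 1 := by
    intro g
    constructor
    · rintro ⟨γ, hγ, rfl⟩
      exact ⟨γ.2, hγ⟩
    · rintro ⟨h, hg⟩
      exact ⟨⟨g, h⟩, hg, rfl⟩
  obtain ⟨hLd, hLc⟩ := lattice_ext e Γ hM.disc hM.cocpt y₀ (MulAction.stabilizer (GG e.ext) y₀)
    (fun g => Iff.rfl) θ hθ1 (fun a h => hθw a) L hL2
  let x₀ : KK e.ext L := KK.proj e.ext L 1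
  have hx₀ : ∀ γ : GG e.ext, γ • x₀ = x₀ ↔
      ∃ h : γ ∈ MulAction.stabilizer (GG e.ext) y₀, θ ⟨γ, h⟩ = 1 := by
    intro γ
    rw [← hL2, kk_smul_proj, mul_one, eq_comm, kk_proj_eq, inv_one, one_mul]
  obtain ⟨σ₂, hσ₂, hσ₂'⟩ := exists_section e.ext L hLd hLc
  have hσ₂x : ∀ x, σ₂ x • x₀ = x := by
    intro x
    rw [kk_smul_proj, mul_one, hσ₂']
  let J : KK d Γ × ℂ → KK e.ext L := fun p => mkJ B σ sel x₀ p.1 p.2
  have hJ : Measurable J := mkJ_meas hB hσ hsel.meas x₀
  let Θ2 : Q → KK e.ext L := fun q => mkJ B σ sel x₀ (Θ q) (u q)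
  have hΘ2 : Measurable Θ2 := hJ.comp (hM.meas.prodMk hu)
  have hequiv := mkJ_equiv hlam hMB hsel x₀ hx₀ (GG.tau e.ext) hy2
  have hfst : ∀ q, σ₂ (Θ2 q) • y₀ = Θ q := fun q =>
    mkJ_fst hMB hsel x₀ hx₀ σ₂ hσ₂ hσ₂x (Θ q) (u q) (huk q)
  have hsnd : ∀ᵐ q ∂ν, B (σ₂ (Θ2 q)) = u q := by
    have h1 := mkJ_snd hlam hMB hsel x₀ hx₀ σ₂ hσ₂ hσ₂x
    filter_upwards [ae_of_ae_map hM.meas.aemeasurable h1] with q hq
    exact hq (u q) (huk q)
  have hclle : ∀ t, MeasurableSet[MeasurableSpace.comap Θ2 inferInstance] t →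
      MeasurableSet[cl (MeasurableSpace.comap Θ2 inferInstance) ν] t := fun t ht =>
    ⟨hΘ2.comap_le t ht, t, ht, Filter.EventuallyEq.rfl⟩
  refine ⟨e.ext, L, Θ2, ?_, ?_, ?_⟩
  · exact
      { disc := hLd
        cocpt := hLc
        nilp := e.ext_nilpotent hM.nilp
        curves := e.ext_hasCurves hM.curves
        meas := hΘ2
        eqv := by
          filter_upwards [hSΘ, hSu', ae_of_ae_map hM.meas.aemeasurable hequiv] with q q1 q2 q3
          change mkJ B σ sel x₀ (Θ (S q)) (u (S q)) = _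
          rw [q1, q2]
          exact (q3 (u q) (huk q)).symm
        inv := fun g => mkJ_law hlam hMB hsel x₀ hx₀ hM.meas rfl hu huk h0 g
        ord := by
          have m1 : Measurable[Zalg ν S s] Θ := measurable_iff_comap_le.2 hM.ord
          have m2 : Measurable[Zalg ν S s] u := Zalg_meas hu hord
          have m3 : Measurable[Zalg ν S s] (fun q => (Θ q, u q)) :=
            @Measurable.prodMk _ (Zalg ν S s) _ _ _ _ _ _ m1 m2
          exact measurable_iff_comap_le.1 (hJ.comp m3) }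
  · rintro t ⟨t', ht', rfl⟩
    refine hclle _ ⟨(fun x => σ₂ x • y₀) ⁻¹' t', ?_, ?_⟩
    · exact (hσ₂.smul_const y₀) ht'
    · ext q
      change σ₂ (Θ2 q) • y₀ ∈ t' ↔ Θ q ∈ t'
      rw [hfst q]
  · rintro t ⟨t', ht', rfl⟩
    refine ⟨hu ht', Θ2 ⁻¹' ((fun x => B (σ₂ x)) ⁻¹' t'), ⟨_, (hB.comp hσ₂) ht', rfl⟩, ?_⟩
    filter_upwards [hsnd] with q hq
    change (u q ∈ t') = (B (σ₂ (Θ2 q)) ∈ t')
    rw [hq]

end Pool.Agent.HK820
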