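import Pool.Agent.Lib_MP_820dd4_hk.CE3A
import Pool.Agent.Lib_MP_820dd4_hk.FA

/-! ### Part `Defs4` -/

section

open MeasureTheory ProbabilityTheory Filter Topology
open scoped ComplexConjugate ENNReal

namespace Pool.Agent.HK820

namespace GG

variable (d : ND)

theorem cont_phi_zpow (a : ℤ) : Continuous ((d.phi ^ a : Equiv.Perm d.V) : d.V → d.V) := by
  have h1 : ∀ n : ℕ, Continuous ((d.phi ^ n : Equiv.Perm d.V) : d.V → d.V) := by
    intro n
    induction n with
    | zero => simpa using continuous_id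
    | succ n ih =>
      rw [pow_succ]
      exact ih.comp d.smooth_phi.continuous
  have h2 : ∀ n : ℕ, Continuous (((d.phi ^ n)⁻¹ : Equiv.Perm d.V) : d.V → d.V) := by
    intro n
    induction n with
    | zero => simpa using continuous_id
    | succ n ih =>
      rw [pow_succ, mul_inv_rev]
      exact (show Continuous ((d.phi⁻¹ : Equiv.Perm d.V) : d.V → d.V) from
        d.smooth_phi'.continuous).comp ih
  obtain ⟨n, rfl | rfl⟩ := a.eq_nat_or_neg
  · rw [zpow_natCast]; exact h1 n
  · rw [zpow_neg, zpow_natCast]; exact h2 n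

instance : ContinuousMul (GG d) where
  continuous_mul := by
    change Continuous (fun p : (d.V × ℤ) × (d.V × ℤ) =>
      ((d.mul p.1.1 ((d.phi ^ p.1.2 : Equiv.Perm d.V) p.2.1), p.1.2 + p.2.2) : d.V × ℤ))
    refine Continuous.prodMk ?_ ((continuous_snd.comp continuous_fst).add
      (continuous_snd.comp continuous_snd))
    have h : Continuous (fun q : (d.V × d.V) × ℤ =>
        d.mul q.1.1 ((d.phi ^ q.2 : Equiv.Perm d.V) q.1.2)) := by
      rw [continuous_prod_of_discrete_right]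
      intro a
      exact d.smooth_mul.continuous.comp (continuous_fst.prodMk
        ((cont_phi_zpow d a).comp continuous_snd))
    exact h.comp (((continuous_fst.comp continuous_fst).prodMk
      (continuous_fst.comp continuous_snd)).prodMk (continuous_snd.comp continuous_fst))

instance : ContinuousInv (GG d) where
  continuous_inv := by
    change Continuous (fun p : d.V × ℤ =>
      (((d.phi ^ (-p.2) : Equiv.Perm d.V) (d.inv p.1), -p.2) : d.V × ℤ))
    refine Continuous.prodMk ?_ continuous_snd.neg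
    rw [continuous_prod_of_discrete_right]
    intro a
    exact (cont_phi_zpow d (-a)).comp d.smooth_inv.continuous

instance : IsTopologicalGroup (GG d) where

end GG

namespace KK

variable (d : ND) (Γ : Subgroup (GG d))

instance : ContinuousSMul (GG d) (KK d Γ) := inferInstanceAs (ContinuousSMul (GG d) (GG d ⧸ Γ))

instance : SecondCountableTopology (KK d Γ) :=
  inferInstanceAs (SecondCountableTopology (GG d ⧸ Γ))

/-- the translation by `g` -/
noncomputable def act (g : GG d) : KK d Γ ≃ᵐ KK d Γ :=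
  (Homeomorph.smul g : KK d Γ ≃ₜ KK d Γ).toMeasurableEquiv

theorem act_apply (g : GG d) (y : KK d Γ) : act d Γ g y = g • y := rfl

/-- the translation by `tau` -/
noncomputable abbrev tauE : KK d Γ ≃ᵐ KK d Γ := act d Γ (GG.tau d)

end KK

end Pool.Agent.HK820

end

/-! ### Part `OE` -/

section

open MeasureTheory ProbabilityTheory Filter Topology
open scoped ComplexConjugate ENNReal

namespace Pool.Agent.HK820

/-- **OD2.** `KK d Γ` is standard Borel. -/
theorem kk_std (d : ND) (Γ : Subgroup (GG d)) (hd : DiscreteTopology Γ)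
    (hc : CompactSpace (KK d Γ)) : StandardBorelSpace (KK d Γ) := by
  have hT : T2Space (KK d Γ) := kk_t2 d Γ hd
  let _ : MetricSpace (KK d Γ) := TopologicalSpace.metrizableSpaceMetric (KK d Γ)
  have : CompleteSpace (KK d Γ) := complete_of_compact
  have : PolishSpace (KK d Γ) := inferInstance
  infer_instance

end Pool.Agent.HK820

end

/-! ### Part `OF` -/

section

open MeasureTheory ProbabilityTheory Filter Topology
open scoped ComplexConjugate ENNReal

namespace Pool.Agent.HK820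

open scoped commutatorElement

theorem of_joined {G : Type*} [Group G] [TopologicalSpace G] [IsTopologicalGroup G]
    (H : Subgroup G) (T : Set G) (hT : ∀ x ∈ T, JoinedIn (H : Set G) 1 x) {c : G}
    (hc : c ∈ Subgroup.closure T) : JoinedIn (H : Set G) 1 c := by
  induction hc using Subgroup.closure_induction with
  | mem x hx => exact hT x hx
  | one => exact JoinedIn.refl H.one_mem
  | mul x y _ _ hx hy =>
    have h1 := JoinedIn.mul hx hy
    rw [one_mul] at h1
    refine h1.mono ?_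
    rintro _ ⟨a, ha, b, hb, rfl⟩
    exact H.mul_mem ha hb
  | inv x _ hx =>
    have h1 := JoinedIn.inv hx
    rw [inv_one] at h1
    refine h1.mono ?_
    intro a ha
    exact H.inv_mem_iff.1 ha

/-- the homomorphism to the integers -/
theorem of_snd_mul {d : ND} (g h : GG d) : (g * h).2 = g.2 + h.2 := rfl

theorem of_snd_inv {d : ND} (g : GG d) : (g⁻¹).2 = -g.2 := rfl

theorem of_line {d : ND} (g : GG d) :
    Continuous (fun t : ℝ => GG.mk d ((1 - t) • g.1) g.2) := by
  have h1 : Continuous (fun t : ℝ => (((1 - t) • g.1, g.2) : d.V × ℤ)) :=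
    ((continuous_const.sub continuous_id).smul continuous_const).prodMk continuous_const
  exact h1

theorem of_comm_int {d : ND} (a b : ℤ) :
    GG.mk d 0 a * GG.mk d 0 b = GG.mk d 0 b * GG.mk d 0 a := by
  have h0 : ∀ n : ℤ, (d.phi ^ n : Equiv.Perm d.V) 0 = 0 := by
    intro n
    have h1 : d.mul ((d.phi ^ n : Equiv.Perm d.V) 0) ((d.phi ^ n : Equiv.Perm d.V) 0) =
        d.mul ((d.phi ^ n : Equiv.Perm d.V) 0) 0 := by
      rw [← GG.pow_mul, d.zero_mul, d.mul_zero]
    have h2 := congrArg (d.mul (d.inv ((d.phi ^ n : Equiv.Perm d.V) 0))) h1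
    rwa [← d.assoc, ← d.assoc, d.inv_mul, d.zero_mul, d.zero_mul] at h2
  rw [GG.mul_def, GG.mul_def]
  refine Prod.ext ?_ (add_comm _ _)
  show d.mul 0 ((d.phi ^ a : Equiv.Perm d.V) 0) = d.mul 0 ((d.phi ^ b : Equiv.Perm d.V) 0)
  rw [h0, h0]

theorem of_path1 {d : ND} (g h : GG d) :
    JoinedIn ((⊤ : Subgroup (GG d)).lowerCentralSeries 1 : Set (GG d)) 1 ⁅g, h⁆ := by
  refine JoinedIn.symm ?_
  obtain ⟨p, hp⟩ : ∃ p : ℝ → GG d, p = fun t : ℝ => GG.mk d ((1 - t) • g.1) g.2 := ⟨_, rfl⟩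
  obtain ⟨q, hq⟩ : ∃ q : ℝ → GG d, q = fun t : ℝ => GG.mk d ((1 - t) • h.1) h.2 := ⟨_, rfl⟩
  have hpc : Continuous p := hp ▸ of_line g
  have hqc : Continuous q := hq ▸ of_line h
  have hp0 : p 0 = g := by
    rw [hp]
    refine Prod.ext ?_ rfl
    show (1 - 0 : ℝ) • g.1 = g.1
    rw [sub_zero, one_smul]
  have hq0 : q 0 = h := by
    rw [hq]
    refine Prod.ext ?_ rfl
    show (1 - 0 : ℝ) • h.1 = h.1
    rw [sub_zero, one_smul]
  have hp1 : p 1 = GG.mk d 0 g.2 := by
    rw [hp]
    exact Prod.ext (by simp) rfl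
  have hq1 : q 1 = GG.mk d 0 h.2 := by
    rw [hq]
    exact Prod.ext (by simp) rfl
  have hc : Continuous (fun t : ℝ => p t * q t * (p t)⁻¹ * (q t)⁻¹) :=
    ((hpc.mul hqc).mul hpc.inv).mul hqc.inv
  refine JoinedIn.ofLine (f := fun t : ℝ => p t * q t * (p t)⁻¹ * (q t)⁻¹) hc.continuousOn ?_ ?_ ?_
  · show p 0 * q 0 * (p 0)⁻¹ * (q 0)⁻¹ = ⁅g, h⁆
    rw [hp0, hq0, commutatorElement_def]
  · show p 1 * q 1 * (p 1)⁻¹ * (q 1)⁻¹ = 1
    rw [hp1, hq1, of_comm_int]
    group
  · rintro _ ⟨t, _, rfl⟩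
    show p t * q t * (p t)⁻¹ * (q t)⁻¹ ∈ (⊤ : Subgroup (GG d)).lowerCentralSeries 1
    rw [Subgroup.lowerCentralSeries_succ, Subgroup.lowerCentralSeries_zero,
      ← commutatorElement_def]
    exact Subgroup.commutator_mem_commutator (Subgroup.mem_top _) (Subgroup.mem_top _)

theorem of_pathn {d : ND} (n : ℕ) : ∀ c ∈ (⊤ : Subgroup (GG d)).lowerCentralSeries (n + 1),
    JoinedIn ((⊤ : Subgroup (GG d)).lowerCentralSeries (n + 1) : Set (GG d)) 1 c := by
  induction n with
  | zero =>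
    intro c hc
    rw [Subgroup.mem_lowerCentralSeries_succ_iff] at hc
    refine of_joined _ _ ?_ hc
    rintro _ ⟨p, _, q, _, rfl⟩
    exact of_path1 p q
  | succ n ih =>
    intro c hc
    rw [Subgroup.mem_lowerCentralSeries_succ_iff] at hc
    refine of_joined _ _ ?_ hc
    rintro _ ⟨p, hp, q, _, rfl⟩
    have hcont : Continuous (fun x : GG d => x * q * x⁻¹ * q⁻¹) :=
      ((continuous_id.mul continuous_const).mul continuous_id.inv).mul continuous_const
    have h1 := (ih p hp).map hcont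
    have h2 : (1 : GG d) * q * 1⁻¹ * q⁻¹ = 1 := by group
    rw [h2, ← commutatorElement_def] at h1
    refine h1.mono ?_
    rintro _ ⟨x, hx, rfl⟩
    show x * q * x⁻¹ * q⁻¹ ∈ (⊤ : Subgroup (GG d)).lowerCentralSeries (n + 1 + 1)
    rw [Subgroup.lowerCentralSeries_succ, ← commutatorElement_def]
    exact Subgroup.commutator_mem_commutator hx (Subgroup.mem_top _)

/-- **OD3.** Path connectedness of the subgroups in the chain. `chain 1` is homeomorphic to the vector
space `V`. For `j ≥ 1`, `chain (j + 1) = [G, G_j]`, `G_1 = G`, `G_j = lowerCentralSeries (j - 1)`: every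
commutator `[g, h]`, `g ∈ G`, `h ∈ G_j`, is joined to `1` inside `chain (j + 1)` (for `j = 1` move the
`V`-parts of `g` and `h` to `0`: `[τ^a, τ^b] = 1`; for `j ≥ 2` move `h` to `1` inside `G_j`), and the set
of elements joined to `1` inside the subgroup is a subgroup. -/
theorem chain_path (d : ND) (j : ℕ) (hj : 1 ≤ j) : ∀ c ∈ GG.chain d j,
    JoinedIn (GG.chain d j : Set (GG d)) 1 c := by
  intro c hc
  rcases j with _ | _ | n
  · omega
  · refine JoinedIn.symm (JoinedIn.ofLine (f := fun t : ℝ => GG.mk d ((1 - t) • c.1) c.2)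
      (of_line c).continuousOn ?_ ?_ ?_)
    · refine Prod.ext ?_ rfl
      show (1 - 0 : ℝ) • c.1 = c.1
      rw [sub_zero, one_smul]
    · have h1 : c.2 = 0 := hc
      refine Prod.ext ?_ h1
      show (1 - 1 : ℝ) • c.1 = 0
      rw [sub_self, zero_smul]
    · rintro _ ⟨t, _, rfl⟩
      exact hc
  · exact of_pathn n c hc

theorem of_comm_iff {G : Type*} [Group G] (N : Subgroup G) [N.Normal] (g h : G) :
    g * h * g⁻¹ * h⁻¹ ∈ N ↔ Commute (g : G ⧸ N) (h : G ⧸ N) := by
  rw [← commutatorElement_eq_one_iff_commute, ← QuotientGroup.eq_one_iff]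
  rfl

/-- the elements which commute with `b` modulo `N` -/
def ofC {G : Type*} [Group G] (N : Subgroup G) [N.Normal] (b : G) : Subgroup G where
  carrier := {g | Commute (g : G ⧸ N) (b : G ⧸ N)}
  one_mem' := Commute.one_left _
  mul_mem' := fun {x y} hx hy => by
    show Commute ((x * y : G) : G ⧸ N) (b : G ⧸ N)
    rw [QuotientGroup.mk_mul]
    exact Commute.mul_left hx hy
  inv_mem' := fun {x} hx => by
    show Commute ((x⁻¹ : G) : G ⧸ N) (b : G ⧸ N)
    rw [QuotientGroup.mk_inv]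
    exact Commute.inv_left hx

theorem mem_ofC {G : Type*} [Group G] (N : Subgroup G) [N.Normal] (b g : G) :
    g ∈ ofC N b ↔ g * b * g⁻¹ * b⁻¹ ∈ N := (of_comm_iff N g b).symm

theorem of_gen_aux {G : Type*} [Group G] (V : Subgroup G) [hV : V.Normal] (τ : G) (B : Subgroup G)
    [hB : B.Normal] (hgen : ∀ K : Subgroup G, V ≤ K → τ ∈ K → K = ⊤) (H : Subgroup G)
    (hH : ∀ g : G, (g ∈ V ∨ g = τ) → ∀ b ∈ B, g * b * g⁻¹ * b⁻¹ ∈ H) :
    ∃ N : Subgroup G, N.Normal ∧ N ≤ H ∧ ∀ g : G, ∀ b ∈ B, g * b * g⁻¹ * b⁻¹ ∈ N := by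
  obtain ⟨T, hT⟩ : ∃ T : Set G, T = {x | ∃ g, (g ∈ V ∨ g = τ) ∧ ∃ b ∈ B, g * b * g⁻¹ * b⁻¹ = x} :=
    ⟨_, rfl⟩
  have hmem : ∀ g, (g ∈ V ∨ g = τ) → ∀ b ∈ B, g * b * g⁻¹ * b⁻¹ ∈ Subgroup.closure T := by
    intro g hg b hb
    refine Subgroup.subset_closure ?_
    rw [hT]
    exact ⟨g, hg, b, hb, rfl⟩
  have hconj : ∀ x : G, (∀ g, (g ∈ V ∨ g = τ) → ∀ b ∈ B,
      x * (g * b * g⁻¹ * b⁻¹) * x⁻¹ ∈ Subgroup.closure T) →
      ∀ n ∈ Subgroup.closure T, x * n * x⁻¹ ∈ Subgroup.closure T := by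
    intro x hx n hn
    induction hn using Subgroup.closure_induction with
    | mem y hy =>
      rw [hT] at hy
      obtain ⟨g, hg, b, hb, rfl⟩ := hy
      exact hx g hg b hb
    | one =>
      rw [mul_one, mul_inv_cancel]
      exact Subgroup.one_mem _
    | mul y z _ _ hy hz =>
      have h1 : x * (y * z) * x⁻¹ = (x * y * x⁻¹) * (x * z * x⁻¹) := by group
      rw [h1]
      exact Subgroup.mul_mem _ hy hz
    | inv y _ hy =>
      have h1 : x * y⁻¹ * x⁻¹ = (x * y * x⁻¹)⁻¹ := by group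
      rw [h1]
      exact Subgroup.inv_mem _ hy
  have hc1 : ∀ (x g b : G), x * (g * b * g⁻¹ * b⁻¹) * x⁻¹ =
      (x * g * x⁻¹) * (x * b * x⁻¹) * (x * g * x⁻¹)⁻¹ * (x * b * x⁻¹)⁻¹ := by
    intro x g b
    group
  have hτ1 : ∀ n ∈ Subgroup.closure T, τ * n * τ⁻¹ ∈ Subgroup.closure T := by
    refine hconj τ fun g hg b hb => ?_
    rw [hc1]
    refine hmem _ ?_ _ (hB.conj_mem b hb τ)
    rcases hg with hg | rfl
    · exact Or.inl (hV.conj_mem g hg τ)
    · right
      group
  have hτ2 : ∀ n ∈ Subgroup.closure T, τ⁻¹ * n * τ ∈ Subgroup.closure T := by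
    have h1 := hconj τ⁻¹ (fun g hg b hb => by
      rw [hc1]
      refine hmem _ ?_ _ (hB.conj_mem b hb τ⁻¹)
      rcases hg with hg | rfl
      · exact Or.inl (hV.conj_mem g hg τ⁻¹)
      · right
        group)
    rw [inv_inv] at h1
    exact h1
  have hu : ∀ u ∈ V, ∀ n ∈ Subgroup.closure T, u * n * u⁻¹ ∈ Subgroup.closure T := by
    intro u hu
    refine hconj u fun g hg b hb => ?_
    have hb' := hB.conj_mem b hb u
    rcases hg with hg | rfl
    · rw [hc1]
      exact hmem _ (Or.inl (hV.conj_mem g hg u)) _ hb'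
    · obtain ⟨v, hv⟩ : ∃ v, v = g⁻¹ * u * g * u⁻¹ := ⟨_, rfl⟩
      have hvV : v ∈ V := by
        rw [hv]
        have h1 := hV.conj_mem u hu g⁻¹
        rw [inv_inv] at h1
        exact V.mul_mem h1 (V.inv_mem hu)
      obtain ⟨b', hb'e⟩ : ∃ b', b' = u * b * u⁻¹ := ⟨_, rfl⟩
      rw [← hb'e] at hb'
      have h1 : u * (g * b * g⁻¹ * b⁻¹) * u⁻¹ =
          (g * (v * b' * v⁻¹ * b'⁻¹) * g⁻¹) * (g * b' * g⁻¹ * b'⁻¹) := by
        rw [hv, hb'e]
        group
      rw [h1]
      exact Subgroup.mul_mem _ (hτ1 _ (hmem v (Or.inl hvV) b' hb')) (hmem g (Or.inr rfl) b' hb')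
  have hnorm : Subgroup.normalizer (Subgroup.closure T : Set G) = ⊤ := by
    refine hgen _ ?_ ?_
    · intro u huV
      rw [Subgroup.mem_normalizer_iff]
      intro n
      refine ⟨hu u huV n, fun h => ?_⟩
      have h1 := hu u⁻¹ (V.inv_mem huV) _ h
      have h2 : u⁻¹ * (u * n * u⁻¹) * u⁻¹⁻¹ = n := by group
      rw [h2] at h1
      exact h1
    · rw [Subgroup.mem_normalizer_iff]
      intro n
      refine ⟨hτ1 n, fun h => ?_⟩
      have h1 := hτ2 _ h
      have h2 : τ⁻¹ * (τ * n * τ⁻¹) * τ = n := by group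
      rw [h2] at h1
      exact h1
  have hN : (Subgroup.closure T).Normal := Subgroup.normalizer_eq_top_iff.1 hnorm
  refine ⟨Subgroup.closure T, hN, ?_, ?_⟩
  · rw [Subgroup.closure_le, hT]
    rintro _ ⟨g, hg, b, hb, rfl⟩
    exact hH g hg b hb
  · intro g b hb
    have h1 : ofC (Subgroup.closure T) b = ⊤ := by
      refine hgen _ ?_ ?_
      · intro v hv
        rw [mem_ofC]
        exact hmem v (Or.inl hv) b hb
      · rw [mem_ofC]
        exact hmem τ (Or.inr rfl) b hb
    rw [← mem_ofC, h1]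
    exact Subgroup.mem_top _

/-- the homomorphism to the integers -/
def ofHom (d : ND) : GG d →* Multiplicative ℤ where
  toFun g := Multiplicative.ofAdd g.2
  map_one' := rfl
  map_mul' _ _ := rfl

theorem of_tau_zpow {d : ND} (a : ℤ) : (GG.tau d ^ a).2 = a := by
  have h1 : ofHom d (GG.tau d ^ a) = (ofHom d (GG.tau d)) ^ a := map_zpow _ _ _
  have h2 : ofHom d (GG.tau d) = Multiplicative.ofAdd 1 := rfl
  rw [h2, ← ofAdd_zsmul] at h1
  have h3 := congrArg Multiplicative.toAdd h1
  have h4 : (GG.tau d ^ a).2 = a • (1 : ℤ) := h3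
  rw [h4]
  simp

theorem of_gen {d : ND} (K : Subgroup (GG d)) (h1 : GG.nS d ≤ K) (h2 : GG.tau d ∈ K) : K = ⊤ := by
  rw [eq_top_iff]
  intro g _
  have h3 : g * GG.tau d ^ (-g.2) ∈ GG.nS d := by
    show (g * GG.tau d ^ (-g.2)).2 = 0
    rw [of_snd_mul, of_tau_zpow]
    exact add_neg_cancel _
  have h4 : g = (g * GG.tau d ^ (-g.2)) * GG.tau d ^ g.2 := by
    rw [mul_assoc, ← zpow_add, neg_add_cancel, zpow_zero, mul_one]
  rw [h4]
  exact K.mul_mem (h1 h3) (K.zpow_mem h2 _)

theorem of_nS_normal (d : ND) : (GG.nS d).Normal := by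
  refine ⟨fun n hn g => ?_⟩
  have h0 : n.2 = 0 := hn
  show (g * n * g⁻¹).2 = 0
  rw [of_snd_mul, of_snd_mul, of_snd_inv, h0]
  omega

theorem of_lcs_one_le (d : ND) : (⊤ : Subgroup (GG d)).lowerCentralSeries 1 ≤ GG.nS d := by
  rw [Subgroup.lowerCentralSeries_succ, Subgroup.lowerCentralSeries_zero, Subgroup.commutator_le]
  intro g _ h _
  show (⁅g, h⁆).2 = 0
  rw [commutatorElement_def, of_snd_mul, of_snd_mul, of_snd_mul, of_snd_inv, of_snd_inv]
  omega

/-- **OD4.** `chain` is a `Chain` for `tau` if the group is nilpotent.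

`chain 2 ≤ chain 1` because `GG d ⧸ V = ℤ` is abelian; `chain j`, `j ≥ 2`, are terms of the lower central
series. `gen`: let `H₀ ≤ H` be the subgroup generated by the `[g, b]`, `g ∈ V ∪ {tau}`,
`b ∈ chain j` (`j ≥ 1`; `chain j` is normal in `G`). `H₀` is normal: conjugation by `u ∈ V` maps
`[v, b]` to `[u v u⁻¹, u b u⁻¹]`, and `[tau, b]` to `[tau v, b']` with `v = tau⁻¹ u tau u⁻¹ ∈ V`,
`b' = u b u⁻¹`, and `[tau v, b'] = tau [v, b'] tau⁻¹ [tau, b']`,
`tau [v, b'] tau⁻¹ = [tau v tau⁻¹, tau b' tau⁻¹]`; conjugation by `tau ^ ±1` maps the generators to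
generators. Modulo `H₀` all elements of `V` and `tau` commute with `chain j`. `GG d` is generated by `V`
and `tau`, so for `j ≥ 2` `[G, chain j] ≤ H₀`; and for `j = 1` (`chain 1 = V`) `G ⧸ H₀` is abelian, so
`chain 2 = [G, G] ≤ H₀`. -/
theorem chain_chain (d : ND) (hn : ∃ c, (⊤ : Subgroup (GG d)).lowerCentralSeries c = ⊥) :
    Chain (GG.tau d) (GG.chain d) := by
  have hV := of_nS_normal d
  have hinv : ∀ g b : GG d, ⁅b, g⁆ = (g * b * g⁻¹ * b⁻¹)⁻¹ := by
    intro g b
    rw [commutatorElement_def]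
    group
  refine ⟨rfl, ?_, chain_path d, ?_, ?_, ?_⟩
  · intro j
    rcases j with _ | _ | n
    · exact le_refl _
    · exact of_lcs_one_le d
    · exact Subgroup.lowerCentralSeries_antitone _ (Nat.le_succ _)
  · intro j hj c hc g
    rcases j with _ | _ | n
    · omega
    · show g * c * g⁻¹ * c⁻¹ ∈ (⊤ : Subgroup (GG d)).lowerCentralSeries 1
      rw [Subgroup.lowerCentralSeries_succ, Subgroup.lowerCentralSeries_zero,
        ← commutatorElement_def]
      exact Subgroup.commutator_mem_commutator (Subgroup.mem_top _) (Subgroup.mem_top _)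
    · show g * c * g⁻¹ * c⁻¹ ∈ (⊤ : Subgroup (GG d)).lowerCentralSeries (n + 1 + 1)
      have h1 : ⁅c, g⁆ ∈ (⊤ : Subgroup (GG d)).lowerCentralSeries (n + 1 + 1) := by
        rw [Subgroup.lowerCentralSeries_succ]
        exact Subgroup.commutator_mem_commutator hc (Subgroup.mem_top _)
      rw [hinv] at h1
      exact (Subgroup.inv_mem_iff _).1 h1
  · intro j hj H hH
    rcases j with _ | _ | n
    · omega
    · obtain ⟨N, hN, hNH, hN2⟩ := of_gen_aux (GG.nS d) (GG.tau d) (GG.nS d) of_gen H hH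
      refine le_trans ?_ hNH
      show (⊤ : Subgroup (GG d)).lowerCentralSeries 1 ≤ N
      rw [Subgroup.lowerCentralSeries_succ, Subgroup.lowerCentralSeries_zero,
        Subgroup.commutator_le]
      have h1 : ∀ g : GG d, g * GG.tau d * g⁻¹ * (GG.tau d)⁻¹ ∈ N := by
        intro g
        have h2 : ofC N (GG.tau d) = ⊤ := by
          refine of_gen _ ?_ ?_
          · intro v hv
            rw [mem_ofC]
            have h3 := N.inv_mem (hN2 (GG.tau d) v hv)
            rw [← hinv, commutatorElement_def] at h3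
            exact h3
          · rw [mem_ofC]
            have h3 : GG.tau d * GG.tau d * (GG.tau d)⁻¹ * (GG.tau d)⁻¹ = 1 := by group
            rw [h3]
            exact N.one_mem
        rw [← mem_ofC, h2]
        exact Subgroup.mem_top _
      intro g _ h _
      have h2 : ofC N g = ⊤ := by
        refine of_gen _ ?_ ?_
        · intro v hv
          rw [mem_ofC]
          have h3 := N.inv_mem (hN2 g v hv)
          rw [← hinv, commutatorElement_def] at h3
          exact h3
        · rw [mem_ofC]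
          have h3 := N.inv_mem (h1 g)
          rw [← hinv, commutatorElement_def] at h3
          exact h3
      have h3 : h * g * h⁻¹ * g⁻¹ ∈ N := by
        rw [← mem_ofC, h2]
        exact Subgroup.mem_top _
      rw [hinv]
      exact N.inv_mem h3
    · obtain ⟨N, hN, hNH, hN2⟩ := of_gen_aux (GG.nS d) (GG.tau d)
        ((⊤ : Subgroup (GG d)).lowerCentralSeries (n + 1)) of_gen H hH
      refine le_trans ?_ hNH
      show (⊤ : Subgroup (GG d)).lowerCentralSeries (n + 1 + 1) ≤ N
      rw [Subgroup.lowerCentralSeries_succ, Subgroup.commutator_le]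
      intro b hb g _
      rw [hinv]
      exact N.inv_mem (hN2 g b hb)
  · obtain ⟨c, hc⟩ := hn
    refine ⟨c + 2, ?_⟩
    show (⊤ : Subgroup (GG d)).lowerCentralSeries (c + 1) = ⊥
    rw [eq_bot_iff, ← hc]
    exact Subgroup.lowerCentralSeries_antitone _ (Nat.le_succ _)

end Pool.Agent.HK820

end
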