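import Pool.Agent.Lib_MP_820dd4_hk.FI2
import Pool.Agent.Lib_MP_820dd4_hk.OF
import Pool.Agent.Lib_MP_820dd4_hk.ZD
import Pool.Agent.Lib_MP_820dd4_hk.F1

/-! ### Part `OC` -/

section

open MeasureTheory ProbabilityTheory Filter Topology
open scoped ComplexConjugate ENNReal

namespace Pool.Agent.HK820

/-- **OC1.** An element of the chain of index `s + 1` acts trivially on a system of order `s`.

Proof. Let `t = tF c {0}` be the transformation which moves only the root of the
`(s+1)`-dimensional cubes; it preserves the cube measure (`face_invariance`, the root is a face of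
codimension `s + 1`, `Face.vertex`). For a bounded measurable `f`, `f (x 0)` is a.e. equal to a
`starAlg`-measurable function `g x` (`hord`, `aem_Zalg_iff`), `g (t x) = g x` because `t` does not
change the other vertices (a `starAlg`-measurable function depends only on them). So
`f (c • x 0) = g (t x) = g x = f (x 0)` a.e. and `f (c • a) = f a` for `μ`-almost every `a`
(`cube_eval`). -/
theorem oc_act {G X : Type} [Group G] [TopologicalSpace G] [IsTopologicalGroup G]
    [SecondCountableTopology G]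
    [TopologicalSpace X] [CompactSpace X] [T2Space X] [SecondCountableTopology X]
    [MeasurableSpace X] [BorelSpace X] [StandardBorelSpace X] [MulAction G X]
    [ContinuousSMul G X] {τ : G} {M : ℕ → Subgroup G} (hM : Chain τ M) (S : X ≃ᵐ X)
    (hS : ∀ x, S x = τ • x) (μ : Measure X) [IsProbabilityMeasure μ] (hE : Ergodic S μ)
    (hinv : ∀ g : G, MeasurePreserving (fun a => g • a) μ μ) (s : ℕ)
    (hord : ∀ f : X → ℂ, BM f → AEM (Zalg μ S s) μ f) (c : G) (hc : c ∈ M (s + 1)) {f : X → ℂ}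
    (hf : BM f) : ∀ᵐ a ∂μ, f (c • a) = f a := by
  have hT : MeasurePreserving S μ μ := hE.toMeasurePreserving
  have := cube_prob μ S (Fin 2) (s + 1)
  have hroot := cube_eval μ S (Fin 2) (s + 1) 0
  obtain ⟨g, hg, hfg⟩ := (aem_Zalg_iff μ S hT s hf).1 (hord f hf)
  have hpres := (face_invariance hM S hS μ hE hinv (Fin 2) (s + 1)).pres (s + 1) {0}
    (Face.vertex 0) c hc
  obtain ⟨g', hg', hgg⟩ := hg.exists_eq_measurable_comp
  have hgt : ∀ x : Arr (Fin 2) X (s + 1),
      g (tF (s + 1) (fun a => c • a) ({0} : Set (Fin (s + 1) → Fin 2)) x) = g x := by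
    intro x
    rw [hgg]
    refine congrArg g' ?_
    funext v
    show tF (s + 1) (fun a => c • a) ({0} : Set (Fin (s + 1) → Fin 2)) x v.1 = x v.1
    exact if_neg v.2
  have h1 := hpres.quasiMeasurePreserving.ae_eq_comp hfg
  have h2 : ∀ᵐ x ∂(cube μ S (Fin 2) (s + 1)), f (c • x 0) = f (x 0) := by
    filter_upwards [hfg, h1] with x hx hx'
    have e1 : f (tF (s + 1) (fun a => c • a) ({0} : Set (Fin (s + 1) → Fin 2)) x 0) =
        g (tF (s + 1) (fun a => c • a) ({0} : Set (Fin (s + 1) → Fin 2)) x) := hx'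
    have e2 : tF (s + 1) (fun a => c • a) ({0} : Set (Fin (s + 1) → Fin 2)) x 0 = c • x 0 :=
      if_pos (Set.mem_singleton _)
    rw [e2, hgt x] at e1
    rw [e1]
    exact hx.symm
  have h3 : MeasurableSet {a : X | f (c • a) = f a} :=
    measurableSet_eq_fun (hf.1.comp (measurable_const_smul c)) hf.1
  have h4 := (ae_map_iff hroot.aemeasurable h3).2 h2
  rw [hroot.map_eq] at h4
  exact h4

/-- **OC2.** If an element acts trivially almost everywhere for a measure of full support then it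
acts trivially (test with continuous functions). -/
theorem oc_triv {G X : Type} [Group G] [TopologicalSpace X] [CompactSpace X] [T2Space X]
    [SecondCountableTopology X]
    [MeasurableSpace X] [BorelSpace X] [MulAction G X] [ContinuousConstSMul G X]
    (μ : Measure X) [IsProbabilityMeasure μ] (hsupp : ∀ U : Set X, IsOpen U → U.Nonempty → μ U ≠ 0)
    (c : G) (h : ∀ f : X → ℂ, BM f → ∀ᵐ a ∂μ, f (c • a) = f a) (a : X) : c • a = a := by
  by_contra hne
  obtain ⟨V, U, hV, hU, haV, haU, hVU⟩ := t2_separation hne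
  have hcont : Continuous (fun x : X => c • x) := continuous_const_smul c
  have hW : IsOpen (U ∩ (fun x : X => c • x) ⁻¹' V) := hU.inter (hV.preimage hcont)
  have hbm : BM (U.indicator (fun _ => (1 : ℂ))) := by
    refine ⟨measurable_const.indicator hU.measurableSet, 1, fun x => ?_⟩
    by_cases hx : x ∈ U
    · rw [Set.indicator_of_mem hx, norm_one]
    · rw [Set.indicator_of_notMem hx, norm_zero]
      exact zero_le_one
  have h1 := h _ hbm
  refine hsupp _ hW ⟨a, haU, haV⟩ ?_
  refine measure_mono_null ?_ (ae_iff.1 h1)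
  rintro x ⟨hx1, hx2⟩
  have hx3 : c • x ∉ U := fun hx => Set.disjoint_left.1 hVU hx2 hx
  show ¬ (U.indicator (fun _ => (1 : ℂ)) (c • x) = U.indicator (fun _ => (1 : ℂ)) x)
  rw [Set.indicator_of_notMem hx3, Set.indicator_of_mem hx1]
  exact zero_ne_one

/-- **OC3.** An invariant probability measure on `GG d ⧸ Γ` has full support (finitely many
translates of an open set cover the compact space `GG d ⧸ Γ`, the action is transitive). -/
theorem oc_supp (d : ND) (Γ : Subgroup (GG d)) (hc : CompactSpace (KK d Γ))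
    (μ : Measure (KK d Γ)) [IsProbabilityMeasure μ]
    (hinv : ∀ g : GG d, μ.map (fun y => g • y) = μ) (U : Set (KK d Γ)) (hU : IsOpen U)
    (hne : U.Nonempty) : μ U ≠ 0 := by
  intro h0
  obtain ⟨u, hu⟩ := hne
  have hcov : ∀ y : KK d Γ, ∃ g : GG d, g • y ∈ U := by
    intro y
    obtain ⟨g, hg⟩ := MulAction.exists_smul_eq (GG d) (α := GG d ⧸ Γ) y u
    exact ⟨g, by
      have : g • y = u := hg
      rw [this]
      exact hu⟩
  have hopen : ∀ g : GG d, IsOpen ((fun y : KK d Γ => g • y) ⁻¹' U) := fun g =>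
    hU.preimage (continuous_const_smul g)
  obtain ⟨t, ht⟩ := isCompact_univ.elim_finite_subcover
    (fun g : GG d => (fun y : KK d Γ => g • y) ⁻¹' U) hopen
    (fun y _ => Set.mem_iUnion.2 (hcov y))
  have hzero : ∀ g : GG d, μ ((fun y : KK d Γ => g • y) ⁻¹' U) = 0 := by
    intro g
    rw [← Measure.map_apply (continuous_const_smul g).measurable hU.measurableSet, hinv g]
    exact h0
  have h1 : μ Set.univ = 0 :=
    measure_mono_null ht ((measure_biUnion_null_iff t.countable_toSet).2 fun g _ => hzero g)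
  rw [measure_univ] at h1
  exact one_ne_zero h1

/-- **OC4.** A path connected subgroup contained in a discrete subgroup is trivial. -/
theorem oc_disc (d : ND) (Γ H : Subgroup (GG d)) (hd : DiscreteTopology Γ) (hH : H ≤ Γ)
    (hp : ∀ c ∈ H, JoinedIn (H : Set (GG d)) 1 c) : H = ⊥ := by
  rw [eq_bot_iff]
  intro c hc
  have h1 : JoinedIn (Γ : Set (GG d)) 1 c := (hp c hc).mono hH
  have h2 : Joined (⟨1, h1.source_mem⟩ : (Γ : Set (GG d))) ⟨c, h1.target_mem⟩ := h1.joined_subtype
  obtain ⟨γ⟩ := h2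
  have hd' : DiscreteTopology (Γ : Set (GG d)) := hd
  have h3 : (Set.range γ).Subsingleton := (isPreconnected_range γ.continuous).subsingleton
  have h4 : (⟨1, h1.source_mem⟩ : (Γ : Set (GG d))) = ⟨c, h1.target_mem⟩ :=
    h3 ⟨0, γ.source⟩ ⟨1, γ.target⟩
  rw [Subgroup.mem_bot]
  exact (congrArg Subtype.val h4).symm

end Pool.Agent.HK820

end

/-! ### Part `OD` -/

section

open MeasureTheory ProbabilityTheory Filter Topology
open scoped ComplexConjugate ENNReal

namespace Pool.Agent.HK820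

/-- **OD1.** The measure on the model is ergodic, of order `s`, and so on. From `Model` and
ergodicity of `(Q, ν, S)`: `μ = ν.map Θ` is a probability measure, `Θ` is a factor map onto the
translation by `tau`, which is ergodic (`FMap.ergodic`), the translations preserve `μ`, and every
bounded function on `KK d Γ` is `AEM (Zalg μ τ s)`: `E[f | Zalg_K s] ∘ Θ = E[f ∘ Θ | Zalg_Q s] = f ∘ Θ`
(`condExp_Zalg_fmap`, `Model.ord`). -/
theorem Model.fmap {d : ND} {Γ : Subgroup (GG d)} {Q : Type} [MeasurableSpace Q]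
    [StandardBorelSpace Q] {ν : Measure Q} [IsProbabilityMeasure ν] {S : Q ≃ᵐ Q} {s : ℕ}
    {Θ : Q → KK d Γ} (h : Model d Γ ν S s Θ) :
    FMap ν S (ν.map Θ) (KK.tauE d Γ) Θ := by
  exact ⟨h.meas.measurePreserving ν, h.eqv⟩

theorem Model.prob {d : ND} {Γ : Subgroup (GG d)} {Q : Type} [MeasurableSpace Q]
    [StandardBorelSpace Q] {ν : Measure Q} [IsProbabilityMeasure ν] {S : Q ≃ᵐ Q} {s : ℕ}
    {Θ : Q → KK d Γ} (h : Model d Γ ν S s Θ) : IsProbabilityMeasure (ν.map Θ) := by
  exact Measure.isProbabilityMeasure_map h.meas.aemeasurable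

theorem Model.mp {d : ND} {Γ : Subgroup (GG d)} {Q : Type} [MeasurableSpace Q]
    [StandardBorelSpace Q] {ν : Measure Q} [IsProbabilityMeasure ν] {S : Q ≃ᵐ Q} {s : ℕ}
    {Θ : Q → KK d Γ} (h : Model d Γ ν S s Θ) (g : GG d) :
    MeasurePreserving (fun y : KK d Γ => g • y) (ν.map Θ) (ν.map Θ) := by
  exact ⟨(continuous_const_smul g).measurable, h.inv g⟩

theorem Model.ergodic {d : ND} {Γ : Subgroup (GG d)} {Q : Type} [MeasurableSpace Q]
    [StandardBorelSpace Q] {ν : Measure Q} [IsProbabilityMeasure ν] {S : Q ≃ᵐ Q} {s : ℕ}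
    {Θ : Q → KK d Γ} (h : Model d Γ ν S s Θ) (hS : Ergodic S ν) :
    Ergodic (KK.tauE d Γ) (ν.map Θ) := by
  have := h.prob
  exact FMap.ergodic hS (h.mp (GG.tau d)) h.fmap

theorem Model.order {d : ND} {Γ : Subgroup (GG d)} [StandardBorelSpace (KK d Γ)] {Q : Type}
    [MeasurableSpace Q]
    [StandardBorelSpace Q] {ν : Measure Q} [IsProbabilityMeasure ν] {S : Q ≃ᵐ Q} {s : ℕ}
    {Θ : Q → KK d Γ} (h : Model d Γ ν S s Θ) (hS : Ergodic S ν) {f : KK d Γ → ℂ} (hf : BM f) :
    AEM (Zalg (ν.map Θ) (KK.tauE d Γ) s) (ν.map Θ) f := by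
  have := h.prob
  have hmp : MeasurePreserving (KK.tauE d Γ) (ν.map Θ) (ν.map Θ) := h.mp (GG.tau d)
  have hZ := Zalg_le (ν.map Θ) (KK.tauE d Γ) s
  have hfΘ : BM (fun q => f (Θ q)) := BMs.comp hf h.meas
  rw [aem_iff_condExp _ _ hZ hf]
  have h1 := condExp_Zalg_fmap hS.toMeasurePreserving hmp h.fmap s hf
  have h2 : AEM (Zalg ν S s) ν (fun q => f (Θ q)) :=
    ⟨fun q => f (Θ q), (hf.1.comp (comap_measurable Θ)).mono h.ord le_rfl, EventuallyEq.rfl⟩
  rw [aem_iff_condExp _ _ (Zalg_le ν S s) hfΘ] at h2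
  have h3 : (fun x => ((ν.map Θ)[f | Zalg (ν.map Θ) (KK.tauE d Γ) s]) (Θ x)) =ᵐ[ν]
      fun q => f (Θ q) := h1.symm.trans h2
  have h4 : MeasurableSet {y | ((ν.map Θ)[f | Zalg (ν.map Θ) (KK.tauE d Γ) s]) y = f y} := by
    refine measurableSet_eq_fun ?_ hf.1
    exact (stronglyMeasurable_condExp.measurable).mono hZ le_rfl
  exact (ae_map_iff h.meas.aemeasurable h4).2 h3

/-- **OD2.** A model of order `s ≥ 1` has a group of class at most `s`.

Proof. By `oc_act`, `oc_supp`, `oc_triv` every `c ∈ chain (s + 1) = lowerCentralSeries s` acts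
trivially on `KK d Γ`, in particular it fixes the base point, so it belongs to `Γ`; `oc_disc` and
`chain_path`. -/
theorem Model.class_le {d : ND} {Γ : Subgroup (GG d)} {Q : Type} [MeasurableSpace Q]
    [StandardBorelSpace Q] {ν : Measure Q} [IsProbabilityMeasure ν] {S : Q ≃ᵐ Q} {s : ℕ}
    (hs : 1 ≤ s) {Θ : Q → KK d Γ} (h : Model d Γ ν S s Θ) (hS : Ergodic S ν) :
    (⊤ : Subgroup (GG d)).lowerCentralSeries s = ⊥ := by
  have i1 := h.prob
  have i2 := h.cocpt
  have i3 := kk_t2 d Γ h.disc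
  have i4 := kk_std d Γ h.disc h.cocpt
  obtain ⟨s', rfl⟩ : ∃ s', s = s' + 1 := ⟨s - 1, by omega⟩
  have hc : GG.chain d (s' + 1 + 1) = (⊤ : Subgroup (GG d)).lowerCentralSeries (s' + 1) := rfl
  refine oc_disc d Γ _ h.disc ?_ ?_
  · intro c hcc
    have h1 : ∀ f : KK d Γ → ℂ, BM f → ∀ᵐ a ∂(ν.map Θ), f (c • a) = f a := fun f hf =>
      oc_act (chain_chain d h.nilp) (KK.tauE d Γ) (fun _ => rfl) (ν.map Θ) (h.ergodic hS) h.mp
        (s' + 1) (fun f hf => h.order hS hf) c (by rw [hc]; exact hcc) hf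
    have h2 : c • KK.proj d Γ 1 = KK.proj d Γ 1 :=
      oc_triv (ν.map Θ) (oc_supp d Γ h.cocpt (ν.map Θ) h.inv) c h1 _
    have h3 : (QuotientGroup.mk (c * 1) : GG d ⧸ Γ) = QuotientGroup.mk 1 := h2
    have h4 := QuotientGroup.eq.1 h3
    rw [mul_one, mul_one] at h4
    exact inv_mem_iff.1 h4
  · intro c hcc
    have h5 := chain_path d (s' + 1 + 1) (by omega) c (by rw [hc]; exact hcc)
    rwa [hc] at h5

end Pool.Agent.HK820

end
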