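import Pool.Agent.Lib_MP_820dd4_hk.L5
import Pool.Agent.Lib_MP_820dd4_hk.L7
import Pool.Agent.Lib_MP_820dd4_hk.MKC
import Pool.Agent.Lib_MP_820dd4_hk.F1
import Pool.Agent.Lib_MP_820dd4_hk.OD
import Pool.Agent.Lib_MP_820dd4_hk.MKZ

/-! ### Part `L10` -/

section

open MeasureTheory ProbabilityTheory Filter Topology
open scoped ComplexConjugate ENNReal

namespace Pool.Agent.HK820

theorem l10_emb_mul (d : ND) (x y : d.V) : GG.emb d x * GG.emb d y = GG.emb d (d.mul x y) := by
  rw [GG.mul_def]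
  refine Prod.ext ?_ (add_zero (0 : ℤ))
  change d.mul x ((d.phi ^ (0 : ℤ) : Equiv.Perm d.V) y) = d.mul x y
  rw [zpow_zero, Equiv.Perm.one_apply]

theorem l10_tau_emb (d : ND) (x : d.V) : GG.tau d * GG.emb d x = GG.emb d (d.phi x) * GG.tau d := by
  rw [GG.mul_def, GG.mul_def]
  refine Prod.ext ?_ ?_
  · change d.mul 0 ((d.phi ^ (1 : ℤ) : Equiv.Perm d.V) x) =
      d.mul (d.phi x) ((d.phi ^ (0 : ℤ) : Equiv.Perm d.V) 0)
    rw [zpow_one, zpow_zero, Equiv.Perm.one_apply, d.zero_mul, d.mul_zero]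
  · change (1 : ℤ) + 0 = 0 + 1
    ring

theorem l10_emb_zero (d : ND) : GG.emb d 0 = 1 := rfl

theorem l10_inC_ne {k : ℕ} {z : ℂ} (h : inC k z) : z ≠ 0 := by
  intro h0
  have h1 := h.1
  rw [h0, norm_zero] at h1
  exact zero_ne_one h1

theorem l10_ee_ne (k : ℕ) (a : WW k) : ee k a ≠ 0 := l10_inC_ne (ee_inC k a)

theorem l10_ee_zero (k : ℕ) : ee k 0 = 1 := by
  have h := ee_add k 0 0
  rw [add_zero] at h
  have h2 := l10_ee_ne k 0
  exact (mul_left_cancel₀ h2 (by rw [mul_one]; exact h)).symm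

theorem l10_ee_sub {k : ℕ} {a b : WW k} (h : ee k a = ee k b) : ee k (a - b) = 1 := by
  have h1 := ee_add k (a - b) b
  rw [sub_add_cancel, h] at h1
  exact (mul_right_cancel₀ (l10_ee_ne k b) (by rw [one_mul]; exact h1)).symm

/-- **L10.** From the setup to the system of lifts.

Proof. `F` from `global_family`, `c` and `b` from `family_cocycle`, `family_conj`, lifted to `WW k` by
`lift_ee` (for `V × V` and `V`; `c (0,0) = 1` and `b 0 = 1` because `F 0 = 1`). The identities
`c_zero`, `coc`, `comp` hold after applying `ee k` (compute with `F`, which does not vanish: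
`c (0, h) = 1` from `F 0 = 1`; associativity of `F h₁ F h₂ F h₃` along the two bracketings; the
conjugation relation for a product), so they hold by `ee_zero` on `V`, `V × V × V`, `V × V`
(preconnected). -/
theorem exists_LData {d : ND} {Γ : Subgroup (GG d)} [StandardBorelSpace (KK d Γ)]
    {μ : Measure (KK d Γ)} {D k : ℕ} {ρ : KK d Γ → ℂ}
    {R : Arr (Fin 2) (KK d Γ) (D + 1) → ℂ} (hL : LSetup d Γ μ D k ρ R) (hc : HasCurves d) :
    ∃ (F : d.V → KK d Γ → ℂ) (c : d.V → d.V → WW k) (b : d.V → WW k), LData d Γ μ k ρ F c b := by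
  have hprob : IsProbabilityMeasure μ := hL.prob
  obtain ⟨F, hF, h0⟩ := global_family hL hc
  obtain ⟨c₀, hc₀, hic, hcF⟩ := family_cocycle hL hF h0
  obtain ⟨b₀, hb₀, hib, hbF⟩ := family_conj hL hF h0
  have hFm : ∀ h, Measurable (F h) := fun h => (hF.lift h).meas
  have hFi : ∀ h y, inC k (F h y) := fun h y => (hF.lift h).inc y
  have hne : ∀ h y, F h y ≠ 0 := fun h y => l10_inC_ne (hFi h y)
  have hrne : ∀ y, ρ y ≠ 0 := fun y => l10_inC_ne (hL.rinc y)
  have hact : ∀ (g : GG d) {p : KK d Γ → Prop}, (∀ᵐ y ∂μ, p y) → ∀ᵐ y ∂μ, p (g • y) :=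
    fun g p h => (hL.inv g).quasiMeasurePreserving.ae h
  -- values at zero
  have hc00 : c₀ (0 : d.V × d.V) = 1 := by
    obtain ⟨y, hy⟩ := (hcF 0 0).exists
    rw [h0, h0, d.zero_mul, h0, mul_one, mul_one] at hy
    exact hy.symm
  have hb00 : b₀ 0 = 1 := by
    obtain ⟨y, hy⟩ := (hbF 0).exists
    rw [h0, GG.phi_zero, h0, l10_emb_zero, one_smul, mul_one, mul_one] at hy
    exact (mul_right_cancel₀ (hrne y) (by rw [one_mul]; exact hy)).symm
  obtain ⟨c, hcc, hc0, hce⟩ := lift_ee k c₀ hc₀ hic hc00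
  obtain ⟨b, hbc, hb0, hbe⟩ := lift_ee k b₀ hb₀ hib hb00
  have hmulc : Continuous fun p : d.V × d.V => d.mul p.1 p.2 := d.smooth_mul.continuous
  have hphic : Continuous d.phi := d.smooth_phi.continuous
  refine ⟨F, fun x y => c (x, y), b, ?_⟩
  refine ⟨hFm, hFi, h0, hF.cont, ?_, ?_, ?_, hb0, ?_, ?_, hcc, hbc⟩
  · intro h h'
    rw [hce]
    exact hcF h h'
  · intro h
    rw [hbe]
    exact hbF h
  · intro h
    constructor
    · refine ee_lift_zero k (fun h : d.V => c (0, h)) (hcc.comp (continuous_const.prodMk continuous_id)) ?_ 0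
        hc0 h
      intro h
      rw [hce]
      obtain ⟨y, hy⟩ := (hcF 0 h).exists
      rw [h0, one_mul, d.zero_mul] at hy
      exact (mul_right_cancel₀ (hne h y) (by rw [one_mul]; exact hy)).symm
    · refine ee_lift_zero k (fun h : d.V => c (h, 0)) (hcc.comp (continuous_id.prodMk continuous_const)) ?_ 0
        hc0 h
      intro h
      rw [hce]
      obtain ⟨y, hy⟩ := (hcF h 0).exists
      rw [h0, mul_one, d.mul_zero, l10_emb_zero, one_smul] at hy
      exact (mul_right_cancel₀ (hne h y) (by rw [one_mul]; exact hy)).symm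
  · have key : ∀ x y z : d.V, c₀ (x, y) * c₀ (d.mul x y, z) = c₀ (x, d.mul y z) * c₀ (y, z) := by
      intro x y z
      obtain ⟨w, h1, h2, h3, h4⟩ := ((hact (GG.emb d z) (hcF x y)).and ((hcF (d.mul x y) z).and
        ((hcF y z).and (hcF x (d.mul y z))))).exists
      rw [← mul_smul, l10_emb_mul] at h1
      rw [← d.assoc] at h4
      refine mul_right_cancel₀ (hne (d.mul (d.mul x y) z) w) ?_
      linear_combination (F z w) * h1 * (-1) - c₀ (x, y) * h2 +
        F x (GG.emb d (d.mul y z) • w) * h3 + c₀ (y, z) * h4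
    have h1 := ee_lift_zero k (T := d.V × d.V × d.V)
      (fun p => (c (p.1, p.2.1) + c (d.mul p.1 p.2.1, p.2.2)) -
        (c (p.1, d.mul p.2.1 p.2.2) + c (p.2.1, p.2.2))) (by
        have e1 : Continuous fun p : d.V × d.V × d.V => d.mul p.1 p.2.1 :=
          hmulc.comp (continuous_fst.prodMk (continuous_fst.comp continuous_snd))
        have e2 : Continuous fun p : d.V × d.V × d.V => d.mul p.2.1 p.2.2 :=
          hmulc.comp continuous_snd
        refine ((hcc.comp (continuous_fst.prodMk (continuous_fst.comp continuous_snd))).add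
          (hcc.comp (e1.prodMk (continuous_snd.comp continuous_snd)))).sub
          ((hcc.comp (continuous_fst.prodMk e2)).add (hcc.comp continuous_snd))) (by
        rintro ⟨x, y, z⟩
        refine l10_ee_sub ?_
        rw [ee_add, ee_add, hce, hce, hce, hce]
        exact key x y z) (0, 0, 0) (by
        show (c (0, 0) + c (d.mul 0 0, 0)) - (c (0, d.mul 0 0) + c (0, 0)) = 0
        rw [d.zero_mul]
        abel)
    intro x y z
    exact sub_eq_zero.1 (h1 (x, y, z))
  · have key : ∀ x y : d.V, b₀ (d.mul x y) * c₀ (x, y) = b₀ x * b₀ y * c₀ (d.phi x, d.phi y) := by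
      intro x y
      obtain ⟨w, h1, h2, h3, h4, h5⟩ := ((hbF (d.mul x y)).and ((hcF x y).and
        ((hact (GG.emb d y) (hbF x)).and ((hbF y).and
          (hact (GG.tau d) (hcF (d.phi x) (d.phi y))))))).exists
      rw [← mul_smul, l10_emb_mul, ← mul_smul, l10_tau_emb, mul_smul] at h3
      rw [d.phi_mul] at h1
      refine mul_right_cancel₀ (mul_ne_zero (hne (d.mul (d.phi x) (d.phi y)) (GG.tau d • w)) (hrne w)) ?_
      linear_combination (-c₀ (x, y)) * h1 - ρ (GG.emb d (d.mul x y) • w) * h2 + F y w * h3 +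
        b₀ x * F (d.phi x) (GG.emb d (d.phi y) • GG.tau d • w) * h4 + b₀ x * b₀ y * ρ w * h5
    have h1 := ee_lift_zero k (T := d.V × d.V)
      (fun p => (b (d.mul p.1 p.2) + c (p.1, p.2)) -
        (b p.1 + b p.2 + c (d.phi p.1, d.phi p.2))) (by
        refine ((hbc.comp hmulc).add hcc).sub (((hbc.comp continuous_fst).add
          (hbc.comp continuous_snd)).add (hcc.comp ((hphic.comp continuous_fst).prodMk
          (hphic.comp continuous_snd))))) (by
        rintro ⟨x, y⟩
        refine l10_ee_sub ?_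
        rw [ee_add, ee_add, ee_add, hbe, hbe, hbe, hce, hce]
        exact key x y) (0, 0) (by
        show (b (d.mul 0 0) + c (0, 0)) - (b 0 + b 0 + c (d.phi 0, d.phi 0)) = 0
        rw [d.zero_mul, GG.phi_zero, hb0]
        abel)
    intro x y
    exact sub_eq_zero.1 (h1 (x, y))

end Pool.Agent.HK820

end

/-! ### Part `LA` -/

section

open MeasureTheory ProbabilityTheory Filter Topology
open scoped ComplexConjugate ENNReal

namespace Pool.Agent.HK820

/-- **LA.** The setup of a model: from a model of order `s`, `s = D`, and a function `w` of order `s`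
with values in `C_k` and cocycle `ρ ∘ Θ`, there is a system of lifts.

Proof. `KK d Γ` is standard Borel and Hausdorff (`kk_std`, `kk_t2`). `f1_cocycle` gives `R` (with
`μ = ν.map Θ`, `Model.fmap`, `Model.ergodic`). `LSetup`: `diag2`, `diag3` are `diag_invariance` for the
chain `GG.chain d` (`chain_chain`, `emb h ∈ chain 1`) and `ι = Fin 2, Fin 3`. Then `exists_LData`. -/
theorem model_LData {d : ND} {Γ : Subgroup (GG d)} {Q : Type} [MeasurableSpace Q]
    [StandardBorelSpace Q] {ν : Measure Q} [IsProbabilityMeasure ν] {S : Q ≃ᵐ Q} {s : ℕ}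
    {Θ : Q → KK d Γ} (h : Model d Γ ν S s Θ) (hS : Ergodic S ν) {k : ℕ} {w : Q → ℂ}
    (hw : Measurable w) (h1 : ∀ q, inC k (w q)) {ρ : KK d Γ → ℂ} (hρ : Measurable ρ)
    (hρ1 : ∀ y, inC k (ρ y)) (hc : ∀ᵐ q ∂ν, w (S q) = ρ (Θ q) * w q)
    (ho : AEM (Zalg ν S s) ν w) :
    ∃ (F : d.V → KK d Γ → ℂ) (c : d.V → d.V → WW k) (b : d.V → WW k),
      LData d Γ (ν.map Θ) k ρ F c b := by
  have i1 := h.prob
  have i2 := h.cocpt
  have i3 := kk_t2 d Γ h.disc
  have i4 := kk_std d Γ h.disc h.cocpt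
  have hE := h.ergodic hS
  obtain ⟨R, hR1, hR2, hR3, hR4⟩ := f1_cocycle ν S hS (ν.map Θ) (KK.tauE d Γ)
    (h.mp (GG.tau d)) h.fmap s k hw h1 hρ hρ1 hc ho
  have hch := chain_chain d h.nilp
  have hemb : ∀ x : d.V, GG.emb d x ∈ GG.chain d 1 := fun x => rfl
  have hL : LSetup d Γ (ν.map Θ) s k ρ R :=
    { prob := i1
      t2 := i3
      cpt := i2
      erg := hE
      inv := h.mp
      diag2 := fun x => diag_invariance hch (KK.tauE d Γ) (fun _ => rfl) (ν.map Θ) hE h.mp
        (Fin 2) (s + 1) (GG.emb d x) (hemb x)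
      diag3 := fun x => diag_invariance hch (KK.tauE d Γ) (fun _ => rfl) (ν.map Θ) hE h.mp
        (Fin 3) (s + 1) (GG.emb d x) (hemb x)
      Rmeas := hR1
      Rinc := hR2
      Rcoc := hR3
      rmeas := hρ
      rinc := hρ1
      Rr := hR4 }
  exact exists_LData hL h.curves

end Pool.Agent.HK820

end

/-! ### Part `MKF` -/

section

open MeasureTheory ProbabilityTheory Filter Topology
open scoped ComplexConjugate ENNReal

namespace Pool.Agent.HK820

/-- **MKF.** (helper48: blocks CE and MK, see BlueprintPart2.md) The extended model. -/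
theorem mk_step {d : ND} {Γ : Subgroup (GG d)} {Q : Type} [MeasurableSpace Q]
    [StandardBorelSpace Q] {ν : Measure Q} [IsProbabilityMeasure ν] {S : Q ≃ᵐ Q} {s : ℕ}
    {Θ : Q → KK d Γ} (h : Model d Γ ν S s Θ) (hS : Ergodic S ν) {k : ℕ} {w : Q → ℂ}
    (hw : Measurable w) (h1 : ∀ q, inC k (w q)) {ρ : KK d Γ → ℂ} (hρ : Measurable ρ)
    (hρ1 : ∀ y, inC k (ρ y)) (hc : ∀ᵐ q ∂ν, w (S q) = ρ (Θ q) * w q)
    (ho : AEM (Zalg ν S s) ν w)
    (hfree : ∀ j : ℤ, ¬ (k : ℤ) ∣ j →
      ν[fun q => w q ^ j | MeasurableSpace.comap Θ inferInstance] =ᵐ[ν] 0)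
    {F : d.V → KK d Γ → ℂ} {c : d.V → d.V → WW k} {b : d.V → WW k}
    (hL : LData d Γ (ν.map Θ) k ρ F c b) :
    ∃ (d₂ : ND) (Γ₂ : Subgroup (GG d₂)) (Θ₂ : Q → KK d₂ Γ₂), Model d₂ Γ₂ ν S s Θ₂ ∧
      MeasurableSpace.comap Θ inferInstance ≤ cl (MeasurableSpace.comap Θ₂ inferInstance) ν ∧
      MeasurableSpace.comap w inferInstance ≤ cl (MeasurableSpace.comap Θ₂ inferInstance) ν :=
  mackey_step hS h hρ hρ1 hL hw h1 hc ho hfree

end Pool.Agent.HK820

end
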