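import Pool.Agent.Lib_MP_820dd4_hk.F1
import Pool.Agent.Lib_MP_820dd4_hk.JN

open MeasureTheory ProbabilityTheory Filter Topology
open scoped ComplexConjugate ENNReal

namespace Pool.Agent.HK820

theorem ax1_memLp {X : Type} [mX : MeasurableSpace X]
    (μ : Measure X) [IsProbabilityMeasure μ] {g : X → ℂ} (hg : AEStronglyMeasurable g μ)
    {R : ℝ} (hR : ∀ᵐ x ∂μ, ‖g x‖ ≤ R) : MemLp g 2 μ :=
  MemLp.of_bound hg R hR

theorem ax1_sq_int {X : Type} [mX : MeasurableSpace X]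
    (μ : Measure X) [IsProbabilityMeasure μ] {g : X → ℂ} (hg : AEStronglyMeasurable g μ)
    {R : ℝ} (hR : ∀ᵐ x ∂μ, ‖g x‖ ≤ R) : Integrable (fun x => ‖g x‖ ^ 2) μ :=
  (ax1_memLp μ hg hR).integrable_norm_pow (by norm_num)

theorem ax1_pyth {X : Type} (m : MeasurableSpace X) [mX : MeasurableSpace X]
    (μ : Measure X) [IsProbabilityMeasure μ] (hm : m ≤ mX) {g : X → ℂ}
    (hg : AEStronglyMeasurable g μ) {R : ℝ} (hR : ∀ᵐ x ∂μ, ‖g x‖ ≤ R) :
    ∫ x, ‖g x - (μ[g | m]) x‖ ^ 2 ∂μ = ∫ x, ‖g x‖ ^ 2 ∂μ - ∫ x, ‖(μ[g | m]) x‖ ^ 2 ∂μ := by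
  have hgi : Integrable g μ := (ax1_memLp μ hg hR).integrable (by norm_num)
  have hER : ∀ᵐ x ∂μ, ‖(μ[g | m]) x‖ ≤ R := ae_bdd_norm_condExp_of_ae_bdd_norm hR
  have hEm : StronglyMeasurable[m] (μ[g | m]) := stronglyMeasurable_condExp
  have hEs : AEStronglyMeasurable (μ[g | m]) μ := (hEm.mono hm).aestronglyMeasurable
  have h1 := condExp_stronglyMeasurable_bilin_of_bound (innerSL ℝ : ℂ →L[ℝ] ℂ →L[ℝ] ℝ) hm hEm
    hgi R hER
  have hint : Integrable (fun x => (innerSL ℝ : ℂ →L[ℝ] ℂ →L[ℝ] ℝ) ((μ[g | m]) x) (g x)) μ := by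
    refine Integrable.of_bound (C := R * R) ?_ ?_
    · exact ((innerSL ℝ : ℂ →L[ℝ] ℂ →L[ℝ] ℝ).continuous₂.comp_aestronglyMeasurable
        (hEs.prodMk hg))
    · filter_upwards [hR, hER] with x h2 h3
      rw [innerSL_apply_apply]
      exact (norm_inner_le_norm _ _).trans
        (mul_le_mul h3 h2 (norm_nonneg _) ((norm_nonneg _).trans h3))
  have h2 : ∫ x, (innerSL ℝ : ℂ →L[ℝ] ℂ →L[ℝ] ℝ) ((μ[g | m]) x) (g x) ∂μ =
      ∫ x, ‖(μ[g | m]) x‖ ^ 2 ∂μ := by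
    rw [← integral_condExp hm, integral_congr_ae h1]
    refine integral_congr_ae (Eventually.of_forall fun x => ?_)
    exact real_inner_self_eq_norm_sq ((μ[g | m]) x)
  have h3 : ∀ x, ‖g x - (μ[g | m]) x‖ ^ 2 = ‖g x‖ ^ 2 -
      2 * (innerSL ℝ : ℂ →L[ℝ] ℂ →L[ℝ] ℝ) ((μ[g | m]) x) (g x) + ‖(μ[g | m]) x‖ ^ 2 := by
    intro x
    rw [innerSL_apply_apply, real_inner_comm]
    exact norm_sub_sq_real _ _
  have i1 := ax1_sq_int μ hg hR
  have i2 := ax1_sq_int μ hEs hER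
  simp_rw [h3]
  have h4 := integral_add (i1.sub (hint.const_mul 2)) i2
  have h5 := integral_sub i1 (hint.const_mul 2)
  have h6 : ∫ x, 2 * (innerSL ℝ : ℂ →L[ℝ] ℂ →L[ℝ] ℝ) ((μ[g | m]) x) (g x) ∂μ =
      2 * ∫ x, ‖(μ[g | m]) x‖ ^ 2 ∂μ := by
    rw [integral_const_mul, h2]
  rw [h6] at h5
  refine h4.trans ?_
  refine (congrArg (fun t => t + ∫ x, ‖(μ[g | m]) x‖ ^ 2 ∂μ) h5).trans ?_
  ring

/-- **AX3.** `∫ ‖f - E[f|m]‖² = ∫ ‖f‖² - ∫ ‖E[f|m]‖²` -/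
theorem condExp_pythagoras' {X : Type} (m : MeasurableSpace X) [mX : MeasurableSpace X]
    (μ : Measure X) [IsProbabilityMeasure μ] (hm : m ≤ mX) {f : X → ℂ} (hf : BM f) :
    ∫ x, ‖f x - (μ[f | m]) x‖ ^ 2 ∂μ = ∫ x, ‖f x‖ ^ 2 ∂μ - ∫ x, ‖(μ[f | m]) x‖ ^ 2 ∂μ := by
  obtain ⟨h1, C, hC⟩ := hf
  exact ax1_pyth m μ hm h1.aestronglyMeasurable (Eventually.of_forall hC)

/-- **AX2.** Pythagoras for nested σ-algebras. -/
theorem condExp_pythagoras {X : Type} (m m' : MeasurableSpace X) [mX : MeasurableSpace X]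
    (μ : Measure X) [IsProbabilityMeasure μ] (h : m ≤ m') (hm' : m' ≤ mX) {f : X → ℂ}
    (hf : BM f) :
    ∫ x, ‖(μ[f | m']) x‖ ^ 2 ∂μ = ∫ x, ‖(μ[f | m]) x‖ ^ 2 ∂μ +
      ∫ x, ‖(μ[f | m']) x - (μ[f | m]) x‖ ^ 2 ∂μ := by
  obtain ⟨h1, C, hC⟩ := hf
  have hER : ∀ᵐ x ∂μ, ‖(μ[f | m']) x‖ ≤ C :=
    ae_bdd_norm_condExp_of_ae_bdd_norm (Eventually.of_forall hC)
  have hEs : AEStronglyMeasurable (μ[f | m']) μ :=
    (stronglyMeasurable_condExp.mono hm').aestronglyMeasurable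
  have h2 := ax1_pyth m μ (h.trans hm') hEs hER
  have h3 : μ[μ[f | m'] | m] =ᵐ[μ] μ[f | m] := condExp_condExp_of_le h hm'
  have h4 : ∫ x, ‖(μ[f | m']) x - (μ[μ[f | m'] | m]) x‖ ^ 2 ∂μ =
      ∫ x, ‖(μ[f | m']) x - (μ[f | m]) x‖ ^ 2 ∂μ := by
    refine integral_congr_ae ?_
    filter_upwards [h3] with x hx
    rw [hx]
  have h5 : ∫ x, ‖(μ[μ[f | m'] | m]) x‖ ^ 2 ∂μ = ∫ x, ‖(μ[f | m]) x‖ ^ 2 ∂μ := by
    refine integral_congr_ae ?_
    filter_upwards [h3] with x hx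
    rw [hx]
  rw [h4, h5] at h2
  linarith

theorem ax1_ae {X : Type} (m : ℕ → MeasurableSpace X) [mX : MeasurableSpace X]
    (μ : Measure X) [IsProbabilityMeasure μ] (hm : ∀ n, m n ≤ mX) (hmono : Monotone m)
    {f : X → ℂ} (hf : Integrable f μ) :
    ∀ᵐ x ∂μ, Tendsto (fun n => (μ[f | m n]) x) atTop (𝓝 ((μ[f | ⨆ n, m n]) x)) := by
  let F : Filtration ℕ mX := ⟨m, hmono, hm⟩
  have hre := MeasureTheory.tendsto_ae_condExp (μ := μ) (ℱ := F) (fun x => Complex.reCLM (f x))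
  have him := MeasureTheory.tendsto_ae_condExp (μ := μ) (ℱ := F) (fun x => Complex.imCLM (f x))
  have e1 : ∀ᵐ x ∂μ, ∀ n, Complex.reCLM ((μ[f | m n]) x) =
      (μ[fun x => Complex.reCLM (f x) | m n]) x := by
    rw [ae_all_iff]
    intro n
    exact Complex.reCLM.comp_condExp_comm hf
  have e2 : ∀ᵐ x ∂μ, ∀ n, Complex.imCLM ((μ[f | m n]) x) =
      (μ[fun x => Complex.imCLM (f x) | m n]) x := by
    rw [ae_all_iff]
    intro n
    exact Complex.imCLM.comp_condExp_comm hf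
  have e3 : ∀ᵐ x ∂μ, Complex.reCLM ((μ[f | ⨆ n, m n]) x) =
      (μ[fun x => Complex.reCLM (f x) | ⨆ n, m n]) x :=
    Complex.reCLM.comp_condExp_comm hf
  have e4 : ∀ᵐ x ∂μ, Complex.imCLM ((μ[f | ⨆ n, m n]) x) =
      (μ[fun x => Complex.imCLM (f x) | ⨆ n, m n]) x :=
    Complex.imCLM.comp_condExp_comm hf
  filter_upwards [hre, him, e1, e2, e3, e4] with x h1 h2 h3 h4 h5 h6
  have h1' : Tendsto (fun n => ((μ[f | m n]) x).re) atTop (𝓝 ((μ[f | ⨆ n, m n]) x).re) := by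
    have h7 : ((μ[f | ⨆ n, m n]) x).re = (μ[fun x => Complex.reCLM (f x) | ⨆ n, m n]) x := h5
    rw [h7]
    exact h1.congr fun n => (h3 n).symm
  have h2' : Tendsto (fun n => ((μ[f | m n]) x).im) atTop (𝓝 ((μ[f | ⨆ n, m n]) x).im) := by
    have h7 : ((μ[f | ⨆ n, m n]) x).im = (μ[fun x => Complex.imCLM (f x) | ⨆ n, m n]) x := h6
    rw [h7]
    exact h2.congr fun n => (h4 n).symm
  have h8 := Complex.equivRealProdCLM.symm.continuous.continuousAt.tendsto.comp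
    (h1'.prodMk_nhds h2')
  exact h8

/-- **AX1.** Martingale convergence in `L²` for bounded complex functions
(`tendsto_ae_condExp` for the real and imaginary parts, dominated convergence). -/
theorem condExp_tendsto {X : Type} (m : ℕ → MeasurableSpace X) [mX : MeasurableSpace X]
    (μ : Measure X) [IsProbabilityMeasure μ] (hm : ∀ n, m n ≤ mX) (hmono : Monotone m)
    {f : X → ℂ} (hf : BM f) :
    Tendsto (fun n => ∫ x, ‖(μ[f | m n]) x - (μ[f | ⨆ n, m n]) x‖ ^ 2 ∂μ) atTop (𝓝 0) := by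
  obtain ⟨h1, C, hC⟩ := hf
  have hfi : Integrable f μ := Integrable.of_bound h1.aestronglyMeasurable C
    (Eventually.of_forall hC)
  have hae := ax1_ae m μ hm hmono hfi
  have hle : (⨆ n, m n) ≤ mX := iSup_le hm
  have hEn : ∀ n, ∀ᵐ x ∂μ, ‖(μ[f | m n]) x‖ ≤ C := fun n =>
    ae_bdd_norm_condExp_of_ae_bdd_norm (Eventually.of_forall hC)
  have hE : ∀ᵐ x ∂μ, ‖(μ[f | ⨆ n, m n]) x‖ ≤ C :=
    ae_bdd_norm_condExp_of_ae_bdd_norm (Eventually.of_forall hC)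
  have key := tendsto_integral_of_dominated_convergence (μ := μ)
    (F := fun n x => ‖(μ[f | m n]) x - (μ[f | ⨆ n, m n]) x‖ ^ 2) (f := fun _ => (0 : ℝ))
    (fun _ => (C + C) ^ 2) ?_ (integrable_const _) ?_ ?_
  · simpa using key
  · intro n
    have a1 : AEStronglyMeasurable (μ[f | m n]) μ :=
      (stronglyMeasurable_condExp.mono (hm n)).aestronglyMeasurable
    have a2 : AEStronglyMeasurable (μ[f | ⨆ n, m n]) μ :=
      (stronglyMeasurable_condExp.mono hle).aestronglyMeasurable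
    exact (a1.sub a2).norm.pow 2
  · intro n
    filter_upwards [hEn n, hE] with x h2 h3
    rw [Real.norm_eq_abs, abs_of_nonneg (by positivity)]
    have h4 : ‖(μ[f | m n]) x - (μ[f | ⨆ n, m n]) x‖ ≤ C + C :=
      (norm_sub_le _ _).trans (add_le_add h2 h3)
    exact pow_le_pow_left₀ (norm_nonneg _) h4 2
  · filter_upwards [hae] with x hx
    have h2 : Tendsto (fun n => (μ[f | m n]) x - (μ[f | ⨆ n, m n]) x) atTop (𝓝 0) := by
      have := hx.sub_const ((μ[f | ⨆ n, m n]) x)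
      simpa using this
    have h3 := (h2.norm.pow 2)
    simpa using h3

end Pool.Agent.HK820
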