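import Pool.Agent.Lib_MP_820dd4_hk.FA

/-! ### Part `CD1` -/

section

open MeasureTheory ProbabilityTheory Filter Topology
open scoped ComplexConjugate ENNReal

namespace Pool.Agent.HK820

/-- Mean ergodic theorem in `L¹`, for a bounded version of the limit. -/
private theorem cd1_l1 {Y : Type} [MeasurableSpace Y] (ρ : Measure Y) [IsProbabilityMeasure ρ]
    {S : Y ≃ᵐ Y} (hS : MeasurePreserving S ρ ρ) {H h : Y → ℂ} (hH : BM H) (hh : BM h)
    (he : ρ[H | Inv S] =ᵐ[ρ] h) :
    Tendsto (fun N : ℕ => ∫⁻ y, ‖avg S N H y - h y‖ₑ ∂ρ) atTop (𝓝 0) := by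
  have h1 := avg2_tendsto_ver ρ S hS hH he
  have hk : ∀ N, BM (fun y => avg S N H y - h y) :=
    fun N => BMs.sub (avg2_bm S.measurable hH N) hh
  have h2 : Tendsto (fun N : ℕ => Real.sqrt (∫ y, ‖avg S N H y - h y‖ ^ 2 ∂ρ)) atTop (𝓝 0) := by
    have h := (Real.continuous_sqrt.tendsto 0).comp h1
    rwa [Real.sqrt_zero] at h
  have h3 : Tendsto (fun N : ℕ => ∫ y, ‖avg S N H y - h y‖ ∂ρ) atTop (𝓝 0) := by
    refine squeeze_zero (fun N => integral_nonneg fun y => norm_nonneg _) (fun N => ?_) h2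
    exact Real.le_sqrt_of_sq_le (avg2_sq_le ρ (hk N))
  have h4 := ENNReal.tendsto_ofReal h3
  rw [ENNReal.ofReal_zero] at h4
  refine h4.congr fun N => ?_
  exact ofReal_integral_norm_eq_lintegral_enorm ((hk N).integrable ρ)

/-- **CD1.** If an invariant measure is an average of invariant measures, conditional expectations
on the invariant sets agree almost everywhere for almost all of them.

Proof. `avg S N H → ν[H | Inv S]` in `L²(ν)` (AVG1), i.e.
`∫ (∫ ‖avg S N H - ν[H|Inv S]‖² ∂(P x)) ∂μ → 0`; along a subsequence the inner integral tends to `0`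
for almost every `x`. On the other hand `avg S N H → (P x)[H | Inv S]` in `L²(P x)`. So the two
limits agree `P x`-almost everywhere. -/
theorem condExp_inv_bind {X Y : Type} [MeasurableSpace X] [MeasurableSpace Y] {μ : Measure X}
    [IsProbabilityMeasure μ] {ν : Measure Y} [IsProbabilityMeasure ν] {S : Y ≃ᵐ Y}
    (hS : MeasurePreserving S ν ν) {P : X → Measure Y} (hP : AEMeasurable P μ)
    (hP1 : ∀ x, IsProbabilityMeasure (P x)) (hPS : ∀ᵐ x ∂μ, MeasurePreserving S (P x) (P x))
    (hb : μ.bind P = ν) {H : Y → ℂ} (hH : BM H) :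
    ∀ᵐ x ∂μ, (P x)[H | Inv S] =ᵐ[P x] ν[H | Inv S] := by
  have hle : Inv (S : Y → Y) ≤ ‹MeasurableSpace Y› := MeasurableSpace.invariants_le S
  obtain ⟨hH1, C, hC⟩ := id hH
  obtain ⟨g, hg1, hg2, hg3⟩ := exists_bms_condExp (Inv S) ν hle hH1 hC
  have hg : BM g := ⟨hg1.mono hle le_rfl, C, hg2⟩
  have hPP' : ∀ᵐ x ∂μ, P x = hP.mk P x := hP.ae_eq_mk
  have hmeas : ∀ N, Measurable fun y => ‖avg S N H y - g y‖ₑ := fun N =>
    ((avg2_bm S.measurable hH N).1.sub hg.1).enorm
  have hF : ∀ N, Measurable fun x => ∫⁻ y, ‖avg S N H y - g y‖ₑ ∂(hP.mk P x) := fun N =>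
    (Measure.measurable_lintegral (hmeas N)).comp hP.measurable_mk
  have hint : ∀ N, ∫⁻ x, ∫⁻ y, ‖avg S N H y - g y‖ₑ ∂(hP.mk P x) ∂μ =
      ∫⁻ y, ‖avg S N H y - g y‖ₑ ∂ν := by
    intro N
    rw [← hb, Measure.lintegral_bind hP (hmeas N).aemeasurable]
    refine lintegral_congr_ae ?_
    filter_upwards [hPP'] with x hx
    rw [← hx]
  have hlim := cd1_l1 ν hS hH hg hg3
  have hzero : ∫⁻ x, liminf (fun N => ∫⁻ y, ‖avg S N H y - g y‖ₑ ∂(hP.mk P x)) atTop ∂μ = 0 := by
    refine le_antisymm ((lintegral_liminf_le hF).trans ?_) bot_le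
    simp only [hint]
    rw [hlim.liminf_eq]
  have hae := (lintegral_eq_zero_iff (Measurable.liminf hF)).mp hzero
  have hgP : ∀ᵐ x ∂μ, ∀ᵐ y ∂(P x), (ν[H | Inv S]) y = g y := by
    refine Measure.ae_ae_of_ae_bind hP ?_
    rw [hb]
    exact hg3
  filter_upwards [hae, hPP', hPS, hgP] with x h1 h2 h3 h4
  have hpx := hP1 x
  obtain ⟨gx, hx1, hx2, hx3⟩ := exists_bms_condExp (Inv S) (P x) hle hH1 hC
  have hgx : BM gx := ⟨hx1.mono hle le_rfl, C, hx2⟩
  have h5 := cd1_l1 (P x) h3 hH hgx hx3
  have h6 : ∫⁻ y, ‖g y - gx y‖ₑ ∂(P x) = 0 := by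
    by_contra hne
    have hpos : 0 < (∫⁻ y, ‖g y - gx y‖ₑ ∂(P x)) / 2 := ENNReal.half_pos hne
    have h7 : ∃ᶠ N in atTop, ∫⁻ y, ‖avg S N H y - g y‖ₑ ∂(hP.mk P x) <
        (∫⁻ y, ‖g y - gx y‖ₑ ∂(P x)) / 2 := by
      refine frequently_lt_of_liminf_lt (by isBoundedDefault) ?_
      rw [h1]
      exact hpos
    have h8 : ∀ᶠ N in atTop, ∫⁻ y, ‖avg S N H y - gx y‖ₑ ∂(P x) <
        (∫⁻ y, ‖g y - gx y‖ₑ ∂(P x)) / 2 := h5.eventually_lt_const hpos
    obtain ⟨N, h9, h10⟩ := (h7.and_eventually h8).exists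
    have h11 : ∫⁻ y, ‖g y - gx y‖ₑ ∂(P x) ≤
        ∫⁻ y, ‖avg S N H y - g y‖ₑ ∂(P x) + ∫⁻ y, ‖avg S N H y - gx y‖ₑ ∂(P x) := by
      rw [← lintegral_add_left (hmeas N)]
      refine lintegral_mono fun y => ?_
      calc ‖g y - gx y‖ₑ = ‖(avg S N H y - gx y) - (avg S N H y - g y)‖ₑ := by
            congr 1
            ring
        _ ≤ ‖avg S N H y - gx y‖ₑ + ‖avg S N H y - g y‖ₑ := enorm_sub_le
        _ = ‖avg S N H y - g y‖ₑ + ‖avg S N H y - gx y‖ₑ := add_comm _ _
    rw [← h2] at h9
    have h12 := h11.trans_lt (ENNReal.add_lt_add h9 h10)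
    rw [ENNReal.add_halves] at h12
    exact lt_irrefl _ h12
  have h7 := (lintegral_eq_zero_iff (hg.1.sub hgx.1).enorm).mp h6
  filter_upwards [h7, h4, hx3] with y h8 h9 h10
  have h11 : ‖g y - gx y‖ₑ = 0 := h8
  rw [enorm_eq_zero, sub_eq_zero] at h11
  rw [h9, h10, h11]

end Pool.Agent.HK820

end

/-! ### Part `CD2` -/

section

open MeasureTheory ProbabilityTheory Filter Topology
open scoped ComplexConjugate ENNReal

namespace Pool.Agent.HK820

/-- countable generating algebra, with the whole space -/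
private theorem cd2_gen (Y : Type) [mY : MeasurableSpace Y] [StandardBorelSpace Y] :
    ∃ C : Set (Set Y), C.Countable ∧ mY = MeasurableSpace.generateFrom C ∧ IsPiSystem C ∧
      (∀ A ∈ C, MeasurableSet A) ∧ Set.univ ∈ C := by
  have hgen : mY = MeasurableSpace.generateFrom
      (generateSetAlgebra (MeasurableSpace.countableGeneratingSet Y)) := by
    rw [generateFrom_generateSetAlgebra_eq]
    exact MeasurableSpace.generateFrom_countableGeneratingSet.symm
  refine ⟨generateSetAlgebra (MeasurableSpace.countableGeneratingSet Y),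
    countable_generateSetAlgebra (MeasurableSpace.countable_countableGeneratingSet), hgen,
    fun s hs t ht _ => isSetAlgebra_generateSetAlgebra.inter_mem hs ht, ?_,
    isSetAlgebra_generateSetAlgebra.univ_mem⟩
  intro A hA
  rw [hgen]
  exact MeasurableSpace.measurableSet_generateFrom hA

/-- a.e. measurability of a family of probability measures can be checked on a countable
π-system -/
private theorem cd2_aem {X Y : Type} [MeasurableSpace X] [mY : MeasurableSpace Y]
    {μ : Measure X} {P : X → Measure Y} (hP1 : ∀ x, IsProbabilityMeasure (P x))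
    {C : Set (Set Y)} (hCc : C.Countable) (hgen : mY = MeasurableSpace.generateFrom C)
    (hpi : IsPiSystem C) (h : ∀ A ∈ C, AEMeasurable (fun x => P x A) μ) : AEMeasurable P μ := by
  classical
  rcases isEmpty_or_nonempty X with hX | ⟨⟨x0⟩⟩
  · exact (measurable_of_empty P).aemeasurable
  choose! g hg1 hg2 using h
  have h1 : ∀ᵐ x ∂μ, ∀ A ∈ C, P x A = g A x := (ae_ball_iff hCc).2 hg2
  obtain ⟨N, hN1, hN2, hN3⟩ := exists_measurable_superset_of_null (ae_iff.1 h1)
  have hE : ∀ x, x ∉ N → ∀ A ∈ C, P x A = g A x := by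
    intro x hx
    by_contra hcon
    exact hx (hN1 hcon)
  set P' : X → Measure Y := fun x => if x ∈ N then P x0 else P x with hP'
  have hP'1 : ∀ x, IsProbabilityMeasure (P' x) := by
    intro x
    by_cases hx : x ∈ N
    · rw [hP']; simp only [if_pos hx]; exact hP1 x0
    · rw [hP']; simp only [if_neg hx]; exact hP1 x
  refine ⟨P', ?_, ?_⟩
  · refine Measurable.measure_of_isPiSystem_of_isProbabilityMeasure hgen hpi ?_
    intro A hA
    have h2 : (fun x => P' x A) = fun x => if x ∈ N then P x0 A else g A x := by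
      funext x
      by_cases hx : x ∈ N
      · simp only [hP', if_pos hx]
      · simp only [hP', if_neg hx]
        exact hE x hx A hA
    rw [h2]
    exact Measurable.ite hN2 measurable_const (hg1 A hA)
  · have h3 : ∀ᵐ x ∂μ, x ∉ N := by
      rw [ae_iff]
      simpa using hN3
    filter_upwards [h3] with x hx
    simp only [hP', if_neg hx]

/-- a measurable version consisting of probability measures -/
private theorem cd2_version {X Y : Type} [MeasurableSpace X] [mY : MeasurableSpace Y]
    {μ : Measure X} {P : X → Measure Y} (hP1 : ∀ x, IsProbabilityMeasure (P x))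
    (hP : AEMeasurable P μ) :
    ∃ P' : X → Measure Y, Measurable P' ∧ (∀ x, IsProbabilityMeasure (P' x)) ∧ P =ᵐ[μ] P' := by
  classical
  rcases isEmpty_or_nonempty X with hX | ⟨⟨x0⟩⟩
  · exact ⟨P, measurable_of_empty P, hP1, ae_eq_refl _⟩
  set Q := hP.mk P with hQ
  have hQm : Measurable Q := hP.measurable_mk
  have hs : MeasurableSet {x | Q x Set.univ = 1} :=
    ((Measure.measurable_coe MeasurableSet.univ).comp hQm) (measurableSet_singleton 1)
  refine ⟨fun x => if Q x Set.univ = 1 then Q x else P x0, ?_, ?_, ?_⟩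
  · exact Measurable.ite hs hQm measurable_const
  · intro x
    by_cases hx : Q x Set.univ = 1
    · simp only [if_pos hx]
      exact ⟨hx⟩
    · simp only [if_neg hx]
      exact hP1 x0
  · filter_upwards [hP.ae_eq_mk] with x hx
    have h1 : Q x Set.univ = 1 := by
      rw [hQ, ← hx]
      exact (hP1 x).measure_univ
    simp only [if_pos h1]
    exact hx

/-- integration against an average of measures -/
private theorem cd2_int {X Y : Type} [MeasurableSpace X] [mY : MeasurableSpace Y]
    {μ : Measure X} [IsProbabilityMeasure μ] {P : X → Measure Y}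
    (hP1 : ∀ x, IsProbabilityMeasure (P x))
    (hP : AEMeasurable P μ) {G : Y → ℂ} (hG : BM G) :
    AEMeasurable (fun x => ∫ y, G y ∂(P x)) μ ∧
      ∫ x, ∫ y, G y ∂(P x) ∂μ = ∫ y, G y ∂(μ.bind P) := by
  obtain ⟨P', h1, h2, h3⟩ := cd2_version hP1 hP
  have hk : IsMarkovKernel (⟨P', h1⟩ : Kernel X Y) := ⟨h2⟩
  have hb : μ.bind P = μ.bind P' := Measure.bind_congr_right h3
  have hbp : IsProbabilityMeasure (μ.bind P') := by
    refine ⟨?_⟩
    rw [Measure.bind_apply MeasurableSet.univ h1.aemeasurable]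
    simp
  have h4 : (fun x => ∫ y, G y ∂(P x)) =ᵐ[μ] fun x => ∫ y, G y ∂(P' x) := by
    filter_upwards [h3] with x hx
    rw [hx]
  constructor
  · refine AEMeasurable.congr ?_ h4.symm
    have h5 : StronglyMeasurable (fun x => ∫ y, G y ∂((⟨P', h1⟩ : Kernel X Y) x)) :=
      StronglyMeasurable.integral_kernel hG.1.stronglyMeasurable
    exact h5.measurable.aemeasurable
  · rw [integral_congr_ae h4, hb]
    have hint : Integrable G (μ.bind P') := hG.integrable _
    have h1' : μ.bind P' = ((⟨P', h1⟩ : Kernel X Y) ∘ₖ (Kernel.const Unit μ)) () :=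
      Measure.comp_eq_comp_const_apply (κ := (⟨P', h1⟩ : Kernel X Y)) (μ := μ)
    rw [h1'] at hint ⊢
    rw [Kernel.integral_comp hint]
    rfl

private theorem cd2_bind_map {X Y Z : Type} [MeasurableSpace X] [MeasurableSpace Y]
    [MeasurableSpace Z] {μ : Measure X} {P : X → Measure Y} (hP : AEMeasurable P μ) {f : Y → Z}
    (hf : Measurable f) :
    AEMeasurable (fun x => (P x).map f) μ ∧
      μ.bind (fun x => (P x).map f) = (μ.bind P).map f := by
  have h1 : AEMeasurable (fun x => (P x).map f) μ :=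
    (Measure.measurable_map f hf).comp_aemeasurable hP
  refine ⟨h1, ?_⟩
  ext s hs
  rw [Measure.bind_apply hs h1, Measure.map_apply hf hs, Measure.bind_apply (hf hs) hP]
  refine lintegral_congr fun x => ?_
  rw [Measure.map_apply hf hs]

private theorem cd2_box {ι Y : Type} [Fintype ι] (A : ι → Set Y) (z : ι → Y) :
    (Set.pi Set.univ A).indicator (fun _ => (1 : ℂ)) z =
      ∏ i, (A i).indicator (fun _ => (1 : ℂ)) (z i) := by
  classical
  by_cases h : z ∈ Set.pi Set.univ A
  · rw [Set.indicator_of_mem h]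
    rw [Finset.prod_eq_one]
    intro i _
    rw [Set.indicator_of_mem (h i (Set.mem_univ i))]
  · rw [Set.indicator_of_notMem h]
    have h1 : ∃ i, z i ∉ A i := by
      by_contra hcon
      push Not at hcon
      exact h fun i _ => hcon i
    obtain ⟨i, hi⟩ := h1
    rw [Finset.prod_eq_zero (Finset.mem_univ i)]
    rw [Set.indicator_of_notMem hi]

/-- relatively independent powers over the invariant sets commute with averages of measures -/
private theorem cd2_relInd {X Y : Type} [MeasurableSpace X] [mY : MeasurableSpace Y]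
    [StandardBorelSpace Y] {μ : Measure X}
    [IsProbabilityMeasure μ] {ν : Measure Y} [IsProbabilityMeasure ν] {S : Y ≃ᵐ Y}
    (hS : MeasurePreserving S ν ν) {P : X → Measure Y} (hP : AEMeasurable P μ)
    (hP1 : ∀ x, IsProbabilityMeasure (P x)) (hPS : ∀ᵐ x ∂μ, MeasurePreserving S (P x) (P x))
    (hb : μ.bind P = ν) (ι : Type) [Fintype ι] :
    AEMeasurable (fun x => relInd (Inv S) (P x) ι) μ ∧
      μ.bind (fun x => relInd (Inv S) (P x) ι) = relInd (Inv S) ν ι := by
  classical
  obtain ⟨C, hCc, hgen, hpi, hmeas, huniv⟩ := cd2_gen Y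
  have hm : Inv (S : Y → Y) ≤ mY := MeasurableSpace.invariants_le S
  set C' : Set (Set (ι → Y)) := Set.pi Set.univ '' Set.pi Set.univ (fun _ : ι => C) with hC'
  have hC'c : C'.Countable := by
    rw [hC']
    refine Set.Countable.image ?_ _
    exact Set.countable_univ_pi fun _ => hCc
  have hC'pi : IsPiSystem C' := IsPiSystem.pi fun _ => hpi
  have hC'gen : (MeasurableSpace.pi : MeasurableSpace (ι → Y)) =
      MeasurableSpace.generateFrom C' := by
    have h1 : ∀ _ : ι, IsCountablySpanning C := fun _ =>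
      ⟨fun _ => Set.univ, fun _ => huniv, Set.iUnion_const _⟩
    have h2 := generateFrom_pi_eq h1
    rw [hC', ← h2]
    congr 1
    funext _
    exact hgen
  have hR : ∀ x, IsProbabilityMeasure (relInd (Inv S) (P x) ι) := fun x =>
    relInd_prob (Inv S) (P x) ι
  have hR0 : IsProbabilityMeasure (relInd (Inv S) ν ι) := relInd_prob (Inv S) ν ι
  -- the measures of boxes
  have hkey : ∀ A : ι → Set Y, (∀ i, A i ∈ C) →
      ∃ G : Y → ℂ, BM G ∧
        (∀ᵐ x ∂μ, (((relInd (Inv S) (P x) ι).real (Set.pi Set.univ A) : ℝ) : ℂ) =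
          ∫ y, G y ∂(P x)) ∧
        (((relInd (Inv S) ν ι).real (Set.pi Set.univ A) : ℝ) : ℂ) = ∫ y, G y ∂ν := by
    intro A hA
    have hH : ∀ i, BM ((A i).indicator (fun _ : Y => (1 : ℂ))) := fun i =>
      erg_bm_ind (hmeas _ (hA i))
    have hbox : MeasurableSet (Set.pi Set.univ A) :=
      MeasurableSet.univ_pi fun i => hmeas _ (hA i)
    have hval : ∀ (R : Measure (ι → Y)), ((R.real (Set.pi Set.univ A) : ℝ) : ℂ) =
        ∫ z, ∏ i, (A i).indicator (fun _ : Y => (1 : ℂ)) (z i) ∂(R) := by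
      intro R
      rw [← erg_int_ind hbox R]
      refine integral_congr_ae (ae_of_all _ fun z => ?_)
      exact cd2_box A z
    have hex : ∀ i, ∃ g : Y → ℂ, Measurable[Inv (S : Y → Y)] g ∧ (∀ x, ‖g x‖ ≤ 1) ∧
        ν[(A i).indicator (fun _ : Y => (1 : ℂ)) | Inv S] =ᵐ[ν] g := by
      intro i
      refine exists_bms_condExp (Inv S) ν hm (hH i).1 ?_
      intro x
      by_cases hx : x ∈ A i
      · rw [Set.indicator_of_mem hx]; simp
      · rw [Set.indicator_of_notMem hx]; simp
    choose g hg1 hg2 hg3 using hex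
    refine ⟨fun y => ∏ i, g i y, ?_, ?_, ?_⟩
    · refine BMs.prod _ fun i => ?_
      exact ⟨(hg1 i).mono hm le_rfl, 1, hg2 i⟩
    · have h1 : ∀ i, ∀ᵐ x ∂μ, (P x)[(A i).indicator (fun _ : Y => (1 : ℂ)) | Inv S] =ᵐ[P x] g i := by
        intro i
        have h2 := condExp_inv_bind hS hP hP1 hPS hb (hH i)
        have h3 : ∀ᵐ x ∂μ, ∀ᵐ y ∂(P x),
            (ν[(A i).indicator (fun _ : Y => (1 : ℂ)) | Inv S]) y = g i y := by
          refine Measure.ae_ae_of_ae_bind hP ?_
          rw [hb]
          exact hg3 i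
        filter_upwards [h2, h3] with x hx1 hx2
        exact hx1.trans hx2
      filter_upwards [ae_all_iff.2 h1] with x hx
      rw [hval, relInd_prod (Inv S) (P x) hm hH]
      refine integral_congr_ae ?_
      filter_upwards [ae_all_iff.2 hx] with y hy
      exact Finset.prod_congr rfl fun i _ => hy i
    · rw [hval, relInd_prod (Inv S) ν hm hH]
      refine integral_congr_ae ?_
      filter_upwards [ae_all_iff.2 hg3] with y hy
      exact Finset.prod_congr rfl fun i _ => hy i
  have hconv : ∀ {R : Measure (ι → Y)} [IsProbabilityMeasure R] {B : Set (ι → Y)} {c : ℂ},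
      ((R.real B : ℝ) : ℂ) = c → R B = ENNReal.ofReal c.re := by
    intro R _ B c h
    rw [← h, Complex.ofReal_re, ofReal_measureReal]
  have hAEM : AEMeasurable (fun x => relInd (Inv S) (P x) ι) μ := by
    refine cd2_aem hR hC'c hC'gen hC'pi ?_
    rintro _ ⟨A, hA, rfl⟩
    obtain ⟨G, hG, h1, -⟩ := hkey A fun i => hA i (Set.mem_univ i)
    have h2 := (cd2_int hP1 hP hG).1
    refine AEMeasurable.congr (ENNReal.measurable_ofReal.comp_aemeasurable
      (Complex.measurable_re.comp_aemeasurable h2)) ?_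
    filter_upwards [h1] with x hx
    exact (hconv hx).symm
  refine ⟨hAEM, ?_⟩
  have hbp : IsProbabilityMeasure (μ.bind (fun x => relInd (Inv S) (P x) ι)) := by
    refine ⟨?_⟩
    rw [Measure.bind_apply MeasurableSet.univ hAEM]
    simp
  refine ext_of_generate_finite C' hC'gen hC'pi ?_ (by rw [measure_univ, measure_univ])
  rintro _ ⟨A, hA, rfl⟩
  obtain ⟨G, hG, h1, h3⟩ := hkey A fun i => hA i (Set.mem_univ i)
  have hbox : MeasurableSet (Set.pi Set.univ A) :=
    MeasurableSet.univ_pi fun i => hmeas _ (hA i (Set.mem_univ i))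
  have h2 := (cd2_int hP1 hP hG).2
  have h4 : ((μ.bind (fun x => relInd (Inv S) (P x) ι)).real (Set.pi Set.univ A) : ℂ) =
      ∫ y, G y ∂ν := by
    rw [← hb, ← h2, ← erg_int_ind hbox, ← (cd2_int hR hAEM (erg_bm_ind hbox)).2]
    refine integral_congr_ae ?_
    filter_upwards [h1] with x hx
    rw [erg_int_ind hbox]
    exact hx
  rw [hconv h4, hconv h3]

/-- **CD2.** The cube measure of a system is the average of the cube measures of its ergodic
components.

Proof. Induction on `D`. `D = 0`: `bind_condExpKernel` mapped to arrays. `D + 1`: write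
`κ x = condExpKernel μ (Inv T) x`. For bounded measurable `H i` on `Arr ι X D`, by `cube_prod` for
`κ x` (which is invariant for almost every `x`, `ergodic_decomp`) and CD1 (for `P x = cube (κ x) T ι
D`, by induction),
`∫ ∏ H i (slice i) ∂(cube (κ x) (D+1)) = ∫ ∏ E_{cube (κ x)}[H i|Inv] ∂(cube (κ x) D)
= ∫ ∏ E_{cube μ}[H i|Inv] ∂(cube (κ x) D)` for almost every `x`; by induction this is an a.e.
measurable function of `x` with integral `∫ ∏ E_{cube μ}[H i|Inv] ∂(cube μ D) =
∫ ∏ H i (slice i) ∂(cube μ (D+1))`. Taking for `H i` indicators of sets of a countable generating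
π-system gives a.e. measurability (`Measurable.measure_of_isPiSystem_of_isProbabilityMeasure` after
changing the family on a null set) and the equality of the measures. -/
theorem cube_decomp {X : Type} [MeasurableSpace X] [StandardBorelSpace X] (μ : Measure X)
    [IsProbabilityMeasure μ] (T : X ≃ᵐ X) (hT : MeasurePreserving T μ μ) (ι : Type) [Fintype ι]
    (D : ℕ) :
    AEMeasurable (fun x => cube (condExpKernel μ (Inv T) x) T ι D) μ ∧
      μ.bind (fun x => cube (condExpKernel μ (Inv T) x) T ι D) = cube μ T ι D := by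
  have hm : Inv (T : X → X) ≤ ‹MeasurableSpace X› := MeasurableSpace.invariants_le T
  have hK : ∀ x, IsProbabilityMeasure (condExpKernel μ (Inv T) x) := fun x =>
    relA_prob (Inv T) μ x
  induction D with
  | zero =>
    have hc : Measurable (fun (x : X) (_ : Fin 0 → ι) => x) :=
      measurable_pi_lambda _ fun _ => measurable_id
    have h1 := cd2_bind_map (μ := μ) (relA_meas (Inv T) μ).aemeasurable hc
    refine ⟨h1.1, ?_⟩
    refine h1.2.trans ?_
    rw [bind_condExpKernel (Inv T) μ hm]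
    rfl
  | succ D ih =>
    have h1 : ∀ᵐ x ∂μ, MeasurePreserving (tArr T ι D) (cube (condExpKernel μ (Inv T) x) T ι D)
        (cube (condExpKernel μ (Inv T) x) T ι D) := by
      filter_upwards [erg_mp μ T hT] with x hx
      exact cube_tArr _ T hx ι D
    have h2 := cd2_relInd (cube_tArr μ T hT ι D) ih.1 (fun x => inferInstance) h1 ih.2 ι
    have h3 := cd2_bind_map h2.1 (measurable_glue (ι := ι) (X := X) (D := D))
    refine ⟨h3.1, ?_⟩
    refine h3.2.trans ?_
    rw [h2.2]
    rfl

end Pool.Agent.HK820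

end
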