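import Pool.Agent.Lib_MP_820dd4_hk.CE3A
import Pool.Agent.Lib_MP_820dd4_hk.CE4
import Pool.Agent.Lib_MP_820dd4_hk.MKC

/-! ### Part `CE1S` -/

section

/-!
# Part II, block CE1S: compact covers and Borel sections of `GG d → KK d Γ`
-/

open MeasureTheory ProbabilityTheory Filter Topology
open scoped ComplexConjugate ENNReal

namespace Pool.Agent.HK820

/-- Criterion for compactness of the quotient: a compact set which meets every coset. -/
theorem compactSpace_of_cover (d : ND) (Γ : Subgroup (GG d)) (C : Set (GG d)) (hC : IsCompact C)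
    (h : ∀ g : GG d, ∃ c ∈ C, ∃ γ ∈ Γ, g = c * γ) : CompactSpace (KK d Γ) := by
  refine ⟨?_⟩
  have h1 : (Set.univ : Set (KK d Γ)) = KK.proj d Γ '' C := by
    symm
    rw [Set.eq_univ_iff_forall]
    intro y
    obtain ⟨g, rfl⟩ := kk_proj_surjective d Γ y
    obtain ⟨c, hc, γ, hγ, rfl⟩ := h g
    refine ⟨c, hc, ?_⟩
    rw [kk_proj_eq, inv_mul_cancel_left]
    exact hγ
  rw [h1]
  exact hC.image (kk_continuous_proj d Γ)

/-- Criterion for discreteness: a neighbourhood of `1` which meets the subgroup only in `1`. -/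
theorem discrete_of_nhds (d : ND) (Γ : Subgroup (GG d)) (U : Set (GG d)) (hU : U ∈ 𝓝 (1 : GG d))
    (h : ∀ g ∈ U, g ∈ Γ → g = 1) : DiscreteTopology Γ := by
  refine discreteTopology_of_isOpen_singleton_one ?_
  rw [isOpen_iff_mem_nhds]
  intro x hx
  rw [Set.mem_singleton_iff] at hx
  subst hx
  have h1 : (fun x : Γ => (x : GG d)) ⁻¹' U ∈ 𝓝 (1 : Γ) :=
    continuous_subtype_val.continuousAt.preimage_mem_nhds hU
  refine Filter.mem_of_superset h1 ?_
  intro x hx
  rw [Set.mem_singleton_iff]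
  exact Subtype.ext (h _ hx x.2)

/-- a discrete subgroup meets some neighbourhood of `1` only in `1` -/
theorem nhds_of_discrete (d : ND) (Γ : Subgroup (GG d)) (h : DiscreteTopology Γ) :
    ∃ W ∈ 𝓝 (1 : GG d), ∀ g ∈ W, g ∈ Γ → g = 1 := by
  have h1 : IsOpen ({1} : Set Γ) := isOpen_discrete _
  obtain ⟨W, hW, hW1⟩ := isOpen_induced_iff.1 h1
  refine ⟨W, hW.mem_nhds ?_, ?_⟩
  · have h2 : (1 : Γ) ∈ (Subtype.val ⁻¹' W : Set Γ) := by
      rw [hW1]
      exact rfl
    exact h2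
  · intro g hg hgΓ
    have h2 : (⟨g, hgΓ⟩ : Γ) ∈ (Subtype.val ⁻¹' W : Set Γ) := hg
    rw [hW1, Set.mem_singleton_iff] at h2
    exact congrArg Subtype.val h2

/-- A compact set which covers the quotient. Proof: the images of the interiors of the balls of radius
`n` in `V`, times `{-n, ..., n}`, are an increasing open cover of the compact space `KK d Γ`
(`kk_isOpenMap_proj`); closed balls of `V` are compact. -/
theorem exists_compact_cover (d : ND) (Γ : Subgroup (GG d)) (h' : CompactSpace (KK d Γ)) :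
    ∃ C : Set (GG d), IsCompact C ∧ ∀ g : GG d, ∃ c ∈ C, ∃ γ ∈ Γ, g = c * γ := by
  have h1 : ∀ y : KK d Γ, ∃ (g : GG d) (C : Set (GG d)), KK.proj d Γ g = y ∧ IsCompact C ∧
      C ∈ 𝓝 g := by
    intro y
    obtain ⟨g, hg⟩ := kk_proj_surjective d Γ y
    obtain ⟨C, hC, hCg⟩ := exists_compact_mem_nhds g
    exact ⟨g, C, hg, hC, hCg⟩
  choose g C hg hC hCg using h1
  obtain ⟨t, ht⟩ := CompactSpace.elim_nhds_subcover (fun y : KK d Γ => KK.proj d Γ '' C y)
    (fun y => by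
      have h2 := (kk_isOpenMap_proj d Γ).image_mem_nhds (hCg y)
      rw [hg y] at h2
      exact h2)
  refine ⟨⋃ y ∈ t, C y, t.isCompact_biUnion fun y _ => hC y, fun x => ?_⟩
  have h2 : KK.proj d Γ x ∈ ⋃ y ∈ t, KK.proj d Γ '' C y := by
    rw [ht]
    trivial
  obtain ⟨y, hy, c, hc, hcx⟩ := Set.mem_iUnion₂.1 h2
  refine ⟨c, Set.mem_iUnion₂.2 ⟨y, hy, hc⟩, c⁻¹ * x, (kk_proj_eq d Γ c x).1 hcx, ?_⟩
  rw [mul_inv_cancel_left]

/-- Borel section of the projection. Proof: every point `g` has an open neighbourhood `U` on which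
the projection is injective (`U⁻¹ U ∩ Γ = {1}`); take a countable subcover `U_i` (Lindelöf) and
`D = ⋃ i, U_i \ ⋃ j < i, proj⁻¹ (proj U_j)`, a Borel set (projections are open maps) which meets every
coset in exactly one point. The restriction of the projection to the Borel set `D` of the Polish space
`GG d` is an injective Borel map into a standard Borel space, hence a measurable embedding
(`Measurable.measurableEmbedding`, Lusin-Souslin), its inverse is the section. Alternatively, glue the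
continuous inverses on the open sets `proj U_i`. -/
theorem exists_section (d : ND) (Γ : Subgroup (GG d)) (h : DiscreteTopology Γ)
    (h' : CompactSpace (KK d Γ)) :
    ∃ σ : KK d Γ → GG d, Measurable σ ∧ ∀ y, KK.proj d Γ (σ y) = y := by
  obtain ⟨W, hW, hW1⟩ := nhds_of_discrete d Γ h
  -- local injectivity
  have hloc : ∀ g : GG d, ∃ U : Set (GG d), IsOpen U ∧ g ∈ U ∧ Set.InjOn (KK.proj d Γ) U := by
    intro g
    have hc : Continuous (fun p : GG d × GG d => p.1⁻¹ * p.2) :=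
      continuous_fst.inv.mul continuous_snd
    have h1 : (fun p : GG d × GG d => p.1⁻¹ * p.2) ⁻¹' W ∈ 𝓝 (g, g) := by
      refine hc.continuousAt.preimage_mem_nhds ?_
      show W ∈ 𝓝 (g⁻¹ * g)
      rw [inv_mul_cancel]
      exact hW
    obtain ⟨A, hA, B, hB, hAB⟩ := mem_nhds_prod_iff.1 h1
    obtain ⟨U, hUs, hUo, hgU⟩ := mem_nhds_iff.1 (Filter.inter_mem hA hB)
    refine ⟨U, hUo, hgU, ?_⟩
    intro a ha b hb hab
    rw [kk_proj_eq] at hab
    have h2 : (a, b) ∈ A ×ˢ B := ⟨(hUs ha).1, (hUs hb).2⟩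
    have h3 := hW1 _ (hAB h2) hab
    exact (inv_mul_eq_one.1 h3)
  choose U hUo hgU hUi using hloc
  obtain ⟨s, hs, hsU⟩ := TopologicalSpace.countable_cover_nhds
    (fun g => (hUo g).mem_nhds (hgU g))
  have hsne : s.Nonempty := by
    by_contra hne
    rw [Set.not_nonempty_iff_eq_empty] at hne
    rw [hne] at hsU
    have h1 : (1 : GG d) ∈ (⋃ x ∈ (∅ : Set (GG d)), U x) := by
      rw [hsU]
      trivial
    simp at h1
  obtain ⟨e, he⟩ := hs.exists_eq_range hsne
  have hcov : ∀ g : GG d, ∃ i : ℕ, g ∈ U (e i) := by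
    intro g
    have h1 : g ∈ (⋃ x ∈ s, U x) := by
      rw [hsU]
      trivial
    obtain ⟨x, hx, hgx⟩ := Set.mem_iUnion₂.1 h1
    rw [he] at hx
    obtain ⟨i, rfl⟩ := hx
    exact ⟨i, hgx⟩
  -- the transversal
  set D : Set (GG d) := ⋃ i : ℕ, (U (e i) \ ⋃ j ∈ Finset.range i,
    (KK.proj d Γ) ⁻¹' (KK.proj d Γ '' U (e j))) with hD
  have hDm : MeasurableSet D := by
    refine MeasurableSet.iUnion fun i => (hUo _).measurableSet.diff ?_
    refine Finset.measurableSet_biUnion _ fun j _ => ?_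
    exact (((kk_isOpenMap_proj d Γ) _ (hUo _)).preimage (kk_continuous_proj d Γ)).measurableSet
  have hDinj : ∀ a ∈ D, ∀ b ∈ D, KK.proj d Γ a = KK.proj d Γ b → a = b := by
    intro a ha b hb hab
    obtain ⟨i, hai, hai'⟩ := Set.mem_iUnion.1 ha
    obtain ⟨j, hbj, hbj'⟩ := Set.mem_iUnion.1 hb
    rcases lt_trichotomy i j with hij | hij | hij
    · exfalso
      apply hbj'
      exact Set.mem_iUnion₂.2 ⟨i, Finset.mem_range.2 hij, a, hai, hab⟩
    · subst hij
      exact hUi _ hai hbj hab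
    · exfalso
      apply hai'
      exact Set.mem_iUnion₂.2 ⟨j, Finset.mem_range.2 hij, b, hbj, hab.symm⟩
  have hDsur : ∀ y : KK d Γ, ∃ a ∈ D, KK.proj d Γ a = y := by
    classical
    intro y
    have h1 : ∃ i : ℕ, y ∈ KK.proj d Γ '' U (e i) := by
      obtain ⟨g, rfl⟩ := kk_proj_surjective d Γ y
      obtain ⟨i, hi⟩ := hcov g
      exact ⟨i, g, hi, rfl⟩
    obtain ⟨u, hu, huy⟩ := Nat.find_spec h1
    refine ⟨u, Set.mem_iUnion.2 ⟨Nat.find h1, hu, ?_⟩, huy⟩
    intro h2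
    obtain ⟨j, hj, hj'⟩ := Set.mem_iUnion₂.1 h2
    refine Nat.find_min h1 (Finset.mem_range.1 hj) ?_
    rw [← huy]
    exact hj'
  -- the section
  haveI : ProperSpace d.V := FiniteDimensional.proper_real d.V
  haveI : PolishSpace (GG d) := inferInstanceAs (PolishSpace (d.V × ℤ))
  haveI : StandardBorelSpace (GG d) := inferInstance
  haveI : StandardBorelSpace (KK d Γ) := kk_standard d Γ h h'
  haveI : StandardBorelSpace D := hDm.standardBorel
  have hf : Measurable (fun a : D => KK.proj d Γ a.1) :=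
    (kk_continuous_proj d Γ).measurable.comp measurable_subtype_coe
  have hfi : Function.Injective (fun a : D => KK.proj d Γ a.1) := fun a b hab =>
    Subtype.ext (hDinj _ a.2 _ b.2 hab)
  have hfe := hf.measurableEmbedding hfi
  obtain ⟨σ, hσ, hσ'⟩ := hfe.exists_measurable_extend (measurable_subtype_coe : Measurable
    (fun a : D => (a : GG d))) (fun _ => ⟨1⟩)
  refine ⟨σ, hσ, fun y => ?_⟩
  obtain ⟨a, ha, rfl⟩ := hDsur y
  have h1 : σ (KK.proj d Γ a) = a := congrFun hσ' ⟨a, ha⟩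
  rw [h1]

/-- The stabilizer of a point is discrete, the quotient by it is compact: if `y = proj g₀` the
stabilizer is `g₀ Γ g₀⁻¹`, a neighbourhood `U` of `1` with `U ∩ Γ = {1}` gives `g₀ U g₀⁻¹`, and
`C Γ = G` gives `C g₀⁻¹ (g₀ Γ g₀⁻¹) = G`. -/
theorem stabilizer_disc (d : ND) (Γ : Subgroup (GG d)) (h : DiscreteTopology Γ)
    (h' : CompactSpace (KK d Γ)) (y : KK d Γ) :
    DiscreteTopology (MulAction.stabilizer (GG d) y) ∧
      CompactSpace (KK d (MulAction.stabilizer (GG d) y)) := by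
  obtain ⟨g₀, rfl⟩ := kk_proj_surjective d Γ y
  have hst : ∀ g : GG d, g ∈ MulAction.stabilizer (GG d) (KK.proj d Γ g₀) ↔
      g₀⁻¹ * g * g₀ ∈ Γ := by
    intro g
    rw [MulAction.mem_stabilizer_iff, kk_smul_proj, eq_comm, kk_proj_eq, mul_assoc]
  constructor
  · obtain ⟨W, hW, hW1⟩ := nhds_of_discrete d Γ h
    refine discrete_of_nhds d _ ((fun g => g₀⁻¹ * g * g₀) ⁻¹' W) ?_ ?_
    · have hc : Continuous (fun g : GG d => g₀⁻¹ * g * g₀) :=
        (continuous_const.mul continuous_id).mul continuous_const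
      refine hc.continuousAt.preimage_mem_nhds ?_
      show W ∈ 𝓝 (g₀⁻¹ * 1 * g₀)
      rw [mul_one, inv_mul_cancel]
      exact hW
    · intro g hg hgs
      have h1 := hW1 _ hg ((hst g).1 hgs)
      have h2 : g₀⁻¹ * g * g₀ = 1 := h1
      have h3 : g = g₀ * (g₀⁻¹ * g * g₀) * g₀⁻¹ := by group
      rw [h3, h2]
      group
  · obtain ⟨C, hC, hCΓ⟩ := exists_compact_cover d Γ h'
    refine compactSpace_of_cover d _ ((fun g => g * g₀⁻¹) '' C)
      (hC.image (continuous_id.mul continuous_const)) ?_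
    intro g
    obtain ⟨c, hc, γ, hγ, hg⟩ := hCΓ (g * g₀)
    refine ⟨c * g₀⁻¹, ⟨c, hc, rfl⟩, g₀ * γ * g₀⁻¹, ?_, ?_⟩
    · rw [hst]
      have h1 : g₀⁻¹ * (g₀ * γ * g₀⁻¹) * g₀ = γ := by group
      rw [h1]
      exact hγ
    · have h1 : g = (g * g₀) * g₀⁻¹ := by group
      rw [h1, hg]
      group

end Pool.Agent.HK820

end

/-! ### Part `CE5` -/

section

/-!
# Part II, block CE5: the new lattice

`P = {g ∈ GG ext | pr g fixes y₀}`, `θ : P → C_k` a homomorphism with `θ (emW a) = ee k a`, `L = ker θ`.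

* `L` is discrete: let `U₁` be a neighbourhood of `1` in `GG d` with `U₁ ∩ stabilizer = {1}`
  (`stabilizer_disc`), `U = pr⁻¹ U₁ ∩ {g | ‖g.1.2‖ < 1}`. If `g ∈ L ∩ U` then `pr g = 1`, so
  `g = emW a` with `a = g.1.2`, `‖a‖ < 1` (`CDat.pr_eq_one`), and `1 = θ g = ee k a`. For `k = 0` this means
  `a 0 ∈ 2π ℤ`, so `a = 0`; for `k ≠ 0` `WW k` is trivial. So `g = 1`; `discrete_of_nhds`.
* `L` is cocompact. First a compact set `R ⊆ GG ext` with `R ⊆ P` and every `γ ∈ P` of the form `γ = r γ'`,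
  `r ∈ R`, `γ' ∈ L`: for `k = 0` `R = emW '' (Icc 0 (2π))`: choose `t ∈ [0, 2π]` with `ee 0 t = θ γ`, and
  `γ' = (emW t)⁻¹ γ`. For `k ≠ 0` `θ` has finitely many values (`k`-th roots of unity); `R` is a finite set
  of representatives. Let `C₁` be a compact set of `GG d` with `C₁ (stabilizer) = GG d`
  (`stabilizer_disc`, `exists_compact_cover`) and `C = (sec '' C₁) * R`, compact. For `g`: `pr g = c γ₁`,
  `c ∈ C₁`, `γ₁` in the stabilizer; `γ = (sec c)⁻¹ g` is in `P` (`pr γ = γ₁`), so `γ = r γ'` and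
  `g = (sec c) r γ'`. `compactSpace_of_cover`.
-/

open MeasureTheory ProbabilityTheory Filter Topology
open scoped ComplexConjugate ENNReal

namespace Pool.Agent.HK820

private theorem ce5_small (m : ℕ) (hm : m ≤ 1) (a : Fin m → ℝ)
    (h : Complex.exp (Complex.I * ((∑ j, a j : ℝ) : ℂ)) = 1) (ha : ‖a‖ < 1) : a = 0 := by
  interval_cases m
  · exact Subsingleton.elim _ _
  · rw [Complex.exp_eq_one_iff] at h
    obtain ⟨n, hn⟩ := h
    have h1 : (a 0 : ℂ) = n * (2 * Real.pi) := by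
      have h2 : Complex.I * (a 0 : ℂ) = Complex.I * (n * (2 * Real.pi)) := by
        rw [Fin.sum_univ_one] at hn
        rw [hn]
        ring
      exact mul_left_cancel₀ Complex.I_ne_zero h2
    have h3 : a 0 = n * (2 * Real.pi) := by exact_mod_cast h1
    have h4 : |a 0| < 1 := lt_of_le_of_lt (norm_le_pi_norm a 0) ha
    have h5 : n = 0 := by
      by_contra hne
      have h6 : (1 : ℝ) ≤ |(n : ℝ)| := by
        rw [← Int.cast_abs]
        exact_mod_cast Int.one_le_abs hne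
      have h7 : |a 0| = |(n : ℝ)| * (2 * Real.pi) := by
        rw [h3, abs_mul, abs_of_pos Real.two_pi_pos]
      have h8 := Real.pi_gt_three
      nlinarith
    funext j
    have h6 : j = 0 := Subsingleton.elim _ _
    subst h6
    rw [h3, h5]
    simp

private theorem ce5_ee {k : ℕ} {a : WW k} (h : ee k a = 1) (ha : ‖a‖ < 1) : a = 0 :=
  ce5_small _ (by split_ifs <;> omega) a h ha

private theorem ce5_arg (m : ℕ) (hm : m = 1) (z : ℂ) (hz : ‖z‖ = 1) :
    ∃ a : Fin m → ℝ, a ∈ Set.univ.pi (fun _ : Fin m => Set.Icc (-Real.pi) Real.pi) ∧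
      Complex.exp (Complex.I * ((∑ j, a j : ℝ) : ℂ)) = z := by
  subst hm
  refine ⟨fun _ => Complex.arg z, fun _ _ => ⟨(Complex.neg_pi_lt_arg z).le, Complex.arg_le_pi z⟩, ?_⟩
  rw [Fin.sum_univ_one]
  have h := Complex.norm_mul_exp_arg_mul_I z
  rw [hz] at h
  rw [mul_comm]
  simpa using h

private theorem ce5_R {d : ND} {k : ℕ} (e : CDat d k) {Γ : Subgroup (GG d)} (y₀ : KK d Γ)
    (P : Subgroup (GG e.ext)) (hP : ∀ g, g ∈ P ↔ e.pr g • y₀ = y₀) (θ : P →* ℂ)
    (hθ : ∀ γ, inC k (θ γ)) (hw : ∀ a (h : e.emW a ∈ P), θ ⟨e.emW a, h⟩ = ee k a) :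
    ∃ R : Set (GG e.ext), IsCompact R ∧ ∀ γ (h : γ ∈ P), ∃ r ∈ R, ∃ hr : r ∈ P,
      θ ⟨r, hr⟩ = θ ⟨γ, h⟩ := by
  classical
  have hem : ∀ a, e.emW a ∈ P := fun a => by
    rw [hP, e.pr_emW, one_smul]
  by_cases hk : k = 0
  · refine ⟨e.emW '' (Set.univ.pi (fun _ => Set.Icc (-Real.pi) Real.pi)),
      (isCompact_univ_pi fun _ => isCompact_Icc).image e.continuous_emW, fun γ h => ?_⟩
    obtain ⟨a, ha, ha'⟩ := ce5_arg (if k = 0 then 1 else 0) (if_pos hk) (θ ⟨γ, h⟩) (hθ _).1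
    refine ⟨e.emW a, ⟨a, ha, rfl⟩, hem a, ?_⟩
    rw [hw]
    exact ha'
  · have hfin : {z : ℂ | inC k z}.Finite := by
      have h1 : ((Polynomial.nthRoots k (1 : ℂ)).toFinset : Set ℂ).Finite := Finset.finite_toSet _
      refine h1.subset fun z hz => ?_
      simp only [Finset.mem_coe, Multiset.mem_toFinset]
      rw [Polynomial.mem_nthRoots (Nat.pos_of_ne_zero hk)]
      exact hz.2
    let f : ℂ → GG e.ext := fun z => if h : ∃ γ : P, θ γ = z then (h.choose : GG e.ext) else 1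
    refine ⟨f '' {z : ℂ | inC k z}, (hfin.image f).isCompact, fun γ h => ?_⟩
    have hex : ∃ γ' : P, θ γ' = θ ⟨γ, h⟩ := ⟨_, rfl⟩
    have hf : f (θ ⟨γ, h⟩) = (hex.choose : GG e.ext) := dif_pos hex
    refine ⟨f (θ ⟨γ, h⟩), ⟨_, hθ _, rfl⟩, ?_⟩
    rw [hf]
    exact ⟨hex.choose.2, hex.choose_spec⟩

theorem lattice_ext {d : ND} {k : ℕ} (e : CDat d k) (Γ : Subgroup (GG d))
    (hd : DiscreteTopology Γ) (hc : CompactSpace (KK d Γ)) (y₀ : KK d Γ)
    (P : Subgroup (GG e.ext)) (hP : ∀ g, g ∈ P ↔ e.pr g • y₀ = y₀) (θ : P →* ℂ)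
    (hθ : ∀ γ, inC k (θ γ)) (hw : ∀ a (h : e.emW a ∈ P), θ ⟨e.emW a, h⟩ = ee k a)
    (L : Subgroup (GG e.ext)) (hL : ∀ g, g ∈ L ↔ ∃ h : g ∈ P, θ ⟨g, h⟩ = 1) :
    DiscreteTopology L ∧ CompactSpace (KK e.ext L) := by
  obtain ⟨hS, hSc⟩ := stabilizer_disc d Γ hd hc y₀
  constructor
  · obtain ⟨W, hW, hW1⟩ := nhds_of_discrete d _ hS
    refine discrete_of_nhds e.ext L (e.pr ⁻¹' W ∩ {g | ‖g.1.2‖ < 1}) ?_ ?_
    · refine Filter.inter_mem ?_ ?_
      · refine e.continuous_pr.continuousAt.preimage_mem_nhds ?_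
        rw [map_one]
        exact hW
      · have h1 : Continuous (fun g : GG e.ext => ‖g.1.2‖) := by
          change Continuous (fun g : (d.V × WW k) × ℤ => ‖g.1.2‖)
          exact (continuous_snd.comp continuous_fst).norm
        refine (isOpen_lt h1 continuous_const).mem_nhds ?_
        show ‖(0 : WW k)‖ < 1
        rw [norm_zero]
        exact one_pos
    · rintro g ⟨hg1, hg2⟩ hgL
      obtain ⟨h, hθg⟩ := (hL g).1 hgL
      have h1 : e.pr g = 1 := hW1 _ hg1 ((hP g).1 h)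
      have h2 := e.pr_eq_one g h1
      have h3 : e.emW g.1.2 ∈ P := by rw [← h2]; exact h
      have h4 : θ ⟨e.emW g.1.2, h3⟩ = 1 := by
        rw [← hθg]
        congr 1
        exact Subtype.ext h2.symm
      rw [hw] at h4
      have h5 := ce5_ee h4 hg2
      rw [h2, h5, e.emW_zero]
  · obtain ⟨C₁, hC₁, hC₁'⟩ := exists_compact_cover d _ hSc
    obtain ⟨R, hR, hR'⟩ := ce5_R e y₀ P hP θ hθ hw
    refine compactSpace_of_cover e.ext L ((fun p : GG e.ext × GG e.ext => p.1 * p.2) ''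
      ((e.sec '' C₁) ×ˢ R)) (((hC₁.image e.continuous_sec).prod hR).image continuous_mul) ?_
    intro g
    obtain ⟨c, hcC, γ₁, hγ₁, hg⟩ := hC₁' (e.pr g)
    have h1 : e.pr ((e.sec c)⁻¹ * g) = γ₁ := by
      rw [map_mul, map_inv, e.pr_sec, hg, inv_mul_cancel_left]
    have h2 : (e.sec c)⁻¹ * g ∈ P := by
      rw [hP, h1]
      exact hγ₁
    obtain ⟨r, hr, hrP, hrθ⟩ := hR' _ h2
    refine ⟨e.sec c * r, ⟨(e.sec c, r), ⟨⟨c, hcC, rfl⟩, hr⟩, rfl⟩, r⁻¹ * ((e.sec c)⁻¹ * g), ?_, ?_⟩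
    · rw [hL]
      refine ⟨mul_mem (inv_mem hrP) h2, ?_⟩
      have h3 : θ ⟨r, hrP⟩ * θ ⟨r⁻¹ * ((e.sec c)⁻¹ * g), mul_mem (inv_mem hrP) h2⟩ =
          θ ⟨(e.sec c)⁻¹ * g, h2⟩ := by
        rw [← map_mul]
        congr 1
        exact Subtype.ext (mul_inv_cancel_left _ _)
      rw [hrθ] at h3
      exact mul_left_cancel₀ (inC_ne_zero (hθ _)) (h3.trans (mul_one _).symm)
    · group

end Pool.Agent.HK820

end
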