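import Pool.Agent.Lib_MP_820dd4_hk.FA

open MeasureTheory ProbabilityTheory Filter Topology
open scoped ComplexConjugate ENNReal

namespace Pool.Agent.HK820

theorem eb_mul_conj {z : ℂ} (h : ‖z‖ = 1) : z * conj z = 1 := by
  rw [Complex.mul_conj, Complex.normSq_eq_norm_sq, h]
  simp

theorem eb_bm {X : Type} [MeasurableSpace X] {p : X → ℂ} (hp : Measurable p)
    (h1 : ∀ x, ‖p x‖ = 1) : BM p := ⟨hp, 1, fun x => (h1 x).le⟩

/-- **EB1.** `w = u ⊗ conj u` is almost invariant on the relatively independent square.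

Proof. With `φ = (u ∘ S) conj u`, unimodular, `c = E[φ|m]`:
`‖w (S₂ z) - w z‖ = ‖φ (z 0) conj (φ (z 1)) - 1‖ = ‖φ (z 0) - φ (z 1)‖ ≤ ‖φ (z 0) - c (z 0)‖ +
‖c (z 1) - φ (z 1)‖`, since `c (z 0) = c (z 1)` a.e. (`relInd_eq`); integrate with `relInd_eval`. -/
theorem eb_inv {Q : Type} (m : MeasurableSpace Q) [mQ : MeasurableSpace Q]
    [StandardBorelSpace Q] (ν : Measure Q) [IsProbabilityMeasure ν] (hm : m ≤ mQ) (S : Q ≃ᵐ Q)
    (hS : MeasurePreserving S ν ν) {u : Q → ℂ} (hu : Measurable u) (h1 : ∀ q, ‖u q‖ = 1) {δ : ℝ}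
    (ha : ∫ q, ‖u (S q) * conj (u q) - (ν[fun q => u (S q) * conj (u q) | m]) q‖ ∂ν ≤ δ) :
    ∫ z, ‖u (S (z 0)) * conj (u (S (z 1))) - u (z 0) * conj (u (z 1))‖
      ∂(relInd m ν (Fin 2)) ≤ 2 * δ := by
  obtain ⟨φ, hφ⟩ : ∃ φ : Q → ℂ, φ = fun q => u (S q) * conj (u q) := ⟨_, rfl⟩
  rw [← hφ] at ha
  have ha' : ∫ q, ‖φ q - (ν[φ | m]) q‖ ∂ν ≤ δ := by
    refine le_trans (le_of_eq ?_) ha
    rw [hφ]
  have hφm : Measurable φ := by
    rw [hφ]
    exact (hu.comp S.measurable).mul (Complex.continuous_conj.measurable.comp hu)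
  have hφ1 : ∀ q, ‖φ q‖ = 1 := by
    intro q
    rw [hφ]
    show ‖u (S q) * conj (u q)‖ = 1
    rw [norm_mul, RCLike.norm_conj, h1, h1, mul_one]
  obtain ⟨g, hg, hg1, hgφ⟩ := exists_bms_condExp m ν hm hφm (fun q => (hφ1 q).le)
  have hgm : Measurable g := hg.mono hm le_rfl
  have hgB : BM g := ⟨hgm, 1, hg1⟩
  have hgδ : ∫ q, ‖φ q - g q‖ ∂ν ≤ δ := by
    refine le_trans (le_of_eq ?_) ha'
    refine integral_congr_ae ?_
    filter_upwards [hgφ] with q hq
    rw [hq]
  have hi : Integrable (fun q => ‖φ q - g q‖) ν :=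
    (((eb_bm hφm hφ1).integrable ν).sub (hgB.integrable ν)).norm
  have hev : ∀ i : Fin 2, Integrable (fun z : Fin 2 → Q => ‖φ (z i) - g (z i)‖)
      (relInd m ν (Fin 2)) ∧ ∫ z, ‖φ (z i) - g (z i)‖ ∂(relInd m ν (Fin 2)) ≤ δ := by
    intro i
    have hmp := relInd_eval m ν hm (ι := Fin 2) i
    refine ⟨hmp.integrable_comp_of_integrable hi, ?_⟩
    have h2 : ∫ q, ‖φ q - g q‖ ∂((relInd m ν (Fin 2)).map (fun z : Fin 2 → Q => z i)) =
        ∫ z, ‖φ (z i) - g (z i)‖ ∂(relInd m ν (Fin 2)) :=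
      integral_map hmp.measurable.aemeasurable ((hφm.sub hgm).norm.aestronglyMeasurable)
    rw [← h2, hmp.map_eq]
    exact hgδ
  have hgeq := relInd_eq m ν hm (g := g) ⟨g, hg, EventuallyEq.rfl⟩ (0 : Fin 2) 1
  have hum : ∀ i : Fin 2, Measurable (fun z : Fin 2 → Q => u (z i)) := fun i =>
    hu.comp (measurable_pi_apply i)
  have huSm : ∀ i : Fin 2, Measurable (fun z : Fin 2 → Q => u (S (z i))) := fun i =>
    (hu.comp S.measurable).comp (measurable_pi_apply i)
  have hiL : Integrable (fun z : Fin 2 → Q => ‖u (S (z 0)) * conj (u (S (z 1))) -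
      u (z 0) * conj (u (z 1))‖) (relInd m ν (Fin 2)) := by
    refine (Integrable.sub ?_ ?_).norm
    · refine (eb_bm ((huSm 0).mul (Complex.continuous_conj.measurable.comp (huSm 1)))
        fun z => ?_).integrable _
      show ‖u (S (z 0)) * conj (u (S (z 1)))‖ = 1
      rw [norm_mul, RCLike.norm_conj, h1, h1, mul_one]
    · refine (eb_bm ((hum 0).mul (Complex.continuous_conj.measurable.comp (hum 1)))
        fun z => ?_).integrable _
      show ‖u (z 0) * conj (u (z 1))‖ = 1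
      rw [norm_mul, RCLike.norm_conj, h1, h1, mul_one]
  calc ∫ z, ‖u (S (z 0)) * conj (u (S (z 1))) - u (z 0) * conj (u (z 1))‖ ∂(relInd m ν (Fin 2))
      ≤ ∫ z, (‖φ (z 0) - g (z 0)‖ + ‖φ (z 1) - g (z 1)‖) ∂(relInd m ν (Fin 2)) := by
        refine integral_mono_ae hiL ((hev 0).1.add (hev 1).1) ?_
        filter_upwards [hgeq] with z hz
        have e0 : ∀ q, u (S q) = φ q * u q := by
          intro q
          rw [hφ]
          show u (S q) = u (S q) * conj (u q) * u q
          rw [mul_assoc, mul_comm (conj (u q)), eb_mul_conj (h1 q), mul_one]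
        have e1 : u (S (z 0)) * conj (u (S (z 1))) - u (z 0) * conj (u (z 1)) =
            (φ (z 0) - φ (z 1)) * conj (φ (z 1)) * (u (z 0) * conj (u (z 1))) := by
          rw [e0 (z 0), e0 (z 1), map_mul, sub_mul, eb_mul_conj (hφ1 (z 1))]
          ring
        rw [e1, norm_mul, norm_mul, norm_mul, RCLike.norm_conj, RCLike.norm_conj, hφ1, h1, h1,
          mul_one, mul_one, mul_one]
        have e2 : φ (z 0) - φ (z 1) = (φ (z 0) - g (z 0)) - (φ (z 1) - g (z 1)) := by
          rw [hz]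
          ring
        rw [e2]
        exact norm_sub_le _ _
    _ = (∫ z, ‖φ (z 0) - g (z 0)‖ ∂(relInd m ν (Fin 2))) +
          ∫ z, ‖φ (z 1) - g (z 1)‖ ∂(relInd m ν (Fin 2)) := integral_add (hev 0).1 (hev 1).1
    _ ≤ 2 * δ := by
        have h3 := (hev 0).2
        have h4 := (hev 1).2
        linarith

theorem eb_pw_le {ι X : Type} (m : MeasurableSpace X) [mX : MeasurableSpace X] (hm : m ≤ mX)
    (D : ℕ) : pw m D ≤ (inferInstance : MeasurableSpace (Arr ι X D)) := by
  refine iSup_le fun v => ?_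
  rintro s ⟨t, ht, rfl⟩
  exact measurable_pi_apply v (hm t ht)

/-- functions measurable for the vertexwise pullbacks of `m` take the same value at the two arrays -/
theorem eb_pw_eq {Q : Type} (m : MeasurableSpace Q) [mQ : MeasurableSpace Q]
    [StandardBorelSpace Q] (ν : Measure Q) [IsProbabilityMeasure ν] (hm : m ≤ mQ)
    (S : Q ≃ᵐ Q) (D : ℕ) {b : Arr (Fin 2) Q D → ℂ} (hb : Measurable[pw m D] b) :
    ∀ᵐ x ∂(cube (relInd m ν (Fin 2)) (tTup S (Fin 2)) (Fin 2) D),
      b (fun v => x v 0) = b (fun v => x v 1) := by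
  obtain ⟨θ, hθ⟩ : ∃ θ, θ = cube (relInd m ν (Fin 2)) (tTup S (Fin 2)) (Fin 2) D := ⟨_, rfl⟩
  rw [← hθ]
  -- the sets which do not distinguish the two arrays
  let 𝒞 : MeasurableSpace (Arr (Fin 2) Q D) :=
    { MeasurableSet' := fun s => ∀ᵐ x ∂θ, (fun v => x v 0) ∈ s ↔ (fun v => x v 1) ∈ s
      measurableSet_empty := Eventually.of_forall fun x => by simp
      measurableSet_compl := by
        intro s hs
        filter_upwards [hs] with x hx
        rw [Set.mem_compl_iff, Set.mem_compl_iff, hx]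
      measurableSet_iUnion := by
        intro f hf
        have h2 : ∀ᵐ x ∂θ, ∀ i, (fun v => x v 0) ∈ f i ↔ (fun v => x v 1) ∈ f i :=
          ae_all_iff.2 hf
        filter_upwards [h2] with x hx
        simp only [Set.mem_iUnion, hx] }
  have hle : pw m D ≤ 𝒞 := by
    refine iSup_le fun v => ?_
    rintro s ⟨t, ht, rfl⟩
    show ∀ᵐ x ∂θ, (fun v => x v 0) ∈ (fun x : Arr (Fin 2) Q D => x v) ⁻¹' t ↔
      (fun v => x v 1) ∈ (fun x : Arr (Fin 2) Q D => x v) ⁻¹' t
    have hind : Measurable[m] (t.indicator (fun _ => (1 : ℂ))) :=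
      measurable_const.indicator ht
    have h2 := relInd_eq m ν hm (g := t.indicator (fun _ => (1 : ℂ)))
      ⟨_, hind, EventuallyEq.rfl⟩ (0 : Fin 2) 1
    have h3 : ∀ᵐ z ∂(relInd m ν (Fin 2)), z 0 ∈ t ↔ z 1 ∈ t := by
      filter_upwards [h2] with z hz
      by_cases ha : z 0 ∈ t <;> by_cases hb : z 1 ∈ t
      · exact ⟨fun _ => hb, fun _ => ha⟩
      · rw [Set.indicator_of_mem ha, Set.indicator_of_notMem hb] at hz
        exact absurd hz one_ne_zero
      · rw [Set.indicator_of_notMem ha, Set.indicator_of_mem hb] at hz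
        exact absurd hz.symm one_ne_zero
      · exact ⟨fun h => absurd h ha, fun h => absurd h hb⟩
    have h4 := (cube_eval (relInd m ν (Fin 2)) (tTup S (Fin 2)) (Fin 2) D
      v).quasiMeasurePreserving.ae h3
    rw [← hθ] at h4
    exact h4
  refine Filter.EventuallyEq.of_forall_separating_mem_iff MeasurableSet
    (f := fun x : Arr (Fin 2) (Fin 2 → Q) D => b (fun v => x v 0))
    (g := fun x : Arr (Fin 2) (Fin 2 → Q) D => b (fun v => x v 1)) fun U hU => ?_
  exact hle _ (hb hU)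

/-- **EB2.** The derivative of `w = u ⊗ conj u` on the cubes of the relatively independent square is
close to `1`.

Proof. For an array `x` of pairs let `P i x v = x v i`. `dd D w x = dd D u (P 0 x) *
conj (dd D u (P 1 x))` (`dd_mul`, `dd_conj`), so `‖dd D w x - 1‖ = ‖dd D u (P 0 x) - dd D u (P 1 x)‖`.
`P i` is a factor map onto `cube ν S (Fin 2) D` (`cube_fmap` for the factor map `z ↦ z i`,
`relInd_eval`). With `b` a `pw m D`-measurable version of `E[dd D u | pw m]`: `b (P 0 x) = b (P 1 x)`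
a.e., because every `m`-measurable function takes the same values at `x v 0` and `x v 1`
(`relInd_eq` at every vertex, `cube_eval`), and `b` is a function of countably many `m`-measurable
functions of the vertices (or: approximate `b` by finite sums of products of bounded
`m`-measurable functions, `approx_iSup`). -/
theorem eb_cube {Q : Type} (m : MeasurableSpace Q) [mQ : MeasurableSpace Q]
    [StandardBorelSpace Q] (ν : Measure Q) [IsProbabilityMeasure ν] (hm : m ≤ mQ) (S : Q ≃ᵐ Q)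
    (hS : MeasurePreserving S ν ν) (hSm : TInv m S) (D : ℕ) {u : Q → ℂ} (hu : Measurable u)
    (h1 : ∀ q, ‖u q‖ = 1) {δ : ℝ}
    (hb : ∫ x, ‖dd D u x - ((cube ν S (Fin 2) D)[dd D u | pw m D]) x‖ ∂(cube ν S (Fin 2) D) ≤ δ) :
    ∫ x, ‖dd D (fun z : Fin 2 → Q => u (z 0) * conj (u (z 1))) x - 1‖
      ∂(cube (relInd m ν (Fin 2)) (tTup S (Fin 2)) (Fin 2) D) ≤ 2 * δ := by
  obtain ⟨θ, hθ⟩ : ∃ θ, θ = cube (relInd m ν (Fin 2)) (tTup S (Fin 2)) (Fin 2) D := ⟨_, rfl⟩
  obtain ⟨C, hC⟩ : ∃ C, C = cube ν S (Fin 2) D := ⟨_, rfl⟩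
  have hθP : IsProbabilityMeasure θ := by
    rw [hθ]
    infer_instance
  have hCP : IsProbabilityMeasure C := by
    rw [hC]
    infer_instance
  rw [← hC] at hb
  rw [← hθ]
  have hddm : Measurable (dd D u) := (dd_bm D (eb_bm hu h1)).1
  have hdd1 : ∀ x, ‖dd D u x‖ = 1 := norm_dd D h1
  obtain ⟨b, hbm, hb1, hbe⟩ := exists_bms_condExp (pw m D) C (eb_pw_le m hm D) hddm
    (fun x => (hdd1 x).le)
  have hbm' : Measurable b := hbm.mono (eb_pw_le m hm D) le_rfl
  have hbB : BM b := ⟨hbm', 1, hb1⟩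
  have hbδ : ∫ x, ‖dd D u x - b x‖ ∂C ≤ δ := by
    refine le_trans (le_of_eq ?_) hb
    refine integral_congr_ae ?_
    filter_upwards [hbe] with x hx
    rw [hx]
  have hi : Integrable (fun x => ‖dd D u x - b x‖) C :=
    (((eb_bm hddm hdd1).integrable C).sub (hbB.integrable C)).norm
  have hmp : ∀ i : Fin 2, MeasurePreserving
      (fun (x : Arr (Fin 2) (Fin 2 → Q) D) v => x v i) θ C := by
    intro i
    rw [hθ, hC]
    exact (cube_fmap (relInd_tTup m ν hm S hS hSm (Fin 2)) hS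
      (p := fun z : Fin 2 → Q => z i)
      ⟨relInd_eval m ν hm i, Eventually.of_forall fun z => rfl⟩ (Fin 2) D).mp
  have hev : ∀ i : Fin 2, Integrable (fun x : Arr (Fin 2) (Fin 2 → Q) D =>
      ‖dd D u (fun v => x v i) - b (fun v => x v i)‖) θ ∧
      ∫ x, ‖dd D u (fun v => x v i) - b (fun v => x v i)‖ ∂θ ≤ δ := by
    intro i
    refine ⟨(hmp i).integrable_comp_of_integrable hi, ?_⟩
    have h2 : ∫ x, ‖dd D u x - b x‖ ∂(θ.map (fun (x : Arr (Fin 2) (Fin 2 → Q) D) v => x v i)) =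
        ∫ x, ‖dd D u (fun v => x v i) - b (fun v => x v i)‖ ∂θ :=
      integral_map (hmp i).measurable.aemeasurable ((hddm.sub hbm').norm.aestronglyMeasurable)
    rw [← h2, (hmp i).map_eq]
    exact hbδ
  have hbeq := eb_pw_eq m ν hm S D hbm
  rw [← hθ] at hbeq
  have hdw : ∀ x : Arr (Fin 2) (Fin 2 → Q) D,
      dd D (fun z : Fin 2 → Q => u (z 0) * conj (u (z 1))) x =
        dd D u (fun v => x v 0) * conj (dd D u (fun v => x v 1)) := by
    intro x
    rw [dd_mul D (fun z : Fin 2 → Q => u (z 0)) (fun z : Fin 2 → Q => conj (u (z 1))) x,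
      dd_conj D (fun z : Fin 2 → Q => u (z 1)) x]
    rfl
  have hwm : Measurable (fun z : Fin 2 → Q => u (z 0) * conj (u (z 1))) :=
    (hu.comp (measurable_pi_apply 0)).mul
      (Complex.continuous_conj.measurable.comp (hu.comp (measurable_pi_apply 1)))
  have hw1 : ∀ z : Fin 2 → Q, ‖u (z 0) * conj (u (z 1))‖ = 1 := by
    intro z
    rw [norm_mul, RCLike.norm_conj, h1, h1, mul_one]
  have hiL : Integrable (fun x => ‖dd D (fun z : Fin 2 → Q => u (z 0) * conj (u (z 1))) x - 1‖) θ :=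
    (((dd_bm D (eb_bm hwm hw1)).integrable θ).sub (integrable_const 1)).norm
  calc ∫ x, ‖dd D (fun z : Fin 2 → Q => u (z 0) * conj (u (z 1))) x - 1‖ ∂θ
      ≤ ∫ x, (‖dd D u (fun v => x v 0) - b (fun v => x v 0)‖ +
          ‖dd D u (fun v => x v 1) - b (fun v => x v 1)‖) ∂θ := by
        refine integral_mono_ae hiL ((hev 0).1.add (hev 1).1) ?_
        filter_upwards [hbeq] with x hx
        have e1 : dd D (fun z : Fin 2 → Q => u (z 0) * conj (u (z 1))) x - 1 =
            (dd D u (fun v => x v 0) - dd D u (fun v => x v 1)) *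
              conj (dd D u (fun v => x v 1)) := by
          rw [hdw, sub_mul, eb_mul_conj (hdd1 _)]
        rw [e1, norm_mul, RCLike.norm_conj, hdd1, mul_one]
        have e2 : dd D u (fun v => x v 0) - dd D u (fun v => x v 1) =
            (dd D u (fun v => x v 0) - b (fun v => x v 0)) -
              (dd D u (fun v => x v 1) - b (fun v => x v 1)) := by
          rw [hx]
          ring
        rw [e2]
        exact norm_sub_le _ _
    _ = (∫ x, ‖dd D u (fun v => x v 0) - b (fun v => x v 0)‖ ∂θ) +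
          ∫ x, ‖dd D u (fun v => x v 1) - b (fun v => x v 1)‖ ∂θ :=
        integral_add (hev 0).1 (hev 1).1
    _ ≤ 2 * δ := by
        have h3 := (hev 0).2
        have h4 := (hev 1).2
        linarith

end Pool.Agent.HK820
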