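import Pool.Agent.Lib_MP_820dd4_hk.FA
import Pool.Agent.Lib_MP_820dd4_hk.RelC

open MeasureTheory ProbabilityTheory Filter Topology
open scoped ComplexConjugate ENNReal

namespace Pool.Agent.HK820

/-- composition of kernels on the fibres of `m` -/
noncomputable def kc {Q : Type} (m : MeasurableSpace Q) [MeasurableSpace Q]
    [StandardBorelSpace Q] (ν : Measure Q) [IsFiniteMeasure ν] (A B : (Fin 2 → Q) → ℂ)
    (z : Fin 2 → Q) : ℂ :=
  ∫ y, A ![z 0, y] * B ![y, z 1] ∂(condExpKernel ν m (z 0))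

/-- adjoint kernel -/
noncomputable def adj {Q : Type} (A : (Fin 2 → Q) → ℂ) (z : Fin 2 → Q) : ℂ :=
  conj (A ![z 1, z 0])

/-- square of the `L²` norm of a kernel -/
noncomputable def kn {Q : Type} (m : MeasurableSpace Q) [MeasurableSpace Q]
    [StandardBorelSpace Q] (ν : Measure Q) (A : (Fin 2 → Q) → ℂ) : ℝ :=
  ∫ z, ‖A z‖ ^ 2 ∂(relInd m ν (Fin 2))

theorem ef_vec {α Q : Type} [MeasurableSpace α] [MeasurableSpace Q] {f g : α → Q}
    (hf : Measurable f) (hg : Measurable g) : Measurable (fun a => (![f a, g a] : Fin 2 → Q)) := by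
  refine measurable_pi_iff.2 fun i => ?_
  fin_cases i
  · exact hf
  · exact hg

theorem ef_bm2 {α Q : Type} [MeasurableSpace α] [MeasurableSpace Q] {f g : α → Q}
    (hf : Measurable f) (hg : Measurable g) {A : (Fin 2 → Q) → ℂ} (hA : BM A) :
    BM (fun a => A ![f a, g a]) :=
  BMs.comp (m' := inferInstance) hA (ef_vec hf hg)

theorem ef_eta {Q : Type} (z : Fin 2 → Q) : (![z 0, z 1] : Fin 2 → Q) = z := by
  funext i
  fin_cases i <;> rfl

theorem ef_jensen {Q : Type} [MeasurableSpace Q] (P : Measure Q) [IsProbabilityMeasure P]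
    {f : Q → ℝ} (hf : Integrable f P) (hf2 : Integrable (fun y => f y ^ 2) P) :
    (∫ y, f y ∂P) ^ 2 ≤ ∫ y, f y ^ 2 ∂P := by
  set c := ∫ y, f y ∂P with hc
  have h4 : 0 ≤ ∫ y, (f y - c) ^ 2 ∂P := integral_nonneg fun y => sq_nonneg _
  have h5 : ∫ y, (f y - c) ^ 2 ∂P = (∫ y, f y ^ 2 ∂P) - c ^ 2 := by
    have h6 : ∀ y, (f y - c) ^ 2 = f y ^ 2 - (2 * c * f y - c ^ 2) :=
      fun y => by ring
    simp only [h6]
    have h7 : Integrable (fun y => 2 * c * f y - c ^ 2) P :=
      (hf.const_mul (2 * c)).sub (integrable_const _)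
    rw [integral_sub hf2 h7,
      integral_sub (hf.const_mul (2 * c)) (integrable_const _), integral_const_mul, ← hc,
      integral_const, probReal_univ, one_smul]
    ring
  rw [h5] at h4
  linarith

theorem ef_sq_int {Q : Type} [MeasurableSpace Q] {f : Q → ℂ} (hf : BM f) (P : Measure Q)
    [IsProbabilityMeasure P] : Integrable (fun y => ‖f y‖ ^ 2) P := bas_int_sq hf P

/-- Cauchy-Schwarz for a product with a function bounded by `1` -/
theorem ef_cs {Q : Type} [MeasurableSpace Q] (P : Measure Q) [IsProbabilityMeasure P]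
    {f g : Q → ℂ} (hf : BM f) (hg : BM g) (h1 : ∀ y, ‖f y‖ ≤ 1) :
    ‖∫ y, f y * g y ∂P‖ ^ 2 ≤ ∫ y, ‖g y‖ ^ 2 ∂P := by
  have h2 : ‖∫ y, f y * g y ∂P‖ ≤ ∫ y, ‖g y‖ ∂P := by
    refine (norm_integral_le_integral_norm _).trans ?_
    refine integral_mono_of_nonneg (Eventually.of_forall fun y => norm_nonneg _)
      (hg.integrable P).norm (Eventually.of_forall fun y => ?_)
    show ‖f y * g y‖ ≤ ‖g y‖
    rw [norm_mul]
    exact mul_le_of_le_one_left (norm_nonneg _) (h1 y)
  exact (pow_le_pow_left₀ (norm_nonneg _) h2 2).trans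
    (ef_jensen P (hg.integrable P).norm (ef_sq_int hg P))

theorem ef_swap_meas {Q : Type} [MeasurableSpace Q] :
    Measurable (fun z : Fin 2 → Q => (![z 1, z 0] : Fin 2 → Q)) :=
  ef_vec (measurable_pi_apply 1) (measurable_pi_apply 0)

theorem ef_swap_mp {Q : Type} (m : MeasurableSpace Q) [mQ : MeasurableSpace Q]
    [StandardBorelSpace Q] (ν : Measure Q) [IsProbabilityMeasure ν] (hm : m ≤ mQ) :
    MeasurePreserving (fun z : Fin 2 → Q => (![z 1, z 0] : Fin 2 → Q)) (relInd m ν (Fin 2))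
      (relInd m ν (Fin 2)) := by
  have h := relInd_rst m ν hm (fun i : Fin 2 => Equiv.swap (0 : Fin 2) 1 i)
    (Equiv.injective _)
  have h2 : (fun (z : Fin 2 → Q) (k : Fin 2) => z (Equiv.swap (0 : Fin 2) 1 k)) =
      fun z => (![z 1, z 0] : Fin 2 → Q) := by
    funext z k
    fin_cases k <;> rfl
  rw [h2] at h
  exact h

/-- almost everywhere equality for the relative square, as an iterated statement -/
theorem ef_ae_iff {Q E : Type} [MeasurableSpace E] [MeasurableEq E] (m : MeasurableSpace Q)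
    [mQ : MeasurableSpace Q]
    [StandardBorelSpace Q] (ν : Measure Q) [IsProbabilityMeasure ν] (hm : m ≤ mQ)
    {A B : (Fin 2 → Q) → E} (hA : Measurable A) (hB : Measurable B) :
    A =ᵐ[relInd m ν (Fin 2)] B ↔
      ∀ᵐ x ∂ν, ∀ᵐ y ∂(condExpKernel ν m x), A ![x, y] = B ![x, y] := by
  have hM := relC_markov m ν
  have hmeas : Measurable (fun p : Q × Q => (![p.1, p.2] : Fin 2 → Q)) :=
    ef_vec measurable_fst measurable_snd
  have hs : MeasurableSet {z : Fin 2 → Q | A z = B z} := measurableSet_eq_fun hA hB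
  rw [Filter.EventuallyEq, relC_two m ν hm, ae_map_iff hmeas.aemeasurable hs,
    Measure.ae_compProd_iff (p := fun x : Q × Q => A ![x.1, x.2] = B ![x.1, x.2]) (hmeas hs)]
  rfl

/-- the iterated integral, real version -/
theorem ef_int_two {Q : Type} (m : MeasurableSpace Q) [mQ : MeasurableSpace Q]
    [StandardBorelSpace Q] (ν : Measure Q) [IsProbabilityMeasure ν] (hm : m ≤ mQ)
    {F : (Fin 2 → Q) → ℂ} (hF : BM F) :
    ∫ z, ‖F z‖ ^ 2 ∂(relInd m ν (Fin 2)) =
      ∫ x, ∫ y, ‖F ![x, y]‖ ^ 2 ∂(condExpKernel ν m x) ∂ν := by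
  have hM := relC_markov m ν
  have hP := relInd_prob m ν (Fin 2)
  have hmeas : Measurable (fun p : Q × Q => (![p.1, p.2] : Fin 2 → Q)) :=
    ef_vec measurable_fst measurable_snd
  have hF' : BM (fun p : Q × Q => F (![p.1, p.2] : Fin 2 → Q)) :=
    BMs.comp (m' := inferInstance) hF hmeas
  rw [relC_two m ν hm, integral_map hmeas.aemeasurable
    (hF.1.norm.pow_const 2).aestronglyMeasurable,
    Measure.integral_compProd (ef_sq_int hF' _)]
  rfl

/-- the kernel is constant on the fibres: swapping the base point -/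
theorem ef_shift {Q : Type} (m : MeasurableSpace Q) [mQ : MeasurableSpace Q]
    [StandardBorelSpace Q] (ν : Measure Q) [IsProbabilityMeasure ν] (hm : m ≤ mQ)
    {P : Q → Q → Prop} (h : ∀ᵐ x ∂ν, ∀ᵐ y ∂(condExpKernel ν m x), P x y) :
    ∀ᵐ x ∂ν, ∀ᵐ y ∂(condExpKernel ν m x), ∀ᵐ w ∂(condExpKernel ν m x), P y w := by
  filter_upwards [ae_ae_condExpKernel m ν hm h, condExpKernel_self m ν hm] with x h1 h2
  filter_upwards [h1, h2] with y h3 h4
  rw [h4] at h3
  exact h3

section
variable {Q : Type} (m : MeasurableSpace Q) [mQ : MeasurableSpace Q] [StandardBorelSpace Q]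
  (ν : Measure Q) [IsProbabilityMeasure ν] (hm : m ≤ mQ)

include hm

omit hm in
omit [StandardBorelSpace Q] in
theorem ef_adj_bm {A : (Fin 2 → Q) → ℂ} (hA : BM A) : BM (adj A) :=
  BMs.conj (ef_bm2 (measurable_pi_apply 1) (measurable_pi_apply 0) hA)

/-- **EF1.** -/
theorem kc_bm {A B : (Fin 2 → Q) → ℂ} (hA : BM A) (hB : BM B) : BM (kc m ν A B) := by
  have _ := hm
  have hM := relC_markov m ν
  have hF : BM (fun p : (Fin 2 → Q) × Q => A ![p.1 0, p.2] * B ![p.2, p.1 1]) :=
    BMs.mul (ef_bm2 ((measurable_pi_apply 0).comp measurable_fst) measurable_snd hA)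
      (ef_bm2 measurable_snd ((measurable_pi_apply 1).comp measurable_fst) hB)
  have hK : IsMarkovKernel ((relC_ker m ν).comap (fun z : Fin 2 → Q => z 0)
      (measurable_pi_apply 0)) := inferInstance
  obtain ⟨hF1, C, hC⟩ := hF
  refine ⟨?_, C, fun z => ?_⟩
  · have h1 := hF1.stronglyMeasurable.integral_kernel_prod_right'
      (κ := (relC_ker m ν).comap (fun z : Fin 2 → Q => z 0) (measurable_pi_apply 0))
    exact h1.measurable
  · have hP := relA_prob m ν (z 0)
    refine (norm_integral_le_of_norm_le_const (C := C)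
      (Eventually.of_forall fun y => hC (z, y))).trans ?_
    rw [probReal_univ, mul_one]

/-- **EF2.** Compatibility with almost everywhere equality (`ae_relInd_two` for the first factor; for
the second: for almost every `x`, for `κ_x`-a.e. `x'`, `B (·, x') = B' (·, x')` `κ_x`-a.e.: use the
three coordinate version `integral_relInd_three` of the null set, and `relInd_rst`). -/
theorem kc_congr {A A' B B' : (Fin 2 → Q) → ℂ} (hA : BM A) (hB : BM B) (hA' : BM A') (hB' : BM B')
    (h1 : A =ᵐ[relInd m ν (Fin 2)] A') (h2 : B =ᵐ[relInd m ν (Fin 2)] B') :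
    kc m ν A B =ᵐ[relInd m ν (Fin 2)] kc m ν A' B' := by
  have hK := relA_prob m ν
  rw [ef_ae_iff m ν hm (kc_bm m ν hm hA hB).1 (kc_bm m ν hm hA' hB').1]
  have h3 := (ef_ae_iff m ν hm hA.1 hA'.1).1 h1
  have h4 := ef_shift m ν hm ((ef_ae_iff m ν hm hB.1 hB'.1).1 h2)
  filter_upwards [h3, h4] with x h5 h6
  have hs : MeasurableSet {p : Q × Q | B ![p.1, p.2] = B' ![p.1, p.2]} :=
    measurableSet_eq_fun (hB.1.comp (ef_vec measurable_fst measurable_snd))
      (hB'.1.comp (ef_vec measurable_fst measurable_snd))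
  have h7 := (Measure.ae_ae_comm (μ := condExpKernel ν m x) (ν := condExpKernel ν m x)
    (p := fun y w => B ![y, w] = B' ![y, w]) hs).1 h6
  filter_upwards [h7] with x' h8
  show ∫ y, A ![x, y] * B ![y, x'] ∂(condExpKernel ν m x) =
    ∫ y, A' ![x, y] * B' ![y, x'] ∂(condExpKernel ν m x)
  refine integral_congr_ae ?_
  filter_upwards [h5, h8] with y h9 h10
  rw [h9, h10]

/-- **EF3.** Associativity (Fubini on the fibres, `condExpKernel_self`). -/
theorem kc_assoc {A B C : (Fin 2 → Q) → ℂ} (hA : BM A) (hB : BM B) (hC : BM C) :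
    kc m ν (kc m ν A B) C =ᵐ[relInd m ν (Fin 2)] kc m ν A (kc m ν B C) := by
  have hK := relA_prob m ν
  have hAB := kc_bm m ν hm hA hB
  have hBC := kc_bm m ν hm hB hC
  rw [ef_ae_iff m ν hm (kc_bm m ν hm hAB hC).1 (kc_bm m ν hm hA hBC).1]
  filter_upwards [condExpKernel_self m ν hm] with x hx
  refine Eventually.of_forall fun x' => ?_
  show ∫ y, (∫ w, A ![x, w] * B ![w, y] ∂(condExpKernel ν m x)) * C ![y, x']
      ∂(condExpKernel ν m x) =
    ∫ w, A ![x, w] * (∫ y, B ![w, y] * C ![y, x'] ∂(condExpKernel ν m w))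
      ∂(condExpKernel ν m x)
  have h1 : ∫ w, A ![x, w] * (∫ y, B ![w, y] * C ![y, x'] ∂(condExpKernel ν m w))
      ∂(condExpKernel ν m x) =
      ∫ w, ∫ y, A ![x, w] * B ![w, y] * C ![y, x'] ∂(condExpKernel ν m x)
        ∂(condExpKernel ν m x) := by
    refine integral_congr_ae ?_
    filter_upwards [hx] with w hw
    rw [hw, ← integral_const_mul]
    refine integral_congr_ae (Eventually.of_forall fun y => ?_)
    show A ![x, w] * (B ![w, y] * C ![y, x']) = A ![x, w] * B ![w, y] * C ![y, x']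
    ring
  rw [h1, integral_integral_swap]
  · refine integral_congr_ae (Eventually.of_forall fun y => ?_)
    show (∫ w, A ![x, w] * B ![w, y] ∂(condExpKernel ν m x)) * C ![y, x'] =
      ∫ w, A ![x, w] * B ![w, y] * C ![y, x'] ∂(condExpKernel ν m x)
    rw [integral_mul_const]
  · have hF : BM (fun p : Q × Q => A ![x, p.1] * B ![p.1, p.2] * C ![p.2, x']) :=
      BMs.mul (BMs.mul (ef_bm2 measurable_const measurable_fst hA)
        (ef_bm2 measurable_fst measurable_snd hB)) (ef_bm2 measurable_snd measurable_const hC)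
    exact hF.integrable _

/-- **EF4.** Adjoint of a product (`condExpKernel` is the same at `z 0` and `z 1`, almost surely). -/
theorem adj_kc {A B : (Fin 2 → Q) → ℂ} (hA : BM A) (hB : BM B) :
    adj (kc m ν A B) =ᵐ[relInd m ν (Fin 2)] kc m ν (adj B) (adj A) := by
  have hA' : BM (adj A) := ef_adj_bm hA
  have hB' : BM (adj B) := ef_adj_bm hB
  rw [ef_ae_iff m ν hm (ef_adj_bm (kc_bm m ν hm hA hB)).1 (kc_bm m ν hm hB' hA').1]
  filter_upwards [condExpKernel_self m ν hm] with x hx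
  filter_upwards [hx] with x' hx'
  show conj (∫ y, A ![x', y] * B ![y, x] ∂(condExpKernel ν m x')) =
    ∫ y, conj (B ![y, x]) * conj (A ![x', y]) ∂(condExpKernel ν m x)
  rw [hx', ← integral_conj]
  refine integral_congr_ae (Eventually.of_forall fun y => ?_)
  show conj (A ![x', y] * B ![y, x]) = conj (B ![y, x]) * conj (A ![x', y])
  rw [map_mul, mul_comm]

theorem adj_bm {A : (Fin 2 → Q) → ℂ} (hA : BM A) : BM (adj A) := by
  have _ := hm
  exact ef_adj_bm hA

/-- `relInd` is symmetric, so `adj` respects a.e. equality and the norm -/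
theorem adj_congr {A B : (Fin 2 → Q) → ℂ} (h : A =ᵐ[relInd m ν (Fin 2)] B) :
    adj A =ᵐ[relInd m ν (Fin 2)] adj B := by
  filter_upwards [(ef_swap_mp m ν hm).quasiMeasurePreserving.ae h] with z hz
  show conj (A ![z 1, z 0]) = conj (B ![z 1, z 0])
  rw [hz]

theorem kn_adj {A : (Fin 2 → Q) → ℂ} (hA : BM A) : kn m ν (adj A) = kn m ν A := by
  have hmp := ef_swap_mp m ν hm
  have h1 : ∫ z, ‖A z‖ ^ 2 ∂((relInd m ν (Fin 2)).map
      (fun z : Fin 2 → Q => (![z 1, z 0] : Fin 2 → Q))) =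
      ∫ z, ‖A ![z 1, z 0]‖ ^ 2 ∂(relInd m ν (Fin 2)) :=
    integral_map hmp.measurable.aemeasurable (hA.1.norm.pow_const 2).aestronglyMeasurable
  rw [hmp.map_eq] at h1
  show ∫ z, ‖conj (A ![z 1, z 0])‖ ^ 2 ∂(relInd m ν (Fin 2)) = _
  simp only [Complex.norm_conj]
  exact h1.symm

theorem kn_congr {A B : (Fin 2 → Q) → ℂ} (h : A =ᵐ[relInd m ν (Fin 2)] B) :
    kn m ν A = kn m ν B := by
  have _ := hm
  refine integral_congr_ae ?_
  filter_upwards [h] with z hz
  rw [hz]

/-- **EF5.** Products with a kernel bounded by `1` do not increase the norm. Proof: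
`|∫ A (x, y) B (y, x') ∂κ|² ≤ ∫ |B (y, x')|² ∂κ (y)`; integrate. -/
theorem kn_kc_le_right {A B : (Fin 2 → Q) → ℂ} (hA : BM A) (hB : BM B) (h1 : ∀ z, ‖A z‖ ≤ 1) :
    kn m ν (kc m ν A B) ≤ kn m ν B := by
  have hK := relA_prob m ν
  have hM := relC_markov m ν
  have hAB := kc_bm m ν hm hA hB
  unfold kn
  rw [ef_int_two m ν hm hAB, ef_int_two m ν hm hB]
  -- the inner integral as a bounded measurable function
  have hG : BM (fun y => ((∫ w, ‖B ![y, w]‖ ^ 2 ∂(condExpKernel ν m y) : ℝ) : ℂ)) := by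
    obtain ⟨hB1, C, hC⟩ := hB
    have h2 : Measurable (fun y => ∫ w, ‖B ![y, w]‖ ^ 2 ∂(condExpKernel ν m y)) := by
      have h3 : Measurable (fun p : Q × Q => ‖B ![p.1, p.2]‖ ^ 2) :=
        (hB1.comp (ef_vec measurable_fst measurable_snd)).norm.pow_const 2
      exact (h3.stronglyMeasurable.integral_kernel_prod_right' (κ := relC_ker m ν)).measurable
    refine ⟨Complex.measurable_ofReal.comp h2, C ^ 2, fun y => ?_⟩
    rw [Complex.norm_real]
    refine (norm_integral_le_of_norm_le_const (C := C ^ 2)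
      (Eventually.of_forall fun w => ?_)).trans ?_
    · rw [Real.norm_of_nonneg (by positivity)]
      exact pow_le_pow_left₀ (norm_nonneg _) (hC _) 2
    · rw [probReal_univ, mul_one]
  -- average over the fibre
  have h4 : ∫ x, ∫ y, (∫ w, ‖B ![y, w]‖ ^ 2 ∂(condExpKernel ν m y)) ∂(condExpKernel ν m x) ∂ν =
      ∫ y, (∫ w, ‖B ![y, w]‖ ^ 2 ∂(condExpKernel ν m y)) ∂ν := by
    have h5 := integral_condExp (μ := ν) (m := m) hm
      (f := fun y => ((∫ w, ‖B ![y, w]‖ ^ 2 ∂(condExpKernel ν m y) : ℝ) : ℂ))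
    have h6 := condExp_ae_eq_integral_condExpKernel hm (hG.integrable ν)
    rw [integral_congr_ae h6] at h5
    have h7 : ∀ x, ∫ y, ((∫ w, ‖B ![y, w]‖ ^ 2 ∂(condExpKernel ν m y) : ℝ) : ℂ)
        ∂(condExpKernel ν m x) = ((∫ y, (∫ w, ‖B ![y, w]‖ ^ 2 ∂(condExpKernel ν m y))
          ∂(condExpKernel ν m x) : ℝ) : ℂ) := fun x => integral_ofReal
    simp only [h7] at h5
    rw [integral_complex_ofReal, integral_complex_ofReal] at h5
    exact_mod_cast h5
  rw [← h4]
  have hint : Integrable (fun x => ∫ y, (∫ w, ‖B ![y, w]‖ ^ 2 ∂(condExpKernel ν m y))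
      ∂(condExpKernel ν m x)) ν := by
    obtain ⟨hG1, C, hC⟩ := hG
    have h8 : Measurable (fun y => ∫ w, ‖B ![y, w]‖ ^ 2 ∂(condExpKernel ν m y)) := by
      have h3 : Measurable (fun p : Q × Q => ‖B ![p.1, p.2]‖ ^ 2) :=
        (hB.1.comp (ef_vec measurable_fst measurable_snd)).norm.pow_const 2
      exact (h3.stronglyMeasurable.integral_kernel_prod_right' (κ := relC_ker m ν)).measurable
    have h9 : Measurable (fun x => ∫ y, (∫ w, ‖B ![y, w]‖ ^ 2 ∂(condExpKernel ν m y))
        ∂(condExpKernel ν m x)) :=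
      ((h8.comp measurable_snd).stronglyMeasurable.integral_kernel_prod_right'
        (κ := relC_ker m ν) (f := fun p : Q × Q =>
          ∫ w, ‖B ![p.2, w]‖ ^ 2 ∂(condExpKernel ν m p.2))).measurable
    refine Integrable.of_bound h9.aestronglyMeasurable C (Eventually.of_forall fun x => ?_)
    refine (norm_integral_le_of_norm_le_const (C := C)
      (Eventually.of_forall fun y => ?_)).trans ?_
    · have h10 := hC y
      rw [Complex.norm_real] at h10
      exact h10
    · rw [probReal_univ, mul_one]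
  refine integral_mono_of_nonneg (Eventually.of_forall fun x => integral_nonneg fun y => by
    positivity) hint ?_
  filter_upwards [condExpKernel_self m ν hm] with x hx
  have h11 : ∫ y, (∫ w, ‖B ![y, w]‖ ^ 2 ∂(condExpKernel ν m y)) ∂(condExpKernel ν m x) =
      ∫ y, (∫ w, ‖B ![y, w]‖ ^ 2 ∂(condExpKernel ν m x)) ∂(condExpKernel ν m x) := by
    refine integral_congr_ae ?_
    filter_upwards [hx] with y hy
    rw [hy]
  have hBp : BM (fun p : Q × Q => B ![p.1, p.2]) := ef_bm2 measurable_fst measurable_snd hB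
  show ∫ y, ‖kc m ν A B ![x, y]‖ ^ 2 ∂(condExpKernel ν m x) ≤
    ∫ y, (∫ w, ‖B ![y, w]‖ ^ 2 ∂(condExpKernel ν m y)) ∂(condExpKernel ν m x)
  rw [h11, integral_integral_swap (ef_sq_int hBp _)]
  refine integral_mono (ef_sq_int (ef_bm2 measurable_const measurable_id hAB) _) ?_ fun x' => ?_
  · have h12 := (ef_sq_int hBp ((condExpKernel ν m x).prod (condExpKernel ν m x)))
    exact h12.integral_prod_right
  · show ‖∫ y, A ![x, y] * B ![y, x'] ∂(condExpKernel ν m x)‖ ^ 2 ≤
      ∫ y, ‖B ![y, x']‖ ^ 2 ∂(condExpKernel ν m x)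
    exact ef_cs _ (ef_bm2 measurable_const measurable_id hA)
      (ef_bm2 measurable_id measurable_const hB) fun y => h1 _

theorem kn_kc_le_left {A B : (Fin 2 → Q) → ℂ} (hA : BM A) (hB : BM B) (h1 : ∀ z, ‖B z‖ ≤ 1) :
    kn m ν (kc m ν A B) ≤ kn m ν A := by
  rw [← kn_adj m ν hm (kc_bm m ν hm hA hB), kn_congr m ν hm (adj_kc m ν hm hA hB),
    ← kn_adj m ν hm hA]
  refine kn_kc_le_right m ν hm (ef_adj_bm hB) (ef_adj_bm hA) fun z => ?_
  show ‖conj (B ![z 1, z 0])‖ ≤ 1
  rw [Complex.norm_conj]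
  exact h1 _

end

end Pool.Agent.HK820
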