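import Pool.Agent.Lib_MP_820dd4_hk.SBd

open MeasureTheory ProbabilityTheory Filter Topology
open scoped ComplexConjugate ENNReal

namespace Pool.Agent.HK820

private theorem sc3_arg {z : ℂ} (hz : ‖z‖ = 1) : |Complex.arg z| ≤ Real.pi / 2 * ‖z - 1‖ := by
  have h0 : z ≠ 0 := by
    intro h
    rw [h, norm_zero] at hz
    exact zero_ne_one hz
  have h := Complex.angle_le_mul_norm_sub hz (norm_one : ‖(1 : ℂ)‖ = 1)
  rwa [Complex.angle_one_right h0] at h

/-- the sign `(-1)^n` -/
private noncomputable def sgn3 (n : ℕ) : ℝ := if Even n then 1 else -1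

private theorem abs_sgn3 (n : ℕ) : |sgn3 n| = 1 := by
  unfold sgn3
  split_ifs <;> simp

private theorem cj_exp3 (n : ℕ) (t : ℝ) :
    cj n (Complex.exp (Complex.I * t)) = Complex.exp (Complex.I * ((sgn3 n * t : ℝ) : ℂ)) := by
  unfold cj sgn3
  split_ifs with h
  · rw [one_mul]
  · rw [← Complex.exp_conj, map_mul, Complex.conj_I, Complex.conj_ofReal]
    congr 1
    push_cast
    ring

private theorem prod_exp3 {ι : Type} (s : Finset ι) (t : ι → ℝ) :
    ∏ w ∈ s, Complex.exp (Complex.I * (t w : ℂ)) =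
      Complex.exp (Complex.I * ((∑ w ∈ s, t w : ℝ) : ℂ)) := by
  rw [← Complex.exp_sum]
  congr 1
  push_cast
  rw [Finset.mul_sum]

private theorem exp_inj3 {s t : ℝ} (h : Complex.exp (Complex.I * s) = Complex.exp (Complex.I * t))
    (hst : |s - t| < 2 * Real.pi) : s = t := by
  rw [Complex.exp_eq_exp_iff_exists_int] at h
  obtain ⟨n, hn⟩ := h
  have h1 : (s : ℂ) = t + n * (2 * Real.pi) := by
    have h2 : Complex.I * (s : ℂ) = Complex.I * (t + n * (2 * Real.pi)) := by
      rw [hn]
      ring
    exact mul_left_cancel₀ Complex.I_ne_zero h2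
  have h2 : s = t + n * (2 * Real.pi) := by
    exact_mod_cast h1
  have hpi := Real.pi_pos
  have h3 : |(n : ℝ)| < 1 := by
    have h4 : s - t = n * (2 * Real.pi) := by rw [h2]; ring
    rw [h4, abs_mul, abs_of_pos (show (0 : ℝ) < 2 * Real.pi by positivity)] at hst
    by_contra hc
    rw [not_lt] at hc
    nlinarith
  have h4 : n = 0 := by
    have h5 : |n| < 1 := by exact_mod_cast h3
    exact Int.abs_lt_one_iff.1 h5
  rw [h2, h4]
  simp

private theorem out3_inj : Function.Injective out3 := by
  intro a b h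
  fin_cases a <;> fin_cases b <;> simp_all [out3]

private theorem in3_inj (a : Fin 2) : Function.Injective (in3 a) := by
  intro b c h
  fin_cases a <;> fin_cases b <;> fin_cases c <;> simp_all [out3, in3]

private theorem in3_out3 (w a b : Fin 2) (h : in3 w a = out3 b) : a = 0 ∧ b = w := by
  fin_cases w <;> fin_cases a <;> fin_cases b <;> simp_all [out3, in3]

/-- **SC3.** A cocycle uniformly close to `1` is the derivative of the exponential of a small
function.

Proof. `τ x = Complex.arg (σ x)`, `|τ| ≤ (π / 2) * ‖σ - 1‖ ≤ 2 δ` almost everywhere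
(redefine `τ = 0` where `‖σ x - 1‖ > δ`). From the cocycle identity
`exp (i (τ(outer) - ∑ w, (-1)^(wt w) τ(inner w))) = 1` and the modulus of the exponent is at most
`(2 ^ D + 1) * 2 δ < 2 π`, so `τ(outer) = ∑ w, (-1)^(wt w) τ(inner w)`, almost everywhere in
`cube μ T (Fin 3) D`. Take the conditional expectation given the outer pattern
(`two_patterns_condExp`): `τ(outer) = ∑ w, (-1)^(wt w) R (y (out3 ∘ w))` with `R = vE τ` (real
valued: take the real part), `|R| ≤ 2 δ`. So `σ = dd D (exp (i R))` at the outer pattern, hence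
`cube μ T (Fin 2) D`-almost everywhere (`cube_rst`). -/
theorem scl_log {X : Type} [MeasurableSpace X] [StandardBorelSpace X] [Nonempty X]
    (μ : Measure X) [IsProbabilityMeasure μ] (T : X ≃ᵐ X) (hT : MeasurePreserving T μ μ) (D : ℕ)
    {σ : Arr (Fin 2) X D → ℂ} (hσ : Measurable σ) (h1 : ∀ x, ‖σ x‖ = 1) (hc : IsCoc μ T D σ)
    {δ : ℝ} (hδ : δ * 2 ^ D ≤ 1) (h : ∀ᵐ x ∂(cube μ T (Fin 2) D), ‖σ x - 1‖ ≤ δ) :
    ∃ R : X → ℝ, Measurable R ∧ (∀ a, |R a| ≤ 2 * δ) ∧
      σ =ᵐ[cube μ T (Fin 2) D] dd D (fun a => Complex.exp (Complex.I * R a)) := by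
  haveI := cube_prob μ T (Fin 2) D
  haveI := cube_prob μ T (Fin 3) D
  have hpi := Real.pi_pos
  have hpi4 := Real.pi_le_four
  -- `δ` is nonnegative
  have hδ0 : 0 ≤ δ := by
    obtain ⟨x, hx⟩ := h.exists
    exact le_trans (norm_nonneg _) hx
  -- the logarithm
  set τ : Arr (Fin 2) X D → ℝ := fun x => if ‖σ x - 1‖ ≤ δ then Complex.arg (σ x) else 0 with hτ
  have hτm : Measurable τ := by
    refine Measurable.ite ?_ (Complex.measurable_arg.comp hσ) measurable_const
    exact measurableSet_le (hσ.sub_const 1).norm measurable_const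
  have hτb : ∀ x, |τ x| ≤ Real.pi / 2 * δ := by
    intro x
    simp only [hτ]
    split_ifs with hx
    · refine le_trans (sc3_arg (h1 x)) ?_
      exact mul_le_mul_of_nonneg_left hx (by positivity)
    · rw [abs_zero]
      positivity
  have hτe : ∀ x, ‖σ x - 1‖ ≤ δ → Complex.exp (Complex.I * τ x) = σ x := by
    intro x hx
    simp only [hτ]
    rw [if_pos hx, mul_comm]
    have := Complex.norm_mul_exp_arg_mul_I (σ x)
    rwa [h1 x, Complex.ofReal_one, one_mul] at this
  -- the complex version of the logarithm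
  set F : Arr (Fin 2) X D → ℂ := fun x => (τ x : ℂ) with hF
  have hFm : Measurable F := Complex.measurable_ofReal.comp hτm
  have hFb : ∀ x, ‖F x‖ ≤ Real.pi / 2 * δ := by
    intro x
    simp only [hF]
    rw [Complex.norm_real, Real.norm_eq_abs]
    exact hτb x
  have hFBM : BM F := ⟨hFm, _, hFb⟩
  -- the averaged logarithm
  set R : X → ℝ := fun a => (vE μ T (Fin 2) D 0 F a).re with hR
  have hvBM : BM (vE μ T (Fin 2) D 0 F) := vE_bm μ T (Fin 2) D 0 hFBM
  have hRm : Measurable R := Complex.measurable_re.comp hvBM.1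
  have hRb : ∀ a, |R a| ≤ 2 * δ := by
    intro a
    haveI := vK_prob μ T (Fin 2) D 0
    have h2 : ‖vE μ T (Fin 2) D 0 F a‖ ≤ Real.pi / 2 * δ := by
      unfold vE
      refine le_trans (norm_integral_le_of_norm_le_const (Eventually.of_forall hFb)) ?_
      rw [probReal_univ, mul_one]
    refine le_trans (Complex.abs_re_le_norm _) (le_trans h2 ?_)
    nlinarith
  refine ⟨R, hRm, hRb, ?_⟩
  -- closeness on all the faces
  have hout : ∀ᵐ y ∂(cube μ T (Fin 3) D), ‖σ (rst (fun _ => out3) y) - 1‖ ≤ δ :=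
    (cube_rst hT (fun _ : Fin D => out3) (fun _ => out3_inj)).mp.quasiMeasurePreserving.ae h
  have hin : ∀ᵐ y ∂(cube μ T (Fin 3) D), ∀ w : Fin D → Fin 2,
      ‖σ (rst (fun j => in3 (w j)) y) - 1‖ ≤ δ := by
    rw [ae_all_iff]
    intro w
    exact (cube_rst hT (fun j : Fin D => in3 (w j))
      (fun j => in3_inj (w j))).mp.quasiMeasurePreserving.ae h
  -- the additive cocycle identity
  have hadd : ∀ᵐ y ∂(cube μ T (Fin 3) D), τ (rst (fun _ => out3) y) =
      ∑ w : Fin D → Fin 2, sgn3 (wt w) * τ (rst (fun j => in3 (w j)) y) := by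
    filter_upwards [hc, hout, hin] with y h2 h3 h4
    apply exp_inj3
    · rw [hτe _ h3, ← prod_exp3, h2]
      refine Finset.prod_congr rfl fun w _ => ?_
      rw [← cj_exp3, hτe _ (h4 w)]
    · refine lt_of_le_of_lt (abs_sub _ _) ?_
      have h5 : |∑ w : Fin D → Fin 2, sgn3 (wt w) * τ (rst (fun j => in3 (w j)) y)| ≤
          2 ^ D * (Real.pi / 2 * δ) := by
        refine le_trans (Finset.abs_sum_le_sum_abs _ _) ?_
        refine le_trans (Finset.sum_le_card_nsmul _ _ (Real.pi / 2 * δ) fun w _ => ?_) ?_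
        · rw [abs_mul, abs_sgn3, one_mul]
          exact hτb _
        · rw [Finset.card_univ, Fintype.card_fun, Fintype.card_fin, Fintype.card_fin,
            nsmul_eq_mul]
          push_cast
          exact le_rfl
      have h6 := hτb (rst (fun _ => out3) y)
      have h7 : (1 : ℝ) ≤ 2 ^ D := one_le_pow₀ (by norm_num)
      have h8 : δ ≤ 1 := by nlinarith
      have h9 : 2 ^ D * (Real.pi / 2 * δ) ≤ Real.pi / 2 := by nlinarith
      nlinarith
  -- conditional expectation given the outer pattern
  have hcomap : MeasurableSpace.comap (rst (fun _ : Fin D => out3)) inferInstance ≤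
      (inferInstance : MeasurableSpace (Arr (Fin 3) X D)) := by
    apply Measurable.comap_le
    exact measurable_pi_lambda _ fun w => measurable_pi_apply _
  have hce : ∀ w : Fin D → Fin 2,
      (cube μ T (Fin 3) D)[fun y => F (rst (fun j => in3 (w j)) y) |
        MeasurableSpace.comap (rst (fun _ : Fin D => out3)) inferInstance]
      =ᵐ[cube μ T (Fin 3) D] fun y => vE μ T (Fin 2) D 0 F (y (fun j => out3 (w j))) := by
    intro w
    have := two_patterns_condExp μ T hT (ι := Fin 3) (κ := Fin 2) (κ' := Fin 2) D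
      (fun j => in3 (w j)) (fun _ => out3) (fun j => in3_inj (w j)) (fun _ => out3_inj)
      0 w (fun j => by simp [in3]) (fun j a b hab => in3_out3 _ _ _ hab) hFBM
    refine this.trans (Eventually.of_forall fun y => ?_)
    simp [in3]
  have hceo : (cube μ T (Fin 3) D)[fun y => F (rst (fun _ => out3) y) |
        MeasurableSpace.comap (rst (fun _ : Fin D => out3)) inferInstance] =
      fun y => F (rst (fun _ => out3) y) := by
    apply condExp_of_stronglyMeasurable hcomap
    · exact (hFm.comp (comap_measurable _)).stronglyMeasurable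
    · refine BM.integrable ⟨hFm.comp ?_, _, fun y => hFb _⟩ _
      exact measurable_pi_lambda _ fun w => measurable_pi_apply _
  have hrm : ∀ e : Fin D → Fin 2 → Fin 3, Measurable (rst e : Arr (Fin 3) X D → Arr (Fin 2) X D) :=
    fun e => measurable_pi_lambda _ fun w => measurable_pi_apply _
  have hint : ∀ w : Fin D → Fin 2, Integrable
      (fun y => F (rst (fun j => in3 (w j)) y)) (cube μ T (Fin 3) D) := fun w =>
    BM.integrable ⟨hFm.comp (hrm _), _, fun y => hFb _⟩ _
  have hsum : (cube μ T (Fin 3) D)[∑ w : Fin D → Fin 2,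
        (sgn3 (wt w) : ℂ) • (fun y => F (rst (fun j => in3 (w j)) y)) |
        MeasurableSpace.comap (rst (fun _ : Fin D => out3)) inferInstance]
      =ᵐ[cube μ T (Fin 3) D] ∑ w : Fin D → Fin 2,
        (sgn3 (wt w) : ℂ) • (fun y => vE μ T (Fin 2) D 0 F (y (fun j => out3 (w j)))) := by
    refine (condExp_finsetSum (fun w _ => (hint w).smul _) _).trans ?_
    have h2 : ∀ w : Fin D → Fin 2,
        (cube μ T (Fin 3) D)[(sgn3 (wt w) : ℂ) • (fun y => F (rst (fun j => in3 (w j)) y)) |
          MeasurableSpace.comap (rst (fun _ : Fin D => out3)) inferInstance]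
        =ᵐ[cube μ T (Fin 3) D]
          (sgn3 (wt w) : ℂ) • (fun y => vE μ T (Fin 2) D 0 F (y (fun j => out3 (w j)))) := by
      intro w
      refine (condExp_smul _ _ _).trans ?_
      filter_upwards [hce w] with y hy
      simp only [Pi.smul_apply, hy]
    have h3 : ∀ᵐ y ∂(cube μ T (Fin 3) D), ∀ w : Fin D → Fin 2,
        ((cube μ T (Fin 3) D)[(sgn3 (wt w) : ℂ) • (fun y => F (rst (fun j => in3 (w j)) y)) |
          MeasurableSpace.comap (rst (fun _ : Fin D => out3)) inferInstance]) y =
          ((sgn3 (wt w) : ℂ) • (fun y : Arr (Fin 3) X D =>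
            vE μ T (Fin 2) D 0 F (y (fun j => out3 (w j))))) y := by
      rw [ae_all_iff]
      intro w
      exact h2 w
    filter_upwards [h3] with y hy
    rw [Finset.sum_apply, Finset.sum_apply]
    exact Finset.sum_congr rfl fun w _ => hy w
  have hcomb : ∀ᵐ y ∂(cube μ T (Fin 3) D), F (rst (fun _ => out3) y) =
      ∑ w : Fin D → Fin 2, (sgn3 (wt w) : ℂ) * vE μ T (Fin 2) D 0 F (y (fun j => out3 (w j))) := by
    have h2 : (fun y => F (rst (fun _ => out3) y)) =ᵐ[cube μ T (Fin 3) D]
        ∑ w : Fin D → Fin 2, (sgn3 (wt w) : ℂ) • (fun y => F (rst (fun j => in3 (w j)) y)) := by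
      filter_upwards [hadd] with y hy
      rw [Finset.sum_apply]
      simp only [hF, Pi.smul_apply, smul_eq_mul]
      rw [hy]
      push_cast
      rfl
    have h3 := condExp_congr_ae
      (m := MeasurableSpace.comap (rst (fun _ : Fin D => out3)) inferInstance) h2
    rw [hceo] at h3
    filter_upwards [h3, hsum] with y h4 h5
    rw [h4, h5, Finset.sum_apply]
    simp only [Pi.smul_apply, smul_eq_mul]
  -- conclusion on the outer pattern
  have hfin : ∀ᵐ y ∂(cube μ T (Fin 3) D), σ (rst (fun _ => out3) y) =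
      dd D (fun a => Complex.exp (Complex.I * R a)) (rst (fun _ => out3) y) := by
    filter_upwards [hcomb, hout] with y h2 h3
    rw [← hτe _ h3]
    have h4 : τ (rst (fun _ => out3) y) =
        ∑ w : Fin D → Fin 2, sgn3 (wt w) * R (y (fun j => out3 (w j))) := by
      have h5 := congrArg Complex.re h2
      rw [Complex.re_sum] at h5
      simp only [hF, Complex.ofReal_re, Complex.re_ofReal_mul] at h5
      exact h5
    rw [h4, ← prod_exp3]
    unfold dd
    refine Finset.prod_congr rfl fun w _ => ?_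
    rw [cj_exp3]
    rfl
  -- back to the cube over `Fin 2`
  have hmp := (cube_rst hT (fun _ : Fin D => out3) (fun _ => out3_inj)).mp
  have hEBM : BM (fun a => Complex.exp (Complex.I * R a)) := by
    refine ⟨Complex.measurable_exp.comp
      ((Complex.measurable_ofReal.comp hRm).const_mul Complex.I), 1, fun a => ?_⟩
    show ‖Complex.exp (Complex.I * (R a : ℂ))‖ ≤ 1
    rw [mul_comm, Complex.norm_exp_ofReal_mul_I]
  have hdm : Measurable (dd D (fun a => Complex.exp (Complex.I * R a))) := (dd_bm D hEBM).1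
  have hset : MeasurableSet {x | σ x = dd D (fun a => Complex.exp (Complex.I * R a)) x} :=
    measurableSet_eq_fun hσ hdm
  have h2 := hmp.map_eq
  rw [← h2]
  exact (ae_map_iff hmp.measurable.aemeasurable hset).2 hfin

end Pool.Agent.HK820
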