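import Pool.Agent.Lib_MP_820dd4_hk.SC2
import Pool.Agent.Lib_MP_820dd4_hk.SC3

open MeasureTheory ProbabilityTheory Filter Topology
open scoped ComplexConjugate ENNReal

namespace Pool.Agent.HK820

/-- telescoping bound for products of numbers of norm at most one -/
theorem sc_prod_sub {α : Type*} (s : Finset α) {a b : α → ℂ} (ha : ∀ i, ‖a i‖ ≤ 1)
    (hb : ∀ i, ‖b i‖ ≤ 1) : ‖∏ i ∈ s, a i - ∏ i ∈ s, b i‖ ≤ ∑ i ∈ s, ‖a i - b i‖ := by
  classical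
  induction s using Finset.induction_on with
  | empty => simp
  | insert i s hi ih =>
    rw [Finset.prod_insert hi, Finset.prod_insert hi, Finset.sum_insert hi]
    have e : a i * ∏ j ∈ s, a j - b i * ∏ j ∈ s, b j =
        (a i - b i) * ∏ j ∈ s, a j + b i * (∏ j ∈ s, a j - ∏ j ∈ s, b j) := by ring
    have h1 : ‖∏ j ∈ s, a j‖ ≤ 1 := by
      rw [norm_prod]
      exact Finset.prod_le_one (fun _ _ => norm_nonneg _) (fun j _ => ha j)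
    rw [e]
    refine (norm_add_le _ _).trans ?_
    rw [norm_mul, norm_mul]
    have h2 : ‖a i - b i‖ * ‖∏ j ∈ s, a j‖ ≤ ‖a i - b i‖ * 1 :=
      mul_le_mul_of_nonneg_left h1 (norm_nonneg _)
    have h3 : ‖b i‖ * ‖∏ j ∈ s, a j - ∏ j ∈ s, b j‖ ≤
        1 * ‖∏ j ∈ s, a j - ∏ j ∈ s, b j‖ := mul_le_mul_of_nonneg_right (hb i) (norm_nonneg _)
    linarith

/-- the derivative of a function bounded by one is bounded by the root value -/
theorem sc_dd_root {X : Type} (D : ℕ) {f : X → ℂ} (hf : ∀ a, ‖f a‖ ≤ 1) (x : Arr (Fin 2) X D) :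
    ‖dd D f x‖ ≤ ‖f (x 0)‖ := by
  have h1 : ‖dd D f x‖ = ∏ v : Fin D → Fin 2, ‖f (x v)‖ := by
    rw [dd, norm_prod]
    exact Finset.prod_congr rfl fun v _ => norm_cj _ _
  rw [h1, ← Finset.mul_prod_erase Finset.univ _ (Finset.mem_univ (0 : Fin D → Fin 2))]
  have h2 : ∏ v ∈ Finset.univ.erase (0 : Fin D → Fin 2), ‖f (x v)‖ ≤ 1 :=
    Finset.prod_le_one (fun _ _ => norm_nonneg _) (fun v _ => hf _)
  calc ‖f (x 0)‖ * ∏ v ∈ Finset.univ.erase (0 : Fin D → Fin 2), ‖f (x v)‖ ≤ ‖f (x 0)‖ * 1 :=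
        mul_le_mul_of_nonneg_left h2 (norm_nonneg _)
    _ = ‖f (x 0)‖ := mul_one _

/-- stability of the derivative -/
theorem sc_dd_sub {X : Type} (D : ℕ) {f g : X → ℂ} (hf : ∀ a, ‖f a‖ ≤ 1) (hg : ∀ a, ‖g a‖ ≤ 1)
    {δ : ℝ} (x : Arr (Fin 2) X D) (h : ∀ v, ‖f (x v) - g (x v)‖ ≤ δ) :
    ‖dd D f x - dd D g x‖ ≤ 2 ^ D * δ := by
  have hsub : ∀ (n : ℕ) (a b : ℂ), cj n a - cj n b = cj n (a - b) := by
    intro n a b
    unfold cj
    split_ifs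
    · rfl
    · rw [map_sub]
  rw [dd, dd]
  refine (sc_prod_sub Finset.univ (fun v => ?_) (fun v => ?_)).trans ?_
  · rw [norm_cj]
    exact hf _
  · rw [norm_cj]
    exact hg _
  · calc ∑ v : Fin D → Fin 2, ‖cj (wt v) (f (x v)) - cj (wt v) (g (x v))‖
        ≤ ∑ _v : Fin D → Fin 2, δ := by
          refine Finset.sum_le_sum fun v _ => ?_
          rw [hsub, norm_cj]
          exact h v
      _ = 2 ^ D * δ := by
          rw [Finset.sum_const, Finset.card_univ, Fintype.card_fun, Fintype.card_fin,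
            Fintype.card_fin, nsmul_eq_mul]
          push_cast
          ring

/-- normalisation to the unit circle -/
noncomputable def scN (z : ℂ) : ℂ := if z = 0 then 1 else z / (‖z‖ : ℂ)

theorem measurable_scN : Measurable scN := by
  refine Measurable.ite (measurableSet_singleton 0) measurable_const ?_
  exact measurable_id.div (Complex.measurable_ofReal.comp measurable_norm)

theorem norm_scN (z : ℂ) : ‖scN z‖ = 1 := by
  unfold scN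
  split_ifs with h
  · exact norm_one
  · rw [norm_div, Complex.norm_real, norm_norm, div_self (norm_ne_zero_iff.2 h)]

theorem scN_sub {z : ℂ} (h0 : z ≠ 0) (h1 : ‖z‖ ≤ 1) : ‖scN z - z‖ = 1 - ‖z‖ := by
  have hn : (‖z‖ : ℂ) ≠ 0 := by
    exact_mod_cast norm_ne_zero_iff.2 h0
  have e : scN z - z = scN z * ((1 - ‖z‖ : ℝ) : ℂ) := by
    unfold scN
    rw [if_neg h0]
    push_cast
    field_simp
  rw [e, norm_mul, norm_scN, one_mul, Complex.norm_real, Real.norm_eq_abs,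
    abs_of_nonneg (by linarith)]

/-- the mean distance of `Φ` to `1` -/
theorem sc_mean {X : Type} [MeasurableSpace X] [StandardBorelSpace X] [Nonempty X]
    (μ : Measure X) [IsProbabilityMeasure μ] (T : X ≃ᵐ X) (D : ℕ)
    {σ : Arr (Fin 2) X D → ℂ} (hσ : Measurable σ) (h1 : ∀ x, ‖σ x‖ = 1) :
    ∫ a, ‖vE μ T (Fin 2) D 0 σ a - 1‖ ∂μ ≤ ∫ x, ‖σ x - 1‖ ∂(cube μ T (Fin 2) D) := by
  have hP : IsProbabilityMeasure (cube μ T (Fin 2) D) := cube_prob μ T (Fin 2) D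
  have hK : IsMarkovKernel (vK μ T (Fin 2) D 0) := vK_prob μ T (Fin 2) D 0
  have hσb : BM σ := ⟨hσ, 1, fun x => (h1 x).le⟩
  obtain ⟨G, hG⟩ : ∃ G : Arr (Fin 2) X D → ℂ, G = fun x => ((‖σ x - 1‖ : ℝ) : ℂ) := ⟨_, rfl⟩
  have hGb : BM G := by
    refine ⟨?_, 2, fun x => ?_⟩
    · rw [hG]
      exact Complex.measurable_ofReal.comp (hσ.sub_const 1).norm
    · rw [hG]
      show ‖((‖σ x - 1‖ : ℝ) : ℂ)‖ ≤ 2
      rw [Complex.norm_real, norm_norm]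
      calc ‖σ x - 1‖ ≤ ‖σ x‖ + ‖(1 : ℂ)‖ := norm_sub_le _ _
        _ = 2 := by rw [h1, norm_one]; norm_num
  have hvG : ∀ a, vE μ T (Fin 2) D 0 G a =
      ((∫ x, ‖σ x - 1‖ ∂(vK μ T (Fin 2) D 0 a) : ℝ) : ℂ) := by
    intro a
    rw [vE, hG]
    exact integral_ofReal
  have hint := integral_vK μ T (Fin 2) D 0 hGb (φ := fun _ => 1)
    ⟨measurable_const, 1, fun _ => by rw [norm_one]⟩
  have hl : ∫ x, (1 : ℂ) * G x ∂(cube μ T (Fin 2) D) =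
      ((∫ x, ‖σ x - 1‖ ∂(cube μ T (Fin 2) D) : ℝ) : ℂ) := by
    simp only [one_mul, hG]
    exact integral_ofReal
  have hr : ∫ a, (1 : ℂ) * vE μ T (Fin 2) D 0 G a ∂μ =
      ((∫ a, ∫ x, ‖σ x - 1‖ ∂(vK μ T (Fin 2) D 0 a) ∂μ : ℝ) : ℂ) := by
    simp only [one_mul, hvG]
    exact integral_ofReal
  have heq : ∫ x, ‖σ x - 1‖ ∂(cube μ T (Fin 2) D) =
      ∫ a, ∫ x, ‖σ x - 1‖ ∂(vK μ T (Fin 2) D 0 a) ∂μ := by
    have h2 : ∫ x, (1 : ℂ) * G x ∂(cube μ T (Fin 2) D) =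
      ∫ a, (1 : ℂ) * vE μ T (Fin 2) D 0 G a ∂μ := hint
    rw [hl, hr] at h2
    exact Complex.ofReal_injective h2
  rw [heq]
  have hΦ := vE_bm μ T (Fin 2) D 0 hσb
  have hi1 : Integrable (fun a => ‖vE μ T (Fin 2) D 0 σ a - 1‖) μ :=
    ((hΦ.integrable μ).sub (integrable_const _)).norm
  have hi2 : Integrable (fun a => ∫ x, ‖σ x - 1‖ ∂(vK μ T (Fin 2) D 0 a)) μ := by
    have h3 := ((vE_bm μ T (Fin 2) D 0 hGb).integrable μ).re
    refine h3.congr (ae_of_all _ fun a => ?_)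
    show (vE μ T (Fin 2) D 0 G a).re = _
    rw [hvG, Complex.ofReal_re]
  refine integral_mono hi1 hi2 fun a => ?_
  show ‖vE μ T (Fin 2) D 0 σ a - 1‖ ≤ ∫ x, ‖σ x - 1‖ ∂(vK μ T (Fin 2) D 0 a)
  have h4 : vE μ T (Fin 2) D 0 σ a - 1 = ∫ x, (σ x - 1) ∂(vK μ T (Fin 2) D 0 a) := by
    rw [integral_sub (hσb.integrable _) (integrable_const _), integral_const]
    simp [vE]
  rw [h4]
  exact norm_integral_le_integral_norm _

/-- **SC4.** Small cocycle lemma: a cocycle which is close to `1` in `L¹` is the derivative of a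
function close to `1` in `L¹`.

Proof. `Φ = vE σ`, `δ₁ = 4 ^ D * η`. By SC2 `‖σ - dd D Φ‖ ≤ δ₁` almost everywhere. As
`|dd D Φ x| = ∏ v, |Φ (x v)| ≤ |Φ (x 0)| ≤ 1`, we get `|Φ a| ≥ 1 - δ₁ > 0` for almost every `a`
(`cube_eval`). Put `F₁ = Φ / |Φ|` (`1` where `Φ = 0`); `‖F₁ - Φ‖ = 1 - |Φ| ≤ δ₁` a.e., so
`‖dd D F₁ - dd D Φ‖ ≤ 2 ^ D δ₁` a.e. and the cocycle `σ' = σ * conj (dd D F₁)` (SB5) satisfies
`‖σ' - 1‖ ≤ δ₁ + 2 ^ D δ₁ ≤ 2 * 8 ^ D * η =: δ` and `δ * 2 ^ D ≤ 1`. By SC3 `σ' = dd D (exp (i R))`,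
`|R| ≤ 2 δ`. Put `F = F₁ * exp (i R)`. Finally
`∫ ‖F - 1‖ ≤ ∫ ‖Φ - 1‖ + δ₁ + 2 δ ≤ η + 4 ^ D η + 4 * 8 ^ D η ≤ 6 * 8 ^ D η`, where
`∫ ‖Φ a - 1‖ ∂μ ≤ ∫ ∫ ‖σ x - 1‖ ∂(V a) ∂μ = η` (`integral_vK`). -/
theorem small_cocycle {X : Type} [MeasurableSpace X] [StandardBorelSpace X]
    (μ : Measure X) [IsProbabilityMeasure μ] (T : X ≃ᵐ X) (hT : Ergodic T μ) (D : ℕ)
    {σ : Arr (Fin 2) X D → ℂ} (hσ : Measurable σ) (h1 : ∀ x, ‖σ x‖ = 1) (hc : IsCoc μ T D σ)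
    {η : ℝ} (hη : ∫ x, ‖σ x - 1‖ ∂(cube μ T (Fin 2) D) ≤ η) (hη' : η * (2 * 16 ^ D) ≤ 1) :
    ∃ F : X → ℂ, Measurable F ∧ (∀ a, ‖F a‖ = 1) ∧ σ =ᵐ[cube μ T (Fin 2) D] dd D F ∧
      ∫ a, ‖F a - 1‖ ∂μ ≤ 6 * 8 ^ D * η := by
  have hne : Nonempty X := by
    by_contra hcon
    rw [not_nonempty_iff] at hcon
    have h2 : μ Set.univ = 1 := measure_univ
    rw [Set.eq_empty_of_isEmpty (Set.univ : Set X), measure_empty] at h2
    exact zero_ne_one h2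
  have hP : IsProbabilityMeasure (cube μ T (Fin 2) D) := cube_prob μ T (Fin 2) D
  have hK : IsMarkovKernel (vK μ T (Fin 2) D 0) := vK_prob μ T (Fin 2) D 0
  obtain ⟨η₀, hη₀⟩ : ∃ η₀, η₀ = ∫ x, ‖σ x - 1‖ ∂(cube μ T (Fin 2) D) := ⟨_, rfl⟩
  have hη0 : 0 ≤ η₀ := by
    rw [hη₀]
    exact integral_nonneg fun x => norm_nonneg _
  rw [← hη₀] at hη
  have h2D : (1 : ℝ) ≤ 2 ^ D := one_le_pow₀ (by norm_num)
  have h4D : (0 : ℝ) < 4 ^ D := by positivity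
  have h42 : (4 : ℝ) ^ D = 2 ^ D * 2 ^ D := by rw [← mul_pow]; norm_num
  have h82 : (8 : ℝ) ^ D = 2 ^ D * 4 ^ D := by rw [← mul_pow]; norm_num
  have h162 : (16 : ℝ) ^ D = 2 ^ D * 8 ^ D := by rw [← mul_pow]; norm_num
  have h8D : (0 : ℝ) < 8 ^ D := by positivity
  obtain ⟨Φ, hΦ⟩ : ∃ Φ, Φ = vE μ T (Fin 2) D 0 σ := ⟨_, rfl⟩
  have hσb : BM σ := ⟨hσ, 1, fun x => (h1 x).le⟩
  have hΦb : BM Φ := by
    rw [hΦ]
    exact vE_bm μ T (Fin 2) D 0 hσb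
  have hΦ1 : ∀ a, ‖Φ a‖ ≤ 1 := by
    intro a
    rw [hΦ, vE]
    refine (norm_integral_le_integral_norm _).trans ?_
    simp only [h1, integral_const]
    simp
  obtain ⟨δ₁, hδ₁⟩ : ∃ δ₁, δ₁ = 4 ^ D * η₀ := ⟨_, rfl⟩
  have hδ₁0 : 0 ≤ δ₁ := by
    rw [hδ₁]
    positivity
  have hbig : η₀ * (2 * (2 ^ D * 8 ^ D)) ≤ 1 := by
    rw [← h162]
    refine le_trans ?_ hη'
    exact mul_le_mul_of_nonneg_right hη (by positivity)
  have hδ₁8 : δ₁ ≤ 8 ^ D * η₀ := by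
    rw [hδ₁]
    refine mul_le_mul_of_nonneg_right ?_ hη0
    exact pow_le_pow_left₀ (by norm_num) (by norm_num) D
  have hδ₁1 : δ₁ < 1 := by
    have h3 : 8 ^ D * η₀ ≤ 2 ^ D * (8 ^ D * η₀) := by
      have : 0 ≤ 8 ^ D * η₀ := by positivity
      nlinarith
    nlinarith
  have hu := scl_unif μ T hT D hσ h1 hc
  rw [← hΦ, ← hη₀, ← hδ₁] at hu
  -- lower bound for `Φ`
  have hlow : ∀ᵐ a ∂μ, 1 - δ₁ ≤ ‖Φ a‖ := by
    have hmp := cube_eval μ T (Fin 2) D (0 : Fin D → Fin 2)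
    have hms : MeasurableSet {a | 1 - δ₁ ≤ ‖Φ a‖} :=
      measurableSet_le measurable_const hΦb.1.norm
    rw [← hmp.map_eq, ae_map_iff hmp.measurable.aemeasurable hms]
    filter_upwards [hu] with x hx
    have h3 := sc_dd_root D hΦ1 x
    have h4 : ‖σ x‖ ≤ ‖σ x - dd D Φ x‖ + ‖dd D Φ x‖ := by
      calc ‖σ x‖ = ‖(σ x - dd D Φ x) + dd D Φ x‖ := by rw [sub_add_cancel]
        _ ≤ _ := norm_add_le _ _
    rw [h1] at h4
    show 1 - δ₁ ≤ ‖Φ (x 0)‖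
    linarith
  obtain ⟨F₁, hF₁⟩ : ∃ F₁ : X → ℂ, F₁ = fun a => scN (Φ a) := ⟨_, rfl⟩
  have hF₁m : Measurable F₁ := by
    rw [hF₁]
    exact measurable_scN.comp hΦb.1
  have hF₁1 : ∀ a, ‖F₁ a‖ = 1 := by
    intro a
    rw [hF₁]
    exact norm_scN _
  have hclose : ∀ᵐ a ∂μ, ‖F₁ a - Φ a‖ ≤ δ₁ := by
    filter_upwards [hlow] with a ha
    have h0 : Φ a ≠ 0 := by
      rw [← norm_pos_iff]
      linarith
    rw [hF₁]
    show ‖scN (Φ a) - Φ a‖ ≤ δ₁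
    rw [scN_sub h0 (hΦ1 a)]
    linarith
  have hclose' : ∀ᵐ x ∂(cube μ T (Fin 2) D), ∀ v, ‖F₁ (x v) - Φ (x v)‖ ≤ δ₁ := by
    rw [ae_all_iff]
    intro v
    exact (cube_eval μ T (Fin 2) D v).quasiMeasurePreserving.ae hclose
  obtain ⟨δ, hδ⟩ : ∃ δ, δ = δ₁ + 2 ^ D * δ₁ := ⟨_, rfl⟩
  have hδ8 : δ ≤ 2 * (8 ^ D * η₀) := by
    rw [hδ, hδ₁, h82]
    have h3 : 4 ^ D * η₀ ≤ 2 ^ D * (4 ^ D * η₀) := by
      have : 0 ≤ 4 ^ D * η₀ := by positivity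
      nlinarith
    nlinarith
  obtain ⟨τ, hτ⟩ : ∃ τ : Arr (Fin 2) X D → ℂ, τ = fun x => σ x * conj (dd D F₁ x) := ⟨_, rfl⟩
  have hdm : Measurable (dd D F₁) := (dd_bm D ⟨hF₁m, 1, fun a => (hF₁1 a).le⟩).1
  have hτm : Measurable τ := by
    rw [hτ]
    exact hσ.mul (Complex.continuous_conj.measurable.comp hdm)
  have hτ1 : ∀ x, ‖τ x‖ = 1 := by
    intro x
    rw [hτ]
    show ‖σ x * conj (dd D F₁ x)‖ = 1
    rw [norm_mul, RCLike.norm_conj, h1, norm_dd D hF₁1, one_mul]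
  have hτc : IsCoc μ T D τ := by
    rw [hτ]
    exact hc.mul (dd_isCoc μ T D hF₁1).conj
  have hddc : ∀ x, dd D F₁ x * conj (dd D F₁ x) = 1 := by
    intro x
    rw [Complex.mul_conj, Complex.normSq_eq_norm_sq, norm_dd D hF₁1]
    norm_num
  have hτd : ∀ᵐ x ∂(cube μ T (Fin 2) D), ‖τ x - 1‖ ≤ δ := by
    filter_upwards [hu, hclose'] with x hx hx'
    have e : τ x - 1 = (σ x - dd D F₁ x) * conj (dd D F₁ x) := by
      rw [hτ]
      show σ x * conj (dd D F₁ x) - 1 = _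
      rw [sub_mul, hddc]
    rw [e, norm_mul, RCLike.norm_conj, norm_dd D hF₁1, mul_one]
    have h3 := sc_dd_sub D (fun a => (hF₁1 a).le) hΦ1 x hx'
    calc ‖σ x - dd D F₁ x‖ = ‖(σ x - dd D Φ x) - (dd D F₁ x - dd D Φ x)‖ := by
          congr 1
          ring
      _ ≤ ‖σ x - dd D Φ x‖ + ‖dd D F₁ x - dd D Φ x‖ := norm_sub_le _ _
      _ ≤ δ := by
          rw [hδ]
          linarith
  have hδ2 : δ * 2 ^ D ≤ 1 := by
    have h3 : δ * 2 ^ D ≤ 2 * (8 ^ D * η₀) * 2 ^ D :=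
      mul_le_mul_of_nonneg_right hδ8 (by positivity)
    linarith
  obtain ⟨R, hRm, hRb, hR⟩ := scl_log μ T hT.toMeasurePreserving D hτm hτ1 hτc hδ2 hτd
  have hE1 : ∀ a, ‖Complex.exp (Complex.I * R a)‖ = 1 := by
    intro a
    rw [mul_comm, Complex.norm_exp_ofReal_mul_I]
  have hEm : Measurable (fun a => Complex.exp (Complex.I * R a)) :=
    Complex.measurable_exp.comp (measurable_const.mul (Complex.measurable_ofReal.comp hRm))
  refine ⟨fun a => F₁ a * Complex.exp (Complex.I * R a), hF₁m.mul hEm, ?_, ?_, ?_⟩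
  · intro a
    show ‖F₁ a * Complex.exp (Complex.I * R a)‖ = 1
    rw [norm_mul, hF₁1, hE1, one_mul]
  · filter_upwards [hR] with x hx
    rw [dd_mul, ← hx, hτ]
    show σ x = dd D F₁ x * (σ x * conj (dd D F₁ x))
    rw [mul_left_comm, hddc, mul_one]
  · have hmean := sc_mean μ T D hσ h1
    rw [← hΦ, ← hη₀] at hmean
    have hi1 : Integrable (fun a => ‖F₁ a * Complex.exp (Complex.I * R a) - 1‖) μ := by
      have hb : BM (fun a => F₁ a * Complex.exp (Complex.I * R a)) :=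
        ⟨hF₁m.mul hEm, 1, fun a => by rw [norm_mul, hF₁1, hE1, one_mul]⟩
      exact ((hb.integrable μ).sub (integrable_const _)).norm
    have hi2 : Integrable (fun a => ‖Φ a - 1‖ + (δ₁ + 2 * δ)) μ :=
      ((hΦb.integrable μ).sub (integrable_const _)).norm.add (integrable_const _)
    have hle : (fun a => ‖F₁ a * Complex.exp (Complex.I * R a) - 1‖) ≤ᵐ[μ]
        fun a => ‖Φ a - 1‖ + (δ₁ + 2 * δ) := by
      filter_upwards [hclose] with a ha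
      have h3 : ‖Complex.exp (Complex.I * R a) - 1‖ ≤ 2 * δ := by
        refine le_trans ?_ (hRb a)
        exact (Real.norm_exp_I_mul_ofReal_sub_one_le).trans_eq (Real.norm_eq_abs _)
      calc ‖F₁ a * Complex.exp (Complex.I * R a) - 1‖
          = ‖F₁ a * (Complex.exp (Complex.I * R a) - 1) + (F₁ a - Φ a) + (Φ a - 1)‖ := by
            congr 1
            ring
        _ ≤ ‖F₁ a * (Complex.exp (Complex.I * R a) - 1)‖ + ‖F₁ a - Φ a‖ + ‖Φ a - 1‖ :=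
            norm_add₃_le
        _ ≤ 2 * δ + δ₁ + ‖Φ a - 1‖ := by
            rw [norm_mul, hF₁1, one_mul]
            linarith
        _ = ‖Φ a - 1‖ + (δ₁ + 2 * δ) := by ring
    have h5 := integral_mono_ae hi1 hi2 hle
    have h6 : ∫ a, (‖Φ a - 1‖ + (δ₁ + 2 * δ)) ∂μ = (∫ a, ‖Φ a - 1‖ ∂μ) + (δ₁ + 2 * δ) := by
      have hi3 : Integrable (fun a => ‖Φ a - 1‖) μ :=
        ((hΦb.integrable μ).sub (integrable_const _)).norm
      rw [integral_add hi3 (integrable_const _), integral_const]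
      simp
    rw [h6] at h5
    refine h5.trans ?_
    have h8D1 : (1 : ℝ) ≤ 8 ^ D := one_le_pow₀ (by norm_num)
    have h7 : η₀ ≤ 8 ^ D * η₀ := by nlinarith
    have h9 : 8 ^ D * η₀ ≤ 8 ^ D * η := mul_le_mul_of_nonneg_left hη h8D.le
    nlinarith

end Pool.Agent.HK820
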