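import Pool.Agent.Lib_MP_820dd4_hk.ZD

open MeasureTheory ProbabilityTheory Filter Topology
open scoped ComplexConjugate ENNReal

namespace Pool.Agent.HK820

theorem sd_bm {X : Type} [MeasurableSpace X] {p : X → ℂ} (hp : Measurable p)
    (h1 : ∀ x, ‖p x‖ = 1) : BM p := ⟨hp, 1, fun x => (h1 x).le⟩

theorem sd_mul_conj {z : ℂ} (h : ‖z‖ = 1) : z * conj z = 1 := by
  rw [Complex.mul_conj, Complex.normSq_eq_norm_sq, h]
  simp

theorem sd_eq_of_mul_conj {a b : ℂ} (hb : ‖b‖ = 1) (h : a * conj b = 1) : a = b := by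
  have h1 : a * (b * conj b) = b := by
    rw [mul_comm b, ← mul_assoc, h, one_mul]
  rw [sd_mul_conj hb, mul_one] at h1
  exact h1

/-- the derivative is invariant when the next one is `1` -/
theorem sd_inv {X : Type} [MeasurableSpace X] [StandardBorelSpace X]
    (μ : Measure X) [IsProbabilityMeasure μ] (T : X ≃ᵐ X) (hT : MeasurePreserving T μ μ) (D : ℕ)
    {p : X → ℂ} (hp : Measurable p) (h1 : ∀ x, ‖p x‖ = 1)
    (hd : dd (D + 1) p =ᵐ[cube μ T (Fin 2) (D + 1)] fun _ => 1) :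
    (fun x => dd D p (tArr T (Fin 2) D x)) =ᵐ[cube μ T (Fin 2) D] dd D p := by
  have hslab := cube_slab μ T hT (Fin 2) (D + 1) 0 1
  have h2 : ∀ᵐ x ∂(cube μ T (Fin 2) (D + 1)),
      dd (D + 1) p (slab T (Fin 2) (D + 1) 0 1 x) = 1 :=
    hslab.quasiMeasurePreserving.ae hd
  have h3 : ∀ᵐ x ∂(cube μ T (Fin 2) (D + 1)),
      dd D p (tArr T (Fin 2) D (slice x 1)) = dd D p (slice x 1) := by
    filter_upwards [hd, h2] with x e1 e2
    rw [dd_succ] at e1 e2
    rw [slice_slab_zero, slice_slab_zero, if_neg (by decide), if_pos rfl] at e2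
    have e3 := sd_eq_of_mul_conj (norm_dd D h1 _) e1
    have e4 := sd_eq_of_mul_conj (norm_dd D h1 _) e2
    rw [← e4, e3]
  have h4 : MeasurePreserving (fun x : Arr (Fin 2) X (D + 1) => slice x 1)
      (cube μ T (Fin 2) (D + 1)) (cube μ T (Fin 2) D) := (cube_slice_fmap hT (1 : Fin 2)).mp
  have hm : Measurable (dd D p) := (dd_bm D (sd_bm hp h1)).1
  have h5 : MeasurableSet {y : Arr (Fin 2) X D | dd D p (tArr T (Fin 2) D y) = dd D p y} :=
    measurableSet_eq_fun (hm.comp (tArr T (Fin 2) D).measurable) hm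
  have h6 : ∀ᵐ y ∂((cube μ T (Fin 2) (D + 1)).map
      (fun x : Arr (Fin 2) X (D + 1) => slice x 1)),
      dd D p (tArr T (Fin 2) D y) = dd D p y :=
    (ae_map_iff h4.measurable.aemeasurable h5).2 h3
  rw [h4.map_eq] at h6
  exact h6

theorem sd_step {X : Type} [MeasurableSpace X] [StandardBorelSpace X]
    (μ : Measure X) [IsProbabilityMeasure μ] (T : X ≃ᵐ X) (hT : MeasurePreserving T μ μ) (D : ℕ)
    {p : X → ℂ} (hp : Measurable p) (h1 : ∀ x, ‖p x‖ = 1)
    (hd : dd (D + 1) p =ᵐ[cube μ T (Fin 2) (D + 1)] fun _ => 1) :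
    dd D (fun a => p a * conj (p (T a))) =ᵐ[cube μ T (Fin 2) D] fun _ => 1 := by
  filter_upwards [sd_inv μ T hT D hp h1 hd] with x hx
  have e1 := dd_iter T D 1 p x
  rw [Function.iterate_one, Function.iterate_one] at e1
  rw [dd_mul D p (fun a => conj (p (T a))) x, dd_conj D (fun a => p (T a)) x, e1, hx]
  exact sd_mul_conj (norm_dd D h1 x)

theorem sd_zero {X : Type} [MeasurableSpace X] [StandardBorelSpace X]
    (μ : Measure X) [IsProbabilityMeasure μ] (T : X ≃ᵐ X)
    {p : X → ℂ} (hp : Measurable p)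
    (hd : dd 0 p =ᵐ[cube μ T (Fin 2) 0] fun _ => 1) : p =ᵐ[μ] fun _ => 1 := by
  have h4 := cube_eval μ T (Fin 2) 0 0
  have h3 : ∀ᵐ x ∂(cube μ T (Fin 2) 0), p (x 0) = 1 := by
    filter_upwards [hd] with x hx
    have e1 : dd 0 p x = p (x 0) := by
      unfold dd
      rw [Fintype.prod_subsingleton _ (0 : Fin 0 → Fin 2)]
      have e3 : wt (0 : Fin 0 → Fin 2) = 0 := by
        unfold wt
        exact Finset.sum_of_isEmpty _
      rw [e3]
      unfold cj
      rw [if_pos (by decide)]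
    rw [← e1]
    exact hx
  have h5 : MeasurableSet {a : X | p a = 1} := hp (measurableSet_singleton 1)
  have h6 : ∀ᵐ a ∂((cube μ T (Fin 2) 0).map (fun x : Arr (Fin 2) X 0 => x 0)), p a = 1 :=
    (ae_map_iff h4.measurable.aemeasurable h5).2 h3
  rw [h4.map_eq] at h6
  exact h6

/-- **SD1.** Rigidity: a unimodular function close to `1` whose `D`-th derivative is `1` is constant.

Proof. Induction on `D`. `D = 0`: `dd 0 p x = p (x 0)`, so `p = 1` a.e. (`cube_eval`). `D + 1`: by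
`dd_succ`, `dd D p (y0) * conj (dd D p (y1)) = 1` for almost all `(y0, y1)` in
`relInd (Inv tArr) (cube D) (Fin 2)`; so `dd D p` is `AEM (Inv tArr)`: it is equal to
`E[dd D p | Inv]` (integrate over `y1`, `integral_relInd_two`/`cube_pull`). So
`dd D p ∘ tArr = dd D p` a.e. Hence the function `q a = p a * conj (p (T a))` has `dd D q = 1` a.e.
(`dd_mul`, `dd_conj`, `dd_iter`) and `∫ ‖q - 1‖ = ∫ ‖p - p ∘ T‖ ≤ 2 ∫ ‖p - 1‖`, so
`q = λ` a.e. for a constant `λ` by induction, `|λ| = 1`. If `λ ≠ 1` then `p ∘ T = conj λ * p` gives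
`∫ p = 0` and `∫ ‖p - 1‖ ≥ |∫ (p - 1)| = 1`, a contradiction. So `p ∘ T = p` and `p` is constant by
ergodicity. -/
theorem rigidity {X : Type} [MeasurableSpace X] [StandardBorelSpace X]
    (μ : Measure X) [IsProbabilityMeasure μ] (T : X ≃ᵐ X) (hT : Ergodic T μ) (D : ℕ)
    {p : X → ℂ} (hp : Measurable p) (h1 : ∀ x, ‖p x‖ = 1)
    (hd : dd D p =ᵐ[cube μ T (Fin 2) D] fun _ => 1) (hs : 2 ^ D * ∫ a, ‖p a - 1‖ ∂μ < 1) :
    ∃ c : ℂ, ‖c‖ = 1 ∧ p =ᵐ[μ] fun _ => c := by
  induction D generalizing p with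
  | zero => exact ⟨1, norm_one, sd_zero μ T hp hd⟩
  | succ D ih =>
    have hTm : MeasurePreserving T μ μ := hT.toMeasurePreserving
    have hpT : Measurable (fun a => p (T a)) := hp.comp T.measurable
    have hq : Measurable (fun a => p a * conj (p (T a))) :=
      hp.mul (Complex.continuous_conj.measurable.comp hpT)
    have hq1 : ∀ a, ‖p a * conj (p (T a))‖ = 1 := by
      intro a
      rw [norm_mul, RCLike.norm_conj, h1, h1, mul_one]
    have hip : Integrable (fun a => ‖p a - 1‖) μ :=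
      (((sd_bm hp h1).integrable μ).sub (integrable_const 1)).norm
    have hipT : Integrable (fun a => ‖p (T a) - 1‖) μ :=
      (((sd_bm hpT fun a => h1 (T a)).integrable μ).sub (integrable_const 1)).norm
    have hiT : ∫ a, ‖p (T a) - 1‖ ∂μ = ∫ a, ‖p a - 1‖ ∂μ :=
      hTm.integral_comp T.measurableEmbedding (fun a => ‖p a - 1‖)
    have hle : ∫ a, ‖p a * conj (p (T a)) - 1‖ ∂μ ≤ 2 * ∫ a, ‖p a - 1‖ ∂μ := by
      have h2 : ∫ a, ‖p a * conj (p (T a)) - 1‖ ∂μ ≤ ∫ a, (‖p a - 1‖ + ‖p (T a) - 1‖) ∂μ := by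
        refine integral_mono (((sd_bm hq hq1).integrable μ).sub (integrable_const 1)).norm
          (hip.add hipT) fun a => ?_
        change ‖p a * conj (p (T a)) - 1‖ ≤ ‖p a - 1‖ + ‖p (T a) - 1‖
        have h3 : p a * conj (p (T a)) - 1 = (p a - p (T a)) * conj (p (T a)) := by
          rw [sub_mul, sd_mul_conj (h1 (T a))]
        rw [h3, norm_mul, RCLike.norm_conj, h1, mul_one]
        have h4 : p a - p (T a) = (p a - 1) - (p (T a) - 1) := by ring
        rw [h4]
        exact norm_sub_le _ _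
      rw [integral_add hip hipT, hiT] at h2
      linarith
    have hsmall : 2 ^ D * ∫ a, ‖p a * conj (p (T a)) - 1‖ ∂μ < 1 := by
      refine lt_of_le_of_lt (mul_le_mul_of_nonneg_left hle (by positivity)) ?_
      rw [pow_succ] at hs
      linarith
    obtain ⟨l, hl1, hl2⟩ := ih hq hq1 (sd_step μ T hTm D hp h1 hd) hsmall
    have hpl : ∀ᵐ a ∂μ, p a = l * p (T a) := by
      filter_upwards [hl2] with a ha
      have h2 : p a * (conj (p (T a)) * p (T a)) = l * p (T a) := by
        rw [← mul_assoc, ha]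
      rw [mul_comm (conj (p (T a))), sd_mul_conj (h1 (T a)), mul_one] at h2
      exact h2
    have hint : ∫ a, p a ∂μ = l * ∫ a, p a ∂μ := by
      conv_lhs => rw [integral_congr_ae hpl, integral_const_mul]
      congr 1
      exact hTm.integral_comp T.measurableEmbedding p
    have hl : l = 1 := by
      by_contra hne
      have h2 : ∫ a, p a ∂μ = 0 := by
        have h3 : (1 - l) * ∫ a, p a ∂μ = 0 := by
          rw [sub_mul, one_mul, ← hint, sub_self]
        rcases mul_eq_zero.1 h3 with h4 | h4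
        · exact absurd (sub_eq_zero.1 h4).symm hne
        · exact h4
      have h3 : ∫ a, (p a - 1) ∂μ = -1 := by
        rw [integral_sub ((sd_bm hp h1).integrable μ) (integrable_const 1), h2]
        simp
      have h4 : (1 : ℝ) ≤ ∫ a, ‖p a - 1‖ ∂μ := by
        have h5 := norm_integral_le_integral_norm (μ := μ) (fun a => p a - 1)
        rw [h3] at h5
        simpa using h5
      have h5 : (1 : ℝ) ≤ 2 ^ (D + 1) := one_le_pow₀ (by norm_num)
      nlinarith
    subst hl
    have hinv : p ∘ T =ᵐ[μ] p := by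
      filter_upwards [hpl] with a ha
      rw [one_mul] at ha
      exact ha.symm
    obtain ⟨c, hc⟩ := hT.ae_eq_const_of_ae_eq_comp_ae hp.aestronglyMeasurable hinv
    refine ⟨c, ?_, hc⟩
    obtain ⟨a, ha⟩ := hc.exists
    have h2 : p a = c := ha
    rw [← h2]
    exact h1 a

/-- **SD2.** If the `(D+1)`-st derivative is `1` then the `D`-th derivative of `p * conj (p ∘ T)` is
`1` (from the proof of SD1), and the `D`-th derivative is invariant. -/
theorem dd_succ_one {X : Type} [MeasurableSpace X] [StandardBorelSpace X]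
    (μ : Measure X) [IsProbabilityMeasure μ] (T : X ≃ᵐ X) (hT : MeasurePreserving T μ μ) (D : ℕ)
    {p : X → ℂ} (hp : Measurable p) (h1 : ∀ x, ‖p x‖ = 1)
    (hd : dd (D + 1) p =ᵐ[cube μ T (Fin 2) (D + 1)] fun _ => 1) :
    (dd D (fun a => p a * conj (p (T a))) =ᵐ[cube μ T (Fin 2) D] fun _ => 1) ∧
      (fun x => dd D p (tArr T (Fin 2) D x)) =ᵐ[cube μ T (Fin 2) D] dd D p :=
  ⟨sd_step μ T hT D hp h1 hd, sd_inv μ T hT D hp h1 hd⟩

end Pool.Agent.HK820
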