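import Pool.Agent.Lib_MP_820dd4_hk.FA
import Pool.Agent.Lib_MP_820dd4_hk.SC
import Pool.Agent.Lib_MP_820dd4_hk.SD
import Pool.Agent.Lib_MP_820dd4_hk.CD2
import Pool.Agent.Lib_MP_820dd4_hk.EB
import Pool.Agent.Lib_MP_820dd4_hk.RelC
import Pool.Agent.Lib_MP_820dd4_hk.EF

/-! ### Part `EC` -/

section

open MeasureTheory ProbabilityTheory Filter Topology
open scoped ComplexConjugate ENNReal

namespace Pool.Agent.HK820

theorem ec_iter {P : Type} [MeasurableSpace P] {ν : Measure P} (S : P ≃ᵐ P)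
    (hS : MeasurePreserving S ν ν) {p : P → ℂ} {c : ℂ} (h : ∀ᵐ a ∂ν, p (S a) = c * p a) (n : ℕ) :
    ∀ᵐ a ∂ν, p (S^[n] a) = c ^ n * p a := by
  induction n with
  | zero => exact Eventually.of_forall fun a => by simp
  | succ n ih =>
    have h2 : ∀ᵐ a ∂ν, p (S^[n] (S a)) = c ^ n * p (S a) := hS.quasiMeasurePreserving.ae ih
    filter_upwards [h, h2] with a ha ha2
    rw [Function.iterate_succ_apply, ha2, ha, pow_succ]
    ring

/-- **EC.** In an ergodic system, if `w` is unimodular, almost invariant, and its derivative is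
almost `1`, then all the functions `w ∘ S^n conj w` are almost constant, uniformly in `n`.

Proof. Write `η` for the sum of the two integrals on the right. If `28 * 16 ^ (D + 1) * η ≥ 2` there
is nothing to prove. Otherwise `14 * 16 ^ (D + 1) * η < 1`. The cocycle `dd (D+1) w` is close to `1`,
so by `small_cocycle` it is `dd (D+1) F` with `∫ ‖F - 1‖ ≤ ε₁ = 6 * 8 ^ (D + 1) * η`. Let
`p = w conj F`, `dd (D+1) p = 1` a.e. By `dd_succ_one`, `q = p conj (p ∘ S)` has `dd D q = 1` a.e.,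
and `∫ ‖q - 1‖ ≤ ∫ ‖w - w ∘ S‖ + 2 ε₁ ≤ 13 * 8 ^ (D + 1) * η`, `2 ^ D *` this is `< 1`, so `q` is
constant (`rigidity`), `p ∘ S = c p`, `p ∘ S^n conj p = c^n`. Hence
`∫ ‖w ∘ S^n conj w - c^n‖ ≤ 2 ε₁` and replacing `c^n` by the integral of `w ∘ S^n conj w` costs
another `2 ε₁`; total `4 ε₁ = 24 * 8 ^ (D + 1) * η`. -/
theorem ec_comp {P : Type} [MeasurableSpace P] [StandardBorelSpace P] (ν : Measure P)
    [IsProbabilityMeasure ν] (S : P ≃ᵐ P) (hS : Ergodic S ν) (D : ℕ) {w : P → ℂ}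
    (hw : Measurable w) (h1 : ∀ x, ‖w x‖ = 1) (n : ℕ) :
    ∫ x, ‖w (S^[n] x) * conj (w x) - ∫ y, w (S^[n] y) * conj (w y) ∂ν‖ ∂ν ≤
      28 * 16 ^ (D + 1) * (∫ x, ‖dd (D + 1) w x - 1‖ ∂(cube ν S (Fin 2) (D + 1)) +
        ∫ x, ‖w (S x) - w x‖ ∂ν) := by
  have hSm : MeasurePreserving S ν ν := hS.toMeasurePreserving
  have hSn : MeasurePreserving (S^[n]) ν ν := hSm.iterate n
  obtain ⟨η₁, hη₁⟩ : ∃ η₁, η₁ = ∫ x, ‖dd (D + 1) w x - 1‖ ∂(cube ν S (Fin 2) (D + 1)) := ⟨_, rfl⟩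
  obtain ⟨η₂, hη₂⟩ : ∃ η₂, η₂ = ∫ x, ‖w (S x) - w x‖ ∂ν := ⟨_, rfl⟩
  rw [← hη₁, ← hη₂]
  have hη₁0 : 0 ≤ η₁ := by rw [hη₁]; exact integral_nonneg fun _ => norm_nonneg _
  have hη₂0 : 0 ≤ η₂ := by rw [hη₂]; exact integral_nonneg fun _ => norm_nonneg _
  obtain ⟨η, hη⟩ : ∃ η, η = η₁ + η₂ := ⟨_, rfl⟩
  rw [← hη]
  have hη0 : 0 ≤ η := by rw [hη]; positivity
  have hwb : BM w := sd_bm hw h1
  obtain ⟨G, hG⟩ : ∃ G : P → ℂ, G = fun x => w (S^[n] x) * conj (w x) := ⟨_, rfl⟩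
  have hGm : Measurable G := by
    rw [hG]
    exact (hw.comp hSn.measurable).mul (Complex.continuous_conj.measurable.comp hw)
  have hG1 : ∀ x, ‖G x‖ = 1 := by
    intro x
    rw [hG]
    show ‖w (S^[n] x) * conj (w x)‖ = 1
    rw [norm_mul, RCLike.norm_conj, h1, h1, mul_one]
  have hGb : BM G := sd_bm hGm hG1
  have hGi : Integrable G ν := hGb.integrable ν
  have hrw : ∫ x, ‖w (S^[n] x) * conj (w x) - ∫ y, w (S^[n] y) * conj (w y) ∂ν‖ ∂ν =
      ∫ x, ‖G x - ∫ y, G y ∂ν‖ ∂ν := by rw [hG]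
  rw [hrw]
  have hint0 : ‖∫ y, G y ∂ν‖ ≤ 1 := by
    refine (norm_integral_le_integral_norm _).trans ?_
    simp [hG1]
  have hiL : Integrable (fun x => ‖G x - ∫ y, G y ∂ν‖) ν :=
    (hGi.sub (integrable_const _)).norm
  by_cases hbig : 2 ≤ 28 * 16 ^ (D + 1) * η
  · refine le_trans ?_ hbig
    calc ∫ x, ‖G x - ∫ y, G y ∂ν‖ ∂ν ≤ ∫ _x, (2 : ℝ) ∂ν := by
          refine integral_mono hiL (integrable_const _) fun x => ?_
          show ‖G x - ∫ y, G y ∂ν‖ ≤ 2
          refine (norm_sub_le _ _).trans ?_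
          rw [hG1]
          linarith
      _ = 2 := by simp
  · rw [not_le] at hbig
    have h16 : (0 : ℝ) < 16 ^ (D + 1) := by positivity
    have hsm : η * (2 * 16 ^ (D + 1)) ≤ 1 := by nlinarith
    have hη₁le : ∫ x, ‖dd (D + 1) w x - 1‖ ∂(cube ν S (Fin 2) (D + 1)) ≤ η := by
      rw [← hη₁, hη]
      linarith
    obtain ⟨F, hFm, hF1, hFd, hFi⟩ := small_cocycle ν S hS (D + 1) (dd_bm (D + 1) hwb).1
      (norm_dd (D + 1) h1) (dd_isCoc ν S (D + 1) h1) hη₁le hsm
    have hFb : BM F := sd_bm hFm hF1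
    obtain ⟨ε₁, hε₁⟩ : ∃ ε₁, ε₁ = ∫ a, ‖F a - 1‖ ∂ν := ⟨_, rfl⟩
    rw [← hε₁] at hFi
    have hiF : Integrable (fun a => ‖F a - 1‖) ν :=
      ((hFb.integrable ν).sub (integrable_const 1)).norm
    have hFconj : ∀ a, F a * conj (F a) = 1 := fun a => sd_mul_conj (hF1 a)
    -- integrals along the iterates
    have hcomp : ∀ (k : ℕ), Integrable (fun a => ‖F (S^[k] a) - 1‖) ν ∧
        ∫ a, ‖F (S^[k] a) - 1‖ ∂ν = ε₁ := by
      intro k
      have hk : MeasurePreserving (S^[k]) ν ν := hSm.iterate k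
      have hFm' : AEStronglyMeasurable (fun a => ‖F a - 1‖) ν := hiF.aestronglyMeasurable
      refine ⟨hk.integrable_comp_of_integrable hiF, ?_⟩
      rw [hε₁]
      have h2 : ∫ a, ‖F a - 1‖ ∂(ν.map (S^[k])) = ∫ a, ‖F (S^[k] a) - 1‖ ∂ν :=
        integral_map hk.measurable.aemeasurable
          ((hFm.sub measurable_const).norm.aestronglyMeasurable)
      rw [← h2, hk.map_eq]
    obtain ⟨p, hp⟩ : ∃ p : P → ℂ, p = fun a => w a * conj (F a) := ⟨_, rfl⟩
    have hpm : Measurable p := by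
      rw [hp]
      exact hw.mul (Complex.continuous_conj.measurable.comp hFm)
    have hp1 : ∀ a, ‖p a‖ = 1 := by
      intro a
      rw [hp]
      show ‖w a * conj (F a)‖ = 1
      rw [norm_mul, RCLike.norm_conj, h1, hF1, mul_one]
    have hpd : dd (D + 1) p =ᵐ[cube ν S (Fin 2) (D + 1)] fun _ => 1 := by
      filter_upwards [hFd] with x hx
      rw [hp, dd_mul, dd_conj, hx]
      exact sd_mul_conj (norm_dd (D + 1) hF1 x)
    have hqd := (dd_succ_one ν S hSm D hpm hp1 hpd).1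
    have hpS : Measurable (fun a => p (S a)) := hpm.comp S.measurable
    have hqm : Measurable (fun a => p a * conj (p (S a))) :=
      hpm.mul (Complex.continuous_conj.measurable.comp hpS)
    have hq1 : ∀ a, ‖p a * conj (p (S a))‖ = 1 := by
      intro a
      rw [norm_mul, RCLike.norm_conj, hp1, hp1, mul_one]
    have hiw : Integrable (fun a => ‖w (S a) - w a‖) ν :=
      (((sd_bm (hw.comp S.measurable) fun a => h1 (S a)).integrable ν).sub
        (hwb.integrable ν)).norm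
    have hqi : ∫ a, ‖p a * conj (p (S a)) - 1‖ ∂ν ≤ η₂ + 2 * ε₁ := by
      obtain ⟨hi1, hi1'⟩ := hcomp 1
      calc ∫ a, ‖p a * conj (p (S a)) - 1‖ ∂ν
          ≤ ∫ a, (‖w (S a) - w a‖ + (‖F a - 1‖ + ‖F (S^[1] a) - 1‖)) ∂ν := by
            refine integral_mono (((sd_bm hqm hq1).integrable ν).sub (integrable_const 1)).norm
              (hiw.add (hiF.add hi1)) fun a => ?_
            show ‖p a * conj (p (S a)) - 1‖ ≤ ‖w (S a) - w a‖ + (‖F a - 1‖ + ‖F (S^[1] a) - 1‖)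
            have e1 : p a * conj (p (S a)) - 1 = (p a - p (S a)) * conj (p (S a)) := by
              rw [sub_mul, sd_mul_conj (hp1 (S a))]
            rw [e1, norm_mul, RCLike.norm_conj, hp1, mul_one]
            have e2 : p a - p (S a) = -((w (S a) - w a) * conj (F (S a))) +
                w a * conj ((F a - 1) - (F (S a) - 1)) := by
              rw [hp]
              simp only [map_sub, map_one]
              ring
            rw [e2]
            refine (norm_add_le _ _).trans ?_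
            rw [norm_neg, norm_mul, norm_mul, RCLike.norm_conj, RCLike.norm_conj, hF1, h1, mul_one,
              one_mul]
            have e3 := norm_sub_le (F a - 1) (F (S a) - 1)
            rw [Function.iterate_one]
            linarith
        _ = η₂ + 2 * ε₁ := by
            have e4 : ∫ a, (‖w (S a) - w a‖ + (‖F a - 1‖ + ‖F (S^[1] a) - 1‖)) ∂ν =
                (∫ a, ‖w (S a) - w a‖ ∂ν) + ∫ a, (‖F a - 1‖ + ‖F (S^[1] a) - 1‖) ∂ν :=
              integral_add hiw (hiF.add hi1)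
            rw [e4, integral_add hiF hi1, hi1', ← hη₂, ← hε₁]
            ring
    have h8 : (0 : ℝ) < 8 ^ (D + 1) := by positivity
    have h81 : (1 : ℝ) ≤ 8 ^ (D + 1) := one_le_pow₀ (by norm_num)
    have h28 : (2 : ℝ) ^ D * 8 ^ (D + 1) = 16 ^ (D + 1) / 2 := by
      have h3 : (16 : ℝ) ^ D = 2 ^ D * 8 ^ D := by
        rw [← mul_pow]
        norm_num
      rw [pow_succ, pow_succ, h3]
      ring
    have hηle : η₂ ≤ 8 ^ (D + 1) * η := by
      have h3 : η₂ ≤ η := by rw [hη]; linarith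
      nlinarith
    have hqi2 : ∫ a, ‖p a * conj (p (S a)) - 1‖ ∂ν ≤ 13 * (8 ^ (D + 1) * η) := by
      refine hqi.trans ?_
      linarith
    have hqs : 2 ^ D * ∫ a, ‖p a * conj (p (S a)) - 1‖ ∂ν < 1 := by
      have h2D : (0 : ℝ) < 2 ^ D := by positivity
      calc 2 ^ D * ∫ a, ‖p a * conj (p (S a)) - 1‖ ∂ν ≤ 2 ^ D * (13 * (8 ^ (D + 1) * η)) :=
            mul_le_mul_of_nonneg_left hqi2 h2D.le
        _ = 13 * (2 ^ D * 8 ^ (D + 1)) * η := by ring
        _ = 13 / 2 * 16 ^ (D + 1) * η := by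
            rw [h28]
            ring
        _ < 1 := by nlinarith
    obtain ⟨c, hc1, hc⟩ := rigidity ν S hS D hqm hq1 hqd hqs
    have hpc : ∀ᵐ a ∂ν, p (S a) = conj c * p a := by
      filter_upwards [hc] with a ha
      have e1 : p a * conj (p (S a)) = c := ha
      have e2 : conj c * p a = (conj (p a) * p a) * p (S a) := by
        rw [← e1, map_mul, Complex.conj_conj]
        ring
      rw [e2, mul_comm (conj (p a)), sd_mul_conj (hp1 a), one_mul]
    have hpn := ec_iter S hSm hpc n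
    obtain ⟨C, hC⟩ : ∃ C, C = (conj c) ^ n := ⟨_, rfl⟩
    have hC1 : ‖C‖ = 1 := by rw [hC, norm_pow, RCLike.norm_conj, hc1, one_pow]
    have hGC : ∀ᵐ a ∂ν, ‖G a - C‖ ≤ ‖F (S^[n] a) - 1‖ + ‖F a - 1‖ := by
      filter_upwards [hpn] with a ha
      have e1 : w a = p a * F a := by
        rw [hp]
        show w a = w a * conj (F a) * F a
        rw [mul_assoc, mul_comm (conj (F a)), hFconj, mul_one]
      have e2 : w (S^[n] a) = p (S^[n] a) * F (S^[n] a) := by
        rw [hp]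
        show w (S^[n] a) = w (S^[n] a) * conj (F (S^[n] a)) * F (S^[n] a)
        rw [mul_assoc, mul_comm (conj (F (S^[n] a))), hFconj, mul_one]
      have e3 : G a = C * (F (S^[n] a) * conj (F a)) := by
        have e4 : G a = w (S^[n] a) * conj (w a) := by rw [hG]
        rw [e4, e2, e1, ha, ← hC, map_mul]
        have e5 := sd_mul_conj (hp1 a)
        calc C * p a * F (S^[n] a) * (conj (p a) * conj (F a)) =
            C * (F (S^[n] a) * conj (F a)) * (p a * conj (p a)) := by ring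
          _ = C * (F (S^[n] a) * conj (F a)) := by rw [e5, mul_one]
      have e6 : G a - C = C * ((F (S^[n] a) - F a) * conj (F a)) := by
        rw [e3, sub_mul, hFconj]
        ring
      rw [e6, norm_mul, norm_mul, RCLike.norm_conj, hC1, hF1, one_mul, mul_one]
      have e7 : F (S^[n] a) - F a = (F (S^[n] a) - 1) - (F a - 1) := by ring
      rw [e7]
      exact norm_sub_le _ _
    obtain ⟨hin, hin'⟩ := hcomp n
    have hiGC : Integrable (fun a => ‖G a - C‖) ν := (hGi.sub (integrable_const _)).norm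
    have hGCi : ∫ a, ‖G a - C‖ ∂ν ≤ 2 * ε₁ := by
      calc ∫ a, ‖G a - C‖ ∂ν ≤ ∫ a, (‖F (S^[n] a) - 1‖ + ‖F a - 1‖) ∂ν :=
            integral_mono_ae hiGC (hin.add hiF) hGC
        _ = 2 * ε₁ := by
            rw [integral_add hin hiF, hin', ← hε₁]
            ring
    have hmean : ‖C - ∫ y, G y ∂ν‖ ≤ 2 * ε₁ := by
      have e1 : C - ∫ y, G y ∂ν = ∫ y, (C - G y) ∂ν := by
        rw [integral_sub (integrable_const _) hGi]
        simp
      rw [e1]
      refine (norm_integral_le_integral_norm _).trans (le_trans (le_of_eq ?_) hGCi)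
      refine integral_congr_ae (Eventually.of_forall fun a => ?_)
      exact norm_sub_rev _ _
    have hfin : ∫ x, ‖G x - ∫ y, G y ∂ν‖ ∂ν ≤ 4 * ε₁ := by
      calc ∫ x, ‖G x - ∫ y, G y ∂ν‖ ∂ν ≤ ∫ x, (‖G x - C‖ + ‖C - ∫ y, G y ∂ν‖) ∂ν := by
            refine integral_mono hiL (hiGC.add (integrable_const _)) fun x => ?_
            show ‖G x - ∫ y, G y ∂ν‖ ≤ ‖G x - C‖ + ‖C - ∫ y, G y ∂ν‖
            have e1 : G x - ∫ y, G y ∂ν = (G x - C) + (C - ∫ y, G y ∂ν) := by ring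
            rw [e1]
            exact norm_add_le _ _
        _ = (∫ x, ‖G x - C‖ ∂ν) + ‖C - ∫ y, G y ∂ν‖ := by
            rw [integral_add hiGC (integrable_const _)]
            simp
        _ ≤ 4 * ε₁ := by linarith
    refine hfin.trans ?_
    have h816 : (8 : ℝ) ^ (D + 1) ≤ 16 ^ (D + 1) := pow_le_pow_left₀ (by norm_num) (by norm_num) _
    have h9 : 8 ^ (D + 1) * η ≤ 16 ^ (D + 1) * η := mul_le_mul_of_nonneg_right h816 hη0
    have h10 : 0 ≤ 16 ^ (D + 1) * η := by positivity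
    linarith

end Pool.Agent.HK820

end

/-! ### Part `ED` -/

section

open MeasureTheory ProbabilityTheory Filter Topology
open scoped ComplexConjugate ENNReal

namespace Pool.Agent.HK820

/-- integrals of bounded nonnegative functions over mixtures of probability measures -/
private theorem ed_bind {X Y : Type} [MeasurableSpace X] [MeasurableSpace Y] (μ : Measure X)
    [IsProbabilityMeasure μ] (Q : X → Measure Y) (hQ : AEMeasurable Q μ)
    (hp : ∀ x, IsProbabilityMeasure (Q x)) {g : Y → ℝ} (hg : Measurable g) (h0 : ∀ y, 0 ≤ g y)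
    {C : ℝ} (hC : ∀ y, g y ≤ C) :
    Integrable (fun x => ∫ y, g y ∂(Q x)) μ ∧
      ∫ x, ∫ y, g y ∂(Q x) ∂μ = ∫ y, g y ∂(μ.bind Q) := by
  have hgm : Measurable (fun y => ENNReal.ofReal (g y)) := ENNReal.measurable_ofReal.comp hg
  have h1 : ∀ ρ : Measure Y, ∫ y, g y ∂ρ = (∫⁻ y, ENNReal.ofReal (g y) ∂ρ).toReal := fun ρ =>
    integral_eq_lintegral_of_nonneg_ae (Eventually.of_forall h0) hg.aestronglyMeasurable
  have hL : AEMeasurable (fun x => ∫⁻ y, ENNReal.ofReal (g y) ∂(Q x)) μ :=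
    (Measure.measurable_lintegral hgm).comp_aemeasurable hQ
  have hb : ∀ x, ∫⁻ y, ENNReal.ofReal (g y) ∂(Q x) ≤ ENNReal.ofReal C := by
    intro x
    have := hp x
    refine (lintegral_mono fun y => ENNReal.ofReal_le_ofReal (hC y)).trans ?_
    simp
  have hfin : ∫⁻ x, ∫⁻ y, ENNReal.ofReal (g y) ∂(Q x) ∂μ ≠ ⊤ := by
    refine ne_top_of_le_ne_top (ENNReal.ofReal_ne_top (r := C)) ((lintegral_mono hb).trans ?_)
    simp
  simp_rw [h1]
  refine ⟨integrable_toReal_of_lintegral_ne_top hL hfin, ?_⟩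
  rw [integral_toReal hL (Eventually.of_forall fun x => (hb x).trans_lt ENNReal.ofReal_lt_top),
    Measure.lintegral_bind hQ hgm.aemeasurable]

/-- **ED.** The same without ergodicity, with the conditional expectation on the invariant sets.

Proof. For almost every `z` the component `κ z = condExpKernel ν (Inv S) z` is ergodic
(`ergodic_decomp`), and `E[w_n | Inv] = ∫ w_n ∂(κ z)` holds `κ z`-almost everywhere (`w_n = w ∘ S^n
conj w`; `condExp_ae_eq_integral_condExpKernel`, `ae_ae_condExpKernel`, `condExpKernel_self`). Apply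
`ec_comp` to every such component and integrate over `z`: `∫ ∫ φ ∂(κ z) ∂ν = ∫ φ ∂ν`
(`bind_condExpKernel`) and `∫ ∫ φ ∂(cube (κ z)) ∂ν = ∫ φ ∂(cube ν)` (`cube_decomp`). -/
theorem ed_inv {P : Type} [MeasurableSpace P] [StandardBorelSpace P] (ν : Measure P)
    [IsProbabilityMeasure ν] (S : P ≃ᵐ P) (hS : MeasurePreserving S ν ν) (D : ℕ) {w : P → ℂ}
    (hw : Measurable w) (h1 : ∀ x, ‖w x‖ = 1) (n : ℕ) :
    ∫ x, ‖w (S^[n] x) * conj (w x) -
        (ν[fun y => w (S^[n] y) * conj (w y) | Inv S]) x‖ ∂ν ≤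
      28 * 16 ^ (D + 1) * (∫ x, ‖dd (D + 1) w x - 1‖ ∂(cube ν S (Fin 2) (D + 1)) +
        ∫ x, ‖w (S x) - w x‖ ∂ν) := by
  have hm : Inv S ≤ ‹MeasurableSpace P› := MeasurableSpace.invariants_le S
  let φ : P → ℂ := fun x => w (S^[n] x) * conj (w x)
  have hφm : Measurable φ := (hw.comp (S.measurable.iterate n)).mul
    (Complex.continuous_conj.measurable.comp hw)
  have hφ1 : ∀ x, ‖φ x‖ = 1 := fun x => by
    show ‖w (S^[n] x) * conj (w x)‖ = 1
    rw [norm_mul, Complex.norm_conj, h1, h1, mul_one]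
  have hφi : Integrable φ ν :=
    Integrable.of_bound hφm.aestronglyMeasurable 1 (Eventually.of_forall fun x => (hφ1 x).le)
  let e : P → ℂ := fun z => ∫ y, φ y ∂(condExpKernel ν (Inv S) z)
  have he : Measurable[Inv S] e := (hφm.stronglyMeasurable.integral_condExpKernel
    (m := Inv S) (μ := ν)).measurable
  have hem : Measurable e := he.mono hm le_rfl
  have he1 : ∀ z, ‖e z‖ ≤ 1 := by
    intro z
    refine (norm_integral_le_of_norm_le_const (Eventually.of_forall fun y => (hφ1 y).le)).trans ?_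
    simp
  have hE : ν[φ | Inv S] =ᵐ[ν] e := condExp_ae_eq_integral_condExpKernel hm hφi
  have hΦm : Measurable (fun x => ‖φ x - e x‖) := (hφm.sub hem).norm
  have hΦ2 : ∀ x, ‖φ x - e x‖ ≤ 2 := fun x => by
    refine (norm_sub_le _ _).trans ?_
    have h2 := hφ1 x
    have h3 := he1 x
    linarith
  have hl : ∫ x, ‖w (S^[n] x) * conj (w x) -
      (ν[fun y => w (S^[n] y) * conj (w y) | Inv S]) x‖ ∂ν = ∫ x, ‖φ x - e x‖ ∂ν := by
    refine integral_congr_ae ?_
    filter_upwards [hE] with x hx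
    show ‖φ x - (ν[φ | Inv S]) x‖ = _
    rw [hx]
  have hκ : AEMeasurable (fun z => condExpKernel ν (Inv S) z) ν :=
    ((condExpKernel ν (Inv S)).measurable.mono hm le_rfl).aemeasurable
  have hbind := bind_condExpKernel (Inv S) ν hm
  obtain ⟨hcm, hcb⟩ := cube_decomp ν S hS (Fin 2) (D + 1)
  have hdm : Measurable (fun x : Arr (Fin 2) P (D + 1) => ‖dd (D + 1) w x - 1‖) :=
    ((dd_bm (D + 1) (f := w) ⟨hw, 1, fun x => (h1 x).le⟩).1.sub measurable_const).norm
  have hd2 : ∀ x : Arr (Fin 2) P (D + 1), ‖dd (D + 1) w x - 1‖ ≤ 2 := fun x => by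
    refine (norm_sub_le _ _).trans ?_
    rw [norm_dd (D + 1) h1, norm_one]
    norm_num
  have hsm : Measurable (fun x => ‖w (S x) - w x‖) := ((hw.comp S.measurable).sub hw).norm
  have hs2 : ∀ x, ‖w (S x) - w x‖ ≤ 2 := fun x => by
    refine (norm_sub_le _ _).trans ?_
    rw [h1, h1]
    norm_num
  obtain ⟨i1, e1⟩ := ed_bind ν (fun z => condExpKernel ν (Inv S) z) hκ (fun z => inferInstance)
    hΦm (fun x => norm_nonneg _) hΦ2
  obtain ⟨i2, e2⟩ := ed_bind ν (fun z => condExpKernel ν (Inv S) z) hκ (fun z => inferInstance)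
    hsm (fun x => norm_nonneg _) hs2
  obtain ⟨i3, e3⟩ := ed_bind ν (fun z => cube (condExpKernel ν (Inv S) z) S (Fin 2) (D + 1)) hcm
    (fun z => inferInstance) hdm (fun x => norm_nonneg _) hd2
  rw [hbind] at e1 e2
  rw [hcb] at e3
  rw [hl, ← e1, ← e2, ← e3, ← integral_add i3 i2, ← integral_const_mul]
  refine integral_mono_ae i1 ((i3.add i2).const_mul _) ?_
  filter_upwards [ergodic_decomp ν S hS, ae_eq_condExpKernel (Inv S) ν hm he] with z hz hez
  have h2 : ∫ y, ‖φ y - e y‖ ∂(condExpKernel ν (Inv S) z) =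
      ∫ x, ‖w (S^[n] x) * conj (w x) - ∫ y, w (S^[n] y) * conj (w y) ∂(condExpKernel ν (Inv S) z)‖
        ∂(condExpKernel ν (Inv S) z) := by
    refine integral_congr_ae ?_
    filter_upwards [hez] with y hy
    rw [hy]
  show ∫ y, ‖φ y - e y‖ ∂(condExpKernel ν (Inv S) z) ≤ _
  rw [h2]
  exact ec_comp (condExpKernel ν (Inv S) z) S hz D hw h1 n

end Pool.Agent.HK820

end

/-! ### Part `EE` -/

section

open MeasureTheory ProbabilityTheory Filter Topology
open scoped ComplexConjugate ENNReal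

namespace Pool.Agent.HK820

private theorem ee_gen (Y : Type) [mY : MeasurableSpace Y] [StandardBorelSpace Y] :
    ∃ C : Set (Set Y), C.Countable ∧ mY = MeasurableSpace.generateFrom C ∧ IsPiSystem C ∧
      ∀ A ∈ C, MeasurableSet A := by
  have hgen : mY = MeasurableSpace.generateFrom
      (generateSetAlgebra (MeasurableSpace.countableGeneratingSet Y)) := by
    rw [generateFrom_generateSetAlgebra_eq]
    exact MeasurableSpace.generateFrom_countableGeneratingSet.symm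
  refine ⟨generateSetAlgebra (MeasurableSpace.countableGeneratingSet Y),
    countable_generateSetAlgebra (MeasurableSpace.countable_countableGeneratingSet), hgen,
    fun s hs t ht _ => isSetAlgebra_generateSetAlgebra.inter_mem hs ht, ?_⟩
  intro A hA
  rw [hgen]
  exact MeasurableSpace.measurableSet_generateFrom hA

private theorem ee_bm {Y : Type} [MeasurableSpace Y] {A : Set Y} (hA : MeasurableSet A) :
    BM (A.indicator (fun _ => (1 : ℂ))) := by
  refine ⟨measurable_const.indicator hA, 1, fun x => ?_⟩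
  by_cases hx : x ∈ A
  · rw [Set.indicator_of_mem hx, norm_one]
  · rw [Set.indicator_of_notMem hx, norm_zero]
    exact zero_le_one

private theorem ee_int {Y : Type} [MeasurableSpace Y] (m : Measure Y) {A : Set Y}
    (hA : MeasurableSet A) : ∫ y, A.indicator (fun _ => (1 : ℂ)) y ∂m = ((m A).toReal : ℂ) := by
  rw [integral_indicator hA, setIntegral_const, Measure.real]
  simp

/-- **EE1.** Conditional measures of an invariant σ-algebra are equivariant (`E[G ∘ S | m] =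
E[G | m] ∘ S` for the indicators of a countable generating π-system, `condExp_comp_equiv`). -/
theorem condExpKernel_equiv {Q : Type} (m : MeasurableSpace Q) [mQ : MeasurableSpace Q]
    [StandardBorelSpace Q] (ν : Measure Q) [IsProbabilityMeasure ν] (hm : m ≤ mQ) (S : Q ≃ᵐ Q)
    (hS : MeasurePreserving S ν ν) (hSm : TInv m S) :
    ∀ᵐ x ∂ν, (condExpKernel ν m x).map S = condExpKernel ν m (S x) := by
  obtain ⟨C, hCc, hgen, hpi, hmeas⟩ := ee_gen Q
  have h1 : ∀ A ∈ C, ∀ᵐ x ∂ν, (condExpKernel ν m x).map S A = condExpKernel ν m (S x) A := by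
    intro A hA
    have hF := ee_bm (hmeas A hA)
    have hFp : BM (fun x => A.indicator (fun _ => (1 : ℂ)) (S x)) :=
      ⟨hF.1.comp S.measurable, hF.2.choose, fun x => hF.2.choose_spec (S x)⟩
    have e1 := condExp_ae_eq_integral_condExpKernel (μ := ν) hm (hFp.integrable ν)
    have e2 := hS.quasiMeasurePreserving.ae (condExp_ae_eq_integral_condExpKernel (μ := ν)
      hm (hF.integrable ν))
    filter_upwards [e1, e2, condExp_comp_equiv m m hm hm S hS hSm.1 hSm.2 hF] with x h2 h3 h4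
    rw [h2, h3] at h4
    have h5 : ∫ y, A.indicator (fun _ => (1 : ℂ)) (S y) ∂(condExpKernel ν m x) =
        ∫ y, A.indicator (fun _ => (1 : ℂ)) y ∂((condExpKernel ν m x).map S) :=
      (integral_map S.measurable.aemeasurable hF.1.aestronglyMeasurable).symm
    rw [h5, ee_int _ (hmeas A hA), ee_int _ (hmeas A hA)] at h4
    have h6 : ((condExpKernel ν m x).map S A).toReal =
        (condExpKernel ν m (S x) A).toReal := by exact_mod_cast h4
    exact (ENNReal.toReal_eq_toReal_iff' (measure_ne_top _ _) (measure_ne_top _ _)).1 h6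
  have h2 : ∀ᵐ x ∂ν, ∀ A ∈ C, (condExpKernel ν m x).map S A =
      condExpKernel ν m (S x) A := (ae_ball_iff hCc).2 h1
  filter_upwards [h2] with x hx
  refine ext_of_generate_finite C hgen hpi hx ?_
  rw [Measure.map_apply S.measurable MeasurableSet.univ, Set.preimage_univ, measure_univ,
    measure_univ]

private theorem ee_two {Y : Type} [MeasurableSpace Y] :
    Measurable (fun p : Y × Y => (![p.1, p.2] : Fin 2 → Y)) := by
  refine measurable_pi_iff.2 fun i => ?_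
  fin_cases i
  · exact measurable_fst
  · exact measurable_snd

private theorem ee_slice {Y : Type} [mY : MeasurableSpace Y] {F : (Fin 2 → Y) → ℂ} (hF : BM F)
    (x : Y) : BM (fun y => F ![x, y]) :=
  BMs.comp (m' := inferInstance) hF (ee_two.comp (measurable_const.prodMk measurable_id))

private theorem ee_ker {Q : Type} (m : MeasurableSpace Q) [mQ : MeasurableSpace Q]
    [StandardBorelSpace Q] (ν : Measure Q) [IsProbabilityMeasure ν] {F : (Fin 2 → Q) → ℂ}
    (hF : BM F) : BM (fun x => ∫ y, F ![x, y] ∂(condExpKernel ν m x)) := by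
  obtain ⟨hF1, C, hC⟩ := hF
  have hM := relC_markov m ν
  refine ⟨?_, C, fun x => ?_⟩
  · have h1 : StronglyMeasurable (fun p : Q × Q => F ![p.1, p.2]) :=
      (hF1.comp ee_two).stronglyMeasurable
    have h2 := h1.integral_kernel_prod_right' (κ := relC_ker m ν)
    exact h2.measurable
  · have hP := relA_prob m ν x
    have h1 := norm_integral_le_of_norm_le_const (μ := condExpKernel ν m x)
      (f := fun y => F ![x, y]) (C := C) (Eventually.of_forall fun y => hC _)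
    simpa using h1

private theorem ee_norm_le {Q : Type} (m : MeasurableSpace Q) [mQ : MeasurableSpace Q]
    [StandardBorelSpace Q] (ν : Measure Q) [IsProbabilityMeasure ν] (hm : m ≤ mQ)
    {F : (Fin 2 → Q) → ℂ} (hF : BM F) :
    ∫ x, ‖∫ y, F ![x, y] ∂(condExpKernel ν m x)‖ ∂ν ≤ ∫ z, ‖F z‖ ∂(relInd m ν (Fin 2)) := by
  have hN : BM (fun z => ((‖F z‖ : ℝ) : ℂ)) := by
    obtain ⟨hF1, C, hC⟩ := hF
    refine ⟨Complex.measurable_ofReal.comp hF1.norm, C, fun x => ?_⟩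
    rw [Complex.norm_real, norm_norm]
    exact hC x
  have h1 := integral_relInd_two m ν hm hN
  have h2 : ∀ x, ∫ y, ((‖F ![x, y]‖ : ℝ) : ℂ) ∂(condExpKernel ν m x) =
      ((∫ y, ‖F ![x, y]‖ ∂(condExpKernel ν m x) : ℝ) : ℂ) := fun x => integral_ofReal
  simp only [h2] at h1
  have h7 : ∫ z, ((‖F z‖ : ℝ) : ℂ) ∂(relInd m ν (Fin 2)) =
      ((∫ z, ‖F z‖ ∂(relInd m ν (Fin 2)) : ℝ) : ℂ) := integral_ofReal
  have h8 : ∫ x, ((∫ y, ‖F ![x, y]‖ ∂(condExpKernel ν m x) : ℝ) : ℂ) ∂ν =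
      ((∫ x, ∫ y, ‖F ![x, y]‖ ∂(condExpKernel ν m x) ∂ν : ℝ) : ℂ) := integral_ofReal
  rw [h7, h8] at h1
  have h3 : ∫ z, ‖F z‖ ∂(relInd m ν (Fin 2)) =
      ∫ x, ∫ y, ‖F ![x, y]‖ ∂(condExpKernel ν m x) ∂ν := by exact_mod_cast h1
  rw [h3]
  have h4 := (ee_ker m ν hN).integrable ν
  have h5 : Integrable (fun x => ∫ y, ‖F ![x, y]‖ ∂(condExpKernel ν m x)) ν := by
    have h6 := h4.re
    refine h6.congr (Eventually.of_forall fun x => ?_)
    show RCLike.re (∫ y, ((‖F ![x, y]‖ : ℝ) : ℂ) ∂(condExpKernel ν m x)) = _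
    rw [h2 x]
    exact Complex.ofReal_re _
  refine integral_mono ((ee_ker m ν hF).integrable ν).norm h5 fun x => ?_
  exact norm_integral_le_integral_norm _

private theorem ee_iter {Q : Type} [MeasurableSpace Q] (S : Q ≃ᵐ Q) (n : ℕ) (z : Fin 2 → Q)
    (i : Fin 2) : ((tTup S (Fin 2))^[n] z) i = S^[n] (z i) := by
  induction n generalizing z with
  | zero => rfl
  | succ n ih =>
    rw [Function.iterate_succ_apply, Function.iterate_succ_apply, ih]
    rfl

private theorem ee_mul_conj {a : ℂ} (h : ‖a‖ = 1) : a * conj a = 1 := by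
  rw [Complex.mul_conj, Complex.normSq_eq_norm_sq, h]
  norm_num

/-- **EE2.** For `ν` ergodic, the fibre integrals of an invariant function of two variables are
constant: `B x = ∫ A (x, y) ∂κ_x` satisfies `B ∘ S = B` a.e. by EE1, so it is the constant `∫ A`
(`integral_relInd_two`). -/
theorem fibre_const {Q : Type} (m : MeasurableSpace Q) [mQ : MeasurableSpace Q]
    [StandardBorelSpace Q] (ν : Measure Q) [IsProbabilityMeasure ν] (hm : m ≤ mQ) (S : Q ≃ᵐ Q)
    (hS : Ergodic S ν) (hSm : TInv m S) {A : (Fin 2 → Q) → ℂ} (hA : BM A)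
    (hi : (fun z => A (tTup S (Fin 2) z)) =ᵐ[relInd m ν (Fin 2)] A) :
    ∀ᵐ x ∂ν, ∫ y, A ![x, y] ∂(condExpKernel ν m x) = ∫ z, A z ∂(relInd m ν (Fin 2)) := by
  have hB := ee_ker m ν hA
  have hinv : (fun x => ∫ y, A ![x, y] ∂(condExpKernel ν m x)) ∘ S =ᵐ[ν]
      fun x => ∫ y, A ![x, y] ∂(condExpKernel ν m x) := by
    have h1 : ∀ᵐ z ∂(relInd m ν (Fin 2)), (fun x y => A ![S x, S y] = A ![x, y]) (z 0) (z 1) := by
      filter_upwards [hi] with z hz
      have e1 : (![z 0, z 1] : Fin 2 → Q) = z := by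
        funext i
        fin_cases i <;> rfl
      have e2 : (![S (z 0), S (z 1)] : Fin 2 → Q) = tTup S (Fin 2) z := by
        funext i
        fin_cases i <;> rfl
      show A ![S (z 0), S (z 1)] = A ![z 0, z 1]
      rw [e1, e2]
      exact hz
    have h2 := ae_relInd_two m ν hm (P := fun x y => A ![S x, S y] = A ![x, y]) h1
    filter_upwards [h2, condExpKernel_equiv m ν hm S hS.toMeasurePreserving hSm] with x h3 h4
    show ∫ y, A ![S x, y] ∂(condExpKernel ν m (S x)) = ∫ y, A ![x, y] ∂(condExpKernel ν m x)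
    rw [← h4, integral_map S.measurable.aemeasurable
      ((ee_slice hA (S x)).1.aestronglyMeasurable)]
    exact integral_congr_ae h3
  obtain ⟨c, hc⟩ := hS.ae_eq_const_of_ae_eq_comp_ae hB.1.aestronglyMeasurable hinv
  have h5 : ∫ z, A z ∂(relInd m ν (Fin 2)) = c := by
    rw [integral_relInd_two m ν hm hA, integral_congr_ae hc]
    simp
  filter_upwards [hc] with x hx
  rw [h5]
  exact hx

/-- **EE3.** Bootstrapping: `w = u ⊗ conj u` is close to its projection to the invariant functions.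

Let `K = 112 * 16 ^ (D + 1)`, `K δ ≤ 1 / 16`. Write `R = relInd m ν (Fin 2)`, `S₂ = tTup S (Fin 2)`,
`w z = u (z 0) conj (u (z 1))`, `w_n = w ∘ S₂^n conj w = φ_n ⊗ conj φ_n`,
`φ_n = u ∘ S^n conj u`, `γ_n = ∫ w_n ∂R = ∫ ‖E[φ_n|m]‖² ∂ν ∈ [0, 1]` (`relInd_prod`).
By EB1, EB2 and `ed_inv` (for `R`, `S₂`): `∫ ‖w_n - A_n‖ ∂R ≤ 28 * 16^(D+1) * 4 δ = K δ =: ε₂` for all
`n`, `A_n = E[w_n | Inv S₂]`. For a.e. `x`, `∫ w_n (x, y) ∂κ_x = φ_n x * conj (E[φ_n|m] x)`, and
`∫ A_n (x, y) ∂κ_x = ∫ A_n ∂R = γ_n` (EE2). So `∫ ‖φ_n conj E[φ_n|m] - γ_n‖ ∂ν ≤ ε₂`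
(`integral_relInd_two`), hence `∫ |‖E[φ_n|m]‖ - γ_n| ≤ ε₂` and `|γ_n - γ_n²| ≤ 2 ε₂`. Also
`|γ_{n+1} - γ_n| ≤ ∫ ‖w_{n+1} - w_n ∘ S₂‖ = ∫ ‖w - w ∘ S₂‖ ≤ 2 δ` and `γ_0 = 1`. The numbers `t` in
`[0, 1]` with `t (1 - t) ≤ 2 ε₂` satisfy `t ≤ 4 ε₂` or `t ≥ 1 - 4 ε₂`, and the gap is longer than
`2 δ`, so `γ_n ≥ 1 - 4 ε₂` for all `n` by induction. Finally `∫ ‖w - E[w|Inv S₂]‖² =
1 - ∫ ‖E[w|Inv S₂]‖²` and `∫ ‖E[w|Inv S₂]‖² = ∫ conj w E[w|Inv S₂]` is the limit of the averages of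
`∫ conj w * w ∘ S₂^n = γ_n` (`avg_int_tendsto`), so it is `≥ 1 - 4 ε₂`. -/
theorem ee_main {Q : Type} (m : MeasurableSpace Q) [mQ : MeasurableSpace Q]
    [StandardBorelSpace Q] (ν : Measure Q) [IsProbabilityMeasure ν] (hm : m ≤ mQ) (S : Q ≃ᵐ Q)
    (hS : Ergodic S ν) (hSm : TInv m S) (D : ℕ) {u : Q → ℂ} (hu : Measurable u)
    (h1 : ∀ q, ‖u q‖ = 1) {δ : ℝ} (hδ : 112 * 16 ^ (D + 1) * δ ≤ 1 / 16)
    (ha : ∫ q, ‖u (S q) * conj (u q) - (ν[fun q => u (S q) * conj (u q) | m]) q‖ ∂ν ≤ δ)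
    (hb : ∫ x, ‖dd (D + 1) u x - ((cube ν S (Fin 2) (D + 1))[dd (D + 1) u | pw m (D + 1)]) x‖
      ∂(cube ν S (Fin 2) (D + 1)) ≤ δ) :
    ∫ z, ‖u (z 0) * conj (u (z 1)) - ((relInd m ν (Fin 2))[fun z : Fin 2 → Q =>
      u (z 0) * conj (u (z 1)) | Inv (tTup S (Fin 2))]) z‖ ^ 2 ∂(relInd m ν (Fin 2)) ≤
      4 * (112 * 16 ^ (D + 1) * δ) := by
  classical
  have hS' : MeasurePreserving S ν ν := hS.toMeasurePreserving
  set θ : Measure (Fin 2 → Q) := relInd m ν (Fin 2) with hR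
  set S₂ : (Fin 2 → Q) ≃ᵐ (Fin 2 → Q) := tTup S (Fin 2) with hS₂def
  have hRp : IsProbabilityMeasure θ := relInd_prob m ν (Fin 2)
  have hS₂ : MeasurePreserving S₂ θ θ := relInd_tTup m ν hm S hS' hSm (Fin 2)
  have hI : Inv S₂ ≤ (inferInstance : MeasurableSpace (Fin 2 → Q)) :=
    MeasurableSpace.invariants_le S₂
  set w : (Fin 2 → Q) → ℂ := fun z => u (z 0) * conj (u (z 1)) with hw
  have huB : BM u := ⟨hu, 1, fun q => (h1 q).le⟩
  have hwB : BM w := BMs.mul (BMs.comp (m' := mQ) huB (measurable_pi_apply 0))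
    (BMs.conj (BMs.comp (m' := mQ) huB (measurable_pi_apply 1)))
  have hwm : Measurable w := hwB.1
  have hwn : ∀ z, ‖w z‖ = 1 := by
    intro z
    rw [hw]
    show ‖u (z 0) * conj (u (z 1))‖ = 1
    rw [norm_mul, RCLike.norm_conj, h1, h1, one_mul]
  have hinv : ∫ z, ‖w (S₂ z) - w z‖ ∂θ ≤ 2 * δ := eb_inv m ν hm S hS' hu h1 ha
  have hcube : ∫ x, ‖dd (D + 1) w x - 1‖ ∂(cube θ S₂ (Fin 2) (D + 1)) ≤ 2 * δ :=
    eb_cube m ν hm S hS' hSm (D + 1) hu h1 hb
  have hδ0 : 0 ≤ δ := le_trans (integral_nonneg fun _ => norm_nonneg _) ha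
  set ε : ℝ := 112 * 16 ^ (D + 1) * δ with hε
  have hpow : (1 : ℝ) ≤ 16 ^ (D + 1) := one_le_pow₀ (by norm_num)
  have hεδ : 112 * δ ≤ ε := by
    rw [hε]
    have := mul_le_mul_of_nonneg_right hpow hδ0
    linarith
  have hε0 : 0 ≤ ε := by linarith
  set W : ℕ → (Fin 2 → Q) → ℂ := fun n z => w (S₂^[n] z) * conj (w z) with hW
  have hWB : ∀ n, BM (W n) := fun n => BMs.mul
    (BMs.comp (m' := inferInstance) hwB (S₂.measurable.iterate n)) (BMs.conj hwB)
  have hWn : ∀ n z, ‖W n z‖ = 1 := by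
    intro n z
    show ‖w (S₂^[n] z) * conj (w z)‖ = 1
    rw [norm_mul, RCLike.norm_conj, hwn, hwn, one_mul]
  have hed : ∀ n, ∫ x, ‖W n x - (θ[W n | Inv S₂]) x‖ ∂θ ≤ ε := by
    intro n
    refine (ed_inv θ S₂ hS₂ D hwm hwn n).trans ?_
    have h2 : 28 * 16 ^ (D + 1) * (∫ x, ‖dd (D + 1) w x - 1‖ ∂(cube θ S₂ (Fin 2) (D + 1)) +
        ∫ x, ‖w (S₂ x) - w x‖ ∂θ) ≤ 28 * 16 ^ (D + 1) * (2 * δ + 2 * δ) :=
      mul_le_mul_of_nonneg_left (add_le_add hcube hinv) (by positivity)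
    refine h2.trans (le_of_eq ?_)
    rw [hε]
    ring
  set φ : ℕ → Q → ℂ := fun n q => u (S^[n] q) * conj (u q) with hφ
  have hφB : ∀ n, BM (φ n) := fun n => BMs.mul
    (BMs.comp (m' := mQ) huB (S.measurable.iterate n)) (BMs.conj huB)
  have hφn : ∀ n q, ‖φ n q‖ = 1 := by
    intro n q
    show ‖u (S^[n] q) * conj (u q)‖ = 1
    rw [norm_mul, RCLike.norm_conj, h1, h1, one_mul]
  have hWφ : ∀ n x y, W n ![x, y] = φ n x * conj (φ n y) := by
    intro n x y
    show u ((S₂^[n] ![x, y]) 0) * conj (u ((S₂^[n] ![x, y]) 1)) *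
      conj (u x * conj (u y)) = u (S^[n] x) * conj (u x) * conj (u (S^[n] y) * conj (u y))
    rw [ee_iter, ee_iter]
    simp only [map_mul, Complex.conj_conj]
    show u (S^[n] x) * conj (u (S^[n] y)) * (conj (u x) * u y) = _
    ring
  set c : ℕ → Q → ℂ := fun n x => ∫ y, φ n y ∂(condExpKernel ν m x) with hc
  have hcW : ∀ n x, ∫ y, W n ![x, y] ∂(condExpKernel ν m x) = φ n x * conj (c n x) := by
    intro n x
    simp only [hWφ]
    rw [integral_const_mul, integral_conj]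
  have hcE : ∀ n, ν[φ n | m] =ᵐ[ν] c n := fun n =>
    condExp_ae_eq_integral_condExpKernel hm ((hφB n).integrable ν)
  have hcB : ∀ n, BM (c n) := by
    intro n
    have h2 : BM (fun z : Fin 2 → Q => φ n (z 1)) :=
      BMs.comp (m' := mQ) (hφB n) (measurable_pi_apply 1)
    exact ee_ker m ν h2
  have hcn : ∀ n x, ‖c n x‖ ≤ 1 := by
    intro n x
    have hP := relA_prob m ν x
    have h2 := norm_integral_le_of_norm_le_const (μ := condExpKernel ν m x)
      (f := φ n) (C := 1) (Eventually.of_forall fun y => (hφn n y).le)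
    simpa using h2
  set γ : ℕ → ℝ := fun n => ∫ x, ‖c n x‖ ^ 2 ∂ν with hγ
  have hγW : ∀ n, ∫ z, W n z ∂θ = (γ n : ℂ) := by
    intro n
    rw [hR, integral_relInd_two m ν hm (hWB n)]
    simp only [hcW]
    have h2 := integral_mul_conj_condExp m ν hm (hφB n)
    have h3 : ∫ x, φ n x * conj (c n x) ∂ν = ∫ x, φ n x * conj ((ν[φ n | m]) x) ∂ν := by
      refine integral_congr_ae ?_
      filter_upwards [hcE n] with x hx
      rw [hx]
    have h4 : ∫ x, ‖(ν[φ n | m]) x‖ ^ 2 ∂ν = γ n := by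
      refine integral_congr_ae ?_
      filter_upwards [hcE n] with x hx
      rw [hx]
    rw [h3, h2, h4]
  have hγ0 : ∀ n, 0 ≤ γ n := fun n => integral_nonneg fun x => by positivity
  have hγ1 : ∀ n, γ n ≤ 1 := by
    intro n
    have h2 : γ n ≤ ∫ _x, (1 : ℝ) ∂ν := by
      refine integral_mono (bas_int_sq (hcB n) ν) (integrable_const 1) fun x => ?_
      show ‖c n x‖ ^ 2 ≤ 1
      exact pow_le_one₀ (norm_nonneg _) (hcn n x)
    simpa using h2
  -- the key inequality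
  have hkey : ∀ n, γ n - γ n ^ 2 ≤ 2 * ε := by
    intro n
    obtain ⟨g, hg1, hg2, hg3⟩ := exists_bms_condExp (Inv S₂) θ hI (hWB n).1
      (fun z => (hWn n z).le)
    have hgB : BM g := BMs.mono hI ⟨hg1, 1, hg2⟩
    have hgi : (fun z => g (tTup S (Fin 2) z)) =ᵐ[relInd m ν (Fin 2)] g := by
      have h2 : g ∘ S₂ = g := MeasurableSpace.comp_eq_of_measurable_invariants hg1
      exact Eventually.of_forall fun z => congrFun h2 z
    have hgint : ∫ z, g z ∂θ = (γ n : ℂ) := by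
      rw [← integral_congr_ae hg3, integral_condExp hI, hγW]
    have hf := fibre_const m ν hm S hS hSm hgB hgi
    have hdiff : BM (fun z => W n z - g z) := BMs.sub (hWB n) hgB
    have h3 := ee_norm_le m ν hm hdiff
    have h4 : ∫ x, ‖∫ y, (W n ![x, y] - g ![x, y]) ∂(condExpKernel ν m x)‖ ∂ν =
        ∫ x, ‖φ n x * conj (c n x) - (γ n : ℂ)‖ ∂ν := by
      refine integral_congr_ae ?_
      filter_upwards [hf] with x hx
      have hP := relA_prob m ν x
      rw [integral_sub ((ee_slice (hWB n) x).integrable _) ((ee_slice hgB x).integrable _), hcW]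
      have h5 : ∫ y, g ![x, y] ∂(condExpKernel ν m x) = (γ n : ℂ) := hx.trans hgint
      rw [h5]
    have h5 : ∫ z, ‖W n z - g z‖ ∂θ ≤ ε := by
      refine le_trans (le_of_eq ?_) (hed n)
      refine integral_congr_ae ?_
      filter_upwards [hg3] with x hx
      rw [hx]
    have h6 : ∫ x, ‖φ n x * conj (c n x) - (γ n : ℂ)‖ ∂ν ≤ ε := by
      rw [← h4]
      exact h3.trans h5
    have hB1 : BM (fun x => φ n x * conj (c n x) - (γ n : ℂ)) :=
      BMs.sub (BMs.mul (hφB n) (BMs.conj (hcB n))) (BMs.const _ _)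
    have h7 : ∫ x, (‖c n x‖ ^ 2 - γ n ^ 2) ∂ν ≤
        ∫ x, 2 * ‖φ n x * conj (c n x) - (γ n : ℂ)‖ ∂ν := by
      refine integral_mono ((bas_int_sq (hcB n) ν).sub (integrable_const _))
        ((hB1.integrable ν).norm.const_mul 2) fun x => ?_
      show ‖c n x‖ ^ 2 - γ n ^ 2 ≤ 2 * ‖φ n x * conj (c n x) - (γ n : ℂ)‖
      have h8 : |‖c n x‖ - γ n| ≤ ‖φ n x * conj (c n x) - (γ n : ℂ)‖ := by
        have h9 := abs_norm_sub_norm_le (φ n x * conj (c n x)) (γ n : ℂ)
        rw [norm_mul, RCLike.norm_conj, hφn, one_mul, Complex.norm_real,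
          Real.norm_of_nonneg (hγ0 n)] at h9
        exact h9
      have h9 : ‖c n x‖ - γ n ≤ |‖c n x‖ - γ n| := le_abs_self _
      have h10 : 0 ≤ |‖c n x‖ - γ n| := abs_nonneg _
      have h11 : ‖c n x‖ ^ 2 - γ n ^ 2 = (‖c n x‖ - γ n) * (‖c n x‖ + γ n) := by ring
      have h12 : 0 ≤ ‖c n x‖ + γ n := add_nonneg (norm_nonneg _) (hγ0 n)
      have h13 : ‖c n x‖ + γ n ≤ 2 := by linarith [hcn n x, hγ1 n]
      rw [h11]
      calc (‖c n x‖ - γ n) * (‖c n x‖ + γ n) ≤ |‖c n x‖ - γ n| * (‖c n x‖ + γ n) :=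
            mul_le_mul_of_nonneg_right h9 h12
        _ ≤ |‖c n x‖ - γ n| * 2 := mul_le_mul_of_nonneg_left h13 h10
        _ ≤ 2 * ‖φ n x * conj (c n x) - (γ n : ℂ)‖ := by linarith
    rw [integral_sub (bas_int_sq (hcB n) ν) (integrable_const _), integral_const_mul] at h7
    have h8 : ∫ _x, γ n ^ 2 ∂ν = γ n ^ 2 := by simp
    have h9 : ∫ x, ‖c n x‖ ^ 2 ∂ν = γ n := rfl
    rw [h8, h9] at h7
    linarith
  have hstep : ∀ n, γ n - γ (n + 1) ≤ 2 * δ := by
    intro n
    have h2 : ∫ z, W n (S₂ z) ∂θ = (γ n : ℂ) := by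
      rw [hS₂.integral_comp' (W n), hγW]
    have h3 : ((γ n - γ (n + 1) : ℝ) : ℂ) = ∫ z, (W n (S₂ z) - W (n + 1) z) ∂θ := by
      rw [integral_sub (BM.integrable (BMs.comp (m' := inferInstance) (hWB n) S₂.measurable) θ)
        ((hWB (n + 1)).integrable θ), h2, hγW]
      push_cast
      ring
    have h4 : ‖((γ n - γ (n + 1) : ℝ) : ℂ)‖ ≤ ∫ z, ‖W n (S₂ z) - W (n + 1) z‖ ∂θ := by
      rw [h3]
      exact norm_integral_le_integral_norm _
    have h5 : ∫ z, ‖W n (S₂ z) - W (n + 1) z‖ ∂θ = ∫ z, ‖w (S₂ z) - w z‖ ∂θ := by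
      refine integral_congr_ae (Eventually.of_forall fun z => ?_)
      show ‖w (S₂^[n] (S₂ z)) * conj (w (S₂ z)) - w (S₂^[n + 1] z) * conj (w z)‖ =
        ‖w (S₂ z) - w z‖
      rw [← Function.iterate_succ_apply, ← mul_sub, norm_mul, hwn, one_mul, ← map_sub,
        RCLike.norm_conj]
    rw [h5, Complex.norm_real] at h4
    exact (le_abs_self _).trans (h4.trans hinv)
  have hγz : γ 0 = 1 := by
    have h2 := hγW 0
    have h3 : ∀ z, W 0 z = 1 := fun z => ee_mul_conj (hwn z)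
    simp only [h3] at h2
    have h4 : ((1 : ℝ) : ℂ) = (γ 0 : ℂ) := by
      rw [← h2]
      simp
    exact (Complex.ofReal_injective h4).symm
  have hall : ∀ n, 1 - 4 * ε ≤ γ n := by
    intro n
    induction n with
    | zero =>
      rw [hγz]
      linarith
    | succ n ih =>
      have h2 := hstep n
      have h3 := hkey (n + 1)
      have h4 : 1 / 2 ≤ γ (n + 1) := by linarith
      nlinarith [hγ1 (n + 1)]
  -- the limit
  have hlim := avg_int_tendsto θ S₂ hS₂ (BMs.conj hwB) hwB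
  have hPw := integral_mul_conj_condExp (Inv S₂) θ hI hwB
  set P : ℝ := ∫ x, ‖(θ[w | Inv S₂]) x‖ ^ 2 ∂θ with hPdef
  have hlim2 : ∫ x, conj (w x) * (θ[w | Inv S₂]) x ∂θ = (P : ℂ) := by
    have h2 : ∫ x, conj (w x) * (θ[w | Inv S₂]) x ∂θ =
        conj (∫ x, w x * conj ((θ[w | Inv S₂]) x) ∂θ) := by
      rw [← integral_conj]
      refine integral_congr_ae (Eventually.of_forall fun x => ?_)
      have h3 : ∀ a b : ℂ, conj a * b = conj (a * conj b) := fun a b => by
        rw [map_mul, Complex.conj_conj]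
      exact h3 _ _
    rw [h2, hPw, Complex.conj_ofReal]
  rw [hlim2] at hlim
  have hP1 : 1 - 4 * ε ≤ P := by
    have h2 : Tendsto (fun N : ℕ => ((N : ℂ)⁻¹ * ∑ n ∈ Finset.range N,
        ∫ x, conj (w x) * w (S₂^[n] x) ∂θ).re) atTop (𝓝 P) := by
      have h3 := (Complex.continuous_re.tendsto (P : ℂ)).comp hlim
      rw [Complex.ofReal_re] at h3
      exact h3
    refine ge_of_tendsto h2 ?_
    filter_upwards [eventually_gt_atTop 0] with N hN
    have h3 : ∀ n, ∫ x, conj (w x) * w (S₂^[n] x) ∂θ = (γ n : ℂ) := by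
      intro n
      rw [← hγW n]
      refine integral_congr_ae (Eventually.of_forall fun x => ?_)
      show conj (w x) * w (S₂^[n] x) = w (S₂^[n] x) * conj (w x)
      ring
    have h4 : (N : ℂ)⁻¹ * ∑ n ∈ Finset.range N, ∫ x, conj (w x) * w (S₂^[n] x) ∂θ =
        (((N : ℝ)⁻¹ * ∑ n ∈ Finset.range N, γ n : ℝ) : ℂ) := by
      simp only [h3]
      push_cast
      rfl
    rw [h4, Complex.ofReal_re]
    have hN' : (0 : ℝ) < N := by exact_mod_cast hN
    have h5 : (N : ℝ) * (1 - 4 * ε) ≤ ∑ n ∈ Finset.range N, γ n := by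
      have h6 := Finset.card_nsmul_le_sum (Finset.range N) γ (1 - 4 * ε) (fun n _ => hall n)
      rw [Finset.card_range, nsmul_eq_mul] at h6
      exact h6
    rw [inv_mul_eq_div, le_div_iff₀ hN']
    linarith
  obtain ⟨h, hh1, hh2, hh3⟩ := exists_bms_condExp (Inv S₂) θ hI hwm (fun z => (hwn z).le)
  have hhB : BM h := BMs.mono hI ⟨hh1, 1, hh2⟩
  have hPh : P = ∫ x, ‖h x‖ ^ 2 ∂θ := by
    refine integral_congr_ae ?_
    filter_upwards [hh3] with x hx
    rw [hx]
  have hPh2 : ∫ x, w x * conj (h x) ∂θ = (P : ℂ) := by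
    rw [← hPw]
    refine integral_congr_ae ?_
    filter_upwards [hh3] with x hx
    rw [hx]
  have e1 : ∫ z, ‖w z - (θ[w | Inv S₂]) z‖ ^ 2 ∂θ = ∫ z, ‖w z - h z‖ ^ 2 ∂θ := by
    refine integral_congr_ae ?_
    filter_upwards [hh3] with x hx
    rw [hx]
  have hwh : BM (fun x => w x * conj (h x)) := BMs.mul hwB (BMs.conj hhB)
  have e2 : ∫ z, ‖w z - h z‖ ^ 2 ∂θ = 1 - P := by
    have h2 : ∀ z, ‖w z - h z‖ ^ 2 = (1 + ‖h z‖ ^ 2) - 2 * (w z * conj (h z)).re := by
      intro z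
      rw [← Complex.normSq_eq_norm_sq, Complex.normSq_sub, Complex.normSq_eq_norm_sq,
        Complex.normSq_eq_norm_sq, hwn]
      ring
    simp only [h2]
    have h3 : Integrable (fun x => (w x * conj (h x)).re) θ := (hwh.integrable θ).re
    have h7 : Integrable (fun x => (1 : ℝ) + ‖h x‖ ^ 2) θ :=
      (integrable_const _).add (bas_int_sq hhB θ)
    rw [integral_sub h7 (h3.const_mul 2),
      integral_add (integrable_const _) (bas_int_sq hhB θ), integral_const_mul, ← hPh]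
    have h4 : ∫ x, (w x * conj (h x)).re ∂θ = P := by
      have h5 := integral_re (hwh.integrable θ)
      have h6 : ∫ x, (w x * conj (h x)).re ∂θ = (∫ x, w x * conj (h x) ∂θ).re := h5
      rw [h6, hPh2, Complex.ofReal_re]
    rw [h4]
    simp
    ring
  have e3 : ∫ z, ‖u (z 0) * conj (u (z 1)) - (θ[fun z : Fin 2 → Q =>
      u (z 0) * conj (u (z 1)) | Inv S₂]) z‖ ^ 2 ∂θ = 1 - P := e1.trans e2
  rw [e3]
  linarith

end Pool.Agent.HK820

end

/-! ### Part `EF2` -/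

section

open MeasureTheory ProbabilityTheory Filter Topology
open scoped ComplexConjugate ENNReal

namespace Pool.Agent.HK820

/-- `tTup` on pairs -/
private theorem EF2_tTup {Q : Type} [MeasurableSpace Q] (S : Q ≃ᵐ Q) (a b : Q) :
    tTup S (Fin 2) ![a, b] = ![S a, S b] := by
  funext i
  fin_cases i <;> rfl

/-- the conditional measures at the two coordinates agree -/
private theorem EF2_ker_eq {Q : Type} (m : MeasurableSpace Q) [mQ : MeasurableSpace Q]
    [StandardBorelSpace Q] (ν : Measure Q) [IsProbabilityMeasure ν] (hm : m ≤ mQ) :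
    ∀ᵐ z ∂(relInd m ν (Fin 2)), condExpKernel ν m (z 0) = condExpKernel ν m (z 1) := by
  set C : Set (Set Q) := generateSetAlgebra (MeasurableSpace.countableGeneratingSet Q) with hC
  have hCc : C.Countable :=
    countable_generateSetAlgebra (MeasurableSpace.countable_countableGeneratingSet)
  have hgen : mQ = MeasurableSpace.generateFrom C := by
    rw [hC, generateFrom_generateSetAlgebra_eq]
    exact MeasurableSpace.generateFrom_countableGeneratingSet.symm
  have hpi : IsPiSystem C := fun s hs t ht _ =>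
    isSetAlgebra_generateSetAlgebra.inter_mem hs ht
  have hmeas : ∀ A ∈ C, MeasurableSet A := by
    intro A hA
    rw [hgen]
    exact MeasurableSpace.measurableSet_generateFrom hA
  have h1 : ∀ A ∈ C, ∀ᵐ z ∂(relInd m ν (Fin 2)),
      condExpKernel ν m (z 0) A = condExpKernel ν m (z 1) A := by
    intro A hA
    have hg : Measurable[m] fun x => (((condExpKernel ν m x A).toReal : ℝ) : ℂ) :=
      Complex.measurable_ofReal.comp
        (ENNReal.measurable_toReal.comp (measurable_condExpKernel (hmeas A hA)))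
    filter_upwards [relInd_eq m ν hm (AEM.of_meas hg) (0 : Fin 2) 1] with z hz
    have h2 : (condExpKernel ν m (z 0) A).toReal = (condExpKernel ν m (z 1) A).toReal := by
      exact_mod_cast hz
    exact (ENNReal.toReal_eq_toReal_iff' (measure_ne_top _ _) (measure_ne_top _ _)).1 h2
  have h2 : ∀ᵐ z ∂(relInd m ν (Fin 2)), ∀ A ∈ C,
      condExpKernel ν m (z 0) A = condExpKernel ν m (z 1) A := (ae_ball_iff hCc).2 h1
  filter_upwards [h2] with z hz
  exact ext_of_generate_finite C hgen hpi hz (by rw [measure_univ, measure_univ])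

private theorem EF2_bm_sq {X : Type} [MeasurableSpace X] {f : X → ℂ} (hf : BM f) :
    BM (fun z => ((‖f z‖ ^ 2 : ℝ) : ℂ)) := by
  obtain ⟨h1, C, hC⟩ := hf
  refine ⟨Complex.measurable_ofReal.comp (h1.norm.pow_const 2), C ^ 2, fun z => ?_⟩
  rw [Complex.norm_real, Real.norm_of_nonneg (sq_nonneg _)]
  exact pow_le_pow_left₀ (norm_nonneg _) (hC z) 2

/-- Cauchy-Schwarz -/
private theorem EF2_cs {X : Type} [MeasurableSpace X] (μ : Measure X) [IsProbabilityMeasure μ]
    {f g : X → ℂ} (hf : BM f) (hg : BM g) :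
    ‖∫ x, f x * g x ∂μ‖ ^ 2 ≤ (∫ x, ‖f x‖ ^ 2 ∂μ) * ∫ x, ‖g x‖ ^ 2 ∂μ := by
  have hfg : Integrable (fun x => ‖f x‖ * ‖g x‖) μ := by
    have h0 : BM (fun x => f x * g x) := BMs.mul hf hg
    have h1 := BM.integrable h0 μ
    refine h1.norm.congr (Eventually.of_forall fun x => ?_)
    exact norm_mul _ _
  have hf2 : Integrable (fun x => ‖f x‖ ^ 2) μ := bas_int_sq hf μ
  have hg2 : Integrable (fun x => ‖g x‖ ^ 2) μ := bas_int_sq hg μ
  have h1 : ‖∫ x, f x * g x ∂μ‖ ≤ ∫ x, ‖f x‖ * ‖g x‖ ∂μ := by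
    refine (norm_integral_le_integral_norm _).trans (le_of_eq ?_)
    simp only [norm_mul]
  have h2 : ∀ t : ℝ, 0 ≤ (∫ x, ‖f x‖ ^ 2 ∂μ) * (t * t) + (-2 * ∫ x, ‖f x‖ * ‖g x‖ ∂μ) * t +
      ∫ x, ‖g x‖ ^ 2 ∂μ := by
    intro t
    have h3 : 0 ≤ ∫ x, (‖f x‖ * t - ‖g x‖) ^ 2 ∂μ := integral_nonneg fun x => sq_nonneg _
    have h4 : ∫ x, (‖f x‖ * t - ‖g x‖) ^ 2 ∂μ =
        (∫ x, ‖f x‖ ^ 2 ∂μ) * (t * t) + (-2 * ∫ x, ‖f x‖ * ‖g x‖ ∂μ) * t +
          ∫ x, ‖g x‖ ^ 2 ∂μ := by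
      have h5 : ∀ x, (‖f x‖ * t - ‖g x‖) ^ 2 =
          (t * t) * ‖f x‖ ^ 2 + (-2 * t) * (‖f x‖ * ‖g x‖) + ‖g x‖ ^ 2 := fun x => by ring
      simp only [h5]
      have i1 : Integrable (fun x => (t * t) * ‖f x‖ ^ 2) μ := hf2.const_mul _
      have i2 : Integrable (fun x => (-2 * t) * (‖f x‖ * ‖g x‖)) μ := hfg.const_mul _
      have i3 : Integrable (fun x => (t * t) * ‖f x‖ ^ 2 + (-2 * t) * (‖f x‖ * ‖g x‖)) μ :=
        i1.add i2
      rw [integral_add i3 hg2, integral_add i1 i2, integral_const_mul, integral_const_mul]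
      ring
    rw [h4] at h3
    exact h3
  have h3 := discrim_le_zero h2
  unfold discrim at h3
  have h4 : (∫ x, ‖f x‖ * ‖g x‖ ∂μ) ^ 2 ≤ (∫ x, ‖f x‖ ^ 2 ∂μ) * ∫ x, ‖g x‖ ^ 2 ∂μ := by
    nlinarith [h3]
  exact (pow_le_pow_left₀ (norm_nonneg _) h1 2).trans h4

section
variable {Q : Type} (m : MeasurableSpace Q) [mQ : MeasurableSpace Q] [StandardBorelSpace Q]
  (ν : Measure Q) [IsProbabilityMeasure ν] (hm : m ≤ mQ) (S : Q ≃ᵐ Q) (hSm : TInv m S)

include hm hSm

/-- invariant kernel -/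
def KInv {Q : Type} (m : MeasurableSpace Q) [MeasurableSpace Q] [StandardBorelSpace Q]
    (ν : Measure Q) (S : Q ≃ᵐ Q) (A : (Fin 2 → Q) → ℂ) : Prop :=
  BM A ∧ (fun z => A (tTup S (Fin 2) z)) =ᵐ[relInd m ν (Fin 2)] A

/-- **EF6.** Products of invariant kernels are invariant (EE1 and change of variables). -/
theorem KInv.kc (hS : MeasurePreserving S ν ν) {A B : (Fin 2 → Q) → ℂ} (hA : KInv m ν S A)
    (hB : KInv m ν S B) : KInv m ν S (kc m ν A B) := by
  have hA' : BM (fun z => A (tTup S (Fin 2) z)) := BMs.comp hA.1 (tTup S (Fin 2)).measurable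
  have hB' : BM (fun z => B (tTup S (Fin 2) z)) := BMs.comp hB.1 (tTup S (Fin 2)).measurable
  refine ⟨kc_bm m ν hm hA.1 hB.1, ?_⟩
  have h1 : (fun z => Pool.Agent.HK820.kc m ν A B (tTup S (Fin 2) z)) =ᵐ[relInd m ν (Fin 2)]
      Pool.Agent.HK820.kc m ν (fun z => A (tTup S (Fin 2) z)) (fun z => B (tTup S (Fin 2) z)) := by
    have h2 : ∀ᵐ z ∂(relInd m ν (Fin 2)),
        (condExpKernel ν m (z 0)).map S = condExpKernel ν m (S (z 0)) :=
      (relInd_eval m ν hm (0 : Fin 2)).quasiMeasurePreserving.ae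
        (condExpKernel_equiv m ν hm S hS hSm)
    filter_upwards [h2] with z hz
    show ∫ y, A ![S (z 0), y] * B ![y, S (z 1)] ∂(condExpKernel ν m (S (z 0))) =
      ∫ y, A (tTup S (Fin 2) ![z 0, y]) * B (tTup S (Fin 2) ![y, z 1]) ∂(condExpKernel ν m (z 0))
    rw [← hz, integral_map_equiv]
    refine integral_congr_ae (Eventually.of_forall fun y => ?_)
    show A ![S (z 0), S y] * B ![S y, S (z 1)] =
      A (tTup S (Fin 2) ![z 0, y]) * B (tTup S (Fin 2) ![y, z 1])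
    rw [EF2_tTup, EF2_tTup]
  exact h1.trans (kc_congr m ν hm hA' hB' hA.1 hB.1 hA.2 hB.2)

/-- **EF7.** Row norms of invariant kernels are constant (`fibre_const` for `‖A‖²`). -/
theorem KInv.row (hS : Ergodic S ν) {A : (Fin 2 → Q) → ℂ} (hA : KInv m ν S A) :
    ∀ᵐ x ∂ν, ∫ y, ‖A ![x, y]‖ ^ 2 ∂(condExpKernel ν m x) = kn m ν A := by
  have hN : BM (fun z => ((‖A z‖ ^ 2 : ℝ) : ℂ)) := EF2_bm_sq hA.1
  have hi : (fun z => ((‖A (tTup S (Fin 2) z)‖ ^ 2 : ℝ) : ℂ)) =ᵐ[relInd m ν (Fin 2)]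
      fun z => ((‖A z‖ ^ 2 : ℝ) : ℂ) := by
    filter_upwards [hA.2] with z hz
    have hz' : A (tTup S (Fin 2) z) = A z := hz
    rw [hz']
  filter_upwards [fibre_const m ν hm S hS hSm hN hi] with x hx
  have hx' : ((∫ y, ‖A ![x, y]‖ ^ 2 ∂(condExpKernel ν m x) : ℝ) : ℂ) =
      ((∫ z, ‖A z‖ ^ 2 ∂(relInd m ν (Fin 2)) : ℝ) : ℂ) := by
    exact (integral_ofReal (𝕜 := ℂ)).symm.trans (hx.trans (integral_ofReal (𝕜 := ℂ)))
  exact Complex.ofReal_injective hx'

/-- column norms -/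
theorem KInv.col (hS : Ergodic S ν) {A : (Fin 2 → Q) → ℂ} (hA : KInv m ν S A) :
    ∀ᵐ x ∂ν, ∫ y, ‖A ![y, x]‖ ^ 2 ∂(condExpKernel ν m x) = kn m ν A := by
  have hadj : KInv m ν S (adj A) := by
    refine ⟨adj_bm m hm hA.1, ?_⟩
    have h1 : (fun z => adj A (tTup S (Fin 2) z)) = adj (fun z => A (tTup S (Fin 2) z)) := by
      funext z
      show conj (A ![S (z 1), S (z 0)]) = conj (A (tTup S (Fin 2) ![z 1, z 0]))
      rw [EF2_tTup]
    rw [h1]
    exact adj_congr m ν hm hA.2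
  filter_upwards [KInv.row m ν hm S hSm hS hadj] with x hx
  rw [kn_adj m ν hm hA.1] at hx
  rw [← hx]
  refine integral_congr_ae (Eventually.of_forall fun y => ?_)
  show ‖A ![y, x]‖ ^ 2 = ‖conj (A ![y, x])‖ ^ 2
  rw [Complex.norm_conj]

/-- **EF8.** Pointwise bound of a product: `|A * B (x, x')|² ≤ (row norm)² (column norm)²`. -/
theorem KInv.kc_bound (hS : Ergodic S ν) {A B : (Fin 2 → Q) → ℂ} (hA : KInv m ν S A)
    (hB : KInv m ν S B) :
    ∀ᵐ z ∂(relInd m ν (Fin 2)), ‖Pool.Agent.HK820.kc m ν A B z‖ ^ 2 ≤ kn m ν A * kn m ν B := by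
  have hK := relA_prob m ν
  have h1 := (relInd_eval m ν hm (0 : Fin 2)).quasiMeasurePreserving.ae
    (KInv.row m ν hm S hSm hS hA)
  have h2 := (relInd_eval m ν hm (1 : Fin 2)).quasiMeasurePreserving.ae
    (KInv.col m ν hm S hSm hS hB)
  filter_upwards [h1, h2, EF2_ker_eq m ν hm] with z h3 h4 h5
  rw [← h3, ← h4, ← h5]
  have hAz : BM (fun y => A ![z 0, y]) := by
    refine BMs.comp hA.1 (measurable_pi_iff.2 fun i => ?_)
    fin_cases i
    · exact measurable_const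
    · exact measurable_id
  have hBz : BM (fun y => B ![y, z 1]) := by
    refine BMs.comp hB.1 (measurable_pi_iff.2 fun i => ?_)
    fin_cases i
    · exact measurable_id
    · exact measurable_const
  exact EF2_cs (condExpKernel ν m (z 0)) hAz hBz

theorem KInv.kn_kc (hS : Ergodic S ν) {A B : (Fin 2 → Q) → ℂ} (hA : KInv m ν S A)
    (hB : KInv m ν S B) : kn m ν (Pool.Agent.HK820.kc m ν A B) ≤ kn m ν A * kn m ν B := by
  have hP := relInd_prob m ν (Fin 2)
  have h1 := KInv.kc_bound m ν hm S hSm hS hA hB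
  have h2 : BM (Pool.Agent.HK820.kc m ν A B) := kc_bm m ν hm hA.1 hB.1
  have h3 : Integrable (fun z => ‖Pool.Agent.HK820.kc m ν A B z‖ ^ 2) (relInd m ν (Fin 2)) :=
    bas_int_sq h2 _
  have h4 := integral_mono_ae h3 (integrable_const (kn m ν A * kn m ν B)) h1
  rw [integral_const, probReal_univ, one_smul] at h4
  exact h4

end

end Pool.Agent.HK820

end
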