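import Pool.Agent.Lib_MP_820dd4_hk.EF2

open MeasureTheory ProbabilityTheory Filter Topology
open scoped ComplexConjugate ENNReal

namespace Pool.Agent.HK820

/-! ### The `L²` seminorm -/

/-- `L²` seminorm -/
noncomputable def egN {Z : Type} [MeasurableSpace Z] (R : Measure Z) (f : Z → ℂ) : ℝ :=
  (eLpNorm f 2 R).toReal

section
variable {Z : Type} [MeasurableSpace Z] {R : Measure Z}

theorem egN_nonneg (f : Z → ℂ) : 0 ≤ egN R f := ENNReal.toReal_nonneg

theorem egN_congr {f g : Z → ℂ} (h : f =ᵐ[R] g) : egN R f = egN R g := by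
  rw [egN, egN, eLpNorm_congr_ae h]

theorem egN_sq {f : Z → ℂ} (hf : MemLp f 2 R) : egN R f ^ 2 = ∫ z, ‖f z‖ ^ 2 ∂(R) := by
  have h0 : 0 ≤ ∫ z, ‖f z‖ ^ 2 ∂(R) := integral_nonneg fun z => by positivity
  have h1 := hf.eLpNorm_eq_integral_rpow_norm (by norm_num) (by norm_num)
  have h2 : ∫ z, ‖f z‖ ^ (2 : ℝ≥0∞).toReal ∂(R) = ∫ z, ‖f z‖ ^ 2 ∂(R) := by
    refine integral_congr_ae (Filter.Eventually.of_forall fun z => ?_)
    simp only [ENNReal.toReal_ofNat]
    exact Real.rpow_two _
  rw [h2, ENNReal.toReal_ofNat] at h1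
  rw [egN, h1, ENNReal.toReal_ofReal (Real.rpow_nonneg h0 _), ← Real.rpow_natCast,
    ← Real.rpow_mul h0]
  norm_num

theorem egN_add {f g : Z → ℂ} (hf : MemLp f 2 R) (hg : MemLp g 2 R) :
    egN R (fun z => f z + g z) ≤ egN R f + egN R g := by
  rw [egN, egN, egN, ← ENNReal.toReal_add hf.eLpNorm_ne_top hg.eLpNorm_ne_top]
  refine ENNReal.toReal_mono (ENNReal.add_ne_top.2 ⟨hf.eLpNorm_ne_top, hg.eLpNorm_ne_top⟩) ?_
  exact eLpNorm_add_le hf.aestronglyMeasurable hg.aestronglyMeasurable (by norm_num)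

theorem egN_sub_comm (f g : Z → ℂ) :
    egN R (fun z => f z - g z) = egN R (fun z => g z - f z) := by
  rw [egN, egN]
  congr 1
  refine eLpNorm_congr_norm_ae (Filter.Eventually.of_forall fun z => ?_)
  exact norm_sub_rev _ _

theorem egN_tri {f g h : Z → ℂ} (hf : MemLp f 2 R) (hg : MemLp g 2 R) (hh : MemLp h 2 R) :
    egN R (fun z => f z - h z) ≤ egN R (fun z => f z - g z) + egN R (fun z => g z - h z) := by
  have h1 := egN_add (hf.sub hg) (hg.sub hh)
  refine le_trans (le_of_eq ?_) h1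
  congr 1
  funext z
  simp

theorem egN_eq_zero {f : Z → ℂ} (hf : MemLp f 2 R) (h : egN R f = 0) : f =ᵐ[R] 0 := by
  rw [egN, ENNReal.toReal_eq_zero_iff] at h
  rcases h with h | h
  · exact (eLpNorm_eq_zero_iff hf.aestronglyMeasurable (by norm_num)).1 h
  · exact absurd h hf.eLpNorm_ne_top

theorem egN_mono {f g : Z → ℂ} (hg : MemLp g 2 R) (h : ∀ᵐ z ∂(R), ‖f z‖ ≤ ‖g z‖) :
    egN R f ≤ egN R g :=
  ENNReal.toReal_mono hg.eLpNorm_ne_top (eLpNorm_mono_ae h)

theorem egN_smul (c : ℝ) (f : Z → ℂ) : egN R (c • f) = |c| * egN R f := by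
  rw [egN, egN, eLpNorm_const_smul, ENNReal.toReal_mul]
  simp

theorem memLp_of_bm [IsProbabilityMeasure R] {f : Z → ℂ} (hf : BM f) : MemLp f 2 R := by
  obtain ⟨h1, C, h2⟩ := hf
  exact MemLp.of_bound h1.aestronglyMeasurable C (Filter.Eventually.of_forall h2)

theorem BM.real_smul {f : Z → ℂ} (hf : BM f) (c : ℝ) : BM (c • f) := by
  obtain ⟨h1, C, h2⟩ := hf
  refine ⟨h1.const_smul c, |c| * C, fun x => ?_⟩
  rw [Pi.smul_apply, norm_smul, Real.norm_eq_abs]
  exact mul_le_mul_of_nonneg_left (h2 x) (abs_nonneg _)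

end

/-! ### The clipping map -/

/-- clipping of a real number -/
noncomputable def egr (r : ℝ) : ℝ := max (-28) (min 28 r)

theorem egr_abs (r : ℝ) : |egr r| ≤ 28 := by
  rw [abs_le]
  constructor
  · exact le_max_left _ _
  · exact max_le (by norm_num) (min_le_left _ _)

theorem egr_sub {r s : ℝ} (hs : |s| ≤ 28) : |egr r - s| ≤ |r - s| := by
  rw [abs_le] at hs
  unfold egr
  rcases le_total r 28 with h | h
  · rw [min_eq_right h]
    rcases le_total (-28) r with h' | h'
    · rw [max_eq_right h']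
    · rw [max_eq_left h']
      rw [abs_of_nonpos (by linarith), abs_of_nonpos (by linarith)]
      linarith
  · rw [min_eq_left h, max_eq_right (by norm_num)]
    rw [abs_of_nonneg (by linarith), abs_of_nonneg (by linarith)]
    linarith

/-- clipping of a complex number -/
noncomputable def egc (w : ℂ) : ℂ := ⟨egr w.re, egr w.im⟩

theorem egc_norm (w : ℂ) : ‖egc w‖ ≤ 56 := by
  refine (Complex.norm_le_abs_re_add_abs_im _).trans ?_
  have h1 := egr_abs w.re
  have h2 := egr_abs w.im
  simp only [egc]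
  linarith

theorem egc_sub {w v : ℂ} (hv : ‖v‖ ≤ 28) : ‖egc w - v‖ ≤ ‖w - v‖ := by
  have h1 : |v.re| ≤ 28 := (Complex.abs_re_le_norm v).trans hv
  have h2 : |v.im| ≤ 28 := (Complex.abs_im_le_norm v).trans hv
  have h3 := egr_sub (r := w.re) h1
  have h4 := egr_sub (r := w.im) h2
  have h5 : ‖egc w - v‖ ^ 2 ≤ ‖w - v‖ ^ 2 := by
    rw [Complex.sq_norm, Complex.sq_norm, Complex.normSq_apply, Complex.normSq_apply]
    simp only [egc, Complex.sub_re, Complex.sub_im]
    have h6 := sq_le_sq' (neg_le_of_abs_le (h3.trans (le_of_eq (abs_abs _).symm) |>.trans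
      (le_of_eq (abs_abs _)))) (le_of_abs_le h3)
    have h7 := sq_le_sq' (neg_le_of_abs_le h4) (le_of_abs_le h4)
    rw [sq_abs] at h6 h7
    nlinarith
  exact (sq_le_sq₀ (norm_nonneg _) (norm_nonneg _)).1 h5

theorem egc_meas : Measurable egc := by
  have h1 : Measurable egr := (measurable_const.max (measurable_const.min measurable_id))
  have h2 : egc = fun w => ((egr w.re : ℝ) : ℂ) + ((egr w.im : ℝ) : ℂ) * Complex.I := by
    funext w
    apply Complex.ext <;> simp [egc]
  rw [h2]
  exact (Complex.measurable_ofReal.comp (h1.comp Complex.measurable_re)).add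
    ((Complex.measurable_ofReal.comp (h1.comp Complex.measurable_im)).mul_const _)

/-! ### The iteration on polynomials -/

open Polynomial in
/-- `pp n * X` is the `n`-th iterate of `3 x ^ 2 - 2 x ^ 3` -/
noncomputable def egp : ℕ → Polynomial ℝ
  | 0 => 1
  | n + 1 => (3 : ℝ) • (X * egp n * egp n) - (2 : ℝ) • (X * egp n * (X * egp n * egp n))

open Polynomial in
/-- the defect -/
noncomputable def egd (n : ℕ) : Polynomial ℝ := X * egp n * egp n - egp n

open Polynomial in
theorem egd_succ (n : ℕ) : egd (n + 1) =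
    X * egd n * ((4 : ℝ) • (X * egd n * egd n) - (3 : ℝ) • egd n) := by
  simp only [egd, egp, Polynomial.smul_eq_C_mul]
  simp only [map_ofNat]
  ring

open Polynomial in
theorem egp_succ_sub (n : ℕ) : egp (n + 1) - egp n = egd n - (2 : ℝ) • (X * egp n * egd n) := by
  simp only [egd, egp, Polynomial.smul_eq_C_mul]
  simp only [map_ofNat]
  ring

open Polynomial in
/-- the quantitative iteration for an abstract seminorm on the polynomials -/
theorem eg_abs (N : Polynomial ℝ → ℝ) (h0 : ∀ p, 0 ≤ N p) (hadd : ∀ p q, N (p + q) ≤ N p + N q)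
    (hsm : ∀ (c : ℝ) p, N (c • p) = |c| * N p) (hmul : ∀ p q, N (X * p * q) ≤ N p * N q)
    (h1 : N 1 ≤ 1) {a : ℝ} (ha0 : 0 ≤ a) (ha : N (X - 1) ≤ a) (ha' : a ≤ 1 / 100) (n : ℕ) :
    N (egd n) ≤ a * (7 / 100) ^ n ∧ N (egp n - 1) ≤ 6 * a * (1 - (7 / 100) ^ n) ∧
      N (egp n) ≤ 2 ∧ N (egp (n + 1) - egp n) ≤ 5 * a * (7 / 100) ^ n := by
  have hsub : ∀ p q, N (p - q) ≤ N p + N q := by
    intro p q
    have e1 : p - q = p + (-1 : ℝ) • q := by
      rw [neg_one_smul, sub_eq_add_neg]
    have e2 := hadd p ((-1 : ℝ) • q)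
    rw [hsm, abs_neg, abs_one, one_mul] at e2
    rw [e1]
    exact e2
  have hstep : ∀ n, N (egd n) ≤ a * (7 / 100) ^ n → N (egp n) ≤ 2 →
      N (egp (n + 1) - egp n) ≤ 5 * a * (7 / 100) ^ n := by
    intro n i1 i2
    rw [egp_succ_sub]
    refine (hsub _ _).trans ?_
    rw [hsm, abs_two]
    have e1 := hmul (egp n) (egd n)
    have e2 := h0 (egd n)
    have e3 : N (egp n) * N (egd n) ≤ 2 * N (egd n) := mul_le_mul_of_nonneg_right i2 e2
    nlinarith
  induction n with
  | zero =>
    have e1 : egd 0 = X - 1 := by simp [egd, egp]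
    have e2 : N (egd 0) ≤ a := by rw [e1]; exact ha
    have e3 : N (egp 0 - 1) = 0 := by
      have : egp 0 - 1 = (0 : ℝ) • (1 : Polynomial ℝ) := by simp [egp]
      rw [this, hsm, abs_zero, zero_mul]
    have e4 : N (egp 0) ≤ 2 := by
      simp only [egp]
      linarith
    refine ⟨by simpa using e2, by rw [e3]; simp, e4, ?_⟩
    exact hstep 0 (by simpa using e2) e4
  | succ n ih =>
    obtain ⟨i1, i2, i3, i4⟩ := ih
    have hr : (0 : ℝ) ≤ (7 / 100) ^ n := by positivity
    have hr1 : ((7 : ℝ) / 100) ^ n ≤ 1 := pow_le_one₀ (by norm_num) (by norm_num)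
    have j0 := h0 (egd n)
    have j1 : N (egd n) ≤ 1 / 100 := by nlinarith
    have e1 : N (egd (n + 1)) ≤ a * (7 / 100) ^ (n + 1) := by
      rw [egd_succ]
      refine (hmul _ _).trans ?_
      have e2 : N ((4 : ℝ) • (X * egd n * egd n) - (3 : ℝ) • egd n) ≤
          4 * (N (egd n) * N (egd n)) + 3 * N (egd n) := by
        refine (hsub _ _).trans ?_
        rw [hsm, hsm, abs_of_pos (by norm_num : (0 : ℝ) < 4),
          abs_of_pos (by norm_num : (0 : ℝ) < 3)]
        have := hmul (egd n) (egd n)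
        linarith
      have e3 : N ((4 : ℝ) • (X * egd n * egd n) - (3 : ℝ) • egd n) ≤ 7 / 100 := by
        nlinarith
      calc N (egd n) * N ((4 : ℝ) • (X * egd n * egd n) - (3 : ℝ) • egd n)
          ≤ (a * (7 / 100) ^ n) * (7 / 100) := mul_le_mul i1 e3 (h0 _) (by positivity)
        _ = a * (7 / 100) ^ (n + 1) := by ring
    have e4 : N (egp (n + 1) - 1) ≤ 6 * a * (1 - (7 / 100) ^ (n + 1)) := by
      have e5 : egp (n + 1) - 1 = (egp (n + 1) - egp n) + (egp n - 1) := by ring
      rw [e5]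
      refine (hadd _ _).trans ?_
      have e6 : 6 * a * (1 - (7 / 100 : ℝ) ^ (n + 1)) =
          6 * a * (1 - (7 / 100) ^ n) + 6 * a * (93 / 100) * (7 / 100) ^ n := by ring
      rw [e6]
      have e7 : 5 * a * (7 / 100 : ℝ) ^ n ≤ 6 * a * (93 / 100) * (7 / 100) ^ n := by
        have : 0 ≤ a * (7 / 100 : ℝ) ^ n := by positivity
        nlinarith
      linarith
    have e8 : N (egp (n + 1)) ≤ 2 := by
      have e9 : egp (n + 1) = (egp (n + 1) - 1) + 1 := by ring
      rw [e9]
      refine (hadd _ _).trans ?_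
      have : 0 ≤ a * (7 / 100 : ℝ) ^ (n + 1) := by positivity
      nlinarith
    exact ⟨e1, e4, e8, hstep (n + 1) e1 e8⟩

/-! ### Polynomials of a kernel -/

section
variable {Q : Type} (m : MeasurableSpace Q) [mQ : MeasurableSpace Q] [StandardBorelSpace Q]
  (ν : Measure Q) [IsProbabilityMeasure ν]

theorem eg_meas2 (x : Q) : Measurable (fun y : Q => (![x, y] : Fin 2 → Q)) := by
  refine measurable_pi_lambda _ fun i => ?_
  fin_cases i
  · exact measurable_const
  · exact measurable_id

theorem eg_meas1 (x : Q) : Measurable (fun y : Q => (![y, x] : Fin 2 → Q)) := by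
  refine measurable_pi_lambda _ fun i => ?_
  fin_cases i
  · exact measurable_id
  · exact measurable_const

theorem eg_int {A B : (Fin 2 → Q) → ℂ} (hA : BM A) (hB : BM B) (x x' : Q) :
    Integrable (fun y => A ![x, y] * B ![y, x']) (condExpKernel ν m x) := by
  have := relA_prob m ν x
  have h1 : BM (fun y => A ![x, y] * B ![y, x']) :=
    BMs.mul (BMs.comp hA (eg_meas2 x)) (BMs.comp hB (eg_meas1 x'))
  exact h1.integrable _

theorem kc_add_left {A B C : (Fin 2 → Q) → ℂ} (hA : BM A) (hB : BM B) (hC : BM C) :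
    kc m ν (A + B) C = kc m ν A C + kc m ν B C := by
  funext z
  simp only [kc, Pi.add_apply, add_mul]
  exact integral_add (eg_int m ν hA hC _ _) (eg_int m ν hB hC _ _)

theorem kc_add_right {A B C : (Fin 2 → Q) → ℂ} (hA : BM A) (hB : BM B) (hC : BM C) :
    kc m ν A (B + C) = kc m ν A B + kc m ν A C := by
  funext z
  simp only [kc, Pi.add_apply, mul_add]
  exact integral_add (eg_int m ν hA hB _ _) (eg_int m ν hA hC _ _)

theorem kc_smul_left (c : ℝ) (A B : (Fin 2 → Q) → ℂ) :
    kc m ν (c • A) B = c • kc m ν A B := by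
  funext z
  simp only [kc, Pi.smul_apply, smul_mul_assoc]
  exact integral_smul _ _

theorem kc_smul_right (c : ℝ) (A B : (Fin 2 → Q) → ℂ) :
    kc m ν A (c • B) = c • kc m ν A B := by
  funext z
  simp only [kc, Pi.smul_apply, mul_smul_comm]
  exact integral_smul _ _

/-- powers of a kernel: `egw n` is the power `n + 1` -/
noncomputable def egw (A : (Fin 2 → Q) → ℂ) : ℕ → (Fin 2 → Q) → ℂ
  | 0 => A
  | n + 1 => kc m ν A (egw A n)

/-- `egf A p` is the value of the polynomial `X * p` at the kernel `A` -/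
noncomputable def egf (A : (Fin 2 → Q) → ℂ) : Polynomial ℝ →ₗ[ℝ] ((Fin 2 → Q) → ℂ) :=
  Polynomial.lsum fun n => LinearMap.toSpanSingleton ℝ _ (egw m ν A n)

theorem egf_monomial (A : (Fin 2 → Q) → ℂ) (n : ℕ) (c : ℝ) :
    egf m ν A (Polynomial.monomial n c) = c • egw m ν A n := by
  rw [egf, Polynomial.lsum_apply, Polynomial.sum_monomial_index]
  · simp
  · simp

variable {m} {ν}

theorem egw_bm (hm : m ≤ mQ) {A : (Fin 2 → Q) → ℂ} (hA : BM A) (n : ℕ) : BM (egw m ν A n) := by
  induction n with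
  | zero => exact hA
  | succ n ih => exact kc_bm m ν hm hA ih

theorem egf_bm (hm : m ≤ mQ) {A : (Fin 2 → Q) → ℂ} (hA : BM A) (p : Polynomial ℝ) :
    BM (egf m ν A p) := by
  induction p using Polynomial.induction_on' with
  | add p q hp hq =>
    rw [map_add]
    exact BMs.add hp hq
  | monomial n c =>
    rw [egf_monomial]
    exact (egw_bm hm hA n).real_smul c

theorem egw_mul (hm : m ≤ mQ) {A : (Fin 2 → Q) → ℂ} (hA : BM A) (i j : ℕ) :
    kc m ν (egw m ν A i) (egw m ν A j) =ᵐ[relInd m ν (Fin 2)] egw m ν A (i + j + 1) := by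
  induction i with
  | zero =>
    rw [zero_add]
    exact Filter.EventuallyEq.rfl
  | succ i ih =>
    have h1 := kc_assoc m ν hm hA (egw_bm (ν := ν) hm hA i) (egw_bm (ν := ν) hm hA j)
    have h2 := kc_congr m ν hm hA (kc_bm m ν hm (egw_bm (ν := ν) hm hA i)
      (egw_bm (ν := ν) hm hA j)) hA (egw_bm (ν := ν) hm hA (i + j + 1)) Filter.EventuallyEq.rfl ih
    have h3 : i + 1 + j + 1 = (i + j + 1) + 1 := by ring
    rw [h3]
    exact h1.trans h2

theorem egf_mul (hm : m ≤ mQ) {A : (Fin 2 → Q) → ℂ} (hA : BM A) (p q : Polynomial ℝ) :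
    kc m ν (egf m ν A p) (egf m ν A q) =ᵐ[relInd m ν (Fin 2)]
      egf m ν A (Polynomial.X * p * q) := by
  induction p using Polynomial.induction_on' with
  | add p p' hp hp' =>
    rw [map_add, kc_add_left m ν (egf_bm hm hA _) (egf_bm hm hA _) (egf_bm hm hA _), mul_add,
      add_mul, map_add]
    exact hp.add hp'
  | monomial i c =>
    induction q using Polynomial.induction_on' with
    | add q q' hq hq' =>
      rw [map_add, kc_add_right m ν (egf_bm hm hA _) (egf_bm hm hA _) (egf_bm hm hA _), mul_add,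
        map_add]
      exact hq.add hq'
    | monomial j e =>
      rw [egf_monomial, egf_monomial, kc_smul_left, kc_smul_right]
      have h1 : Polynomial.X * Polynomial.monomial i c * Polynomial.monomial j e =
          Polynomial.monomial (i + j + 1) (c * e) := by
        rw [← Polynomial.monomial_one_one_eq_X, Polynomial.monomial_mul_monomial,
          Polynomial.monomial_mul_monomial, one_mul]
        have h0 : 1 + i + j = i + j + 1 := by ring
        rw [h0]
      rw [h1, egf_monomial, mul_smul]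
      exact ((egw_mul hm hA i j).const_smul e).const_smul c

theorem kinv_add {S : Q ≃ᵐ Q} {A B : (Fin 2 → Q) → ℂ} (hA : KInv m ν S A) (hB : KInv m ν S B) :
    KInv m ν S (A + B) := by
  refine ⟨BMs.add hA.1 hB.1, ?_⟩
  exact hA.2.add hB.2

theorem kinv_smul {S : Q ≃ᵐ Q} {A : (Fin 2 → Q) → ℂ} (hA : KInv m ν S A) (c : ℝ) :
    KInv m ν S (c • A) := by
  refine ⟨hA.1.real_smul c, ?_⟩
  exact hA.2.const_smul c

theorem kinv_sub {S : Q ≃ᵐ Q} {A B : (Fin 2 → Q) → ℂ} (hA : KInv m ν S A) (hB : KInv m ν S B) :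
    KInv m ν S (fun z => A z - B z) := by
  refine ⟨BMs.sub hA.1 hB.1, ?_⟩
  exact hA.2.sub hB.2

theorem egf_kinv (hm : m ≤ mQ) {S : Q ≃ᵐ Q} (hSm : TInv m S) (hS : MeasurePreserving S ν ν)
    {A : (Fin 2 → Q) → ℂ} (hA : KInv m ν S A) (p : Polynomial ℝ) : KInv m ν S (egf m ν A p) := by
  induction p using Polynomial.induction_on' with
  | add p q hp hq =>
    rw [map_add]
    exact kinv_add hp hq
  | monomial n c =>
    rw [egf_monomial]
    refine kinv_smul ?_ c
    induction n with
    | zero => exact hA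
    | succ n ih => exact KInv.kc m ν hm S hSm hS hA ih

theorem egf_adj (hm : m ≤ mQ) {A : (Fin 2 → Q) → ℂ} (hA : BM A)
    (hadj : adj A =ᵐ[relInd m ν (Fin 2)] A) (p : Polynomial ℝ) :
    adj (egf m ν A p) =ᵐ[relInd m ν (Fin 2)] egf m ν A p := by
  induction p using Polynomial.induction_on' with
  | add p q hp hq =>
    rw [map_add]
    have h1 : adj (egf m ν A p + egf m ν A q) = adj (egf m ν A p) + adj (egf m ν A q) := by
      funext z
      simp [adj]
    rw [h1]
    exact hp.add hq
  | monomial n c =>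
    rw [egf_monomial]
    have h1 : adj (c • egw m ν A n) = c • adj (egw m ν A n) := by
      funext z
      simp [adj]
    rw [h1]
    refine Filter.EventuallyEq.const_smul ?_ c
    clear h1
    induction n with
    | zero => exact hadj
    | succ n ih =>
      have h2 := adj_kc m ν hm hA (egw_bm (ν := ν) hm hA n)
      have h3 := kc_congr m ν hm (adj_bm m hm (egw_bm (ν := ν) hm hA n)) (adj_bm m hm hA)
        (egw_bm (ν := ν) hm hA n) hA ih hadj
      exact (h2.trans h3).trans (egw_mul hm hA n 0)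

end

/-- **EG.** From an almost idempotent invariant hermitian kernel to an idempotent one.

Proof. Write `A * B = kc m ν A B`, `N A = sqrt (kn A)` (a seminorm; Minkowski), `N (A * B) ≤ N A N B`
for invariant kernels (`KInv.kn_kc`). Put `A₀ = A`, `A_{n+1} = 3 A_n² - 2 A_n³` and
`a_n = N (A_n² - A_n)`. All `A_n` are invariant hermitian polynomials in `A` (they commute, up to
null sets: `kc_assoc`). As `A_{n+1}² - A_{n+1} = (A_n² - A_n)² * (4 (A_n² - A_n)) - 3 (A_n² - A_n)²`
(polynomial identity `(3x²-2x³)² - (3x²-2x³) = 4 (x²-x)³ - 3 (x²-x)²`), `a_{n+1} ≤ 4 a_n³ + 3 a_n² ≤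
7 a_n²`; and `A_{n+1} - A_n = (A_n² - A_n) - 2 A_n (A_n² - A_n)`, so `N (A_{n+1} - A_n) ≤
a_n (1 + 2 N A_n)`. With `a₀ ≤ 1/100`, `N A₀ ≤ 1`: by induction `a_n ≤ a₀ (7 / 100)^n`,
`N A_n ≤ 2`, `∑ N (A_{n+1} - A_n) ≤ 5 a₀ / (1 - 0.07) ≤ 6 a₀`. For `n ≥ 1`, `A_n` is bounded by
`3 * 4 + 2 * 8 = 28` almost everywhere (`KInv.kc_bound`). The sequence is Cauchy in `L²(R)`; its limit
`P` (choose a version bounded by `28`) is invariant and hermitian; `P * P = P` since
`N (P² - P) ≤ N (P² - A_n²) + a_n + N (A_n - P) → 0`. -/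
theorem exists_idem {Q : Type} (m : MeasurableSpace Q) [mQ : MeasurableSpace Q]
    [StandardBorelSpace Q] (ν : Measure Q) [IsProbabilityMeasure ν] (hm : m ≤ mQ) (S : Q ≃ᵐ Q)
    (hS : Ergodic S ν) (hSm : TInv m S) {A : (Fin 2 → Q) → ℂ} (hA : KInv m ν S A)
    (h1 : ∀ z, ‖A z‖ ≤ 1) (hadj : adj A =ᵐ[relInd m ν (Fin 2)] A) {a : ℝ} (ha0 : 0 ≤ a)
    (ha : kn m ν (fun z => kc m ν A A z - A z) ≤ a ^ 2) (ha' : a ≤ 1 / 100) :
    ∃ P : (Fin 2 → Q) → ℂ, KInv m ν S P ∧ adj P =ᵐ[relInd m ν (Fin 2)] P ∧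
      kc m ν P P =ᵐ[relInd m ν (Fin 2)] P ∧ kn m ν (fun z => P z - A z) ≤ (6 * a) ^ 2 := by
  have hSp : MeasurePreserving S ν ν := hS.toMeasurePreserving
  have hR : IsProbabilityMeasure (relInd m ν (Fin 2)) := relInd_prob m ν (Fin 2)
  set R : Measure (Fin 2 → Q) := relInd m ν (Fin 2) with hRdef
  -- polynomials of `A`
  have fb : ∀ p, BM (egf m ν A p) := egf_bm hm hA.1
  have fL : ∀ p, MemLp (egf m ν A p) 2 R := fun p => memLp_of_bm (fb p)
  have fk : ∀ p, KInv m ν S (egf m ν A p) := egf_kinv hm hSm hSp hA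
  have knN : ∀ {f : (Fin 2 → Q) → ℂ}, BM f → kn m ν f = egN R f ^ 2 := fun hf =>
    (egN_sq (memLp_of_bm hf)).symm
  have hkc : ∀ {f g : (Fin 2 → Q) → ℂ}, KInv m ν S f → KInv m ν S g →
      egN R (kc m ν f g) ≤ egN R f * egN R g := by
    intro f g hf hg
    have e1 := KInv.kn_kc m ν hm S hSm hS hf hg
    rw [knN (kc_bm m ν hm hf.1 hg.1), knN hf.1, knN hg.1, ← mul_pow] at e1
    exact (sq_le_sq₀ (egN_nonneg _) (mul_nonneg (egN_nonneg _) (egN_nonneg _))).1 e1
  have f1 : egf m ν A 1 = A := by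
    have : (1 : Polynomial ℝ) = Polynomial.monomial 0 1 := rfl
    rw [this, egf_monomial, one_smul]
    rfl
  have hab := eg_abs (fun p => egN R (egf m ν A p)) (fun p => egN_nonneg _)
    (fun p q => by
      simp only [map_add]
      exact egN_add (fL p) (fL q))
    (fun c p => by
      simp only [map_smul]
      exact egN_smul _ _)
    (fun p q => by
      rw [← egN_congr (egf_mul hm hA.1 p q)]
      exact hkc (fk p) (fk q))
    (by
      rw [f1]
      have e1 : egN R A ^ 2 ≤ 1 ^ 2 := by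
        rw [egN_sq (memLp_of_bm hA.1)]
        calc ∫ z, ‖A z‖ ^ 2 ∂(R) ≤ ∫ _, (1 : ℝ) ∂(R) := by
              refine integral_mono_of_nonneg (Filter.Eventually.of_forall fun z => by positivity)
                (integrable_const _) (Filter.Eventually.of_forall fun z => ?_)
              exact pow_le_one₀ (norm_nonneg _) (h1 z)
          _ = 1 ^ 2 := by simp
      exact (sq_le_sq₀ (egN_nonneg _) (by norm_num)).1 e1)
    ha0
    (by
      have e1 : egf m ν A (Polynomial.X - 1) =ᵐ[R] fun z => kc m ν A A z - A z := by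
        rw [map_sub, f1]
        have e2 : egf m ν A Polynomial.X = kc m ν A A := by
          have : (Polynomial.X : Polynomial ℝ) = Polynomial.monomial 1 1 := rfl
          rw [this, egf_monomial, one_smul]
          rfl
        rw [e2]
        exact Filter.EventuallyEq.rfl
      rw [egN_congr e1]
      rw [knN (BMs.sub (kc_bm m ν hm hA.1 hA.1) hA.1)] at ha
      exact (sq_le_sq₀ (egN_nonneg _) ha0).1 ha)
    ha'
  set f : ℕ → (Fin 2 → Q) → ℂ := fun n => egf m ν A (egp n) with hf
  have hfsub : ∀ n, egN R (fun z => f (n + 1) z - f n z) ≤ 5 * a * (7 / 100) ^ n := by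
    intro n
    have e1 := (hab n).2.2.2
    rw [map_sub] at e1
    exact e1
  -- pointwise bound
  have hbd : ∀ n, ∀ᵐ z ∂(R), ‖f (n + 1) z‖ ≤ 28 := by
    intro n
    have k1 := KInv.kc_bound m ν hm S hSm hS (fk (egp n)) (fk (egp n))
    have k2 := KInv.kc_bound m ν hm S hSm hS (fk (egp n)) (fk (Polynomial.X * egp n * egp n))
    have k3 := egf_mul hm hA.1 (egp n) (egp n) (ν := ν)
    have k4 := egf_mul hm hA.1 (egp n) (Polynomial.X * egp n * egp n) (ν := ν)
    have n1 := (hab n).2.2.1
    have n0 := egN_nonneg (R := R) (egf m ν A (egp n))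
    have n2 : egN R (egf m ν A (Polynomial.X * egp n * egp n)) ≤ 4 := by
      rw [← egN_congr k3]
      refine (hkc (fk _) (fk _)).trans ?_
      nlinarith
    have n3 := egN_nonneg (R := R) (egf m ν A (Polynomial.X * egp n * egp n))
    filter_upwards [k1, k2, k3, k4] with z z1 z2 z3 z4
    rw [knN (fb _)] at z1
    rw [knN (fb _), knN (fb _)] at z2
    have b1 : ‖kc m ν (egf m ν A (egp n)) (egf m ν A (egp n)) z‖ ≤ 4 := by
      refine (sq_le_sq₀ (norm_nonneg _) (by norm_num)).1 (z1.trans ?_)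
      have : egN R (egf m ν A (egp n)) ^ 2 ≤ 2 ^ 2 := pow_le_pow_left₀ n0 n1 2
      have h0 : 0 ≤ egN R (egf m ν A (egp n)) ^ 2 := by positivity
      nlinarith
    have b2 : ‖kc m ν (egf m ν A (egp n)) (egf m ν A (Polynomial.X * egp n * egp n)) z‖ ≤ 8 := by
      refine (sq_le_sq₀ (norm_nonneg _) (by norm_num)).1 (z2.trans ?_)
      have c1 : egN R (egf m ν A (egp n)) ^ 2 ≤ 2 ^ 2 := pow_le_pow_left₀ n0 n1 2
      have c2 : egN R (egf m ν A (Polynomial.X * egp n * egp n)) ^ 2 ≤ 4 ^ 2 :=
        pow_le_pow_left₀ n3 n2 2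
      calc egN R (egf m ν A (egp n)) ^ 2 *
            egN R (egf m ν A (Polynomial.X * egp n * egp n)) ^ 2 ≤ 2 ^ 2 * 4 ^ 2 :=
            mul_le_mul c1 c2 (by positivity) (by positivity)
        _ = 8 ^ 2 := by norm_num
    have e1 : f (n + 1) z = (3 : ℝ) • egf m ν A (Polynomial.X * egp n * egp n) z -
        (2 : ℝ) • egf m ν A (Polynomial.X * egp n * (Polynomial.X * egp n * egp n)) z := by
      simp only [hf, egp, map_sub, map_smul, Pi.sub_apply, Pi.smul_apply]
    rw [e1, ← z3, ← z4]
    refine (norm_sub_le _ _).trans ?_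
    rw [norm_smul, norm_smul]
    simp only [Real.norm_ofNat]
    linarith
  -- the limit in `L²`
  have hcau : CauchySeq (fun n => (fL (egp n)).toLp (egf m ν A (egp n))) := by
    refine cauchySeq_of_le_geometric (7 / 100) (5 * a) (by norm_num) fun n => ?_
    rw [dist_comm, Lp.dist_def]
    refine le_trans (le_of_eq ?_) (hfsub n)
    rw [egN]
    congr 1
    refine eLpNorm_congr_ae ?_
    filter_upwards [(fL (egp n)).coeFn_toLp, (fL (egp (n + 1))).coeFn_toLp] with z z1 z2
    simp only [Pi.sub_apply, z1, z2, hf]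
  obtain ⟨G, hG⟩ := cauchySeq_tendsto_of_complete hcau
  have hGm : Measurable (G : (Fin 2 → Q) → ℂ) := (Lp.stronglyMeasurable G).measurable
  have hGL : MemLp (G : (Fin 2 → Q) → ℂ) 2 R := Lp.memLp G
  have hlim : Tendsto (fun n => egN R (fun z => G z - f n z)) atTop (𝓝 0) := by
    have e1 := (tendsto_iff_dist_tendsto_zero.1 hG)
    refine e1.congr fun n => ?_
    rw [dist_comm, Lp.dist_def, egN]
    congr 1
    refine eLpNorm_congr_ae ?_
    filter_upwards [(fL (egp n)).coeFn_toLp] with z z1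
    simp only [Pi.sub_apply, z1, hf]
  set P : (Fin 2 → Q) → ℂ := fun z => egc (G z) with hP
  have hPb : BM P := ⟨egc_meas.comp hGm, 56, fun z => egc_norm _⟩
  have hPL : MemLp P 2 R := memLp_of_bm hPb
  have hPlim : Tendsto (fun n => egN R (fun z => P z - f (n + 1) z)) atTop (𝓝 0) := by
    have e1 : Tendsto (fun n => egN R (fun z => G z - f (n + 1) z)) atTop (𝓝 0) :=
      hlim.comp (tendsto_add_atTop_nat 1)
    refine squeeze_zero (fun n => egN_nonneg _) (fun n => ?_) e1
    refine egN_mono (hGL.sub (fL _)) ?_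
    filter_upwards [hbd n] with z hz
    exact egc_sub hz
  -- a tool
  have hzero : ∀ {g : (Fin 2 → Q) → ℂ} {C : ℝ}, BM g →
      (∀ n, egN R g ≤ C * egN R (fun z => P z - f (n + 1) z) + 0) → g =ᵐ[R] 0 := by
    intro g C hg h
    refine egN_eq_zero (memLp_of_bm hg) (le_antisymm ?_ (egN_nonneg _))
    have e1 : Tendsto (fun n => C * egN R (fun z => P z - f (n + 1) z) + 0) atTop
        (𝓝 (C * 0 + 0)) := (hPlim.const_mul C).add_const 0
    rw [mul_zero, add_zero] at e1
    exact ge_of_tendsto' e1 h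
  -- invariance
  have hPinv : KInv m ν S P := by
    refine ⟨hPb, ?_⟩
    have hT := relInd_tTup m ν hm S hSp hSm (Fin 2)
    have hgb : BM (fun z => P (tTup S (Fin 2) z) - P z) :=
      BMs.sub (BMs.comp hPb (tTup S (Fin 2)).measurable) hPb
    have key : (fun z => P (tTup S (Fin 2) z) - P z) =ᵐ[R] 0 := by
      refine hzero (C := 2) hgb fun n => ?_
      have e1 : egN R (fun z => P (tTup S (Fin 2) z) - f (n + 1) (tTup S (Fin 2) z)) =
          egN R (fun z => P z - f (n + 1) z) := by
        rw [egN, egN]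
        congr 1
        exact eLpNorm_comp_measurePreserving
          (g := fun z => P z - f (n + 1) z) ((hPL.sub (fL _)).aestronglyMeasurable) hT
      have e2 : egN R (fun z => f (n + 1) (tTup S (Fin 2) z) - P z) =
          egN R (fun z => f (n + 1) z - P z) := by
        refine egN_congr ?_
        filter_upwards [(fk (egp (n + 1))).2] with z hz
        simp only [hf] at hz ⊢
        rw [hz]
      have e3 : MemLp (fun z => P (tTup S (Fin 2) z)) 2 R :=
        memLp_of_bm (BMs.comp hPb (tTup S (Fin 2)).measurable)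
      have e4 : MemLp (fun z => f (n + 1) (tTup S (Fin 2) z)) 2 R :=
        memLp_of_bm (BMs.comp (fb _) (tTup S (Fin 2)).measurable)
      have e5 := egN_tri e3 e4 hPL
      rw [e1, e2, egN_sub_comm (f (n + 1)) P] at e5
      linarith
    filter_upwards [key] with z hz
    exact sub_eq_zero.1 hz
  refine ⟨P, hPinv, ?_, ?_, ?_⟩
  · -- hermitian
    have hgb : BM (fun z => adj P z - P z) := BMs.sub (adj_bm m hm hPb) hPb
    have key : (fun z => adj P z - P z) =ᵐ[R] 0 := by
      refine hzero (C := 2) hgb fun n => ?_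
      have e1 : egN R (fun z => adj P z - adj (f (n + 1)) z) =
          egN R (fun z => P z - f (n + 1) z) := by
        have b1 : BM (fun z => P z - f (n + 1) z) := BMs.sub hPb (fb _)
        have e2 : (fun z => adj P z - adj (f (n + 1)) z) = adj (fun z => P z - f (n + 1) z) := by
          funext z
          simp [adj]
        rw [e2]
        have e3 := kn_adj m ν hm b1
        rw [knN (adj_bm m hm b1), knN b1] at e3
        exact (pow_left_inj₀ (egN_nonneg _) (egN_nonneg _) (by norm_num)).1 e3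
      have e2 : egN R (fun z => adj (f (n + 1)) z - P z) =
          egN R (fun z => f (n + 1) z - P z) := by
        refine egN_congr ?_
        filter_upwards [egf_adj hm hA.1 hadj (egp (n + 1))] with z hz
        simp only [hf] at hz ⊢
        rw [hz]
      have e5 := egN_tri (memLp_of_bm (adj_bm m hm hPb))
        (memLp_of_bm (adj_bm m hm (fb (egp (n + 1))))) hPL (R := R)
      simp only [hf] at e1 e2 e5 ⊢
      rw [e1, e2, egN_sub_comm (egf m ν A (egp (n + 1))) P] at e5
      linarith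
    filter_upwards [key] with z hz
    exact sub_eq_zero.1 hz
  · -- idempotent
    have hgb : BM (fun z => kc m ν P P z - P z) := BMs.sub (kc_bm m ν hm hPb hPb) hPb
    have key : (fun z => kc m ν P P z - P z) =ᵐ[R] 0 := by
      refine egN_eq_zero (memLp_of_bm hgb) (le_antisymm ?_ (egN_nonneg _))
      have e1 : Tendsto (fun n => (egN R P + 3) * egN R (fun z => P z - f (n + 1) z) +
          a * (7 / 100) ^ (n + 1)) atTop (𝓝 ((egN R P + 3) * 0 + a * 0)) := by
        refine (hPlim.const_mul _).add (Tendsto.const_mul _ ?_)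
        exact (tendsto_pow_atTop_nhds_zero_of_lt_one (by norm_num) (by norm_num)).comp
          (tendsto_add_atTop_nat 1)
      rw [mul_zero, mul_zero, add_zero] at e1
      refine ge_of_tendsto' e1 fun n => ?_
      have hs : KInv m ν S (fun z => P z - f (n + 1) z) := kinv_sub hPinv (fk _)
      have c0 : egN R (f (n + 1)) ≤ 2 := (hab (n + 1)).2.2.1
      -- first term
      have c1 : (fun z => kc m ν P P z - kc m ν (f (n + 1)) (f (n + 1)) z) =
          kc m ν (fun z => P z - f (n + 1) z) P +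
            kc m ν (f (n + 1)) (fun z => P z - f (n + 1) z) := by
        have d1 := kc_add_left m ν hs.1 (fb (egp (n + 1))) hPb
        have d2 := kc_add_right m ν (fb (egp (n + 1))) hs.1 (fb (egp (n + 1)))
        have d3 : ((fun z => P z - f (n + 1) z) + egf m ν A (egp (n + 1))) = P := by
          funext z
          simp [hf]
        rw [d3] at d1 d2
        funext z
        have d4 := congrFun d1 z
        have d5 := congrFun d2 z
        simp only [Pi.add_apply] at d4 d5 ⊢
        simp only [hf] at d4 d5 ⊢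
        rw [d4, d5]
        ring
      have c2 : egN R (fun z => kc m ν P P z - kc m ν (f (n + 1)) (f (n + 1)) z) ≤
          (egN R P + 2) * egN R (fun z => P z - f (n + 1) z) := by
        rw [c1]
        refine (egN_add (memLp_of_bm (kc_bm m ν hm hs.1 hPb))
          (memLp_of_bm (kc_bm m ν hm (fb _) hs.1))).trans ?_
        have d1 := hkc hs hPinv
        have d2 := hkc (fk (egp (n + 1))) hs
        have d3 := egN_nonneg (R := R) (fun z => P z - f (n + 1) z)
        simp only [hf] at d1 d2 d3 c0 ⊢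
        nlinarith
      have c3 : egN R (fun z => kc m ν (f (n + 1)) (f (n + 1)) z - f (n + 1) z) ≤
          a * (7 / 100) ^ (n + 1) := by
        refine le_trans (le_of_eq ?_) (hab (n + 1)).1
        refine egN_congr ?_
        filter_upwards [egf_mul hm hA.1 (egp (n + 1)) (egp (n + 1)) (ν := ν)] with z hz
        simp only [hf, egd, map_sub, Pi.sub_apply]
        rw [hz]
      have lk : MemLp (kc m ν (f (n + 1)) (f (n + 1))) 2 R :=
        memLp_of_bm (kc_bm m ν hm (fb _) (fb _))
      have c4 := egN_tri (memLp_of_bm (kc_bm m ν hm hPb hPb)) lk hPL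
      have c5 := egN_tri lk (fL (egp (n + 1))) hPL
      have c6 := egN_sub_comm (R := R) (f (n + 1)) P
      simp only [hf] at c2 c3 c4 c5 c6 ⊢
      rw [c6] at c5
      linarith
    filter_upwards [key] with z hz
    exact sub_eq_zero.1 hz
  · -- distance to `A`
    rw [knN (BMs.sub hPb hA.1)]
    refine pow_le_pow_left₀ (egN_nonneg _) ?_ 2
    have e1 : Tendsto (fun n => egN R (fun z => P z - f (n + 1) z) + 6 * a) atTop
        (𝓝 (0 + 6 * a)) := hPlim.add_const _
    rw [zero_add] at e1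
    refine ge_of_tendsto' e1 fun n => ?_
    have c1 := egN_tri hPL (fL (egp (n + 1))) (memLp_of_bm hA.1)
    have c2 : egN R (fun z => egf m ν A (egp (n + 1)) z - A z) ≤ 6 * a := by
      have d1 := (hab (n + 1)).2.1
      rw [map_sub, f1] at d1
      refine le_trans (show _ ≤ 6 * a * (1 - (7 / 100) ^ (n + 1)) from d1) ?_
      have : (0 : ℝ) ≤ a * (7 / 100) ^ (n + 1) := by positivity
      linarith
    simp only [hf]
    linarith

end Pool.Agent.HK820
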