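import Pool.Agent.Lib_MP_820dd4_hk.EF2
import Pool.Agent.Lib_MP_820dd4_hk.SP2

open MeasureTheory ProbabilityTheory Filter Topology
open scoped ComplexConjugate ENNReal

namespace Pool.Agent.HK820

theorem eh_meas2 {Q : Type} [MeasurableSpace Q] :
    Measurable (fun z : Q × Q => (![z.1, z.2] : Fin 2 → Q)) := by
  refine measurable_pi_iff.2 fun i => ?_
  fin_cases i
  · exact measurable_fst
  · exact measurable_snd

theorem eh_prod {Q : Type} [MeasurableSpace Q] {P : (Fin 2 → Q) → ℂ} (hP : BM P) :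
    BM (fun z : Q × Q => P ![z.1, z.2]) := BMs.comp hP eh_meas2

theorem eh_sec1 {Q : Type} [MeasurableSpace Q] {P : (Fin 2 → Q) → ℂ} (hP : BM P) (y : Q) :
    BM (fun t => P ![y, t]) :=
  BMs.comp (eh_prod hP) (p := fun t => (y, t)) measurable_prodMk_left

theorem eh_sec2 {Q : Type} [MeasurableSpace Q] {P : (Fin 2 → Q) → ℂ} (hP : BM P) (y : Q) :
    BM (fun t => P ![t, y]) :=
  BMs.comp (eh_prod hP) (p := fun t => (t, y)) measurable_prodMk_right

/-- Cauchy-Schwarz -/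
theorem eh_cs {Q : Type} [MeasurableSpace Q] (κ : Measure Q) [IsProbabilityMeasure κ]
    {f g : Q → ℂ} (hf : BM f) (hg : BM g) :
    ‖∫ t, f t * g t ∂κ‖ ^ 2 ≤ (∫ t, ‖f t‖ ^ 2 ∂κ) * ∫ t, ‖g t‖ ^ 2 ∂κ := by
  have i1 := bas_int_sq hf κ
  have i2 := bas_int_sq hg κ
  have i3 : Integrable (fun t => ‖f t‖ * ‖g t‖) κ := by
    have hfg : BM (fun t => f t * g t) := BMs.mul hf hg
    refine (hfg.integrable κ).norm.congr (ae_of_all _ fun t => ?_)
    exact norm_mul _ _
  obtain ⟨a, ha⟩ : ∃ a, a = ∫ t, ‖f t‖ ^ 2 ∂κ := ⟨_, rfl⟩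
  obtain ⟨b, hb⟩ : ∃ b, b = ∫ t, ‖f t‖ * ‖g t‖ ∂κ := ⟨_, rfl⟩
  obtain ⟨c, hc⟩ : ∃ c, c = ∫ t, ‖g t‖ ^ 2 ∂κ := ⟨_, rfl⟩
  have h0 : ‖∫ t, f t * g t ∂κ‖ ≤ b := by
    rw [hb]
    refine (norm_integral_le_integral_norm _).trans (le_of_eq ?_)
    exact integral_congr_ae (ae_of_all _ fun t => norm_mul _ _)
  have h3 : ∀ s : ℝ, 0 ≤ a * (s * s) + (2 * b) * s + c := by
    intro s
    have j1 : Integrable (fun t => (s * s) * ‖f t‖ ^ 2) κ := i1.const_mul _
    have j3 : Integrable (fun t => (2 * s) * (‖f t‖ * ‖g t‖)) κ := i3.const_mul _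
    have j4 : Integrable (fun t => (s * s) * ‖f t‖ ^ 2 + (2 * s) * (‖f t‖ * ‖g t‖)) κ := j1.add j3
    have h4 : a * (s * s) + (2 * b) * s + c = ∫ t, (s * ‖f t‖ + ‖g t‖) ^ 2 ∂κ := by
      have h5 : ∀ t, (s * ‖f t‖ + ‖g t‖) ^ 2 = (s * s) * ‖f t‖ ^ 2 + (2 * s) * (‖f t‖ * ‖g t‖) +
          ‖g t‖ ^ 2 := fun t => by ring
      simp only [h5]
      rw [integral_add j4 i2, integral_add j1 j3, integral_const_mul, integral_const_mul, ha, hb,
        hc]
      ring
    rw [h4]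
    exact integral_nonneg fun t => sq_nonneg _
  have h4 := discrim_le_zero h3
  unfold discrim at h4
  have h6 : ‖∫ t, f t * g t ∂κ‖ ^ 2 ≤ b ^ 2 := pow_le_pow_left₀ (norm_nonneg _) h0 2
  rw [← ha, ← hc]
  nlinarith

theorem eh_conj_mul (z : ℂ) : conj z * z = ((‖z‖ ^ 2 : ℝ) : ℂ) := by
  rw [Complex.conj_mul']
  push_cast
  rfl

theorem eh_int_sq {Q : Type} [MeasurableSpace Q] (κ : Measure Q) (f : Q → ℂ) :
    ∫ t, conj (f t) * f t ∂κ = ((∫ t, ‖f t‖ ^ 2 ∂κ : ℝ) : ℂ) := by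
  have h1 : ∫ t, conj (f t) * f t ∂κ = ∫ t, ((‖f t‖ ^ 2 : ℝ) : ℂ) ∂κ :=
    integral_congr_ae (ae_of_all _ fun t => eh_conj_mul _)
  rw [h1]
  exact integral_ofReal

theorem eh_lin4 {Q : Type} [MeasurableSpace Q] (κ : Measure Q) [IsProbabilityMeasure κ]
    {f₁ f₂ f₃ f₄ : Q → ℂ} (b₁ : BM f₁) (b₂ : BM f₂) (b₃ : BM f₃) (b₄ : BM f₄) :
    ∫ t, (f₁ t - f₂ t - f₃ t + f₄ t) ∂κ =
      ∫ t, f₁ t ∂κ - ∫ t, f₂ t ∂κ - ∫ t, f₃ t ∂κ + ∫ t, f₄ t ∂κ := by
  have c₁ : BM (fun t => f₁ t - f₂ t) := BMs.sub b₁ b₂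
  have c₂ : BM (fun t => f₁ t - f₂ t - f₃ t) := BMs.sub c₁ b₃
  rw [integral_add (c₂.integrable κ) (b₄.integrable κ), integral_sub (c₁.integrable κ)
    (b₃.integrable κ), integral_sub (b₁.integrable κ) (b₂.integrable κ)]

/-- **EH fibre lemma.** -/
theorem eh_fibre {Q : Type} [MeasurableSpace Q] (κ : Measure Q) [IsProbabilityMeasure κ]
    {P : (Fin 2 → Q) → ℂ} (hP : BM P) {u v : Q → ℂ} (hu : BM u) (hvm : BM v) {r V : ℝ}
    (hr : r < 2)
    (ha : ∀ᵐ y ∂κ, ∀ᵐ y' ∂κ, P ![y, y'] = conj (P ![y', y]))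
    (hb : ∀ᵐ y ∂κ, ∀ᵐ y' ∂κ, ∫ t, P ![y, t] * P ![t, y'] ∂κ = P ![y, y'])
    (hc : ∀ᵐ y ∂κ, ∫ t, ‖P ![y, t]‖ ^ 2 ∂κ = r)
    (hv : ∀ᵐ y ∂κ, v y = ∫ t, P ![y, t] * u t ∂κ)
    (hV : ∫ t, ‖v t‖ ^ 2 ∂κ = V) (hV0 : V ≠ 0) :
    ∀ᵐ y ∂κ, ‖v y‖ ^ 2 = V ∧ ∀ᵐ y' ∂κ, P ![y, y'] * V = v y * conj (v y') := by
  have hVpos : 0 < V := lt_of_le_of_ne (by rw [← hV]; exact integral_nonneg fun t => sq_nonneg _)
    hV0.symm
  have hVc : (V : ℂ) ≠ 0 := by exact_mod_cast hV0
  have hvv : ∫ t, conj (v t) * v t ∂κ = V := by rw [eh_int_sq, hV]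
  -- P v = v
  have h1 : ∀ᵐ y ∂κ, ∫ t, P ![y, t] * v t ∂κ = v y := by
    filter_upwards [hb, hv] with y hby hvy
    have e1 : ∫ t, P ![y, t] * v t ∂κ = ∫ t, ∫ s, P ![y, t] * (P ![t, s] * u s) ∂κ ∂κ := by
      refine integral_congr_ae ?_
      filter_upwards [hv] with t ht
      rw [ht, integral_const_mul]
    have hint : Integrable (Function.uncurry fun t s => P ![y, t] * (P ![t, s] * u s))
        (κ.prod κ) := by
      have hbm : BM (fun z : Q × Q => P ![y, z.1] * (P ![z.1, z.2] * u z.2)) :=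
        BMs.mul (BMs.comp (eh_sec1 hP y) measurable_fst)
          (BMs.mul (eh_prod hP) (BMs.comp hu measurable_snd))
      exact hbm.integrable _
    rw [e1, integral_integral_swap hint, hvy]
    refine integral_congr_ae ?_
    filter_upwards [hby] with s hs
    rw [← hs, ← integral_mul_const]
    refine integral_congr_ae (ae_of_all _ fun t => ?_)
    ring
  have h2 : ∀ᵐ y' ∂κ, ∫ t, conj (v t) * P ![t, y'] ∂κ = conj (v y') := by
    filter_upwards [h1, ha] with y' h1y hay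
    rw [← h1y, ← integral_conj]
    refine integral_congr_ae ?_
    filter_upwards [hay] with t ht
    rw [map_mul, ht, Complex.conj_conj]
    ring
  -- the difference
  obtain ⟨c, hcdef⟩ : ∃ c : ℂ, c = (V : ℂ)⁻¹ := ⟨_, rfl⟩
  have hcV : V * c = 1 := by rw [hcdef, mul_inv_cancel₀ hVc]
  have hcc : conj c = c := by rw [hcdef, map_inv₀, Complex.conj_ofReal]
  obtain ⟨p, hp⟩ : ∃ p : Q → Q → ℂ, ∀ y y', p y y' = P ![y, y'] - v y * conj (v y') * c :=
    ⟨_, fun _ _ => rfl⟩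
  have hpm : ∀ y, BM (p y) := by
    intro y
    have : p y = fun t => P ![y, t] - v y * conj (v t) * c := funext (hp y)
    rw [this]
    exact BMs.sub (eh_sec1 hP y) (BMs.mul (BMs.mul (BMs.const _ _) (BMs.conj hvm)) (BMs.const _ _))
  have hpm' : ∀ y, BM (fun t => p t y) := by
    intro y
    have : (fun t => p t y) = fun t => P ![t, y] - v t * conj (v y) * c := funext fun t => hp t y
    rw [this]
    exact BMs.sub (eh_sec2 hP y) (BMs.mul (BMs.mul hvm (BMs.const _ _)) (BMs.const _ _))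
  -- rows
  have h4 : ∀ᵐ y ∂κ, ∫ t, ‖p y t‖ ^ 2 ∂κ = r - ‖v y‖ ^ 2 / V := by
    filter_upwards [h1, hc] with y h1y hcy
    have e1 : ((∫ t, ‖p y t‖ ^ 2 ∂κ : ℝ) : ℂ) = ((r - ‖v y‖ ^ 2 / V : ℝ) : ℂ) := by
      rw [← eh_int_sq]
      have e2 : ∀ t, conj (p y t) * p y t = conj (P ![y, t]) * P ![y, t] -
          (conj (v y) * c) * (P ![y, t] * v t) - (v y * c) * conj (P ![y, t] * v t) +
          (v y * conj (v y) * c * c) * (conj (v t) * v t) := by
        intro t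
        rw [hp, map_sub, map_mul, map_mul, hcc, Complex.conj_conj, map_mul]
        ring
      simp only [e2]
      have b1 : BM (fun t => conj (P ![y, t]) * P ![y, t]) :=
        BMs.mul (BMs.conj (eh_sec1 hP y)) (eh_sec1 hP y)
      have b2 : BM (fun t => P ![y, t] * v t) := BMs.mul (eh_sec1 hP y) hvm
      have b3 : BM (fun t => (conj (v y) * c) * (P ![y, t] * v t)) := BMs.mul (BMs.const _ _) b2
      have b4 : BM (fun t => (v y * c) * conj (P ![y, t] * v t)) :=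
        BMs.mul (BMs.const _ _) (BMs.conj b2)
      have b5 : BM (fun t => (v y * conj (v y) * c * c) * (conj (v t) * v t)) :=
        BMs.mul (BMs.const _ _) (BMs.mul (BMs.conj hvm) hvm)
      rw [eh_lin4 κ b1 b3 b4 b5, integral_const_mul,
        integral_const_mul, integral_const_mul, integral_conj, h1y, hvv, eh_int_sq, hcy]
      have e3 : (((r - ‖v y‖ ^ 2 / V : ℝ)) : ℂ) = r - (conj (v y) * v y) * c := by
        rw [eh_conj_mul, hcdef]
        push_cast
        ring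
      rw [e3]
      linear_combination (v y * conj (v y) * c) * hcV
    exact_mod_cast e1
  -- columns
  have h5 : ∀ᵐ y ∂κ, ∫ t, ‖p t y‖ ^ 2 ∂κ = r - ‖v y‖ ^ 2 / V := by
    filter_upwards [h4, ha] with y h4y hay
    rw [← h4y]
    refine integral_congr_ae ?_
    filter_upwards [hay] with t ht
    have e1 : p t y = conj (p y t) := by
      rw [hp, hp, map_sub, map_mul, map_mul, hcc, Complex.conj_conj, ht, Complex.conj_conj]
      ring
    rw [e1, Complex.norm_conj]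
  -- idempotent
  have h6 : ∀ᵐ y ∂κ, ∀ᵐ y' ∂κ, ∫ t, p y t * p t y' ∂κ = p y y' := by
    filter_upwards [h1, hb] with y h1y hby
    filter_upwards [hby, h2] with y' hy' h2y'
    have e2 : ∀ t, p y t * p t y' = P ![y, t] * P ![t, y'] -
        (conj (v y') * c) * (P ![y, t] * v t) - (v y * c) * (conj (v t) * P ![t, y']) +
        (v y * conj (v y') * c * c) * (conj (v t) * v t) := by
      intro t
      rw [hp, hp]
      ring
    simp only [e2]
    have b1 : BM (fun t => P ![y, t] * P ![t, y']) := BMs.mul (eh_sec1 hP y) (eh_sec2 hP y')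
    have b3 : BM (fun t => (conj (v y') * c) * (P ![y, t] * v t)) :=
      BMs.mul (BMs.const _ _) (BMs.mul (eh_sec1 hP y) hvm)
    have b4 : BM (fun t => (v y * c) * (conj (v t) * P ![t, y'])) :=
      BMs.mul (BMs.const _ _) (BMs.mul (BMs.conj hvm) (eh_sec2 hP y'))
    have b5 : BM (fun t => (v y * conj (v y') * c * c) * (conj (v t) * v t)) :=
      BMs.mul (BMs.const _ _) (BMs.mul (BMs.conj hvm) hvm)
    rw [eh_lin4 κ b1 b3 b4 b5, integral_const_mul,
      integral_const_mul, integral_const_mul, h1y, h2y', hvv, hy', hp]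
    linear_combination (v y * conj (v y') * c) * hcV
  -- the rows vanish
  have hint : Integrable (fun y => r - ‖v y‖ ^ 2 / V) κ :=
    (integrable_const r).sub ((bas_int_sq hvm κ).div_const V)
  have hint1 : ∫ y, (r - ‖v y‖ ^ 2 / V) ∂κ = r - 1 := by
    rw [integral_sub (integrable_const r) ((bas_int_sq hvm κ).div_const V), integral_div, hV,
      div_self hV0]
    simp
  have h7 : ∀ᵐ y ∂κ, ∫ t, ‖p y t‖ ^ 2 ∂κ = 0 := by
    filter_upwards [h6] with y h6y
    have e1 : ∫ y', ‖p y y'‖ ^ 2 ∂κ ≤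
        ∫ y', (∫ t, ‖p y t‖ ^ 2 ∂κ) * (r - ‖v y'‖ ^ 2 / V) ∂κ := by
      refine integral_mono_ae (bas_int_sq (hpm y) κ) (hint.const_mul _) ?_
      filter_upwards [h6y, h5] with y' hy' h5y'
      rw [← h5y', ← hy']
      exact eh_cs κ (hpm y) (hpm' y')
    rw [integral_const_mul, hint1] at e1
    have e2 : 0 ≤ ∫ t, ‖p y t‖ ^ 2 ∂κ := integral_nonneg fun t => sq_nonneg _
    nlinarith
  have hr1 : r = 1 := by
    have e1 : ∀ᵐ y ∂κ, r - ‖v y‖ ^ 2 / V = 0 := by
      filter_upwards [h4, h7] with y h4y h7y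
      rw [← h4y, h7y]
    have e2 : ∫ y, (r - ‖v y‖ ^ 2 / V) ∂κ = 0 := by
      rw [integral_congr_ae e1]
      simp
    rw [hint1] at e2
    linarith
  filter_upwards [h4, h7] with y h4y h7y
  constructor
  · rw [h7y, hr1] at h4y
    have : ‖v y‖ ^ 2 / V = 1 := by linarith
    rwa [div_eq_one_iff_eq hV0] at this
  · have e1 : (fun t => ‖p y t‖ ^ 2) =ᵐ[κ] 0 :=
      (integral_eq_zero_iff_of_nonneg (fun t => sq_nonneg _) (bas_int_sq (hpm y) κ)).1 h7y
    filter_upwards [e1] with t ht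
    have e2 : p y t = 0 := by
      have : ‖p y t‖ ^ 2 = 0 := ht
      exact norm_eq_zero.1 (pow_eq_zero_iff (two_ne_zero) |>.1 this)
    rw [hp] at e2
    linear_combination (V : ℂ) * e2 + (v y * conj (v t)) * hcV

section
variable {Q : Type} (m : MeasurableSpace Q) [mQ : MeasurableSpace Q] [StandardBorelSpace Q]
  (ν : Measure Q) [IsProbabilityMeasure ν]

theorem eh_ae_relInd (hm : m ≤ mQ) {p : (Fin 2 → Q) → Prop} (hp : MeasurableSet {z | p z})
    (h : ∀ᵐ x ∂ν, ∀ᵐ y ∂(condExpKernel ν m x), p ![x, y]) :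
    ∀ᵐ z ∂(relInd m ν (Fin 2)), p z := by
  have := relC_markov m ν
  rw [relC_two m ν hm]
  have hmeas := eh_meas2 (Q := Q)
  rw [ae_map_iff hmeas.aemeasurable hp]
  exact Measure.ae_compProd_of_ae_ae (hmeas hp) h

theorem eh_fib (hm : m ≤ mQ) {p : Q → Q → Prop}
    (h : ∀ᵐ z ∂(relInd m ν (Fin 2)), p (z 0) (z 1)) :
    ∀ᵐ x ∂ν, ∀ᵐ y ∂(condExpKernel ν m x), ∀ᵐ y' ∂(condExpKernel ν m x), p y y' := by
  have h1 := ae_relInd_two m ν hm h
  have h2 := ae_ae_condExpKernel m ν hm h1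
  have h3 := condExpKernel_self m ν hm
  filter_upwards [h2, h3] with x e2 e3
  filter_upwards [e2, e3] with y e2y e3y
  rwa [e3y] at e2y

theorem eh_desc (hm : m ≤ mQ) {g : Q → Prop} (hg : MeasurableSet {y | g y})
    (h : ∀ᵐ x ∂ν, ∀ᵐ y ∂(condExpKernel ν m x), g y) : ∀ᵐ y ∂ν, g y := by
  have h1 : ν {y | g y}ᶜ = 0 := by
    have h2 := bind_condExpKernel m ν hm
    have h3 : (ν.bind (fun x => condExpKernel ν m x)) {y | g y}ᶜ = 0 := by
      rw [Measure.bind_apply hg.compl (relA_meas m ν).aemeasurable, lintegral_eq_zero_iff]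
      · exact h
      · exact (Measure.measurable_coe hg.compl).comp (relA_meas m ν)
    rwa [h2] at h3
  exact h1

theorem eh_meas_all {q : Q → Q → Prop} (hq : MeasurableSet {z : Q × Q | q z.1 z.2}) :
    MeasurableSet {y | ∀ᵐ y' ∂(condExpKernel ν m y), q y y'} := by
  have := relC_markov m ν
  have h1 : Measurable (fun y => (relC_ker m ν y) (Prod.mk y ⁻¹' {z : Q × Q | q z.1 z.2}ᶜ)) :=
    Kernel.measurable_kernel_prodMk_left hq.compl
  exact h1 (measurableSet_singleton 0)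

theorem eh_aem (hm : m ≤ mQ) {φ : Q → ℂ} (hφ : BM φ)
    (h : ∀ᵐ z ∂(relInd m ν (Fin 2)), φ (z 0) = φ (z 1)) : AEM m ν φ := by
  have h1 := ae_relInd_two m ν hm (P := fun x y => φ x = φ y) h
  rw [aem_iff_condExp m ν hm hφ]
  have h2 := condExp_ae_eq_integral_condExpKernel hm (hφ.integrable ν)
  have hP := relA_prob m ν
  filter_upwards [h1, h2] with x e1 e2
  rw [e2]
  have h3 : ∫ y, φ y ∂(condExpKernel ν m x) = ∫ _y, φ x ∂(condExpKernel ν m x) :=
    integral_congr_ae (by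
      filter_upwards [e1] with y hy
      exact hy.symm)
  rw [h3]
  simp

omit mQ [StandardBorelSpace Q] in
theorem eh_eta (z : Fin 2 → Q) : ![z 0, z 1] = z := by
  funext i
  fin_cases i <;> rfl

theorem eh_kn_two (hm : m ≤ mQ) {G : (Fin 2 → Q) → ℂ} (hG : BM G) :
    Integrable (fun x => ∫ y, ‖G ![x, y]‖ ^ 2 ∂(condExpKernel ν m x)) ν ∧
    kn m ν G = ∫ x, ∫ y, ‖G ![x, y]‖ ^ 2 ∂(condExpKernel ν m x) ∂ν := by
  have hP := relA_prob m ν
  have hK := relC_markov m ν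
  have hF : BM (fun z => conj (G z) * G z) := BMs.mul (BMs.conj hG) hG
  have h1 := integral_relInd_two m ν hm hF
  have h2 : ∀ x, ∫ y, conj (G ![x, y]) * G ![x, y] ∂(condExpKernel ν m x) =
      ((∫ y, ‖G ![x, y]‖ ^ 2 ∂(condExpKernel ν m x) : ℝ) : ℂ) := fun x =>
    eh_int_sq (condExpKernel ν m x) (fun y => G ![x, y])
  have h3 : Integrable (fun x => ∫ y, conj (G ![x, y]) * G ![x, y] ∂(relC_ker m ν x)) ν := by
    refine relC_int ν (relC_ker m ν) (f := fun z => conj (G ![z.1, z.2]) * G ![z.1, z.2]) ?_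
    have hF' : BM (fun z : Q × Q => conj (G ![z.1, z.2]) * G ![z.1, z.2]) :=
      BMs.mul (BMs.conj (eh_prod hG)) (eh_prod hG)
    exact hF'.integrable _
  constructor
  · have h4 := h3.re
    refine h4.congr (ae_of_all _ fun x => ?_)
    show RCLike.re (∫ y, conj (G ![x, y]) * G ![x, y] ∂(condExpKernel ν m x)) = _
    rw [h2]
    exact Complex.ofReal_re _
  · rw [eh_int_sq] at h1
    simp only [h2] at h1
    have h5 : ∫ x, ((∫ y, ‖G ![x, y]‖ ^ 2 ∂(condExpKernel ν m x) : ℝ) : ℂ) ∂ν =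
        ((∫ x, ∫ y, ‖G ![x, y]‖ ^ 2 ∂(condExpKernel ν m x) ∂ν : ℝ) : ℂ) := integral_ofReal
    rw [h5] at h1
    exact_mod_cast h1

omit [StandardBorelSpace Q] in
theorem eh_iter (S : Q ≃ᵐ Q) (n : ℕ) (z : Fin 2 → Q) (i : Fin 2) :
    ((tTup S (Fin 2))^[n] z) i = S^[n] (z i) := by
  induction n generalizing z with
  | zero => rfl
  | succ n ih =>
    rw [Function.iterate_succ_apply, Function.iterate_succ_apply, ih]
    rfl

omit [StandardBorelSpace Q] in
/-- visits to a set of positive measure -/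
theorem eh_visit (S : Q ≃ᵐ Q) (hS : Ergodic S ν) {E : Set Q} (hE : MeasurableSet E)
    (hE0 : ν E ≠ 0) : ∀ᵐ q ∂ν, ∃ n : ℕ, S^[n] q ∈ E := by
  obtain ⟨B, hB⟩ : ∃ B : Set Q, B = ⋃ n : ℕ, (S^[n]) ⁻¹' E := ⟨_, rfl⟩
  have hBm : MeasurableSet B := by
    rw [hB]
    exact MeasurableSet.iUnion fun n => (S.measurable.iterate n) hE
  have h1 : S ⁻¹' B ⊆ B := by
    intro q hq
    rw [hB] at hq ⊢
    obtain ⟨n, hn⟩ := Set.mem_iUnion.1 (show S q ∈ _ from hq)
    refine Set.mem_iUnion.2 ⟨n + 1, ?_⟩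
    show S^[n + 1] q ∈ E
    rw [Function.iterate_succ_apply]
    exact hn
  have h2 := hS.ae_empty_or_univ_of_preimage_ae_le hBm.nullMeasurableSet
    (LE.le.eventuallyLE h1)
  rcases h2 with h2 | h2
  · exfalso
    apply hE0
    have h3 : ν B = 0 := ae_eq_empty.1 h2
    refine measure_mono_null ?_ h3
    rw [hB]
    exact Set.subset_iUnion (fun n : ℕ => (S^[n]) ⁻¹' E) 0
  · have h3 : ∀ᵐ q ∂ν, q ∈ B := by
      filter_upwards [h2] with q hq
      exact (iff_of_eq hq).2 trivial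
    filter_upwards [h3] with q hq
    rw [hB] at hq
    exact Set.mem_iUnion.1 hq

/-- the vector `v = P u` and the set `E` where it does not vanish on the fibre -/
theorem eh_local (hm : m ≤ mQ) (S : Q ≃ᵐ Q)
    (hS : Ergodic S ν) (hSm : TInv m S) {u : Q → ℂ} (hu : Measurable u) (h1 : ∀ q, ‖u q‖ = 1)
    {P : (Fin 2 → Q) → ℂ} (hP : KInv m ν S P) (hadj : adj P =ᵐ[relInd m ν (Fin 2)] P)
    (hidem : kc m ν P P =ᵐ[relInd m ν (Fin 2)] P)
    (hclose : kn m ν (fun z => P z - u (z 0) * conj (u (z 1))) ≤ 1 / 16) :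
    ∃ (E : Set Q) (u₀ : Q → ℂ), MeasurableSet[m] E ∧ ν E ≠ 0 ∧ Measurable u₀ ∧
      (∀ q, ‖u₀ q‖ = 1) ∧
      ∀ᵐ z ∂(relInd m ν (Fin 2)), z 0 ∈ E → P z = u₀ (z 0) * conj (u₀ (z 1)) := by
  have hK := relA_prob m ν
  have hbu : BM u := ⟨hu, 1, fun q => (h1 q).le⟩
  have hPb : BM P := hP.1
  obtain ⟨w, hw⟩ : ∃ w : (Fin 2 → Q) → ℂ, w = fun z => u (z 0) * conj (u (z 1)) := ⟨_, rfl⟩
  have hwb : BM w := by
    rw [hw]
    exact BMs.mul (BMs.comp hbu (measurable_pi_apply 0))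
      (BMs.conj (BMs.comp hbu (measurable_pi_apply 1)))
  have hw1 : ∀ z, ‖w z‖ = 1 := by
    intro z
    rw [hw]
    simp [h1]
  have hG : BM (fun z => P z - w z) := BMs.sub hPb hwb
  have hclose' : kn m ν (fun z => P z - w z) ≤ 1 / 16 := by
    rw [hw]
    exact hclose
  -- the trace is less than 2
  have hr : kn m ν P < 2 := by
    have hRP := relInd_prob m ν (Fin 2)
    have e1 : kn m ν P ≤ 5 / 4 + 5 * kn m ν (fun z => P z - w z) := by
      have e2 : ∫ z, ‖P z‖ ^ 2 ∂(relInd m ν (Fin 2)) ≤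
          ∫ z, (5 / 4 + 5 * ‖P z - w z‖ ^ 2) ∂(relInd m ν (Fin 2)) := by
        refine integral_mono (bas_int_sq hPb _)
          ((integrable_const _).add ((bas_int_sq hG _).const_mul _)) fun z => ?_
        have e3 : ‖P z‖ ≤ 1 + ‖P z - w z‖ := by
          have := norm_add_le (w z) (P z - w z)
          rwa [add_sub_cancel, hw1] at this
        have e4 := norm_nonneg (P z)
        have e5 := norm_nonneg (P z - w z)
        show ‖P z‖ ^ 2 ≤ 5 / 4 + 5 * ‖P z - w z‖ ^ 2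
        nlinarith [sq_nonneg (1 - 4 * ‖P z - w z‖)]
      rw [integral_add (integrable_const _) ((bas_int_sq hG _).const_mul _),
        integral_const_mul] at e2
      simpa [kn] using e2
    linarith
  -- the function `v`
  obtain ⟨v, hv⟩ : ∃ v : Q → ℂ, ∀ x, v x = ∫ t, P ![x, t] * u t ∂(condExpKernel ν m x) :=
    ⟨_, fun _ => rfl⟩
  have hvb : BM v := by
    have hB : BM (fun z : Fin 2 → Q => u (z 0)) := BMs.comp hbu (measurable_pi_apply 0)
    have h2 : BM (fun x : Q => kc m ν P (fun z : Fin 2 → Q => u (z 0)) ![x, x]) :=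
      BMs.comp (kc_bm m ν hm hPb hB) (p := fun x : Q => (![x, x] : Fin 2 → Q))
        (measurable_pi_iff.2 fun i => by fin_cases i <;> exact measurable_id)
    have h3 : v = fun x : Q => kc m ν P (fun z : Fin 2 → Q => u (z 0)) ![x, x] := by
      funext x
      rw [hv]
      rfl
    rw [h3]
    exact h2
  obtain ⟨W, hW⟩ : ∃ W : Q → ℝ≥0∞, ∀ x, W x = ∫⁻ t, ‖v t‖ₑ ∂(condExpKernel ν m x) :=
    ⟨_, fun _ => rfl⟩
  have hWm : Measurable[m] W := by
    have : W = fun x => ∫⁻ t, ‖v t‖ₑ ∂(condExpKernel ν m x) := funext hW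
    rw [this]
    exact hvb.1.enorm.lintegral_kernel (κ := condExpKernel ν m)
  obtain ⟨E, hE⟩ : ∃ E : Set Q, E = {x | W x ≠ 0} := ⟨_, rfl⟩
  have hEm : MeasurableSet[m] E := by
    rw [hE]
    exact @MeasurableSet.compl _ _ m (hWm (measurableSet_singleton 0))
  have hEm' : MeasurableSet E := hm _ hEm
  have hW0 : ∀ x, W x = 0 → ∀ᵐ t ∂(condExpKernel ν m x), v t = 0 := by
    intro x hx
    rw [hW, lintegral_eq_zero_iff hvb.1.enorm] at hx
    filter_upwards [hx] with t ht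
    exact enorm_eq_zero.1 ht
  -- `E` has positive measure
  have hE0 : ν E ≠ 0 := by
    intro h0
    have h2 : ∀ᵐ x ∂ν, x ∉ E := measure_eq_zero_iff_ae_notMem.1 h0
    have h3 : ∀ᵐ y ∂ν, v y = 0 := by
      refine eh_desc m ν hm (g := fun y => v y = 0) (hvb.1 (measurableSet_singleton 0)) ?_
      filter_upwards [h2] with x hx
      refine hW0 x ?_
      rw [hE] at hx
      by_contra h4
      exact hx h4
    have h4 := eh_kn_two m ν hm hG
    have h5 : ∀ᵐ x ∂ν, 1 ≤ ∫ y, ‖P ![x, y] - w ![x, y]‖ ^ 2 ∂(condExpKernel ν m x) := by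
      filter_upwards [h3] with x hx
      have h6 := eh_cs (condExpKernel ν m x) (eh_sec1 hG x) hbu
      have h7 : ∫ t, (P ![x, t] - w ![x, t]) * u t ∂(condExpKernel ν m x) = -u x := by
        have h8 : ∀ t, (P ![x, t] - w ![x, t]) * u t = P ![x, t] * u t - u x := by
          intro t
          have h9 : w ![x, t] * u t = u x := by
            rw [hw]
            show u x * conj (u t) * u t = u x
            rw [mul_assoc, eh_conj_mul, h1 t]
            simp
          rw [sub_mul, h9]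
        simp only [h8]
        have h9 : BM (fun t => P ![x, t] * u t) := BMs.mul (eh_sec1 hPb x) hbu
        rw [integral_sub (h9.integrable _) (integrable_const _), ← hv, hx]
        simp
      have h8 : ∫ t, ‖u t‖ ^ 2 ∂(condExpKernel ν m x) = 1 := by
        simp [h1]
      have h9 : ‖∫ t, (P ![x, t] - w ![x, t]) * u t ∂(condExpKernel ν m x)‖ ^ 2 = 1 := by
        rw [h7, norm_neg, h1, one_pow]
      rw [h8, mul_one] at h6
      rw [← h9]
      exact h6
    have h6 : (1 : ℝ) ≤ kn m ν (fun z => P z - w z) := by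
      rw [h4.2]
      have h7 := integral_mono_ae (integrable_const (1 : ℝ)) h4.1 h5
      simpa using h7
    linarith
  -- the fibres
  have hself := condExpKernel_self m ν hm
  have fa : ∀ᵐ x ∂ν, ∀ᵐ y ∂(condExpKernel ν m x), ∀ᵐ y' ∂(condExpKernel ν m x),
      P ![y, y'] = conj (P ![y', y]) := by
    refine eh_fib m ν hm (p := fun y y' => P ![y, y'] = conj (P ![y', y])) ?_
    filter_upwards [hadj] with z hz
    rw [eh_eta]
    exact hz.symm
  have fb : ∀ᵐ x ∂ν, ∀ᵐ y ∂(condExpKernel ν m x), ∀ᵐ y' ∂(condExpKernel ν m x),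
      ∫ t, P ![y, t] * P ![t, y'] ∂(condExpKernel ν m y) = P ![y, y'] := by
    refine eh_fib m ν hm (p := fun y y' => ∫ t, P ![y, t] * P ![t, y'] ∂(condExpKernel ν m y) =
      P ![y, y']) ?_
    filter_upwards [hidem] with z hz
    rw [eh_eta]
    exact hz
  have fc := ae_ae_condExpKernel m ν hm (KInv.row m ν hm S hSm hS hP)
  have hloc : ∀ᵐ x ∂ν, x ∈ E → ∀ᵐ y ∂(condExpKernel ν m x), ∀ᵐ y' ∂(condExpKernel ν m x),
      ‖v y‖ ^ 2 ≠ 0 ∧ ‖v y‖ = ‖v y'‖ ∧ P ![y, y'] * ((‖v y‖ ^ 2 : ℝ) : ℂ) = v y * conj (v y') := by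
    filter_upwards [hself, fa, fb, fc] with x s1 a1 b1 c1 hx
    obtain ⟨V, hV⟩ : ∃ V : ℝ, V = ∫ t, ‖v t‖ ^ 2 ∂(condExpKernel ν m x) := ⟨_, rfl⟩
    have hV0 : V ≠ 0 := by
      intro h0
      rw [hE] at hx
      apply hx
      rw [hV] at h0
      have h2 := (integral_eq_zero_iff_of_nonneg (fun t => sq_nonneg _)
        (bas_int_sq hvb (condExpKernel ν m x))).1 h0
      rw [hW, lintegral_eq_zero_iff hvb.1.enorm]
      filter_upwards [h2] with t ht
      have h3 : ‖v t‖ ^ 2 = 0 := ht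
      exact enorm_eq_zero.2 (norm_eq_zero.1 (pow_eq_zero_iff two_ne_zero |>.1 h3))
    have h2 := eh_fibre (condExpKernel ν m x) hPb hbu hvb hr a1
      (by
        filter_upwards [s1, b1] with y sy by'
        rwa [sy] at by')
      (by
        filter_upwards [s1, c1] with y sy cy
        rwa [sy] at cy)
      (by
        filter_upwards [s1] with y sy
        rw [hv, sy])
      hV.symm hV0
    have h3 : ∀ᵐ y ∂(condExpKernel ν m x), ‖v y‖ ^ 2 = V := h2.mono fun y hy => hy.1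
    filter_upwards [h2] with y hy
    filter_upwards [hy.2, h3] with y' hy' h3'
    refine ⟨by rw [hy.1]; exact hV0, ?_, ?_⟩
    · rw [← Real.sqrt_sq (norm_nonneg (v y)), ← Real.sqrt_sq (norm_nonneg (v y')), hy.1, h3']
    · rw [hy.1]
      exact hy'
  -- the unimodular function
  obtain ⟨u₀, hu₀⟩ : ∃ u₀ : Q → ℂ, ∀ q, u₀ q = if v q = 0 then 1 else v q * ((‖v q‖ : ℂ))⁻¹ :=
    ⟨_, fun _ => rfl⟩
  have hu₀m : Measurable u₀ := by
    have : u₀ = fun q => if v q = 0 then 1 else v q * ((‖v q‖ : ℂ))⁻¹ := funext hu₀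
    rw [this]
    refine Measurable.ite (hvb.1 (measurableSet_singleton 0)) measurable_const ?_
    exact hvb.1.mul (Complex.measurable_ofReal.comp hvb.1.norm).inv
  have hu₀1 : ∀ q, ‖u₀ q‖ = 1 := by
    intro q
    rw [hu₀]
    by_cases hq : v q = 0
    · rw [if_pos hq, norm_one]
    · rw [if_neg hq, norm_mul, norm_inv, Complex.norm_real, norm_norm,
        mul_inv_cancel₀ (norm_ne_zero_iff.2 hq)]
  refine ⟨E, u₀, hEm, hE0, hu₀m, hu₀1, ?_⟩
  have hu₀b : BM u₀ := ⟨hu₀m, 1, fun q => (hu₀1 q).le⟩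
  have hq : MeasurableSet {z : Q × Q | z.1 ∈ E → P ![z.1, z.2] = u₀ z.1 * conj (u₀ z.2)} := by
    have e1 : {z : Q × Q | z.1 ∈ E → P ![z.1, z.2] = u₀ z.1 * conj (u₀ z.2)} =
        (Prod.fst ⁻¹' E)ᶜ ∪ {z : Q × Q | P ![z.1, z.2] = u₀ z.1 * conj (u₀ z.2)} := by
      ext z
      exact imp_iff_not_or
    rw [e1]
    refine (measurable_fst hEm').compl.union (measurableSet_eq_fun (eh_prod hPb).1 ?_)
    exact (hu₀m.comp measurable_fst).mul
      (Complex.continuous_conj.measurable.comp (hu₀m.comp measurable_snd))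
  have hd : ∀ᵐ y ∂ν, ∀ᵐ y' ∂(condExpKernel ν m y),
      y ∈ E → P ![y, y'] = u₀ y * conj (u₀ y') := by
    refine eh_desc m ν hm (g := fun y => ∀ᵐ y' ∂(condExpKernel ν m y),
      y ∈ E → P ![y, y'] = u₀ y * conj (u₀ y')) ?_ ?_
    · exact eh_meas_all m ν (q := fun y y' => y ∈ E → P ![y, y'] = u₀ y * conj (u₀ y')) hq
    · filter_upwards [hloc, hself] with x hx sx
      by_cases hxE : x ∈ E
      · filter_upwards [hx hxE, sx] with y hy sy
        rw [sy]
        filter_upwards [hy] with y' hy' _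
        obtain ⟨n0, n1, n2⟩ := hy'
        have hvy : v y ≠ 0 := by
          intro h0
          rw [h0] at n0
          simp at n0
        have hvy' : v y' ≠ 0 := by
          intro h0
          rw [h0, norm_zero] at n1
          exact hvy (norm_eq_zero.1 n1)
        rw [hu₀, hu₀, if_neg hvy, if_neg hvy', map_mul, map_inv₀, Complex.conj_ofReal, ← n1]
        have hn : ((‖v y‖ : ℝ) : ℂ) ≠ 0 := by
          exact_mod_cast norm_ne_zero_iff.2 hvy
        have n3 : P ![y, y'] * (((‖v y‖ : ℝ) : ℂ) * ((‖v y‖ : ℝ) : ℂ)) = v y * conj (v y') := by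
          rw [← n2]
          push_cast
          ring
        field_simp
        linear_combination n3
      · filter_upwards [sx] with y sy
        have hyE : y ∉ E := by
          rw [hE] at hxE ⊢
          intro h2
          apply hxE
          show W x ≠ 0
          have h3 : W y = W x := by rw [hW, hW, sy]
          rw [← h3]
          exact h2
        exact ae_of_all _ fun y' h => absurd h hyE
  refine eh_ae_relInd m ν hm (p := fun z => z 0 ∈ E → P z = u₀ (z 0) * conj (u₀ (z 1))) ?_ ?_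
  · have e1 : {z : Fin 2 → Q | z 0 ∈ E → P z = u₀ (z 0) * conj (u₀ (z 1))} =
        ((fun z : Fin 2 → Q => z 0) ⁻¹' E)ᶜ ∪
          {z : Fin 2 → Q | P z = u₀ (z 0) * conj (u₀ (z 1))} := by
      ext z
      exact imp_iff_not_or
    rw [e1]
    refine (measurable_pi_apply 0 hEm').compl.union (measurableSet_eq_fun hPb.1 ?_)
    exact (hu₀m.comp (measurable_pi_apply 0)).mul
      (Complex.continuous_conj.measurable.comp (hu₀m.comp (measurable_pi_apply 1)))
  · exact hd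

end

theorem eh_uni {A B C D : ℂ} (hA : ‖A‖ = 1) (hD : ‖D‖ = 1) (h : A * conj B = C * conj D) :
    C * conj A = D * conj B := by
  have h1 : conj A * A = 1 := by
    rw [eh_conj_mul, hA]
    simp
  have h2 : conj D * D = 1 := by
    rw [eh_conj_mul, hD]
    simp
  linear_combination (conj A * D) * (-h) + (D * conj B) * h1 - (C * conj A) * h2

/-- **EH.** An invariant hermitian idempotent kernel close to `u ⊗ conj u` is `u₃ ⊗ conj u₃`.

Proof. `R = relInd m ν (Fin 2)`, `κ = condExpKernel ν m`, `w z = u (z 0) conj (u (z 1))`,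
`r = kn P`. `sqrt r ≤ 1 + 1/4`, so `r < 2`. Put `v x = ∫ P (x, y) u y ∂κ_x` (bounded measurable);
`∫ ‖v - u‖² ∂ν ≤ ∫ ‖P - w‖² ∂R ≤ 1/16`, so `v` is not a.e. zero. `P v = v`, i.e.
`∫ P (x, y) v y ∂κ_x = v x` a.e. (`P * P = P`, as in `kc_assoc`). Let `V` be a bounded `m`-measurable
version of `E[|v|²|m]`, `V x = ∫ |v|² ∂κ_x` a.e., and `E = {V > 0} ∈ m` (positive measure). On `E`
consider `P' (x, y) = P (x, y) - v x conj (v y) / V x` (and `V x = V y` a.e.). For a.e. `x ∈ E`,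
on the fibre `κ_x`: `P' * P' = P'` (from `P * P = P`, `P v = v`, hermitian), and
`∫ ∫ |P'|² ∂κ_x ∂κ_x = r - 1` (expand; rows of `P` have norm `r` by `KInv.row`). For a bounded
measurable `f` let `g x' = ∫ P' (x', y) f y ∂κ`; then `g x' = ∫ P' (x', y) g y ∂κ`, so by
Cauchy-Schwarz `∫ |g|² ∂κ ≤ (r - 1) ∫ |g|² ∂κ`, hence `g = 0`. Take `f` from a countable family
separating `L¹(κ)` (or integrate against `conj P'` by `P' * P' = P'`, hermitian: directly
`|P' (x, x')|² ≤ ...`: the function `y ↦ P' (y, x')` is fixed by `P'`, so its norm is `0`): `P' = 0`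
a.e. on the fibres over `E`. So `P (x, y) = v x conj (v y) / V x` on `E`; the row norm gives
`|v x|² / V x = r` and integration over the fibre gives `r = 1`. So `|v| ² = V` on `E`, put
`u₀ = v / |v|` there (adjust on a null set of `E` to have `‖u₀‖ = 1` everywhere on `E`):
`P = u₀ ⊗ conj u₀` over `E`. For `n ≥ 1`, invariance of `P` gives for a.e. `z` in `R` with
`z 0 ∈ E ∩ S^{-n} E`: `u₀ (S^n z 0) conj (u₀ (z 0)) = u₀ (S^n z 1) conj (u₀ (z 1))`; a bounded function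
`φ` with `φ (z 0) = φ (z 1)` `R`-a.e. is `AEM m` (integrate over `z 1`: `φ = E[φ|m]`). So
`first_return` gives `u₃` with cocycle `AEM m`, `u₃ = u₀` on `E`. Both `P` and `u₃ ⊗ conj u₃` are
`S₂`-invariant a.e. and agree when `z 0 ∈ E`; almost every orbit visits `E`, so they agree. -/
theorem idem_rank_one {Q : Type} (m : MeasurableSpace Q) [mQ : MeasurableSpace Q]
    [StandardBorelSpace Q] (ν : Measure Q) [IsProbabilityMeasure ν] (hm : m ≤ mQ) (S : Q ≃ᵐ Q)
    (hS : Ergodic S ν) (hSm : TInv m S) {u : Q → ℂ} (hu : Measurable u) (h1 : ∀ q, ‖u q‖ = 1)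
    {P : (Fin 2 → Q) → ℂ} (hP : KInv m ν S P) (hadj : adj P =ᵐ[relInd m ν (Fin 2)] P)
    (hidem : kc m ν P P =ᵐ[relInd m ν (Fin 2)] P)
    (hclose : kn m ν (fun z => P z - u (z 0) * conj (u (z 1))) ≤ 1 / 16) :
    ∃ u₃ : Q → ℂ, Measurable u₃ ∧ (∀ q, ‖u₃ q‖ = 1) ∧
      AEM m ν (fun q => u₃ (S q) * conj (u₃ q)) ∧
      P =ᵐ[relInd m ν (Fin 2)] fun z => u₃ (z 0) * conj (u₃ (z 1)) := by
  have hRP := relInd_prob m ν (Fin 2)
  obtain ⟨E, u₀, hEm, hE0, hu₀m, hu₀1, hR1⟩ :=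
    eh_local m ν hm S hS hSm hu h1 hP hadj hidem hclose
  have hEm' : MeasurableSet E := hm _ hEm
  have hS2 := relInd_tTup m ν hm S hS.toMeasurePreserving hSm (Fin 2)
  have hinv : ∀ n : ℕ, ∀ᵐ z ∂(relInd m ν (Fin 2)), P ((tTup S (Fin 2))^[n] z) = P z := by
    intro n
    induction n with
    | zero => exact ae_of_all _ fun z => rfl
    | succ n ih =>
      have h2 := (hS2.iterate n).quasiMeasurePreserving.ae hP.2
      filter_upwards [ih, h2] with z hz hz2
      rw [Function.iterate_succ_apply', ← hz]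
      exact hz2
  have hEz : ∀ n : ℕ, ∀ᵐ z ∂(relInd m ν (Fin 2)), (S^[n] (z 0) ∈ E ↔ S^[n] (z 1) ∈ E) := by
    intro n
    have hg : Measurable[m] (fun q => E.indicator (1 : Q → ℂ) (S^[n] q)) := by
      have h2 : Measurable[m] (E.indicator (fun _ : Q => (1 : ℂ))) :=
        (BMs.indicator (BMs.const m 1) hEm).1
      exact h2.comp (@Measurable.iterate _ m _ hSm.1 n)
    filter_upwards [relInd_eq m ν hm (AEM.of_meas hg) (0 : Fin 2) 1] with z hz
    by_cases h2 : S^[n] (z 0) ∈ E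
    · by_cases h3 : S^[n] (z 1) ∈ E
      · exact ⟨fun _ => h3, fun _ => h2⟩
      · rw [Set.indicator_of_mem h2, Set.indicator_of_notMem h3] at hz
        exact absurd hz one_ne_zero
    · by_cases h3 : S^[n] (z 1) ∈ E
      · rw [Set.indicator_of_notMem h2, Set.indicator_of_mem h3] at hz
        exact absurd hz.symm one_ne_zero
      · exact ⟨fun h => absurd h h2, fun h => absurd h h3⟩
  have hRn : ∀ n : ℕ, ∀ᵐ z ∂(relInd m ν (Fin 2)), S^[n] (z 0) ∈ E →
      P z = u₀ (S^[n] (z 0)) * conj (u₀ (S^[n] (z 1))) := by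
    intro n
    filter_upwards [hinv n, (hS2.iterate n).quasiMeasurePreserving.ae hR1] with z i1 r1 hz
    rw [eh_iter, eh_iter] at r1
    rw [← i1]
    exact r1 hz
  have hind : BM (E.indicator (1 : Q → ℂ)) := by
    have h2 : E.indicator (1 : Q → ℂ) = E.indicator (fun _ => (1 : ℂ)) := rfl
    rw [h2]
    exact BMs.indicator (BMs.const _ 1) hEm'
  have hu₀b : BM u₀ := ⟨hu₀m, 1, fun q => (hu₀1 q).le⟩
  have hc : ∀ n : ℕ, 0 < n → AEM m ν (fun q => E.indicator 1 q * E.indicator 1 (S^[n] q) *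
      (u₀ (S^[n] q) * conj (u₀ q))) := by
    intro n _
    have hSn : Measurable (S^[n]) := S.measurable.iterate n
    refine eh_aem m ν hm (BMs.mul (BMs.mul hind (BMs.comp hind hSn))
      (BMs.mul (BMs.comp hu₀b hSn) (BMs.conj hu₀b))) ?_
    filter_upwards [hEz 0, hEz n, hRn 0, hRn n] with z a0 an r0 rn
    have a0' : z 0 ∈ E ↔ z 1 ∈ E := a0
    by_cases h2 : z 0 ∈ E
    · have h2' := a0'.1 h2
      by_cases h3 : S^[n] (z 0) ∈ E
      · have h3' := an.1 h3
        rw [Set.indicator_of_mem h2, Set.indicator_of_mem h3, Set.indicator_of_mem h2',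
          Set.indicator_of_mem h3']
        have h4 : u₀ (z 0) * conj (u₀ (z 1)) =
            u₀ (S^[n] (z 0)) * conj (u₀ (S^[n] (z 1))) := (r0 h2).symm.trans (rn h3)
        rw [eh_uni (hu₀1 _) (hu₀1 _) h4]
        rfl
      · have h3' : S^[n] (z 1) ∉ E := fun h => h3 (an.2 h)
        rw [Set.indicator_of_notMem h3, Set.indicator_of_notMem h3']
        simp
    · have h2' : z 1 ∉ E := fun h => h2 (a0'.2 h)
      rw [Set.indicator_of_notMem h2, Set.indicator_of_notMem h2']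
      simp
  obtain ⟨u₃, m3, n3, e3, c3⟩ := first_return m ν S hS hm hSm hEm hE0 hu₀m
    (fun q _ => hu₀1 q) hc
  refine ⟨u₃, m3, n3, c3, ?_⟩
  have hw3 : ∀ n : ℕ, ∀ᵐ z ∂(relInd m ν (Fin 2)),
      u₃ (S^[n] (z 0)) * conj (u₃ (S^[n] (z 1))) = u₃ (z 0) * conj (u₃ (z 1)) := by
    have h2 : ∀ᵐ z ∂(relInd m ν (Fin 2)),
        u₃ (S (z 0)) * conj (u₃ (S (z 1))) = u₃ (z 0) * conj (u₃ (z 1)) := by
      filter_upwards [relInd_eq m ν hm c3 (0 : Fin 2) 1] with z hz
      have h3 := eh_uni (n3 _) (n3 _) hz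
      have h4 := congrArg conj h3
      rw [map_mul, map_mul, Complex.conj_conj, Complex.conj_conj] at h4
      rw [mul_comm, h4, mul_comm]
    intro n
    induction n with
    | zero => exact ae_of_all _ fun z => rfl
    | succ n ih =>
      filter_upwards [ih, (hS2.iterate n).quasiMeasurePreserving.ae h2] with z hz hz2
      rw [eh_iter, eh_iter] at hz2
      rw [Function.iterate_succ_apply', Function.iterate_succ_apply', hz2, hz]
  have hvis := (relInd_eval m ν hm (0 : Fin 2)).quasiMeasurePreserving.ae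
    (eh_visit ν S hS hEm' hE0)
  filter_upwards [hvis, ae_all_iff.2 hw3, ae_all_iff.2 hRn, ae_all_iff.2 hEz] with z v1 w1 r1 e1
  obtain ⟨n, hn⟩ := v1
  rw [r1 n hn, ← w1 n, e3 _ hn, e3 _ ((e1 n).1 hn)]

end Pool.Agent.HK820
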