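import Pool.Agent.Lib_MP_820dd4_hk.EG
import Pool.Agent.Lib_MP_820dd4_hk.EH
import Pool.Agent.Lib_MP_820dd4_hk.EF2

open MeasureTheory ProbabilityTheory Filter Topology
open scoped ComplexConjugate ENNReal

namespace Pool.Agent.HK820

theorem ei_three {Y : Type} [MeasurableSpace Y] (θ : Measure Y) [IsProbabilityMeasure θ]
    {F G H : Y → ℂ} (hF : BM F) (hG : BM G) (hH : BM H) :
    ∫ z, ‖F z + G z + H z‖ ^ 2 ∂θ ≤
      3 * ∫ z, ‖F z‖ ^ 2 ∂θ + 3 * ∫ z, ‖G z‖ ^ 2 ∂θ + 3 * ∫ z, ‖H z‖ ^ 2 ∂θ := by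
  have i1 := bas_int_sq hF θ
  have i2 := bas_int_sq hG θ
  have i3 := bas_int_sq hH θ
  have i12 : Integrable (fun z => 3 * ‖F z‖ ^ 2 + 3 * ‖G z‖ ^ 2) θ :=
    (i1.const_mul 3).add (i2.const_mul 3)
  rw [← integral_const_mul, ← integral_const_mul, ← integral_const_mul,
    ← integral_add (i1.const_mul 3) (i2.const_mul 3), ← integral_add i12 (i3.const_mul 3)]
  refine integral_mono (bas_int_sq (BMs.add (BMs.add hF hG) hH) θ)
    (i12.add (i3.const_mul 3)) fun z => ?_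
  show ‖F z + G z + H z‖ ^ 2 ≤ 3 * ‖F z‖ ^ 2 + 3 * ‖G z‖ ^ 2 + 3 * ‖H z‖ ^ 2
  have h1 : ‖F z + G z + H z‖ ≤ ‖F z‖ + ‖G z‖ + ‖H z‖ := norm_add₃_le
  have h2 := pow_le_pow_left₀ (norm_nonneg _) h1 2
  nlinarith [sq_nonneg (‖F z‖ - ‖G z‖), sq_nonneg (‖F z‖ - ‖H z‖), sq_nonneg (‖G z‖ - ‖H z‖)]

theorem ei_two {Y : Type} [MeasurableSpace Y] (θ : Measure Y) [IsProbabilityMeasure θ]
    {F G : Y → ℂ} (hF : BM F) (hG : BM G) :
    ∫ z, ‖F z + G z‖ ^ 2 ∂θ ≤
      19 / 18 * ∫ z, ‖F z‖ ^ 2 ∂θ + 19 * ∫ z, ‖G z‖ ^ 2 ∂θ := by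
  have i1 := bas_int_sq hF θ
  have i2 := bas_int_sq hG θ
  rw [← integral_const_mul, ← integral_const_mul,
    ← integral_add (i1.const_mul (19 / 18)) (i2.const_mul 19)]
  refine integral_mono (bas_int_sq (BMs.add hF hG) θ)
    ((i1.const_mul (19 / 18)).add (i2.const_mul 19)) fun z => ?_
  show ‖F z + G z‖ ^ 2 ≤ 19 / 18 * ‖F z‖ ^ 2 + 19 * ‖G z‖ ^ 2
  have h1 : ‖F z + G z‖ ≤ ‖F z‖ + ‖G z‖ := norm_add_le _ _
  have h2 := pow_le_pow_left₀ (norm_nonneg _) h1 2
  nlinarith [sq_nonneg (‖F z‖ - 18 * ‖G z‖)]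

theorem ei_bm_fst {Q : Type} [MeasurableSpace Q] {A : (Fin 2 → Q) → ℂ} (hA : BM A) (x : Q) :
    BM (fun y => A ![x, y]) := by
  refine BMs.comp (m' := inferInstance) hA ?_
  refine measurable_pi_iff.2 fun i => ?_
  fin_cases i
  · exact measurable_const
  · exact measurable_id

theorem ei_bm_snd {Q : Type} [MeasurableSpace Q] {A : (Fin 2 → Q) → ℂ} (hA : BM A) (x : Q) :
    BM (fun y => A ![y, x]) := by
  refine BMs.comp (m' := inferInstance) hA ?_
  refine measurable_pi_iff.2 fun i => ?_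
  fin_cases i
  · exact measurable_id
  · exact measurable_const

theorem ei_w {Q : Type} [MeasurableSpace Q] {u : Q → ℂ} (hu : Measurable u)
    (h1 : ∀ q, ‖u q‖ = 1) : Measurable (fun z : Fin 2 → Q => u (z 0) * conj (u (z 1))) ∧
      ∀ z : Fin 2 → Q, ‖u (z 0) * conj (u (z 1))‖ ≤ 1 := by
  refine ⟨?_, fun z => ?_⟩
  · exact (hu.comp (measurable_pi_apply 0)).mul
      (Complex.continuous_conj.measurable.comp (hu.comp (measurable_pi_apply 1)))
  · rw [norm_mul, RCLike.norm_conj, h1, h1, mul_one]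

theorem ei_kc_w {Q : Type} (m : MeasurableSpace Q) [mQ : MeasurableSpace Q]
    [StandardBorelSpace Q] (ν : Measure Q) [IsProbabilityMeasure ν] {u : Q → ℂ}
    (h1 : ∀ q, ‖u q‖ = 1) (z : Fin 2 → Q) :
    kc m ν (fun z : Fin 2 → Q => u (z 0) * conj (u (z 1)))
      (fun z : Fin 2 → Q => u (z 0) * conj (u (z 1))) z = u (z 0) * conj (u (z 1)) := by
  have hp : IsProbabilityMeasure (condExpKernel ν m (z 0)) := relA_prob m ν (z 0)
  show ∫ y, u (z 0) * conj (u y) * (u y * conj (u (z 1))) ∂(condExpKernel ν m (z 0)) = _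
  have e : ∀ y, u (z 0) * conj (u y) * (u y * conj (u (z 1))) = u (z 0) * conj (u (z 1)) := by
    intro y
    have h2 : conj (u y) * u y = 1 := by
      rw [mul_comm, Complex.mul_conj, Complex.normSq_eq_norm_sq, h1]
      norm_num
    calc u (z 0) * conj (u y) * (u y * conj (u (z 1)))
        = u (z 0) * (conj (u y) * u y) * conj (u (z 1)) := by ring
      _ = _ := by rw [h2, mul_one]
  simp only [e, integral_const, probReal_univ, one_smul]

theorem ei_adj {Q : Type} (m : MeasurableSpace Q) [mQ : MeasurableSpace Q]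
    [StandardBorelSpace Q] (ν : Measure Q) [IsProbabilityMeasure ν] (hm : m ≤ mQ) (S : Q ≃ᵐ Q)
    (hS : MeasurePreserving S ν ν) (hSm : TInv m S) {u : Q → ℂ} (hu : Measurable u)
    (h1 : ∀ q, ‖u q‖ = 1) {A : (Fin 2 → Q) → ℂ}
    (hA : (relInd m ν (Fin 2))[fun z : Fin 2 → Q => u (z 0) * conj (u (z 1)) |
      Inv (tTup S (Fin 2))] =ᵐ[relInd m ν (Fin 2)] A) :
    adj A =ᵐ[relInd m ν (Fin 2)] A := by
  have hR := relInd_prob m ν (Fin 2)
  set θ := relInd m ν (Fin 2) with hRdef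
  set S2 := tTup S (Fin 2) with hS2
  have hw := ei_w hu h1
  have hwB : BM (fun z : Fin 2 → Q => u (z 0) * conj (u (z 1))) := ⟨hw.1, 1, hw.2⟩
  have hSR : MeasurePreserving S2 θ θ := relInd_tTup m ν hm S hS hSm (Fin 2)
  have hsw : MeasurePreserving (fun (z : Fin 2 → Q) => ![z 1, z 0]) θ θ := by
    have h := relInd_rst m ν hm (![1, 0] : Fin 2 → Fin 2) (by decide)
    have e : (fun (z : Fin 2 → Q) (k : Fin 2) => z ((![1, 0] : Fin 2 → Fin 2) k)) =
        fun z => ![z 1, z 0] := by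
      funext z k
      fin_cases k <;> rfl
    rw [e] at h
    exact h
  have hfm : FMap θ S2 θ S2 (fun (z : Fin 2 → Q) => ![z 1, z 0]) := by
    refine ⟨hsw, Eventually.of_forall fun z => ?_⟩
    funext k
    fin_cases k <;> rfl
  have e1 := condExp_inv_comp hSR hSR hfm hwB
  have e2 : (fun z : Fin 2 → Q => (fun z : Fin 2 → Q => u (z 0) * conj (u (z 1))) ![z 1, z 0]) =
      fun z => conj (u (z 0) * conj (u (z 1))) := by
    funext z
    show u (z 1) * conj (u (z 0)) = _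
    rw [map_mul, Complex.conj_conj]
    ring
  rw [e2] at e1
  have e3 := cubd_condExp_conj (Inv S2) θ hwB
  have e4 := hsw.quasiMeasurePreserving.ae_eq_comp hA
  filter_upwards [e1, e3, e4, hA] with z f1 f3 f4 f5
  simp only [Function.comp_apply] at f4
  show conj (A ![z 1, z 0]) = A z
  rw [← f4, ← f1, f3, f5, Complex.conj_conj]

/-- **EI.** Stability of phases: if the cocycle of `u` and the `(D+1)`-st derivative of `u` are close
to `m`-measurable functions then `u` is close (up to `m`-measurable factors) to a unimodular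
function with an `m`-measurable cocycle.

Proof. `K = 112 * 16 ^ (D + 1)`. Take `δ > 0` with `4 K δ ≤ 1 / 90000`, `K δ ≤ 1/16` and
`1444 K δ ≤ ε`. `ee_main`: with `A` a version of `E[w | Inv S₂]` bounded by `1` and strictly invariant,
`kn (A - w) ≤ 4 K δ =: ε₃²`, `ε₃ ≤ 1 / 300`. `adj w = w`, the exchange of coordinates preserves
`R = relInd m ν (Fin 2)` and commutes with `S₂`, so `adj A = A` a.e. `kc w w = w`. By EF5,
`N (kc A A - A) ≤ N (kc A (A - w)) + N (kc (A - w) w) + N (w - A) ≤ 3 ε₃ ≤ 1 / 100`. `exists_idem`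
gives `P`, `N (P - A) ≤ 18 ε₃`, so `N (P - w) ≤ 19 ε₃ ≤ 1/4`, and `idem_rank_one` gives `u₃` with
`P = u₃ ⊗ conj u₃`; `kn (w - u₃ ⊗ conj u₃) ≤ 361 ε₃² = 1444 K δ`. -/
theorem stability (D : ℕ) {ε : ℝ} (hε : 0 < ε) : ∃ δ > 0, ∀ (Q : Type) (m : MeasurableSpace Q)
    [mQ : MeasurableSpace Q] [StandardBorelSpace Q] (ν : Measure Q) [IsProbabilityMeasure ν],
    m ≤ mQ → ∀ S : Q ≃ᵐ Q, Ergodic S ν → TInv m S → ∀ u : Q → ℂ, Measurable u →
    (∀ q, ‖u q‖ = 1) →
    ∫ q, ‖u (S q) * conj (u q) - (ν[fun q => u (S q) * conj (u q) | m]) q‖ ∂ν ≤ δ →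
    ∫ x, ‖dd (D + 1) u x - ((cube ν S (Fin 2) (D + 1))[dd (D + 1) u | pw m (D + 1)]) x‖
      ∂(cube ν S (Fin 2) (D + 1)) ≤ δ →
    ∃ u₃ : Q → ℂ, Measurable u₃ ∧ (∀ q, ‖u₃ q‖ = 1) ∧
      AEM m ν (fun q => u₃ (S q) * conj (u₃ q)) ∧
      ∫ z, ‖u (z 0) * conj (u (z 1)) - u₃ (z 0) * conj (u₃ (z 1))‖ ^ 2
        ∂(relInd m ν (Fin 2)) ≤ ε := by
  set K : ℝ := 112 * 16 ^ (D + 1) with hK
  have hKpos : 0 < K := by positivity
  refine ⟨min (1 / (360000 * K)) (ε / (1444 * K)), lt_min (by positivity) (by positivity), ?_⟩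
  intro Q m mQ _ ν _ hm S hS hSm u hu h1 ha hb
  set δ : ℝ := min (1 / (360000 * K)) (ε / (1444 * K)) with hδ
  have hδ1 : 360000 * (K * δ) ≤ 1 := by
    have h := min_le_left (1 / (360000 * K)) (ε / (1444 * K))
    rw [← hδ, le_div_iff₀ (by positivity)] at h
    linarith
  have hδ2 : 1444 * (K * δ) ≤ ε := by
    have h := min_le_right (1 / (360000 * K)) (ε / (1444 * K))
    rw [← hδ, le_div_iff₀ (by positivity)] at h
    linarith
  have hR := relInd_prob m ν (Fin 2)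
  have hmain := ee_main m ν hm S hS hSm D hu h1 (δ := δ) (by rw [← hK]; linarith) ha hb
  rw [← hK] at hmain
  set θ := relInd m ν (Fin 2) with hRdef
  set S2 := tTup S (Fin 2) with hS2
  have hw := ei_w hu h1
  have hwB : BM (fun z : Fin 2 → Q => u (z 0) * conj (u (z 1))) := ⟨hw.1, 1, hw.2⟩
  have hSR : MeasurePreserving S2 θ θ := relInd_tTup m ν hm S hS.toMeasurePreserving hSm (Fin 2)
  have hm2 : Inv S2 ≤ (inferInstance : MeasurableSpace (Fin 2 → Q)) :=
    MeasurableSpace.invariants_le S2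
  obtain ⟨A, hAm, hA1, hA⟩ := exists_bms_condExp (Inv S2) θ hm2 hw.1 hw.2
  have hAB : BM A := ⟨hAm.mono hm2 le_rfl, 1, hA1⟩
  have hAinv : ∀ z, A (S2 z) = A z := fun z =>
    congrFun (MeasurableSpace.comp_eq_of_measurable_invariants hAm) z
  have hAK : KInv m ν S A := ⟨hAB, Eventually.of_forall hAinv⟩
  have hadj := ei_adj m ν hm S hS.toMeasurePreserving hSm hu h1 hA
  -- the distance between `A` and `w`
  have hAw : kn m ν (fun z => A z - u (z 0) * conj (u (z 1))) ≤ 4 * (K * δ) := by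
    refine le_trans (le_of_eq ?_) hmain
    unfold kn
    refine integral_congr_ae ?_
    filter_upwards [hA] with z hz
    rw [hz, norm_sub_rev]
  have hwA : kn m ν (fun z => u (z 0) * conj (u (z 1)) - A z) ≤ 4 * (K * δ) := by
    refine le_trans (le_of_eq ?_) hAw
    unfold kn
    refine integral_congr_ae (Eventually.of_forall fun z => ?_)
    show ‖u (z 0) * conj (u (z 1)) - A z‖ ^ 2 = ‖A z - u (z 0) * conj (u (z 1))‖ ^ 2
    rw [norm_sub_rev]
  have hKδ : 0 ≤ K * δ := by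
    have h : 0 ≤ kn m ν (fun z => A z - u (z 0) * conj (u (z 1))) :=
      integral_nonneg fun z => by positivity
    linarith
  have hd : BM (fun z : Fin 2 → Q => A z - u (z 0) * conj (u (z 1))) := BMs.sub hAB hwB
  have hid : ∀ z, kc m ν A A z - A z =
      kc m ν A (fun z => A z - u (z 0) * conj (u (z 1))) z +
      kc m ν (fun z => A z - u (z 0) * conj (u (z 1))) (fun z => u (z 0) * conj (u (z 1))) z +
      (u (z 0) * conj (u (z 1)) - A z) := by
    intro z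
    have hp : IsProbabilityMeasure (condExpKernel ν m (z 0)) := relA_prob m ν (z 0)
    have i1 : Integrable (fun y => A ![z 0, y] * A ![y, z 1]) (condExpKernel ν m (z 0)) :=
      BM.integrable (BMs.mul (ei_bm_fst hAB (z 0)) (ei_bm_snd hAB (z 1))) _
    have i2 : Integrable (fun y => A ![z 0, y] * (u y * conj (u (z 1))))
        (condExpKernel ν m (z 0)) :=
      BM.integrable (BMs.mul (ei_bm_fst hAB (z 0)) (ei_bm_snd hwB (z 1))) _
    have i3 : Integrable (fun y => u (z 0) * conj (u y) * (u y * conj (u (z 1))))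
        (condExpKernel ν m (z 0)) :=
      BM.integrable (BMs.mul (ei_bm_fst hwB (z 0)) (ei_bm_snd hwB (z 1))) _
    have e1 : kc m ν A (fun z => A z - u (z 0) * conj (u (z 1))) z =
        kc m ν A A z - ∫ y, A ![z 0, y] * (u y * conj (u (z 1))) ∂(condExpKernel ν m (z 0)) := by
      show ∫ y, A ![z 0, y] * (A ![y, z 1] - u y * conj (u (z 1))) ∂(condExpKernel ν m (z 0)) = _
      have e : ∀ y, A ![z 0, y] * (A ![y, z 1] - u y * conj (u (z 1))) =
          A ![z 0, y] * A ![y, z 1] - A ![z 0, y] * (u y * conj (u (z 1))) := fun y => by ring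
      simp only [e]
      rw [integral_sub i1 i2]
      rfl
    have e2 : kc m ν (fun z => A z - u (z 0) * conj (u (z 1)))
        (fun z => u (z 0) * conj (u (z 1))) z =
        ∫ y, A ![z 0, y] * (u y * conj (u (z 1))) ∂(condExpKernel ν m (z 0)) -
          u (z 0) * conj (u (z 1)) := by
      rw [← ei_kc_w m ν h1 z]
      show ∫ y, (A ![z 0, y] - u (z 0) * conj (u y)) * (u y * conj (u (z 1)))
          ∂(condExpKernel ν m (z 0)) = _ -
        ∫ y, u (z 0) * conj (u y) * (u y * conj (u (z 1))) ∂(condExpKernel ν m (z 0))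
      rw [← integral_sub i2 i3]
      refine integral_congr_ae (Eventually.of_forall fun y => ?_)
      show (A ![z 0, y] - u (z 0) * conj (u y)) * (u y * conj (u (z 1))) =
        A ![z 0, y] * (u y * conj (u (z 1))) - u (z 0) * conj (u y) * (u y * conj (u (z 1)))
      ring
    rw [e1, e2]
    ring
  have hkn : kn m ν (fun z => kc m ν A A z - A z) ≤ 9 * (4 * (K * δ)) := by
    have h3 := ei_three θ (kc_bm m ν hm hAB hd) (kc_bm m ν hm hd hwB) (BMs.sub hwB hAB)
    have h4 := kn_kc_le_right m ν hm hAB hd hA1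
    have h5 := kn_kc_le_left m ν hm hd hwB hw.2
    have h6 : kn m ν (fun z => kc m ν A A z - A z) =
        ∫ z, ‖kc m ν A (fun z => A z - u (z 0) * conj (u (z 1))) z +
      kc m ν (fun z => A z - u (z 0) * conj (u (z 1))) (fun z => u (z 0) * conj (u (z 1))) z +
      (u (z 0) * conj (u (z 1)) - A z)‖ ^ 2 ∂θ := by
      unfold kn
      refine integral_congr_ae (Eventually.of_forall fun z => ?_)
      show ‖kc m ν A A z - A z‖ ^ 2 = _
      rw [hid z]
    rw [h6]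
    refine h3.trans ?_
    have h7 : ∫ z, ‖kc m ν A (fun z => A z - u (z 0) * conj (u (z 1))) z‖ ^ 2 ∂θ ≤
      4 * (K * δ) := h4.trans hAw
    have h8 : ∫ z, ‖kc m ν (fun z => A z - u (z 0) * conj (u (z 1)))
      (fun z => u (z 0) * conj (u (z 1))) z‖ ^ 2 ∂θ ≤ 4 * (K * δ) := h5.trans hAw
    have h9 : ∫ z, ‖u (z 0) * conj (u (z 1)) - A z‖ ^ 2 ∂θ ≤ 4 * (K * δ) := hwA
    linarith
  set e3 : ℝ := Real.sqrt (4 * (K * δ)) with he3
  have he30 : 0 ≤ e3 := Real.sqrt_nonneg _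
  have he3sq : e3 ^ 2 = 4 * (K * δ) := Real.sq_sqrt (by linarith)
  have he3le : e3 ≤ 1 / 300 := by
    have h : 4 * (K * δ) ≤ (1 / 300) ^ 2 := by norm_num; linarith
    calc e3 ≤ Real.sqrt ((1 / 300) ^ 2) := Real.sqrt_le_sqrt h
      _ = 1 / 300 := Real.sqrt_sq (by norm_num)
  obtain ⟨P, hP, hPadj, hPid, hPA⟩ := exists_idem m ν hm S hS hSm hAK hA1 hadj (a := 3 * e3)
    (by linarith) (by rw [mul_pow, he3sq]; linarith) (by linarith)
  have hPw : kn m ν (fun z => P z - u (z 0) * conj (u (z 1))) ≤ 1444 * (K * δ) := by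
    have h3 := ei_two θ (BMs.sub hP.1 hAB) hd
    have h4 : kn m ν (fun z => P z - u (z 0) * conj (u (z 1))) =
        ∫ z, ‖(P z - A z) + (A z - u (z 0) * conj (u (z 1)))‖ ^ 2 ∂θ := by
      unfold kn
      refine integral_congr_ae (Eventually.of_forall fun z => ?_)
      show ‖P z - u (z 0) * conj (u (z 1))‖ ^ 2 =
        ‖(P z - A z) + (A z - u (z 0) * conj (u (z 1)))‖ ^ 2
      rw [sub_add_sub_cancel]
    rw [h4]
    refine h3.trans ?_
    have h5 : ∫ z, ‖P z - A z‖ ^ 2 ∂θ ≤ (6 * (3 * e3)) ^ 2 := hPA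
    have h6 : ∫ z, ‖A z - u (z 0) * conj (u (z 1))‖ ^ 2 ∂θ ≤ 4 * (K * δ) := hAw
    have h7 : (6 * (3 * e3)) ^ 2 = 324 * (4 * (K * δ)) := by
      rw [← he3sq]
      ring
    rw [h7] at h5
    linarith
  obtain ⟨u₃, a1, a2, a3, a4⟩ := idem_rank_one m ν hm S hS hSm hu h1 hP hPadj hPid
    (hPw.trans (by linarith))
  refine ⟨u₃, a1, a2, a3, ?_⟩
  refine le_trans (le_of_eq ?_) (hPw.trans hδ2)
  unfold kn
  refine integral_congr_ae ?_
  filter_upwards [a4] with z hz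
  rw [hz, norm_sub_rev]

end Pool.Agent.HK820
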