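import Pool.Agent.Lib_MP_820dd4_hk.KR2

/-! ### Part `FI1` -/

section

open MeasureTheory ProbabilityTheory Filter Topology
open scoped ComplexConjugate ENNReal

namespace Pool.Agent.HK820

/-- Face invariance in dimension `D`: elements of `M i` placed on faces of codimension `i` preserve the
cube measure and the set of invariant functions; elements of `M (i + 1)` placed on faces of
codimension `i` fix the invariant functions. -/
structure FIHyp {G X : Type} [Group G] [MulAction G X] [MeasurableSpace X]
    [StandardBorelSpace X] (M : ℕ → Subgroup G) (μ : Measure X) (S : X ≃ᵐ X) (ι : Type)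
    [Fintype ι] (D : ℕ) : Prop where
  pres : ∀ i F, Face ι D i F → ∀ c ∈ M i,
    MeasurePreserving (tF D (fun a => c • a) F) (cube μ S ι D) (cube μ S ι D)
  norm : ∀ i F, Face ι D i F → ∀ c ∈ M i, ∀ f : Arr ι X D → ℂ, BM f →
    (fun x => f (tArr S ι D x)) =ᵐ[cube μ S ι D] f →
    (fun x => f (tF D (fun a => c • a) F (tArr S ι D x))) =ᵐ[cube μ S ι D]
      fun x => f (tF D (fun a => c • a) F x)
  fix : ∀ i F, Face ι D i F → ∀ c ∈ M (i + 1), ∀ f : Arr ι X D → ℂ, BM f →
    (fun x => f (tArr S ι D x)) =ᵐ[cube μ S ι D] f →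
    (fun x => f (tF D (fun a => c • a) F x)) =ᵐ[cube μ S ι D] f

/-- A transformation which preserves the measure and fixes the invariant functions preserves almost
every component. -/
theorem fi1_comp_one {P : Type} [MeasurableSpace P] [StandardBorelSpace P] (ν : Measure P)
    [IsProbabilityMeasure ν] (T : P → P) {t : P → P} (ht : MeasurePreserving t ν ν)
    (hfix : ∀ f : P → ℂ, BMs (Inv T) f → (fun x => f (t x)) =ᵐ[ν] f) :
    ∀ᵐ p ∂ν, MeasurePreserving t (condExpKernel ν (Inv T) p) (condExpKernel ν (Inv T) p) := by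
  have hle : Inv T ≤ ‹MeasurableSpace P› := MeasurableSpace.invariants_le T
  obtain ⟨C, hC1, hC2, hC3⟩ := erg_pi P
  have hCm : ∀ A ∈ C, MeasurableSet A := by
    intro A hA
    rw [hC3]
    exact MeasurableSpace.measurableSet_generateFrom hA
  have h0 : ∀ F : P → ℂ, BM F →
      ∀ᵐ p ∂ν, ∫ y, F (t y) ∂(condExpKernel ν (Inv T) p) = ∫ y, F y ∂(condExpKernel ν (Inv T) p) := by
    intro F hF
    have hF' : BM (fun x => F (t x)) := BMs.comp hF ht.measurable
    have h1 := condExp_ae_eq_integral_condExpKernel (m := Inv T) hle (hF'.integrable ν)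
    have h2 := condExp_ae_eq_integral_condExpKernel (m := Inv T) hle (hF.integrable ν)
    obtain ⟨hF1, K, hK⟩ := id hF
    obtain ⟨h, hh1, hh2, hh3⟩ := exists_bms_condExp (Inv T) ν hle hF1 hK
    have h3 : ν[fun x => F (t x) | Inv T] =ᵐ[ν] h := by
      refine condExp_eq_of_forall (Inv T) ν hle hF' ⟨hh1, K, hh2⟩ fun g hg => ?_
      have hgM : BM g := BMs.mono hle hg
      have e1 : ∫ x, g x * F (t x) ∂ν = ∫ x, g (t x) * F (t x) ∂ν := by
        refine integral_congr_ae ?_
        filter_upwards [hfix g hg] with x hx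
        rw [hx]
      have e2 : ∫ x, g (t x) * F (t x) ∂ν = ∫ x, g x * F x ∂ν := by
        have hm : AEStronglyMeasurable (fun x => g x * F x) (ν.map t) :=
          (BMs.mul hgM hF).1.aestronglyMeasurable
        have e3 := integral_map ht.measurable.aemeasurable hm
        rw [ht.map_eq] at e3
        exact e3.symm
      rw [e1, e2, ← integral_mul_condExp (Inv T) ν hle hF hg]
      refine integral_congr_ae ?_
      filter_upwards [hh3] with x hx
      rw [hx]
    filter_upwards [h1, h2, h3, hh3] with p e1 e2 e3 e4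
    rw [← e1, ← e2, e3, e4]
  have h1 : ∀ᵐ x ∂ν, ∀ A ∈ C, ∫ y, A.indicator (fun _ : P => (1 : ℂ)) (t y)
      ∂(condExpKernel ν (Inv T) x) =
      ∫ y, A.indicator (fun _ : P => (1 : ℂ)) y ∂(condExpKernel ν (Inv T) x) := by
    rw [ae_ball_iff hC1]
    intro A hA
    exact h0 _ (erg_bm_ind (hCm A hA))
  filter_upwards [h1] with x hx
  refine ⟨ht.measurable, ?_⟩
  refine ext_of_generate_finite C hC3 hC2 ?_ ?_
  · intro A hA
    have h2 := hx A hA
    have h3 : (fun y => A.indicator (fun _ : P => (1 : ℂ)) (t y)) =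
        (t ⁻¹' A).indicator (fun _ : P => (1 : ℂ)) := by
      funext y
      rfl
    rw [h3, erg_int_ind (ht.measurable (hCm A hA)), erg_int_ind (hCm A hA)] at h2
    rw [Measure.map_apply ht.measurable (hCm A hA)]
    have h4 : (condExpKernel ν (Inv T) x).real (t ⁻¹' A) = (condExpKernel ν (Inv T) x).real A := by
      exact_mod_cast h2
    exact (measureReal_eq_measureReal_iff).1 h4
  · rw [Measure.map_apply ht.measurable MeasurableSet.univ, Set.preimage_univ]

/-- The set of the group elements whose transformation preserves a measure is closed. -/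
theorem fi1_closed {G P : Type} [TopologicalSpace G] [FirstCountableTopology G]
    [TopologicalSpace P] [CompactSpace P] [T2Space P]
    [SecondCountableTopology P] [MeasurableSpace P] [BorelSpace P] (ρ : Measure P)
    [IsFiniteMeasure ρ] (t : G → P → P) (ht : Continuous fun q : G × P => t q.1 q.2) :
    IsClosed {g : G | MeasurePreserving (t g) ρ ρ} := by
  have hc : ∀ g, Continuous (t g) := fun g => ht.comp (Continuous.prodMk_right g)
  have hcg : ∀ x, Continuous fun g => t g x := fun x => ht.comp (Continuous.prodMk_left x)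
  have e : {g : G | MeasurePreserving (t g) ρ ρ} =
      ⋂ f : BoundedContinuousFunction P ℝ, {g : G | ∫ x, f (t g x) ∂ρ = ∫ x, f x ∂ρ} := by
    ext g
    rw [Set.mem_iInter]
    constructor
    · intro hg f
      have h1 : AEStronglyMeasurable f (ρ.map (t g)) := f.continuous.aestronglyMeasurable
      have h2 := integral_map (hc g).measurable.aemeasurable h1
      have hg' : MeasurePreserving (t g) ρ ρ := hg
      rw [hg'.map_eq] at h2
      exact h2.symm
    · intro h
      refine ⟨(hc g).measurable, ?_⟩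
      refine ext_of_forall_integral_eq_of_IsFiniteMeasure fun f => ?_
      have h1 : AEStronglyMeasurable f (ρ.map (t g)) := f.continuous.aestronglyMeasurable
      rw [integral_map (hc g).measurable.aemeasurable h1]
      exact h f
  rw [e]
  refine isClosed_iInter fun f => ?_
  refine isClosed_eq ?_ continuous_const
  refine continuous_of_dominated (bound := fun _ => ‖f‖) ?_ ?_ ?_ ?_
  · intro g
    exact (f.continuous.comp (hc g)).aestronglyMeasurable
  · intro g
    exact ae_of_all _ fun x => f.norm_coe_le_norm _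
  · exact integrable_const _
  · exact ae_of_all _ fun x => f.continuous.comp (hcg x)

section
variable {G X : Type} [Group G] [TopologicalSpace G] [IsTopologicalGroup G]
    [SecondCountableTopology G]
    [TopologicalSpace X] [CompactSpace X] [T2Space X] [SecondCountableTopology X]
    [MeasurableSpace X] [BorelSpace X] [StandardBorelSpace X] [MulAction G X]
    [ContinuousSMul G X] {τ : G} {M : ℕ → Subgroup G} (hM : Chain τ M) (S : X ≃ᵐ X)
    (hS : ∀ x, S x = τ • x) (μ : Measure X) [IsProbabilityMeasure μ] (hE : Ergodic S μ)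
    (hinv : ∀ g : G, MeasurePreserving (fun a => g • a) μ μ) (ι : Type) [Fintype ι] (D : ℕ)

include hM hS hE

/-- **FI1.** For almost every component the elements of the chain placed on faces preserve the
component measure.

Proof. For a fixed face `F` of codimension `i` and `c ∈ M (i + 1)`: `t = tF c F` preserves the cube
measure (`pres`, `M (i+1) ≤ M i`) and fixes invariant functions (`fix`), so
`E[f ∘ t | Inv] = E[f | Inv]` for all `f`, hence `(κ p).map t = κ p` for almost every `p`
(countable generating π-system). Take a countable dense subset of `M (i + 1)` (second countable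
space) and all the finitely many faces: for almost every `p` this holds for all `c` in the dense
sets. For fixed `p` and a continuous function `f`, `c ↦ ∫ f (tF c F x) ∂(κ p)` is continuous
(`continuous_tF`, `X` compact), so it is constant on `M (i + 1)`, and `(κ p).map t = κ p` for all
`c ∈ M (i + 1)` (finite measures on a compact metrizable space are determined by continuous
functions). -/
theorem fi_comp (hF : FIHyp M μ S ι D) :
    ∀ᵐ p ∂(cube μ S ι D), ∀ i F, Face ι D i F → ∀ c ∈ M (i + 1),
      MeasurePreserving (tF D (fun a => c • a) F)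
        (condExpKernel (cube μ S ι D) (Inv (tArr S ι D)) p)
        (condExpKernel (cube μ S ι D) (Inv (tArr S ι D)) p) := by
  have hone : ∀ (i : ℕ) (F : Set (Fin D → ι)), Face ι D i F → ∀ c ∈ M (i + 1),
      ∀ᵐ p ∂(cube μ S ι D), MeasurePreserving (tF D (fun a => c • a) F)
        (condExpKernel (cube μ S ι D) (Inv (tArr S ι D)) p)
        (condExpKernel (cube μ S ι D) (Inv (tArr S ι D)) p) := by
    intro i F hFa c hc
    refine fi1_comp_one (cube μ S ι D) (tArr S ι D) (hF.pres i F hFa c (hM.anti i hc)) ?_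
    intro f hf
    refine hF.fix i F hFa c hc f (BMs.mono (MeasurableSpace.invariants_le _) hf) ?_
    have h1 : f ∘ (tArr S ι D) = f := MeasurableSpace.comp_eq_of_measurable_invariants hf.1
    exact ae_of_all _ fun x => congrFun h1 x
  have hsc : ∀ i : ℕ, SecondCountableTopology (M (i + 1)) := fun i =>
    Topology.IsEmbedding.subtypeVal.secondCountableTopology
  have hdense : ∀ i : ℕ, ∃ s : ℕ → (M (i + 1)), DenseRange s := fun i => by
    have := hsc i
    exact ⟨TopologicalSpace.denseSeq _, TopologicalSpace.denseRange_denseSeq _⟩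
  choose s hs using hdense
  have hall : ∀ᵐ p ∂(cube μ S ι D), ∀ (i : ℕ) (F : Set (Fin D → ι)) (n : ℕ), Face ι D i F →
      MeasurePreserving (tF D (fun a => (s i n : G) • a) F)
        (condExpKernel (cube μ S ι D) (Inv (tArr S ι D)) p)
        (condExpKernel (cube μ S ι D) (Inv (tArr S ι D)) p) := by
    rw [ae_all_iff]
    intro i
    rw [ae_all_iff]
    intro F
    rw [ae_all_iff]
    intro n
    by_cases hFa : Face ι D i F
    · filter_upwards [hone i F hFa (s i n) (s i n).2] with p hp _
      exact hp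
    · exact ae_of_all _ fun p h => absurd h hFa
  filter_upwards [hall] with p hp
  intro i F hFa c hc
  have hcl : IsClosed {g : M (i + 1) | MeasurePreserving (tF D (fun a => (g : G) • a) F)
      (condExpKernel (cube μ S ι D) (Inv (tArr S ι D)) p)
      (condExpKernel (cube μ S ι D) (Inv (tArr S ι D)) p)} := by
    have := hsc i
    refine fi1_closed _ (fun (g : M (i + 1)) => tF D (fun a => (g : G) • a) F) ?_
    exact (continuous_tF (G := G) (X := X) (ι := ι) D F).comp
      ((continuous_subtype_val.comp continuous_fst).prodMk continuous_snd)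
  have hsub : Set.range (s i) ⊆ {g : M (i + 1) | MeasurePreserving (tF D (fun a => (g : G) • a) F)
      (condExpKernel (cube μ S ι D) (Inv (tArr S ι D)) p)
      (condExpKernel (cube μ S ι D) (Inv (tArr S ι D)) p)} := by
    rintro _ ⟨n, rfl⟩
    exact hp i F n hFa
  have h1 := hcl.closure_subset_iff.2 hsub
  rw [(hs i).closure_range] at h1
  exact h1 (Set.mem_univ (⟨c, hc⟩ : M (i + 1)))

/-- **FI2.** For almost every component: eigenfunctions are mapped to multiples of themselves by the
elements of `M (i + 1)` placed on faces of codimension `i`, and they are fixed by the elements of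
`M (i + 2)`.

Proof. First part: `ul_face` for `ν = κ p` (ergodic for almost every `p`, `ergodic_decomp`) and
`i + 1`. Second part: let `H` be the set of `g ∈ G` such that `tF g F` preserves `κ p` and
`ψ ∘ tF g F = ψ` a.e.; it is a subgroup. By `Chain.gen` (`j = i + 1`) it suffices that
`g b g⁻¹ b⁻¹ ∈ H` for `g ∈ M 1 ∪ {τ}`, `b ∈ M (i + 1)`. Let `u = tF g univ` (diagonal, it preserves
`κ p`: face of codimension `0`, `M 1`, or the diagonal transformation by `τ`), `v = tF b F`; then
`u ∘ v = tF (g b g⁻¹) F ∘ u` and `tF (g b g⁻¹ b⁻¹) F = u v u⁻¹ v⁻¹` (as transformations), and both `u`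
and `v` act on `ψ` by constants (for `u`: first part with the face `univ` of codimension `0`, or the
eigenvalue when `g = τ`), which commute. -/
theorem fi_eig (hF : FIHyp M μ S ι D) :
    ∀ᵐ p ∂(cube μ S ι D), ∀ i F, Face ι D i F → ∀ ψ c,
      IsEig (condExpKernel (cube μ S ι D) (Inv (tArr S ι D)) p) (tArr S ι D) ψ c →
      (∀ g ∈ M (i + 1), ∃ χ : ℂ, ‖χ‖ = 1 ∧
        ∀ᵐ x ∂(condExpKernel (cube μ S ι D) (Inv (tArr S ι D)) p),
          ψ (tF D (fun a => g • a) F x) = χ * ψ x) ∧
      (∀ g ∈ M (i + 2), ∀ᵐ x ∂(condExpKernel (cube μ S ι D) (Inv (tArr S ι D)) p),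
          ψ (tF D (fun a => g • a) F x) = ψ x) := by
  have hT : MeasurePreserving S μ μ := hE.toMeasurePreserving
  have hcubeT : MeasurePreserving (tArr S ι D) (cube μ S ι D) (cube μ S ι D) :=
    cube_tArr μ S hT ι D
  filter_upwards [fi_comp hM S hS μ hE ι D hF, ergodic_decomp (cube μ S ι D) (tArr S ι D) hcubeT]
    with p hp hEp
  intro i F hFa ψ c hψ
  have hcont : ∀ g : G, Measurable fun a : X => g • a := fun g => (continuous_const_smul g).measurable
  have hface : ∀ (i : ℕ) (F : Set (Fin D → ι)), Face ι D i F → ∀ g ∈ M (i + 1), ∃ χ : ℂ, ‖χ‖ = 1 ∧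
      ∀ᵐ x ∂(condExpKernel (cube μ S ι D) (Inv (tArr S ι D)) p),
        ψ (tF D (fun a => g • a) F x) = χ * ψ x := by
    intro i F hFa g hg
    exact ul_face hM S hS D F _ hEp (i + 1) (by omega) (fun g hg => hp i F hFa g hg) hψ g hg
  refine ⟨hface i F hFa, ?_⟩
  -- the subgroup of the elements which fix `ψ`
  let H : Subgroup G :=
    { carrier := {g | g ∈ M (i + 1) ∧ ∀ᵐ x ∂(condExpKernel (cube μ S ι D) (Inv (tArr S ι D)) p),
        ψ (tF D (fun a => g • a) F x) = ψ x}
      one_mem' := by
        refine ⟨one_mem _, ae_of_all _ fun x => ?_⟩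
        have e : (fun a : X => (1 : G) • a) = fun a => a := funext fun a => one_smul G a
        rw [e, tF_id]
      mul_mem' := by
        rintro g h ⟨hg1, hg2⟩ ⟨hh1, hh2⟩
        refine ⟨mul_mem hg1 hh1, ?_⟩
        have h1 := (hp i F hFa h hh1).quasiMeasurePreserving.ae hg2
        filter_upwards [h1, hh2] with x e1 e2
        have e : (fun a : X => (g * h) • a) = fun a => g • (h • a) :=
          funext fun a => mul_smul g h a
        rw [e, ← tF_comp, e1, e2]
      inv_mem' := by
        rintro g ⟨hg1, hg2⟩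
        refine ⟨inv_mem hg1, ?_⟩
        have h1 := (hp i F hFa g⁻¹ (inv_mem hg1)).quasiMeasurePreserving.ae hg2
        filter_upwards [h1] with x e1
        rw [← e1, tF_comp]
        have e : (fun a : X => g • (g⁻¹ • a)) = fun a => a :=
          funext fun a => smul_inv_smul g a
        rw [e, tF_id] }
  have hle : M (i + 2) ≤ H := by
    refine hM.gen (i + 1) (by omega) H fun g hg b hb => ?_
    have hcomm : g * b * g⁻¹ * b⁻¹ ∈ M (i + 1) := hM.anti (i + 1) (hM.comm (i + 1) (by omega) b hb g)
    refine ⟨hcomm, ?_⟩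
    -- the diagonal action of `g`
    obtain ⟨hu, χ, hχ1, hχ⟩ : MeasurePreserving (tF D (fun a => g • a) Set.univ)
        (condExpKernel (cube μ S ι D) (Inv (tArr S ι D)) p)
        (condExpKernel (cube μ S ι D) (Inv (tArr S ι D)) p) ∧ ∃ χ : ℂ, ‖χ‖ = 1 ∧
        ∀ᵐ x ∂(condExpKernel (cube μ S ι D) (Inv (tArr S ι D)) p),
          ψ (tF D (fun a => g • a) Set.univ x) = χ * ψ x := by
      rcases hg with hg | hg
      · exact ⟨hp 0 Set.univ (Face.univ ι D) g hg, hface 0 Set.univ (Face.univ ι D) g hg⟩
      · subst hg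
        have e : tF D (fun a => g • a) Set.univ = tArr S ι D := by
          funext x
          rw [tF_univ]
          funext v
          exact (hS (x v)).symm
        rw [e]
        exact ⟨hEp.toMeasurePreserving, c, hψ.c_norm, hψ.eig⟩
    obtain ⟨χ', hχ'1, hχ'⟩ := hface i F hFa b hb
    have hv := hp i F hFa b hb
    have hχ0 : χ ≠ 0 := by
      intro h
      rw [h, norm_zero] at hχ1
      exact zero_ne_one hχ1
    have hχ'0 : χ' ≠ 0 := by
      intro h
      rw [h, norm_zero] at hχ'1
      exact zero_ne_one hχ'1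
    have hW : Measurable (tF D (fun a : X => (g * b * g⁻¹ * b⁻¹) • a) F) :=
      measurable_tF D (hcont _) F
    have hmeas : MeasurableSet {x : Arr ι X D |
        ψ (tF D (fun a => (g * b * g⁻¹ * b⁻¹) • a) F x) = ψ x} :=
      measurableSet_eq_fun (hψ.meas.comp hW) hψ.meas
    have hvu := hv.comp hu
    have key : ∀ᵐ x ∂(condExpKernel (cube μ S ι D) (Inv (tArr S ι D)) p),
        ψ (tF D (fun a => (g * b * g⁻¹ * b⁻¹) • a) F
          ((tF D (fun a => b • a) F ∘ tF D (fun a => g • a) Set.univ) x)) =
        ψ ((tF D (fun a => b • a) F ∘ tF D (fun a => g • a) Set.univ) x) := by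
      have h1 := hv.quasiMeasurePreserving.ae hχ
      have h2 := hu.quasiMeasurePreserving.ae hχ'
      filter_upwards [h1, h2, hχ, hχ'] with x e1 e2 e3 e4
      have e5 : tF D (fun a => (g * b * g⁻¹ * b⁻¹) • a) F
          ((tF D (fun a => b • a) F ∘ tF D (fun a => g • a) Set.univ) x) =
          tF D (fun a => g • a) Set.univ (tF D (fun a => b • a) F x) := by
        funext v
        by_cases hv : v ∈ F
        · simp only [tF, Function.comp_apply, if_pos hv, Set.mem_univ, if_true]
          rw [← mul_smul, ← mul_smul, ← mul_smul]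
          congr 1
          group
        · simp only [tF, Function.comp_apply, if_neg hv, Set.mem_univ, if_true]
      rw [e5, e1, e4, Function.comp_apply, e2, e3]
      ring
    have h3 := (ae_map_iff hvu.measurable.aemeasurable hmeas).2 key
    rw [hvu.map_eq] at h3
    exact h3
  intro g hg
  exact (hle hg).2

end

end Pool.Agent.HK820

end

/-! ### Part `FI2` -/

section

open MeasureTheory ProbabilityTheory Filter Topology
open scoped ComplexConjugate ENNReal

namespace Pool.Agent.HK820

/-! ### General lemmas -/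

theorem fi2_int_comp {Y : Type} [MeasurableSpace Y] {ν : Measure Y} {t : Y → Y}
    (ht : MeasurePreserving t ν ν) {F : Y → ℂ} (hF : Measurable F) :
    ∫ y, F (t y) ∂ν = ∫ y, F y ∂ν := by
  have h := integral_map (μ := ν) (φ := t) ht.measurable.aemeasurable
    (f := F) (by rw [ht.map_eq]; exact hF.aestronglyMeasurable)
  rw [ht.map_eq] at h
  exact h.symm

/-- conditional expectations on the invariant sets are equivariant under transformations which
normalise the set of invariant functions -/
theorem fi2_condExp_comp {Y : Type} [mY : MeasurableSpace Y] (ν : Measure Y)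
    [IsProbabilityMeasure ν] (T : Y → Y) (hT : MeasurePreserving T ν ν) {t t' : Y → Y}
    (ht : MeasurePreserving t ν ν) (ht' : MeasurePreserving t' ν ν) (h1 : ∀ y, t' (t y) = y)
    (hn : ∀ f : Y → ℂ, BM f → (fun y => f (T y)) =ᵐ[ν] f →
      (fun y => f (t (T y))) =ᵐ[ν] fun y => f (t y))
    (hn' : ∀ f : Y → ℂ, BM f → (fun y => f (T y)) =ᵐ[ν] f →
      (fun y => f (t' (T y))) =ᵐ[ν] fun y => f (t' y))
    {H : Y → ℂ} (hH : BM H) :
    ν[fun y => H (t y) | Inv T] =ᵐ[ν] fun y => (ν[H | Inv T]) (t y) := by
  have hm : Inv T ≤ mY := cubb_inv_le T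
  obtain ⟨C, hC⟩ := hH.2
  obtain ⟨g, hg1, hg2, hg3⟩ := exists_bms_condExp (Inv T) ν hm hH.1 hC
  have hgB : BM g := ⟨hg1.mono hm le_rfl, C, hg2⟩
  have hinvf : ∀ φ : Y → ℂ, Measurable[Inv T] φ → (fun y => φ (T y)) =ᵐ[ν] φ := by
    intro φ hφ
    have := MeasurableSpace.comp_eq_of_measurable_invariants (f := T) (g := φ) hφ
    exact Filter.Eventually.of_forall (fun y => congrFun this y)
  -- transported invariant functions
  have key : ∀ (s : Y → Y), MeasurePreserving s ν ν →
      (∀ f : Y → ℂ, BM f → (fun y => f (T y)) =ᵐ[ν] f →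
        (fun y => f (s (T y))) =ᵐ[ν] fun y => f (s y)) →
      ∀ φ : Y → ℂ, BMs (Inv T) φ → ∃ φ₂ : Y → ℂ, BMs (Inv T) φ₂ ∧
        (fun y => φ (s y)) =ᵐ[ν] φ₂ := by
    intro s hs hns φ hφ
    have hφB : BM φ := ⟨hφ.1.mono hm le_rfl, hφ.2⟩
    obtain ⟨K, hK⟩ := hφ.2
    have hA : AEM (Inv T) ν (fun y => φ (s y)) :=
      aem_inv_of_comp ν T hT (hφB.1.comp hs.measurable).aestronglyMeasurable
        (hns φ hφB (hinvf φ hφ.1))
    obtain ⟨φ₂, k1, k2, k3⟩ := hA.bounded (C := max K 0) (le_max_right _ _)
      (Filter.Eventually.of_forall (fun y => (hK _).trans (le_max_left _ _)))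
    exact ⟨φ₂, ⟨k1, _, k2⟩, k3⟩
  obtain ⟨g₂, hg₂, hg₂'⟩ := key t ht hn g ⟨hg1, C, hg2⟩
  have hHt : BM (fun y => H (t y)) := ⟨hH.1.comp ht.measurable, C, fun y => hC _⟩
  have hmain : ν[fun y => H (t y) | Inv T] =ᵐ[ν] g₂ := by
    refine condExp_eq_of_forall (Inv T) ν hm hHt hg₂ ?_
    intro φ hφ
    have hφB : BM φ := ⟨hφ.1.mono hm le_rfl, hφ.2⟩
    obtain ⟨φ₂, hφ₂, hφ₂'⟩ := key t' ht' hn' φ hφ
    have e1 : ∫ y, φ y * H (t y) ∂ν = ∫ y, φ (t' y) * H y ∂ν := by
      rw [← fi2_int_comp (F := fun y => φ (t' y) * H y) ht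
        ((hφB.1.comp ht'.measurable).mul hH.1)]
      simp only [h1]
    have e2 : ∫ y, φ y * g (t y) ∂ν = ∫ y, φ (t' y) * g y ∂ν := by
      rw [← fi2_int_comp (F := fun y => φ (t' y) * g y) ht
        ((hφB.1.comp ht'.measurable).mul hgB.1)]
      simp only [h1]
    have e3 : ∫ y, φ (t' y) * H y ∂ν = ∫ y, φ₂ y * H y ∂ν := by
      refine integral_congr_ae ?_
      filter_upwards [hφ₂'] with y hy
      rw [hy]
    have e4 : ∫ y, φ (t' y) * g y ∂ν = ∫ y, φ₂ y * g y ∂ν := by
      refine integral_congr_ae ?_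
      filter_upwards [hφ₂'] with y hy
      rw [hy]
    have e5 : ∫ y, φ₂ y * g y ∂ν = ∫ y, φ₂ y * H y ∂ν := by
      rw [← integral_mul_condExp (Inv T) ν hm hH hφ₂]
      refine integral_congr_ae ?_
      filter_upwards [hg3] with y hy
      rw [hy]
    have e6 : ∫ y, φ y * g₂ y ∂ν = ∫ y, φ y * g (t y) ∂ν := by
      refine integral_congr_ae ?_
      filter_upwards [hg₂'] with y hy
      rw [hy]
    rw [e1, e3, e6, e2, e4, e5]
  have hgt : (fun y => (ν[H | Inv T]) (t y)) =ᵐ[ν] fun y => g (t y) :=
    ht.quasiMeasurePreserving.ae_eq_comp hg3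
  exact hmain.trans (hg₂'.symm.trans hgt.symm)

/-- conditional expectations on the invariant sets are not changed by transformations which fix
the invariant functions -/
theorem fi2_condExp_fix {Y : Type} [mY : MeasurableSpace Y] (ν : Measure Y)
    [IsProbabilityMeasure ν] (T : Y → Y) (hT : MeasurePreserving T ν ν) {t t' : Y → Y}
    (ht : MeasurePreserving t ν ν) (ht' : MeasurePreserving t' ν ν) (h1 : ∀ y, t' (t y) = y)
    (hf : ∀ f : Y → ℂ, BM f → (fun y => f (T y)) =ᵐ[ν] f →
      (fun y => f (t y)) =ᵐ[ν] f)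
    (hf' : ∀ f : Y → ℂ, BM f → (fun y => f (T y)) =ᵐ[ν] f →
      (fun y => f (t' y)) =ᵐ[ν] f)
    {H : Y → ℂ} (hH : BM H) :
    ν[fun y => H (t y) | Inv T] =ᵐ[ν] ν[H | Inv T] := by
  have hm : Inv T ≤ mY := cubb_inv_le T
  have hn : ∀ s : Y → Y, MeasurePreserving s ν ν → (∀ f : Y → ℂ, BM f →
      (fun y => f (T y)) =ᵐ[ν] f → (fun y => f (s y)) =ᵐ[ν] f) →
      ∀ f : Y → ℂ, BM f → (fun y => f (T y)) =ᵐ[ν] f →
      (fun y => f (s (T y))) =ᵐ[ν] fun y => f (s y) := by
    intro s _ hs f hfB hfi
    have a1 := hs f hfB hfi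
    have a2 : (fun y => f (s (T y))) =ᵐ[ν] fun y => f (T y) :=
      hT.quasiMeasurePreserving.ae_eq_comp a1
    exact a2.trans (hfi.trans a1.symm)
  have hc := fi2_condExp_comp ν T hT ht ht' h1 (hn t ht hf) (hn t' ht' hf') hH
  obtain ⟨C, hC⟩ := hH.2
  obtain ⟨g, hg1, hg2, hg3⟩ := exists_bms_condExp (Inv T) ν hm hH.1 hC
  have hgB : BM g := ⟨hg1.mono hm le_rfl, C, hg2⟩
  have hgi : (fun y => g (T y)) =ᵐ[ν] g := by
    have := MeasurableSpace.comp_eq_of_measurable_invariants (f := T) (g := g) hg1
    exact Filter.Eventually.of_forall (fun y => congrFun this y)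
  have hgt : (fun y => (ν[H | Inv T]) (t y)) =ᵐ[ν] fun y => g (t y) :=
    ht.quasiMeasurePreserving.ae_eq_comp hg3
  exact hc.trans (hgt.trans ((hf g hgB hgi).trans hg3.symm))

open Classical in
/-- a transformation of one coordinate which fixes the invariant functions preserves the relatively
independent powers -/
theorem fi2_relInd_one {Y : Type} (m : MeasurableSpace Y) [mY : MeasurableSpace Y]
    [StandardBorelSpace Y] (ν : Measure Y) [IsProbabilityMeasure ν] (hm : m ≤ mY) {t : Y → Y}
    (ht : Measurable t) (hf : ∀ H : Y → ℂ, BM H → ν[fun y => H (t y) | m] =ᵐ[ν] ν[H | m])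
    (ι : Type) [Fintype ι] (c : ι) :
    MeasurePreserving (fun (z : ι → Y) i => if i = c then t (z i) else z i)
      (relInd m ν ι) (relInd m ν ι) := by
  have hmeas : Measurable (fun (z : ι → Y) i => if i = c then t (z i) else z i) := by
    refine measurable_pi_lambda _ (fun i => ?_)
    by_cases h : i = c
    · simp only [h, if_true]
      exact ht.comp (measurable_pi_apply _)
    · simp only [h, if_false]
      exact measurable_pi_apply _
  refine ⟨hmeas, ?_⟩
  have := relInd_prob m ν ι
  have : IsProbabilityMeasure ((relInd m ν ι).map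
      (fun (z : ι → Y) i => if i = c then t (z i) else z i)) :=
    Measure.isProbabilityMeasure_map hmeas.aemeasurable
  refine ext_prod _ _ (fun g hg => ?_)
  have hgm : Measurable (fun z : ι → Y => ∏ i, g i (z i)) :=
    Finset.measurable_prod _ (fun i _ => (hg i).1.comp (measurable_pi_apply i))
  rw [integral_map hmeas.aemeasurable hgm.aestronglyMeasurable]
  have hg' : ∀ i, BM (fun y => if i = c then g i (t y) else g i y) := by
    intro i
    obtain ⟨C, hC⟩ := (hg i).2
    by_cases h : i = c
    · simp only [h, if_true]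
      exact ⟨(h ▸ hg i).1.comp ht, C, fun y => by simpa [h] using hC (t y)⟩
    · simp only [h, if_false]
      exact hg i
  have e1 : (fun z : ι → Y => ∏ i, g i (if i = c then t (z i) else z i)) =
      fun z => ∏ i, (fun i y => if i = c then g i (t y) else g i y) i (z i) := by
    funext z
    refine Finset.prod_congr rfl (fun i _ => ?_)
    by_cases h : i = c <;> simp [h]
  rw [e1, relInd_prod m ν hm hg', relInd_prod m ν hm hg]
  have e2 : ∀ i, ν[fun y => if i = c then g i (t y) else g i y | m] =ᵐ[ν] ν[g i | m] := by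
    intro i
    by_cases h : i = c
    · simp only [h, if_true]
      exact hf (g c) (hg c)
    · simp only [h, if_false]
      exact Filter.EventuallyEq.rfl
  refine integral_congr_ae ?_
  filter_upwards [ae_all_iff.2 (fun i => e2 i)] with y hy
  exact Finset.prod_congr rfl (fun i _ => hy i)

/-- almost everywhere statements for relatively independent powers -/
theorem fi2_ae_relInd {Y : Type} (m : MeasurableSpace Y) [mY : MeasurableSpace Y]
    [StandardBorelSpace Y] (ν : Measure Y) [IsProbabilityMeasure ν] (ι : Type) [Fintype ι]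
    {P : (ι → Y) → Prop} (hP : MeasurableSet {z | P z}) :
    (∀ᵐ z ∂(relInd m ν ι), P z) ↔
      ∀ᵐ y ∂ν, ∀ᵐ z ∂(Measure.pi (fun _ : ι => condExpKernel ν m y)), P z := by
  rw [relInd_eq_bind]
  have hκ := (measurable_pi_condExpKernel m ν ι)
  constructor
  · intro h
    exact Measure.ae_ae_of_ae_bind hκ.aemeasurable h
  · intro h
    have h0 : (ν.bind (fun y => Measure.pi (fun _ : ι => condExpKernel ν m y))) {z | P z}ᶜ = 0 := by
      rw [Measure.bind_apply hP.compl hκ.aemeasurable]
      refine (lintegral_eq_zero_iff' ((Measure.measurable_coe hP.compl).comp hκ).aemeasurable).2 ?_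
      filter_upwards [h] with y hy
      exact hy
    exact h0

/-- the slices of an array transformed on a face of the first type -/
theorem fi2_tF_all {X ι : Type} (D : ℕ) (g : X → X) (F : Set (Fin D → ι)) (x : Arr ι X (D + 1)) :
    tF (D + 1) g {v | Fin.tail v ∈ F} x = glue (fun i => tF D g F (slice x i)) := by
  rw [← glue_slice (tF (D + 1) g {v | Fin.tail v ∈ F} x)]
  refine congrArg glue ?_
  funext i
  exact slice_tF_all D g F x i

open Classical in
theorem fi2_tF_one {X ι : Type} (D : ℕ) (g : X → X) (F : Set (Fin D → ι)) (c : ι)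
    (x : Arr ι X (D + 1)) :
    tF (D + 1) g {v | v 0 = c ∧ Fin.tail v ∈ F} x =
      glue (fun i => if i = c then tF D g F (slice x i) else slice x i) := by
  rw [← glue_slice (tF (D + 1) g {v | v 0 = c ∧ Fin.tail v ∈ F} x)]
  refine congrArg glue ?_
  funext i
  exact slice_tF_one D g F c x i

theorem fi2_inv {G X ι : Type} [Group G] [MulAction G X] (D : ℕ) (c : G)
    (F : Set (Fin D → ι)) (x : Arr ι X D) :
    tF D (fun a => c⁻¹ • a) F (tF D (fun a => c • a) F x) = x := by
  rw [tF_comp]
  simp only [inv_smul_smul]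
  exact tF_id D F x

section
variable {G X : Type} [Group G] [TopologicalSpace G] [IsTopologicalGroup G]
    [SecondCountableTopology G]
    [TopologicalSpace X] [CompactSpace X] [T2Space X] [SecondCountableTopology X]
    [MeasurableSpace X] [BorelSpace X] [StandardBorelSpace X] [MulAction G X]
    [ContinuousSMul G X] {τ : G} {M : ℕ → Subgroup G} (hM : Chain τ M) (S : X ≃ᵐ X)
    (hS : ∀ x, S x = τ • x) (μ : Measure X) [IsProbabilityMeasure μ] (hE : Ergodic S μ)
    (hinv : ∀ g : G, MeasurePreserving (fun a => g • a) μ μ) (ι : Type) [Fintype ι] (D : ℕ)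

include hM hS hE

/-- **FI3.** Dimension `D + 1`: elements of `M i'` placed on faces of codimension `i'` preserve the cube
measure.

Proof. Let `F'` be a face of codimension `i'` of `ι^(D+1)`. Case `F' = {v | tail v ∈ F}`, `F` of
codimension `i'`: the transformation acts on every slice by `t = tF c F`, `c ∈ M i'`, which preserves
`cube D` and maps invariant functions to invariant functions (`norm`; also for `c⁻¹`), so
`E[H ∘ t | Inv] = E[H | Inv] ∘ t`, and `relInd_map` gives the invariance (`glue_mp`, `slice_mp`,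
`slice_tF_all`). Case `F' = {v | v 0 = c₀, tail v ∈ F}`, `F` of codimension `i`, `i' = i + 1`: the
transformation acts on the slice `c₀` by `t = tF c F`, `c ∈ M (i + 1)`, which preserves `cube D`
(`pres`, `M (i+1) ≤ M i`) and fixes invariant functions (`fix`), so `E[H ∘ t | Inv] = E[H | Inv]`, and
the product formula `cube_prod` gives the invariance (`ext_prod`). -/
theorem fi_pres (hF : FIHyp M μ S ι D) : ∀ i F, Face ι (D + 1) i F → ∀ c ∈ M i,
    MeasurePreserving (tF (D + 1) (fun a => c • a) F) (cube μ S ι (D + 1))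
      (cube μ S ι (D + 1)) := by
  classical
  intro i F hface c hc
  have hTD : MeasurePreserving (tArr S ι D) (cube μ S ι D) (cube μ S ι D) :=
    cube_tArr μ S hE.toMeasurePreserving ι D
  have hm : Inv (tArr S ι D) ≤ (inferInstance : MeasurableSpace (Arr ι X D)) :=
    cubb_inv_le _
  cases hface with
  | @all _ _ F₀ h =>
    have hc' : c⁻¹ ∈ M i := (M i).inv_mem hc
    have hp := hF.pres i F₀ h c hc
    have hp' := hF.pres i F₀ h c⁻¹ hc'
    have hrel := relInd_map (Inv (tArr S ι D)) (Inv (tArr S ι D)) (cube μ S ι D) (cube μ S ι D)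
      hm hm hp (fun H hH => fi2_condExp_comp (cube μ S ι D) (tArr S ι D) hTD hp hp'
        (fun y => fi2_inv D c F₀ y) (hF.norm i F₀ h c hc) (hF.norm i F₀ h c⁻¹ hc') hH) ι
    have hfin := (glue_mp μ S ι D).comp (hrel.comp (slice_mp μ S ι D))
    have he : tF (D + 1) (fun a => c • a) {v | Fin.tail v ∈ F₀} =
        glue ∘ ((fun (z : ι → Arr ι X D) j => tF D (fun a => c • a) F₀ (z j)) ∘ slice) := by
      funext x
      exact fi2_tF_all D _ F₀ x
    rw [he]
    exact hfin
  | @one _ i₀ F₀ c₀ h =>
    have hcl : c ∈ M i₀ := hM.anti i₀ hc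
    have hc' : c⁻¹ ∈ M (i₀ + 1) := (M (i₀ + 1)).inv_mem hc
    have hcl' : c⁻¹ ∈ M i₀ := hM.anti i₀ hc'
    have hp := hF.pres i₀ F₀ h c hcl
    have hp' := hF.pres i₀ F₀ h c⁻¹ hcl'
    have hrel := fi2_relInd_one (Inv (tArr S ι D)) (cube μ S ι D) hm hp.measurable
      (fun H hH => fi2_condExp_fix (cube μ S ι D) (tArr S ι D) hTD hp hp'
        (fun y => fi2_inv D c F₀ y) (hF.fix i₀ F₀ h c hc) (hF.fix i₀ F₀ h c⁻¹ hc') hH) ι c₀
    have hfin := (glue_mp μ S ι D).comp (hrel.comp (slice_mp μ S ι D))
    have he : tF (D + 1) (fun a => c • a) {v | v 0 = c₀ ∧ Fin.tail v ∈ F₀} =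
        glue ∘ ((fun (z : ι → Arr ι X D) j =>
          if j = c₀ then tF D (fun a => c • a) F₀ (z j) else z j) ∘ slice) := by
      funext x
      exact fi2_tF_one D _ F₀ c₀ x
    rw [he]
    exact hfin

/-- **FI4.** Dimension `D + 1`: elements of `M (i' + 1)` placed on faces of codimension `i'` fix the
invariant functions.

Proof. Let `f` be bounded and invariant on `(D+1)`-dimensional arrays, `W z = f (glue z)`;
`relInd (Inv tArr) (cube D) ι` is the average over `p` of the powers of `κ p`
(definition of `relInd`), so for almost every `p`, `W` is invariant under the diagonal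
transformation a.e. for the power of `κ p`. Apply `kronecker` to `P = κ p` (ergodic), with
Case `F' = {v | tail v ∈ F}` (codimension `i' = i` of `F`): `h i = tF c F`, `c ∈ M (i + 1)`, for every
slice (FI1, FI2); the condition on the constants: if `∏ c_i = 1` then the product of the
eigenfunctions `ψ_i` (as functions of ONE point) is an invariant function, hence constant, and
applying `tF c F` gives `∏ χ_i = 1`.
Case `F' = {v | v 0 = c₀, tail v ∈ F}`, `i' = i + 1`, `c ∈ M (i + 2)`: `h c₀ = tF c F`, the other ones are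
the identity; all the constants are `1` by the second part of FI2.
So `W ∘ h = W` a.e. for the power of `κ p`, for almost every `p`, hence a.e. for `relInd`. -/
theorem fi_fix (hF : FIHyp M μ S ι D) : ∀ i F, Face ι (D + 1) i F → ∀ c ∈ M (i + 1),
    ∀ f : Arr ι X (D + 1) → ℂ, BM f →
    (fun x => f (tArr S ι (D + 1) x)) =ᵐ[cube μ S ι (D + 1)] f →
    (fun x => f (tF (D + 1) (fun a => c • a) F x)) =ᵐ[cube μ S ι (D + 1)] f := by
  classical
  intro i F hface c hc f hfB hfi
  have hTD : MeasurePreserving (tArr S ι D) (cube μ S ι D) (cube μ S ι D) :=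
    cube_tArr μ S hE.toMeasurePreserving ι D
  -- the function on tuples of slices
  have hWB : BM (fun z : ι → Arr ι X D => f (glue z)) := by
    obtain ⟨C, hC⟩ := hfB.2
    exact ⟨hfB.1.comp measurable_glue, C, fun z => hC _⟩
  have hWi : ∀ᵐ z ∂(relInd (Inv (tArr S ι D)) (cube μ S ι D) ι),
      f (glue (tTup (tArr S ι D) ι z)) = f (glue z) := by
    have h1 := (glue_mp μ S ι D).quasiMeasurePreserving.ae hfi
    filter_upwards [h1] with z hz
    rw [← hz]
    rfl
  have hms : MeasurableSet {z : ι → Arr ι X D |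
      f (glue (tTup (tArr S ι D) ι z)) = f (glue z)} :=
    measurableSet_eq_fun (hWB.1.comp (tTup (tArr S ι D) ι).measurable) hWB.1
  have hWi' := (fi2_ae_relInd (Inv (tArr S ι D)) (cube μ S ι D) ι hms).1 hWi
  have herg := ergodic_decomp (cube μ S ι D) (tArr S ι D) hTD
  have hcomp := fi_comp hM S hS μ hE ι D hF
  have heig := fi_eig hM S hS μ hE ι D hF
  -- reduction to the components
  have hred : ∀ (h : ι → Arr ι X D → Arr ι X D), (∀ j, Measurable (h j)) →
      (∀ᵐ p ∂(cube μ S ι D), ∀ᵐ z ∂(Measure.pi (fun _ : ι =>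
        condExpKernel (cube μ S ι D) (Inv (tArr S ι D)) p)),
        f (glue (fun j => h j (z j))) = f (glue z)) →
      (∀ x, tF (D + 1) (fun a => c • a) F x = glue (fun j => h j (slice x j))) →
      (fun x => f (tF (D + 1) (fun a => c • a) F x)) =ᵐ[cube μ S ι (D + 1)] f := by
    intro h hh hp he
    have hms' : MeasurableSet {z : ι → Arr ι X D | f (glue (fun j => h j (z j))) = f (glue z)} :=
      measurableSet_eq_fun (hWB.1.comp (measurable_pi_lambda _
        (fun j => (hh j).comp (measurable_pi_apply j)))) hWB.1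
    have h1 := (fi2_ae_relInd (Inv (tArr S ι D)) (cube μ S ι D) ι hms').2 hp
    have h2 := (slice_mp μ S ι D).quasiMeasurePreserving.ae h1
    filter_upwards [h2] with x hx
    rw [he, hx, glue_slice]
  cases hface with
  | @all _ _ F₀ hF₀ =>
    refine hred (fun _ => tF D (fun a => c • a) F₀)
      (fun _ => measurable_tF D (measurable_const_smul c) F₀) ?_
      (fun x => fi2_tF_all D _ F₀ x)
    filter_upwards [hWi', herg, hcomp, heig] with p h1 h2 h3 h4
    refine kronecker (condExpKernel (cube μ S ι D) (Inv (tArr S ι D)) p) (tArr S ι D) h2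
      (fun _ => tF D (fun a => c • a) F₀) (fun _ => h3 i F₀ hF₀ c hc)
      (fun _ ψ e he => (h4 i F₀ hF₀ ψ e he).1 c hc) ?_ hWB h1
    intro ψ e χ hψ hχ he
    have hmp := h3 i F₀ hF₀ c hc
    -- the product of the eigenfunctions is constant
    have hPm : Measurable (fun x => ∏ j, ψ j x) :=
      Finset.measurable_prod _ (fun j _ => (hψ j).meas)
    have hPi : ((fun x => ∏ j, ψ j x) ∘ (tArr S ι D)) =ᵐ[condExpKernel (cube μ S ι D)
        (Inv (tArr S ι D)) p] (fun x => ∏ j, ψ j x) := by
      filter_upwards [ae_all_iff.2 (fun j => (hψ j).eig)] with x hx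
      simp only [Function.comp]
      rw [Finset.prod_congr rfl (fun j _ => hx j), Finset.prod_mul_distrib, he, one_mul]
    obtain ⟨a, ha⟩ := h2.ae_eq_const_of_ae_eq_comp_ae hPm.aestronglyMeasurable hPi
    have ha' : (fun x => ∏ j, ψ j (tF D (fun a => c • a) F₀ x)) =ᵐ[condExpKernel (cube μ S ι D)
        (Inv (tArr S ι D)) p] fun _ => a :=
      hmp.quasiMeasurePreserving.ae_eq_comp ha
    have hall : ∀ᵐ x ∂(condExpKernel (cube μ S ι D) (Inv (tArr S ι D)) p),
        ∏ j, χ j = 1 := by
      filter_upwards [ha, ha', ae_all_iff.2 hχ] with x k1 k2 k3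
      have k4 : ∏ j, ψ j (tF D (fun a => c • a) F₀ x) = (∏ j, χ j) * ∏ j, ψ j x := by
        rw [Finset.prod_congr rfl (fun j _ => k3 j), Finset.prod_mul_distrib]
      have k5 : ∏ j, ψ j x ≠ 0 := by
        refine Finset.prod_ne_zero_iff.2 (fun j _ => ?_)
        intro h0
        have := (hψ j).norm x
        rw [h0, norm_zero] at this
        exact zero_ne_one this
      have k6 : (∏ j, χ j) * ∏ j, ψ j x = 1 * ∏ j, ψ j x := by
        rw [one_mul, ← k4]
        exact k2.trans k1.symm
      exact mul_right_cancel₀ k5 k6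
    exact hall.exists.choose_spec
  | @one _ i₀ F₀ c₀ hF₀ =>
    have hcl : c ∈ M (i₀ + 1) := hM.anti (i₀ + 1) hc
    have hmeas : ∀ j, Measurable (fun y : Arr ι X D =>
        if j = c₀ then tF D (fun a => c • a) F₀ y else y) := by
      intro j
      by_cases h : j = c₀
      · simp only [h, if_true]
        exact measurable_tF D (measurable_const_smul c) F₀
      · simp only [h, if_false]
        exact measurable_id
    refine hred (fun j y => if j = c₀ then tF D (fun a => c • a) F₀ y else y) hmeas ?_
      (fun x => fi2_tF_one D _ F₀ c₀ x)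
    filter_upwards [hWi', herg, hcomp, heig] with p h1 h2 h3 h4
    refine kronecker (condExpKernel (cube μ S ι D) (Inv (tArr S ι D)) p) (tArr S ι D) h2
      (fun j y => if j = c₀ then tF D (fun a => c • a) F₀ y else y) ?_ ?_ ?_ hWB h1
    · intro j
      by_cases h : j = c₀
      · simp only [h, if_true]
        exact h3 i₀ F₀ hF₀ c hcl
      · simp only [h, if_false]
        exact MeasurePreserving.id _
    · intro j ψ e he
      by_cases h : j = c₀
      · simp only [h, if_true]
        exact (h4 i₀ F₀ hF₀ ψ e he).1 c hcl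
      · simp only [h, if_false]
        exact ⟨1, norm_one, Filter.Eventually.of_forall (fun x => (one_mul _).symm)⟩
    · intro ψ e χ hψ hχ _
      refine Finset.prod_eq_one (fun j _ => ?_)
      have hj : ∀ᵐ x ∂(condExpKernel (cube μ S ι D) (Inv (tArr S ι D)) p), χ j = 1 := by
        have hfix : ∀ᵐ x ∂(condExpKernel (cube μ S ι D) (Inv (tArr S ι D)) p),
            ψ j (if j = c₀ then tF D (fun a => c • a) F₀ x else x) = ψ j x := by
          by_cases h : j = c₀
          · simp only [h, if_true]
            exact (h4 i₀ F₀ hF₀ (ψ c₀) (e c₀) (hψ c₀)).2 c hc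
          · simp only [h, if_false]
            exact Filter.Eventually.of_forall (fun _ => trivial)
        filter_upwards [hfix, hχ j] with x k1 k2
        have k3 : ψ j x ≠ 0 := by
          intro h0
          have := (hψ j).norm x
          rw [h0, norm_zero] at this
          exact zero_ne_one this
        have k4 : χ j * ψ j x = 1 * ψ j x := by
          rw [one_mul, ← k2, k1]
        exact mul_right_cancel₀ k3 k4
      exact hj.exists.choose_spec

/-- **FI5.** `norm` follows from `pres` and `fix` in the same dimension.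

Proof. `f (tF c F (S x)) = f (S (tF (τ⁻¹ c τ) F x)) = f (tF (τ⁻¹ c τ) F x) =
f (tF (τ⁻¹ c τ c⁻¹) F (tF c F x))`, and `τ⁻¹ c τ c⁻¹ ∈ M (i + 1)` (for `i = 0` use `M 0 = M 1` and
`M 2 ≤ M 1`; for `i ≥ 1` `Chain.comm`), so by `fix` (composed with the measure preserving `tF c F`)
this is `f (tF c F x)`. -/
theorem fi_norm (D : ℕ) (hp : ∀ i F, Face ι D i F → ∀ c ∈ M i,
      MeasurePreserving (tF D (fun a => c • a) F) (cube μ S ι D) (cube μ S ι D))
    (hf : ∀ i F, Face ι D i F → ∀ c ∈ M (i + 1), ∀ f : Arr ι X D → ℂ, BM f →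
      (fun x => f (tArr S ι D x)) =ᵐ[cube μ S ι D] f →
      (fun x => f (tF D (fun a => c • a) F x)) =ᵐ[cube μ S ι D] f) :
    ∀ i F, Face ι D i F → ∀ c ∈ M i, ∀ f : Arr ι X D → ℂ, BM f →
    (fun x => f (tArr S ι D x)) =ᵐ[cube μ S ι D] f →
    (fun x => f (tF D (fun a => c • a) F (tArr S ι D x))) =ᵐ[cube μ S ι D]
      fun x => f (tF D (fun a => c • a) F x) := by
  intro i F hface c hc f hfB hfi
  -- the commutator
  have hd : τ⁻¹ * c * τ * c⁻¹ ∈ M (i + 1) := by
    rcases Nat.eq_zero_or_pos i with h0 | h0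
    · subst h0
      have hc1 : c ∈ M 1 := hM.zero ▸ hc
      have := hM.comm 1 le_rfl c hc1 τ⁻¹
      rw [inv_inv] at this
      exact hM.anti 1 this
    · have := hM.comm i h0 c hc τ⁻¹
      rw [inv_inv] at this
      exact this
  have hc' : τ⁻¹ * c * τ ∈ M i := by
    have h1 : τ⁻¹ * c * τ = (τ⁻¹ * c * τ * c⁻¹) * c := by group
    rw [h1]
    exact (M i).mul_mem (hM.anti i hd) hc
  -- first step
  have e1 : ∀ x : Arr ι X D, tF D (fun a => c • a) F (tArr S ι D x) =
      tArr S ι D (tF D (fun a => (τ⁻¹ * c * τ) • a) F x) := by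
    intro x
    refine (tF_tArr D S (g := fun a : X => (τ⁻¹ * c * τ) • a) (g' := fun a : X => c • a) ?_ F x).symm
    intro a
    simp only [hS, smul_smul]
    congr 1
    group
  have e2 : ∀ x : Arr ι X D, tF D (fun a => (τ⁻¹ * c * τ) • a) F x =
      tF D (fun a => (τ⁻¹ * c * τ * c⁻¹) • a) F (tF D (fun a => c • a) F x) := by
    intro x
    rw [tF_comp]
    congr 1
    funext a
    rw [smul_smul]
    congr 1
    group
  have s1 : (fun x => f (tArr S ι D (tF D (fun a => (τ⁻¹ * c * τ) • a) F x)))
      =ᵐ[cube μ S ι D] fun x => f (tF D (fun a => (τ⁻¹ * c * τ) • a) F x) :=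
    (hp i F hface _ hc').quasiMeasurePreserving.ae_eq_comp hfi
  have s2 : (fun x => f (tF D (fun a => (τ⁻¹ * c * τ * c⁻¹) • a) F
      (tF D (fun a => c • a) F x))) =ᵐ[cube μ S ι D] fun x => f (tF D (fun a => c • a) F x) :=
    (hp i F hface c hc).quasiMeasurePreserving.ae_eq_comp (hf i F hface _ hd f hfB hfi)
  filter_upwards [s1, s2] with x h1 h2
  rw [e1, h1, e2, h2]

include hinv

/-- **FI6.** Face invariance in all dimensions. Induction on `D`; `D = 0`: the only face is `univ`
(codimension `0`), `cube 0` is `μ` on arrays with one vertex, `pres` is `hinv`, invariant functions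
are constant by ergodicity. -/
theorem face_invariance (D : ℕ) : FIHyp M μ S ι D := by
  induction D with
  | zero =>
    have hbm : ∀ c : G, MeasurePreserving (tF 0 (fun a => c • a) (Set.univ : Set (Fin 0 → ι)))
        (cube μ S ι 0) (cube μ S ι 0) := by
      intro c
      have hm0 : Measurable (fun (x : X) (_ : Fin 0 → ι) => x) :=
        measurable_pi_lambda _ (fun _ => measurable_id)
      have hmt : Measurable (tF 0 (fun a : X => c • a) (Set.univ : Set (Fin 0 → ι))) :=
        measurable_tF 0 (measurable_const_smul c) _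
      refine ⟨hmt, ?_⟩
      change (μ.map (fun x _ => x)).map _ = μ.map (fun x _ => x)
      rw [Measure.map_map hmt hm0]
      have he : (tF 0 (fun a : X => c • a) (Set.univ : Set (Fin 0 → ι))) ∘
          (fun (x : X) (_ : Fin 0 → ι) => x) = (fun (x : X) (_ : Fin 0 → ι) => x) ∘
            (fun a => c • a) := by
        funext x
        simp only [Function.comp]
        exact tF_univ 0 _ _
      rw [he, ← Measure.map_map hm0 (hinv c).measurable, (hinv c).map_eq]
    have hpres : ∀ i F, Face ι 0 i F → ∀ c ∈ M i,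
        MeasurePreserving (tF 0 (fun a => c • a) F) (cube μ S ι 0) (cube μ S ι 0) := by
      intro i F hface c _
      cases hface
      exact hbm c
    have hfix : ∀ i F, Face ι 0 i F → ∀ c ∈ M (i + 1), ∀ f : Arr ι X 0 → ℂ, BM f →
        (fun x => f (tArr S ι 0 x)) =ᵐ[cube μ S ι 0] f →
        (fun x => f (tF 0 (fun a => c • a) F x)) =ᵐ[cube μ S ι 0] f := by
      intro i F hface c _ f hfB hfi
      cases hface
      have hm0 : Measurable (fun (x : X) (_ : Fin 0 → ι) => x) :=
        measurable_pi_lambda _ (fun _ => measurable_id)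
      have hfi' : ∀ᵐ x ∂(μ.map (fun (x : X) (_ : Fin 0 → ι) => x)), f (tArr S ι 0 x) = f x := hfi
      have h1 : ∀ᵐ a ∂μ, f (fun _ => S a) = f (fun _ => a) :=
        ae_of_ae_map hm0.aemeasurable hfi'
      obtain ⟨e, he⟩ := hE.ae_eq_const_of_ae_eq_comp_ae
        (g := fun a => f (fun _ => a)) (hfB.1.comp hm0).aestronglyMeasurable h1
      have h2 : ∀ᵐ x ∂(μ.map (fun (x : X) (_ : Fin 0 → ι) => x)), f x = e := by
        rw [ae_map_iff hm0.aemeasurable (measurableSet_eq_fun hfB.1 measurable_const)]
        exact he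
      have h3 : f =ᵐ[cube μ S ι 0] fun _ => e := h2
      exact ((hbm c).quasiMeasurePreserving.ae_eq_comp h3).trans h3.symm
    exact ⟨hpres, fi_norm hM S hS μ hE ι 0 hpres hfix, hfix⟩
  | succ D ih =>
    have hpres := fi_pres hM S hS μ hE ι D ih
    have hfix := fi_fix hM S hS μ hE ι D ih
    exact ⟨hpres, fi_norm hM S hS μ hE ι (D + 1) hpres hfix, hfix⟩

/-- **FI7.** The diagonal action of `M 1` preserves the cube measures. -/
theorem diag_invariance (D : ℕ) (c : G) (hc : c ∈ M 1) :
    MeasurePreserving (fun (x : Arr ι X D) v => c • x v) (cube μ S ι D) (cube μ S ι D) := by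
  have h := (face_invariance hM S hS μ hE hinv ι D).pres 0 Set.univ (Face.univ ι D) c
    (by rw [hM.zero]; exact hc)
  have he : tF D (fun a => c • a) (Set.univ : Set (Fin D → ι)) =
      (fun (x : Arr ι X D) v => c • x v) := by
    funext x
    exact tF_univ D _ x
  rwa [he] at h

end

end Pool.Agent.HK820

end
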