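import Pool.Agent.Lib_MP_820dd4_hk.FA
import Pool.Agent.Lib_MP_820dd4_hk.HS

/-! ### Part `UL1` -/

section

open MeasureTheory ProbabilityTheory Filter Topology
open scoped ComplexConjugate ENNReal

namespace Pool.Agent.HK820

theorem ul1_memLp {P : Type} [MeasurableSpace P] (ν : Measure P) [IsProbabilityMeasure ν]
    {ψ : P → ℂ} (hm : Measurable ψ) (hn : ∀ x, ‖ψ x‖ = 1) : MemLp ψ 2 ν :=
  MemLp.of_bound hm.aestronglyMeasurable 1 (Eventually.of_forall fun x => (hn x).le)

theorem ul1_orth {P : Type} [MeasurableSpace P] (ν : Measure P) [IsProbabilityMeasure ν]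
    (S : P ≃ᵐ P) (hS : MeasurePreserving S ν ν) {ψ ψ' : P → ℂ} {c c' : ℂ} (h : IsEig ν S ψ c)
    (h' : IsEig ν S ψ' c') (hc : c ≠ c') : ∫ x, ψ' x * conj (ψ x) ∂ν = 0 := by
  have h1 : ∫ x, ψ' x * conj (ψ x) ∂ν = ∫ x, ψ' (S x) * conj (ψ (S x)) ∂ν :=
    (hS.integral_comp' (g := fun x => ψ' x * conj (ψ x))).symm
  have h2 : ∫ x, ψ' (S x) * conj (ψ (S x)) ∂ν =
      (c' * conj c) * ∫ x, ψ' x * conj (ψ x) ∂ν := by
    rw [← integral_const_mul]
    refine integral_congr_ae ?_
    filter_upwards [h.eig, h'.eig] with x e1 e2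
    rw [e1, e2, map_mul]
    ring
  rw [h2] at h1
  by_contra hne
  have h3 : c' * conj c = 1 := by
    have h4 : (1 - c' * conj c) * ∫ x, ψ' x * conj (ψ x) ∂ν = 0 := by
      rw [sub_mul, one_mul, ← h1, sub_self]
    rcases mul_eq_zero.mp h4 with h5 | h5
    · exact (sub_eq_zero.mp h5).symm
    · exact absurd h5 hne
  apply hc
  have h5 : conj c * c = 1 := by
    rw [Complex.conj_mul', h.c_norm]
    norm_num
  calc c = (c' * conj c) * c := by rw [h3, one_mul]
    _ = c' * (conj c * c) := by ring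
    _ = c' := by rw [h5, mul_one]

/-- **UL1.** The set of eigenvalues is countable (eigenfunctions with different eigenvalues are
orthonormal in the separable space `L²(ν)`). -/
theorem eigenvalues_countable {P : Type} [MeasurableSpace P] [StandardBorelSpace P]
    (ν : Measure P) [IsProbabilityMeasure ν] (S : P ≃ᵐ P) (hS : MeasurePreserving S ν ν) :
    {c : ℂ | ∃ ψ, IsEig ν S ψ c}.Countable := by
  classical
  have h2inf : Fact ((2 : ℝ≥0∞) ≠ ∞) := ⟨by norm_num⟩
  have hex : ∀ c : ℂ, ∃ F : Lp ℂ 2 ν, (∃ ψ, IsEig ν S ψ c) →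
      ∃ ψ, IsEig ν S ψ c ∧ (F : P → ℂ) =ᵐ[ν] ψ := by
    intro c
    by_cases hc : ∃ ψ, IsEig ν S ψ c
    · obtain ⟨ψ, hψ⟩ := hc
      exact ⟨(ul1_memLp ν hψ.meas hψ.norm).toLp ψ, fun _ => ⟨ψ, hψ, MemLp.coeFn_toLp _⟩⟩
    · exact ⟨0, fun h => absurd h hc⟩
  choose F hF using hex
  refine Set.PairwiseDisjoint.countable_of_isOpen (s := fun c => Metric.ball (F c) (1 / 2)) ?_
    (fun c _ => Metric.isOpen_ball) (fun c _ => ⟨F c, Metric.mem_ball_self (by norm_num)⟩)
  intro c hc c' hc' hne
  obtain ⟨ψ, hψ, hFψ⟩ := hF c hc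
  obtain ⟨ψ', hψ', hFψ'⟩ := hF c' hc'
  have ho : inner ℂ (F c) (F c') = 0 := by
    rw [L2.inner_def, ← ul1_orth ν S hS hψ hψ' hne]
    refine integral_congr_ae ?_
    filter_upwards [hFψ, hFψ'] with x e1 e2
    rw [e1, e2, RCLike.inner_apply]
  have hn : ∀ (G : Lp ℂ 2 ν) (φ : P → ℂ), (∀ x, ‖φ x‖ = 1) → (G : P → ℂ) =ᵐ[ν] φ →
      ‖G‖ = 1 := by
    intro G φ hφ hG
    have h1 : inner ℂ G G = 1 := by
      rw [L2.inner_def]
      have h2 : ∫ x, inner ℂ (G x) (G x) ∂ν = ∫ _x, (1 : ℂ) ∂ν := by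
        refine integral_congr_ae ?_
        filter_upwards [hG] with x e1
        rw [e1, RCLike.inner_apply, Complex.mul_conj', hφ x]
        norm_num
      rw [h2]
      simp
    have h3 := inner_self_eq_norm_sq_to_K (𝕜 := ℂ) G
    rw [h1] at h3
    have h4 : ‖G‖ ^ 2 = 1 := by
      have h5 : (((‖G‖ ^ 2 : ℝ)) : ℂ) = ((1 : ℝ) : ℂ) := by
        rw [Complex.ofReal_pow, Complex.ofReal_one]
        exact h3.symm
      exact Complex.ofReal_injective h5
    nlinarith [norm_nonneg G]
  have hd : dist (F c) (F c') ^ 2 = 2 := by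
    rw [dist_eq_norm, @norm_sub_sq ℂ, ho, hn _ _ hψ.norm hFψ, hn _ _ hψ'.norm hFψ']
    norm_num
  rw [Function.onFun, Set.disjoint_left]
  intro G h1 h2
  rw [Metric.mem_ball] at h1 h2
  have h3 : dist (F c) (F c') < 1 := by
    calc dist (F c) (F c') ≤ dist (F c) G + dist G (F c') := dist_triangle _ _ _
      _ = dist G (F c) + dist G (F c') := by rw [dist_comm (F c) G]
      _ < 1 / 2 + 1 / 2 := add_lt_add h1 h2
      _ = 1 := by norm_num
  nlinarith [dist_nonneg (x := F c) (y := F c')]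

/-- **UL2.** Two eigenfunctions with the same eigenvalue of an ergodic system are proportional. -/
theorem eig_unique {P : Type} [MeasurableSpace P] (ν : Measure P) [IsProbabilityMeasure ν]
    (S : P ≃ᵐ P) (hS : Ergodic S ν) {ψ ψ' : P → ℂ} {c : ℂ} (h : IsEig ν S ψ c)
    (h' : IsEig ν S ψ' c) : ∃ χ : ℂ, ‖χ‖ = 1 ∧ ∀ᵐ x ∂ν, ψ' x = χ * ψ x := by
  have hcc : c * conj c = 1 := by
    rw [Complex.mul_conj', h.c_norm]
    norm_num
  obtain ⟨χ, hχ⟩ : ∃ χ : ℂ, (fun x => ψ' x * conj (ψ x)) =ᵐ[ν] Function.const P χ := by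
    refine hS.ae_eq_const_of_ae_eq_comp_ae ?_ ?_
    · exact (h'.meas.mul (Complex.continuous_conj.measurable.comp h.meas)).aestronglyMeasurable
    · filter_upwards [h.eig, h'.eig] with x e1 e2
      rw [Function.comp_apply, e1, e2, map_mul]
      calc c * ψ' x * (conj c * conj (ψ x)) = (c * conj c) * (ψ' x * conj (ψ x)) := by ring
        _ = ψ' x * conj (ψ x) := by rw [hcc, one_mul]
  refine ⟨χ, ?_, ?_⟩
  · obtain ⟨x, hx⟩ := hχ.exists
    rw [Function.const_apply] at hx
    rw [← hx, norm_mul, Complex.norm_conj, h.norm, h'.norm, mul_one]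
  · filter_upwards [hχ] with x hx
    rw [Function.const_apply] at hx
    have h1 : conj (ψ x) * ψ x = 1 := by
      rw [Complex.conj_mul', h.norm]
      norm_num
    rw [← hx, mul_assoc, h1, mul_one]

/-- **UL3.** Continuous families of transformations which map an eigenfunction to eigenfunctions
map it to multiples of itself.

Proof. `ψ ∘ h t` is an eigenfunction with eigenvalue `c * e t` (`|e t| = 1` follows from
`c * e t ≠ 0`: take norms in `hS'`). So `e` takes values in a countable set on `[0, 1]` (UL1) and is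
continuous, hence constant on the connected set `[0, 1]` (`IsPreconnected.constant`-type argument: a
connected countable subset of a metric space is a point), equal to `e 0 = 1`; conclude by UL2. -/
theorem ul_path {P : Type} [MeasurableSpace P] [StandardBorelSpace P] (ν : Measure P)
    [IsProbabilityMeasure ν] (S : P ≃ᵐ P) (hS : Ergodic S ν) {ψ : P → ℂ} {c : ℂ}
    (hψ : IsEig ν S ψ c) (h : ℝ → P → P) (e : ℝ → ℂ)
    (hm : ∀ t ∈ Set.Icc (0 : ℝ) 1, MeasurePreserving (h t) ν ν)
    (he : ContinuousOn e (Set.Icc 0 1)) (he0 : e 0 = 1)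
    (hS' : ∀ t ∈ Set.Icc (0 : ℝ) 1, ∀ᵐ x ∂ν, ψ (h t (S x)) = c * e t * ψ (h t x)) :
    ∀ t ∈ Set.Icc (0 : ℝ) 1, ∃ χ : ℂ, ‖χ‖ = 1 ∧ ∀ᵐ x ∂ν, ψ (h t x) = χ * ψ x := by
  have hE : ∀ t ∈ Set.Icc (0 : ℝ) 1, IsEig ν S (fun x => ψ (h t x)) (c * e t) := by
    intro t ht
    refine ⟨hψ.meas.comp (hm t ht).measurable, fun x => hψ.norm _, ?_, hS' t ht⟩
    obtain ⟨x, hx⟩ := (hS' t ht).exists
    have h1 := congrArg norm hx
    rw [norm_mul, hψ.norm, hψ.norm, mul_one] at h1
    exact h1.symm
  have hc0 : c ≠ 0 := by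
    intro h0
    have h1 := hψ.c_norm
    rw [h0, norm_zero] at h1
    exact zero_ne_one h1
  have hcount : (e '' Set.Icc (0 : ℝ) 1).Countable := by
    have h1 := (eigenvalues_countable ν S hS.toMeasurePreserving).image (fun z => c⁻¹ * z)
    refine h1.mono ?_
    rintro _ ⟨t, ht, rfl⟩
    refine ⟨c * e t, ⟨_, hE t ht⟩, ?_⟩
    show c⁻¹ * (c * e t) = e t
    rw [← mul_assoc, inv_mul_cancel₀ hc0, one_mul]
  have hconn : IsPreconnected (e '' Set.Icc (0 : ℝ) 1) := isPreconnected_Icc.image e he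
  have hsub : (e '' Set.Icc (0 : ℝ) 1).Subsingleton :=
    hcount.isTotallyDisconnected _ subset_rfl hconn
  intro t ht
  have h1 : e t = 1 := by
    rw [← he0]
    exact hsub ⟨t, ht, rfl⟩ ⟨0, ⟨le_rfl, zero_le_one⟩, rfl⟩
  have h2 := hE t ht
  rw [h1, mul_one] at h2
  exact eig_unique ν S hS hψ h2

end Pool.Agent.HK820

end

/-! ### Part `UL4` -/

section

open MeasureTheory ProbabilityTheory Filter Topology
open scoped ComplexConjugate ENNReal

namespace Pool.Agent.HK820

theorem ul4_memLp {P : Type} [MeasurableSpace P] (ν : Measure P) [IsProbabilityMeasure ν]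
    {ψ : P → ℂ} (hm : Measurable ψ) (hn : ∀ x, ‖ψ x‖ = 1) : MemLp ψ 2 ν :=
  MemLp.of_bound hm.aestronglyMeasurable 1 (Eventually.of_forall fun x => (hn x).le)

theorem ul4_mono {G : Type} [Group G] [TopologicalSpace G] {τ : G} {M : ℕ → Subgroup G}
    (hM : Chain τ M) {i j : ℕ} (h : i ≤ j) : M j ≤ M i :=
  antitone_nat_of_succ_le hM.anti h

/-- continuity of the correlations of `ψ` with its images under a continuous family -/
theorem ul4_cont {G X : Type} [Group G] [TopologicalSpace G]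
    [TopologicalSpace X] [CompactSpace X] [T2Space X] [SecondCountableTopology X]
    [MeasurableSpace X] [BorelSpace X] [MulAction G X]
    [ContinuousSMul G X] {ι : Type} [Fintype ι] (D : ℕ) (F : Set (Fin D → ι))
    (ν : Measure (Arr ι X D)) [IsProbabilityMeasure ν] {ψ : Arr ι X D → ℂ} (hm : Measurable ψ)
    (hn : ∀ x, ‖ψ x‖ = 1) (k : ℝ → G) (hk : Continuous k)
    (hp : ∀ t, MeasurePreserving (tF D (fun a => k t • a) F) ν ν) :
    Continuous (fun t => ∫ x, ψ (tF D (fun a => k t • a) F x) * conj (ψ x) ∂ν) := by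
  have hψ2 : MemLp ψ 2 ν := ul4_memLp ν hm hn
  have h1 : Continuous (fun p : ℝ × Arr ι X D => tF D (fun a => k p.1 • a) F p.2) :=
    (continuous_tF D F).comp ((hk.comp continuous_fst).prodMk continuous_snd)
  let g : ℝ → C(Arr ι X D, Arr ι X D) := ContinuousMap.curry ⟨_, h1⟩
  have hg : Continuous g := (ContinuousMap.curry ⟨_, h1⟩).continuous
  have hgp : ∀ t, MeasurePreserving (g t) ν ν := fun t => hp t
  have h2 : Continuous (fun t => Lp.compMeasurePreserving (g t) (hgp t) (hψ2.toLp ψ)) :=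
    Continuous.compMeasurePreservingLp continuous_const hg hgp (by norm_num)
  have h3 : Continuous fun t => inner ℂ (hψ2.toLp ψ)
      (Lp.compMeasurePreserving (g t) (hgp t) (hψ2.toLp ψ)) := continuous_const.inner h2
  refine h3.congr fun t => ?_
  rw [L2.inner_def]
  refine integral_congr_ae ?_
  have h4 : (Lp.compMeasurePreserving (g t) (hgp t) (hψ2.toLp ψ) : Arr ι X D → ℂ) =ᵐ[ν]
      (hψ2.toLp ψ : Arr ι X D → ℂ) ∘ g t := Lp.coeFn_compMeasurePreserving _ (hgp t)
  have h5 := (hgp t).quasiMeasurePreserving.ae_eq_comp hψ2.coeFn_toLp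
  filter_upwards [h4, h5, hψ2.coeFn_toLp] with x e1 e2 e3
  rw [e1, e2, e3, RCLike.inner_apply]
  rfl

/-- **UL4.** Eigenfunctions of an ergodic component are preserved, up to constants, by the elements of
the chain placed on a face.

Setting: `ν` is a measure on arrays for which the diagonal transformation by `τ` is ergodic;
the elements of `M j`, `j ≥ i`, placed on the face `F`, preserve `ν`. Then every eigenfunction is
mapped to a multiple of itself by every element of `M i` placed on `F`.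

Proof. Downward induction on `j` for the statement for elements of `M j`, `j ≥ i` (`M c = ⊥` for
large `c`, `M` is decreasing). Let `a g = tF D (g • ·) F`, `a (g h) = a g ∘ a h`. Let `g ∈ M j`, `γ` a
path in `M j` from `1` to `g` (`Chain.path`), `h t = a (γ t)`. With `S` the diagonal transformation:
`h t (S x) = S (a (τ⁻¹ γ τ) x) = S (a (c_t) (h t x))`, `c_t = τ⁻¹ γ τ γ⁻¹ ∈ M (j + 1)`
(`Chain.comm`, `M j` is normal). By the induction hypothesis `ψ ∘ a (c_t) = e t * ψ` with
`e t = ∫ ψ (a (c_t) x) conj (ψ x) ∂ν`, so `ψ (h t (S x)) = c * e t * ψ (h t x)`. `e` is continuous: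
approximate `ψ` in `L²(ν)` by a continuous function (all `a (c_t)` preserve `ν`; uniform limit of
continuous functions, dominated convergence; `continuous_tF`). `e 0 = 1`. Conclude with `ul_path`. -/
theorem ul_face {G X : Type} [Group G] [TopologicalSpace G] [IsTopologicalGroup G]
    [TopologicalSpace X] [CompactSpace X] [T2Space X] [SecondCountableTopology X]
    [MeasurableSpace X] [BorelSpace X] [StandardBorelSpace X] [MulAction G X]
    [ContinuousSMul G X] {τ : G} {M : ℕ → Subgroup G} (hM : Chain τ M) (S : X ≃ᵐ X)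
    (hS : ∀ x, S x = τ • x) {ι : Type} [Fintype ι] (D : ℕ) (F : Set (Fin D → ι))
    (ν : Measure (Arr ι X D)) [IsProbabilityMeasure ν] (hE : Ergodic (tArr S ι D) ν) (i : ℕ)
    (hi : 1 ≤ i)
    (hp : ∀ g ∈ M i, MeasurePreserving (tF D (fun a => g • a) F) ν ν) {ψ : Arr ι X D → ℂ} {c : ℂ}
    (hψ : IsEig ν (tArr S ι D) ψ c) :
    ∀ g ∈ M i, ∃ χ : ℂ, ‖χ‖ = 1 ∧ ∀ᵐ x ∂ν, ψ (tF D (fun a => g • a) F x) = χ * ψ x := by
  have hmp : ∀ j, i ≤ j → ∀ g ∈ M j, MeasurePreserving (tF D (fun a => g • a) F) ν ν :=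
    fun j hj g hg => hp g (ul4_mono hM hj hg)
  have hψ1 : ∀ x, ψ x * conj (ψ x) = 1 := fun x => by
    rw [Complex.mul_conj', hψ.norm]
    norm_num
  obtain ⟨c₀, hc₀⟩ := hM.fin
  have key : ∀ n j, i ≤ j → c₀ ≤ j + n → ∀ g ∈ M j, ∃ χ : ℂ, ‖χ‖ = 1 ∧
      ∀ᵐ x ∂ν, ψ (tF D (fun a => g • a) F x) = χ * ψ x := by
    intro n
    induction n with
    | zero =>
      intro j hj hcj g hg
      have h1 : g ∈ M c₀ := ul4_mono hM (by omega) hg
      rw [hc₀, Subgroup.mem_bot] at h1
      subst h1
      refine ⟨1, norm_one, Eventually.of_forall fun x => ?_⟩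
      have h2 : (fun a : X => (1 : G) • a) = fun a => a := funext fun a => one_smul G a
      rw [h2, tF_id, one_mul]
    | succ n ih =>
      intro j hj hcj g hg
      obtain ⟨γ, hγ⟩ := hM.path j (hi.trans hj) g hg
      let p : ℝ → G := fun t => γ.extend t
      have hpc : Continuous p := γ.continuous_extend
      have hp0 : p 0 = 1 := γ.extend_zero
      have hp1 : p 1 = g := γ.extend_one
      have hpM : ∀ t, p t ∈ M j := fun t => by
        have h1 : γ.extend t ∈ Set.range γ := by
          rw [← γ.extend_range]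
          exact ⟨t, rfl⟩
        obtain ⟨s, hs⟩ := h1
        show γ.extend t ∈ M j
        rw [← hs]
        exact hγ s
      let k : ℝ → G := fun t => τ⁻¹ * p t * τ * (p t)⁻¹
      have hk : Continuous k :=
        ((continuous_const.mul hpc).mul continuous_const).mul hpc.inv
      have hk0 : k 0 = 1 := by
        show τ⁻¹ * p 0 * τ * (p 0)⁻¹ = 1
        rw [hp0]
        group
      have hkM : ∀ t, k t ∈ M (j + 1) := fun t => by
        have h1 := hM.comm j (hi.trans hj) (p t) (hpM t) τ⁻¹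
        rwa [inv_inv] at h1
      choose e he1 he2 using fun t => ih (j + 1) (by omega) (by omega) (k t) (hkM t)
      have hee : ∀ t, ∫ x, ψ (tF D (fun a => k t • a) F x) * conj (ψ x) ∂ν = e t := by
        intro t
        have h1 : ∫ x, ψ (tF D (fun a => k t • a) F x) * conj (ψ x) ∂ν = ∫ _x, e t ∂ν := by
          refine integral_congr_ae ?_
          filter_upwards [he2 t] with x hx
          rw [hx, mul_assoc, hψ1 x, mul_one]
        rw [h1]
        simp
      have hec : Continuous e :=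
        (ul4_cont D F ν hψ.meas hψ.norm k hk fun t => hmp (j + 1) (by omega) _ (hkM t)).congr hee
      have he0 : e 0 = 1 := by
        obtain ⟨x, hx⟩ := (he2 0).exists
        have h2 : (fun a : X => k 0 • a) = fun a => a := funext fun a => by rw [hk0, one_smul]
        rw [h2, tF_id] at hx
        have h3 : ψ x ≠ 0 := by
          intro h0
          have h4 := hψ.norm x
          rw [h0, norm_zero] at h4
          exact zero_ne_one h4
        exact (mul_right_cancel₀ h3 (by rw [one_mul]; exact hx)).symm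
      have hstep : ∀ t ∈ Set.Icc (0 : ℝ) 1, ∀ᵐ x ∂ν,
          ψ (tF D (fun a => p t • a) F (tArr S ι D x)) =
            c * e t * ψ (tF D (fun a => p t • a) F x) := by
        intro t _
        have hq : τ⁻¹ * p t * τ ∈ M j := by
          have h1 : τ⁻¹ * p t * τ = k t * p t := by
            show τ⁻¹ * p t * τ = τ⁻¹ * p t * τ * (p t)⁻¹ * p t
            group
          rw [h1]
          exact (M j).mul_mem (hM.anti j (hkM t)) (hpM t)
        have a1 : ∀ᵐ x ∂ν, ψ (tArr S ι D (tF D (fun a => (τ⁻¹ * p t * τ) • a) F x)) =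
            c * ψ (tF D (fun a => (τ⁻¹ * p t * τ) • a) F x) :=
          (hmp j hj _ hq).quasiMeasurePreserving.ae hψ.eig
        have a2 : ∀ᵐ x ∂ν, ψ (tF D (fun a => k t • a) F (tF D (fun a => p t • a) F x)) =
            e t * ψ (tF D (fun a => p t • a) F x) :=
          (hmp j hj _ (hpM t)).quasiMeasurePreserving.ae (he2 t)
        filter_upwards [a1, a2] with x e1 e2
        have e3 : tArr S ι D (tF D (fun a => (τ⁻¹ * p t * τ) • a) F x) =
            tF D (fun a => p t • a) F (tArr S ι D x) := by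
          refine tF_tArr D S (fun a => ?_) F x
          rw [hS, hS, smul_smul, smul_smul]
          congr 1
          group
        have e4 : tF D (fun a => k t • a) F (tF D (fun a => p t • a) F x) =
            tF D (fun a => (τ⁻¹ * p t * τ) • a) F x := by
          rw [tF_comp]
          congr 1
          funext a
          rw [smul_smul]
          congr 1
          show τ⁻¹ * p t * τ * (p t)⁻¹ * p t = τ⁻¹ * p t * τ
          group
        rw [← e3, e1, ← e4, e2]
        ring
      have hres := ul_path ν (tArr S ι D) hE hψ (fun t => tF D (fun a => p t • a) F) e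
        (fun t _ => hmp j hj _ (hpM t)) hec.continuousOn he0 hstep 1 ⟨zero_le_one, le_rfl⟩
      obtain ⟨χ, h1, h2⟩ := hres
      refine ⟨χ, h1, ?_⟩
      filter_upwards [h2] with x hx
      rw [← hx]
      simp only [hp1]
  intro g hg
  exact key c₀ i le_rfl (by omega) g hg

end Pool.Agent.HK820

end

/-! ### Part `KR1` -/

section

open MeasureTheory ProbabilityTheory Filter Topology
open scoped ComplexConjugate ENNReal

namespace Pool.Agent.HK820

theorem kr1_prod_iter {P : Type} [MeasurableSpace P] (S : P ≃ᵐ P) (n : ℕ) (z : P × P) :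
    (S.prodCongr S)^[n] z = (S^[n] z.1, S^[n] z.2) := by
  induction n generalizing z with
  | zero => rfl
  | succ n ih =>
    rw [Function.iterate_succ_apply, Function.iterate_succ_apply, Function.iterate_succ_apply, ih]
    rfl

theorem kr1_mp {P : Type} [MeasurableSpace P] (ν : Measure P) [IsProbabilityMeasure ν]
    (S : P ≃ᵐ P) (hS : MeasurePreserving S ν ν) :
    MeasurePreserving (S.prodCongr S) (ν.prod ν) (ν.prod ν) :=
  hS.prod hS

/-- averages of real numbers, seen in `ℂ` -/
theorem kr1_tendsto_real {a : ℕ → ℝ}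
    (h : Tendsto (fun N : ℕ => (N : ℂ)⁻¹ * ∑ n ∈ Finset.range N, ((a n : ℝ) : ℂ)) atTop (𝓝 0)) :
    Tendsto (fun N : ℕ => (∑ n ∈ Finset.range N, a n) / N) atTop (𝓝 0) := by
  have h1 := (Complex.continuous_re.tendsto 0).comp h
  rw [Complex.zero_re] at h1
  refine h1.congr fun N => ?_
  have h2 : (N : ℂ)⁻¹ * ∑ n ∈ Finset.range N, ((a n : ℝ) : ℂ) =
      (((∑ n ∈ Finset.range N, a n) / N : ℝ) : ℂ) := by
    push_cast
    rw [div_eq_mul_inv, mul_comm]
  rw [Function.comp_apply, h2, Complex.ofReal_re]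

/-- the conditional expectation commutes with the conjugation -/
theorem kr1_condExp_conj {X : Type} (m : MeasurableSpace X) [mX : MeasurableSpace X]
    (μ : Measure X) [IsProbabilityMeasure μ] (hm : m ≤ mX) {f W : X → ℂ} (hf : BM f)
    (hW : BMs m W) (hfW : μ[f | m] =ᵐ[μ] W) :
    μ[fun x => conj (f x) | m] =ᵐ[μ] fun x => conj (W x) := by
  refine condExp_eq_of_forall m μ hm (BMs.conj hf) hW.conj fun g hg => ?_
  have h1 := integral_mul_condExp m μ hm hf hg.conj
  have h2 : ∫ x, conj (g x) * (μ[f | m]) x ∂μ = ∫ x, conj (g x) * W x ∂μ := by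
    refine integral_congr_ae ?_
    filter_upwards [hfW] with x hx
    rw [hx]
  have h3 : ∫ x, g x * conj (f x) ∂μ = conj (∫ x, conj (g x) * f x ∂μ) := by
    rw [← integral_conj]
    refine integral_congr_ae (Eventually.of_forall fun x => ?_)
    simp only [map_mul, Complex.conj_conj]
  have h4 : ∫ x, g x * conj (W x) ∂μ = conj (∫ x, conj (g x) * W x ∂μ) := by
    rw [← integral_conj]
    refine integral_congr_ae (Eventually.of_forall fun x => ?_)
    simp only [map_mul, Complex.conj_conj]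
  rw [h3, h4, ← h1, h2]

/-- **KR1.** Functions orthogonal to all eigenfunctions have correlations tending to `0` in density.

Proof. `‖∫ H(x) conj (H(S^n x))‖² = ∫∫ Φ(x,y) conj (Φ(S^n x, S^n y))` with `Φ (x,y) = H x conj (H y)`
on `ν × ν`. By `avg_int_tendsto` for `S × S` the averages tend to `∫ ‖W‖²`, with
`W = E[Φ | Inv (S × S)]` (bounded, strictly invariant version `W (Sx, Sy) = W (x, y)`); `W` is
hermitian a.e. (symmetry under the exchange). `∫ ‖W‖² = ∫ conj Φ W = ∫∫ conj (H x) W(x,y) H(y)`. If it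
were nonzero, `exists_eigenfunction` would give an eigenfunction `ψ` with `∫ conj H ψ ≠ 0`. -/
theorem corr_tendsto_zero {P : Type} [MeasurableSpace P] [StandardBorelSpace P] (ν : Measure P)
    [IsProbabilityMeasure ν] (S : P ≃ᵐ P) (hS : Ergodic S ν) {H : P → ℂ} (hH : BM H)
    (h0 : ∀ ψ c, IsEig ν S ψ c → ∫ x, H x * conj (ψ x) ∂ν = 0) :
    Tendsto (fun N : ℕ => (∑ n ∈ Finset.range N, ‖∫ x, H x * conj (H (S^[n] x)) ∂ν‖ ^ 2) / N)
      atTop (𝓝 0) := by
  have hR := kr1_mp ν S hS.toMeasurePreserving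
  have hle : Inv (S.prodCongr S : P × P → P × P) ≤ (inferInstance : MeasurableSpace (P × P)) :=
    MeasurableSpace.invariants_le _
  have hHc : BM (fun x => conj (H x)) := BMs.conj hH
  have hΦ : BM (fun z : P × P => H z.1 * conj (H z.2)) :=
    BMs.mul (BMs.comp hH measurable_fst) (BMs.comp hHc measurable_snd)
  have hΦ' : BM (fun z : P × P => conj (H z.1) * H z.2) :=
    BMs.mul (BMs.comp hHc measurable_fst) (BMs.comp hH measurable_snd)
  obtain ⟨hΦm, C, hC⟩ := hΦ'
  obtain ⟨W, hWm, hWC, hW⟩ := exists_bms_condExp (Inv (S.prodCongr S : P × P → P × P))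
    (ν.prod ν) hle hΦm hC
  have hΦ' : BM (fun z : P × P => conj (H z.1) * H z.2) := ⟨hΦm, C, hC⟩
  have hWB : BMs (Inv (S.prodCongr S : P × P → P × P)) W := ⟨hWm, C, hWC⟩
  have hlim := avg_int_tendsto (ν.prod ν) (S.prodCongr S) hR hΦ hΦ'
  have e1 : ∀ n : ℕ, ∫ z, (H z.1 * conj (H z.2)) *
      (conj (H ((S.prodCongr S)^[n] z).1) * H ((S.prodCongr S)^[n] z).2) ∂(ν.prod ν) =
      ((‖∫ x, H x * conj (H (S^[n] x)) ∂ν‖ ^ 2 : ℝ) : ℂ) := by
    intro n
    have h1 : ∫ z, (H z.1 * conj (H z.2)) *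
        (conj (H ((S.prodCongr S)^[n] z).1) * H ((S.prodCongr S)^[n] z).2) ∂(ν.prod ν) =
        ∫ z, (fun x => H x * conj (H (S^[n] x))) z.1 *
          (fun x => conj (H x * conj (H (S^[n] x)))) z.2 ∂(ν.prod ν) := by
      refine integral_congr_ae (Eventually.of_forall fun z => ?_)
      simp only [kr1_prod_iter, map_mul, Complex.conj_conj]
      ring
    rw [h1, integral_prod_mul (fun x => H x * conj (H (S^[n] x)))
      (fun x => conj (H x * conj (H (S^[n] x)))), integral_conj, Complex.mul_conj',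
      Complex.ofReal_pow]
  simp only [e1] at hlim
  have e2 : ∫ z, (H z.1 * conj (H z.2)) * ((ν.prod ν)[fun z : P × P => conj (H z.1) * H z.2 |
      Inv (S.prodCongr S : P × P → P × P)]) z ∂(ν.prod ν) =
      ∫ x, ∫ y, H x * W (x, y) * conj (H y) ∂ν ∂ν := by
    have h1 : ∫ z, (H z.1 * conj (H z.2)) * ((ν.prod ν)[fun z : P × P => conj (H z.1) * H z.2 |
        Inv (S.prodCongr S : P × P → P × P)]) z ∂(ν.prod ν) =
        ∫ z, H z.1 * W z * conj (H z.2) ∂(ν.prod ν) := by
      refine integral_congr_ae ?_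
      filter_upwards [hW] with z hz
      rw [hz]
      ring
    rw [h1]
    have h2 : BM (fun z : P × P => H z.1 * W z * conj (H z.2)) :=
      BMs.mul (BMs.mul (BMs.comp hH measurable_fst) (hWB.mono hle))
        (BMs.comp hHc measurable_snd)
    rw [integral_prod _ (h2.integrable _)]
  rw [e2] at hlim
  have e3 : ∫ x, ∫ y, H x * W (x, y) * conj (H y) ∂ν ∂ν = 0 := by
    by_contra hne
    have hWherm : ∀ᵐ z ∂(ν.prod ν), W (z.2, z.1) = conj (W (z.1, z.2)) := by
      have hsw : MeasurePreserving (Prod.swap : P × P → P × P) (ν.prod ν) (ν.prod ν) :=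
        Measure.measurePreserving_swap
      have h1 := condExp_inv_comp (T := S.prodCongr S) (S := S.prodCongr S) hR hR
        (p := Prod.swap) ⟨hsw, Eventually.of_forall fun z => rfl⟩ hΦ'
      have h2 := hsw.quasiMeasurePreserving.ae hW
      have h3 := kr1_condExp_conj _ (ν.prod ν) hle hΦ' hWB hW
      have h4 : (fun z : P × P => conj (H (Prod.swap z).1) * H (Prod.swap z).2) =
          fun z : P × P => conj (conj (H z.1) * H z.2) := by
        funext z
        simp only [Prod.fst_swap, Prod.snd_swap, map_mul, Complex.conj_conj]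
        ring
      rw [h4] at h1
      filter_upwards [h1, h2, h3] with z a1 a2 a3
      rw [a3] at a1
      rw [a2] at a1
      exact a1.symm
    have hWinv : ∀ᵐ z ∂(ν.prod ν), W (S z.1, S z.2) = W (z.1, z.2) := by
      have h1 : W ∘ (S.prodCongr S) = W := MeasurableSpace.comp_eq_of_measurable_invariants hWm
      exact Eventually.of_forall fun z => congrFun h1 z
    obtain ⟨ψ, c, hψm, hψn, hc, hψe, hψ⟩ := exists_eigenfunction ν S hS (fun x y => W (x, y))
      (hWB.mono hle) hWherm hWinv hH hHc hne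
    apply hψ
    have hE : IsEig ν S (fun x => conj (ψ x)) (conj c) := by
      refine ⟨Complex.continuous_conj.measurable.comp hψm, fun x => ?_, ?_, ?_⟩
      · rw [Complex.norm_conj]
        exact hψn x
      · rw [Complex.norm_conj]
        exact hc
      · filter_upwards [hψe] with x hx
        rw [hx, map_mul]
    have h1 := h0 _ _ hE
    simp only [Complex.conj_conj] at h1
    exact h1
  rw [e3] at hlim
  exact kr1_tendsto_real hlim

theorem kr1_tup_iter {P : Type} [MeasurableSpace P] (S : P ≃ᵐ P) (ι : Type) (n : ℕ)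
    (z : ι → P) : (tTup S ι)^[n] z = fun i => S^[n] (z i) := by
  induction n generalizing z with
  | zero => rfl
  | succ n ih =>
    rw [Function.iterate_succ_apply, ih]
    rfl

theorem kr1_tup_mp {P : Type} [MeasurableSpace P] (ν : Measure P) [IsProbabilityMeasure ν]
    (S : P ≃ᵐ P) (hS : MeasurePreserving S ν ν) (ι : Type) [Fintype ι] :
    MeasurePreserving (tTup S ι) (Measure.pi fun _ : ι => ν) (Measure.pi fun _ : ι => ν) :=
  measurePreserving_pi (fun _ : ι => ν) (fun _ : ι => ν) (f := fun _ => S) fun _ => hS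

/-- averages of the absolute values tend to `0` if the averages of the squares do -/
theorem kr1_abs_avg {a : ℕ → ℝ} (ha : ∀ n, 0 ≤ a n)
    (h : Tendsto (fun N : ℕ => (∑ n ∈ Finset.range N, a n ^ 2) / N) atTop (𝓝 0)) :
    Tendsto (fun N : ℕ => (∑ n ∈ Finset.range N, a n) / N) atTop (𝓝 0) := by
  have h1 : Tendsto (fun N : ℕ => Real.sqrt ((∑ n ∈ Finset.range N, a n ^ 2) / N)) atTop
      (𝓝 0) := by
    have h2 := (Real.continuous_sqrt.tendsto 0).comp h
    rw [Real.sqrt_zero] at h2
    exact h2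
  refine squeeze_zero (fun N => div_nonneg (Finset.sum_nonneg fun n _ => ha n)
    (Nat.cast_nonneg N)) (fun N => ?_) h1
  refine Real.le_sqrt_of_sq_le ?_
  rcases Nat.eq_zero_or_pos N with hN | hN
  · subst hN
    simp
  · have hN' : (0 : ℝ) < N := by exact_mod_cast hN
    have h3 := sq_sum_le_card_mul_sum_sq (s := Finset.range N) (f := a)
    rw [Finset.card_range] at h3
    rw [div_pow, div_le_div_iff₀ (by positivity) hN']
    calc (∑ n ∈ Finset.range N, a n) ^ 2 * N
        ≤ (N * ∑ n ∈ Finset.range N, a n ^ 2) * N := mul_le_mul_of_nonneg_right h3 hN'.le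
      _ = (∑ n ∈ Finset.range N, a n ^ 2) * N ^ 2 := by ring

/-- **KR2.** On a finite power, the conditional expectation on the invariant sets of a product
vanishes if one of the factors is orthogonal to all eigenfunctions.

Proof. `∫ ‖E[⊗ H i | Inv]‖²` is the limit of the averages of `∏ i, ∫ H i conj (H i ∘ S^n)`
(`avg_int_tendsto` on the product), bounded by `C ‖∫ H i₀ conj (H i₀ ∘ S^n)‖`, whose averages tend
to `0` by KR1 and Cauchy-Schwarz. -/
theorem prod_inv_zero {P : Type} [MeasurableSpace P] [StandardBorelSpace P] (ν : Measure P)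
    [IsProbabilityMeasure ν] (S : P ≃ᵐ P) (hS : Ergodic S ν) {ι : Type} [Fintype ι]
    {H : ι → P → ℂ} (hH : ∀ i, BM (H i)) (i₀ : ι)
    (h0 : ∀ ψ c, IsEig ν S ψ c → ∫ x, H i₀ x * conj (ψ x) ∂ν = 0) {W : (ι → P) → ℂ}
    (hW : BM W) (hi : (fun z => W (tTup S ι z)) =ᵐ[Measure.pi (fun _ : ι => ν)] W) :
    ∫ z, W z * ∏ i, H i (z i) ∂(Measure.pi (fun _ : ι => ν)) = 0 := by
  classical
  have hT := kr1_tup_mp ν S hS.toMeasurePreserving ι
  have hle : Inv (tTup S ι : (ι → P) → ι → P) ≤ (inferInstance : MeasurableSpace (ι → P)) :=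
    MeasurableSpace.invariants_le _
  have hΨ : BM (fun z : ι → P => ∏ i, H i (z i)) :=
    BMs.prod (f := fun i (z : ι → P) => H i (z i)) Finset.univ
      fun i => BMs.comp (hH i) (measurable_pi_apply i)
  have hΨc : BM (fun z : ι → P => conj (∏ i, H i (z i))) := BMs.conj hΨ
  have hlim := avg_int_tendsto (Measure.pi fun _ : ι => ν) (tTup S ι) hT hΨ hΨc
  have e1 : ∀ n : ℕ, ∫ z, (∏ i, H i (z i)) * conj (∏ i, H i ((tTup S ι)^[n] z i))
      ∂(Measure.pi fun _ : ι => ν) = ∏ i, ∫ x, H i x * conj (H i (S^[n] x)) ∂ν := by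
    intro n
    rw [← integral_fintype_prod_eq_prod]
    refine integral_congr_ae (Eventually.of_forall fun z => ?_)
    simp only [kr1_tup_iter, map_prod, Finset.prod_mul_distrib]
  simp only [e1] at hlim
  -- bounds
  have hbd : ∀ i, ∃ C : ℝ, 0 ≤ C ∧ ∀ n : ℕ, ‖∫ x, H i x * conj (H i (S^[n] x)) ∂ν‖ ≤ C := by
    intro i
    obtain ⟨-, C, hC⟩ := hH i
    refine ⟨|C| * |C|, by positivity, fun n => ?_⟩
    have h1 := norm_integral_le_of_norm_le_const (μ := ν)
      (f := fun x => H i x * conj (H i (S^[n] x))) (C := |C| * |C|)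
      (Eventually.of_forall fun x => by
        rw [norm_mul, Complex.norm_conj]
        exact mul_le_mul ((hC _).trans (le_abs_self C)) ((hC _).trans (le_abs_self C))
          (norm_nonneg _) (abs_nonneg C))
    simpa using h1
  choose C hC0 hC using hbd
  have hprod : ∀ n : ℕ, ‖∏ i, ∫ x, H i x * conj (H i (S^[n] x)) ∂ν‖ ≤
      (∏ i ∈ Finset.univ.erase i₀, C i) * ‖∫ x, H i₀ x * conj (H i₀ (S^[n] x)) ∂ν‖ := by
    intro n
    rw [← Finset.prod_erase_mul Finset.univ _ (Finset.mem_univ i₀), norm_mul, norm_prod]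
    exact mul_le_mul_of_nonneg_right (Finset.prod_le_prod (fun i _ => norm_nonneg _)
      fun i _ => hC i n) (norm_nonneg _)
  have hzero : Tendsto (fun N : ℕ => (N : ℂ)⁻¹ * ∑ n ∈ Finset.range N,
      ∏ i, ∫ x, H i x * conj (H i (S^[n] x)) ∂ν) atTop (𝓝 0) := by
    have h1 := kr1_abs_avg (fun n => norm_nonneg (∫ x, H i₀ x * conj (H i₀ (S^[n] x)) ∂ν))
      (corr_tendsto_zero ν S hS (hH i₀) h0)
    have h2 := h1.const_mul (∏ i ∈ Finset.univ.erase i₀, C i)
    rw [mul_zero] at h2
    refine squeeze_zero_norm (fun N => ?_) h2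
    rw [norm_mul, norm_inv, Complex.norm_natCast]
    have h3 : ‖∑ n ∈ Finset.range N, ∏ i, ∫ x, H i x * conj (H i (S^[n] x)) ∂ν‖ ≤
        (∏ i ∈ Finset.univ.erase i₀, C i) *
          ∑ n ∈ Finset.range N, ‖∫ x, H i₀ x * conj (H i₀ (S^[n] x)) ∂ν‖ := by
      rw [Finset.mul_sum]
      exact (norm_sum_le _ _).trans (Finset.sum_le_sum fun n _ => hprod n)
    calc (N : ℝ)⁻¹ * ‖∑ n ∈ Finset.range N, ∏ i, ∫ x, H i x * conj (H i (S^[n] x)) ∂ν‖
        ≤ (N : ℝ)⁻¹ * ((∏ i ∈ Finset.univ.erase i₀, C i) *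
          ∑ n ∈ Finset.range N, ‖∫ x, H i₀ x * conj (H i₀ (S^[n] x)) ∂ν‖) :=
          mul_le_mul_of_nonneg_left h3 (by positivity)
      _ = (∏ i ∈ Finset.univ.erase i₀, C i) *
          ((∑ n ∈ Finset.range N, ‖∫ x, H i₀ x * conj (H i₀ (S^[n] x)) ∂ν‖) / N) := by
          rw [div_eq_mul_inv]
          ring
  have hL := tendsto_nhds_unique hlim hzero
  -- the conditional expectation of the product vanishes
  obtain ⟨hΨm, K, hK⟩ := hΨ
  obtain ⟨V, hVm, hVC, hV⟩ := exists_bms_condExp (Inv (tTup S ι : (ι → P) → ι → P))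
    (Measure.pi fun _ : ι => ν) hle hΨm hK
  have hΨ : BM (fun z : ι → P => ∏ i, H i (z i)) := ⟨hΨm, K, hK⟩
  have hconj := kr1_condExp_conj _ (Measure.pi fun _ : ι => ν) hle hΨ ⟨hVm, K, hVC⟩ hV
  have hsq := integral_mul_conj_condExp (Inv (tTup S ι : (ι → P) → ι → P))
    (Measure.pi fun _ : ι => ν) hle hΨ
  have e2 : ∫ z, (∏ i, H i (z i)) * conj (((Measure.pi fun _ : ι => ν)[
      fun z : ι → P => ∏ i, H i (z i) | Inv (tTup S ι : (ι → P) → ι → P)]) z)
      ∂(Measure.pi fun _ : ι => ν) = 0 := by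
    rw [← hL]
    refine integral_congr_ae ?_
    filter_upwards [hV, hconj] with z a1 a2
    rw [a1, a2]
  rw [e2] at hsq
  have hsq' : ∫ z, ‖((Measure.pi fun _ : ι => ν)[
      fun z : ι → P => ∏ i, H i (z i) | Inv (tTup S ι : (ι → P) → ι → P)]) z‖ ^ 2
      ∂(Measure.pi fun _ : ι => ν) = 0 := by
    exact_mod_cast hsq.symm
  have hz : (Measure.pi fun _ : ι => ν)[
      fun z : ι → P => ∏ i, H i (z i) | Inv (tTup S ι : (ι → P) → ι → P)]
      =ᵐ[Measure.pi fun _ : ι => ν] 0 := by
    have hint : Integrable (fun z => ‖((Measure.pi fun _ : ι => ν)[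
        fun z : ι → P => ∏ i, H i (z i) | Inv (tTup S ι : (ι → P) → ι → P)]) z‖ ^ 2)
        (Measure.pi fun _ : ι => ν) := by
      refine (bas_int_sq (BMs.mono hle ⟨hVm, K, hVC⟩) (Measure.pi fun _ : ι => ν)).congr ?_
      filter_upwards [hV] with z a1
      rw [a1]
    have h1 := (integral_eq_zero_iff_of_nonneg (fun z => by positivity) hint).mp hsq'
    filter_upwards [h1] with z a1
    have a2 : ‖((Measure.pi fun _ : ι => ν)[
        fun z : ι → P => ∏ i, H i (z i) | Inv (tTup S ι : (ι → P) → ι → P)]) z‖ ^ 2 = 0 := a1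
    exact norm_eq_zero.mp (pow_eq_zero_iff two_ne_zero |>.mp a2)
  -- the bounded strictly invariant version of `W`
  have hWA : AEM (Inv (tTup S ι : (ι → P) → ι → P)) (Measure.pi fun _ : ι => ν) W :=
    aem_inv_of_comp _ (tTup S ι) hT hW.1.aestronglyMeasurable hi
  have hW1 := (aem_iff_condExp _ (Measure.pi fun _ : ι => ν) hle hW).mp hWA
  obtain ⟨hWm, K', hK'⟩ := hW
  obtain ⟨W', hWm', hWC', hW'⟩ := exists_bms_condExp (Inv (tTup S ι : (ι → P) → ι → P))
    (Measure.pi fun _ : ι => ν) hle hWm hK'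
  have h1 := (condExp_eq_zero_iff _ (Measure.pi fun _ : ι => ν) hle hΨ).mp hz W'
    ⟨hWm', K', hWC'⟩
  rw [← h1]
  refine integral_congr_ae ?_
  filter_upwards [hW1, hW'] with z a1 a2
  rw [← a2, a1]

end Pool.Agent.HK820

end

/-! ### Part `KR2` -/

section

open MeasureTheory ProbabilityTheory Filter Topology
open scoped ComplexConjugate ENNReal

namespace Pool.Agent.HK820

section kr

variable {P : Type} [mP : MeasurableSpace P] {ι : Type} [Fintype ι]

theorem kr_upd_meas [DecidableEq ι] (i₀ : ι) :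
    Measurable (fun q : P × (ι → P) => Function.update q.2 i₀ q.1) := by
  refine measurable_pi_lambda _ fun j => ?_
  by_cases hj : j = i₀
  · subst hj
    simp only [Function.update_self]
    exact measurable_fst
  · simp only [Function.update_of_ne hj]
    exact (measurable_pi_apply j).comp measurable_snd

theorem kr_prod_upd [DecidableEq ι] (f : ι → P → ℂ) (i₀ : ι) (x : P) (z : ι → P) :
    ∏ i, f i (Function.update z i₀ x i) =
      f i₀ x * ∏ i, (Function.update f i₀ (fun _ => 1)) i (z i) := by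
  rw [← Finset.mul_prod_erase Finset.univ _ (Finset.mem_univ i₀),
    ← Finset.mul_prod_erase Finset.univ (fun i => (Function.update f i₀ (fun _ => 1)) i (z i))
      (Finset.mem_univ i₀)]
  rw [Function.update_self, Function.update_self, one_mul]
  congr 1
  refine Finset.prod_congr rfl fun j hj => ?_
  rw [Function.update_of_ne (Finset.ne_of_mem_erase hj),
    Function.update_of_ne (Finset.ne_of_mem_erase hj)]

theorem kr_upd_mp [DecidableEq ι] (ν : Measure P) [IsProbabilityMeasure ν] (i₀ : ι) :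
    MeasurePreserving (fun q : P × (ι → P) => Function.update q.2 i₀ q.1)
      (ν.prod (Measure.pi fun _ : ι => ν)) (Measure.pi fun _ : ι => ν) := by
  have hm := kr_upd_meas (P := P) i₀
  have hP : IsProbabilityMeasure ((ν.prod (Measure.pi fun _ : ι => ν)).map
      (fun q : P × (ι → P) => Function.update q.2 i₀ q.1)) :=
    Measure.isProbabilityMeasure_map hm.aemeasurable
  refine ⟨hm, ext_prod _ _ fun g hg => ?_⟩
  have hF : BM (fun z : ι → P => ∏ k, g k (z k)) :=
    BMs.prod _ fun k => BMs.comp (m' := mP) (hg k) (measurable_pi_apply k)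
  rw [integral_map hm.aemeasurable hF.1.aestronglyMeasurable]
  simp only [kr_prod_upd g i₀]
  rw [integral_prod_mul (fun x => g i₀ x)
    (fun z : ι → P => ∏ i, (Function.update g i₀ (fun _ => 1)) i (z i)),
    integral_fintype_prod_eq_prod, integral_fintype_prod_eq_prod,
    ← Finset.mul_prod_erase Finset.univ (fun i => ∫ x, g i x ∂ν) (Finset.mem_univ i₀),
    ← Finset.mul_prod_erase Finset.univ
      (fun i => ∫ x, (Function.update g i₀ (fun _ => 1)) i x ∂ν) (Finset.mem_univ i₀)]
  rw [Function.update_self]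
  have e1 : ∫ _x : P, (1 : ℂ) ∂ν = 1 := by simp
  rw [e1, one_mul]
  congr 1
  refine Finset.prod_congr rfl fun j hj => ?_
  rw [Function.update_of_ne (Finset.ne_of_mem_erase hj)]

theorem kr_int (ν : Measure P) [IsProbabilityMeasure ν] {W : (ι → P) → ℂ} (hW : BM W)
    {f : ι → P → ℂ} (hf : ∀ i, Integrable (f i) ν) :
    Integrable (fun z => W z * ∏ i, f i (z i)) (Measure.pi fun _ : ι => ν) := by
  obtain ⟨hW1, C, hC⟩ := hW
  exact (Integrable.fintype_prod hf).bdd_mul hW1.aestronglyMeasurable (c := C)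
    (Eventually.of_forall hC)

theorem kr_int_upd [DecidableEq ι] (ν : Measure P) [IsProbabilityMeasure ν] {f : ι → P → ℂ}
    (hf : ∀ i, Integrable (f i) ν) (i₀ : ι) :
    Integrable (fun z : ι → P => ∏ i, (Function.update f i₀ (fun _ => 1)) i (z i))
      (Measure.pi fun _ : ι => ν) := by
  refine Integrable.fintype_prod fun i => ?_
  by_cases hi : i = i₀
  · subst hi
    rw [Function.update_self]
    exact integrable_const _
  · rw [Function.update_of_ne hi]
    exact hf i

theorem kr_int2 [DecidableEq ι] (ν : Measure P) [IsProbabilityMeasure ν] {W : (ι → P) → ℂ}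
    (hW : BM W) {f : ι → P → ℂ} (hf : ∀ i, Integrable (f i) ν) (i₀ : ι) :
    Integrable (fun q : P × (ι → P) => f i₀ q.1 * (W (Function.update q.2 i₀ q.1) *
      ∏ i, (Function.update f i₀ (fun _ => 1)) i (q.2 i)))
      (ν.prod (Measure.pi fun _ : ι => ν)) := by
  have h1 := ((kr_upd_mp ν i₀).integrable_comp (kr_int ν hW hf).aestronglyMeasurable).2
    (kr_int ν hW hf)
  refine h1.congr (Eventually.of_forall fun q => ?_)
  show W (Function.update q.2 i₀ q.1) * ∏ i, f i (Function.update q.2 i₀ q.1 i) = _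
  rw [kr_prod_upd]
  ring

theorem kr_fub0 [DecidableEq ι] (ν : Measure P) [IsProbabilityMeasure ν] {W : (ι → P) → ℂ}
    (hW : BM W) {f : ι → P → ℂ} (hf : ∀ i, Integrable (f i) ν) (i₀ : ι) :
    ∫ z, W z * ∏ i, f i (z i) ∂(Measure.pi fun _ : ι => ν) =
      ∫ q : P × (ι → P), f i₀ q.1 * (W (Function.update q.2 i₀ q.1) *
      ∏ i, (Function.update f i₀ (fun _ => 1)) i (q.2 i))
      ∂(ν.prod (Measure.pi fun _ : ι => ν)) := by
  have hmp := kr_upd_mp (ι := ι) ν i₀
  have h2 : AEStronglyMeasurable (fun z => W z * ∏ i, f i (z i))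
      ((ν.prod (Measure.pi fun _ : ι => ν)).map
        (fun q : P × (ι → P) => Function.update q.2 i₀ q.1)) := by
    rw [hmp.map_eq]
    exact (kr_int ν hW hf).aestronglyMeasurable
  have h3 := integral_map hmp.measurable.aemeasurable h2
  rw [hmp.map_eq] at h3
  rw [h3]
  refine integral_congr_ae (Eventually.of_forall fun q => ?_)
  show W (Function.update q.2 i₀ q.1) * ∏ i, f i (Function.update q.2 i₀ q.1 i) = _
  rw [kr_prod_upd]
  ring

/-- the multilinear form -/
noncomputable def krJ (ν : Measure P) (W : (ι → P) → ℂ) (K : ι → Lp ℂ 2 ν) : ℂ :=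
  ∫ z, W z * ∏ i, K i (z i) ∂(Measure.pi fun _ : ι => ν)

theorem krJ_congr (ν : Measure P) [IsProbabilityMeasure ν] (W : (ι → P) → ℂ)
    {K : ι → Lp ℂ 2 ν} {f : ι → P → ℂ} (h : ∀ i, K i =ᵐ[ν] f i) :
    krJ ν W K = ∫ z, W z * ∏ i, f i (z i) ∂(Measure.pi fun _ : ι => ν) := by
  have h1 : ∀ᵐ z ∂(Measure.pi fun _ : ι => ν), ∀ i, K i (z i) = f i (z i) :=
    ae_all_iff.2 fun i =>
      (measurePreserving_eval (fun _ : ι => ν) i).quasiMeasurePreserving.ae (h i)
  refine integral_congr_ae ?_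
  filter_upwards [h1] with z hz
  rw [Finset.prod_congr rfl fun i _ => hz i]

theorem kr_fun_upd [DecidableEq ι] (ν : Measure P) (K : ι → Lp ℂ 2 ν) (i₀ : ι) (v : Lp ℂ 2 ν) :
    Function.update (fun i => ((Function.update K i₀ v) i : P → ℂ)) i₀ (fun _ => (1 : ℂ)) =
      Function.update (fun i => (K i : P → ℂ)) i₀ (fun _ => (1 : ℂ)) := by
  funext i
  by_cases hi : i = i₀
  · subst hi
    rw [Function.update_self, Function.update_self]
  · rw [Function.update_of_ne hi, Function.update_of_ne hi, Function.update_of_ne hi]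

/-- the form is a continuous linear function of each variable -/
theorem kr_repr [DecidableEq ι] (ν : Measure P) [IsProbabilityMeasure ν] {W : (ι → P) → ℂ}
    (hW : BM W) (K : ι → Lp ℂ 2 ν) (i₀ : ι) :
    ∃ g : Lp ℂ 2 ν, ∀ v : Lp ℂ 2 ν, krJ ν W (Function.update K i₀ v) = inner ℂ g v := by
  obtain ⟨hW1, C, hC⟩ := hW
  have hWB : BM W := ⟨hW1, C, hC⟩
  have hf : ∀ i, Integrable (K i : P → ℂ) ν := fun i => hs_f_int ν (K i)
  have hprod := kr_int_upd ν hf i₀
  set p : (ι → P) → ℂ := fun z =>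
    ∏ i, (Function.update (fun i => (K i : P → ℂ)) i₀ (fun _ => (1 : ℂ))) i (z i) with hp
  have hpm : StronglyMeasurable p := by
    refine Measurable.stronglyMeasurable (Finset.measurable_prod _ fun i _ => ?_)
    by_cases hi : i = i₀
    · subst hi
      simp only [Function.update_self]
      exact measurable_const
    · simp only [Function.update_of_ne hi]
      exact (Lp.stronglyMeasurable (K i)).measurable.comp (measurable_pi_apply i)
  set G : P → ℂ := fun x => ∫ z, W (Function.update z i₀ x) * p z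
    ∂(Measure.pi fun _ : ι => ν) with hG
  have hGm : StronglyMeasurable G := by
    refine StronglyMeasurable.integral_prod_right'
      (f := fun q : P × (ι → P) => W (Function.update q.2 i₀ q.1) * p q.2) ?_
    exact (hW1.comp (kr_upd_meas i₀)).stronglyMeasurable.mul (hpm.comp_measurable measurable_snd)
  have hGC : ∀ x, ‖G x‖ ≤ ∫ z, C * ‖p z‖ ∂(Measure.pi fun _ : ι => ν) := by
    intro x
    refine norm_integral_le_of_norm_le (hprod.norm.const_mul C)
      (Eventually.of_forall fun z => ?_)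
    rw [norm_mul]
    exact mul_le_mul_of_nonneg_right (hC _) (norm_nonneg _)
  have hG2 : MemLp (fun x => conj (G x)) 2 ν :=
    hs_memLp_two ν (Complex.continuous_conj.comp_aestronglyMeasurable hGm.aestronglyMeasurable)
      (fun x => by rw [RCLike.norm_conj]; exact hGC x)
  refine ⟨hG2.toLp _, fun v => ?_⟩
  have hf' : ∀ i, Integrable ((Function.update K i₀ v) i : P → ℂ) ν := fun i => hs_f_int ν _
  have h1 := kr_fub0 ν hWB hf' i₀
  have h2 := kr_int2 ν hWB hf' i₀
  rw [kr_fun_upd] at h1 h2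
  have h3 : krJ ν W (Function.update K i₀ v) = ∫ z, W z * ∏ i, (Function.update K i₀ v) i (z i)
    ∂(Measure.pi fun _ : ι => ν) := rfl
  rw [h3, h1, integral_prod _ h2, L2.inner_def]
  refine integral_congr_ae ?_
  filter_upwards [hG2.coeFn_toLp] with x hx
  rw [hx, Function.update_self, RCLike.inner_apply, Complex.conj_conj]
  show ∫ z, v x * (W (Function.update z i₀ x) * p z) ∂(Measure.pi fun _ : ι => ν) = v x * G x
  rw [integral_const_mul]

theorem kr_tTup_mp (ν : Measure P) [IsProbabilityMeasure ν] (S : P ≃ᵐ P)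
    (hS : MeasurePreserving S ν ν) :
    MeasurePreserving (tTup S ι) (Measure.pi fun _ : ι => ν) (Measure.pi fun _ : ι => ν) :=
  measurePreserving_pi (fun _ => ν) (fun _ => ν) (fun _ => hS)

/-- a function orthogonal to the eigenvectors is killed by an invariant function in every
coordinate -/
theorem kr_kill [DecidableEq ι] (ν : Measure P) [IsProbabilityMeasure ν] (S : P ≃ᵐ P)
    (hS : MeasurePreserving S ν ν) {W : (ι → P) → ℂ} (hW : BM W)
    (hi : (fun z => W (tTup S ι z)) =ᵐ[Measure.pi (fun _ : ι => ν)] W) (i₀ : ι)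
    (v : Lp ℂ 2 ν)
    (hv : ∀ (e : Lp ℂ 2 ν) (c : ℂ), e ≠ 0 → Lp.compMeasurePreservingₗᵢ ℂ S hS e = c • e →
      inner ℂ v e = 0) :
    ∀ᵐ z ∂(Measure.pi (fun _ : ι => ν)), ∫ x, W (Function.update z i₀ x) * v x ∂ν = 0 := by
  obtain ⟨hW1, C, hC⟩ := hW
  have hT := kr_tTup_mp (ι := ι) ν S hS
  set W₂ : P × P → ℂ := fun q => ∫ z, conj (W (Function.update z i₀ q.1)) *
    W (Function.update z i₀ q.2) ∂(Measure.pi fun _ : ι => ν) with hW₂
  have hWm : Measurable (fun q : P × (ι → P) => W (Function.update q.2 i₀ q.1)) :=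
    hW1.comp (kr_upd_meas i₀)
  have hjm : Measurable (fun q : (P × P) × (ι → P) => conj (W (Function.update q.2 i₀ q.1.1)) *
      W (Function.update q.2 i₀ q.1.2)) := by
    have h1 : Measurable (fun q : (P × P) × (ι → P) => W (Function.update q.2 i₀ q.1.1)) :=
      hWm.comp ((measurable_fst.comp measurable_fst).prodMk measurable_snd)
    have h2 : Measurable (fun q : (P × P) × (ι → P) => W (Function.update q.2 i₀ q.1.2)) :=
      hWm.comp ((measurable_snd.comp measurable_fst).prodMk measurable_snd)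
    exact (Complex.continuous_conj.measurable.comp h1).mul h2
  have hW₂m : Measurable W₂ := by
    have h1 : StronglyMeasurable W₂ := StronglyMeasurable.integral_prod_right'
      (f := fun q : (P × P) × (ι → P) => conj (W (Function.update q.2 i₀ q.1.1)) *
        W (Function.update q.2 i₀ q.1.2)) hjm.stronglyMeasurable
    exact h1.measurable
  have hC2 : ∀ (x x' : P) (z : ι → P), ‖conj (W (Function.update z i₀ x)) *
      W (Function.update z i₀ x')‖ ≤ C * C := by
    intro x x' z
    rw [norm_mul, RCLike.norm_conj]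
    exact mul_le_mul (hC _) (hC _) (norm_nonneg _) ((norm_nonneg _).trans (hC z))
  have hW₂C : ∀ q, ‖W₂ q‖ ≤ C * C := by
    intro q
    have h1 := norm_integral_le_of_norm_le_const (μ := Measure.pi fun _ : ι => ν)
      (f := fun z => conj (W (Function.update z i₀ q.1)) * W (Function.update z i₀ q.2))
      (C := C * C) (Eventually.of_forall fun z => hC2 _ _ _)
    simpa using h1
  have hsymm : ∀ᵐ q ∂(ν.prod ν), W₂ q.swap = conj (W₂ q) := by
    refine Eventually.of_forall fun q => ?_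
    show ∫ z, conj (W (Function.update z i₀ q.2)) * W (Function.update z i₀ q.1)
      ∂(Measure.pi fun _ : ι => ν) = conj (∫ z, conj (W (Function.update z i₀ q.1)) *
        W (Function.update z i₀ q.2) ∂(Measure.pi fun _ : ι => ν))
    rw [← integral_conj]
    refine integral_congr_ae (Eventually.of_forall fun z => ?_)
    show _ = conj (conj (W (Function.update z i₀ q.1)) * W (Function.update z i₀ q.2))
    rw [map_mul, Complex.conj_conj]
    ring
  have hgood : ∀ᵐ x ∂ν, ∀ᵐ z ∂(Measure.pi fun _ : ι => ν),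
      W (Function.update (tTup S ι z) i₀ (S x)) = W (Function.update z i₀ x) := by
    have h1 := (kr_upd_mp (ι := ι) ν i₀).quasiMeasurePreserving.ae hi
    have h2 := Measure.ae_ae_of_ae_prod h1
    filter_upwards [h2] with x hx
    filter_upwards [hx] with z hz
    have h3 : tTup S ι (Function.update z i₀ x) = Function.update (tTup S ι z) i₀ (S x) := by
      funext j
      show S (Function.update z i₀ x j) = _
      by_cases hj : j = i₀
      · subst hj
        rw [Function.update_self, Function.update_self]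
      · rw [Function.update_of_ne hj, Function.update_of_ne hj]
        rfl
    rw [← h3]
    exact hz
  have hWS : ∀ᵐ q ∂(ν.prod ν), W₂ (S q.1, S q.2) = W₂ q := by
    have h1 : ∀ᵐ q ∂(ν.prod ν), ∀ᵐ z ∂(Measure.pi fun _ : ι => ν),
        W (Function.update (tTup S ι z) i₀ (S q.1)) = W (Function.update z i₀ q.1) :=
      Measure.quasiMeasurePreserving_fst.ae hgood
    have h2 : ∀ᵐ q ∂(ν.prod ν), ∀ᵐ z ∂(Measure.pi fun _ : ι => ν),
        W (Function.update (tTup S ι z) i₀ (S q.2)) = W (Function.update z i₀ q.2) :=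
      Measure.quasiMeasurePreserving_snd.ae hgood
    filter_upwards [h1, h2] with q a1 a2
    show ∫ z, conj (W (Function.update z i₀ (S q.1))) * W (Function.update z i₀ (S q.2))
      ∂(Measure.pi fun _ : ι => ν) = ∫ z, conj (W (Function.update z i₀ q.1)) *
        W (Function.update z i₀ q.2) ∂(Measure.pi fun _ : ι => ν)
    rw [← hT.integral_comp' (g := fun z => conj (W (Function.update z i₀ (S q.1))) *
      W (Function.update z i₀ (S q.2)))]
    refine integral_congr_ae ?_
    filter_upwards [a1, a2] with z b1 b2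
    show conj (W (Function.update (tTup S ι z) i₀ (S q.1))) *
      W (Function.update (tTup S ι z) i₀ (S q.2)) = _
    rw [b1, b2]
  have hzero : inner ℂ v (kop ν hW₂m hW₂C v) = 0 := by
    by_contra hne
    obtain ⟨e, c, he0, hUe, hve⟩ := hs_abstract (kop ν hW₂m hW₂C) (kop_compact ν hW₂m hW₂C)
      (kop_symm ν hW₂m hW₂C hsymm) (Lp.compMeasurePreservingₗᵢ ℂ S hS)
      (fun f => kop_comm ν hW₂m hW₂C S hS hWS f) v v hne
    exact hve (hv e c he0 hUe)
  rw [kop_inner] at hzero
  -- Fubini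
  have hvint : Integrable (v : P → ℂ) ν := hs_f_int ν v
  have hvc : Integrable (fun x => conj (v x)) ν := by
    refine hvint.congr' (Complex.continuous_conj.comp_aestronglyMeasurable hvint.1)
      (Eventually.of_forall fun x => by rw [RCLike.norm_conj])
  have hvv : Integrable (fun q : P × P => conj (v q.1) * v q.2) (ν.prod ν) := hvc.mul_prod hvint
  have hvv2 : Integrable (fun q : (P × P) × (ι → P) => conj (v q.1.1) * v q.1.2)
      ((ν.prod ν).prod (Measure.pi fun _ : ι => ν)) := hvv.comp_fst _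
  have hint : Integrable (fun q : (P × P) × (ι → P) =>
      (conj (W (Function.update q.2 i₀ q.1.1)) * W (Function.update q.2 i₀ q.1.2)) *
        (conj (v q.1.1) * v q.1.2)) ((ν.prod ν).prod (Measure.pi fun _ : ι => ν)) :=
    hvv2.bdd_mul hjm.aestronglyMeasurable (c := C * C)
      (Eventually.of_forall fun q => hC2 _ _ _)
  have e1 : ∫ q, W₂ q * (conj (v q.1) * v q.2) ∂(ν.prod ν) =
      ∫ q : (P × P) × (ι → P), (conj (W (Function.update q.2 i₀ q.1.1)) *
        W (Function.update q.2 i₀ q.1.2)) * (conj (v q.1.1) * v q.1.2)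
        ∂((ν.prod ν).prod (Measure.pi fun _ : ι => ν)) := by
    rw [integral_prod _ hint]
    refine integral_congr_ae (Eventually.of_forall fun q => ?_)
    show W₂ q * (conj (v q.1) * v q.2) = ∫ z, (conj (W (Function.update z i₀ q.1)) *
      W (Function.update z i₀ q.2)) * (conj (v q.1) * v q.2) ∂(Measure.pi fun _ : ι => ν)
    rw [integral_mul_const]
  set I : (ι → P) → ℂ := fun z => ∫ x, W (Function.update z i₀ x) * v x ∂ν with hI
  have e2 : ∫ q : (P × P) × (ι → P), (conj (W (Function.update q.2 i₀ q.1.1)) *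
        W (Function.update q.2 i₀ q.1.2)) * (conj (v q.1.1) * v q.1.2)
        ∂((ν.prod ν).prod (Measure.pi fun _ : ι => ν)) =
      ∫ z, ((‖I z‖ ^ 2 : ℝ) : ℂ) ∂(Measure.pi fun _ : ι => ν) := by
    rw [integral_prod_symm _ hint]
    refine integral_congr_ae (Eventually.of_forall fun z => ?_)
    show ∫ q : P × P, (conj (W (Function.update z i₀ q.1)) *
      W (Function.update z i₀ q.2)) * (conj (v q.1) * v q.2) ∂(ν.prod ν) = _
    have e3 : ∀ q : P × P, (conj (W (Function.update z i₀ q.1)) *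
        W (Function.update z i₀ q.2)) * (conj (v q.1) * v q.2) =
        conj (W (Function.update z i₀ q.1) * v q.1) * (W (Function.update z i₀ q.2) * v q.2) := by
      intro q
      rw [map_mul]
      ring
    simp only [e3]
    rw [integral_prod_mul (fun x => conj (W (Function.update z i₀ x) * v x))
      (fun x => W (Function.update z i₀ x) * v x), integral_conj, Complex.conj_mul',
      Complex.ofReal_pow]
  rw [e1, e2, integral_complex_ofReal] at hzero
  have hzero' : ∫ z, ‖I z‖ ^ 2 ∂(Measure.pi fun _ : ι => ν) = 0 := by exact_mod_cast hzero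
  have hIm : StronglyMeasurable I := by
    refine StronglyMeasurable.integral_prod_right'
      (f := fun q : (ι → P) × P => W (Function.update q.1 i₀ q.2) * v q.2) ?_
    exact (hWm.comp (measurable_snd.prodMk measurable_fst)).stronglyMeasurable.mul
      ((Lp.stronglyMeasurable v).comp_measurable measurable_snd)
  have hIC : ∀ z, ‖I z‖ ≤ ∫ x, C * ‖v x‖ ∂ν := by
    intro z
    refine norm_integral_le_of_norm_le (hvint.norm.const_mul C)
      (Eventually.of_forall fun x => ?_)
    rw [norm_mul]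
    exact mul_le_mul_of_nonneg_right (hC _) (norm_nonneg _)
  have hIB : BM I := ⟨hIm.measurable, _, hIC⟩
  have h5 := (integral_eq_zero_iff_of_nonneg (fun z => by positivity)
    (bas_int_sq hIB (Measure.pi fun _ : ι => ν))).1 hzero'
  filter_upwards [h5] with z hz
  have h6 : ‖I z‖ ^ 2 = 0 := hz
  exact norm_eq_zero.1 (pow_eq_zero_iff (two_ne_zero) |>.1 h6)

theorem kr_vanish [DecidableEq ι] (ν : Measure P) [IsProbabilityMeasure ν] (S : P ≃ᵐ P)
    (hS : MeasurePreserving S ν ν) {W : (ι → P) → ℂ} (hW : BM W)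
    (hi : (fun z => W (tTup S ι z)) =ᵐ[Measure.pi (fun _ : ι => ν)] W) (K : ι → Lp ℂ 2 ν)
    (i₀ : ι) (v : Lp ℂ 2 ν)
    (hv : ∀ (e : Lp ℂ 2 ν) (c : ℂ), e ≠ 0 → Lp.compMeasurePreservingₗᵢ ℂ S hS e = c • e →
      inner ℂ v e = 0) :
    krJ ν W (Function.update K i₀ v) = 0 := by
  have hf' : ∀ i, Integrable ((Function.update K i₀ v) i : P → ℂ) ν := fun i => hs_f_int ν _
  have h1 := kr_fub0 ν hW hf' i₀
  have h2 := kr_int2 ν hW hf' i₀
  have h3 : krJ ν W (Function.update K i₀ v) = ∫ z, W z * ∏ i, (Function.update K i₀ v) i (z i)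
    ∂(Measure.pi fun _ : ι => ν) := rfl
  rw [h3, h1, integral_prod_symm _ h2]
  have h4 : ∫ z, (0 : ℂ) ∂(Measure.pi fun _ : ι => ν) = 0 := integral_zero _ _
  rw [← h4]
  refine integral_congr_ae ?_
  filter_upwards [kr_kill ν S hS hW hi i₀ v hv] with z hz
  rw [Function.update_self]
  have h5 : ∀ x, v x * (W (Function.update z i₀ x) * ∏ i, (Function.update
      (fun i => ((Function.update K i₀ v) i : P → ℂ)) i₀ (fun _ => 1)) i (z i)) =
      (W (Function.update z i₀ x) * v x) * ∏ i, (Function.update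
      (fun i => ((Function.update K i₀ v) i : P → ℂ)) i₀ (fun _ => 1)) i (z i) := by
    intro x
    ring
  simp only [h5]
  rw [integral_mul_const, hz, zero_mul]

theorem kr_eigvec (ν : Measure P) [IsProbabilityMeasure ν] (S : P ≃ᵐ P) (hS : Ergodic S ν)
    {e : Lp ℂ 2 ν} {c : ℂ} (he0 : e ≠ 0)
    (hUe : Lp.compMeasurePreservingₗᵢ ℂ S hS.toMeasurePreserving e = c • e) :
    ∃ (ψ : P → ℂ) (κ : ℂ), IsEig ν S ψ c ∧ e =ᵐ[ν] fun x => κ * ψ x := by
  classical
  have hSm := hS.toMeasurePreserving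
  have hc1 : ‖c‖ = 1 := by
    have h1 : ‖(Lp.compMeasurePreservingₗᵢ ℂ S hSm) e‖ = ‖e‖ :=
      LinearIsometry.norm_map _ e
    rw [hUe, norm_smul] at h1
    have h2 : ‖e‖ ≠ 0 := norm_ne_zero_iff.mpr he0
    exact mul_right_cancel₀ h2 (by rw [h1, one_mul])
  have heS : ∀ᵐ x ∂ν, e (S x) = c * e x := by
    have h1 : (Lp.compMeasurePreservingₗᵢ ℂ S hSm e : P → ℂ) =ᵐ[ν] (e : P → ℂ) ∘ S :=
      Lp.coeFn_compMeasurePreserving _ hSm
    rw [hUe] at h1
    filter_upwards [h1, Lp.coeFn_smul c e] with x e1 e2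
    have e3 : (e : P → ℂ) (S x) = ((e : P → ℂ) ∘ S) x := rfl
    rw [e3, ← e1, e2, Pi.smul_apply, smul_eq_mul]
  obtain ⟨κ, hκ⟩ : ∃ κ : ℝ, (fun x => ‖e x‖) =ᵐ[ν] Function.const P κ := by
    refine hS.ae_eq_const_of_ae_eq_comp_ae
      (Lp.stronglyMeasurable e).norm.aestronglyMeasurable ?_
    filter_upwards [heS] with x hx
    rw [Function.comp_apply, hx, norm_mul, hc1, one_mul]
  have hκ0 : 0 ≤ κ := by
    obtain ⟨x, hx⟩ := hκ.exists
    rw [Function.const_apply] at hx
    rw [← hx]
    exact norm_nonneg _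
  have hκpos : 0 < κ := by
    refine lt_of_le_of_ne hκ0 fun hκ' => he0 ?_
    refine Lp.ext ?_
    filter_upwards [hκ, Lp.coeFn_zero ℂ 2 ν] with x hx h0
    rw [h0, Pi.zero_apply]
    rw [Function.const_apply, ← hκ'] at hx
    exact norm_eq_zero.mp hx
  have hem : Measurable (e : P → ℂ) := (Lp.stronglyMeasurable e).measurable
  refine ⟨fun x => if ‖e x‖ = κ then e x / κ else 1, (κ : ℂ), ⟨?_, ?_, hc1, ?_⟩, ?_⟩
  · exact Measurable.ite (measurableSet_eq_fun hem.norm measurable_const)
      (hem.div_const _) measurable_const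
  · intro x
    by_cases hx : ‖e x‖ = κ
    · simp only [hx, if_true, norm_div, Complex.norm_real, Real.norm_of_nonneg hκ0]
      exact div_self hκpos.ne'
    · simp [hx]
  · have h2 := hSm.quasiMeasurePreserving.ae hκ
    filter_upwards [heS, hκ, h2] with x e1 e2 e3
    rw [Function.const_apply] at e2 e3
    rw [if_pos e2, if_pos e3, e1]
    ring
  · filter_upwards [hκ] with x hx
    rw [Function.const_apply] at hx
    rw [if_pos hx, mul_div_cancel₀ _ (Complex.ofReal_ne_zero.mpr hκpos.ne')]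

/-- the classes of the eigenfunctions -/
def krE0 (ν : Measure P) (S : P ≃ᵐ P) : Set (Lp ℂ 2 ν) :=
  {v | ∃ ψ c, IsEig ν S ψ c ∧ v =ᵐ[ν] ψ}

theorem kr_orth (ν : Measure P) [IsProbabilityMeasure ν] (S : P ≃ᵐ P) (hS : Ergodic S ν)
    {b : Lp ℂ 2 ν} (hb : b ∈ (Submodule.span ℂ (krE0 ν S))ᗮ) (e : Lp ℂ 2 ν) (c : ℂ)
    (he0 : e ≠ 0)
    (hUe : Lp.compMeasurePreservingₗᵢ ℂ S hS.toMeasurePreserving e = c • e) :
    inner ℂ b e = 0 := by
  obtain ⟨ψ, κ, hψ, he⟩ := kr_eigvec ν S hS he0 hUe
  have hψ2 : MemLp ψ 2 ν := hs_memLp_two ν hψ.meas.aestronglyMeasurable (fun x => (hψ.norm x).le)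
  have h1 : e = κ • hψ2.toLp ψ := by
    refine Lp.ext ?_
    filter_upwards [he, Lp.coeFn_smul κ (hψ2.toLp ψ), hψ2.coeFn_toLp] with x h1 h2 h3
    rw [h1, h2, Pi.smul_apply, h3, smul_eq_mul]
  have h2 : e ∈ Submodule.span ℂ (krE0 ν S) := by
    rw [h1]
    exact Submodule.smul_mem _ _ (Submodule.subset_span ⟨ψ, c, hψ, hψ2.coeFn_toLp⟩)
  exact Submodule.inner_left_of_mem_orthogonal h2 hb

/-- the Koopman operator of `h` acts on the class of an eigenfunction by a constant -/
theorem kr_V_eig (ν : Measure P) [IsProbabilityMeasure ν] {h : P → P}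
    (hm : MeasurePreserving h ν ν) {ψ : P → ℂ} {χ : ℂ} {v : Lp ℂ 2 ν} (hv : v =ᵐ[ν] ψ)
    (hχ : ∀ᵐ x ∂ν, ψ (h x) = χ * ψ x) :
    Lp.compMeasurePreservingₗᵢ ℂ h hm v =ᵐ[ν] fun x => χ * ψ x := by
  have h1 : (Lp.compMeasurePreservingₗᵢ ℂ h hm v : P → ℂ) =ᵐ[ν] (v : P → ℂ) ∘ h :=
    Lp.coeFn_compMeasurePreserving _ hm
  have h2 := hm.quasiMeasurePreserving.ae hv
  filter_upwards [h1, h2, hχ] with x a1 a2 a3
  rw [a1, Function.comp_apply, a2, a3]

theorem kr_V_orth (ν : Measure P) [IsProbabilityMeasure ν] (S : P ≃ᵐ P) {h : P → P}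
    (hm : MeasurePreserving h ν ν)
    (hl : ∀ ψ c, IsEig ν S ψ c → ∃ χ : ℂ, ‖χ‖ = 1 ∧ ∀ᵐ x ∂ν, ψ (h x) = χ * ψ x)
    {b : Lp ℂ 2 ν} (hb : b ∈ (Submodule.span ℂ (krE0 ν S))ᗮ) :
    Lp.compMeasurePreservingₗᵢ ℂ h hm b ∈ (Submodule.span ℂ (krE0 ν S))ᗮ := by
  rw [Submodule.mem_orthogonal]
  intro u hu
  induction hu using Submodule.span_induction with
  | mem u hu =>
    obtain ⟨ψ, c, hψ, hu'⟩ := hu
    obtain ⟨χ, hχ1, hχ⟩ := hl ψ c hψ
    have h1 : Lp.compMeasurePreservingₗᵢ ℂ h hm u = χ • u := by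
      refine Lp.ext ?_
      filter_upwards [kr_V_eig ν hm hu' hχ, Lp.coeFn_smul χ u, hu'] with x a1 a2 a3
      rw [a1, a2, Pi.smul_apply, a3, smul_eq_mul]
    have h2 : inner ℂ (Lp.compMeasurePreservingₗᵢ ℂ h hm u)
        (Lp.compMeasurePreservingₗᵢ ℂ h hm b) = inner ℂ u b := LinearIsometry.inner_map_map _ _ _
    have h4 : u ∈ Submodule.span ℂ (krE0 ν S) := Submodule.subset_span ⟨ψ, c, hψ, hu'⟩
    have h3 : inner ℂ u b = 0 := Submodule.inner_right_of_mem_orthogonal h4 hb
    rw [h1, h3, inner_smul_left] at h2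
    refine (mul_eq_zero.1 h2).resolve_left ?_
    intro h0
    rw [map_eq_zero] at h0
    rw [h0, norm_zero] at hχ1
    exact zero_ne_one hχ1
  | zero => exact inner_zero_left _
  | add x y _ _ hx hy => rw [inner_add_left, hx, hy, add_zero]
  | smul a x _ hx => rw [inner_smul_left, hx, mul_zero]

theorem kr_main (ν : Measure P) [IsProbabilityMeasure ν] (S : P ≃ᵐ P) (hS : Ergodic S ν)
    (h : ι → P → P) (hm : ∀ i, MeasurePreserving (h i) ν ν)
    (hl : ∀ i ψ c, IsEig ν S ψ c → ∃ χ : ℂ, ‖χ‖ = 1 ∧ ∀ᵐ x ∂ν, ψ (h i x) = χ * ψ x)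
    (hχ : ∀ (ψ : ι → P → ℂ) (c χ : ι → ℂ), (∀ i, IsEig ν S (ψ i) (c i)) →
      (∀ i, ∀ᵐ x ∂ν, ψ i (h i x) = χ i * ψ i x) → ∏ i, c i = 1 → ∏ i, χ i = 1)
    {W : (ι → P) → ℂ} (hW : BM W)
    (hi : (fun z => W (tTup S ι z)) =ᵐ[Measure.pi (fun _ : ι => ν)] W) (K : ι → Lp ℂ 2 ν) :
    krJ ν W (fun i => Lp.compMeasurePreservingₗᵢ ℂ (h i) (hm i) (K i)) = krJ ν W K := by
  classical
  have hT := kr_tTup_mp (ι := ι) ν S hS.toMeasurePreserving
  set V : (i : ι) → Lp ℂ 2 ν →ₗᵢ[ℂ] Lp ℂ 2 ν := fun i =>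
    Lp.compMeasurePreservingₗᵢ ℂ (h i) (hm i) with hV
  have key : ∀ s : Finset ι, ∀ K : ι → Lp ℂ 2 ν, (∀ i, i ∉ s → K i ∈ krE0 ν S) →
      krJ ν W (fun i => V i (K i)) = krJ ν W K := by
    intro s
    induction s using Finset.induction_on with
    | empty =>
      intro K hK
      choose ψ c hψ hKψ using fun i => hK i (Finset.notMem_empty i)
      choose χ hχ1 hχ2 using fun i => hl i (ψ i) (c i) (hψ i)
      have e1 : krJ ν W K = ∫ z, W z * ∏ i, ψ i (z i) ∂(Measure.pi fun _ : ι => ν) :=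
        krJ_congr ν W hKψ
      have e2 : krJ ν W (fun i => V i (K i)) = (∏ i, χ i) * krJ ν W K := by
        rw [krJ_congr ν W (f := fun i x => χ i * ψ i x)
          (fun i => kr_V_eig ν (hm i) (hKψ i) (hχ2 i)), e1, ← integral_const_mul]
        refine integral_congr_ae (Eventually.of_forall fun z => ?_)
        show W z * ∏ i, (χ i * ψ i (z i)) = (∏ i, χ i) * (W z * ∏ i, ψ i (z i))
        rw [Finset.prod_mul_distrib]
        ring
      have e3 : krJ ν W K = (∏ i, c i) * krJ ν W K := by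
        have h1 : krJ ν W K = ∫ z, W (tTup S ι z) * ∏ i, ψ i (tTup S ι z i)
            ∂(Measure.pi fun _ : ι => ν) := by
          rw [e1]
          exact (hT.integral_comp' (g := fun z => W z * ∏ i, ψ i (z i))).symm
        have h2 : ∀ᵐ z ∂(Measure.pi fun _ : ι => ν), ∀ i, ψ i (S (z i)) = c i * ψ i (z i) :=
          ae_all_iff.2 fun i =>
            (measurePreserving_eval (fun _ : ι => ν) i).quasiMeasurePreserving.ae (hψ i).eig
        have h3 : ∫ z, W (tTup S ι z) * ∏ i, ψ i (tTup S ι z i)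
            ∂(Measure.pi fun _ : ι => ν) = (∏ i, c i) * ∫ z, W z * ∏ i, ψ i (z i)
            ∂(Measure.pi fun _ : ι => ν) := by
          rw [← integral_const_mul]
          refine integral_congr_ae ?_
          filter_upwards [hi, h2] with z a1 a2
          have a3 : ∏ i, ψ i (tTup S ι z i) = ∏ i, (c i * ψ i (z i)) :=
            Finset.prod_congr rfl fun i _ => a2 i
          rw [a1, a3, Finset.prod_mul_distrib]
          ring
        rw [h3, ← e1] at h1
        exact h1
      rw [e2]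
      by_cases h0 : krJ ν W K = 0
      · rw [h0, mul_zero]
      · have h1 : ∏ i, c i = 1 := by
          have h4 : (1 - ∏ i, c i) * krJ ν W K = 0 := by linear_combination e3
          rcases mul_eq_zero.1 h4 with h5 | h5
          · exact (sub_eq_zero.1 h5).symm
          · exact absurd h5 h0
        rw [hχ ψ c χ hψ hχ2 h1, one_mul]
    | insert i₀ s hi₀ ih =>
      intro K hK
      have hupd : ∀ a : Lp ℂ 2 ν, (fun i => V i ((Function.update K i₀ a) i)) =
          Function.update (fun i => V i (K i)) i₀ (V i₀ a) := by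
        intro a
        funext i
        by_cases hii : i = i₀
        · subst hii
          rw [Function.update_self, Function.update_self]
        · rw [Function.update_of_ne hii, Function.update_of_ne hii]
      obtain ⟨g, hg⟩ := kr_repr ν hW K i₀
      obtain ⟨g', hg'⟩ := kr_repr ν hW (fun i => V i (K i)) i₀
      -- the difference as a continuous linear function
      set L : Lp ℂ 2 ν →L[ℂ] ℂ :=
        (innerSL ℂ g').comp (V i₀).toContinuousLinearMap - innerSL ℂ g with hL
      have hLa : ∀ a, L a = krJ ν W (fun i => V i ((Function.update K i₀ a) i)) -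
          krJ ν W (Function.update K i₀ a) := by
        intro a
        rw [hupd, hg, hg']
        rfl
      have hE0 : ∀ a ∈ krE0 ν S, L a = 0 := by
        intro a ha
        rw [hLa, sub_eq_zero]
        refine ih _ fun i his => ?_
        by_cases hii : i = i₀
        · subst hii
          rw [Function.update_self]
          exact ha
        · rw [Function.update_of_ne hii]
          refine hK i fun h1 => ?_
          rcases Finset.mem_insert.1 h1 with h2 | h2
          · exact hii h2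
          · exact his h2
      have hE : ∀ a ∈ (Submodule.span ℂ (krE0 ν S)).topologicalClosure, L a = 0 := by
        intro a ha
        have h1 : Submodule.span ℂ (krE0 ν S) ≤ LinearMap.ker (L : Lp ℂ 2 ν →ₗ[ℂ] ℂ) :=
          Submodule.span_le.2 fun x hx => hE0 x hx
        have h2 : IsClosed ((LinearMap.ker (L : Lp ℂ 2 ν →ₗ[ℂ] ℂ) : Submodule ℂ (Lp ℂ 2 ν)) :
            Set (Lp ℂ 2 ν)) := L.isClosed_ker
        exact Submodule.topologicalClosure_minimal _ h1 h2 ha
      have hO : ∀ b ∈ (Submodule.span ℂ (krE0 ν S))ᗮ, L b = 0 := by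
        intro b hb
        rw [hLa, hupd]
        have h1 := kr_vanish ν S hS.toMeasurePreserving hW hi K i₀ b
          (fun e c he0 hUe => kr_orth ν S hS hb e c he0 hUe)
        have h2 := kr_vanish ν S hS.toMeasurePreserving hW hi (fun i => V i (K i)) i₀ (V i₀ b)
          (fun e c he0 hUe => kr_orth ν S hS (kr_V_orth ν S (hm i₀) (hl i₀) hb) e c he0 hUe)
        rw [h1, h2, sub_zero]
      obtain ⟨a, ha, b, hb, hab⟩ := Submodule.exists_add_mem_mem_orthogonal
        (K := (Submodule.span ℂ (krE0 ν S)).topologicalClosure) (K i₀)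
      have hb' : b ∈ (Submodule.span ℂ (krE0 ν S))ᗮ :=
        Submodule.orthogonal_le (Submodule.le_topologicalClosure _) hb
      have h1 : L (K i₀) = 0 := by
        rw [hab, map_add, hE a ha, hO b hb', add_zero]
      rw [hLa, Function.update_eq_self, sub_eq_zero] at h1
      exact h1
  exact key Finset.univ K fun i hiu => absurd (Finset.mem_univ i) hiu

end kr

/-- **KR3.** Kronecker lemma. Invariant functions on a finite power of an ergodic system are
invariant under tuples of transformations which act on eigenfunctions by constants whose product is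
trivial whenever the product of the eigenvalues is trivial.

Proof. Write `h z = fun i => h i (z i)`, it preserves the product measure. Claim (I): for all bounded
measurable `H i` and all bounded invariant `W`, `∫ W(z) ∏ H i (h i (z i)) = ∫ W(z) ∏ H i (z i)`.
Given (I), by density of sums of products (`approx_prod`; the case of empty `ι` is trivial)
`∫ W * (K ∘ h) = ∫ W * K` for every bounded measurable `K`. For `K = conj W` this gives
`∫ W * conj (W ∘ h) = ∫ ‖W‖²`, so `∫ ‖W ∘ h - W‖² = 0`.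
Proof of (I): choose one eigenfunction for every eigenvalue (UL1: countably many; orthonormal;
UL2: every other eigenfunction is a multiple of one of them). For a finite set `A` of eigenvalues
write `H i = P_A H i + R_A H i` with `P_A` the orthogonal projection to the span. As `h i` preserves
the measure and the lines of the eigenfunctions, `H i ∘ h i = (P_A H i) ∘ h i + (R_A H i) ∘ h i`
with `(P_A H i) ∘ h i = P_A (H i ∘ h i)`. Let `Z i` be the `L²`-limit of `P_A H i` (all eigenvalues);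
`Z i` may be taken bounded: it is the conditional expectation of `H i` on the σ-algebra generated by
the eigenfunctions (products and conjugates of eigenfunctions are eigenfunctions); or avoid
boundedness with the multilinear bound `|∫ W ∏ K i| ≤ ‖W‖_∞ ∏ ‖K i‖_{L²}` (Cauchy-Schwarz on the
product measure, valid for all `K i` in `L²`), so both sides of (I) are continuous in
`(H i) ∈ (L²)^ι`, and (I) has to be checked only when every `H i` is either an eigenfunction or
orthogonal to all eigenfunctions. If some `H i` is orthogonal to all eigenfunctions both sides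
vanish (KR2 extended to `L²` by the same bound; `H i ∘ h i` is orthogonal to all eigenfunctions too).
If all `H i = ψ i` are eigenfunctions, with eigenvalues `c i`: by invariance
`∫ W ∏ ψ i = (∏ c i) ∫ W ∏ ψ i`, and the same for `ψ i ∘ h i = χ i ψ i`; so both sides vanish unless
`∏ c i = 1`, and then `∏ ψ i (h i (z i)) = (∏ χ i) ∏ ψ i (z i) = ∏ ψ i (z i)`. -/
theorem kronecker {P : Type} [MeasurableSpace P] [StandardBorelSpace P] (ν : Measure P)
    [IsProbabilityMeasure ν] (S : P ≃ᵐ P) (hS : Ergodic S ν) {ι : Type} [Fintype ι]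
    (h : ι → P → P) (hm : ∀ i, MeasurePreserving (h i) ν ν)
    (hl : ∀ i ψ c, IsEig ν S ψ c → ∃ χ : ℂ, ‖χ‖ = 1 ∧ ∀ᵐ x ∂ν, ψ (h i x) = χ * ψ x)
    (hχ : ∀ (ψ : ι → P → ℂ) (c χ : ι → ℂ), (∀ i, IsEig ν S (ψ i) (c i)) →
      (∀ i, ∀ᵐ x ∂ν, ψ i (h i x) = χ i * ψ i x) → ∏ i, c i = 1 → ∏ i, χ i = 1)
    {W : (ι → P) → ℂ} (hW : BM W)
    (hi : (fun z => W (tTup S ι z)) =ᵐ[Measure.pi (fun _ : ι => ν)] W) :
    (fun z => W (fun i => h i (z i))) =ᵐ[Measure.pi (fun _ : ι => ν)] W := by
  classical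
  by_cases hne : Nonempty ι
  swap
  · have hemp : IsEmpty ι := not_nonempty_iff.1 hne
    refine Eventually.of_forall fun z => ?_
    show W (fun i => h i (z i)) = W z
    congr 1
    funext i
    exact isEmptyElim i
  obtain ⟨hW1, C, hC⟩ := hW
  have hW : BM W := ⟨hW1, C, hC⟩
  have hC' : ∀ z, ‖W z‖ ≤ |C| := fun z => (hC z).trans (le_abs_self C)
  set μ : Measure (ι → P) := Measure.pi (fun _ : ι => ν) with hμ
  have hhm : MeasurePreserving (fun (z : ι → P) i => h i (z i)) μ μ :=
    measurePreserving_pi (fun _ => ν) (fun _ => ν) hm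
  have h1 : ∀ H : ι → P → ℂ, (∀ i, BM (H i)) →
      ∫ z, W z * ∏ i, H i (h i (z i)) ∂μ = ∫ z, W z * ∏ i, H i (z i) ∂μ := by
    intro H hH
    have hH2 : ∀ i, MemLp (H i) 2 ν := fun i => by
      obtain ⟨a, D, b⟩ := hH i
      exact hs_memLp_two ν a.aestronglyMeasurable b
    have e := kr_main ν S hS h hm hl hχ hW hi (fun i => (hH2 i).toLp (H i))
    have e1 : ∀ i, (Lp.compMeasurePreservingₗᵢ ℂ (h i) (hm i) ((hH2 i).toLp (H i)) : P → ℂ)
        =ᵐ[ν] fun x => H i (h i x) := by
      intro i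
      have a1 : (Lp.compMeasurePreservingₗᵢ ℂ (h i) (hm i) ((hH2 i).toLp (H i)) : P → ℂ)
          =ᵐ[ν] ((hH2 i).toLp (H i) : P → ℂ) ∘ (h i) := Lp.coeFn_compMeasurePreserving _ (hm i)
      have a2 := (hm i).quasiMeasurePreserving.ae (hH2 i).coeFn_toLp
      filter_upwards [a1, a2] with x b1 b2
      rw [b1, Function.comp_apply, b2]
    rw [krJ_congr ν W (f := fun i x => H i (h i x)) e1,
      krJ_congr ν W (f := H) (fun i => (hH2 i).coeFn_toLp)] at e
    exact e
  have hFh : ∀ F : (ι → P) → ℂ, BM F → BM (fun z : ι → P => F (fun i => h i (z i))) :=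
    fun F hF => BMs.comp (m' := inferInstance) hF hhm.measurable
  have hsqh : ∀ F : (ι → P) → ℂ, BM F →
      ∫ z, ‖F (fun i => h i (z i))‖ ^ 2 ∂μ = ∫ z, ‖F z‖ ^ 2 ∂μ := by
    intro F hF
    have a1 := integral_map (μ := μ) hhm.measurable.aemeasurable
      (f := fun z => ‖F z‖ ^ 2) ((hF.1.norm.pow_const 2).aestronglyMeasurable)
    rw [hhm.map_eq] at a1
    exact a1.symm
  have h2 : ∀ F : (ι → P) → ℂ, BM F →
      ∫ z, W z * F (fun i => h i (z i)) ∂μ = ∫ z, W z * F z ∂μ := by
    intro F hF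
    rw [← sub_eq_zero, ← norm_eq_zero]
    refine le_antisymm (le_of_forall_pos_le_add fun ε hε => ?_) (norm_nonneg _)
    rw [zero_add]
    set η : ℝ := ε / (2 * |C| + 1) with hη
    have hη0 : 0 < η := by positivity
    obtain ⟨n, g, hg, hlt⟩ := approx_prod μ hF (pow_pos hη0 2)
    have hp : BM (fun z : ι → P => ∑ l, ∏ i, g l i (z i)) :=
      BMs.sum _ fun l => BMs.prod _ fun i => BMs.comp (m' := inferInstance) (hg l i)
        (measurable_pi_apply i)
    have hd : BM (fun z : ι → P => F z - ∑ l, ∏ i, g l i (z i)) := BMs.sub hF hp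
    have hsum : ∀ (f : Fin n → (ι → P) → ℂ), (∀ l, BM (f l)) →
        ∫ z, W z * ∑ l, f l z ∂μ = ∑ l, ∫ z, W z * f l z ∂μ := by
      intro f hf
      simp only [Finset.mul_sum]
      exact integral_finsetSum _ fun l _ => (BM.integrable (BMs.mul hW (hf l)) μ)
    have e1 : ∫ z, W z * ∑ l, ∏ i, g l i (h i (z i)) ∂μ =
        ∫ z, W z * ∑ l, ∏ i, g l i (z i) ∂μ := by
      have hp1 : ∀ l, BM (fun z : ι → P => ∏ i, g l i (z i)) := fun l =>
        BMs.prod _ fun i => BMs.comp (m' := inferInstance) (hg l i) (measurable_pi_apply i)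
      rw [hsum (fun l z => ∏ i, g l i (z i)) hp1,
        hsum (fun l z => ∏ i, g l i (h i (z i))) (fun l => hFh _ (hp1 l))]
      exact Finset.sum_congr rfl fun l _ => h1 (g l) (hg l)
    have e2 : (∫ z, W z * F (fun i => h i (z i)) ∂μ) - ∫ z, W z * F z ∂μ =
        (∫ z, W z * (F (fun i => h i (z i)) - ∑ l, ∏ i, g l i (h i (z i))) ∂μ) -
          ∫ z, W z * (F z - ∑ l, ∏ i, g l i (z i)) ∂μ := by
      simp only [mul_sub]
      rw [integral_sub (BM.integrable (BMs.mul hW (hFh F hF)) μ)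
        (BM.integrable (BMs.mul hW (hFh _ hp)) μ),
        integral_sub (BM.integrable (BMs.mul hW hF) μ) (BM.integrable (BMs.mul hW hp) μ), e1]
      ring
    have e3 : Real.sqrt (∫ z, ‖F z - ∑ l, ∏ i, g l i (z i)‖ ^ 2 ∂μ) ≤ η := by
      refine Real.sqrt_le_iff.2 ⟨hη0.le, hlt.le⟩
    have e4 := avg2_norm_le μ (abs_nonneg C) hC' hW hd
    have e5 := avg2_norm_le μ (abs_nonneg C) hC' hW (hFh _ hd)
    rw [hsqh _ hd] at e5
    rw [e2]
    refine (norm_sub_le _ _).trans ?_
    have e6 : |C| * Real.sqrt (∫ z, ‖F z - ∑ l, ∏ i, g l i (z i)‖ ^ 2 ∂μ) ≤ |C| * η :=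
      mul_le_mul_of_nonneg_left e3 (abs_nonneg C)
    have e7 : 2 * (|C| * η) ≤ ε := by
      have a1 : (2 * |C| + 1) * η = ε := by
        rw [hη]
        field_simp
      nlinarith [abs_nonneg C]
    linarith
  have h3 := h2 (fun z => conj (W z)) (BMs.conj hW)
  have h4 : ∫ z, W z * conj (W z) ∂μ = ((∫ z, ‖W z‖ ^ 2 ∂μ : ℝ) : ℂ) := by
    rw [← integral_complex_ofReal]
    refine integral_congr_ae (Eventually.of_forall fun z => ?_)
    show W z * conj (W z) = ((‖W z‖ ^ 2 : ℝ) : ℂ)
    rw [Complex.mul_conj', Complex.ofReal_pow]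
  rw [h4] at h3
  have hWh : BM (fun z : ι → P => W (fun i => h i (z i))) := hFh W hW
  have h5 : ∫ z, ‖W (fun i => h i (z i)) - W z‖ ^ 2 ∂μ = 0 := by
    have a1 : ∀ z : ι → P, ‖W (fun i => h i (z i)) - W z‖ ^ 2 =
        (‖W (fun i => h i (z i))‖ ^ 2 + ‖W z‖ ^ 2) -
          2 * (W z * conj (W (fun i => h i (z i)))).re := by
      intro z
      rw [norm_sub_rev, ← Complex.normSq_eq_norm_sq, Complex.normSq_sub,
        Complex.normSq_eq_norm_sq, Complex.normSq_eq_norm_sq]
      ring
    simp only [a1]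
    have a2 : Integrable (fun z : ι → P => (W z * conj (W (fun i => h i (z i)))).re) μ :=
      (BM.integrable (BMs.mul hW (BMs.conj hWh)) μ).re
    have a3 : Integrable (fun z : ι → P => ‖W (fun i => h i (z i))‖ ^ 2 + ‖W z‖ ^ 2) μ :=
      (bas_int_sq hWh μ).add (bas_int_sq hW μ)
    rw [integral_sub a3 (a2.const_mul 2), integral_add (bas_int_sq hWh μ) (bas_int_sq hW μ),
      integral_const_mul, hsqh W hW]
    have a4 : ∫ z, (W z * conj (W (fun i => h i (z i)))).re ∂μ = ∫ z, ‖W z‖ ^ 2 ∂μ := by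
      have b1 := integral_re (BM.integrable (BMs.mul hW (BMs.conj hWh)) μ)
      have b2 : ∫ z, (W z * conj (W (fun i => h i (z i)))).re ∂μ =
        (∫ z, W z * conj (W (fun i => h i (z i))) ∂μ).re := b1
      rw [b2, h3, Complex.ofReal_re]
    rw [a4]
    ring
  have h6 := (integral_eq_zero_iff_of_nonneg (fun z => by positivity)
    (bas_int_sq (BMs.sub hWh hW) μ)).1 h5
  filter_upwards [h6] with z hz
  have h7 : ‖W (fun i => h i (z i)) - W z‖ ^ 2 = 0 := hz
  exact sub_eq_zero.1 (norm_eq_zero.1 (pow_eq_zero_iff (two_ne_zero) |>.1 h7))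

end Pool.Agent.HK820

end
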