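import Pool.Agent.Lib_MP_820dd4_hk.OF
import Pool.Agent.Lib_MP_820dd4_hk.SC
import Pool.Agent.Lib_MP_820dd4_hk.SD
import Pool.Agent.Lib_MP_820dd4_hk.FI2

/-! ### Part `LS` -/

section

open MeasureTheory ProbabilityTheory Filter Topology
open scoped ComplexConjugate ENNReal

namespace Pool.Agent.HK820

theorem ls_int {Y : Type} [MeasurableSpace Y] (ν : Measure Y) [IsProbabilityMeasure ν]
    {F : Y → ℂ} (hm : Measurable F) (h1 : ∀ y, ‖F y‖ = 1) :
    Integrable (fun y => ‖F y - 1‖) ν := by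
  have h2 : BM F := ⟨hm, 1, fun y => (h1 y).le⟩
  exact ((h2.integrable ν).sub (integrable_const _)).norm

theorem ls_emb (d : ND) : Continuous (GG.emb d) := by
  change Continuous (fun h : d.V => ((h, (0 : ℤ)) : d.V × ℤ))
  exact continuous_id.prodMk continuous_const

/-- continuity of a measure preserving action in `L¹` -/
theorem ls_cont {V Y : Type} [TopologicalSpace V] [FirstCountableTopology V] [TopologicalSpace Y]
    [CompactSpace Y] [T2Space Y] [SecondCountableTopology Y] [MeasurableSpace Y] [BorelSpace Y]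
    (ν : Measure Y) [IsProbabilityMeasure ν] (a : V → Y → Y)
    (ha : Continuous (fun p : V × Y => a p.1 p.2)) (hmp : ∀ h, MeasurePreserving (a h) ν ν)
    {f : Y → ℂ} (hf : BM f) (h₀ : V) :
    Tendsto (fun h => ∫ y, ‖f (a h y) - f (a h₀ y)‖ ∂ν) (𝓝 h₀) (𝓝 0) := by
  have hmet : TopologicalSpace.MetrizableSpace Y := inferInstance
  have hfi : Integrable f ν := hf.integrable ν
  rw [Metric.tendsto_nhds]
  intro ε hε
  obtain ⟨g, hg, hgi⟩ := hfi.exists_boundedContinuous_integral_sub_le (ε := ε / 4) (by linarith)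
  have hgc : Tendsto (fun h => ∫ y, ‖g (a h y) - g (a h₀ y)‖ ∂ν) (𝓝 h₀)
      (𝓝 (∫ _y, (0 : ℝ) ∂ν)) := by
    refine tendsto_integral_filter_of_dominated_convergence (fun _ => 2 * ‖g‖) ?_ ?_
      (integrable_const _) ?_
    · refine Eventually.of_forall fun h => ?_
      have h1 : Continuous (fun y => ‖g (a h y) - g (a h₀ y)‖) := by
        have h2 : ∀ h, Continuous (a h) := fun h => ha.comp (Continuous.prodMk_right h)
        exact ((g.continuous.comp (h2 h)).sub (g.continuous.comp (h2 h₀))).norm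
      exact h1.aestronglyMeasurable
    · refine Eventually.of_forall fun h => Eventually.of_forall fun y => ?_
      rw [norm_norm]
      calc ‖g (a h y) - g (a h₀ y)‖ ≤ ‖g (a h y)‖ + ‖g (a h₀ y)‖ := norm_sub_le _ _
        _ ≤ ‖g‖ + ‖g‖ := add_le_add (g.norm_coe_le_norm _) (g.norm_coe_le_norm _)
        _ = 2 * ‖g‖ := by ring
    · refine Eventually.of_forall fun y => ?_
      have h1 : Continuous (fun h => ‖g (a h y) - g (a h₀ y)‖) :=
        ((g.continuous.comp (ha.comp (Continuous.prodMk_left y))).sub continuous_const).norm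
      have h2 := h1.tendsto h₀
      rwa [sub_self, norm_zero] at h2
  rw [integral_zero, Metric.tendsto_nhds] at hgc
  filter_upwards [hgc (ε / 2) (by linarith)] with h hh
  rw [Real.dist_eq, sub_zero, abs_of_nonneg (integral_nonneg fun _ => norm_nonneg _)] at hh ⊢
  have hfm := hf.1
  have hint : ∀ h, Integrable (fun y => ‖f (a h y) - g (a h y)‖) ν := fun h =>
    ((hmp h).integrable_comp (hfi.sub hgi).norm.aestronglyMeasurable).2 (hfi.sub hgi).norm
  have hval : ∀ h, ∫ y, ‖f (a h y) - g (a h y)‖ ∂ν ≤ ε / 4 := by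
    intro h
    have h1 : ∫ y, ‖f (a h y) - g (a h y)‖ ∂ν = ∫ y, ‖f y - g y‖ ∂ν := by
      conv_rhs => rw [← (hmp h).map_eq]
      rw [integral_map (hmp h).measurable.aemeasurable]
      exact (hfm.sub g.continuous.measurable).norm.aestronglyMeasurable
    rw [h1]
    exact hg
  have hgint : Integrable (fun y => ‖g (a h y) - g (a h₀ y)‖) ν := by
    have h2 : ∀ h, Continuous (a h) := fun h => ha.comp (Continuous.prodMk_right h)
    have h1 : Continuous (fun y => ‖g (a h y) - g (a h₀ y)‖) :=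
      ((g.continuous.comp (h2 h)).sub (g.continuous.comp (h2 h₀))).norm
    exact h1.integrable_of_hasCompactSupport (HasCompactSupport.of_compactSpace _)
  have hfint : Integrable (fun y => ‖f (a h y) - f (a h₀ y)‖) ν :=
    ((((hmp h).integrable_comp hfi.aestronglyMeasurable).2 hfi).sub
      (((hmp h₀).integrable_comp hfi.aestronglyMeasurable).2 hfi)).norm
  calc ∫ y, ‖f (a h y) - f (a h₀ y)‖ ∂ν
      ≤ ∫ y, (‖f (a h y) - g (a h y)‖ + ‖g (a h y) - g (a h₀ y)‖ +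
          ‖f (a h₀ y) - g (a h₀ y)‖) ∂ν := by
        refine integral_mono hfint (((hint h).add hgint).add (hint h₀)) fun y => ?_
        have e : f (a h y) - f (a h₀ y) = (f (a h y) - g (a h y)) + (g (a h y) - g (a h₀ y)) -
            (f (a h₀ y) - g (a h₀ y)) := by ring
        show ‖f (a h y) - f (a h₀ y)‖ ≤ ‖f (a h y) - g (a h y)‖ + ‖g (a h y) - g (a h₀ y)‖ +
          ‖f (a h₀ y) - g (a h₀ y)‖
        rw [e]
        exact (norm_sub_le _ _).trans (add_le_add (norm_add_le _ _) le_rfl)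
    _ = ∫ y, ‖f (a h y) - g (a h y)‖ ∂ν + ∫ y, ‖g (a h y) - g (a h₀ y)‖ ∂ν +
          ∫ y, ‖f (a h₀ y) - g (a h₀ y)‖ ∂ν := by
        rw [integral_add (μ := ν) (f := fun y => ‖f (a h y) - g (a h y)‖ + ‖g (a h y) - g (a h₀ y)‖)
          ((hint h).add hgint) (hint h₀), integral_add (hint h) hgint]
    _ < ε := by linarith [hval h, hval h₀]

/-- the derivative of a unimodular constant is `1` -/
theorem ls_dd_const {X : Type} (D : ℕ) {c : ℂ} (hc : ‖c‖ = 1) (x : Arr (Fin 2) X (D + 1)) :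
    dd (D + 1) (fun _ => c) x = 1 := by
  rw [dd_succ]
  have h1 : dd D (fun _ => c) (slice x 1) = dd D (fun _ : X => c) (slice x 0) := rfl
  rw [h1, Complex.mul_conj, Complex.normSq_eq_norm_sq, norm_dd D (fun _ => hc)]
  norm_num

theorem ls_pow_sub {z : ℂ} (hz : ‖z‖ = 1) (k : ℕ) : ‖z ^ k - 1‖ ≤ k * ‖z - 1‖ := by
  induction k with
  | zero => simp
  | succ k ih =>
    have e : z ^ (k + 1) - 1 = z ^ k * (z - 1) + (z ^ k - 1) := by ring
    rw [e]
    refine (norm_add_le _ _).trans ?_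
    rw [norm_mul, norm_pow, hz, one_pow, one_mul]
    push_cast
    linarith

/-- a `k`-th root close to `1` -/
theorem ls_root {k : ℕ} (hk : k ≠ 0) {c : ℂ} (hc : ‖c‖ = 1) :
    ∃ d : ℂ, ‖d‖ = 1 ∧ d ^ k = c ∧ ‖d - 1‖ ≤ 2 * ‖c - 1‖ := by
  obtain ⟨θ, hθ⟩ : ∃ θ : ℝ, θ = Complex.arg c := ⟨_, rfl⟩
  have hcθ : c = Complex.exp (θ * Complex.I) := by
    have h1 := Complex.norm_mul_exp_arg_mul_I c
    rw [hc, Complex.ofReal_one, one_mul] at h1
    rw [hθ, h1]
  have habs : |θ| ≤ Real.pi := by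
    rw [hθ]; exact Complex.abs_arg_le_pi c
  have hk0 : (0 : ℝ) < k := by exact_mod_cast Nat.pos_of_ne_zero hk
  have hk1 : (1 : ℝ) ≤ k := by exact_mod_cast Nat.pos_of_ne_zero hk
  refine ⟨Complex.exp (((θ / k : ℝ) : ℂ) * Complex.I), Complex.norm_exp_ofReal_mul_I _, ?_, ?_⟩
  · rw [← Complex.exp_nat_mul, hcθ]
    congr 1
    have : (k : ℂ) ≠ 0 := by exact_mod_cast hk
    push_cast
    field_simp
  · have h1 : ‖Complex.exp (((θ / k : ℝ) : ℂ) * Complex.I) - 1‖ ≤ ‖θ / k‖ := by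
      have := Real.norm_exp_I_mul_ofReal_sub_one_le (x := θ / k)
      rwa [mul_comm] at this
    have h2 : ‖θ / k‖ ≤ |θ| := by
      rw [norm_div, Real.norm_eq_abs, Real.norm_eq_abs, abs_of_pos hk0]
      exact div_le_self (abs_nonneg _) hk1
    have h3 : 2 / Real.pi * |θ| ≤ ‖c - 1‖ := by
      have h4 : ‖c - 1‖ = ‖2 * Real.sin (θ / 2)‖ := by
        rw [hcθ, mul_comm]
        exact Complex.norm_exp_I_mul_ofReal_sub_one θ
      rw [h4, norm_mul, Real.norm_eq_abs, Real.norm_eq_abs, abs_of_pos (by norm_num : (0 : ℝ) < 2)]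
      have h5 := Real.mul_abs_le_abs_sin (x := θ / 2) (by
        rw [abs_div, abs_of_pos (by norm_num : (0 : ℝ) < 2)]
        linarith)
      rw [abs_div, abs_of_pos (by norm_num : (0 : ℝ) < 2)] at h5
      linarith
    have hpi : Real.pi ≤ 4 := Real.pi_le_four
    have hpi0 : 0 < Real.pi := Real.pi_pos
    have h6 : |θ| ≤ 2 * ‖c - 1‖ := by
      have h7 : |θ| = Real.pi / 2 * (2 / Real.pi * |θ|) := by field_simp
      rw [h7]
      calc Real.pi / 2 * (2 / Real.pi * |θ|) ≤ 2 * (2 / Real.pi * |θ|) := by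
            refine mul_le_mul_of_nonneg_right (by linarith) (by positivity)
        _ ≤ 2 * ‖c - 1‖ := by linarith
    linarith

/-- Data for the construction of lifts: `R` is a `C_k`-valued cocycle on `(D+1)`-dimensional cubes of
the translation by `tau` on `KK d Γ`, `ρ` the cocycle of the extension. -/
structure LSetup (d : ND) (Γ : Subgroup (GG d)) [StandardBorelSpace (KK d Γ)]
    (μ : Measure (KK d Γ)) (D k : ℕ) (ρ : KK d Γ → ℂ)
    (R : Arr (Fin 2) (KK d Γ) (D + 1) → ℂ) : Prop where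
  prob : IsProbabilityMeasure μ
  t2 : T2Space (KK d Γ)
  cpt : CompactSpace (KK d Γ)
  erg : Ergodic (KK.tauE d Γ) μ
  inv : ∀ g : GG d, MeasurePreserving (fun y : KK d Γ => g • y) μ μ
  diag2 : ∀ h : d.V, MeasurePreserving (fun (x : Arr (Fin 2) (KK d Γ) (D + 1)) v => GG.emb d h • x v)
    (cube μ (KK.tauE d Γ) (Fin 2) (D + 1)) (cube μ (KK.tauE d Γ) (Fin 2) (D + 1))
  diag3 : ∀ h : d.V, MeasurePreserving (fun (x : Arr (Fin 3) (KK d Γ) (D + 1)) v => GG.emb d h • x v)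
    (cube μ (KK.tauE d Γ) (Fin 3) (D + 1)) (cube μ (KK.tauE d Γ) (Fin 3) (D + 1))
  Rmeas : Measurable R
  Rinc : ∀ x, inC k (R x)
  Rcoc : IsCoc μ (KK.tauE d Γ) (D + 1) R
  rmeas : Measurable ρ
  rinc : ∀ y, inC k (ρ y)
  Rr : ∀ᵐ x ∂(cube μ (KK.tauE d Γ) (Fin 2) (D + 1)),
    R (fun v => GG.tau d • x v) = dd (D + 1) ρ x * R x

section
variable {d : ND} {Γ : Subgroup (GG d)} [StandardBorelSpace (KK d Γ)] {μ : Measure (KK d Γ)}
  {D k : ℕ} {ρ : KK d Γ → ℂ} {R : Arr (Fin 2) (KK d Γ) (D + 1) → ℂ}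
  (hL : LSetup d Γ μ D k ρ R)

theorem inC.mul {k : ℕ} {a b : ℂ} (ha : inC k a) (hb : inC k b) : inC k (a * b) := by
  refine ⟨?_, ?_⟩
  · rw [norm_mul, ha.1, hb.1, one_mul]
  · rw [mul_pow, ha.2, hb.2, one_mul]

theorem inC.conj {k : ℕ} {a : ℂ} (ha : inC k a) : inC k (conj a) := by
  refine ⟨?_, ?_⟩
  · rw [RCLike.norm_conj, ha.1]
  · rw [← map_pow, ha.2, map_one]

theorem inC.one (k : ℕ) : inC k 1 := ⟨norm_one, one_pow k⟩

/-- a closed subgroup is locally determined near `1`: for `k ≥ 1` an element of `C_k` close to `1` is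
`1` -/
theorem inC.near {k : ℕ} (hk : k ≠ 0) : ∃ ε > 0, ∀ z, inC k z → ‖z - 1‖ < ε → z = 1 := by
  have hc : Continuous (fun z : ℂ => ∑ i ∈ Finset.range k, z ^ i) :=
    continuous_finsetSum _ fun i _ => continuous_pow i
  have h1 : (fun z : ℂ => ∑ i ∈ Finset.range k, z ^ i) 1 ≠ 0 := by
    simpa using hk
  obtain ⟨ε, hε, h2⟩ := Metric.eventually_nhds_iff.1 (hc.continuousAt.eventually_ne h1)
  refine ⟨ε, hε, fun z hz hz1 => ?_⟩
  have h3 : ∑ i ∈ Finset.range k, z ^ i ≠ 0 := h2 (by rwa [dist_eq_norm])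
  have h4 : (∑ i ∈ Finset.range k, z ^ i) * (z - 1) = 0 := by
    rw [geom_sum_mul, hz.2, sub_self]
  exact sub_eq_zero.1 ((mul_eq_zero.1 h4).resolve_left h3)

include hL

/-- **LS1.** Composition of lifts. `h` is one of the elements `emb h'`; it preserves the cube measure
(`diag2`). -/
theorem lift_comp (g : KK d Γ → KK d Γ) (h : d.V) {F F' : KK d Γ → ℂ} (hg : Measurable g)
    (hF : IsLift μ (KK.tauE d Γ) (D + 1) R k g F)
    (hF' : IsLift μ (KK.tauE d Γ) (D + 1) R k (fun y => GG.emb d h • y) F') :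
    IsLift μ (KK.tauE d Γ) (D + 1) R k (fun y => g (GG.emb d h • y))
      (fun y => F (GG.emb d h • y) * F' y) := by
  refine ⟨(hF.meas.comp (hL.inv (GG.emb d h)).measurable).mul hF'.meas,
    fun y => (hF.inc _).mul (hF'.inc _), ?_⟩
  filter_upwards [(hL.diag2 h).quasiMeasurePreserving.ae hF.lift, hF'.lift] with x h1 h2
  rw [h1, h2, dd_mul, mul_assoc]
  rfl

/-- **LS2.** Two lifts of the same transformation which are close in `L¹` differ by a constant in
`C_k` close to `1` (`rigidity` for `F' conj F`). -/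
theorem lift_unique (g : KK d Γ → KK d Γ) {F F' : KK d Γ → ℂ}
    (hF : IsLift μ (KK.tauE d Γ) (D + 1) R k g F)
    (hF' : IsLift μ (KK.tauE d Γ) (D + 1) R k g F')
    (h : 2 ^ (D + 1) * ∫ y, ‖F' y - F y‖ ∂μ < 1) :
    ∃ c : ℂ, inC k c ∧ ‖c - 1‖ ≤ ∫ y, ‖F' y - F y‖ ∂μ ∧ ∀ᵐ y ∂μ, F' y = c * F y := by
  have hpr := hL.prob
  have hFF : ∀ y, F y * conj (F y) = 1 := by
    intro y
    rw [Complex.mul_conj, Complex.normSq_eq_norm_sq, (hF.inc y).1]
    norm_num
  have hn : ∀ y, ‖F' y * conj (F y)‖ = 1 := fun y => ((hF'.inc y).mul (hF.inc y).conj).1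
  have hsub : ∀ y, ‖F' y * conj (F y) - 1‖ = ‖F' y - F y‖ := by
    intro y
    have e : F' y * conj (F y) - 1 = (F' y - F y) * conj (F y) := by rw [sub_mul, hFF]
    rw [e, norm_mul, RCLike.norm_conj, (hF.inc y).1, mul_one]
  have hdd : dd (D + 1) (fun y => F' y * conj (F y)) =ᵐ[cube μ (KK.tauE d Γ) (Fin 2) (D + 1)]
      fun _ => 1 := by
    filter_upwards [hF.lift, hF'.lift] with x h1 h2
    rw [dd_mul, dd_conj]
    have h3 : R x ≠ 0 := by
      rw [← norm_ne_zero_iff, (hL.Rinc x).1]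
      exact one_ne_zero
    have h4 : dd (D + 1) F' x = dd (D + 1) F x := mul_right_cancel₀ h3 (h2.symm.trans h1)
    rw [h4, Complex.mul_conj, Complex.normSq_eq_norm_sq, norm_dd (D + 1) (fun y => (hF.inc y).1)]
    norm_num
  obtain ⟨c, hc1, hc⟩ := rigidity μ (KK.tauE d Γ) hL.erg (D + 1)
    (p := fun y => F' y * conj (F y))
    (hF'.meas.mul (Complex.continuous_conj.measurable.comp hF.meas)) hn hdd (by
      simp only [hsub]
      exact h)
  have hc' : ∀ᵐ y ∂μ, F' y * conj (F y) = c := hc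
  refine ⟨c, ?_, ?_, ?_⟩
  · obtain ⟨y, hy⟩ := hc'.exists
    rw [← hy]
    exact (hF'.inc y).mul (hF.inc y).conj
  · have h1 : ∫ y, ‖F' y - F y‖ ∂μ = ∫ _y, ‖c - 1‖ ∂μ := by
      refine integral_congr_ae ?_
      filter_upwards [hc'] with y hy
      rw [← hsub, hy]
    rw [h1, integral_const]
    simp
  · filter_upwards [hc'] with y hy
    rw [← hy, mul_assoc, mul_comm (conj (F y)), hFF, mul_one]

/-- **LS3.** Continuity of translations in `L¹(μ)`. -/
theorem trans_cont {f : KK d Γ → ℂ} (hf : BM f) (h₀ : d.V) :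
    Tendsto (fun h : d.V => ∫ y, ‖f (GG.emb d h • y) - f (GG.emb d h₀ • y)‖ ∂μ) (𝓝 h₀) (𝓝 0) := by
  have h1 := hL.prob
  have h2 := hL.t2
  have h3 := hL.cpt
  refine ls_cont μ (fun (h : d.V) (y : KK d Γ) => GG.emb d h • y) ?_
    (fun h => hL.inv (GG.emb d h)) hf h₀
  exact Continuous.smul ((ls_emb d).comp continuous_fst) continuous_snd

/-- **LS4.** Continuity of the diagonal translations in `L¹` of the cube measure. -/
theorem trans_cont_cube {f : Arr (Fin 2) (KK d Γ) (D + 1) → ℂ} (hf : BM f) :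
    Tendsto (fun h : d.V => ∫ x, ‖f (fun v => GG.emb d h • x v) - f x‖
      ∂(cube μ (KK.tauE d Γ) (Fin 2) (D + 1))) (𝓝 0) (𝓝 0) := by
  have h1 := hL.prob
  have h2 := hL.t2
  have h3 := hL.cpt
  have h4 := ls_cont (cube μ (KK.tauE d Γ) (Fin 2) (D + 1))
    (fun (h : d.V) (x : Arr (Fin 2) (KK d Γ) (D + 1)) v => GG.emb d h • x v) ?_
    (fun h => hL.diag2 h) hf 0
  · have h5 : ∀ x : Arr (Fin 2) (KK d Γ) (D + 1), (fun v => GG.emb d 0 • x v) = x := by
      intro x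
      funext v
      have h6 : GG.emb d 0 = 1 := rfl
      rw [h6, one_smul]
    simp only [h5] at h4
    exact h4
  · refine continuous_pi fun v => ?_
    exact Continuous.smul ((ls_emb d).comp continuous_fst)
      ((continuous_apply v).comp continuous_snd)

/-- **LS5.** Elements of `V` close to `0` have lifts close to `1`.

Proof. `σ x = R (h • x) conj (R x)` is a unimodular cocycle (`diag3`, `IsCoc.mul`, `IsCoc.conj`),
`∫ ‖σ - 1‖ → 0` as `h → 0` (LS4). `small_cocycle` gives `F₀` with `σ = dd F₀`, `∫ ‖F₀ - 1‖` small. If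
`k = 0` put `F = F₀`. If `k ≥ 1`: `σ^k = 1`, so `dd (F₀^k) = 1`, `F₀^k` is close to `1`, so it is a constant
`c` close to `1` (`rigidity`); `F = F₀ * exp (-i arg c / k)`, changed to `1` where `F^k ≠ 1` (a null
set). -/
theorem lift_near {ε : ℝ} (hε : 0 < ε) : ∀ᶠ h in 𝓝 (0 : d.V), ∃ F : KK d Γ → ℂ,
    IsLift μ (KK.tauE d Γ) (D + 1) R k (fun y => GG.emb d h • y) F ∧ ∫ y, ‖F y - 1‖ ∂μ < ε := by
  have hpr := hL.prob
  have hRb : BM R := ⟨hL.Rmeas, 1, fun x => (hL.Rinc x).1.le⟩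
  have hRR : ∀ x, R x * conj (R x) = 1 := by
    intro x
    rw [Complex.mul_conj, Complex.normSq_eq_norm_sq, (hL.Rinc x).1]
    norm_num
  obtain ⟨B, hB⟩ : ∃ B : ℝ, B = 6 * 8 ^ (D + 1) := ⟨_, rfl⟩
  have hB0 : 0 < B := by rw [hB]; positivity
  -- the bound for the distance of the cocycle to `1`
  obtain ⟨η, hη0, hη1, hη2, hη3⟩ : ∃ η : ℝ, 0 < η ∧ η * (2 * 16 ^ (D + 1)) ≤ 1 ∧
      2 ^ (D + 1) * (k * (B * η)) < 1 ∧ B * η + 2 * (k * (B * η)) < ε := by
    have h1 : Tendsto (fun η : ℝ => η * (2 * 16 ^ (D + 1))) (𝓝[>] 0) (𝓝 (0 * (2 * 16 ^ (D + 1)))) :=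
      ((continuous_id.mul continuous_const).tendsto 0).mono_left nhdsWithin_le_nhds
    have h2 : Tendsto (fun η : ℝ => 2 ^ (D + 1) * (k * (B * η))) (𝓝[>] 0)
        (𝓝 (2 ^ (D + 1) * (k * (B * 0)))) :=
      ((continuous_const.mul (continuous_const.mul (continuous_const.mul continuous_id))).tendsto
        0).mono_left nhdsWithin_le_nhds
    have h3 : Tendsto (fun η : ℝ => B * η + 2 * (k * (B * η))) (𝓝[>] 0)
        (𝓝 (B * 0 + 2 * (k * (B * 0)))) :=
      (((continuous_const.mul continuous_id).add (continuous_const.mul (continuous_const.mul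
        (continuous_const.mul continuous_id)))).tendsto 0).mono_left nhdsWithin_le_nhds
    simp only [zero_mul, mul_zero, add_zero] at h1 h2 h3
    obtain ⟨η, ha, hb, hc, hd⟩ := ((h1.eventually (gt_mem_nhds zero_lt_one)).and
      ((h2.eventually (gt_mem_nhds zero_lt_one)).and ((h3.eventually (gt_mem_nhds hε)).and
      self_mem_nhdsWithin))).exists
    exact ⟨η, hd, ha.le, hb, hc⟩
  have hev := (trans_cont_cube hL hRb).eventually (gt_mem_nhds hη0)
  filter_upwards [hev] with h hh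
  -- the cocycle
  obtain ⟨σ, hσ⟩ : ∃ σ : Arr (Fin 2) (KK d Γ) (D + 1) → ℂ,
    σ = fun x => R (fun v => GG.emb d h • x v) * conj (R x) := ⟨_, rfl⟩
  have hσi : ∀ x, inC k (σ x) := by
    intro x
    rw [hσ]
    exact (hL.Rinc _).mul (hL.Rinc _).conj
  have hσm : Measurable σ := by
    rw [hσ]
    exact (hL.Rmeas.comp (hL.diag2 h).measurable).mul
      (Complex.continuous_conj.measurable.comp hL.Rmeas)
  have hσc : IsCoc μ (KK.tauE d Γ) (D + 1) σ := by
    have h1 : IsCoc μ (KK.tauE d Γ) (D + 1) (fun x => R (fun v => GG.emb d h • x v)) :=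
      (hL.diag3 h).quasiMeasurePreserving.ae hL.Rcoc
    rw [hσ]
    exact h1.mul hL.Rcoc.conj
  have hσ1 : ∀ x, ‖σ x - 1‖ = ‖R (fun v => GG.emb d h • x v) - R x‖ := by
    intro x
    have e : σ x - 1 = (R (fun v => GG.emb d h • x v) - R x) * conj (R x) := by
      rw [hσ, sub_mul, hRR]
    rw [e, norm_mul, RCLike.norm_conj, (hL.Rinc x).1, mul_one]
  obtain ⟨F₀, hF₀m, hF₀1, hF₀d, hF₀e⟩ := small_cocycle μ (KK.tauE d Γ) hL.erg (D + 1) hσm
    (fun x => (hσi x).1) hσc (η := η) (by simp only [hσ1]; exact hh.le) hη1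
  rw [← hB] at hF₀e
  have hlift : ∀ F : KK d Γ → ℂ, dd (D + 1) F =ᵐ[cube μ (KK.tauE d Γ) (Fin 2) (D + 1)] σ →
      ∀ᵐ x ∂(cube μ (KK.tauE d Γ) (Fin 2) (D + 1)),
        R (fun v => GG.emb d h • x v) = dd (D + 1) F x * R x := by
    intro F hF
    filter_upwards [hF] with x hx
    rw [hx, hσ]
    show _ = R (fun v => GG.emb d h • x v) * conj (R x) * R x
    rw [mul_assoc, mul_comm (conj (R x)), hRR, mul_one]
  have hint : Integrable (fun y => ‖F₀ y - 1‖) μ :=
    ls_int μ hF₀m hF₀1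
  by_cases hk : k = 0
  · refine ⟨F₀, ⟨hF₀m, fun y => ⟨hF₀1 y, by rw [hk, pow_zero]⟩, hlift F₀ hF₀d.symm⟩, ?_⟩
    have h1 : 0 ≤ 2 * (k * (B * η)) := by positivity
    linarith
  · -- the `k`-th power is constant
    have hkd : dd (D + 1) (fun y => F₀ y ^ k) =ᵐ[cube μ (KK.tauE d Γ) (Fin 2) (D + 1)]
        fun _ => 1 := by
      have hpow : ∀ (m : ℕ) x, dd (D + 1) (fun y => F₀ y ^ m) x = dd (D + 1) F₀ x ^ m := by
        intro m x
        induction m with
        | zero =>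
          have h1 := ls_dd_const D (c := 1) norm_one x
          simpa using h1
        | succ m ih =>
          have h1 := dd_mul (D + 1) (fun y => F₀ y ^ m) F₀ x
          simp only [pow_succ]
          rw [h1, ih]
      filter_upwards [hF₀d] with x hx
      rw [hpow, ← hx, (hσi x).2]
    have hkn : ∀ y, ‖F₀ y ^ k‖ = 1 := fun y => by rw [norm_pow, hF₀1, one_pow]
    have hke : ∫ y, ‖F₀ y ^ k - 1‖ ∂μ ≤ k * (B * η) := by
      calc ∫ y, ‖F₀ y ^ k - 1‖ ∂μ ≤ ∫ y, k * ‖F₀ y - 1‖ ∂μ := by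
            refine integral_mono ?_ (hint.const_mul _) fun y => ls_pow_sub (hF₀1 y) k
            exact ls_int μ (hF₀m.pow_const k) hkn
        _ = k * ∫ y, ‖F₀ y - 1‖ ∂μ := integral_const_mul _ _
        _ ≤ k * (B * η) := mul_le_mul_of_nonneg_left hF₀e (Nat.cast_nonneg k)
    obtain ⟨c, hc1, hc⟩ := rigidity μ (KK.tauE d Γ) hL.erg (D + 1) (hF₀m.pow_const k) hkn hkd (by
      refine lt_of_le_of_lt ?_ hη2
      exact mul_le_mul_of_nonneg_left hke (by positivity))
    have hcc : ‖c - 1‖ ≤ k * (B * η) := by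
      refine le_trans (le_of_eq ?_) hke
      have h1 : ∫ y, ‖F₀ y ^ k - 1‖ ∂μ = ∫ _y, ‖c - 1‖ ∂μ := by
        refine integral_congr_ae ?_
        filter_upwards [hc] with y hy
        rw [hy]
      rw [h1, integral_const]
      simp
    obtain ⟨e, he1, he2, he3⟩ := ls_root hk hc1
    have hee : e * conj e = 1 := by
      rw [Complex.mul_conj, Complex.normSq_eq_norm_sq, he1]
      norm_num
    classical
    obtain ⟨F, hF⟩ : ∃ F : KK d Γ → ℂ, F = fun y => if (F₀ y * conj e) ^ k = 1 then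
      F₀ y * conj e else 1 := ⟨_, rfl⟩
    have hFa : F =ᵐ[μ] fun y => F₀ y * conj e := by
      filter_upwards [hc] with y hy
      rw [hF]
      have h1 : (F₀ y * conj e) ^ k = 1 := by
        rw [mul_pow, hy, ← map_pow, he2, Complex.mul_conj, Complex.normSq_eq_norm_sq, hc1]
        norm_num
      show (if (F₀ y * conj e) ^ k = 1 then F₀ y * conj e else 1) = F₀ y * conj e
      rw [if_pos h1]
    have hFm : Measurable F := by
      rw [hF]
      have h1 : Measurable (fun y => F₀ y * conj e) := hF₀m.mul_const _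
      exact Measurable.ite ((h1.pow_const k) (measurableSet_singleton 1)) h1 measurable_const
    refine ⟨F, ⟨hFm, fun y => ?_, hlift F ?_⟩, ?_⟩
    · rw [hF]
      show inC k (if (F₀ y * conj e) ^ k = 1 then F₀ y * conj e else 1)
      split_ifs with h1
      · refine ⟨?_, h1⟩
        rw [norm_mul, RCLike.norm_conj, hF₀1, he1, one_mul]
      · exact inC.one k
    · refine (dd_congr (D + 1) hFa).trans ?_
      filter_upwards [hF₀d] with x hx
      rw [dd_mul, hx, ls_dd_const D (by rw [RCLike.norm_conj, he1]) x, mul_one]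
    · calc ∫ y, ‖F y - 1‖ ∂μ = ∫ y, ‖F₀ y * conj e - 1‖ ∂μ := by
            refine integral_congr_ae ?_
            filter_upwards [hFa] with y hy
            rw [hy]
        _ ≤ ∫ y, (‖F₀ y - 1‖ + ‖e - 1‖) ∂μ := by
            refine integral_mono ?_ (hint.add (integrable_const _)) fun y => ?_
            · exact ls_int μ (F := fun y => F₀ y * conj e) (hF₀m.mul_const _) (fun y => by
                rw [norm_mul, RCLike.norm_conj, hF₀1, he1, one_mul])
            · show ‖F₀ y * conj e - 1‖ ≤ ‖F₀ y - 1‖ + ‖e - 1‖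
              have h1 : F₀ y * conj e - 1 = (F₀ y - 1) * conj e - (e - 1) * conj e := by
                rw [sub_mul, sub_mul, hee]; ring
              rw [h1]
              refine (norm_sub_le _ _).trans ?_
              rw [norm_mul, norm_mul, RCLike.norm_conj, he1, mul_one, mul_one]
        _ = ∫ y, ‖F₀ y - 1‖ ∂μ + ‖e - 1‖ := by
            rw [integral_add hint (integrable_const _), integral_const]
            simp
        _ < ε := by linarith

end

end Pool.Agent.HK820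

end

/-! ### Part `L2` -/

section

open MeasureTheory ProbabilityTheory Filter Topology
open scoped ComplexConjugate ENNReal

namespace Pool.Agent.HK820

/-- a continuous family of lifts over a topological space `T` -/
structure LFam (d : ND) (Γ : Subgroup (GG d)) [StandardBorelSpace (KK d Γ)]
    (μ : Measure (KK d Γ)) (D k : ℕ) (R : Arr (Fin 2) (KK d Γ) (D + 1) → ℂ) {T : Type}
    [TopologicalSpace T] (h : T → d.V) (F : T → KK d Γ → ℂ) : Prop where
  hcont : Continuous h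
  lift : ∀ t, IsLift μ (KK.tauE d Γ) (D + 1) R k (fun y => GG.emb d (h t) • y) (F t)
  cont : ∀ t₀, Tendsto (fun t => ∫ y, ‖F t y - F t₀ y‖ ∂μ) (𝓝 t₀) (𝓝 0)

/-! ### auxiliary lemmas -/

theorem l2_emb_mul (d : ND) (a b : d.V) : GG.emb d (d.mul a b) = GG.emb d a * GG.emb d b := by
  rw [GG.mul_def]
  change ((d.mul a b, 0) : d.V × ℤ) = (d.mul a ((d.phi ^ (0 : ℤ) : Equiv.Perm d.V) b), 0 + 0)
  rw [zpow_zero, Equiv.Perm.one_apply, add_zero]

theorem l2_emb_smul (d : ND) (Γ : Subgroup (GG d)) (a b : d.V) (y : KK d Γ) :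
    GG.emb d (d.mul a b) • y = GG.emb d a • (GG.emb d b • y) := by
  rw [l2_emb_mul, mul_smul]

theorem l2_emb_zero (d : ND) : GG.emb d 0 = 1 := rfl

theorem l2_int {X : Type} [MeasurableSpace X] (μ : Measure X) [IsProbabilityMeasure μ]
    {f : X → ℂ} (hf : Measurable f) {C : ℝ} (hC : ∀ y, ‖f y‖ ≤ C) : Integrable f μ :=
  Integrable.of_bound hf.aestronglyMeasurable C (ae_of_all _ hC)

theorem l2_dd_const {X : Type} (D : ℕ) {c : ℂ} (hc : ‖c‖ = 1) (x : Arr (Fin 2) X (D + 1)) :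
    dd (D + 1) (fun _ => c) x = 1 := by
  rw [dd_succ]
  have h1 : dd D (fun _ : X => c) (slice x 1) = dd D (fun _ => c) (slice x 0) := rfl
  rw [h1, Complex.mul_conj, Complex.normSq_eq_norm_sq, norm_dd D (fun _ => hc)]
  norm_num

/-- the phase of a number near `1` is near `1` -/
theorem l2_phase {z : ℂ} {δ : ℝ} (h : ‖z - 1‖ < δ) (hδ : δ ≤ 1) :
    ‖conj z / ((‖z‖ : ℝ) : ℂ)‖ = 1 ∧ conj z / ((‖z‖ : ℝ) : ℂ) * z = ((‖z‖ : ℝ) : ℂ) ∧ 0 < ‖z‖ ∧
      ‖conj z / ((‖z‖ : ℝ) : ℂ) - 1‖ ≤ 2 * δ := by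
  have hz : 0 < ‖z‖ := by
    rw [norm_pos_iff]
    rintro rfl
    rw [zero_sub, norm_neg, norm_one] at h
    linarith
  have hzc : ((‖z‖ : ℝ) : ℂ) ≠ 0 := Complex.ofReal_ne_zero.2 hz.ne'
  have hn : ‖((‖z‖ : ℝ) : ℂ)‖ = ‖z‖ := by
    rw [Complex.norm_real, norm_norm]
  have hab : |‖z‖ - 1| ≤ ‖z - 1‖ := by
    have h1 := abs_norm_sub_norm_le z 1
    rwa [norm_one] at h1
  refine ⟨?_, ?_, hz, ?_⟩
  · rw [norm_div, hn, RCLike.norm_conj, div_self hz.ne']
  · rw [div_mul_eq_mul_div, mul_comm, Complex.mul_conj, Complex.normSq_eq_norm_sq]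
    push_cast
    rw [sq, mul_div_assoc, div_self hzc, mul_one]
  · have h2 : conj z / ((‖z‖ : ℝ) : ℂ) - 1 =
        (conj z - 1 - (((‖z‖ - 1 : ℝ)) : ℂ)) / ((‖z‖ : ℝ) : ℂ) := by
      rw [eq_div_iff hzc, sub_mul, div_mul_cancel₀ _ hzc]
      push_cast
      ring
    have h3 : conj z / ((‖z‖ : ℝ) : ℂ) - 1 =
        (conj z / ((‖z‖ : ℝ) : ℂ)) * (1 - ((‖z‖ : ℝ) : ℂ)) + (conj z - 1) := by
      rw [mul_sub, mul_one, div_mul_cancel₀ _ hzc]
      ring
    rw [h3]
    refine (norm_add_le _ _).trans ?_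
    have h4 : ‖conj z - 1‖ = ‖z - 1‖ := by
      rw [← RCLike.norm_conj (z - 1), map_sub, map_one]
    have h5 : ‖(1 : ℂ) - ((‖z‖ : ℝ) : ℂ)‖ = |‖z‖ - 1| := by
      rw [← Complex.ofReal_one, ← Complex.ofReal_sub, Complex.norm_real, Real.norm_eq_abs, abs_sub_comm]
    rw [norm_mul, norm_div, hn, RCLike.norm_conj, div_self hz.ne', one_mul, h4, h5]
    linarith

section
variable {d : ND} {Γ : Subgroup (GG d)} [StandardBorelSpace (KK d Γ)] {μ : Measure (KK d Γ)}
  {D k : ℕ} {ρ : KK d Γ → ℂ} {R : Arr (Fin 2) (KK d Γ) (D + 1) → ℂ}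

theorem l2_meas_act (h : d.V) : Measurable (fun y : KK d Γ => GG.emb d h • y) :=
  (continuous_const_smul (GG.emb d h)).measurable

theorem l2_lift_one (μ : Measure (KK d Γ)) (D k : ℕ) (R : Arr (Fin 2) (KK d Γ) (D + 1) → ℂ) :
    IsLift μ (KK.tauE d Γ) (D + 1) R k (fun y => GG.emb d 0 • y) (fun _ => 1) where
  meas := measurable_const
  inc := fun _ => inC.one k
  lift := by
    refine Eventually.of_forall fun x => ?_
    have h1 : (fun v => GG.emb d (0 : d.V) • x v) = x := funext fun v => one_smul _ _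
    rw [h1, l2_dd_const D norm_one, one_mul]

theorem l2_lift_int [IsProbabilityMeasure μ] {g : KK d Γ → KK d Γ} {F : KK d Γ → ℂ}
    (hF : IsLift μ (KK.tauE d Γ) (D + 1) R k g F) : Integrable F μ :=
  l2_int μ hF.meas (fun y => (hF.inc y).1.le)

/-- multiplication of a lift by a constant of norm `1` (`k = 0`) -/
theorem l2_lift_cmul {g : KK d Γ → KK d Γ} {F : KK d Γ → ℂ}
    (hF : IsLift μ (KK.tauE d Γ) (D + 1) R 0 g F) {c : ℂ} (hc : ‖c‖ = 1) :
    IsLift μ (KK.tauE d Γ) (D + 1) R 0 g (fun y => c * F y) where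
  meas := hF.meas.const_mul c
  inc := fun y => inC.mul ⟨hc, pow_zero c⟩ (hF.inc y)
  lift := by
    filter_upwards [hF.lift] with x hx
    rw [hx, dd_mul, l2_dd_const D hc, one_mul]

theorem l2_lift_near [IsProbabilityMeasure μ] {g : KK d Γ → KK d Γ} {F : KK d Γ → ℂ}
    (hF : IsLift μ (KK.tauE d Γ) (D + 1) R k g F) :
    ‖(∫ y, F y ∂μ) - 1‖ ≤ ∫ y, ‖F y - 1‖ ∂μ := by
  have h1 : (∫ y, F y ∂μ) - 1 = ∫ y, (F y - 1) ∂μ := by
    rw [integral_sub (l2_lift_int hF) (integrable_const _), integral_const, probReal_univ, one_smul]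
  rw [h1]
  exact norm_integral_le_integral_norm _

end

section
variable {d : ND} {Γ : Subgroup (GG d)} [StandardBorelSpace (KK d Γ)] {μ : Measure (KK d Γ)}
  {D k : ℕ} {ρ : KK d Γ → ℂ} {R : Arr (Fin 2) (KK d Γ) (D + 1) → ℂ}
  (hL : LSetup d Γ μ D k ρ R)

include hL

/-- **L2.** Continuous local section.

Proof. Choose `ε₀` small (`2 ^ (D+1) * 2 ε₀ < 1`, and for `k ≥ 1`, `3 ε₀` smaller than the number in
`inC.near`; for `k = 0`, `ε₀ < 1/4`), `U` an open neighbourhood of `0` contained in the set of LS5 for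
`ε₀ / 2`. For `h ∈ U` choose a lift `F h` with `∫ ‖F h - 1‖ < ε₀ / 2`; for `k = 0` multiply it by
`conj (∫ F h) / |∫ F h|`, so that `∫ F h > 0` (still `∫ ‖F h - 1‖ < ε₀`); `F 0 = 1`. Uniqueness: a lift `F'`
of `h` with `∫ ‖F' - 1‖ < ε₀` (and `∫ F' > 0` if `k = 0`) is a.e. equal to `F h` (`lift_unique`: the
constant `c` is close to `1`; for `k ≥ 1` it is `1` by `inC.near`, for `k = 0` because both integrals are
positive). Continuity at `h₀ ∈ U`: for `h` close to `h₀` let `g = mul h (inv h₀)`, close to `0`, and `E` a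
lift of `g` with `∫ ‖E - 1‖ < δ` (LS5); `F' y = E (h₀ • y) * F h₀ y` is a lift of `h`
(`lift_comp`) with `∫ ‖F' - F h₀‖ < δ`, `F' = c F h` with `c = 1` if `k ≥ 1`, and if `k = 0`,
`c = ∫ F' / ∫ F h`, which is the phase of `∫ F'`, close to the phase `1` of `∫ F h₀`. -/
theorem local_section : ∃ (U : Set d.V) (F : d.V → KK d Γ → ℂ), IsOpen U ∧ (0 : d.V) ∈ U ∧
    (∀ h ∈ U, IsLift μ (KK.tauE d Γ) (D + 1) R k (fun y => GG.emb d h • y) (F h)) ∧
    (∀ y, F 0 y = 1) ∧
    ∀ h₀ ∈ U, Tendsto (fun h => ∫ y, ‖F h y - F h₀ y‖ ∂μ) (𝓝 h₀) (𝓝 0) := by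
  classical
  haveI := hL.prob
  -- the constants
  obtain ⟨ε₁, hε₁, hnear⟩ : ∃ ε₁ > 0, k ≠ 0 → ∀ z, inC k z → ‖z - 1‖ < ε₁ → z = 1 := by
    by_cases hk : k = 0
    · exact ⟨1, one_pos, fun h => absurd hk h⟩
    · obtain ⟨ε, hε, h⟩ := inC.near hk
      exact ⟨ε, hε, fun _ => h⟩
  have hD1 : (1 : ℝ) ≤ 2 ^ (D + 1) := one_le_pow₀ (by norm_num)
  have hD0 : (0 : ℝ) < 2 ^ (D + 1) := by positivity
  obtain ⟨ε₀, hε₀, h3, h4⟩ : ∃ ε₀ : ℝ, 0 < ε₀ ∧ 2 ^ (D + 1) * (3 * ε₀) < 1 ∧ 3 * ε₀ < ε₁ := by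
    refine ⟨min (1 / (2 ^ (D + 1) * 6)) (ε₁ / 6), by positivity, ?_, ?_⟩
    · have h1 : min (1 / (2 ^ (D + 1) * 6)) (ε₁ / 6) ≤ 1 / ((2 : ℝ) ^ (D + 1) * 6) := min_le_left _ _
      have h2 : (2 : ℝ) ^ (D + 1) * (3 * (1 / ((2 : ℝ) ^ (D + 1) * 6))) = 1 / 2 := by
        field_simp
        norm_num
      have h3 : (2 : ℝ) ^ (D + 1) * (3 * min (1 / (2 ^ (D + 1) * 6)) (ε₁ / 6)) ≤
          (2 : ℝ) ^ (D + 1) * (3 * (1 / ((2 : ℝ) ^ (D + 1) * 6))) := by gcongr
      linarith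
    · have h1 : min (1 / (2 ^ (D + 1) * 6)) (ε₁ / 6) ≤ ε₁ / 6 := min_le_right _ _
      linarith
  have hε6 : ε₀ < 1 / 3 := by
    nlinarith [mul_le_mul_of_nonneg_right hD1 (by positivity : (0 : ℝ) ≤ 3 * ε₀)]
  -- good lifts
  let Gd : d.V → (KK d Γ → ℂ) → Prop := fun h F =>
    IsLift μ (KK.tauE d Γ) (D + 1) R k (fun y => GG.emb d h • y) F ∧ ∫ y, ‖F y - 1‖ ∂μ < ε₀ ∧
      (k = 0 → ∃ r : ℝ, 0 < r ∧ ∫ y, F y ∂μ = r)
  have hA : ∀ᶠ h in 𝓝 (0 : d.V), ∃ F, Gd h F := by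
    filter_upwards [lift_near hL (show 0 < ε₀ / 4 by positivity)] with h hh
    obtain ⟨F, hF, hF1⟩ := hh
    by_cases hk : k = 0
    · subst hk
      obtain ⟨c1, c2, c3, c4⟩ := l2_phase ((l2_lift_near hF).trans_lt hF1) (by linarith)
      refine ⟨_, l2_lift_cmul hF c1, ?_, fun _ => ⟨_, c3, ?_⟩⟩
      · have hle : ∫ y, ‖conj (∫ y, F y ∂μ) / ((‖∫ y, F y ∂μ‖ : ℝ) : ℂ) * F y - 1‖ ∂μ ≤
            ∫ y, (‖F y - 1‖ + 2 * (ε₀ / 4)) ∂μ := by
          refine integral_mono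
            ((l2_lift_int (l2_lift_cmul hF c1)).sub (integrable_const _)).norm
            (((l2_lift_int hF).sub (integrable_const _)).norm.add (integrable_const _))
            fun y => ?_
          change ‖conj (∫ y, F y ∂μ) / ((‖∫ y, F y ∂μ‖ : ℝ) : ℂ) * F y - 1‖ ≤
            ‖F y - 1‖ + 2 * (ε₀ / 4)
          have e1 : conj (∫ y, F y ∂μ) / ((‖∫ y, F y ∂μ‖ : ℝ) : ℂ) * F y - 1 =
              conj (∫ y, F y ∂μ) / ((‖∫ y, F y ∂μ‖ : ℝ) : ℂ) * (F y - 1) +
              (conj (∫ y, F y ∂μ) / ((‖∫ y, F y ∂μ‖ : ℝ) : ℂ) - 1) := by ring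
          rw [e1]
          refine (norm_add_le _ _).trans ?_
          rw [norm_mul, c1, one_mul]
          linarith
        have hiF : Integrable (fun y => ‖F y - 1‖) μ :=
          ((l2_lift_int hF).sub (integrable_const _)).norm
        rw [integral_add hiF (integrable_const _),
          integral_const, probReal_univ, one_smul] at hle
        linarith
      · rw [integral_const_mul]
        exact c2
    · exact ⟨F, hF, by linarith, fun h => absurd h hk⟩
  obtain ⟨U, hUA, hUo, hU0⟩ := eventually_nhds_iff.1 hA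
  choose! F₁ hF₁ using hUA
  have h1g : Gd 0 (fun _ => 1) := by
    refine ⟨l2_lift_one μ D k R, ?_, fun _ => ⟨1, one_pos, ?_⟩⟩
    · simp only [sub_self, norm_zero, integral_zero]
      exact hε₀
    · rw [integral_const, probReal_univ, one_smul, Complex.ofReal_one]
  let F : d.V → KK d Γ → ℂ := fun h => if h = 0 then fun _ => 1 else F₁ h
  have hFg : ∀ h ∈ U, Gd h (F h) := by
    intro h hh
    by_cases h0 : h = 0
    · subst h0
      have : F 0 = fun _ => 1 := if_pos rfl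
      rw [this]
      exact h1g
    · have : F h = F₁ h := if_neg h0
      rw [this]
      exact hF₁ h hh
  refine ⟨U, F, hUo, hU0, fun h hh => (hFg h hh).1, fun y => ?_, fun h₀ hh₀ => ?_⟩
  · have : F 0 = fun _ => 1 := if_pos rfl
    rw [this]
  -- continuity
  obtain ⟨hl0, hs0, hr0⟩ := hFg h₀ hh₀
  rw [Metric.tendsto_nhds]
  intro ε hε
  have hg0 : Tendsto (fun h : d.V => d.mul h (d.inv h₀)) (𝓝 h₀) (𝓝 0) := by
    have hc : Continuous (fun h : d.V => d.mul h (d.inv h₀)) :=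
      d.smooth_mul.continuous.comp (continuous_id.prodMk continuous_const)
    have h1 := hc.tendsto h₀
    rwa [GG.mul_inv d h₀] at h1
  have hδ : 0 < min ε₀ (ε / 8) := by positivity
  filter_upwards [hg0.eventually (lift_near hL hδ), hUo.mem_nhds hh₀] with h hE hh
  obtain ⟨E, hE, hEs⟩ := hE
  have hEs1 : ∫ y, ‖E y - 1‖ ∂μ < ε₀ := hEs.trans_le (min_le_left _ _)
  have hEs2 : ∫ y, ‖E y - 1‖ ∂μ < ε / 8 := hEs.trans_le (min_le_right _ _)
  obtain ⟨hl, hs, hr⟩ := hFg h hh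
  -- the comparison lift
  have hl' : IsLift μ (KK.tauE d Γ) (D + 1) R k (fun y => GG.emb d h • y)
      (fun y => E (GG.emb d h₀ • y) * F h₀ y) := by
    have h1 := lift_comp hL (fun y => GG.emb d (d.mul h (d.inv h₀)) • y) h₀
      (l2_meas_act (d.mul h (d.inv h₀))) hE hl0
    have h2 : (fun y : KK d Γ => GG.emb d h • y) =
        fun y => GG.emb d (d.mul h (d.inv h₀)) • (GG.emb d h₀ • y) := by
      funext y
      rw [← l2_emb_smul, d.assoc, d.inv_mul, d.mul_zero]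
    rw [h2]
    exact h1
  have hd1 : ∫ y, ‖E (GG.emb d h₀ • y) * F h₀ y - F h₀ y‖ ∂μ = ∫ y, ‖E y - 1‖ ∂μ := by
    have h1 : ∀ y, ‖E (GG.emb d h₀ • y) * F h₀ y - F h₀ y‖ = ‖E (GG.emb d h₀ • y) - 1‖ := by
      intro y
      have e1 : E (GG.emb d h₀ • y) * F h₀ y - F h₀ y = (E (GG.emb d h₀ • y) - 1) * F h₀ y := by
        ring
      rw [e1, norm_mul, (hl0.inc y).1, mul_one]
    simp only [h1]
    exact (hL.inv (GG.emb d h₀)).integral_comp
      (KK.act d Γ (GG.emb d h₀)).measurableEmbedding (fun y => ‖E y - 1‖)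
  have tri : ∀ {a b c : KK d Γ → ℂ}, Integrable a μ → Integrable b μ → Integrable c μ →
      ∫ y, ‖a y - c y‖ ∂μ ≤ ∫ y, ‖a y - b y‖ ∂μ + ∫ y, ‖b y - c y‖ ∂μ := by
    intro a b c ha hb hc
    have i1 : Integrable (fun y => ‖a y - b y‖) μ := (ha.sub hb).norm
    have i2 : Integrable (fun y => ‖b y - c y‖) μ := (hb.sub hc).norm
    have i3 : Integrable (fun y => ‖a y - c y‖) μ := (ha.sub hc).norm
    rw [← integral_add i1 i2]
    exact integral_mono i3 (i1.add i2) fun y => norm_sub_le_norm_sub_add_norm_sub _ _ _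
  have hsym : ∀ a b : KK d Γ → ℂ, ∫ y, ‖a y - b y‖ ∂μ = ∫ y, ‖b y - a y‖ ∂μ := by
    intro a b
    exact integral_congr_ae (Eventually.of_forall fun y => norm_sub_rev _ _)
  have hi1 : Integrable (fun _ : KK d Γ => (1 : ℂ)) μ := integrable_const _
  have hI := l2_lift_int hl
  have hI' := l2_lift_int hl'
  have hI0 := l2_lift_int hl0
  have hd2 : ∫ y, ‖E (GG.emb d h₀ • y) * F h₀ y - F h y‖ ∂μ < 3 * ε₀ := by
    have t1 := tri hI' hI0 hI
    have t2 := tri hI0 hi1 hI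
    rw [hsym (fun _ => 1) (F h)] at t2
    linarith
  obtain ⟨c, hc, hc1, hc2⟩ := lift_unique hL (fun y => GG.emb d h • y) hl hl' (by
    calc (2 : ℝ) ^ (D + 1) * ∫ y, ‖E (GG.emb d h₀ • y) * F h₀ y - F h y‖ ∂μ
        ≤ 2 ^ (D + 1) * (3 * ε₀) := by gcongr
      _ < 1 := h3)
  have hgoal : ∫ y, ‖F h y - F h₀ y‖ ∂μ < ε := by
    have t1 := tri hI hI' hI0
    have t3 : ∫ y, ‖F h y - E (GG.emb d h₀ • y) * F h₀ y‖ ∂μ = ‖c - 1‖ := by
      have e1 : (fun y => ‖F h y - E (GG.emb d h₀ • y) * F h₀ y‖) =ᵐ[μ] fun _ => ‖c - 1‖ := by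
        filter_upwards [hc2] with y hy
        rw [hy]
        have e2 : F h y - c * F h y = -((c - 1) * F h y) := by ring
        rw [e2, norm_neg, norm_mul, (hl.inc y).1, mul_one]
      rw [integral_congr_ae e1, integral_const, probReal_univ, one_smul]
    by_cases hk : k = 0
    · obtain ⟨r, hrp, hrI⟩ := hr hk
      obtain ⟨r₀, hr₀p, hr₀I⟩ := hr0 hk
      have i1 : ∫ y, E (GG.emb d h₀ • y) * F h₀ y ∂μ = c * r := by
        rw [integral_congr_ae hc2, integral_const_mul, hrI]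
      have i2 : ‖c * r - r₀‖ < ε / 8 := by
        have e1 : c * r - r₀ = ∫ y, (E (GG.emb d h₀ • y) * F h₀ y - F h₀ y) ∂μ := by
          rw [integral_sub hI' hI0, i1, hr₀I]
        rw [e1]
        exact (norm_integral_le_integral_norm _).trans_lt (by rw [hd1]; exact hEs2)
      have i3 : |r - r₀| < ε / 8 := by
        have e1 := abs_norm_sub_norm_le (c * r : ℂ) (r₀ : ℂ)
        rw [norm_mul, hc.1, one_mul, Complex.norm_real, Complex.norm_real, Real.norm_of_nonneg hrp.le,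
          Real.norm_of_nonneg hr₀p.le] at e1
        exact e1.trans_lt i2
      have i4 : ‖c - 1‖ * r < ε / 4 := by
        have e1 : ‖c - 1‖ * r = ‖(c * r - r₀) - ((r - r₀ : ℝ) : ℂ)‖ := by
          have e2 : (c * r - r₀) - ((r - r₀ : ℝ) : ℂ) = (c - 1) * (r : ℂ) := by
            push_cast
            ring
          rw [e2, norm_mul, Complex.norm_real, Real.norm_of_nonneg hrp.le]
        rw [e1]
        refine (norm_sub_le _ _).trans_lt ?_
        rw [Complex.norm_real, Real.norm_eq_abs]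
        linarith
      have i5 : 1 / 2 ≤ r := by
        have e1 := (l2_lift_near hl).trans_lt hs
        rw [hrI, ← Complex.ofReal_one, ← Complex.ofReal_sub, Complex.norm_real,
          Real.norm_eq_abs] at e1
        have e2 := (abs_lt.1 e1).1
        linarith
      have i6 : ‖c - 1‖ < ε / 2 := by
        nlinarith [norm_nonneg (c - 1)]
      rw [hd1, t3] at t1
      linarith
    · have hc' : c = 1 := hnear hk c hc (by linarith)
      rw [hd1, t3, hc', sub_self, norm_zero] at t1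
      linarith
  rw [Real.dist_eq, sub_zero, abs_of_nonneg (integral_nonneg fun y => norm_nonneg _)]
  exact hgoal

/-- **L3.** Products of families (`lift_comp`, LS3, the transformations preserve `μ`:
`‖F t (h' t y) F' t y - F t₀ (h' t₀ y) F' t₀ y‖ ≤ ‖F t (h' t y) - F t₀ (h' t y)‖ +
‖F t₀ (h' t y) - F t₀ (h' t₀ y)‖ + ‖F' t y - F' t₀ y‖`). -/
theorem LFam.mul {T : Type} [TopologicalSpace T] {h h' : T → d.V} {F F' : T → KK d Γ → ℂ}
    (hF : LFam d Γ μ D k R h F) (hF' : LFam d Γ μ D k R h' F') :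
    LFam d Γ μ D k R (fun t => d.mul (h t) (h' t))
      (fun t y => F t (GG.emb d (h' t) • y) * F' t y) := by
  haveI := hL.prob
  refine ⟨d.smooth_mul.continuous.comp (hF.hcont.prodMk hF'.hcont), fun t => ?_, fun t₀ => ?_⟩
  · have h1 := lift_comp hL (fun y => GG.emb d (h t) • y) (h' t) (l2_meas_act (h t)) (hF.lift t)
      (hF'.lift t)
    have h2 : (fun y : KK d Γ => GG.emb d (d.mul (h t) (h' t)) • y) =
        fun y => GG.emb d (h t) • (GG.emb d (h' t) • y) :=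
      funext fun y => l2_emb_smul d Γ _ _ y
    rw [h2]
    exact h1
  · have hb : BM (F t₀) := ⟨(hF.lift t₀).meas, 1, fun y => ((hF.lift t₀).inc y).1.le⟩
    have hA : Tendsto (fun t => ∫ y, ‖F t (GG.emb d (h' t) • y) - F t₀ (GG.emb d (h' t) • y)‖ ∂μ)
        (𝓝 t₀) (𝓝 0) := by
      have h1 : ∀ t, ∫ y, ‖F t (GG.emb d (h' t) • y) - F t₀ (GG.emb d (h' t) • y)‖ ∂μ =
          ∫ y, ‖F t y - F t₀ y‖ ∂μ := fun t =>
        (hL.inv (GG.emb d (h' t))).integral_comp
          (KK.act d Γ (GG.emb d (h' t))).measurableEmbedding (fun y => ‖F t y - F t₀ y‖)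
      simp only [h1]
      exact hF.cont t₀
    have hB : Tendsto (fun t => ∫ y, ‖F t₀ (GG.emb d (h' t) • y) - F t₀ (GG.emb d (h' t₀) • y)‖ ∂μ)
        (𝓝 t₀) (𝓝 0) := (trans_cont hL hb (h' t₀)).comp (hF'.hcont.tendsto t₀)
    have hS := (hA.add hB).add (hF'.cont t₀)
    rw [add_zero, add_zero] at hS
    refine squeeze_zero (fun t => integral_nonneg fun y => norm_nonneg _) (fun t => ?_) hS
    have hi : ∀ (a b : d.V) (s s' : T), Integrable
        (fun y => ‖F s (GG.emb d a • y) - F s' (GG.emb d b • y)‖) μ := by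
      intro a b s s'
      exact ((l2_int μ ((hF.lift s).meas.comp (l2_meas_act a)) (C := 1)
        (fun y => ((hF.lift s).inc _).1.le)).sub
        (l2_int μ ((hF.lift s').meas.comp (l2_meas_act b)) (C := 1)
        (fun y => ((hF.lift s').inc _).1.le))).norm
    have hi' : Integrable (fun y => ‖F' t y - F' t₀ y‖) μ :=
      ((l2_lift_int (hF'.lift t)).sub (l2_lift_int (hF'.lift t₀))).norm
    have hl : Integrable (fun y => ‖F t (GG.emb d (h' t) • y) * F' t y -
        F t₀ (GG.emb d (h' t₀) • y) * F' t₀ y‖) μ := by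
      refine ((l2_int μ (((hF.lift t).meas.comp (l2_meas_act (h' t))).mul (hF'.lift t).meas)
        (C := 1) (fun y => ?_)).sub
        (l2_int μ (((hF.lift t₀).meas.comp (l2_meas_act (h' t₀))).mul (hF'.lift t₀).meas)
        (C := 1) (fun y => ?_))).norm
      · change ‖F t (GG.emb d (h' t) • y) * F' t y‖ ≤ 1
        rw [norm_mul, ((hF.lift t).inc _).1, ((hF'.lift t).inc _).1, one_mul]
      · change ‖F t₀ (GG.emb d (h' t₀) • y) * F' t₀ y‖ ≤ 1
        rw [norm_mul, ((hF.lift t₀).inc _).1, ((hF'.lift t₀).inc _).1, one_mul]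
    have hab : Integrable (fun y => ‖F t (GG.emb d (h' t) • y) - F t₀ (GG.emb d (h' t) • y)‖ +
        ‖F t₀ (GG.emb d (h' t) • y) - F t₀ (GG.emb d (h' t₀) • y)‖) μ :=
      (hi _ _ _ _).add (hi _ _ _ _)
    rw [← integral_add (hi _ _ _ _) (hi _ _ _ _), ← integral_add hab hi']
    refine integral_mono hl (hab.add hi') fun y => ?_
    change ‖F t (GG.emb d (h' t) • y) * F' t y - F t₀ (GG.emb d (h' t₀) • y) * F' t₀ y‖ ≤
      ‖F t (GG.emb d (h' t) • y) - F t₀ (GG.emb d (h' t) • y)‖ +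
      ‖F t₀ (GG.emb d (h' t) • y) - F t₀ (GG.emb d (h' t₀) • y)‖ + ‖F' t y - F' t₀ y‖
    have e1 : F t (GG.emb d (h' t) • y) * F' t y - F t₀ (GG.emb d (h' t₀) • y) * F' t₀ y =
        (F t (GG.emb d (h' t) • y) - F t₀ (GG.emb d (h' t) • y)) * F' t y +
        (F t₀ (GG.emb d (h' t) • y) - F t₀ (GG.emb d (h' t₀) • y)) * F' t y +
        F t₀ (GG.emb d (h' t₀) • y) * (F' t y - F' t₀ y) := by ring
    rw [e1]
    refine (norm_add₃_le).trans ?_
    rw [norm_mul, norm_mul, norm_mul, ((hF'.lift t).inc y).1, ((hF.lift t₀).inc _).1, mul_one,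
      mul_one, one_mul]

/-- the constant family -/
theorem LFam.one {T : Type} [TopologicalSpace T] :
    LFam d Γ μ D k R (fun _ : T => 0) (fun _ _ => 1) := by
  refine ⟨continuous_const, fun t => l2_lift_one μ D k R, fun t₀ => ?_⟩
  simp only [sub_self, norm_zero, integral_zero]
  exact tendsto_const_nhds

omit hL in
theorem LFam.comp {T T' : Type} [TopologicalSpace T] [TopologicalSpace T'] {h : T → d.V}
    {F : T → KK d Γ → ℂ} (hF : LFam d Γ μ D k R h F) {φ : T' → T} (hφ : Continuous φ) :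
    LFam d Γ μ D k R (fun t => h (φ t)) (fun t => F (φ t)) :=
  ⟨hF.hcont.comp hφ, fun t => hF.lift (φ t), fun t₀ => (hF.cont (φ t₀)).comp (hφ.tendsto t₀)⟩

end

end Pool.Agent.HK820

end
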