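import Pool.Agent.Lib_MP_820dd4_hk.L2

open MeasureTheory ProbabilityTheory Filter Topology
open scoped ComplexConjugate ENNReal

namespace Pool.Agent.HK820

/-- products cancel -/
theorem l5_cancel (d : ND) (a b c : d.V) :
    d.mul (d.mul a b) (d.mul (d.inv b) c) = d.mul a c := by
  rw [d.assoc a b, ← d.assoc b, GG.mul_inv, d.zero_mul]

theorem l5_emb_zero (d : ND) (Γ : Subgroup (GG d)) (y : KK d Γ) : GG.emb d 0 • y = y := by
  have h : GG.emb d 0 = 1 := rfl
  rw [h, one_smul]

/-- Lebesgue number for the curve -/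
theorem l5_leb (d : ND) (x : ℝ → d.V) (hx : Continuous x) (a : ℝ) (U : Set d.V) (hU : IsOpen U)
    (h0 : (0 : d.V) ∈ U) : ∃ δ > 0, ∀ t' ∈ Set.Icc a (a + 1), ∀ t, |t - t'| < δ →
      d.mul (d.inv (x t')) (x t) ∈ U := by
  have hG : Continuous (fun p : ℝ × ℝ => d.mul (d.inv (x p.1)) (x p.2)) :=
    d.smooth_mul.continuous.comp
      ((d.smooth_inv.continuous.comp (hx.comp continuous_fst)).prodMk (hx.comp continuous_snd))
  let ι := {O : Set ℝ // IsOpen O ∧ ∀ t ∈ O, ∀ t' ∈ O, d.mul (d.inv (x t')) (x t) ∈ U}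
  have hcov : Set.Icc a (a + 1) ⊆ ⋃ i : ι, i.1 := by
    intro s _
    have h1 : (fun p : ℝ × ℝ => d.mul (d.inv (x p.1)) (x p.2)) ⁻¹' U ∈ 𝓝 (s, s) := by
      apply hG.continuousAt.preimage_mem_nhds
      apply hU.mem_nhds
      show d.mul (d.inv (x s)) (x s) ∈ U
      rw [d.inv_mul]
      exact h0
    rw [nhds_prod_eq, Filter.mem_prod_iff] at h1
    obtain ⟨A, hA, B, hB, hAB⟩ := h1
    have h2 : A ∩ B ∈ 𝓝 s := Filter.inter_mem hA hB
    obtain ⟨O, hO1, hO2, hO3⟩ := mem_nhds_iff.mp h2
    refine Set.mem_iUnion.mpr ⟨⟨O, hO2, ?_⟩, hO3⟩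
    intro t ht t' ht'
    exact hAB (show (t', t) ∈ A ×ˢ B from ⟨(hO1 ht').1, (hO1 ht).2⟩)
  obtain ⟨δ, hδ, h⟩ := lebesgue_number_lemma_of_metric isCompact_Icc (fun i : ι => i.2.1) hcov
  refine ⟨δ, hδ, ?_⟩
  intro t' ht' t htt
  obtain ⟨i, hi⟩ := h t' ht'
  apply i.2.2
  · apply hi
    rw [Metric.mem_ball, Real.dist_eq]
    exact htt
  · apply hi
    exact Metric.mem_ball_self hδ

section
variable {d : ND} {Γ : Subgroup (GG d)} [StandardBorelSpace (KK d Γ)] {μ : Measure (KK d Γ)}
  {D k : ℕ} {ρ : KK d Γ → ℂ} {R : Arr (Fin 2) (KK d Γ) (D + 1) → ℂ}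
  (hL : LSetup d Γ μ D k ρ R)

include hL

/-- **L5a.** Lifting of a curve on a compact interval `[a, a + 1]`, extended by constants: there is a
family over `ℝ` for the curve `t ↦ mul (inv (x a)) (x (clamp t))`, `clamp t = max a (min t (a+1))`,
equal to `1` for `t ≤ a`.

Proof. Let `U`, `F⁰` be the local section. By uniform continuity on the compact interval there is
`m` such that `mul (inv (x t')) (x t) ∈ U` whenever `t, t' ∈ [a, a+1]`, `|t - t'| ≤ 1/m`. For
`i < m` let `clamp_i t = max (a + i/m) (min t (a + (i+1)/m))` and `h_i t = mul (inv (x (a + i/m)))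
(x (clamp_i t)) ∈ U`, continuous, so `F⁰ (h_i t)` is a family (it is `F⁰ 0 = 1` for `t ≤ a + i/m`). The
product of the families `i = 0, ..., m - 1` (in this order, `LFam.mul`) is a family for
`∏ h_i t`, which telescopes: if `t ∈ [a + j/m, a + (j+1)/m]` then `clamp_i t` is the right end for
`i < j` and the left end for `i > j`. -/
theorem curve_step (x : ℝ → d.V) (hx : Continuous x) (a : ℝ) :
    ∃ F : ℝ → KK d Γ → ℂ,
      LFam d Γ μ D k R (fun t => d.mul (d.inv (x a)) (x (max a (min t (a + 1))))) F ∧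
      ∀ t ≤ a, ∀ y, F t y = 1 := by
  obtain ⟨U, F0, hU, h0U, hlift, hF0, hcont⟩ := local_section hL
  obtain ⟨δ, hδ, hleb⟩ := l5_leb d x hx a U hU h0U
  obtain ⟨m, hm⟩ := exists_nat_one_div_lt hδ
  set p : ℕ → ℝ := fun i => a + i / ((m : ℝ) + 1) with hp
  have hm0 : (0 : ℝ) < (m : ℝ) + 1 := by positivity
  have hp0 : p 0 = a := by simp [hp]
  have hpm : p (m + 1) = a + 1 := by
    simp only [hp]
    push_cast
    rw [div_self hm0.ne']
  have hpa : ∀ i, a ≤ p i := by
    intro i
    simp only [hp]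
    have : (0 : ℝ) ≤ (i : ℝ) / ((m : ℝ) + 1) := by positivity
    linarith
  have hps : ∀ i, p (i + 1) = p i + 1 / ((m : ℝ) + 1) := by
    intro i
    simp only [hp]
    push_cast
    rw [add_div]
    ring
  have hpm1 : ∀ i, i ≤ m + 1 → p i ≤ a + 1 := by
    intro i hi
    simp only [hp]
    have : (i : ℝ) / ((m : ℝ) + 1) ≤ 1 := by
      rw [div_le_one hm0]
      exact_mod_cast hi
    linarith
  have hstep0 : 0 < 1 / ((m : ℝ) + 1) := by positivity
  have key : ∀ n, n ≤ m + 1 → ∃ F : ℝ → KK d Γ → ℂ,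
      LFam d Γ μ D k R (fun t => d.mul (d.inv (x a)) (x (max a (min t (p n))))) F ∧
      ∀ t ≤ a, ∀ y, F t y = 1 := by
    intro n
    induction n with
    | zero =>
      intro _
      refine ⟨fun _ _ => 1, ?_, fun _ _ _ => rfl⟩
      have h1 : (fun t => d.mul (d.inv (x a)) (x (max a (min t (p 0))))) = fun _ : ℝ => 0 := by
        funext t
        rw [hp0, max_eq_left (min_le_right t a), d.inv_mul]
      rw [h1]
      exact LFam.one hL
    | succ n ih =>
      intro hn
      obtain ⟨F, hF, hF1⟩ := ih (by omega)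
      have hh' : Continuous (fun t => d.mul (d.inv (x (p n))) (x (max (p n) (min t (p (n + 1)))))) :=
        d.smooth_mul.continuous.comp (continuous_const.prodMk (hx.comp
          (continuous_const.max (continuous_id.min continuous_const))))
      have hmem : ∀ t, d.mul (d.inv (x (p n))) (x (max (p n) (min t (p (n + 1))))) ∈ U := by
        intro t
        apply hleb (p n) ⟨hpa n, hpm1 n (by omega)⟩
        have h1 : p n ≤ max (p n) (min t (p (n + 1))) := le_max_left _ _
        have h2 : max (p n) (min t (p (n + 1))) ≤ p (n + 1) := by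
          apply max_le
          · rw [hps]; linarith
          · exact min_le_right _ _
        rw [abs_of_nonneg (by linarith)]
        have h3 := hps n
        linarith
      have hG : LFam d Γ μ D k R
          (fun t => d.mul (d.inv (x (p n))) (x (max (p n) (min t (p (n + 1))))))
          (fun t => F0 (d.mul (d.inv (x (p n))) (x (max (p n) (min t (p (n + 1))))))) := by
        refine ⟨hh', fun t => hlift _ (hmem t), fun t₀ => ?_⟩
        exact (hcont _ (hmem t₀)).comp (hh'.tendsto t₀)
      refine ⟨fun t y => F t (GG.emb d (d.mul (d.inv (x (p n)))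
          (x (max (p n) (min t (p (n + 1)))))) • y) *
          F0 (d.mul (d.inv (x (p n))) (x (max (p n) (min t (p (n + 1)))))) y, ?_, ?_⟩
      · have h1 := LFam.mul hL hF hG
        have h2 : (fun t => d.mul (d.inv (x a)) (x (max a (min t (p (n + 1)))))) =
            fun t => d.mul (d.mul (d.inv (x a)) (x (max a (min t (p n)))))
              (d.mul (d.inv (x (p n))) (x (max (p n) (min t (p (n + 1)))))) := by
          funext t
          rcases le_total t (p n) with ht | ht
          · have e1 : min t (p (n + 1)) = t := by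
              apply min_eq_left
              rw [hps]; linarith
            have e2 : min t (p n) = t := min_eq_left ht
            rw [e1, e2, max_eq_left ht, d.inv_mul, d.mul_zero]
          · have e2 : min t (p n) = p n := min_eq_right ht
            have e3 : max a (p n) = p n := max_eq_right (hpa n)
            have e4 : p n ≤ min t (p (n + 1)) := le_min ht (by rw [hps]; linarith)
            have e5 : max (p n) (min t (p (n + 1))) = min t (p (n + 1)) := max_eq_right e4
            have e6 : max a (min t (p (n + 1))) = min t (p (n + 1)) :=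
              max_eq_right ((hpa n).trans e4)
            rw [e2, e3, e5, e6, l5_cancel]
        rw [h2]
        exact h1
      · intro t ht y
        have e1 : max (p n) (min t (p (n + 1))) = p n := by
          apply max_eq_left
          exact (min_le_left _ _).trans (ht.trans (hpa n))
        show F t (GG.emb d (d.mul (d.inv (x (p n)))
          (x (max (p n) (min t (p (n + 1)))))) • y) *
          F0 (d.mul (d.inv (x (p n))) (x (max (p n) (min t (p (n + 1)))))) y = 1
        rw [hF1 t ht, e1, d.inv_mul, hF0, one_mul]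
  have h := key (m + 1) le_rfl
  rw [hpm] at h
  exact h

/-- **L5b.** The same to the left: curve `t ↦ mul (inv (x a)) (x (min a (max t (a - 1))))` (apply L5a
to `t ↦ x (-t)`). -/
theorem curve_step' (x : ℝ → d.V) (hx : Continuous x) (a : ℝ) :
    ∃ F : ℝ → KK d Γ → ℂ,
      LFam d Γ μ D k R (fun t => d.mul (d.inv (x a)) (x (min a (max t (a - 1))))) F ∧
      ∀ t ≥ a, ∀ y, F t y = 1 := by
  obtain ⟨F, hF, hF1⟩ := curve_step hL (fun t => x (-t)) (hx.comp continuous_neg) (-a)
  refine ⟨fun t => F (-t), ?_, fun t ht y => hF1 (-t) (by linarith) y⟩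
  have h := hF.comp (continuous_neg : Continuous (fun t : ℝ => -t))
  have h2 : (fun t => d.mul (d.inv (x a)) (x (min a (max t (a - 1))))) =
      fun t => d.mul (d.inv (x (- -a))) (x (-(max (-a) (min (-t) (-a + 1))))) := by
    funext t
    have e1 : -(max (-a) (min (-t) (-a + 1))) = min a (max t (a - 1)) := by
      have e2 : -a + 1 = -(a - 1) := by ring
      rw [e2, min_neg_neg, max_neg_neg, neg_neg]
    rw [neg_neg, e1]
  rw [h2]
  exact h

/-- **L5c.** Lifting of curves.

Proof. Recursively: a family for `x (clamp to [-N, N])`: multiply on the right by the families of L5a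
for `a = N` and L5b for `a = -N` (for `t ≥ 0` the second is `1`, for `t ≤ 0` the first is `1`, so
`x (clamp_N t) * (x N)⁻¹ x (clamp ...) = x (clamp_{N+1} t)`). The families agree on `[-N, N]`, so they
define a family on `ℝ` (continuity is local). -/
theorem curve_lift (x : ℝ → d.V) (hx : Continuous x) (h0 : x 0 = 0) :
    ∃ F : ℝ → KK d Γ → ℂ, LFam d Γ μ D k R x F ∧ ∀ y, F 0 y = 1 := by
  have hstep : ∀ (N : ℕ) (F : ℝ → KK d Γ → ℂ),
      LFam d Γ μ D k R (fun t => x (max (-(N : ℝ)) (min t N))) F →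
      ∃ F' : ℝ → KK d Γ → ℂ,
        LFam d Γ μ D k R (fun t => x (max (-((N + 1 : ℕ) : ℝ)) (min t ((N + 1 : ℕ) : ℝ)))) F' ∧
        ∀ t : ℝ, |t| ≤ (N : ℝ) → ∀ y, F' t y = F t y := by
    intro N F hF
    obtain ⟨A, hA, hA1⟩ := curve_step hL x hx (N : ℝ)
    obtain ⟨B, hB, hB1⟩ := curve_step' hL x hx (-(N : ℝ))
    have h1 := LFam.mul hL (LFam.mul hL hF hA) hB
    have hN : (0 : ℝ) ≤ N := Nat.cast_nonneg N
    refine ⟨fun t y => (F t (GG.emb d (d.mul (d.inv (x N)) (x (max (N : ℝ) (min t (N + 1))))) •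
          (GG.emb d (d.mul (d.inv (x (-(N : ℝ)))) (x (min (-(N : ℝ)) (max t (-(N : ℝ) - 1))))) • y)) *
          A t (GG.emb d (d.mul (d.inv (x (-(N : ℝ))))
            (x (min (-(N : ℝ)) (max t (-(N : ℝ) - 1))))) • y)) * B t y, ?_, ?_⟩
    · have h2 : (fun t => x (max (-((N + 1 : ℕ) : ℝ)) (min t ((N + 1 : ℕ) : ℝ)))) =
          fun t => d.mul (d.mul (x (max (-(N : ℝ)) (min t N)))
            (d.mul (d.inv (x N)) (x (max (N : ℝ) (min t (N + 1))))))
            (d.mul (d.inv (x (-(N : ℝ)))) (x (min (-(N : ℝ)) (max t (-(N : ℝ) - 1))))) := by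
        funext t
        push_cast
        have l5c : ∀ b c : d.V, d.mul b (d.mul (d.inv b) c) = c := by
          intro b c
          rw [← d.assoc, GG.mul_inv, d.zero_mul]
        rcases le_total t (N : ℝ) with ht | ht
        · have e1 : min t (N : ℝ) = t := min_eq_left ht
          have e2 : min t ((N : ℝ) + 1) = t := min_eq_left (by linarith)
          rw [e1, e2, max_eq_left ht, d.inv_mul, d.mul_zero]
          rcases le_total (-(N : ℝ)) t with ht2 | ht2
          · have e3 : max t (-(N : ℝ) - 1) = t := max_eq_left (by linarith)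
            rw [e3, min_eq_left ht2, d.inv_mul, d.mul_zero, max_eq_right ht2,
              max_eq_right (by linarith)]
          · have e3 : max (-(N : ℝ)) t = -(N : ℝ) := max_eq_left ht2
            have e4 : min (-(N : ℝ)) (max t (-(N : ℝ) - 1)) = max t (-(N : ℝ) - 1) := by
              apply min_eq_right
              apply max_le ht2
              linarith
            rw [e3, e4, l5c, max_comm]
            congr 2
            ring
        · have e1 : min t (N : ℝ) = N := min_eq_right ht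
          have e2 : max (-(N : ℝ)) (N : ℝ) = N := max_eq_right (by linarith)
          have e3 : max t (-(N : ℝ) - 1) = t := max_eq_left (by linarith)
          have e4 : min (-(N : ℝ)) t = -(N : ℝ) := min_eq_left (by linarith)
          have e5 : max (N : ℝ) (min t ((N : ℝ) + 1)) = min t ((N : ℝ) + 1) := by
            apply max_eq_right
            exact le_min ht (by linarith)
          have e6 : max (-((N : ℝ) + 1)) (min t ((N : ℝ) + 1)) = min t ((N : ℝ) + 1) := by
            apply max_eq_right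
            apply le_min <;> linarith
          rw [e1, e2, e3, e4, e5, e6, d.inv_mul, d.mul_zero, l5c]
      rw [h2]
      exact h1
    · intro t ht y
      have ht1 : t ≤ N := (abs_le.mp ht).2
      have ht2 : -(N : ℝ) ≤ t := (abs_le.mp ht).1
      have e2 : min t ((N : ℝ) + 1) = t := min_eq_left (by linarith)
      have e3 : max t (-(N : ℝ) - 1) = t := max_eq_left (by linarith)
      show (F t (GG.emb d (d.mul (d.inv (x N)) (x (max (N : ℝ) (min t (N + 1))))) •
          (GG.emb d (d.mul (d.inv (x (-(N : ℝ)))) (x (min (-(N : ℝ)) (max t (-(N : ℝ) - 1))))) • y)) *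
          A t (GG.emb d (d.mul (d.inv (x (-(N : ℝ))))
            (x (min (-(N : ℝ)) (max t (-(N : ℝ) - 1))))) • y)) * B t y = F t y
      rw [hA1 t ht1, hB1 t ht2, e2, e3, max_eq_left ht1, min_eq_left ht2, d.inv_mul, d.inv_mul,
        l5_emb_zero, l5_emb_zero, mul_one, mul_one]
  have hbase : LFam d Γ μ D k R (fun t => x (max (-((0 : ℕ) : ℝ)) (min t ((0 : ℕ) : ℝ))))
      (fun _ _ => 1) := by
    have h2 : (fun t => x (max (-((0 : ℕ) : ℝ)) (min t ((0 : ℕ) : ℝ)))) = fun _ : ℝ => 0 := by
      funext t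
      have e1 : max (-((0 : ℕ) : ℝ)) (min t ((0 : ℕ) : ℝ)) = 0 := by
        simp
      rw [e1, h0]
    rw [h2]
    exact LFam.one hL
  choose! st hst1 hst2 using hstep
  let FF : ℕ → ℝ → KK d Γ → ℂ := fun N => Nat.rec (fun _ _ => 1) (fun N F => st N F) N
  have hFF : ∀ N : ℕ, LFam d Γ μ D k R (fun t => x (max (-(N : ℝ)) (min t N))) (FF N) := by
    intro N
    induction N with
    | zero => exact hbase
    | succ N ih => exact hst1 N (FF N) ih
  have hFF2 : ∀ (N : ℕ) (t : ℝ), |t| ≤ (N : ℝ) → ∀ y, FF (N + 1) t y = FF N t y := by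
    intro N t ht y
    exact hst2 N (FF N) (hFF N) t ht y
  have hFF3 : ∀ (N M : ℕ) (t : ℝ), N ≤ M → |t| ≤ (N : ℝ) → ∀ y, FF M t y = FF N t y := by
    intro N M t hNM ht y
    induction M, hNM using Nat.le_induction with
    | base => rfl
    | succ M hM ih =>
      rw [hFF2 M t (ht.trans (by exact_mod_cast hM)), ih]
  have hFt : ∀ (N : ℕ) (t : ℝ), |t| ≤ (N : ℝ) → ∀ y, FF ⌈|t|⌉₊ t y = FF N t y := by
    intro N t ht y
    have h1 : ⌈|t|⌉₊ ≤ N := Nat.ceil_le.mpr ht
    exact (hFF3 _ N t h1 (Nat.le_ceil _) y).symm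
  refine ⟨fun t => FF ⌈|t|⌉₊ t, ⟨hx, ?_, ?_⟩, ?_⟩
  · intro t
    have h1 := (hFF ⌈|t|⌉₊).lift t
    have h2 : |t| ≤ (⌈|t|⌉₊ : ℝ) := Nat.le_ceil _
    have h3 := abs_le.mp h2
    have h4 : max (-(⌈|t|⌉₊ : ℝ)) (min t ⌈|t|⌉₊) = t := by
      rw [min_eq_left h3.2, max_eq_right h3.1]
    simp only [h4] at h1
    exact h1
  · intro t₀
    obtain ⟨N, hN⟩ := exists_nat_gt |t₀|
    have h1 := (hFF N).cont t₀
    have h2 : ∀ᶠ t in 𝓝 t₀, |t| < (N : ℝ) :=
      (continuous_abs.tendsto t₀).eventually (gt_mem_nhds hN)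
    apply h1.congr'
    filter_upwards [h2] with t ht
    apply integral_congr_ae
    filter_upwards with y
    rw [hFt N t ht.le, hFt N t₀ hN.le]
  · intro y
    show FF ⌈|(0 : ℝ)|⌉₊ 0 y = 1
    have e : ⌈|(0 : ℝ)|⌉₊ = 0 := by simp
    rw [e]
    rfl

/-- **L6.** Continuous global family of lifts.

Proof. `HasCurves`: `Φ t = x_1(t_1) ⋯ x_n(t_n)` is a homeomorphism of `ℝ^n` onto `V`. For every `i` take
the family of `curve_lift` for `x i`, pull it back by `t ↦ t i` (`LFam.comp`), and take the product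
(`LFam.mul`, `LFam.one`, induction over the list), a family over `Fin n → ℝ` for `Φ`; pull back by
`Φ.symm`. `Φ 0 = 0` because `x i 0 = 0`, so the family is `1` at `0`. -/
theorem global_family (hc : HasCurves d) :
    ∃ F : d.V → KK d Γ → ℂ, LFam d Γ μ D k R (fun h : d.V => h) F ∧ ∀ y, F 0 y = 1 := by
  obtain ⟨n, x, Φ, hx, hx0, hΦ⟩ := hc
  have hgen : ∀ (n : ℕ) (T : Type) [TopologicalSpace T] (t0 : T) (h : Fin n → T → d.V),
      (∀ i, ∃ F : T → KK d Γ → ℂ, LFam d Γ μ D k R (h i) F ∧ ∀ y, F t0 y = 1) →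
      ∃ F : T → KK d Γ → ℂ,
        LFam d Γ μ D k R (fun t => (List.ofFn (fun i => h i t)).foldr d.mul 0) F ∧
        ∀ y, F t0 y = 1 := by
    intro n
    induction n with
    | zero =>
      intro T _ t0 h _
      refine ⟨fun _ _ => 1, ?_, fun _ => rfl⟩
      simp only [List.ofFn_zero, List.foldr_nil]
      exact LFam.one hL
    | succ n ih =>
      intro T _ t0 h hh
      obtain ⟨F, hF, hF1⟩ := hh 0
      obtain ⟨G, hG, hG1⟩ := ih T t0 (fun i => h i.succ) (fun i => hh i.succ)
      refine ⟨fun t y => F t (GG.emb d ((List.ofFn (fun i => h (Fin.succ i) t)).foldr d.mul 0) • y) *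
          G t y, ?_, ?_⟩
      · simp only [List.ofFn_succ, List.foldr_cons]
        exact LFam.mul hL hF hG
      · intro y
        show F t0 _ * G t0 y = 1
        rw [hF1, hG1, one_mul]
  have h1 : ∀ i, ∃ F : (Fin n → ℝ) → KK d Γ → ℂ,
      LFam d Γ μ D k R (fun t : Fin n → ℝ => x i (t i)) F ∧ ∀ y, F 0 y = 1 := by
    intro i
    obtain ⟨F, hF, hF1⟩ := curve_lift hL (x i) (hx i) (hx0 i)
    exact ⟨fun t => F (t i), hF.comp (continuous_apply i), fun y => hF1 y⟩
  obtain ⟨F, hF, hF1⟩ := hgen n (Fin n → ℝ) 0 (fun i t => x i (t i)) h1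
  have hfold : ∀ n : ℕ, (List.ofFn (fun _ : Fin n => (0 : d.V))).foldr d.mul 0 = 0 := by
    intro n
    induction n with
    | zero => simp
    | succ n ih => rw [List.ofFn_succ, List.foldr_cons, ih, d.zero_mul]
  have hΦ0 : Φ 0 = 0 := by
    rw [hΦ]
    have e : (fun i => x i ((0 : Fin n → ℝ) i)) = fun _ => 0 := by
      funext i
      exact hx0 i
    rw [e, hfold]
  have hs0 : Φ.symm 0 = 0 := by
    rw [← hΦ0, Homeomorph.symm_apply_apply]
  refine ⟨fun h => F (Φ.symm h), ?_, ?_⟩
  · have h2 := hF.comp (Φ.symm.continuous : Continuous (fun h : d.V => Φ.symm h))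
    have h3 : (fun h : d.V => h) = fun h : d.V =>
        (List.ofFn (fun i => x i (Φ.symm h i))).foldr d.mul 0 := by
      funext h
      rw [← hΦ, Homeomorph.apply_symm_apply]
    rw [h3]
    exact h2
  · intro y
    show F (Φ.symm 0) y = 1
    rw [hs0]
    exact hF1 y

end

end Pool.Agent.HK820
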