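import Pool.Agent.Lib_MP_820dd4_hk.SBd

/-! ### Part `SC1` -/

section

open MeasureTheory ProbabilityTheory Filter Topology
open scoped ComplexConjugate ENNReal

namespace Pool.Agent.HK820

private theorem sc1_cj_one (n : ℕ) : cj n 1 = 1 := by
  unfold cj; split <;> simp

private theorem sc1_cj_sub (n : ℕ) (a b : ℂ) : cj n (a - b) = cj n a - cj n b := by
  unfold cj; split <;> simp

/-- product of numbers of modulus one is close to one if the factors are -/
private theorem sc1_prod_sub_one {ι : Type} (s : Finset ι) (f : ι → ℂ) (hf : ∀ i, ‖f i‖ = 1) :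
    ‖∏ i ∈ s, f i - 1‖ ≤ ∑ i ∈ s, ‖f i - 1‖ := by
  classical
  induction s using Finset.induction_on with
  | empty => simp
  | insert a s ha ih =>
    rw [Finset.prod_insert ha, Finset.sum_insert ha]
    have : f a * ∏ i ∈ s, f i - 1 = (f a - 1) + f a * (∏ i ∈ s, f i - 1) := by ring
    rw [this]
    refine (norm_add_le _ _).trans ?_
    rw [norm_mul, hf a, one_mul]
    exact add_le_add_right ih _

private theorem sc1_in3_inj (a : Fin 2) : Function.Injective (in3 a) := by
  revert a; decide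

private theorem sc1_out3_inj : Function.Injective out3 := by decide

/-- pointwise bound -/
private theorem sc1_pt {X : Type} {D : ℕ} {σ : Arr (Fin 2) X D → ℂ} (h1 : ∀ x, ‖σ x‖ = 1)
    (y : Arr (Fin 3) X D)
    (hy : σ (rst (fun _ => out3) y) =
      ∏ w : Fin D → Fin 2, cj (wt w) (σ (rst (fun j => in3 (w j)) y))) :
    ‖σ (rst (fun _ => in3 0) y) - σ (rst (fun _ => out3) y)‖ ≤
      ∑ w ∈ (Finset.univ.erase (0 : Fin D → Fin 2)), ‖σ (rst (fun j => in3 (w j)) y) - 1‖ := by
  classical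
  rw [← Finset.mul_prod_erase Finset.univ _ (Finset.mem_univ (0 : Fin D → Fin 2))] at hy
  have hw0 : wt (0 : Fin D → Fin 2) = 0 := by simp [wt]
  have hcj0 : ∀ z : ℂ, cj 0 z = z := by intro z; simp [cj]
  rw [hw0, hcj0] at hy
  have e0 : (fun j => in3 ((0 : Fin D → Fin 2) j)) = fun _ => in3 0 := rfl
  rw [e0] at hy
  rw [hy]
  set P := ∏ w ∈ (Finset.univ.erase (0 : Fin D → Fin 2)),
    cj (wt w) (σ (rst (fun j => in3 (w j)) y)) with hP
  have : σ (rst (fun _ => in3 0) y) - σ (rst (fun _ => in3 0) y) * P =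
    -(σ (rst (fun _ => in3 0) y) * (P - 1)) := by ring
  rw [this, norm_neg, norm_mul, h1, one_mul]
  refine (sc1_prod_sub_one _ _ ?_).trans (le_of_eq ?_)
  · intro i; rw [norm_cj, h1]
  · refine Finset.sum_congr rfl fun w _ => ?_
    conv_lhs => rw [← sc1_cj_one (wt w), ← sc1_cj_sub, norm_cj]

/-- integral form of `vert_indep` for indicators and nonnegative functions -/
private theorem sc1_indep {X : Type} [MeasurableSpace X] [StandardBorelSpace X] [Nonempty X]
    (μ : Measure X) [IsProbabilityMeasure μ] (T : X ≃ᵐ X) (hT : Ergodic T μ) (D : ℕ)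
    {σ : Arr (Fin 2) X D → ℂ} (hσ : Measurable σ) (h1 : ∀ x, ‖σ x‖ = 1)
    {s : Set X} (hs : MeasurableSet s) (w : Fin D → Fin 2) (hw : w ≠ 0) :
    ∫⁻ y, s.indicator 1 (y 0) * ENNReal.ofReal ‖σ (rst (fun j => in3 (w j)) y) - 1‖
        ∂(cube μ T (Fin 3) D) =
      μ s * ENNReal.ofReal (∫ x, ‖σ x - 1‖ ∂(cube μ T (Fin 2) D)) := by
  classical
  have := cube_prob μ T (Fin 3) D
  have := cube_prob μ T (Fin 2) D
  obtain ⟨j, hj⟩ : ∃ j, w j = 1 := by
    by_contra hcon
    push Not at hcon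
    apply hw
    funext j
    have := hcon j
    have h2 : ∀ a : Fin 2, a ≠ 1 → a = 0 := by decide
    exact h2 _ this
  have hnb : ∀ x, ‖σ x - 1‖ ≤ 2 := by
    intro x
    refine (norm_sub_le _ _).trans ?_
    rw [h1]; norm_num
  have hφ : BM (fun x : X => (s.indicator (fun _ => (1 : ℂ)) x)) := by
    refine ⟨measurable_const.indicator hs, 1, fun x => ?_⟩
    by_cases hx : x ∈ s <;> simp [hx]
  have hF : BM (fun x : Arr (Fin 2) X D => ((‖σ x - 1‖ : ℝ) : ℂ)) := by
    refine ⟨?_, 2, fun x => ?_⟩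
    · exact Complex.measurable_ofReal.comp (hσ.sub_const 1).norm
    · simpa using hnb x
  have hr : Measurable (fun y : Arr (Fin 3) X D => rst (κ := Fin 2) (fun j => in3 (w j)) y) := by
    refine measurable_pi_lambda _ fun v => ?_
    exact measurable_pi_apply _
  have key := vert_indep μ T hT D (fun j => in3 (w j)) (fun j => sc1_in3_inj _)
    (0 : Fin D → Fin 3) j (by
      intro k
      rw [hj]
      have h3 : ∀ k : Fin 2, in3 1 k ≠ 0 := by decide
      exact h3 k) hφ hF
  rw [integral_indicator_const _ hs] at key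
  have e1 : ∀ y : Arr (Fin 3) X D,
      (s.indicator (fun _ => (1 : ℂ)) (y 0)) * ((‖σ (rst (fun j => in3 (w j)) y) - 1‖ : ℝ) : ℂ) =
      ((s.indicator (fun _ => (1 : ℝ)) (y 0) * ‖σ (rst (fun j => in3 (w j)) y) - 1‖ : ℝ) : ℂ) := by
    intro y
    by_cases hy : y 0 ∈ s <;> simp [hy]
  simp_rw [e1] at key
  rw [integral_complex_ofReal, integral_complex_ofReal] at key
  have key2 : ∫ y, (s.indicator (fun _ => (1 : ℝ)) (y 0) *
      ‖σ (rst (fun j => in3 (w j)) y) - 1‖ : ℝ) ∂(cube μ T (Fin 3) D) =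
      μ.real s * ∫ x, ‖σ x - 1‖ ∂(cube μ T (Fin 2) D) := by
    apply Complex.ofReal_injective
    rw [key]
    push_cast
    simp
  have hm : Measurable (fun y : Arr (Fin 3) X D => (s.indicator (fun _ => (1 : ℝ)) (y 0) *
      ‖σ (rst (fun j => in3 (w j)) y) - 1‖ : ℝ)) := by
    refine Measurable.mul ?_ ?_
    · exact (measurable_const.indicator hs).comp (measurable_pi_apply _)
    · exact ((hσ.comp hr).sub_const 1).norm
  have hnn : ∀ y : Arr (Fin 3) X D, 0 ≤ (s.indicator (fun _ => (1 : ℝ)) (y 0) *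
      ‖σ (rst (fun j => in3 (w j)) y) - 1‖ : ℝ) := by
    intro y
    refine mul_nonneg ?_ (norm_nonneg _)
    by_cases hy : y 0 ∈ s <;> simp [hy]
  have hint : Integrable (fun y : Arr (Fin 3) X D => (s.indicator (fun _ => (1 : ℝ)) (y 0) *
      ‖σ (rst (fun j => in3 (w j)) y) - 1‖ : ℝ)) (cube μ T (Fin 3) D) := by
    refine Integrable.of_bound hm.aestronglyMeasurable 2 (Filter.Eventually.of_forall fun y => ?_)
    rw [Real.norm_of_nonneg (hnn y)]
    by_cases hy : y 0 ∈ s
    · simpa [hy] using hnb _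
    · simp [hy]
  have e2 : ∀ y : Arr (Fin 3) X D,
      s.indicator 1 (y 0) * ENNReal.ofReal ‖σ (rst (fun j => in3 (w j)) y) - 1‖ =
      ENNReal.ofReal (s.indicator (fun _ => (1 : ℝ)) (y 0) *
        ‖σ (rst (fun j => in3 (w j)) y) - 1‖) := by
    intro y
    by_cases hy : y 0 ∈ s <;> simp [hy]
  simp_rw [e2]
  rw [← ofReal_integral_eq_lintegral_ofReal hint (Filter.Eventually.of_forall hnn), key2,
    ENNReal.ofReal_mul measureReal_nonneg, ofReal_measureReal]

/-- **SC1.** Uniform dispersion estimate for a cocycle close to `1`.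

Proof. Write `η = ∫ ‖σ - 1‖`, `Φ = vE σ`, `V a = vK a`. Let `b : X → ℝ` be the indicator of a
measurable set. By `two_patterns_joint` with `e j = in3 0`, `e' j = out3` (both injective, the only
common element is `in3 0 0 = out3 0 = 0`),
`∫ b a * (∫ ∫ ‖σ x - σ x'‖ ∂V a ∂V a) ∂μ = ∫ b (y 0) * ‖σ (rst in3 y) - σ (rst out3 y)‖ ∂(cube 3)`.
By the cocycle identity `σ(outer) = σ(inner 0) * ∏_{w ≠ 0} cj σ(inner w)` and unimodularity the
integrand is at most `b (y 0) * ∑_{w ≠ 0} ‖σ(inner w) - 1‖`. For `w ≠ 0` choose `j` with `w j = 1`;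
`0` is not in the range of `in3 1`, so `vert_indep` gives
`∫ b (y 0) ‖σ(inner w) - 1‖ = (∫ b) * η`. So the left side is at most `(2 ^ D - 1) * η * ∫ b` for
every indicator `b`, hence `∫ ∫ ‖σ x - σ x'‖ ∂V a ∂V a ≤ 2 ^ D * η` for almost every `a`, and
`‖σ x - Φ a‖ ≤ ∫ ‖σ x - σ x'‖ ∂(V a)(x')`. -/
theorem scl_disp {X : Type} [MeasurableSpace X] [StandardBorelSpace X] [Nonempty X]
    (μ : Measure X) [IsProbabilityMeasure μ] (T : X ≃ᵐ X) (hT : Ergodic T μ) (D : ℕ)
    {σ : Arr (Fin 2) X D → ℂ} (hσ : Measurable σ) (h1 : ∀ x, ‖σ x‖ = 1) (hc : IsCoc μ T D σ) :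
    ∀ᵐ a ∂μ, ∫ x, ‖σ x - vE μ T (Fin 2) D 0 σ a‖ ∂(vK μ T (Fin 2) D 0 a) ≤
      2 ^ D * ∫ x, ‖σ x - 1‖ ∂(cube μ T (Fin 2) D) := by
  classical
  have := cube_prob μ T (Fin 3) D
  have := cube_prob μ T (Fin 2) D
  have := vK_prob μ T (Fin 2) D 0
  set V := vK μ T (Fin 2) D 0 with hV
  set η : ℝ := ∫ x, ‖σ x - 1‖ ∂(cube μ T (Fin 2) D) with hη
  have hη0 : 0 ≤ η := integral_nonneg fun x => norm_nonneg _
  -- measurability of the patterns
  have hrin : ∀ w : Fin D → Fin 2,
      Measurable (fun y : Arr (Fin 3) X D => rst (κ := Fin 2) (fun j => in3 (w j)) y) := fun w =>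
    measurable_pi_lambda _ fun v => measurable_pi_apply _
  have hrout : Measurable (fun y : Arr (Fin 3) X D => rst (κ := Fin 2) (fun _ => out3) y) :=
    measurable_pi_lambda _ fun v => measurable_pi_apply _
  have hrin0 : Measurable (fun y : Arr (Fin 3) X D => rst (κ := Fin 2) (fun _ => in3 0) y) :=
    measurable_pi_lambda _ fun v => measurable_pi_apply _
  have joint := two_patterns_joint μ T hT.toMeasurePreserving (ι := Fin 3) (κ := Fin 2)
    (κ' := Fin 2) D (fun _ => in3 0) (fun _ => out3) (fun _ => sc1_in3_inj 0)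
    (fun _ => sc1_out3_inj) 0 0 (fun _ => by
      have h4 : in3 0 0 = out3 0 := by decide
      exact h4)
    (by
      intro j a b h
      have : ∀ a b : Fin 2, in3 0 a = out3 b → a = 0 ∧ b = 0 := by decide
      exact this a b h)
  have hVm : Measurable (fun a => (V a).prod (V a)) := by
    have : (fun a => (V a).prod (V a)) = fun a => (V ×ₖ V) a := by
      funext a
      rw [Kernel.prod_apply]
    rw [this]
    exact Kernel.measurable _
  -- the two-point function
  set H : Arr (Fin 2) X D × Arr (Fin 2) X D → ℝ≥0∞ := fun p => ENNReal.ofReal ‖σ p.1 - σ p.2‖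
    with hH
  have hHm : Measurable H := by
    refine ENNReal.measurable_ofReal.comp ?_
    exact ((hσ.comp measurable_fst).sub (hσ.comp measurable_snd)).norm
  have hG : Measurable (fun a => ∫⁻ p, H p ∂((V a).prod (V a))) :=
    Measure.measurable_lintegral hHm |>.comp hVm
  have hae : ∀ᵐ a ∂μ, ∀ᵐ x ∂(V a), x 0 = a := by
    have := ae_vK μ T (Fin 2) D 0 (P := fun _ => True) (by simp)
    filter_upwards [this] with a ha
    filter_upwards [ha] with x hx using hx.2
  -- bound on every set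
  have hset : ∀ s, MeasurableSet s → μ s < ∞ →
      ∫⁻ a in s, (∫⁻ p, H p ∂((V a).prod (V a))) ∂μ ≤
        ∫⁻ _ in s, ENNReal.ofReal (2 ^ D * η) ∂μ := by
    intro s hs _
    have hKm : Measurable (fun p : Arr (Fin 2) X D × Arr (Fin 2) X D =>
        (s.indicator 1 (p.1 0) : ℝ≥0∞) * H p) := by
      refine Measurable.mul ?_ hHm
      exact (measurable_one.indicator hs).comp
        ((measurable_pi_apply _).comp measurable_fst)
    have lhs : ∫⁻ a in s, (∫⁻ p, H p ∂((V a).prod (V a))) ∂μ =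
        ∫⁻ y, s.indicator 1 (y 0) *
          ENNReal.ofReal ‖σ (rst (fun _ => in3 0) y) - σ (rst (fun _ => out3) y)‖
          ∂(cube μ T (Fin 3) D) := by
      have s1 : ∫⁻ p, (s.indicator 1 (p.1 0) : ℝ≥0∞) * H p
          ∂(μ.bind (fun a => (V a).prod (V a))) =
          ∫⁻ a in s, (∫⁻ p, H p ∂((V a).prod (V a))) ∂μ := by
        rw [Measure.lintegral_bind hVm.aemeasurable hKm.aemeasurable,
          ← lintegral_indicator hs]
        refine lintegral_congr_ae ?_
        filter_upwards [hae] with a ha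
        have hfst : ∀ᵐ p ∂((V a).prod (V a)), p.1 0 = a := by
          exact Measure.quasiMeasurePreserving_fst.ae ha
        calc ∫⁻ p, (s.indicator 1 (p.1 0) : ℝ≥0∞) * H p ∂((V a).prod (V a))
            = ∫⁻ p, (s.indicator 1 a : ℝ≥0∞) * H p ∂((V a).prod (V a)) := by
              refine lintegral_congr_ae ?_
              filter_upwards [hfst] with p hp
              rw [hp]
          _ = (s.indicator 1 a : ℝ≥0∞) * ∫⁻ p, H p ∂((V a).prod (V a)) := by
              rw [lintegral_const_mul _ hHm]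
          _ = s.indicator (fun a => ∫⁻ p, H p ∂((V a).prod (V a))) a := by
              by_cases has : a ∈ s <;> simp [has]
      rw [← s1, ← joint, lintegral_map hKm (hrin0.prodMk hrout)]
      rfl
    rw [lhs]
    have hub : ∀ᵐ y ∂(cube μ T (Fin 3) D),
        s.indicator 1 (y 0) *
          ENNReal.ofReal ‖σ (rst (fun _ => in3 0) y) - σ (rst (fun _ => out3) y)‖ ≤
        ∑ w ∈ (Finset.univ.erase (0 : Fin D → Fin 2)),
          s.indicator 1 (y 0) * ENNReal.ofReal ‖σ (rst (fun j => in3 (w j)) y) - 1‖ := by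
      filter_upwards [hc] with y hy
      rw [← Finset.mul_sum]
      gcongr
      rw [← ENNReal.ofReal_sum_of_nonneg (fun _ _ => norm_nonneg _)]
      exact ENNReal.ofReal_le_ofReal (sc1_pt h1 y hy)
    refine (lintegral_mono_ae hub).trans ?_
    rw [lintegral_finsetSum]
    swap
    · intro w _
      refine Measurable.mul ?_ ?_
      · exact (measurable_one.indicator hs).comp (measurable_pi_apply _)
      · exact ENNReal.measurable_ofReal.comp ((hσ.comp (hrin w)).sub_const 1).norm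
    rw [Finset.sum_congr rfl (fun w hw => sc1_indep μ T hT D hσ h1 hs w (Finset.ne_of_mem_erase hw)),
      Finset.sum_const, lintegral_const, Measure.restrict_apply MeasurableSet.univ,
      Set.univ_inter, nsmul_eq_mul, ENNReal.ofReal_mul (by positivity), ← hη]
    have hcard : (((Finset.univ.erase (0 : Fin D → Fin 2)).card : ℕ) : ℝ≥0∞) ≤
        ENNReal.ofReal (2 ^ D) := by
      have h2 : (Finset.univ.erase (0 : Fin D → Fin 2)).card ≤ 2 ^ D := by
        refine (Finset.card_erase_le).trans ?_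
        simp
      have h3 : ENNReal.ofReal (2 ^ D) = ((2 ^ D : ℕ) : ℝ≥0∞) := by
        rw [← ENNReal.ofReal_natCast]
        push_cast
        rfl
      rw [h3]
      exact_mod_cast h2
    calc (((Finset.univ.erase (0 : Fin D → Fin 2)).card : ℕ) : ℝ≥0∞) * (μ s * ENNReal.ofReal η)
        ≤ ENNReal.ofReal (2 ^ D) * (μ s * ENNReal.ofReal η) := by gcongr
      _ = ENNReal.ofReal (2 ^ D) * ENNReal.ofReal η * μ s := by ring
  have hfin := ae_le_of_forall_setLIntegral_le_of_sigmaFinite hG hset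
  filter_upwards [hfin] with a ha
  -- the final estimate
  have hσb : Integrable σ (V a) :=
    Integrable.of_bound hσ.aestronglyMeasurable 1 (Filter.Eventually.of_forall fun x => (h1 x).le)
  have hpt : ∀ x, ‖σ x - vE μ T (Fin 2) D 0 σ a‖ₑ ≤
      ∫⁻ x', ENNReal.ofReal ‖σ x - σ x'‖ ∂(V a) := by
    intro x
    have e : σ x - vE μ T (Fin 2) D 0 σ a = ∫ x', (σ x - σ x') ∂(V a) := by
      rw [integral_sub (integrable_const _) hσb]
      simp [vE, hV]
    rw [e]
    refine (enorm_integral_le_lintegral_enorm _).trans (le_of_eq ?_)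
    simp_rw [ofReal_norm]
  have hmeas : AEStronglyMeasurable (fun x => σ x - vE μ T (Fin 2) D 0 σ a) (V a) :=
    (hσ.sub_const _).aestronglyMeasurable
  rw [integral_norm_eq_lintegral_enorm hmeas]
  refine ENNReal.toReal_le_of_le_ofReal (by positivity) ?_
  refine (lintegral_mono hpt).trans ?_
  have hprod : ∫⁻ x, ∫⁻ x', ENNReal.ofReal ‖σ x - σ x'‖ ∂(V a) ∂(V a) =
      ∫⁻ p, H p ∂((V a).prod (V a)) := by
    rw [lintegral_prod _ hHm.aemeasurable]
  rw [hprod]
  exact ha

end Pool.Agent.HK820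

end

/-! ### Part `SC2` -/

section

open MeasureTheory ProbabilityTheory Filter Topology
open scoped ComplexConjugate ENNReal

namespace Pool.Agent.HK820

/-- telescoping for products of complex numbers of norm at most `1` -/
theorem SC2_prod {α : Type*} (s : Finset α) (a b : α → ℂ) (ha : ∀ i, ‖a i‖ ≤ 1)
    (hb : ∀ i, ‖b i‖ ≤ 1) : ‖∏ i ∈ s, a i - ∏ i ∈ s, b i‖ ≤ ∑ i ∈ s, ‖a i - b i‖ := by
  classical
  induction s using Finset.induction_on with
  | empty => simp
  | insert i s hi ih =>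
    rw [Finset.prod_insert hi, Finset.prod_insert hi, Finset.sum_insert hi]
    have h1 : a i * ∏ j ∈ s, a j - b i * ∏ j ∈ s, b j =
        (a i - b i) * ∏ j ∈ s, a j + b i * (∏ j ∈ s, a j - ∏ j ∈ s, b j) := by ring
    rw [h1]
    refine (norm_add_le _ _).trans ?_
    refine add_le_add ?_ ?_
    · rw [norm_mul]
      have h2 : ‖∏ j ∈ s, a j‖ ≤ 1 := by
        rw [norm_prod]
        exact Finset.prod_le_one (fun j _ => norm_nonneg _) (fun j _ => ha j)
      calc ‖a i - b i‖ * ‖∏ j ∈ s, a j‖ ≤ ‖a i - b i‖ * 1 :=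
            mul_le_mul_of_nonneg_left h2 (norm_nonneg _)
        _ = _ := mul_one _
    · rw [norm_mul]
      calc ‖b i‖ * ‖∏ j ∈ s, a j - ∏ j ∈ s, b j‖ ≤ 1 * ‖∏ j ∈ s, a j - ∏ j ∈ s, b j‖ :=
            mul_le_mul_of_nonneg_right (hb i) (norm_nonneg _)
        _ ≤ _ := by rw [one_mul]; exact ih

theorem SC2_cj (n : ℕ) (a b : ℂ) : ‖cj n a - cj n b‖ = ‖a - b‖ := by
  unfold cj
  split_ifs
  · rfl
  · rw [← map_sub, RCLike.norm_conj]

theorem SC2_in3_inj (a : Fin 2) : Function.Injective (in3 a) := by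
  revert a
  decide

theorem SC2_out3_inj : Function.Injective out3 := by
  decide

theorem SC2_common (a b c : Fin 2) (h : in3 a b = out3 c) : b = 0 ∧ c = a := by
  revert a b c
  decide

/-- **SC2.** A cocycle close to `1` in `L¹` is UNIFORMLY close to a derivative.

Proof. `η = ∫ ‖σ - 1‖`, `Φ = vE σ`, `‖Φ‖ ≤ 1`. In `cube μ T (Fin 3) D` the cocycle identity gives
`‖σ(outer y) - ∏ w, cj (wt w) (Φ (y (out3 ∘ w)))‖ ≤ ∑ w, ‖σ(inner w) - Φ (y (out3 ∘ w))‖`
(telescoping, all factors have norm `≤ 1`). The left side is a function of the outer pattern; take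
the conditional expectation given the outer pattern: by `two_patterns_condExp` with
`e j = in3 (w j)`, `e' j = out3`, `a₀ = 0`, `b₀ = w`, for the function
`G x = ‖σ x - Φ (x 0)‖`, every term on the right becomes `vE G (y (out3 ∘ w))`, and
`vE G a = ∫ ‖σ x - Φ a‖ ∂(V a) ≤ 2 ^ D * η` by SC1 (`ae_vK`). So the left side is at most
`2 ^ D * 2 ^ D * η` almost everywhere, and the left side is `‖σ - dd D Φ‖` at `rst out3 y`, so the
bound holds `cube μ T (Fin 2) D`-almost everywhere (`cube_rst`). -/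
theorem scl_unif {X : Type} [MeasurableSpace X] [StandardBorelSpace X] [Nonempty X]
    (μ : Measure X) [IsProbabilityMeasure μ] (T : X ≃ᵐ X) (hT : Ergodic T μ) (D : ℕ)
    {σ : Arr (Fin 2) X D → ℂ} (hσ : Measurable σ) (h1 : ∀ x, ‖σ x‖ = 1) (hc : IsCoc μ T D σ) :
    ∀ᵐ x ∂(cube μ T (Fin 2) D), ‖σ x - dd D (vE μ T (Fin 2) D 0 σ) x‖ ≤
      4 ^ D * ∫ x, ‖σ x - 1‖ ∂(cube μ T (Fin 2) D) := by
  have hTm : MeasurePreserving T μ μ := hT.toMeasurePreserving
  have hP2 := cube_prob μ T (Fin 2) D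
  have hP3 := cube_prob μ T (Fin 3) D
  set η : ℝ := ∫ x, ‖σ x - 1‖ ∂(cube μ T (Fin 2) D) with hη
  set Φ : X → ℂ := vE μ T (Fin 2) D 0 σ with hΦ
  have hσb : BM σ := ⟨hσ, 1, fun x => (h1 x).le⟩
  have hΦm : Measurable Φ := (vE_bm μ T (Fin 2) D 0 hσb).1
  have hVp := vK_prob μ T (Fin 2) D 0
  have hΦ1 : ∀ a, ‖Φ a‖ ≤ 1 := by
    intro a
    calc ‖Φ a‖ ≤ ∫ x, ‖σ x‖ ∂(vK μ T (Fin 2) D 0 a) := norm_integral_le_integral_norm _
      _ = 1 := by simp [h1]
  -- the defect function
  set G : Arr (Fin 2) X D → ℂ := fun x => ((‖σ x - Φ (x 0)‖ : ℝ) : ℂ) with hG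
  have hev : Measurable (fun x : Arr (Fin 2) X D => x 0) := measurable_pi_apply _
  have hGm : Measurable (fun x : Arr (Fin 2) X D => ‖σ x - Φ (x 0)‖) :=
    (hσ.sub (hΦm.comp hev)).norm
  have hG2 : ∀ x : Arr (Fin 2) X D, ‖σ x - Φ (x 0)‖ ≤ 2 := fun x =>
    (norm_sub_le _ _).trans (by linarith [h1 x, hΦ1 (x 0)])
  have hGb : BM G := by
    refine ⟨Complex.measurable_ofReal.comp hGm, 2, fun x => ?_⟩
    rw [hG, Complex.norm_real, norm_norm]
    exact hG2 x
  -- its conditional mean at a vertex is small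
  have hVG : ∀ᵐ a ∂μ, ‖vE μ T (Fin 2) D 0 G a‖ ≤ 2 ^ D * η := by
    have e1 := scl_disp μ T hT D hσ h1 hc
    have e2 := ae_vK μ T (Fin 2) D 0 (P := fun _ => True) (Filter.Eventually.of_forall fun _ =>
      trivial)
    filter_upwards [e1, e2] with a ha1 ha2
    have e3 : vE μ T (Fin 2) D 0 G a =
        ((∫ x, ‖σ x - Φ a‖ ∂(vK μ T (Fin 2) D 0 a) : ℝ) : ℂ) := by
      rw [← integral_complex_ofReal]
      refine integral_congr_ae ?_
      filter_upwards [ha2] with x hx
      rw [hG]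
      simp only [hx.2]
    rw [e3, Complex.norm_real, Real.norm_of_nonneg (integral_nonneg fun x => norm_nonneg _)]
    exact ha1
  -- measurability of the restrictions
  have mo : Measurable (rst (fun _ => out3) : Arr (Fin 3) X D → Arr (Fin 2) X D) :=
    measurable_pi_lambda _ fun w => measurable_pi_apply _
  have mi : ∀ w : Fin D → Fin 2,
      Measurable (rst (fun j => in3 (w j)) : Arr (Fin 3) X D → Arr (Fin 2) X D) := fun w =>
    measurable_pi_lambda _ fun v => measurable_pi_apply _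
  have hmp : MeasurePreserving (rst (fun _ => out3) : Arr (Fin 3) X D → Arr (Fin 2) X D)
      (cube μ T (Fin 3) D) (cube μ T (Fin 2) D) :=
    (cube_rst hTm (fun _ => out3) (fun _ => SC2_out3_inj)).mp
  have hHm : Measurable (fun x => ‖σ x - dd D Φ x‖) := by
    have : Measurable (dd D Φ) := (dd_bm D (vE_bm μ T (Fin 2) D 0 hσb)).1
    exact (hσ.sub this).norm
  have hdd : ∀ x, ‖dd D Φ x‖ ≤ 1 := by
    intro x
    unfold dd
    rw [norm_prod]
    refine Finset.prod_le_one (fun j _ => norm_nonneg _) (fun j _ => ?_)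
    rw [norm_cj]
    exact hΦ1 _
  have hH2 : ∀ x, ‖σ x - dd D Φ x‖ ≤ 2 := fun x =>
    (norm_sub_le _ _).trans (by linarith [h1 x, hdd x])
  have intR : ∀ {Z : Type} [MeasurableSpace Z] (P : Measure Z) [IsProbabilityMeasure P]
      (f : Z → ℝ), Measurable f → (∀ z, 0 ≤ f z) → (∀ z, f z ≤ 2) → Integrable f P := by
    intro Z _ P _ f hf h0 h2
    refine Integrable.of_bound hf.aestronglyMeasurable 2 (Filter.Eventually.of_forall fun z => ?_)
    rw [Real.norm_of_nonneg (h0 z)]
    exact h2 z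
  -- pointwise telescoping
  have hpt : ∀ᵐ y ∂(cube μ T (Fin 3) D),
      ‖σ (rst (fun _ => out3) y) - dd D Φ (rst (fun _ => out3) y)‖ ≤
        ∑ w : Fin D → Fin 2, ‖σ (rst (fun j => in3 (w j)) y) -
          Φ (rst (fun j => in3 (w j)) y 0)‖ := by
    filter_upwards [hc] with y hy
    rw [hy]
    refine (SC2_prod Finset.univ _ _ ?_ ?_).trans ?_
    · intro w
      rw [norm_cj]
      exact (h1 _).le
    · intro w
      rw [norm_cj]
      exact hΦ1 _
    · refine Finset.sum_le_sum fun w _ => ?_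
      rw [SC2_cj]
      refine le_of_eq ?_
      congr 1
  -- the integral estimate
  have key : ∀ s : Set (Arr (Fin 2) X D), MeasurableSet s → ∀ w : Fin D → Fin 2,
      ∫ y in (rst (fun _ => out3)) ⁻¹' s, ‖σ (rst (fun j => in3 (w j)) y) -
          Φ (rst (fun j => in3 (w j)) y 0)‖ ∂(cube μ T (Fin 3) D) ≤
        2 ^ D * η * (cube μ T (Fin 3) D).real ((rst (fun _ => out3)) ⁻¹' s) := by
    intro s hs w
    set A : Set (Arr (Fin 3) X D) := (rst (fun _ => out3)) ⁻¹' s with hA
    have hAm : MeasurableSet A := mo hs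
    have hm : MeasurableSpace.comap (rst (fun _ => out3) : Arr (Fin 3) X D → Arr (Fin 2) X D)
        inferInstance ≤ (inferInstance : MeasurableSpace (Arr (Fin 3) X D)) := mo.comap_le
    have hce := two_patterns_condExp μ T hTm D (fun j => in3 (w j)) (fun _ => out3)
      (fun j => SC2_in3_inj _) (fun _ => SC2_out3_inj) 0 w (fun j => rfl)
      (fun j a b hab => SC2_common _ _ _ hab) hGb
    have hGi : BM (fun y => G (rst (fun j => in3 (w j)) y)) := BMs.comp hGb (mi w)
    have e1 : ∫ y in A, ((cube μ T (Fin 3) D)[fun y => G (rst (fun j => in3 (w j)) y) |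
        MeasurableSpace.comap (rst (fun _ => out3)) inferInstance]) y ∂(cube μ T (Fin 3) D) =
        ∫ y in A, G (rst (fun j => in3 (w j)) y) ∂(cube μ T (Fin 3) D) :=
      setIntegral_condExp hm (hGi.integrable _) ⟨s, hs, rfl⟩
    have e2 : ∀ᵐ y ∂(cube μ T (Fin 3) D), ‖((cube μ T (Fin 3) D)[fun y =>
        G (rst (fun j => in3 (w j)) y) |
        MeasurableSpace.comap (rst (fun _ => out3)) inferInstance]) y‖ ≤ 2 ^ D * η := by
      have e3 := (cube_eval μ T (Fin 3) D (fun j => in3 (w j) ((0 : Fin D → Fin 2) j))).quasiMeasurePreserving.ae hVG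
      filter_upwards [hce, e3] with y hy1 hy2
      rw [hy1]
      exact hy2
    have e4 : ‖∫ y in A, ((cube μ T (Fin 3) D)[fun y => G (rst (fun j => in3 (w j)) y) |
        MeasurableSpace.comap (rst (fun _ => out3)) inferInstance]) y ∂(cube μ T (Fin 3) D)‖ ≤
        2 ^ D * η * (cube μ T (Fin 3) D).real A :=
      norm_setIntegral_le_of_norm_le_const_ae' (measure_lt_top _ _)
        (e2.mono fun y hy _ => hy)
    rw [e1] at e4
    have e5 : ∫ y in A, G (rst (fun j => in3 (w j)) y) ∂(cube μ T (Fin 3) D) =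
        ((∫ y in A, ‖σ (rst (fun j => in3 (w j)) y) -
          Φ (rst (fun j => in3 (w j)) y 0)‖ ∂(cube μ T (Fin 3) D) : ℝ) : ℂ) :=
      integral_complex_ofReal
    rw [e5, Complex.norm_real,
      Real.norm_of_nonneg (integral_nonneg fun x => norm_nonneg _)] at e4
    exact e4
  have hfin : (fun x => ‖σ x - dd D Φ x‖) ≤ᵐ[cube μ T (Fin 2) D] fun _ => 4 ^ D * η := by
    refine ae_le_of_forall_setIntegral_le
      (intR _ _ hHm (fun _ => norm_nonneg _) hH2) (integrable_const _) ?_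
    intro s hs _
    have f1 : ∫ x in s, ‖σ x - dd D Φ x‖ ∂(cube μ T (Fin 2) D) =
        ∫ y in (rst (fun _ => out3)) ⁻¹' s,
          ‖σ (rst (fun _ => out3) y) - dd D Φ (rst (fun _ => out3) y)‖
          ∂(cube μ T (Fin 3) D) := by
      rw [← hmp.map_eq]
      exact setIntegral_map hs hHm.aestronglyMeasurable mo.aemeasurable
    have mG : ∀ w : Fin D → Fin 2, Integrable (fun y => ‖σ (rst (fun j => in3 (w j)) y) -
          Φ (rst (fun j => in3 (w j)) y 0)‖) (cube μ T (Fin 3) D) := fun w =>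
      intR _ _ (hGm.comp (mi w)) (fun _ => norm_nonneg _) (fun y => hG2 _)
    have f2 : ∫ y in (rst (fun _ => out3)) ⁻¹' s,
          ‖σ (rst (fun _ => out3) y) - dd D Φ (rst (fun _ => out3) y)‖
          ∂(cube μ T (Fin 3) D) ≤ ∫ y in (rst (fun _ => out3)) ⁻¹' s,
          ∑ w : Fin D → Fin 2, ‖σ (rst (fun j => in3 (w j)) y) -
          Φ (rst (fun j => in3 (w j)) y 0)‖ ∂(cube μ T (Fin 3) D) := by
      refine setIntegral_mono_ae ?_ ?_ hpt
      · exact (intR _ _ (hHm.comp mo) (fun _ => norm_nonneg _) (fun y => hH2 _)).integrableOn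
      · exact (integrable_finsetSum _ fun w _ => mG w).integrableOn
    rw [f1]
    refine f2.trans ?_
    rw [integral_finsetSum _ fun w _ => (mG w).integrableOn]
    refine (Finset.sum_le_sum fun w _ => key s hs w).trans ?_
    rw [Finset.sum_const, setIntegral_const, smul_eq_mul, Finset.card_univ, Fintype.card_fun,
      Fintype.card_fin, Fintype.card_fin, nsmul_eq_mul]
    have f3 : (cube μ T (Fin 3) D).real ((rst (fun _ => out3)) ⁻¹' s) =
        (cube μ T (Fin 2) D).real s := by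
      rw [Measure.real, Measure.real, hmp.measure_preimage hs.nullMeasurableSet]
    rw [f3]
    refine le_of_eq ?_
    push_cast
    have : (4 : ℝ) ^ D = 2 ^ D * 2 ^ D := by
      rw [← mul_pow]
      norm_num
    rw [this]
    ring
  exact hfin

end Pool.Agent.HK820

end
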